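import Pool.Agent.MP_5168f5_an.MX.Rob

/-! Pointwise bounds on conditional probabilities. -/

namespace Pool.Agent.MP_5168f5_an.MX

open H19 H17S H17F Filter

section Fin

variable {Ω W T T' α : Type} {P : FP Ω}

theorem cm_ctx {Θ : Ω → T} {Θ' : Ω → T'} (h : Fn P Θ Θ') (h' : Fn P Θ' Θ) (F : Ω → α) {ω : Ω}
    (hω : ω ∈ P.S) : cm P Θ F ω = cm P Θ' F ω := by
  unfold cm cv
  rw [cE_congr (E' := fun v => Θ' v = Θ' ω) fun v hv => ⟨h' v hv ω hω, h v hv ω hω⟩]

theorem cm_pull {Q : FP W} {f : W → Ω} (h : Law Q f P id) (Θ : Ω → T) (F : Ω → α) {v : W}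
    (hv : v ∈ Q.S) : cm Q (fun w => Θ (f w)) (fun w => F (f w)) v = cm P Θ F (f v) := by
  have p : 0 < pb P fun x => Θ x = Θ (f v) := pb_pos _ ⟨_, h.mem hv, rfl⟩
  refine mul_left_cancel₀ p.ne' ?_
  rw [cm_eq]
  exact (congrArg (· * _) (h.pb_eq fun x => Θ x = Θ (f v)).symm).trans
    ((cm_eq (fun w => Θ (f w)) _ v).trans (h.pb_eq fun x => Θ x = Θ (f v) ∧ F x = F (f v)))

theorem light_le {Θ : Ω → T} {F : Ω → α} {B m : ℝ} (h : Det P F Θ B) (hm : 0 ≤ m) :
    pb P (fun ω => cm P Θ F ω ≤ m) ≤ B * m := by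
  refine (pb_cv P Θ _).trans_le ((P.E_mono fun a ha => ?_).trans (P.E_const _).le)
  obtain ⟨S, h1, h2⟩ := h a ha
  refine (H39F.count (cv P Θ (Θ a)) F _ S hm fun v hv k => ?_).trans
    (mul_le_mul_of_nonneg_right h1 hm)
  obtain ⟨h3, h4⟩ := (mem_cv ha v).1 hv
  exact ⟨h2 v h3 h4, by rw [← h4]; exact k⟩

theorem det_rf {x : Ω → ℝ} {G : Ω → T} {j : ℕ} (i : ℕ) (h : Fn P (fun ω => fl1 j (x ω)) G) :
    Det P (fun ω => fl1 (j + i) (x ω)) G (2 ^ i) := fun a ha =>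
  ⟨Finset.Ico (2 ^ i * fl1 j (x a)) (2 ^ i * fl1 j (x a) + 2 ^ i), by
    rw [Int.card_Ico, add_sub_cancel_left, show ((2 : ℤ) ^ i) = ((2 ^ i : ℕ) : ℤ) by push_cast; rfl,
      Int.toNat_natCast]
    push_cast; exact le_rfl, fun b hb e => fl1_mem_Ico (h b hb a ha e)⟩

theorem ch_rf {x : Ω → ℝ} {G : Ω → T} {j : ℕ} (i : ℕ) (h : Fn P (fun ω => fl1 j (x ω)) G) :
    ch P (fun ω => fl1 (j + i) (x ω)) G ≤ i * lg := log_two_pow i ▸ ch_det (det_rf i h)

end Fin

variable {Ω W T T' α α' : ℕ → Type} {P : ∀ n, FP (Ω n)} {Θ : ∀ n, Ω n → T n}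
  {Θ' : ∀ n, Ω n → T' n} {F : ∀ n, Ω n → α n} {F' : ∀ n, Ω n → α' n} {M : ℕ → ℕ} {f : ℕ → ℝ}

/-- Given `Θ`, the value of `F` has probability at most `exp (o(M) - f)`. -/
def PB (P : ∀ n, FP (Ω n)) (Θ : ∀ n, Ω n → T n) (F : ∀ n, Ω n → α n) (M : ℕ → ℕ) (f : ℕ → ℝ) :
    Prop := ∀ ε : ℝ, 0 < ε → Whp P fun n ω => cm (P n) (Θ n) (F n) ω ≤ Real.exp (ε * M n - f n)

theorem PB.of_log {e : ∀ n, Ω n → ℝ} (h : PB P Θ F M f) (hM : Big M)
    (h0 : ∀ᶠ n in UF, ∀ ω ∈ (P n).S, 0 ≤ e n ω ∧ Real.log (cm (P n) (Θ' n) (F' n) ω) ≤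
      Real.log (cm (P n) (Θ n) (F n) ω) + e n ω) (h1 : Sm M fun n => (P n).E (e n)) :
    PB P Θ' F' M f := fun ε hε => by
  refine ((KSA.mark P M e _ hM (half_pos hε) (h0.mono fun n a ω hω => (a ω hω).1) h1).and
    (h _ (half_pos hε))).mono (h0.mono fun n a ω hω k => ?_)
  have c := (Real.log_le_iff_le_exp (cm_pos _ _ hω)).2 k.2
  exact (Real.log_le_iff_le_exp (cm_pos _ _ hω)).1 (by linarith [k.1, (a ω hω).2])

theorem PB.info (h : PB P Θ F M f) (hM : Big M) (hK : Sm M fun n => mi (P n) (F n) (Θ' n) (Θ n)) :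
    PB P (fun n v => (Θ' n v, Θ n v)) F M f :=
  h.of_log (e := fun n ω => cm (P n) (Θ n) (F n) ω / cm (P n) (fun v => (Θ' n v, Θ n v)) (F n) ω +
    (-Real.log (cm (P n) (Θ n) (F n) ω) -
      -Real.log (cm (P n) (fun v => (Θ' n v, Θ n v)) (F n) ω))) hM
    (Eventually.of_forall fun n ω hω => by
      have a := cm_pos (Θ n) (F n) hω
      have b := cm_pos (fun v => (Θ' n v, Θ n v)) (F n) hω
      have := Real.log_le_sub_one_of_pos (div_pos a b)
      rw [Real.log_div a.ne' b.ne'] at this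
      constructor <;> linarith [div_pos a b])
    ((hK.add (hM.sm 1)).mono (Eventually.of_forall fun n => by
      rw [FP.E_add, FP.E_sub, ← ch_eq_cm, ← ch_eq_cm]
      have := cm_ratio (P n) (Θ n) (F n) (Θ' n)
      unfold mi
      linarith))

theorem PB.coarse (h : PB P Θ F M f) (hM : Big M) (hK : ∀ᶠ n in UF, Fn (P n) (Θ' n) (Θ n)) :
    PB P Θ' F M f :=
  h.of_log (e := fun n ω => cm (P n) (Θ' n) (F n) ω / cm (P n) (fun v => (Θ n v, Θ' n v)) (F n) ω)
    hM (hK.mono fun n k ω hω => by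
      have a := cm_pos (Θ' n) (F n) hω
      have b := cm_pos (fun v => (Θ n v, Θ' n v)) (F n) hω
      have := Real.log_le_sub_one_of_pos (div_pos a b)
      rw [Real.log_div a.ne' b.ne'] at this
      rw [cm_ctx (Θ := Θ n) (Fn.fst _ (Θ' n)) ((Fn.rfl _).pair k) _ hω]
      constructor <;> linarith [div_pos a b])
    ((hM.sm 1).mono (Eventually.of_forall fun n => cm_ratio _ _ _ _))

/-- A new context that is almost a function of the old one. -/
theorem PB.ctx (h : PB P Θ F M f) (hM : Big M) (hK : Sm M fun n => ch (P n) (Θ' n) (Θ n)) :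
    PB P Θ' F M f :=
  (h.info hM (hK.mono (Eventually.of_forall fun _ =>
    (mi_symm _ _ _).trans_le (mi_le _ _ _)))).coarse hM (Eventually.of_forall fun _ => Fn.fst _ _)

/-- A new variable that almost determines the old one. -/
theorem PB.fine (h : PB P Θ F M f) (hM : Big M)
    (hK : Sm M fun n => ch (P n) (F n) fun v => (F' n v, Θ n v)) : PB P Θ F' M f :=
  h.of_log (e := fun n ω => -Real.log (cm (P n) (fun v => (F' n v, Θ n v)) (F n) ω)) hM
    (Eventually.of_forall fun n ω hω => by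
      have a := cm_pos (Θ n) (F' n) hω
      have b := cm_pos (fun v => (F' n v, Θ n v)) (F n) hω
      have c := Real.log_le_log (mul_pos a b) ((cm_chain (Θ n) (F n) (F' n) hω).trans_le
        (cm_mono hω ((Fn.fst _ _).left _)))
      rw [Real.log_mul a.ne' b.ne'] at c
      exact ⟨neg_nonneg.2 (Real.log_nonpos b.le (cm_le_one _ _ _ _)), by linarith⟩)
    (hK.mono (Eventually.of_forall fun n => (ch_eq_cm _ _ _).ge))

theorem PB.cE (h : PB P Θ F M f) (hM : Big M) {E : ∀ n, Ω n → Prop} (hE : Pos P E) :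
    PB (fun n => cE (P n) (E n)) Θ F M f := fun ε hε =>
  ((h.ctx hM (Θ' := fun n v => (E n v, Θ n v)) ((hM.sm lg).mono (Eventually.of_forall fun n =>
    (ch_mono ((Fn.fst _ _).pair (Fn.snd _ _))).trans (ch_prop _ _ _))) ε hε).cE hE).mono
    (hE.sure.mono fun n a ω hω k => by rw [cm_cE _ _ (a ω hω).1 (a ω hω).2]; exact k)

theorem PB.law (h : PB P Θ F M f) {Q : ∀ n, FP (W n)} {ρ : ∀ n, W n → Ω n}
    (hQ : ∀ n, Law (Q n) (ρ n) (P n) id) :
    PB Q (fun n v => Θ n (ρ n v)) (fun n v => F n (ρ n v)) M f := fun ε hε =>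
  ((R4.K31.dnS_law (Eventually.of_forall hQ)).whp (h ε hε)).mono
    (Eventually.of_forall fun n v hv k => by rwa [cm_pull (hQ n) _ _ hv])

theorem PB.of_rob (hM : Big M)
    (h : ∀ E, Pos P E → Le M f fun n => ch (H17F.cE (P n) (E n)) (F n) (Θ n)) : PB P Θ F M f := by
  intro ε hε
  by_contra hn
  have hp := not_whp hn
  refine (h _ hp).false hM hε ?_
  filter_upwards [hp.ex] with n hx
  have k := ch_det (P := H17F.cE (P n) fun ω => ¬cm (P n) (Θ n) (F n) ω ≤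
      Real.exp (ε * M n - f n)) (F := F n) (G := Θ n) (B := 1 / Real.exp (ε * M n - f n))
    fun a ha => (heavy (P n) (Θ n) (F n) (Real.exp_pos _) (cE_sub ha)).imp fun W hW =>
      ⟨hW.1, fun b hb e => hW.2 b (cE_sub hb) e (not_le.1 ((mem_cE hx b).1 hb).2)⟩
  rw [one_div, Real.log_inv, Real.log_exp] at k
  linarith

/-- Bounds on a grid of scales give a bound at all scales. -/
theorem gd_grid {X : ∀ n, Ω n → ℝ} {u : ℕ → ℕ} {N : ℕ} {β β' ε : ℝ} (hβ : 0 ≤ β) (hb : β ≤ β')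
    (hε : 0 < ε)
    (h : ∀ t ≤ N, PB P Θ (fun n v => fl1 (t * u n) (X n v)) M fun n => β * (t * u n) * lg) :
    Whp P fun n ω => Gd (P n) (Θ n) (X n) (N * u n) (Real.exp (ε * M n + β' * u n * lg))
      (Real.exp (-(β * lg))) ω := by
  refine (Whp.all (J := Fin (N + 1)) fun t => h t (Nat.lt_succ_iff.1 t.2) ε hε).mono
    (Eventually.of_forall fun n ω hω k j hj => ?_)
  have i1 : j / u n ≤ N := Nat.div_le_of_le_mul (by rwa [mul_comm])
  have i2 : j ≤ j / u n * u n + u n := by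
    rcases Nat.eq_zero_or_pos (u n) with e | e
    · simp_all
    · exact (Nat.lt_div_mul_add e).le
  refine ((cm_mono hω fun a _ b _ e => fl1_eq_of_le (Nat.div_mul_le_self j (u n))
    (congrArg Prod.fst e)).trans (k ⟨_, Nat.lt_succ_of_le i1⟩)).trans ?_
  rw [← Real.exp_nat_mul, ← Real.exp_add, Real.exp_le_exp]
  have i3 : (j : ℝ) ≤ (j / u n : ℕ) * u n + u n := by exact_mod_cast i2
  have i4 := mul_le_mul_of_nonneg_left i3 (mul_nonneg hβ lg_pos.le)
  have i5 := mul_le_mul_of_nonneg_right hb (mul_nonneg (Nat.cast_nonneg (u n)) lg_pos.le)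
  linarith

/-- The value is rarely much lighter than the length of the list allows. -/
theorem whp_low (hM : Big M) {B : ℕ → ℝ} (h : ∀ᶠ n in UF, 0 < B n ∧ Det (P n) (F n) (Θ n) (B n))
    {ε : ℝ} (hε : 0 < ε) :
    Whp P fun n ω => -Real.log (cm (P n) (Θ n) (F n) ω) ≤ Real.log (B n) + ε * M n := by
  intro δ hδ
  filter_upwards [h, hM.ev (1 / δ / ε)] with n ⟨b, d⟩ m
  refine ((pb_mono fun ω hω k => ?_).trans (light_le d
    (m := Real.exp (-(Real.log (B n) + ε * M n))) (Real.exp_pos _).le)).trans ?_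
  · exact (Real.log_le_iff_le_exp (cm_pos _ _ hω)).1 (by linarith [not_le.1 k])
  · rw [div_le_iff₀ hε] at m
    rw [Real.exp_neg, Real.exp_add, Real.exp_log b, mul_inv, mul_inv_cancel_left₀ b.ne',
      inv_le_comm₀ (Real.exp_pos _) hδ, ← one_div]
    linarith [Real.add_one_le_exp (ε * M n)]

/-- Large entropy gives light values with positive probability. -/
theorem pos_light (hM : Big M) {C : ℝ} (h0 : ∀ᶠ n in UF, 0 ≤ f n ∧
      Det (P n) (F n) (Θ n) (Real.exp (C * M n))) (h : ¬Le M (fun n => ch (P n) (F n) (Θ n)) f) :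
    Pos P fun n ω => f n ≤ -Real.log (cm (P n) (Θ n) (F n) ω) := by
  have e : ∀ n, ∀ ω ∈ (P n).S, Real.exp (-f n) < cm (P n) (Θ n) (F n) ω ↔
      ¬f n ≤ -Real.log (cm (P n) (Θ n) (F n) ω) := fun n ω hω => by
    rw [← Real.lt_log_iff_exp_lt (cm_pos _ _ hω), not_le, neg_lt]
  refine (not_whp (E := fun n ω => Real.exp (-f n) < cm (P n) (Θ n) (F n) ω) fun w => h ?_).mono
    (Eventually.of_forall fun n ω hω k => not_not.1 fun k' => k ((e n ω hω).2 k'))
  refine (hM.sm lg).of2 (R4.K31.whp_small (C := C) (u := fun n => C * M n) w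
    (Eventually.of_forall fun _ => le_rfl)) (h0.mono fun n k => ?_)
  have s := rowKE.sparse (P n) (fun ω => Real.exp (-f n) < cm (P n) (Θ n) (F n) ω) (F n) (Θ n) _ _
    k.2 fun a ha => heavy (P n) (Θ n) (F n) (Real.exp_pos _) ha
  rw [one_div, Real.log_inv, Real.log_exp, Real.log_exp, neg_neg] at s
  linarith [mul_le_of_le_one_left k.1
    (pb_le_one (P n) fun ω => Real.exp (-f n) < cm (P n) (Θ n) (F n) ω)]

end Pool.Agent.MP_5168f5_an.MX
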