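import Pool.Agent.MP_5168f5_an.MX.ABSpec
import Pool.Agent.MP_5168f5_an.H17F.KE
import Pool.Agent.MP_5168f5_an.H17F.KG
import Pool.Agent.MP_5168f5_an.H17F.KS

/-! Small lemmas on cells, products of laws and events. -/

namespace Pool.Agent.MP_5168f5_an.MX.AB

open H19 H17S H17F Filter

theorem ke : KE := rowKE

theorem kg : KG := rowKG rowKE

theorem ks : KS := rowKS rowKE

theorem dn_eq_fl1 (i : ℕ) (a : ℝ) : dn i a = fl1 0 (a / 2 ^ i) := by simp [dn, fl1]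

theorem dn_zero (b : ℤ) : dn 0 b = b := by simp [dn]

theorem abs_dn (i : ℕ) (a : ℝ) : |a / 2 ^ i - dn i a| ≤ 1 := by
  have h1 := Int.floor_le (a / 2 ^ i)
  have h2 := Int.lt_floor_add_one (a / 2 ^ i)
  unfold dn; rw [abs_le]; constructor <;> linarith

theorem abs_floor (a : ℝ) : |a - ⌊a⌋| ≤ 1 := by simpa [dn] using abs_dn 0 a

theorem abs_sub_of_dn {i : ℕ} {a a' : ℝ} (h : dn i a = dn i a') : |a - a'| < 2 ^ i := by
  have h1 := Int.abs_sub_lt_one_of_floor_eq_floor h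
  have h2 : (0 : ℝ) < 2 ^ i := by positivity
  rwa [← sub_div, abs_div, abs_of_pos h2, div_lt_one h2] at h1

theorem dn_add (i j : ℕ) (a : ℝ) : dn (i + j) a = dn i a / 2 ^ j := by
  unfold dn
  rw [pow_add, ← div_div]
  have := Int.floor_div_natCast (a / 2 ^ i) (2 ^ j)
  simpa using this

theorem dn_eq_of_le {i j : ℕ} (hij : i ≤ j) {a a' : ℝ} (h : dn i a = dn i a') :
    dn j a = dn j a' := by
  obtain ⟨k, rfl⟩ := Nat.exists_eq_add_of_le hij
  rw [dn_add, dn_add, h]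

theorem dn_two_mul (i j : ℕ) (y : ℝ) : dn (i + j) (2 ^ j * y) = dn i y := by
  unfold dn
  congr 1
  rw [pow_add]; field_simp

section Fin

variable {Ω Ω' Ω₁ Ω₂ α β γ : Type} {P : FP Ω} {Q : FP Ω'}

theorem det_dn {y : Ω → ℝ} {G : Ω → β} {i : ℕ} {L : ℝ} (hL : 0 ≤ L)
    (h : ∀ a ∈ P.S, ∀ b ∈ P.S, G a = G b → |y a - y b| ≤ L * 2 ^ i) :
    Det P (fun ω => dn i (y ω)) G (2 * L + 3) := by
  simp only [dn_eq_fl1]
  refine det_near1 (j := 0) hL fun a ha b hb e => ?_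
  have h2 : (0 : ℝ) < 2 ^ i := by positivity
  rw [← sub_div, abs_div, abs_of_pos h2, pow_zero, div_one, div_le_iff₀ h2]
  exact h a ha b hb e

theorem ch_dn {y : Ω → ℝ} {G : Ω → β} {i : ℕ} {L : ℝ} (hL : 0 ≤ L)
    (h : ∀ a ∈ P.S, ∀ b ∈ P.S, G a = G b → |y a - y b| ≤ L * 2 ^ i) :
    ch P (fun ω => dn i (y ω)) G ≤ Real.log (2 * L + 3) := ch_det (det_dn hL h)

theorem det_int {F : Ω → ℤ} {G : Ω → β} {L : ℝ} (hL : 0 ≤ L)
    (h : ∀ a ∈ P.S, ∀ b ∈ P.S, G a = G b → |(F a : ℝ) - F b| ≤ L) : Det P F G (2 * L + 3) := by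
  have := det_dn (P := P) (y := fun ω => (F ω : ℝ)) (G := G) (i := 0) hL (by simpa using h)
  simpa only [dn_zero] using this

theorem ch_int {F : Ω → ℤ} {G : Ω → β} {L : ℝ} (hL : 0 ≤ L)
    (h : ∀ a ∈ P.S, ∀ b ∈ P.S, G a = G b → |(F a : ℝ) - F b| ≤ L) :
    ch P F G ≤ Real.log (2 * L + 3) := ch_det (det_int hL h)

/-- Two integer variables at bounded distance have the same entropy up to a constant. -/
theorem ch_close {F F' : Ω → ℤ} {G : Ω → β} {L : ℝ} (hL : 0 ≤ L)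
    (h : ∀ a ∈ P.S, |(F a : ℝ) - F' a| ≤ L) :
    ch P F G ≤ ch P F' G + Real.log (4 * L + 3) := by
  refine (ch_tri F F' G).trans (add_le_add le_rfl ?_)
  have e : 4 * L + 3 = 2 * (2 * L) + 3 := by ring
  rw [e]
  refine ch_int (by linarith) fun a ha b hb k => ?_
  have k1 : F' a = F' b := congrArg Prod.fst k
  have h1 := abs_le.1 (h a ha)
  have h2 := abs_le.1 (h b hb)
  rw [k1] at h1
  rw [abs_le]; constructor <;> linarith [h1.1, h1.2, h2.1, h2.2]

theorem log_le_pow {L : ℝ} (hL : 1 ≤ L) (j : ℕ) :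
    Real.log (2 * (L * 2 ^ j) + 3) ≤ j * lg + Real.log (2 * L + 3) := by
  have h1 : (1 : ℝ) ≤ 2 ^ j := one_le_pow₀ (by norm_num)
  rw [← log_two_pow, ← Real.log_mul (by positivity) (by positivity)]
  exact Real.log_le_log (by positivity) (by nlinarith)

theorem law_prod {P₁ : FP Ω₁} {P₂ : FP Ω₂} {f : Ω → α} {f' : Ω₁ → α} {g : Ω' → β} {g' : Ω₂ → β}
    (h : Law P f P₁ f') (k : Law Q g P₂ g') :
    Law (prod P Q) (fun v => (f v.1, g v.2)) (prod P₁ P₂) fun v => (f' v.1, g' v.2) := fun F => by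
  unfold prod
  rw [E_bind, E_bind]
  refine (P.E_congr fun x _ => k fun y => F (f x, y)).trans ?_
  exact h fun s => P₂.E fun y => F (s, g' y)

theorem prod_fst (P : FP Ω) (Q : FP Ω') : Law (prod P Q) Prod.fst P id := fun F =>
  KGA.E_bind_fst P _ F

theorem prod_snd (P : FP Ω) (Q : FP Ω') : Law (prod P Q) Prod.snd Q id := fun F => by
  unfold prod
  rw [E_bind]
  exact P.E_const (Q.E fun y => F y)

theorem prod_swap (P : FP Ω) (Q : FP Ω') : Law (prod P Q) id (prod Q P) Prod.swap := fun F => by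
  unfold prod
  rw [E_bind, E_bind]
  exact KGA.E_swap P Q fun a b => F (a, b)

theorem mem_prod (v : Ω × Ω') : v ∈ (prod P Q).S ↔ v.1 ∈ P.S ∧ v.2 ∈ Q.S := mem_bind _ _ v

theorem ch_prod_snd (P : FP Ω) (Q : FP Ω') (F : Ω' → α) (G : Ω → β) :
    ch (prod P Q) (fun v => F v.2) (fun v => G v.1) = hh Q F :=
  (KGA.ent_bind P (fun _ => Q) G F fun _ _ _ _ _ => rfl).trans (P.E_const _)

theorem ch_prod_fst (P : FP Ω) (Q : FP Ω') (F : Ω → α) (G : Ω' → β) :
    ch (prod P Q) (fun v => F v.1) (fun v => G v.2) = hh P F :=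
  ((prod_swap P Q).ch_eq (fun v => F v.1) fun v => G v.2).trans (ch_prod_snd Q P F G)

theorem Law.hh_eq {f : Ω → α} {g : Ω' → α} (h : Law P f Q g) (F : α → β) :
    hh P (fun x => F (f x)) = hh Q fun y => F (g y) := hh_law _ _ (h.comp F)

/-- Information on an arbitrary event. -/
theorem mi_cE (P : FP Ω) (E : Ω → Prop) (F : Ω → α) (G : Ω → β) (K : Ω → γ) :
    pb P E * mi (cE P E) F G K ≤ mi P F G K + lg := by
  have h1 := ke.ge P E F K
  have h2 := ke.le P E F fun ω => (G ω, K ω)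
  have h3 := mul_nonneg (sub_nonneg.2 (pb_le_one P E))
    (mi_nonneg (P := cE P fun ω => ¬E ω) F G K)
  unfold mi at h3 ⊢
  nlinarith

theorem mi_unit (F : Ω → α) (G : Ω → β) : mi P F G (fun _ => ()) = hh P F - ch P F G := by
  unfold mi
  rw [ch_unit]
  congr 1
  exact le_antisymm (ch_anti (Fn.fst _ _)) (ch_anti ((Fn.rfl G).pair fun _ _ _ _ _ => rfl))

end Fin

section Seq

variable {Ω β : ℕ → Type} {P : ∀ n, FP (Ω n)} {M : ℕ → ℕ} {L : ℕ → ℝ} {G : ∀ n, Ω n → β n}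

theorem sm_dn {y : ∀ n, Ω n → ℝ} {i : ℕ → ℕ} (hM : Big M) (hL : Sub M L)
    (h : ∀ᶠ n in UF, ∀ a ∈ (P n).S, ∀ b ∈ (P n).S, G n a = G n b →
      |y n a - y n b| ≤ L n * 2 ^ i n) :
    Sm M fun n => ch (P n) (fun ω => dn (i n) (y n ω)) (G n) :=
  (hL.log3 hM 1).mono (h.mono fun n a => (ch_dn (hL.pos n).le a).trans (one_mul _).ge)

theorem sm_int {F : ∀ n, Ω n → ℤ} (hM : Big M) (hL : Sub M L)
    (h : ∀ᶠ n in UF, ∀ a ∈ (P n).S, ∀ b ∈ (P n).S, G n a = G n b →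
      |(F n a : ℝ) - F n b| ≤ L n) : Sm M fun n => ch (P n) (F n) (G n) :=
  (hL.log3 hM 1).mono (h.mono fun n a => (ch_int (hL.pos n).le a).trans (one_mul _).ge)

/-- A variable confined to an interval of length `L * 2 ^ (i + j)` has `j` digits above `i`. -/
theorem le_dn {y : ∀ n, Ω n → ℝ} {i j : ℕ → ℕ} (hM : Big M) (hL : Sub M L)
    (h : ∀ᶠ n in UF, ∀ a ∈ (P n).S, ∀ b ∈ (P n).S, G n a = G n b →
      |y n a - y n b| ≤ L n * 2 ^ (i n + j n)) :
    Le M (fun n => ch (P n) (fun ω => dn (i n) (y n ω)) (G n)) fun n => j n * lg := by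
  refine (hL.log3 hM 1).of_sub (h.mono fun n a => ?_)
  have h1 := ch_dn (P := P n) (y := y n) (G := G n) (i := i n) (L := L n * 2 ^ j n)
    (mul_nonneg (hL.pos n).le (by positivity)) fun u hu v hv e => (a u hu v hv e).trans
      (le_of_eq (by ring))
  linarith [log_le_pow (hL.1 n) (j n)]

theorem le_int {F : ∀ n, Ω n → ℤ} {j : ℕ → ℕ} (hM : Big M) (hL : Sub M L)
    (h : ∀ᶠ n in UF, ∀ a ∈ (P n).S, ∀ b ∈ (P n).S, G n a = G n b →
      |(F n a : ℝ) - F n b| ≤ L n * 2 ^ j n) :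
    Le M (fun n => ch (P n) (F n) (G n)) fun n => j n * lg := by
  have := le_dn (P := P) (G := G) (y := fun n ω => (F n ω : ℝ)) (i := fun _ => 0) (j := j) hM hL
    (by simpa using h)
  simpa only [dn_zero] using this

theorem le_close {F F' : ∀ n, Ω n → ℤ} (hM : Big M) (hL : Sub M L)
    (h : ∀ᶠ n in UF, ∀ a ∈ (P n).S, |(F n a : ℝ) - F' n a| ≤ L n) :
    Le M (fun n => ch (P n) (F n) (G n)) fun n => ch (P n) (F' n) (G n) := by
  refine ((hL.const_mul hM one_le_two).log3 hM 1).of_sub (h.mono fun n a => ?_)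
  have h1 := ch_close (P := P n) (G := G n) (hL.pos n).le a
  have e : 4 * L n + 3 = 2 * (2 * L n) + 3 := by ring
  rw [e] at h1
  linarith

end Seq

end Pool.Agent.MP_5168f5_an.MX.AB
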