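import Pool.Agent.MP_5168f5_an.MX.FalS

/-! The pointwise bound survives side information and events. -/

namespace Pool.Agent.MP_5168f5_an.MX

open H19 H17S H17F Filter
open H39F (pv)

section Fin

variable {Ω T α β : Type} {P : FP Ω}

theorem cm_chain (Θ : Ω → T) (F : Ω → α) (K : Ω → β) {ω : Ω} (hω : ω ∈ P.S) :
    cm P Θ K ω * cm P (fun v => (K v, Θ v)) F ω = cm P Θ (fun v => (F v, K v)) ω := by
  have p : 0 < pb P fun v => Θ v = Θ ω := pb_pos _ ⟨ω, hω, rfl⟩
  refine mul_left_cancel₀ p.ne' ?_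
  rw [← mul_assoc, cm_eq, cm_eq, pb_congr (F := fun v => (K v, Θ v) = (K ω, Θ ω))
    fun v _ => by simp [and_comm], cm_eq (fun v => (K v, Θ v))]
  exact pb_congr fun v _ => by simp only [Prod.mk.injEq]; tauto

theorem cm_ratio (P : FP Ω) (Θ : Ω → T) (F : Ω → α) (K : Ω → β) :
    P.E (fun ω => cm P Θ F ω / cm P (fun v => (K v, Θ v)) F ω) ≤ 1 := by
  have e : P.E (fun ω => cm P Θ F ω / cm P (fun v => (K v, Θ v)) F ω) = P.E fun ω =>
      pv (cv P Θ (Θ ω)) F (F ω) * pv (cv P Θ (Θ ω)) K (K ω) * 1 /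
        pv (cv P Θ (Θ ω)) (fun v => (F v, K v)) (F ω, K ω) := P.E_congr fun ω hω => by
    have h1 := cm_chain Θ F K hω
    have h2 := cm_pos Θ K hω
    have h3 := cm_pos (fun v => (K v, Θ v)) F hω
    change _ = cm P Θ F ω * cm P Θ K ω * 1 / cm P Θ (fun v => (F v, K v)) ω
    rw [← h1]; field_simp
  rw [e, KEA.exp P Θ fun s ω => pv (cv P Θ s) F (F ω) * pv (cv P Θ s) K (K ω) * 1 /
    pv (cv P Θ s) (fun v => (F v, K v)) (F ω, K ω)]
  refine (P.E_mono fun ω _ => (tilt _ F K (fun _ _ => 1) fun _ _ => zero_le_one).trans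
    (le_of_eq ?_)).trans (P.E_const 1).le
  simp only [FP.E_const]

theorem cm_cE (Θ : Ω → T) (F : Ω → α) {E : Ω → Prop} {ω : Ω} (hω : ω ∈ P.S) (h : E ω) :
    cm (cE P E) Θ F ω = cm P (fun v => (E v, Θ v)) F ω := by
  unfold cm cv
  rw [cE_cE (E' := fun v => Θ v = Θ ω) ⟨ω, hω, h, rfl⟩,
    cE_congr (E' := fun v => (E v, Θ v) = (E ω, Θ ω)) fun v _ => by simp [h]]

theorem ch_prop (P : FP Ω) (E : Ω → Prop) (Θ : Ω → T) : ch P E Θ ≤ lg := by
  classical
  refine ch_det fun a _ => ⟨{True, False}, ?_, fun b _ _ => ?_⟩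
  · exact_mod_cast Finset.card_le_two
  · by_cases h : E b <;> simp [h]

theorem pb_cv (P : FP Ω) (Θ : Ω → T) (E : Ω → Prop) :
    pb P E = P.E fun a => pb (cv P Θ (Θ a)) E :=
  KEA.exp P Θ fun _ ω => @ite ℝ (E ω) (Classical.propDecidable _) 1 0

theorem near_le (P : FP Ω) (Θ : Ω → T) (X y : Ω → ℝ) (hy : Fn P y Θ) (j : ℕ) {m : ℝ}
    (hm : 0 ≤ m) : pb P (fun ω => |X ω - y ω| ≤ (2 ^ j)⁻¹ ∧
      cm P Θ (fun v => fl1 j (X v)) ω ≤ m) ≤ 3 * m := by
  refine (pb_cv P Θ _).trans_le ((P.E_mono fun a ha => ?_).trans (P.E_const _).le)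
  refine (H39F.count (cv P Θ (Θ a)) (fun v => fl1 j (X v)) _
    (Finset.Icc (fl1 j (y a) - (1 : ℕ)) (fl1 j (y a) + (1 : ℕ))) hm fun v hv k => ?_).trans ?_
  · obtain ⟨h1, h2⟩ := (mem_cv ha v).1 hv
    refine ⟨fl1_mem_Icc ?_, ?_⟩
    · rw [← hy v h1 a ha h2]; simpa using k.1
    · rw [← h2]; exact k.2
  · refine mul_le_mul_of_nonneg_right (le_of_eq ?_) hm
    rw [Int.card_Icc]
    norm_cast
    omega

end Fin

variable {Ω T T' : ℕ → Type} {P : ∀ n, FP (Ω n)} {Θ : ∀ n, Ω n → T n} {R R' : ℕ → ℕ}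
  {X : ∀ n, Ω n → ℝ} {β : ℝ}

/-- Side information that carries little information about `X`. -/
theorem Fro.info (h : Fro P Θ X R β) (hR : Big R) {K : ∀ n, Ω n → T' n}
    (hK : Sm R fun n => mi (P n) (fun v => fl1 (R n) (X n v)) (K n) (Θ n)) :
    Fro P (fun n v => (K n v, Θ n v)) X R β := by
  intro j hj ε hε
  have w := KSA.mark P R (fun n ω => cm (P n) (Θ n) (fun v => fl1 (j n) (X n v)) ω /
      cm (P n) (fun v => (K n v, Θ n v)) (fun v => fl1 (j n) (X n v)) ω +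
    (-Real.log (cm (P n) (Θ n) (fun v => fl1 (j n) (X n v)) ω) -
      -Real.log (cm (P n) (fun v => (K n v, Θ n v)) (fun v => fl1 (j n) (X n v)) ω))) (ε / 2) hR
    (half_pos hε) (Eventually.of_forall fun n ω hω => by
      have a := cm_pos (Θ n) (fun v => fl1 (j n) (X n v)) hω
      have b := cm_pos (fun v => (K n v, Θ n v)) (fun v => fl1 (j n) (X n v)) hω
      have := Real.log_le_sub_one_of_pos (div_pos a b)
      rw [Real.log_div a.ne' b.ne'] at this
      linarith)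
    ((hK.add (hR.sm 1)).mono (Eventually.of_forall fun n => by
      rw [FP.E_add, FP.E_sub, ← ch_eq_cm, ← ch_eq_cm]
      have a := mi_mono' (P := P n) (F := fun v => fl1 (j n) (X n v))
        (F' := fun v => fl1 (R n) (X n v)) (G := K n) (K := Θ n)
        fun _ _ _ _ e => fl1_eq_of_le (hj n) (congrArg Prod.fst e)
      have := cm_ratio (P n) (Θ n) (fun v => fl1 (j n) (X n v)) (K n)
      unfold mi at a ⊢
      linarith))
  refine (w.and (h j hj _ (half_pos hε))).mono (Eventually.of_forall fun n ω hω k => ?_)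
  have a := cm_pos (Θ n) (fun v => fl1 (j n) (X n v)) hω
  have b := cm_pos (fun v => (K n v, Θ n v)) (fun v => fl1 (j n) (X n v)) hω
  have c := (Real.log_le_iff_le_exp a).2 k.2
  have d := (div_pos a b).le
  exact (Real.log_le_iff_le_exp b).1 (by linarith [k.1])

/-- Side information of small entropy. -/
theorem Fro.side (h : Fro P Θ X R β) (hR : Big R) {K : ∀ n, Ω n → T' n}
    (hK : Sm R fun n => ch (P n) (K n) (Θ n)) : Fro P (fun n v => (K n v, Θ n v)) X R β :=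
  h.info hR (hK.mono (Eventually.of_forall fun _ => (mi_symm _ _ _).trans_le (mi_le _ _ _)))

theorem Fro.cE (h : Fro P Θ X R β) (hR : Big R) {E : ∀ n, Ω n → Prop} (hE : Pos P E) :
    Fro (fun n => cE (P n) (E n)) Θ X R β := fun j hj ε hε =>
  ((h.side hR (K := E) ((hR.sm lg).mono (Eventually.of_forall fun _ => ch_prop _ _ _))
    j hj ε hε).cE hE).mono (hE.sure.mono fun n a ω hω k => by
      rw [cm_cE _ _ (a ω hω).1 (a ω hω).2]; exact k)

theorem Fro.frac (h : Fro P Θ X R β) (hf : Frac R' R) : Fro P Θ X R' β := by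
  intro j hj ε hε
  obtain ⟨h1, c, hc, h2⟩ := hf
  refine (h j (fun n => (hj n).trans (h1 n)) (ε * c) (by positivity)).mono
    (h2.mono fun n a ω _ k => k.trans (Real.exp_le_exp.2 ?_))
  nlinarith

/-- The variable is far from every point that is known from the side information. -/
theorem Fro.unit (h : Fro P Θ X R β) (hR : Big R) (hβ : 0 < β) {y : ∀ n, Ω n → ℝ}
    (hy : ∀ n, Fn (P n) (y n) (Θ n)) :
    ∃ L, Sub R L ∧ Whp P fun n ω => 1 ≤ L n * |X n ω - y n ω| := by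
  refine KSA.wsub P (fun n ω l => 1 ≤ l * |X n ω - y n ω|) R fun c hc hc1 ε hε => ?_
  obtain ⟨f1, d, hd, f2⟩ := hR.frac_floor hc hc1
  have l := lg_pos
  filter_upwards [h _ f1 (β * d * lg / 2) (by positivity) _ (half_pos hε), f2,
    hR.ev (6 / ε / (β * d * lg / 2))] with n a b e
  have h1 := near_le (P n) (Θ n) (X n) (y n) (hy n) ⌊c * R n⌋₊
    (Real.exp_pos (β * d * lg / 2 * R n - β * ⌊c * R n⌋₊ * lg)).le
  have h2 : Real.exp (β * d * lg / 2 * R n - β * ⌊c * R n⌋₊ * lg) ≤ ε / 6 := by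
    rw [div_le_iff₀ (by positivity)] at e
    have h3 := mul_le_mul_of_nonneg_left b (mul_pos hβ l).le
    have h4 := Real.add_one_le_exp (6 / ε)
    refine (Real.exp_le_exp.2 (show _ ≤ -(6 / ε) by nlinarith)).trans ?_
    rw [Real.exp_neg, ← inv_div 6 ε]
    exact inv_anti₀ (by positivity) (by linarith)
  refine ((pb_mono fun ω _ k => ?_).trans (pb_or _ _ _)).trans
    ((add_le_add h1 a).trans (by linarith))
  by_cases g : cm (P n) (Θ n) (fun v => fl1 ⌊c * R n⌋₊ (X n v)) ω ≤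
    Real.exp (β * d * lg / 2 * R n - β * ⌊c * R n⌋₊ * lg)
  · refine Or.inl ⟨?_, g⟩
    have h3 : (2 : ℝ) ^ ⌊c * R n⌋₊ ≤ Real.exp (c * R n) :=
      (two_pow_le_exp _).trans (Real.exp_le_exp.2 (Nat.floor_le (by positivity)))
    rw [← one_div, le_div_iff₀ (by positivity)]
    nlinarith [not_le.1 k, abs_nonneg (X n ω - y n ω)]
  · exact Or.inr g

end Pool.Agent.MP_5168f5_an.MX
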