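import Pool.Agent.MP_5168f5_an.MX.ADefs

/-! Levels, coverings and regular sets. -/

namespace Pool.Agent.MP_5168f5_an.MX

open H19 H17S H17F Filter

section Lev

variable {A A' : Set ℝ} {q r : ℕ} {x y : ℝ}

theorem lev_succ (h : x ∈ lev A q) : x ∈ lev A (q + 1) := ⟨x, h, Or.inr (Or.inr rfl)⟩

theorem lev_mono (h : x ∈ lev A q) (hq : q ≤ r) : x ∈ lev A r := by
  induction hq with
  | refl => exact h
  | step _ ih => exact lev_succ ih

theorem zero_lev (A : Set ℝ) (q : ℕ) : (0 : ℝ) ∈ lev A q :=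
  lev_mono (q := 0) rfl (Nat.zero_le q)

theorem lev_one (h : x ∈ A) : x ∈ lev A 1 := ⟨0, rfl, Or.inl (by simpa using h)⟩

theorem lev_neg (h : x ∈ lev A q) : -x ∈ lev A q := by
  induction q generalizing x with
  | zero => rw [show x = 0 from h, neg_zero]; rfl
  | succ q ih =>
    obtain ⟨y, hy, h⟩ := h
    refine ⟨-y, ih hy, ?_⟩
    rcases h with h | h | h
    · exact Or.inr (Or.inl (by convert h using 1; ring))
    · exact Or.inl (by convert h using 1; ring)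
    · exact Or.inr (Or.inr (by rw [h]))

theorem lev_add (h : x ∈ lev A q) (h' : y ∈ lev A r) : x + y ∈ lev A (q + r) := by
  induction r generalizing y with
  | zero => simpa [show y = 0 from h'] using h
  | succ r ih =>
    obtain ⟨z, hz, h'⟩ := h'
    refine ⟨x + z, ih hz, ?_⟩
    rcases h' with h' | h' | h'
    · exact Or.inl (by convert h' using 1; ring)
    · exact Or.inr (Or.inl (by convert h' using 1; ring))
    · exact Or.inr (Or.inr (by rw [h']))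

theorem lev_sub (h : x ∈ lev A q) (h' : y ∈ lev A r) : x - y ∈ lev A (q + r) := by
  rw [sub_eq_add_neg]; exact lev_add h (lev_neg h')

/-- Levels of a set that lies near a dilate of a level. -/
theorem lev_app {t s : ℝ} (hs : 0 ≤ s) (h : ∀ a ∈ A', ∃ w ∈ lev A r, |a - t * w| ≤ s)
    (hx : x ∈ lev A' q) : ∃ w ∈ lev A (q * r), |x - t * w| ≤ q * s := by
  induction q generalizing x with
  | zero => exact ⟨0, zero_lev _ _, by rw [show x = 0 from hx]; simp⟩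
  | succ q ih =>
    obtain ⟨y, hy, hx⟩ := hx
    obtain ⟨w, hw, h1⟩ := ih hy
    rw [Nat.succ_mul]
    push_cast
    rcases hx with hx | hx | hx
    · obtain ⟨v, hv, h2⟩ := h _ hx
      refine ⟨w + v, lev_add hw hv, ?_⟩
      rw [abs_le] at *
      constructor <;> nlinarith [h1.1, h1.2, h2.1, h2.2]
    · obtain ⟨v, hv, h2⟩ := h _ hx
      refine ⟨w - v, lev_sub hw hv, ?_⟩
      rw [abs_le] at *
      constructor <;> nlinarith [h1.1, h1.2, h2.1, h2.2]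
    · exact ⟨w, lev_mono hw (Nat.le_add_right _ _), by rw [hx]; linarith⟩

end Lev

section Cov

variable {A A' : Set ℝ} {r r' ρ ρ' B B' : ℝ} {q k : ℕ}

theorem floor_cell {z r : ℝ} (hr : 0 < r) (h : |z| ≤ k * r) :
    ⌊z / r⌋ ∈ Finset.Icc (-(k : ℤ)) k ∧ |z - ⌊z / r⌋ * r| ≤ r := by
  have h1 := Int.floor_le (z / r)
  have h2 := Int.lt_floor_add_one (z / r)
  rw [le_div_iff₀ hr] at h1
  rw [div_lt_iff₀ hr] at h2
  rw [abs_le] at h
  refine ⟨Finset.mem_Icc.2 ⟨Int.le_floor.2 ?_, Int.floor_le_iff.2 ?_⟩, ?_⟩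
  · rw [le_div_iff₀ hr]; push_cast; linarith
  · rw [div_lt_iff₀ hr]; push_cast; linarith
  · rw [abs_le]; constructor <;> linarith

theorem card_cells (k : ℕ) (T : Finset ℝ) (f : ℤ × ℝ → ℝ) (h : (T.card : ℝ) ≤ B) :
    (((Finset.Icc (-(k : ℤ)) k ×ˢ T).image f).card : ℝ) ≤ (2 * k + 1) * B := by
  have h1 : ((Finset.Icc (-(k : ℤ)) k ×ˢ T).image f).card ≤ (2 * k + 1) * T.card := by
    refine Finset.card_image_le.trans (le_of_eq ?_)
    rw [Finset.card_product, Int.card_Icc]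
    congr 1
    omega
  have h2 : (((Finset.Icc (-(k : ℤ)) k ×ˢ T).image f).card : ℝ) ≤ (2 * k + 1) * T.card := by
    exact_mod_cast h1
  exact h2.trans (mul_le_mul_of_nonneg_left h (by positivity))

theorem Cov.mono (h : Cov A r ρ B) (hB : B ≤ B') : Cov A r ρ B' :=
  h.imp fun _ hT => ⟨hT.1.trans hB, hT.2⟩

theorem Cov.grow (h : Cov (lev A (q + q)) r ρ B) (hr : 0 < r) (k : ℕ) :
    Cov (lev A q) (k * r) ρ ((2 * k + 1) * B) := by
  classical
  obtain ⟨T, h1, h2⟩ := h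
  have h3 : ∀ m : ℤ, ∃ y ∈ lev A q, ∀ w ∈ lev A q, ⌊w / r⌋ = m → ⌊y / r⌋ = m := by
    intro m
    by_cases h : ∃ w ∈ lev A q, ⌊w / r⌋ = m
    · obtain ⟨w, a, b⟩ := h
      exact ⟨w, a, fun _ _ _ => b⟩
    · exact ⟨0, zero_lev _ _, fun w a b => absurd ⟨w, a, b⟩ h⟩
  choose y hy hy' using h3
  refine ⟨_, card_cells k T (fun v => y v.1 + v.2) h1, fun w hw hk => ?_⟩
  have h4 := Int.abs_sub_lt_one_of_floor_eq_floor (hy' _ w hw rfl).symm
  rw [← sub_div, abs_div, abs_of_pos hr, div_lt_one hr] at h4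
  obtain ⟨t, ht, h5⟩ := h2 _ (lev_sub hw (hy ⌊w / r⌋)) h4.le
  exact ⟨_, Finset.mem_image.2 ⟨(⌊w / r⌋, t), Finset.mem_product.2 ⟨(floor_cell hr hk).1, ht⟩, rfl⟩,
    by rw [← sub_sub]; exact h5⟩

theorem Cov.map {t : ℝ} (h : Cov (lev A (q + q)) r ρ B) (hr : 0 < r) (hρ : 0 < ρ')
    (H : ∀ u ∈ A', |u| ≤ r' → ∃ w ∈ lev A q, |w| ≤ k * r ∧
      ∀ τ, |w - τ| ≤ ρ → |u - t * τ| ≤ k * ρ') :
    Cov A' r' ρ' ((2 * k + 1) * ((2 * k + 1) * B)) := by
  classical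
  obtain ⟨T, h1, h2⟩ := h.grow hr k
  refine ⟨_, card_cells k T (fun v => t * v.2 + v.1 * ρ') h1, fun u hu hk => ?_⟩
  obtain ⟨w, a, b, c⟩ := H u hu hk
  obtain ⟨τ, d, e⟩ := h2 w a b
  have h3 := floor_cell hρ (c τ e)
  exact ⟨_, Finset.mem_image.2 ⟨(_, τ), Finset.mem_product.2 ⟨h3.1, d⟩, rfl⟩,
    by rw [← sub_sub]; exact h3.2⟩

theorem Cov.ent {Ω : Type} {P : FP Ω} {f : Ω → ℝ} {j : ℕ} (h : Cov A r (2 ^ j)⁻¹ B)
    (hf : ∀ ω ∈ P.S, f ω ∈ A ∧ |f ω| ≤ r) : H1 P j f ≤ Real.log (3 * B) := by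
  classical
  obtain ⟨T, h1, h2⟩ := h
  unfold H1
  rw [← ch_unit]
  refine ch_det fun a _ => ⟨T.biUnion fun t => Finset.Icc (fl1 j t - (1 : ℕ)) (fl1 j t + (1 : ℕ)),
    ?_, fun b hb _ => ?_⟩
  · have h3 : (T.biUnion fun t => Finset.Icc (fl1 j t - (1 : ℕ)) (fl1 j t + (1 : ℕ))).card ≤
        T.card * 3 := Finset.card_biUnion_le_card_mul _ _ _ fun t _ => by
      rw [Int.card_Icc]; omega
    have h4 : ((T.biUnion fun t => Finset.Icc (fl1 j t - (1 : ℕ)) (fl1 j t + (1 : ℕ))).card : ℝ) ≤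
        T.card * 3 := by exact_mod_cast h3
    linarith
  · obtain ⟨t, ht, h3⟩ := h2 _ (hf b hb).1 (hf b hb).2
    exact Finset.mem_biUnion.2 ⟨t, ht, fl1_mem_Icc (by simpa using h3)⟩

end Cov

section Reg

variable {x : ℝ} {M M' : ℕ → ℕ} {A A' : ℕ → Set ℝ} {L : ℕ → ℝ}

theorem sub_ceil (hM : Big M) (hL : Sub M L) : Sub M fun n => 2 * (⌈L n⌉₊ : ℝ) + 1 :=
  (hL.const_mul hM (C := 5) (by norm_num)).mono
    (fun n => by linarith [Nat.cast_nonneg (α := ℝ) ⌈L n⌉₊]) (Eventually.of_forall fun n => by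
      linarith [Nat.ceil_lt_add_one (hL.pos n).le, hL.1 n])

/-- A set near a dilate of a level is regular, at the resolution that is left. -/
theorem Reg.sub (h : Reg x M A) (hM : Big M) (hf : Frac M' M) (hL : Sub M L) (a : ℕ → ℕ)
    (t : ℕ → ℝ) (r : ℕ) (H : ∀ᶠ n in UF, a n + M' n ≤ M n ∧ 2 ^ a n ≤ L n * |t n| ∧
      |t n| ≤ L n * 2 ^ a n ∧ ∀ u ∈ A' n, ∃ w ∈ lev (A n) r, |u - t n * w| ≤ L n / 2 ^ M' n) :
    Reg x M' A' := by
  intro q ε hε
  have s1 : Sub M fun n => (q + 1 : ℝ) * (L n * L n) :=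
    (hL.mul hL).const_mul hM (by linarith [Nat.cast_nonneg (α := ℝ) q])
  have s2 := ((sub_ceil hM s1).mul (sub_ceil hM s1)).frac hf
  obtain ⟨-, c, hc, hf⟩ := hf
  filter_upwards [H, h (q * r + q * r) (ε / 2 * c) (by positivity), s2.2 _ (half_pos hε), hf]
    with n ⟨h1, h2, h3, h4⟩ h5 h6 h7 i j hij hj
  have l1 := hL.1 n
  have q0 : (0 : ℝ) ≤ q := Nat.cast_nonneg q
  set k := ⌈(q + 1 : ℝ) * (L n * L n)⌉₊ with hk
  have k1 : (q + 1 : ℝ) * (L n * L n) ≤ k := Nat.le_ceil _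
  have p1 : (0 : ℝ) < 2 ^ a n := by positivity
  have p2 : (0 : ℝ) < (2 ^ i)⁻¹ := by positivity
  have p3 : (0 : ℝ) < (2 ^ j)⁻¹ := by positivity
  have p4 : ((2 : ℝ) ^ j)⁻¹ ≤ (2 ^ i)⁻¹ :=
    inv_anti₀ (by positivity) (pow_le_pow_right₀ one_le_two hij)
  have p5 : L n / 2 ^ M' n ≤ L n * (2 ^ j)⁻¹ := by
    rw [div_eq_mul_inv]
    exact mul_le_mul_of_nonneg_left (inv_anti₀ (by positivity) (pow_le_pow_right₀ one_le_two hj))
      (by linarith)
  refine ((h5 (a n + i) (a n + j) (by omega) (by omega)).map (k := k) (t := t n) (by positivity) p3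
    fun u hu hi => ?_).mono ?_
  · obtain ⟨w, hw, h8⟩ := lev_app (by positivity) h4 hu
    have h9 : |u - t n * w| ≤ q * (L n * (2 ^ j)⁻¹) := h8.trans (mul_le_mul_of_nonneg_left p5 q0)
    refine ⟨w, hw, ?_, fun τ hτ => ?_⟩
    · have e1 : |t n| * |w| ≤ (q + 1) * L n * (2 ^ i)⁻¹ := by
        rw [← abs_mul]
        have := abs_sub_abs_le_abs_sub (t n * w) u
        rw [abs_sub_comm] at this
        have e : q * (L n * (2 ^ j)⁻¹) ≤ q * (L n * (2 ^ i)⁻¹) := by gcongr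
        nlinarith
      rw [pow_add, mul_inv, mul_comm ((2 : ℝ) ^ a n)⁻¹, ← mul_assoc, ← div_eq_mul_inv,
        le_div_iff₀ p1]
      have e2 : |w| * 2 ^ a n ≤ |w| * (L n * |t n|) := mul_le_mul_of_nonneg_left h2 (abs_nonneg _)
      have e3 : L n * (|t n| * |w|) ≤ L n * ((q + 1) * L n * (2 ^ i)⁻¹) := by gcongr
      have e4 := mul_le_mul_of_nonneg_right k1 p2.le
      nlinarith
    · have e1 : |t n * w - t n * τ| ≤ L n * (2 ^ j)⁻¹ := by
        rw [← mul_sub, abs_mul]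
        refine (mul_le_mul h3 hτ (abs_nonneg _) (by positivity)).trans (le_of_eq ?_)
        rw [pow_add]; field_simp
      have e2 := abs_sub_le u (t n * w) (t n * τ)
      have e3 : (q + 1 : ℝ) * L n ≤ k := by nlinarith
      have e4 := mul_le_mul_of_nonneg_right e3 p3.le
      nlinarith
  · rw [← mul_assoc]
    refine (mul_le_mul_of_nonneg_right h6 (Real.exp_pos _).le).trans ?_
    rw [← Real.exp_add]
    refine Real.exp_le_exp.2 ?_
    push_cast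
    nlinarith

/-- The same at the same resolution, for a dilation by a unit. -/
theorem Reg.unit (h : Reg x M A) (hM : Big M) (hL : Sub M L) (t : ℕ → ℝ) (r : ℕ)
    (H : ∀ᶠ n in UF, 1 ≤ L n * |t n| ∧ |t n| ≤ L n ∧
      ∀ u ∈ A' n, ∃ w ∈ lev (A n) r, |u - t n * w| ≤ L n / 2 ^ M n) : Reg x M A' :=
  h.sub hM Frac.rfl hL (fun _ => 0) t r (H.mono fun n hn => by simpa using hn)

/-- The same without dilation. -/
theorem Reg.near (h : Reg x M A) (hM : Big M) (hL : Sub M L) (r : ℕ)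
    (H : ∀ᶠ n in UF, ∀ u ∈ A' n, ∃ w ∈ lev (A n) r, |u - w| ≤ L n / 2 ^ M n) : Reg x M A' :=
  h.unit hM hL (fun _ => 1) r (H.mono fun n hn => by simpa [hL.1 n] using hn)

theorem Reg.lev (h : Reg x M A) (hM : Big M) (hf : Frac M' M) (r : ℕ)
    (H : ∀ᶠ n in UF, A' n ⊆ lev (A n) r) : Reg x M' A' :=
  h.sub hM hf (hM.sub le_rfl) (fun _ => 0) (fun _ => 1) r (H.mono fun n hn =>
    ⟨by simpa using hf.1 n, by simp, by simp, fun u hu => ⟨u, hn hu, by simp⟩⟩)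

theorem Reg.mono (h : Reg x M A) (hM : Big M) (H : ∀ᶠ n in UF, A' n ⊆ A n) : Reg x M A' :=
  h.lev hM Frac.rfl 1 (H.mono fun _ hn _ hu => lev_one (hn hu))

variable {Ω : ℕ → Type} {P : ∀ n, FP (Ω n)} {f : ∀ n, Ω n → ℝ}

theorem Reg.ent (h : Reg x M fun n => im (P n) (f n)) (hM : Big M) (hb : Bd M P f) {j : ℕ → ℕ}
    (hj : ∀ n, j n ≤ M n) : Le M (fun n => H1 (P n) (j n) (f n)) fun n => x * j n * lg := by
  obtain ⟨L, hL, hb⟩ := hb
  intro ε hε
  filter_upwards [hb, h (1 + 1) _ (half_pos hε),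
    ((sub_ceil hM hL).const_mul hM (C := 3) (by norm_num)).log _ (half_pos hε)] with n h1 h2 h3
  have h4 := ((h2 0 (j n) (Nat.zero_le _) (hj n)).grow (by positivity) ⌈L n⌉₊).ent
    (P := P n) (f := f n) fun ω hω => ⟨lev_one ⟨ω, hω, rfl⟩, by
      simpa using (h1 ω hω).trans (Nat.le_ceil _)⟩
  rw [← mul_assoc, Real.log_mul (by positivity) (Real.exp_pos _).ne', Real.log_exp] at h4
  simp only [Nat.cast_zero, sub_zero] at h4
  linarith

end Reg

end Pool.Agent.MP_5168f5_an.MX
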