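import Pool.Agent.MP_5168f5_an.MX.ABApi

/-! Random multipliers have small entropy. -/

namespace Pool.Agent.MP_5168f5_an.MX.AB

open H19 H17S H17F Filter

namespace ABBndA

section Fin

variable {Ω Ω' Ω'' α : Type}

theorem lcomp {Q : FP Ω} {P : FP Ω'} {R : FP Ω''} {f : Ω → Ω'} {g : Ω' → α} {k : Ω'' → α}
    (h : Law Q f P id) (h' : Law P g R k) : Law Q (fun x => g (f x)) R k := (h.comp g).trans h'

theorem ch_dep (R : FP Ω) (Q : FP Ω') (F : Ω → Ω' → α) :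
    ch (prod R Q) (fun v => F v.1 v.2) Prod.fst = R.E fun ω => hh Q (F ω) := by
  classical
  rw [ke.ent1 (prod R Q) Prod.fst fun s v => F s v.2, ← KGA.E_bind_fst R fun _ => Q]
  refine FP.E_congr _ fun v hv => Law.hh_eq (f := Prod.snd) (g := id) (fun G => ?_) (F v.1)
  refine mul_left_cancel₀ (pb_pos (prod R Q) (E := fun w => w.1 = v.1) ⟨v, hv, rfl⟩).ne' ?_
  rw [cv, E_cE, pb, prod, E_bind, E_bind, mul_comm, ← R.E_mul]
  refine R.E_congr fun a _ => ?_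
  by_cases e : a = v.1 <;> simp [e, FP.E_const]

variable (R : FP Ω) (P : FP Ω') (Y : Ω' → ℤ) (t : Ω → ℝ)

/-- The multiplier and the sum. -/
noncomputable def ph (v : Ω × Ω' × Ω') : Ω × ℤ := (v.1, Y v.2.1 + ⌊t v.1 * Y v.2.2⌋)

/-- Two representations of the sum. -/
noncomputable def V1 : FP ((Ω × Ω' × Ω') × Ω × Ω' × Ω') :=
  glue (prod R (prod P P)) (prod R (prod P P)) (ph Y t) (ph Y t)

/-- Two copies with the same multiplier. -/
noncomputable def V2 := glue (V1 R P Y t) (V1 R P Y t) (fun w => w.1.1) fun w => w.1.1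

/-- The second summands. -/
def DD (w : (Ω × Ω' × Ω') × Ω × Ω' × Ω') : ℤ × ℤ := (Y w.1.2.2, Y w.2.2.2)

theorem l1 : Law (V1 R P Y t) Prod.fst (prod R (prod P P)) id := kg.fst _ _ _ _

theorem l2 : Law (V1 R P Y t) Prod.snd (prod R (prod P P)) id := kg.snd _ _ _ _ (Law.rfl _)

theorem l3 : Law (V2 R P Y t) Prod.fst (V1 R P Y t) id := kg.fst _ _ _ _

theorem l4 : Law (V2 R P Y t) Prod.snd (V1 R P Y t) id := kg.snd _ _ _ _ (Law.rfl _)

theorem q1 : Law (prod R (prod P P)) (fun v => v.2.1) P id :=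
  lcomp (prod_snd _ _) (prod_fst _ _)

theorem q2 : Law (prod R (prod P P)) (fun v => v.2.2) P id :=
  lcomp (prod_snd _ _) (prod_snd _ _)

variable {R P Y t} {e : ℝ}

theorem m1 {w} (h : w ∈ (V1 R P Y t).S) : ph Y t w.2 = ph Y t w.1 :=
  ((kg.mem _ _ _ _ w (Law.rfl _)).1 h).2.2

theorem m0 {w} (h : w ∈ (V1 R P Y t).S) : w.2.1 = w.1.1 := (Prod.ext_iff.1 (m1 h)).1

theorem m2 {w} (h : w ∈ (V2 R P Y t).S) : w.2.1.1 = w.1.1.1 :=
  ((kg.mem _ _ _ _ w (Law.rfl _)).1 h).2.2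

theorem near {w} (h : w ∈ (V1 R P Y t).S) :
    |t w.1.1 * ((DD Y w).1 - (DD Y w).2) - (Y w.2.2.1 - Y w.1.2.1)| ≤ 1 := by
  obtain ⟨e1, e2⟩ := Prod.ext_iff.1 (m1 h)
  simp only [ph] at e1 e2
  rw [e1] at e2
  have e3 := congrArg (Int.cast : ℤ → ℝ) e2
  push_cast at e3
  have := Int.floor_le (t w.1.1 * Y w.1.2.2)
  have := Int.floor_le (t w.1.1 * Y w.2.2.2)
  have := Int.lt_floor_add_one (t w.1.1 * Y w.1.2.2)
  have := Int.lt_floor_add_one (t w.1.1 * Y w.2.2.2)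
  rw [DD, mul_sub, abs_le]
  constructor <;> linarith

theorem key1 (hc : ∀ ω ∈ R.S, cost P Y (t ω) ≤ e) :
    hh P Y - e ≤ ch (V1 R P Y t) (fun w => (DD Y w).1) fun w => (w.1.1, (DD Y w).2) := by
  have h1 := ch_dep R (prod P P) fun ω v => Y v.1 + ⌊t ω * Y v.2⌋
  have h2 : R.E (fun ω => hh (prod P P) fun v => Y v.1 + ⌊t ω * Y v.2⌋) ≤ hh P Y + e :=
    (R.E_mono fun ω h => sub_le_iff_le_add'.1 (hc ω h)).trans_eq (R.E_const _)
  have h3 := ch_chain (P := prod R (prod P P)) (fun v => (ph Y t v).2) (fun v => Y v.2.2) Prod.fst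
  have h4 : ch (prod R (prod P P)) (fun v => (Y v.2.1, Y v.2.2)) Prod.fst ≤
      ch (prod R (prod P P)) (fun v => ((ph Y t v).2, Y v.2.2)) Prod.fst :=
    ch_mono fun a _ b _ k => by
      simp only [ph, Prod.mk.injEq] at k ⊢
      obtain ⟨⟨k1, k2⟩, k3⟩ := k
      rw [k2, k3] at k1
      exact ⟨add_right_cancel k1, k2⟩
  have h5 := ch_prod_snd R (prod P P) (fun v => (Y v.1, Y v.2)) id
  have h6 := ch_prod_fst P P Y Y
  have h7 := Law.hh_eq (prod_snd P P) Y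
  have h8 := kg.mkv' (prod R (prod P P)) _ (ph Y t) (ph Y t) (fun v => Y v.2.2) (fun _ => ()) id
    (Law.rfl _) (Fn.comp _ id)
  have h9 : ch (prod R (prod P P)) (fun v => Y v.2.2) (fun v => ((ph Y t v).2, v.1)) ≤
      ch (prod R (prod P P)) (fun v => Y v.2.2) fun v => (ph Y t v, ()) :=
    ch_anti fun a _ b _ k => by
      simp only [ph, Prod.mk.injEq] at k ⊢
      exact ⟨⟨k.2, k.1⟩, trivial⟩
  have h0 : ch (V1 R P Y t) (fun w => (DD Y w).1) (fun w => (w.2, ())) ≤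
      ch (V1 R P Y t) (fun w => (DD Y w).1) fun w => (w.1.1, (DD Y w).2) :=
    ch_anti fun a ha b hb k => by
      have k1 : a.2 = b.2 := congrArg Prod.fst k
      exact Prod.ext ((m0 ha).symm.trans ((congrArg Prod.fst k1).trans (m0 hb)))
        (congrArg (fun v : Ω × Ω' × Ω' => Y v.2.2) k1)
  unfold ch at h6
  simp only [ph, DD, V1, id] at *
  linarith

theorem hD1 : hh (V1 R P Y t) (fun w => (DD Y w).1) = hh P Y :=
  Law.hh_eq (lcomp (l1 R P Y t) (q2 R P)) Y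

theorem key2 (hc : ∀ ω ∈ R.S, cost P Y (t ω) ≤ e) :
    mi (V2 R P Y t) (fun w => (DD Y w.1, DD Y w.2)) (fun w => w.1.1.1) (fun _ => ()) ≤ 2 * e := by
  have h1 := key1 hc
  have h2 : hh (V1 R P Y t) (fun w => (DD Y w).2) = hh P Y :=
    Law.hh_eq (lcomp (l2 R P Y t) (q2 R P)) Y
  have h3 : hh (V1 R P Y t) (DD Y) ≤ 2 * hh P Y := by
    have := ch_subadd (P := V1 R P Y t) (fun w => (DD Y w).1) (fun w => (DD Y w).2) fun _ => ()
    simp only [ch_unit, hD1, h2] at this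
    linarith
  have h4 : ch (V1 R P Y t) (fun w => (DD Y w).2) (fun w => w.1.1) = hh P Y :=
    (ch_ext (fun _ _ => rfl) fun w h => (m0 h).symm).trans
      (((l2 R P Y t).ch_id (fun v => Y v.2.2) Prod.fst).trans
        ((ch_prod_snd R (prod P P) (fun v => Y v.2) id).trans (Law.hh_eq (prod_snd P P) Y)))
  have h5 := ch_chain (P := V1 R P Y t) (fun w => (DD Y w).2) (fun w => (DD Y w).1) fun w => w.1.1
  have h6 : ch (V1 R P Y t) (fun w => ((DD Y w).2, (DD Y w).1)) (fun w => w.1.1) ≤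
      ch (V1 R P Y t) (DD Y) fun w => w.1.1 :=
    ch_mono (Fn.left (Fn.comp Prod.swap (DD Y)) _)
  have h7 : ch (V1 R P Y t) (fun w => (DD Y w).1) (fun w => (w.1.1, (DD Y w).2)) ≤
      ch (V1 R P Y t) (fun w => (DD Y w).1) fun w => ((DD Y w).2, w.1.1) :=
    ch_anti (Fn.comp Prod.swap _)
  have h8 := ch_subadd (P := V2 R P Y t) (fun w => DD Y w.1) (fun w => DD Y w.2) fun _ => ()
  have h9 := ch_chain (P := V2 R P Y t) (fun w => DD Y w.1) (fun w => DD Y w.2) fun w => w.1.1.1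
  have k1 := (l3 R P Y t).ch_id (DD Y) fun w => w.1.1
  have k2 := kg.mk1 (V1 R P Y t) (V1 R P Y t) _ _ (DD Y) (fun w => (DD Y w, w.1.1)) (Law.rfl _)
    (Fn.snd _ _)
  have k3 := Law.hh_eq (l3 R P Y t) (DD Y)
  have k4 := Law.hh_eq (l4 R P Y t) (DD Y)
  rw [mi_unit]
  simp only [ch_unit, id, V2] at *
  linarith

theorem key3 (hc : ∀ ω ∈ R.S, cost P Y (t ω) ≤ e) :
    hh P Y - e ≤ ch (V2 R P Y t) (fun w => (DD Y w.1).1 - (DD Y w.1).2)
      fun w => ((DD Y w.1).2, DD Y w.2) := by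
  refine (key1 hc).trans ((kg.mkv' (V1 R P Y t) (V1 R P Y t) _ (fun w => w.1.1)
    (fun w => (DD Y w).1) (fun w => (DD Y w).2) id (Law.rfl _)
      fun _ _ _ _ k => congrArg (Prod.fst ∘ Prod.fst) k).symm.trans_le ?_)
  refine ch_le (fun a _ b _ k => ?_) fun a _ b _ k => ?_
  · simp only [Prod.mk.injEq] at k
    linarith [k.1, k.2.2]
  · simp only [Prod.mk.injEq, id] at k ⊢
    exact ⟨k.2, by rw [k.1]⟩

theorem pnear (L : Lv) {b t u y₁ y₂ N Λ Λ' Λ'' : ℝ} (hN : 0 < N) (h : |t * b - (y₂ - y₁)| ≤ 1)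
    (hb : |b| ≤ Λ * N) (hu : |u| ≤ Λ' * N) (h1 : Nr (L.S 1) Λ'' (y₁ * u / N))
    (h2 : Nr (L.S 1) Λ'' (y₂ * u / N)) :
    ∃ a ∈ L.S 2, |b * ⌊t * u⌋ / N - a| ≤ Λ + Λ' + 2 * Λ'' := by
  obtain ⟨a₁, m₁, e₁⟩ := h1
  obtain ⟨a₂, m₂, e₂⟩ := h2
  refine ⟨a₂ + -a₁, L.add 1 1 _ _ m₂ (L.neg _ _ m₁), ?_⟩
  have k : ∀ p q r : ℝ, |p| ≤ r * N → |q| ≤ 1 → |p * q / N| ≤ r := fun p q r a c => by
    rw [abs_div, abs_of_pos hN, div_le_iff₀ hN, abs_mul]
    exact (mul_le_of_le_one_right (abs_nonneg _) c).trans a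
  have k1 := abs_le.1 (k _ _ _ hb (abs_floor (t * u)))
  have k2 := abs_le.1 (k _ _ _ hu h)
  have e : b * ⌊t * u⌋ / N = -(b * (t * u - ⌊t * u⌋) / N) + u * (t * b - (y₂ - y₁)) / N
      + y₂ * u / N - y₁ * u / N := by ring
  rw [abs_le] at e₁ e₂ ⊢
  constructor <;> linarith [k1.1, k1.2, k2.1, k2.2, e₁.1, e₁.2, e₂.1, e₂.2]

/-- The system of differences and multiples. -/
noncomputable def sys (R : FP Ω) (z : Tr0) (t : Ω → ℝ) (u : ℤ) (M : ℕ) : Tr where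
  Ω := _
  T := ℤ × ℤ × ℤ
  P := V2 R z.P z.b t
  θ := fun w => ((DD z.b w.1).2, DD z.b w.2)
  b := fun w => (DD z.b w.1).1 - (DD z.b w.1).2
  c := fun w => ⌊t w.1.1.1 * u⌋
  L := fun _ => z.L.tr 2 1
  Lb := fun _ => z.Lb.tr 2 1
  Lc := fun s => z.L.tr 2 ((s.2.1 - s.2.2) / 2 ^ M)

theorem key4 {z : Tr0} {u : ℤ} {M : ℕ} (hc : ∀ ω ∈ R.S, cost z.P z.b (t ω) ≤ e) :
    mi (sys R z t u M).P (sys R z t u M).b (sys R z t u M).c (sys R z t u M).θ ≤ 2 * e ∧
    hh z.P z.b + hh R (fun ω => ⌊t ω * u⌋) - 3 * e ≤ (sys R z t u M).hb + (sys R z t u M).hc := by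
  have h1 : mi (V2 R z.P z.b t) (fun w => (DD z.b w.1, DD z.b w.2)) (fun w => ⌊t w.1.1.1 * u⌋)
      (fun _ => ()) ≤ 2 * e :=
    (mi_mono fun _ _ _ _ k => by rw [(Prod.ext_iff.1 k).1]).trans (key2 hc)
  have f : Fn (V2 R z.P z.b t) (fun w => ((DD z.b w.1).2, DD z.b w.2))
      fun w => ((DD z.b w.1, DD z.b w.2), ()) := fun _ _ _ _ k => by
    simp only [Prod.mk.injEq] at k
    simp only [k.1.1, k.1.2]
  refine ⟨(mi_left (fun _ _ _ _ _ => rfl) f fun _ _ _ _ k => ?_).trans h1, ?_⟩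
  · simp only [Prod.mk.injEq] at k
    simp only [sys, k.1.1]
  have h2 := (mi_mono' f).trans h1
  have h3 := Law.hh_eq (lcomp (l3 R z.P z.b t) (lcomp (l1 R z.P z.b t) (prod_fst _ _)))
    fun ω => ⌊t ω * u⌋
  have h4 := key3 hc
  rw [mi_symm, mi_unit] at h2
  simp only [Tr.hb, Tr.hc, sys, id] at *
  linarith

end Fin

theorem wlaw {Ω Ω' : ℕ → Type} {Q : ∀ n, FP (Ω' n)} {P : ∀ n, FP (Ω n)} {f : ∀ n, Ω' n → Ω n}
    {E : ∀ n, Ω n → Prop} (h : ∀ n, Law (Q n) (f n) (P n) id) (hE : Whp P E) :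
    Whp Q fun n v => E n (f n v) := fun ε hε =>
  (hE ε hε).mono fun n a => ((h n).pb_eq fun ω => ¬E n ω).trans_le a

end ABBndA

open ABBndA in
theorem rowBnd : SBnd := by
  rintro cv x Sg be top nd z M u gr A ⟨Λ₀, s₀, hA⟩ Ω R t ht
  have big := gr.xt.cls.big
  obtain ⟨Λ, s, bd, hI⟩ := gr.xt.cls.bd
  obtain ⟨Λ₁, s₁, hu⟩ := gr.un
  obtain ⟨Λ₂, s₂, hm⟩ := gr.mem
  have hc : ∀ᶠ n in UF, ∀ ω ∈ (R n).S, cost (z n).P (z n).b (t n ω) ≤ Real.log (Λ₀ n) := by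
    filter_upwards [hA, ht] with n a b ω h using (a _ (b ω h)).2
  let V := fun n => V1 (R n) (z n).P (z n).b (t n)
  let D := fun n => DD (Ω := Ω n) (z n).b
  have a1 := fun n => lcomp (l1 (R n) (z n).P (z n).b (t n)) (q1 (R n) (z n).P)
  have a2 := fun n => lcomp (l2 (R n) (z n).P (z n).b (t n)) (q1 (R n) (z n).P)
  have a3 := fun n => lcomp (l1 (R n) (z n).P (z n).b (t n)) (q2 (R n) (z n).P)
  have a4 := fun n => lcomp (l2 (R n) (z n).P (z n).b (t n)) (q2 (R n) (z n).P)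
  have a5 := fun n => l3 (R n) (z n).P (z n).b (t n)
  have a6 := fun n => l4 (R n) (z n).P (z n).b (t n)
  have a7 := fun n => lcomp (a5 n) (lcomp (l1 (R n) (z n).P (z n).b (t n)) (prod_fst _ _))
  have N0 : ∀ n, (0 : ℝ) < 2 ^ M n := fun n => by positivity
  obtain ⟨Λ₃, s₃, hN⟩ := ks.wsub V
      (fun n w L => 2 ^ M n / L ≤ |((D n w).1 : ℝ) - (D n w).2|) M fun c c0 c1 => by
    have fr := big.frac_floor c0 c1
    refine ((nd z M gr.xt).2.1 _ _ V (fun n w => (D n w).1) (fun n w => (D n w).2)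
      (fun n w => (D n w).2) _ (fun n => (a3 n).comp (z n).b) (fun n => Fn.comp _ _)
      (s₀.log.mono (hc.mono fun n a => ?_)) fr).mono (Eventually.of_forall fun n w _ h => ?_)
    · have := ch_anti (P := V n) (F := fun w => (D n w).1)
        (Fn.snd (fun w => w.1.1) fun w => (D n w).2)
      linarith [key1 a, hD1 (R := R n) (P := (z n).P) (Y := (z n).b) (t := t n)]
    · refine le_trans ?_ h
      rw [pow_sub₀ _ two_ne_zero (fr.1 n), div_eq_mul_inv]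
      exact mul_le_mul_of_nonneg_left (inv_anti₀ (by positivity) ((two_pow_le_exp _).trans
        (Real.exp_le_exp.2 (Nat.floor_le (by positivity))))) (N0 n).le
  have hD : ∀ᶠ n in UF, ∀ w ∈ (V n).S, |((D n w).1 : ℝ) - (D n w).2| ≤ 2 * Λ n * 2 ^ M n :=
    bd.mono fun n a w h => (abs_sub _ _).trans (by
      linarith [show |((D n w).1 : ℝ)| ≤ _ from (a _ ((a3 n).mem h)).1,
        show |((D n w).2 : ℝ)| ≤ _ from (a _ ((a4 n).mem h)).1])
  have hG := (wlaw a1 hm).and ((wlaw a2 hm).and ((wlaw a3 hI).and (wlaw a4 hI)))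
  have sK := (((s.const_mul big one_le_two).add s₁ big).add (s₂.const_mul big one_le_two) big).mul s₃
  have key := hc.mono fun n a => key4 (u := u n) (M := M n) a
  have cls : Cls x (fun n => sys (R n) (z n) (t n) (u n) (M n)) M := by
    refine ⟨big, ⟨_, sK.add ((s₀.mul s₁).add (big.sub le_rfl) big) big, ?_, ?_⟩, ?_, fun q ε hε => ?_⟩
    · filter_upwards [hD, hu, hA, ht] with n a b c d w h
      have := s.1 n
      have := s₀.1 n
      have := s₁.1 n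
      have := s₂.1 n
      have := s₃.1 n
      have h1 := a _ ((a5 n).mem h)
      have h2 := mul_le_mul (c _ (d _ ((a7 n).mem h))).1 b.2 (abs_nonneg _) (s₀.pos n).le
      have h3 := abs_floor (t n w.1.1.1 * u n)
      have h4 : (1 : ℝ) ≤ 2 ^ M n := one_le_pow₀ one_le_two
      have h5 := abs_sub_abs_le_abs_sub (⌊t n w.1.1.1 * u n⌋ : ℝ) (t n w.1.1.1 * u n)
      rw [abs_sub_comm, abs_mul] at h5
      refine ⟨(le_of_eq (by simp [sys, D])).trans (h1.trans ?_), ?_⟩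
      · refine mul_le_mul_of_nonneg_right ?_ (N0 n).le
        nlinarith [mul_pos (s₀.pos n) (s₁.pos n)]
      · have : 0 ≤ (2 * Λ n + Λ₁ n + 2 * Λ₂ n) * Λ₃ n * 2 ^ M n := by positivity
        change |(⌊t n w.1.1.1 * u n⌋ : ℝ)| ≤ _
        linarith
    · refine ((wlaw a5 hG).and ((wlaw a6 hG).and (wlaw a6 hN))).mono ?_
      filter_upwards [hD, hu] with n a b w h ⟨⟨g1, g2, ⟨_, ⟨y, y1, y2⟩, _⟩, _, ⟨y', y3, y4⟩, _⟩,
        ⟨g3, g4, _⟩, g5⟩
      obtain ⟨p, p1, p2⟩ := pnear _ (N0 n) (near ((a5 n).mem h)) (a _ ((a5 n).mem h)) b.2 g1 g2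
      obtain ⟨r, r1, r2⟩ := pnear _ (N0 n) (near ((a6 n).mem h)) (a _ ((a6 n).mem h)) b.2 g3 g4
      have := s.1 n
      have := s₁.1 n
      have := s₂.1 n
      have := s₃.1 n
      have := mul_pos (s₀.pos n) (s₁.pos n)
      have g6 : 0 < |((D n w.2).1 : ℝ) - (D n w.2).2| := lt_of_lt_of_le (by positivity) g5
      have g7 := abs_pos.1 g6
      refine ⟨⟨p, by simpa [Lv.tr, sys] using p1, (le_of_eq (by simp [sys])).trans (p2.trans ?_)⟩,
        ⟨y + -y', by simpa [Lv.tr, sys] using (z n).Lb.add 1 1 _ _ y1 ((z n).Lb.neg _ _ y3), ?_⟩,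
        r / (((D n w.2).1 - (D n w.2).2) / 2 ^ M n), ?_, ?_⟩
      · nlinarith
      · have := abs_sub (((D n w.1).1 : ℝ) - y) ((D n w.1).2 - y')
        refine (le_of_eq (by simp only [sys, D]; push_cast; ring_nf)).trans (this.trans ?_)
        nlinarith [show |((D n w.1).1 : ℝ) - y| ≤ Λ n from y2,
          show |((D n w.1).2 : ℝ) - y'| ≤ Λ n from y4]
      · exact (congrArg (· ∈ (z n).L.S 2) (mul_div_cancel₀ r (div_ne_zero g7 (N0 n).ne'))).mpr r1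
      · change |(⌊t n w.1.1.1 * u n⌋ : ℝ) - _| ≤ _
        rw [← m2 h]
        rw [div_le_iff₀ (s₃.pos n)] at g5
        change |((D n w.2).1 - (D n w.2).2) * _ / _ - r| ≤ _ at r2
        generalize ((D n w.2).1 - (D n w.2).2 : ℝ) = d at *
        generalize (⌊t n w.2.1.1 * u n⌋ : ℝ) = c at *
        have e : c - r / (d / 2 ^ M n) = (d * c / 2 ^ M n - r) * (2 ^ M n / d) := by
          field_simp
        rw [e, abs_mul, abs_div, abs_of_pos (N0 n)]
        refine (mul_le_mul r2 ((div_le_iff₀' g6).2 g5) (by positivity) (by positivity)).trans ?_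
        linarith
    · exact (s₀.log.smul zero_le_two).mono (key.mono fun n a => a.1)
    · refine (wlaw a6 hN).mono ?_
      have sL := (s.const_mul big one_le_two).mul s₃
      filter_upwards [(gr.xt.cls.cov (2 * q) _ (half_pos hε)).pos.ex, hD,
        sL.log3 big 2 _ (half_pos hε)] with n ⟨_, _, c1, c2, _⟩ a b w h g
      have e0 : ε / 2 * M n ≤ ε * M n := by nlinarith [Nat.cast_nonneg (α := ℝ) (M n)]
      have := s.1 n
      have := s₃.1 n
      refine ⟨cv.mono _ _ _ _ _ _ _ c1 (fun y hy => one_mul y ▸ hy) le_rfl e0,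
        cv.mono _ _ _ _ _ _ _ c2 (fun y hy => one_mul y ▸ hy) le_rfl e0,
        cv.mono _ _ _ _ _ _ _ (cv.unit _ _ _ (((D n w.2).1 - (D n w.2).2) / 2 ^ M n) _ _ c1 (sL.1 n)
          ?_ ?_) subset_rfl le_rfl (by linarith)⟩
      all_goals rw [abs_div, abs_of_pos (N0 n)]
      · rw [le_div_iff₀ (N0 n), div_mul_eq_mul_div, one_mul]
        exact (div_le_div_of_nonneg_left (N0 n).le (s₃.pos n) (by nlinarith)).trans g
      · rw [div_le_iff₀ (N0 n)]
        exact (a _ ((a6 n).mem h)).trans (mul_le_mul_of_nonneg_right (by nlinarith) (N0 n).le)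
  have h1 : Sm M fun n => ch (R n) (fun ω => fl1 (M n) (t n ω)) fun ω => ⌊t n ω * u n⌋ :=
    Sm.near1 big s₁ (hu.mono fun n a p _ r _ e => by
      have := Int.abs_sub_lt_one_of_floor_eq_floor e
      rw [← sub_mul, abs_mul] at this
      have h := mul_le_mul_of_nonneg_left a.1 (abs_nonneg (t n p - t n r))
      rw [le_div_iff₀ (N0 n), ← div_le_one (s₁.pos n), mul_div_assoc]
      linarith)
  refine (top.sum _ M cls).of4 gr.xt.fst h1 (s₀.log.smul (by norm_num : (0 : ℝ) ≤ 3)) ?_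
  filter_upwards [key] with n a
  have h3 := ch_tri (P := R n) (fun ω => fl1 (M n) (t n ω)) (fun ω => ⌊t n ω * u n⌋) fun _ => ()
  have h4 := ch_anti (P := R n) (F := fun ω => fl1 (M n) (t n ω))
    (Fn.fst (fun ω => ⌊t n ω * u n⌋) fun _ => ())
  have h5 : (z n).tr.hb = hh (z n).P (z n).b := ch_unit _
  rw [ch_unit, ch_unit] at h3
  linarith [a.2]

end Pool.Agent.MP_5168f5_an.MX.AB
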