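import Pool.Agent.MP_5168f5_an.MX.ABApi

/-! Closure properties of the class and of the extremal systems. -/

namespace Pool.Agent.MP_5168f5_an.MX.AB

open H19 H17S H17F Filter

namespace ABCloA

theorem whp_law {Ω Ω' α : ℕ → Type} {P : ∀ n, FP (Ω n)} {Q : ∀ n, FP (Ω' n)}
    {f : ∀ n, Ω' n → α n} {g : ∀ n, Ω n → α n} (h : ∀ n, Law (Q n) (f n) (P n) (g n))
    (E : ∀ n, α n → Prop) (k : Whp P fun n ω => E n (g n ω)) : Whp Q fun n v => E n (f n v) :=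
  fun ε hε => (k ε hε).mono fun n a => ((h n).pb_eq fun s => ¬E n s).trans_le a

theorem mi_side {Ω α β γ δ : Type} (P : FP Ω) (b : Ω → α) (c : Ω → β) (κ : Ω → γ) (θ : Ω → δ) :
    mi P b c (fun ω => (κ ω, θ ω)) ≤ mi P b c θ + mi P (fun ω => (b ω, c ω)) κ θ := by
  have a1 : mi P b c (fun ω => (κ ω, θ ω)) ≤ mi P b (fun ω => (c ω, κ ω)) θ :=
    mi_right (Fn.snd _ _) (((Fn.snd c κ).left θ).pair (Fn.snd _ _)) ((Fn.fst c κ).left θ)
  have a2 : mi P b κ (fun ω => (c ω, θ ω)) ≤ mi P (fun ω => (b ω, c ω)) κ θ :=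
    mi_left (Fn.snd _ _) (((Fn.snd b c).left θ).pair (Fn.snd _ _)) ((Fn.fst b c).left θ)
  rw [mi_chain] at a1
  linarith

theorem mix {M : ℕ → ℕ} {p q f u v D : ℕ → ℝ} {C κ : ℝ} (hM : Big M) (κ0 : 0 < κ)
    (hp : ∀ᶠ n in UF, κ ≤ p n) (hq : ∀ n, 0 ≤ q n ∧ q n ≤ 1 ∧ p n + q n = 1) (h1 : Le M D f)
    (h2 : ∀ n, f n ≤ C + p n * u n + q n * v n) (h3 : Le M v D) : Le M D u := by
  refine Le.of_mul κ0 hp (Le.of3 h1 (hM.sm C)
    (h3.bmul (p := q) (C := 1) (Eventually.of_forall fun n => ⟨(hq n).1, (hq n).2.1⟩))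
    (Eventually.of_forall fun n => ?_))
  have e : p n * D n = D n - q n * D n := by rw [show p n = 1 - q n by linarith [(hq n).2.2]]; ring
  linarith [h2 n]

theorem small {Ω β : ℕ → Type} {P : ∀ n, FP (Ω n)} {M : ℕ → ℕ} {Λ : ℕ → ℝ} {E : ∀ n, Ω n → Prop}
    (b : ∀ n, Ω n → ℤ) (θ : ∀ n, Ω n → β n) (hM : Big M) (hΛ : Sub M Λ) (hE : Whp P E)
    (h : ∀ᶠ n in UF, ∀ ω ∈ (P n).S, |(b n ω : ℝ)| ≤ Λ n * 2 ^ M n) :
    Le M (fun n => ch (P n) (b n) (θ n)) fun n => ch (cE (P n) (E n)) (b n) (θ n) := by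
  have a : Le M (fun n => ch (cE (P n) fun ω => ¬E n ω) (b n) (θ n)) fun n => M n * lg :=
    le_int (P := fun n => cE (P n) fun ω => ¬E n ω) hM (hΛ.const_mul hM one_le_two)
      (h.mono fun n k u hu v hv _ => (abs_sub _ _).trans (by
        linarith [k u (cE_sub hu), k v (cE_sub hv)]))
  intro ε hε
  filter_upwards [a 1 one_pos, hE (ε / 4) (by positivity), hM.sm lg (ε / 2) (by positivity)]
    with n k1 k2 k3
  have k4 := ke.le (P n) (E n) (b n) (θ n)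
  rw [pb_not] at k2
  have k5 := mul_le_mul k2 k1 (ch_nonneg _ _) (by positivity)
  have k6 := mul_le_mul_of_nonneg_right (pb_le_one (P n) (E n))
    (ch_nonneg (P := cE (P n) (E n)) (b n) (θ n))
  have k7 := mul_le_mul_of_nonneg_left lg_lt_one.le (by positivity : 0 ≤ ε / 4 * M n)
  nlinarith

end ABCloA

open ABCloA

theorem rowClo : SClo := by
  refine fun x => ⟨⟨fun z M Ω' Q b c θ hz h => ?_, fun z M E hz hE => ?_, fun z M K κ hz h => ?_⟩,
    fun z M hz => ?_⟩ <;> obtain ⟨Λ, hΛ, h1, h2⟩ := hz.bd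
  · refine ⟨hz.big, ⟨Λ, hΛ, h1.mono fun n k v hv => ?_, whp_law h (fun n s =>
      Nr (((z n).L s.2.2).S 1) (Λ n) (s.1 * s.2.1 / 2 ^ M n) ∧
        Nr (((z n).Lb s.2.2).S 1) (Λ n) s.1 ∧ Nr (((z n).Lc s.2.2).S 1) (Λ n) s.2.1) h2⟩,
      hz.inf.mono (Eventually.of_forall fun n => le_of_eq ?_), fun q ε hε => whp_law h (fun n s =>
        Cov (((z n).L s.2.2).S q) x (M n) (ε * M n) ∧ Cov (((z n).Lb s.2.2).S q) x (M n) (ε * M n) ∧
          Cov (((z n).Lc s.2.2).S q) x (M n) (ε * M n)) (hz.cov q ε hε)⟩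
    · obtain ⟨y, hy, e⟩ := (h n).ex hv
      have e1 : (z n).b y = b n v := congrArg (·.1) e
      have e2 : (z n).c y = c n v := congrArg (·.2.1) e
      have := k y hy
      rwa [e1, e2] at this
    · exact congrArg₂ (· - ·) ((h n).ch_eq (·.1) (·.2.2)) ((h n).ch_eq (·.1) fun s => (s.2.1, s.2.2))
  · obtain ⟨κ, κ0, hκ⟩ := id hE
    refine ⟨hz.big, ⟨Λ, hΛ, h1.mono fun n k v hv => k v (cE_sub hv), h2.cE hE⟩,
      Le.of_mul κ0 hκ (Le.of_sub (hz.inf.add (hz.big.sm lg)) (Eventually.of_forall fun n => ?_)),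
      fun q ε hε => (hz.cov q ε hε).cE hE⟩
    simp only [mul_zero, sub_zero]
    exact mi_cE (z n).P (E n) (z n).b (z n).c (z n).θ
  · exact ⟨hz.big, ⟨Λ, hΛ, h1, h2⟩, (hz.inf.add h).mono (Eventually.of_forall fun n =>
      mi_side (z n).P (z n).b (z n).c (κ n) (z n).θ), hz.cov⟩
  · refine ⟨hz.big, ⟨Λ, hΛ, h1.mono fun n k v hv => (k v hv).symm,
      h2.mono (Eventually.of_forall fun n ω _ k => ⟨?_, k.2.2, k.2.1⟩)⟩,
      hz.inf.mono (Eventually.of_forall fun n => (mi_symm _ _ _).le), fun q ε hε =>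
        (hz.cov q ε hε).mono (Eventually.of_forall fun n ω _ k => ⟨k.1, k.2.2, k.2.1⟩)⟩
    have := k.1
    rwa [mul_comm] at this

theorem rowXl : SXl := by
  refine fun x Sg be cl top => ⟨fun z M Ω' Q b c θ hz h => ?_, fun z M E hz hE => ?_,
    fun z M K κ hz h => ?_⟩
  · have e1 : ∀ n, ((z n).law (Q n) (b n) (c n) (θ n)).hb = (z n).hb := fun n =>
      (h n).ch_eq (·.1) (·.2.2)
    have e2 : ∀ n, ((z n).law (Q n) (b n) (c n) (θ n)).hc = (z n).hc := fun n =>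
      (h n).ch_eq (·.2.1) (·.2.2)
    exact ⟨cl.law z M Ω' Q b c θ hz.cls h, by simpa only [e1, e2] using hz.sum,
      by simpa only [e1] using hz.fst⟩
  · have c1 := cl.cond z M E hz.cls hE
    have hM := hz.cls.big
    by_cases w : Whp (fun n => (z n).P) E
    · obtain ⟨Λ, hΛ, h1, -⟩ := hz.cls.bd
      have s1 := small (fun n => (z n).b) (fun n => (z n).θ) hM hΛ w
        (h1.mono fun n k v hv => (k v hv).1)
      have s2 := small (fun n => (z n).c) (fun n => (z n).θ) hM hΛ w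
        (h1.mono fun n k v hv => (k v hv).2)
      exact ⟨c1, hz.sum.trans (s1.add s2), hz.fst.trans s1⟩
    have hN := not_whp w
    have c2 := cl.cond z M _ hz.cls hN
    obtain ⟨κ, κ0, hκ⟩ := hE
    obtain ⟨κ', κ0', hκ'⟩ := hN
    have b1 : ∀ n, (z n).hb ≤ lg + pb (z n).P (E n) * ((z n).cond (E n)).hb +
        pb (z n).P (fun ω => ¬E n ω) * ((z n).cond fun ω => ¬E n ω).hb := fun n => by
      rw [pb_not]; exact ke.le _ _ _ _
    have b2 : ∀ n, (z n).hc ≤ lg + pb (z n).P (E n) * ((z n).cond (E n)).hc +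
        pb (z n).P (fun ω => ¬E n ω) * ((z n).cond fun ω => ¬E n ω).hc := fun n => by
      rw [pb_not]; exact ke.le _ _ _ _
    have q1 : ∀ n, 0 ≤ pb (z n).P (fun ω => ¬E n ω) ∧ pb (z n).P (fun ω => ¬E n ω) ≤ 1 ∧
        pb (z n).P (E n) + pb (z n).P (fun ω => ¬E n ω) = 1 := fun n =>
      ⟨pb_nonneg _ _, pb_le_one _ _, by rw [pb_not]; ring⟩
    have q2 : ∀ n, 0 ≤ pb (z n).P (E n) ∧ pb (z n).P (E n) ≤ 1 ∧
        pb (z n).P (fun ω => ¬E n ω) + pb (z n).P (E n) = 1 := fun n =>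
      ⟨pb_nonneg _ _, pb_le_one _ _, by rw [pb_not]; ring⟩
    have s2 := mix (C := 2 * lg) (u := fun n => ((z n).cond fun ω => ¬E n ω).hb +
      ((z n).cond fun ω => ¬E n ω).hc) hM κ0' hκ' q2 hz.sum (fun n => by linarith [b1 n, b2 n])
      (top.sum _ M c1)
    exact ⟨c1, mix (C := 2 * lg) hM κ0 hκ q1 hz.sum (fun n => by linarith [b1 n, b2 n])
      (top.sum _ M c2), mix hM κ0 hκ q1 hz.fst b1 (top.fst _ M c2 s2)⟩
  · have b1 : ∀ n, (z n).hb ≤ ((z n).side (κ n)).hb +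
        mi (z n).P (fun ω => ((z n).b ω, (z n).c ω)) (κ n) (z n).θ := fun n =>
      (ch_le_mi (G := κ n) (Fn.rfl _)).trans (add_le_add le_rfl (mi_mono' ((Fn.fst _ _).left _)))
    have b2 : ∀ n, (z n).hc ≤ ((z n).side (κ n)).hc +
        mi (z n).P (fun ω => ((z n).b ω, (z n).c ω)) (κ n) (z n).θ := fun n =>
      (ch_le_mi (G := κ n) (Fn.rfl _)).trans (add_le_add le_rfl (mi_mono' ((Fn.snd _ _).left _)))
    exact ⟨cl.side z M K κ hz.cls h,
      Le.of3 hz.sum h h (Eventually.of_forall fun n => by linarith [b1 n, b2 n]),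
      Le.of2 hz.fst h (Eventually.of_forall fun n => by linarith [b1 n])⟩

end Pool.Agent.MP_5168f5_an.MX.AB
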