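import Pool.Agent.MP_5168f5_an.MX.ABApi

/-! Covering numbers. -/

namespace Pool.Agent.MP_5168f5_an.MX.AB

open H19 H17S H17F Filter

namespace ABCovA

theorem near (c : ℝ) {L : ℝ} (hL : 0 ≤ L) :
    ∃ T : Finset ℤ, (T.card : ℝ) ≤ 2 * L + 3 ∧ ∀ a : ℝ, |a - c| ≤ L → ⌊a⌋ ∈ T := by
  refine ⟨Finset.Icc (⌊c⌋ - ⌈L⌉₊) (⌊c⌋ + ⌈L⌉₊), ?_, fun a ha => ?_⟩
  · rw [show (Finset.Icc (⌊c⌋ - ⌈L⌉₊) (⌊c⌋ + ⌈L⌉₊)).card = 2 * ⌈L⌉₊ + 1 by rw [Int.card_Icc]; omega]
    push_cast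
    linarith [Nat.ceil_lt_add_one hL]
  · have := abs_le.1 (ha.trans (Nat.le_ceil L))
    rw [Finset.mem_Icc, ← Int.floor_sub_natCast, ← Int.floor_add_natCast]
    exact ⟨Int.floor_mono (by linarith), Int.floor_mono (by linarith)⟩

theorem bi (S : Finset ℤ) (T : ℤ → Finset ℤ) {B B' : ℝ} (hS : (S.card : ℝ) ≤ B) (h0 : 0 ≤ B')
    (h : ∀ s, ((T s).card : ℝ) ≤ B') : ((S.biUnion T).card : ℝ) ≤ B * B' := by
  refine (Nat.cast_le.2 Finset.card_biUnion_le).trans ?_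
  rw [Nat.cast_sum]
  refine (Finset.sum_le_card_nsmul _ _ B' fun s _ => h s).trans ?_
  rw [nsmul_eq_mul]
  exact mul_le_mul_of_nonneg_right hS h0

/-- A wider window, other centres and thicker cells. -/
theorem wide {A : Set ℝ} {x e L : ℝ} {M i j : ℕ} (h : Cov A x M e) (hij : i ≤ j) (hj : j ≤ M)
    (y : ℝ) (c : ℤ → ℝ) (hL : 0 ≤ L) : ∃ T : Finset ℤ,
      (T.card : ℝ) ≤ Real.exp (x * (j - i) * lg + (e + 2 * Real.log (2 * L + 3))) ∧
      ∀ a ∈ A, |a - y| ≤ L * 2 ^ j → ∀ a', |a' - c (dn i a)| ≤ L → ⌊a'⌋ ∈ T := by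
  obtain ⟨S, s1, s2⟩ := near 0 hL
  choose T t1 t2 using fun s : ℤ => h i j hij hj (y + s * 2 ^ j)
  choose N n1 n2 using fun k : ℤ => near (c k) hL
  have h2 : (0 : ℝ) < 2 ^ j := by positivity
  refine ⟨(S.biUnion T).biUnion N, (bi _ N (bi S T s1 (Real.exp_pos _).le t1) (by positivity)
    n1).trans (le_of_eq ?_), fun a ha hy a' h' => Finset.mem_biUnion.2 ⟨_, Finset.mem_biUnion.2
      ⟨_, s2 ((a - y) / 2 ^ j) ?_, t2 _ a ha ?_⟩, n2 _ a' h'⟩⟩
  · rw [← add_assoc, Real.exp_add _ (2 * _), two_mul (Real.log _), Real.exp_add (Real.log _),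
      Real.exp_log (by positivity)]
    ring
  · rwa [sub_zero, abs_div, abs_of_pos h2, div_le_iff₀ h2]
  · rw [show a - (y + ⌊(a - y) / 2 ^ j⌋ * 2 ^ j) = ((a - y) / 2 ^ j - ⌊(a - y) / 2 ^ j⌋) * 2 ^ j by
      field_simp; ring, abs_mul, abs_of_pos h2]
    exact mul_le_of_le_one_left h2.le (abs_floor _)

end ABCovA

open ABCovA in
theorem rowCV : CV where
  mono A B x e e' M M' h hB hM he i j hij hj y := (h i j hij (hj.trans hM) y).imp fun _ hT =>
    ⟨hT.1.trans (Real.exp_le_exp.2 (by linarith)), fun a ha => hT.2 a (hB ha)⟩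
  unit A x e u Λ M h h1 h2 h3 i j hij hj y := by
    have h0 : 0 < Λ := by linarith
    have hu : 0 < |u| := lt_of_lt_of_le (by positivity) h2
    have hu' := abs_pos.1 hu
    refine (wide h hij hj (u * y) (fun k => k / u) h0.le).imp fun T hT => ⟨hT.1, fun a ha hy =>
      hT.2 _ ha ?_ _ ?_⟩
    · rw [← mul_sub, abs_mul]
      exact mul_le_mul h3 hy (abs_nonneg _) h0.le
    · rw [show a / 2 ^ i - dn i (u * a) / u = (u * a / 2 ^ i - dn i (u * a)) / u by field_simp,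
        abs_div, div_le_iff₀ hu]
      exact (abs_dn _ _).trans ((div_le_iff₀' h0).1 h2)
  pow A x e M j h hj i k hik hk y := by
    obtain ⟨T, t1, t2⟩ := h (i + j) (k + j) (by omega) (by omega) (2 ^ j * y)
    refine ⟨T, t1.trans (le_of_eq (by push_cast; ring_nf)), fun a ha hy => ?_⟩
    rw [← dn_two_mul i j]
    refine t2 _ ha ?_
    rw [← mul_sub, abs_mul, abs_of_pos (by positivity), pow_add, mul_comm]
    gcongr
  ent Ω T P θ b A M Λ x hx hM hΛ hb hw ε hε := by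
    have h4 : 0 < ε / 4 := by positivity
    filter_upwards [hb, hw _ h4 _ h4, ((hΛ.const_mul hM one_le_two).log3 hM 3).add (hM.sm lg) _ h4]
      with n b1 w1 s1
    have l1 := hΛ.1 n
    have p1 : (1 : ℝ) ≤ 2 ^ M n := one_le_pow₀ one_le_two
    have k := ke.sparse (P n) (fun ω => Nr (A n (θ n ω)) (Λ n) (b n ω) ∧
      Cov (A n (θ n ω)) x (M n) (ε / 4 * M n)) (b n) (θ n) _
      (Real.exp (x * (M n - (0 : ℕ)) * lg + (ε / 4 * M n + 2 * Real.log (2 * (2 * Λ n) + 3))))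
      (det_int (L := 2 * Λ n * 2 ^ M n) (by positivity) fun u hu v hv _ =>
        (abs_sub _ _).trans (by linarith [b1 u hu, b1 v hv])) fun a _ => by
      by_cases hc : Cov (A n (θ n a)) x (M n) (ε / 4 * M n)
      · refine (wide hc (Nat.zero_le _) le_rfl 0 (fun k => k) (L := 2 * Λ n) (by positivity)).imp
          fun T hT => ⟨hT.1, fun v hv e ⟨⟨c, c1, c2⟩, _⟩ => ?_⟩
        have := abs_le.1 (b1 v hv)
        have := abs_le.1 (abs_dn 0 c)
        rw [pow_zero, div_one] at this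
        rw [abs_le] at c2
        rw [← Int.floor_intCast (R := ℝ) (b n v)]
        exact hT.2 c (e ▸ c1) (abs_le.2 (by constructor <;> nlinarith)) _
          (abs_le.2 (by constructor <;> linarith))
      · exact ⟨∅, by simpa using (Real.exp_pos _).le, fun v _ e h => absurd (e ▸ h.2) hc⟩
    rw [Real.log_exp, Nat.cast_zero, sub_zero] at k
    rw [pb_not] at w1
    set p := pb (P n) _
    have p0 : 0 ≤ p := pb_nonneg _ _
    have p2 : p ≤ 1 := pb_le_one _ _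
    have g0 : 0 ≤ Real.log (2 * (2 * Λ n) + 3) := Real.log_nonneg (by linarith)
    have g1 := mul_le_mul_of_nonneg_left (log_le_pow (L := 2 * Λ n) (by linarith) (M n))
      (sub_nonneg.2 p2)
    have g2 : 0 < lg := Real.log_pos one_lt_two
    have g3 : lg ≤ 1 := by have := Real.log_two_lt_d9; unfold lg; linarith
    have g4 : (1 - p) * (M n * lg) ≤ ε / 4 * (M n * 1) := by gcongr
    have g5 := mul_le_of_le_one_left (show 0 ≤ x * M n * lg + (ε / 4 * M n +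
      2 * Real.log (2 * (2 * Λ n) + 3)) by positivity) p2
    nlinarith [mul_nonneg p0 g0, mul_nonneg h4.le (Nat.cast_nonneg (M n))]

end Pool.Agent.MP_5168f5_an.MX.AB
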