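import Pool.Agent.MP_5168f5_an.H17F.Sq2

/-! Products in an additive family of levels: definitions. All lengths are in units of the
finest cell, the unit ball has radius `2 ^ M`. -/

namespace Pool.Agent.MP_5168f5_an.MX.AB

open H19 H17S H17F Filter

/-- A family of levels. -/
structure Lv where
  S : ℕ → Set ℝ
  neg : ∀ q y, y ∈ S q → -y ∈ S q
  add : ∀ q r y z, y ∈ S q → z ∈ S r → y + z ∈ S (q + r)

/-- Rename and rescale the levels. -/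
def Lv.tr (L : Lv) (k : ℕ) (u : ℝ) : Lv where
  S := fun q => {y | u * y ∈ L.S (k * q)}
  neg := fun q y h => by simpa using L.neg _ _ h
  add := fun q r y z h h' => by simpa [mul_add] using L.add _ _ _ _ h h'

/-- `y` is within `r` of `A`. -/
def Nr (A : Set ℝ) (r y : ℝ) : Prop := ∃ a ∈ A, |y - a| ≤ r

/-- The cell of length `2 ^ i`. -/
noncomputable def dn (i : ℕ) (a : ℝ) : ℤ := ⌊a / 2 ^ i⌋

/-- Covering rate `x` in all windows, with error `e`. -/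
def Cov (A : Set ℝ) (x : ℝ) (M : ℕ) (e : ℝ) : Prop :=
  ∀ i j : ℕ, i ≤ j → j ≤ M → ∀ y : ℝ, ∃ T : Finset ℤ,
    (T.card : ℝ) ≤ Real.exp (x * (j - i) * lg + e) ∧ ∀ a ∈ A, |a - y| ≤ 2 ^ j → dn i a ∈ T

/-- Two integer variables with side information and three families of levels. -/
structure Tr where
  Ω : Type
  T : Type
  P : FP Ω
  θ : Ω → T
  b : Ω → ℤ
  c : Ω → ℤ
  L : T → Lv
  Lb : T → Lv
  Lc : T → Lv

namespace Tr

variable (z : Tr)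

/-- Other variables, same levels. -/
def law {Ω' : Type} (Q : FP Ω') (b c : Ω' → ℤ) (θ : Ω' → z.T) : Tr :=
  { Ω := Ω', T := z.T, P := Q, θ := θ, b := b, c := c, L := z.L, Lb := z.Lb, Lc := z.Lc }

/-- Condition on an event. -/
noncomputable def cond (E : z.Ω → Prop) : Tr := { z with P := cE z.P E }

/-- More side information. -/
def side {K : Type} (κ : z.Ω → K) : Tr :=
  { Ω := z.Ω, T := K × z.T, P := z.P, θ := fun ω => (κ ω, z.θ ω), b := z.b, c := z.c,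
    L := fun t => z.L t.2, Lb := fun t => z.Lb t.2, Lc := fun t => z.Lc t.2 }

/-- Exchange the two variables. -/
def swap : Tr := { z with b := z.c, c := z.b, Lb := z.Lc, Lc := z.Lb }

/-- The product and the two factors are near the first levels. -/
def In (M : ℕ) (Λ : ℝ) (ω : z.Ω) : Prop :=
  Nr ((z.L (z.θ ω)).S 1) Λ (z.b ω * z.c ω / 2 ^ M) ∧ Nr ((z.Lb (z.θ ω)).S 1) Λ (z.b ω) ∧
    Nr ((z.Lc (z.θ ω)).S 1) Λ (z.c ω)

/-- The levels of order `q` have rate `x`. -/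
def Cv (x : ℝ) (M q : ℕ) (e : ℝ) (ω : z.Ω) : Prop :=
  Cov ((z.L (z.θ ω)).S q) x M e ∧ Cov ((z.Lb (z.θ ω)).S q) x M e ∧
    Cov ((z.Lc (z.θ ω)).S q) x M e

/-- Entropy of the first variable. -/
noncomputable def hb : ℝ := ch z.P z.b z.θ

/-- Entropy of the second variable. -/
noncomputable def hc : ℝ := ch z.P z.c z.θ

end Tr

/-- The same without side information. -/
structure Tr0 where
  Ω : Type
  P : FP Ω
  b : Ω → ℤ
  c : Ω → ℤ
  L : Lv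
  Lb : Lv
  Lc : Lv

/-- Trivial side information. -/
def Tr0.tr (z : Tr0) : Tr :=
  { Ω := z.Ω, T := Unit, P := z.P, θ := fun _ => (), b := z.b, c := z.c, L := fun _ => z.L,
    Lb := fun _ => z.Lb, Lc := fun _ => z.Lc }

/-- Freeze the side information. -/
noncomputable def Tr.fix (z : Tr) (s : z.T) : Tr0 :=
  { Ω := z.Ω, P := cv z.P z.θ s, b := z.b, c := z.c, L := z.L s, Lb := z.Lb s, Lc := z.Lc s }

/-- The class of systems. -/
structure Cls (x : ℝ) (z : ℕ → Tr) (M : ℕ → ℕ) : Prop where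
  big : Big M
  bd : ∃ Λ, Sub M Λ ∧ (∀ᶠ n in UF, ∀ ω ∈ (z n).P.S,
      |((z n).b ω : ℝ)| ≤ Λ n * 2 ^ M n ∧ |((z n).c ω : ℝ)| ≤ Λ n * 2 ^ M n) ∧
    Whp (fun n => (z n).P) fun n => (z n).In (M n) (Λ n)
  inf : Sm M fun n => mi (z n).P (z n).b (z n).c (z n).θ
  cov : ∀ (q : ℕ) (ε : ℝ), 0 < ε →
    Whp (fun n => (z n).P) fun n => (z n).Cv x (M n) q (ε * M n)

/-- `Sg` is the largest total rate, `be` the largest first rate among the maximisers. -/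
structure Top (x Sg be : ℝ) : Prop where
  sum : ∀ z M, Cls x z M → Le M (fun n => (z n).hb + (z n).hc) fun n => Sg * M n * lg
  fst : ∀ z M, Cls x z M → Le M (fun n => Sg * M n * lg) (fun n => (z n).hb + (z n).hc) →
    Le M (fun n => (z n).hb) fun n => be * M n * lg

/-- An extremal system. -/
structure Xt (x Sg be : ℝ) (z : ℕ → Tr) (M : ℕ → ℕ) : Prop where
  cls : Cls x z M
  sum : Le M (fun n => Sg * M n * lg) fun n => (z n).hb + (z n).hc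
  fst : Le M (fun n => be * M n * lg) fun n => (z n).hb

/-- An extremal system without side information. -/
def X0 (x Sg be : ℝ) (z : ℕ → Tr0) (M : ℕ → ℕ) : Prop := Xt x Sg be (fun n => (z n).tr) M

/-- Rate `r` at all resolutions. -/
def Rate {Ω T : ℕ → Type} (P : ∀ n, FP (Ω n)) (b : ∀ n, Ω n → ℤ) (θ : ∀ n, Ω n → T n)
    (M : ℕ → ℕ) (r : ℝ) : Prop := ∀ j : ℕ → ℕ, (∀ n, j n ≤ M n) →
  Le M (fun n => r * j n * lg) (fun n => ch (P n) (fun ω => dn (M n - j n) (b n ω)) (θ n)) ∧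
    Le M (fun n => ch (P n) (fun ω => dn (M n - j n) (b n ω)) (θ n)) fun n => r * j n * lg

/-- The variable `b` stays away from every centre that carries no information about it. -/
def ND {Ω : ℕ → Type} (P : ∀ n, FP (Ω n)) (b : ∀ n, Ω n → ℤ) (M : ℕ → ℕ) : Prop :=
  ∀ (Ω' K : ℕ → Type) (Q : ∀ n, FP (Ω' n)) (b' : ∀ n, Ω' n → ℤ) (W : ∀ n, Ω' n → K n)
    (y : ∀ n, Ω' n → ℝ) (j : ℕ → ℕ), (∀ n, Law (Q n) (b' n) (P n) (b n)) →
    (∀ n, Fn (Q n) (y n) (W n)) → Sm M (fun n => hh (Q n) (b' n) - ch (Q n) (b' n) (W n)) →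
    Frac j M → Whp Q fun n v => (2 : ℝ) ^ (M n - j n) ≤ |b' n v - y n v|

/-- A sequence of numbers of unit size. -/
def Un (M : ℕ → ℕ) (u : ℕ → ℤ) : Prop := ∃ Λ, Sub M Λ ∧
  ∀ᶠ n in UF, 2 ^ M n / Λ n ≤ |(u n : ℝ)| ∧ |(u n : ℝ)| ≤ Λ n * 2 ^ M n

/-- An extremal system of unit size whose first variable has small doubling and a fixed
partner `u`. -/
structure Grp (x Sg be : ℝ) (z : ℕ → Tr0) (M : ℕ → ℕ) (u : ℕ → ℤ) : Prop where
  xt : X0 x Sg be z M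
  us : ∃ Λ, Sub M Λ ∧ ∀ᶠ n in UF, ∀ ω ∈ (z n).P.S,
    2 ^ M n / Λ n ≤ |((z n).b ω : ℝ)| ∧ 2 ^ M n / Λ n ≤ |((z n).c ω : ℝ)|
  dbl : Le M (fun n => hh (prod (z n).P (z n).P) fun v => (z n).b v.1 - (z n).b v.2) fun n =>
    be * M n * lg
  un : Un M u
  mem : ∃ Λ, Sub M Λ ∧ Whp (fun n => (z n).P) fun n ω =>
    Nr ((z n).L.S 1) (Λ n) ((z n).b ω * u n / 2 ^ M n)

/-- A path `c₀, b₁, c₁, b₀`. -/
structure Hx where
  Ω : Type
  Q : FP Ω
  c₀ : Ω → ℤ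
  b₁ : Ω → ℤ
  c₁ : Ω → ℤ
  b₀ : Ω → ℤ

namespace Hx

variable (h : Hx)

/-- The end points. -/
def th (v : h.Ω) : ℤ × ℤ := (h.b₀ v, h.c₀ v)

/-- Two paths with the same end points. -/
noncomputable def Q2 : FP (h.Ω × h.Ω) := glue h.Q h.Q h.th h.th

/-- `b + (b₀ / c₀) c` with `b` on the first path and `c` on the second. -/
noncomputable def sg (w : h.Ω × h.Ω) : ℤ :=
  h.b₁ w.1 + ⌊(h.b₀ w.1 : ℝ) * h.c₁ w.2 / h.c₀ w.1⌋

/-- The three edges have the law of the pair. -/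
structure Ok (z : Tr0) : Prop where
  e₁ : Law h.Q (fun v => (h.b₁ v, h.c₀ v)) z.P fun ω => (z.b ω, z.c ω)
  e₂ : Law h.Q (fun v => (h.b₁ v, h.c₁ v)) z.P fun ω => (z.b ω, z.c ω)
  e₃ : Law h.Q (fun v => (h.b₀ v, h.c₁ v)) z.P fun ω => (z.b ω, z.c ω)

end Hx

/-- Paths whose four vertices are almost independent. -/
structure Hex (Sg : ℝ) (z : ℕ → Tr0) (M : ℕ → ℕ) (h : ℕ → Hx) : Prop where
  ok : ∀ n, (h n).Ok (z n)
  ent : Le M (fun n => 2 * Sg * M n * lg) fun n =>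
    hh (h n).Q fun v => (((h n).b₁ v, (h n).c₁ v), (h n).th v)

/-- The cost of multiplying an independent copy of `Y` by `t`. -/
noncomputable def cost {Ω : Type} (P : FP Ω) (Y : Ω → ℤ) (t : ℝ) : ℝ :=
  hh (prod P P) (fun v => Y v.1 + ⌊t * Y v.2⌋) - hh P Y

/-- A sequence of sets of multipliers. -/
def Mu {Ω : ℕ → Type} (P : ∀ n, FP (Ω n)) (Y : ∀ n, Ω n → ℤ) (M : ℕ → ℕ) (A : ℕ → Set ℝ) : Prop :=
  ∃ Λ, Sub M Λ ∧ ∀ᶠ n in UF, ∀ t ∈ A n, |t| ≤ Λ n ∧ cost (P n) (Y n) t ≤ Real.log (Λ n)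

/-- The rules for sets of multipliers. -/
structure Rg (M : ℕ → ℕ) (μ : (ℕ → Set ℝ) → Prop) : Prop where
  bd : ∀ A, μ A → ∃ Λ, Sub M Λ ∧ ∀ᶠ n in UF, ∀ t ∈ A n, |t| ≤ Λ n
  mono : ∀ A B, μ A → (∀ᶠ n in UF, B n ⊆ A n) → μ B
  neg : ∀ A, μ A → μ fun n => {t | -t ∈ A n}
  add : ∀ A B, μ A → μ B → μ fun n => {t | ∃ a ∈ A n, ∃ b ∈ B n, t = a + b}
  mul : ∀ A B, μ A → μ B → μ fun n => {t | ∃ a ∈ A n, ∃ b ∈ B n, t = a * b}
  inv : ∀ A Λ, μ A → Sub M Λ → μ fun n => {t | ∃ a ∈ A n, 1 / Λ n ≤ |a| ∧ t = 1 / a}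

/-- Random multipliers have rate at most `r`. -/
def Bnd (M : ℕ → ℕ) (r : ℝ) (μ : (ℕ → Set ℝ) → Prop) : Prop :=
  ∀ A, μ A → ∀ (Ω : ℕ → Type) (R : ∀ n, FP (Ω n)) (t : ∀ n, Ω n → ℝ),
    (∀ᶠ n in UF, ∀ ω ∈ (R n).S, t n ω ∈ A n) →
    Le M (fun n => hh (R n) fun ω => fl1 (M n) (t n ω)) fun n => r * M n * lg

end Pool.Agent.MP_5168f5_an.MX.AB
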