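import Pool.Agent.MP_5168f5_an.MX.ABApi
import Pool.Agent.MP_5168f5_an.H17F.Diag

/-! Products in an additive family of levels: extremal systems exist. -/

namespace Pool.Agent.MP_5168f5_an.MX.AB

open H19 H17S H17F Filter

namespace ABDiagA

open DiagA (small le_of sub_of)

variable {x s s' r r' : ℝ}

theorem cov_mono {A : Set ℝ} {M : ℕ} {e e' : ℝ} (h : Cov A x M e) (he : e ≤ e') : Cov A x M e' :=
  fun i j a b y => (h i j a b y).imp fun _ k =>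
    ⟨k.1.trans (Real.exp_le_exp.2 (by linarith)), k.2⟩

/-- One term of a system with error `δ`. -/
structure At (x s r : ℝ) (k : ℕ) (δ : ℝ) (z : Tr) (m : ℕ) (Λ : ℝ) : Prop where
  big : k ≤ m
  one : 1 ≤ Λ
  sub : Λ ≤ Real.exp (δ * m)
  bd : ∀ ω ∈ z.P.S, |(z.b ω : ℝ)| ≤ Λ * 2 ^ m ∧ |(z.c ω : ℝ)| ≤ Λ * 2 ^ m
  inn : pb z.P (fun ω => ¬z.In m Λ ω) ≤ δ
  inf : mi z.P z.b z.c z.θ ≤ 0 + δ * m
  cov : ∀ q ≤ k, pb z.P (fun ω => ¬z.Cv x m q (δ * m) ω) ≤ δ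
  sum : s * m * lg ≤ z.hb + z.hc + δ * m
  fst : r * m * lg ≤ z.hb + δ * m

/-- There is a system with these rates. -/
def Ex (x s r : ℝ) : Prop := ∃ z M, Xt x s r z M

theorem ex_at (k : ℕ) {δ : ℝ} (hδ : 0 < δ) (h : Ex x (s - δ / 2) (r - δ / 2)) :
    ∃ z m Λ, At x s r k δ z m Λ := by
  obtain ⟨z, M, h⟩ := h
  obtain ⟨Λ, s1, a1, a2⟩ := h.cls.bd
  have a3 : ∀ᶠ n in UF, ∀ q ∈ Finset.range (k + 1),
      pb (z n).P (fun ω => ¬(z n).Cv x (M n) q (δ * M n) ω) ≤ δ :=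
    (eventually_all_finset _).2 fun q _ => h.cls.cov q δ hδ δ hδ
  have : ∀ᶠ n in UF, At x s r k δ (z n) (M n) (Λ n) := by
    filter_upwards [h.cls.big.ev k, s1.2 δ hδ, a1, a2 δ hδ, h.cls.inf δ hδ, a3,
      h.sum _ (half_pos hδ), h.fst _ (half_pos hδ)] with n b1 b2 b3 b4 b5 b6 b7 b8
    have : δ / 2 * M n * lg ≤ δ / 2 * M n := mul_le_of_le_one_right (by positivity) lg_lt_one.le
    exact ⟨by exact_mod_cast b1, s1.1 n, b2, b3, b4, b5,
      fun q hq => b6 q (Finset.mem_range.2 (Nat.lt_succ_of_le hq)), by linarith, by linarith⟩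
  obtain ⟨n, hn⟩ := this.exists
  exact ⟨_, _, _, hn⟩

theorem diag (h : ∀ δ : ℝ, 0 < δ → Ex x (s - δ) (r - δ)) : Ex x s r := by
  have p : ∀ k : ℕ, (0 : ℝ) < 1 / (k + 1 : ℝ) := fun k => by positivity
  choose z M Λ H using fun k : ℕ => ex_at k (p k) (h _ (half_pos (p k)))
  refine ⟨z, M, ⟨tendsto_atTop.2 fun b => (ev_ge b).mono fun k hk => hk.trans (H k).big,
    ⟨Λ, sub_of (fun k => (H k).one) fun k => (H k).sub, Eventually.of_forall fun k => (H k).bd,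
      fun ε hε => (small hε).mono fun k hk => (H k).inn.trans hk⟩,
    le_of fun k => (H k).inf, fun q ε hε ε' hε' => ?_⟩, le_of fun k => (H k).sum,
    le_of fun k => (H k).fst⟩
  filter_upwards [small hε, small hε', ev_ge q] with k a b c
  have e := mul_le_mul_of_nonneg_right a (Nat.cast_nonneg (α := ℝ) (M k))
  exact (pb_mono fun ω _ u v => u ⟨cov_mono v.1 e, cov_mono v.2.1 e, cov_mono v.2.2 e⟩).trans
    (((H k).cov q c).trans b)

theorem le_mono {M : ℕ → ℕ} {f : ℕ → ℝ} (h : Le M (fun n => s * M n * lg) f) (e : s' ≤ s) :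
    Le M (fun n => s' * M n * lg) f := (Le.of_le fun _ => mul_le_mul_of_nonneg_right
      (mul_le_mul_of_nonneg_right e (Nat.cast_nonneg _)) lg_pos.le).trans h

theorem Ex.mono (h : Ex x s r) (e : s' ≤ s) (e' : r' ≤ r) : Ex x s' r' := by
  obtain ⟨z, M, h⟩ := h
  exact ⟨z, M, h.cls, le_mono h.sum e, le_mono h.fst e'⟩

theorem one {Ω β : ℕ → Type} {P : ∀ n, FP (Ω n)} {M : ℕ → ℕ} {L : ℕ → ℝ} {G : ∀ n, Ω n → β n}
    {F : ∀ n, Ω n → ℤ} (hM : Big M) (hL : Sub M L)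
    (h : ∀ᶠ n in UF, ∀ a ∈ (P n).S, |(F n a : ℝ)| ≤ L n * 2 ^ M n) :
    Le M (fun n => ch (P n) (F n) (G n)) fun n => M n * lg :=
  le_int hM (hL.const_mul hM one_le_two) (h.mono fun n u a ha b hb _ => by
    linarith [abs_sub (F n a : ℝ) (F n b), u a ha, u b hb])

theorem Ex.le (h : Ex x s r) : s ≤ 2 ∧ r ≤ 1 := by
  obtain ⟨z, M, h⟩ := h
  obtain ⟨Λ, s1, a1, -⟩ := h.cls.bd
  have h1 : Le M (fun n => (z n).hb) fun n => M n * lg :=
    one h.cls.big s1 (a1.mono fun n u a ha => (u a ha).1)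
  have h2 : Le M (fun n => (z n).hc) fun n => M n * lg :=
    one h.cls.big s1 (a1.mono fun n u a ha => (u a ha).2)
  exact ⟨le_of_mul_le_mul_right (Le.num h.cls.big ((h.sum.trans (h1.add h2)).of_sub
      (Eventually.of_forall fun n => by linarith))) lg_pos,
    le_of_mul_le_mul_right (Le.num h.cls.big ((h.fst.trans h1).of_sub
      (Eventually.of_forall fun n => by linarith))) lg_pos⟩

theorem up {M : ℕ → ℕ} {f : ℕ → ℝ} (h : ¬Le M f fun n => s * M n * lg) :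
    ∃ ε : ℝ, 0 < ε ∧ Le M (fun n => (s + ε) * M n * lg) f := by
  obtain ⟨ε, a, b⟩ := not_Le h
  refine ⟨ε, a, Le.of_ev (b.mono fun n u => ?_)⟩
  have : ε * M n * lg ≤ ε * M n := mul_le_of_le_one_right (by positivity) lg_lt_one.le
  linarith

theorem zero {z : ℕ → Tr} {M : ℕ → ℕ} (h : Cls x z M)
    (k : Le M (fun n => s * M n * lg) fun n => (z n).hb + (z n).hc) : Ex x s 0 :=
  ⟨z, M, h, k, Le.of_le fun n => by rw [zero_mul, zero_mul]; exact ch_nonneg _ _⟩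

end ABDiagA

open ABDiagA

theorem rowDiag : SDiag := by
  rintro x ⟨z, M, hz, hn⟩
  obtain ⟨ε, hε, h0⟩ := up hn
  have bA : BddAbove {s | Ex x s 0} := ⟨2, fun s h => (Ex.le h).1⟩
  have mA : x + ε ∈ {s | Ex x s 0} := zero hz h0
  have eA : Ex x (sSup {s | Ex x s 0}) 0 := diag fun δ hδ => by
    obtain ⟨s, a, b⟩ := exists_lt_of_lt_csSup ⟨_, mA⟩ (sub_lt_self _ hδ)
    exact Ex.mono a b.le (by linarith)
  have lA := fun s (h : Ex x s 0) => le_csSup bA h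
  generalize sSup {s | Ex x s 0} = Sg at eA lA
  have bB : BddAbove {r | Ex x Sg r} := ⟨1, fun r h => (Ex.le h).2⟩
  obtain ⟨z', M', eB⟩ : Ex x Sg (sSup {r | Ex x Sg r}) := diag fun δ hδ => by
    obtain ⟨s, a, b⟩ := exists_lt_of_lt_csSup (s := {r | Ex x Sg r}) ⟨_, eA⟩ (sub_lt_self _ hδ)
    exact Ex.mono a (by linarith) b.le
  refine ⟨Sg, _, z', M', by linarith [lA _ mA], ⟨fun w K hw => by_contra fun c => ?_,
    fun w K hw k => by_contra fun c => ?_⟩, eB⟩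
  · obtain ⟨η, a, b⟩ := up c
    linarith [lA _ (zero hw b)]
  · obtain ⟨η, a, b⟩ := up c
    linarith [le_csSup bB (show Ex x Sg _ from ⟨w, K, hw, k, b⟩)]

end Pool.Agent.MP_5168f5_an.MX.AB
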