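import Pool.Agent.MP_5168f5_an.MX.ABApi

/-! Products in an additive family of levels: the transform along two paths. -/

namespace Pool.Agent.MP_5168f5_an.MX.AB

open H19 H17S H17F Filter

namespace ABDysA

section Near

variable {L : Lv} {A : Set ℝ} {q q' : ℕ} {r r' r'' y y' : ℝ}

theorem nr_add (h : Nr (L.S q) r y) (h' : Nr (L.S q') r' y') :
    Nr (L.S (q + q')) (r + r') (y + y') := by
  obtain ⟨a, b, c⟩ := h
  obtain ⟨a', b', c'⟩ := h'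
  refine ⟨a + a', L.add _ _ _ _ b b', ?_⟩
  rw [show y + y' - (a + a') = (y - a) + (y' - a') by ring]
  exact (abs_add_le _ _).trans (add_le_add c c')

theorem nr_sub (h : Nr (L.S q) r y) (h' : Nr (L.S q') r' y') :
    Nr (L.S (q + q')) (r + r') (y - y') := by
  obtain ⟨a', b', c'⟩ := h'
  rw [sub_eq_add_neg]
  refine nr_add h ⟨-a', L.neg _ _ b', ?_⟩
  rwa [show -y' - -a' = -(y' - a') by ring, abs_neg]

theorem nr_near (h : Nr A r y) (e : |y' - y| ≤ r') (k : r + r' ≤ r'') : Nr A r'' y' := by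
  obtain ⟨a, b, c⟩ := h
  refine ⟨a, b, ?_⟩
  rw [show y' - a = (y - a) + (y' - y) by ring]
  exact (abs_add_le _ _).trans ((add_le_add c e).trans k)

theorem nr_mono (h : Nr A r y) (k : r ≤ r') : Nr A r' y :=
  nr_near h (r' := 0) (by simp) (by simpa using k)

theorem tr_one (L : Lv) (k q : ℕ) : (L.tr k 1).S q = L.S (k * q) := by
  ext y; simp [Lv.tr]

end Near

section Alg

variable {b c₁ c₂ ct bb bx b₀ c₀ N Λ : ℝ}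

theorem cube (hΛ : 1 ≤ Λ) : Λ ≤ Λ ^ 2 ∧ Λ ^ 2 ≤ Λ ^ 3 :=
  ⟨le_self_pow₀ hΛ two_ne_zero, pow_le_pow_right₀ hΛ (by norm_num)⟩

theorem abs_inv_le (hN : 1 ≤ N) (hΛ : 1 ≤ Λ) (h : N / Λ ≤ |c₀|) : c₀ ≠ 0 ∧ |N / c₀| ≤ Λ := by
  have h0 : 0 < |c₀| := lt_of_lt_of_le (by positivity) h
  refine ⟨abs_pos.1 h0, ?_⟩
  rw [abs_div, abs_of_pos (by linarith : 0 < N), div_le_iff₀ h0]
  rw [div_le_iff₀ (by linarith)] at h
  linarith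

theorem alg_bd (hN : 1 ≤ N) (hΛ : 1 ≤ Λ) (h : N / Λ ≤ |c₀|) (h1 : |b| ≤ Λ * N)
    (h2 : |b₀| ≤ Λ * N) (h3 : |ct| ≤ Λ * N) :
    |b + (⌊b₀ * ct / c₀⌋ : ℝ)| ≤ 8 * Λ ^ 3 * N := by
  obtain ⟨k0, k1⟩ := abs_inv_le hN hΛ h
  have n0 : 0 < N := by linarith
  have e1 : b₀ * ct / c₀ = b₀ / N * ct * (N / c₀) := by field_simp
  have e2 : |b₀ / N| ≤ Λ := by rwa [abs_div, abs_of_pos n0, div_le_iff₀ n0]
  have e3 : |b₀ * ct / c₀| ≤ Λ * (Λ * N) * Λ := by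
    rw [e1, abs_mul, abs_mul]
    gcongr
  have e4 := abs_le.1 (abs_floor (b₀ * ct / c₀))
  obtain ⟨u1, u2⟩ := cube hΛ
  have e5 : Λ * N ≤ Λ ^ 3 * N := by gcongr; linarith
  have e6 : 1 ≤ Λ * N := one_le_mul_of_one_le_of_one_le hΛ hN
  have e7 := abs_le.1 e3
  have e8 := abs_le.1 h1
  rw [abs_le]
  constructor <;> nlinarith [e4.1, e4.2, e7.1, e7.2, e8.1, e8.2]

theorem alg_L (hN : 1 ≤ N) (h1 : |c₁| ≤ Λ * N) (h2 : |c₂| ≤ Λ * N) (h3 : |ct| ≤ Λ * N)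
    (e : bb + (⌊b₀ * c₁ / c₀⌋ : ℝ) = bx + (⌊b₀ * c₂ / c₀⌋ : ℝ)) :
    |(b + (⌊b₀ * ct / c₀⌋ : ℝ)) * (c₁ - c₂) / N -
      (b * c₁ / N - b * c₂ / N + bx * ct / N - bb * ct / N)| ≤ 4 * Λ := by
  have n0 : 0 < N := by linarith
  have d := abs_floor (b₀ * ct / c₀)
  have d1 := abs_floor (b₀ * c₁ / c₀)
  have d2 := abs_floor (b₀ * c₂ / c₀)
  set δ := b₀ * ct / c₀ - (⌊b₀ * ct / c₀⌋ : ℝ) with hδ
  set δ₁ := b₀ * c₁ / c₀ - (⌊b₀ * c₁ / c₀⌋ : ℝ) with hδ₁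
  set δ₂ := b₀ * c₂ / c₀ - (⌊b₀ * c₂ / c₀⌋ : ℝ) with hδ₂
  have e1 : (b + (⌊b₀ * ct / c₀⌋ : ℝ)) * (c₁ - c₂) / N -
      (b * c₁ / N - b * c₂ / N + bx * ct / N - bb * ct / N) =
      (δ₁ * ct - δ₂ * ct - δ * c₁ + δ * c₂) / N := by
    rw [hδ, hδ₁, hδ₂, show bx = bb + (⌊b₀ * c₁ / c₀⌋ : ℝ) - (⌊b₀ * c₂ / c₀⌋ : ℝ) by linarith]
    ring
  have m : ∀ s t : ℝ, |s| ≤ 1 → |t| ≤ Λ * N → |s * t| ≤ Λ * N := fun s t a a' => by
    rw [abs_mul]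
    exact (mul_le_of_le_one_left (abs_nonneg t) a).trans a'
  have m1 := abs_le.1 (m _ _ d1 h3)
  have m2 := abs_le.1 (m _ _ d2 h3)
  have m3 := abs_le.1 (m _ _ d h1)
  have m4 := abs_le.1 (m _ _ d h2)
  rw [e1, abs_div, abs_of_pos n0, div_le_iff₀ n0, abs_le]
  constructor <;> linarith [m1.1, m1.2, m2.1, m2.2, m3.1, m3.2, m4.1, m4.2]

theorem alg_Lb {A : Set ℝ} (hN : 1 ≤ N) (hΛ : 1 ≤ Λ) (h : N / Λ ≤ |c₀|)
    (k : Nr A (Λ + Λ) (b * c₀ / N + b₀ * ct / N)) :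
    Nr {y | c₀ / N * y ∈ A} (8 * Λ ^ 3) (b + (⌊b₀ * ct / c₀⌋ : ℝ)) := by
  obtain ⟨k0, k1⟩ := abs_inv_le hN hΛ h
  have n0 : 0 < N := by linarith
  obtain ⟨a, k2, k3⟩ := k
  refine ⟨N / c₀ * a, ?_, ?_⟩
  · change c₀ / N * (N / c₀ * a) ∈ A
    rwa [show c₀ / N * (N / c₀ * a) = a by field_simp]
  · have e1 : b + (⌊b₀ * ct / c₀⌋ : ℝ) - N / c₀ * a =
        N / c₀ * (b * c₀ / N + b₀ * ct / N - a) - (b₀ * ct / c₀ - (⌊b₀ * ct / c₀⌋ : ℝ)) := by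
      field_simp
      ring
    have e2 : |N / c₀ * (b * c₀ / N + b₀ * ct / N - a)| ≤ Λ * (Λ + Λ) := by
      rw [abs_mul]
      gcongr
    obtain ⟨u1, u2⟩ := cube hΛ
    rw [e1]
    refine (abs_sub _ _).trans ((add_le_add e2 (abs_floor _)).trans ?_)
    nlinarith

end Alg

section One

variable (h : Hx)

/-- The data that the two copies share. -/
noncomputable def ph (w : h.Ω × h.Ω) : (ℤ × ℤ) × ℤ × ℤ × ℤ :=
  (h.th w.1, h.b₁ w.1, h.c₁ w.2, h.sg w.swap)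

/-- Two pairs of paths. -/
noncomputable def P4 : FP ((h.Ω × h.Ω) × h.Ω × h.Ω) := glue h.Q2 h.Q2 (ph h) (ph h)

/-- The transformed system. -/
noncomputable def sys (z : Tr0) (M : ℕ) : Tr :=
  { Ω := (h.Ω × h.Ω) × h.Ω × h.Ω, T := ℤ × ℤ, P := P4 h, θ := fun v => h.th v.1.1,
    b := fun v => h.sg v.1, c := fun v => h.c₁ v.1.1 - h.c₁ v.2.1, L := fun _ => z.L.tr 4 1,
    Lb := fun t => z.L.tr 2 (t.2 / 2 ^ M), Lc := fun _ => z.Lc.tr 2 1 }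

/-- The pair that is copied. -/
def X (w : h.Ω × h.Ω) : ℤ × ℤ := (h.c₁ w.1, h.b₁ w.2)

/-- The pair that is kept. -/
def Y (w : h.Ω × h.Ω) : ℤ × ℤ := (h.b₁ w.1, h.c₁ w.2)

variable {h}

theorem mem2 {w : h.Ω × h.Ω} (hw : w ∈ h.Q2.S) :
    w.1 ∈ h.Q.S ∧ w.2 ∈ h.Q.S ∧ h.b₀ w.2 = h.b₀ w.1 ∧ h.c₀ w.2 = h.c₀ w.1 := by
  have := (kg.mem h.Q h.Q h.th h.th w (Law.rfl _)).1 hw
  simpa only [Hx.th, Prod.mk.injEq] using this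

theorem mem4 {v : (h.Ω × h.Ω) × h.Ω × h.Ω} (hv : v ∈ (P4 h).S) :
    v.1 ∈ h.Q2.S ∧ v.2 ∈ h.Q2.S ∧ ph h v.2 = ph h v.1 :=
  (kg.mem h.Q2 h.Q2 (ph h) (ph h) v (Law.rfl _)).1 hv

variable (h)

theorem l1 : Law h.Q2 Prod.fst h.Q id := kg.fst _ _ _ _

theorem l2 : Law h.Q2 Prod.snd h.Q id := kg.snd _ _ _ _ (Law.rfl _)

theorem k1 : Law (P4 h) Prod.fst h.Q2 id := kg.fst _ _ _ _

theorem k2 : Law (P4 h) Prod.snd h.Q2 id := kg.snd _ _ _ _ (Law.rfl _)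

theorem fn_s : Fn h.Q2 (fun w => h.sg w.swap) fun w => (X h w, h.th w.1) := by
  intro a ha b hb e
  obtain ⟨-, -, a1, a2⟩ := mem2 ha
  obtain ⟨-, -, b1, b2⟩ := mem2 hb
  simp only [X, Hx.th, Prod.mk.injEq] at e
  simp only [Hx.sg, Prod.fst_swap, Prod.snd_swap, a1, a2, b1, b2, e.1.1, e.1.2, e.2.1, e.2.2]

theorem xy : ch h.Q h.c₁ (fun u => (h.th u, h.b₁ u)) + ch h.Q h.b₁ (fun u => (h.th u, h.c₁ u)) ≤
    ch h.Q2 (X h) fun w => (Y h w, h.th w.1) := by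
  have e1 := kg.mkv' h.Q h.Q h.th h.th h.c₁ h.b₁ (fun u => (h.c₁ u, h.th u)) (Law.rfl _)
    (Fn.snd _ _)
  have e2 := kg.mkv h.Q h.Q h.th h.th h.b₁ h.c₁ (fun u => (h.c₁ u, h.b₁ u, h.th u)) (Law.rfl _)
    ((Fn.snd _ _).right _)
  rw [← e1, ← e2]
  refine le_of_le_of_eq (add_le_add (ch_anti ?_) (ch_anti ?_))
    (ch_chain (P := h.Q2) (fun w => h.c₁ w.1) (fun w => h.b₁ w.2) _).symm
  · intro a ha b hb e
    obtain ⟨-, -, a1, a2⟩ := mem2 ha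
    obtain ⟨-, -, b1, b2⟩ := mem2 hb
    simp only [Y, Hx.th, Prod.mk.injEq] at e ⊢
    exact ⟨⟨e.2, e.1.1⟩, a1 ▸ b1 ▸ e.1.2.1, a2 ▸ b2 ▸ e.1.2.2⟩
  · intro a _ b _ e
    simp only [Y, Prod.mk.injEq] at e ⊢
    exact ⟨e.1.1, ⟨e.1.2.1, e.2⟩, e.1.2.2⟩

theorem xth : ch h.Q2 (X h) (fun w => h.th w.1) ≤ ch h.Q h.c₁ h.th + ch h.Q h.b₁ h.th := by
  rw [← (l1 h).ch_id h.c₁ h.th, ← kg.mk1 h.Q h.Q h.th h.th h.b₁ h.th (Law.rfl _) (Fn.rfl _)]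
  exact ch_subadd (P := h.Q2) (fun w => h.c₁ w.1) (fun w => h.b₁ w.2) _

theorem sm : ch h.Q2 (fun w => h.sg w.swap) (fun w => h.th w.1) ≤
    ch h.Q2 h.sg fun w => h.th w.1 := by
  have e0 : ch h.Q2 h.sg (fun w => h.th w.1) =
      ch h.Q2 (fun w => h.sg w.swap) fun w => h.th w.2 :=
    Law.ch_eq (P := h.Q2) (Q := h.Q2) (f := id) (g := Prod.swap)
      (kg.swap h.Q h.Q h.th h.th (Law.rfl _)) h.sg fun w => h.th w.1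
  rw [e0]
  refine ch_anti fun a ha b hb e => ?_
  obtain ⟨-, -, a1, a2⟩ := mem2 ha
  obtain ⟨-, -, b1, b2⟩ := mem2 hb
  simp only [Hx.th, Prod.mk.injEq] at e ⊢
  exact ⟨a1 ▸ b1 ▸ e.1, a2 ▸ b2 ▸ e.2⟩

theorem hb_eq (z : Tr0) (M : ℕ) : (sys h z M).hb = ch h.Q2 h.sg fun w => h.th w.1 :=
  (k1 h).ch_id h.sg fun w => h.th w.1

theorem val1 : ch h.Q2 (X h) (fun w => (h.sg w.swap, Y h w, h.th w.1)) ≤
    ch h.Q2 (fun w => h.c₁ w.1) fun w => (ph h w, ()) := by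
  refine ch_le (fun a ha b hb e => ?_) fun a _ b _ e => ?_
  · obtain ⟨-, -, a1, a2⟩ := mem2 ha
    obtain ⟨-, -, b1, b2⟩ := mem2 hb
    simp only [X, Y, Hx.th, Hx.sg, Prod.mk.injEq, Prod.fst_swap, Prod.snd_swap, a1, a2, b1,
      b2] at e ⊢
    obtain ⟨e1, e2, -, e3, e4⟩ := e
    rw [e1, e3, e4] at e2
    exact ⟨e1, add_right_cancel e2⟩
  · simp only [Y, ph, Prod.mk.injEq] at e ⊢
    exact ⟨⟨e.2.2, e.2.1.1, e.2.1.2, e.1⟩, trivial⟩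

theorem val2 : ch (P4 h) (fun v => h.c₁ v.1.1) (fun v => ((h.c₁ v.2.1, ph h v.2), ())) ≤
    ch (P4 h) (fun v => h.c₁ v.1.1 - h.c₁ v.2.1) fun v => h.th v.1.1 := by
  refine ch_le (fun a _ b _ e => ?_) fun a ha b hb e => ?_
  · simp only [Prod.mk.injEq] at e
    have e3 := e.1
    rwa [e.2.1.1, sub_left_inj] at e3
  · simp only [Prod.mk.injEq] at e
    have e2 := ((mem4 ha).2.2.symm.trans e.1.2).trans (mem4 hb).2.2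
    simp only [ph, Prod.mk.injEq] at e2
    exact e2.1

theorem val (z : Tr0) (M : ℕ) :
    ch h.Q2 (X h) (fun w => (Y h w, h.th w.1)) ≤ (sys h z M).hb + (sys h z M).hc := by
  have e0 : ch h.Q2 (fun w => h.sg w.swap) (fun w => (Y h w, h.th w.1)) ≤
      ch h.Q2 (fun w => h.sg w.swap) fun w => h.th w.1 := ch_anti (Fn.snd _ _)
  have e1 : ch (P4 h) (fun v => h.c₁ v.1.1) (fun v => ((h.c₁ v.2.1, ph h v.2), ())) =
      ch h.Q2 (fun w => h.c₁ w.1) fun w => (ph h w, ()) :=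
    kg.mkv' h.Q2 h.Q2 (ph h) (ph h) (fun w => h.c₁ w.1) (fun _ => ())
      (fun w => (h.c₁ w.1, ph h w)) (Law.rfl _) (Fn.snd _ _)
  have e2 : (sys h z M).hc =
      ch (P4 h) (fun v => h.c₁ v.1.1 - h.c₁ v.2.1) fun v => h.th v.1.1 := rfl
  have e3 := ch_tri (P := h.Q2) (X h) (fun w => h.sg w.swap) fun w => (Y h w, h.th w.1)
  rw [hb_eq, e2]
  linarith [val1 h, val2 h, sm h]

theorem inf (z : Tr0) (M : ℕ) :
    mi (sys h z M).P (sys h z M).b (sys h z M).c (sys h z M).θ ≤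
      2 * (ch h.Q2 (X h) (fun w => h.th w.1) - ch h.Q2 (X h) fun w => (Y h w, h.th w.1)) := by
  have a1 : mi (sys h z M).P (sys h z M).b (sys h z M).c (sys h z M).θ ≤
      mi (P4 h) (fun v => Y h v.1) (fun v => (X h v.1, X h v.2)) fun v => h.th v.1.1 := by
    refine (mi_mono' (P := P4 h) (F' := fun v => Y h v.1) fun a _ b _ e => ?_).trans
      (mi_mono fun a _ b _ e => ?_)
    · simp only [sys, Y, Hx.th, Prod.mk.injEq] at e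
      simp only [sys, Hx.sg, e.1.1, e.1.2, e.2.1, e.2.2]
    · simp only [sys, X, Prod.mk.injEq] at e
      simp only [sys, e.1.1.1, e.1.2.1]
  have a2 := (k1 h).mi_id (Y h) (X h) fun w => h.th w.1
  have a3 := kg.mk1 h.Q2 h.Q2 (ph h) (ph h) (X h) (fun w => (Y h w, X h w, h.th w.1)) (Law.rfl _)
    fun a ha b hb e => by
      have e1 := fn_s h a ha b hb (Prod.ext_iff.1 e).2
      simp only [Y, Prod.mk.injEq] at e
      simp only [ph, Prod.mk.injEq]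
      exact ⟨e.2.2, e.1.1, e.1.2, e1⟩
  have a4 : ch (P4 h) (fun v => X h v.2) (fun v => (X h v.1, h.th v.1.1)) ≤
      ch h.Q2 (X h) fun w => (h.sg w.swap, h.th w.1) := by
    rw [← (k2 h).ch_id (X h) fun w => (h.sg w.swap, h.th w.1)]
    refine ch_anti fun a ha b hb e => ?_
    obtain ⟨u1, -, u2⟩ := mem4 ha
    obtain ⟨v1, -, v2⟩ := mem4 hb
    have e1 := fn_s h _ u1 _ v1 e
    simp only [ph, Prod.mk.injEq] at u2 v2 e e1 ⊢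
    exact ⟨u2.2.2.2.trans (e1.trans v2.2.2.2.symm), u2.1.trans (e.2.trans v2.1.symm)⟩
  have a5 : mi h.Q2 (X h) (Y h) (fun w => (h.sg w.swap, h.th w.1)) ≤
      mi h.Q2 (X h) (Y h) fun w => h.th w.1 :=
    mi_left (Fn.snd _ _) ((fn_s h).pair (Fn.snd _ _)) (Fn.fst _ _)
  have a6 : ch h.Q2 (X h) (fun w => (Y h w, h.sg w.swap, h.th w.1)) ≤ ch h.Q2 (X h) (ph h) :=
    ch_anti fun a _ b _ e => by
      simp only [Y, ph, Prod.mk.injEq] at e ⊢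
      exact ⟨e.2.2, e.1.1, e.1.2, e.2.1⟩
  rw [mi_chain, a2, mi_symm (Y h), mi_symm fun v : (h.Ω × h.Ω) × h.Ω × h.Ω => Y h v.1] at a1
  have a7 : ch (P4 h) (fun v => X h v.2) (fun v => (Y h v.1, X h v.1, h.th v.1.1)) =
      ch h.Q2 (X h) (ph h) := a3
  unfold mi at a1 a5
  unfold mi
  linarith

variable {h} {z : Tr0}

theorem ents (o : h.Ok z) :
    2 * hh h.Q (fun v => ((h.b₁ v, h.c₁ v), h.th v)) - 3 * (z.tr.hb + z.tr.hc) ≤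
      ch h.Q2 (X h) (fun w => (Y h w, h.th w.1)) ∧
    ch h.Q2 (X h) (fun w => h.th w.1) ≤ z.tr.hb + z.tr.hc := by
  have zb : z.tr.hb = hh z.P z.b := ch_unit _
  have zc : z.tr.hc = hh z.P z.c := ch_unit _
  have b0 : hh h.Q h.b₀ = hh z.P z.b := Law.hh_eq o.e₃ Prod.fst
  have b1 : hh h.Q h.b₁ = hh z.P z.b := Law.hh_eq o.e₂ Prod.fst
  have c0 : hh h.Q h.c₀ = hh z.P z.c := Law.hh_eq o.e₁ Prod.snd
  have c1 : hh h.Q h.c₁ = hh z.P z.c := Law.hh_eq o.e₂ Prod.snd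
  have t1 : hh h.Q h.th ≤ hh h.Q h.b₀ + hh h.Q h.c₀ := by
    have := ch_subadd (P := h.Q) h.b₀ h.c₀ fun _ => ()
    rwa [ch_unit, ch_unit, ch_unit] at this
  have t2 := ch_chain (P := h.Q) h.b₁ h.c₁ h.th
  have t3 := ch_symm (P := h.Q) h.b₁ h.c₁ h.th
  have t4 : ch h.Q (fun v => (h.b₁ v, h.c₁ v)) h.th =
      hh h.Q (fun v => ((h.b₁ v, h.c₁ v), h.th v)) - hh h.Q h.th := rfl
  have t5 := ch_le_hh (P := h.Q) h.b₁ h.th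
  have t6 := ch_le_hh (P := h.Q) h.c₁ h.th
  have t7 : ch h.Q h.c₁ (fun u => (h.b₁ u, h.th u)) ≤ ch h.Q h.c₁ fun u => (h.th u, h.b₁ u) :=
    ch_anti ((Fn.snd _ _).pair (Fn.fst _ _))
  have t8 : ch h.Q h.b₁ (fun u => (h.c₁ u, h.th u)) ≤ ch h.Q h.b₁ fun u => (h.th u, h.c₁ u) :=
    ch_anti ((Fn.snd _ _).pair (Fn.fst _ _))
  constructor <;> linarith [xy h, xth h]

/-- Exact bounds on a pair. -/
def Bd (M : ℕ) (Λ : ℝ) (p : ℤ × ℤ) : Prop :=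
  |(p.1 : ℝ)| ≤ Λ * 2 ^ M ∧ |(p.2 : ℝ)| ≤ Λ * 2 ^ M ∧ 2 ^ M / Λ ≤ |(p.2 : ℝ)|

/-- A pair near the first levels. -/
def Gd (z : Tr0) (M : ℕ) (Λ : ℝ) (p : ℤ × ℤ) : Prop :=
  Nr (z.L.S 1) Λ (p.1 * p.2 / 2 ^ M) ∧ Nr (z.Lc.S 1) Λ p.2

/-- All three edges of a path satisfy `E`. -/
def Pa (h : Hx) (E : ℤ × ℤ → Prop) (u : h.Ω) : Prop :=
  E (h.b₁ u, h.c₀ u) ∧ E (h.b₁ u, h.c₁ u) ∧ E (h.b₀ u, h.c₁ u)

theorem pa_sure (o : h.Ok z) {E : ℤ × ℤ → Prop} (k : ∀ ω ∈ z.P.S, E (z.b ω, z.c ω)) :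
    ∀ u ∈ h.Q.S, Pa h E u := fun u hu => by
  obtain ⟨ω₁, a1, b1⟩ := o.e₁.ex hu
  obtain ⟨ω₂, a2, b2⟩ := o.e₂.ex hu
  obtain ⟨ω₃, a3, b3⟩ := o.e₃.ex hu
  exact ⟨b1 ▸ k _ a1, b2 ▸ k _ a2, b3 ▸ k _ a3⟩

variable {M : ℕ} {Λ : ℝ}

theorem sys_bd (hΛ : 1 ≤ Λ) (k : ∀ u ∈ h.Q.S, Pa h (Bd M Λ) u) : ∀ v ∈ (sys h z M).P.S,
    |((sys h z M).b v : ℝ)| ≤ 8 * Λ ^ 3 * 2 ^ M ∧ |((sys h z M).c v : ℝ)| ≤ 8 * Λ ^ 3 * 2 ^ M := by
  intro v hv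
  obtain ⟨u1, u2, -⟩ := mem4 hv
  have p1 := k _ (mem2 u1).1
  have p2 := k _ (mem2 u1).2.1
  have p3 := k _ (mem2 u2).1
  have n1 : (1 : ℝ) ≤ 2 ^ M := one_le_pow₀ one_le_two
  simp only [sys, Hx.sg, Int.cast_add, Int.cast_sub]
  refine ⟨alg_bd n1 hΛ p1.1.2.2 p1.1.1 p1.2.2.1 p2.2.1.2.1,
    (abs_sub _ _).trans ((add_le_add p1.2.1.2.1 p3.2.1.2.1).trans ?_)⟩
  obtain ⟨c1, c2⟩ := cube hΛ
  nlinarith

theorem sys_in (hΛ : 1 ≤ Λ) (k : ∀ u ∈ h.Q.S, Pa h (Bd M Λ) u) {v : (h.Ω × h.Ω) × h.Ω × h.Ω}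
    (hv : v ∈ (P4 h).S) (g : (Pa h (Gd z M Λ) v.1.1 ∧ Pa h (Gd z M Λ) v.1.2) ∧
      Pa h (Gd z M Λ) v.2.1 ∧ Pa h (Gd z M Λ) v.2.2) : (sys h z M).In M (8 * Λ ^ 3) v := by
  obtain ⟨u1, u2, u3⟩ := mem4 hv
  obtain ⟨w1, w2, w3, w4⟩ := mem2 u1
  obtain ⟨x1, -, x3, x4⟩ := mem2 u2
  obtain ⟨⟨g1, g2⟩, g3, g4⟩ := g
  have n1 : (1 : ℝ) ≤ 2 ^ M := one_le_pow₀ one_le_two
  obtain ⟨c1, c2⟩ := cube hΛ
  simp only [ph, Hx.th, Hx.sg, Prod.mk.injEq, Prod.fst_swap, Prod.snd_swap] at u3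
  obtain ⟨⟨e1, e2⟩, e3, e4, e5⟩ := u3
  rw [x3, x4, w3, w4, e1, e2] at e5
  have e6 := congrArg (Int.cast : ℤ → ℝ) e5.symm
  rw [Int.cast_add, Int.cast_add] at e6
  simp only [Tr.In, sys, Hx.sg, tr_one, Int.cast_add, Int.cast_sub, Hx.th]
  have f0 := nr_sub g1.2.1.2 g3.2.1.2
  refine ⟨?_, ?_, nr_mono f0 (by linarith)⟩
  · have f1 := nr_sub (nr_add (nr_sub g1.2.1.1 g3.2.1.1) g4.2.1.1) g2.2.1.1
    simp only [e3, e4] at f1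
    exact nr_near f1 (alg_L n1 (k _ w1).2.1.2.1 (k _ x1).2.1.2.1 (k _ w2).2.1.2.1 e6)
      (by linarith)
  · have f1 := nr_add g1.1.1 g2.2.2.1
    simp only [w3] at f1
    exact alg_Lb n1 hΛ (k _ w1).1.2.2 f1

end One

theorem whp_law {Ω Ω' α : ℕ → Type} {P : ∀ n, FP (Ω n)} {Q : ∀ n, FP (Ω' n)}
    {f : ∀ n, Ω' n → α n} {g : ∀ n, Ω n → α n} {E : ∀ n, α n → Prop}
    (l : ∀ n, Law (Q n) (f n) (P n) (g n)) (h : Whp P fun n ω => E n (g n ω)) :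
    Whp Q fun n v => E n (f n v) := fun ε hε =>
  (h ε hε).mono fun n a => ((l n).pb_eq fun y => ¬E n y).trans_le a

theorem whp_id {Ω Ω' : ℕ → Type} {P : ∀ n, FP (Ω n)} {Q : ∀ n, FP (Ω' n)}
    {f : ∀ n, Ω' n → Ω n} {E : ∀ n, Ω n → Prop} (l : ∀ n, Law (Q n) (f n) (P n) id)
    (h : Whp P E) : Whp Q fun n v => E n (f n v) := whp_law l h

end ABDysA

open ABDysA in
theorem rowDys : SDys := by
  intro cv x Sg be top z M u h gr hx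
  have hM : Big M := gr.xt.cls.big
  obtain ⟨Λ₁, s1, b1, w1⟩ := gr.xt.cls.bd
  obtain ⟨Λ₂, s2, b2⟩ := gr.us
  have s3 := s1.mul s2
  have m1 : ∀ n, Λ₁ n ≤ Λ₁ n * Λ₂ n := fun n => le_mul_of_one_le_right (s1.pos n).le (s2.1 n)
  have m2 : ∀ n, Λ₂ n ≤ Λ₁ n * Λ₂ n := fun n => le_mul_of_one_le_left (s2.pos n).le (s1.1 n)
  have b3 : ∀ᶠ n in UF, ∀ u ∈ (h n).Q.S, Pa (h n) (Bd (M n) (Λ₁ n * Λ₂ n)) u := by
    filter_upwards [b1, b2] with n p q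
    refine pa_sure (hx.ok n) fun ω hω => ?_
    have t := mul_le_mul_of_nonneg_right (m1 n) (show (0 : ℝ) ≤ 2 ^ M n by positivity)
    exact ⟨(p ω hω).1.trans t, (p ω hω).2.trans t,
      (div_le_div_of_nonneg_left (by positivity) (s2.pos n) (m2 n)).trans (q ω hω).2⟩
  have w2 : Whp (fun n => (z n).P) fun n ω =>
      Gd (z n) (M n) (Λ₁ n * Λ₂ n) ((z n).b ω, (z n).c ω) :=
    w1.mono (Eventually.of_forall fun n ω _ a => ⟨nr_mono a.1 (m1 n), nr_mono a.2.2 (m1 n)⟩)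
  have w3 : Whp (fun n => (h n).Q) fun n => Pa (h n) (Gd (z n) (M n) (Λ₁ n * Λ₂ n)) :=
    (whp_law (fun n => (hx.ok n).e₁) w2).and
      ((whp_law (fun n => (hx.ok n).e₂) w2).and (whp_law (fun n => (hx.ok n).e₃) w2))
  have w4 := (whp_id (fun n => l1 (h n)) w3).and (whp_id (fun n => l2 (h n)) w3)
  have w5 := (whp_id (fun n => k1 (h n)) w4).and (whp_id (fun n => k2 (h n)) w4)
  have hS := top.sum _ M gr.xt.cls
  have cl : Cls x (fun n => sys (h n) (z n) (M n)) M := by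
    refine ⟨hM, ⟨fun n => 8 * (Λ₁ n * Λ₂ n) ^ 3, (s3.pow 3).const_mul hM (by norm_num),
      b3.mono fun n a => sys_bd (s3.1 n) a,
      w5.mono (b3.mono fun n a v hv g => sys_in (s3.1 n) a hv g)⟩, ?_, fun q ε hε => ?_⟩
    · refine ((hS.smul (by norm_num : (0 : ℝ) ≤ 8)).of2
        (hx.ent.smul (by norm_num : (0 : ℝ) ≤ 4)) (Eventually.of_forall fun n => ?_))
      have := ents (hx.ok n)
      linarith [inf (h n) (z n) (M n), this.1, this.2]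
    · refine Whp.of_ev ?_
      filter_upwards [(gr.xt.cls.cov (4 * q) ε hε).pos.ex, (gr.xt.cls.cov (2 * q) ε hε).pos.ex,
        (gr.xt.cls.cov (2 * q) _ (half_pos hε)).pos.ex, s3.log3 hM 2 _ (half_pos hε), b3]
        with n ⟨_, _, c1⟩ ⟨_, _, c2⟩ ⟨_, _, c3⟩ c4 c5 v hv
      have p := (c5 _ (mem2 (mem4 hv).1).1).1
      have n0 : (0 : ℝ) < 2 ^ M n := by positivity
      simp only [Tr.Cv, sys, tr_one]
      refine ⟨c1.1, cv.mono _ _ _ _ _ _ _ (cv.unit _ _ _ (((h n).th v.1.1).2 / 2 ^ M n) _ _ c3.1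
        (s3.1 n) ?_ ?_) subset_rfl le_rfl (by linarith), c2.2.2⟩
      · rw [abs_div, abs_of_pos n0, le_div_iff₀ n0, one_div_mul_eq_div]
        exact p.2.2
      · rw [abs_div, abs_of_pos n0, div_le_iff₀ n0]
        exact p.2.1
  have fin := top.fst _ M cl ((hS.smul (by norm_num : (0 : ℝ) ≤ 3)).of2
    (hx.ent.smul (by norm_num : (0 : ℝ) ≤ 2)) (Eventually.of_forall fun n => by
      linarith [val (h n) (z n) (M n), (ents (hx.ok n)).1]))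
  exact fin.congr (Eventually.of_forall fun n => (hb_eq _ _ _).symm)
    (Eventually.of_forall fun _ => rfl)

end Pool.Agent.MP_5168f5_an.MX.AB
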