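import Pool.Agent.MP_5168f5_an.MX.ABApi

/-! Ratios of differences of multipliers are dense. -/

namespace Pool.Agent.MP_5168f5_an.MX.AB

open H19 H17S H17F Filter

namespace ABEndA

theorem dyad {B : Set ℝ} {ρ : ℝ} (h0 : 0 ∈ B) (hρ : 0 ≤ ρ)
    (h : ∀ y ∈ B, ∀ σ : ℝ, σ = 0 ∨ σ = 1 → ∃ y' ∈ B, |y' - (y + σ) / 2| ≤ ρ) (m : ℕ) :
    ∀ i : ℕ, i < 2 ^ m → ∃ y ∈ B, |y - i / 2 ^ m| ≤ 2 * ρ := by
  induction m with
  | zero =>
    intro i hi
    obtain rfl : i = 0 := by omega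
    exact ⟨0, h0, by simpa using hρ⟩
  | succ m ih =>
    intro i hi
    have p2 : (0 : ℝ) < 2 ^ m := by positivity
    by_cases k : i < 2 ^ m
    · obtain ⟨y, hy, e⟩ := ih i k
      obtain ⟨y', hy', e'⟩ := h y hy 0 (Or.inl rfl)
      refine ⟨y', hy', ?_⟩
      have : (i : ℝ) / 2 ^ (m + 1) = i / 2 ^ m / 2 := by rw [pow_succ, div_div]
      rw [this, abs_le] at *
      constructor <;> linarith [e.1, e.2, e'.1, e'.2]
    · obtain ⟨i', rfl⟩ := Nat.exists_eq_add_of_le (not_lt.1 k)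
      obtain ⟨y, hy, e⟩ := ih i' (by omega)
      obtain ⟨y', hy', e'⟩ := h y hy 1 (Or.inr rfl)
      refine ⟨y', hy', ?_⟩
      have : ((2 ^ m + i' : ℕ) : ℝ) / 2 ^ (m + 1) = (i' / 2 ^ m + 1) / 2 := by
        push_cast; rw [pow_succ]; field_simp; ring
      rw [this, abs_le] at *
      constructor <;> linarith [e.1, e.2, e'.1, e'.2]

theorem near_of_fl1 {m : ℕ} {x y : ℝ} (h : fl1 m x = fl1 m y) : |x - y| * 2 ^ m ≤ 1 := by
  have h1 := (abs_sub_lt_of_fl1_eq h).le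
  rwa [← one_div, le_div_iff₀ (by positivity)] at h1

/-- The data of the row. -/
structure Dt (M : ℕ → ℕ) (r : ℝ) (μ : (ℕ → Set ℝ) → Prop) {Ω : ℕ → Type} (R : ∀ n, FP (Ω n))
    (a : ∀ n, Ω n → ℤ) (g c₀ : ℕ → ℤ) (Λ : ℕ → ℝ) : Prop where
  big : Big M
  rg : Rg M μ
  bnd : Bnd M r μ
  sub : Sub M Λ
  un : ∀ᶠ n in UF, 2 ^ M n / Λ n ≤ |(c₀ n : ℝ)| ∧ |(c₀ n : ℝ)| ≤ Λ n * 2 ^ M n
  val : μ (Val R a g c₀)
  rate : Rate R a (fun _ _ => ()) M r
  nd : ND R a M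

variable {M : ℕ → ℕ} {r : ℝ} {μ : (ℕ → Set ℝ) → Prop} {Ω : ℕ → Type} {R : ∀ n, FP (Ω n)}
  {a : ∀ n, Ω n → ℤ} {g c₀ : ℕ → ℤ} {Λ : ℕ → ℝ}

/-- The multiplier. -/
noncomputable def tt (a : ∀ n, Ω n → ℤ) (g c₀ : ℕ → ℤ) (n : ℕ) (ω : Ω n) : ℝ :=
  ((a n ω : ℝ) - g n) / c₀ n

theorem Dt.ne (d : Dt M r μ R a g c₀ Λ) : ∀ᶠ n in UF, (c₀ n : ℝ) ≠ 0 := d.un.mono fun n h =>
  abs_pos.1 ((div_pos (by positivity) (d.sub.pos n)).trans_le h.1)

theorem tt_sub {n : ℕ} (h : (c₀ n : ℝ) ≠ 0) (u v : Ω n) :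
    (a n u : ℝ) - a n v = c₀ n * (tt a g c₀ n u - tt a g c₀ n v) := by
  unfold tt; field_simp; ring

theorem Dt.low (d : Dt M r μ R a g c₀ Λ) (j : ℕ → ℕ) (hj : ∀ n, j n ≤ M n) :
    Le M (fun n => r * j n * lg) fun n => hh (R n) fun ω => dn (M n - j n) (a n ω) :=
  (d.rate j hj).1.trans (Le.of_le fun _ => (ch_unit _).le)

/-- Small multipliers have less entropy. -/
theorem win (d : Dt M r μ R a g c₀ Λ) {A : ℕ → Set ℝ} (hA : μ A) {Ω' : ℕ → Type}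
    (R' : ∀ n, FP (Ω' n)) (τ : ∀ n, Ω' n → ℝ) {k : ℕ → ℕ} (hk : ∀ n, k n ≤ M n) {L : ℕ → ℝ}
    (hL : Sub M L) (h : ∀ᶠ n in UF, ∀ ω ∈ (R' n).S, τ n ω ∈ A n ∧ |τ n ω| * 2 ^ k n ≤ L n) :
    Le M (fun n => hh (R' n) fun ω => fl1 (M n) (τ n ω)) fun n => r * (M n - k n) * lg := by
  have h1 := d.bnd _ (d.rg.add _ _ hA d.val) _ (fun n => prod (R' n) (R n))
    (fun n v => τ n v.1 + tt a g c₀ n v.2) (h.mono fun n hn v hv =>
      ⟨_, (hn _ ((mem_prod v).1 hv).1).1, _, ⟨v.2, ((mem_prod v).1 hv).2, rfl⟩, rfl⟩)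
  have h2 : Sm M fun n => ch (prod (R' n) (R n)) (fun v => dn (M n - k n) (a n v.2)) fun v =>
      fl1 (M n) (τ n v.1 + tt a g c₀ n v.2) := by
    refine sm_dn d.big (d.sub.mul (hL.const_mul d.big (by norm_num : (1 : ℝ) ≤ 3))) ?_
    filter_upwards [h, d.un, d.ne] with n hn un ne u hu v hv e
    have e1 := near_of_fl1 e
    have e2 := (hn _ ((mem_prod u).1 hu).1).2
    have e3 := (hn _ ((mem_prod v).1 hv).1).2
    obtain ⟨i, hi⟩ := Nat.exists_eq_add_of_le (hk n)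
    have hi' : M n - k n = i := by omega
    have p1 : (1 : ℝ) ≤ 2 ^ i := one_le_pow₀ (by norm_num)
    have p2 : (0 : ℝ) < 2 ^ k n := by positivity
    have e4 : |tt a g c₀ n u.2 - tt a g c₀ n v.2| ≤
        |τ n u.1 + tt a g c₀ n u.2 - (τ n v.1 + tt a g c₀ n v.2)| + |τ n u.1| + |τ n v.1| := by
      rw [abs_le]
      constructor <;> linarith [le_abs_self (τ n u.1), neg_abs_le (τ n u.1), le_abs_self (τ n v.1),
        neg_abs_le (τ n v.1), le_abs_self (τ n u.1 + tt a g c₀ n u.2 - (τ n v.1 + tt a g c₀ n v.2)),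
        neg_abs_le (τ n u.1 + tt a g c₀ n u.2 - (τ n v.1 + tt a g c₀ n v.2))]
    rw [tt_sub (g := g) ne, abs_mul, hi']
    have e5 : |tt a g c₀ n u.2 - tt a g c₀ n v.2| * 2 ^ M n ≤ 3 * L n * 2 ^ i := by
      refine (mul_le_mul_of_nonneg_right e4 (by positivity)).trans ?_
      rw [add_mul, add_mul]
      have e6 : |τ n u.1| * 2 ^ M n ≤ L n * 2 ^ i := by
        rw [hi, pow_add, ← mul_assoc]; exact mul_le_mul_of_nonneg_right e2 (by positivity)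
      have e7 : |τ n v.1| * 2 ^ M n ≤ L n * 2 ^ i := by
        rw [hi, pow_add, ← mul_assoc]; exact mul_le_mul_of_nonneg_right e3 (by positivity)
      nlinarith [hL.1 n]
    calc _ ≤ Λ n * 2 ^ M n * |tt a g c₀ n u.2 - tt a g c₀ n v.2| :=
          mul_le_mul_of_nonneg_right un.2 (abs_nonneg _)
      _ = Λ n * (|tt a g c₀ n u.2 - tt a g c₀ n v.2| * 2 ^ M n) := by ring
      _ ≤ Λ n * (3 * L n * 2 ^ i) := mul_le_mul_of_nonneg_left e5 (d.sub.pos n).le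
      _ = _ := by ring
  refine (h1.of4 h2 (d.low k hk) (d.big.sm (Real.log (2 * 1 + 3)))
    (Eventually.of_forall fun n => ?_))
  generalize hF : (fun v : Ω' n × Ω n => fl1 (M n) (τ n v.1 + tt a g c₀ n v.2)) = F
  have e1 : hh (prod (R' n) (R n)) (fun v => dn (M n - k n) (a n v.2)) =
      hh (R n) fun ω => dn (M n - k n) (a n ω) :=
    Law.hh_eq (prod_snd (R' n) (R n)) fun ω => dn (M n - k n) (a n ω)
  have e2 := ch_symm (P := prod (R' n) (R n)) F (fun v => dn (M n - k n) (a n v.2)) fun _ => ()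
  have e3 := mi_unit (P := prod (R' n) (R n)) F fun v => dn (M n - k n) (a n v.2)
  have e4 := mi_unit (P := prod (R' n) (R n)) (fun v => dn (M n - k n) (a n v.2)) F
  have e5 : ch (prod (R' n) (R n)) F Prod.snd ≤
      ch (prod (R' n) (R n)) F fun v => dn (M n - k n) (a n v.2) :=
    ch_anti (Fn.comp (fun ω => dn (M n - k n) (a n ω)) Prod.snd)
  have e6 := ch_tri (P := prod (R' n) (R n)) (fun v => fl1 (M n) (τ n v.1)) F Prod.snd
  have e7 := ch_prod_fst (R' n) (R n) (fun ω => fl1 (M n) (τ n ω)) id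
  have e8 : ch (prod (R' n) (R n)) (fun v => fl1 (M n) (τ n v.1)) (fun v => (F v, v.2)) ≤
      Real.log (2 * 1 + 3) := by
    refine ch_near1 zero_le_one fun u _ v _ e => ?_
    obtain ⟨k1, k2⟩ := Prod.mk.inj e
    rw [← hF] at k1
    have k3 := (abs_sub_lt_of_fl1_eq k1).le
    rw [k2, add_sub_add_right_eq_sub] at k3
    rwa [one_div]
  unfold mi at e3 e4
  change ch (prod (R' n) (R n)) (fun v => fl1 (M n) (τ n v.1)) Prod.snd = _ at e7
  linarith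

/-- Differences of multipliers. -/
def Df (R : ∀ n, FP (Ω n)) (a : ∀ n, Ω n → ℤ) (g c₀ : ℕ → ℤ) (n : ℕ) : Set ℝ :=
  {t | ∃ u ∈ (R n).S, ∃ v ∈ (R n).S, t = tt a g c₀ n u - tt a g c₀ n v}

theorem Dt.df (d : Dt M r μ R a g c₀ Λ) : μ (Df R a g c₀) :=
  d.rg.mono _ _ (d.rg.add _ _ d.val (d.rg.neg _ d.val)) (Eventually.of_forall fun n => by
    rintro t ⟨u, hu, v, hv, rfl⟩
    exact ⟨_, ⟨u, hu, rfl⟩, -tt a g c₀ n v, ⟨v, hv, neg_neg _⟩, sub_eq_add_neg _ _⟩)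

/-- A quotient of two multipliers is close to a quotient of two differences. -/
theorem ratio (d : Dt M r μ R a g c₀ Λ) {A : ℕ → Set ℝ} (hA : μ A) (p q : ℕ → ℝ) {k j : ℕ → ℕ}
    (hk : ∀ n, k n ≤ M n) (hj : Frac j M) {L : ℕ → ℝ} (hL : Sub M L)
    (h : ∀ᶠ n in UF, p n ∈ A n ∧ q n ∈ A n ∧ 1 ≤ L n * (|q n| * 2 ^ k n) ∧
      |q n| * 2 ^ k n ≤ L n ∧ |p n| ≤ 2 * |q n|) :
    ∀ᶠ n in UF, ∃ d₁ ∈ Df R a g c₀ n, ∃ d₂ ∈ Df R a g c₀ n, 2 ^ (M n - j n) ≤ |c₀ n * d₂| ∧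
      |d₁ / d₂ - p n / q n| * 2 ^ (M n - j n) ≤ Λ n * L n * 2 ^ k n := by
  obtain ⟨L₁, s1, b1⟩ := d.rg.bd _ d.val
  generalize hF : (fun n (v : Ω n × Ω n) =>
    fl1 (M n) (q n * tt a g c₀ n v.1 + p n * tt a g c₀ n v.2)) = F
  have h1 : Le M (fun n => hh (prod (R n) (R n)) (F n)) fun n => r * (M n - k n) * lg := by
    rw [← hF]
    refine win d (d.rg.add _ _ (d.rg.mul _ _ hA d.val) (d.rg.mul _ _ hA d.val)) _ _ hk
      ((hL.mul s1).const_mul d.big (by norm_num : (1 : ℝ) ≤ 3)) ?_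
    filter_upwards [h, b1] with n hn bn v hv
    have m1 : tt a g c₀ n v.1 ∈ Val R a g c₀ n := ⟨_, ((mem_prod v).1 hv).1, rfl⟩
    have m2 : tt a g c₀ n v.2 ∈ Val R a g c₀ n := ⟨_, ((mem_prod v).1 hv).2, rfl⟩
    refine ⟨⟨_, ⟨_, hn.2.1, _, m1, rfl⟩, _, ⟨_, hn.1, _, m2, rfl⟩, rfl⟩, ?_⟩
    have e1 : |q n * tt a g c₀ n v.1 + p n * tt a g c₀ n v.2| ≤ 3 * |q n| * L₁ n := by
      refine (abs_add_le _ _).trans ?_
      rw [abs_mul, abs_mul]
      have e2 := mul_le_mul_of_nonneg_left (bn _ m1) (abs_nonneg (q n))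
      have e3 := mul_le_mul hn.2.2.2.2 (bn _ m2) (abs_nonneg _) (by positivity)
      linarith
    calc _ ≤ 3 * |q n| * L₁ n * 2 ^ k n := mul_le_mul_of_nonneg_right e1 (by positivity)
      _ = 3 * (|q n| * 2 ^ k n * L₁ n) := by ring
      _ ≤ _ := by
        have := mul_le_mul_of_nonneg_right hn.2.2.2.1 (s1.pos n).le
        linarith
  have key : ∀ᶠ n in UF, ∀ u v : Ω n × Ω n, F n u = F n v →
      |q n * ((a n u.1 : ℝ) - a n v.1) + p n * ((a n u.2 : ℝ) - a n v.2)| ≤ Λ n := by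
    filter_upwards [d.un, d.ne] with n un ne u v e
    rw [← hF] at e
    have e1 := near_of_fl1 e
    have e2 : q n * ((a n u.1 : ℝ) - a n v.1) + p n * ((a n u.2 : ℝ) - a n v.2) =
        c₀ n * (q n * tt a g c₀ n u.1 + p n * tt a g c₀ n u.2 -
          (q n * tt a g c₀ n v.1 + p n * tt a g c₀ n v.2)) := by
      rw [tt_sub (g := g) ne, tt_sub (g := g) ne]; ring
    rw [e2, abs_mul]
    refine (mul_le_mul_of_nonneg_right un.2 (abs_nonneg _)).trans ?_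
    rw [mul_assoc, mul_comm (2 ^ M n : ℝ)]
    exact mul_le_of_le_one_right (d.sub.pos n).le e1
  have h2 : Sm M fun n => ch (prod (R n) (R n)) (fun v => dn (k n) (a n v.1)) fun v =>
      (F n v, v.2) := by
    refine sm_dn d.big (d.sub.mul hL) ?_
    filter_upwards [h, key] with n hn kn u _ v _ e
    obtain ⟨k1, k2⟩ := Prod.mk.inj e
    have e1 := kn u v k1
    rw [k2, sub_self, mul_zero, add_zero, abs_mul] at e1
    have e2 := mul_le_mul_of_nonneg_right hn.2.2.1 (abs_nonneg ((a n u.1 : ℝ) - a n v.1))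
    have e3 := mul_le_mul_of_nonneg_left e1
      (mul_nonneg (hL.pos n).le (by positivity : (0 : ℝ) ≤ 2 ^ k n))
    nlinarith
  have h3 := d.low (fun n => M n - k n) fun n => Nat.sub_le _ _
  have w := d.nd (fun n => (Ω n × Ω n) × Ω n × Ω n) _
    (fun n => glue (prod (R n) (R n)) (prod (R n) (R n)) (F n) (F n)) (fun n w => a n w.2.2)
    (fun n w => w.1) (fun n w => a n w.1.2) j
    (fun n => (((kg.snd _ _ _ _ (Law.rfl _)).comp Prod.snd).trans (prod_snd _ _)).comp (a n))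
    (fun n => Fn.comp (fun v : Ω n × Ω n => (a n v.2 : ℝ)) _) (by
      refine h1.of3 h2 h3 (Eventually.of_forall fun n => ?_)
      have e1 := kg.mk1 (prod (R n) (R n)) (prod (R n) (R n)) (F n) (F n) (fun v => a n v.2) id
        (Law.rfl _) (Fn.comp (F n) id)
      have e2 := Law.hh_eq (kg.snd (prod (R n) (R n)) (prod (R n) (R n)) (F n) (F n) (Law.rfl _))
        fun v => a n v.2
      have e3 := mi_unit (P := prod (R n) (R n)) (F n) fun v => a n v.2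
      have e4 := mi_unit (P := prod (R n) (R n)) (fun v => a n v.2) (F n)
      have e5 := mi_symm (P := prod (R n) (R n)) (F n) (fun v => a n v.2) fun _ => ()
      have e6 : ch (prod (R n) (R n)) (F n) Prod.snd ≤
          ch (prod (R n) (R n)) (F n) fun v => a n v.2 := ch_anti (Fn.comp (a n) Prod.snd)
      have e7 := ch_tri (P := prod (R n) (R n)) (fun v => dn (k n) (a n v.1)) (F n) Prod.snd
      have e8 := ch_prod_fst (R n) (R n) (fun ω => dn (k n) (a n ω)) id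
      change ch (prod (R n) (R n)) (fun v => dn (k n) (a n v.1)) Prod.snd = _ at e8
      simp only [id] at e1 e2
      rw [Nat.sub_sub_self (hk n), Nat.cast_sub (hk n), e1, e2]
      linarith) hj
  filter_upwards [w.pos.ex, h, key, d.ne] with n ⟨v, hv, e⟩ hn kn ne
  obtain ⟨m1, m2, m3⟩ := (kg.mem _ _ _ _ v (Law.rfl _)).1 hv
  rw [mem_prod] at m1 m2
  have e1 := kn v.1 v.2 m3.symm
  have p2 : (0 : ℝ) < 2 ^ (M n - j n) := by positivity
  have n1 : (a n v.2.2 : ℝ) - a n v.1.2 ≠ 0 := abs_pos.1 (p2.trans_le e)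
  have n2 : q n ≠ 0 := by
    rintro k0
    rw [k0] at hn
    simp only [abs_zero, zero_mul, mul_zero] at hn
    linarith [hn.2.2.1]
  refine ⟨_, ⟨v.1.1, m1.1, v.2.1, m2.1, rfl⟩, _, ⟨v.2.2, m2.2, v.1.2, m1.2, rfl⟩,
    by rwa [← tt_sub ne], ?_⟩
  rw [← mul_div_mul_left _ _ ne, ← tt_sub ne, ← tt_sub ne]
  have e2 : ((a n v.1.1 : ℝ) - a n v.2.1) / (a n v.2.2 - a n v.1.2) - p n / q n =
      (q n * ((a n v.1.1 : ℝ) - a n v.2.1) + p n * ((a n v.1.2 : ℝ) - a n v.2.2)) /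
        (q n * (a n v.2.2 - a n v.1.2)) := by
    field_simp; ring
  rw [e2, abs_div, abs_mul, div_mul_eq_mul_div,
    div_le_iff₀ (mul_pos (abs_pos.2 n2) (abs_pos.2 n1))]
  calc _ ≤ Λ n * |(a n v.2.2 : ℝ) - a n v.1.2| :=
        mul_le_mul e1 e p2.le (d.sub.pos n).le
    _ ≤ Λ n * |(a n v.2.2 : ℝ) - a n v.1.2| * (L n * (|q n| * 2 ^ k n)) :=
        le_mul_of_one_le_right (mul_nonneg (d.sub.pos n).le (abs_nonneg _)) hn.2.2.1
    _ = _ := by ring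

theorem scale {x : ℝ} {m : ℕ} (j : ℕ) (hj : j ≤ m) (h : 2 ^ (m - j) ≤ x) :
    ∃ k ≤ j, 2 ^ m ≤ x * 2 ^ k ∧ (k = 0 ∨ x * 2 ^ k ≤ 2 * 2 ^ m) := by
  induction j with
  | zero => exact ⟨0, le_rfl, by simpa using h, Or.inl rfl⟩
  | succ j ih =>
    obtain ⟨i, rfl⟩ := Nat.exists_eq_add_of_le hj
    rw [Nat.add_sub_cancel_left] at h
    by_cases k : x ≤ 2 * 2 ^ i
    · refine ⟨j + 1, le_rfl, ?_, Or.inr ?_⟩
      · rw [pow_add, mul_comm]; exact mul_le_mul_of_nonneg_right h (by positivity)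
      · refine (mul_le_mul_of_nonneg_right k (by positivity)).trans (le_of_eq ?_)
        rw [pow_add _ (j + 1)]; ring
    · have e : j + 1 + i - j = i + 1 := by omega
      obtain ⟨k', a1, a2⟩ := ih (by omega) (by rw [e, pow_succ]; linarith)
      exact ⟨k', by omega, a2⟩

/-- Quotients of differences with a large denominator. -/
def Bs (R : ∀ n, FP (Ω n)) (a : ∀ n, Ω n → ℤ) (g c₀ : ℕ → ℤ) (M : ℕ → ℕ) (n j : ℕ) : Set ℝ :=
  {y | ∃ d₁ ∈ Df R a g c₀ n, ∃ d₂ ∈ Df R a g c₀ n, 2 ^ (M n - j) ≤ |c₀ n * d₂| ∧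
    y = d₁ / d₂ ∧ |y| ≤ 2}

theorem step (d : Dt M r μ R a g c₀ Λ) {j : ℕ → ℕ} (hj : Frac j M)
    (h3 : ∀ᶠ n in UF, 3 * j n + 1 ≤ M n) : ∀ᶠ n in UF, ∀ y ∈ Bs R a g c₀ M n (j n), ∀ σ : ℝ,
      σ = 0 ∨ σ = 1 → ∃ y' ∈ Bs R a g c₀ M n (j n),
        |y' - (y + σ) / 2| ≤ 2 ^ (3 * j n) / 2 ^ M n := by
  by_contra hn
  rw [not_ev] at hn
  have ex : ∀ n, ∃ (d₁ d₂ σ : ℝ) (k : ℕ), k ≤ j n ∧ ((¬∀ y ∈ Bs R a g c₀ M n (j n), ∀ σ : ℝ,
      σ = 0 ∨ σ = 1 → ∃ y' ∈ Bs R a g c₀ M n (j n),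
        |y' - (y + σ) / 2| ≤ 2 ^ (3 * j n) / 2 ^ M n) →
      d₁ ∈ Df R a g c₀ n ∧ d₂ ∈ Df R a g c₀ n ∧ |d₁ / d₂| ≤ 2 ∧ (σ = 0 ∨ σ = 1) ∧
      2 ^ M n ≤ |c₀ n * d₂| * 2 ^ k ∧ (k = 0 ∨ |c₀ n * d₂| * 2 ^ k ≤ 2 * 2 ^ M n) ∧
      ∀ y' ∈ Bs R a g c₀ M n (j n), 2 ^ (3 * j n) / 2 ^ M n < |y' - (d₁ / d₂ + σ) / 2|) := by
    intro n
    by_cases k : ∀ y ∈ Bs R a g c₀ M n (j n), ∀ σ : ℝ, σ = 0 ∨ σ = 1 →
      ∃ y' ∈ Bs R a g c₀ M n (j n), |y' - (y + σ) / 2| ≤ 2 ^ (3 * j n) / 2 ^ M n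
    · exact ⟨0, 0, 0, 0, Nat.zero_le _, fun c => absurd k c⟩
    · push Not at k
      obtain ⟨y, ⟨d₁, m1, d₂, m2, e1, rfl, e2⟩, σ, e3, e4⟩ := k
      obtain ⟨k, k1, k2, k3⟩ := scale (j n) (hj.1 n) e1
      exact ⟨d₁, d₂, σ, k, k1, fun _ => ⟨m1, m2, e2, e3, k2, k3, e4⟩⟩
  choose d₁ d₂ σ k hk H using ex
  have hA := d.rg.add _ _ d.df d.df
  obtain ⟨L₂, s2, b2⟩ := d.rg.bd _ hA
  have sL := (d.sub.mul s2).const_mul d.big (by norm_num : (1 : ℝ) ≤ 4)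
  have nz : ∀ᶠ n in UF, d₂ n ≠ 0 := hn.mono fun n f e => by
    have := (H n f).2.2.2.2.1
    rw [e, mul_zero, abs_zero, zero_mul] at this
    exact absurd this (not_le.2 (by positivity))
  have w := ratio d hA (fun n => d₁ n + σ n * d₂ n) (fun n => d₂ n + d₂ n)
    (fun n => (hk n).trans (hj.1 n)) hj sL (by
      filter_upwards [hn, nz, b2, d.un] with n f ne bn un
      obtain ⟨m1, m2, e2, e3, k2, k3, -⟩ := H n f
      have mq : d₂ n + d₂ n ∈ {t | ∃ a' ∈ Df R a g c₀ n, ∃ b ∈ Df R a g c₀ n, t = a' + b} :=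
        ⟨_, m2, _, m2, rfl⟩
      have p0 := abs_pos.2 ne
      have pk : (0 : ℝ) < 2 ^ k n := by positivity
      have pm : (0 : ℝ) < 2 ^ M n := by positivity
      have aq : |d₂ n + d₂ n| = 2 * |d₂ n| := by rw [← two_mul, abs_mul, abs_two]
      have l1 := d.sub.1 n
      have l2 := s2.1 n
      rw [abs_div, div_le_iff₀ p0] at e2
      rw [abs_mul] at k2 k3
      have u1 := un.1
      rw [div_le_iff₀ (d.sub.pos n)] at u1
      refine ⟨⟨_, m1, _, ?_, rfl⟩, mq, ?_, ?_, ?_⟩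
      · rcases e3 with e | e <;> rw [e]
        · obtain ⟨u, hu, -⟩ := m1
          exact ⟨u, hu, u, hu, by simp⟩
        · rwa [one_mul]
      · have e5 : 2 ^ M n * 1 ≤ 2 ^ M n * (Λ n * (|d₂ n| * 2 ^ k n)) := by
          have := mul_le_mul_of_nonneg_right un.2 (mul_pos p0 pk).le
          nlinarith
        have e6 := le_of_mul_le_mul_left e5 pm
        have e7 : 0 ≤ Λ n * (|d₂ n| * 2 ^ k n) := by linarith
        rw [aq]
        nlinarith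
      · rcases k3 with e | e
        · rw [e, pow_zero, mul_one]
          have := bn _ mq
          nlinarith
        · have e5 : 2 ^ M n * (|d₂ n| * 2 ^ k n) ≤ 2 ^ M n * (2 * Λ n) := by
            have t1 := mul_le_mul_of_nonneg_right u1 (mul_pos p0 pk).le
            have t2 := mul_le_mul_of_nonneg_right e (d.sub.pos n).le
            nlinarith
          have e6 := le_of_mul_le_mul_left e5 pm
          rw [aq]
          nlinarith
      · refine (abs_add_le _ _).trans ?_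
        rw [aq, abs_mul]
        rcases e3 with e | e <;> rw [e] <;> simp only [abs_zero, abs_one] <;> linarith)
  obtain ⟨n, f, ne, ⟨e₁, m1, e₂, m2, k1, k2⟩, t3, t4⟩ := (hn.and (nz.and (w.and (h3.and
    (((d.sub.mul sL).frac hj).2 (1 / 2) (by norm_num)))))).exists
  obtain ⟨-, -, e2, e3, -, -, e4⟩ := H n f
  have q1 : (d₁ n + σ n * d₂ n) / (d₂ n + d₂ n) = (d₁ n / d₂ n + σ n) / 2 := by
    rw [← two_mul]; field_simp
  have pm : (0 : ℝ) < 2 ^ M n := by positivity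
  have q2 : |e₁ / e₂ - (d₁ n / d₂ n + σ n) / 2| ≤ 2 ^ (3 * j n) / 2 ^ M n := by
    rw [q1] at k2
    have t5 : Λ n * (4 * (Λ n * L₂ n)) ≤ 2 ^ j n :=
      t4.trans ((le_of_eq (by congr 1; ring)).trans (exp_le_two_pow (j n)))
    have t6 : (2 : ℝ) ^ k n ≤ 2 ^ j n := pow_le_pow_right₀ one_le_two (hk n)
    have t7 := k2.trans (mul_le_mul t5 t6 (by positivity) (by positivity))
    have t8 : (2 : ℝ) ^ M n = 2 ^ (M n - j n) * 2 ^ j n := by
      rw [← pow_add, Nat.sub_add_cancel (hj.1 n)]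
    rw [le_div_iff₀ pm, t8, ← mul_assoc]
    refine (mul_le_mul_of_nonneg_right t7 (by positivity)).trans (le_of_eq (by ring))
  have q3 : (2 : ℝ) ^ (3 * j n) / 2 ^ M n ≤ 1 / 2 := by
    rw [div_le_div_iff₀ pm two_pos, one_mul, ← pow_succ]
    exact pow_le_pow_right₀ one_le_two t3
  refine absurd q2 (not_le.2 (e4 _ ⟨e₁, m1, e₂, m2, k1, rfl, ?_⟩))
  have q4 := abs_le.1 (q2.trans q3)
  have q5 := abs_le.1 e2
  rw [abs_le]
  rcases e3 with e | e <;> rw [e] at q4 <;> constructor <;> linarith [q4.1, q4.2, q5.1, q5.2]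

theorem zero (d : Dt M r μ R a g c₀ Λ) {j : ℕ → ℕ} (hj : Frac j M) :
    ∀ᶠ n in UF, (0 : ℝ) ∈ Bs R a g c₀ M n (j n) := by
  have w := d.nd (fun n => Ω n × Ω n) _ (fun n => prod (R n) (R n)) (fun n v => a n v.2)
    (fun n v => v.1) (fun n v => a n v.1) j (fun n => (prod_snd _ _).comp (a n))
    (fun n => Fn.comp (fun v : Ω n => (a n v : ℝ)) _) (Le.of_le fun n => by
      have e1 := ch_prod_snd (R n) (R n) (a n) id
      have e2 := Law.hh_eq (prod_snd (R n) (R n)) (a n)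
      simp only [id] at e1 e2
      rw [e1, e2]; simp) hj
  filter_upwards [w.pos.ex, d.ne] with n ⟨v, hv, e⟩ ne
  rw [mem_prod] at hv
  exact ⟨0, ⟨v.1, hv.1, v.1, hv.1, by simp⟩, _, ⟨v.2, hv.2, v.1, hv.1, rfl⟩,
    by rwa [← tt_sub ne], by simp, by simp⟩

theorem dense (d : Dt M r μ R a g c₀ Λ) (K : ℕ) : ∀ᶠ n in UF, ∀ i : ℕ, i < 2 ^ M n →
    ∃ y ∈ Bs R a g c₀ M n (M n / (K + 4)),
      |y - i / 2 ^ M n| ≤ 2 * (2 ^ (3 * (M n / (K + 4))) / 2 ^ M n) := by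
  have hj := d.big.frac_div (K := K + 4) (by omega)
  filter_upwards [zero d hj, step d hj ((d.big.ev 4).mono fun n h => by
    have h1 : 4 ≤ M n := by exact_mod_cast h
    have h2 : M n / (K + 4) ≤ M n / 4 := Nat.div_le_div_left (by omega) (by omega)
    omega)] with n h0 h1
  exact dyad h0 (by positivity) h1 _

theorem fin (d : Dt M r μ R a g c₀ Λ) : 1 ≤ r := by
  obtain ⟨K, bK, hK⟩ := ks.spill _ (dense d)
  generalize hj : (fun n => M n / (K n + 4)) = j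
  have hj' : ∀ n, M n / (K n + 4) = j n := fun n => congrFun hj n
  have jl : ∀ n, j n ≤ M n := fun n => hj' n ▸ Nat.div_le_self _ _
  have sj : Sm M fun n => (j n : ℝ) := fun ε hε => (bK.ev (1 / ε)).mono fun n h => by
    have h1 : j n * (K n + 4) ≤ M n := hj' n ▸ Nat.div_mul_le_self _ _
    have h2 : (j n : ℝ) * (K n + 4) ≤ M n := by exact_mod_cast h1
    rw [div_le_iff₀ hε] at h
    have h3 : (0 : ℝ) ≤ j n := Nat.cast_nonneg _
    nlinarith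
  have s2 : Sub M fun n => (2 : ℝ) ^ j n :=
    (Sub.exp sj fun n => Nat.cast_nonneg _).mono (fun n => one_le_pow₀ one_le_two)
      (Eventually.of_forall fun n => two_pow_le_exp _)
  have hB : μ fun n => Bs R a g c₀ M n (j n) := by
    refine d.rg.mono _ _ (d.rg.mul _ _ d.df (d.rg.inv _ _ d.df (d.sub.mul s2))) ?_
    filter_upwards [d.un] with n un
    rintro y ⟨d₁, m1, d₂, m2, e1, rfl, -⟩
    refine ⟨_, m1, _, ⟨_, m2, ?_, rfl⟩, by rw [mul_one_div]⟩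
    have pj : (0 : ℝ) < 2 ^ (M n - j n) := by positivity
    have t8 : (2 : ℝ) ^ M n = 2 ^ (M n - j n) * 2 ^ j n := by
      rw [← pow_add, Nat.sub_add_cancel (jl n)]
    rw [div_le_iff₀ ((d.sub.mul s2).pos n)]
    refine le_of_mul_le_mul_left ?_ pj
    rw [abs_mul] at e1
    have := mul_le_mul_of_nonneg_right un.2 (abs_nonneg d₂)
    rw [t8] at this
    nlinarith
  have ex : ∀ n i : ℕ, ∃ y : ℝ, (∃ y ∈ Bs R a g c₀ M n (j n),
      |y - i / 2 ^ M n| ≤ 2 * (2 ^ (3 * j n) / 2 ^ M n)) → y ∈ Bs R a g c₀ M n (j n) ∧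
      |y - i / 2 ^ M n| ≤ 2 * (2 ^ (3 * j n) / 2 ^ M n) := fun n i => by
    by_cases k : ∃ y ∈ Bs R a g c₀ M n (j n), |y - i / 2 ^ M n| ≤ 2 * (2 ^ (3 * j n) / 2 ^ M n)
    · exact k.imp fun y hy _ => hy
    · exact ⟨0, fun c => absurd c k⟩
  choose τ hτ using ex
  have ne : ∀ n, (Finset.range (2 ^ M n)).Nonempty := fun n => by simp
  have H : ∀ᶠ n in UF, ∀ i ∈ (FP.unif _ (ne n)).S, τ n i ∈ Bs R a g c₀ M n (j n) ∧
      |τ n i - i / 2 ^ M n| ≤ 2 * (2 ^ (3 * j n) / 2 ^ M n) := hK.mono fun n h i hi =>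
    hτ n i (hj' n ▸ h (K n) le_rfl i (Finset.mem_range.1 hi))
  have h1 := d.bnd _ hB _ (fun n => FP.unif _ (ne n)) τ (H.mono fun n h i hi => (h i hi).1)
  have h2 : Sm M fun n => ch (FP.unif _ (ne n)) (fun i : ℕ => (i : ℤ)) fun i =>
      fl1 (M n) (τ n i) := by
    refine sm_int d.big ((s2.pow 3).const_mul d.big (by norm_num : (1 : ℝ) ≤ 5)) ?_
    filter_upwards [H] with n h u hu v hv e
    have pm : (0 : ℝ) < 2 ^ M n := by positivity
    have e1 := near_of_fl1 e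
    have e2 := (h u hu).2
    have e3 := (h v hv).2
    have e4 : ∀ i : ℕ, τ n i - i / 2 ^ M n = (τ n i * 2 ^ M n - i) / 2 ^ M n := fun i => by
      field_simp
    rw [e4, abs_div, abs_of_pos pm, ← mul_div_assoc, div_le_div_iff_of_pos_right pm] at e2 e3
    rw [← abs_of_pos pm, ← abs_mul, sub_mul] at e1
    have e5 : (1 : ℝ) ≤ 2 ^ (3 * j n) := one_le_pow₀ one_le_two
    have e6 : ((2 : ℝ) ^ j n) ^ 3 = 2 ^ (3 * j n) := by ring
    rw [abs_le] at e1 e2 e3 ⊢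
    push_cast
    rw [e6]
    constructor <;> linarith [e1.1, e1.2, e2.1, e2.2, e3.1, e3.2]
  have h3 : Le M (fun n => 1 * lg * M n) fun n => r * lg * M n := by
    refine h1.of2 h2 (Eventually.of_forall fun n => ?_)
    have e1 : hh (FP.unif _ (ne n)) (fun i : ℕ => (i : ℤ)) = M n * lg := by
      rw [← log_two_pow]
      refine ((FP.unif _ (ne n)).H_congr fun u _ v _ => ?_).trans ((FP.H_unif _ (ne n)).trans ?_)
      · simp [Setoid.ker_def]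
      · simp
    have e2 := ch_tri' (P := FP.unif _ (ne n)) (fun i : ℕ => (i : ℤ)) (fun _ => ()) fun i =>
      fl1 (M n) (τ n i)
    rw [ch_unit, ch_unit, e1] at e2
    linarith
  exact le_of_mul_le_mul_right (Le.num d.big h3) lg_pos

end ABEndA

theorem rowEnd : SEnd := by
  intro M r μ big rg bnd Ω R a g c₀ ⟨Λ, s, un⟩ val rate nd
  exact ABEndA.fin ⟨big, rg, bnd, s, un, val, rate, nd⟩

end Pool.Agent.MP_5168f5_an.MX.AB
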