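import Pool.Agent.MP_5168f5_an.MX.ABApi

/-! The side information can be frozen at a typical value. -/

namespace Pool.Agent.MP_5168f5_an.MX.AB

open H19 H17S H17F Filter

namespace ABFixA

section Fin

variable {Ω T α β : Type} {P : FP Ω}

theorem pb_cv (P : FP Ω) (θ : Ω → T) (E : Ω → Prop) :
    pb P E = P.E fun ω => pb (cv P θ (θ ω)) E := by
  classical
  exact ke.exp P θ fun _ ω => if E ω then 1 else 0

theorem mi_cv (P : FP Ω) (θ : Ω → T) (b : Ω → α) (c : Ω → β) :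
    mi P b c θ = P.E fun ω => mi (cv P θ (θ ω)) b c fun _ => () := by
  simp only [mi_unit]
  rw [FP.E_sub, ← ke.ent1 P θ fun _ => b, ← ke.ent P θ (fun _ => b) fun _ => c]
  rfl

theorem E_le {G : Ω → Prop} {u : Ω → ℝ} {a B : ℝ}
    (h : ∀ ω ∈ P.S, (G ω → u ω ≤ a) ∧ u ω ≤ a + B) : P.E u ≤ a + B * pb P fun ω => ¬G ω := by
  unfold pb
  rw [← FP.E_mul, ← P.E_const a, ← FP.E_add]
  refine P.E_mono fun ω hω => ?_
  by_cases c : G ω
  · simpa [c] using (h ω hω).1 c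
  · simpa [c] using (h ω hω).2

theorem cv_eq {θ : Ω → T} {ω v : Ω} (hω : ω ∈ P.S) (hv : v ∈ (cv P θ (θ ω)).S) : θ v = θ ω :=
  ((mem_cE (E := fun v => θ v = θ ω) ⟨ω, hω, rfl⟩ v).1 hv).2

theorem cov_mono {A : Set ℝ} {x e e' : ℝ} {M : ℕ} (h : Cov A x M e) (he : e ≤ e') :
    Cov A x M e' := fun i j hij hj y => (h i j hij hj y).imp fun _ a =>
  ⟨a.1.trans (Real.exp_le_exp.2 (by linarith)), a.2⟩

theorem hh_bd {b : Ω → ℤ} {L : ℝ} {M : ℕ} (hL : 1 ≤ L) (h : ∀ ω ∈ P.S, |(b ω : ℝ)| ≤ L * 2 ^ M)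
    (h' : Real.log (2 * (2 * L) + 3) ≤ M) (θ : Ω → T) (s : T) : hh (cv P θ s) b ≤ 2 * M := by
  have h1 := ch_int (P := cv P θ s) (F := b) (G := fun _ => ()) (L := 2 * L * 2 ^ M)
    (by positivity) fun u hu v hv _ => (abs_sub _ _).trans
      (by linarith [h u (cE_sub hu), h v (cE_sub hv)])
  rw [ch_unit] at h1
  nlinarith [log_le_pow (show 1 ≤ 2 * L by linarith) M, lg_lt_one, Nat.cast_nonneg (α := ℝ) M]

end Fin

variable {Ω T : ℕ → Type} {P : ∀ n, FP (Ω n)} {M : ℕ → ℕ}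

theorem small {ε : ℝ} (hε : 0 < ε) {k : ℕ → ℕ} (hk : Big k) :
    ∀ᶠ n in UF, 1 / ((k n : ℕ) + 1 : ℝ) ≤ ε := by
  filter_upwards [hk.ev (1 / ε)] with n a
  rw [div_le_iff₀ hε] at a
  rw [div_le_iff₀ (by positivity)]
  nlinarith

/-- One likely event for countably many conditions. -/
theorem typ (G : ℕ → ℝ → ∀ n, Ω n → Prop)
    (hm : ∀ q ε ε' n ω, ε ≤ ε' → G q ε n ω → G q ε' n ω)
    (h : ∀ q ε, 0 < ε → Whp P (G q ε)) : ∃ G' : ∀ n, Ω n → Prop, Whp P G' ∧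
      ∀ ω : ∀ n, Ω n, (∀ᶠ n in UF, G' n (ω n)) → ∀ q ε, 0 < ε → ∀ᶠ n in UF, G q ε n (ω n) := by
  obtain ⟨k, hk, e⟩ := ks.spill (fun k n => pb (P n)
    (fun ω => ¬∀ q : Fin (k + 1), G q (1 / (k + 1 : ℝ)) n ω) ≤ 1 / (k + 1 : ℝ)) fun k =>
    Whp.all (G := fun q : Fin (k + 1) => G q (1 / (k + 1 : ℝ)))
      (fun q => h q _ (by positivity)) _ (by positivity)
  refine ⟨fun n ω => ∀ q : Fin (k n + 1), G q (1 / (k n + 1 : ℝ)) n ω, fun ε hε => ?_,
    fun ω hω q ε hε => ?_⟩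
  · filter_upwards [e, small hε hk] with n a b using (a _ le_rfl).trans b
  · filter_upwards [hω, small hε hk, tendsto_atTop.1 hk q] with n a b c
    exact hm _ _ _ _ _ b (a ⟨q, Nat.lt_succ_of_le c⟩)

/-- A point of an event that maximises `w`. -/
theorem sel {G : ∀ n, Ω n → Prop} (h : Pos P G) (w : ∀ n, Ω n → ℝ) : ∃ ω : ∀ n, Ω n,
    ∀ᶠ n in UF, ω n ∈ (P n).S ∧ G n (ω n) ∧ ∀ v ∈ (P n).S, G n v → w n v ≤ w n (ω n) := by
  classical
  have e : ∀ n, ∃ ω : Ω n, (∃ v ∈ (P n).S, G n v) →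
      ω ∈ (P n).S ∧ G n ω ∧ ∀ v ∈ (P n).S, G n v → w n v ≤ w n ω := fun n => by
    by_cases c : ∃ v ∈ (P n).S, G n v
    · obtain ⟨v, a, b⟩ := c
      obtain ⟨ω, h1, h2⟩ := ((P n).S.filter (G n)).exists_max_image (w n)
        ⟨v, Finset.mem_filter.2 ⟨a, b⟩⟩
      exact ⟨ω, fun _ => ⟨(Finset.mem_filter.1 h1).1, (Finset.mem_filter.1 h1).2,
        fun v a b => h2 v (Finset.mem_filter.2 ⟨a, b⟩)⟩⟩
    · obtain ⟨v, -⟩ := ex_of_pb (P := P n) (E := fun _ => True) (by rw [pb_true]; exact one_pos)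
      exact ⟨v, fun d => absurd d c⟩
  choose ω hω using e
  exact ⟨ω, h.ex.mono hω⟩

theorem le_E {G : ∀ n, Ω n → Prop} (h : Whp P G) {u : ∀ n, Ω n → ℝ} {a : ℕ → ℝ} {C : ℝ}
    (hC : 0 < C) (e : ∀ᶠ n in UF, ∀ ω ∈ (P n).S, (G n ω → u n ω ≤ a n) ∧ u n ω ≤ a n + C * M n) :
    Le M (fun n => (P n).E (u n)) a := fun ε hε => by
  filter_upwards [h (ε / C) (by positivity), e] with n a b
  refine (E_le b).trans (add_le_add le_rfl ?_)
  rw [le_div_iff₀ hC] at a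
  nlinarith [Nat.cast_nonneg (α := ℝ) (M n)]

theorem whp_cv (hM : Big M) {E : ∀ n, Ω n → Prop} (h : Whp P E) (θ : ∀ n, Ω n → T n) {ε : ℝ}
    (hε : 0 < ε) : Whp P fun n ω => pb (cv (P n) (θ n) (θ n ω)) (fun v => ¬E n v) ≤ ε := by
  have := ks.mark P (fun n ω => M n * pb (cv (P n) (θ n) (θ n ω)) fun v => ¬E n v) M ε hM hε
    (Eventually.of_forall fun n ω _ => mul_nonneg (Nat.cast_nonneg _) (pb_nonneg _ _))
    fun δ hδ => (h δ hδ).mono fun n a => by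
      beta_reduce
      rw [FP.E_mul, ← pb_cv]
      nlinarith [Nat.cast_nonneg (α := ℝ) (M n)]
  exact this.mono ((hM.ev 1).mono fun n a ω _ b => by nlinarith)

/-- Typical values of the side information give members of the class. -/
theorem good {x : ℝ} {z : ℕ → Tr} (h : Cls x z M) {E : ∀ n, (z n).Ω → Prop}
    (hE : Whp (fun n => (z n).P) E) : ∃ G : ∀ n, (z n).Ω → Prop, Whp (fun n => (z n).P) G ∧
      ∀ ω : ∀ n, (z n).Ω, (∀ᶠ n in UF, ω n ∈ (z n).P.S ∧ G n (ω n)) →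
        Cls x (fun n => ((z n).fix ((z n).θ (ω n))).tr) M ∧
          Whp (fun n => ((z n).fix ((z n).θ (ω n))).P) E := by
  obtain ⟨Λ, hΛ, hb, hI⟩ := h.bd
  obtain ⟨G, hG, e⟩ := typ (P := fun n => (z n).P) (fun q ε n ω =>
    pb (cv (z n).P (z n).θ ((z n).θ ω)) (fun v => ¬((z n).In (M n) (Λ n) v ∧ E n v)) ≤ ε ∧
      mi (cv (z n).P (z n).θ ((z n).θ ω)) (z n).b (z n).c (fun _ => ()) ≤ ε * M n ∧
        (z n).Cv x (M n) q (ε * M n) ω)
    (fun q ε ε' n ω a b => by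
      have := mul_le_mul_of_nonneg_right a (Nat.cast_nonneg (α := ℝ) (M n))
      exact ⟨b.1.trans a, b.2.1.trans this, cov_mono b.2.2.1 this, cov_mono b.2.2.2.1 this,
        cov_mono b.2.2.2.2 this⟩)
    fun q ε hε => (whp_cv h.big (hI.and hE) _ hε).and ((ks.mark _ _ M ε h.big hε
      (Eventually.of_forall fun n ω _ => mi_nonneg _ _ _)
      (h.inf.mono (Eventually.of_forall fun n => (mi_cv _ _ _ _).ge))).and (h.cov q ε hε))
  refine ⟨G, hG, fun ω hω => ?_⟩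
  have e1 := e ω (hω.mono fun _ a => a.2)
  have w : Whp (fun n => ((z n).fix ((z n).θ (ω n))).P) fun n v =>
      (z n).In (M n) (Λ n) v ∧ E n v := fun ε hε => (e1 0 ε hε).mono fun _ a => a.1
  refine ⟨⟨h.big, ⟨Λ, hΛ, hb.mono fun n a v hv => a v (cE_sub hv),
    w.mono (hω.mono fun n a v hv b => ?_)⟩, fun ε hε => (e1 0 ε hε).mono fun n a => ?_,
    fun q ε hε => Whp.of_ev ((e1 q ε hε).mono fun n a _ _ => a.2.2)⟩,
    w.mono (Eventually.of_forall fun _ _ _ a => a.2)⟩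
  · have := b.1
    unfold Tr.In at this
    rwa [cv_eq a.1 hv] at this
  · rw [zero_add]
    exact a.2.1

end ABFixA

open ABFixA

theorem rowFix : SFix := by
  intro x Sg be top z M E xt hE
  have hM := xt.cls.big
  obtain ⟨G, hG, good⟩ := good xt.cls hE
  let w := fun n (ω : (z n).Ω) => hh (cv (z n).P (z n).θ ((z n).θ ω)) (z n).b
  let w' := fun n (ω : (z n).Ω) => hh (cv (z n).P (z n).θ ((z n).θ ω)) (z n).c
  have eb : ∀ n ω, ((z n).fix ((z n).θ ω)).tr.hb = w n ω := fun n ω => ch_unit _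
  have ec : ∀ n ω, ((z n).fix ((z n).θ ω)).tr.hc = w' n ω := fun n ω => ch_unit _
  have Eb : ∀ n, (z n).hb = (z n).P.E (w n) := fun n => ke.ent1 _ _ fun _ => (z n).b
  have Ec : ∀ n, (z n).hc = (z n).P.E (w' n) := fun n => ke.ent1 _ _ fun _ => (z n).c
  have bd : ∀ᶠ n in UF, ∀ ω, w n ω ≤ 2 * M n ∧ w' n ω ≤ 2 * M n := by
    obtain ⟨Λ, hΛ, hb, -⟩ := xt.cls.bd
    filter_upwards [hb, (hΛ.const_mul hM one_le_two).log3 hM 1 1 one_pos] with n a b ω
    exact ⟨hh_bd (hΛ.1 n) (fun v hv => (a v hv).1) (by linarith) _ _,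
      hh_bd (hΛ.1 n) (fun v hv => (a v hv).2) (by linarith) _ _⟩
  have up : ∀ ε : ℝ, 0 < ε → Whp (fun n => (z n).P) fun n ω =>
      w n ω + w' n ω ≤ Sg * M n * lg + ε * M n := fun ε hε => by
    by_contra c
    obtain ⟨ω, hω⟩ := sel ((not_whp c).and hG) w
    refine (top.sum _ M (good ω (hω.mono fun n a => ⟨a.1, a.2.1.2⟩)).1).false hM hε
      (hω.mono fun n a => ?_)
    rw [eb, ec]
    exact (not_le.1 a.2.1.1).le
  have sm : Sm M fun n => (z n).P.E fun ω => max 0 (w n ω + w' n ω - Sg * M n * lg) :=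
    Le.eps fun ε hε => le_E (up ε hε) (C := 4 + |Sg|) (by positivity) (bd.mono fun n a ω _ => by
      have h0 := Nat.cast_nonneg (α := ℝ) (M n)
      have h1 : 0 ≤ ε * M n := by positivity
      have h2 : -(Sg * lg) ≤ |Sg| := by
        nlinarith [neg_abs_le Sg, abs_nonneg Sg, lg_pos, lg_lt_one]
      have h3 := mul_le_mul_of_nonneg_right h2 h0
      have h4 := mul_nonneg (abs_nonneg Sg) h0
      exact ⟨fun b => max_le (by linarith) (by linarith),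
        max_le (by linarith) (by linarith [(a ω).1, (a ω).2])⟩)
  have lo : ∀ ε : ℝ, 0 < ε → Whp (fun n => (z n).P) fun n ω =>
      Sg * M n * lg ≤ w n ω + w' n ω + ε * M n := fun ε hε => by
    refine (ks.mark (fun n => (z n).P) (fun n ω => max 0 (w n ω + w' n ω - Sg * M n * lg) -
      (w n ω + w' n ω - Sg * M n * lg)) M ε hM hε
      (Eventually.of_forall fun n ω _ => sub_nonneg.2 (le_max_right _ _))
      ((Le.add sm xt.sum).of_sub (Eventually.of_forall fun n => ?_))).mono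
      (Eventually.of_forall fun n ω _ a => by
        linarith [le_max_left 0 (w n ω + w' n ω - Sg * M n * lg)])
    rw [FP.E_sub, FP.E_sub, FP.E_add, FP.E_const, Eb, Ec]
    linarith
  obtain ⟨G', hG', e⟩ := typ (P := fun n => (z n).P)
    (fun _ ε n ω => Sg * M n * lg ≤ w n ω + w' n ω + ε * M n)
    (fun _ ε ε' n ω a b => by
      linarith [mul_le_mul_of_nonneg_right a (Nat.cast_nonneg (α := ℝ) (M n))]) fun _ => lo
  obtain ⟨ω, hω⟩ := sel (hG.and hG').pos w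
  obtain ⟨h1, h2⟩ := good ω (hω.mono fun n a => ⟨a.1, a.2.1.1⟩)
  refine ⟨fun n => (z n).θ (ω n), ⟨h1, fun ε hε => ?_, xt.fst.trans ?_⟩, h2,
    hω.mono fun n a => ⟨ω n, a.1, rfl⟩⟩
  · simp only [eb, ec]
    exact e ω (hω.mono fun n a => a.2.1.2) 0 ε hε
  · simp only [eb, Eb]
    refine le_E (hG.and hG') two_pos ?_
    filter_upwards [hω, bd] with n a b v hv
    exact ⟨a.2.2 v hv, (b v).1.trans (le_add_of_nonneg_left (hh_nonneg _))⟩

end Pool.Agent.MP_5168f5_an.MX.AB
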