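import Pool.Agent.MP_5168f5_an.MX.ABApi

/-! An extremal system of unit size with small doubling and a fixed partner. -/

namespace Pool.Agent.MP_5168f5_an.MX.AB

open H19 H17S H17F Filter

namespace ABGrpA

theorem whp_law {Ω Ω' : ℕ → Type} {P : ∀ n, FP (Ω n)} {Q : ∀ n, FP (Ω' n)} {f : ∀ n, Ω' n → Ω n}
    {E : ∀ n, Ω n → Prop} (h : Whp P E) (k : ∀ n, Law (Q n) (f n) (P n) id) :
    Whp Q fun n v => E n (f n v) := fun ε hε =>
  (h ε hε).mono fun n a => ((k n).pb_eq fun ω => ¬E n ω).trans_le a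

theorem unit {Ω : ℕ → Type} {P : ∀ n, FP (Ω n)} {b : ∀ n, Ω n → ℤ} {M : ℕ → ℕ} (hM : Big M)
    (h : ND P b M) : ∃ L, Sub M L ∧ Whp P fun n ω => 2 ^ M n / L n ≤ |(b n ω : ℝ)| := by
  refine ks.wsub P (fun n ω L => 2 ^ M n / L ≤ |(b n ω : ℝ)|) M fun c c0 c1 => ?_
  have f := hM.frac_floor c0 c1
  refine (h Ω (fun _ => Unit) P b (fun _ _ => ()) (fun _ _ => 0) _ (fun n => Law.rfl _)
    (fun _ _ _ _ _ _ => rfl) (Le.of_le fun n => by rw [ch_unit, sub_self]) f).mono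
    (.of_forall fun n ω _ e => ?_)
  rw [sub_zero] at e
  refine le_trans ((div_le_iff₀ (Real.exp_pos _)).2 ?_) e
  conv_lhs => rw [← Nat.sub_add_cancel (f.1 n), pow_add]
  exact mul_le_mul_of_nonneg_left ((two_pow_le_exp _).trans
    (Real.exp_le_exp.2 (Nat.floor_le (by positivity)))) (by positivity)

theorem nr_sub {L : Lv} {r y y' : ℝ} (h : Nr (L.S 1) r y) (h' : Nr (L.S 1) r y') :
    Nr ((L.tr 2 1).S 1) (2 * r) (y - y') := by
  obtain ⟨a, a1, a2⟩ := h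
  obtain ⟨a', b1, b2⟩ := h'
  refine ⟨a + -a', show 1 * (a + -a') ∈ L.S (1 + 1) from
    (one_mul (a + -a')).symm ▸ L.add _ _ _ _ a1 (L.neg _ _ b1), ?_⟩
  rw [abs_le] at *
  constructor <;> linarith [a2.1, a2.2, b2.1, b2.2]

theorem tr_S (L : Lv) (q : ℕ) : (L.tr 2 1).S q = L.S (2 * q) := by
  ext y
  simp [Lv.tr]

/-- Two copies with the same second variable. -/
noncomputable def db (z : Tr0) : Tr0 :=
  { Ω := z.Ω × z.Ω, P := glue z.P z.P z.c z.c, b := fun v => z.b v.1 - z.b v.2,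
    c := fun v => z.c v.1, L := z.L.tr 2 1, Lb := z.Lb.tr 2 1, Lc := z.Lc }

theorem db_mi (z : Tr0) : mi (db z).P (db z).b (db z).c (fun _ => ()) ≤
    2 * mi z.P z.b z.c fun _ => () := by
  have l1 := kg.fst z.P z.P z.c z.c
  have l2 := kg.snd z.P z.P z.c z.c (Law.rfl _)
  have h1 : mi (db z).P (db z).b (db z).c (fun _ => ()) ≤ mi (glue z.P z.P z.c z.c)
      (fun v => (z.b v.1, z.b v.2)) (fun v => z.c v.1) fun _ => () :=
    mi_mono' ((Fn.comp (fun p : ℤ × ℤ => p.1 - p.2) _).left _)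
  have h2 := ch_subadd (P := glue z.P z.P z.c z.c) (fun v => z.b v.1) (fun v => z.b v.2)
    fun _ => ()
  have h3 := ch_chain (P := glue z.P z.P z.c z.c) (fun v => z.b v.1) (fun v => z.b v.2)
    fun v => z.c v.1
  have h4 := kg.mk1 z.P z.P z.c z.c z.b (fun x => (z.b x, z.c x)) (Law.rfl _) (Fn.snd _ _)
  have h5 := l1.ch_id z.b z.c
  have h6 := l1.ch_id z.b fun _ => ()
  have h7 := l2.ch_id z.b fun _ => ()
  have h8 := mi_unit (P := glue z.P z.P z.c z.c) (fun v => (z.b v.1, z.b v.2)) fun v => z.c v.1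
  have h9 := mi_unit (P := z.P) z.b z.c
  have h10 := ch_unit (P := glue z.P z.P z.c z.c) fun v => (z.b v.1, z.b v.2)
  have h11 := ch_unit (P := z.P) z.b
  linarith

theorem db_cls {x : ℝ} {z : ℕ → Tr0} {M : ℕ → ℕ} (h : Cls x (fun n => (z n).tr) M) :
    Cls x (fun n => (db (z n)).tr) M := by
  obtain ⟨Λ, s, h1, h2⟩ := h.bd
  have l1 := fun n => kg.fst (z n).P (z n).P (z n).c (z n).c
  have l2 := fun n => kg.snd (z n).P (z n).P (z n).c (z n).c (Law.rfl _)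
  refine ⟨h.big, ⟨_, s.const_mul h.big one_le_two, h1.mono fun n a v hv => ?_,
    ((whp_law h2 l1).and (whp_law h2 l2)).mono (.of_forall fun n v hv e => ⟨?_, ?_, ?_⟩)⟩,
    (h.inf.smul zero_le_two).mono (.of_forall fun n => db_mi (z n)), fun q ε hε =>
    ((whp_law (h.cov (2 * q) ε hε) l1).and (whp_law (h.cov q ε hε) l1)).mono
      (.of_forall fun n v _ e => ⟨(tr_S _ q).symm ▸ e.1.1, (tr_S _ q).symm ▸ e.1.2.1, e.2.2.2⟩)⟩
  · have a1 : |((z n).b v.1 : ℝ)| ≤ _ := (a _ ((l1 n).mem hv)).1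
    have a2 : |((z n).b v.2 : ℝ)| ≤ _ := (a _ ((l2 n).mem hv)).1
    have a3 : |((z n).c v.1 : ℝ)| ≤ _ := (a _ ((l1 n).mem hv)).2
    refine ⟨show |(((z n).b v.1 - (z n).b v.2 : ℤ) : ℝ)| ≤ _ from ?_,
      show |((z n).c v.1 : ℝ)| ≤ _ from ?_⟩
    · rw [Int.cast_sub]
      linarith [abs_sub ((z n).b v.1 : ℝ) ((z n).b v.2)]
    · linarith [abs_nonneg ((z n).c v.1 : ℝ)]
  · have e1 : (z n).c v.2 = (z n).c v.1 := ((kg.mem _ _ _ _ v (Law.rfl _)).1 hv).2.2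
    have := nr_sub (L := (z n).L) (y := (z n).b v.1 * (z n).c v.1 / 2 ^ M n)
      (y' := (z n).b v.2 * (z n).c v.2 / 2 ^ M n) e.1.1 e.2.1
    rw [e1, ← sub_div, ← sub_mul, ← Int.cast_sub] at this
    exact this
  · have := nr_sub (L := (z n).Lb) (y := (z n).b v.1) (y' := (z n).b v.2) e.1.2.1 e.2.2.1
    rw [← Int.cast_sub] at this
    exact this
  · obtain ⟨a, a1, a2⟩ := e.1.2.2
    exact ⟨a, a1, a2.trans (by linarith [s.1 n])⟩

/-- Doubling on a fibre. -/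
noncomputable def dd (z : Tr0) (s : ℤ) : ℝ :=
  hh (prod (cv z.P z.c s) (cv z.P z.c s)) fun v => z.b v.1 - z.b v.2

/-- Entropy on a fibre. -/
noncomputable def ee (z : Tr0) (s : ℤ) : ℝ := hh (cv z.P z.c s) z.b

theorem ee_le (z : Tr0) (s : ℤ) : ee z s ≤ dd z s := by
  have h1 := ch_prod_fst (cv z.P z.c s) (cv z.P z.c s) z.b z.b
  have h2 : ch (prod (cv z.P z.c s) (cv z.P z.c s)) (fun v => z.b v.1) (fun v => z.b v.2) ≤
      ch (prod (cv z.P z.c s) (cv z.P z.c s)) (fun v => z.b v.1 - z.b v.2) fun v => z.b v.2 :=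
    ch_mono fun a _ b _ e => by
      have e1 : z.b a.1 - z.b a.2 = z.b b.1 - z.b b.2 := congrArg Prod.fst e
      have e2 : z.b a.2 = z.b b.2 := congrArg Prod.snd e
      show z.b a.1 = z.b b.1
      omega
  have h3 := ch_le_hh (P := prod (cv z.P z.c s) (cv z.P z.c s))
    (fun v => z.b v.1 - z.b v.2) fun v => z.b v.2
  unfold ee dd
  linarith

theorem typ {x Sg be : ℝ} (top : Top x Sg be) {z : ℕ → Tr0} {M : ℕ → ℕ} (h : X0 x Sg be z M) :
    ∃ L, Sub M L ∧ Whp (fun n => (z n).P) fun n ω =>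
      dd (z n) ((z n).c ω) - ee (z n) ((z n).c ω) ≤ Real.log (L n) := by
  refine ks.wsub (fun n => (z n).P) (fun n ω L =>
    dd (z n) ((z n).c ω) - ee (z n) ((z n).c ω) ≤ Real.log L) M fun c c0 _ => ?_
  simp only [Real.log_exp]
  refine ks.mark _ _ M c h.cls.big c0 (.of_forall fun n ω _ => sub_nonneg.2 (ee_le _ _))
    (Le.of5 (top.sum _ M (db_cls h.cls)) h.sum (top.fst _ M h.cls h.sum) h.fst h.cls.inf
      (.of_forall fun n => ?_))
  have h1 : ch (db (z n)).P (db (z n)).b (db (z n)).c = (z n).P.E fun ω => dd (z n) ((z n).c ω) :=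
    kg.cnd (z n).P (z n).P (z n).c (z n).c _ (Law.rfl _)
  have h2 : ch (z n).P (z n).b (z n).c = (z n).P.E fun ω => ee (z n) ((z n).c ω) :=
    ke.ent1 (z n).P (z n).c fun _ => (z n).b
  have h3 : ch (db (z n)).P (db (z n)).b (db (z n)).c ≤ (db (z n)).tr.hb :=
    ch_anti fun _ _ _ _ _ => rfl
  have h4 : (db (z n)).tr.hc = (z n).tr.hc :=
    (kg.fst (z n).P (z n).P (z n).c (z n).c).ch_id (z n).c fun _ => ()
  have h5 : mi (z n).tr.P (z n).tr.b (z n).tr.c (z n).tr.θ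
      = (z n).tr.hb - ch (z n).P (z n).b (z n).c :=
    (mi_unit _ _).trans (congrArg (· - _) (ch_unit _).symm)
  rw [FP.E_sub]
  linarith

/-- Two copies with the same first variable; the second partner is the side information. -/
noncomputable def pa (z : Tr0) : Tr :=
  (z.tr.law (glue z.P z.P z.b z.b) (fun v => z.b v.1) (fun v => z.c v.1) fun _ => ()).side
    fun v => z.c v.2

theorem pa_mi (z : Tr0) : mi (glue z.P z.P z.b z.b) (fun v => (z.b v.1, z.c v.1))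
    (fun v => z.c v.2) (fun _ => ()) = mi z.P z.b z.c fun _ => () := by
  rw [mi_symm, mi_symm z.b, mi_unit, mi_unit,
    kg.mk1 z.P z.P z.b z.b z.c (fun x => (z.b x, z.c x)) (Law.rfl _) (Fn.fst _ _),
    Law.hh_eq (kg.snd z.P z.P z.b z.b (Law.rfl _)) z.c]
  rfl

theorem pa_law (z : Tr0) (s : ℤ × Unit) :
    Law ((pa z).fix s).P ((pa z).fix s).b (cv z.P z.c s.1) z.b := by
  have l : Law (glue z.P z.P z.b z.b) (fun v => (z.b v.1, z.c v.2)) z.P fun ω => (z.b ω, z.c ω) :=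
    ((kg.snd z.P z.P z.b z.b (Law.rfl _)).comp fun ω => (z.b ω, z.c ω)).ext fun v hv => by
      rw [((kg.mem _ _ _ _ v (Law.rfl _)).1 hv).2.2]
  have := (ke.law _ _ _ _ (fun p => (p.2, ()) = s) l).comp Prod.fst
  rw [cE_congr (P := z.P) (E' := fun ω => z.c ω = s.1) fun ω _ => by simp [Prod.ext_iff]] at this
  exact this

theorem main {x Sg be : ℝ} (top : Top x Sg be) (cl : CL (Xt x Sg be)) (fx : Fix x Sg be)
    {z : ℕ → Tr0} {M : ℕ → ℕ} (h : X0 x Sg be z M) {L : ℕ → ℝ} (hL : Sub M L)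
    (us : ∀ᶠ n in UF, ∀ ω ∈ (z n).P.S,
      2 ^ M n / L n ≤ |((z n).b ω : ℝ)| ∧ 2 ^ M n / L n ≤ |((z n).c ω : ℝ)|) :
    ∃ z' u, Grp x Sg be z' M u := by
  obtain ⟨Λ, s1, h1, h2⟩ := h.cls.bd
  obtain ⟨L2, s2, h3⟩ := typ top h
  have l1 := fun n => kg.fst (z n).P (z n).P (z n).b (z n).b
  have l2 := fun n => kg.snd (z n).P (z n).P (z n).b (z n).b (Law.rfl _)
  have xt : Xt x Sg be (fun n => pa (z n)) M :=
    cl.side _ M _ _ (cl.law _ M _ _ _ _ _ h fun n => (l1 n).comp fun ω => ((z n).b ω, (z n).c ω, ()))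
      (h.cls.inf.mono (.of_forall fun n => (pa_mi (z n)).le))
  obtain ⟨s, x1, w, ex⟩ := fx (fun n => pa (z n)) M (fun n (v : (z n).Ω × (z n).Ω) =>
    dd (z n) ((z n).c v.2) - ee (z n) ((z n).c v.2) ≤ Real.log (L2 n) ∧
      Nr ((z n).L.S 1) (Λ n) ((z n).b v.1 * (z n).c v.2 / 2 ^ M n)) xt
    (((whp_law h3 l2).and (whp_law h2 l2)).mono (.of_forall fun n v hv e => ⟨e.1, by
      rw [← ((kg.mem _ _ _ _ v (Law.rfl _)).1 hv).2.2]
      exact e.2.1⟩))
  have su : ∀ᶠ n in UF, ∀ v ∈ ((pa (z n)).fix (s n)).P.S, (z n).c v.2 = (s n).1 :=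
    ex.mono fun n a v hv => congrArg Prod.fst ((mem_cE a v).1 hv).2
  refine ⟨_, fun n => (s n).1, x1, ⟨L, hL, us.mono fun n a v hv => a _ ((l1 n).mem (cE_sub hv))⟩,
    Le.of2 (top.fst _ M x1.cls x1.sum) s2.log ?_, ⟨_, hL.mul s1, ?_⟩,
    Λ, s1, w.mono (su.mono fun n a v hv e => a v hv ▸ e.2)⟩
  · filter_upwards [su, w.pos.ex] with n a ⟨v, hv, e, _⟩
    have e1 : (hh (prod ((pa (z n)).fix (s n)).P ((pa (z n)).fix (s n)).P) fun v =>
        ((pa (z n)).fix (s n)).b v.1 - ((pa (z n)).fix (s n)).b v.2) = dd (z n) (s n).1 :=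
      Law.hh_eq (law_prod (pa_law _ _) (pa_law _ _)) fun p => p.1 - p.2
    have e2 : ((pa (z n)).fix (s n)).tr.hb = ee (z n) (s n).1 :=
      (ch_unit _).trans (hh_law _ _ (pa_law _ _))
    rw [a v hv] at e
    linarith
  · filter_upwards [ex, us, h1] with n ⟨v, hv, e⟩ a b
    have m := (l2 n).mem hv
    have e' : (z n).c v.2 = (s n).1 := congrArg Prod.fst e
    have b' : |((z n).c v.2 : ℝ)| ≤ _ := (b _ m).2
    rw [← e']
    exact ⟨(div_le_div_of_nonneg_left (by positivity) (hL.pos n)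
      (le_mul_of_one_le_right (hL.pos n).le (s1.1 n))).trans (a _ m).2, b'.trans
      (mul_le_mul_of_nonneg_right (le_mul_of_one_le_left (s1.pos n).le (hL.1 n)) (by positivity))⟩

end ABGrpA

theorem rowGrp : SGrp := by
  intro x Sg be top cl nd fx z M h
  obtain ⟨L1, s1, w1⟩ := ABGrpA.unit h.cls.big (nd z M h).2.1
  obtain ⟨L2, s2, w2⟩ := ABGrpA.unit h.cls.big (nd z M h).2.2
  have p := (w1.and w2).pos
  refine ABGrpA.main top cl fx (z := fun n => { z n with P := cE (z n).P _ })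
    (cl.cond _ M _ h p) (s1.mul s2) (p.sure.mono fun n a ω hω => ?_)
  exact ⟨(div_le_div_of_nonneg_left (by positivity) (s1.pos n)
    (le_mul_of_one_le_right (s1.pos n).le (s2.1 n))).trans (a ω hω).2.1,
    (div_le_div_of_nonneg_left (by positivity) (s2.pos n)
      (le_mul_of_one_le_left (s2.pos n).le (s1.1 n))).trans (a ω hω).2.2⟩

end Pool.Agent.MP_5168f5_an.MX.AB
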