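import Pool.Agent.MP_5168f5_an.MX.ABApi

/-! Row HEX: paths with almost independent vertices. -/

namespace Pool.Agent.MP_5168f5_an.MX.AB

open H19 H17S H17F Filter

namespace ABHexA

theorem one (z : Tr0) : ∃ h : Hx, h.Ok z ∧
    2 * (hh z.P z.b + hh z.P z.c) - 3 * mi z.P z.b z.c (fun _ => ()) ≤
      hh h.Q fun v => ((h.b₁ v, h.c₁ v), h.th v) := by
  obtain ⟨Ω, P, b, c, -, -, -⟩ := z
  have l0 : Law P b P b := Law.rfl b
  have f1 := kg.fst P P b b
  have l1 : Law (glue P P b b) (fun u => c u.1) P c := f1.comp c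
  have f2 := kg.fst (glue P P b b) P (fun u => c u.1) c
  refine ⟨⟨_, glue (glue P P b b) P (fun u => c u.1) c, fun v => c v.1.2, fun v => b v.1.1,
    fun v => c v.1.1, fun v => b v.2⟩, ⟨?_, ?_, ?_⟩, ?_⟩
  · refine (((f2.comp Prod.snd).trans (kg.snd P P b b l0)).comp fun ω => (b ω, c ω)).ext
      fun v hv => ?_
    rw [((kg.mem _ _ _ _ _ l0).1 ((kg.mem _ _ _ _ _ l1).1 hv).1).2.2]
  · exact ((f2.comp Prod.fst).trans f1).comp fun ω => (b ω, c ω)
  · refine ((kg.snd _ P _ c l1).comp fun ω => (b ω, c ω)).ext fun v hv => ?_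
    rw [((kg.mem _ _ _ _ _ l1).1 hv).2.2]
  · have h1 := kg.mk1 _ P _ c b (fun u : Ω × Ω => (c u.2, b u.1, c u.1)) l1
      fun _ _ _ _ e => congrArg (fun t => t.2.2) e
    have h2 := Law.hh_eq f2 fun u : Ω × Ω => (c u.2, b u.1, c u.1)
    have h3 := kg.mk1 P P b b c (fun ω => (b ω, c ω)) l0 (Fn.fst _ _)
    have h4 := Law.hh_eq f1 fun ω => (b ω, c ω)
    have h5 := mi_unit (P := P) b c
    have h6 := (mi_symm b c _).trans (mi_unit (P := P) c b)
    have h7 := hh_mono (P := glue (glue P P b b) P (fun u => c u.1) c)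
      (f := fun v => (b v.2, c v.1.2, b v.1.1, c v.1.1))
      (g := fun v => ((b v.1.1, c v.1.1), b v.2, c v.1.2))
      fun _ _ _ _ e => congrArg (fun t : (ℤ × ℤ) × ℤ × ℤ => (t.2.1, t.2.2, t.1)) e
    unfold ch at h1 h3 h5 h6
    simp only [id, Hx.th] at *
    linarith

end ABHexA

theorem rowHex : SHex := by
  intro x Sg be z M hz
  choose h h1 h2 using fun n => ABHexA.one (z n)
  refine ⟨h, h1, (hz.sum.smul zero_le_two).of2 (hz.cls.inf.smul zero_le_three)
    (Eventually.of_forall fun n => ?_)⟩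
  have := h2 n
  simp only [Tr.hb, Tr.hc, Tr0.tr, ch_unit]
  linarith

end Pool.Agent.MP_5168f5_an.MX.AB
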