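import Pool.Agent.MP_5168f5_an.MX.ABRg

/-! Row MULT: a regular family of multipliers. -/

namespace Pool.Agent.MP_5168f5_an.MX.AB

open H19 H17S H17F Filter

namespace ABMultA

theorem pair_le {Ω α β : Type} (P : FP Ω) (f : Ω → α) (g : Ω → β) :
    hh P (fun x => (f x, g x)) ≤ hh P f + hh P g := by
  simpa only [ch_unit] using ch_subadd (P := P) f g fun _ => ()

variable (h : Hx)

/-- The data shared by the two copies. -/
noncomputable def ph (w : h.Ω × h.Ω) : (ℤ × ℤ) × ℤ := (h.th w.1, h.sg w)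

/-- Two copies with the same end points and the same sum. -/
noncomputable def Q3 : FP ((h.Ω × h.Ω) × h.Ω × h.Ω) := glue h.Q2 h.Q2 (ph h) (ph h)

/-- The three variables that give the multiplier. -/
def om (v : (h.Ω × h.Ω) × h.Ω × h.Ω) : ℤ × ℤ × ℤ := (h.c₀ v.1.1, h.c₁ v.1.2, h.c₁ v.2.2)

/-- The multiplier. -/
noncomputable def tt (k : ℤ × ℤ × ℤ) : ℝ := ((k.2.1 : ℝ) - k.2.2) / k.1

variable {h}

theorem mem2 {w : h.Ω × h.Ω} (hw : w ∈ h.Q2.S) : h.th w.2 = h.th w.1 :=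
  ((kg.mem _ _ _ _ w (Law.rfl h.th)).1 hw).2.2

theorem mem3 {v : (h.Ω × h.Ω) × h.Ω × h.Ω} (hv : v ∈ (Q3 h).S) :
    h.th v.1.2 = h.th v.1.1 ∧ h.th v.2.1 = h.th v.1.1 ∧ h.sg v.2 = h.sg v.1 := by
  have k := (kg.mem _ _ _ _ v (Law.rfl (ph h))).1 hv
  exact ⟨mem2 k.1, congrArg Prod.fst k.2.2, congrArg Prod.snd k.2.2⟩

variable (h)

theorem l1 : Law h.Q2 Prod.fst h.Q id := kg.fst _ _ _ _

theorem l2 : Law h.Q2 Prod.snd h.Q id := kg.snd _ _ _ _ (Law.rfl _)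

theorem m1 : Law (Q3 h) Prod.fst h.Q2 id := kg.fst _ _ _ _

theorem m2 : Law (Q3 h) Prod.snd h.Q2 id := kg.snd _ _ _ _ (Law.rfl _)

theorem l11 : Law (Q3 h) (fun v => v.1.1) h.Q id := ((m1 h).comp Prod.fst).trans (l1 h)

theorem l12 : Law (Q3 h) (fun v => v.1.2) h.Q id := ((m1 h).comp Prod.snd).trans (l2 h)

theorem l21 : Law (Q3 h) (fun v => v.2.1) h.Q id := ((m2 h).comp Prod.fst).trans (l1 h)

theorem l22 : Law (Q3 h) (fun v => v.2.2) h.Q id := ((m2 h).comp Prod.snd).trans (l2 h)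

/-- The second variable keeps its entropy when the sum is known. -/
theorem keep : ch h.Q (fun v => (h.b₁ v, h.c₁ v)) h.th ≤
    ch h.Q2 h.sg (fun w => h.th w.1) + ch h.Q2 (fun w => h.c₁ w.2) (ph h) := by
  have a1 := ch_subadd (P := h.Q) h.b₁ h.c₁ h.th
  have a2 := (l1 h).ch_id h.b₁ h.th
  have a3 := kg.mk1 h.Q h.Q h.th h.th h.c₁ (fun v => (h.b₁ v, h.th v)) (Law.rfl _) (Fn.snd _ _)
  have a4 := ch_chain (P := h.Q2) (fun w => h.b₁ w.1) (fun w => h.c₁ w.2) fun w => h.th w.1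
  have a5 := ch_chain (P := h.Q2) h.sg (fun w => h.c₁ w.2) fun w => h.th w.1
  have a6 : ch h.Q2 (fun w => (h.b₁ w.1, h.c₁ w.2)) (fun w => h.th w.1) ≤
      ch h.Q2 (fun w => (h.sg w, h.c₁ w.2)) fun w => h.th w.1 := ch_mono fun a _ b _ e => by
    simp only [Hx.sg, Hx.th, Prod.mk.injEq] at e ⊢
    obtain ⟨⟨e1, e2⟩, e3, e4⟩ := e
    rw [e2, e3, e4] at e1
    exact ⟨add_right_cancel e1, e2⟩
  have a7 : ch h.Q2 (fun w => h.c₁ w.2) (fun w => (h.sg w, h.th w.1)) ≤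
      ch h.Q2 (fun w => h.c₁ w.2) (ph h) := ch_anti ((Fn.snd _ _).pair (Fn.fst _ _))
  unfold Hx.Q2 at *
  linarith

variable {h} {z : Tr0} (ok : h.Ok z)
include ok

theorem lb₁ : Law h.Q h.b₁ z.P z.b := ok.e₁.comp Prod.fst

theorem lc₀ : Law h.Q h.c₀ z.P z.c := ok.e₁.comp Prod.snd

theorem lb₀ : Law h.Q h.b₀ z.P z.b := ok.e₃.comp Prod.fst

theorem lc₁ : Law h.Q h.c₁ z.P z.c := ok.e₃.comp Prod.snd

/-- The end points and the two copies are almost independent. -/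
theorem four : 2 * hh h.Q (fun v => ((h.b₁ v, h.c₁ v), h.th v)) - 2 * hh z.P z.b - hh z.P z.c -
    ch h.Q2 h.sg (fun w => h.th w.1) ≤ hh (Q3 h) fun v => (h.b₀ v.1.2, om h v) := by
  have a1 := keep h
  have a2 := pair_le h.Q h.b₀ h.c₀
  have a3 : hh h.Q h.b₀ = hh z.P z.b := hh_law _ _ (lb₀ ok)
  have a4 : hh h.Q h.c₀ = hh z.P z.c := hh_law _ _ (lc₀ ok)
  have a5 : hh h.Q h.b₁ = hh z.P z.b := hh_law _ _ (lb₁ ok)
  have a6 := ch_le_hh (P := h.Q) h.b₁ fun v => (h.c₁ v, h.th v)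
  have a7 : hh h.Q (fun v => ((h.b₁ v, h.c₁ v), h.th v)) ≤
      hh h.Q fun v => (h.b₁ v, h.c₁ v, h.th v) :=
    hh_mono fun a _ b _ e => by simp only [Prod.mk.injEq] at e ⊢; tauto
  have a8 := (l12 h).hh_id fun v => (h.c₁ v, h.th v)
  have a9 := kg.mk1 h.Q2 h.Q2 (ph h) (ph h) (fun w => h.c₁ w.2) id (Law.rfl _)
    fun _ _ _ _ e => congrArg (ph h) e
  have a10 : ch (Q3 h) (fun v => h.c₁ v.2.2) (fun v => id v.1) ≤
      ch (Q3 h) (fun v => h.c₁ v.2.2) fun v => (h.c₁ v.1.2, h.th v.1.2) :=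
    ch_anti fun a _ b _ e => by rw [show a.1 = b.1 from e]
  have a11 : hh (Q3 h) (fun v => (h.c₁ v.2.2, h.c₁ v.1.2, h.th v.1.2)) ≤
      hh (Q3 h) fun v => (h.b₀ v.1.2, om h v) := hh_mono fun a ha b hb e => by
    have k1 := congrArg Prod.snd (mem3 ha).1
    have k2 := congrArg Prod.snd (mem3 hb).1
    simp only [om, Hx.th, Prod.mk.injEq] at e k1 k2 ⊢
    exact ⟨e.2.2.2, e.2.2.1, e.1, by rw [k1, k2, e.2.1]⟩
  unfold ch Q3 at *
  unfold Hx.th at *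
  linarith

theorem info : mi (Q3 h) (fun v => (h.b₀ v.1.2, h.c₁ v.1.2)) (fun v => (h.c₀ v.1.1, h.c₁ v.2.2))
    (fun _ => ()) ≤ hh z.P z.b + 3 * hh z.P z.c - hh (Q3 h) fun v => (h.b₀ v.1.2, om h v) := by
  have a1 := pair_le (Q3 h) (fun v => h.b₀ v.1.2) fun v => h.c₁ v.1.2
  have a2 := pair_le (Q3 h) (fun v => h.c₀ v.1.1) fun v => h.c₁ v.2.2
  have a3 := ((l12 h).hh_id h.b₀).trans (hh_law _ _ (lb₀ ok))
  have a4 := ((l12 h).hh_id h.c₁).trans (hh_law _ _ (lc₁ ok))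
  have a5 := ((l11 h).hh_id h.c₀).trans (hh_law _ _ (lc₀ ok))
  have a6 := ((l22 h).hh_id h.c₁).trans (hh_law _ _ (lc₁ ok))
  have a7 : hh (Q3 h) (fun v => (h.b₀ v.1.2, om h v)) ≤
      hh (Q3 h) fun v => ((h.b₀ v.1.2, h.c₁ v.1.2), h.c₀ v.1.1, h.c₁ v.2.2) :=
    hh_mono fun a _ b _ e => by simp only [om, Prod.mk.injEq] at e ⊢; tauto
  rw [mi_unit]
  unfold ch
  linarith

theorem cond : hh (Q3 h) (fun v => (h.b₀ v.1.2, om h v)) - 3 * hh z.P z.c ≤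
    ch (Q3 h) (fun v => h.b₀ v.1.2) (om h) := by
  have a1 := pair_le (Q3 h) (fun v => h.c₀ v.1.1) fun v => (h.c₁ v.1.2, h.c₁ v.2.2)
  have a2 := pair_le (Q3 h) (fun v => h.c₁ v.1.2) fun v => h.c₁ v.2.2
  have a4 := ((l12 h).hh_id h.c₁).trans (hh_law _ _ (lc₁ ok))
  have a5 := ((l11 h).hh_id h.c₀).trans (hh_law _ _ (lc₀ ok))
  have a6 := ((l22 h).hh_id h.c₁).trans (hh_law _ _ (lc₁ ok))
  have a7 : hh (Q3 h) (om h) = hh (Q3 h) fun v => (h.c₀ v.1.1, h.c₁ v.1.2, h.c₁ v.2.2) := rfl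
  unfold ch
  linarith

/-- The mean cost of the multiplier. -/
theorem mean {L : ℝ} (hL : ∀ v ∈ (Q3 h).S, |tt (om h v)| ≤ L) :
    (Q3 h).E (fun v => cst z.P z.b (tt (om h v))) ≤ 6 * cst z.P z.b (-1) + 2 +
      (hh z.P z.b - ch (Q3 h) (fun v => h.b₀ v.1.2) (om h)) + 9 * Real.log (L + 2) := by
  have a1 := (Q3 h).E_mono fun v hv => (kc9.tri z.P z.b (cv (Q3 h) (om h) (om h v))
    (fun u => h.b₀ u.1.2) (tt (om h v))).trans (add_le_add le_rfl (mul_le_mul_of_nonneg_left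
      (Real.log_le_log (by positivity) (add_le_add (hL v hv) le_rfl)) (by norm_num)))
  rw [FP.E_add, FP.E_add, FP.E_sub, FP.E_add, FP.E_const, FP.E_const,
    ← ke.ent1 (Q3 h) (om h) fun _ u => h.b₀ u.1.2] at a1
  have a2 := kc9.cnd z.P z.b (Q3 h) (om h) fun k u => ⌊tt k * h.b₀ u.1.2⌋
  have a3 := kc9.cnd z.P z.b (Q3 h) (om h) fun _ u => -h.b₀ u.1.2
  have a4 := kc9.near z.P z.b (Q3 h) (fun u => ⌊tt (om h u) * h.b₀ u.1.2⌋)
    (fun u => h.b₁ u.2.1 + -h.b₁ u.1.1) 2 zero_le_two fun u hu => by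
      obtain ⟨k1, k2, k3⟩ := mem3 hu
      simp only [Hx.th, Hx.sg, Prod.mk.injEq] at k1 k2 k3
      rw [k2.1, k2.2] at k3
      have k4 : ((h.b₁ u.2.1 : ℝ) + ⌊(h.b₀ u.1.1 : ℝ) * h.c₁ u.2.2 / h.c₀ u.1.1⌋) =
          h.b₁ u.1.1 + ⌊(h.b₀ u.1.1 : ℝ) * h.c₁ u.1.2 / h.c₀ u.1.1⌋ := by exact_mod_cast k3
      have k5 := abs_le.1 (fl_near ((h.b₀ u.1.1 : ℝ) * h.c₁ u.1.2 / h.c₀ u.1.1)
        ((h.b₀ u.1.1 : ℝ) * h.c₁ u.2.2 / h.c₀ u.1.1))
      have k6 := abs_le.1 (abs_floor (tt (om h u) * h.b₀ u.1.2))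
      have k7 : tt (om h u) * h.b₀ u.1.2 = (h.b₀ u.1.1 : ℝ) * h.c₁ u.1.2 / h.c₀ u.1.1 -
          (h.b₀ u.1.1 : ℝ) * h.c₁ u.2.2 / h.c₀ u.1.1 := by
        rw [k1.1]; simp only [tt, om]; ring
      push_cast
      rw [abs_le]; constructor <;> linarith [k5.1, k5.2, k6.1, k6.2]
  have a5 := kc9.add z.P z.b (Q3 h) (fun u => h.b₁ u.2.1) fun u => -h.b₁ u.1.1
  have a6 := kc9.law z.P z.b _ _ _ _ (((l21 h).comp h.b₁).trans (lb₁ ok))
  have a7 := kc9.law z.P z.b _ _ _ _ ((((l11 h).comp h.b₁).trans (lb₁ ok)).comp Neg.neg)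
  have a8 := kc9.law z.P z.b _ _ _ _ ((((l12 h).comp h.b₀).trans (lb₀ ok)).comp Neg.neg)
  have a9 := cst_one z.P z.b
  have a10 := cst_neg_one z.P z.b
  have a11 := ABRgA.one_le z.P z.b
  linarith [log7]

end ABMultA

open ABMultA

theorem rowMult : SMult := by
  intro x Sg be top cl _ fx z M u h gr hx dy
  have big : Big M := gr.xt.cls.big
  obtain ⟨Λ, hΛ, bd, -⟩ := gr.xt.cls.bd
  obtain ⟨Λ', hΛ', us⟩ := gr.us
  have sb : Le M (fun n => be * M n * lg) fun n => hh (z n).P (z n).b :=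
    gr.xt.fst.trans (Le.of_le fun n => (ch_unit _).le)
  have ub : Le M (fun n => hh (z n).P (z n).b) fun n => be * M n * lg :=
    (Le.of_le fun n => (ch_unit _).ge).trans (top.fst _ M gr.xt.cls gr.xt.sum)
  have uc : Le M (fun n => hh (z n).P (z n).c) fun n => (Sg - be) * M n * lg :=
    (top.sum _ M gr.xt.cls).of2 sb (Eventually.of_forall fun n => by
      simp only [Tr.hb, Tr.hc, Tr0.tr, ch_unit]; linarith)
  have f4 : Le M (fun n => (be + 3 * (Sg - be)) * M n * lg) fun n =>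
      hh (Q3 (h n)) fun v => ((h n).b₀ v.1.2, om (h n) v) :=
    (hx.ent.smul zero_le_two).of4 (ub.smul zero_le_two) uc dy (Eventually.of_forall fun n => by
      linarith [four (hx.ok n)])
  have x1 := cl.side _ M _ (fun n (v : ((h n).Ω × (h n).Ω) × (h n).Ω × (h n).Ω) =>
      ((h n).c₀ v.1.1, (h n).c₁ v.2.2))
    (cl.law _ M _ (fun n => Q3 (h n)) (fun n v => (h n).b₀ v.1.2) (fun n v => (h n).c₁ v.1.2)
      (fun _ _ => ()) gr.xt fun n =>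
        ((((l12 (h n)).comp fun v => ((h n).b₀ v, (h n).c₁ v)).trans (hx.ok n).e₃).comp
          fun p => (p.1, p.2, ())))
    (ub.of3 (uc.smul zero_le_three) f4 (Eventually.of_forall fun n => by
      have := info (hx.ok n)
      simp only [Tr.law, Tr0.tr]
      linarith))
  have vc : ∀ᶠ n in UF, ∀ v ∈ (h n).Q.S, (2 ^ M n / Λ' n ≤ |((h n).c₀ v : ℝ)| ∧
      |((h n).c₀ v : ℝ)| ≤ Λ n * 2 ^ M n) ∧ |((h n).c₁ v : ℝ)| ≤ Λ n * 2 ^ M n := by
    filter_upwards [bd, us] with n a d v hv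
    obtain ⟨ω, h1, h2⟩ := (lc₀ (hx.ok n)).ex hv
    obtain ⟨ω', h3, h4⟩ := (lc₁ (hx.ok n)).ex hv
    rw [← h2, ← h4]
    exact ⟨⟨(d ω h1).2, (a ω h1).2⟩, (a ω' h3).2⟩
  have hL := (hΛ.mul hΛ').const_mul big one_le_two
  have bt : ∀ᶠ n in UF, ∀ v ∈ (Q3 (h n)).S, |tt (om (h n) v)| ≤ 2 * (Λ n * Λ' n) := by
    filter_upwards [vc] with n a v hv
    have a1 := (a _ ((l11 (h n)).mem hv)).1.1
    have a2 := (a _ ((l12 (h n)).mem hv)).2
    have a3 := (a _ ((l22 (h n)).mem hv)).2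
    have p1 := hΛ'.pos n
    have p2 := hΛ.pos n
    have p3 : 0 < |((h n).c₀ v.1.1 : ℝ)| := lt_of_lt_of_le (by positivity) a1
    rw [div_le_iff₀ p1] at a1
    simp only [tt, om]
    rw [abs_div, div_le_iff₀ p3]
    nlinarith [abs_sub ((h n).c₁ v.1.2 : ℝ) ((h n).c₁ v.2.2)]
  have c1 : Sm M fun n => cst (z n).P (z n).b (-1) :=
    gr.dbl.of2 sb (Eventually.of_forall fun n => by
      rw [cst_neg_one]; simp only [sh, ← sub_eq_add_neg]; linarith)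
  have mn : Sm M fun n => (Q3 (h n)).E fun v => cst (z n).P (z n).b (tt (om (h n) v)) :=
    (c1.smul (c := 6) (by norm_num)).of6 (big.sm 2) ub f4 (uc.smul zero_le_three)
      ((hL.add (big.sub one_le_two) big).log.smul (c := 9) (by norm_num)) (bt.mono fun n a => by
        linarith [mean (hx.ok n) a, cond (hx.ok n)])
  obtain ⟨L, sL, wL⟩ := ks.wsub (fun n => Q3 (h n))
    (fun n v l => cst (z n).P (z n).b (tt (om (h n) v)) ≤ Real.log l) M fun c hc _ => by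
      simp only [Real.log_exp]
      exact ks.mark _ _ M c big hc (Eventually.of_forall fun n v _ => kc9.nonneg _ _ _ _) mn
  obtain ⟨s, x2, w2, ex⟩ := fx _ M _ x1 wL
  refine ⟨fun n => { Tr.fix _ (s n) with P := cE (Tr.fix _ (s n)).P _ }, fun n => (s n).1.2,
    fun n => (s n).1.1, cl.cond _ M _ x2 w2.pos, ⟨_, hΛ.mul hΛ', ?_⟩, _, hL.mul sL, ?_⟩
  · filter_upwards [ex, vc] with n ⟨ω, h1, h2⟩ a
    have a1 := (a _ ((l11 (h n)).mem h1)).1
    have p1 := hΛ'.1 n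
    have p2 := hΛ.1 n
    rw [← h2]
    have p3 : Λ' n ≤ Λ n * Λ' n := by nlinarith
    have p4 : Λ n ≤ Λ n * Λ' n := by nlinarith
    exact ⟨le_trans (div_le_div_of_nonneg_left (by positivity) (by positivity) p3) a1.1,
      a1.2.trans (mul_le_mul_of_nonneg_right p4 (by positivity))⟩
  · filter_upwards [ex, bt, w2.pos.sure] with n e a d t ⟨ω, h1, h2⟩
    obtain ⟨h3, h4⟩ := d ω h1
    obtain ⟨h5, h6⟩ := (mem_cE e ω).1 h3
    have h7 : t = tt (om (h n) ω) := by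
      have e1 : (h n).c₀ ω.1.1 = (s n).1.1 := congrArg (fun t => t.1.1) h6
      have e2 : (h n).c₁ ω.2.2 = (s n).1.2 := congrArg (fun t => t.1.2) h6
      simp only [tt, om, e1, e2]
      exact h2
    have p1 := hL.1 n
    have p2 := sL.1 n
    rw [h7]
    exact ⟨(a ω h5).trans (by nlinarith), h4.trans (Real.log_le_log (by linarith) (by nlinarith))⟩

end Pool.Agent.MP_5168f5_an.MX.AB
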