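import Pool.Agent.MP_5168f5_an.MX.ABApi

/-! Row ND: extremal systems are not concentrated. -/

namespace Pool.Agent.MP_5168f5_an.MX.AB

open H19 H17S H17F Filter

namespace ABNdA

/-- Both entropies have rate at most `x`. -/
theorem ent (cv : CV) {x : ℝ} {z : ℕ → Tr} {M : ℕ → ℕ} (h0 : 0 ≤ x) (h : Cls x z M) :
    Le M (fun n => (z n).hb) (fun n => x * M n * lg) ∧
      Le M (fun n => (z n).hc) fun n => x * M n * lg := by
  obtain ⟨Λ, hΛ, hb, hi⟩ := h.bd
  exact ⟨cv.ent _ _ _ (fun n => (z n).θ) (fun n => (z n).b) (fun n t => ((z n).Lb t).S 1) M Λ x h0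
      h.big hΛ (hb.mono fun n a ω hω => (a ω hω).1) fun ε hε => (hi.and (h.cov 1 ε hε)).mono
        (Eventually.of_forall fun _ _ _ e => ⟨e.1.2.1, e.2.2.1⟩),
    cv.ent _ _ _ (fun n => (z n).θ) (fun n => (z n).c) (fun n t => ((z n).Lc t).S 1) M Λ x h0
      h.big hΛ (hb.mono fun n a ω hω => (a ω hω).2) fun ε hε => (hi.and (h.cov 1 ε hε)).mono
        (Eventually.of_forall fun _ _ _ e => ⟨e.1.2.2, e.2.2.2⟩)⟩

/-- A variable with positive rate on every event of every extension is not concentrated. -/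
theorem nd {Ω : ℕ → Type} {P : ∀ n, FP (Ω n)} {ψ : ∀ n, Ω n → ℤ} {M : ℕ → ℕ} {r : ℝ} (hr : 0 < r)
    (hM : Big M) (h : ∀ (Ω' : ℕ → Type) (G : ∀ n, FP (Ω' n × Ω n)) (E : ∀ n, Ω' n × Ω n → Prop),
      (∀ n, Law (G n) Prod.snd (P n) id) → Pos G E →
      Rate (fun n => cE (G n) (E n)) (fun n v => ψ n v.2) (fun _ _ => ()) M r) : ND P ψ M := by
  intro Ω' K Q b W y j hl hy hs hj
  by_contra hn
  have hE := not_whp hn
  generalize hD : (fun n v => ¬(2 : ℝ) ^ (M n - j n) ≤ |b n v - y n v|) = E at hE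
  have hG : Pos (fun n => glue (Q n) (P n) (b n) (ψ n)) fun n v => E n v.1 :=
    hE.imp fun κ a => ⟨a.1, a.2.mono fun n e => e.trans ((kg.fst _ _ _ _).pb_eq (E n)).ge⟩
  have h1 := (h _ _ _ (fun n => kg.snd _ _ _ _ (hl n)) hG j hj.1).1
  have h2 : ∀ n, ch (cE (glue (Q n) (P n) (b n) (ψ n)) fun v => E n v.1)
      (fun v => dn (M n - j n) (ψ n v.2)) (fun _ => ()) =
      hh (cE (Q n) (E n)) fun v => dn (M n - j n) (b n v) := fun n => by
    refine (ch_ext (fun v hv => ?_) fun _ _ => rfl).trans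
      (((ke.law _ _ _ id (E n) (kg.fst (Q n) (P n) (b n) (ψ n))).ch_id _ fun _ => ()).trans
        (ch_unit _))
    rw [((kg.mem _ _ _ _ v (hl n)).1 (cE_sub hv)).2.2]
  have h3 : Sm M fun n => ch (cE (Q n) (E n)) (fun v => dn (M n - j n) (b n v)) (W n) :=
    sm_dn hM (hM.sub one_le_two) (hE.sure.mono fun n a u hu v hv e => by
      obtain ⟨u1, u2⟩ := a u hu
      obtain ⟨v1, v2⟩ := a v hv
      subst hD
      rw [not_le, abs_lt] at u2 v2
      rw [hy n u u1 v v1 e] at u2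
      rw [abs_le]
      constructor <;> linarith [u2.1, u2.2, v2.1, v2.2])
  have h4 : Sm M fun n => mi (cE (Q n) (E n)) (fun v => dn (M n - j n) (b n v)) (W n)
      fun _ => () := by
    obtain ⟨κ, hκ, hp⟩ := hE
    refine Le.of_mul hκ hp (Le.of2 hs (hM.sm lg) (Eventually.of_forall fun n => ?_))
    have a1 := mi_cE (Q n) (E n) (fun v => dn (M n - j n) (b n v)) (W n) fun _ => ()
    have a2 : mi (Q n) (fun v => dn (M n - j n) (b n v)) (W n) (fun _ => ()) ≤
        mi (Q n) (b n) (W n) fun _ => () :=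
      mi_mono' ((Fn.comp (fun t : ℤ => dn (M n - j n) t) (b n)).left _)
    rw [mi_unit (b n)] at a2
    linarith
  obtain ⟨-, c, hc, hj⟩ := hj
  have k := mul_pos hr lg_pos
  refine (Le.of3 (f := fun n => r * j n * lg) (g := fun _ => 0) h1 h3 h4
    (Eventually.of_forall fun n => ?_)).false hM (mul_pos k hc) (hj.mono fun n a => ?_)
  · rw [h2, mi_unit]
    linarith
  · nlinarith

end ABNdA

theorem rowNd : SNd := by
  intro cv x Sg be h0 hx top cl reg z M xt
  have hM : Big M := xt.cls.big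
  obtain ⟨eb, ec⟩ := ABNdA.ent cv h0 xt.cls
  have h1 : be * lg ≤ x * lg :=
    Le.num hM (Le.of2 xt.fst eb (Eventually.of_forall fun n => by linarith))
  have h2 : (Sg - be) * lg ≤ x * lg := Le.num hM
    (Le.of3 xt.sum (top.fst _ M xt.cls xt.sum) ec (Eventually.of_forall fun n => by linarith))
  have h1 := le_of_mul_le_mul_right h1 lg_pos
  have h2 := le_of_mul_le_mul_right h2 lg_pos
  have key := fun (Ω' : ℕ → Type) (G : ∀ n, FP (Ω' n × (z n).Ω))
      (E : ∀ n, Ω' n × (z n).Ω → Prop) (hG : ∀ n, Law (G n) Prod.snd (z n).P id) (hE : Pos G E) =>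
    reg _ M (cl.cond (fun n => (z n).tr.law (G n) (fun v => (z n).b v.2) (fun v => (z n).c v.2)
      fun _ => ()) M E (cl.law (fun n => (z n).tr) M _ G _ _ _ xt
      fun n => (hG n).comp fun ω => ((z n).b ω, (z n).c ω, ())) hE)
  exact ⟨⟨h1, h2⟩, ABNdA.nd (by linarith) hM fun Ω' G E a b => (key Ω' G E a b).1,
    ABNdA.nd (by linarith) hM fun Ω' G E a b => (key Ω' G E a b).2⟩

end Pool.Agent.MP_5168f5_an.MX.AB
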