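import Pool.Agent.MP_5168f5_an.MX.ABApi

/-! Extremal systems have the same rate at all resolutions. -/

namespace Pool.Agent.MP_5168f5_an.MX.AB

open H19 H17S H17F Filter

namespace ABRegA

theorem split {Ω T : Type} (P : FP Ω) (b : Ω → ℤ) (θ : Ω → T) (i : ℕ) :
    ch P b θ = ch P (fun ω => dn i (b ω)) θ + ch P b fun ω => (dn i (b ω), θ ω) := by
  rw [← ch_chain]
  refine ch_congr (fun u _ v _ e => ?_) (fun u _ v _ e => ?_) (Fn.rfl θ) (Fn.rfl θ)
  · exact congrArg (fun p => p.1.2) e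
  · have : b u = b v := congrArg Prod.fst e
    rw [this]

theorem rate {Ω T : ℕ → Type} {P : ∀ n, FP (Ω n)} {b : ∀ n, Ω n → ℤ} {θ : ∀ n, Ω n → T n}
    {M : ℕ → ℕ} {r : ℝ} {Λ : ℕ → ℝ} (hM : Big M) (hΛ : Sub M Λ)
    (hb : ∀ᶠ n in UF, ∀ ω ∈ (P n).S, |(b n ω : ℝ)| ≤ Λ n * 2 ^ M n)
    (lo : Le M (fun n => r * M n * lg) fun n => ch (P n) (b n) (θ n))
    (up : Le M (fun n => ch (P n) (b n) (θ n)) fun n => r * M n * lg)
    (key : ∀ j k : ℕ → ℕ, (∀ n, j n + k n = M n) → Frac j M → Frac k M →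
      Le M (fun n => r * j n * lg) (fun n => ch (P n) (fun ω => dn (k n) (b n ω)) (θ n)) ∧
      Le M (fun n => ch (P n) (fun ω => dn (k n) (b n ω)) (θ n)) fun n => r * j n * lg) :
    Rate P b θ M r := by
  intro j hj
  have hs : ∀ n, j n + (M n - j n) = M n := fun n => Nat.add_sub_cancel' (hj n)
  rcases frac_or hj with fj | sj
  · rcases frac_or (M' := fun n => M n - j n) (M := M) (fun n => Nat.sub_le _ _) with fk | sk
    · exact key j _ hs fj fk
    · have hB : Le M (fun n => ch (P n) (b n) fun ω => (dn (M n - j n) (b n ω), θ n ω)) fun n =>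
          ((M n - j n : ℕ) : ℝ) * lg :=
        le_int hM (hM.sub le_rfl) (Eventually.of_forall fun n u _ v _ e => by
          rw [one_mul]; exact (abs_sub_of_dn (congrArg Prod.fst e)).le)
      have hc : ∀ n, (M n : ℝ) = j n + ((M n - j n : ℕ) : ℝ) := fun n => by
        exact_mod_cast (hs n).symm
      have h0 : ∀ᶠ n in UF, (0 : ℝ) ≤ ((M n - j n : ℕ) : ℝ) :=
        Eventually.of_forall fun n => Nat.cast_nonneg _
      refine ⟨lo.of3 hB (sk.cmul h0 ((1 - r) * lg)) (Eventually.of_forall fun n => ?_),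
        up.of2 (sk.cmul h0 (r * lg)) (Eventually.of_forall fun n => ?_)⟩
      · rw [split (P n) (b n) (θ n) (M n - j n), hc n]
        simp only [← hc n]
        linarith [congrArg (fun t => r * t * lg) (hc n)]
      · have h1 := split (P n) (b n) (θ n) (M n - j n)
        have h2 := ch_nonneg (P := P n) (b n) fun ω => (dn (M n - j n) (b n ω), θ n ω)
        linarith [congrArg (fun t => r * t * lg) (hc n)]
  · have h0 : ∀ᶠ n in UF, (0 : ℝ) ≤ (j n : ℝ) := Eventually.of_forall fun n => Nat.cast_nonneg _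
    have hA : Le M (fun n => ch (P n) (fun ω => dn (M n - j n) (b n ω)) (θ n)) fun n =>
        j n * lg :=
      le_dn (y := fun n ω => (b n ω : ℝ)) hM (hΛ.const_mul hM one_le_two)
        (hb.mono fun n a u hu v hv _ => by
          rw [Nat.sub_add_cancel (hj n)]
          have h1 := abs_le.1 (a u hu)
          have h2 := abs_le.1 (a v hv)
          rw [abs_le]; constructor <;> linarith [h1.1, h1.2, h2.1, h2.2])
    refine ⟨(sj.cmul h0 (r * lg)).of_sub (Eventually.of_forall fun n => ?_),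
      hA.of2 (sj.cmul h0 ((1 - r) * lg)) (Eventually.of_forall fun n => by linarith)⟩
    linarith [ch_nonneg (P := P n) (fun ω => dn (M n - j n) (b n ω)) (θ n)]

theorem key {x Sg be : ℝ} (sw : ∀ z M, Cls x z M → Cls x (fun n => (z n).swap) M) (zm : Zoom x)
    (top : Top x Sg be) {z : ℕ → Tr} {M : ℕ → ℕ} (h : Xt x Sg be z M) (j k : ℕ → ℕ)
    (hs : ∀ n, j n + k n = M n) (fj : Frac j M) (fk : Frac k M) :
    (Le M (fun n => be * j n * lg)
        (fun n => ch (z n).P (fun ω => dn (k n) ((z n).b ω)) (z n).θ) ∧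
      Le M (fun n => ch (z n).P (fun ω => dn (k n) ((z n).b ω)) (z n).θ) fun n =>
        be * j n * lg) ∧
    Le M (fun n => (Sg - be) * k n * lg)
        (fun n => ch (z n).P (fun ω => dn (j n) ((z n).c ω)) (z n).θ) ∧
      Le M (fun n => ch (z n).P (fun ω => dn (j n) ((z n).c ω)) (z n).θ) fun n =>
        (Sg - be) * k n * lg := by
  obtain ⟨z₁, c₁, a₁, d₁⟩ := zm z M j h.cls fj
  obtain ⟨z₂, c₂, a₂, d₂⟩ := zm _ M k (sw z M h.cls) fk
  have e₁ : ∀ n, M n - j n = k n := fun n => by have := hs n; omega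
  have e₂ : ∀ n, M n - k n = j n := fun n => by have := hs n; omega
  simp only [e₁] at a₁
  simp only [e₂] at a₂
  have c₃ := sw z₂ k c₂
  have a₃ : Le M (fun n => ch (z n).P (fun ω => dn (j n) ((z n).c ω)) (z n).θ) fun n =>
      (z₂ n).swap.hc := a₂
  have d₃ : Le M (fun n => ch (z n).P (z n).b fun ω => (dn (k n) ((z n).b ω), (z n).θ ω))
      fun n => (z₂ n).swap.hb := d₂
  have s₁ := (top.sum z₁ j c₁).up fj.1
  have s₃ := (top.sum _ k c₃).up fk.1
  have hb : ∀ n, (z n).hb = _ := fun n => split (z n).P (z n).b (z n).θ (k n)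
  have hc : ∀ n, (z n).hc = _ := fun n => split (z n).P (z n).c (z n).θ (j n)
  have hM : ∀ n (t : ℝ), t * M n * lg = t * j n * lg + t * k n * lg := fun n t => by
    rw [← hs n]; push_cast; ring
  have m₁ : Le M (fun n => Sg * j n * lg) fun n => (z₁ n).hb + (z₁ n).hc :=
    h.sum.of6 a₁ d₁ a₃ d₃ s₃ (Eventually.of_forall fun n => by linarith [hb n, hc n, hM n Sg])
  have m₃ : Le M (fun n => Sg * k n * lg) fun n => (z₂ n).swap.hb + (z₂ n).swap.hc :=
    h.sum.of6 a₁ d₁ a₃ d₃ s₁ (Eventually.of_forall fun n => by linarith [hb n, hc n, hM n Sg])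
  have uA := a₁.trans ((top.fst z₁ j c₁ (m₁.frac fj)).up fj.1)
  have uB := d₃.trans ((top.fst _ k c₃ (m₃.frac fk)).up fk.1)
  refine ⟨⟨h.fst.of2 uB (Eventually.of_forall fun n => by linarith [hb n, hM n be]), uA⟩,
    h.sum.of5 a₁ d₁ s₁ uB (Eventually.of_forall fun n => by linarith [hb n, hc n, hM n Sg]),
    h.fst.of5 uA a₃ d₃ s₃ (Eventually.of_forall fun n => by linarith [hb n, hM n be])⟩

end ABRegA

theorem rowReg : SReg := by
  intro x Sg be sw zm top z M h
  obtain ⟨Λ, hΛ, hb, -⟩ := h.cls.bd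
  have s := top.sum z M h.cls
  have f := top.fst z M h.cls h.sum
  exact ⟨ABRegA.rate h.cls.big hΛ (hb.mono fun n a ω w => (a ω w).1) h.fst f
      fun j k hs fj fk => (ABRegA.key sw zm top h j k hs fj fk).1,
    ABRegA.rate h.cls.big hΛ (hb.mono fun n a ω w => (a ω w).2)
      (h.sum.of2 f (Eventually.of_forall fun n => by unfold Tr.hc; linarith))
      (s.of2 h.fst (Eventually.of_forall fun n => by unfold Tr.hc; linarith))
      fun j k hs fj fk =>
        (ABRegA.key sw zm top h k j (fun n => (add_comm _ _).trans (hs n)) fk fj).2⟩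

end Pool.Agent.MP_5168f5_an.MX.AB
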