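import Pool.Agent.MP_5168f5_an.MX.ABApi

/-! Products in an additive family of levels: the top digits of the first variable against the
bottom digits of the second. -/

namespace Pool.Agent.MP_5168f5_an.MX.AB

open H19 H17S H17F Filter

namespace ABZoomA

/-- The data shared by the two copies. -/
noncomputable def ph (z : Tr) (j : ℕ) (ω : z.Ω) : ℤ × ℤ × z.T := (z.b ω, dn j (z.c ω), z.θ ω)

/-- The zoomed system. -/
noncomputable def zm (z : Tr) (M j : ℕ) : Tr where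
  Ω := z.Ω × z.Ω
  T := ℤ × z.T
  P := glue z.P z.P (ph z j) (ph z j)
  θ := fun v => (z.c v.2, z.θ v.2)
  b := fun v => dn (M - j) (z.b v.2)
  c := fun v => z.c v.1 - z.c v.2
  L := fun t => (z.L t.2).tr 2 1
  Lb := fun t => (z.Lb t.2).tr 1 (2 ^ (M - j))
  Lc := fun t => (z.Lc t.2).tr 2 1

variable {z : Tr} {M j : ℕ}

theorem mem {v : z.Ω × z.Ω} (hv : v ∈ (glue z.P z.P (ph z j) (ph z j)).S) :
    v.1 ∈ z.P.S ∧ v.2 ∈ z.P.S ∧ z.b v.2 = z.b v.1 ∧ dn j (z.c v.2) = dn j (z.c v.1) ∧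
      z.θ v.2 = z.θ v.1 := by
  obtain ⟨h1, h2, h3⟩ := (kg.mem z.P z.P (ph z j) (ph z j) v (Law.rfl _)).1 hv
  simp only [ph, Prod.mk.injEq] at h3
  exact ⟨h1, h2, h3⟩

theorem lfst (z : Tr) (j : ℕ) : Law (glue z.P z.P (ph z j) (ph z j)) Prod.fst z.P id :=
  kg.fst _ _ _ _

theorem lsnd (z : Tr) (j : ℕ) : Law (glue z.P z.P (ph z j) (ph z j)) Prod.snd z.P id :=
  kg.snd _ _ _ _ (Law.rfl _)

theorem abs_c {v : z.Ω × z.Ω} (hv : v ∈ (glue z.P z.P (ph z j) (ph z j)).S) :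
    |(z.c v.1 : ℝ) - z.c v.2| ≤ 2 ^ j := (abs_sub_of_dn (mem hv).2.2.2.1.symm).le

theorem bd {Λ : ℝ} (hΛ : 1 ≤ Λ) (hj : j ≤ M)
    (h : ∀ ω ∈ z.P.S, |(z.b ω : ℝ)| ≤ Λ * 2 ^ M ∧ |(z.c ω : ℝ)| ≤ Λ * 2 ^ M) :
    ∀ v ∈ (zm z M j).P.S, |((zm z M j).b v : ℝ)| ≤ (2 * Λ + 1) * 2 ^ j ∧
      |((zm z M j).c v : ℝ)| ≤ (2 * Λ + 1) * 2 ^ j := by
  intro v hv
  have h1 : (1 : ℝ) ≤ 2 ^ j := one_le_pow₀ (by norm_num)
  have h2 : (0 : ℝ) < 2 ^ (M - j) := by positivity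
  constructor
  · have a := abs_dn (M - j) (z.b v.2)
    have b := (h _ (mem hv).2.1).1
    have e : (2 : ℝ) ^ M = 2 ^ j * 2 ^ (M - j) := by rw [← pow_add]; congr 1; omega
    have c : |(z.b v.2 : ℝ) / 2 ^ (M - j)| ≤ Λ * 2 ^ j := by
      rw [abs_div, abs_of_pos h2, div_le_iff₀ h2, mul_assoc, ← e]; exact b
    show |((dn (M - j) (z.b v.2) : ℤ) : ℝ)| ≤ _
    have d := abs_le.1 a
    have f := abs_le.1 c
    rw [abs_le]; constructor <;> nlinarith [d.1, d.2, f.1, f.2]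
  · show |((z.c v.1 - z.c v.2 : ℤ) : ℝ)| ≤ _
    push_cast
    exact (abs_c hv).trans (by nlinarith)

theorem sub_mem (L : Lv) {a a' : ℝ} (h : a ∈ L.S 1) (h' : a' ∈ L.S 1) :
    a - a' ∈ (L.tr 2 1).S 1 := by
  have := L.add 1 1 a (-a') h (L.neg _ _ h')
  simpa [Lv.tr, sub_eq_add_neg] using this

theorem inn {Λ : ℝ} (hΛ : 1 ≤ Λ) (hj : j ≤ M) {v : z.Ω × z.Ω} (hv : v ∈ (zm z M j).P.S)
    (h₁ : z.In M Λ v.1) (h₂ : z.In M Λ v.2) : (zm z M j).In j (2 * Λ + 1) v := by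
  obtain ⟨-, -, eb, -, eθ⟩ := mem hv
  obtain ⟨⟨a₁, m₁, k₁⟩, -, ⟨c₁, n₁, l₁⟩⟩ := h₁
  obtain ⟨⟨a₂, m₂, k₂⟩, ⟨b₂, p₂, q₂⟩, ⟨c₂, n₂, l₂⟩⟩ := h₂
  rw [← eθ] at m₁ n₁
  rw [← eb] at k₁
  have h1 : (0 : ℝ) < 2 ^ j := by positivity
  have h2 : (0 : ℝ) < 2 ^ (M - j) := by positivity
  have h3 : (1 : ℝ) ≤ 2 ^ (M - j) := one_le_pow₀ (by norm_num)
  have e : (2 : ℝ) ^ M = 2 ^ j * 2 ^ (M - j) := by rw [← pow_add]; congr 1; omega
  have a := abs_dn (M - j) (z.b v.2)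
  refine ⟨⟨a₁ - a₂, sub_mem _ m₁ m₂, ?_⟩, ⟨b₂ / 2 ^ (M - j), ?_, ?_⟩,
    ⟨c₁ - c₂, sub_mem _ n₁ n₂, ?_⟩⟩
  · show |((dn (M - j) (z.b v.2) : ℤ) : ℝ) * ((z.c v.1 - z.c v.2 : ℤ) : ℝ) / 2 ^ j - (a₁ - a₂)| ≤ _
    push_cast
    have c : |((z.c v.1 : ℝ) - z.c v.2) / 2 ^ j| ≤ 1 := by
      rw [abs_div, abs_of_pos h1, div_le_one h1]; exact abs_c hv
    have d : |((z.b v.2 : ℝ) / 2 ^ (M - j) - dn (M - j) (z.b v.2)) *
        (((z.c v.1 : ℝ) - z.c v.2) / 2 ^ j)| ≤ 1 := by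
      rw [abs_mul]; exact mul_le_one₀ a (abs_nonneg _) c
    have f : ((dn (M - j) (z.b v.2) : ℤ) : ℝ) * ((z.c v.1 : ℝ) - z.c v.2) / 2 ^ j - (a₁ - a₂) =
        ((z.b v.2 : ℝ) * z.c v.1 / 2 ^ M - a₁) - ((z.b v.2 : ℝ) * z.c v.2 / 2 ^ M - a₂) -
          ((z.b v.2 : ℝ) / 2 ^ (M - j) - dn (M - j) (z.b v.2)) *
            (((z.c v.1 : ℝ) - z.c v.2) / 2 ^ j) := by
      rw [e]; field_simp; ring
    rw [f]
    have u := abs_le.1 k₁
    have w := abs_le.1 k₂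
    have y := abs_le.1 d
    rw [abs_le]; constructor <;> linarith [u.1, u.2, w.1, w.2, y.1, y.2]
  · show 2 ^ (M - j) * (b₂ / 2 ^ (M - j)) ∈ (z.Lb (z.θ v.2)).S (1 * 1)
    rw [mul_div_cancel₀ _ h2.ne']; exact p₂
  · show |((dn (M - j) (z.b v.2) : ℤ) : ℝ) - b₂ / 2 ^ (M - j)| ≤ _
    have c : |(z.b v.2 : ℝ) / 2 ^ (M - j) - b₂ / 2 ^ (M - j)| ≤ Λ := by
      rw [← sub_div, abs_div, abs_of_pos h2, div_le_iff₀ h2]
      exact q₂.trans (by nlinarith)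
    have u := abs_le.1 a
    have w := abs_le.1 c
    rw [abs_le]; constructor <;> linarith [u.1, u.2, w.1, w.2]
  · show |((z.c v.1 - z.c v.2 : ℤ) : ℝ) - (c₁ - c₂)| ≤ _
    push_cast
    have u := abs_le.1 l₁
    have w := abs_le.1 l₂
    rw [abs_le]; constructor <;> linarith [u.1, u.2, w.1, w.2]

theorem cov (cv : CV) {x e e' : ℝ} {q : ℕ} (hj : j ≤ M) (he : e ≤ e') {v : z.Ω × z.Ω}
    (h₁ : z.Cv x M q e v.2) (h₂ : z.Cv x M (2 * q) e v.2) : (zm z M j).Cv x j q e' v := by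
  refine ⟨cv.mono _ _ x e e' M j h₂.1 (fun y hy => ?_) hj he, ?_,
    cv.mono _ _ x e e' M j h₂.2.2 (fun y hy => ?_) hj he⟩
  · simpa [zm, Lv.tr] using hy
  · refine cv.mono _ _ x e e' _ j (cv.pow _ x e M (M - j) h₁.2.1 (Nat.sub_le _ _))
      (fun y hy => ?_) (by omega) he
    simpa [zm, Lv.tr] using hy
  · simpa [zm, Lv.tr] using hy

/-- The first copy given the second. -/
theorem e1 (z : Tr) (j : ℕ) :
    ch (glue z.P z.P (ph z j) (ph z j)) (fun v => z.c v.1)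
      (fun v => ((z.b v.2, z.c v.2, z.θ v.2), ())) = ch z.P z.c fun ω => (ph z j ω, ()) :=
  kg.mkv' z.P z.P (ph z j) (ph z j) z.c (fun _ => ()) (fun y => (z.b y, z.c y, z.θ y)) (Law.rfl _)
    fun a _ b _ e => by
      simp only [Prod.mk.injEq] at e
      simp only [ph, e.1, e.2.1, e.2.2]

theorem e2 (z : Tr) (j : ℕ) :
    ch z.P z.c (fun ω => (dn j (z.c ω), z.θ ω)) ≤
      ch z.P z.c (fun ω => (ph z j ω, ())) + mi z.P z.b z.c z.θ := by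
  have h1 : mi z.P z.b z.c (fun ω => (dn j (z.c ω), z.θ ω)) ≤ mi z.P z.b z.c z.θ :=
    mi_cond (Fn.snd _ _) fun a _ b _ e => by
      simp only [Prod.mk.injEq] at e
      simp only [e.1, e.2]
  rw [mi_symm] at h1
  refine (ch_le_mi (G := z.b) fun a _ b _ e => ?_).trans (add_le_add le_rfl h1)
  simp only [Prod.mk.injEq] at e
  simp only [ph, e.1, e.2.1, e.2.2]

theorem e3 (z : Tr) (M j : ℕ) : ch z.P z.c (fun ω => (ph z j ω, ())) ≤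
    ch (zm z M j).P (zm z M j).c fun v => ((zm z M j).b v, (zm z M j).θ v) := by
  rw [← e1]
  refine ch_le (fun a _ b _ e => ?_) fun a _ b _ e => ?_
  · simp only [zm, Prod.mk.injEq] at e
    have := e.1
    rw [e.2.1.2.1] at this
    exact sub_left_injective this
  · simp only [Prod.mk.injEq] at e
    simp only [zm, e.1.1, e.1.2.1, e.1.2.2]

theorem e4 (z : Tr) (M j : ℕ) :
    (zm z M j).hc ≤ ch z.P z.c fun ω => (dn j (z.c ω), z.θ ω) := by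
  rw [← (lfst z j).ch_id z.c fun ω => (dn j (z.c ω), z.θ ω)]
  refine ch_le (fun a _ b _ e => ?_) fun a ha b hb e => ?_
  · simp only [zm, Prod.mk.injEq] at e ⊢
    rw [e.1, e.2.1]
  · simp only [zm, Prod.mk.injEq] at e ⊢
    rw [← (mem ha).2.2.2.1, ← (mem hb).2.2.2.1, ← (mem ha).2.2.2.2, ← (mem hb).2.2.2.2, e.1, e.2]
    exact ⟨rfl, rfl⟩

theorem inf (z : Tr) (M j : ℕ) :
    mi (zm z M j).P (zm z M j).b (zm z M j).c (zm z M j).θ ≤ mi z.P z.b z.c z.θ := by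
  rw [mi_symm]
  have h2 := e2 z j
  have h3 := e3 z M j
  have h4 := e4 z M j
  unfold Tr.hc at h4
  unfold mi at h2 ⊢
  linarith

theorem hc (z : Tr) (M j : ℕ) :
    ch z.P z.c (fun ω => (dn j (z.c ω), z.θ ω)) ≤ (zm z M j).hc + mi z.P z.b z.c z.θ :=
  (e2 z j).trans (add_le_add ((e3 z M j).trans (ch_anti (Fn.snd _ _))) le_rfl)

theorem hb (z : Tr) (M j : ℕ) :
    ch z.P (fun ω => dn (M - j) (z.b ω)) z.θ ≤ (zm z M j).hb + mi z.P z.b z.c z.θ := by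
  have h1 : (zm z M j).hb = ch z.P (fun ω => dn (M - j) (z.b ω)) fun ω => (z.c ω, z.θ ω) :=
    (lsnd z j).ch_id (fun ω => dn (M - j) (z.b ω)) fun ω => (z.c ω, z.θ ω)
  rw [h1]
  refine (ch_le_mi (G := z.c) (Fn.rfl _)).trans (add_le_add le_rfl (mi_mono' ?_))
  exact fun a _ b _ e => by
    simp only [Prod.mk.injEq] at e
    simp only [e.1]

theorem whp1 {z : ℕ → Tr} {E : ∀ n, (z n).Ω → Prop} (M j : ℕ → ℕ)
    (h : Whp (fun n => (z n).P) E) :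
    Whp (fun n => (zm (z n) (M n) (j n)).P) fun n v => E n v.1 := fun ε hε =>
  (h ε hε).mono fun n a => ((lfst (z n) (j n)).pb_eq fun ω => ¬E n ω).trans_le a

theorem whp2 {z : ℕ → Tr} {E : ∀ n, (z n).Ω → Prop} (M j : ℕ → ℕ)
    (h : Whp (fun n => (z n).P) E) :
    Whp (fun n => (zm (z n) (M n) (j n)).P) fun n v => E n v.2 := fun ε hε =>
  (h ε hε).mono fun n a => ((lsnd (z n) (j n)).pb_eq fun ω => ¬E n ω).trans_le a

end ABZoomA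

open ABZoomA in
theorem rowZoom : SZoom := by
  intro cv x z M j hz hj
  have big := hz.big.frac hj
  obtain ⟨Λ, hΛ, hb1, hb2⟩ := hz.bd
  refine ⟨fun n => zm (z n) (M n) (j n), ⟨big, ⟨fun n => 2 * Λ n + 1, ?_, ?_, ?_⟩, ?_, ?_⟩, ?_, ?_⟩
  · exact (((hΛ.frac hj).const_mul big one_le_two).add (big.sub le_rfl) big)
  · exact hb1.mono fun n a => bd (hΛ.1 n) (hj.1 n) a
  · exact ((whp1 M j hb2).and (whp2 M j hb2)).mono (Eventually.of_forall fun n v hv k =>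
      inn (hΛ.1 n) (hj.1 n) hv k.1 k.2)
  · exact Sm.mono (Le.frac hz.inf hj) (Eventually.of_forall fun n => inf _ _ _)
  · intro q ε hε
    obtain ⟨h1, c, hc, h2⟩ := hj
    refine ((whp2 M j (hz.cov q (ε * c) (by positivity))).and
      (whp2 M j (hz.cov (2 * q) (ε * c) (by positivity)))).mono (h2.mono fun n a v _ k => ?_)
    exact cov cv (h1 n) (by nlinarith) k.1 k.2
  · exact Le.of_sub hz.inf (Eventually.of_forall fun n => by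
      linarith [hb (z n) (M n) (j n)])
  · exact Le.of_sub hz.inf (Eventually.of_forall fun n => by
      linarith [hc (z n) (M n) (j n)])

end Pool.Agent.MP_5168f5_an.MX.AB
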