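import Pool.Agent.MP_5168f5_an.MX.ABCov
import Pool.Agent.MP_5168f5_an.MX.ABClo
import Pool.Agent.MP_5168f5_an.MX.ABDiag
import Pool.Agent.MP_5168f5_an.MX.ABZoom
import Pool.Agent.MP_5168f5_an.MX.ABReg
import Pool.Agent.MP_5168f5_an.MX.ABNd
import Pool.Agent.MP_5168f5_an.MX.ABFix
import Pool.Agent.MP_5168f5_an.MX.ABGrp
import Pool.Agent.MP_5168f5_an.MX.ABHex
import Pool.Agent.MP_5168f5_an.MX.ABDys
import Pool.Agent.MP_5168f5_an.MX.ABMult
import Pool.Agent.MP_5168f5_an.MX.ABBnd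
import Pool.Agent.MP_5168f5_an.MX.ABEnd

/-! The bound for products in an additive family of levels. -/

namespace Pool.Agent.MP_5168f5_an.MX.AB

theorem abc : ABC :=
  glueAB rowCV rowClo rowXl rowDiag rowZoom rowReg rowNd rowFix rowGrp rowHex rowDys rowMult
    rowBnd rowRg rowEnd

end Pool.Agent.MP_5168f5_an.MX.AB
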