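import Pool.Agent.MP_5168f5_an.H17F.Sq2

/-! A sum-product bound for two almost independent real variables: definitions and steps. -/

namespace Pool.Agent.MP_5168f5_an.MX

open H19 H17S H17F Filter

/-- Signed sums of at most `q` elements of `A`. -/
def lev (A : Set ℝ) : ℕ → Set ℝ
  | 0 => {0}
  | q + 1 => {x | ∃ y ∈ lev A q, x - y ∈ A ∨ y - x ∈ A ∨ x = y}

/-- The part of `A` in `[-r, r]` is covered by at most `B` intervals of radius `ρ`. -/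
def Cov (A : Set ℝ) (r ρ B : ℝ) : Prop :=
  ∃ T : Finset ℝ, (T.card : ℝ) ≤ B ∧ ∀ u ∈ A, |u| ≤ r → ∃ t ∈ T, |u - t| ≤ ρ

/-- All levels of `A` have rate at most `x` in all windows. -/
def Reg (x : ℝ) (M : ℕ → ℕ) (A : ℕ → Set ℝ) : Prop :=
  ∀ (q : ℕ) (ε : ℝ), 0 < ε → ∀ᶠ n in UF, ∀ i j : ℕ, i ≤ j → j ≤ M n →
    Cov (lev (A n) q) (2 ^ i)⁻¹ (2 ^ j)⁻¹ (Real.exp (x * (j - i) * lg + ε * M n))

section One

variable {Ω Ω' : Type}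

/-- The values of `f`. -/
def im (P : FP Ω) (f : Ω → ℝ) : Set ℝ := {y | ∃ ω ∈ P.S, f ω = y}

/-- Entropy at resolution `2^{-j}`. -/
noncomputable def H1 (P : FP Ω) (j : ℕ) (f : Ω → ℝ) : ℝ := hh P fun ω => fl1 j (f ω)

/-- Conditional entropy at resolution `2^{-j}`. -/
noncomputable def C1 {κ : Type} (P : FP Ω) (j : ℕ) (f : Ω → ℝ) (K : Ω → κ) : ℝ :=
  ch P (fun ω => fl1 j (f ω)) K

/-- An integer in units `2^{-m}`. -/
noncomputable def rl (m : ℕ) (u : ℤ) : ℝ := u / 2 ^ m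

/-- Entropy added to `Y` by the independent shift `s`. -/
noncomputable def sh (P : FP Ω) (Y : Ω → ℤ) (Q : FP Ω') (s : Ω' → ℤ) : ℝ :=
  hh (prod P Q) (fun v => Y v.1 + s v.2) - hh P Y

/-- The cost of the multiplier `t`. -/
noncomputable def cst (P : FP Ω) (Y : Ω → ℤ) (t : ℝ) : ℝ := sh P Y P fun ω => ⌊t * Y ω⌋

end One

section Seq

variable {Ω κ : ℕ → Type}

/-- `|f| ≤ exp (o(M))`. -/
def Bd (M : ℕ → ℕ) (P : ∀ n, FP (Ω n)) (f : ∀ n, Ω n → ℝ) : Prop :=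
  ∃ L, Sub M L ∧ ∀ᶠ n in UF, ∀ ω ∈ (P n).S, |f n ω| ≤ L n

/-- `|f| ≥ exp (-o(M))`. -/
def Un (M : ℕ → ℕ) (P : ∀ n, FP (Ω n)) (f : ∀ n, Ω n → ℝ) : Prop :=
  ∃ L, Sub M L ∧ ∀ᶠ n in UF, ∀ ω ∈ (P n).S, 1 ≤ L n * |f n ω|

/-- The same with high probability. -/
def Uw (M : ℕ → ℕ) (P : ∀ n, FP (Ω n)) (f : ∀ n, Ω n → ℝ) : Prop :=
  ∃ L, Sub M L ∧ Whp P fun n ω => 1 ≤ L n * |f n ω|

/-- The class without the condition on the values of `c`. -/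
structure Half (x : ℝ) (M : ℕ → ℕ) (P : ∀ n, FP (Ω n)) (b c : ∀ n, Ω n → ℝ) : Prop where
  big : Big M
  bb : Bd M P b
  bc : Bd M P c
  inf : Sm M fun n => mi (P n) (b n) (c n) fun _ => ()
  rb : Reg x M fun n => im (P n) (b n)
  rp : Reg x M fun n => im (P n) fun ω => b n ω * c n ω

/-- The class of pairs. -/
structure Mem (x : ℝ) (M : ℕ → ℕ) (P : ∀ n, FP (Ω n)) (b c : ∀ n, Ω n → ℝ) : Prop
    extends Half x M P b c where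
  rc : Reg x M fun n => im (P n) (c n)

/-- The class of pairs with side information `K`. -/
structure MemK (x : ℝ) (M : ℕ → ℕ) (P : ∀ n, FP (Ω n)) (b c : ∀ n, Ω n → ℝ)
    (K : ∀ n, Ω n → κ n) : Prop where
  big : Big M
  bb : Bd M P b
  bc : Bd M P c
  inf : Sm M fun n => mi (P n) (b n) (c n) (K n)
  reg : ∀ ω : ∀ n, Ω n, (∀ n, ω n ∈ (P n).S) →
    Reg x M (fun n => im (cv (P n) (K n) (K n (ω n))) (b n)) ∧
    Reg x M (fun n => im (cv (P n) (K n) (K n (ω n))) (c n)) ∧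
    Reg x M fun n => im (cv (P n) (K n) (K n (ω n))) fun a => b n a * c n a

/-- `S` bounds the sum of the rates, and `β` the first rate when the sum is `S`. -/
structure Top (x S β : ℝ) : Prop where
  sum : ∀ (Ω : ℕ → Type) (P : ∀ n, FP (Ω n)) (b c : ∀ n, Ω n → ℝ) (M : ℕ → ℕ), Mem x M P b c →
    Le M (fun n => H1 (P n) (M n) (b n) + H1 (P n) (M n) (c n)) fun n => S * M n * lg
  fst : ∀ (Ω : ℕ → Type) (P : ∀ n, FP (Ω n)) (b c : ∀ n, Ω n → ℝ) (M : ℕ → ℕ), Mem x M P b c →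
    Le M (fun n => S * M n * lg) (fun n => H1 (P n) (M n) (b n) + H1 (P n) (M n) (c n)) →
    Le M (fun n => H1 (P n) (M n) (b n)) fun n => β * M n * lg

/-- An extremal pair. -/
structure Xt (x S β : ℝ) (M : ℕ → ℕ) (P : ∀ n, FP (Ω n)) (b c : ∀ n, Ω n → ℝ) : Prop
    extends Mem x M P b c where
  lb : Le M (fun n => β * M n * lg) fun n => H1 (P n) (M n) (b n)
  lc : Le M (fun n => (S - β) * M n * lg) fun n => H1 (P n) (M n) (c n)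

/-- `c` is far from every almost independent variable. -/
def ND (M : ℕ → ℕ) (P : ∀ n, FP (Ω n)) (c : ∀ n, Ω n → ℝ) : Prop :=
  ∀ (Ω' : ℕ → Type) (Q : ∀ n, FP (Ω' n)) (c' z : ∀ n, Ω' n → ℝ),
    (∀ᶠ n in UF, Law (Q n) (c' n) (P n) (c n)) →
    Sm M (fun n => mi (Q n) (c' n) (z n) fun _ => ()) → Uw M Q fun n ω => c' n ω - z n ω

/-- Rate at least `γ` at every resolution. -/
def Prof (γ : ℝ) (M : ℕ → ℕ) (P : ∀ n, FP (Ω n)) (c : ∀ n, Ω n → ℝ) : Prop :=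
  ∀ j : ℕ → ℕ, (∀ n, j n ≤ M n) → Le M (fun n => γ * j n * lg) fun n => H1 (P n) (j n) (c n)

/-- An extremal pair on the grid, with unit values, whose first variable is almost a group. -/
structure Nice (x S β : ℝ) (M : ℕ → ℕ) (P : ∀ n, FP (Ω n)) (B C : ∀ n, Ω n → ℤ) : Prop where
  xt : Xt x S β M P (fun n ω => rl (M n) (B n ω)) fun n ω => rl (M n) (C n ω)
  ub : Un M P fun n ω => rl (M n) (B n ω)
  uc : Un M P fun n ω => rl (M n) (C n ω)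
  add : Sm M fun n => cst (P n) (B n) 1
  sub : Sm M fun n => cst (P n) (B n) (-1)

variable {Ω' : ℕ → Type}

/-- All values of `t` are bounded multipliers of small cost. -/
structure Chp (M : ℕ → ℕ) (P : ∀ n, FP (Ω n)) (Y : ∀ n, Ω n → ℤ) (R : ∀ n, FP (Ω' n))
    (t : ∀ n, Ω' n → ℝ) : Prop where
  bd : Bd M R t
  cost : ∀ ε : ℝ, 0 < ε → ∀ᶠ n in UF, ∀ ω ∈ (R n).S, cst (P n) (Y n) (t n ω) ≤ ε * M n

/-- Every random multiplier of small cost has rate at most `γ`. -/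
def Bnd (γ : ℝ) (M : ℕ → ℕ) (P : ∀ n, FP (Ω n)) (Y : ∀ n, Ω n → ℤ) : Prop :=
  ∀ (Ω' : ℕ → Type) (R : ∀ n, FP (Ω' n)) (τ : ∀ n, Ω' n → ℝ), Chp M P Y R τ →
    Le M (fun n => H1 (R n) (M n) (τ n)) fun n => γ * M n * lg

end Seq

/-! ### The steps -/

/-- The rules for costs. -/
structure KC (C : ℝ) : Prop where
  nonneg : ∀ {Ω Ω' : Type} (P : FP Ω) (Y : Ω → ℤ) (Q : FP Ω') (s : Ω' → ℤ), 0 ≤ sh P Y Q s
  ge : ∀ {Ω Ω' : Type} (P : FP Ω) (Y : Ω → ℤ) (Q : FP Ω') (s : Ω' → ℤ),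
    hh Q s ≤ hh P Y + sh P Y Q s
  law : ∀ {Ω Ω' Ω'' : Type} (P : FP Ω) (Y : Ω → ℤ) (Q : FP Ω') (s : Ω' → ℤ) (Q' : FP Ω'')
    (s' : Ω'' → ℤ), Law Q s Q' s' → sh P Y Q s = sh P Y Q' s'
  add : ∀ {Ω Ω' : Type} (P : FP Ω) (Y : Ω → ℤ) (Q : FP Ω') (s s' : Ω' → ℤ),
    sh P Y Q (fun ω => s ω + s' ω) ≤ sh P Y Q s + sh P Y Q s' + cst P Y (-1)
  near : ∀ {Ω Ω' : Type} (P : FP Ω) (Y : Ω → ℤ) (Q : FP Ω') (s s' : Ω' → ℤ) (L : ℝ), 0 ≤ L →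
    (∀ ω ∈ Q.S, |(s ω : ℝ) - s' ω| ≤ L) → sh P Y Q s ≤ sh P Y Q s' + Real.log (2 * L + 3)
  cnd : ∀ {Ω Ω' κ : Type} (P : FP Ω) (Y : Ω → ℤ) (Q : FP Ω') (K : Ω' → κ) (s : κ → Ω' → ℤ),
    Q.E (fun ω => sh P Y (cv Q K (K ω)) (s (K ω))) ≤ sh P Y Q fun ω => s (K ω) ω
  tri : ∀ {Ω Ω' : Type} (P : FP Ω) (Y : Ω → ℤ) (R : FP Ω') (W : Ω' → ℤ) (t : ℝ),
    cst P Y t ≤ sh P Y R (fun ω => ⌊t * W ω⌋) + (sh P Y R (fun ω => -W ω) + hh P Y - hh R W) +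
      C * Real.log (|t| + 2)
  sum : ∀ {Ω : Type} (P : FP Ω) (Y : Ω → ℤ) (t t' : ℝ),
    cst P Y (t + t') ≤ cst P Y t + cst P Y t' + cst P Y (-1) + C
  mul : ∀ {Ω : Type} (P : FP Ω) (Y : Ω → ℤ) (t t' : ℝ),
    cst P Y (t * t') ≤ cst P Y t + cst P Y t' + cst P Y 1 + C * Real.log (|t| + 2)
  inv : ∀ {Ω : Type} (P : FP Ω) (Y : Ω → ℤ) (t : ℝ), t ≠ 0 →
    cst P Y t⁻¹ ≤ cst P Y t + C * Real.log (|t| + |t|⁻¹ + 2)

def SCost : Prop := ∃ C : ℝ, 0 ≤ C ∧ KC C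

/-- The Dyson step. -/
def SDy : Prop := ∀ (x S β : ℝ) (Ω : ℕ → Type) (P : ∀ n, FP (Ω n)) (B C : ∀ n, Ω n → ℤ)
  (M : ℕ → ℕ) (e L : ℕ → ℝ), Top x S β →
  Xt x S β M P (fun n ω => rl (M n) (B n ω)) (fun n ω => rl (M n) (C n ω)) → Sub M L →
  (∀ᶠ n in UF, |e n| ≤ L n) →
  Reg x M (fun n => im (P n) (fun ω => rl (M n) (B n ω)) ∪
    im (P n) fun ω => e n * rl (M n) (C n ω)) →
  Le M (fun n => hh (prod (P n) (P n)) fun v => B n v.1 + ⌊e n * C n v.2⌋) fun n => β * M n * lg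

/-- The bound on the sum without the condition on the values of `c`. -/
def SHalf : Prop := ∀ (x S β : ℝ) (Ω : ℕ → Type) (P : ∀ n, FP (Ω n)) (b c : ∀ n, Ω n → ℝ)
  (M : ℕ → ℕ), Top x S β → Half x M P b c → Uw M P b →
  Le M (fun n => H1 (P n) (M n) (b n) + H1 (P n) (M n) (c n)) fun n => S * M n * lg

/-- The bound for multipliers. -/
def SBound : Prop := SCost → SHalf → ∀ (x S β : ℝ) (Ω : ℕ → Type) (P : ∀ n, FP (Ω n))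
  (B C : ∀ n, Ω n → ℤ) (M : ℕ → ℕ), Top x S β → Nice x S β M P B C →
  ND M P (fun n ω => rl (M n) (B n ω)) → Bnd (S - β) M P B

/-- The ratios of multipliers are dense. -/
def SRatio : Prop := SCost → ∀ (γ : ℝ) (Ω Ω' : ℕ → Type) (P : ∀ n, FP (Ω n))
  (Y : ∀ n, Ω n → ℤ) (R : ∀ n, FP (Ω' n)) (t : ∀ n, Ω' n → ℝ) (M : ℕ → ℕ), Big M →
  Sm M (fun n => cst (P n) (Y n) 1) → Sm M (fun n => cst (P n) (Y n) (-1)) → Chp M P Y R t →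
  Prof γ M R t → ND M R t → Bnd γ M P Y → 1 ≤ γ

/-- The theorem. -/
def ABC : Prop := ∀ x : ℝ, x < 1 → ∀ (Ω : ℕ → Type) (P : ∀ n, FP (Ω n)) (b c : ∀ n, Ω n → ℝ)
  (M : ℕ → ℕ), Mem x M P b c →
  Le M (fun n => H1 (P n) (M n) (b n) + H1 (P n) (M n) (c n)) fun n => x * M n * lg

end Pool.Agent.MP_5168f5_an.MX
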