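import Pool.Agent.MP_5168f5_an.H17F.KG
import Pool.Agent.MP_5168f5_an.H17F.KE
import Pool.Agent.MP_5168f5_an.MX.ADefs

/-! Entropy sumset calculus for real variables read at a dyadic resolution. -/

namespace Pool.Agent.MP_5168f5_an.MX

open H19 H17S H17F

section Abs

variable {Ω α β γ δ : Type} {P : FP Ω}

theorem near_fl {j : ℕ} {x y : ℝ} (h : fl1 j x = fl1 j y) : |x - y| ≤ 1 / 2 ^ j := by
  rw [one_div]; exact (abs_sub_lt_of_fl1_eq h).le

theorem log7 : Real.log (2 * 2 + 3) ≤ 2 := by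
  have h2 : (7 : ℝ) ≤ Real.exp 2 := by
    have := Real.exp_one_gt_d9
    rw [show (2 : ℝ) = 1 + 1 by norm_num, Real.exp_add]; nlinarith
  exact (Real.log_le_iff_le_exp (by norm_num)).2 (by linarith)

theorem log5 : Real.log (2 * 1 + 3) ≤ 2 :=
  (Real.log_le_log (by norm_num) (by norm_num)).trans log7

/-- `Z` is almost determined by `F` and `G`. -/
theorem ch_rel {Z : Ω → ℝ} {F : Ω → α} {G : Ω → β} {k : ℕ} {L : ℝ} (hL : 0 ≤ L)
    (h : ∀ a ∈ P.S, ∀ b ∈ P.S, F a = F b → G a = G b → |Z a - Z b| ≤ L / 2 ^ k) :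
    ch P (fun ω => fl1 k (Z ω)) G ≤ ch P F G + Real.log (2 * L + 3) :=
  (ch_tri _ F G).trans (add_le_add le_rfl (ch_near1 hL fun a ha b hb e =>
    h a ha b hb (congrArg Prod.fst e) (congrArg Prod.snd e)))

theorem aff_near {a x y s Λ : ℝ} {j k : ℕ} (h : |a| * 2 ^ k ≤ Λ * 2 ^ j)
    (e : fl1 j x = fl1 j y) : |a * x + s - (a * y + s)| ≤ Λ / 2 ^ k := by
  have h1 := near_fl e
  rw [show a * x + s - (a * y + s) = a * (x - y) by ring, abs_mul, le_div_iff₀ (by positivity)]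
  rw [le_div_iff₀ (by positivity)] at h1
  have h2 : (0 : ℝ) < 2 ^ j := by positivity
  have h3 := abs_nonneg (x - y)
  have h4 : 0 ≤ |a| * 2 ^ k := by positivity
  refine le_of_mul_le_mul_right ?_ h2
  nlinarith [mul_le_mul_of_nonneg_left h1 h4]

/-- Affine images with coefficients known from the context. -/
theorem ch_aff {X a s : Ω → ℝ} {G : Ω → β} {j k : ℕ} {Λ : ℝ} (hΛ : 0 ≤ Λ) (ha : Fn P a G)
    (hs : Fn P s G) (h : ∀ ω ∈ P.S, |a ω| * 2 ^ k ≤ Λ * 2 ^ j) :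
    ch P (fun ω => fl1 k (a ω * X ω + s ω)) G ≤
      ch P (fun ω => fl1 j (X ω)) G + Real.log (2 * Λ + 3) :=
  ch_rel hΛ fun x hx y hy e1 e2 => by
    rw [← ha x hx y hy e2, ← hs x hx y hy e2]; exact aff_near (h x hx) e1

/-- Shifts known from the context. -/
theorem ch_shift {X Z : Ω → ℝ} {G : Ω → β} {j : ℕ} (hs : Fn P (fun ω => Z ω - X ω) G) :
    ch P (fun ω => fl1 j (Z ω)) G ≤ ch P (fun ω => fl1 j (X ω)) G + 2 :=
  (ch_rel zero_le_one fun x hx y hy e1 e2 => by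
    have h1 : Z x - X x = Z y - X y := hs x hx y hy e2
    rw [show Z x - Z y = X x - X y by linarith]; exact near_fl e1).trans (add_le_add le_rfl log5)

/-- Perturbations below the resolution. -/
theorem ch_pert {X Z : Ω → ℝ} {G : Ω → β} {j : ℕ} {L : ℝ} (hL : 0 ≤ L)
    (h : ∀ ω ∈ P.S, |Z ω - X ω| ≤ L / 2 ^ j) :
    ch P (fun ω => fl1 j (Z ω)) G ≤
      ch P (fun ω => fl1 j (X ω)) G + Real.log (2 * (2 * L + 1) + 3) :=
  ch_rel (by positivity) fun x hx y hy e1 _ => by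
    have h1 := abs_le.1 (h x hx)
    have h2 := abs_le.1 (h y hy)
    have h3 := abs_le.1 (near_fl e1)
    rw [show (2 * L + 1) / (2 : ℝ) ^ j = L / 2 ^ j + L / 2 ^ j + 1 / 2 ^ j by ring, abs_le]
    constructor <;> linarith [h1.1, h1.2, h2.1, h2.2, h3.1, h3.2]

/-- Conditional Ruzsa inequality. -/
theorem ruz {p q s : Ω → ℝ} {G : Ω → β} {G' : Ω → γ} {j : ℕ} (e : ∀ ω, s ω = p ω + q ω)
    (hG : Fn P G G') (hs : Fn P s G') :
    ch P (fun ω => fl1 j (s ω)) G + ch P (fun ω => fl1 j (q ω)) G' ≤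
      ch P (fun ω => fl1 j (p ω)) G + ch P (fun ω => fl1 j (q ω)) G + 2 := by
  have h1 := ch_symm (P := P) (fun ω => fl1 j (s ω)) (fun ω => fl1 j (q ω)) G
  have h2 : ch P (fun ω => fl1 j (s ω)) (fun ω => (fl1 j (q ω), G ω)) ≤
      ch P (fun ω => fl1 j (p ω)) (fun ω => (fl1 j (q ω), G ω)) + Real.log (2 * 2 + 3) :=
    ch_rel zero_le_two fun x _ y _ e1 e2 => by
      have h3 := abs_le.1 (near_fl e1)
      have h4 := abs_le.1 (near_fl (congrArg Prod.fst e2))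
      rw [e, e, show (2 : ℝ) / 2 ^ j = 1 / 2 ^ j + 1 / 2 ^ j by ring, abs_le]
      constructor <;> linarith [h3.1, h3.2, h4.1, h4.2]
  have h3 : ch P (fun ω => fl1 j (p ω)) (fun ω => (fl1 j (q ω), G ω)) ≤
      ch P (fun ω => fl1 j (p ω)) G := ch_anti (Fn.snd _ _)
  have h4 : ch P (fun ω => fl1 j (q ω)) G' ≤
      ch P (fun ω => fl1 j (q ω)) fun ω => (fl1 j (s ω), G ω) :=
    ch_anti (((Fn.comp (fl1 j) s).trans hs).pair hG)
  linarith [log7]

/-- Data processing through an affine map. -/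
theorem mi_aff {X a u : Ω → ℝ} {G : Ω → β} {W : Ω → γ} {U : Ω → δ} {j k : ℕ} {Λ : ℝ}
    (hΛ : 0 ≤ Λ) (ha : Fn P a G) (hu : Fn P u fun ω => (U ω, G ω))
    (h : ∀ ω ∈ P.S, |a ω| * 2 ^ k ≤ Λ * 2 ^ j) :
    mi P (fun ω => fl1 k (a ω * X ω + u ω)) W G ≤ mi P (fun ω => fl1 j (X ω)) W G +
      mi P W U (fun ω => (fl1 j (X ω), G ω)) + Real.log (2 * Λ + 3) := by
  have h1 := mi_near (P := P) W (fun ω => fl1 k (a ω * X ω + u ω))
    (fun ω => (fl1 j (X ω), U ω)) G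
  have h2 : ch P (fun ω => fl1 k (a ω * X ω + u ω)) (fun ω => ((fl1 j (X ω), U ω), G ω)) ≤
      Real.log (2 * Λ + 3) := ch_near1 hΛ fun x hx y hy e => by
    simp only [Prod.mk.injEq] at e
    rw [← ha x hx y hy e.2, ← hu x hx y hy (Prod.ext e.1.2 e.2)]
    exact aff_near (h x hx) e.1.1
  rw [mi_chain, mi_symm W, mi_symm W fun ω => fl1 j (X ω)] at h1
  linarith

theorem mi_unit (W : Ω → γ) (K : Ω → β) : mi P W (fun _ => ()) K ≤ 0 := by
  rw [mi_symm]; exact (mi_le _ _ _).trans (ch_zero fun _ _ _ _ _ => rfl).le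

end Abs

section Prod

variable {Ω Ω' Ω'' A A' α β γ δ : Type} (P : FP Ω) (Q : FP Ω') (R : FP Ω'')

theorem E_prod (F : Ω × Ω' → ℝ) : (prod P Q).E F = P.E fun x => Q.E fun y => F (x, y) :=
  E_bind _ _ F

theorem mem_prod (v : Ω × Ω') : v ∈ (prod P Q).S ↔ v.1 ∈ P.S ∧ v.2 ∈ Q.S := mem_bind _ _ v

theorem pr_fst : Law (prod P Q) Prod.fst P id := fun F => KGA.E_bind_fst P _ F

theorem pr_snd : Law (prod P Q) Prod.snd Q id := fun F => by
  rw [E_prod]; exact P.E_const (Q.E F)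

theorem pr_swap : Law (prod P Q) Prod.swap (prod Q P) id := fun F => by
  rw [E_prod, E_prod]; exact KGA.E_swap _ _ _

theorem pr_law {P' : FP A} {Q' : FP A'} {P Q} {f : Ω → α} {f' : A → α} {g : Ω' → β} {g' : A' → β}
    (h : Law P f P' f') (k : Law Q g Q' g') :
    Law (prod P Q) (fun v => (f v.1, g v.2)) (prod P' Q') fun v => (f' v.1, g' v.2) := fun F => by
  rw [E_prod, E_prod]
  exact (P.E_congr fun x _ => k fun y => F (f x, y)).trans (h fun x => Q'.E fun y => F (x, g' y))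

theorem pr_12 : Law (prod R (prod P Q)) (fun v => (v.1, v.2.1)) (prod R P) id :=
  pr_law (Law.rfl id) (pr_fst P Q)

theorem pr_13 : Law (prod R (prod P Q)) (fun v => (v.1, v.2.2)) (prod R Q) id :=
  pr_law (Law.rfl id) (pr_snd P Q)

theorem pr_21 : Law (prod R (prod P Q)) (fun v => (v.2.1, v.1)) (prod P R) id :=
  ((pr_12 P Q R).comp Prod.swap).trans (pr_swap R P)

theorem pr_31 : Law (prod R (prod P Q)) (fun v => (v.2.2, v.1)) (prod Q R) id :=
  ((pr_13 P Q R).comp Prod.swap).trans (pr_swap R Q)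

theorem pr_rot : Law (prod R (prod P Q)) (fun v => ((v.2.1, v.1), v.2.2)) (prod (prod P R) Q) id :=
  fun F => by
  simp only [E_prod, id]; exact KGA.E_swap _ _ _

variable {P Q} in
theorem _root_.Pool.Agent.MP_5168f5_an.H17F.Law.hh_id {f : Ω → Ω'} (h : Law P f Q id)
    (F : Ω' → β) : hh P (fun x => F (f x)) = hh Q F := hh_law _ _ fun u => h fun y => u (F y)

theorem ent_bind2 (K : Ω → FP Ω') (G : Ω → β) (F : Ω → Ω' → α) (hK : Fn P K G) (hF : Fn P F G) :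
    ch (bind P K) (fun x => F x.1 x.2) (fun x => G x.1) = P.E fun ω => hh (K ω) (F ω) := by
  classical
  have h1 : ∀ x ∈ (bind P K).S, (bind P K).pr (Setoid.ker fun y => (F y.1 y.2, G y.1)) x =
      (K x.1).pr (Setoid.ker (F x.1)) x.2 * P.pr (Setoid.ker G) x.1 := by
    intro x hx
    rw [mem_bind] at hx
    unfold FP.pr
    rw [E_bind, ← P.E_mul]
    refine P.E_congr fun a ha => ?_
    by_cases h : G a = G x.1
    · rw [if_pos (show Setoid.ker G a x.1 from h), mul_one, hK a ha _ hx.1 h]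
      refine (K x.1).E_congr fun b _ => ?_
      simp only [Setoid.ker_def, Prod.mk.injEq, h, and_true, hF a ha _ hx.1 h]
    · rw [if_neg (show ¬ Setoid.ker G a x.1 from h), mul_zero]
      refine Eq.trans ((K a).E_congr fun b _ => ?_) ((K a).E_const 0)
      simp only [Setoid.ker_def, Prod.mk.injEq, h, and_false, if_false]
  have h2 : hh (bind P K) (fun x => G x.1) = hh P G :=
    hh_law _ _ fun F => KGA.E_bind_fst P K fun ω => F (G ω)
  unfold ch
  rw [h2]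
  unfold hh FP.H
  rw [(bind P K).E_congr fun x hx => by rw [h1 x hx], E_bind, ← P.E_sub]
  refine P.E_congr fun ω hω => ?_
  have h3 : (K ω).E (fun b => -Real.log ((K ω).pr (Setoid.ker (F ω)) b * P.pr (Setoid.ker G) ω)) =
      (K ω).E fun b => -Real.log ((K ω).pr (Setoid.ker (F ω)) b) +
        -Real.log (P.pr (Setoid.ker G) ω) :=
    (K ω).E_congr fun b hb => by
      rw [Real.log_mul ((K ω).pr_pos _ hb).ne' (P.pr_pos _ hω).ne']; ring
  rw [h3, FP.E_add, FP.E_const]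
  ring

theorem ch_pr2 (f : Ω' → α) (G : Ω → β) :
    ch (prod P Q) (fun v => f v.2) (fun v => G v.1) = hh Q f :=
  (KGA.ent_bind P (fun _ => Q) G f fun _ _ _ _ _ => rfl).trans (P.E_const _)

theorem ch_pr1 (f : Ω → α) (G : Ω' → β) :
    ch (prod P Q) (fun v => f v.1) (fun v => G v.2) = hh P f :=
  ((pr_swap P Q).ch_id (fun v => f v.2) fun v => G v.1).trans (ch_pr2 Q P f G)

theorem ch_pr2' (f : Ω' → α) (g : Ω' → γ) (G : Ω → β) :
    ch (prod P Q) (fun v => f v.2) (fun v => (G v.1, g v.2)) = ch Q f g := by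
  have h1 := ch_pr2 P Q (fun y => (g y, f y)) G
  have h2 := ch_pr2 P Q g G
  have h3 := ch_chain (P := prod P Q) (fun v => g v.2) (fun v => f v.2) fun v => G v.1
  have h5 : ch (prod P Q) (fun v => f v.2) (fun v => (G v.1, g v.2)) =
      ch (prod P Q) (fun v => f v.2) fun v => (g v.2, G v.1) :=
    le_antisymm (ch_anti ((Fn.snd _ _).pair (Fn.fst _ _))) (ch_anti ((Fn.snd _ _).pair (Fn.fst _ _)))
  have h6 : hh Q (fun y => (g y, f y)) = hh Q fun y => (f y, g y) :=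
    hh_congr ((Fn.snd _ _).pair (Fn.fst _ _)) ((Fn.snd _ _).pair (Fn.fst _ _))
  unfold ch at h5 h3 h1 h2 ⊢
  linarith

theorem ch_pr1' (f : Ω → α) (g : Ω → γ) (G : Ω' → β) :
    ch (prod P Q) (fun v => f v.1) (fun v => (G v.2, g v.1)) = ch P f g :=
  ((pr_swap P Q).ch_id (fun v => f v.2) fun v => (G v.1, g v.2)).trans (ch_pr2' Q P f g G)

/-- An independent variable carries no information. -/
theorem mi_pr2 (f : Ω' → α) (g : Ω' → γ) (G : Ω → β) :
    mi (prod P Q) (fun v => f v.2) (fun v => G v.1) (fun v => g v.2) = 0 := by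
  unfold mi
  rw [ch_pr2', (pr_snd P Q).ch_id f g, sub_self]

end Prod

section Int

variable {Ω Ω' Ω'' β γ κ : Type} (P : FP Ω) (Q : FP Ω') (R : FP Ω'')

variable {P} in
theorem ch_nearZ {u : Ω → ℤ} {G : Ω → β} {L : ℝ} (hL : 0 ≤ L)
    (h : ∀ a ∈ P.S, ∀ b ∈ P.S, G a = G b → |(u a : ℝ) - u b| ≤ L) :
    ch P u G ≤ Real.log (2 * L + 3) := by
  have := ch_near1 (P := P) (x := fun ω => (u ω : ℝ)) (G := G) (j := 0) hL (by simpa using h)
  simpa [fl1] using this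

variable {P} in
/-- Conditional Ruzsa inequality for integers. -/
theorem ruzZ {p q s : Ω → ℤ} {G : Ω → β} {G' : Ω → γ} (e : ∀ ω, s ω = p ω + q ω)
    (hG : Fn P G G') (hs : Fn P s G') : ch P s G + ch P q G' ≤ ch P p G + ch P q G := by
  have h1 := ch_symm (P := P) s q G
  have h2 : ch P s (fun ω => (q ω, G ω)) ≤ ch P p G :=
    ch_le (F' := p) (G' := G) (fun x _ y _ e1 => by
      simp only [Prod.mk.injEq] at e1; rw [e, e, e1.1, e1.2.1]) (Fn.snd _ _)
  have h4 : ch P q G' ≤ ch P q fun ω => (s ω, G ω) := ch_anti (hs.pair hG)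
  linarith

variable (Y : Ω → ℤ) (s s' : Ω' → ℤ) (W : Ω'' → ℤ)

theorem ch_sumZ : ch (prod P Q) (fun v => Y v.1 + s v.2) (fun v => (v.2, ())) = hh P Y := by
  rw [← ch_pr1 P Q Y fun y => (y, ())]
  refine ch_congr (fun a _ b _ e => ?_) (fun a _ b _ e => ?_) (Fn.rfl _) (Fn.rfl _) <;>
    simp only [Prod.mk.injEq, and_true] at e
  · rw [e.1, e.2]
  · have := e.1; rw [e.2] at this; exact add_right_cancel this

theorem sh_mi : sh P Y Q s = mi (prod P Q) (fun v => Y v.1 + s v.2) Prod.snd fun _ => () := by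
  unfold sh mi; rw [ch_unit, ch_sumZ]

theorem sh_nonneg : 0 ≤ sh P Y Q s := by rw [sh_mi]; exact mi_nonneg _ _ _

theorem hh_swapZ : hh (prod P Q) (fun v => Y v.1 + s v.2) =
    hh (prod Q P) fun v => s v.1 + Y v.2 := by
  rw [← (pr_swap P Q).hh_id fun v => s v.1 + Y v.2]
  simp only [Prod.fst_swap, Prod.snd_swap, add_comm]

theorem sh_ge : hh Q s ≤ hh P Y + sh P Y Q s := by
  have h1 := sh_nonneg Q P s Y
  have h2 := hh_swapZ P Q Y s
  unfold sh at *; linarith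

variable {Q R s W} in
theorem sh_law (h : Law Q s R W) : sh P Y Q s = sh P Y R W := by
  unfold sh
  rw [hh_law (Q₁ := prod P Q) (Q₂ := prod P R) (fun v => Y v.1 + s v.2) (fun v => Y v.1 + W v.2)
    ((pr_law (Law.rfl Y) h).comp fun w => w.1 + w.2)]

/-- Adding an independent variable to the base does not increase the gain. -/
theorem sh_conv : sh (prod P R) (fun v => Y v.1 + W v.2) Q s ≤ sh P Y Q s := by
  have h1 : mi (prod R (prod P Q)) (fun v => v.2.2) (fun v => Y v.2.1 + W v.1 + s v.2.2)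
      (fun _ => ()) ≤ mi (prod R (prod P Q)) (fun v => v.2.2)
        (fun v => (Y v.2.1 + s v.2.2, v.1)) fun _ => () := mi_mono fun a _ b _ e => by
    simp only [Prod.mk.injEq, and_true] at e
    rw [add_right_comm, e.1, e.2, add_right_comm]
  have h2 := mi_pr2 R (prod P Q) Prod.snd (fun v => (Y v.1 + s v.2, ())) id
  rw [mi_chain, mi_symm, mi_symm (fun v : Ω'' × Ω × Ω' => v.2.2) fun v => Y v.2.1 + s v.2.2] at h1
  rw [sh_mi, sh_mi, ← (pr_snd R (prod P Q)).mi_id, ← (pr_rot P Q R).mi_id]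
  simp only [id] at h2
  linarith

theorem cst_one : cst P Y 1 = sh P Y P Y := by simp [cst]

theorem cst_neg_one : cst P Y (-1) = sh P Y P fun ω => -Y ω := by
  unfold cst
  congr 1; funext ω
  rw [neg_one_mul, ← Int.cast_neg, Int.floor_intCast]

theorem hh_neg : hh P (fun ω => -Y ω) = hh P Y :=
  hh_congr (Fn.comp _ Y) fun _ _ _ _ e => neg_injective e

theorem sh_add : sh P Y Q (fun ω => s ω + s' ω) ≤ sh P Y Q s + sh P Y Q s' + cst P Y (-1) := by
  have h1 := ruzZ (P := prod P (prod P Q)) (p := fun v => Y v.2.1 + s v.2.2 + -Y v.1)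
    (q := fun v => Y v.1 + s' v.2.2) (s := fun v => Y v.2.1 + (s v.2.2 + s' v.2.2))
    (G := fun _ => ()) (G' := fun v => (v.2, ())) (fun v => by ring) (fun _ _ _ _ _ => rfl)
    fun a _ b _ e => by have : a.2 = b.2 := congrArg Prod.fst e; simp only [this]
  have h2 := ch_sumZ P (prod P Q) Y fun v => s' v.2
  have h3 := sh_conv P P Q Y (fun ω => -Y ω) s
  have h4 := (pr_swap P (prod P Q)).hh_id fun v => Y v.1.1 + s v.1.2 + -Y v.2
  simp only [ch_unit] at h1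
  simp only [Prod.fst_swap, Prod.snd_swap] at h4
  rw [(pr_snd P (prod P Q)).hh_id fun v => Y v.1 + (s v.2 + s' v.2), h4,
    (pr_13 P Q P).hh_id fun v => Y v.1 + s' v.2] at h1
  rw [cst_neg_one]
  unfold sh at h3 ⊢; linarith

theorem sh_near (L : ℝ) (hL : 0 ≤ L) (h : ∀ ω ∈ Q.S, |(s ω : ℝ) - s' ω| ≤ L) :
    sh P Y Q s ≤ sh P Y Q s' + Real.log (2 * L + 3) := by
  have h1 := ch_tri' (P := prod P Q) (fun v => Y v.1 + s v.2) (fun _ => ())
    fun v => Y v.1 + s' v.2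
  have h2 : ch (prod P Q) (fun v => Y v.1 + s v.2) (fun v => Y v.1 + s' v.2) ≤
      Real.log (2 * L + 3) := ch_det fun a _ => by
    refine ⟨Finset.Icc (Y a.1 + s' a.2 - ⌊L⌋₊) (Y a.1 + s' a.2 + ⌊L⌋₊), ?_, fun b hb e => ?_⟩
    · have : (Finset.Icc (Y a.1 + s' a.2 - ⌊L⌋₊) (Y a.1 + s' a.2 + ⌊L⌋₊)).card =
          2 * ⌊L⌋₊ + 1 := by rw [Int.card_Icc]; omega
      rw [this]; push_cast; linarith [Nat.floor_le hL]
    · have h3 := abs_le.1 (h _ ((mem_prod P Q b).1 hb).2)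
      have h4 := Nat.lt_floor_add_one L
      have h5 : s b.2 - s' b.2 < ⌊L⌋₊ + 1 := by
        have : ((s b.2 - s' b.2 : ℤ) : ℝ) < ((⌊L⌋₊ + 1 : ℤ) : ℝ) := by push_cast; linarith [h3.2]
        exact_mod_cast this
      have h6 : s' b.2 - s b.2 < ⌊L⌋₊ + 1 := by
        have : ((s' b.2 - s b.2 : ℤ) : ℝ) < ((⌊L⌋₊ + 1 : ℤ) : ℝ) := by push_cast; linarith [h3.1]
        exact_mod_cast this
      have e' : Y b.1 + s' b.2 = Y a.1 + s' a.2 := e
      rw [Finset.mem_Icc]; constructor <;> omega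
  rw [ch_unit, ch_unit] at h1
  unfold sh; linarith

theorem sh_cnd (K : Ω' → κ) (s : κ → Ω' → ℤ) :
    Q.E (fun ω => sh P Y (cv Q K (K ω)) (s (K ω))) ≤ sh P Y Q fun ω => s (K ω) ω := by
  have h1 := ent_bind2 Q (fun ω => prod P (cv Q K (K ω))) K (fun ω v => Y v.1 + s (K ω) v.2)
    (Fn.comp (fun k => prod P (cv Q K k)) K) (Fn.comp (fun k (v : Ω × Ω') => Y v.1 + s k v.2) K)
  have h2 := ch_le_hh (P := H17F.bind Q fun ω => prod P (cv Q K (K ω)))
    (fun x => Y x.2.1 + s (K x.1) x.2.2) fun x => K x.1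
  rw [hh_law (Q₂ := prod P Q) _ (fun v => Y v.1 + s (K v.2) v.2) fun F => by
    rw [E_bind, E_prod, KGA.E_swap,
      rowKE.exp Q K fun k ω => P.E fun a => F (Y a + s k ω)]
    exact Q.E_congr fun ω _ => by rw [E_prod]; exact KGA.E_swap _ _ _] at h2
  unfold sh
  rw [Q.E_sub, Q.E_const]
  linarith

theorem fl_near (x y : ℝ) : |(⌊x⌋ : ℝ) - ⌊y⌋ - (x - y)| ≤ 1 := by
  rw [abs_le]
  constructor <;>
    linarith [Int.floor_le x, Int.floor_le y, Int.lt_floor_add_one x, Int.lt_floor_add_one y]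

/-- Triangle inequality through a multiplier. -/
theorem sh_tri (t : ℝ) : sh P Y Q (fun ω => ⌊t * s ω⌋) ≤ sh P Y R (fun ω => ⌊t * W ω⌋) +
    (hh (prod Q R) (fun v => s v.1 + -W v.2) - hh R W) + 2 := by
  have h1 := ruzZ (P := prod R (prod P Q)) (p := fun v => Y v.2.1 + ⌊t * W v.1⌋)
    (q := fun v => ⌊t * s v.2.2⌋ - ⌊t * W v.1⌋) (s := fun v => Y v.2.1 + ⌊t * s v.2.2⌋)
    (G := fun _ => ()) (G' := fun v => (v.2, ())) (fun v => by ring) (fun _ _ _ _ _ => rfl)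
    fun a _ b _ e => by have : a.2 = b.2 := congrArg Prod.fst e; simp only [this]
  have h2 := mi_near (P := prod R (prod P Q)) Prod.snd (fun v => ⌊t * s v.2.2⌋ - ⌊t * W v.1⌋)
    (fun v => -W v.1 + s v.2.2) fun _ => ()
  have h3 : ch (prod R (prod P Q)) (fun v => ⌊t * s v.2.2⌋ - ⌊t * W v.1⌋)
      (fun v => (-W v.1 + s v.2.2, ())) ≤ Real.log (2 * 2 + 3) :=
    ch_nearZ zero_le_two fun a _ b _ e => by
      have e1 : -W a.1 + s a.2.2 = -W b.1 + s b.2.2 := congrArg Prod.fst e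
      have e2 : -(W a.1 : ℝ) + s a.2.2 = -W b.1 + s b.2.2 := by exact_mod_cast e1
      have h4 := abs_le.1 (fl_near (t * s a.2.2) (t * W a.1))
      have h5 := abs_le.1 (fl_near (t * s b.2.2) (t * W b.1))
      have e3 : t * s a.2.2 - t * W a.1 = t * s b.2.2 - t * W b.1 := by linear_combination t * e2
      push_cast
      rw [abs_le]; constructor <;> linarith [h4.1, h4.2, h5.1, h5.2]
  have h4 := sh_mi R (prod P Q) (fun ω => -W ω) fun v => s v.2
  have h5 := hh_swapZ Q R s fun ω => -W ω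
  rw [mi_symm, mi_symm Prod.snd, ← h4] at h2
  unfold mi at h2
  unfold sh at h2 ⊢
  simp only [ch_unit] at h1 h2
  rw [(pr_snd R (prod P Q)).hh_id fun v => Y v.1 + ⌊t * s v.2⌋,
    (pr_21 P Q R).hh_id fun v => Y v.1 + ⌊t * W v.2⌋] at h1
  rw [(pr_13 P Q R).hh_id fun v => -W v.1 + s v.2, hh_neg] at h2
  linarith [log7]

theorem cst_neg (t : ℝ) : cst P Y (-t) ≤ cst P Y t + cst P Y 1 + 2 := by
  have h1 := sh_tri P P P Y Y (fun ω => -Y ω) (-t)
  simp only [Int.cast_neg, neg_mul_neg, neg_neg, hh_neg] at h1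
  rw [cst_one]
  exact h1

theorem log_cube {u : ℝ} (hu : 0 ≤ u) : Real.log (2 * (u + 1) + 3) ≤ 3 * Real.log (u + 2) := by
  have h1 : Real.log (2 * (u + 1) + 3) ≤ Real.log ((u + 2) ^ 3) :=
    Real.log_le_log (by positivity) (by nlinarith [mul_nonneg hu hu, mul_nonneg hu (mul_nonneg hu hu)])
  rw [Real.log_pow] at h1; exact_mod_cast h1

theorem two_le_log {u : ℝ} (hu : 0 ≤ u) : 2 ≤ 3 * Real.log (u + 2) := by
  have h1 : Real.log 2 ≤ Real.log (u + 2) := Real.log_le_log two_pos (by linarith)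
  linarith [Real.log_two_gt_d9]

theorem cst_sum (t t' : ℝ) : cst P Y (t + t') ≤ cst P Y t + cst P Y t' + cst P Y (-1) + 2 := by
  have h1 := sh_add P P Y (fun ω => ⌊t * Y ω⌋) fun ω => ⌊t' * Y ω⌋
  have h2 := sh_near P P Y (fun ω => ⌊(t + t') * Y ω⌋) (fun ω => ⌊t * Y ω⌋ + ⌊t' * Y ω⌋) 2
    zero_le_two fun ω _ => by
      push_cast
      rw [abs_le, add_mul]
      constructor <;> linarith [Int.floor_le (t * Y ω), Int.floor_le (t' * Y ω),
        Int.floor_le (t * Y ω + t' * Y ω), Int.lt_floor_add_one (t * Y ω),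
        Int.lt_floor_add_one (t' * Y ω), Int.lt_floor_add_one (t * Y ω + t' * Y ω)]
  unfold cst at *; linarith [log7]

theorem cst_mul (t t' : ℝ) :
    cst P Y (t * t') ≤ cst P Y t + cst P Y t' + cst P Y 1 + 9 * Real.log (|t| + 2) := by
  have h1 := sh_near P P Y (fun ω => ⌊t * t' * Y ω⌋) (fun ω => ⌊t * (⌊t' * Y ω⌋ : ℤ)⌋) (|t| + 1)
    (by positivity) fun ω _ => by
      have h2 := abs_le.1 (fl_near (t * t' * Y ω) (t * (⌊t' * Y ω⌋ : ℤ)))
      have h3 : |t * (t' * Y ω - ⌊t' * Y ω⌋)| ≤ |t| := by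
        rw [abs_mul]
        refine mul_le_of_le_one_right (abs_nonneg _) (abs_le.2 ⟨?_, ?_⟩) <;>
          linarith [Int.floor_le (t' * Y ω), Int.lt_floor_add_one (t' * Y ω)]
      have h4 := abs_le.1 h3
      rw [abs_le]; constructor <;> nlinarith [h2.1, h2.2, h4.1, h4.2]
  have h2 := sh_tri P P P Y (fun ω => ⌊t' * Y ω⌋) (fun ω => -Y ω) t
  have h3 := cst_neg P Y t
  have h4 := hh_swapZ P P Y fun ω => ⌊t' * Y ω⌋
  simp only [Int.cast_neg, neg_neg, hh_neg, mul_neg] at h2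
  unfold cst at h3 ⊢
  simp only [neg_mul] at h3
  unfold sh at *
  linarith [log_cube (abs_nonneg t), two_le_log (abs_nonneg t)]

theorem cst_inv (t : ℝ) (ht : t ≠ 0) :
    cst P Y t⁻¹ ≤ cst P Y t + Real.log (2 * (|t|⁻¹ + 1) + 3) := by
  have h1 := ch_tri' (P := prod P P) (fun v => Y v.1 + ⌊t⁻¹ * Y v.2⌋) (fun _ => ())
    fun v => ⌊t * Y v.1⌋ + Y v.2
  have h2 : ch (prod P P) (fun v => Y v.1 + ⌊t⁻¹ * Y v.2⌋) (fun v => ⌊t * Y v.1⌋ + Y v.2) ≤
      Real.log (2 * (|t|⁻¹ + 1) + 3) := ch_nearZ (by positivity) fun a _ b _ e => by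
    have e1 : ((⌊t * Y a.1⌋ + Y a.2 : ℤ) : ℝ) = (⌊t * Y b.1⌋ + Y b.2 : ℤ) := congrArg _ e
    push_cast at e1 ⊢
    have h3 := fl_near (t * Y a.1) (t * Y b.1)
    have h4 := abs_le.1 (fl_near (t⁻¹ * Y a.2) (t⁻¹ * Y b.2))
    have h5 : |t⁻¹ * ((⌊t * Y a.1⌋ : ℝ) - ⌊t * Y b.1⌋ - (t * Y a.1 - t * Y b.1))| ≤ |t|⁻¹ := by
      rw [abs_mul, abs_inv]; exact mul_le_of_le_one_right (by positivity) h3
    have e2 : t⁻¹ * ((⌊t * Y a.1⌋ : ℝ) - ⌊t * Y b.1⌋ - (t * Y a.1 - t * Y b.1)) =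
        -(Y a.1 - Y b.1 + (t⁻¹ * Y a.2 - t⁻¹ * Y b.2)) := by
      rw [show (⌊t * Y a.1⌋ : ℝ) - ⌊t * Y b.1⌋ = Y b.2 - Y a.2 by linarith]; field_simp; ring
    rw [e2, abs_neg, abs_le] at h5
    rw [abs_le]; constructor <;> linarith [h4.1, h4.2, h5.1, h5.2]
  have h3 := hh_swapZ P P Y fun ω => ⌊t * Y ω⌋
  rw [ch_unit, ch_unit] at h1
  unfold cst sh; linarith

end Int

theorem kc9 : KC 9 where
  nonneg := fun P Y Q s => sh_nonneg P Q Y s
  ge := fun P Y Q s => sh_ge P Q Y s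
  law := fun P Y _ _ _ _ h => sh_law P Y h
  add := fun P Y Q s s' => sh_add P Q Y s s'
  near := fun P Y Q s s' => sh_near P Q Y s s'
  cnd := fun P Y Q K s => sh_cnd P Q Y K s
  tri := fun P Y R W t => by
    have h1 := sh_tri P P R Y Y W t
    have h2 := two_le_log (abs_nonneg t)
    unfold cst; unfold sh at *; linarith
  sum := fun P Y t t' => by linarith [cst_sum P Y t t']
  mul := fun P Y t t' => cst_mul P Y t t'
  inv := fun P Y t ht => by
    have h1 := cst_inv P Y t ht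
    have h2 := log_cube (u := |t|⁻¹) (by positivity)
    have h3 : Real.log (|t|⁻¹ + 2) ≤ Real.log (|t| + |t|⁻¹ + 2) :=
      Real.log_le_log (by positivity) (by linarith [abs_nonneg t])
    have h4 := two_le_log (u := |t|⁻¹) (by positivity)
    linarith

theorem sCost : SCost := ⟨9, by norm_num, kc9⟩

end Pool.Agent.MP_5168f5_an.MX
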