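import Pool.Agent.MP_5168f5_an.MX.ABApi
import Pool.Agent.MP_5168f5_an.MX.ACost

/-! Multipliers of small cost form a field up to small errors. -/

namespace Pool.Agent.MP_5168f5_an.MX.AB

open H19 H17S H17F Filter

namespace ABRgA

/-- The entropy of a sum is controlled by the entropy of the difference. -/
theorem one_le {Ω : Type} (P : FP Ω) (Y : Ω → ℤ) : cst P Y 1 ≤ 3 * cst P Y (-1) := by
  have h1 := sh_add P (prod P P) (fun ω => -Y ω) (fun v => Y v.1) fun v => Y v.2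
  have h2 := sh_ge P (prod P P) (fun ω => -Y ω) fun v => Y v.1 + Y v.2
  have h3 : sh P (fun ω => -Y ω) P Y = cst P Y (-1) := by
    rw [cst_neg_one]; unfold sh; rw [hh_swapZ P P (fun ω => -Y ω) Y, hh_neg]
  rw [sh_law P _ ((pr_fst P P).comp Y), sh_law P _ ((pr_snd P P).comp Y), cst_neg_one] at h1
  simp only [id, neg_neg] at h1
  rw [hh_neg] at h2
  rw [cst_one]
  unfold sh at *; linarith

variable {Ω : ℕ → Type} {P : ∀ n, FP (Ω n)} {Y : ∀ n, Ω n → ℤ} {M : ℕ → ℕ}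

theorem mu_of {A : ℕ → Set ℝ} {L f : ℕ → ℝ} (hL : Sub M L) (hf : Sm M f)
    (h : ∀ᶠ n in UF, ∀ t ∈ A n, |t| ≤ L n ∧ cst (P n) (Y n) t ≤ f n) : Mu P Y M A := by
  have h1 : Sm M fun n => max (f n) 0 := fun ε hε => (hf ε hε).mono fun n a =>
    max_le a (by positivity)
  refine ⟨_, hL.mul (Sub.exp h1 fun n => le_max_right _ _), h.mono fun n a t ht => ⟨?_, ?_⟩⟩
  · exact (a t ht).1.trans (le_mul_of_one_le_right (hL.pos n).le
      (Real.one_le_exp (le_max_right _ _)))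
  · rw [Real.log_mul (hL.pos n).ne' (Real.exp_pos _).ne', Real.log_exp]
    exact (a t ht).2.trans ((le_max_left _ _).trans
      (le_add_of_nonneg_left (Real.log_nonneg (hL.1 n))))

end ABRgA

open ABRgA in
theorem rowRg : SRg := by
  intro Ω P Y M hM h
  have c1 : Sm M fun n => cst (P n) (Y n) (-1) := h.of_sub (Eventually.of_forall fun n => by
    rw [cst_neg_one]; unfold sh; simp only [sub_eq_add_neg, neg_zero, add_zero, le_refl])
  have c3 := c1.smul (c := 3) (by norm_num)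
  refine ⟨fun A ⟨L, hL, a⟩ => ⟨L, hL, a.mono fun n k t ht => (k t ht).1⟩,
    fun A B ⟨L, hL, a⟩ b => ⟨L, hL, (a.and b).mono fun n k t ht => k.1 t (k.2 ht)⟩,
    fun A ⟨L, hL, a⟩ => mu_of hL ((hL.log.add c3).add (hM.sm 2)) (a.mono fun n k t ht => ?_),
    fun A B ⟨L, hL, a⟩ ⟨L', hL', b⟩ => mu_of (hL.add hL' hM)
      (((hL.log.add hL'.log).add c1).add (hM.sm 2)) ((a.and b).mono fun n k t ht => ?_),
    fun A B ⟨L, hL, a⟩ ⟨L', hL', b⟩ => mu_of (hL.mul hL')
      (((hL.log.add hL'.log).add c3).add (hL.log3 hM 9)) ((a.and b).mono fun n k t ht => ?_),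
    fun A L' ⟨L, hL, a⟩ hL' => mu_of hL'
      (hL.log.add ((hL'.const_mul hM one_le_two).log3 hM 1)) (a.mono fun n k t ht => ?_)⟩
  · have h1 := k _ ht
    have h2 := cst_neg (P n) (Y n) (-t)
    have h3 : cst (P n) (Y n) (-t) ≤ _ := h1.2
    rw [neg_neg] at h2
    exact ⟨by simpa using h1.1, by linarith [one_le (P n) (Y n)]⟩
  · obtain ⟨u, hu, v, hv, rfl⟩ := ht
    have h1 : cst (P n) (Y n) u ≤ _ := (k.1 u hu).2
    have h2 : cst (P n) (Y n) v ≤ _ := (k.2 v hv).2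
    exact ⟨(abs_add_le _ _).trans (add_le_add (k.1 u hu).1 (k.2 v hv).1),
      by linarith [cst_sum (P n) (Y n) u v]⟩
  · obtain ⟨u, hu, v, hv, rfl⟩ := ht
    have h1 : cst (P n) (Y n) u ≤ _ := (k.1 u hu).2
    have h2 : cst (P n) (Y n) v ≤ _ := (k.2 v hv).2
    have h3 : Real.log (|u| + 2) ≤ Real.log (2 * L n + 3) :=
      Real.log_le_log (by positivity) (by linarith [(k.1 u hu).1, hL.1 n])
    refine ⟨?_, by linarith [cst_mul (P n) (Y n) u v, one_le (P n) (Y n)]⟩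
    rw [abs_mul]
    exact mul_le_mul (k.1 u hu).1 (k.2 v hv).1 (abs_nonneg _) (hL.pos n).le
  · obtain ⟨u, hu, h0, rfl⟩ := ht
    have h1 : cst (P n) (Y n) u ≤ _ := (k u hu).2
    have h2 : 0 < |u| := (one_div_pos.2 (hL'.pos n)).trans_le h0
    have h3 : |u|⁻¹ ≤ L' n := by
      rw [inv_le_comm₀ h2 (hL'.pos n), ← one_div]; exact h0
    have h4 : Real.log (2 * (|u|⁻¹ + 1) + 3) ≤ Real.log (2 * (2 * L' n) + 3) :=
      Real.log_le_log (by positivity) (by linarith [hL'.1 n])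
    rw [one_div, abs_inv]
    exact ⟨h3, by linarith [cst_inv (P n) (Y n) u (abs_pos.1 h2)]⟩

end Pool.Agent.MP_5168f5_an.MX.AB
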