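import Pool.Agent.MP_5168f5_an.MX.ABDefs

/-! Products in an additive family of levels: the statements of the steps. -/

namespace Pool.Agent.MP_5168f5_an.MX.AB

open H19 H17S H17F Filter

/-- Covering numbers. -/
structure CV : Prop where
  mono : ∀ (A B : Set ℝ) (x e e' : ℝ) (M M' : ℕ), Cov A x M e → B ⊆ A → M' ≤ M → e ≤ e' →
    Cov B x M' e'
  unit : ∀ (A : Set ℝ) (x e u Λ : ℝ) (M : ℕ), Cov A x M e → 1 ≤ Λ → 1 / Λ ≤ |u| → |u| ≤ Λ →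
    Cov {y | u * y ∈ A} x M (e + 2 * Real.log (2 * Λ + 3))
  pow : ∀ (A : Set ℝ) (x e : ℝ) (M j : ℕ), Cov A x M e → j ≤ M →
    Cov {y | 2 ^ j * y ∈ A} x (M - j) e
  ent : ∀ (Ω T : ℕ → Type) (P : ∀ n, FP (Ω n)) (θ : ∀ n, Ω n → T n) (b : ∀ n, Ω n → ℤ)
    (A : ∀ n, T n → Set ℝ) (M : ℕ → ℕ) (Λ : ℕ → ℝ) (x : ℝ), 0 ≤ x → Big M → Sub M Λ →
    (∀ᶠ n in UF, ∀ ω ∈ (P n).S, |(b n ω : ℝ)| ≤ Λ n * 2 ^ M n) →
    (∀ ε : ℝ, 0 < ε → Whp P fun n ω =>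
      Nr (A n (θ n ω)) (Λ n) (b n ω) ∧ Cov (A n (θ n ω)) x (M n) (ε * M n)) →
    Le M (fun n => ch (P n) (b n) (θ n)) fun n => x * M n * lg

/-- Closure properties of a property `C` of systems. -/
structure CL (C : (ℕ → Tr) → (ℕ → ℕ) → Prop) : Prop where
  law : ∀ (z : ℕ → Tr) (M : ℕ → ℕ) (Ω' : ℕ → Type) (Q : ∀ n, FP (Ω' n)) (b c : ∀ n, Ω' n → ℤ)
    (θ : ∀ n, Ω' n → (z n).T), C z M →
    (∀ n, Law (Q n) (fun v => (b n v, c n v, θ n v)) (z n).P fun ω =>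
      ((z n).b ω, (z n).c ω, (z n).θ ω)) → C (fun n => (z n).law (Q n) (b n) (c n) (θ n)) M
  cond : ∀ (z : ℕ → Tr) (M : ℕ → ℕ) (E : ∀ n, (z n).Ω → Prop), C z M →
    Pos (fun n => (z n).P) E → C (fun n => (z n).cond (E n)) M
  side : ∀ (z : ℕ → Tr) (M : ℕ → ℕ) (K : ℕ → Type) (κ : ∀ n, (z n).Ω → K n), C z M →
    Sm M (fun n => mi (z n).P (fun ω => ((z n).b ω, (z n).c ω)) (κ n) (z n).θ) →
    C (fun n => (z n).side (κ n)) M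

/-- Row CLO. -/
def SClo : Prop := ∀ x : ℝ, CL (Cls x) ∧ ∀ z M, Cls x z M → Cls x (fun n => (z n).swap) M

/-- Row XL. -/
def SXl : Prop := ∀ x Sg be : ℝ, CL (Cls x) → Top x Sg be → CL (Xt x Sg be)

/-- Row DIAG. -/
def SDiag : Prop := ∀ x : ℝ,
  (∃ z M, Cls x z M ∧ ¬Le M (fun n => (z n).hb + (z n).hc) fun n => x * M n * lg) →
  ∃ Sg be z M, x < Sg ∧ Top x Sg be ∧ Xt x Sg be z M

/-- The top `j` digits of `b` against the bottom `j` digits of `c`. -/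
def Zoom (x : ℝ) : Prop := ∀ (z : ℕ → Tr) (M j : ℕ → ℕ), Cls x z M → Frac j M →
  ∃ z' : ℕ → Tr, Cls x z' j ∧
    Le M (fun n => ch (z n).P (fun ω => dn (M n - j n) ((z n).b ω)) (z n).θ)
      (fun n => (z' n).hb) ∧
    Le M (fun n => ch (z n).P (z n).c fun ω => (dn (j n) ((z n).c ω), (z n).θ ω)) fun n =>
      (z' n).hc

/-- Row ZOOM. -/
def SZoom : Prop := CV → ∀ x : ℝ, Zoom x

/-- Extremal systems are regular. -/
def Reg (x Sg be : ℝ) : Prop := ∀ z M, Xt x Sg be z M →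
  Rate (fun n => (z n).P) (fun n => (z n).b) (fun n => (z n).θ) M be ∧
    Rate (fun n => (z n).P) (fun n => (z n).c) (fun n => (z n).θ) M (Sg - be)

/-- Row REG. -/
def SReg : Prop := ∀ x Sg be : ℝ, (∀ z M, Cls x z M → Cls x (fun n => (z n).swap) M) → Zoom x →
  Top x Sg be → Reg x Sg be

/-- Extremal systems are not concentrated. -/
def Nd (x Sg be : ℝ) : Prop := ∀ (z : ℕ → Tr0) (M : ℕ → ℕ), X0 x Sg be z M →
  (be ≤ x ∧ Sg - be ≤ x) ∧ ND (fun n => (z n).P) (fun n => (z n).b) M ∧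
    ND (fun n => (z n).P) (fun n => (z n).c) M

/-- Row ND. -/
def SNd : Prop := CV → ∀ x Sg be : ℝ, 0 ≤ x → x < Sg → Top x Sg be → CL (Xt x Sg be) →
  Reg x Sg be → Nd x Sg be

/-- The side information can be frozen at a typical value. -/
def Fix (x Sg be : ℝ) : Prop := ∀ (z : ℕ → Tr) (M : ℕ → ℕ) (E : ∀ n, (z n).Ω → Prop),
  Xt x Sg be z M → Whp (fun n => (z n).P) E → ∃ s : ∀ n, (z n).T,
    X0 x Sg be (fun n => (z n).fix (s n)) M ∧ Whp (fun n => ((z n).fix (s n)).P) E ∧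
      ∀ᶠ n in UF, ∃ ω ∈ (z n).P.S, (z n).θ ω = s n

/-- Row FIX. -/
def SFix : Prop := ∀ x Sg be : ℝ, Top x Sg be → Fix x Sg be

/-- Row GROUP. -/
def SGrp : Prop := ∀ x Sg be : ℝ, Top x Sg be → CL (Xt x Sg be) → Nd x Sg be → Fix x Sg be →
  ∀ (z : ℕ → Tr0) (M : ℕ → ℕ), X0 x Sg be z M → ∃ z' u, Grp x Sg be z' M u

/-- Row HEX. -/
def SHex : Prop := ∀ (x Sg be : ℝ) (z : ℕ → Tr0) (M : ℕ → ℕ), X0 x Sg be z M →
  ∃ h, Hex Sg z M h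

/-- The conclusion of the transform. -/
def Dys (be : ℝ) (M : ℕ → ℕ) (h : ℕ → Hx) : Prop :=
  Le M (fun n => ch (h n).Q2 (h n).sg fun w => (h n).th w.1) fun n => be * M n * lg

/-- Row DYS. -/
def SDys : Prop := CV → ∀ x Sg be : ℝ, Top x Sg be →
  ∀ (z : ℕ → Tr0) (M : ℕ → ℕ) (u : ℕ → ℤ) (h : ℕ → Hx), Grp x Sg be z M u → Hex Sg z M h →
    Dys be M h

/-- The values of `(a - g) / c₀`. -/
def Val {Ω : ℕ → Type} (R : ∀ n, FP (Ω n)) (a : ∀ n, Ω n → ℤ) (g c₀ : ℕ → ℤ) (n : ℕ) : Set ℝ :=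
  {t | ∃ ω ∈ (R n).S, t = ((a n ω : ℝ) - g n) / c₀ n}

/-- Row MULT. -/
def SMult : Prop := ∀ x Sg be : ℝ, Top x Sg be → CL (Xt x Sg be) → Nd x Sg be → Fix x Sg be →
  ∀ (z : ℕ → Tr0) (M : ℕ → ℕ) (u : ℕ → ℤ) (h : ℕ → Hx), Grp x Sg be z M u → Hex Sg z M h →
    Dys be M h → ∃ (z' : ℕ → Tr0) (g c₀ : ℕ → ℤ), X0 x Sg be z' M ∧ Un M c₀ ∧
      Mu (fun n => (z n).P) (fun n => (z n).b) M
        (Val (fun n => (z' n).P) (fun n => (z' n).c) g c₀)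

/-- Row BOUND. -/
def SBnd : Prop := CV → ∀ x Sg be : ℝ, Top x Sg be → Nd x Sg be →
  ∀ (z : ℕ → Tr0) (M : ℕ → ℕ) (u : ℕ → ℤ), Grp x Sg be z M u →
    Bnd M (Sg - be) (Mu (fun n => (z n).P) (fun n => (z n).b) M)

/-- Row RING. -/
def SRg : Prop := ∀ (Ω : ℕ → Type) (P : ∀ n, FP (Ω n)) (Y : ∀ n, Ω n → ℤ) (M : ℕ → ℕ), Big M →
  Le M (fun n => hh (prod (P n) (P n)) fun v => Y n v.1 - Y n v.2) (fun n => hh (P n) (Y n)) →
  Rg M (Mu P Y M)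

/-- Row END. -/
def SEnd : Prop := ∀ (M : ℕ → ℕ) (r : ℝ) (μ : (ℕ → Set ℝ) → Prop), Big M → Rg M μ → Bnd M r μ →
  ∀ (Ω : ℕ → Type) (R : ∀ n, FP (Ω n)) (a : ∀ n, Ω n → ℤ) (g c₀ : ℕ → ℤ), Un M c₀ →
    μ (Val R a g c₀) → Rate R a (fun _ _ => ()) M r → ND R a M → 1 ≤ r

/-- The theorem. -/
def ABC : Prop := ∀ x : ℝ, 0 ≤ x → x < 1 → ∀ z M, Cls x z M →
  Le M (fun n => (z n).hb + (z n).hc) fun n => x * M n * lg

theorem glueAB (cv : CV) (clo : SClo) (xl : SXl) (diag : SDiag) (zoom : SZoom) (reg : SReg)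
    (nd : SNd) (fix : SFix) (grp : SGrp) (hex : SHex) (dys : SDys) (mult : SMult) (bnd : SBnd)
    (rg : SRg) (fin : SEnd) : ABC := by
  intro x h0 h1 z M hz
  by_contra hn
  obtain ⟨Sg, be, z₁, M₁, hx, top, xt⟩ := diag x ⟨z, M, hz, hn⟩
  have cl := xl x Sg be (clo x).1 top
  have re := reg x Sg be (clo x).2 (zoom cv x) top
  have n1 := nd cv x Sg be h0 hx top cl re
  have fx := fix x Sg be top
  obtain ⟨s, x1, -⟩ := fx z₁ M₁ (fun _ _ => True) xt (Whp.of_ev (by simp))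
  obtain ⟨z₂, u, gr⟩ := grp x Sg be top cl n1 fx _ M₁ x1
  obtain ⟨h, hh⟩ := hex x Sg be z₂ M₁ gr.xt
  obtain ⟨z₃, g, c₀, x3, un, mu⟩ :=
    mult x Sg be top cl n1 fx z₂ M₁ u h gr hh (dys cv x Sg be top z₂ M₁ u h gr hh)
  have big : Big M₁ := xt.cls.big
  have r1 := rg _ (fun n => (z₂ n).P) (fun n => (z₂ n).b) M₁ big
    (gr.dbl.trans (gr.xt.fst.trans (Le.of_le fun n => (ch_unit _).le)))
  have := fin M₁ (Sg - be) _ big r1 (bnd cv x Sg be top n1 z₂ M₁ u gr) _ _ _ g c₀ un mu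
    (re _ M₁ x3).2 (n1 z₃ M₁ x3).2.2
  linarith [(n1 z₃ M₁ x3).1.2]

end Pool.Agent.MP_5168f5_an.MX.AB
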