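import Pool.Agent.MP_5168f5_an.MX.ABMain

/-! The bound for products: forms for variables of unit size. -/

namespace Pool.Agent.MP_5168f5_an.MX.AB

open H19 H17S H17F Filter

variable {Ω T : ℕ → Type} {P : ∀ n, FP (Ω n)} {θ : ∀ n, Ω n → T n} {M : ℕ → ℕ} {Λ : ℕ → ℝ}
  {x : ℝ} {b c : ∀ n, Ω n → ℤ} {L Lb : ∀ n, T n → Lv}

/-- All levels have rate `x` with high probability. -/
def Cvq (x : ℝ) (M : ℕ → ℕ) (P : ∀ n, FP (Ω n)) (θ : ∀ n, Ω n → T n) (L : ∀ n, T n → Lv) : Prop :=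
  ∀ (q : ℕ) (ε : ℝ), 0 < ε → Whp P fun n ω => Cov ((L n (θ n ω)).S q) x (M n) (ε * M n)

namespace ABW

/-- A copy given `c` and the side information. -/
noncomputable def Q {Ω T : Type} (P : FP Ω) (c : Ω → ℤ) (θ : Ω → T) : FP (Ω × Ω) :=
  glue P P (fun ω => (c ω, θ ω)) fun ω => (c ω, θ ω)

section One

variable {Ω T α : Type} (P : FP Ω) (b c : Ω → ℤ) (θ : Ω → T)

theorem fst : Law (Q P c θ) Prod.fst P id := kg.fst _ _ _ _

theorem snd : Law (Q P c θ) Prod.snd P id := kg.snd _ _ _ _ (Law.rfl _)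

variable {P c θ} in
theorem mem {v : Ω × Ω} (h : v ∈ (Q P c θ).S) : c v.2 = c v.1 ∧ θ v.2 = θ v.1 :=
  Prod.mk.inj ((kg.mem _ _ _ _ v (Law.rfl _)).1 h).2.2

theorem ge {G : Ω × Ω → α} (h : Fn (Q P c θ) G Prod.snd) :
    ch P b (fun ω => (c ω, θ ω)) ≤ ch (Q P c θ) (fun v => b v.1) G := by
  have k := kg.mkv' P P (fun ω => (c ω, θ ω)) (fun ω => (c ω, θ ω)) b (fun _ => ()) id (Law.rfl _)
    fun u _ v _ e => by rw [show u = v from e]
  exact (ch_anti ((Fn.rfl _).pair fun _ _ _ _ _ => rfl)).trans (k.symm.le.trans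
    (ch_anti (h.left _)))

theorem hb : ch P b θ ≤ ch (Q P c θ) (fun v => b v.1) (fun v => (b v.2, θ v.1)) + mi P b c θ := by
  have := ge P b c θ (G := fun v => (b v.2, θ v.1)) fun u hu v hv e => by
    simp only [← (mem hu).2, ← (mem hv).2, e]
  unfold mi; linarith

theorem hc : ch P c θ ≤ ch (Q P c θ) (fun v => c v.1) (fun v => (b v.2, θ v.1)) + mi P b c θ := by
  have h1 := (snd P c θ).ch_id c fun ω => (b ω, θ ω)
  have h2 : ch (Q P c θ) (fun v => c v.2) (fun v => (b v.2, θ v.2)) =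
      ch (Q P c θ) (fun v => c v.1) fun v => (b v.2, θ v.1) :=
    ch_ext (fun v hv => (mem hv).1) fun v hv => by rw [(mem hv).2]
  rw [mi_symm]; unfold mi; linarith

theorem inf : mi (Q P c θ) (fun v => b v.1) (fun v => c v.1) (fun v => (b v.2, θ v.1)) ≤
    mi P b c θ := by
  have h1 := ge P b c θ (G := fun v => (c v.1, b v.2, θ v.1)) fun u hu v hv e => by
    simp only [← (mem hu).1, ← (mem hv).1, ← (mem hu).2, ← (mem hv).2, e]
  have h2 : ch (Q P c θ) (fun v => b v.1) (fun v => (b v.2, θ v.1)) ≤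
      ch (Q P c θ) (fun v => b v.1) fun v => θ v.1 := ch_anti (Fn.snd _ _)
  have h3 := (fst P c θ).ch_id b θ
  unfold mi; linarith

end One

theorem whp1 {E : ∀ n, Ω n → Prop} (h : Whp P E) :
    Whp (fun n => Q (P n) (c n) (θ n)) fun n v => E n v.1 :=
  ABCloA.whp_law (fun n => fst (P n) (c n) (θ n)) E h

theorem whp2 {E : ∀ n, Ω n → Prop} (h : Whp P E) :
    Whp (fun n => Q (P n) (c n) (θ n)) fun n v => E n v.2 :=
  ABCloA.whp_law (fun n => snd (P n) (c n) (θ n)) E h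

theorem Nr.mono {A : Set ℝ} {r r' y : ℝ} (h : Nr A r y) (e : r ≤ r') : Nr A r' y :=
  h.imp fun _ a => ⟨a.1, a.2.trans e⟩

theorem nr (hΛ : Sub M Λ) (h : Whp P fun n ω =>
      Nr ((L n (θ n ω)).S 1) (Λ n) (b n ω * c n ω / 2 ^ M n) ∧ 2 ^ M n ≤ Λ n * |(b n ω : ℝ)|) :
    Whp (fun n => Q (P n) (c n) (θ n)) fun n v =>
      Nr (((L n (θ n v.1)).tr 1 (b n v.2 / 2 ^ M n)).S 1) (Λ n * Λ n) (c n v.1) := by
  refine (whp2 h).mono (Eventually.of_forall fun n v hv ⟨⟨a, h1, h2⟩, h3⟩ => ?_)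
  have p : (0 : ℝ) < 2 ^ M n := by positivity
  have l := hΛ.pos n
  have p1 : 0 < |(b n v.2 : ℝ)| := (mul_pos_iff_of_pos_left l).1 (p.trans_le h3)
  have p2 := abs_pos.1 p1
  rw [(mem hv).2] at h1
  rw [(mem hv).1] at h2
  refine ⟨a * 2 ^ M n / b n v.2, ?_, ?_⟩
  · change _ * _ ∈ (L n (θ n v.1)).S (1 * 1)
    rwa [show (b n v.2 : ℝ) / 2 ^ M n * (a * 2 ^ M n / b n v.2) = a by field_simp]
  · rw [show (c n v.1 : ℝ) - a * 2 ^ M n / b n v.2 =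
      (b n v.2 * c n v.1 / 2 ^ M n - a) * 2 ^ M n / b n v.2 by field_simp, abs_div, abs_mul,
      abs_of_pos p, div_le_iff₀ p1, mul_assoc]
    exact mul_le_mul h2 h3 p.le l.le

theorem cov (hM : Big M) (hΛ : Sub M Λ)
    (hb : ∀ᶠ n in UF, ∀ ω ∈ (P n).S, |(b n ω : ℝ)| ≤ Λ n * 2 ^ M n)
    (h : Whp P fun n ω => 2 ^ M n ≤ Λ n * |(b n ω : ℝ)|) (hL : Cvq x M P θ L) :
    Cvq x M (fun n => Q (P n) (c n) (θ n)) (fun n v => (b n v.2, θ n v.1))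
      fun n t => (L n t.2).tr 1 (t.1 / 2 ^ M n) := by
  intro q ε hε
  refine ((whp1 (hL (1 * q) _ (half_pos hε))).and (whp2 h)).mono ?_
  filter_upwards [hb, hΛ.log3 hM 2 _ (half_pos hε)] with n a d v hv ⟨h1, h2⟩
  have p : (0 : ℝ) < 2 ^ M n := by positivity
  refine rowCV.mono _ _ _ _ _ _ _ (rowCV.unit _ _ _ (b n v.2 / 2 ^ M n) (Λ n) _ h1 (hΛ.1 n) ?_ ?_)
    subset_rfl le_rfl (by linarith)
  · rw [abs_div, abs_of_pos p, div_le_div_iff₀ (hΛ.pos n) p]; linarith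
  · rw [abs_div, abs_of_pos p, div_le_iff₀ p]; exact a _ ((snd _ _ _).mem hv)

theorem cov1 (hL : Cvq x M P θ L) : Cvq x M (fun n => Q (P n) (c n) (θ n))
    (fun n v => (b n v.2, θ n v.1)) fun n t => L n t.2 := fun q ε hε => whp1 (hL q ε hε)

end ABW

open ABW

/-- The first variable has unit size and lies near a family of levels. -/
theorem abc_half (h0 : 0 ≤ x) (h1 : x < 1) (hM : Big M) (hΛ : Sub M Λ)
    (hb : ∀ᶠ n in UF, ∀ ω ∈ (P n).S,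
      |(b n ω : ℝ)| ≤ Λ n * 2 ^ M n ∧ |(c n ω : ℝ)| ≤ Λ n * 2 ^ M n)
    (hw : Whp P fun n ω => Nr ((L n (θ n ω)).S 1) (Λ n) (b n ω * c n ω / 2 ^ M n) ∧
      2 ^ M n ≤ Λ n * |(b n ω : ℝ)|)
    (hx : Whp P fun n ω => Nr ((Lb n (θ n ω)).S 1) (Λ n) (b n ω))
    (hI : Sm M fun n => mi (P n) (b n) (c n) (θ n)) (hL : Cvq x M P θ L) (hLb : Cvq x M P θ Lb) :
    Le M (fun n => ch (P n) (b n) (θ n) + ch (P n) (c n) (θ n)) fun n => x * M n * lg := by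
  have s : ∀ n, Λ n ≤ Λ n * Λ n := fun n => by nlinarith [hΛ.1 n]
  have k := abc x h0 h1 (fun n => ⟨_, _, Q (P n) (c n) (θ n), fun v => (b n v.2, θ n v.1),
    fun v => b n v.1, fun v => c n v.1, fun t => L n t.2, fun t => Lb n t.2,
    fun t => (L n t.2).tr 1 (t.1 / 2 ^ M n)⟩) M ⟨hM, ⟨_, hΛ.mul hΛ, hb.mono fun n a v hv =>
      ⟨(a _ ((fst _ _ _).mem hv)).1.trans (mul_le_mul_of_nonneg_right (s n) (by positivity)),
        (a _ ((fst _ _ _).mem hv)).2.trans (mul_le_mul_of_nonneg_right (s n) (by positivity))⟩,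
      (((whp1 hw).and (whp1 hx)).and (nr hΛ hw)).mono (Eventually.of_forall fun n v _ a =>
        ⟨Nr.mono a.1.1.1 (s n), Nr.mono a.1.2 (s n), a.2⟩)⟩,
      hI.mono (Eventually.of_forall fun n => inf _ _ _ _), fun q ε hε =>
        (cov1 (b := b) hL q ε hε).and ((cov1 (b := b) hLb q ε hε).and
          (cov hM hΛ (hb.mono fun _ a ω hω => (a ω hω).1)
            (hw.mono (Eventually.of_forall fun _ _ _ a => a.2)) hL q ε hε))⟩
  exact k.of3 hI hI (Eventually.of_forall fun n => by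
    simp only [Tr.hb, Tr.hc]
    linarith [ABW.hb (P n) (b n) (c n) (θ n), hc (P n) (b n) (c n) (θ n)])

/-- Both variables have unit size. -/
theorem abc_unit (h0 : 0 ≤ x) (h1 : x < 1) (hM : Big M) (hΛ : Sub M Λ)
    (hb : ∀ᶠ n in UF, ∀ ω ∈ (P n).S,
      |(b n ω : ℝ)| ≤ Λ n * 2 ^ M n ∧ |(c n ω : ℝ)| ≤ Λ n * 2 ^ M n)
    (hw : Whp P fun n ω => Nr ((L n (θ n ω)).S 1) (Λ n) (b n ω * c n ω / 2 ^ M n) ∧
      2 ^ M n ≤ Λ n * |(b n ω : ℝ)| ∧ 2 ^ M n ≤ Λ n * |(c n ω : ℝ)|)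
    (hI : Sm M fun n => mi (P n) (b n) (c n) (θ n)) (hL : Cvq x M P θ L) :
    Le M (fun n => ch (P n) (b n) (θ n) + ch (P n) (c n) (θ n)) fun n => x * M n * lg := by
  have s : ∀ n, Λ n ≤ Λ n * Λ n := fun n => by nlinarith [hΛ.1 n]
  have hI' : Sm M fun n => mi (P n) (c n) (b n) (θ n) :=
    hI.mono (Eventually.of_forall fun n => (mi_symm _ _ _).le)
  have k := abc_half (P := fun n => Q (P n) (b n) (θ n)) (θ := fun n v => (c n v.2, θ n v.1))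
    (b := fun n v => b n v.1) (c := fun n v => c n v.1) (L := fun n t => L n t.2)
    (Lb := fun n t => (L n t.2).tr 1 (t.1 / 2 ^ M n)) h0 h1 hM (hΛ.mul hΛ)
    (hb.mono fun n a v hv =>
      ⟨(a _ ((fst _ _ _).mem hv)).1.trans (mul_le_mul_of_nonneg_right (s n) (by positivity)),
        (a _ ((fst _ _ _).mem hv)).2.trans (mul_le_mul_of_nonneg_right (s n) (by positivity))⟩)
    ((whp1 hw).mono (Eventually.of_forall fun n v _ a => ⟨Nr.mono a.1 (s n),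
      a.2.1.trans (mul_le_mul_of_nonneg_right (s n) (abs_nonneg _))⟩))
    (nr hΛ (hw.mono (Eventually.of_forall fun n ω _ a => ⟨by rw [mul_comm]; exact a.1, a.2.2⟩)))
    (hI'.mono (Eventually.of_forall fun n => (mi_symm _ _ _).le.trans (inf _ _ _ _))) (cov1 hL)
    (cov hM hΛ (hb.mono fun _ a ω hω => (a ω hω).2)
      (hw.mono (Eventually.of_forall fun _ _ _ a => a.2.2)) hL)
  exact k.of3 hI' hI' (Eventually.of_forall fun n => by
    linarith [ABW.hb (P n) (c n) (b n) (θ n), hc (P n) (c n) (b n) (θ n)])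

variable {B C : ∀ n, Ω n → ℝ}

theorem abs_fl1_le {m : ℕ} {y l : ℝ} (hl : 1 ≤ l) (h : |y| ≤ l) :
    |(fl1 m y : ℝ)| ≤ 4 * l * 2 ^ m := by
  have p : (1 : ℝ) ≤ 2 ^ m := one_le_pow₀ one_le_two
  have a := abs_le.1 (abs_fl1_sub m y)
  have d := abs_le.1 h
  rw [abs_le]; constructor <;> nlinarith [a.1, a.2, d.1, d.2]

theorem le_abs_fl1 {m : ℕ} {y l : ℝ} (hl : 1 ≤ l) (h : 1 ≤ l * |y|) (h' : 2 * l ≤ 2 ^ m) :
    2 ^ m ≤ 4 * l * |(fl1 m y : ℝ)| := by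
  have p : (0 : ℝ) < 2 ^ m := by positivity
  have a := abs_sub_abs_le_abs_sub (2 ^ m * y) (fl1 m y)
  rw [abs_sub_comm, abs_mul, abs_of_pos p] at a
  have d := mul_le_mul_of_nonneg_left (a.trans (abs_fl1_sub m y)) (zero_le_one.trans hl)
  nlinarith [abs_nonneg (fl1 m y : ℝ)]

theorem fl1_mul {m : ℕ} {y z l : ℝ} (hl : 1 ≤ l) (hy : |y| ≤ l) (hz : |z| ≤ l) :
    |(fl1 m y : ℝ) * fl1 m z / 2 ^ m - 2 ^ m * (y * z)| ≤ 3 * l := by
  have p : (1 : ℝ) ≤ 2 ^ m := one_le_pow₀ one_le_two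
  have a := abs_fl1_sub m y
  have d := abs_fl1_sub m z
  have e : (fl1 m y : ℝ) * fl1 m z / 2 ^ m - 2 ^ m * (y * z) = (fl1 m y - 2 ^ m * y) * z +
      y * (fl1 m z - 2 ^ m * z) + (fl1 m y - 2 ^ m * y) * (fl1 m z - 2 ^ m * z) / 2 ^ m := by
    field_simp; ring
  have e1 : |((fl1 m y : ℝ) - 2 ^ m * y) * z| ≤ 1 * l := by
    rw [abs_mul]; exact mul_le_mul a hz (abs_nonneg _) zero_le_one
  have e2 : |y * ((fl1 m z : ℝ) - 2 ^ m * z)| ≤ l * 1 := by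
    rw [abs_mul]; exact mul_le_mul hy d (abs_nonneg _) (by linarith)
  have e3 : |((fl1 m y : ℝ) - 2 ^ m * y) * (fl1 m z - 2 ^ m * z) / 2 ^ m| ≤ 1 := by
    rw [abs_div, abs_mul, abs_of_pos (by positivity : (0 : ℝ) < 2 ^ m), div_le_one (by positivity)]
    exact (mul_le_one₀ a (abs_nonneg _) d).trans p
  rw [e]
  linarith [abs_add_three (((fl1 m y : ℝ) - 2 ^ m * y) * z) (y * ((fl1 m z : ℝ) - 2 ^ m * z))
    (((fl1 m y : ℝ) - 2 ^ m * y) * (fl1 m z - 2 ^ m * z) / 2 ^ m)]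

theorem Nr.near {A : Set ℝ} {r s y y' : ℝ} (h : Nr A r y) (e : |y' - y| ≤ s) : Nr A (r + s) y' :=
  h.imp fun a k => ⟨k.1, by linarith [abs_sub_le y' y a, k.2]⟩

theorem sub_le_pow (hM : Big M) (hΛ : Sub M Λ) : ∀ᶠ n in UF, 2 * Λ n ≤ 2 ^ M n :=
  ((hΛ.const_mul hM one_le_two).2 (1 / 2) (by norm_num)).mono fun n a =>
    a.trans (le_of_eq_of_le (by rw [one_div, inv_mul_eq_div]) (exp_le_two_pow (M n)))

/-- Real variables of unit size; the levels are in units of `2 ^ (-M)`. -/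
theorem abc_real (h0 : 0 ≤ x) (h1 : x < 1) (hM : Big M) (hΛ : Sub M Λ)
    (hb : ∀ᶠ n in UF, ∀ ω ∈ (P n).S, |B n ω| ≤ Λ n ∧ |C n ω| ≤ Λ n)
    (hw : Whp P fun n ω => Nr ((L n (θ n ω)).S 1) (Λ n) (2 ^ M n * (B n ω * C n ω)) ∧
      1 ≤ Λ n * |B n ω| ∧ 1 ≤ Λ n * |C n ω|)
    (hI : Sm M fun n => mi (P n) (fun ω => fl1 (M n) (B n ω)) (fun ω => fl1 (M n) (C n ω)) (θ n))
    (hL : Cvq x M P θ L) :
    Le M (fun n => ch (P n) (fun ω => fl1 (M n) (B n ω)) (θ n) +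
      ch (P n) (fun ω => fl1 (M n) (C n ω)) (θ n)) fun n => x * M n * lg := by
  refine abc_unit h0 h1 hM (hΛ.const_mul hM (C := 4) (by norm_num)) (hb.mono fun n a ω hω =>
    ⟨abs_fl1_le (hΛ.1 n) (a ω hω).1, abs_fl1_le (hΛ.1 n) (a ω hω).2⟩) (hw.mono ?_) hI hL
  filter_upwards [hb, sub_le_pow hM hΛ] with n a d ω hω k
  exact ⟨Nr.mono (k.1.near (fl1_mul (hΛ.1 n) (a ω hω).1 (a ω hω).2)) (by linarith),
    le_abs_fl1 (hΛ.1 n) k.2.1 d, le_abs_fl1 (hΛ.1 n) k.2.2 d⟩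

/-- Real variables, the first of unit size and near a family of levels. -/
theorem abc_real_half (h0 : 0 ≤ x) (h1 : x < 1) (hM : Big M) (hΛ : Sub M Λ)
    (hb : ∀ᶠ n in UF, ∀ ω ∈ (P n).S, |B n ω| ≤ Λ n ∧ |C n ω| ≤ Λ n)
    (hw : Whp P fun n ω => Nr ((L n (θ n ω)).S 1) (Λ n) (2 ^ M n * (B n ω * C n ω)) ∧
      1 ≤ Λ n * |B n ω|)
    (hx : Whp P fun n ω => Nr ((Lb n (θ n ω)).S 1) (Λ n) (2 ^ M n * B n ω))
    (hI : Sm M fun n => mi (P n) (fun ω => fl1 (M n) (B n ω)) (fun ω => fl1 (M n) (C n ω)) (θ n))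
    (hL : Cvq x M P θ L) (hLb : Cvq x M P θ Lb) :
    Le M (fun n => ch (P n) (fun ω => fl1 (M n) (B n ω)) (θ n) +
      ch (P n) (fun ω => fl1 (M n) (C n ω)) (θ n)) fun n => x * M n * lg := by
  refine abc_half h0 h1 hM (hΛ.const_mul hM (C := 4) (by norm_num)) (hb.mono fun n a ω hω =>
    ⟨abs_fl1_le (hΛ.1 n) (a ω hω).1, abs_fl1_le (hΛ.1 n) (a ω hω).2⟩) (hw.mono ?_)
    (hx.mono (Eventually.of_forall fun n ω _ k =>
      Nr.mono (k.near (abs_fl1_sub _ _)) (by linarith [hΛ.1 n]))) hI hL hLb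
  filter_upwards [hb, sub_le_pow hM hΛ] with n a d ω hω k
  exact ⟨Nr.mono (k.1.near (fl1_mul (hΛ.1 n) (a ω hω).1 (a ω hω).2)) (by linarith),
    le_abs_fl1 (hΛ.1 n) k.2 d⟩

end Pool.Agent.MP_5168f5_an.MX.AB
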