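import Pool.Agent.MP_5168f5_an.MX.ABW
import Pool.Agent.MP_5168f5_an.MX.FroK

/-! The bound for products: a regular variable against an arbitrary one. -/

namespace Pool.Agent.MP_5168f5_an.MX.AB

open H19 H17S H17F Filter

theorem E_label {Ω J : Type} [Fintype J] (P : FP Ω) (ι : Ω → J) (g : J → ℝ) :
    P.E (fun ω => g (ι ω)) = ∑ i, pb P (fun ω => ι ω = i) * g i := by
  classical
  simp only [pb, mul_comm _ (g _), ← FP.E_mul]
  rw [← FP.E_sum]
  refine P.E_congr fun ω _ => ?_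
  rw [Finset.sum_eq_single (ι ω) (fun i _ h => by simp [h.symm]) (by simp)]
  simp

variable {Ω T α : ℕ → Type} {P : ∀ n, FP (Ω n)} {θ : ∀ n, Ω n → T n} {M : ℕ → ℕ} {Λ D : ℕ → ℝ}
  {x β : ℝ} {L : ∀ n, T n → Lv} {B C : ∀ n, Ω n → ℝ}

/-- An upper bound on all classes of positive probability is an upper bound. -/
theorem split {J : Type} [Fintype J] (ι : ∀ n, Ω n → J) {F : ∀ n, Ω n → α n} (hM : Big M) (K : ℝ)
    (hF : ∀ i, Le M (fun n => ch (cE (P n) fun ω => ι n ω = i) (F n) (θ n)) fun n => K * M n)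
    (hD : ∀ n, 0 ≤ D n) (h : ∀ i, Pos P (fun n ω => ι n ω = i) →
      Le M (fun n => ch (cE (P n) fun ω => ι n ω = i) (F n) (θ n)) D) :
    Le M (fun n => ch (P n) (F n) (θ n)) D := by
  classical
  have k : ∀ i ∈ Finset.univ, Le M (fun n => pb (P n) (fun ω => ι n ω = i) *
      ch (cE (P n) fun ω => ι n ω = i) (F n) (θ n))
      fun n => pb (P n) (fun ω => ι n ω = i) * D n := by
    intro i _
    by_cases w : Whp P fun n ω => ¬ι n ω = i
    · intro ε hε
      filter_upwards [w (ε / (|K| + 1)) (by positivity), hF i 1 one_pos] with n a d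
      simp only [not_not] at a
      have e := mul_le_mul_of_nonneg_right (le_abs_self K) (Nat.cast_nonneg (α := ℝ) (M n))
      have e1 := mul_le_mul a (d.trans (show _ ≤ (|K| + 1) * M n by linarith)) (ch_nonneg _ _)
        (by positivity)
      rw [← mul_assoc, div_mul_cancel₀ _ (by positivity)] at e1
      linarith [mul_nonneg (pb_nonneg (P n) fun ω => ι n ω = i) (hD n)]
    · exact (h i (by simpa only [not_not] using not_whp w)).bmul (C := 1)
        (Eventually.of_forall fun n => ⟨pb_nonneg _ _, pb_le_one _ _⟩)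
  refine (Le.sum _ k).of2 (hM.sm (Real.log (Fintype.card J))) (Eventually.of_forall fun n => ?_)
  have a1 := ch_tri (P := P n) (F n) (ι n) (θ n)
  have a2 : ch (P n) (ι n) (θ n) ≤ Real.log (Fintype.card J) :=
    ch_det fun _ _ => ⟨Finset.univ, le_rfl, fun _ _ _ => Finset.mem_univ _⟩
  have a3 : ch (P n) (F n) (fun ω => (ι n ω, θ n ω)) ≤ ch (P n) (F n) fun ω => (θ n ω, ι n ω) :=
    ch_anti ((Fn.snd _ _).pair (Fn.fst _ _))
  have a4 := (ke.ent (P n) (ι n) (fun _ => F n) fun _ => θ n).trans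
    (E_label (P n) (ι n) fun i => ch (cv (P n) (ι n) i) (F n) (θ n))
  have a5 := (E_label (P n) (ι n) fun _ => D n).symm.trans ((P n).E_const _)
  unfold cv at a4
  linarith

/-- The number of leading zero digits. -/
def lz (m : ℕ) (c : ℤ) : ℕ := m - Nat.log 2 c.natAbs

theorem lz_le (m : ℕ) (c : ℤ) : lz m c ≤ m := Nat.sub_le _ _

theorem lz_up {m : ℕ} {c : ℤ} {l : ℝ} (hl : 2 ≤ l) (h : |(c : ℝ)| ≤ l * 2 ^ m) :
    2 ^ lz m c * |(c : ℝ)| ≤ l * 2 ^ m := by
  unfold lz
  rcases le_total m (Nat.log 2 c.natAbs) with k | k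
  · rwa [Nat.sub_eq_zero_of_le k, pow_zero, one_mul]
  · have h1 : ((c.natAbs : ℕ) : ℝ) ≤ (2 ^ (Nat.log 2 c.natAbs + 1) : ℕ) := by
      exact_mod_cast (Nat.lt_pow_succ_log_self one_lt_two c.natAbs).le
    rw [Nat.cast_natAbs, Int.cast_abs] at h1
    push_cast at h1
    refine (mul_le_mul_of_nonneg_left h1 (by positivity)).trans ?_
    rw [← pow_add, ← add_assoc, Nat.sub_add_cancel k, pow_succ, mul_comm]
    exact mul_le_mul_of_nonneg_right hl (by positivity)

theorem lz_low {m : ℕ} {c : ℤ} (h : lz m c < m) : 2 ^ m ≤ 2 ^ lz m c * |(c : ℝ)| := by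
  have h0 : c.natAbs ≠ 0 := fun e => by simp [lz, e] at h
  have h1 : ((2 ^ Nat.log 2 c.natAbs : ℕ) : ℝ) ≤ (c.natAbs : ℕ) := by
    exact_mod_cast Nat.pow_log_le_self 2 h0
  rw [Nat.cast_natAbs, Int.cast_abs] at h1
  push_cast at h1
  refine le_trans ?_ (mul_le_mul_of_nonneg_left h1 (by positivity))
  rw [← pow_add]
  exact pow_le_pow_right₀ one_le_two (by unfold lz; omega)

theorem sm_lz (hM : Big M) (c : ∀ n, Ω n → ℤ) :
    Sm M fun n => ch (P n) (fun ω => lz (M n) (c n ω)) (θ n) :=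
  (Sub.nat hM).log.mono (Eventually.of_forall fun _ => ch_label (fun _ _ => lz_le _ _) _)

/-- One class of sizes. -/
theorem abc_cls (h0 : 0 ≤ x) (h1 : x < 1) (hM : Big M) (hΛ : Sub M Λ) (hβ : 0 < β)
    (hb : ∀ᶠ n in UF, ∀ ω ∈ (P n).S, |B n ω| ≤ Λ n ∧ |C n ω| ≤ Λ n)
    (hw : Whp P fun n ω => Nr ((L n (θ n ω)).S 1) (Λ n) (2 ^ M n * (B n ω * C n ω)))
    (hF : Fro P θ B M β)
    (hI : Sm M fun n => mi (P n) (fun ω => fl1 (M n) (B n ω)) (fun ω => fl1 (M n) (C n ω)) (θ n))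
    (hL : Cvq x M P θ L) (a m : ℕ → ℕ) (ha : ∀ᶠ n in UF, ∀ ω ∈ (P n).S,
      a n ≤ lz (M n) (fl1 (M n) (C n ω)) ∧ lz (M n) (fl1 (M n) (C n ω)) < a n + m n) :
    Le M (fun n => ch (P n) (fun ω => fl1 (M n) (C n ω)) (θ n)) fun n =>
      max (x - β) 0 * M n * lg + m n * lg := by
  have s4 := hΛ.const_mul hM (C := 4) (by norm_num)
  have up : ∀ᶠ n in UF, ∀ ω ∈ (P n).S, 2 ^ lz (M n) (fl1 (M n) (C n ω)) *
      |(fl1 (M n) (C n ω) : ℝ)| ≤ 4 * Λ n * 2 ^ M n := hb.mono fun n k ω hω =>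
    lz_up (by linarith [hΛ.1 n]) (abs_fl1_le (hΛ.1 n) (k ω hω).2)
  have p0 : ∀ n, 0 ≤ max (x - β) 0 * M n * lg := fun n =>
    mul_nonneg (by positivity) lg_pos.le
  refine Le.win (i := fun n => M n - (a n + m n)) (fun n => Nat.sub_le _ _) lg (fun hf => ?_) ?_
  · obtain ⟨U, hU, wU⟩ := hF.unit hM hβ (y := fun _ _ => 0) fun _ _ _ _ _ _ => rfl
    have lt : ∀ᶠ n in UF, a n + m n < M n := ((hM.frac hf).ev 1).mono fun n k => by
      have : 1 ≤ M n - (a n + m n) := by exact_mod_cast k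
      omega
    have k := abc_real (P := P) (θ := fun n ω => (lz (M n) (fl1 (M n) (C n ω)), θ n ω)) (B := B)
      (C := fun n ω => 2 ^ lz (M n) (fl1 (M n) (C n ω)) * fl1 (M n) (C n ω) / 2 ^ M n)
      (L := fun n t => (L n t.2).tr 1 (2 ^ (a n + m n - t.1))) h0 h1 (hM.frac hf)
      ((s4.mul hU).frac hf) ?_ ((hw.and wU).mono ?_) ((hI.mono (Eventually.of_forall fun n =>
        (mi_mono' fun _ _ _ _ e => fl1_eq_of_le (Nat.sub_le _ _) (congrArg Prod.fst e)).trans
          (mi_right (Fn.snd _ _) (((Fn.comp (lz (M n)) _).left _).pair (Fn.snd _ _))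
            ((Fn.comp (fun c : ℤ => fl1 (M n - (a n + m n)) (2 ^ lz (M n) c * c / 2 ^ M n))
              _).left _)))).frac hf) ?_
    · have e1 := (hF.side hM (sm_lz hM fun n ω => fl1 (M n) (C n ω))).ent hβ.le hf.1
      have e2 : Le M (fun n => ch (P n) (fun ω => fl1 (M n) (C n ω)) fun ω =>
          (fl1 (M n - (a n + m n)) (2 ^ lz (M n) (fl1 (M n) (C n ω)) * fl1 (M n) (C n ω) / 2 ^ M n),
            lz (M n) (fl1 (M n) (C n ω)), θ n ω)) fun n => m n * lg := by
        refine le_int hM (hM.sub le_rfl) ?_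
        filter_upwards [ha, lt] with n d l u hu v _ e
        simp only [Prod.mk.injEq] at e
        have e3 := abs_sub_lt_of_fl1_eq e.1
        rw [← e.2.1, ← sub_div, ← mul_sub, abs_div, abs_mul, abs_of_pos (by positivity),
          abs_of_pos (by positivity : (0 : ℝ) < 2 ^ M n), div_lt_iff₀ (by positivity),
          mul_comm _ ((2 : ℝ) ^ M n), ← pow_sub₀ (2 : ℝ) two_ne_zero (Nat.sub_le _ _),
          Nat.sub_sub_self l.le, pow_add] at e3
        have e4 : (2 : ℝ) ^ a n ≤ 2 ^ lz (M n) (fl1 (M n) (C n u)) :=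
          pow_le_pow_right₀ one_le_two (d u hu).1
        refine le_of_mul_le_mul_left ?_ (show (0 : ℝ) < 2 ^ a n by positivity)
        nlinarith [abs_nonneg ((fl1 (M n) (C n u) : ℝ) - fl1 (M n) (C n v))]
      refine (k.up hf.1).of4 e1 e2 (sm_lz (P := P) (θ := θ) hM fun n ω => fl1 (M n) (C n ω))
        (Eventually.of_forall fun n => ?_)
      have e3 := ch_tri (P := P n) (fun ω => fl1 (M n) (C n ω))
        (fun ω => lz (M n) (fl1 (M n) (C n ω))) (θ n)
      have e4 := ch_tri (P := P n) (fun ω => fl1 (M n) (C n ω)) (fun ω => fl1 (M n - (a n + m n))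
        (2 ^ lz (M n) (fl1 (M n) (C n ω)) * fl1 (M n) (C n ω) / 2 ^ M n))
        fun ω => (lz (M n) (fl1 (M n) (C n ω)), θ n ω)
      have e5 : (x - β) * ((M n - (a n + m n) : ℕ) * lg) ≤ max (x - β) 0 * (M n * lg) :=
        mul_le_mul (le_max_left _ _) (mul_le_mul_of_nonneg_right (by exact_mod_cast hf.1 n)
          lg_pos.le) (mul_nonneg (by positivity) lg_pos.le) (le_max_right _ _)
      linarith
    · filter_upwards [hb, up] with n d u ω hω
      have l := hΛ.1 n
      have l' := hU.1 n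
      refine ⟨(d ω hω).1.trans (by nlinarith), ?_⟩
      rw [abs_div, abs_mul, abs_of_pos (by positivity),
        abs_of_pos (by positivity : (0 : ℝ) < 2 ^ M n), div_le_iff₀ (by positivity)]
      exact (u ω hω).trans (mul_le_mul_of_nonneg_right (by nlinarith) (by positivity))
    · filter_upwards [hb, ha, lt] with n d g l ω hω ⟨⟨y, y1, y2⟩, u⟩
      have l1 := hΛ.1 n
      have l2 := hU.1 n
      have l3 : 1 ≤ 4 * Λ n * U n := by nlinarith
      set j := lz (M n) (fl1 (M n) (C n ω))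
      have p : (1 : ℝ) ≤ 2 ^ (a n + m n - j) := one_le_pow₀ one_le_two
      refine ⟨⟨y / 2 ^ (a n + m n - j), ?_, ?_⟩, ?_, ?_⟩
      · change _ * _ ∈ (L n (θ n ω)).S (1 * 1)
        rwa [mul_div_cancel₀ _ (by positivity)]
      · have e : (2 : ℝ) ^ M n = 2 ^ (M n - (a n + m n)) * 2 ^ j * 2 ^ (a n + m n - j) := by
          rw [← pow_add, ← pow_add]; congr 1; have := (g ω hω).2; omega
        have e1 : (2 : ℝ) ^ (M n - (a n + m n)) * (B n ω * (2 ^ j * fl1 (M n) (C n ω) / 2 ^ M n)) =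
            B n ω * fl1 (M n) (C n ω) / 2 ^ (a n + m n - j) := by
          rw [e]; field_simp
        have e2 : |B n ω * (fl1 (M n) (C n ω) - 2 ^ M n * C n ω)| ≤ Λ n * 1 := by
          rw [abs_mul]; exact mul_le_mul (d ω hω).1 (abs_fl1_sub _ _) (abs_nonneg _) (by linarith)
        have e3 := abs_add_le (B n ω * (fl1 (M n) (C n ω) - 2 ^ M n * C n ω))
          (2 ^ M n * (B n ω * C n ω) - y)
        rw [e1, ← sub_div, abs_div, abs_of_pos (by positivity : (0 : ℝ) < 2 ^ (a n + m n - j))]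
        refine (div_le_self (abs_nonneg _) p).trans ?_
        rw [show B n ω * fl1 (M n) (C n ω) - y = B n ω * (fl1 (M n) (C n ω) - 2 ^ M n * C n ω) +
          (2 ^ M n * (B n ω * C n ω) - y) by ring]
        nlinarith
      · rw [sub_zero] at u
        nlinarith [abs_nonneg (B n ω)]
      · refine one_le_mul_of_one_le_of_one_le l3 ?_
        rw [abs_div, abs_mul, abs_of_pos (by positivity),
          abs_of_pos (by positivity : (0 : ℝ) < 2 ^ M n), le_div_iff₀ (by positivity), one_mul]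
        exact lz_low ((g ω hω).2.trans l)
    · intro q ε hε
      obtain ⟨-, c, hc, f⟩ := hf
      refine (hL (1 * q) (ε * c) (by positivity)).mono ?_
      filter_upwards [f, lt] with n d l ω _ k
      exact rowCV.mono _ _ _ _ _ _ _ (rowCV.pow _ _ _ _ _ k (by omega)) subset_rfl (by omega)
        (by nlinarith)
  · have k : Le M (fun n => ch (P n) (fun ω => fl1 (M n) (C n ω)) (θ n)) fun n =>
        (M n - a n : ℕ) * lg := by
      refine le_int hM (s4.const_mul hM one_le_two) ?_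
      filter_upwards [ha, up] with n d u
      have e : ∀ ω ∈ (P n).S, |(fl1 (M n) (C n ω) : ℝ)| ≤ 4 * Λ n * 2 ^ (M n - a n) := by
        intro ω hω
        have e1 : (2 : ℝ) ^ a n ≤ 2 ^ lz (M n) (fl1 (M n) (C n ω)) :=
          pow_le_pow_right₀ one_le_two (d ω hω).1
        have e2 := (mul_le_mul_of_nonneg_right e1 (abs_nonneg _)).trans (u ω hω)
        rw [pow_sub₀ _ two_ne_zero ((d ω hω).1.trans (lz_le _ _)), ← mul_assoc, ← div_eq_mul_inv,
          le_div_iff₀ (by positivity)]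
        linarith
      exact fun v hv w hw _ => (abs_sub _ _).trans (by linarith [e v hv, e w hw])
    refine k.of_sub (Eventually.of_forall fun n => ?_)
    have e : ((M n - a n : ℕ) : ℝ) ≤ (M n - (a n + m n) : ℕ) + m n := by
      exact_mod_cast (by omega : M n - a n ≤ M n - (a n + m n) + m n)
    linarith [mul_le_mul_of_nonneg_right e lg_pos.le, p0 n]

/-- A variable with a positive rate from the top against an arbitrary variable. -/
theorem abc_fro (h0 : 0 ≤ x) (h1 : x < 1) (hM : Big M) (hΛ : Sub M Λ) (hβ : 0 < β)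
    (hb : ∀ᶠ n in UF, ∀ ω ∈ (P n).S, |B n ω| ≤ Λ n ∧ |C n ω| ≤ Λ n)
    (hw : Whp P fun n ω => Nr ((L n (θ n ω)).S 1) (Λ n) (2 ^ M n * (B n ω * C n ω)))
    (hF : Fro P θ B M β)
    (hI : Sm M fun n => mi (P n) (fun ω => fl1 (M n) (B n ω)) (fun ω => fl1 (M n) (C n ω)) (θ n))
    (hL : Cvq x M P θ L) :
    Le M (fun n => ch (P n) (fun ω => fl1 (M n) (C n ω)) (θ n)) fun n =>
      max (x - β) 0 * M n * lg := by
  refine Le.eps fun ε hε => ?_
  obtain ⟨G, hG⟩ := exists_nat_gt (1 / ε)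
  have g0 : (0 : ℝ) < G := lt_trans (by positivity) hG
  have g1 : 0 < G := by exact_mod_cast g0
  have lt : ∀ (n : ℕ) (c : ℤ), lz (M n) c / (M n / G + 1) < G := fun n c =>
    (Nat.div_lt_iff_lt_mul (Nat.succ_pos _)).2
      ((lz_le _ _).trans_lt (Nat.lt_mul_div_succ (M n) g1))
  refine (split (P := P) (θ := θ) (F := fun n ω => fl1 (M n) (C n ω))
    (D := fun n => max (x - β) 0 * M n * lg + (M n / G + 1 : ℕ) * lg)
    (fun n ω => (⟨_, lt n (fl1 (M n) (C n ω))⟩ : Fin G)) hM lg (fun i => ?_)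
    (fun n => add_nonneg (mul_nonneg (by positivity) lg_pos.le)
      (mul_nonneg (by positivity) lg_pos.le)) fun i hi => ?_).of2 (hM.sm 1)
    (Eventually.of_forall fun n => ?_)
  · refine (le_int (j := M) hM (hΛ.const_mul hM (C := 8) (by norm_num)) (hb.mono
      fun n d u hu v hv _ => (abs_sub _ _).trans ?_)).trans (Le.of_le fun n => (mul_comm _ _).le)
    linarith [abs_fl1_le (m := M n) (hΛ.1 n) (d u (cE_sub hu)).2,
      abs_fl1_le (m := M n) (hΛ.1 n) (d v (cE_sub hv)).2]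
  · obtain ⟨k, hk, hi'⟩ := id hi
    refine abc_cls h0 h1 hM hΛ hβ (hb.mono fun n d ω hω => d ω (cE_sub hω)) (hw.cE hi)
      (hF.cE hM hi) (Le.of_mul hk hi' ((hI.add (hM.sm lg)).of_sub (Eventually.of_forall fun n => by
        linarith [mi_cE (P n) (fun ω => (⟨_, lt n (fl1 (M n) (C n ω))⟩ : Fin G) = i)
          (fun ω => fl1 (M n) (B n ω)) (fun ω => fl1 (M n) (C n ω)) (θ n)])))
      (fun q ε hε => (hL q ε hε).cE hi) (fun n => (M n / G + 1) * i) _
      (hi.sure.mono fun n d ω hω => ?_)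
    rw [← (d ω hω).2]
    exact ⟨Nat.mul_div_le _ _, by
      simpa only [mul_add, mul_one] using Nat.lt_mul_div_succ _ (Nat.succ_pos (M n / G))⟩
  · have e1 : ((M n / G : ℕ) : ℝ) ≤ M n / G := Nat.cast_div_le
    have e2 : (M n : ℝ) / G ≤ ε * M n := by
      rw [div_lt_iff₀ hε] at hG
      rw [div_le_iff₀ g0]; nlinarith [Nat.cast_nonneg (α := ℝ) (M n)]
    have e3 : ((M n / G + 1 : ℕ) : ℝ) * lg ≤ (M n / G + 1 : ℕ) :=
      mul_le_of_le_one_right (by positivity) lg_lt_one.le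
    push_cast at e3 ⊢
    linarith

end Pool.Agent.MP_5168f5_an.MX.AB
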