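import Pool.Agent.MP_5168f5_an.MX.ALB

/-! The kernel of the first vector against its coefficient. -/

namespace Pool.Agent.MP_5168f5_an.MX.AL

open H19 H17S H17F Filter AB ALBA

namespace ALAA

/-- The data shared by the copies. -/
def pa (z : Q4) : z.Ω → ℤ × (ℤ × ℤ) × z.T := ph z.b (fun ω => (z.a ω).1) z.θ

/-- Two copies. -/
noncomputable def q2 (z : Q4) : FP (z.Ω × z.Ω) := glue z.P z.P (pa z) (pa z)

/-- The difference of two copies, in units of the unit ball. -/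
noncomputable def ls (M : ℕ) (t : (ℤ × ℤ) × ℤ × ℤ) : ℝ := ((t.2.2 : ℝ) - t.1.2) / 2 ^ M

/-- The system of the row. -/
noncomputable def sy (z : Q4) (M : ℕ) : Tr where
  Ω := (z.Ω × z.Ω) × z.Ω
  T := ((ℤ × ℤ) × ℤ × ℤ) × z.T
  P := glue (q2 z) z.P (fun u => pa z u.1) (pa z)
  θ := fun v => ((z.a v.1.1, z.a v.1.2), z.θ v.1.1)
  b := fun v => (z.a v.2).2 - (z.a v.1.1).2
  c := fun v => z.cz v.1.1
  L := fun t => (z.L t.2).tr 2 1
  Lb := fun t => (z.La t.2).tr 2 1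
  Lc := fun t => (z.L t.2).tr 2 (ls M t.1)

variable {z : Q4} {M : ℕ} {Λ K : ℝ}

theorem fn1 (z : Q4) : Fn z.P (fun ω => (z.a ω).1) fun ω => (z.a ω, z.θ ω) :=
  (Fn.comp Prod.fst _).left _

theorem l1 (z : Q4) : Law (q2 z) Prod.fst z.P id := kg.fst _ _ _ _

theorem l2 (z : Q4) : Law (q2 z) Prod.snd z.P id := kg.snd _ _ _ _ (Law.rfl _)

theorem l12 (z : Q4) (M : ℕ) : Law (sy z M).P Prod.fst (q2 z) id := kg.fst _ _ _ _

theorem l3 (z : Q4) (M : ℕ) : Law (sy z M).P Prod.snd z.P id :=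
  kg.snd _ _ _ _ ((l1 z).comp (pa z))

theorem m2 {v : z.Ω × z.Ω} (hv : v ∈ (q2 z).S) : v.1 ∈ z.P.S ∧ v.2 ∈ z.P.S ∧
    (z.a v.2).1 = (z.a v.1).1 ∧ z.b v.2 = z.b v.1 ∧ z.θ v.2 = z.θ v.1 :=
  mem (Q := z.P) (π := fun u => u) (Law.rfl _) hv

theorem m3 {v : (z.Ω × z.Ω) × z.Ω} (hv : v ∈ (sy z M).P.S) : v.1 ∈ (q2 z).S ∧ v.2 ∈ z.P.S ∧
    (z.a v.2).1 = (z.a v.1.1).1 ∧ z.b v.2 = z.b v.1.1 ∧ z.θ v.2 = z.θ v.1.1 := mem (l1 z) hv

theorem abs_cz (h1 : 1 ≤ Λ) {ω : z.Ω} (h : z.Bd M Λ ω) : |(z.cz ω : ℝ)| ≤ 3 * Λ ^ 2 * 2 ^ M := by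
  obtain ⟨-, b1, -, -, u1, u2, -⟩ := h
  have p1 : (1 : ℝ) ≤ 2 ^ M := one_le_pow₀ one_le_two
  have k1 := abs_le.1 (abs_row u1 u2 b1.1 b1.2)
  have k3 := abs_le.1 (abs_floor (cr (z.A (z.θ ω)) (z.b ω)))
  have k5 : 1 ≤ Λ * (Λ * 2 ^ M) := by nlinarith [mul_le_mul h1 p1 zero_le_one (by linarith)]
  show |((⌊cr _ _⌋ : ℤ) : ℝ)| ≤ _
  unfold cr at *
  rw [abs_le]; constructor <;> linarith [k1.1, k1.2, k3.1, k3.2]

theorem abs_df {a a' : ℤ × ℤ} {r : ℝ} (h : Bx r a) (h' : Bx r a') :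
    |(a.2 : ℝ) - a'.2| ≤ 2 * r := by linarith [abs_sub (a.2 : ℝ) a'.2, h.2, h'.2]

theorem bd (h1 : 1 ≤ Λ) (k1 : 1 ≤ K) (h : ∀ ω ∈ z.P.S, z.Bd M Λ ω) : ∀ v ∈ (sy z M).P.S,
    |((sy z M).b v : ℝ)| ≤ 4 * (Λ ^ 2 * K) * 2 ^ M ∧
      |((sy z M).c v : ℝ)| ≤ 4 * (Λ ^ 2 * K) * 2 ^ M := by
  intro v hv
  have a1 := h _ (m2 (m3 hv).1).1
  have a2 := abs_df (h _ (m3 hv).2.1).1 a1.1
  have p1 : (0 : ℝ) < 2 ^ M := by positivity
  have p2 : Λ ^ 2 ≤ Λ ^ 2 * K := le_mul_of_one_le_right (by positivity) k1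
  have p3 : Λ ≤ Λ ^ 2 := le_self_pow₀ h1 (by norm_num)
  refine ⟨?_, (abs_cz h1 a1).trans (by nlinarith)⟩
  show |(((z.a v.2).2 - (z.a v.1.1).2 : ℤ) : ℝ)| ≤ _
  push_cast
  exact a2.trans (by nlinarith)

theorem bf_sub (A : M2) {a a' : ℤ × ℤ} (b : ℤ × ℤ) (e : a.1 = a'.1) (r : ℝ) :
    bf A a b / r - bf A a' b / r = ((a.2 : ℝ) - a'.2) / r * cr A b := by
  unfold bf cr; rw [e]; ring

theorem inn (h1 : 1 ≤ Λ) (k1 : 1 ≤ K) (h : ∀ ω ∈ z.P.S, z.Bd M Λ ω) {v : (z.Ω × z.Ω) × z.Ω}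
    (hv : v ∈ (sy z M).P.S) (i1 : z.In M Λ v.1.1) (i2 : z.In M Λ v.1.2) (i3 : z.In M Λ v.2)
    (u : 1 / K ≤ |ls M (z.a v.1.1, z.a v.1.2)|) : (sy z M).In M (4 * (Λ ^ 2 * K)) v := by
  obtain ⟨n1, n3, e3, f3, g3⟩ := m3 hv
  obtain ⟨n1, -, e2, f2, g2⟩ := m2 n1
  unfold Q4.In at i2 i3
  rw [f2, g2] at i2
  rw [f3, g3] at i3
  have p2 : Λ ^ 2 ≤ Λ ^ 2 * K := le_mul_of_one_le_right (by positivity) k1
  have p3 : Λ ≤ Λ ^ 2 := le_self_pow₀ h1 (by norm_num)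
  have f1 : |cr (z.A (z.θ v.1.1)) (z.b v.1.1) - z.cz v.1.1| ≤ 1 := abs_floor _
  refine ⟨(ABGrpA.tr_S _ 1).symm ▸ nr_two i3.1 i1.1 ?_,
    (ABGrpA.tr_S _ 1).symm ▸ nr_two i3.2.1.2 i1.2.1.2 ?_, ?_⟩
  · have k := abs_small (Λ := 2 * Λ) (M := M)
      ((abs_df (h _ n3).1 (h _ n1).1).trans (by rw [mul_assoc])) f1
    rw [bf_sub _ _ e3]
    have e : ((sy z M).b v : ℝ) * (sy z M).c v / 2 ^ M - (((z.a v.2).2 : ℝ) - (z.a v.1.1).2) /
        2 ^ M * cr (z.A (z.θ v.1.1)) (z.b v.1.1) = -((((z.a v.2).2 : ℝ) - (z.a v.1.1).2) *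
          (cr (z.A (z.θ v.1.1)) (z.b v.1.1) - z.cz v.1.1) / 2 ^ M) := by
      show (((z.a v.2).2 - (z.a v.1.1).2 : ℤ) : ℝ) * z.cz v.1.1 / 2 ^ M - _ = _
      push_cast; ring
    rw [e, abs_neg]
    linarith
  · have e : ((sy z M).b v : ℝ) = (z.a v.2).2 - (z.a v.1.1).2 := Int.cast_sub _ _
    rw [e, sub_self, abs_zero]
    linarith
  · have u0 : 0 < |ls M (z.a v.1.1, z.a v.1.2)| := lt_of_lt_of_le (by positivity) u
    have u2 : |ls M (z.a v.1.1, z.a v.1.2)|⁻¹ ≤ K := by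
      rw [inv_le_comm₀ u0 (by positivity), ← one_div]; exact u
    have k : Nr ((z.L (z.θ v.1.1)).S (2 * 1)) (2 * Λ)
        (ls M (z.a v.1.1, z.a v.1.2) * cr (z.A (z.θ v.1.1)) (z.b v.1.1)) :=
      nr_two i2.1 i1.1 (by rw [bf_sub _ _ e2]; simp [ls])
    refine nr_div (abs_pos.1 u0) k ?_
    rw [abs_sub_comm] at f1
    exact (add_le_add f1 (mul_le_mul_of_nonneg_left u2 (by positivity : 0 ≤ 2 * Λ))).trans
      (by nlinarith)

theorem three (z : Q4) (M : ℕ) : mi (sy z M).P (fun v => z.b v.1.1)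
    (fun v => ((z.a v.1.1, z.a v.1.2), z.a v.2)) (fun v => z.θ v.1.1) ≤ 3 * mi z.P z.a z.b z.θ := by
  have h1 := step (Y := z.b) (Q := q2 z) (π := Prod.fst) (W := fun u => (z.a u.1, z.a u.2))
    (fn1 z) (l1 z) fun a _ b _ e => by
      simp only [Prod.mk.injEq] at e
      simp only [e.1.1]
  have h2 := two (Y := z.b) (fn1 z)
  exact h1.trans ((add_le_add h2 le_rfl).trans (by linarith))

theorem fn_c (z : Q4) (M : ℕ) :
    Fn (sy z M).P (sy z M).c fun v => (z.b v.1.1, z.θ v.1.1) := fun a _ b _ e => by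
  simp only [Prod.mk.injEq] at e
  simp only [sy, Q4.cz, e.1, e.2]

theorem inf (z : Q4) (M : ℕ) :
    mi (sy z M).P (sy z M).b (sy z M).c (sy z M).θ ≤ 3 * mi z.P z.a z.b z.θ := by
  have h2 : mi (sy z M).P (sy z M).c (sy z M).b (sy z M).θ ≤
      mi (sy z M).P (fun v => z.b v.1.1) (sy z M).b (sy z M).θ :=
    mi_mono' ((fn_c z M).trans ((Fn.fst _ _).pair ((Fn.comp Prod.snd _).right _)))
  have h3 : mi (sy z M).P (fun v => z.b v.1.1) (sy z M).b (sy z M).θ ≤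
      mi (sy z M).P (fun v => z.b v.1.1) (fun v => ((z.a v.1.1, z.a v.1.2), z.a v.2))
        fun v => z.θ v.1.1 := by
    refine mi_right (Fn.snd _ _) (fun a _ b _ e => ?_) fun a _ b _ e => ?_ <;>
      simp only [Prod.mk.injEq] at e <;> simp only [sy, e.1.1.1, e.1.1.2, e.1.2, e.2]
  rw [mi_symm]
  exact h2.trans (h3.trans (three z M))

theorem hb (z : Q4) (M : ℕ) : z.hk ≤ (sy z M).hb + mi z.P z.a z.b z.θ := by
  have k1 := gap (Y := z.b) (fn1 z)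
  rw [← fresh (l1 z) fun u => (z.a u.1, z.a u.2)] at k1
  refine k1.trans (add_le_add (ch_anti (G := (sy z M).θ) (fun a _ b _ e => ?_) |>.trans
    (ch_mono fun a ha b hb e => ?_)) le_rfl)
  · simp only [ph, Prod.mk.injEq] at e
    simp only [sy, e.1.2.2, e.2.1, e.2.2]
  · simp only [sy, Prod.mk.injEq] at e
    obtain ⟨e1, ⟨e2, -⟩, -⟩ := e
    rw [e2] at e1
    exact Prod.ext (by rw [(m3 ha).2.2.1, (m3 hb).2.2.1, e2]) (sub_left_injective e1)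

theorem hc (z : Q4) (M : ℕ) : ch z.P z.cz z.θ ≤ (sy z M).hc + 3 * mi z.P z.a z.b z.θ := by
  have k1 := (((l12 z M).comp Prod.fst).trans (l1 z)).ch_id z.cz z.θ
  have k2 := ch_le_mi (P := (sy z M).P) (F := (sy z M).c) (K := fun v => z.θ v.1.1)
    (G := fun v => ((z.a v.1.1, z.a v.1.2), z.a v.2)) (K' := (sy z M).θ) fun a _ b _ e => by
      simp only [Prod.mk.injEq] at e
      simp only [sy, e.1.1.1, e.1.1.2, e.2]
  exact k1.symm.le.trans (k2.trans (add_le_add le_rfl ((mi_mono' (fn_c z M)).trans (three z M))))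

theorem mi_q2 (z : Q4) : mi (q2 z) (fun v => z.a v.2) (fun v => z.a v.1)
    (fun v => ((z.a v.2).1, z.θ v.2)) ≤ mi z.P z.a z.b z.θ := by
  have k1 := gap (Y := z.b) (fn1 z)
  rw [← fresh (Q := z.P) (π := fun u => u) (Law.rfl _) z.a,
    ← (l2 z).ch_id z.a fun ω => ((z.a ω).1, z.θ ω)] at k1
  have k2 : ch (q2 z) (fun v => z.a v.2) (fun v => (pa z v.1, z.a v.1)) ≤
      ch (q2 z) (fun v => z.a v.2) fun v => (z.a v.1, (z.a v.2).1, z.θ v.2) :=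
    ch_anti fun a ha b hb e => by
      simp only [pa, ph, Prod.mk.injEq] at e
      simp only [(m2 ha).2.2.1, (m2 hb).2.2.1, (m2 ha).2.2.2.2, (m2 hb).2.2.2.2, e.2, e.1.2.2]
  exact sub_le_iff_le_add'.2 (k1.trans (add_le_add k2 le_rfl))

theorem frac_sub {M j : ℕ → ℕ} (h : ∀ n, 2 * j n ≤ M n) : Frac (fun n => M n - j n) M :=
  ⟨fun _ => Nat.sub_le _ _, 1 / 2, by norm_num, Eventually.of_forall fun n => by
    have h1 : M n ≤ 2 * (M n - j n) := by have := h n; omega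
    have h2 : (M n : ℝ) ≤ 2 * ((M n - j n : ℕ) : ℝ) := by exact_mod_cast h1
    linarith⟩

/-- Two copies in the kernel are far apart. -/
theorem far {x Sg κ : ℝ} (hκ : 0 < κ) (cl : CL4 (Xt4 x Sg κ)) (ker : Ker4 x Sg κ) {z : ℕ → Q4}
    {M j : ℕ → ℕ} (h : Xt4 x Sg κ z M) (fj : Frac j M) (hj : ∀ n, 2 * j n ≤ M n) :
    Whp (fun n => q2 (z n)) fun n v =>
      (2 : ℝ) ^ (M n - j n) ≤ |(((z n).a v.2).2 : ℝ) - ((z n).a v.1).2| := by
  by_contra hn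
  have hE := not_whp hn
  have hM := h.cls.big
  generalize hD : (fun n (v : (z n).Ω × (z n).Ω) => ¬(2 : ℝ) ^ (M n - j n) ≤
    |(((z n).a v.2).2 : ℝ) - ((z n).a v.1).2|) = E at hE
  have x1 := cl.law z M _ (fun n => q2 (z n)) (fun n v => (z n).a v.2)
    (fun n v => (z n).b v.2) (fun n v => (z n).θ v.2) h fun n => (l2 (z n)).comp fun ω =>
      ((z n).a ω, (z n).b ω, (z n).θ ω)
  have x2 := cl.cond (fun n => (z n).law (q2 (z n)) (fun v => (z n).a v.2) (fun v => (z n).b v.2)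
    fun v => (z n).θ v.2) M E x1 hE
  have h1 := ker _ M j (fun n => M n - j n) x2 (fun n => Nat.add_sub_cancel' (fj.1 n)) fj
    (frac_sub hj)
  dsimp only [Q4.cond, Q4.law] at h1
  have h3 : Sm M fun n => ch (cE (q2 (z n)) (E n)) (fun v => dn (M n - j n) ((z n).a v.2).2)
      fun v => ((z n).a v.1, ((z n).a v.2).1, (z n).θ v.2) :=
    sm_dn hM (hM.sub one_le_two) (hE.sure.mono fun n a u hu v hv e => by
      obtain ⟨-, u2⟩ := a u hu
      obtain ⟨-, v2⟩ := a v hv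
      subst hD
      rw [not_le, abs_lt] at u2 v2
      rw [show (z n).a u.1 = (z n).a v.1 from congrArg Prod.fst e] at u2
      rw [abs_le]
      constructor <;> linarith [u2.1, u2.2, v2.1, v2.2])
  have h4 : Sm M fun n => mi (cE (q2 (z n)) (E n)) (fun v => dn (M n - j n) ((z n).a v.2).2)
      (fun v => (z n).a v.1) fun v => (((z n).a v.2).1, (z n).θ v.2) := by
    obtain ⟨p, hp, hq⟩ := hE
    refine Le.of_mul hp hq (Le.of2 h.cls.inf (hM.sm lg) (Eventually.of_forall fun n => ?_))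
    have a1 := mi_cE (q2 (z n)) (E n) (fun v => dn (M n - j n) ((z n).a v.2).2)
      (fun v => (z n).a v.1) fun v => (((z n).a v.2).1, (z n).θ v.2)
    have a2 : mi (q2 (z n)) (fun v => dn (M n - j n) ((z n).a v.2).2) (fun v => (z n).a v.1)
        (fun v => (((z n).a v.2).1, (z n).θ v.2)) ≤ mi (q2 (z n)) (fun v => (z n).a v.2)
        (fun v => (z n).a v.1) fun v => (((z n).a v.2).1, (z n).θ v.2) :=
      mi_mono' ((Fn.comp (fun t : ℤ × ℤ => dn (M n - j n) t.2) _).left _)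
    linarith [mi_q2 (z n)]
  obtain ⟨-, c, hc, hj⟩ := fj
  have k := mul_pos hκ lg_pos
  have h6 := fun n => ch_le_mi (P := cE (q2 (z n)) (E n))
    (F := fun v => dn (M n - j n) ((z n).a v.2).2) (G := fun v => (z n).a v.1)
    (K := fun v => (((z n).a v.2).1, (z n).θ v.2)) (Fn.rfl _)
  have h5 : Le M (fun n => κ * j n * lg) fun _ => 0 :=
    h1.trans (Le.trans (Le.of_le h6) (Sm.add h3 h4))
  refine h5.false hM (mul_pos k hc) (hj.mono fun n a => ?_)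
  have := mul_le_mul_of_nonneg_left a k.le
  exact (by linarith : (0 : ℝ) + κ * lg * c * M n ≤ κ * j n * lg)

theorem unit {x Sg κ : ℝ} (hκ : 0 < κ) (cl : CL4 (Xt4 x Sg κ)) (ker : Ker4 x Sg κ) {z : ℕ → Q4}
    {M : ℕ → ℕ} (h : Xt4 x Sg κ z M) : ∃ K, Sub M K ∧ Whp (fun n => q2 (z n)) fun n v =>
      1 / K n ≤ |ls (M n) ((z n).a v.1, (z n).a v.2)| := by
  refine ks.wsub (fun n => q2 (z n))
    (fun n v K => 1 / K ≤ |ls (M n) ((z n).a v.1, (z n).a v.2)|) M fun c c0 c1 => ?_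
  have f := h.cls.big.frac_floor (half_pos c0) (by linarith)
  have g : ∀ n, (⌊c / 2 * M n⌋₊ : ℝ) ≤ c / 2 * M n := fun n => Nat.floor_le (by positivity)
  refine (far hκ cl ker h f fun n => ?_).mono (.of_forall fun n v _ e => ?_)
  · have : (2 * ⌊c / 2 * M n⌋₊ : ℝ) ≤ M n := by nlinarith [g n, Nat.cast_nonneg (α := ℝ) (M n)]
    exact_mod_cast this
  · unfold ls
    rw [abs_div, abs_of_pos (by positivity : (0 : ℝ) < 2 ^ M n),
      div_le_div_iff₀ (Real.exp_pos _) (by positivity), one_mul]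
    conv_lhs => rw [← Nat.sub_add_cancel (f.1 n), pow_add]
    refine mul_le_mul e ((two_pow_le_exp _).trans (Real.exp_le_exp.2 ((g n).trans ?_)))
      (by positivity) (abs_nonneg _)
    nlinarith [Nat.cast_nonneg (α := ℝ) (M n)]

end ALAA

open ALAA ABGrpA in
theorem rowA4 : SA4 := by
  intro cv abc x Sg κ h0 h1 hκ cl ker z M xt
  obtain ⟨Λ, s, b1, b2⟩ := xt.cls.bd
  obtain ⟨K, sK, w⟩ := ALAA.unit hκ cl ker xt
  have hM := xt.cls.big
  have p12 := fun n => l12 (z n) (M n)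
  have p1 := fun n => ((l12 (z n) (M n)).comp Prod.fst).trans (l1 (z n))
  have p2 := fun n => ((l12 (z n) (M n)).comp Prod.snd).trans (l2 (z n))
  have p3 := fun n => l3 (z n) (M n)
  have s2 := (s.mul sK).const_mul hM one_le_two
  have c : Cls x (fun n => ALAA.sy (z n) (M n)) M := by
    refine ⟨hM, ⟨_, ((s.pow 2).mul sK).const_mul hM (C := 4) (by norm_num),
      b1.mono fun n a => ALAA.bd (s.1 n) (sK.1 n) a,
      (((whp_law b2 p1).and (whp_law b2 p2)).and ((whp_law b2 p3).and (whp_law w p12))).mono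
        (b1.mono fun n a v hv e => ALAA.inn (s.1 n) (sK.1 n) a hv e.1.1 e.1.2 e.2.1 e.2.2)⟩,
      (xt.cls.inf.smul (by norm_num : (0 : ℝ) ≤ 3)).mono (.of_forall fun n => ALAA.inf (z n) _),
      fun q ε hε => ?_⟩
    refine ((whp_law w p12).and ((whp_law (xt.cls.cov (2 * q) ε hε) p1).and
      (whp_law (xt.cls.cov (2 * q) _ (half_pos hε)) p1))).mono ?_
    filter_upwards [b1, s2.log3 hM 2 _ (half_pos hε)] with n a k v hv e
    have m := m2 (m3 hv).1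
    refine ⟨(tr_S _ q).symm ▸ e.2.1.1, (tr_S _ q).symm ▸ e.2.1.2.1,
      cov_tr cv e.2.2.1 (s2.1 n) (le_trans (one_div_le_one_div_of_le (sK.pos n) ?_) e.1) ?_
        (by linarith)⟩
    · nlinarith [s.1 n, sK.1 n]
    · have u := abs_df (a _ m.2.1).1 (a _ m.1).1
      show |ls _ _| ≤ _
      unfold ls
      rw [abs_div, abs_of_pos (by positivity : (0 : ℝ) < 2 ^ M n), div_le_iff₀ (by positivity)]
      refine u.trans ?_
      have := mul_le_mul_of_nonneg_right (le_mul_of_one_le_right (s.pos n).le (sK.1 n))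
        (by positivity : (0 : ℝ) ≤ 2 ^ M n)
      linarith
  refine (abc x h0 h1 _ M c).of3 xt.cls.inf (xt.cls.inf.smul (by norm_num : (0 : ℝ) ≤ 3))
    (.of_forall fun n => ?_)
  linarith [ALAA.hb (z n) (M n), ALAA.hc (z n) (M n)]

end Pool.Agent.MP_5168f5_an.MX.AL
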