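import Pool.Agent.MP_5168f5_an.MX.ALDefs
import Pool.Agent.MP_5168f5_an.MX.ABGrp

/-! Copies in a kernel; the first coordinate of the first vector against the kernel of the
second. -/

namespace Pool.Agent.MP_5168f5_an.MX.AL

open H19 H17S H17F Filter AB

namespace ALBA

section Copy

variable {Ω Ω' α β γ δ T : Type} (P : FP Ω) (X : Ω → α) (Y : Ω → β) (g : Ω → γ) (θ : Ω → T)

/-- The data shared by the copies. -/
def ph (ω : Ω) : γ × β × T := (g ω, Y ω, θ ω)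

variable {P X Y g θ}

theorem gap (hg : Fn P g fun ω => (X ω, θ ω)) :
    ch P X (fun ω => (g ω, θ ω)) ≤ ch P X (ph Y g θ) + mi P X Y θ :=
  (ch_le_mi (G := Y) (K' := ph Y g θ) fun a _ b _ e => by
    simp only [Prod.mk.injEq] at e
    simp only [ph, e.1, e.2.1, e.2.2]).trans (add_le_add le_rfl
      (mi_left (Fn.snd _ _) (hg.pair (Fn.snd _ _)) (Fn.fst _ _)))

variable {Q : FP Ω'} {π : Ω' → Ω}

theorem mem (l : Law Q π P id) {v : Ω' × Ω}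
    (hv : v ∈ (glue Q P (fun u => ph Y g θ (π u)) (ph Y g θ)).S) :
    v.1 ∈ Q.S ∧ v.2 ∈ P.S ∧ g v.2 = g (π v.1) ∧ Y v.2 = Y (π v.1) ∧ θ v.2 = θ (π v.1) := by
  obtain ⟨h1, h2, h3⟩ := (kg.mem Q P _ _ v (l.comp (ph Y g θ))).1 hv
  simp only [ph, Prod.mk.injEq] at h3
  exact ⟨h1, h2, h3⟩

theorem fresh (l : Law Q π P id) (W : Ω' → δ) :
    ch (glue Q P (fun u => ph Y g θ (π u)) (ph Y g θ)) (fun v => X v.2)
      (fun v => (ph Y g θ (π v.1), W v.1)) = ch P X (ph Y g θ) :=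
  kg.mk1 Q P _ _ X (fun u => (ph Y g θ (π u), W u)) (l.comp (ph Y g θ)) (Fn.fst _ _)

/-- One more copy adds at most the information between the two variables. -/
theorem step (hg : Fn P g fun ω => (X ω, θ ω)) (l : Law Q π P id) {W : Ω' → δ}
    (hW : Fn Q (fun u => g (π u)) fun u => (W u, θ (π u))) :
    mi (glue Q P (fun u => ph Y g θ (π u)) (ph Y g θ)) (fun v => Y (π v.1))
      (fun v => (W v.1, X v.2)) (fun v => θ (π v.1)) ≤
      mi Q (fun u => Y (π u)) W (fun u => θ (π u)) + mi P X Y θ := by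
  have l1 := kg.fst Q P (fun u => ph Y g θ (π u)) (ph Y g θ)
  have l2 := kg.snd Q P (fun u => ph Y g θ (π u)) (ph Y g θ) (l.comp (ph Y g θ))
  have h0 := fresh (X := X) (Y := Y) (g := g) (θ := θ) l W
  have m := fun v => mem (Y := Y) (g := g) (θ := θ) (v := v) l
  generalize glue Q P (fun u => ph Y g θ (π u)) (ph Y g θ) = R at l1 l2 h0 m
  have h1 := gap (Y := Y) hg
  have h4 := l2.ch_id X fun ω => (g ω, θ ω)
  have h5 := l1.mi_id (fun u => Y (π u)) W fun u => θ (π u)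
  have h6 := mi_chain (P := R) (fun v => Y (π v.1)) (fun v => W v.1) (fun v => X v.2)
    fun v => θ (π v.1)
  have h7 := mi_symm (P := R) (fun v => Y (π v.1)) (fun v => X v.2) fun v => (W v.1, θ (π v.1))
  have h2 : ch R (fun v => X v.2) (fun v => (W v.1, θ (π v.1))) ≤
      ch R (fun v => X v.2) fun v => (g v.2, θ v.2) := ch_anti fun a ha b hb e => by
    have e1 := hW _ (m a ha).1 _ (m b hb).1 e
    simp only [Prod.mk.injEq] at e
    simp only [(m a ha).2.2.1, (m b hb).2.2.1, (m a ha).2.2.2.2, (m b hb).2.2.2.2, e1, e.2]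
  have h3 : ch R (fun v => X v.2) (fun v => (ph Y g θ (π v.1), W v.1)) ≤
      ch R (fun v => X v.2) fun v => (Y (π v.1), W v.1, θ (π v.1)) :=
    ch_anti fun a _ b _ e => by
      simp only [ph, Prod.mk.injEq] at e
      simp only [e.1.2.1, e.2, e.1.2.2]
  have h8 : mi R (fun v => X v.2) (fun v => Y (π v.1)) (fun v => (W v.1, θ (π v.1))) ≤
      mi P X Y θ := (sub_le_sub h2 h3).trans (by linarith)
  linarith

theorem two (hg : Fn P g fun ω => (X ω, θ ω)) :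
    mi (glue P P (ph Y g θ) (ph Y g θ)) (fun v => Y v.1) (fun v => (X v.1, X v.2))
      (fun v => θ v.1) ≤ 2 * mi P X Y θ := by
  have := step (Y := Y) (Q := P) (π := fun u => u) (W := X) hg (Law.rfl _) hg
  rw [mi_symm Y X] at this
  linarith

theorem ch_vec {F : Ω → ℤ × ℤ} {G : Ω → β} {L : ℝ} (hL : 0 ≤ L)
    (h : ∀ a ∈ P.S, ∀ b ∈ P.S, G a = G b →
      |((F a).1 : ℝ) - (F b).1| ≤ L ∧ |((F a).2 : ℝ) - (F b).2| ≤ L) :
    ch P F G ≤ 2 * Real.log (2 * L + 3) := by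
  have h1 := ch_subadd (P := P) (fun ω => (F ω).1) (fun ω => (F ω).2) G
  have h2 := ch_int (F := fun ω => (F ω).1) hL fun a ha b hb e => (h a ha b hb e).1
  have h3 := ch_int (F := fun ω => (F ω).2) hL fun a ha b hb e => (h a ha b hb e).2
  simp only [Prod.mk.eta] at h1
  linarith

end Copy

theorem nr_div {L : Lv} {k : ℕ} {u r r' y y' : ℝ} (hu : u ≠ 0) (h : Nr (L.S (k * 1)) r (u * y))
    (e : |y' - y| + r * |u|⁻¹ ≤ r') : Nr ((L.tr k u).S 1) r' y' := by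
  obtain ⟨a, h1, h2⟩ := h
  refine ⟨a / u, show u * (a / u) ∈ _ by rwa [mul_div_cancel₀ _ hu], ?_⟩
  have h3 : |y - a / u| ≤ r * |u|⁻¹ := by
    rw [show y - a / u = (u * y - a) * u⁻¹ by field_simp, abs_mul, abs_inv]
    exact mul_le_mul_of_nonneg_right h2 (by positivity)
  linarith [abs_sub_le y' y (a / u)]

theorem nr_two {L : Lv} {r r' y y' s : ℝ} (h : Nr (L.S 1) r y) (h' : Nr (L.S 1) r y')
    (e : |s - (y - y')| + 2 * r ≤ r') : Nr (L.S (2 * 1)) r' s := by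
  obtain ⟨a, h1, h2⟩ := ABGrpA.nr_sub h h'
  rw [ABGrpA.tr_S] at h1
  exact ⟨a, h1, by linarith [abs_sub_le s (y - y') a]⟩

theorem cov_tr (cv : CV) {L : Lv} {x e e' u Λ : ℝ} {M q : ℕ} (h : Cov (L.S (2 * q)) x M e)
    (h1 : 1 ≤ Λ) (h2 : 1 / Λ ≤ |u|) (h3 : |u| ≤ Λ) (he : e + 2 * Real.log (2 * Λ + 3) ≤ e') :
    Cov ((L.tr 2 u).S q) x M e' :=
  cv.mono _ _ x _ e' M M (cv.unit _ x e u Λ M h h1 h2 h3) (fun _ hy => hy) le_rfl he

theorem abs_row {p q Λ r s t : ℝ} (hp : |p| ≤ Λ) (hq : |q| ≤ Λ) (hs : |s| ≤ r) (ht : |t| ≤ r) :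
    |p * s + q * t| ≤ 2 * (Λ * r) := by
  have h0 := (abs_nonneg p).trans hp
  have h1 : |p * s| ≤ Λ * r := by rw [abs_mul]; exact mul_le_mul hp hs (abs_nonneg _) h0
  have h2 : |q * t| ≤ Λ * r := by rw [abs_mul]; exact mul_le_mul hq ht (abs_nonneg _) h0
  linarith [abs_add_le (p * s) (q * t)]

theorem abs_solve {Λ d y w : ℝ} (h : 1 ≤ Λ * |d|) (hΛ : 0 ≤ Λ) {r : ℝ} (e : d * y = w)
    (hw : |w| ≤ r) : |y| ≤ Λ * r := by
  have h1 : |d| * |y| ≤ r := by rw [← abs_mul, e]; exact hw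
  nlinarith [abs_nonneg y, mul_le_mul_of_nonneg_left h1 hΛ]

/-- The unit that relates the first row to a coordinate on the kernel of the second row. -/
noncomputable def uu (A : M2) : ℝ := if |A.2.1| ≤ |A.2.2| then A.2.2 / dt A else -A.2.1 / dt A

theorem uu_bd {A : M2} {Λ : ℝ} (h : Um Λ A) (h1 : 1 ≤ Λ) :
    1 / (2 * Λ ^ 2) ≤ |uu A| ∧ |uu A| ≤ 2 * Λ ^ 2 := by
  obtain ⟨a, b, c, d, e⟩ := h
  have d0 : 0 < |dt A| := by by_contra k; nlinarith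
  have key : ∀ m : ℝ, |A.2.1| ≤ |m| → |A.2.2| ≤ |m| → |m| ≤ Λ →
      1 / (2 * Λ ^ 2) ≤ |m / dt A| ∧ |m / dt A| ≤ 2 * Λ ^ 2 := fun m m1 m2 m3 => by
    have k := abs_row (q := -A.1.2) a (by rwa [abs_neg]) m2 m1
    rw [neg_mul, ← sub_eq_add_neg] at k
    have k' : |dt A| ≤ 2 * (Λ * |m|) := k
    rw [abs_div, div_le_div_iff₀ (by positivity) d0, div_le_iff₀ d0]
    constructor <;> nlinarith [abs_nonneg m, mul_nonneg (abs_nonneg m) (sub_nonneg.2 h1)]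
  unfold uu
  split_ifs with k
  · exact key _ k le_rfl d
  · exact key _ (by rw [abs_neg]) (by rw [abs_neg]; exact (not_le.1 k).le) (by rwa [abs_neg])

/-- The first row. -/
def sg (A : M2) (b : ℤ × ℤ) : ℝ := A.1.1 * b.1 + A.1.2 * b.2

/-- The second row. -/
def cr (A : M2) (b : ℤ × ℤ) : ℝ := A.2.1 * b.1 + A.2.2 * b.2

theorem uu_near {A : M2} {Λ : ℝ} (h : Um Λ A) (h1 : 1 ≤ Λ) {b b' : ℤ × ℤ}
    (e : |cr A b - cr A b'| ≤ 1) :
    |uu A * (sg A b - sg A b') - ((b.1 : ℝ) - b'.1)| ≤ Λ * Λ ∨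
      |uu A * (sg A b - sg A b') - ((b.2 : ℝ) - b'.2)| ≤ Λ * Λ := by
  obtain ⟨a1, a2, -, -, a5⟩ := h
  have d0 : dt A ≠ 0 := fun k => by rw [k] at a5; norm_num at a5
  have k : ∀ p : ℝ, |p| ≤ Λ → |p * (cr A b - cr A b')| ≤ Λ := fun p hp => by
    rw [abs_mul]; exact (mul_le_of_le_one_right (abs_nonneg _) e).trans hp
  unfold uu
  split_ifs
  · refine Or.inl (abs_solve a5 (by linarith) ?_ (k _ a2))
    field_simp; unfold dt sg cr; ring
  · refine Or.inr (abs_solve a5 (by linarith) ?_ (k (-A.1.1) (by rwa [abs_neg])))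
    field_simp; unfold dt sg cr; ring

/-- The system of the row. -/
noncomputable def sy (z : Q4) : Tr where
  Ω := z.Ω × z.Ω
  T := (ℤ × ℤ) × z.T
  P := glue z.P z.P (ph z.a z.cz z.θ) (ph z.a z.cz z.θ)
  θ := fun v => (z.b v.1, z.θ v.1)
  b := fun v => (z.a v.1).1
  c := fun v => ⌊sg (z.A (z.θ v.1)) (z.b v.2) - sg (z.A (z.θ v.1)) (z.b v.1)⌋
  L := fun t => (z.L t.2).tr 2 1
  Lb := fun t => z.La t.2
  Lc := fun t => (z.Lb t.2).tr 2 (uu (z.A t.2))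

variable {z : Q4} {M : ℕ} {Λ : ℝ}

theorem fn_cz (z : Q4) : Fn z.P z.cz fun ω => (z.b ω, z.θ ω) := fun a _ b _ e => by
  simp only [Prod.mk.injEq] at e
  simp only [Q4.cz, e.1, e.2]

theorem mem2 {v : z.Ω × z.Ω} (hv : v ∈ (sy z).P.S) : v.1 ∈ z.P.S ∧ v.2 ∈ z.P.S ∧
    |cr (z.A (z.θ v.1)) (z.b v.2) - cr (z.A (z.θ v.1)) (z.b v.1)| ≤ 1 ∧ z.a v.2 = z.a v.1 ∧
      z.θ v.2 = z.θ v.1 := by
  obtain ⟨h1, h2, h3, h4, h5⟩ := mem (Q := z.P) (π := fun u => u) (Law.rfl _) hv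
  refine ⟨h1, h2, ?_, h4, h5⟩
  unfold Q4.cz at h3
  rw [h5] at h3
  exact (Int.abs_sub_lt_one_of_floor_eq_floor h3).le

theorem bd (h1 : 1 ≤ Λ) (h : ∀ ω ∈ z.P.S, z.Bd M Λ ω) : ∀ v ∈ (sy z).P.S,
    |((sy z).b v : ℝ)| ≤ 8 * Λ ^ 4 * 2 ^ M ∧ |((sy z).c v : ℝ)| ≤ 8 * Λ ^ 4 * 2 ^ M := by
  intro v hv
  obtain ⟨m1, m2, -, -, -⟩ := mem2 hv
  obtain ⟨a1, b1, u1, u2, -⟩ := h _ m1
  obtain ⟨-, b2, -⟩ := h _ m2
  have p1 : (1 : ℝ) ≤ 2 ^ M := one_le_pow₀ one_le_two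
  have p2 : Λ ≤ Λ ^ 4 := le_self_pow₀ h1 (by norm_num)
  have p3 : Λ ^ 2 ≤ Λ ^ 4 := pow_le_pow_right₀ h1 (by norm_num)
  refine ⟨a1.1.trans (by nlinarith), ?_⟩
  have k1 := abs_le.1 (abs_row u1 u2 b1.1 b1.2)
  have k2 := abs_le.1 (abs_row u1 u2 b2.1 b2.2)
  have k3 := abs_le.1 (abs_floor (sg (z.A (z.θ v.1)) (z.b v.2) - sg (z.A (z.θ v.1)) (z.b v.1)))
  have k4 : Λ * (Λ * 2 ^ M) ≤ Λ ^ 4 * 2 ^ M := by nlinarith
  have k5 : 1 ≤ Λ ^ 4 * 2 ^ M := by nlinarith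
  show |((⌊_⌋ : ℤ) : ℝ)| ≤ _
  unfold sg at *
  rw [abs_le]; constructor <;> linarith [k1.1, k1.2, k2.1, k2.2, k3.1, k3.2]

theorem abs_small {a t Λ : ℝ} {M : ℕ} (ha : |a| ≤ Λ * 2 ^ M) (ht : |t| ≤ 1) :
    |a * t / 2 ^ M| ≤ Λ := by
  rw [abs_div, abs_mul, abs_of_pos (by positivity : (0 : ℝ) < 2 ^ M), div_le_iff₀ (by positivity)]
  exact (mul_le_of_le_one_right (abs_nonneg _) ht).trans ha

theorem inn (h1 : 1 ≤ Λ) (h : ∀ ω ∈ z.P.S, z.Bd M Λ ω) {v : z.Ω × z.Ω} (hv : v ∈ (sy z).P.S)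
    (i1 : z.In M Λ v.1) (i2 : z.In M Λ v.2) : (sy z).In M (8 * Λ ^ 4) v := by
  obtain ⟨m1, -, ec, ea, eθ⟩ := mem2 hv
  obtain ⟨a1, -, u⟩ := h _ m1
  unfold Q4.In at i2
  rw [ea, eθ] at i2
  have p2 : Λ ≤ Λ ^ 4 := le_self_pow₀ h1 (by norm_num)
  set A := z.A (z.θ v.1) with hA
  set D := sg A (z.b v.2) - sg A (z.b v.1) with hD
  have f1 := abs_floor D
  refine ⟨(ABGrpA.tr_S _ 1).symm ▸ nr_two i2.1 i1.1 ?_,
    i1.2.1.1.imp fun a k => ⟨k.1, k.2.trans (by linarith)⟩, ?_⟩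
  · have k1 := abs_le.1 (abs_small a1.1 f1)
    have k2 := abs_le.1 (abs_small a1.2 ec)
    have e : ((sy z).b v : ℝ) * (sy z).c v / 2 ^ M -
        (bf A (z.a v.1) (z.b v.2) / 2 ^ M - bf A (z.a v.1) (z.b v.1) / 2 ^ M) =
        -((z.a v.1).1 * (D - ⌊D⌋) / 2 ^ M) -
          (z.a v.1).2 * (cr A (z.b v.2) - cr A (z.b v.1)) / 2 ^ M := by
      show ((z.a v.1).1 : ℝ) * (⌊D⌋ : ℤ) / 2 ^ M - _ = _
      generalize (⌊D⌋ : ℝ) = m
      rw [hD]; unfold bf sg cr; ring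
    have k3 : |((sy z).b v : ℝ) * (sy z).c v / 2 ^ M -
        (bf A (z.a v.1) (z.b v.2) / 2 ^ M - bf A (z.a v.1) (z.b v.1) / 2 ^ M)| ≤ 2 * Λ := by
      rw [e, abs_le]; constructor <;> linarith [k1.1, k1.2, k2.1, k2.2]
    exact (add_le_add k3 le_rfl).trans (by linarith)
  · obtain ⟨u1, -⟩ := uu_bd u h1
    have u0 : 0 < |uu A| := lt_of_lt_of_le (by positivity) u1
    have u2 : |uu A|⁻¹ ≤ 2 * Λ ^ 2 := by
      rw [inv_le_comm₀ u0 (by positivity), ← one_div]; exact u1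
    have k : Nr ((z.Lb (z.θ v.1)).S (2 * 1)) (3 * Λ ^ 2) (uu A * D) := by
      rcases uu_near u h1 ec with k | k
      · exact nr_two i2.2.2.1 i1.2.2.1 (by nlinarith)
      · exact nr_two i2.2.2.2 i1.2.2.2 (by nlinarith)
    refine nr_div (abs_pos.1 u0) k ?_
    rw [abs_sub_comm] at f1
    have k2 := mul_le_mul_of_nonneg_left u2 (by positivity : 0 ≤ 3 * Λ ^ 2)
    exact (add_le_add f1 k2).trans (by nlinarith)

theorem inf (z : Q4) : mi (sy z).P (sy z).b (sy z).c (sy z).θ ≤ 2 * mi z.P z.a z.b z.θ := by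
  have h1 := two (Y := z.a) (fn_cz z)
  have h2 : mi (sy z).P (sy z).b (sy z).c (sy z).θ ≤
      mi (sy z).P (fun v => z.a v.1) (sy z).c (sy z).θ := mi_mono' ((Fn.comp Prod.fst _).left _)
  have h3 : mi (sy z).P (fun v => z.a v.1) (sy z).c (sy z).θ ≤
      mi (sy z).P (fun v => z.a v.1) (fun v => (z.b v.1, z.b v.2)) fun v => z.θ v.1 := by
    refine mi_right (Fn.snd _ _) (fun a _ b _ e => ?_) fun a _ b _ e => ?_ <;>
      simp only [Prod.mk.injEq] at e <;> simp only [sy, e.1.1, e.1.2, e.2]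
  rw [mi_symm z.b] at h1
  exact h2.trans (h3.trans h1)

theorem hb (z : Q4) :
    ch z.P (fun ω => (z.a ω).1) z.θ ≤ (sy z).hb + mi z.P z.a z.b z.θ := by
  have h1 : (sy z).hb = ch z.P (fun ω => (z.a ω).1) fun ω => (z.b ω, z.θ ω) :=
    (kg.fst _ _ _ _).ch_id (fun ω => (z.a ω).1) fun ω => (z.b ω, z.θ ω)
  rw [h1]
  exact (ch_le_mi (G := z.b) (Fn.rfl _)).trans
    (add_le_add le_rfl (mi_mono' ((Fn.comp Prod.fst _).left _)))

theorem hc (h1 : 1 ≤ Λ) (h : ∀ ω ∈ z.P.S, z.Bd M Λ ω) :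
    ch z.P z.b (fun ω => (z.cz ω, z.θ ω)) ≤
      (sy z).hc + mi z.P z.a z.b z.θ + 2 * Real.log (2 * (Λ * (2 * (Λ * 2))) + 3) := by
  have k1 := gap (Y := z.a) (fn_cz z)
  rw [mi_symm, ← fresh (Q := z.P) (π := fun u => u) (Law.rfl _) z.b] at k1
  have k2 : ch (sy z).P (fun v => z.b v.2) (fun v => (ph z.a z.cz z.θ v.1, z.b v.1)) ≤
      ch (sy z).P (fun v => z.b v.2) (sy z).θ := ch_anti fun a _ b _ e => by
    simp only [ph, Prod.mk.injEq] at e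
    simp only [sy, e.1.2.2, e.2]
  have k3 := ch_tri (P := (sy z).P) (fun v => z.b v.2) (sy z).c (sy z).θ
  have k4 : ch (sy z).P (fun v => z.b v.2) (fun v => ((sy z).c v, (sy z).θ v)) ≤
      2 * Real.log (2 * (Λ * (2 * (Λ * 2))) + 3) := ch_vec (by positivity) fun a ha b hb e => by
    simp only [sy, Prod.mk.injEq] at e
    obtain ⟨e1, e2, e3⟩ := e
    have c1 := abs_le.1 (mem2 ha).2.2.1
    have c2 := abs_le.1 (mem2 hb).2.2.1
    obtain ⟨-, -, a1, a2, a3, a4, a5⟩ := h _ (mem2 hb).1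
    rw [e2, e3] at e1 c1
    have s1 := abs_lt.1 (Int.abs_sub_lt_one_of_floor_eq_floor e1)
    set A := z.A (z.θ b.1)
    have s2 : |sg A (z.b a.2) - sg A (z.b b.2)| ≤ 2 := by
      rw [abs_le]; constructor <;> linarith [s1.1, s1.2]
    have c3 : |cr A (z.b a.2) - cr A (z.b b.2)| ≤ 2 := by
      rw [abs_le]; constructor <;> linarith [c1.1, c1.2, c2.1, c2.2]
    exact ⟨abs_solve a5 (by linarith) (by unfold dt sg cr; ring)
        (abs_row (q := -A.1.2) a4 (by rwa [abs_neg]) s2 c3),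
      abs_solve a5 (by linarith) (by unfold dt sg cr; ring)
        (abs_row (p := -A.2.1) (by rwa [abs_neg]) a1 s2 c3)⟩
  exact k1.trans ((add_le_add (k2.trans (k3.trans (add_le_add le_rfl k4))) le_rfl).trans
    (add_right_comm _ _ _).le)

end ALBA

open ALBA ABGrpA in
theorem rowB4 : SB4 := by
  intro cv abc x h0 h1 z M hz
  obtain ⟨Λ, s, b1, b2⟩ := hz.bd
  have hM := hz.big
  have l1 := fun n => kg.fst (z n).P (z n).P (ph (z n).a (z n).cz (z n).θ)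
    (ph (z n).a (z n).cz (z n).θ)
  have l2 := fun n => kg.snd (z n).P (z n).P (ph (z n).a (z n).cz (z n).θ)
    (ph (z n).a (z n).cz (z n).θ) (Law.rfl _)
  have s2 := (s.pow 2).const_mul hM one_le_two
  have c : Cls x (fun n => sy (z n)) M := by
    refine ⟨hM, ⟨_, (s.pow 4).const_mul hM (C := 8) (by norm_num),
      b1.mono fun n a => bd (s.1 n) a, ((whp_law b2 l1).and (whp_law b2 l2)).mono
        (b1.mono fun n a v hv e => inn (s.1 n) a hv e.1 e.2)⟩,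
      (hz.inf.smul zero_le_two).mono (.of_forall fun n => inf (z n)), fun q ε hε => ?_⟩
    refine ((whp_law (hz.cov q ε hε) l1).and ((whp_law (hz.cov (2 * q) ε hε) l1).and
      (whp_law (hz.cov (2 * q) _ (half_pos hε)) l1))).mono ?_
    filter_upwards [b1, s2.log3 hM 2 _ (half_pos hε)] with n a k v hv e
    obtain ⟨u1, u2⟩ := uu_bd (a _ (mem2 hv).1).2.2 (s.1 n)
    exact ⟨(tr_S _ q).symm ▸ e.2.1.1, e.1.2.1, cov_tr cv e.2.2.2.2 (s2.1 n) u1 u2 (by linarith)⟩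
  refine (abc x h0 h1 _ M c).of4 hz.inf hz.inf
    ((s.mul ((s.mul (hM.sub one_le_two)).const_mul hM one_le_two)).log3 hM 2)
    (b1.mono fun n a => ?_)
  linarith [hb (z n), hc (s.1 n) a]

end Pool.Agent.MP_5168f5_an.MX.AL
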