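import Pool.Agent.MP_5168f5_an.MX.ALDefs
import Pool.Agent.MP_5168f5_an.MX.ABClo

/-! Closure properties of the class and of the extremal systems, for vectors. -/

namespace Pool.Agent.MP_5168f5_an.MX.AL

open H19 H17S H17F Filter AB ABCloA

namespace ALCloA

theorem bf_tp (A : M2) (a b : ℤ × ℤ) : bf (tp A) b a = bf A a b := by
  simp only [bf, tp]; ring

theorem dt_tp (A : M2) : dt (tp A) = dt A := by
  simp only [dt, tp]; ring

theorem small2 {Ω β : ℕ → Type} {P : ∀ n, FP (Ω n)} {M : ℕ → ℕ} {Λ : ℕ → ℝ}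
    {E : ∀ n, Ω n → Prop} (b : ∀ n, Ω n → ℤ × ℤ) (θ : ∀ n, Ω n → β n) (hM : Big M) (hΛ : Sub M Λ)
    (hE : Whp P E) (h : ∀ᶠ n in UF, ∀ ω ∈ (P n).S, Bx (Λ n * 2 ^ M n) (b n ω)) :
    Le M (fun n => ch (P n) (b n) (θ n)) fun n => ch (cE (P n) (E n)) (b n) (θ n) := by
  have a : ∀ c : ∀ n, Ω n → ℤ, (∀ᶠ n in UF, ∀ ω ∈ (P n).S, |(c n ω : ℝ)| ≤ Λ n * 2 ^ M n) →
      Le M (fun n => ch (cE (P n) fun ω => ¬E n ω) (c n) (θ n)) fun n => M n * lg := fun c h =>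
    le_int (P := fun n => cE (P n) fun ω => ¬E n ω) hM (hΛ.const_mul hM one_le_two)
      (h.mono fun n k u hu v hv _ => (abs_sub _ _).trans (by
        linarith [k u (cE_sub hu), k v (cE_sub hv)]))
  intro ε hε
  filter_upwards [a (fun n ω => (b n ω).1) (h.mono fun n k ω hω => (k ω hω).1) 1 one_pos,
    a (fun n ω => (b n ω).2) (h.mono fun n k ω hω => (k ω hω).2) 1 one_pos,
    hE (ε / 8) (by positivity), hM.sm lg (ε / 2) (by positivity)] with n k0 k1 k2 k3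
  have k4 := ke.le (P n) (E n) (b n) (θ n)
  have k8 : ch (cE (P n) fun ω => ¬E n ω) (b n) (θ n) ≤ _ :=
    ch_subadd (P := cE (P n) fun ω => ¬E n ω) (fun ω => (b n ω).1) (fun ω => (b n ω).2) (θ n)
  rw [pb_not] at k2
  have k5 := mul_le_mul k2 (k8.trans (add_le_add k0 k1)) (ch_nonneg _ _) (by positivity)
  have k6 := mul_le_mul_of_nonneg_right (pb_le_one (P n) (E n))
    (ch_nonneg (P := cE (P n) (E n)) (b n) (θ n))
  have k7 := mul_le_mul_of_nonneg_left lg_lt_one.le (by positivity : 0 ≤ ε / 4 * M n)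
  nlinarith

end ALCloA

open ALCloA

theorem rowClo4 : SClo4 := by
  refine fun x => ⟨⟨fun z M Ω' Q b c θ hz h => ?_, fun z M E hz hE => ?_⟩,
    fun z M hz => ?_⟩ <;> obtain ⟨Λ, hΛ, h1, h2⟩ := hz.bd
  · refine ⟨hz.big, ⟨Λ, hΛ, h1.mono fun n k v hv => ?_, whp_law h (fun n s =>
      Nr (((z n).L s.2.2).S 1) (Λ n) (bf ((z n).A s.2.2) s.1 s.2.1 / 2 ^ M n) ∧
        Nr2 (((z n).La s.2.2).S 1) (Λ n) s.1 ∧ Nr2 (((z n).Lb s.2.2).S 1) (Λ n) s.2.1) h2⟩,
      hz.inf.mono (Eventually.of_forall fun n => le_of_eq ?_), fun q ε hε => whp_law h (fun n s =>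
        Cov (((z n).L s.2.2).S q) x (M n) (ε * M n) ∧ Cov (((z n).La s.2.2).S q) x (M n) (ε * M n) ∧
          Cov (((z n).Lb s.2.2).S q) x (M n) (ε * M n)) (hz.cov q ε hε)⟩
    · obtain ⟨y, hy, e⟩ := (h n).ex hv
      have e1 : (z n).a y = b n v := congrArg (·.1) e
      have e2 : (z n).b y = c n v := congrArg (·.2.1) e
      have e3 : (z n).θ y = θ n v := congrArg (·.2.2) e
      have := k y hy
      rwa [Q4.Bd, e1, e2, e3] at this
    · exact congrArg₂ (· - ·) ((h n).ch_eq (·.1) (·.2.2)) ((h n).ch_eq (·.1) fun s => (s.2.1, s.2.2))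
  · obtain ⟨κ, κ0, hκ⟩ := id hE
    refine ⟨hz.big, ⟨Λ, hΛ, h1.mono fun n k v hv => k v (cE_sub hv), h2.cE hE⟩,
      Le.of_mul κ0 hκ (Le.of_sub (hz.inf.add (hz.big.sm lg)) (Eventually.of_forall fun n => ?_)),
      fun q ε hε => (hz.cov q ε hε).cE hE⟩
    simp only [mul_zero, sub_zero]
    exact mi_cE (z n).P (E n) (z n).a (z n).b (z n).θ
  · refine ⟨hz.big, ⟨Λ, hΛ, h1.mono fun n k v hv => ⟨(k v hv).2.1, (k v hv).1, ?_⟩,
      h2.mono (Eventually.of_forall fun n ω _ k => ⟨?_, k.2.2, k.2.1⟩)⟩,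
      hz.inf.mono (Eventually.of_forall fun n => (mi_symm _ _ _).le), fun q ε hε =>
        (hz.cov q ε hε).mono (Eventually.of_forall fun n ω _ k => ⟨k.1, k.2.2, k.2.1⟩)⟩
    · obtain ⟨a1, a2, a3, a4, a5⟩ := (k v hv).2.2
      exact ⟨a1, a3, a2, a4, by rwa [← dt_tp] at a5⟩
    · have := k.1
      rwa [← bf_tp] at this

theorem rowXl4 : SXl4 := by
  refine fun x Sg be cl top => ⟨fun z M Ω' Q b c θ hz h => ?_, fun z M E hz hE => ?_⟩
  · have e1 : ∀ n, ((z n).law (Q n) (b n) (c n) (θ n)).ha = (z n).ha := fun n =>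
      (h n).ch_eq (·.1) (·.2.2)
    have e2 : ∀ n, ((z n).law (Q n) (b n) (c n) (θ n)).hb = (z n).hb := fun n =>
      (h n).ch_eq (·.2.1) (·.2.2)
    have e3 : ∀ n, ((z n).law (Q n) (b n) (c n) (θ n)).hk = (z n).hk := fun n =>
      (h n).ch_eq (·.1) fun s => (s.1.1, s.2.2)
    exact ⟨cl.law z M Ω' Q b c θ hz.cls h, by simpa only [e1, e2] using hz.sum,
      by simpa only [e3] using hz.ker⟩
  · have c1 := cl.cond z M E hz.cls hE
    have hM := hz.cls.big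
    by_cases w : Whp (fun n => (z n).P) E
    · obtain ⟨Λ, hΛ, h1, -⟩ := hz.cls.bd
      have s1 := small2 (fun n => (z n).a) (fun n => (z n).θ) hM hΛ w
        (h1.mono fun n k v hv => (k v hv).1)
      have s2 := small2 (fun n => (z n).b) (fun n => (z n).θ) hM hΛ w
        (h1.mono fun n k v hv => (k v hv).2.1)
      have s3 := small2 (fun n => (z n).a) (fun n ω => (((z n).a ω).1, (z n).θ ω)) hM hΛ w
        (h1.mono fun n k v hv => (k v hv).1)
      exact ⟨c1, hz.sum.trans (s1.add s2), hz.ker.trans s3⟩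
    have hN := not_whp w
    have c2 := cl.cond z M _ hz.cls hN
    obtain ⟨κ, κ0, hκ⟩ := hE
    obtain ⟨κ', κ0', hκ'⟩ := hN
    have b1 : ∀ n, (z n).ha ≤ lg + pb (z n).P (E n) * ((z n).cond (E n)).ha +
        pb (z n).P (fun ω => ¬E n ω) * ((z n).cond fun ω => ¬E n ω).ha := fun n => by
      rw [pb_not]; exact ke.le _ _ _ _
    have b2 : ∀ n, (z n).hb ≤ lg + pb (z n).P (E n) * ((z n).cond (E n)).hb +
        pb (z n).P (fun ω => ¬E n ω) * ((z n).cond fun ω => ¬E n ω).hb := fun n => by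
      rw [pb_not]; exact ke.le _ _ _ _
    have b3 : ∀ n, (z n).hk ≤ lg + pb (z n).P (E n) * ((z n).cond (E n)).hk +
        pb (z n).P (fun ω => ¬E n ω) * ((z n).cond fun ω => ¬E n ω).hk := fun n => by
      rw [pb_not]; exact ke.le _ _ _ _
    have q1 : ∀ n, 0 ≤ pb (z n).P (fun ω => ¬E n ω) ∧ pb (z n).P (fun ω => ¬E n ω) ≤ 1 ∧
        pb (z n).P (E n) + pb (z n).P (fun ω => ¬E n ω) = 1 := fun n =>
      ⟨pb_nonneg _ _, pb_le_one _ _, by rw [pb_not]; ring⟩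
    have q2 : ∀ n, 0 ≤ pb (z n).P (E n) ∧ pb (z n).P (E n) ≤ 1 ∧
        pb (z n).P (fun ω => ¬E n ω) + pb (z n).P (E n) = 1 := fun n =>
      ⟨pb_nonneg _ _, pb_le_one _ _, by rw [pb_not]; ring⟩
    have s2 := mix (C := 2 * lg) (u := fun n => ((z n).cond fun ω => ¬E n ω).ha +
      ((z n).cond fun ω => ¬E n ω).hb) hM κ0' hκ' q2 hz.sum (fun n => by linarith [b1 n, b2 n])
      (top.sum _ M c1)
    exact ⟨c1, mix (C := 2 * lg) hM κ0 hκ q1 hz.sum (fun n => by linarith [b1 n, b2 n])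
      (top.sum _ M c2), mix hM κ0 hκ q1 hz.ker b3 (top.ker _ M c2 s2)⟩

end Pool.Agent.MP_5168f5_an.MX.AL
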