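import Pool.Agent.MP_5168f5_an.MX.ABApi

/-! Bilinear forms in two variables with values in an additive family of levels: definitions,
steps and their assembly. -/

namespace Pool.Agent.MP_5168f5_an.MX.AL

open H19 H17S H17F Filter AB

/-- A matrix with rows `A.1` and `A.2`. -/
abbrev M2 : Type := (ℝ × ℝ) × ℝ × ℝ

/-- The form with matrix `A`. -/
def bf (A : M2) (a b : ℤ × ℤ) : ℝ :=
  a.1 * (A.1.1 * b.1 + A.1.2 * b.2) + a.2 * (A.2.1 * b.1 + A.2.2 * b.2)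

/-- The transpose. -/
def tp (A : M2) : M2 := ((A.1.1, A.2.1), A.1.2, A.2.2)

/-- The determinant. -/
def dt (A : M2) : ℝ := A.1.1 * A.2.2 - A.1.2 * A.2.1

/-- Bounded entries, determinant bounded below. -/
def Um (Λ : ℝ) (A : M2) : Prop :=
  |A.1.1| ≤ Λ ∧ |A.1.2| ≤ Λ ∧ |A.2.1| ≤ Λ ∧ |A.2.2| ≤ Λ ∧ 1 ≤ Λ * |dt A|

/-- Both coordinates are at most `r`. -/
def Bx (r : ℝ) (a : ℤ × ℤ) : Prop := |(a.1 : ℝ)| ≤ r ∧ |(a.2 : ℝ)| ≤ r

/-- Both coordinates are within `r` of `S`. -/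
def Nr2 (S : Set ℝ) (r : ℝ) (a : ℤ × ℤ) : Prop := Nr S r a.1 ∧ Nr S r a.2

/-- The square of side `2 ^ i`. -/
noncomputable def dn2 (i : ℕ) (a : ℤ × ℤ) : ℤ × ℤ := (dn i a.1, dn i a.2)

/-- Two integer vectors with side information, a form and three families of levels. -/
structure Q4 where
  Ω : Type
  T : Type
  P : FP Ω
  θ : Ω → T
  a : Ω → ℤ × ℤ
  b : Ω → ℤ × ℤ
  A : T → M2
  L : T → Lv
  La : T → Lv
  Lb : T → Lv

namespace Q4

variable (z : Q4)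

/-- Other variables, same form and levels. -/
def law {Ω' : Type} (Q : FP Ω') (a b : Ω' → ℤ × ℤ) (θ : Ω' → z.T) : Q4 :=
  { Ω := Ω', T := z.T, P := Q, θ := θ, a := a, b := b, A := z.A, L := z.L, La := z.La,
    Lb := z.Lb }

/-- Condition on an event. -/
noncomputable def cond (E : z.Ω → Prop) : Q4 := { z with P := cE z.P E }

/-- Exchange the two vectors. -/
def swap : Q4 := { z with a := z.b, b := z.a, A := fun t => tp (z.A t), La := z.Lb, Lb := z.La }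

/-- The exact bounds. -/
def Bd (M : ℕ) (Λ : ℝ) (ω : z.Ω) : Prop :=
  Bx (Λ * 2 ^ M) (z.a ω) ∧ Bx (Λ * 2 ^ M) (z.b ω) ∧ Um Λ (z.A (z.θ ω))

/-- The value of the form and the four coordinates are near the first levels. -/
def In (M : ℕ) (Λ : ℝ) (ω : z.Ω) : Prop :=
  Nr ((z.L (z.θ ω)).S 1) Λ (bf (z.A (z.θ ω)) (z.a ω) (z.b ω) / 2 ^ M) ∧
    Nr2 ((z.La (z.θ ω)).S 1) Λ (z.a ω) ∧ Nr2 ((z.Lb (z.θ ω)).S 1) Λ (z.b ω)

/-- The levels of order `q` have rate `x`. -/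
def Cv (x : ℝ) (M q : ℕ) (e : ℝ) (ω : z.Ω) : Prop :=
  Cov ((z.L (z.θ ω)).S q) x M e ∧ Cov ((z.La (z.θ ω)).S q) x M e ∧
    Cov ((z.Lb (z.θ ω)).S q) x M e

/-- Entropy of the first vector. -/
noncomputable def ha : ℝ := ch z.P z.a z.θ

/-- Entropy of the second vector. -/
noncomputable def hb : ℝ := ch z.P z.b z.θ

/-- Entropy of the first vector given its first coordinate. -/
noncomputable def hk : ℝ := ch z.P z.a fun ω => ((z.a ω).1, z.θ ω)

/-- The coefficient of the second coordinate of the first vector. -/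
noncomputable def cz (ω : z.Ω) : ℤ :=
  ⌊(z.A (z.θ ω)).2.1 * (z.b ω).1 + (z.A (z.θ ω)).2.2 * (z.b ω).2⌋

end Q4

/-- The class of systems. -/
structure Cl4 (x : ℝ) (z : ℕ → Q4) (M : ℕ → ℕ) : Prop where
  big : Big M
  bd : ∃ Λ, Sub M Λ ∧ (∀ᶠ n in UF, ∀ ω ∈ (z n).P.S, (z n).Bd (M n) (Λ n) ω) ∧
    Whp (fun n => (z n).P) fun n => (z n).In (M n) (Λ n)
  inf : Sm M fun n => mi (z n).P (z n).a (z n).b (z n).θ
  cov : ∀ (q : ℕ) (ε : ℝ), 0 < ε →
    Whp (fun n => (z n).P) fun n => (z n).Cv x (M n) q (ε * M n)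

/-- `Sg` is the largest total rate, `κ` the largest kernel rate among the maximisers. -/
structure Tp4 (x Sg κ : ℝ) : Prop where
  sum : ∀ z M, Cl4 x z M → Le M (fun n => (z n).ha + (z n).hb) fun n => Sg * M n * lg
  ker : ∀ z M, Cl4 x z M → Le M (fun n => Sg * M n * lg) (fun n => (z n).ha + (z n).hb) →
    Le M (fun n => (z n).hk) fun n => κ * M n * lg

/-- An extremal system. -/
structure Xt4 (x Sg κ : ℝ) (z : ℕ → Q4) (M : ℕ → ℕ) : Prop where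
  cls : Cl4 x z M
  sum : Le M (fun n => Sg * M n * lg) fun n => (z n).ha + (z n).hb
  ker : Le M (fun n => κ * M n * lg) fun n => (z n).hk

/-- Closure properties of a property `C` of systems. -/
structure CL4 (C : (ℕ → Q4) → (ℕ → ℕ) → Prop) : Prop where
  law : ∀ (z : ℕ → Q4) (M : ℕ → ℕ) (Ω' : ℕ → Type) (Q : ∀ n, FP (Ω' n))
    (a b : ∀ n, Ω' n → ℤ × ℤ) (θ : ∀ n, Ω' n → (z n).T), C z M →
    (∀ n, Law (Q n) (fun v => (a n v, b n v, θ n v)) (z n).P fun ω =>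
      ((z n).a ω, (z n).b ω, (z n).θ ω)) → C (fun n => (z n).law (Q n) (a n) (b n) (θ n)) M
  cond : ∀ (z : ℕ → Q4) (M : ℕ → ℕ) (E : ∀ n, (z n).Ω → Prop), C z M →
    Pos (fun n => (z n).P) E → C (fun n => (z n).cond (E n)) M

/-- The class is symmetric. -/
def Sw4 (x : ℝ) : Prop := ∀ z M, Cl4 x z M → Cl4 x (fun n => (z n).swap) M

/-- Row CLO. -/
def SClo4 : Prop := ∀ x : ℝ, CL4 (Cl4 x) ∧ Sw4 x

/-- Row XL. -/
def SXl4 : Prop := ∀ x Sg κ : ℝ, CL4 (Cl4 x) → Tp4 x Sg κ → CL4 (Xt4 x Sg κ)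

/-- Row DIAG. -/
def SDiag4 : Prop := ∀ x y : ℝ,
  (∃ z M, Cl4 x z M ∧ ¬Le M (fun n => (z n).ha + (z n).hb) fun n => y * M n * lg) →
  ∃ Sg κ z M, y < Sg ∧ Tp4 x Sg κ ∧ Xt4 x Sg κ z M

/-- The top `j` digits of `a` against the bottom `j` digits of `b`. -/
def Zoom4 (x : ℝ) : Prop := ∀ (z : ℕ → Q4) (M j : ℕ → ℕ), Cl4 x z M → Frac j M →
  ∃ z' : ℕ → Q4, Cl4 x z' j ∧
    Le M (fun n => ch (z n).P (fun ω => dn2 (M n - j n) ((z n).a ω)) (z n).θ)
      (fun n => (z' n).ha) ∧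
    Le M (fun n => ch (z n).P (z n).b fun ω => (dn2 (j n) ((z n).b ω), (z n).θ ω))
      (fun n => (z' n).hb) ∧
    Le M (fun n => ch (z n).P (z n).b fun ω =>
      ((((z n).b ω).1, dn2 (j n) ((z n).b ω)), (z n).θ ω)) fun n => (z' n).swap.hk

/-- Row ZOOM. -/
def SZoom4 : Prop := CV → ∀ x : ℝ, Zoom4 x

/-- The kernel of an extremal system has its rate from the top. -/
def Ker4 (x Sg κ : ℝ) : Prop := ∀ (z : ℕ → Q4) (M j k : ℕ → ℕ), Xt4 x Sg κ z M →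
  (∀ n, j n + k n = M n) → Frac j M → Frac k M → Le M (fun n => κ * j n * lg) fun n =>
    ch (z n).P (fun ω => dn (k n) ((z n).a ω).2) fun ω => (((z n).a ω).1, (z n).θ ω)

/-- Row KER. -/
def SKer4 : Prop := ∀ x Sg κ : ℝ, Sw4 x → Zoom4 x → Tp4 x Sg κ → Ker4 x Sg κ

/-- Row A: the kernel of the first vector against its coefficient. -/
def SA4 : Prop := CV → ABC → ∀ x Sg κ : ℝ, 0 ≤ x → x < 1 → 0 < κ → CL4 (Xt4 x Sg κ) →
  Ker4 x Sg κ → ∀ z M, Xt4 x Sg κ z M →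
    Le M (fun n => (z n).hk + ch (z n).P (z n).cz (z n).θ) fun n => x * M n * lg

/-- Row B: the first coordinate of the first vector against the kernel of the second. -/
def SB4 : Prop := CV → ABC → ∀ x : ℝ, 0 ≤ x → x < 1 → ∀ z M, Cl4 x z M →
  Le M (fun n => ch (z n).P (fun ω => ((z n).a ω).1) (z n).θ +
    ch (z n).P (z n).b fun ω => ((z n).cz ω, (z n).θ ω)) fun n => x * M n * lg

/-- The theorem. -/
def ALG4 : Prop := ∀ x : ℝ, 0 ≤ x → x < 1 → ∀ z M, Cl4 x z M →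
  Le M (fun n => (z n).ha + (z n).hb) fun n => 2 * x * M n * lg

theorem ha_split (z : Q4) : z.ha ≤ ch z.P (fun ω => (z.a ω).1) z.θ + z.hk := ch_tri _ _ _

theorem fst_le (cv : CV) {x : ℝ} {z : ℕ → Q4} {M : ℕ → ℕ} (h0 : 0 ≤ x) (h : Cl4 x z M) :
    Le M (fun n => ch (z n).P (fun ω => ((z n).a ω).1) (z n).θ) fun n => x * M n * lg := by
  obtain ⟨Λ, hΛ, hb, hi⟩ := h.bd
  exact cv.ent _ _ _ (fun n => (z n).θ) (fun n ω => ((z n).a ω).1) (fun n t => ((z n).La t).S 1)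
    M Λ x h0 h.big hΛ (hb.mono fun n a ω hω => (a ω hω).1.1) fun ε hε =>
      (hi.and (h.cov 1 ε hε)).mono (Eventually.of_forall fun _ _ _ e => ⟨e.1.2.1.1, e.2.2.1⟩)

theorem glueAL (cv : CV) (abc : ABC) (clo : SClo4) (xl : SXl4) (diag : SDiag4) (zoom : SZoom4)
    (ker : SKer4) (ra : SA4) (rb : SB4) : ALG4 := by
  intro x h0 h1 z M hz
  by_contra hn
  obtain ⟨Sg, κ, w, K, hx, top, xt⟩ := diag x (2 * x) ⟨z, M, hz, hn⟩
  have sw := (clo x).2 w K xt.cls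
  have k1 := top.ker w K xt.cls xt.sum
  have k2 := top.ker _ K sw (xt.sum.trans (Le.of_le fun n => (add_comm _ _).le))
  have k3 : Sg * lg ≤ (2 * x + 2 * κ) * lg := Le.num xt.cls.big
    (xt.sum.of5 k1 k2 (fst_le cv h0 xt.cls) (fst_le cv h0 sw) (Eventually.of_forall fun n => by
      have e : (w n).swap.ha = (w n).hb := rfl
      linarith [ha_split (w n), ha_split (w n).swap]))
  have k4 := le_of_mul_le_mul_right k3 lg_pos
  have k5 : Sg * lg ≤ 2 * x * lg := Le.num xt.cls.big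
    (xt.sum.of3 (ra cv abc x Sg κ h0 h1 (by linarith) (xl x Sg κ (clo x).1 top)
      (ker x Sg κ (clo x).2 (zoom cv x) top) w K xt) (rb cv abc x h0 h1 w K xt.cls)
      (Eventually.of_forall fun n => by
        have e : (w n).hb ≤ _ := ch_tri (w n).b (w n).cz (w n).θ
        linarith [ha_split (w n)]))
  linarith [le_of_mul_le_mul_right k5 lg_pos]

end Pool.Agent.MP_5168f5_an.MX.AL
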