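import Pool.Agent.MP_5168f5_an.MX.ALDefs
import Pool.Agent.MP_5168f5_an.MX.ABDiag

/-! Bilinear forms in an additive family of levels: extremal systems exist. -/

namespace Pool.Agent.MP_5168f5_an.MX.AL

open H19 H17S H17F Filter AB

namespace ALDiagA

open DiagA (small le_of sub_of)
open ABDiagA (cov_mono le_mono one)

variable {x s s' r r' : ℝ}

/-- One term of a system with error `δ`. -/
structure At (x s r : ℝ) (k : ℕ) (δ : ℝ) (z : Q4) (m : ℕ) (Λ : ℝ) : Prop where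
  big : k ≤ m
  one : 1 ≤ Λ
  sub : Λ ≤ Real.exp (δ * m)
  bd : ∀ ω ∈ z.P.S, z.Bd m Λ ω
  inn : pb z.P (fun ω => ¬z.In m Λ ω) ≤ δ
  inf : mi z.P z.a z.b z.θ ≤ 0 + δ * m
  cov : ∀ q ≤ k, pb z.P (fun ω => ¬z.Cv x m q (δ * m) ω) ≤ δ
  sum : s * m * lg ≤ z.ha + z.hb + δ * m
  ker : r * m * lg ≤ z.hk + δ * m

/-- There is a system with these rates. -/
def Ex (x s r : ℝ) : Prop := ∃ z M, Xt4 x s r z M

theorem ex_at (k : ℕ) {δ : ℝ} (hδ : 0 < δ) (h : Ex x (s - δ / 2) (r - δ / 2)) :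
    ∃ z m Λ, At x s r k δ z m Λ := by
  obtain ⟨z, M, h⟩ := h
  obtain ⟨Λ, s1, a1, a2⟩ := h.cls.bd
  have a3 : ∀ᶠ n in UF, ∀ q ∈ Finset.range (k + 1),
      pb (z n).P (fun ω => ¬(z n).Cv x (M n) q (δ * M n) ω) ≤ δ :=
    (eventually_all_finset _).2 fun q _ => h.cls.cov q δ hδ δ hδ
  have : ∀ᶠ n in UF, At x s r k δ (z n) (M n) (Λ n) := by
    filter_upwards [h.cls.big.ev k, s1.2 δ hδ, a1, a2 δ hδ, h.cls.inf δ hδ, a3,
      h.sum _ (half_pos hδ), h.ker _ (half_pos hδ)] with n b1 b2 b3 b4 b5 b6 b7 b8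
    have : δ / 2 * M n * lg ≤ δ / 2 * M n := mul_le_of_le_one_right (by positivity) lg_lt_one.le
    exact ⟨by exact_mod_cast b1, s1.1 n, b2, b3, b4, b5,
      fun q hq => b6 q (Finset.mem_range.2 (Nat.lt_succ_of_le hq)), by linarith, by linarith⟩
  obtain ⟨n, hn⟩ := this.exists
  exact ⟨_, _, _, hn⟩

theorem diag (h : ∀ δ : ℝ, 0 < δ → Ex x (s - δ) (r - δ)) : Ex x s r := by
  have p : ∀ k : ℕ, (0 : ℝ) < 1 / (k + 1 : ℝ) := fun k => by positivity
  choose z M Λ H using fun k : ℕ => ex_at k (p k) (h _ (half_pos (p k)))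
  refine ⟨z, M, ⟨tendsto_atTop.2 fun b => (ev_ge b).mono fun k hk => hk.trans (H k).big,
    ⟨Λ, sub_of (fun k => (H k).one) fun k => (H k).sub, Eventually.of_forall fun k => (H k).bd,
      fun ε hε => (small hε).mono fun k hk => (H k).inn.trans hk⟩,
    le_of fun k => (H k).inf, fun q ε hε ε' hε' => ?_⟩, le_of fun k => (H k).sum,
    le_of fun k => (H k).ker⟩
  filter_upwards [small hε, small hε', ev_ge q] with k a b c
  have e := mul_le_mul_of_nonneg_right a (Nat.cast_nonneg (α := ℝ) (M k))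
  exact (pb_mono fun ω _ u v => u ⟨cov_mono v.1 e, cov_mono v.2.1 e, cov_mono v.2.2 e⟩).trans
    (((H k).cov q c).trans b)

theorem Ex.mono (h : Ex x s r) (e : s' ≤ s) (e' : r' ≤ r) : Ex x s' r' := by
  obtain ⟨z, M, h⟩ := h
  exact ⟨z, M, h.cls, le_mono h.sum e, le_mono h.ker e'⟩

theorem two {Ω β : ℕ → Type} {P : ∀ n, FP (Ω n)} {M : ℕ → ℕ} {L : ℕ → ℝ} {G : ∀ n, Ω n → β n}
    {F : ∀ n, Ω n → ℤ × ℤ} (hM : Big M) (hL : Sub M L)
    (h : ∀ᶠ n in UF, ∀ a ∈ (P n).S, Bx (L n * 2 ^ M n) (F n a)) :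
    Le M (fun n => ch (P n) (F n) (G n)) fun n => 2 * M n * lg :=
  (one (G := G) (F := fun n a => (F n a).1) hM hL (h.mono fun _ u a ha => (u a ha).1)).of2
    (one (G := G) (F := fun n a => (F n a).2) hM hL (h.mono fun _ u a ha => (u a ha).2))
    (Eventually.of_forall fun n => by
      have : ch (P n) (F n) (G n) ≤ _ :=
        ch_subadd (P := P n) (fun a => (F n a).1) (fun a => (F n a).2) (G n)
      linarith)

theorem Ex.le (h : Ex x s r) : s ≤ 4 ∧ r ≤ 2 := by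
  obtain ⟨z, M, h⟩ := h
  obtain ⟨Λ, s1, a1, -⟩ := h.cls.bd
  have h1 : Le M (fun n => (z n).ha) fun n => 2 * M n * lg :=
    two h.cls.big s1 (a1.mono fun n u a ha => (u a ha).1)
  have h2 : Le M (fun n => (z n).hb) fun n => 2 * M n * lg :=
    two h.cls.big s1 (a1.mono fun n u a ha => (u a ha).2.1)
  have h3 : Le M (fun n => (z n).hk) fun n => 2 * M n * lg :=
    two h.cls.big s1 (a1.mono fun n u a ha => (u a ha).1)
  exact ⟨le_of_mul_le_mul_right (Le.num h.cls.big ((h.sum.trans (h1.add h2)).of_sub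
      (Eventually.of_forall fun n => by linarith))) lg_pos,
    le_of_mul_le_mul_right (Le.num h.cls.big ((h.ker.trans h3).of_sub
      (Eventually.of_forall fun n => by linarith))) lg_pos⟩

theorem zero {z : ℕ → Q4} {M : ℕ → ℕ} (h : Cl4 x z M)
    (k : Le M (fun n => s * M n * lg) fun n => (z n).ha + (z n).hb) : Ex x s 0 :=
  ⟨z, M, h, k, Le.of_le fun n => by rw [zero_mul, zero_mul]; exact ch_nonneg _ _⟩

end ALDiagA

open ALDiagA
open ABDiagA (up)

theorem rowDiag4 : SDiag4 := by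
  rintro x y ⟨z, M, hz, hn⟩
  obtain ⟨ε, hε, h0⟩ := up hn
  have bA : BddAbove {s | Ex x s 0} := ⟨4, fun s h => (Ex.le h).1⟩
  have mA : y + ε ∈ {s | Ex x s 0} := zero hz h0
  have eA : Ex x (sSup {s | Ex x s 0}) 0 := diag fun δ hδ => by
    obtain ⟨s, a, b⟩ := exists_lt_of_lt_csSup ⟨_, mA⟩ (sub_lt_self _ hδ)
    exact Ex.mono a b.le (by linarith)
  have lA := fun s (h : Ex x s 0) => le_csSup bA h
  generalize sSup {s | Ex x s 0} = Sg at eA lA
  have bB : BddAbove {r | Ex x Sg r} := ⟨2, fun r h => (Ex.le h).2⟩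
  obtain ⟨z', M', eB⟩ : Ex x Sg (sSup {r | Ex x Sg r}) := diag fun δ hδ => by
    obtain ⟨s, a, b⟩ := exists_lt_of_lt_csSup (s := {r | Ex x Sg r}) ⟨_, eA⟩ (sub_lt_self _ hδ)
    exact Ex.mono a (by linarith) b.le
  refine ⟨Sg, _, z', M', by linarith [lA _ mA], ⟨fun w K hw => by_contra fun c => ?_,
    fun w K hw k => by_contra fun c => ?_⟩, eB⟩
  · obtain ⟨η, a, b⟩ := up c
    linarith [lA _ (zero hw b)]
  · obtain ⟨η, a, b⟩ := up c
    linarith [le_csSup bB (show Ex x Sg _ from ⟨w, K, hw, k, b⟩)]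

end Pool.Agent.MP_5168f5_an.MX.AL
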