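import Pool.Agent.MP_5168f5_an.MX.ALDefs

/-! The kernel of an extremal system has its rate from the top. -/

namespace Pool.Agent.MP_5168f5_an.MX.AL

open H19 H17S H17F Filter AB

theorem rowKer4 : SKer4 := by
  intro x Sg κ sw zm top z M j k h hs fj fk
  obtain ⟨z₁, c₁, a₁, d₁, -⟩ := zm z M j h.cls fj
  obtain ⟨z₂, c₂, a₂, d₂, k₂⟩ := zm _ M k (sw z M h.cls) fk
  have e₁ : ∀ n, M n - j n = k n := fun n => by have := hs n; omega
  have e₂ : ∀ n, M n - k n = j n := fun n => by have := hs n; omega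
  simp only [e₁] at a₁
  simp only [e₂] at a₂
  have a₃ : Le M (fun n => ch (z n).P (fun ω => dn2 (j n) ((z n).b ω)) (z n).θ) fun n =>
      (z₂ n).swap.hb := a₂
  have d₃ : Le M (fun n => ch (z n).P (z n).a fun ω => (dn2 (k n) ((z n).a ω), (z n).θ ω))
      fun n => (z₂ n).swap.ha := d₂
  have k₃ : Le M (fun n => ch (z n).P (z n).a fun ω =>
      ((((z n).a ω).1, dn2 (k n) ((z n).a ω)), (z n).θ ω)) fun n => (z₂ n).swap.hk := k₂
  have hM : ∀ n (t : ℝ), t * M n * lg = t * j n * lg + t * k n * lg := fun n t => by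
    rw [← hs n]; push_cast; ring
  have m₃ : Le M (fun n => Sg * k n * lg) fun n => (z₂ n).swap.ha + (z₂ n).swap.hb :=
    h.sum.of6 a₁ d₁ a₃ d₃ ((top.sum z₁ j c₁).up fj.1) (Eventually.of_forall fun n => by
      have h1 : (z n).ha ≤ _ := ch_tri (z n).a (fun ω => dn2 (k n) ((z n).a ω)) (z n).θ
      have h2 : (z n).hb ≤ _ := ch_tri (z n).b (fun ω => dn2 (j n) ((z n).b ω)) (z n).θ
      linarith [hM n Sg])
  refine h.ker.of3 k₃ ((top.ker _ k (sw z₂ k c₂) (m₃.frac fk)).up fk.1)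
    (Eventually.of_forall fun n => ?_)
  have h1 : (z n).hk ≤ _ := ch_tri (z n).a (fun ω => dn (k n) ((z n).a ω).2) _
  have h2 : ch (z n).P (z n).a (fun ω => (dn (k n) ((z n).a ω).2, ((z n).a ω).1, (z n).θ ω)) ≤
      ch (z n).P (z n).a fun ω => ((((z n).a ω).1, dn2 (k n) ((z n).a ω)), (z n).θ ω) :=
    ch_anti fun u _ v _ e => by
      simp only [Prod.mk.injEq] at e
      simp only [dn2, e.1, e.2.1, e.2.2]
  linarith [hM n κ]

end Pool.Agent.MP_5168f5_an.MX.AL
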