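import Pool.Agent.MP_5168f5_an.MX.ALDefs
import Pool.Agent.MP_5168f5_an.MX.ABZoom

/-! Bilinear forms in an additive family of levels: the top digits of the first vector against
the bottom digits of the second. -/

namespace Pool.Agent.MP_5168f5_an.MX.AL

open H19 H17S H17F Filter AB

namespace ALZoomA

/-- The data shared by the two copies. -/
noncomputable def ph (z : Q4) (j : ℕ) (ω : z.Ω) : (ℤ × ℤ) × (ℤ × ℤ) × z.T :=
  (z.a ω, dn2 j (z.b ω), z.θ ω)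

/-- The zoomed system. -/
noncomputable def zm (z : Q4) (M j : ℕ) : Q4 where
  Ω := z.Ω × z.Ω
  T := (ℤ × ℤ) × z.T
  P := glue z.P z.P (ph z j) (ph z j)
  θ := fun v => (z.b v.2, z.θ v.2)
  a := fun v => dn2 (M - j) (z.a v.2)
  b := fun v => z.b v.1 - z.b v.2
  A := fun t => z.A t.2
  L := fun t => (z.L t.2).tr 2 1
  La := fun t => (z.La t.2).tr 1 (2 ^ (M - j))
  Lb := fun t => (z.Lb t.2).tr 2 1

variable {z : Q4} {M j : ℕ} {Λ : ℝ}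

theorem bd1 {a : ℝ} (hj : j ≤ M) (h : |a| ≤ Λ * 2 ^ M) :
    |(dn (M - j) a : ℝ)| ≤ (6 * Λ + 1) * 2 ^ j := by
  have h1 : (1 : ℝ) ≤ 2 ^ j := one_le_pow₀ (by norm_num)
  have h2 : (0 : ℝ) < 2 ^ (M - j) := by positivity
  have e : (2 : ℝ) ^ M = 2 ^ j * 2 ^ (M - j) := by rw [← pow_add]; congr 1; omega
  have c : |a / 2 ^ (M - j)| ≤ Λ * 2 ^ j := by
    rw [abs_div, abs_of_pos h2, div_le_iff₀ h2, mul_assoc, ← e]; exact h
  have d := abs_le.1 (abs_dn (M - j) a)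
  have f := abs_le.1 c
  rw [abs_le]; constructor <;> nlinarith [d.1, d.2, f.1, f.2]

theorem nrA {L : Lv} {a : ℝ} (i : ℕ) (hΛ : 1 ≤ Λ) (h : Nr (L.S 1) Λ a) :
    Nr ((L.tr 1 (2 ^ i)).S 1) (6 * Λ + 1) (dn i a) := by
  obtain ⟨b, p, q⟩ := h
  have h2 : (0 : ℝ) < 2 ^ i := by positivity
  have h3 : (1 : ℝ) ≤ 2 ^ i := one_le_pow₀ (by norm_num)
  refine ⟨b / 2 ^ i, ?_, ?_⟩
  · show 2 ^ i * (b / 2 ^ i) ∈ L.S (1 * 1)
    rw [mul_div_cancel₀ _ h2.ne']; exact p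
  · have c : |a / 2 ^ i - b / 2 ^ i| ≤ Λ := by
      rw [← sub_div, abs_div, abs_of_pos h2, div_le_iff₀ h2]
      exact q.trans (by nlinarith)
    have u := abs_le.1 (abs_dn i a)
    have w := abs_le.1 c
    rw [abs_le]; constructor <;> linarith [u.1, u.2, w.1, w.2]

theorem nrB {L : Lv} {y y₁ y₂ : ℝ} (h₁ : Nr (L.S 1) Λ y₁) (h₂ : Nr (L.S 1) Λ y₂)
    (h : |y₁ - y₂ - y| ≤ 4 * Λ) : Nr ((L.tr 2 1).S 1) (6 * Λ + 1) y := by
  obtain ⟨a₁, m₁, k₁⟩ := h₁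
  obtain ⟨a₂, m₂, k₂⟩ := h₂
  refine ⟨a₁ - a₂, ABZoomA.sub_mem _ m₁ m₂, ?_⟩
  have u := abs_le.1 k₁
  have w := abs_le.1 k₂
  have t := abs_le.1 h
  rw [abs_le]; constructor <;> linarith [u.1, u.2, w.1, w.2, t.1, t.2]

theorem mul3 {x c y : ℝ} (hx : |x| ≤ 1) (hc : |c| ≤ Λ) (hy : |y| ≤ 1) : |x * (c * y)| ≤ Λ := by
  rw [abs_mul, abs_mul]
  exact (mul_le_of_le_one_left (by positivity) hx).trans
    ((mul_le_of_le_one_right (abs_nonneg _) hy).trans hc)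

theorem mem {v : z.Ω × z.Ω} (hv : v ∈ (glue z.P z.P (ph z j) (ph z j)).S) :
    v.1 ∈ z.P.S ∧ v.2 ∈ z.P.S ∧ z.a v.2 = z.a v.1 ∧ dn2 j (z.b v.2) = dn2 j (z.b v.1) ∧
      z.θ v.2 = z.θ v.1 := by
  obtain ⟨h1, h2, h3⟩ := (kg.mem z.P z.P (ph z j) (ph z j) v (Law.rfl _)).1 hv
  exact ⟨h1, h2, congrArg (·.1) h3, congrArg (·.2.1) h3, congrArg (·.2.2) h3⟩

theorem lfst (z : Q4) (j : ℕ) : Law (glue z.P z.P (ph z j) (ph z j)) Prod.fst z.P id :=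
  kg.fst _ _ _ _

theorem lsnd (z : Q4) (j : ℕ) : Law (glue z.P z.P (ph z j) (ph z j)) Prod.snd z.P id :=
  kg.snd _ _ _ _ (Law.rfl _)

theorem abs_b {v : z.Ω × z.Ω} (hv : v ∈ (glue z.P z.P (ph z j) (ph z j)).S) :
    |((z.b v.1).1 : ℝ) - (z.b v.2).1| ≤ 2 ^ j ∧ |((z.b v.1).2 : ℝ) - (z.b v.2).2| ≤ 2 ^ j :=
  ⟨(abs_sub_of_dn (congrArg Prod.fst (mem hv).2.2.2.1).symm).le,
    (abs_sub_of_dn (congrArg Prod.snd (mem hv).2.2.2.1).symm).le⟩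

theorem bd (hΛ : 1 ≤ Λ) (hj : j ≤ M) (h : ∀ ω ∈ z.P.S, z.Bd M Λ ω) :
    ∀ v ∈ (zm z M j).P.S, (zm z M j).Bd j (6 * Λ + 1) v := by
  intro v hv
  have h1 : (2 : ℝ) ^ j ≤ (6 * Λ + 1) * 2 ^ j :=
    le_mul_of_one_le_left (by positivity) (by linarith)
  have h2 : Λ ≤ 6 * Λ + 1 := by linarith
  obtain ⟨a, -, u⟩ := h _ (mem hv).2.1
  refine ⟨⟨bd1 hj a.1, bd1 hj a.2⟩, ⟨?_, ?_⟩, u.1.trans h2, u.2.1.trans h2, u.2.2.1.trans h2,
    u.2.2.2.1.trans h2, u.2.2.2.2.trans (mul_le_mul_of_nonneg_right h2 (abs_nonneg _))⟩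
  · simpa [zm] using (abs_b hv).1.trans h1
  · simpa [zm] using (abs_b hv).2.trans h1

theorem inn (hΛ : 1 ≤ Λ) (hj : j ≤ M) {v : z.Ω × z.Ω} (hv : v ∈ (zm z M j).P.S)
    (u : Um Λ (z.A (z.θ v.2))) (h₁ : z.In M Λ v.1) (h₂ : z.In M Λ v.2) :
    (zm z M j).In j (6 * Λ + 1) v := by
  obtain ⟨-, -, ea, -, eθ⟩ := mem hv
  unfold Q4.In at h₁
  rw [← eθ, ← ea] at h₁
  have h1 : (0 : ℝ) < 2 ^ j := by positivity
  have h2 : (0 : ℝ) < 2 ^ (M - j) := by positivity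
  have e : (2 : ℝ) ^ M = 2 ^ j * 2 ^ (M - j) := by rw [← pow_add]; congr 1; omega
  refine ⟨nrB h₁.1 h₂.1 ?_, ⟨nrA _ hΛ h₂.2.1.1, nrA _ hΛ h₂.2.1.2⟩,
    nrB h₁.2.2.1 h₂.2.2.1 ?_, nrB h₁.2.2.2 h₂.2.2.2 ?_⟩
  · have c : ∀ y : ℝ, |y| ≤ 2 ^ j → |y / 2 ^ j| ≤ 1 := fun y h => by
      rwa [abs_div, abs_of_pos h1, div_le_one h1]
    have d1 := abs_le.1 (mul3 (abs_dn (M - j) (z.a v.2).1) u.1 (c _ (abs_b hv).1))
    have d2 := abs_le.1 (mul3 (abs_dn (M - j) (z.a v.2).1) u.2.1 (c _ (abs_b hv).2))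
    have d3 := abs_le.1 (mul3 (abs_dn (M - j) (z.a v.2).2) u.2.2.1 (c _ (abs_b hv).1))
    have d4 := abs_le.1 (mul3 (abs_dn (M - j) (z.a v.2).2) u.2.2.2.1 (c _ (abs_b hv).2))
    refine (congrArg abs ?_).trans_le (abs_le.2 ⟨le_trans (le_of_eq (by ring))
      (add_le_add (add_le_add d1.1 d2.1) (add_le_add d3.1 d4.1)),
      (add_le_add (add_le_add d1.2 d2.2) (add_le_add d3.2 d4.2)).trans_eq (by ring)⟩)
    simp only [zm, bf, dn2, Prod.fst_sub, Prod.snd_sub, Int.cast_sub, e]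
    field_simp
    ring
  · simpa [zm] using (one_pos.trans_le hΛ).le
  · simpa [zm] using (one_pos.trans_le hΛ).le

theorem cov (cv : CV) {x e e' : ℝ} {q : ℕ} (hj : j ≤ M) (he : e ≤ e') {v : z.Ω × z.Ω}
    (h₁ : z.Cv x M q e v.2) (h₂ : z.Cv x M (2 * q) e v.2) : (zm z M j).Cv x j q e' v := by
  refine ⟨cv.mono _ _ x e e' M j h₂.1 (fun y hy => ?_) hj he, ?_,
    cv.mono _ _ x e e' M j h₂.2.2 (fun y hy => ?_) hj he⟩
  · simpa [zm, Lv.tr] using hy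
  · refine cv.mono _ _ x e e' _ j (cv.pow _ x e M (M - j) h₁.2.1 (Nat.sub_le _ _))
      (fun y hy => ?_) (by omega) he
    simpa [zm, Lv.tr] using hy
  · simpa [zm, Lv.tr] using hy

/-- The first copy given the second. -/
theorem e1 {γ : Type} (z : Q4) (j : ℕ) (g : ℤ × ℤ → γ) :
    ch (glue z.P z.P (ph z j) (ph z j)) (fun v => z.b v.1)
      (fun v => ((z.a v.2, z.b v.2, z.θ v.2), g (z.b v.1))) =
      ch z.P z.b fun ω => (ph z j ω, g (z.b ω)) :=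
  kg.mkv' z.P z.P (ph z j) (ph z j) z.b (fun ω => g (z.b ω)) (fun y => (z.a y, z.b y, z.θ y))
    (Law.rfl _) fun a _ b _ e => by
      simp only [Prod.mk.injEq] at e
      simp only [ph, e.1, e.2.1, e.2.2]

theorem e2 {γ δ : Type} (z : Q4) (j : ℕ) (g : ℤ × ℤ → γ) (k : ℤ × ℤ → δ)
    (h : ∀ b b', k b = k b' → dn2 j b = dn2 j b' ∧ g b = g b') :
    ch z.P z.b (fun ω => (k (z.b ω), z.θ ω)) ≤
      ch z.P z.b (fun ω => (ph z j ω, g (z.b ω))) + mi z.P z.a z.b z.θ := by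
  have h1 : mi z.P z.a z.b (fun ω => (k (z.b ω), z.θ ω)) ≤ mi z.P z.a z.b z.θ :=
    mi_cond (Fn.snd _ _) fun a _ b _ e => by
      simp only [Prod.mk.injEq] at e
      simp only [e.1, e.2]
  rw [mi_symm] at h1
  refine (ch_le_mi (G := z.a) fun a _ b _ e => ?_).trans (add_le_add le_rfl h1)
  simp only [Prod.mk.injEq] at e
  simp only [ph, e.1, (h _ _ e.2.1).1, (h _ _ e.2.1).2, e.2.2]

theorem e0 {γ : Type} (z : Q4) (M j : ℕ) (G : z.Ω × z.Ω → γ) :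
    Fn (zm z M j).P (fun v => z.b v.1)
      fun v => ((zm z M j).b v, (z.a v.2, z.b v.2, z.θ v.2), G v) := fun a _ b _ e => by
  have h1 : z.b a.1 - z.b a.2 = z.b b.1 - z.b b.2 := congrArg (·.1) e
  have h2 : z.b a.2 = z.b b.2 := congrArg (·.2.1.2.1) e
  rw [h2] at h1
  exact sub_left_injective h1

theorem e3 (z : Q4) (M j : ℕ) : ch z.P z.b (fun ω => (ph z j ω, ())) ≤
    ch (zm z M j).P (zm z M j).b fun v => ((zm z M j).a v, (zm z M j).θ v) := by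
  rw [← e1 z j fun _ => ()]
  refine ch_le (e0 z M j _) fun a _ b _ e => ?_
  simp only [Prod.mk.injEq] at e
  simp only [zm, e.1.1, e.1.2.1, e.1.2.2]

theorem e4 (z : Q4) (M j : ℕ) :
    (zm z M j).hb ≤ ch z.P z.b fun ω => (dn2 j (z.b ω), z.θ ω) := by
  rw [← (lfst z j).ch_id z.b fun ω => (dn2 j (z.b ω), z.θ ω)]
  refine ch_le (fun a _ b _ e => ?_) fun a ha b hb e => ?_
  · have h1 : z.b a.1 = z.b b.1 := congrArg (·.1) e
    have h2 : z.b a.2 = z.b b.2 := congrArg (·.2.1) e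
    simp only [zm, h1, h2]
  · have h1 : z.b a.2 = z.b b.2 := congrArg (·.1) e
    have h2 : z.θ a.2 = z.θ b.2 := congrArg (·.2) e
    simp only [← (mem ha).2.2.2.1, ← (mem hb).2.2.2.1, ← (mem ha).2.2.2.2, ← (mem hb).2.2.2.2,
      h1, h2]

theorem inf (z : Q4) (M j : ℕ) :
    mi (zm z M j).P (zm z M j).a (zm z M j).b (zm z M j).θ ≤ mi z.P z.a z.b z.θ := by
  rw [mi_symm]
  have h2 := e2 z j (fun _ => ()) (dn2 j) fun _ _ e => ⟨e, rfl⟩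
  have h3 := e3 z M j
  have h4 := e4 z M j
  unfold Q4.hb at h4
  unfold mi at h2 ⊢
  linarith

theorem hb (z : Q4) (M j : ℕ) :
    ch z.P z.b (fun ω => (dn2 j (z.b ω), z.θ ω)) ≤ (zm z M j).hb + mi z.P z.a z.b z.θ :=
  (e2 z j (fun _ => ()) (dn2 j) fun _ _ e => ⟨e, rfl⟩).trans
    (add_le_add ((e3 z M j).trans (ch_anti (Fn.snd _ _))) le_rfl)

theorem hk (z : Q4) (M j : ℕ) :
    ch z.P z.b (fun ω => (((z.b ω).1, dn2 j (z.b ω)), z.θ ω)) ≤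
      (zm z M j).swap.hk + mi z.P z.a z.b z.θ := by
  refine (e2 z j Prod.fst (fun b => (b.1, dn2 j b)) fun _ _ e =>
    ⟨(Prod.mk.inj e).2, (Prod.mk.inj e).1⟩).trans (add_le_add ?_ le_rfl)
  rw [← e1 z j Prod.fst]
  refine ch_le (e0 z M j _) fun a _ b _ e => ?_
  simp only [Prod.mk.injEq] at e
  simp only [zm, Q4.swap, Prod.fst_sub, e.1.2.1, e.1.2.2, e.2]

theorem ha (z : Q4) (M j : ℕ) :
    ch z.P (fun ω => dn2 (M - j) (z.a ω)) z.θ ≤ (zm z M j).ha + mi z.P z.a z.b z.θ := by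
  have h1 : (zm z M j).ha = ch z.P (fun ω => dn2 (M - j) (z.a ω)) fun ω => (z.b ω, z.θ ω) :=
    (lsnd z j).ch_id (fun ω => dn2 (M - j) (z.a ω)) fun ω => (z.b ω, z.θ ω)
  rw [h1]
  refine (ch_le_mi (G := z.b) (Fn.rfl _)).trans (add_le_add le_rfl (mi_mono' ?_))
  exact fun a _ b _ e => congrArg (dn2 (M - j)) (congrArg Prod.fst e)

theorem whp1 {z : ℕ → Q4} {E : ∀ n, (z n).Ω → Prop} (M j : ℕ → ℕ)
    (h : Whp (fun n => (z n).P) E) :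
    Whp (fun n => (zm (z n) (M n) (j n)).P) fun n v => E n v.1 := fun ε hε =>
  (h ε hε).mono fun n a => ((lfst (z n) (j n)).pb_eq fun ω => ¬E n ω).trans_le a

theorem whp2 {z : ℕ → Q4} {E : ∀ n, (z n).Ω → Prop} (M j : ℕ → ℕ)
    (h : Whp (fun n => (z n).P) E) :
    Whp (fun n => (zm (z n) (M n) (j n)).P) fun n v => E n v.2 := fun ε hε =>
  (h ε hε).mono fun n a => ((lsnd (z n) (j n)).pb_eq fun ω => ¬E n ω).trans_le a

end ALZoomA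

open ALZoomA in
theorem rowZoom4 : SZoom4 := by
  intro cv x z M j hz hj
  have big := hz.big.frac hj
  obtain ⟨Λ, hΛ, hb1, hb2⟩ := hz.bd
  refine ⟨fun n => zm (z n) (M n) (j n),
    ⟨big, ⟨fun n => 6 * Λ n + 1, ?_, ?_, ?_⟩, ?_, ?_⟩, ?_, ?_, ?_⟩
  · exact (((hΛ.frac hj).const_mul big (by norm_num)).add (big.sub le_rfl) big)
  · exact hb1.mono fun n a => bd (hΛ.1 n) (hj.1 n) a
  · exact ((whp1 M j hb2).and (whp2 M j hb2)).mono (hb1.mono fun n a v hv k =>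
      inn (hΛ.1 n) (hj.1 n) hv (a _ (mem hv).2.1).2.2 k.1 k.2)
  · exact Sm.mono (Le.frac hz.inf hj) (Eventually.of_forall fun n => inf _ _ _)
  · intro q ε hε
    obtain ⟨h1, c, hc, h2⟩ := hj
    refine ((whp2 M j (hz.cov q (ε * c) (by positivity))).and
      (whp2 M j (hz.cov (2 * q) (ε * c) (by positivity)))).mono (h2.mono fun n a v _ k => ?_)
    exact cov cv (h1 n) (by nlinarith) k.1 k.2
  · exact Le.of_sub hz.inf (Eventually.of_forall fun n => by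
      linarith [ha (z n) (M n) (j n)])
  · exact Le.of_sub hz.inf (Eventually.of_forall fun n => by
      linarith [hb (z n) (M n) (j n)])
  · exact Le.of_sub hz.inf (Eventually.of_forall fun n => by
      linarith [hk (z n) (M n) (j n)])

end Pool.Agent.MP_5168f5_an.MX.AL
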