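import Pool.Agent.MP_5168f5_an.MX.ABMain
import Pool.Agent.MP_5168f5_an.MX.ALClo
import Pool.Agent.MP_5168f5_an.MX.ALDiag
import Pool.Agent.MP_5168f5_an.MX.ALZoom
import Pool.Agent.MP_5168f5_an.MX.ALKer
import Pool.Agent.MP_5168f5_an.MX.ALA

/-! The bound for bilinear forms in two variables. -/

namespace Pool.Agent.MP_5168f5_an.MX.AL

theorem alg4 : ALG4 :=
  glueAL AB.rowCV AB.abc rowClo4 rowXl4 rowDiag4 rowZoom4 rowKer4 rowA4 rowB4

end Pool.Agent.MP_5168f5_an.MX.AL
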