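import Pool.Agent.MP_5168f5_an.MX.FroK
import Pool.Agent.MP_5168f5_an.H17F.KG

/-! Lines in three dimensions with a height and a frame: boxes and what they determine. -/

namespace Pool.Agent.MP_5168f5_an.MX

open H19 H17S H17F Filter

/-- Rounding down to a multiple of `2^{-j}`. -/
noncomputable def rn (j : ℕ) (x : ℝ) : ℝ := fl1 j x / 2 ^ j

/-- A line `(a₁ + z e₁, a₂ + z e₂)`, a height `z`, a slope `g` and side information `θ`. -/
structure Pl (Ω T : Type) where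
  θ : Ω → T
  a1 : Ω → ℝ
  a2 : Ω → ℝ
  e1 : Ω → ℝ
  e2 : Ω → ℝ
  z : Ω → ℝ
  g : Ω → ℝ

/-- Depths: height `i`, slope `f`, lateral position `t`, lateral direction `E`, normal position
`D`, normal direction `c`. -/
structure Pm where
  i : ℕ
  f : ℕ
  t : ℕ
  E : ℕ
  D : ℕ
  c : ℕ

namespace Pl

variable {Ω Ω' T : Type} (x : Pl Ω T)

/-- Pull back along a map. -/
def map (π : Ω' → Ω) : Pl Ω' T :=
  ⟨fun v => x.θ (π v), fun v => x.a1 (π v), fun v => x.a2 (π v), fun v => x.e1 (π v),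
    fun v => x.e2 (π v), fun v => x.z (π v), fun v => x.g (π v)⟩

/-- The line. -/
def l (ω : Ω) : ℝ × ℝ × ℝ × ℝ × T := (x.a1 ω, x.a2 ω, x.e1 ω, x.e2 ω, x.θ ω)

/-- Lateral position at the rounded height. -/
noncomputable def y1 (i : ℕ) (ω : Ω) : ℝ := x.a1 ω + rn i (x.z ω) * x.e1 ω

/-- Normal position at the rounded height, in the rounded frame. -/
noncomputable def nm (i f : ℕ) (ω : Ω) : ℝ :=
  x.a2 ω + rn i (x.z ω) * x.e2 ω - rn f (x.g ω) * x.y1 i ω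

/-- Normal direction (tilt) in the rounded frame. -/
noncomputable def tl (f : ℕ) (ω : Ω) : ℝ := x.e2 ω - rn f (x.g ω) * x.e1 ω

/-- Rounded height and slope. -/
noncomputable def zg (i f : ℕ) (ω : Ω) : ℤ × ℤ := (fl1 i (x.z ω), fl1 f (x.g ω))

/-- The line with the rounded height and slope. -/
noncomputable def lz (i f : ℕ) (ω : Ω) : (ℝ × ℝ × ℝ × ℝ × T) × ℤ × ℤ := (x.l ω, x.zg i f ω)

/-- The box of depths `p`. -/
noncomputable def Bx (p : Pm) (ω : Ω) : T × (ℤ × ℤ) × ℤ × ℤ × ℤ × ℤ :=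
  (x.θ ω, x.zg p.i p.f ω, fl1 p.t (x.y1 p.i ω), fl1 p.E (x.e1 ω), fl1 p.D (x.nm p.i p.f ω),
    fl1 p.c (x.tl p.f ω))

end Pl

/-- The label of level `i`, frame `f` and direction depths `E`, `c`. -/
def lab (i f E c : ℕ) : Pm := ⟨i, f, i + E, E, i + c, c⟩

/-- The planar cell of level `i`, frame `f`, normal depth `D`, lateral look-ahead `w`. -/
def nb (w i f D : ℕ) : Pm := ⟨i, f, D + w - f, D + w - f - i, D, D - i⟩

/-- The point in that cell. -/
def xb (w i f D : ℕ) : Pm := ⟨i + w, f, D + w - f, D + w - f - i, D + w, D - i⟩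

variable {Ω T α β γ : Type} {P : FP Ω}

/-- `X` is known from `G` up to `K 2^{-j}`. -/
def Cls (P : FP Ω) (G : Ω → β) (X : Ω → ℝ) (j : ℕ) (K : ℝ) : Prop :=
  ∀ a ∈ P.S, ∀ b ∈ P.S, G a = G b → |X a - X b| ≤ K / 2 ^ j

/-- The box `p` is known from `G` up to the constant `K`. -/
structure Kn (P : FP Ω) (x : Pl Ω T) (G : Ω → β) (p : Pm) (K : ℝ) : Prop where
  one : 1 ≤ K
  θ : Fn P x.θ G
  zg : Fn P (x.zg p.i p.f) G
  t : Cls P G (x.y1 p.i) p.t K
  E : Cls P G x.e1 p.E K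
  D : Cls P G (x.nm p.i p.f) p.D K
  c : Cls P G (x.tl p.f) p.c K

theorem rn_le (j : ℕ) (x : ℝ) : rn j x ≤ x := by
  have := fl1_le j x; rw [rn, div_eq_inv_mul]; exact this

theorem lt_rn (j : ℕ) (x : ℝ) : x < rn j x + 1 / 2 ^ j := by
  have := lt_fl1 j x; rw [rn, div_eq_inv_mul, one_div]; exact this

theorem dv_anti {K K' : ℝ} (h0 : 0 ≤ K') (h : K ≤ K') {j k : ℕ} (e : j ≤ k) :
    K / 2 ^ k ≤ K' / 2 ^ j :=
  div_le_div₀ h0 h (by positivity) (pow_le_pow_right₀ one_le_two e)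

theorem rn_sub (i j : ℕ) (x : ℝ) : |rn i x - rn j x| ≤ 1 / 2 ^ min i j := by
  have a1 := rn_le i x
  have a2 := rn_le j x
  have a3 := lt_rn i x
  have a4 := lt_rn j x
  have a5 := dv_anti zero_le_one le_rfl (min_le_left i j)
  have a6 := dv_anti zero_le_one le_rfl (min_le_right i j)
  rw [abs_le]; constructor <;> linarith

variable {G : Ω → β} {G' : Ω → γ} {X X' : Ω → ℝ} {j k : ℕ} {K K' : ℝ}

theorem Cls.of_fn (h : Fn P (fun ω => fl1 j (X ω)) G) : Cls P G X j 1 := fun a ha b hb e => by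
  rw [one_div]; exact (abs_sub_lt_of_fl1_eq (h a ha b hb e)).le

theorem Cls.mono (h : Cls P G X k K) (e : j ≤ k) (h0 : 0 ≤ K') (hK : K ≤ K') : Cls P G X j K' :=
  fun a ha b hb q => (h a ha b hb q).trans (dv_anti h0 hK e)

theorem Cls.ctx (h : Cls P G X j K) (e : Fn P G G') : Cls P G' X j K :=
  fun a ha b hb q => h a ha b hb (e a ha b hb q)

theorem Cls.cE (h : Cls P G X j K) (E : Ω → Prop) : Cls (cE P E) G X j K :=
  fun a ha b hb q => h a (cE_sub ha) b (cE_sub hb) q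

theorem Cls.add (h : Cls P G X j K) (h' : Cls P G X' j K') :
    Cls P G (fun ω => X ω + X' ω) j (K + K') := fun a ha b hb q => by
  have a1 := abs_le.1 (h a ha b hb q)
  have a2 := abs_le.1 (h' a ha b hb q)
  rw [add_div, abs_le]; constructor <;> linarith [a1.1, a1.2, a2.1, a2.2]

theorem Cls.sub (h : Cls P G X j K) (h' : Cls P G X' j K') :
    Cls P G (fun ω => X ω - X' ω) j (K + K') := fun a ha b hb q => by
  have a1 := abs_le.1 (h a ha b hb q)
  have a2 := abs_le.1 (h' a ha b hb q)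
  rw [add_div, abs_le]; constructor <;> linarith [a1.1, a1.2, a2.1, a2.2]

/-- A known small factor. -/
theorem Cls.mul (h : Cls P G X j K) {r : Ω → ℝ} (hr : Fn P r G)
    (hk : ∀ ω ∈ P.S, |r ω| ≤ 1 / 2 ^ k) : Cls P G (fun ω => r ω * X ω) (k + j) K :=
  fun a ha b hb q => by
    have a1 := h a ha b hb q
    simp only
    rw [← hr a ha b hb q, ← mul_sub, abs_mul, pow_add, ← one_mul K, ← div_mul_div_comm]
    exact mul_le_mul (hk a ha) a1 (abs_nonneg _) (by positivity)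

/-- A small term. -/
theorem Cls.small (h : ∀ ω ∈ P.S, |X ω| ≤ K / 2 ^ j) : Cls P G X j (2 * K) := fun a ha b hb _ => by
  have a1 := abs_le.1 (h a ha)
  have a2 := abs_le.1 (h b hb)
  rw [mul_div_assoc, abs_le]; constructor <;> linarith [a1.1, a1.2, a2.1, a2.2]

/-- Division by a known factor that is not too small. -/
theorem Cls.div {r : Ω → ℝ} (h : Cls P G (fun ω => r ω * X ω) (k + j) K) (hr : Fn P r G)
    (hk : ∀ ω ∈ P.S, 1 / 2 ^ k ≤ |r ω|) : Cls P G X j K := fun a ha b hb q => by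
  have a1 := h a ha b hb q
  simp only [← hr a ha b hb q] at a1
  rw [← mul_sub, abs_mul, pow_add, ← one_mul K, ← div_mul_div_comm] at a1
  exact le_of_mul_le_mul_left
    ((mul_le_mul_of_nonneg_right (hk a ha) (abs_nonneg _)).trans a1) (by positivity)

theorem Cls.congr (h : Cls P G X j K) (e : ∀ ω ∈ P.S, X' ω = X ω) : Cls P G X' j K :=
  fun a ha b hb q => by rw [e a ha, e b hb]; exact h a ha b hb q

/-- The entropy of a digit block of length at most `u` beyond what is known. -/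
theorem Cls.ch (h : Cls P G X j K) (hK : 0 ≤ K) {u : ℕ} (e : k ≤ j + u) :
    ch P (fun ω => fl1 k (X ω)) G ≤ u * lg + (2 * K + 2) := by
  have h2 : (0 : ℝ) < 2 ^ u := by positivity
  have h1 : (1 : ℝ) ≤ 2 ^ u := one_le_pow₀ one_le_two
  refine (ch_near1 (L := K * 2 ^ u) (by positivity) fun a ha b hb q => (h a ha b hb q).trans ?_).trans ?_
  · refine le_trans (le_of_eq ?_) (dv_anti (by positivity) le_rfl e)
    rw [pow_add]; field_simp
  · have a1 : Real.log (2 * (K * 2 ^ u) + 3) ≤ Real.log (2 ^ u * (2 * K + 3)) :=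
      Real.log_le_log (by positivity) (by nlinarith)
    rw [Real.log_mul h2.ne' (by positivity), log_two_pow] at a1
    have := Real.log_le_sub_one_of_pos (show 0 < 2 * K + 3 by positivity)
    linarith

variable {x : Pl Ω T} {p q : Pm}

theorem fn_rn {Z : Ω → ℝ} (h : Fn P (fun ω => fl1 j (Z ω)) G) : Fn P (fun ω => rn j (Z ω)) G :=
  fun a ha b hb e => by simp only [rn]; rw [show fl1 j (Z a) = fl1 j (Z b) from h a ha b hb e]

theorem fn_fl1 (X : Ω → ℝ) (e : j ≤ k) : Fn P (fun ω => fl1 j (X ω)) fun ω => fl1 k (X ω) :=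
  fun _ _ _ _ h => fl1_eq_of_le e h

theorem fn_zg {i f i' f' : ℕ} (hi : i ≤ i') (hf : f ≤ f') : Fn P (x.zg i f) (x.zg i' f') :=
  fun _ _ _ _ e => Prod.ext (fl1_eq_of_le hi (congrArg Prod.fst e))
    (fl1_eq_of_le hf (congrArg Prod.snd e))

theorem fn_lz {i f i' f' : ℕ} (hi : i ≤ i') (hf : f ≤ f') : Fn P (x.lz i f) (x.lz i' f') :=
  fun a ha b hb e => Prod.ext (congrArg (·.1) e :) (fn_zg hi hf a ha b hb (congrArg Prod.snd e))

theorem bx_θ : Fn P x.θ (x.Bx p) := fun _ _ _ _ e => congrArg (·.1) e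
theorem bx_zg : Fn P (x.zg p.i p.f) (x.Bx p) := fun _ _ _ _ e => congrArg (·.2.1) e
theorem bx_t : Fn P (fun ω => fl1 p.t (x.y1 p.i ω)) (x.Bx p) := fun _ _ _ _ e => congrArg (·.2.2.1) e
theorem bx_E : Fn P (fun ω => fl1 p.E (x.e1 ω)) (x.Bx p) := fun _ _ _ _ e => congrArg (·.2.2.2.1) e
theorem bx_D : Fn P (fun ω => fl1 p.D (x.nm p.i p.f ω)) (x.Bx p) :=
  fun _ _ _ _ e => congrArg (·.2.2.2.2.1) e
theorem bx_c : Fn P (fun ω => fl1 p.c (x.tl p.f ω)) (x.Bx p) :=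
  fun _ _ _ _ e => congrArg (·.2.2.2.2.2) e

/-- Boxes with the same height and frame are nested. -/
theorem bx_mono (hi : q.i = p.i) (hf : q.f = p.f) (ht : q.t ≤ p.t) (hE : q.E ≤ p.E)
    (hD : q.D ≤ p.D) (hc : q.c ≤ p.c) : Fn P (x.Bx q) (x.Bx p) := fun a _ b _ e => by
  simp only [Pl.Bx, Prod.mk.injEq, hi, hf] at e ⊢
  exact ⟨e.1, e.2.1, fl1_eq_of_le ht e.2.2.1, fl1_eq_of_le hE e.2.2.2.1,
    fl1_eq_of_le hD e.2.2.2.2.1, fl1_eq_of_le hc e.2.2.2.2.2⟩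

/-- A box is a function of the line, the rounded height and the rounded slope. -/
theorem bx_lz {i f : ℕ} (hi : p.i ≤ i) (hf : p.f ≤ f) : Fn P (x.Bx p) (x.lz i f) := by
  refine Fn.trans (fun a _ b _ e => ?_) (fn_lz hi hf)
  simp only [Pl.lz, Pl.l, Pl.zg, Prod.mk.injEq] at e
  obtain ⟨⟨e1, e2, e3, e4, e5⟩, e6, e7⟩ := e
  simp only [Pl.Bx, Pl.zg, Pl.nm, Pl.y1, Pl.tl, rn, e1, e2, e3, e4, e5, e6, e7]

theorem Kn.of_fn (h : Fn P (x.Bx p) G) : Kn P x G p 1 :=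
  ⟨le_rfl, bx_θ.trans h, bx_zg.trans h, .of_fn (bx_t.trans h), .of_fn (bx_E.trans h),
    .of_fn (bx_D.trans h), .of_fn (bx_c.trans h)⟩

theorem Kn.ctx (h : Kn P x G p K) (e : Fn P G G') : Kn P x G' p K :=
  ⟨h.one, h.θ.trans e, h.zg.trans e, h.t.ctx e, h.E.ctx e, h.D.ctx e, h.c.ctx e⟩

theorem Kn.cE (h : Kn P x G p K) (E : Ω → Prop) : Kn (cE P E) x G p K :=
  ⟨h.one, fn_cE h.θ E, fn_cE h.zg E, h.t.cE E, h.E.cE E, h.D.cE E, h.c.cE E⟩

theorem Kn.big (h : Kn P x G p K) (e : K ≤ K') : Kn P x G p K' :=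
  have h0 : 0 ≤ K' := by linarith [h.one]
  ⟨h.one.trans e, h.θ, h.zg, h.t.mono le_rfl h0 e, h.E.mono le_rfl h0 e, h.D.mono le_rfl h0 e,
    h.c.mono le_rfl h0 e⟩

theorem Kn.sett (h : Kn P x G p K) {t : ℕ} (e : Cls P G (x.y1 p.i) t K) :
    Kn P x G ⟨p.i, p.f, t, p.E, p.D, p.c⟩ K := ⟨h.one, h.θ, h.zg, e, h.E, h.D, h.c⟩

theorem Kn.setE (h : Kn P x G p K) {E : ℕ} (e : Cls P G x.e1 E K) :
    Kn P x G ⟨p.i, p.f, p.t, E, p.D, p.c⟩ K := ⟨h.one, h.θ, h.zg, h.t, e, h.D, h.c⟩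

theorem Kn.setD (h : Kn P x G p K) {D : ℕ} (e : Cls P G (x.nm p.i p.f) D K) :
    Kn P x G ⟨p.i, p.f, p.t, p.E, D, p.c⟩ K := ⟨h.one, h.θ, h.zg, h.t, h.E, e, h.c⟩

theorem Kn.setc (h : Kn P x G p K) {c : ℕ} (e : Cls P G (x.tl p.f) c K) :
    Kn P x G ⟨p.i, p.f, p.t, p.E, p.D, c⟩ K := ⟨h.one, h.θ, h.zg, h.t, h.E, h.D, e⟩

theorem Kn.cls (h : Kn P x G p K) (e : Fn P (fun ω => fl1 j (X ω)) G) : Cls P G X j K :=
  (Cls.of_fn e).mono le_rfl (by linarith [h.one]) h.one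

/-- The box `q` can be read off the box `p` once the height and slope of `q` are known. -/
def Pm.Rd (q p : Pm) : Prop :=
  q.E ≤ p.E ∧ q.t ≤ p.t ∧ q.t ≤ min q.i p.i + p.E ∧ q.c ≤ p.c ∧ q.c ≤ min q.f p.f + p.E ∧
    q.D ≤ p.D ∧ q.D ≤ min q.i p.i + p.c ∧ q.D ≤ min q.f p.f + p.t ∧
      q.D ≤ min q.f p.f + min q.i p.i + p.E

/-- Change of height and frame. -/
theorem Kn.move (h : Kn P x G p K) (hz : Fn P (x.zg q.i q.f) G) (e : q.Rd p) :
    Kn P x G q (4 * K) := by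
  obtain ⟨e1, e2, e3, e4, e5, e6, e7, e8, e9⟩ := e
  have h0 : 0 ≤ K := by linarith [h.one]
  have fz : Fn P (fun ω => rn q.i (x.z ω) - rn p.i (x.z ω)) G := fun a ha b hb e => by
    have a1 := fn_rn (Z := x.z) (fun a ha b hb e => congrArg Prod.fst (hz a ha b hb e)) a ha b hb e
    have a2 := fn_rn (Z := x.z) (fun a ha b hb e => congrArg Prod.fst (h.zg a ha b hb e)) a ha b hb e
    simp only at a1 a2 ⊢
    rw [a1, a2]
  have fg : Fn P (fun ω => rn p.f (x.g ω) - rn q.f (x.g ω)) G := fun a ha b hb e => by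
    have a1 := fn_rn (Z := x.g) (fun a ha b hb e => congrArg Prod.snd (hz a ha b hb e)) a ha b hb e
    have a2 := fn_rn (Z := x.g) (fun a ha b hb e => congrArg Prod.snd (h.zg a ha b hb e)) a ha b hb e
    simp only at a1 a2 ⊢
    rw [a1, a2]
  have bz : ∀ ω ∈ P.S, |rn q.i (x.z ω) - rn p.i (x.z ω)| ≤ 1 / 2 ^ min q.i p.i :=
    fun ω _ => rn_sub _ _ _
  have bg : ∀ ω ∈ P.S, |rn p.f (x.g ω) - rn q.f (x.g ω)| ≤ 1 / 2 ^ min q.f p.f :=
    fun ω _ => by rw [min_comm]; exact rn_sub _ _ _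
  have y : ∀ t, t ≤ p.t → t ≤ min q.i p.i + p.E → Cls P G (x.y1 q.i) t (K + K) := fun t a b =>
    ((h.t.mono a h0 le_rfl).add ((h.E.mul fz bz).mono b h0 le_rfl)).congr fun ω _ => by
      simp only [Pl.y1]; ring
  refine ⟨by linarith [h.one], h.θ, hz, (y _ e2 e3).mono le_rfl (by linarith) (by linarith),
    h.E.mono e1 (by linarith) (by linarith), ?_, ?_⟩
  · refine ((((h.D.mono e6 h0 le_rfl).add ((h.c.mul fz bz).mono e7 h0 le_rfl)).add
      (((y (min p.t (min q.i p.i + p.E)) (min_le_left _ _) (min_le_right _ _)).mul fg bg).mono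
        (j := q.D) (by omega) (by linarith) le_rfl)).congr fun ω _ => ?_).mono le_rfl
          (by linarith) (by linarith)
    simp only [Pl.nm, Pl.y1, Pl.tl]; ring
  · refine (((h.c.mono e4 h0 le_rfl).add ((h.E.mul fg bg).mono e5 h0 le_rfl)).congr
      fun ω _ => ?_).mono le_rfl (by linarith) (by linarith)
    simp only [Pl.tl]; ring

/-- The entropy of a box that is at most `u` deeper than a known one. -/
theorem Kn.ch' (h : Kn P x G p K) {u : ℕ} (hi : q.i = p.i) (hf : q.f = p.f) (ht : q.t ≤ p.t + u)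
    (hE : q.E ≤ p.E + u) (hD : q.D ≤ p.D + u) (hc : q.c ≤ p.c + u) :
    ch P (x.Bx q) G ≤ 4 * u * lg + (8 * K + 8) := by
  have h0 : 0 ≤ K := by linarith [h.one]
  have a1 := ch_zero h.θ
  have a2 := ch_zero h.zg
  have a3 := h.t.ch h0 ht
  have a4 := h.E.ch h0 hE
  have a5 := h.D.ch h0 hD
  have a6 := h.c.ch h0 hc
  rw [← hi] at a3
  rw [← hi, ← hf] at a2 a5
  rw [← hf] at a6
  have : ch P (x.Bx q) G ≤ _ := (ch_subadd _ _ _).trans (add_le_add a1.le ((ch_subadd _ _ _).trans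
    (add_le_add a2.le ((ch_subadd _ _ _).trans (add_le_add a3 ((ch_subadd _ _ _).trans
      (add_le_add a4 ((ch_subadd _ _ _).trans (add_le_add a5 a6)))))))))
  linarith

theorem Kn.ch (h : Kn P x G p K) : ch P (x.Bx p) G ≤ 8 * K + 8 := by
  simpa using h.ch' (u := 0) (q := p) rfl rfl le_rfl le_rfl le_rfl le_rfl

/-- One box read off another one. -/
theorem ch_bx (h : Fn P (x.Bx p) G) (hz : Fn P (x.zg q.i q.f) G) (e : q.Rd p) :
    ch P (x.Bx q) G ≤ 40 := by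
  have := ((Kn.of_fn h).move hz e).ch
  linarith

/-- Entropy on an event of large probability. -/
theorem ch_ev {F : Ω → α} {E : Ω → Prop} {A B ε : ℝ} (hA : 0 ≤ A) (hB : 0 ≤ B)
    (hE : pb P (fun ω => ¬E ω) ≤ ε) (h1 : (∃ ω ∈ P.S, E ω) → ch (cE P E) F G ≤ A)
    (h2 : ch (cE P fun ω => ¬E ω) F G ≤ B) : ch P F G ≤ lg + A + ε * B := by
  have a := rowKE.le P E F G
  have b0 := pb_nonneg P E
  have b1 := pb_le_one P E
  rw [pb_not] at hE
  have c : pb P E * ch (cE P E) F G ≤ A := by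
    rcases b0.eq_or_lt with e | e
    · rw [← e, zero_mul]; exact hA
    · have := h1 (ex_of_pb e)
      nlinarith [ch_nonneg (P := cE P E) F G]
  have d : (1 - pb P E) * ch (cE P fun ω => ¬E ω) F G ≤ ε * B :=
    mul_le_mul hE h2 (ch_nonneg _ _) (by linarith)
  linarith

end Pool.Agent.MP_5168f5_an.MX
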