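import Pool.Agent.MP_5168f5_an.MX.TL
import Pool.Agent.MP_5168f5_an.MX.PDefs
import Pool.Agent.MP_5168f5_an.H17F.KS

/-! Almost determined variables, and lines in the plane seen from two heights. -/

namespace Pool.Agent.MP_5168f5_an.MX

open H19 H17S H17F Filter R4.K31

theorem ts : KS := rowKS rowKE

/-- `F` has entropy `o(M)` given `G`. -/
def Nd {Ω α β : ℕ → Type} (P : ∀ n, FP (Ω n)) (M : ℕ → ℕ) (F : ∀ n, Ω n → α n)
    (G : ∀ n, Ω n → β n) : Prop := Sm M fun n => ch (P n) (F n) (G n)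

section Nd

variable {Ω α α' β β' γ : ℕ → Type} {P : ∀ n, FP (Ω n)} {M : ℕ → ℕ} {F : ∀ n, Ω n → α n}
  {F' : ∀ n, Ω n → α' n} {G : ∀ n, Ω n → β n} {G' : ∀ n, Ω n → β' n} {K : ∀ n, Ω n → γ n}
  {x : ∀ n, Ω n → ℝ} {j w : ℕ → ℕ} {L : ℕ → ℝ} {E : ∀ n, Ω n → Prop}

theorem Nd.of_fn (h : ∀ᶠ n in UF, Fn (P n) (F n) (G n)) : Nd P M F G := sm_fn h

theorem Nd.fn (h : ∀ n, Fn (P n) (F n) (G n)) : Nd P M F G := sm_fn (.of_forall h)

theorem Nd.trans (h : Nd P M F G) (h' : Nd P M G K) : Nd P M F K :=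
  Sm.mono (Sm.add h h') (.of_forall fun _ => ch_tri' _ _ _)

theorem Nd.pair (h : Nd P M F G) (h' : Nd P M F' G) : Nd P M (fun n ω => (F n ω, F' n ω)) G :=
  Sm.mono (Sm.add h h') (.of_forall fun _ => ch_subadd _ _ _)

theorem Nd.anti (h : Nd P M F G) (e : ∀ n, Fn (P n) (G n) (G' n)) : Nd P M F G' :=
  h.trans (Nd.fn e)

theorem Nd.mono (h : Nd P M F G) (e : ∀ n, Fn (P n) (F' n) (F n)) : Nd P M F' G :=
  (Nd.fn e).trans h

theorem Nd.cut (h : Nd P M F' G) (h' : Nd P M F fun n ω => (F' n ω, G n ω)) : Nd P M F G :=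
  h'.trans (h.pair (Nd.fn fun _ => Fn.rfl _))

theorem Nd.le (h : Nd P M F fun n ω => (F' n ω, G n ω)) (h' : Nd P M G' G) :
    Le M (fun n => ch (P n) (F n) (G n)) fun n => ch (P n) (F' n) (G' n) :=
  (Le.add h h').of_sub (.of_forall fun n => by
    linarith [ch_tri (P := P n) (F n) (F' n) (G n), ch_tri' (P := P n) (F' n) (G n) (G' n)])

theorem Nd.dn {W : ℕ → Type} {Q : ∀ n, FP (W n)} {ρ : ∀ n, W n → Ω n} (h : Nd P M F G)
    (e : DnS Q ρ P) : Nd Q M (fun n v => F n (ρ n v)) fun n v => G n (ρ n v) := e.sm_ch h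

theorem Nd.bd {C : ℝ} (hM : Big M) (h : ∀ᶠ n in UF, ch (P n) (F n) (G n) ≤ C) : Nd P M F G :=
  (hM.sm C).mono h

theorem Nd.cls (hM : Big M) (hL : Sub M L) (h : ∀ᶠ n in UF, Cls (P n) (G n) (x n) (j n) (L n)) :
    Nd P M (fun n ω => fl1 (j n) (x n ω)) G := Sm.near1 hM hL h

/-- A bounded variable that is known on an event of probability near one. -/
theorem Nd.whp {C : ℝ} (hM : Big M) (hL : Sub M L) (hE : Whp P E)
    (h : ∀ᶠ n in UF, (j n : ℝ) ≤ C * M n ∧ (∀ a ∈ (P n).S, |x n a| ≤ L n) ∧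
      Cls (cE (P n) (E n)) (G n) (x n) (j n) (L n)) : Nd P M (fun n ω => fl1 (j n) (x n ω)) G := by
  refine sm_whp1 (C := C + 2) hM hL hE ?_
  filter_upwards [h, hL.2 1 one_pos, hM.ev 1] with n ⟨a1, a2, a3⟩ u v a ha b hb e
  refine ⟨?_, fun p q => a3 a ((mem_cE ⟨a, ha, p⟩ a).2 ⟨ha, p⟩) b
    ((mem_cE ⟨a, ha, p⟩ b).2 ⟨hb, q⟩) e⟩
  have b1 := (two_pow_le_exp (j n)).trans (Real.exp_le_exp.2 a1)
  have b2 := Real.add_one_le_exp (M n : ℝ)
  have b3 : |x n a - x n b| ≤ Real.exp (M n) * Real.exp (M n) := by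
    rw [one_mul] at u
    nlinarith [abs_sub (x n a) (x n b), a2 a ha, a2 b hb, hL.pos n]
  rw [le_div_iff₀ (by positivity), show (C + 2) * M n = M n + M n + C * M n by ring, Real.exp_add,
    Real.exp_add]
  exact mul_le_mul b3 b1 (by positivity) (by positivity)

theorem sub_le_pow (h : Sub M L) (e : Frac w M) : ∀ᶠ n in UF, L n ≤ 2 ^ w n := by
  obtain ⟨-, c, hc, e⟩ := e
  filter_upwards [h.2 _ (half_pos hc), e] with n a b
  exact a.trans ((Real.exp_le_exp.2 (by linarith)).trans (exp_le_two_pow _))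

/-- A separation that holds at every rate. -/
theorem sep_sub {y : ∀ n, Ω n → ℝ} (h : ∀ c : ℝ, 0 < c → c ≤ 1 →
    Whp P fun n ω => Real.exp (-(c * M n)) ≤ |y n ω|) :
    ∃ L, Sub M L ∧ Whp P fun n ω => 1 / L n ≤ |y n ω| :=
  ts.wsub P (fun n ω l => 1 / l ≤ |y n ω|) M fun c a b => by
    simpa only [Real.exp_neg, one_div] using h c a b

/-- Side information with a bounded number of values. -/
theorem NA.det {r : ℕ → ℝ} {B : ℝ} (h : NA P x r G) (d : ∀ᶠ n in UF, Det (P n) (F n) (G n) B) :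
    NA P x r fun n ω => (F n ω, G n ω) := by
  classical
  intro m
  have : ∀ n s, ∃ T : Finset (α n), Det (P n) (F n) (G n) B → (T.card : ℝ) ≤ B ∧
      ∀ b ∈ (P n).S, G n b = s → F n b ∈ T := fun n s => by
    by_cases e : Det (P n) (F n) (G n) B ∧ ∃ a ∈ (P n).S, G n a = s
    · obtain ⟨e, a, ha, rfl⟩ := e
      exact (e a ha).imp fun _ u _ => u
    · refine ⟨∅, fun u => ⟨?_, fun b hb q => absurd ⟨u, b, hb, q⟩ e⟩⟩
      obtain ⟨a, ha⟩ : (P n).S.Nonempty :=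
        Finset.nonempty_of_sum_ne_zero (by rw [(P n).sum_one]; norm_num)
      exact (u a ha).elim fun T v => le_trans (by simp) v.1
  choose T hT using this
  refine (Whp.all fun i : Fin ⌈B⌉₊ => h fun n s =>
    ((T n s).toList[i.1]?).elim 0 fun y => m n (y, s)).mono (d.mono fun n u ω hω a => ?_)
  obtain ⟨i, hi, e⟩ := List.getElem_of_mem
    (Finset.mem_toList.2 ((hT n _ u).2 ω hω rfl))
  have b : i < ⌈B⌉₊ := by
    rw [Finset.length_toList] at hi
    exact hi.trans_le (by exact_mod_cast (hT n _ u).1.trans (Nat.le_ceil B))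
  simpa only [List.getElem?_eq_getElem hi, e, Option.elim_some] using a ⟨i, b⟩

end Nd

section Cl

variable {Ω β : Type} {P : FP Ω} {G : Ω → β} {X r : Ω → ℝ} {j k : ℕ} {K L : ℝ}

theorem Cls.fn (h : Fn P X G) (j : ℕ) : Cls P G X j 0 := fun a ha b hb e => by
  simp [h a ha b hb e]

/-- A known factor of size at most `L 2^{-k}`. -/
theorem Cls.mulL (h : Cls P G X j K) (hr : Fn P r G) (hk : ∀ ω ∈ P.S, |r ω| ≤ L / 2 ^ k) :
    Cls P G (fun ω => r ω * X ω) (k + j) (L * K) := fun a ha b hb q => by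
  have a1 := h a ha b hb q
  simp only
  rw [← hr a ha b hb q, ← mul_sub, abs_mul, pow_add, ← div_mul_div_comm]
  exact mul_le_mul (hk a ha) a1 (abs_nonneg _) ((abs_nonneg _).trans (hk a ha))

/-- Division by a known factor of size at least `1 / L`. -/
theorem Cls.divL (h : Cls P G (fun ω => r ω * X ω) j K) (hr : Fn P r G) (hL : 0 < L)
    (hk : ∀ ω ∈ P.S, 1 / L ≤ |r ω|) : Cls P G X j (L * K) := fun a ha b hb q => by
  have a1 := h a ha b hb q
  simp only [← hr a ha b hb q] at a1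
  rw [← mul_sub, abs_mul] at a1
  have a2 := mul_le_mul_of_nonneg_left
    ((mul_le_mul_of_nonneg_right (hk a ha) (abs_nonneg _)).trans a1) hL.le
  rwa [← mul_assoc, mul_one_div_cancel hL.ne', one_mul, ← mul_div_assoc] at a2

theorem near_rn (j : ℕ) (x : ℝ) : |x - rn j x| ≤ 1 / 2 ^ j := by
  rw [abs_le]; constructor <;> linarith [rn_le j x, lt_rn j x, show (0 : ℝ) < 1 / 2 ^ j by positivity]

theorem rn_mem (j : ℕ) {x : ℝ} (h : 0 ≤ x ∧ x < 1) : 0 ≤ rn j x ∧ rn j x < 1 :=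
  ⟨div_nonneg (by exact_mod_cast Int.floor_nonneg.2 (mul_nonneg (by positivity) h.1))
    (by positivity), (rn_le j x).trans_lt h.2⟩

theorem det_pair {α α' : Type} {F : Ω → α} {F' : Ω → α'} (h : Det P F G K) (h' : Det P F' G L) :
    Det P (fun ω => (F ω, F' ω)) G (K * L) := fun a ha => by
  obtain ⟨T, a1, a2⟩ := h a ha
  obtain ⟨T', b1, b2⟩ := h' a ha
  refine ⟨T ×ˢ T', ?_, fun b hb e => Finset.mem_product.2 ⟨a2 b hb e, b2 b hb e⟩⟩
  rw [Finset.card_product, Nat.cast_mul]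
  exact mul_le_mul a1 b1 (Nat.cast_nonneg _) ((Nat.cast_nonneg _).trans a1)

theorem det_fn {α : Type} {F : Ω → α} (h : Fn P F G) : Det P F G 1 := fun a ha =>
  ⟨{F a}, by simp, fun b hb e => Finset.mem_singleton.2 (h b hb a ha e)⟩

theorem Kn.det {T : Type} {x : Pl Ω T} {p : Pm} (h : Kn P x G p K) :
    Det P (x.Bx p) G (1 * (1 * ((2 * K + 3) * ((2 * K + 3) * ((2 * K + 3) * (2 * K + 3)))))) :=
  have h0 : 0 ≤ K := zero_le_one.trans h.one
  det_pair (det_fn h.θ) (det_pair (det_fn h.zg) (det_pair (det_near1 h0 h.t)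
    (det_pair (det_near1 h0 h.E) (det_pair (det_near1 h0 h.D) (det_near1 h0 h.c)))))

end Cl

/-- The context of a line `a + κ s r` in the plane: height, slope and position. -/
noncomputable def pB {Ω X : Type} (Ξ : Ω → X) (a r κ t : Ω → ℝ) (x b q : ℕ) (ω : Ω) :
    X × ℤ × ℤ × ℤ :=
  (Ξ ω, fl1 x (t ω), fl1 b (r ω), fl1 q (a ω + κ ω * rn x (t ω) * r ω))

section Plane

variable {Ω Λ X : ℕ → Type} {P : ∀ n, FP (Ω n)} {l : ∀ n, Ω n → Λ n} {Ξ : ∀ n, Ω n → X n}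
  {a r κ t : ∀ n, Ω n → ℝ} {M w c : ℕ → ℕ} {L : ℕ → ℝ} {u ka : ℝ}

theorem pl_step (hM : Big M) (hL : Sub M L) (hw : Frac w M) (i : ℕ)
    (h : ∀ᶠ n in UF, w n ≤ c n ∧ Fn (P n) (fun ω => (Ξ n ω, a n ω, r n ω)) (l n) ∧
      Fn (P n) (κ n) (Ξ n) ∧ ∀ ω ∈ (P n).S, |r n ω| ≤ L n ∧ |κ n ω| ≤ L n ∧ 1 / L n ≤ |κ n ω| ∧
        0 ≤ t n ω ∧ t n ω < 1)
    (sp : Whp (fun n => glue (P n) (P n) (l n) (l n)) fun n v => 1 / L n ≤ |t n v.1 - t n v.2|)
    (lat : Le M (fun n => w n * lg) fun n => ch (P n) (fun ω => fl1 ((i + 1) * w n) (r n ω))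
      (pB (Ξ n) (a n) (r n) (κ n) (t n) (w n) (i * w n) ((i + 1) * w n)))
    (up : Le M (fun n => ch (P n)
      (fun ω => fl1 ((i + 1) * w n) (a n ω + κ n ω * rn (c n) (t n ω) * r n ω))
      (pB (Ξ n) (a n) (r n) (κ n) (t n) (c n) (i * w n) (i * w n))) fun n => u * w n * lg) :
    Le M (fun n => (1 - u) * w n * lg + ch (glue (P n) (P n) (l n) (l n))
      (fun v => fl1 (c n) (t n v.1)) fun v =>
        pB (Ξ n) (a n) (r n) (κ n) (t n) (w n) ((i + 1) * w n) ((i + 1 + 1) * w n) v.2) fun n =>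
      ch (glue (P n) (P n) (l n) (l n)) (fun v => fl1 (c n) (t n v.1)) fun v =>
        pB (Ξ n) (a n) (r n) (κ n) (t n) (w n) (i * w n) ((i + 1) * w n) v.2 := by
  have m : ∀ᶠ n in UF, ∀ v ∈ (glue (P n) (P n) (l n) (l n)).S, v.1 ∈ (P n).S ∧ v.2 ∈ (P n).S ∧
      Ξ n v.1 = Ξ n v.2 ∧ a n v.1 = a n v.2 ∧ r n v.1 = r n v.2 ∧ κ n v.1 = κ n v.2 :=
    h.mono fun n k v hv => by
      obtain ⟨m1, m2, m3⟩ := (mem_cp _ _ v).1 hv
      have := k.2.1 _ m1 _ m2 m3.symm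
      simp only [Prod.mk.injEq] at this
      exact ⟨m1, m2, this.1, this.2.1, this.2.2, k.2.2.1 _ m1 _ m2 this.1⟩
  have fc : ∀ᶠ n in UF, ∀ {Y : Type} (y : Ω n × Ω n → Y) (Q : FP (Ω n × Ω n)),
      (∀ v ∈ Q.S, v ∈ (glue (P n) (P n) (l n) (l n)).S) →
      Fn Q (fun v => (fl1 (c n) (t n v.1), Ξ n v.2, fl1 (w n) (t n v.2))) y →
      Fn Q (fun v => κ n v.2 * (rn (c n) (t n v.1) - rn (w n) (t n v.2))) y :=
    (h.and m).mono fun n ⟨k, k'⟩ Y y Q s f p hp q hq e => by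
      have := f p hp q hq e
      simp only [Prod.mk.injEq] at this
      simp only [rn, this.1, this.2.2,
        k.2.2.1 _ (k' p (s p hp)).2.1 _ (k' q (s q hq)).2.1 this.2.1]
  have hL2 := (hL.mul hL).const_mul hM (by norm_num : (1 : ℝ) ≤ 4)
  have a1 : Nd (fun n => glue (P n) (P n) (l n) (l n)) M
      (fun n v => pB (Ξ n) (a n) (r n) (κ n) (t n) (c n) (i * w n) (i * w n) v.1) fun n v =>
        (fl1 (c n) (t n v.1),
          pB (Ξ n) (a n) (r n) (κ n) (t n) (w n) (i * w n) ((i + 1) * w n) v.2) := by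
    refine (Nd.of_fn (m.mono fun n k p hp q hq e => ?_)).pair ((Nd.fn fun n => Fn.fst _ _).pair
      ((Nd.of_fn (m.mono fun n k p hp q hq e => ?_)).pair (Nd.cls hM hL2 ?_)))
    · rw [(k p hp).2.2.1, (k q hq).2.2.1]; exact congrArg (·.2.1) e
    · rw [(k p hp).2.2.2.2.1, (k q hq).2.2.2.2.1]; exact congrArg (·.2.2.2.1) e
    filter_upwards [h, m, fc] with n k k' f
    have l1 := hL.1 n
    refine ((((Cls.of_fn (j := (i + 1) * w n) (X := fun v : Ω n × Ω n =>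
      a n v.2 + κ n v.2 * rn (w n) (t n v.2) * r n v.2) fun _ _ _ _ e =>
        congrArg (·.2.2.2.2) e).mono (Nat.mul_le_mul_right _ i.le_succ) zero_le_one le_rfl).add
      (((Cls.of_fn (j := i * w n) (X := fun v : Ω n × Ω n => r n v.2) fun _ _ _ _ e =>
        congrArg (·.2.2.2.1) e).mulL (k := 0) (L := L n) (f _ _ (fun _ s => s) fun _ _ _ _ e =>
          congrArg (fun v => (v.1, v.2.1, v.2.2.1)) e) fun v hv => ?_).mono (by omega)
            (by positivity) le_rfl)).congr fun v hv => ?_).mono le_rfl (by positivity)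
              (by nlinarith)
    · have b1 := rn_mem (c n) (k.2.2.2 _ (k' v hv).1).2.2.2
      have b2 := rn_mem (w n) (k.2.2.2 _ (k' v hv).2.1).2.2.2
      rw [abs_mul, pow_zero, div_one]
      exact (mul_le_mul (k.2.2.2 _ (k' v hv).2.1).2.1 (abs_le.2 ⟨by linarith, by linarith⟩)
        (abs_nonneg _) (by positivity)).trans (mul_one _).le
    · obtain ⟨-, -, -, b1, b2, b3⟩ := k' v hv
      simp only [b1, b2, b3]; ring
  have a2 : Nd (fun n => glue (P n) (P n) (l n) (l n)) M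
      (fun n v => fl1 ((i + 1) * w n) (r n v.2)) fun n v =>
        (fl1 ((i + 1) * w n) (a n v.1 + κ n v.1 * rn (c n) (t n v.1) * r n v.1),
          fl1 (c n) (t n v.1),
          pB (Ξ n) (a n) (r n) (κ n) (t n) (w n) (i * w n) ((i + 1) * w n) v.2) := by
    refine Nd.whp (C := i + 1) hM hL2 sp ?_
    filter_upwards [h, m, fc, sp.pos.sure,
      sub_le_pow (hL.const_mul hM (by norm_num : (1 : ℝ) ≤ 4)) hw] with n k k' f s b
    have l1 := hL.1 n
    refine ⟨by exact_mod_cast Nat.mul_le_mul_left _ (hw.1 n), fun v hv =>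
      (k.2.2.2 _ (k' v hv).2.1).1.trans (by nlinarith), (Cls.divL (L := 2 * (L n * L n))
        ((((Cls.of_fn (X := fun v : Ω n × Ω n =>
          a n v.1 + κ n v.1 * rn (c n) (t n v.1) * r n v.1) (Fn.fst _ _))).sub
          (Cls.of_fn (X := fun v : Ω n × Ω n => a n v.2 + κ n v.2 * rn (w n) (t n v.2) * r n v.2)
            fun _ _ _ _ e => congrArg (·.2.2.2.2.2) e)).congr fun v hv => ?_)
        (f _ _ (fun _ => cE_sub) fun _ _ _ _ e =>
          congrArg (fun v => (v.2.1, v.2.2.1, v.2.2.2.1)) e) (by positivity) fun v hv => ?_).mono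
            le_rfl (by positivity) (by linarith)⟩
    · obtain ⟨-, -, -, b1, b2, b3⟩ := k' v (cE_sub hv)
      simp only [b1, b2, b3]; ring
    · have b1 := (near_rn (c n) (t n v.1)).trans (dv_anti zero_le_one le_rfl k.1)
      have b2 := near_rn (w n) (t n v.2)
      have b3 : (1 : ℝ) / 2 ^ w n ≤ 1 / (4 * L n) := one_div_le_one_div_of_le (by positivity) b
      have b4 := (s v hv).2
      have b5 : 1 / (2 * L n) ≤ |rn (c n) (t n v.1) - rn (w n) (t n v.2)| := by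
        have e1 := abs_sub_le (t n v.1) (rn (c n) (t n v.1)) (t n v.2)
        have e2 := abs_sub_le (rn (c n) (t n v.1)) (rn (w n) (t n v.2)) (t n v.2)
        rw [abs_sub_comm] at b2
        have e3 : 1 / L n = 1 / (2 * L n) + 1 / (4 * L n) + 1 / (4 * L n) := by field_simp; ring
        linarith
      rw [abs_mul, show 1 / (2 * (L n * L n)) = 1 / L n * (1 / (2 * L n)) by field_simp]
      exact mul_le_mul (k.2.2.2 _ (k' v (cE_sub hv)).2.1).2.2.1 b5 (by positivity) (abs_nonneg _)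
  refine lat.of3 up (a2.le a1) (.of_forall fun n => ?_)
  have e1 := (tg.snd _ _ _ _ (Law.rfl (P := P n) (l n))).ch_id
    (fun ω => fl1 ((i + 1) * w n) (r n ω))
    (pB (Ξ n) (a n) (r n) (κ n) (t n) (w n) (i * w n) ((i + 1) * w n))
  have e2 := (tg.fst (P n) (P n) (l n) (l n)).ch_id
    (fun ω => fl1 ((i + 1) * w n) (a n ω + κ n ω * rn (c n) (t n ω) * r n ω))
    (pB (Ξ n) (a n) (r n) (κ n) (t n) (c n) (i * w n) (i * w n))
  have e3 := mi_symm (P := glue (P n) (P n) (l n) (l n)) (fun v => fl1 ((i + 1) * w n) (r n v.2))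
    (fun v => fl1 (c n) (t n v.1)) fun v =>
      pB (Ξ n) (a n) (r n) (κ n) (t n) (w n) (i * w n) ((i + 1) * w n) v.2
  have e4 : ch (glue (P n) (P n) (l n) (l n)) (fun v => fl1 (c n) (t n v.1)) (fun v =>
      pB (Ξ n) (a n) (r n) (κ n) (t n) (w n) ((i + 1) * w n) ((i + 1 + 1) * w n) v.2) ≤
      ch (glue (P n) (P n) (l n) (l n)) (fun v => fl1 (c n) (t n v.1)) fun v =>
        (fl1 ((i + 1) * w n) (r n v.2),
          pB (Ξ n) (a n) (r n) (κ n) (t n) (w n) (i * w n) ((i + 1) * w n) v.2) :=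
    ch_anti fun _ _ _ _ e => by
      simp only [pB, Prod.mk.injEq] at e ⊢
      exact ⟨e.2.2.1, e.1, e.2.1, fl1_eq_of_le (Nat.mul_le_mul_right _ i.le_succ) e.2.2.1,
        fl1_eq_of_le (Nat.mul_le_mul_right _ (i + 1).le_succ) e.2.2.2⟩
  unfold mi at e3
  linarith

/-- Lines with full slopes: the position at a second height has at least the rate of the height. -/
theorem pl_fin (hM : Big M) (hL : Sub M L) (hw : Frac w M) (N : ℕ)
    (h : ∀ᶠ n in UF, w n ≤ c n ∧ Fn (P n) (fun ω => (Ξ n ω, a n ω, r n ω)) (l n) ∧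
      Fn (P n) (κ n) (Ξ n) ∧ ∀ ω ∈ (P n).S, |r n ω| ≤ L n ∧ |κ n ω| ≤ L n ∧ 1 / L n ≤ |κ n ω| ∧
        0 ≤ t n ω ∧ t n ω < 1)
    (sp : Whp (fun n => glue (P n) (P n) (l n) (l n)) fun n v => 1 / L n ≤ |t n v.1 - t n v.2|)
    (lat : ∀ i, 1 ≤ i → i ≤ N → Le M (fun n => w n * lg) fun n =>
      ch (P n) (fun ω => fl1 ((i + 1) * w n) (r n ω))
        (pB (Ξ n) (a n) (r n) (κ n) (t n) (w n) (i * w n) ((i + 1) * w n)))
    (up : ∀ i, 1 ≤ i → i ≤ N → Le M (fun n => ch (P n)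
      (fun ω => fl1 ((i + 1) * w n) (a n ω + κ n ω * rn (c n) (t n ω) * r n ω))
      (pB (Ξ n) (a n) (r n) (κ n) (t n) (c n) (i * w n) (i * w n))) fun n => u * w n * lg)
    (hg : Le M (fun n => ka * c n * lg) fun n => ch (P n) (fun ω => fl1 (c n) (t n ω)) (l n)) :
    Le M (fun n => N * (1 - u) * w n * lg) fun n => (1 - ka) * c n * lg := by
  have k : ∀ i ≤ N, Le M (fun n => i * (1 - u) * w n * lg + ch (glue (P n) (P n) (l n) (l n))
      (fun v => fl1 (c n) (t n v.1)) fun v =>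
        pB (Ξ n) (a n) (r n) (κ n) (t n) (w n) ((i + 1) * w n) ((i + 1 + 1) * w n) v.2) fun n =>
      (c n - (0 : ℕ) : ℝ) * lg := by
    intro i hi
    induction i with
    | zero =>
      simp only [Nat.cast_zero (R := ℝ), zero_mul, zero_add (M := ℝ)]
      refine (le_fl1 (j := fun _ => 0) hM (hM.sub le_rfl) (fun _ => Nat.zero_le _)
        (h.mono fun n k p hp q hq _ => ?_)).trans (Le.of_le fun n => by simp)
      have b1 := (k.2.2.2 _ ((mem_cp _ _ p).1 hp).1).2.2.2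
      have b2 := (k.2.2.2 _ ((mem_cp _ _ q).1 hq).1).2.2.2
      rw [pow_zero, div_one, abs_le]; constructor <;> linarith
    | succ i ih =>
      exact (ih (by omega)).of2 (pl_step hM hL hw (i + 1) h sp (lat _ (by omega) hi)
        (up _ (by omega) hi)) (.of_forall fun n => by push_cast; linarith)
  refine (k N le_rfl).of2 hg (.of_forall fun n => ?_)
  have e1 := tg.mkv' (P n) (P n) (l n) (l n) (fun ω => fl1 (c n) (t n ω)) (fun _ => ()) id
    (Law.rfl _) (Fn.comp (l n) id)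
  have e2 : ch (P n) (fun ω => fl1 (c n) (t n ω)) (l n) ≤
      ch (P n) (fun ω => fl1 (c n) (t n ω)) fun ω => (l n ω, ()) :=
    ch_anti fun _ _ _ _ e => Prod.ext e rfl
  have e3 : ch (glue (P n) (P n) (l n) (l n)) (fun v => fl1 (c n) (t n v.1))
      (fun v => (id v.2, ())) ≤ ch (glue (P n) (P n) (l n) (l n)) (fun v => fl1 (c n) (t n v.1))
        fun v => pB (Ξ n) (a n) (r n) (κ n) (t n) (w n) ((N + 1) * w n) ((N + 1 + 1) * w n) v.2 :=
    ch_anti fun _ _ _ _ e => congrArg _ (congrArg Prod.fst e)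
  push_cast
  linarith

end Plane

end Pool.Agent.MP_5168f5_an.MX
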