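import Pool.Agent.MP_5168f5_an.H17F.Sq2
import Pool.Agent.MP_5168f5_an.H17F.KG
import Pool.Agent.MP_5168f5_an.R4.K31Dn

/-! Tools: information through copies, spread variables, variables that are not approximable. -/

namespace Pool.Agent.MP_5168f5_an.MX

open H19 H17S H17F Filter R4.K31

section Fin

variable {Ω Ω' α β γ δ ε : Type}

theorem tg : KG := rowKG rowKE

theorem mem_cp (P : FP Ω) (X : Ω → β) (v : Ω × Ω) :
    v ∈ (glue P P X X).S ↔ v.1 ∈ P.S ∧ v.2 ∈ P.S ∧ X v.2 = X v.1 := tg.mem _ _ _ _ v (Law.rfl _)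

/-- All that the first point knows about the second passes through the shared variable. -/
theorem mi_glue (P : FP Ω') (Q : FP Ω) (φ : Ω' → β) (X : Ω → β) (h : Law P φ Q X) (F : Ω' → α)
    (l : Ω → γ) (K : Ω → δ) :
    mi (glue P Q φ X) (fun v => F v.1) (fun v => l v.2) (fun v => K v.2) ≤ mi Q l X K := by
  have e1 := tg.mkv P Q φ X l K id h (Fn.comp φ id)
  have e2 := (tg.snd P Q φ X h).ch_id l K
  have e3 := mi_mono' (P := glue P Q φ X) (F := fun v => F v.1) (F' := Prod.fst)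
    (G := fun v => l v.2) (K := fun v => K v.2) (Fn.left (Fn.comp F Prod.fst) _)
  rw [mi_symm Prod.fst] at e3
  unfold mi at e3 ⊢
  simp only [id] at e1
  linarith

/-- COR, CORc and COUNT: `l'` is a copy of `l` given `X`. -/
theorem cor (P : FP Ω) (l : Ω → α) {X : Ω → β} {K : Ω → γ} (ζ : Ω → δ) (k : Fn P K X) :
    ch P ζ (fun ω => (l ω, K ω)) ≤ mi P l X K +
      ch (glue P P X X) (fun v => ζ v.1) fun v => (l v.1, l v.2, K v.1) := by
  have e1 := mi_glue P P X X (Law.rfl _) (fun ω => (l ω, ζ ω)) l K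
  have e2 := (tg.fst P P X X).ch_id ζ fun ω => (l ω, K ω)
  have f : ∀ v ∈ (glue P P X X).S, K v.2 = K v.1 := fun v hv => by
    obtain ⟨a, b, c⟩ := (mem_cp P X v).1 hv
    exact k _ b _ a c
  have e3 : mi (glue P P X X) (fun v => ζ v.1) (fun v => l v.2) (fun v => (l v.1, K v.1)) ≤
      mi (glue P P X X) (fun v => (l v.1, ζ v.1)) (fun v => l v.2) fun v => K v.2 :=
    mi_left (fun a ha b hb e => by rw [f a ha, f b hb]; exact congrArg Prod.snd e)
      (fun a ha b hb e => Prod.ext (congrArg (·.1.1) e)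
        (by simpa only [← f a ha, ← f b hb] using congrArg Prod.snd e))
      fun _ _ _ _ e => congrArg (·.1.2) e
  have e4 : ch (glue P P X X) (fun v => ζ v.1) (fun v => (l v.2, l v.1, K v.1)) ≤
      ch (glue P P X X) (fun v => ζ v.1) fun v => (l v.1, l v.2, K v.1) :=
    ch_anti fun _ _ _ _ e => by simp only [Prod.mk.injEq] at e ⊢; tauto
  unfold mi at e3 e1 ⊢
  linarith

/-- COUNT. -/
theorem count (P : FP Ω) (S : Ω → α) {Y : Ω → β} {T : Ω → γ} (k : Fn P T Y) :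
    ch P Y (fun ω => (S ω, T ω)) ≤ mi P Y S T +
      ch (glue P P Y Y) (fun v => Y v.1) fun v => (S v.1, S v.2, T v.1) := by
  rw [mi_symm]; exact cor P S Y k

/-- MJ. -/
theorem mj (P : FP Ω) (l : Ω → α) (A : Ω → β) (B : Ω → γ) (J : Ω → δ) :
    mi P l A B ≤ mi P l A J + mi P A B (fun ω => (l ω, J ω)) + ch P J B := by
  rw [mi_symm l, mi_symm l]
  have e1 := ch_drop (P := P) A J B
  have e2 : ch P A (fun ω => (J ω, B ω)) ≤ ch P A J := ch_anti (Fn.fst _ _)
  have e3 : ch P A (fun ω => (B ω, l ω, J ω)) ≤ ch P A fun ω => (l ω, B ω) :=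
    ch_anti fun _ _ _ _ e => by simp only [Prod.mk.injEq] at e ⊢; tauto
  unfold mi
  linarith

/-- Copies given `φ` are independent given anything between `φ` and the first point. -/
theorem mi_cp (P : FP Ω') (Q : FP Ω) (φ : Ω' → β) (X : Ω → β) (h : Law P φ Q X) (A : Ω → α)
    (B : Ω' → γ) {G : Ω' → δ} (k : Fn P φ G) :
    mi (glue P Q φ X) (fun v => A v.2) (fun v => B v.1) (fun v => G v.1) = 0 := by
  unfold mi
  rw [tg.mk1 P Q φ X A G h k, tg.mk1 P Q φ X A (fun ω => (B ω, G ω)) h (k.right B), sub_self]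

/-- The same with an additional label `f` of the pair. -/
theorem mi_cp_lab (P : FP Ω') (Q : FP Ω) (φ : Ω' → β) (X : Ω → β) (h : Law P φ Q X) (A : Ω → α)
    (B : Ω' → γ) {G : Ω' → δ} (k : Fn P φ G) (f : Ω' × Ω → ε) :
    mi (glue P Q φ X) (fun v => A v.2) (fun v => B v.1) (fun v => (f v, G v.1)) ≤
      ch (glue P Q φ X) f fun v => G v.1 := by
  have e0 := mi_cp P Q φ X h A B k
  have e1 : ch (glue P Q φ X) (fun v => A v.2) (fun v => (f v, G v.1)) ≤ _ := ch_anti (Fn.snd _ _)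
  have e2 := ch_drop (P := glue P Q φ X) (fun v => A v.2) f fun v => (B v.1, G v.1)
  have e3 : ch (glue P Q φ X) f (fun v => (B v.1, G v.1)) ≤ _ := ch_anti (Fn.snd _ _)
  have e4 : ch (glue P Q φ X) (fun v => A v.2) (fun v => (f v, B v.1, G v.1)) ≤
      ch (glue P Q φ X) (fun v => A v.2) fun v => (B v.1, f v, G v.1) :=
    ch_anti fun _ _ _ _ e => by simp only [Prod.mk.injEq] at e ⊢; tauto
  unfold mi at e0 ⊢
  linarith

/-- A function of `X` on the support is a composition with `X`. -/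
theorem fn_ex {P : FP Ω} {F : Ω → α} {X : Ω → β} [Nonempty α] (h : Fn P F X) :
    ∃ m : β → α, ∀ ω ∈ P.S, F ω = m (X ω) := by
  classical
  refine ⟨fun s => if k : ∃ ω ∈ P.S, X ω = s then F k.choose else Classical.arbitrary α,
    fun ω hω => ?_⟩
  have k : ∃ a ∈ P.S, X a = X ω := ⟨ω, hω, rfl⟩
  simp only [dif_pos k]
  exact h _ hω _ k.choose_spec.1 k.choose_spec.2.symm

/-- The worst centre for each value of the shared variable. -/
theorem pb_glue (P : FP Ω') (Q : FP Ω) (φ : Ω' → β) (X : Ω → β) (h : Law P φ Q X)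
    (E : Ω' → Ω → Prop) : ∃ m : β → Ω', pb (glue P Q φ X) (fun v => E v.1 v.2) ≤
      pb Q fun ω => E (m (X ω)) ω := by
  classical
  obtain ⟨a₀, h₀⟩ : P.S.Nonempty := Finset.nonempty_of_sum_ne_zero (by rw [P.sum_one]; norm_num)
  choose m hm using fun s => P.S.exists_max_image (fun a => pb (cv Q X s) (E a)) ⟨a₀, h₀⟩
  refine ⟨m, ?_⟩
  have e1 : pb (glue P Q φ X) (fun v => E v.1 v.2) = P.E fun a => pb (cv Q X (φ a)) (E a) :=
    E_bind _ _ _
  have e2 := rowKE.exp Q X fun s ω => if E (m s) ω then 1 else 0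
  have e3 := h fun s => pb (cv Q X s) (E (m s))
  rw [e1]
  exact (P.E_mono fun a ha => (hm (φ a)).2 a ha).trans (le_of_eq (e3.trans e2.symm))

end Fin

variable {Ω Ω' α α' β β' : ℕ → Type} {P : ∀ n, FP (Ω n)} {Q : ∀ n, FP (Ω' n)}
  {ρ : ∀ n, Ω' n → Ω n} {M : ℕ → ℕ} {L r r' : ℕ → ℝ} {x : ∀ n, Ω n → ℝ} {F : ∀ n, Ω n → α n}
  {F' : ∀ n, Ω n → α' n} {X : ∀ n, Ω n → β n} {X' : ∀ n, Ω n → β' n} {E : ∀ n, Ω n → Prop}

theorem dn_law (h : ∀ n, Law (Q n) (ρ n) (P n) id) : DnS Q ρ P :=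
  dnS_law (Eventually.of_forall h)

theorem dn_rfl (P : ∀ n, FP (Ω n)) : DnS P (fun _ => id) P := dn_law fun _ => Law.rfl _

theorem dn_ev (h : DnS Q ρ P) {E : ∀ n, Ω' n → Prop} (k : Pos Q E) :
    DnS (fun n => cE (Q n) (E n)) ρ P := (dnS_cE k).trans h

theorem dn_fst (P : ∀ n, FP (Ω n)) (Q : ∀ n, FP (Ω' n)) (φ : ∀ n, Ω n → β n)
    (ψ : ∀ n, Ω' n → β n) : DnS (fun n => glue (P n) (Q n) (φ n) (ψ n)) (fun _ => Prod.fst) P :=
  dn_law fun _ => tg.fst _ _ _ _

theorem dn_snd (P : ∀ n, FP (Ω n)) (φ : ∀ n, Ω n → β n) :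
    DnS (fun n => glue (P n) (P n) (φ n) (φ n)) (fun _ => Prod.snd) P :=
  dn_law fun _ => tg.snd _ _ _ _ (Law.rfl _)

theorem DnS_mem (h : DnS Q ρ P) : ∀ᶠ n in UF, ∀ v ∈ (Q n).S, ρ n v ∈ (P n).S :=
  h.elim fun _ k => k.2.mono fun _ u _ a => u.mem a

/-- A refinement is an event of positive probability of an extension. -/
theorem DnS_split (h : DnS Q ρ P) : ∃ T : ∀ n, FP (Ω n × Bool),
    (∀ n, Law (T n) Prod.fst (P n) id) ∧ Pos T (fun _ v => v.2 = true) ∧
      ∀ᶠ n in UF, Law (cE (T n) fun v => v.2 = true) Prod.fst (Q n) (ρ n) := by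
  classical
  obtain ⟨C, a, b⟩ := h
  have : ∀ n, ∃ T : FP (Ω n × Bool), Law T Prod.fst (P n) id ∧ (Dn C (Q n) (ρ n) (P n) →
      pb T (fun v => v.2 = true) = C⁻¹ ∧ Law (cE T fun v => v.2 = true) Prod.fst (Q n) (ρ n)) :=
    fun n => by
      by_cases k : Dn C (Q n) (ρ n) (P n)
      · exact k.split.imp fun T u => ⟨u.1, fun _ => u.2⟩
      · exact (R4.K31.dn_rfl (P n)).split.imp fun T u => ⟨u.1, fun e => absurd e k⟩
  choose T h1 h2 using this
  exact ⟨T, h1, ⟨C⁻¹, by positivity, b.mono fun n u => (h2 n u).1.ge⟩, b.mono fun n u => (h2 n u).2⟩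

/-- Values that are close on an event of probability near one. -/
theorem le_whp1 {j k : ℕ → ℕ} {C : ℝ} (hM : Big M) (hL : Sub M L) (hE : Whp P E)
    (hjk : ∀ n, j n ≤ k n) (h : ∀ᶠ n in UF, ∀ a ∈ (P n).S, ∀ b ∈ (P n).S, X n a = X n b →
      |x n a - x n b| ≤ Real.exp (C * M n) / 2 ^ k n ∧
        (E n a → E n b → |x n a - x n b| ≤ L n / 2 ^ j n)) :
    Le M (fun n => ch (P n) (fun ω => fl1 (k n) (x n ω)) (X n)) fun n => (k n - j n : ℝ) * lg := by
  refine (ch_le_whp (C := |C| + 5) hM hE ?_).trans (le_fl1 hM hL hjk ?_)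
  · filter_upwards [h, hM.ev 1] with n u w
    refine (ch_near1 (Real.exp_pos _).le fun a ha b hb e =>
      (u a (cE_sub ha) b (cE_sub hb) e).1).trans ((Real.log_le_iff_le_exp (by positivity)).2 ?_)
    have a1 : Real.exp (C * M n) ≤ Real.exp (|C| * M n) :=
      Real.exp_le_exp.2 (mul_le_mul_of_nonneg_right (le_abs_self C) (by positivity))
    have a2 : 1 ≤ Real.exp (|C| * M n) := Real.one_le_exp (by positivity)
    have a3 := Real.add_one_le_exp (5 * (M n : ℝ))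
    rw [add_mul, Real.exp_add]
    nlinarith
  · filter_upwards [h, hE.pos.sure] with n u w a ha b hb e
    exact (u a (w a ha).1 b (w b hb).1 e).2 (w a ha).2 (w b hb).2

theorem sm_whp1 {j : ℕ → ℕ} {C : ℝ} (hM : Big M) (hL : Sub M L) (hE : Whp P E)
    (h : ∀ᶠ n in UF, ∀ a ∈ (P n).S, ∀ b ∈ (P n).S, X n a = X n b →
      |x n a - x n b| ≤ Real.exp (C * M n) / 2 ^ j n ∧
        (E n a → E n b → |x n a - x n b| ≤ L n / 2 ^ j n)) :
    Sm M fun n => ch (P n) (fun ω => fl1 (j n) (x n ω)) (X n) :=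
  (le_whp1 hM hL hE (fun _ => le_rfl) h).trans (Le.of_le fun n => by simp)

/-- On no refinement is `F` determined by `X`. -/
def Spr (P : ∀ n, FP (Ω n)) (F : ∀ n, Ω n → α n) (X : ∀ n, Ω n → β n) (M : ℕ → ℕ) : Prop :=
  ∀ (W : ℕ → Type) (Q : ∀ n, FP (W n)) (ρ : ∀ n, W n → Ω n), DnS Q ρ P →
    ¬Sm M fun n => ch (Q n) (fun v => F n (ρ n v)) fun v => X n (ρ n v)

/-- No function of `X` approximates `x` within `r`. -/
def NA (P : ∀ n, FP (Ω n)) (x : ∀ n, Ω n → ℝ) (r : ℕ → ℝ) (X : ∀ n, Ω n → β n) : Prop :=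
  ∀ m : ∀ n, β n → ℝ, Whp P fun n ω => r n ≤ |x n ω - m n (X n ω)|

theorem Spr.dn (h : Spr P F X M) (k : DnS Q ρ P) :
    Spr Q (fun n v => F n (ρ n v)) (fun n v => X n (ρ n v)) M :=
  fun W Q' _ k' => h W Q' _ (k'.trans k)

theorem Spr.mono (h : Spr P F X M) (h1 : Sm M fun n => ch (P n) (F n) fun ω => (F' n ω, X n ω))
    (h2 : Sm M fun n => ch (P n) (X' n) (X n)) : Spr P F' X' M := fun W Q ρ k e =>
  h W Q ρ k (Le.of3 (k.sm_ch h1) (k.sm_ch h2) e (Eventually.of_forall fun n => by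
    linarith [ch_tri (P := Q n) (fun v => F n (ρ n v)) (fun v => F' n (ρ n v)) fun v => X n (ρ n v),
      ch_tri' (P := Q n) (fun v => F' n (ρ n v)) (fun v => X n (ρ n v)) fun v => X' n (ρ n v)]))

theorem sm_fn (h : ∀ᶠ n in UF, Fn (P n) (F n) (X n)) : Sm M fun n => ch (P n) (F n) (X n) :=
  Le.of_ev (h.mono fun _ u => (ch_zero u).le)

theorem Spr.ctx (h : Spr P F X M) (h2 : Sm M fun n => ch (P n) (X' n) (X n)) : Spr P F X' M :=
  h.mono (sm_fn (Eventually.of_forall fun _ => Fn.fst _ _)) h2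

theorem Spr.up {M' : ℕ → ℕ} (h : Spr P F X M) (e : ∀ n, M' n ≤ M n) : Spr P F X M' :=
  fun W Q ρ k u => h W Q ρ k (Le.up u e)

theorem Spr.frac {M' : ℕ → ℕ} (h : Spr P F X M') (e : Frac M' M) : Spr P F X M :=
  fun W Q ρ k u => h W Q ρ k (Le.frac u e)

theorem not_spr (h : ¬Spr P F X M) : ∃ (W : ℕ → Type) (Q : ∀ n, FP (W n)) (ρ : ∀ n, W n → Ω n),
    DnS Q ρ P ∧ Sm M fun n => ch (Q n) (fun v => F n (ρ n v)) fun v => X n (ρ n v) := by
  by_contra k
  exact h fun W Q ρ a b => k ⟨W, Q, ρ, a, b⟩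

/-- A linear lower bound on all refinements. -/
theorem spr_of_low (hM : Big M) {c : ℝ} (hc : 0 < c) (h : ∀ (W : ℕ → Type) (Q : ∀ n, FP (W n))
    (ρ : ∀ n, W n → Ω n), DnS Q ρ P → Le M (fun n => c * M n) fun n =>
      ch (Q n) (fun v => F n (ρ n v)) fun v => X n (ρ n v)) : Spr P F X M := fun W Q ρ k e =>
  ((h W Q ρ k).trans e).false hM hc (Eventually.of_forall fun n => by simp)

theorem NA.ev (h : NA P x r X) {m : ∀ n, Ω n → ℝ} (k : ∀ᶠ n in UF, Fn (P n) (m n) (X n)) :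
    Whp P fun n ω => r n ≤ |x n ω - m n ω| := by
  classical
  have : ∀ n, ∃ m' : β n → ℝ, Fn (P n) (m n) (X n) → ∀ ω ∈ (P n).S, m n ω = m' (X n ω) :=
    fun n => by
      by_cases e : Fn (P n) (m n) (X n)
      · exact (fn_ex e).imp fun _ u _ => u
      · exact ⟨0, fun u => absurd u e⟩
  choose m' hm using this
  exact (h m').mono (k.mono fun n u ω a b => by rwa [hm n u ω a])

theorem NA.mono (h : NA P x r X) (e : ∀ᶠ n in UF, r' n ≤ r n)
    (k : ∀ᶠ n in UF, Fn (P n) (X' n) (X n)) : NA P x r' X' := fun m =>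
  (h.ev (k.mono fun n u => (Fn.comp (m n) (X' n)).trans u)).mono
    (e.mono fun _ u _ _ b => u.trans b)

theorem NA.ctx (h : NA P x r X) (k : ∀ᶠ n in UF, Fn (P n) (X' n) (X n)) : NA P x r X' :=
  h.mono (Eventually.of_forall fun _ => le_rfl) k

theorem NA.dn (h : NA P x r X) (k : DnS Q ρ P) :
    NA Q (fun n v => x n (ρ n v)) r fun n v => X n (ρ n v) := fun m => k.whp (h m)

/-- Change `x` by a function of `X`, a factor and a small error. -/
theorem NA.shift (h : NA P x r X) {y u c : ∀ n, Ω n → ℝ} {s : ℕ → ℝ}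
    (k : ∀ᶠ n in UF, Fn (P n) (u n) (X n) ∧ Fn (P n) (c n) (X n))
    (e : Whp P fun n ω => |x n ω - (u n ω + c n ω * y n ω)| ≤ s n ∧ |c n ω| * r' n + s n < r n) :
    NA P y r' X := fun m =>
  ((h.ev (m := fun n ω => u n ω + c n ω * m n (X n ω)) (k.mono fun n a v hv w hw q => by
    simp only [a.1 v hv w hw q, a.2 v hv w hw q, q])).and e).mono (Eventually.of_forall fun n ω _ a => by
      by_contra q
      have a1 := mul_le_mul_of_nonneg_left (not_le.1 q).le (abs_nonneg (c n ω))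
      have a2 := abs_add_le (x n ω - (u n ω + c n ω * y n ω)) (c n ω * (y n ω - m n (X n ω)))
      rw [abs_mul, show x n ω - (u n ω + c n ω * y n ω) + c n ω * (y n ω - m n (X n ω)) =
        x n ω - (u n ω + c n ω * m n (X n ω)) by ring] at a2
      linarith [a.1, a.2.1, a.2.2])

/-- Side information with finitely many values. -/
theorem NA.side (h : NA P x r X) {J : Type} [Finite J] (ι : ∀ n, Ω n → J) :
    NA P x r fun n ω => (ι n ω, X n ω) := fun m =>
  (Whp.all fun j => h fun n s => m n (j, s)).mono (Eventually.of_forall fun n ω _ a => a (ι n ω))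

/-- Side information that is independent given `X`. -/
theorem NA.snd (h : NA P x r X) {ψ : ∀ n, Ω' n → β n}
    (k : ∀ᶠ n in UF, Law (Q n) (ψ n) (P n) (X n)) :
    NA (fun n => glue (Q n) (P n) (ψ n) (X n)) (fun n v => x n v.2) r fun _ => Prod.fst := by
  classical
  intro m ε hε
  have : ∀ n, ∃ m' : β n → Ω' n, Law (Q n) (ψ n) (P n) (X n) →
      pb (glue (Q n) (P n) (ψ n) (X n)) (fun v => ¬r n ≤ |x n v.2 - m n v.1|) ≤
        pb (P n) fun ω => ¬r n ≤ |x n ω - m n (m' (X n ω))| := fun n => by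
    by_cases e : Law (Q n) (ψ n) (P n) (X n)
    · exact (pb_glue _ _ _ _ e fun a ω => ¬r n ≤ |x n ω - m n a|).imp fun _ u _ => u
    · obtain ⟨a, -⟩ : (Q n).S.Nonempty :=
        Finset.nonempty_of_sum_ne_zero (by rw [(Q n).sum_one]; norm_num)
      exact ⟨fun _ => a, fun u => absurd u e⟩
  choose m' hm using this
  filter_upwards [h (fun n s => m n (m' n s)) ε hε, k] with n a b using (hm n b).trans a

theorem NA.fst (h : NA P x r X) {ψ : ∀ n, Ω' n → β n}
    (k : ∀ᶠ n in UF, Law (P n) (X n) (Q n) (ψ n)) :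
    NA (fun n => glue (P n) (Q n) (X n) (ψ n)) (fun n v => x n v.1) r fun _ => Prod.snd := by
  intro m ε hε
  filter_upwards [h.snd (k.mono fun _ => Law.symm) m ε hε, k] with n a b
  exact ((tg.swap _ _ _ _ b).pb_eq fun v => ¬r n ≤ |x n v.1 - m n v.2|).trans_le a

/-- Copies given `X` are separated. -/
theorem NA.copy (h : NA P x r X) (y : ∀ n, Ω n → ℝ) :
    Whp (fun n => glue (P n) (P n) (X n) (X n)) fun n v => r n ≤ |x n v.2 - y n v.1| :=
  h.snd (Eventually.of_forall fun _ => Law.rfl _) y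

theorem not_na (h : ¬NA P x r X) :
    ∃ m : ∀ n, β n → ℝ, Pos P fun n ω => |x n ω - m n (X n ω)| < r n := by
  by_contra k
  refine h fun m => ?_
  by_contra e
  exact k ⟨m, (not_whp e).mono (Eventually.of_forall fun _ _ _ => not_le.1)⟩

theorem Spr.na {q : ℕ → ℕ} (h : Spr P (fun n ω => fl1 (q n) (x n ω)) X M) (hM : Big M)
    (hL : Sub M L) : NA P x (fun n => L n / 2 ^ q n) X := by
  by_contra k
  obtain ⟨m, e⟩ := not_na k
  refine h _ _ _ (dnS_cE e) (Sm.near1 hM (hL.const_mul hM one_le_two) ?_)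
  filter_upwards [e.sure] with n u a ha b hb c
  have a1 := (u a ha).2
  have a2 := (u b hb).2
  simp only [id] at c ⊢
  rw [c] at a1
  rw [mul_div_assoc]
  linarith [abs_sub_le (x n a) (m n (X n b)) (x n b), abs_sub_comm (m n (X n b)) (x n b)]

/-- The uniform form, closed under diagonal limits. -/
theorem na_iff : NA P x r X ↔ ∀ ε : ℝ, 0 < ε → ∀ᶠ n in UF, ∀ m : β n → ℝ,
    pb (P n) (fun ω => ¬r n ≤ |x n ω - m (X n ω)|) ≤ ε := by
  classical
  refine ⟨fun h ε hε => ?_, fun h m ε hε => (h ε hε).mono fun n u => u (m n)⟩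
  have : ∀ n, ∃ m : β n → ℝ, pb (P n) (fun ω => ¬r n ≤ |x n ω - m (X n ω)|) ≤ ε →
      ∀ m' : β n → ℝ, pb (P n) (fun ω => ¬r n ≤ |x n ω - m' (X n ω)|) ≤ ε := fun n => by
    by_cases e : ∀ m' : β n → ℝ, pb (P n) (fun ω => ¬r n ≤ |x n ω - m' (X n ω)|) ≤ ε
    · exact ⟨0, fun _ => e⟩
    · exact (not_forall.1 e).imp fun _ u v => absurd v u
  choose m hm using this
  exact (h m ε hε).mono hm

end Pool.Agent.MP_5168f5_an.MX
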