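import Pool.Agent.MP_5168f5_an.MX.PDefs
import Pool.Agent.MP_5168f5_an.MX.TL

/-! Paths of boxes: the gain of one step, for a rotating frame and for spread tilts. -/

namespace Pool.Agent.MP_5168f5_an.MX.RP

open H19 H17S H17F Filter Finset

variable {Ω T α β γ : Type} {P : FP Ω} {x y : Pl Ω T} {G : Ω → β} {p q : Pm} {K : ℝ}

theorem nr {j : ℕ} {a b : ℝ} (h : fl1 j a = fl1 j b) : |a - b| ≤ 1 / 2 ^ j := by
  rw [one_div]; exact (abs_sub_lt_of_fl1_eq h).le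

theorem fsub {r r' : Ω → ℝ} (h : Fn P r G) (h' : Fn P r' G) : Fn P (fun ω => r ω - r' ω) G :=
  fun a ha b hb e => by simp only [h a ha b hb e, h' a ha b hb e]

theorem fnz {i f : ℕ} (h : Fn P (x.zg i f) G) : Fn P (fun ω => rn i (x.z ω)) G :=
  fn_rn (Z := x.z) fun a ha b hb e => congrArg Prod.fst (h a ha b hb e)

theorem fng {i f : ℕ} (h : Fn P (x.zg i f) G) : Fn P (fun ω => rn f (x.g ω)) G :=
  fn_rn (Z := x.g) fun a ha b hb e => congrArg Prod.snd (h a ha b hb e)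

/-- Roundings of two points of one cell. -/
theorem rn_cell {k i : ℕ} (e : k ≤ i) {a b : ℝ} (h : fl1 k a = fl1 k b) :
    |rn i a - rn i b| ≤ 1 / 2 ^ k := by
  have t : ∀ c : ℝ, rn k c ≤ rn i c := fun c => by
    have h1 : (fl1 k c * 2 ^ (i - k) : ℤ) ≤ fl1 i c := by
      rw [fl1_nest e c]; exact Int.ediv_mul_le _ (by positivity)
    have h2 : (fl1 k c : ℝ) * 2 ^ (i - k) ≤ fl1 i c := by exact_mod_cast h1
    have h3 : (2 : ℝ) ^ i = 2 ^ k * 2 ^ (i - k) := by rw [← pow_add, Nat.add_sub_cancel' e]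
    rw [rn, rn, div_le_div_iff₀ (by positivity) (by positivity), h3]
    nlinarith [pow_pos (two_pos (α := ℝ)) k]
  have e0 : rn k a = rn k b := by rw [rn, rn, h]
  rw [abs_le]
  constructor <;> linarith [t a, t b, rn_le i a, rn_le i b, lt_rn k a, lt_rn k b]

theorem same (h : y.l = x.l) : y.a1 = x.a1 ∧ y.a2 = x.a2 ∧ y.e1 = x.e1 ∧ y.e2 = x.e2 ∧ y.θ = x.θ :=
  ⟨funext fun ω => congrArg (·.1) (congrFun h ω), funext fun ω => congrArg (·.2.1) (congrFun h ω),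
    funext fun ω => congrArg (·.2.2.1) (congrFun h ω),
    funext fun ω => congrArg (·.2.2.2.1) (congrFun h ω),
    funext fun ω => congrArg (·.2.2.2.2) (congrFun h ω)⟩

/-- Change of height and frame between two points of one line. -/
theorem move2 {i f : ℕ} (h : Kn P x G p K) (hl : ∀ ω ∈ P.S, y.l ω = x.l ω)
    (hz : Fn P (y.zg q.i q.f) G) (bz : ∀ ω ∈ P.S, |rn q.i (y.z ω) - rn p.i (x.z ω)| ≤ 1 / 2 ^ i)
    (bg : ∀ ω ∈ P.S, |rn p.f (x.g ω) - rn q.f (y.g ω)| ≤ 1 / 2 ^ f)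
    (e : q.E ≤ p.E ∧ q.t ≤ p.t ∧ q.t ≤ i + p.E ∧ q.c ≤ p.c ∧ q.c ≤ f + p.E ∧ q.D ≤ p.D ∧
      q.D ≤ i + p.c ∧ q.D ≤ f + p.t ∧ q.D ≤ f + i + p.E) : Kn P y G q (4 * K) := by
  obtain ⟨e1, e2, e3, e4, e5, e6, e7, e8, e9⟩ := e
  have h0 : 0 ≤ K := by linarith [h.one]
  have s : ∀ ω ∈ P.S, y.a1 ω = x.a1 ω ∧ y.a2 ω = x.a2 ω ∧ y.e1 ω = x.e1 ω ∧ y.e2 ω = x.e2 ω ∧
      y.θ ω = x.θ ω := fun ω hω => by simpa only [Pl.l, Prod.mk.injEq] using hl ω hω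
  have fz := fsub (fnz hz) (fnz h.zg)
  have fg := fsub (fng h.zg) (fng hz)
  have u : ∀ t, t ≤ p.t → t ≤ i + p.E → Cls P G (y.y1 q.i) t (K + K) := fun t a b =>
    ((h.t.mono a h0 le_rfl).add ((h.E.mul fz bz).mono b h0 le_rfl)).congr fun ω hω => by
      simp only [Pl.y1, s ω hω]; ring
  refine ⟨by linarith [h.one], fun a ha b hb k => ?_, hz,
    (u _ e2 e3).mono le_rfl (by linarith) (by linarith),
    (h.E.mono e1 (by linarith) (by linarith)).congr fun ω hω => (s ω hω).2.2.1, ?_, ?_⟩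
  · rw [(s a ha).2.2.2.2, (s b hb).2.2.2.2]; exact h.θ a ha b hb k
  · refine ((((h.D.mono e6 h0 le_rfl).add ((h.c.mul fz bz).mono e7 h0 le_rfl)).add
      (((u (min p.t (i + p.E)) (min_le_left _ _) (min_le_right _ _)).mul fg bg).mono
        (j := q.D) (by omega) (by linarith) le_rfl)).congr fun ω hω => ?_).mono le_rfl
          (by linarith) (by linarith)
    simp only [Pl.nm, Pl.y1, Pl.tl, s ω hω]; ring
  · refine (((h.c.mono e4 h0 le_rfl).add ((h.E.mul fg bg).mono e5 h0 le_rfl)).congr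
      fun ω hω => ?_).mono le_rfl (by linarith) (by linarith)
    simp only [Pl.tl, s ω hω]; ring

/-- A rotating frame: the normal digit at one point shows the lateral digit. -/
theorem rot {i f t E D₀ D₁ c i₀ f₀ τ t₁ u : ℕ} {ε : ℝ} (hl : ∀ ω ∈ P.S, y.l ω = x.l ω)
    (bz : ∀ ω ∈ P.S, |rn i (y.z ω) - rn i (x.z ω)| ≤ 1 / 2 ^ i₀)
    (bg : ∀ ω ∈ P.S, |rn f (x.g ω) - rn f (y.g ω)| ≤ 1 / 2 ^ f₀)
    (hE : pb P (fun ω => ¬1 / 2 ^ (f₀ + τ) ≤ |rn f (x.g ω) - rn f (y.g ω)|) ≤ ε)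
    (e : D₀ ≤ D₁ ∧ D₀ ≤ f₀ + t ∧ D₁ ≤ i₀ + c ∧ D₁ ≤ f₀ + i₀ + E ∧ t ≤ i₀ + E ∧ c ≤ f₀ + E ∧
      f₀ + τ + t₁ ≤ D₁ ∧ t₁ ≤ t + u) :
    ch P (fun ω => fl1 t₁ (x.y1 i ω)) (x.Bx ⟨i, f, t, E, D₁, c⟩) ≤
      mi P (fun ω => fl1 t₁ (x.y1 i ω)) (y.zg i f) (x.Bx ⟨i, f, t, E, D₁, c⟩) +
        ch P (fun ω => fl1 D₁ (y.nm i f ω)) (y.Bx ⟨i, f, t, E, D₀, c⟩) + ε * (u * lg + 4) + 51 := by
  obtain ⟨e1, e2, e3, e4, e5, e6, e7, e8⟩ := e
  set B := x.Bx ⟨i, f, t, E, D₁, c⟩ with hB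
  set A : Ω → ℤ := fun ω => fl1 D₁ (y.nm i f ω) with hA
  have k1 : Kn P x (fun ω => (y.zg i f ω, B ω)) ⟨i, f, t, E, D₁, c⟩ 1 := .of_fn (Fn.snd _ _)
  have a1 := (move2 (y := y) (q := ⟨i, f, t, E, D₀, c⟩) k1 hl (Fn.fst _ _) bz bg
    (by simp only; omega)).ch
  have a2 := ch_tri (P := P) (fun ω => fl1 t₁ (x.y1 i ω)) A fun ω => (y.zg i f ω, B ω)
  have a3 := ch_tri' (P := P) A (fun ω => (y.zg i f ω, B ω)) (y.Bx ⟨i, f, t, E, D₀, c⟩)
  have k2 : Kn P x (fun ω => (A ω, y.zg i f ω, B ω)) ⟨i, f, t, E, D₁, c⟩ 1 :=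
    k1.ctx (Fn.snd _ _)
  have hz : Fn P (y.zg i f) fun ω => (A ω, y.zg i f ω, B ω) := (Fn.fst _ _).right _
  have fz := fsub (fnz hz) (fnz k2.zg)
  have fg := fsub (fng k2.zg) (fng hz)
  have c1 : Cls P (fun ω => (A ω, y.zg i f ω, B ω))
      (fun ω => (rn f (x.g ω) - rn f (y.g ω)) * x.y1 i ω) D₁ (1 + 1 + 1 + 1) := by
    refine (((((Cls.of_fn (Fn.fst A _)).sub k2.D).sub ((k2.c.mul fz bz).mono e3 zero_le_one
      le_rfl)).sub (((k2.E.mul fz bz).mul fg bg).mono (j := D₁) (by simp only; omega) zero_le_one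
        le_rfl))).congr fun ω hω => ?_
    have s := hl ω hω
    simp only [Pl.l, Prod.mk.injEq] at s
    simp only [Pl.nm, Pl.y1, Pl.tl, s]; ring
  have a4 := ch_ev (P := P) (F := fun ω => fl1 t₁ (x.y1 i ω))
    (G := fun ω => (A ω, y.zg i f ω, B ω)) (A := 10) (B := u * lg + 4) (by norm_num)
    (by have := lg_pos; positivity) hE (fun hx => by
      have := (Cls.div (k := f₀ + τ) (j := t₁) ((c1.cE _).mono e7 (by norm_num) le_rfl)
        (fn_cE fg _) fun ω hω => ((mem_cE hx ω).1 hω).2).ch (by norm_num) (u := 0) (k := t₁) le_rfl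
      norm_num at this ⊢
      exact this)
    (by have := (k2.t.cE fun ω => ¬1 / 2 ^ (f₀ + τ) ≤ |rn f (x.g ω) - rn f (y.g ω)|).ch
          zero_le_one e8
        linarith)
  unfold mi
  linarith [lg_lt_one]

theorem nm_eq (x : Pl Ω T) (i f i₀ f₀ : ℕ) (ω : Ω) : x.nm i f ω = x.nm i₀ f₀ ω +
    (rn i (x.z ω) - rn i₀ (x.z ω)) * x.tl f₀ ω + (rn f₀ (x.g ω) - rn f (x.g ω)) *
      (x.y1 i₀ ω + (rn i (x.z ω) - rn i₀ (x.z ω)) * x.e1 ω) := by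
  simp only [Pl.nm, Pl.y1, Pl.tl]; ring

theorem am {a b : ℝ} {i j k : ℕ} (ha : |a| ≤ 1 / 2 ^ i) (hb : |b| ≤ 1 / 2 ^ j) (e : k ≤ i + j) :
    |a * b| ≤ 1 / 2 ^ k := by
  refine le_trans ?_ (dv_anti zero_le_one le_rfl e)
  rw [abs_mul, pow_add, ← one_div_mul_one_div]
  exact mul_le_mul ha hb (abs_nonneg _) (by positivity)

/-- Two lines through one point: the product of the height and the difference of the tilts. -/
theorem two {i f t E D₀ D₁ c i₀ f₀ : ℕ} {a b : Ω} (hi : i₀ ≤ i) (hf : f₀ ≤ f)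
    (e : D₁ ≤ f₀ + t ∧ D₁ ≤ f₀ + i₀ + E)
    (h1 : x.Bx ⟨i₀, f₀, t, E, D₀, c⟩ a = x.Bx ⟨i₀, f₀, t, E, D₀, c⟩ b)
    (h2 : x.zg i f a = x.zg i f b) (h3 : fl1 D₁ (x.nm i f a) = fl1 D₁ (x.nm i f b)) :
    |(rn i (x.z a) - rn i₀ (x.z a)) * (x.tl f₀ a - x.tl f₀ b) +
      (x.nm i₀ f₀ a - x.nm i₀ f₀ b)| ≤ 3 / 2 ^ D₁ := by
  simp only [Pl.Bx, Pl.zg, Prod.mk.injEq] at h1 h2
  have z1 : rn i (x.z b) = rn i (x.z a) := by rw [rn, rn, h2.1]
  have z2 : rn i₀ (x.z b) = rn i₀ (x.z a) := by rw [rn, rn, h1.2.1.1]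
  have g1 : rn f (x.g b) = rn f (x.g a) := by rw [rn, rn, h2.2]
  have g2 : rn f₀ (x.g b) = rn f₀ (x.g a) := by rw [rn, rn, h1.2.1.2]
  have n := abs_le.1 (nr h3)
  rw [nm_eq x i f i₀ f₀ a, nm_eq x i f i₀ f₀ b, z1, z2, g1, g2] at n
  have s := rn_sub i i₀ (x.z a)
  have r := rn_sub f₀ f (x.g a)
  rw [min_eq_right hi] at s
  rw [min_eq_left hf] at r
  have m1 := abs_le.1 (am r (nr h1.2.2.1) e.1)
  have m2 := abs_le.1 (am r (am s (nr h1.2.2.2.1) le_rfl) (k := D₁) (by omega))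
  rw [show (3 : ℝ) / 2 ^ D₁ = 3 * (1 / 2 ^ D₁) by ring, abs_le]
  constructor <;> nlinarith [n.1, n.2, m1.1, m1.2, m2.1, m2.2]

/-- The data shared by a line and its copy. -/
noncomputable def cx (x : Pl Ω T) (p : Pm) (i f D : ℕ) (ω : Ω) :=
  ((x.zg i f ω, fl1 D (x.nm i f ω)), x.Bx p ω)

/-- Spread tilts: the normal digit has the entropy of the height. -/
theorem cor1 {i f t E D₀ D₁ c c₁ i₀ f₀ τ k u : ℕ} {ε : ℝ} (hi : i₀ ≤ i) (hf : f₀ ≤ f)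
    (hE : pb (glue P P (cx x ⟨i₀, f₀, t, E, D₀, c⟩ i f D₁) (cx x ⟨i₀, f₀, t, E, D₀, c⟩ i f D₁))
      (fun v => ¬1 / 2 ^ (c + τ) ≤ |x.tl f₀ v.2 - x.tl f₀ v.1|) ≤ ε)
    (e : D₀ ≤ D₁ ∧ D₀ ≤ i₀ + c ∧ D₁ ≤ f₀ + t ∧ D₁ ≤ f₀ + i₀ + E ∧ D₁ ≤ i₀ + c₁ ∧ t ≤ i₀ + E ∧
      c ≤ f₀ + E ∧ c + τ + k ≤ D₁ ∧ k ≤ i ∧ k ≤ i₀ + u) :
    ch P (fun ω => fl1 k (x.z ω)) (x.lz i₀ f₀) ≤
      mi P (x.Bx ⟨i₀, f₀, t, E, D₁, c₁⟩) (x.zg i f) (x.Bx ⟨i₀, f₀, t, E, D₀, c⟩) +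
        ch P (fun ω => fl1 D₁ (x.nm i f ω)) (x.Bx ⟨i, f, t, E, D₀, c⟩) + ε * (u * lg + 4) + 67 := by
  obtain ⟨e1, e2, e3, e4, e5, e6, e7, e8, e9, e10⟩ := e
  set Y := x.Bx ⟨i₀, f₀, t, E, D₁, c₁⟩ with hY
  set Z := x.Bx ⟨i₀, f₀, t, E, D₀, c⟩ with hZ
  set X := cx x ⟨i₀, f₀, t, E, D₀, c⟩ i f D₁ with hX
  have a1 := cor P Y (X := X) (K := Z) (fun ω => fl1 k (x.z ω)) (Fn.snd _ _)
  have a2 : ch P (fun ω => fl1 k (x.z ω)) (x.lz i₀ f₀) ≤ _ :=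
    ch_anti (G := fun ω => (Y ω, Z ω)) ((bx_lz le_rfl le_rfl).pair (bx_lz le_rfl le_rfl))
  have a3 : mi P Y X Z ≤ mi P Y (fun ω => (x.zg i f ω, fl1 D₁ (x.nm i f ω))) Z :=
    mi_mono (Fn.rfl _)
  have a3' := mi_chain (P := P) Y (x.zg i f) (fun ω => fl1 D₁ (x.nm i f ω)) Z
  have a3s := mi_symm (P := P) Y (fun ω => fl1 D₁ (x.nm i f ω)) fun ω => (x.zg i f ω, Z ω)
  have a4 := mi_le (P := P) (fun ω => fl1 D₁ (x.nm i f ω)) Y fun ω => (x.zg i f ω, Z ω)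
  have a5 := ch_tri' (P := P) (fun ω => fl1 D₁ (x.nm i f ω)) (fun ω => (x.zg i f ω, Z ω))
    (x.Bx ⟨i, f, t, E, D₀, c⟩)
  have a6 := ch_bx (P := P) (x := x) (p := ⟨i₀, f₀, t, E, D₀, c⟩) (q := ⟨i, f, t, E, D₀, c⟩)
    (G := fun ω => (x.zg i f ω, Z ω)) (Fn.snd _ _) (Fn.fst _ _) (by simp only [Pm.Rd]; omega)
  have a7 := ch_ev (P := glue P P X X) (F := fun v => fl1 k (x.z v.1))
    (G := fun v => (Y v.1, Y v.2, Z v.1)) (A := 26) (B := u * lg + 4) (by norm_num)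
    (by have := lg_pos; positivity) hE (fun hx => by
      have : Cls (cE (glue P P X X) fun v => 1 / 2 ^ (c + τ) ≤ |x.tl f₀ v.2 - x.tl f₀ v.1|)
          (fun v => (Y v.1, Y v.2, Z v.1)) (fun v => x.z v.1) k 12 := by
        intro a ha b hb q
        obtain ⟨ha1, ha2⟩ := (mem_cE hx a).1 ha
        have ea := ((mem_cp P X a).1 ha1).2.2
        have eb := ((mem_cp P X b).1 (cE_sub hb)).2.2
        simp only [hX, cx, Prod.mk.injEq] at ea eb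
        have t1 := abs_le.1 (two hi hf ⟨e3, e4⟩ ea.2.symm ea.1.1.symm ea.1.2.symm)
        have t2 := abs_le.1 (two hi hf ⟨e3, e4⟩ eb.2.symm eb.1.1.symm eb.1.2.symm)
        simp only [hY, Pl.Bx, Pl.zg, Prod.mk.injEq] at q
        have z0 : rn i₀ (x.z b.1) = rn i₀ (x.z a.1) := by rw [rn, rn, q.1.2.1.1]
        have n1 := abs_le.1 (nr q.1.2.2.2.2.1)
        have n2 := abs_le.1 (nr q.2.1.2.2.2.2.1)
        have s := rn_sub i i₀ (x.z b.1)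
        rw [min_eq_right hi] at s
        have m1 := abs_le.1 (am s (nr q.1.2.2.2.2.2) e5)
        have m2 := abs_le.1 (am s (nr q.2.1.2.2.2.2.2) e5)
        rw [z0] at t2 m1 m2
        have w : |(rn i (x.z a.1) - rn i (x.z b.1)) * (x.tl f₀ a.2 - x.tl f₀ a.1)| ≤
            10 / 2 ^ (c + τ + k) := by
          refine le_trans ?_ (dv_anti (K := 10) (by norm_num) le_rfl e8)
          rw [show (10 : ℝ) / 2 ^ D₁ = 10 * (1 / 2 ^ D₁) by ring, abs_le]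
          rw [show (3 : ℝ) / 2 ^ D₁ = 3 * (1 / 2 ^ D₁) by ring] at t1 t2
          constructor <;> nlinarith [t1.1, t1.2, t2.1, t2.2, n1.1, n1.2, n2.1, n2.2, m1.1, m1.2,
            m2.1, m2.2]
        rw [abs_mul, pow_add, show (10 : ℝ) / (2 ^ (c + τ) * 2 ^ k) =
          10 / 2 ^ k * (1 / 2 ^ (c + τ)) by field_simp] at w
        have w2 := abs_le.1 (le_of_mul_le_mul_right
          ((mul_le_mul_of_nonneg_left ha2 (abs_nonneg _)).trans w) (by positivity))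
        have w3 := dv_anti zero_le_one le_rfl e9
        rw [show (12 : ℝ) / 2 ^ k = 10 / 2 ^ k + 2 * (1 / 2 ^ k) by ring, abs_le]
        constructor <;> linarith [w2.1, w2.2, rn_le i (x.z a.1), rn_le i (x.z b.1),
          lt_rn i (x.z a.1), lt_rn i (x.z b.1)]
      have := this.ch (by norm_num) (u := 0) (k := k) le_rfl
      norm_num at this ⊢
      exact this)
    (by have := (Cls.of_fn (P := cE (glue P P X X) fun v =>
            ¬1 / 2 ^ (c + τ) ≤ |x.tl f₀ v.2 - x.tl f₀ v.1|) (j := i₀) (X := fun v => x.z v.1)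
            (G := fun v => (Y v.1, Y v.2, Z v.1))
            fun a _ b _ q => congrArg (·.1.2.1.1) q).ch zero_le_one e10
        linarith)
  linarith [lg_lt_one]

/-- A variable that is a function of the line and the context. -/
theorem drop {l : Ω → α} {A : Ω → γ} (h : Fn P A fun ω => (l ω, G ω)) :
    ch P A G + ch P l (fun ω => (A ω, G ω)) = ch P l G := by
  rw [← ch_chain]
  exact le_antisymm (ch_mono (h.pair (Fn.fst _ _))) (ch_mono ((Fn.snd _ _).left _))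

theorem fn_nm {i f : ℕ} (h : Fn P (x.zg i f) G) :
    Fn P (x.nm i f) fun ω => (x.l ω, G ω) := fun a ha b hb e => by
  have e1 := fnz h a ha b hb (congrArg Prod.snd e)
  have e2 := fng h a ha b hb (congrArg Prod.snd e)
  have e3 := congrArg Prod.fst e
  simp only [Pl.l, Prod.mk.injEq] at e1 e2 e3
  simp only [Pl.nm, Pl.y1, e1, e2, e3]

theorem fn_y1 {i f : ℕ} (h : Fn P (x.zg i f) G) :
    Fn P (x.y1 i) fun ω => (x.l ω, G ω) := fun a ha b hb e => by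
  have e1 := fnz h a ha b hb (congrArg Prod.snd e)
  have e3 := congrArg Prod.fst e
  simp only [Pl.l, Prod.mk.injEq] at e1 e3
  simp only [Pl.y1, e1, e3]

/-- Refine the normal position. -/
theorem stepD {i f t E D D' c : ℕ} (h : D ≤ D') :
    ch P (fun ω => fl1 D' (x.nm i f ω)) (x.Bx ⟨i, f, t, E, D, c⟩) +
      ch P x.l (x.Bx ⟨i, f, t, E, D', c⟩) ≤ ch P x.l (x.Bx ⟨i, f, t, E, D, c⟩) := by
  have a1 := drop (P := P) (G := x.Bx ⟨i, f, t, E, D, c⟩) (l := x.l)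
    (A := fun ω => fl1 D' (x.nm i f ω)) ((Fn.comp (fl1 D') _).trans (fn_nm bx_zg))
  have a2 := ch_anti (P := P) (F := x.l) (Fn.pair (bx_D (x := x) (p := ⟨i, f, t, E, D', c⟩))
    (bx_mono (q := ⟨i, f, t, E, D, c⟩) rfl rfl le_rfl le_rfl h le_rfl))
  linarith

/-- Refine the lateral position. -/
theorem stept {i f t t' E D c : ℕ} (h : t ≤ t') :
    ch P (fun ω => fl1 t' (x.y1 i ω)) (x.Bx ⟨i, f, t, E, D, c⟩) +
      ch P x.l (x.Bx ⟨i, f, t', E, D, c⟩) ≤ ch P x.l (x.Bx ⟨i, f, t, E, D, c⟩) := by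
  have a1 := drop (P := P) (G := x.Bx ⟨i, f, t, E, D, c⟩) (l := x.l)
    (A := fun ω => fl1 t' (x.y1 i ω)) ((Fn.comp (fl1 t') _).trans (fn_y1 bx_zg))
  have a2 := ch_anti (P := P) (F := x.l) (Fn.pair (bx_t (x := x) (p := ⟨i, f, t', E, D, c⟩))
    (bx_mono (q := ⟨i, f, t, E, D, c⟩) rfl rfl h le_rfl le_rfl le_rfl))
  linarith

/-- A finer box leaves less entropy. -/
theorem stepR (F : Ω → α) (hi : q.i ≤ p.i) (hf : q.f ≤ p.f) (e : q.Rd p) :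
    ch P F (x.Bx p) ≤ ch P F (x.Bx q) + 40 := by
  linarith [ch_tri' (P := P) F (x.Bx p) (x.Bx q),
    ch_bx (P := P) (x := x) (Fn.rfl _) ((fn_zg hi hf).trans bx_zg) e]

/-- Informations along nested contexts add up to at most the entropy. -/
theorem tele (F : ℕ → Ω → α) (ξ : Ω → γ) (B : ℕ → Ω → β) (N : ℕ)
    (h : ∀ s < N, Fn P (fun ω => (F s ω, B s ω)) (B (s + 1))) :
    ∑ s ∈ range N, mi P (F s) ξ (B s) ≤ ch P ξ (B 0) := by
  have : ∑ s ∈ range N, mi P (F s) ξ (B s) + ch P ξ (B N) ≤ ch P ξ (B 0) := by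
    induction N with
    | zero => simp
    | succ N ih =>
      have a1 := ih fun s hs => h s (by omega)
      have a2 := ch_anti (P := P) (F := ξ) (h N (by omega))
      rw [sum_range_succ, mi_symm]
      unfold mi at a1 ⊢
      linarith
  linarith [ch_nonneg (P := P) ξ (B N)]

/-- The entropy of the height and slope digits. -/
theorem ch_zg {i f i₀ f₀ u v : ℕ} (hz : Cls P G x.z i₀ 1) (hg : Cls P G x.g f₀ 1)
    (hi : i ≤ i₀ + u) (hf : f ≤ f₀ + v) : ch P (x.zg i f) G ≤ (u + v) * lg + 8 := by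
  have := ch_subadd (P := P) (fun ω => fl1 i (x.z ω)) (fun ω => fl1 f (x.g ω)) G
  have a1 := hz.ch zero_le_one hi
  have a2 := hg.ch zero_le_one hf
  exact this.trans (by linarith)

end Pool.Agent.MP_5168f5_an.MX.RP
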