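import Pool.Agent.MP_5168f5_an.MX.QApi
import Pool.Agent.MP_5168f5_an.MX.FinA
import Pool.Agent.MP_5168f5_an.MX.RPA

/-! Two optimal labels on one line have almost the same frame. -/

namespace Pool.Agent.MP_5168f5_an.MX

open H19 H17S H17F Filter R4.K31

namespace AngA

section Fin

variable {Ω T α β γ : Type} {P : FP Ω} {x y : Pl Ω T} {a j d F s : ℕ}

theorem ch_rand {s : Ω → ℕ} {X : ℕ → Ω → α} {G : Ω → β} {C : ℝ}
    (h : ∀ ω ∈ P.S, ch (cv P s (s ω)) (X (s ω)) G ≤ C) :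
    ch P (fun ω => X (s ω) ω) (fun ω => (G ω, s ω)) ≤ C :=
  (KEA.ent P s X fun _ => G).trans_le ((P.E_mono h).trans_eq (P.E_const _))

theorem lab_rand {o : Ob} {L : ℝ} {s : o.Ω → ℕ} {G : ℕ → o.Ω → γ} {A : ℕ → o.Ω → Mt}
    {τ : ℕ → o.Ω → ℝ} (h : ∀ ω ∈ o.P.S,
      (o.pull (cv o.P s (s ω)) id).Lab a L (G (s ω)) (A (s ω)) (τ (s ω))) :
    o.Lab a L (fun ω => (G (s ω) ω, s ω)) (fun ω => A (s ω) ω) fun ω => τ (s ω) ω := by
  have m : ∀ u ∈ o.P.S, u ∈ (cv o.P s (s u)).S := fun u hu => (mem_cv hu u).2 ⟨hu, rfl⟩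
  have k : ∀ u ∈ o.P.S, ∀ v ∈ o.P.S, (G (s u) u, s u) = (G (s v) v, s v) →
      s v = s u ∧ v ∈ (cv o.P s (s u)).S ∧ G (s u) u = G (s u) v := fun u hu v hv e => by
    have e1 : s v = s u := (congrArg Prod.snd e).symm
    exact ⟨e1, (mem_cv hu v).2 ⟨hv, e1⟩, by rw [e1] at e; exact congrArg Prod.fst e⟩
  refine ⟨fun u hu v hv e => (h u hu).fθ u (m u hu) v (k u hu v hv e).2.1 (k u hu v hv e).2.2,
    fun u hu v hv e => (h u hu).fz u (m u hu) v (k u hu v hv e).2.1 (k u hu v hv e).2.2,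
    fun u hu v hv e => ?_, fun u hu v hv e => ?_, fun u hu => (h u hu).bd u (m u hu),
    fun u hu v hv e => (h u hu).pr u (m u hu) v (k u hu v hv e).2.1 (k u hu v hv e).2.2⟩
  · simp only [(k u hu v hv e).1]
    exact (h u hu).fA u (m u hu) v (k u hu v hv e).2.1 (k u hu v hv e).2.2
  · simp only [(k u hu v hv e).1]
    exact (h u hu).fτ u (m u hu) v (k u hu v hv e).2.1 (k u hu v hv e).2.2

/-- The join of two labels. -/
theorem join (hl : ∀ ω ∈ P.S, y.l ω = x.l ω) (hz : ∀ ω ∈ P.S, fl1 a (y.z ω) = fl1 a (x.z ω))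
    (ha : a ≤ j) (hs : s ≤ F)
    (hg : s < F → ∀ ω ∈ P.S, 1 / 2 ^ s ≤ |rn F (x.g ω) - rn F (y.g ω)|) :
    Kn P x (fun ω => (x.Bx (lab j F d (d + F)) ω, y.Bx (lab j F d (d + F)) ω))
      ⟨j, F, a + (d + (F - s)), d + (F - s), a + (d + F), d + F⟩ 3 := by
  have kx := Kn.of_fn (Fn.fst (P := P) (x.Bx (lab j F d (d + F))) (y.Bx (lab j F d (d + F))))
  have ky := Kn.of_fn (Fn.snd (P := P) (x.Bx (lab j F d (d + F))) (y.Bx (lab j F d (d + F))))
  have e : ∀ ω ∈ P.S, y.a1 ω = x.a1 ω ∧ y.a2 ω = x.a2 ω ∧ y.e1 ω = x.e1 ω ∧ y.e2 ω = x.e2 ω ∧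
      y.θ ω = x.θ ω := fun ω hω => by simpa only [Pl.l, Prod.mk.injEq] using hl ω hω
  have fz := RP.fsub (RP.fnz ky.zg) (RP.fnz kx.zg)
  have fg := RP.fsub (RP.fng kx.zg) (RP.fng ky.zg)
  have c1 := (((ky.c.sub kx.c).congr (X' := fun ω => (rn F (x.g ω) - rn F (y.g ω)) * x.e1 ω)
    fun ω hω => by simp only [Pl.tl, lab, e ω hω]; ring).mono (j := s + (d + (F - s))) (K' := 3)
      (by simp only [lab]; omega) (by norm_num) (by norm_num))
  have c2 := ((((ky.D.sub kx.D).mono (j := a + (d + F)) (by simp only [lab]; omega) (by norm_num)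
    le_rfl).sub (ky.c.mul fz fun ω hω => RP.rn_cell ha (hz ω hω))).congr
      (X' := fun ω => (rn F (x.g ω) - rn F (y.g ω)) * x.y1 j ω) fun ω hω => by
        simp only [Pl.tl, Pl.nm, Pl.y1, lab, e ω hω]; ring).mono (j := s + (a + (d + (F - s))))
          (K' := 3) (by omega) (by norm_num) (by norm_num)
  refine ⟨by norm_num, kx.θ, kx.zg, ?_, ?_, kx.D.mono (by simp only [lab]; omega) (by norm_num)
    (by norm_num), kx.c.mono le_rfl (by norm_num) (by norm_num)⟩ <;> rcases hs.eq_or_lt with q | q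
  · exact kx.t.mono (by simp only [lab]; omega) (by norm_num) (by norm_num)
  · exact Cls.div c2 fg (hg q)
  · exact kx.E.mono (by simp only [lab]; omega) (by norm_num) (by norm_num)
  · exact Cls.div c1 fg (hg q)

/-- The meet of two labels. -/
theorem meet (hl : ∀ ω ∈ P.S, y.l ω = x.l ω) (hz : ∀ ω ∈ P.S, fl1 a (y.z ω) = fl1 a (x.z ω))
    (ha : a ≤ j) (hs : s ≤ F) (hg : ∀ ω ∈ P.S, |y.g ω - x.g ω| ≤ 2 / 2 ^ s) :
    ch P (x.Bx (lab a s d (d + s))) (y.Bx (lab j F d (d + F))) ≤ 148 := by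
  have e : ∀ ω ∈ P.S, y.a1 ω = x.a1 ω ∧ y.a2 ω = x.a2 ω ∧ y.e1 ω = x.e1 ω ∧ y.e2 ω = x.e2 ω ∧
      y.θ ω = x.θ ω ∧ rn a (y.z ω) = rn a (x.z ω) := fun ω hω => by
    simpa only [Pl.l, Prod.mk.injEq, rn, hz ω hω, and_true, and_assoc] using hl ω hω
  have a1 := ((((Cls.of_fn ((fn_fl1 y.g hs).trans ((Fn.snd _ _).trans
    (bx_zg (P := P) (x := y) (p := lab j F d (d + F)))))).sub (Cls.small hg)).congr
      (X' := x.g) fun ω _ => by ring).ch (k := s) (u := 0) (by norm_num) le_rfl)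
  have f := Fn.snd (P := P) (fun ω => fl1 s (x.g ω)) (y.Bx (lab j F d (d + F)))
  have k := (Kn.of_fn f).move (q := lab a s d (d + s)) (((fn_zg ha hs).trans bx_zg).trans f)
    (by simp only [Pm.Rd, lab]; omega)
  have fg := RP.fsub (RP.fng k.zg) (fn_rn (Fn.fst _ _))
  have bg : ∀ ω ∈ P.S, |rn s (y.g ω) - rn s (x.g ω)| ≤ 3 / 2 ^ s := fun ω hω => by
    have := abs_le.1 (hg ω hω)
    rw [show (3 : ℝ) / 2 ^ s = 2 / 2 ^ s + 1 / 2 ^ s by ring, abs_le]
    constructor <;> linarith [this.1, this.2, rn_le s (x.g ω), rn_le s (y.g ω), lt_rn s (x.g ω),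
      lt_rn s (y.g ω)]
  have k' : Kn P x _ (lab a s d (d + s)) 16 := ⟨by norm_num, fun u hu v hv q => by
      rw [← (e u hu).2.2.2.2.1, ← (e v hv).2.2.2.2.1]; exact k.θ u hu v hv q,
    fun u hu v hv q => Prod.ext ((hz u hu).symm.trans
      ((congrArg Prod.fst (k.zg u hu v hv q)).trans (hz v hv))) (congrArg Prod.fst q),
    (k.t.congr fun ω hω => by simp only [Pl.y1, lab, e ω hω]).mono le_rfl (by norm_num)
      (by norm_num),
    (k.E.congr fun ω hω => (e ω hω).2.2.1.symm).mono le_rfl (by norm_num) (by norm_num),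
    ((k.D.add ((k.t.mulL fg bg).mono (K' := 12) (by simp only [lab]; omega) (by norm_num)
      (by norm_num))).congr fun ω hω => by simp only [Pl.nm, Pl.y1, lab, e ω hω]; ring).mono le_rfl
        (by norm_num) (by norm_num),
    ((k.c.add ((k.E.mulL fg bg).mono (K' := 12) (by simp only [lab]; omega) (by norm_num)
      (by norm_num))).congr fun ω hω => by simp only [Pl.tl, lab, e ω hω]; ring).mono le_rfl
        (by norm_num) (by norm_num)⟩
  have a2 := k'.ch
  have a3 := ch_tri (P := P) (x.Bx (lab a s d (d + s))) (fun ω => fl1 s (x.g ω))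
    (y.Bx (lab j F d (d + F)))
  norm_num at a1 a2
  linarith

/-- Submodularity for two copies, their join and their meet. -/
theorem sub (P : FP Ω) (l : Ω → α) (S : Ω → β) {W : Ω → γ} {δ : Type} (J : ℕ → Ω → δ)
    (s : Ω × Ω → ℕ) {I : ℕ} (hs : ∀ v, s v ≤ I) (h1 : Fn P l W)
    (h2 : ∀ i, Fn P W fun ω => (l ω, J i ω)) :
    2 * ch P l S ≤ ch (glue P P W W) (fun v => l v.1) (fun v => ((S v.1, S v.2), s v)) +
      ch (glue P P W W) (fun v => l v.1) (fun v => (J (s v) v.1, s v)) +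
      ch (glue P P W W) (fun v => J (s v) v.1) (fun v => (S v.1, s v)) +
      ch (glue P P W W) (fun v => J (s v) v.1) (fun v => (S v.2, s v)) + 3 * Real.log (I + 1) := by
  have e1 := (tg.fst P P W W).ch_id l S
  have e2 := (ch_ext (fun v hv => by
    obtain ⟨u1, u2, u3⟩ := (mem_cp P W v).1 hv
    exact h1 _ u1 _ u2 u3.symm) fun _ _ => rfl).trans ((tg.snd P P W W (Law.rfl _)).ch_id l S)
  have e3 := tg.mk1 P P W W S W (Law.rfl _) (Fn.rfl _)
  have e4 := tg.mk1 P P W W S id (Law.rfl _) (Fn.comp W id)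
  have fW : Fn (glue P P W W) (fun v => W v.1) fun v => (l v.1, J (s v) v.1, s v) :=
    fun u hu v hv e => by
      simp only [Prod.mk.injEq] at e
      exact h2 (s v) _ ((mem_cp P W u).1 hu).1 _ ((mem_cp P W v).1 hv).1
        (Prod.ext e.1 (by simp only; rw [← e.2.1, e.2.2]))
  generalize glue P P W W = Q at *
  have b := fun {ζ : Type} (G : Ω × Ω → ζ) => ch_label (P := Q) (fun v _ => hs v) G
  have a1 := mj Q (fun v => l v.1) (fun v => S v.1) (fun v => (S v.2, s v))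
    fun v => (J (s v) v.1, s v)
  have a2 : mi Q (fun v => S v.1) (fun v => (S v.2, s v)) (fun v => (l v.1, J (s v) v.1, s v)) ≤
      mi Q (fun v => S v.1) (fun v => S v.2) fun v => (l v.1, J (s v) v.1, s v) :=
    mi_mono ((Fn.fst _ _).pair fun _ _ _ _ e => congrArg (·.2.2.2) e)
  have a3 : ch Q (fun v => S v.2) (fun v => (l v.1, J (s v) v.1, s v)) ≤ _ := ch_anti fW
  have a4 : ch Q (fun v => S v.2) (fun v => (s v, id v.1)) ≤
      ch Q (fun v => S v.2) fun v => (S v.1, l v.1, J (s v) v.1, s v) :=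
    ch_anti fun _ _ _ _ e => by
      simp only [Prod.mk.injEq, id] at e
      simp only [e.1, e.2]
  have a5 := ch_drop (P := Q) (fun v => S v.2) s fun v => id v.1
  have a6 := ch_drop (P := Q) (fun v => l v.1) s fun v => S v.2
  have a7 := ch_drop (P := Q) (fun v => l v.1) s fun v => S v.1
  have a8 := ch_drop (P := Q) (fun v => l v.1) (fun v => J (s v) v.1) fun v => (S v.1, s v)
  have c1 : ch Q (fun v => l v.1) (fun v => (s v, S v.2)) ≤ ch Q _ fun v => (S v.2, s v) :=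
    ch_anti ((Fn.snd _ _).pair (Fn.fst _ _))
  have c2 : ch Q (fun v => l v.1) (fun v => (s v, S v.1)) ≤ ch Q _ fun v => (S v.1, s v) :=
    ch_anti ((Fn.snd _ _).pair (Fn.fst _ _))
  have c3 : ch Q (fun v => l v.1) (fun v => (J (s v) v.1, S v.1, s v)) ≤
      ch Q _ fun v => (S v.1, J (s v) v.1, s v) :=
    ch_anti fun _ _ _ _ e => by simp only [Prod.mk.injEq] at e ⊢; tauto
  have c4 : ch Q (fun v => l v.1) (fun v => (S v.1, S v.2, s v)) ≤
      ch Q _ fun v => ((S v.1, S v.2), s v) :=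
    ch_anti fun _ _ _ _ e => by simp only [Prod.mk.injEq] at e ⊢; tauto
  have c5 : ch Q (fun v => (J (s v) v.1, s v)) (fun v => (S v.2, s v)) ≤
      ch Q (fun v => J (s v) v.1) fun v => (S v.2, s v) :=
    ch_mono ((Fn.fst _ _).pair fun _ _ _ _ e => congrArg (·.2.2) e)
  rw [mi_symm (fun v : Ω × Ω => S v.1) fun v => S v.2] at a2
  unfold mi at a1 a2
  linarith [b fun v => id v.1, b fun v => S v.2, b fun v => S v.1]

open Classical in
/-- The scale at which two frames differ. -/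
noncomputable def sc (o : Ob) (v : o.Ω × o.Ω) : ℕ :=
  Nat.findGreatest (fun i => |o.x.g v.2 - o.x.g v.1| ≤ 2 / 2 ^ i) (o.f o.j)

/-- Two copies with the same line and window. -/
@[reducible] noncomputable def two (o : Ob) (a : ℕ) : Ob :=
  o.pull (glue o.P o.P (o.w a) (o.w a)) Prod.fst

variable {o : Ob} {v : o.Ω × o.Ω}

theorem sc_le : sc o v ≤ o.f o.j := by classical exact Nat.findGreatest_le _

theorem sc_up (h : o.Alg) (hv : v ∈ (two o a).P.S) : |o.x.g v.2 - o.x.g v.1| ≤ 2 / 2 ^ sc o v := by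
  classical
  obtain ⟨u1, u2, -⟩ := (mem_cp _ _ v).1 hv
  refine Nat.findGreatest_spec (P := fun i => |o.x.g v.2 - o.x.g v.1| ≤ 2 / 2 ^ i) (Nat.zero_le _) ?_
  refine (abs_sub _ _).trans ?_
  linarith [(h.box _ u1).2.2.2.2.2.2.1, (h.box _ u2).2.2.2.2.2.2.1]

theorem sc_lo (e : sc o v < o.f o.j) : 1 / 2 ^ sc o v ≤ |o.x.g v.1 - o.x.g v.2| := by
  classical
  have := not_le.1 (Nat.findGreatest_is_greatest
    (P := fun i => |o.x.g v.2 - o.x.g v.1| ≤ 2 / 2 ^ i) (Nat.lt_succ_self (sc o v)) e)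
  rw [abs_sub_comm, show (1 : ℝ) / 2 ^ sc o v = 2 / 2 ^ (sc o v + 1) by rw [pow_succ]; field_simp]
  exact this.le

theorem two_alg (h : o.Alg) : (two o a).Alg := h.pull fun v hv => ((mem_cp _ _ v).1 hv).1

theorem two_l (hv : v ∈ (two o a).P.S) : o.x.l v.2 = o.x.l v.1 ∧
    fl1 a (o.x.z v.2) = fl1 a (o.x.z v.1) := Prod.mk.inj ((mem_cp _ _ v).1 hv).2.2

/-- The join. -/
noncomputable def K1 (o : Ob) (v : o.Ω × o.Ω) := ((o.S o.j v.1, o.S o.j v.2), sc o v)

/-- The meet. -/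
noncomputable def K2 (o : Ob) (a : ℕ) (v : o.Ω × o.Ω) :=
  (o.x.Bx (lab a (sc o v) o.d (o.d + sc o v)) v.1, sc o v)

/-- The body of the join. -/
noncomputable def A1 (o : Ob) (a : ℕ) (v : o.Ω × o.Ω) : Mt :=
  bm (a + (o.d + (o.f o.j - sc o v))) (a + (o.d + o.f o.j)) (rn (o.f o.j) (o.x.g v.1))

/-- The body of the meet. -/
noncomputable def A2 (o : Ob) (a : ℕ) (v : o.Ω × o.Ω) : Mt :=
  bm (a + o.d) (a + (o.d + sc o v)) (rn (sc o v) (o.x.g v.1))

theorem lab1 (h : o.Alg) (ha : a ≤ o.j) :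
    (two o a).Lab a 3 (K1 o) (A1 o a) fun v => rn o.j (o.x.z v.1) := by
  refine lab_rand (o := two o a) (s := sc o) (G := fun _ v => (o.S o.j v.1, o.S o.j v.2))
    (A := fun i v => bm (a + (o.d + (o.f o.j - i))) (a + (o.d + o.f o.j))
      (rn (o.f o.j) (o.x.g v.1))) (τ := fun _ v => rn o.j (o.x.z v.1)) fun u hu => ?_
  have := h.flo
  refine Kn.lab ((two_alg h).pull fun v hv => cE_sub hv)
    (join (x := o.x.map Prod.fst) (y := o.x.map Prod.snd) (fun v hv => (two_l (cE_sub hv)).1)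
      (fun v hv => (two_l (cE_sub hv)).2) ha (sc_le (v := u)) fun e v hv => ?_) ha le_rfl le_rfl
    ⟨by simp only; omega, by simp only; omega⟩
  obtain ⟨v1, v2⟩ := (mem_cv hu v).1 hv
  obtain ⟨u1, u2, -⟩ := (mem_cp _ _ v).1 v1
  rw [← v2] at e ⊢
  exact (sc_lo e).trans_eq (congrArg abs (congrArg₂ _ (h.box _ u1).2.2.2.2.2.2.2.symm
    (h.box _ u2).2.2.2.2.2.2.2.symm))

theorem lab2 (h : o.Alg) (ha : a ≤ o.j) :
    (two o a).Lab a 3 (K2 o a) (A2 o a) fun v => rn a (o.x.z v.1) := by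
  refine lab_rand (o := two o a) (s := sc o) (G := fun i v => o.x.Bx (lab a i o.d (o.d + i)) v.1)
    (A := fun i v => bm (a + o.d) (a + (o.d + i)) (rn i (o.x.g v.1)))
    (τ := fun _ v => rn a (o.x.z v.1)) fun u hu => ?_
  have := h.flo
  have := sc_le (v := u)
  exact Kn.lab ((two_alg h).pull fun v hv => cE_sub hv)
    ((Kn.of_fn (x := o.x.map Prod.fst) (p := lab a (sc o u) o.d (o.d + sc o u)) (Fn.rfl _)).big
      (by norm_num)) le_rfl le_rfl le_rfl ⟨by simp only [lab]; omega, by simp only [lab]; omega⟩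

theorem fin {ν ε : ℝ} {φ : ℕ} (h : o.Alg) (ha : a ≤ o.j) (hν : 0 ≤ ν) (hφ : φ ≤ o.f o.j)
    (hE : pb (two o a).P (fun v => ¬1 / 2 ^ φ ≤ |o.x.g v.2 - o.x.g v.1|) ≤ ε) :
    2 * (two o a).top ν + (2 * ν * ((1 - ε) * (o.f o.j - φ) - 1) - 4 * (o.j - a)) * lg ≤
      (two o a).Phi ν (K1 o) (A1 o a) + (two o a).Phi ν (K2 o a) (A2 o a) +
        (188 + 3 * Real.log (o.M + 1)) := by
  classical
  have a1 := sub o.P o.x.l (o.S o.j) (W := o.w a) (fun i => o.x.Bx (lab a i o.d (o.d + i))) (sc o)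
    (I := o.M) (fun v => sc_le.trans (by have := h.flo; omega)) (Fn.fst _ _)
    fun i => (Fn.fst _ _).pair (((Fn.fst _ _).trans (bx_zg (p := lab a i o.d (o.d + i)))).right _)
  have a2 := ch_rand (P := (two o a).P) (s := sc o) (G := fun v => o.S o.j v.1)
    (X := fun i v => o.x.Bx (lab a i o.d (o.d + i)) v.1) fun u _ =>
      ch_bx (x := o.x.map Prod.fst) (p := o.pm o.j) (q := lab a (sc o u) o.d (o.d + sc o u))
        (Fn.rfl _) ((fn_zg ha sc_le).trans (bx_zg (p := o.pm o.j))) (by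
          have := sc_le (v := u)
          simp only [Pm.Rd, Ob.pm, lab]; omega)
  have a3 := ch_rand (P := (two o a).P) (s := sc o) (G := fun v => o.S o.j v.2)
    (X := fun i v => o.x.Bx (lab a i o.d (o.d + i)) v.1) fun u hu =>
      meet (x := o.x.map Prod.fst) (y := o.x.map Prod.snd) (fun v hv => (two_l (cE_sub hv)).1)
        (fun v hv => (two_l (cE_sub hv)).2) ha (sc_le (v := u)) fun v hv => by
          obtain ⟨v1, v2⟩ := (mem_cv hu v).1 hv
          rw [← v2]; exact sc_up h v1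
  have a4 := (tg.fst o.P o.P (o.w a) (o.w a)).ch_id o.x.l (o.S o.j)
  have a5 : (two o a).P.E (fun v => (4 * (a + o.d) + 2 * o.f o.j - 2 * ν * (φ + 1)) * lg -
      2 * ν * (o.f o.j - φ) * lg * if ¬1 / 2 ^ φ ≤ |o.x.g v.2 - o.x.g v.1| then 1 else 0) ≤
      (two o a).P.E fun v => (A1 o a v).val ν + (A2 o a v).val ν := FP.E_mono _ fun v hv => by
    have b1 := sc_le (v := v)
    have b2 : (sc o v : ℝ) ≤ φ + 1 +
        (o.f o.j - φ) * if ¬1 / 2 ^ φ ≤ |o.x.g v.2 - o.x.g v.1| then 1 else 0 := by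
      split_ifs with q
      · have := q.trans (sc_up h hv)
        rw [div_le_div_iff₀ (by positivity) (by positivity), one_mul, ← pow_succ'] at this
        have := (pow_le_pow_iff_right₀ one_lt_two).1 this
        rw [mul_zero, add_zero]; exact_mod_cast this
      · linarith [(Nat.cast_le (α := ℝ)).2 b1]
    have b3 := mul_le_mul_of_nonneg_left b2 (show 0 ≤ 2 * ν * lg by have := lg_pos; positivity)
    have v1 := ((mem_cp _ _ v).1 hv).1
    rw [A1, A2, bm_val _ _ _ (h.rn _ v1), bm_val _ _ _ (h.rn _ v1),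
      max_eq_right (by omega), max_eq_right (by omega)]
    simp only [Nat.cast_add, Nat.cast_sub b1]
    linarith
  rw [FP.E_sub, FP.E_const, FP.E_mul, FP.E_add] at a5
  have a6 : 2 * ν * (o.f o.j - φ) * lg * (two o a).P.E
      (fun v => if ¬1 / 2 ^ φ ≤ |o.x.g v.2 - o.x.g v.1| then 1 else 0) ≤
      2 * ν * (o.f o.j - φ) * lg * ε := mul_le_mul_of_nonneg_left
      (le_of_eq_of_le (FP.E_congr _ fun _ _ => by congr) hE) (by
        have := lg_pos
        have := sub_nonneg.2 ((Nat.cast_le (α := ℝ)).2 hφ)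
        positivity)
  rw [← a4] at a1
  change 2 * ch (two o a).P (two o a).x.l ((two o a).S o.j) ≤ ch (two o a).P (two o a).x.l (K1 o) +
    ch (two o a).P (two o a).x.l (K2 o a) + _ + _ + _ at a1
  simp only [Ob.Phi, Ob.top]
  linarith

end Fin

end AngA

attribute [local irreducible] ch mi pb fl1

open AngA in
/-- If the frame cannot be guessed to depth `φ` from the line and the window of level `a`, then
`φ` is close to the depth of the frame. -/
theorem ang {ν β κ : ℝ} {o : ℕ → Ob} {k R a φ : ℕ → ℕ} (hν : 0 ≤ ν) (hβ : 0 ≤ β)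
    (h : XT ν β κ o k R) (ha : In k R a a) (hφ : ∀ᶠ n in UF, φ n ≤ (o n).f (o n).j)
    (na : NA (oP o) (fun n => (o n).x.g) (fun n => 1 / 2 ^ φ n) fun n => (o n).w (a n)) :
    Le R (fun n => ν * ((o n).f (o n).j - φ n)) fun n => 2 * ((o n).j - a n) := by
  have l0 := lg_pos
  have e : ∀ᶠ n in UF, (o n).Alg ∧ a n ≤ (o n).j :=
    (h.alg.and ha).mono fun n u => ⟨u.1.1, u.2.2.2.trans u.1.2⟩
  have op := h.opt _ _ _ (dn_fst (oP o) (oP o) (fun n => (o n).w (a n)) fun n => (o n).w (a n))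
  have a1 := op a (fun _ => 3) _ _ _ _ ha (h.big.sub (by norm_num)) (e.mono fun n u => lab1 u.1 u.2)
  have a2 := op a (fun _ => 3) _ _ _ _ ha (h.big.sub (by norm_num)) (e.mono fun n u => lab2 u.1 u.2)
  have a3 : Sm R fun n => Real.log ((o n).M + 1) := fun δ hδ => (h.lgM.2 δ hδ).mono fun n u => by
    rw [zero_add]; exact (Real.log_le_iff_le_exp (by positivity)).2 u
  have key : ∀ ε : ℝ, 0 < ε → Le R (fun n => (1 - ε) * (ν * ((o n).f (o n).j - φ n)))
      fun n => 2 * ((o n).j - a n) := fun ε hε => by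
    refine Le.of_mul (p := fun _ => 2 * lg) (by positivity) (Eventually.of_forall fun _ => le_rfl)
      (Le.of4 a1 a2 (a3.smul zero_le_three) (h.big.sm (188 + 2 * ν * lg)) ?_)
    filter_upwards [e, hφ, na.copy (fun n => (o n).x.g) ε hε] with n u v w
    have b1 := fin u.1 u.2 hν v w
    have b2 : 0 ≤ β * ((o n).j - a n) * lg := by
      have := sub_nonneg.2 ((Nat.cast_le (α := ℝ)).2 u.2)
      positivity
    simp only [two] at b1
    linarith
  intro ε hε
  filter_upwards [key (1 / 2) one_half_pos 1 one_pos, key (ε / 12) (by positivity) (ε / 2)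
    (half_pos hε), ha, h.top] with n u v w t
  have b1 : ((o n).j : ℝ) ≤ a n + R n := by exact_mod_cast (by omega)
  have b2 := mul_le_mul_of_nonneg_left (show ν * ((o n).f (o n).j - φ n) ≤ 6 * R n by linarith)
    (show 0 ≤ ε / 12 by positivity)
  linarith

end Pool.Agent.MP_5168f5_an.MX
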