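import Pool.Agent.MP_5168f5_an.MX.ALMain
import Pool.Agent.MP_5168f5_an.MX.ABW

/-! A symmetric form in two almost independent vectors: definitions and the rank. -/

namespace Pool.Agent.MP_5168f5_an.MX.AL

open H19 H17S H17F Filter AB ALBA

/-- The symmetric form. -/
def bl (d w : ℤ × ℤ) : ℝ := d.1 * w.2 + d.2 * w.1

/-- The determinant of two vectors. -/
def de (a b : ℤ × ℤ) : ℝ := a.1 * b.2 - a.2 * b.1

theorem bl_comm (d w : ℤ × ℤ) : bl d w = bl w d := by unfold bl; ring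

variable {Ω T : ℕ → Type} {P : ∀ n, FP (Ω n)} {θ : ∀ n, Ω n → T n} {d w : ∀ n, Ω n → ℤ × ℤ}
  {L : ∀ n, T n → Lv} {M : ℕ → ℕ} {Λ : ℕ → ℝ} {x β : ℝ}

/-- Rate at least `β` from the top on every event of every extension. -/
def Rob (P : ∀ n, FP (Ω n)) (θ : ∀ n, Ω n → T n) (X : ∀ n, Ω n → ℤ × ℤ) (M : ℕ → ℕ) (β : ℝ) :
    Prop := ∀ (Ω' : ℕ → Type) (Q : ∀ n, FP (Ω' n)) (f : ∀ n, Ω' n → Ω n) (E : ∀ n, Ω' n → Prop)
  (j : ℕ → ℕ), (∀ n, Law (Q n) (f n) (P n) id) → Pos Q E → Frac j M →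
    Le M (fun n => β * j n * lg) fun n => ch (cE (Q n) (E n))
      (fun v => dn2 (M n - j n) (X n (f n v))) fun v => θ n (f n v)

/-- The form stays near the first level. -/
structure Cr (x : ℝ) (P : ∀ n, FP (Ω n)) (θ : ∀ n, Ω n → T n) (d w : ∀ n, Ω n → ℤ × ℤ)
    (L : ∀ n, T n → Lv) (M : ℕ → ℕ) (Λ : ℕ → ℝ) : Prop where
  big : Big M
  sub : Sub M Λ
  bd : ∀ᶠ n in UF, ∀ ω ∈ (P n).S, Bx (Λ n * 2 ^ M n) (d n ω) ∧ Bx (Λ n * 2 ^ M n) (w n ω)
  nr : Whp P fun n ω => Nr ((L n (θ n ω)).S 1) (Λ n) (bl (d n ω) (w n ω) / 2 ^ M n)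
  inf : Sm M fun n => mi (P n) (d n) (w n) (θ n)
  cov : Cvq x M P θ L

theorem Cr.swap (h : Cr x P θ d w L M Λ) : Cr x P θ w d L M Λ :=
  ⟨h.big, h.sub, h.bd.mono fun _ a ω hω => (a ω hω).symm,
    h.nr.mono (.of_forall fun n ω _ a => bl_comm (d n ω) (w n ω) ▸ a),
    h.inf.mono (.of_forall fun _ => (mi_symm _ _ _).le), h.cov⟩

theorem sm_mi_cE {α β γ : ℕ → Type} {E : ∀ n, Ω n → Prop} {F : ∀ n, Ω n → α n}
    {G : ∀ n, Ω n → β n} {K : ∀ n, Ω n → γ n} (hM : Big M) (hE : Pos P E)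
    (h : Sm M fun n => mi (P n) (F n) (G n) (K n)) :
    Sm M fun n => mi (cE (P n) (E n)) (F n) (G n) (K n) := by
  obtain ⟨p, hp, hq⟩ := hE
  exact Le.of_mul hp hq (Le.of2 h (hM.sm lg) (.of_forall fun n => by
    linarith [mi_cE (P n) (E n) (F n) (G n) (K n)]))

theorem Cr.cond (h : Cr x P θ d w L M Λ) {E : ∀ n, Ω n → Prop} (hE : Pos P E) :
    Cr x (fun n => cE (P n) (E n)) θ d w L M Λ :=
  ⟨h.big, h.sub, h.bd.mono fun _ a ω hω => a ω (cE_sub hω), h.nr.cE hE,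
    sm_mi_cE h.big hE h.inf, fun q ε hε => (h.cov q ε hε).cE hE⟩

theorem law_cE_bind {Ω Ω' : Type} (P : FP Ω) (K : Ω → FP Ω') {E : Ω → Prop}
    (h : ∃ ω ∈ P.S, E ω) :
    Law (cE (H17F.bind P K) fun v => E v.1) id (H17F.bind (cE P E) K) id := fun F => by
  classical
  have h1 : pb (H17F.bind P K) (fun v => E v.1) = pb P E :=
    KGA.E_bind_fst P K fun a => if E a then 1 else 0
  refine mul_left_cancel₀ (pb_pos P h).ne' ?_
  have h2 := E_cE (H17F.bind P K) (fun v => E v.1) F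
  rw [h1, E_bind] at h2
  rw [E_bind, E_cE]
  refine h2.trans (P.E_congr fun a _ => ?_)
  by_cases e : E a
  · simp only [e, if_true, id]
  · simp only [e, if_false]; exact FP.E_const _ 0

theorem Rob.cond (h : Rob P θ w M β) {E₀ : ∀ n, Ω n → Prop} (h₀ : Pos P E₀) :
    Rob (fun n => cE (P n) (E₀ n)) θ w M β := by
  intro Ω' Q f E j l hE fj
  have l1 : ∀ᶠ n in UF, Law (cE (glue (P n) (Q n) id (f n)) fun v => E₀ n v.1) id
      (glue (cE (P n) (E₀ n)) (Q n) id (f n)) id := h₀.ex.mono fun n a => law_cE_bind _ _ a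
  have l2 := fun n => kg.snd (cE (P n) (E₀ n)) (Q n) id (f n) (l n).symm
  have p : Pos (fun n => glue (P n) (Q n) id (f n)) fun n v => E₀ n v.1 ∧ E n v.2 :=
    Pos.of_cE (h₀.imp fun κ a => ⟨a.1, a.2.mono fun n e =>
      e.trans ((kg.fst (P n) (Q n) id (f n)).pb_eq (E₀ n)).ge⟩)
      (hE.imp fun κ a => ⟨a.1, (a.2.and l1).mono fun n e =>
        e.1.trans (((e.2.comp Prod.snd).trans (l2 n)).pb_eq (E n)).ge⟩)
  refine (h _ _ (fun _ => Prod.fst) _ j (fun n => kg.fst _ _ _ _) p fj).trans (Le.of_ev ?_)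
  filter_upwards [l1, p.ex] with n a b
  rw [← cE_cE b]
  refine le_of_eq (((ke.law _ _ _ _ (fun v => E n v.2) a).ch_id
    (fun v => dn2 (M n - j n) (w n v.1)) fun v => θ n v.1).trans ((ch_ext (fun v hv => ?_)
      fun v hv => ?_).trans ((ke.law _ _ _ _ (E n) (l2 n)).ch_id
        (fun v => dn2 (M n - j n) (w n (f n v))) fun v => θ n (f n v)))) <;>
    rw [((kg.mem _ _ _ _ v (l n).symm).1 (cE_sub hv)).2.2] <;> rfl

theorem abs_bl {a b : ℤ × ℤ} {r s : ℝ} (h : Bx r a) (h' : Bx s b) : |bl a b| ≤ 2 * (r * s) :=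
  abs_row h.1 h.2 h'.2 h'.1

theorem abs_de {a b : ℤ × ℤ} {r s : ℝ} (h : Bx r a) (h' : Bx s b) : |de a b| ≤ 2 * (r * s) := by
  have := abs_row (q := -(a.2 : ℝ)) h.1 (by rw [abs_neg]; exact h.2) h'.2 h'.1
  rwa [neg_mul, ← sub_eq_add_neg] at this

/-- The top digits of a variable near the first level. -/
theorem top_le {y : ∀ n, Ω n → ℝ} {i : ℕ → ℕ} (h0 : 0 ≤ x) (hM : Big M) (hΛ : Sub M Λ)
    (fi : Frac i M) (hb : ∀ᶠ n in UF, ∀ ω ∈ (P n).S, |y n ω| ≤ Λ n * 2 ^ M n)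
    (hn : Whp P fun n ω => Nr ((L n (θ n ω)).S 1) (Λ n) (y n ω)) (hc : Cvq x M P θ L) :
    Le M (fun n => ch (P n) (fun ω => dn (M n - i n) (y n ω)) (θ n)) fun n => x * i n * lg := by
  refine (rowCV.ent _ _ P θ (fun n ω => dn (M n - i n) (y n ω))
    (fun n t => {s | 2 ^ (M n - i n) * s ∈ (L n t).S 1}) i _ x h0 (hM.frac fi)
    ((hΛ.const_mul hM one_le_two).frac fi) (hb.mono fun n a ω hω => ?_) fun ε hε => ?_).up fi.1
  · have p : (0 : ℝ) < 2 ^ (M n - i n) := by positivity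
    have p1 : (1 : ℝ) ≤ 2 ^ i n := one_le_pow₀ one_le_two
    have e : (2 : ℝ) ^ M n = 2 ^ i n * 2 ^ (M n - i n) := by
      rw [← pow_add, Nat.add_sub_cancel' (fi.1 n)]
    have c : |y n ω / 2 ^ (M n - i n)| ≤ Λ n * 2 ^ i n := by
      rw [abs_div, abs_of_pos p, div_le_iff₀ p, mul_assoc, ← e]; exact a ω hω
    have u := abs_le.1 (abs_dn (M n - i n) (y n ω))
    have v := abs_le.1 c
    rw [abs_le]; constructor <;> nlinarith [u.1, u.2, v.1, v.2, hΛ.1 n]
  · obtain ⟨h1, c, hc', h2⟩ := fi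
    refine (hn.and (hc 1 (ε * c) (by positivity))).mono (h2.mono fun n a ω _ ⟨⟨s, s1, s2⟩, k⟩ =>
      ⟨⟨s / 2 ^ (M n - i n), ?_, ?_⟩, rowCV.mono _ _ x _ _ _ _
        (rowCV.pow _ x _ (M n) (M n - i n) k (Nat.sub_le _ _)) subset_rfl
        (by have := h1 n; omega) (by nlinarith)⟩)
    · show 2 ^ (M n - i n) * (s / 2 ^ (M n - i n)) ∈ (L n (θ n ω)).S 1
      rwa [mul_div_cancel₀ _ (by positivity)]
    · have p : (1 : ℝ) ≤ 2 ^ (M n - i n) := one_le_pow₀ one_le_two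
      have c : |y n ω / 2 ^ (M n - i n) - s / 2 ^ (M n - i n)| ≤ Λ n := by
        rw [← sub_div, abs_div, abs_of_pos (by positivity : (0 : ℝ) < 2 ^ (M n - i n)),
          div_le_iff₀ (by positivity)]
        exact s2.trans (le_mul_of_one_le_right (hΛ.pos n).le p)
      have u := abs_le.1 (abs_dn (M n - i n) (y n ω))
      have v := abs_le.1 c
      rw [abs_le]; constructor <;> linarith [u.1, u.2, v.1, v.2, hΛ.1 n]

theorem ch_dn2 {Ω γ : Type} {P : FP Ω} {F : Ω → ℤ × ℤ} {G : Ω → γ} {r : ℝ} {i : ℕ} (hr : 0 ≤ r)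
    (h : ∀ a ∈ P.S, ∀ b ∈ P.S, G a = G b →
      |((F a).1 : ℝ) - (F b).1| ≤ r * 2 ^ i ∧ |((F a).2 : ℝ) - (F b).2| ≤ r * 2 ^ i) :
    ch P (fun ω => dn2 i (F ω)) G ≤ 2 * Real.log (2 * r + 3) := by
  have h1 := ch_subadd (P := P) (fun ω => dn i (F ω).1) (fun ω => dn i (F ω).2) G
  have h2 := ch_dn (y := fun ω => ((F ω).1 : ℝ)) hr fun a ha b hb e => (h a ha b hb e).1
  have h3 := ch_dn (y := fun ω => ((F ω).2 : ℝ)) hr fun a ha b hb e => (h a ha b hb e).2
  exact h1.trans (by linarith)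

theorem near3 {B y r s u v a b c : ℝ} (hB : s ≤ |B|) (hs : 0 < s) (hu : |u| ≤ r) (hv : |v| ≤ r)
    {t : ℝ} (ha : |a| ≤ s * t) (hb : |b| ≤ s * t) (hc : |c| ≤ s * t)
    (e : B * y = c * u + (a - b) * v) : |y| ≤ 3 * r * t := by
  have r0 := (abs_nonneg u).trans hu
  have k1 : |c * u| ≤ s * t * r := by
    rw [abs_mul]; exact mul_le_mul hc hu (abs_nonneg _) ((abs_nonneg _).trans hc)
  have k2 : |(a - b) * v| ≤ 2 * (s * t) * r := by
    rw [abs_mul]
    exact mul_le_mul (by linarith [abs_sub a b]) hv (abs_nonneg _)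
      (by linarith [(abs_nonneg _).trans hc])
  have k3 : |B| * |y| ≤ s * (3 * r * t) := by
    rw [← abs_mul, e]; linarith [abs_add_le (c * u) ((a - b) * v)]
  exact le_of_mul_le_mul_left ((mul_le_mul_of_nonneg_right hB (abs_nonneg y)).trans k3) hs

/-- Two partners of the same vector span the plane. -/
theorem rank {Ω' : ℕ → Type} {Q : ∀ n, FP (Ω' n)} {f g : ∀ n, Ω' n → Ω n} {j k : ℕ → ℕ} {η : ℝ}
    (h0 : 0 ≤ x) (h : Cr x P θ d w L M Λ) (r : Rob P θ w M β) (fj : Frac j M)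
    (hjk : ∀ n, j n + k n ≤ M n) (hη : 0 < η)
    (num : ∀ᶠ n in UF, x * (j n + k n : ℕ) * lg + η * M n ≤ β * j n * lg)
    (lo : ∀ᶠ n in UF, ∀ ω ∈ (P n).S, 2 ^ M n * 2 ^ (M n - k n) ≤ |bl (d n ω) (w n ω)|)
    (lf : ∀ n, Law (Q n) (f n) (P n) id) (lg' : ∀ n, Law (Q n) (g n) (P n) id)
    (e : ∀ n, ∀ v ∈ (Q n).S, d n (g n v) = d n (f n v))
    (hi : Sm M fun n => mi (Q n) (fun v => w n (g n v)) (fun v => (d n (f n v), w n (f n v)))
      fun v => θ n (g n v)) :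
    Whp Q fun n v => 2 ^ M n * 2 ^ (M n - (j n + k n)) ≤ |de (w n (f n v)) (w n (g n v))| := by
  by_contra hn
  have hE := not_whp hn
  have hM := h.big
  generalize hD : (fun n v => ¬(2 : ℝ) ^ M n * 2 ^ (M n - (j n + k n)) ≤
    |de (w n (f n v)) (w n (g n v))|) = E at hE
  have h1 := r _ Q g E j lg' hE fj
  have fi : Frac (fun n => j n + k n) M := ⟨hjk, fj.2.imp fun c a => ⟨a.1, a.2.mono fun n b =>
    b.trans (by exact_mod_cast Nat.le_add_right _ _)⟩⟩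
  have h2 := top_le (P := fun n => cE (Q n) (E n)) (θ := fun n v => θ n (g n v)) (L := L)
    (y := fun n v => bl (d n (g n v)) (w n (g n v)) / 2 ^ M n) h0 hM
    ((h.sub.mul h.sub).const_mul hM one_le_two) fi (h.bd.mono fun n a v hv => by
      have m := a _ ((lg' n).mem (cE_sub hv))
      rw [abs_div, abs_of_pos (by positivity : (0 : ℝ) < 2 ^ M n), div_le_iff₀ (by positivity)]
      exact (abs_bl m.1 m.2).trans (le_of_eq (by ring)))
    (((ABGrpA.whp_law h.nr lg').cE hE).mono (.of_forall fun n v _ a =>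
      ABW.Nr.mono a (by nlinarith [h.sub.1 n])))
    fun q ε hε => (ABGrpA.whp_law (h.cov q ε hε) lg').cE hE
  have h3 := sm_mi_cE hM hE hi
  have h4 : Le M (fun n => β * j n * lg) fun n => x * (j n + k n : ℕ) * lg := by
    refine h1.of4 h2 h3 ((h.sub.const_mul hM (C := 3) (by norm_num)).log3 hM 2) ?_
    filter_upwards [hE.sure, h.bd, lo] with n a b c
    have k1 := ch_le_mi (P := cE (Q n) (E n)) (F := fun v => dn2 (M n - j n) (w n (g n v)))
      (G := fun v => (d n (f n v), w n (f n v))) (K := fun v => θ n (g n v)) (Fn.rfl _)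
    have k2 := mi_mono' (P := cE (Q n) (E n)) (F := fun v => dn2 (M n - j n) (w n (g n v)))
      (G := fun v => (d n (f n v), w n (f n v))) (K := fun v => θ n (g n v))
      ((Fn.comp (dn2 (M n - j n)) fun v => w n (g n v)).left _)
    have k3 := ch_tri (P := cE (Q n) (E n)) (fun v => dn2 (M n - j n) (w n (g n v)))
      (fun v => dn (M n - (j n + k n)) (bl (d n (g n v)) (w n (g n v)) / 2 ^ M n))
      fun v => ((d n (f n v), w n (f n v)), θ n (g n v))
    have k4 := ch_anti (P := cE (Q n) (E n))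
      (F := fun v => dn (M n - (j n + k n)) (bl (d n (g n v)) (w n (g n v)) / 2 ^ M n))
      (Fn.snd (fun v => (d n (f n v), w n (f n v))) fun v => θ n (g n v))
    have k5 := ch_dn2 (P := cE (Q n) (E n)) (F := fun v => w n (g n v)) (i := M n - j n)
      (G := fun v => (dn (M n - (j n + k n)) (bl (d n (g n v)) (w n (g n v)) / 2 ^ M n),
        (d n (f n v), w n (f n v)), θ n (g n v))) (r := 3 * Λ n)
      (by linarith [h.sub.1 n]) fun u hu v hv z => by
        obtain ⟨u1, u2⟩ := a u hu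
        obtain ⟨v1, v2⟩ := a v hv
        subst hD
        simp only [Prod.mk.injEq] at z
        obtain ⟨z1, ⟨z2, z3⟩, -⟩ := z
        have m := b _ ((lf n).mem v1)
        have z4 := (abs_sub_of_dn z1).le
        rw [e n u u1, e n v v1, z2, ← sub_div, abs_div,
          abs_of_pos (by positivity : (0 : ℝ) < 2 ^ M n), div_le_iff₀ (by positivity)] at z4
        rw [not_le] at u2 v2
        rw [z3] at u2
        have p : (2 : ℝ) ^ M n * 2 ^ (M n - (j n + k n)) =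
            2 ^ M n * 2 ^ (M n - k n) * (2 ^ j n)⁻¹ := by
          rw [show M n - k n = M n - (j n + k n) + j n by have := hjk n; omega, pow_add]
          field_simp
        have q : 3 * Λ n * 2 ^ (M n - j n) = 3 * (Λ n * 2 ^ M n) * (2 ^ j n)⁻¹ := by
          conv_rhs => rw [← Nat.sub_add_cancel (fj.1 n), pow_add]
          field_simp
        rw [mul_comm, p] at z4
        rw [p] at u2 v2
        rw [q]
        exact ⟨near3 (c _ ((lf n).mem v1)) (by positivity) m.2.1 m.1.1 v2.le u2.le z4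
            (by unfold bl de; ring),
          near3 (c _ ((lf n).mem v1)) (by positivity) m.2.2 m.1.2 u2.le v2.le z4
            (by unfold bl de; ring)⟩
    linarith
  exact h4.false hM hη num

end Pool.Agent.MP_5168f5_an.MX.AL
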