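import Pool.Agent.MP_5168f5_an.MX.CoreA

/-! A symmetric form in two almost independent vectors: copies and linear algebra. -/

namespace Pool.Agent.MP_5168f5_an.MX.AL

open H19 H17S H17F Filter AB ALBA

open DiagA (small le_of sub_of) in
/-- The bound for forms with a small exponential loss in the constants. -/
theorem alg4q {x y : ℝ} (h0 : 0 ≤ x) (h1 : x < 1) (hy : 2 * x < y) : ∃ δ : ℝ, 0 < δ ∧
    ∀ (z : ℕ → Q4) (M : ℕ → ℕ) (Λ : ℕ → ℝ), Big M → (∀ᶠ n in UF, 1 ≤ Λ n ∧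
      Λ n ≤ Real.exp (δ * M n) ∧ ∀ ω ∈ (z n).P.S, (z n).Bd (M n) (Λ n) ω) →
      Whp (fun n => (z n).P) (fun n => (z n).In (M n) (Λ n)) →
      Sm M (fun n => mi (z n).P (z n).a (z n).b (z n).θ) → (∀ (q : ℕ) (ε : ℝ), 0 < ε →
        Whp (fun n => (z n).P) fun n => (z n).Cv x (M n) q (ε * M n)) →
      Le M (fun n => (z n).ha + (z n).hb) fun n => y * M n * lg := by
  by_contra hn
  push Not at hn
  have ex : ∀ k : ℕ, ∃ z m Λ, ALDiagA.At x y 0 k (1 / (k + 1 : ℝ)) z m Λ := fun k => by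
    have p : (0 : ℝ) < 1 / (k + 1 : ℝ) := by positivity
    obtain ⟨z, M, Λ, a1, a2, a3, a4, a5, a6⟩ := hn _ p
    obtain ⟨ε, hε, a7⟩ := not_Le a6
    have a8 : ∀ᶠ n in UF, ∀ q ∈ Finset.range (k + 1), pb (z n).P
        (fun ω => ¬(z n).Cv x (M n) q (1 / (k + 1 : ℝ) * M n) ω) ≤ 1 / (k + 1 : ℝ) :=
      (eventually_all_finset _).2 fun q _ => a5 q _ p _ p
    obtain ⟨n, b1, b2, b3, b4, b5, b6⟩ := ((a1.ev k).and (a2.and ((a3 _ p).and ((a4 _ p).and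
      (a8.and a7))))).exists
    have c1 : 0 ≤ 1 / (k + 1 : ℝ) * M n := by positivity
    have c2 : 0 ≤ ε * M n := by positivity
    exact ⟨z n, M n, Λ n, by exact_mod_cast b1, b2.1, b2.2.1, b2.2.2, b3, b4,
      fun q hq => b5 q (Finset.mem_range.2 (Nat.lt_succ_of_le hq)), by linarith,
      by rw [zero_mul, zero_mul]; exact add_nonneg (ch_nonneg _ _) c1⟩
  choose z M Λ H using ex
  have hM : Big M := tendsto_atTop.2 fun b => (ev_ge b).mono fun k hk => hk.trans (H k).big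
  have k := (le_of fun k => (H k).sum).trans (alg4 x h0 h1 z M ⟨hM,
    ⟨Λ, sub_of (fun k => (H k).one) fun k => (H k).sub, .of_forall fun k => (H k).bd,
      fun ε hε => (small hε).mono fun k hk => (H k).inn.trans hk⟩,
    le_of fun k => (H k).inf, fun q ε hε ε' hε' => by
      filter_upwards [small hε, small hε', ev_ge q] with k a b c
      have e := mul_le_mul_of_nonneg_right a (Nat.cast_nonneg (α := ℝ) (M k))
      exact (pb_mono fun ω _ u v => u ⟨ABDiagA.cov_mono v.1 e, ABDiagA.cov_mono v.2.1 e,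
        ABDiagA.cov_mono v.2.2 e⟩).trans (((H k).cov q c).trans b)⟩)
  exact k.false hM (mul_pos (sub_pos.2 hy) lg_pos) (.of_forall fun n => le_of_eq (by ring))

section Copy

variable {Ω Ω' α β δ ε T : Type} {P : FP Ω} {Q : FP Ω'} {π : Ω' → Ω}

/-- A new point with the same `Y` and `θ` as the base point. -/
noncomputable def cp (Q : FP Ω') (π : Ω' → Ω) (P : FP Ω) (Y : Ω → β) (θ : Ω → T) :
    FP (Ω' × Ω) :=
  glue Q P (fun u => ph Y (fun _ => ()) θ (π u)) (ph Y (fun _ => ()) θ)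

variable {Y : Ω → β} {θ : Ω → T}

theorem cp_fst : Law (cp Q π P Y θ) Prod.fst Q id := kg.fst _ _ _ _

theorem cp_snd (l : Law Q π P id) : Law (cp Q π P Y θ) Prod.snd P id :=
  kg.snd _ _ _ _ (l.comp (ph Y (fun _ => ()) θ))

theorem cp_mem (l : Law Q π P id) {v : Ω' × Ω} (hv : v ∈ (cp Q π P Y θ).S) :
    Y v.2 = Y (π v.1) ∧ θ v.2 = θ (π v.1) := (mem l hv).2.2.2

theorem cp_new (l : Law Q π P id) (X : Ω → α) (B : Ω' → δ) :
    mi (cp Q π P Y θ) (fun v => X v.2) (fun v => B v.1) (fun v => θ (π v.1)) ≤ mi P X Y θ := by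
  have h1 : ch (cp Q π P Y θ) (fun v => X v.2) (fun v => θ (π v.1)) =
      ch (cp Q π P Y θ) (fun v => X v.2) fun v => θ v.2 :=
    ch_ext (fun _ _ => rfl) fun v hv => (cp_mem l hv).2.symm
  have h2 := (cp_snd (Y := Y) (θ := θ) l).ch_id X θ
  have h3 : ch (cp Q π P Y θ) (fun v => X v.2) _ = _ :=
    fresh (X := X) (Y := Y) (g := fun _ => ()) (θ := θ) l B
  have h4 : ch (cp Q π P Y θ) (fun v => X v.2) (fun v => (ph Y (fun _ => ()) θ (π v.1), B v.1)) ≤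
      ch (cp Q π P Y θ) (fun v => X v.2) fun v => (B v.1, θ (π v.1)) :=
    ch_anti fun a _ b _ e => by
      simp only [ph, Prod.mk.injEq] at e
      simp only [e.2, e.1.2.2]
  have h5 : ch P X (fun ω => (Y ω, θ ω)) ≤ ch P X (ph Y (fun _ => ()) θ) :=
    ch_anti fun a _ b _ e => by
      simp only [Prod.mk.injEq] at e
      simp only [ph, e.1, e.2]
  unfold mi
  linarith

theorem cp_step (l : Law Q π P id) (X : Ω → α) (A : Ω' → ε) (B : Ω' → δ) :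
    mi (cp Q π P Y θ) (fun v => A v.1) (fun v => (B v.1, X v.2)) (fun v => θ (π v.1)) ≤
      mi Q A B (fun u => θ (π u)) + mi P X Y θ := by
  have h1 := mi_chain (P := cp Q π P Y θ) (fun v => A v.1) (fun v => B v.1) (fun v => X v.2)
    fun v => θ (π v.1)
  have h2 := (cp_fst (Q := Q) (π := π) (P := P) (Y := Y) (θ := θ)).mi_id A B fun u => θ (π u)
  have h3 := cp_new (Y := Y) (θ := θ) l X fun u => (A u, B u)
  have h4 : mi (cp Q π P Y θ) (fun v => X v.2) (fun v => A v.1) (fun v => (B v.1, θ (π v.1))) ≤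
      mi (cp Q π P Y θ) (fun v => X v.2) (fun v => (A v.1, B v.1)) fun v => θ (π v.1) :=
    mi_right (Fn.snd _ _) (fun a _ b _ e => by simp only [Prod.mk.injEq] at e ⊢; tauto)
      fun a _ b _ e => by simp only [Prod.mk.injEq] at e; tauto
  rw [mi_symm] at h4
  linarith

theorem mi_ctx {F : Ω → α} {G : Ω → β} {K K' : Ω → T} (h : ∀ v ∈ P.S, K v = K' v) :
    mi P F G K = mi P F G K' := congrArg₂ (· - ·) (ch_ext (fun _ _ => rfl) h)
      (ch_ext (fun _ _ => rfl) fun v hv => congrArg _ (h v hv))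

/-- A point with two partners for each of its two variables. -/
theorem five (P : FP Ω) (θ : Ω → T) (d w : Ω → α) : ∃ (Ω' : Type) (Q : FP Ω')
    (π π₁ π₂ π₃ π₄ : Ω' → Ω), (Law Q π P id ∧ Law Q π₁ P id ∧ Law Q π₂ P id ∧ Law Q π₃ P id ∧
      Law Q π₄ P id) ∧ (∀ v ∈ Q.S, (d (π₁ v) = d (π v) ∧ θ (π₁ v) = θ (π v)) ∧
      (d (π₂ v) = d (π v) ∧ θ (π₂ v) = θ (π v)) ∧ (w (π₃ v) = w (π v) ∧ θ (π₃ v) = θ (π v)) ∧
        w (π₄ v) = w (π v) ∧ θ (π₄ v) = θ (π v)) ∧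
    mi Q (fun v => w (π₂ v)) (fun v => (d (π₁ v), w (π₁ v))) (fun v => θ (π₂ v)) ≤ mi P d w θ ∧
    mi Q (fun v => d (π₄ v)) (fun v => (w (π₃ v), d (π₃ v))) (fun v => θ (π₄ v)) ≤ mi P d w θ ∧
    mi Q (fun v => (d (π v), w (π v))) (fun v => ((w (π₁ v), w (π₂ v)), d (π₃ v), d (π₄ v)))
      (fun v => θ (π v)) ≤ 4 * mi P d w θ := by
  have l0 : Law P (fun u => u) P id := Law.rfl _
  have s := mi_symm (P := P) d w θ
  have a0 : mi P (fun u => (d u, w u)) (fun _ => ()) θ ≤ 0 :=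
    (mi_symm _ _ _).trans_le ((mi_le _ _ _).trans (ch_zero fun _ _ _ _ _ => rfl).le)
  have a1 := cp_step (Y := d) (θ := θ) l0 w (fun u => (d u, w u)) fun _ => ()
  have f1 := cp_fst (Q := P) (π := fun u => u) (P := P) (Y := d) (θ := θ)
  have s1 := cp_snd (Y := d) (θ := θ) l0
  have m1 := fun v => cp_mem (Y := d) (θ := θ) (v := v) l0
  generalize cp P (fun u => u) P d θ = Q₁ at a1 f1 s1 m1
  have a2 := cp_step (Y := d) (θ := θ) f1 w (fun u => (d u.1, w u.1)) fun u => ((), w u.2)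
  have n2 := cp_new (Y := d) (θ := θ) f1 w fun u => (d u.2, w u.2)
  have f2 := cp_fst (Q := Q₁) (π := Prod.fst) (P := P) (Y := d) (θ := θ)
  have s2 := cp_snd (Y := d) (θ := θ) f1
  have m2 := fun v => cp_mem (Y := d) (θ := θ) (v := v) f1
  generalize cp Q₁ Prod.fst P d θ = Q₂ at a2 n2 f2 s2 m2
  have l2 := (f2.comp Prod.fst).trans f1
  have a3 := cp_step (Y := w) (θ := θ) l2 d (fun u => (d u.1.1, w u.1.1))
    fun u => (((), w u.1.2), w u.2)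
  have f3 := cp_fst (Q := Q₂) (π := fun u => u.1.1) (P := P) (Y := w) (θ := θ)
  have s3 := cp_snd (Y := w) (θ := θ) l2
  have m3 := fun v => cp_mem (Y := w) (θ := θ) (v := v) l2
  generalize cp Q₂ (fun u => u.1.1) P w θ = Q₃ at a3 f3 s3 m3
  have l3 := (f3.comp fun u => u.1.1).trans l2
  have a4 := cp_step (Y := w) (θ := θ) l3 d (fun u => (d u.1.1.1, w u.1.1.1))
    fun u => ((((), w u.1.1.2), w u.1.2), d u.2)
  have n4 := cp_new (Y := w) (θ := θ) l3 d fun u => (w u.2, d u.2)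
  have f4 := cp_fst (Q := Q₃) (π := fun u => u.1.1.1) (P := P) (Y := w) (θ := θ)
  have s4 := cp_snd (Y := w) (θ := θ) l3
  have m4 := fun v => cp_mem (Y := w) (θ := θ) (v := v) l3
  generalize cp Q₃ (fun u => u.1.1.1) P w θ = Q₄ at a4 n4 f4 s4 m4
  have g2 : Law Q₄ (fun v => v.1.1) Q₂ id := (f4.comp Prod.fst).trans f3
  refine ⟨_, Q₄, fun v => v.1.1.1.1, fun v => v.1.1.1.2, fun v => v.1.1.2, fun v => v.1.2,
    fun v => v.2, ⟨(f4.comp fun u => u.1.1.1).trans l3,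
      (g2.comp fun u => u.1.2).trans ((f2.comp Prod.snd).trans s1), (g2.comp Prod.snd).trans s2,
      (f4.comp Prod.snd).trans s3, s4⟩, fun v hv => ⟨m1 _ (f2.mem (g2.mem hv)), m2 _ (g2.mem hv),
        m3 _ (f4.mem hv), m4 _ hv⟩, ?_, ?_, ?_⟩
  · exact (g2.mi_id (fun v => w v.2) (fun v => (d v.1.2, w v.1.2)) fun v => θ v.2).trans_le
      ((mi_ctx fun v hv => (m2 v hv).2).trans_le (n2.trans s.ge))
  · exact (mi_ctx fun v hv => (m4 v hv).2).trans_le n4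
  · refine le_trans (mi_mono fun a _ b _ e => ?_) (a4.trans (by linarith))
    simp only [Prod.mk.injEq] at e ⊢
    tauto

end Copy

/-- The rounded values of the form on two partners. -/
noncomputable def vl (p : ℝ) (d : ℤ × ℤ) (w : (ℤ × ℤ) × ℤ × ℤ) : ℤ × ℤ :=
  (⌊bl d w.1 / p⌋, ⌊bl d w.2 / p⌋)

/-- The form in the coordinates given by the partners. -/
noncomputable def mt (p : ℝ) (w d : (ℤ × ℤ) × ℤ × ℤ) : M2 :=
  ((p * p * bl d.2 w.2 / -(de d.1 d.2 * de w.1 w.2),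
    p * p * -bl d.1 w.2 / -(de d.1 d.2 * de w.1 w.2)),
    p * p * -bl d.2 w.1 / -(de d.1 d.2 * de w.1 w.2),
    p * p * bl d.1 w.1 / -(de d.1 d.2 * de w.1 w.2))

/-- Two bounded vectors with a large determinant. -/
def Gp (Λ p s : ℝ) (w : (ℤ × ℤ) × ℤ × ℤ) : Prop :=
  Bx (Λ * p) w.1 ∧ Bx (Λ * p) w.2 ∧ p * p ≤ s * |de w.1 w.2|

variable {Λ p s : ℝ} {w d : (ℤ × ℤ) × ℤ × ℤ}

theorem Gp.ne (h : Gp Λ p s w) (hp : 1 ≤ p) : de w.1 w.2 ≠ 0 := fun e => by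
  have := h.2.2
  rw [e, abs_zero] at this
  nlinarith

theorem vl_near (h : Gp Λ p s w) (hp : 1 ≤ p) (hs : 0 ≤ s) {a b : ℤ × ℤ}
    (e : vl p a w = vl p b w) :
    |(a.1 : ℝ) - b.1| ≤ 2 * Λ * s ∧ |(a.2 : ℝ) - b.2| ≤ 2 * Λ * s := by
  have p0 : 0 < p := by linarith
  have k : ∀ u : ℤ × ℤ, ⌊bl a u / p⌋ = ⌊bl b u / p⌋ → |bl a u - bl b u| ≤ p := fun u e => by
    have := (Int.abs_sub_lt_one_of_floor_eq_floor e).le
    rwa [← sub_div, abs_div, abs_of_pos p0, div_le_one p0] at this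
  have k1 := k _ (Prod.mk.inj e).1
  have k2 := k _ (Prod.mk.inj e).2
  have key : ∀ y u v : ℝ, |u| ≤ Λ * p → |v| ≤ Λ * p → de w.1 w.2 * y =
      u * (bl a w.1 - bl b w.1) + v * (bl a w.2 - bl b w.2) → |y| ≤ 2 * Λ * s := by
    intro y u v hu hv e
    have c := abs_row hu hv k1 k2
    rw [← e, abs_mul] at c
    have c1 := mul_le_mul_of_nonneg_right h.2.2 (abs_nonneg y)
    have c2 := mul_le_mul_of_nonneg_left c hs
    exact le_of_mul_le_mul_left (a := p * p) (by linarith) (by positivity)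
  exact ⟨key _ (-w.2.1) w.1.1 (by rw [abs_neg]; exact h.2.1.1) h.1.1 (by unfold bl de; ring),
    key _ w.2.2 (-w.1.2) h.2.1.2 (by rw [abs_neg]; exact h.1.2) (by unfold bl de; ring)⟩

theorem vl_bx (h : Gp Λ p s w) (hp : 1 ≤ p) (hΛ : 1 ≤ Λ) {a : ℤ × ℤ} (ha : Bx (Λ * p) a) :
    Bx (3 * Λ ^ 2 * p) (vl p a w) ∧ |bl a w.1 / p| ≤ 3 * Λ ^ 2 * p ∧
      |bl a w.2 / p| ≤ 3 * Λ ^ 2 * p := by
  have p0 : 0 < p := by linarith
  have q : 1 ≤ Λ ^ 2 * p := one_le_mul_of_one_le_of_one_le (one_le_pow₀ hΛ) hp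
  have k : ∀ u, Bx (Λ * p) u → |bl a u / p| ≤ 2 * Λ ^ 2 * p := fun u hu => by
    rw [abs_div, abs_of_pos p0, div_le_iff₀ p0]
    exact (abs_bl ha hu).trans (le_of_eq (by ring))
  have k' : ∀ y : ℝ, |y| ≤ 2 * Λ ^ 2 * p → |(⌊y⌋ : ℝ)| ≤ 3 * Λ ^ 2 * p := fun y hy => by
    have u := abs_le.1 (abs_floor y)
    have v := abs_le.1 hy
    rw [abs_le]; constructor <;> linarith [u.1, u.2, v.1, v.2]
  exact ⟨⟨k' _ (k _ h.1), k' _ (k _ h.2.1)⟩, (k _ h.1).trans (by linarith),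
    (k _ h.2.1).trans (by linarith)⟩

theorem mt_um (h : Gp Λ p s w) (h' : Gp Λ p s d) (hp : 1 ≤ p) (hs : 1 ≤ s) (hΛ : 1 ≤ Λ) :
    Um (4 * Λ ^ 4 * s ^ 2) (mt p w d) ∧ |(mt p w d).1.1| ≤ 2 * Λ ^ 2 * s ^ 2 ∧
      |(mt p w d).1.2| ≤ 2 * Λ ^ 2 * s ^ 2 ∧ |(mt p w d).2.1| ≤ 2 * Λ ^ 2 * s ^ 2 ∧
        |(mt p w d).2.2| ≤ 2 * Λ ^ 2 * s ^ 2 := by
  have n1 := h.ne hp
  have n2 := h'.ne hp
  have p0 : 0 < p := by linarith
  have d0 : 0 < |de d.1 d.2 * de w.1 w.2| := abs_pos.2 (mul_ne_zero n2 n1)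
  have lo : p * p * (p * p) ≤ s ^ 2 * |de d.1 d.2 * de w.1 w.2| :=
    (mul_le_mul h'.2.2 h.2.2 (by positivity) (by positivity)).trans
      (le_of_eq (by rw [abs_mul]; ring))
  have k : ∀ y : ℝ, |y| ≤ 2 * (Λ * p * (Λ * p)) →
      |p * p * y / -(de d.1 d.2 * de w.1 w.2)| ≤ 2 * Λ ^ 2 * s ^ 2 := fun y hy => by
    rw [abs_div, abs_neg, div_le_iff₀ d0, abs_mul, abs_of_pos (by positivity : 0 < p * p)]
    have c1 := mul_le_mul_of_nonneg_left hy (by positivity : 0 ≤ p * p)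
    have c2 := mul_le_mul_of_nonneg_left lo (by positivity : 0 ≤ 2 * Λ ^ 2)
    linarith
  have e1 := k _ (abs_bl h'.2.1 h.2.1)
  have e2 := k (-bl d.1 w.2) (by rw [abs_neg]; exact abs_bl h'.1 h.2.1)
  have e3 := k (-bl d.2 w.1) (by rw [abs_neg]; exact abs_bl h'.2.1 h.1)
  have e4 := k _ (abs_bl h'.1 h.1)
  have q : 2 * Λ ^ 2 * s ^ 2 ≤ 4 * Λ ^ 4 * s ^ 2 := mul_le_mul_of_nonneg_right
    (by nlinarith [pow_le_pow_right₀ hΛ (by norm_num : 2 ≤ 4), one_le_pow₀ (n := 2) hΛ])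
    (by positivity)
  refine ⟨⟨e1.trans q, e2.trans q, e3.trans q, e4.trans q, ?_⟩, e1, e2, e3, e4⟩
  have e : dt (mt p w d) = p * p * (p * p) / -(de d.1 d.2 * de w.1 w.2) := by
    unfold dt mt; field_simp; unfold bl de; ring
  have up : |de d.1 d.2 * de w.1 w.2| ≤ 4 * Λ ^ 4 * (p * p * (p * p)) := by
    rw [abs_mul]
    exact (mul_le_mul (abs_de h'.1 h'.2.1) (abs_de h.1 h.2.1) (abs_nonneg _)
      (by positivity)).trans (le_of_eq (by ring))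
  rw [e, abs_div, abs_neg, abs_of_pos (by positivity : 0 < p * p * (p * p)), ← mul_div_assoc,
    one_le_div d0]
  refine up.trans (mul_le_mul_of_nonneg_right ?_ (by positivity))
  exact le_mul_of_one_le_right (by positivity) (one_le_pow₀ hs)

theorem mt_near (h : Gp Λ p s w) (h' : Gp Λ p s d) (hp : 1 ≤ p) (hs : 1 ≤ s) (hΛ : 1 ≤ Λ)
    {a b : ℤ × ℤ} (ha : Bx (Λ * p) a) (hb : Bx (Λ * p) b) :
    |bf (mt p w d) (vl p a w) (vl p b d) / p - bl a b / p| ≤ 48 * Λ ^ 4 * s ^ 2 := by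
  have n1 := h.ne hp
  have n2 := h'.ne hp
  have p0 : 0 < p := by linarith
  obtain ⟨-, e1, e2, e3, e4⟩ := mt_um h h' hp hs hΛ
  obtain ⟨-, a1, a2⟩ := vl_bx h hp hΛ ha
  obtain ⟨⟨b1, b2⟩, -⟩ := vl_bx h' hp hΛ hb
  have e : bl a b = bl a w.1 / p * ((mt p w d).1.1 * (bl b d.1 / p) +
      (mt p w d).1.2 * (bl b d.2 / p)) + bl a w.2 / p * ((mt p w d).2.1 * (bl b d.1 / p) +
        (mt p w d).2.2 * (bl b d.2 / p)) := by
    unfold mt; field_simp; unfold bl de; ring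
  have c1 := abs_row (abs_floor (bl a w.1 / p)) (abs_floor (bl a w.2 / p)) (abs_row e1 e2 b1 b2)
    (abs_row e3 e4 b1 b2)
  have c2 := abs_row a1 a2
    (abs_row e1 e2 (abs_floor (bl b d.1 / p)) (abs_floor (bl b d.2 / p)))
    (abs_row e3 e4 (abs_floor (bl b d.1 / p)) (abs_floor (bl b d.2 / p)))
  rw [← sub_div, abs_div, abs_of_pos p0, div_le_iff₀ p0, e, abs_sub_comm]
  refine le_trans (le_of_eq (congrArg _ ?_)) ((abs_add_le _ _).trans ((add_le_add c1 c2).trans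
    (le_of_eq (by ring))))
  unfold bf vl
  ring

end Pool.Agent.MP_5168f5_an.MX.AL
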