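import Pool.Agent.MP_5168f5_an.MX.CoreB

/-! A symmetric form in two almost independent vectors of large rates is small. -/

namespace Pool.Agent.MP_5168f5_an.MX.AL

open H19 H17S H17F Filter AB ALBA

theorem mi_side {Ω α β γ T : Type} (P : FP Ω) (F : Ω → α) (G : Ω → β) (K : Ω → γ) (θ : Ω → T) :
    mi P F G (fun v => (K v, θ v)) ≤ mi P F G θ + mi P (fun v => (F v, G v)) K θ := by
  have h1 := mi_chain (P := P) F G K θ
  have h2 := mi_chain (P := P) F K G θ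
  have h3 : mi P F (fun v => (K v, G v)) θ ≤ mi P F (fun v => (G v, K v)) θ :=
    mi_mono fun a _ b _ e => by simp only [Prod.mk.injEq] at e ⊢; tauto
  have h4 : mi P F K (fun v => (G v, θ v)) ≤ mi P (fun v => (F v, G v)) K θ :=
    mi_left (Fn.snd _ _) (fun a _ b _ e => by simp only [Prod.mk.injEq] at e ⊢; tauto)
      fun a _ b _ e => by simp only [Prod.mk.injEq] at e; tauto
  linarith [mi_nonneg (P := P) F K θ]

theorem half {Ω α κ T : Type} {P : FP Ω} {X : Ω → ℤ × ℤ} {W : Ω → (ℤ × ℤ) × ℤ × ℤ} {K : Ω → κ}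
    (θ : Ω → T) {Z : Ω → α} {Λ p : ℝ} {i : ℕ} (j : ℕ) (hW : Fn P W K) (hX : Fn P X Z)
    (g : ∀ v ∈ P.S, Gp Λ p (2 ^ i) (W v)) (hp : 1 ≤ p) (hΛ : 1 ≤ Λ) :
    ch P (fun v => dn2 j (X v)) θ ≤ ch P (fun v => vl p (X v) (W v)) (fun v => (K v, θ v)) +
      2 * (i * lg) + mi P Z K θ + 2 * Real.log (2 * (2 * Λ) + 3) := by
  have h1 : ch P (fun v => dn2 j (X v)) θ ≤ ch P X θ := ch_mono ((Fn.comp (dn2 j) X).left _)
  have h2 := ch_le_mi (P := P) (F := X) (G := K) (K := θ) (Fn.rfl _)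
  have h3 : mi P X K θ ≤ mi P Z K θ := mi_mono' (hX.left _)
  have h4 := ch_tri (P := P) X (fun v => vl p (X v) (W v)) fun v => (K v, θ v)
  have h5 := ch_vec (P := P) (F := X) (G := fun v => (vl p (X v) (W v), K v, θ v))
    (L := 2 * Λ * 2 ^ i) (by positivity) fun a ha b hb e => by
      simp only [Prod.mk.injEq] at e
      exact vl_near (g a ha) hp (by positivity) (by rw [e.1, hW a ha b hb e.2.1])
  linarith [log_le_pow (L := 2 * Λ) (by linarith) i]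

theorem core0 {x γ : ℝ} (h0 : 0 ≤ x) (h1 : x < 1) (hγ : x < γ) : ∃ c : ℝ, 0 < c ∧ c ≤ 1 ∧
    ∀ {Ω T : ℕ → Type} {P : ∀ n, FP (Ω n)} {θ : ∀ n, Ω n → T n} {d w : ∀ n, Ω n → ℤ × ℤ}
    {L : ∀ n, T n → Lv} {M : ℕ → ℕ} {Λ : ℕ → ℝ}, Cr x P θ d w L M Λ → Rob P θ d M γ →
    Rob P θ w M γ → ¬∀ᶠ n in UF, ∀ ω ∈ (P n).S,
      2 ^ M n * 2 ^ (M n - ⌊c * M n⌋₊) ≤ |bl (d n ω) (w n ω)| := by
  obtain ⟨δ, hδ, H⟩ := alg4q h0 h1 (y := x + γ) (by linarith)
  have g0 : 0 < γ - x := sub_pos.2 hγ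
  obtain ⟨m, hm⟩ := exists_nat_gt (x / (γ - x))
  rw [div_lt_iff₀ g0] at hm
  obtain ⟨μ, μ0, μ1, μ2, μ3⟩ : ∃ μ : ℝ, 0 < μ ∧ μ ≤ δ ∧ μ ≤ γ - x ∧ μ ≤ 1 :=
    ⟨min δ (min (γ - x) 1), by positivity, min_le_left _ _, (min_le_right _ _).trans
      (min_le_left _ _), (min_le_right _ _).trans (min_le_right _ _)⟩
  obtain ⟨c, c0, c1, c2⟩ : ∃ c : ℝ, 0 < c ∧ c ≤ 1 ∧ (m + 2) * c = μ / 8 :=
    ⟨μ / 8 / (m + 2), by positivity, (div_le_self (by positivity)
      (by linarith [Nat.cast_nonneg (α := ℝ) m])).trans (by linarith),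
      mul_div_cancel₀ _ (by positivity)⟩
  refine ⟨c, c0, c1, ?_⟩
  intro Ω T P θ d w L M Λ h rd rw' lo
  have hM := h.big
  have hl := lg_pos
  obtain ⟨-, e, he, fe⟩ := hM.frac_floor c0 c1
  have ik : ∀ n, (((m + 1) * ⌊c * M n⌋₊ + ⌊c * M n⌋₊ : ℕ) : ℝ) ≤ μ / 8 * M n := fun n => by
    have := mul_le_mul_of_nonneg_left (Nat.floor_le (show 0 ≤ c * M n by positivity))
      (show (0 : ℝ) ≤ m + 2 by positivity)
    rw [← mul_assoc, c2] at this
    push_cast; linarith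
  generalize hk : (fun n => ⌊c * M n⌋₊) = k at fe
  simp only [show ∀ n, ⌊c * M n⌋₊ = k n from congrFun hk] at ik lo
  have hjk : ∀ n, (m + 1) * k n + k n ≤ M n := fun n => by
    exact_mod_cast (ik n).trans (mul_le_of_le_one_left (Nat.cast_nonneg _) (by linarith))
  have fj : Frac (fun n => (m + 1) * k n) M := ⟨fun n => (Nat.le_add_right _ _).trans (hjk n),
    e, he, fe.mono fun n a => a.trans (by exact_mod_cast Nat.le_mul_of_pos_left _ m.succ_pos)⟩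
  have num : ∀ᶠ n in UF, x * ((m + 1) * k n + k n : ℕ) * lg + (γ - x) * e * lg * M n ≤
      γ * ((m + 1) * k n : ℕ) * lg := fe.mono fun n a => by
    have a1 := mul_le_mul_of_nonneg_left a (mul_pos g0 hl).le
    have a2 := mul_le_mul_of_nonneg_right hm.le (mul_nonneg (Nat.cast_nonneg (k n)) hl.le)
    push_cast; linarith
  choose Ω' Q π π₁ π₂ π₃ π₄ l mm i1 i2 i3 using fun n => five (P n) (θ n) (d n) (w n)
  have r1 := rank (f := π₁) (g := π₂) h0 h rw' fj hjk (by positivity) num lo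
    (fun n => (l n).2.1) (fun n => (l n).2.2.1)
    (fun n v hv => (mm n v hv).2.1.1.trans (mm n v hv).1.1.symm) (h.inf.mono (.of_forall i1))
  have r2 := rank (f := π₃) (g := π₄) h0 h.swap rd fj hjk (by positivity) num
    (lo.mono fun n a ω hω => bl_comm (d n ω) (w n ω) ▸ a ω hω) (fun n => (l n).2.2.2.1)
    (fun n => (l n).2.2.2.2) (fun n v hv => (mm n v hv).2.2.2.1.trans (mm n v hv).2.2.1.1.symm)
    (h.inf.mono (.of_forall i2))
  generalize hi : (fun n => (m + 1) * k n + k n) = i at hjk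
  simp only [show ∀ n, (m + 1) * k n + k n = i n from congrFun hi] at ik hjk r1 r2
  have p1 : ∀ j : ℕ, (1 : ℝ) ≤ 2 ^ j := fun j => one_le_pow₀ one_le_two
  have cv : ∀ n (y : ℝ), 2 ^ M n * 2 ^ (M n - i n) ≤ y → 2 ^ M n * 2 ^ M n ≤ 2 ^ i n * y :=
    fun n y a => le_of_eq_of_le (by rw [mul_left_comm, ← pow_add 2 (i n),
      Nat.add_sub_cancel' (hjk n)]) (mul_le_mul_of_nonneg_left a (by positivity))
  have hG : Pos Q fun n v => Gp (Λ n) (2 ^ M n) (2 ^ i n) (w n (π₁ n v), w n (π₂ n v)) ∧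
      Gp (Λ n) (2 ^ M n) (2 ^ i n) (d n (π₃ n v), d n (π₄ n v)) :=
    ((r1.and r2).mono (h.bd.mono fun n a v hv b =>
      ⟨⟨(a _ ((l n).2.1.mem hv)).2, (a _ ((l n).2.2.1.mem hv)).2, cv n _ b.1⟩,
        (a _ ((l n).2.2.2.1.mem hv)).1, (a _ ((l n).2.2.2.2.mem hv)).1, cv n _ b.2⟩)).pos
  generalize hE : (fun n v => Gp (Λ n) (2 ^ M n) (2 ^ i n) (w n (π₁ n v), w n (π₂ n v)) ∧
      Gp (Λ n) (2 ^ M n) (2 ^ i n) (d n (π₃ n v), d n (π₄ n v))) = E at hG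
  have su : ∀ᶠ n in UF, ∀ v ∈ (cE (Q n) (E n)).S, v ∈ (Q n).S ∧
      (Gp (Λ n) (2 ^ M n) (2 ^ i n) (w n (π₁ n v), w n (π₂ n v)) ∧
      Gp (Λ n) (2 ^ M n) (2 ^ i n) (d n (π₃ n v), d n (π₄ n v))) ∧
      Bx (Λ n * 2 ^ M n) (d n (π n v)) ∧ Bx (Λ n * 2 ^ M n) (w n (π n v)) := by
    filter_upwards [hG.sure, h.bd] with n a b v hv
    exact ⟨(a v hv).1, by subst hE; exact (a v hv).2, b _ ((l n).1.mem (a v hv).1)⟩
  have iK := (h.inf.smul (c := 4) (by norm_num)).mono (.of_forall i3)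
  have big : ∀ n, 3 * Λ n ^ 2 ≤ 64 * Λ n ^ 4 * (2 ^ i n) ^ 2 ∧
      Λ n ≤ Λ n ^ 4 * (2 ^ i n) ^ 2 := fun n => by
    have a1 := h.sub.1 n
    have a2 := le_mul_of_one_le_right (show 0 ≤ Λ n ^ 4 by positivity) (one_le_pow₀ (n := 2) (p1 (i n)))
    have a3 := pow_le_pow_right₀ a1 (by norm_num : 2 ≤ 4)
    have a4 := le_self_pow₀ a1 (n := 2) (by norm_num)
    constructor <;> linarith
  have nr : ∀ {ρ : ∀ n, Ω' n → Ω n}, (∀ n, Law (Q n) (ρ n) (P n) id) →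
      Whp (fun n => cE (Q n) (E n)) fun n v => Nr ((L n (θ n (ρ n v))).S 1) (Λ n)
        (bl (d n (ρ n v)) (w n (ρ n v)) / 2 ^ M n) := fun a => (ABGrpA.whp_law h.nr a).cE hG
  have k1 := H (fun n => ⟨Ω' n, _, cE (Q n) (E n), fun v => (((w n (π₁ n v), w n (π₂ n v)),
    d n (π₃ n v), d n (π₄ n v)), θ n (π n v)),
    fun v => vl (2 ^ M n) (d n (π n v)) (w n (π₁ n v), w n (π₂ n v)),
    fun v => vl (2 ^ M n) (w n (π n v)) (d n (π₃ n v), d n (π₄ n v)),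
    fun t => mt (2 ^ M n) t.1.1 t.1.2, fun t => L n t.2, fun t => L n t.2, fun t => L n t.2⟩) M
    (fun n => 64 * Λ n ^ 4 * (2 ^ i n) ^ 2) hM ?_ ?_ ?_ fun q ε hε =>
      ((ABGrpA.whp_law (h.cov q ε hε) fun n => (l n).1).cE hG).mono
        (.of_forall fun _ _ _ a => ⟨a, a, a⟩)
  · refine (k1.of5 (rd _ Q π E M (fun n => (l n).1) hG Frac.rfl)
      (rw' _ Q π E M (fun n => (l n).1) hG Frac.rfl) ((sm_mi_cE hM hG iK).smul zero_le_two)
      ((h.sub.const_mul hM one_le_two).log3 hM 4) (f := fun n => 2 * γ * M n * lg)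
      (g := fun n => (x + γ) * M n * lg + 4 * (i n * lg)) (su.mono fun n a => ?_)).false hM
      (c := (γ - x) / 2 * lg) (by positivity) (.of_forall fun n => ?_)
    · have a1 := half (fun v => θ n (π n v)) (X := fun v => d n (π n v))
        (K := fun v => ((w n (π₁ n v), w n (π₂ n v)), d n (π₃ n v), d n (π₄ n v))) (M n - M n)
        (Fn.fst _ _) (Fn.fst _ fun v => w n (π n v)) (fun v hv => (a v hv).2.1.1) (p1 _) (h.sub.1 n)
      have a2 := half (fun v => θ n (π n v)) (X := fun v => w n (π n v))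
        (K := fun v => ((w n (π₁ n v), w n (π₂ n v)), d n (π₃ n v), d n (π₄ n v))) (M n - M n)
        (Fn.snd _ _) (Fn.snd (fun v => d n (π n v)) _) (fun v hv => (a v hv).2.1.2) (p1 _)
        (h.sub.1 n)
      simp only [Q4.ha, Q4.hb]
      linarith
    · have a1 := mul_le_mul_of_nonneg_right (ik n) hl.le
      have a2 := mul_le_mul_of_nonneg_right μ2 (mul_nonneg (Nat.cast_nonneg (M n)) hl.le)
      linarith
  · filter_upwards [su, (((h.sub.pow 4).const_mul hM (C := 64) (by norm_num)).2 _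
      (half_pos hδ))] with n a b
    have a1 := h.sub.1 n
    refine ⟨by linarith [(big n).2], ?_, fun v hv => ?_⟩
    · rw [← add_halves δ, add_mul, Real.exp_add, ← pow_mul, two_pow_eq]
      refine mul_le_mul b (Real.exp_le_exp.2 ?_) (Real.exp_pos _).le (Real.exp_pos _).le
      have a2 := mul_le_of_le_one_right (Nat.cast_nonneg (α := ℝ) (i n)) lg_lt_one.le
      have a3 := mul_le_mul_of_nonneg_right μ1 (Nat.cast_nonneg (α := ℝ) (M n))
      have a4 : 0 ≤ μ * M n := by positivity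
      push_cast; linarith [ik n]
    · obtain ⟨-, ⟨g1, g2⟩, b1, b2⟩ := a v hv
      have c1 := (vl_bx g1 (p1 _) a1 b1).1
      have c2 := (vl_bx g2 (p1 _) a1 b2).1
      obtain ⟨u1, u2, u3, u4, u5⟩ := (mt_um g1 g2 (p1 _) (p1 _) a1).1
      have c3 := mul_le_mul_of_nonneg_right (big n).1 (zero_le_one.trans (p1 (M n)))
      have c4 : 4 * Λ n ^ 4 * (2 ^ i n) ^ 2 ≤ 64 * Λ n ^ 4 * (2 ^ i n) ^ 2 := by
        linarith [(big n).2]
      exact ⟨⟨c1.1.trans c3, c1.2.trans c3⟩, ⟨c2.1.trans c3, c2.2.trans c3⟩, u1.trans c4,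
        u2.trans c4, u3.trans c4, u4.trans c4,
        u5.trans (mul_le_mul_of_nonneg_right c4 (abs_nonneg _))⟩
  · refine (((nr fun n => (l n).1).and ((nr fun n => (l n).2.1).and (nr fun n => (l n).2.2.1))).and
      ((nr fun n => (l n).2.2.2.1).and (nr fun n => (l n).2.2.2.2))).mono
      (su.mono fun n a v hv ⟨⟨k0, k1, k2⟩, k3, k4⟩ => ?_)
    obtain ⟨hv', ⟨g1, g2⟩, b1, b2⟩ := a v hv
    obtain ⟨m1, m2, m3, m4⟩ := mm n v hv'
    have a1 := h.sub.1 n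
    have fl : ∀ {y : ℝ}, Nr ((L n (θ n (π n v))).S 1) (Λ n) y →
        Nr ((L n (θ n (π n v))).S 1) (64 * Λ n ^ 4 * (2 ^ i n) ^ 2) (⌊y⌋ : ℤ) := fun k =>
      ABW.Nr.mono (k.near ((abs_sub_comm _ _).trans_le (abs_floor _))) (by linarith [(big n).2])
    rw [m1.1, m1.2] at k1
    rw [m2.1, m2.2] at k2
    rw [m3.1, m3.2, bl_comm] at k3
    rw [m4.1, m4.2, bl_comm] at k4
    exact ⟨ABW.Nr.mono (k0.near (mt_near g1 g2 (p1 _) (p1 _) a1 b1 b2)) (by linarith [(big n).2]),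
      ⟨fl k1, fl k2⟩, fl k3, fl k4⟩
  · refine (sm_mi_cE hM hG ((h.inf.add iK).mono (.of_forall fun n => (mi_side (Q n)
      (fun v => d n (π n v)) (fun v => w n (π n v)) _ fun v => θ n (π n v)).trans
        (add_le_add ((l n).1.mi_id (d n) (w n) (θ n)).le le_rfl)))).mono
      (.of_forall fun n => (mi_mono fun a _ b _ e => ?_).trans (mi_mono' fun a _ b _ e => ?_)) <;>
    simp only [Prod.mk.injEq] at e
    · simp only [e.1, e.2.1.2.1, e.2.1.2.2]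
    · simp only [e.1, e.2.1.1.1, e.2.1.1.2]

/-- The form is small when both vectors have rates larger than the rate of the levels. -/
theorem core {x γ : ℝ} (h0 : 0 ≤ x) (h1 : x < 1) (hγ : x < γ) : ∃ c : ℝ, 0 < c ∧
    ∀ {Ω T : ℕ → Type} {P : ∀ n, FP (Ω n)} {θ : ∀ n, Ω n → T n} {d w : ∀ n, Ω n → ℤ × ℤ}
    {L : ∀ n, T n → Lv} {M : ℕ → ℕ} {Λ : ℕ → ℝ}, Cr x P θ d w L M Λ → Rob P θ d M γ →
    Rob P θ w M γ → Whp P fun n ω =>
      |bl (d n ω) (w n ω)| / 2 ^ M n ≤ 2 ^ M n * Real.exp (-(c * M n)) := by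
  obtain ⟨c, c0, c1, H⟩ := core0 h0 h1 hγ
  have hl := lg_pos
  refine ⟨c * lg / 2, by positivity, fun {Ω T P θ d w L M Λ} h rd rw' => by_contra fun hn => ?_⟩
  have hE := not_whp hn
  refine H (h.cond hE) (rd.cond hE) (rw'.cond hE) ?_
  filter_upwards [hE.sure, h.big.ev (2 / c)] with n a b ω hω
  have a1 := (not_le.1 (a ω hω).2).le
  rw [le_div_iff₀ (by positivity), mul_comm] at a1
  refine le_trans (mul_le_mul_of_nonneg_left ?_ (by positivity)) a1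
  have a2 : ⌊c * M n⌋₊ ≤ M n :=
    Nat.floor_le_of_le (mul_le_of_le_one_left (Nat.cast_nonneg _) c1)
  rw [two_pow_eq, two_pow_eq, ← Real.exp_add, Nat.cast_sub a2]
  rw [div_le_iff₀ c0] at b
  have a3 := mul_le_mul_of_nonneg_right (Nat.lt_floor_add_one (c * M n)).le hl.le
  have a4 := mul_le_mul_of_nonneg_right b hl.le
  exact Real.exp_le_exp.2 (by linarith)

end Pool.Agent.MP_5168f5_an.MX.AL
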