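import Pool.Agent.MP_5168f5_an.MX.TL
import Pool.Agent.MP_5168f5_an.MX.FroK
import Pool.Agent.MP_5168f5_an.R4.NCx3
import Pool.Agent.MP_5168f5_an.H17F.Diag

/-! Classes of sequences that are closed under diagonal limits. Side conditions that a quantity
depends on the `n`-th term only are `fun _ _ => rfl`. -/

namespace Pool.Agent.MP_5168f5_an.MX

open H19 H17S H17F Filter R4.K31

universe u v

/-- A countable conjunction of eventual properties of the terms. -/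
def Dg {X : Type u} (T : (ℕ → X) → Prop) : Prop :=
  ∃ A : ℕ → X → Prop, ∀ x, T x ↔ ∀ k, ∀ᶠ n in UF, A k (x n)

/-- The `n`-th value depends on the `n`-th term only. -/
abbrev Lc {X : Type u} {β : Sort v} (f : (ℕ → X) → ℕ → β) : Prop :=
  ∀ x n, f x n = f (fun _ => x n) 0

namespace Dg

variable {X : Type u} {T T' : (ℕ → X) → Prop}

/-- The diagonal limit. -/
theorem diag (h : Dg T) {B : ℕ → X → Prop} (H : ∀ k, ∃ x, T x ∧ ∀ᶠ n in UF, B k (x n)) :
    ∃ y, T y ∧ ∀ k, B k (y k) := by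
  obtain ⟨A, h⟩ := h
  choose x h1 h2 using H
  have : ∀ k, ∃ n, (∀ j ≤ k, A j (x k n)) ∧ B k (x k n) := fun k =>
    (((eventually_all_finite (Set.finite_Iic k)).2 fun j _ => (h _).1 (h1 k) j).and (h2 k)).exists
  choose n h3 h4 using this
  exact ⟨fun k => x k (n k), (h _).2 fun j => (ev_ge j).mono fun k e => h3 k j e, h4⟩

theorem congr (h : Dg T) (e : ∀ x, T' x ↔ T x) : Dg T' :=
  h.imp fun _ a x => (e x).trans (a x)

theorem ev {p : (ℕ → X) → ℕ → Prop} (h : Lc p) :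
    Dg fun x => ∀ᶠ n in UF, p x n :=
  ⟨fun _ a => p (fun _ => a) 0, fun x => by simp only [← h x, forall_const]⟩

theorem nev {p : (ℕ → X) → ℕ → Prop} (h : Lc p) :
    Dg fun x => ¬∀ᶠ n in UF, p x n :=
  (ev (p := fun x n => ¬p x n) fun x n => congrArg Not (h x n)).congr fun _ => not_ev

theorem const (p : Prop) : Dg fun _ : ℕ → X => p :=
  (ev (p := fun _ _ => p) fun _ _ => rfl).congr fun _ => eventually_const.symm

theorem all {J : Type} [Countable J] {F : J → (ℕ → X) → Prop} (h : ∀ j, Dg (F j)) :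
    Dg fun x => ∀ j, F j x := by
  choose A h using h
  obtain ⟨e, he⟩ := exists_injective_nat (J × ℕ)
  refine ⟨fun k a => ∀ j : J × ℕ, e j = k → A j.1 j.2 a, fun x => ⟨fun u k => ?_, fun u j =>
    (h j x).2 fun k => (u (e (j, k))).mono fun _ a => a (j, k) rfl⟩⟩
  by_cases c : ∃ j, e j = k
  · obtain ⟨j, rfl⟩ := c
    exact ((h _ x).1 (u j.1) j.2).mono fun n a i q => by rwa [he q]
  · exact Eventually.of_forall fun n i q => absurd ⟨i, q⟩ c

theorem and (h : Dg T) (h' : Dg T') : Dg fun x => T x ∧ T' x :=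
  (all (F := fun b : Bool => if b then T else T') fun b => by cases b <;> simpa).congr
    fun x => by simp [and_comm]

theorem or (h : Dg T) (h' : Dg T') : Dg fun x => T x ∨ T' x := by
  obtain ⟨A, h⟩ := h
  obtain ⟨B, h'⟩ := h'
  refine (all (F := fun j : ℕ × ℕ => fun x => ∀ᶠ n in UF, A j.1 (x n) ∨ B j.2 (x n))
    fun j => ev fun _ _ => rfl).congr fun x => ⟨fun u j => u.elim
      (fun a => ((h x).1 a _).mono fun _ => Or.inl)
      fun a => ((h' x).1 a _).mono fun _ => Or.inr, fun u => or_iff_not_imp_left.2 fun c => ?_⟩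
  obtain ⟨k, c⟩ := not_forall.1 (mt (h x).2 c)
  exact (h' x).2 fun j => (ev_or (u (k, j))).resolve_left c

/-- An implication whose hypothesis has a negation in the class. -/
theorem imp (h : Dg fun x => ¬T x) (h' : Dg T') : Dg fun x => T x → T' x :=
  (h.or h').congr fun _ => imp_iff_not_or

theorem cimp {p : Prop} (h : p → Dg T) : Dg fun x => p → T x := by
  by_cases c : p
  · exact (h c).congr fun _ => by simp [c]
  · exact (const True).congr fun _ => by simp [c]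

theorem nand (h : Dg fun x => ¬T x) (h' : Dg fun x => ¬T' x) : Dg fun x => ¬(T x ∧ T' x) :=
  (h.or h').congr fun _ => not_and_or

theorem comp {X' : Type v} (h : Dg T) (f : X' → X) : Dg fun x : ℕ → X' => T fun n => f (x n) :=
  h.elim fun A a => ⟨fun k y => A k (f y), fun _ => a _⟩

theorem eps {F : ℝ → (ℕ → X) → Prop} (h : ∀ ε, 0 < ε → Dg (F ε))
    (m : ∀ x ε ε', 0 < ε → ε ≤ ε' → F ε x → F ε' x) : Dg fun x => ∀ ε, 0 < ε → F ε x :=
  (all fun k : ℕ => h (1 / (k + 1 : ℝ)) (by positivity)).congr fun x =>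
    ⟨fun u k => u _ (by positivity), fun u ε hε => (DiagA.small hε).exists.elim fun k a =>
      m x _ _ (by positivity) a (u k)⟩

section Quant

variable {Y : X → Type v} {F : ∀ x : ℕ → X, (∀ n, Y (x n)) → Prop}

/-- For all sequences of choices with a property of the terms. -/
theorem pi' (p : ∀ a, Y a → Prop) (ne : ∀ a, ∃ y, p a y)
    (h : Dg fun z : ℕ → Σ a, Y a => F (fun n => (z n).1) fun n => (z n).2) :
    Dg fun x => ∀ y, (∀ n, p (x n) (y n)) → F x y := by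
  obtain ⟨A, h⟩ := h
  refine ⟨fun k a => ∀ y, p a y → A k ⟨a, y⟩, fun x => ⟨fun u k => ?_, fun u y q =>
    (h fun n => ⟨x n, y n⟩).2 fun k => (u k).mono fun n a => a _ (q n)⟩⟩
  have : ∀ n, ∃ y, p (x n) y ∧ (A k ⟨x n, y⟩ → ∀ y, p _ y → A k ⟨x n, y⟩) := fun n => by
    by_cases c : ∀ y, p _ y → A k ⟨x n, y⟩
    · exact (ne _).imp fun _ a => ⟨a, fun _ => c⟩
    · push Not at c
      exact c.imp fun _ a => ⟨a.1, fun b => absurd b a.2⟩
  choose y h1 h2 using this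
  exact ((h fun n => ⟨x n, y n⟩).1 (u y h1) k).mono h2

theorem pi [ne : ∀ a, Nonempty (Y a)]
    (h : Dg fun z : ℕ → Σ a, Y a => F (fun n => (z n).1) fun n => (z n).2) :
    Dg fun x => ∀ y, F x y :=
  (pi' (fun _ _ => True) (fun a => (ne a).elim fun y => ⟨y, trivial⟩) h).congr fun _ => by simp

/-- There is a sequence of choices with a property of the terms. -/
theorem ex' (p : ∀ a, Y a → Prop) (ne : ∀ a, ∃ y, p a y)
    (h : Dg fun z : ℕ → Σ a, Y a => F (fun n => (z n).1) fun n => (z n).2) :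
    Dg fun x => ∃ y, (∀ n, p (x n) (y n)) ∧ F x y := by
  obtain ⟨A, h⟩ := h
  refine ⟨fun k a => ∃ y, p a y ∧ ∀ j ≤ k, A j ⟨a, y⟩, fun x => ⟨fun ⟨y, q, u⟩ k =>
    ((eventually_all_finite (Set.finite_Iic k)).2 fun j _ =>
      (h fun n => ⟨x n, y n⟩).1 u j).mono fun n a => ⟨y n, q n, a⟩, fun u => ?_⟩⟩
  obtain ⟨K, h1, h2⟩ := KSA.spill _ u
  have : ∀ n, ∃ y, p (x n) y ∧ ((∃ y, p _ y ∧ ∀ j ≤ K n, A j ⟨x n, y⟩) →
      ∀ j ≤ K n, A j ⟨x n, y⟩) := fun n => by
    by_cases c : ∃ y, p _ y ∧ ∀ j ≤ K n, A j ⟨x n, y⟩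
    · exact c.imp fun _ a => ⟨a.1, fun _ => a.2⟩
    · exact (ne _).imp fun _ a => ⟨a, fun b => absurd b c⟩
  choose y h3 h4 using this
  refine ⟨y, h3, (h fun n => ⟨x n, y n⟩).2 fun j => ?_⟩
  filter_upwards [h2, h1.ev j] with n a b using h4 n (a _ le_rfl) j (by exact_mod_cast b)

theorem ex [ne : ∀ a, Nonempty (Y a)]
    (h : Dg fun z : ℕ → Σ a, Y a => F (fun n => (z n).1) fun n => (z n).2) :
    Dg fun x => ∃ y, F x y :=
  (ex' (fun _ _ => True) (fun a => (ne a).elim fun y => ⟨y, trivial⟩) h).congr fun _ => by simp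

end Quant

variable {M M' : (ℕ → X) → ℕ → ℕ} {f g : (ℕ → X) → ℕ → ℝ} {Ω β : (ℕ → X) → ℕ → Type}
  {P : ∀ x n, FP (Ω x n)} {E : ∀ x n, Ω x n → Prop}

theorem le (h : Lc fun x n => (M x n, f x n, g x n)) :
    Dg fun x => Le (M x) (f x) (g x) :=
  eps (fun ε _ => ev fun x n => congrArg (fun a : ℕ × ℝ × ℝ => a.2.1 ≤ a.2.2 + ε * a.1) (h x n))
    fun x _ _ _ e u => u.mono fun n a => a.trans (by gcongr)

theorem sm (h : Lc fun x n => (M x n, f x n, (0 : ℝ))) :
    Dg fun x => Sm (M x) (f x) := le h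

theorem big (h : Lc M) : Dg fun x => Big (M x) :=
  (all fun b : ℕ => ev (p := fun x n => b ≤ M x n) fun x n => congrArg (b ≤ ·) (h x n)).congr
    fun _ => tendsto_atTop

theorem whp (h : Lc fun x n => pb (P x n) fun ω => ¬E x n ω) :
    Dg fun x => Whp (P x) (E x) :=
  eps (fun ε _ => ev fun x n => congrArg (· ≤ ε) (h x n))
    fun _ _ _ _ e u => u.mono fun _ a => a.trans e

theorem nex {F : ℝ → (ℕ → X) → ℕ → Prop} (h : ∀ c, Lc (F c))
    (m : ∀ x n c c', 0 < c → c ≤ c' → F c' x n → F c x n) :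
    Dg fun x => ¬∃ c, 0 < c ∧ ∀ᶠ n in UF, F c x n :=
  (eps (F := fun c x => ¬∀ᶠ n in UF, F c x n) (fun c _ => nev (h c))
    fun x _ _ a e u v => u (v.mono fun n => m x n _ _ a e)).congr fun _ => by simp

theorem npos (h : Lc fun x n => pb (P x n) (E x n)) :
    Dg fun x => ¬Pos (P x) (E x) :=
  nex (fun c x n => congrArg (c ≤ ·) (h x n)) fun _ _ _ _ _ => le_trans

/-- The second half of `Frac`. -/
theorem nfr (h : Lc fun x n => (M x n, M' x n)) :
    Dg fun x => ¬∃ c : ℝ, 0 < c ∧ ∀ᶠ n in UF, c * M x n ≤ M' x n :=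
  nex (fun c x n => congrArg (fun a : ℕ × ℕ => c * a.1 ≤ a.2) (h x n))
    fun _ _ _ _ _ e a => le_trans (by gcongr) a

theorem ndn {Q : ∀ x n, FP (β x n)} {ρ : ∀ x n, β x n → Ω x n}
    (h : ∀ C, Lc fun x n => Dn C (Q x n) (ρ x n) (P x n)) :
    Dg fun x => ¬DnS (Q x) (ρ x) (P x) :=
  (all fun k : ℕ => nev (h (k + 1))).congr fun x => ⟨fun u k a => u ⟨_, by simp, a⟩,
    fun u ⟨C, _, a⟩ => u ⌈C⌉₊ (a.mono fun n b => b.mono (by linarith [Nat.le_ceil C]))⟩

/-- There is a subexponential bound. -/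
theorem sub {F : (ℕ → X) → (ℕ → ℝ) → Prop} (m : Lc M)
    (h : Dg fun z : ℕ → Σ _ : X, ℝ => F (fun n => (z n).1) fun n => (z n).2) :
    Dg fun x => ∃ L, Sub (M x) L ∧ F x L :=
  (ex' (Y := fun _ => ℝ) (F := fun x L => (∀ ε : ℝ, 0 < ε → ∀ᶠ n in UF,
    L n ≤ Real.exp (ε * M (fun _ => x n) 0)) ∧ F x L) (fun _ L => 1 ≤ L) (fun _ => ⟨1, le_rfl⟩)
    ((eps (fun _ _ => ev fun _ _ => rfl) fun x _ _ _ e u =>
      u.mono fun n a => a.trans (by gcongr)).and h)).congr fun x => by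
        simp only [H17F.Sub, and_assoc, ← m x]

/-- For all levels below the unit. -/
theorem lev {F : (ℕ → X) → (ℕ → ℕ) → Prop} (m : Lc M)
    (h : Dg fun z : ℕ → Σ _ : X, ℕ => F (fun n => (z n).1) fun n => (z n).2) :
    Dg fun x => ∀ j : ℕ → ℕ, (∀ n, j n ≤ M x n) → F x j :=
  (pi' (Y := fun _ => ℕ) (fun a j => j ≤ M (fun _ => a) 0) (fun _ => ⟨0, Nat.zero_le _⟩) h).congr
    fun x => by simp only [← m x]

/-- For all windows below the unit. -/
theorem win {F : (ℕ → X) → (ℕ → ℕ) → (ℕ → ℕ) → Prop} (m : Lc M)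
    (h : Dg fun z : ℕ → Σ _ : X, ℕ × ℕ =>
      F (fun n => (z n).1) (fun n => (z n).2.1) fun n => (z n).2.2) :
    Dg fun x => ∀ i j : ℕ → ℕ, (∀ n, i n ≤ j n ∧ j n ≤ M x n) → F x i j :=
  (pi' (Y := fun _ => ℕ × ℕ) (F := fun x y => F x (fun n => (y n).1) fun n => (y n).2)
    (fun a j => j.1 ≤ j.2 ∧ j.2 ≤ M (fun _ => a) 0) (fun _ => ⟨0, le_rfl, Nat.zero_le _⟩) h).congr
    fun x => by
      simp only [← m x]
      exact ⟨fun u _ => u _ _, fun u i j => u fun n => (i n, j n)⟩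

/-- For all levels that are a fraction of the unit. -/
theorem frac {F : (ℕ → X) → (ℕ → ℕ) → Prop} (m : Lc M)
    (h : Dg fun z : ℕ → Σ _ : X, ℕ => F (fun n => (z n).1) fun n => (z n).2) :
    Dg fun x => ∀ j : ℕ → ℕ, Frac j (M x) → F x j :=
  (lev (F := fun x j => (∃ c : ℝ, 0 < c ∧ ∀ᶠ n in UF, c * M (fun _ => x n) 0 ≤ j n) → F x j) m
    (imp (nfr fun _ _ => rfl) h)).congr fun x => by simp only [Frac, and_imp, ← m x]

variable {W : X → Type} {p : ∀ a, FP (W a)}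

/-- A refinement of a term. -/
structure Rf (W : Type) : Type 1 where
  V : Type
  Q : FP V
  ρ : V → W

/-- For all refinements. -/
theorem dn {F : ∀ (x : ℕ → X) (V : ℕ → Type), (∀ n, FP (V n)) → (∀ n, V n → W (x n)) → Prop}
    (h : Dg fun z : ℕ → Σ a, Rf (W a) => F (fun n => (z n).1) (fun n => (z n).2.V)
      (fun n => (z n).2.Q) fun n => (z n).2.ρ) :
    Dg fun x => ∀ V Q ρ, DnS Q ρ (fun n => p (x n)) → F x V Q ρ :=
  (@pi X (fun a => Rf (W a)) (fun x y => DnS (fun n => (y n).Q) (fun n => (y n).ρ)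
    (fun n => p (x n)) → F x (fun n => (y n).V) (fun n => (y n).Q) fun n => (y n).ρ)
    (fun a => ⟨⟨W a, p a, id⟩⟩) (imp (ndn fun _ _ _ => rfl) h)).congr fun _ =>
      ⟨fun u _ => u _ _ _, fun u V Q ρ => u fun n => ⟨V n, Q n, ρ n⟩⟩

/-- For all events of positive probability. -/
theorem pos {F : ∀ x : ℕ → X, (∀ n, W (x n) → Prop) → Prop}
    (h : Dg fun z : ℕ → Σ a, W a → Prop => F (fun n => (z n).1) fun n => (z n).2) :
    Dg fun x => ∀ E, Pos (fun n => p (x n)) E → F x E :=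
  pi (Y := fun a => W a → Prop) (F := fun x E => Pos (fun n => p (x n)) E → F x E)
    (imp (npos fun _ _ => rfl) h)

theorem na {B : X → Type} {y : ∀ a, W a → ℝ} {r : X → ℝ} {K : ∀ a, W a → B a} :
    Dg fun x : ℕ → X => NA (fun n => p (x n)) (fun n => y (x n)) (fun n => r (x n))
      fun n => K (x n) :=
  pi (Y := fun a => B a → ℝ) (F := fun x m => Whp (fun n => p (x n)) fun n ω =>
    r (x n) ≤ |y (x n) ω - m n (K (x n) ω)|) (whp fun _ _ => rfl)

theorem fro {B : X → Type} {y : ∀ a, W a → ℝ} {m : X → ℕ} {K : ∀ a, W a → B a} {b : ℝ} :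
    Dg fun x : ℕ → X => Fro (fun n => p (x n)) (fun n => K (x n)) (fun n => y (x n))
      (fun n => m (x n)) b :=
  lev (fun _ _ => rfl) (eps (fun _ _ => whp fun _ _ => rfl) fun _ _ _ _ e u =>
    u.mono (Eventually.of_forall fun _ _ _ a => a.trans (by gcongr)))

theorem ng1 {B : X → Type} {y : ∀ a, W a → ℝ} {m : X → ℕ} {K : ∀ a, W a → B a} {b : ℝ} :
    Dg fun x : ℕ → X => ∀ (V : ℕ → Type) (Q : ∀ n, FP (V n)) (ρ : ∀ n, V n → W (x n)),
      DnS Q ρ (fun n => p (x n)) → ∀ i j : ℕ → ℕ, (∀ n, i n ≤ j n ∧ j n ≤ m (x n)) →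
        Le (fun n => m (x n)) (fun n => ch (Q n) (fun v => fl1 (j n) (y (x n) (ρ n v))) fun v =>
          (fl1 (i n) (y (x n) (ρ n v)), K (x n) (ρ n v))) fun n => b * (j n - i n) * lg :=
  dn (win (fun _ _ => rfl) (le fun _ _ => rfl))

end Dg

end Pool.Agent.MP_5168f5_an.MX
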