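import Pool.Agent.MP_5168f5_an.H17F.Sq2
import Pool.Agent.MP_5168f5_an.H17F.KE

/-! The multilinear Kakeya inequality in entropy form. -/

namespace Pool.Agent.MP_5168f5_an.MX

open H19 H17S H17F Finset Filter

section Fin

variable {Ω α β Λ ι : Type} {P : FP Ω} [Fintype ι] [DecidableEq ι]

/-- Han's inequality. -/
theorem han (U : Ω → ι → α) (d : α) (G : Ω → β) :
    ∑ i, ch P (fun ω => U ω i) (fun ω => (fun m => if m = i then d else U ω m, G ω))
      ≤ ch P U G := by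
  have h : ∀ I : Finset ι, ∑ i ∈ I, ch P (fun ω => U ω i)
      (fun ω => (fun m => if m = i then d else U ω m, G ω))
        ≤ ch P (fun ω m => if m ∈ I then U ω m else d) G := by
    intro I
    induction I using Finset.induction_on with
    | empty => simpa using ch_nonneg _ _
    | insert i I hi ih =>
      rw [sum_insert hi, add_comm]
      refine le_trans (add_le_add ih (ch_anti (G := fun ω =>
        (fun m => if m ∈ I then U ω m else d, G ω)) fun a _ b _ e => ?_)) ?_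
      · simp only [Prod.mk.injEq] at e ⊢
        refine ⟨funext fun m => ?_, e.2⟩
        split_ifs with hm
        · simpa [ne_of_mem_of_not_mem hm hi] using congrFun e.1 m
        · rfl
      · rw [← ch_chain]
        refine ch_mono fun a _ b _ e => ?_
        simp only [Prod.mk.injEq] at e ⊢
        refine ⟨funext fun m => ?_, by simpa using congrFun e.1 i⟩
        split_ifs with hm
        · simpa [hm] using congrFun e.1 m
        · rfl
  simpa using h univ

variable {x : Ω → ι → ℝ} {b v : ι → Ω → ι → ℝ} {s : ι → Ω → ℝ} {l : ι → Ω → Λ}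
  {B : Ω → Matrix ι ι ℝ} {G : Ω → β} {L : ℝ}

theorem mk_step {j j' τ : ℕ} (hL : 1 ≤ L) (h1 : j ≤ j') (h2 : j' ≤ j + τ) (fB : Fn P B G)
    (fb : ∀ i, Fn P (b i) (l i)) (fv : ∀ i, Fn P (v i) (l i))
    (hB : ∀ ω ∈ P.S, ∀ i m, |B ω i m| ≤ L) (hv : ∀ ω ∈ P.S, ∀ i, ‖v i ω‖ ≤ L)
    (hw : ∀ ω ∈ P.S, ∀ i, ‖(B ω).mulVec (v i ω) - Pi.single i 1‖ ≤ L / 2 ^ τ)
    (hx : ∀ ω ∈ P.S, ∀ i, ‖x ω - (b i ω + s i ω • v i ω)‖ ≤ L / 2 ^ j') :
    ∑ i, ch P (fun ω => fl1 j' (s i ω)) (fun ω => (fl1 j (s i ω), l i ω, G ω)) ≤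
      ch P (fun ω => flv j' (x ω)) (fun ω => (flv j (x ω), G ω)) +
        2 * Fintype.card ι * (Fintype.card ι + 1) *
          Real.log (2 * ((2 * Fintype.card ι + 3) * L ^ 2) + 3) := by
  set n : ℝ := (Fintype.card ι : ℝ) with hn
  have n0 : 0 ≤ n := Nat.cast_nonneg _
  set W := (2 * n + 3) * L ^ 2 with hW
  have L0 : 0 ≤ L := by linarith
  have L2 : L ≤ L ^ 2 := by nlinarith
  have W0 : 0 ≤ W := by positivity
  have p0 : (0 : ℝ) < 2 ^ j' := by positivity
  have p1 : ((2 : ℝ) ^ j)⁻¹ * (L / 2 ^ τ) ≤ L / 2 ^ j' := by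
    rw [inv_mul_eq_div, div_div, ← pow_add, add_comm]
    exact div_le_div_of_nonneg_left L0 p0 (pow_le_pow_right₀ one_le_two h2)
  have p2 : L / 2 ^ j' ≤ L / 2 ^ j :=
    div_le_div_of_nonneg_left L0 (by positivity) (pow_le_pow_right₀ one_le_two h1)
  let u : Ω → ι → ℝ := fun ω => (B ω).mulVec (x ω)
  have a1 : ch P (fun ω => flv j' (u ω)) (fun ω => (flv j' (x ω), flv j (x ω), G ω))
      ≤ n * Real.log (2 * W + 3) := by
    refine ch_near W0 fun p hp q hq e => ?_
    simp only [Prod.mk.injEq] at e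
    simp only [u]
    rw [fB p hp q hq e.2.2, ← Matrix.mulVec_sub]
    refine (norm_mulVec_le L0 (hB q hq) _).trans ?_
    rw [div_eq_mul_inv]
    exact mul_le_mul (by nlinarith) (norm_sub_lt_of_flv_eq e.1).le (norm_nonneg _) W0
  have a2 := han (P := P) (fun ω => flv j' (u ω)) 0 fun ω => (flv j (x ω), G ω)
  have a3 := ch_tri (P := P) (fun ω => flv j' (u ω)) (fun ω => flv j' (x ω))
    fun ω => (flv j (x ω), G ω)
  have a4 : ∀ i, ch P (fun ω => fl1 j' (s i ω)) (fun ω => (fl1 j (s i ω), l i ω, G ω)) ≤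
      ch P (fun ω => flv j' (u ω) i) (fun ω =>
        (fun m => if m = i then 0 else flv j' (u ω) m, flv j (x ω), G ω)) +
        (2 * n + 1) * Real.log (2 * W + 3) := by
    intro i
    have k : ∀ p ∈ P.S, ∀ q ∈ P.S, (fl1 j (s i p), l i p, G p) = (fl1 j (s i q), l i q, G q) →
        ‖u p - u q - Pi.single i (s i p - s i q)‖ ≤ (L + 2 * n * L ^ 2) / 2 ^ j' ∧
          ‖x p - x q‖ ≤ W / 2 ^ j := by
      intro p hp q hq e
      simp only [Prod.mk.injEq] at e
      have c1 := (abs_sub_lt_of_fl1_eq e.1).le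
      have c2 : ‖x p - x q - (s i p - s i q) • v i q‖ ≤ 2 * (L / 2 ^ j') := by
        have : x p - x q - (s i p - s i q) • v i q =
            (x p - (b i p + s i p • v i p)) - (x q - (b i q + s i q • v i q)) := by
          rw [fb i p hp q hq e.2.1, fv i p hp q hq e.2.1]; module
        rw [this]
        linarith [norm_sub_le (x p - (b i p + s i p • v i p)) (x q - (b i q + s i q • v i q)),
          hx p hp i, hx q hq i]
      constructor
      · have : u p - u q - Pi.single i (s i p - s i q) =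
            (B q).mulVec (x p - x q - (s i p - s i q) • v i q) +
              (s i p - s i q) • ((B q).mulVec (v i q) - Pi.single i 1) := by
          simp only [u]
          rw [fB p hp q hq e.2.2, Matrix.mulVec_sub, Matrix.mulVec_sub, Matrix.mulVec_smul,
            smul_sub, ← Pi.single_smul', smul_eq_mul, mul_one]
          abel
        rw [this]
        refine (norm_add_le _ _).trans ?_
        have c3 := (norm_mulVec_le L0 (hB q hq) _).trans
          (mul_le_mul_of_nonneg_left c2 (mul_nonneg n0 L0))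
        have c4 := mul_le_mul c1 (hw q hq i) (norm_nonneg _) (by positivity)
        rw [norm_smul, Real.norm_eq_abs]
        have c5 : (L + 2 * n * L ^ 2) / 2 ^ j' = L / 2 ^ j' + n * L * (2 * (L / 2 ^ j')) := by ring
        linarith
      · have c3 := norm_add_le (x p - x q - (s i p - s i q) • v i q) ((s i p - s i q) • v i q)
        rw [sub_add_cancel, norm_smul, Real.norm_eq_abs] at c3
        have c4 := mul_le_mul c1 (hv q hq i) (norm_nonneg _) (by positivity)
        have c5 : 3 * L / 2 ^ j ≤ W / 2 ^ j := by gcongr; nlinarith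
        have c6 : 3 * L / 2 ^ j = 2 * (L / 2 ^ j) + ((2 : ℝ) ^ j)⁻¹ * L := by ring
        linarith
    have kW : (L + 2 * n * L ^ 2) / 2 ^ j' + ((2 : ℝ) ^ j')⁻¹ ≤ W / 2 ^ j' := by
      rw [← one_div, ← add_div]
      gcongr
      nlinarith
    have b1 := ch_near (P := P) (x := fun ω m => if m = i then 0 else u ω m) (j := j')
      (G := fun ω => (fl1 j (s i ω), l i ω, G ω)) W0 fun p hp q hq e => by
        refine (pi_norm_le_iff_of_nonneg (by positivity)).2 fun m => ?_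
        have c1 := (norm_le_pi_norm _ m).trans (k p hp q hq e).1
        by_cases hm : m = i
        · simp only [Pi.sub_apply, if_pos hm, sub_zero, norm_zero]
          positivity
        · simp only [Pi.sub_apply, if_neg hm, Pi.single_eq_of_ne hm, sub_zero] at c1 ⊢
          linarith [inv_pos.2 p0]
    have b2 := ch_near (P := P) (x := x) (j := j) (G := fun ω => (fl1 j (s i ω), l i ω, G ω)) W0
      fun p hp q hq e => (k p hp q hq e).2
    have b3 := ch_near1 (P := P) (x := s i) (j := j')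
      (G := fun ω => (flv j' (u ω) i, fl1 j (s i ω), l i ω, G ω)) W0 fun p hp q hq e => by
        have c1 := (norm_le_pi_norm _ i).trans (k p hp q hq (congrArg Prod.snd e)).1
        have c2 := abs_lt.1 (abs_sub_lt_of_fl1_eq (show fl1 j' (u p i) = fl1 j' (u q i) from
          congrArg Prod.fst e))
        simp only [Pi.sub_apply, Pi.single_eq_same, Real.norm_eq_abs] at c1
        exact abs_le.2 ⟨by linarith [(abs_le.1 c1).2, c2.1], by linarith [(abs_le.1 c1).1, c2.2]⟩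
    have b4 := ch_tri (P := P) (fun ω => fl1 j' (s i ω)) (fun ω => flv j' (u ω) i)
      fun ω => (fl1 j (s i ω), l i ω, G ω)
    have b5 := ch_tri' (P := P) (fun ω => flv j' (u ω) i) (fun ω => (fl1 j (s i ω), l i ω, G ω))
      fun ω => (fun m => if m = i then 0 else flv j' (u ω) m, flv j (x ω), G ω)
    have b6 : ch P (fun ω => (fun m => if m = i then 0 else flv j' (u ω) m, flv j (x ω), G ω))
        (fun ω => (fl1 j (s i ω), l i ω, G ω)) ≤ _ := le_trans (ch_mono fun p _ q _ e => by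
      simp only [Prod.mk.injEq] at e ⊢
      refine ⟨funext fun m => ?_, e.1.2, e.2.2.2⟩
      split_ifs with hm
      · rfl
      · simpa [flv, hm] using congrFun e.1.1 m) ((ch_subadd _ _ _).trans (add_le_add b1 b2))
    linarith
  have a5 := sum_le_sum fun i (_ : i ∈ univ) => a4 i
  rw [sum_add_distrib, sum_const, card_univ, nsmul_eq_mul] at a5
  linarith

theorem mk_fin {θ : Ω → β} {M τ : ℕ} (hL : 1 ≤ L) (hτ : 0 < τ)
    (fb : ∀ i, Fn P (b i) (l i)) (fv : ∀ i, Fn P (v i) (l i))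
    (hB : ∀ ω ∈ P.S, ∀ i m, |B ω i m| ≤ L) (hv : ∀ ω ∈ P.S, ∀ i, ‖v i ω‖ ≤ L)
    (hw : ∀ ω ∈ P.S, ∀ i, (B ω).mulVec (v i ω) = Pi.single i 1) (hs : ∀ ω ∈ P.S, ∀ i, |s i ω| ≤ L)
    (hx : ∀ ω ∈ P.S, ∀ i, ‖x ω - (b i ω + s i ω • v i ω)‖ ≤ L / 2 ^ M) :
    ∑ i, ch P (fun ω => fl1 M (s i ω)) (fun ω => (l i ω, θ ω)) ≤
      ch P (fun ω => flv M (x ω)) θ + (Fintype.card ι : ℝ) ^ 3 * τ +
        (Fintype.card ι + 1 : ℝ) ^ 3 * (2 * (M / τ : ℕ) + 3) *
          Real.log (2 * ((2 * Fintype.card ι + 3) * ((Fintype.card ι + 1) * L) ^ 2) + 3) := by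
  classical
  set n : ℝ := (Fintype.card ι : ℝ) with hn
  have n0 : 0 ≤ n := Nat.cast_nonneg _
  have L0 : 0 ≤ L := by linarith
  have L1 : L ≤ (n + 1) * L := by nlinarith
  set Y := Real.log (2 * ((2 * n + 3) * ((n + 1) * L) ^ 2) + 3) with hY
  have Y1 : Real.log (2 * (2 * L) + 3) ≤ Y := Real.log_le_log (by positivity) (by
    have : 2 * L ≤ (2 * n + 3) * ((n + 1) * L) ^ 2 := by
      nlinarith [mul_nonneg n0 (sq_nonneg ((n + 1) * L))]
    linarith)
  have Y0 : 0 ≤ Y := le_trans (Real.log_nonneg (by linarith)) Y1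
  let c : Ω → ι × ι → ℤ := fun ω => flv τ fun p : ι × ι => v p.1 ω p.2
  obtain ⟨r, r1, r2⟩ : ∃ r : Ω → Ω, Fn P r c ∧ ∀ ω ∈ P.S, r ω ∈ P.S ∧ c (r ω) = c ω := by
    refine ⟨fun ω => if h : ∃ a ∈ P.S, c a = c ω then h.choose else ω, fun p hp q hq e => ?_,
      fun ω hω => ?_⟩
    · have h : ∃ a ∈ P.S, c a = c q := ⟨q, hq, rfl⟩
      simp only [e, dif_pos h]
    · have h : ∃ a ∈ P.S, c a = c ω := ⟨ω, hω, rfl⟩
      simp only [dif_pos h]
      exact h.choose_spec
  have a1 : ∀ k, ∑ i, ch P (fun ω => fl1 (min (k * τ) M) (s i ω)) (fun ω => (l i ω, c ω, θ ω)) ≤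
      ch P (fun ω => flv (min (k * τ) M) (x ω)) (fun ω => (c ω, θ ω)) + n * Y +
        k * (2 * n * (n + 1) * Y) := by
    intro k
    induction k with
    | zero =>
      have : ∀ i ∈ univ, ch P (fun ω => fl1 (min (0 * τ) M) (s i ω))
          (fun ω => (l i ω, c ω, θ ω)) ≤ Y := fun i _ => by
        refine (ch_near1 (L := 2 * L) (by positivity) fun p hp q hq _ => ?_).trans Y1
        simp only [zero_mul, Nat.zero_min, pow_zero, div_one]
        linarith [abs_sub (s i p) (s i q), hs p hp i, hs q hq i]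
      have h2 := sum_le_card_nsmul _ _ _ this
      rw [card_univ, nsmul_eq_mul, ← hn] at h2
      rw [Nat.cast_zero, zero_mul (2 * n * (n + 1) * Y)]
      linarith [ch_nonneg (P := P) (fun ω => flv (min (0 * τ) M) (x ω)) fun ω => (c ω, θ ω)]
    | succ k ih =>
      have j1 : min (k * τ) M ≤ min ((k + 1) * τ) M := by rw [add_one_mul]; omega
      have h1 := mk_step (P := P) (x := x) (s := s) (B := fun ω => B (r ω))
        (G := fun ω => (c ω, θ ω)) (L := (n + 1) * L) (τ := τ) (hL.trans L1) j1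
        (by rw [add_one_mul]; omega) (((Fn.comp B r).trans r1).left θ) fb fv
        (fun ω hω i m => (hB _ (r2 ω hω).1 i m).trans L1) (fun ω hω i => (hv ω hω i).trans L1)
        (fun ω hω i => by
          rw [← hw _ (r2 ω hω).1 i, ← Matrix.mulVec_sub]
          refine (norm_mulVec_le L0 (hB _ (r2 ω hω).1) _).trans ?_
          rw [div_eq_mul_inv]
          refine mul_le_mul (by linarith) ((pi_norm_le_iff_of_nonneg (by positivity)).2 fun m =>
            (abs_sub_lt_of_fl1_eq (congrFun (r2 ω hω).2.symm (i, m))).le) (norm_nonneg _)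
            (by positivity))
        fun ω hω i => (hx ω hω i).trans (div_le_div₀ (by positivity) L1 (by positivity)
          (pow_le_pow_right₀ one_le_two (min_le_right _ _)))
      have h2 := sum_le_sum fun i (_ : i ∈ univ) => ch_tri (P := P)
        (fun ω => fl1 (min ((k + 1) * τ) M) (s i ω)) (fun ω => fl1 (min (k * τ) M) (s i ω))
        fun ω => (l i ω, c ω, θ ω)
      have h3 := ch_chain (P := P) (fun ω => flv (min (k * τ) M) (x ω))
        (fun ω => flv (min ((k + 1) * τ) M) (x ω)) fun ω => (c ω, θ ω)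
      have h4 : ch P (fun ω => (flv (min (k * τ) M) (x ω), flv (min ((k + 1) * τ) M) (x ω)))
          (fun ω => (c ω, θ ω)) ≤ ch P (fun ω => flv (min ((k + 1) * τ) M) (x ω))
            fun ω => (c ω, θ ω) := ch_mono fun p _ q _ e =>
        Prod.ext (flv_eq_of_le j1 (congrArg Prod.fst e)) (congrArg Prod.fst e)
      rw [sum_add_distrib] at h2
      push_cast
      linarith
  have a2 := a1 (M / τ + 1)
  rw [min_eq_right (by rw [mul_comm]; exact (Nat.lt_mul_div_succ M hτ).le)] at a2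
  have a3 : hh P c ≤ n ^ 2 * (τ + Y) := by
    have h1 := ch_near (P := P) (x := fun ω (p : ι × ι) => v p.1 ω p.2) (j := τ) (G := fun _ => ())
      (L := 2 * L * 2 ^ τ) (by positivity) fun p hp q hq _ => by
        rw [mul_div_cancel_right₀ _ (by positivity)]
        refine (pi_norm_le_iff_of_nonneg (by positivity)).2 fun m => (norm_sub_le _ _).trans ?_
        linarith [(norm_le_pi_norm _ m.2).trans (hv p hp m.1),
          (norm_le_pi_norm _ m.2).trans (hv q hq m.1)]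
    rw [ch_unit, Fintype.card_prod, Nat.cast_mul, ← hn, ← _root_.sq] at h1
    refine h1.trans (mul_le_mul_of_nonneg_left ?_ (sq_nonneg _))
    have h2 : (1 : ℝ) ≤ 2 ^ τ := one_le_pow₀ one_le_two
    have h3 := Real.log_le_log (by positivity)
      (show 2 * (2 * L * 2 ^ τ) + 3 ≤ 2 ^ τ * (2 * (2 * L) + 3) by linarith)
    rw [Real.log_mul (by positivity) (by positivity), log_two_pow] at h3
    linarith [mul_le_of_le_one_right (Nat.cast_nonneg (α := ℝ) τ) lg_lt_one.le]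
  have a4 := sum_le_sum fun i (_ : i ∈ univ) =>
    show ch P (fun ω => fl1 M (s i ω)) (fun ω => (l i ω, θ ω)) ≤
      ch P (fun ω => fl1 M (s i ω)) (fun ω => (l i ω, c ω, θ ω)) + n ^ 2 * (τ + Y) from
    (ch_tri' _ _ _).trans (add_le_add le_rfl ((ch_mono (F' := c) fun p _ q _ e => by
      simp only [Prod.mk.injEq] at e ⊢; tauto).trans ((ch_le_hh _ _).trans a3)))
  rw [sum_add_distrib, sum_const, card_univ, nsmul_eq_mul, ← hn] at a4
  have a5 : ch P (fun ω => flv M (x ω)) (fun ω => (c ω, θ ω)) ≤ ch P (fun ω => flv M (x ω)) θ :=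
    ch_anti (Fn.snd _ _)
  have a6 : (0 : ℝ) ≤ (M / τ : ℕ) := Nat.cast_nonneg _
  push_cast at a2
  have a7 : n ^ 3 + n + ((M / τ : ℕ) + 1) * (2 * n * (n + 1))
      ≤ (n + 1) ^ 3 * (2 * (M / τ : ℕ) + 3) := by
    have : 0 ≤ (M / τ : ℕ) * (n ^ 3 + 2 * n ^ 2 + 2 * n + 1) := by positivity
    nlinarith [pow_nonneg n0 3, sq_nonneg n]
  linarith [mul_le_mul_of_nonneg_right a7 Y0]

/-- A left inverse with bounded entries. -/
theorem inv_bd {A : Matrix ι ι ℝ} (hL : 1 ≤ L) (hA : ∀ i m, |A i m| ≤ L) (hd : 1 / L ≤ |A.det|) :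
    A⁻¹ * A = 1 ∧ ∀ i m, |A⁻¹ i m| ≤ (Fintype.card ι).factorial * L ^ (Fintype.card ι + 1) := by
  have L0 : 0 < L := by linarith
  have d0 : 0 < |A.det| := (one_div_pos.2 L0).trans_le hd
  refine ⟨Matrix.nonsing_inv_mul A (abs_pos.1 d0).isUnit, fun i m => ?_⟩
  have h1 := Matrix.det_le (A := A.updateRow m (Pi.single i 1)) (abv := AbsoluteValue.abs) (x := L)
    fun p q => by
      rw [Matrix.updateRow_apply, AbsoluteValue.abs_apply]
      split_ifs
      · rw [Pi.single_apply]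
        split_ifs <;> simp [hL, L0.le]
      · exact hA p q
  rw [AbsoluteValue.abs_apply, nsmul_eq_mul] at h1
  rw [Matrix.inv_def, Ring.inverse_eq_inv', Matrix.smul_apply, Matrix.adjugate_apply, smul_eq_mul,
    abs_mul, abs_inv, pow_succ, ← mul_assoc, mul_comm]
  refine mul_le_mul h1 ?_ (by positivity) (by positivity)
  rwa [inv_le_comm₀ d0 L0, ← one_div]

end Fin

section Seq

variable {Ω β Λ : ℕ → Type} {ι : Type} [Fintype ι] [DecidableEq ι] {P : ∀ n, FP (Ω n)}
  {x : ∀ n, Ω n → ι → ℝ} {b v : ∀ n, ι → Ω n → ι → ℝ} {s : ∀ n, ι → Ω n → ℝ}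
  {l : ∀ n, ι → Ω n → Λ n} {θ : ∀ n, Ω n → β n} {M : ℕ → ℕ} {L : ℕ → ℝ}

theorem mk_sure (hM : Big M) (hL : Sub M L)
    (h : ∀ᶠ n in UF, (∀ i, Fn (P n) (b n i) (l n i) ∧ Fn (P n) (v n i) (l n i)) ∧ ∀ ω ∈ (P n).S,
      (∀ i, ‖v n i ω‖ ≤ L n ∧ |s n i ω| ≤ L n ∧
        ‖x n ω - (b n i ω + s n i ω • v n i ω)‖ ≤ L n / 2 ^ M n) ∧
      1 / L n ≤ |(Matrix.of fun i m => v n i ω m).det|) :
    Le M (fun n => ∑ i, ch (P n) (fun ω => fl1 (M n) (s n i ω)) fun ω => (l n i ω, θ n ω))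
      fun n => ch (P n) (fun ω => flv (M n) (x n ω)) (θ n) := by
  set k : ℝ := (Fintype.card ι : ℝ) with hk
  have k0 : 0 ≤ k := Nat.cast_nonneg _
  have f1 : (1 : ℝ) ≤ (Fintype.card ι).factorial := by exact_mod_cast Nat.factorial_pos _
  have s1 := (hL.pow (Fintype.card ι + 1)).const_mul hM f1
  have s2 := (((s1.const_mul hM (C := k + 1) (by linarith)).pow 2).const_mul hM (C := 2 * k + 3)
    (by linarith))
  refine Le.eps fun ε hε => ?_
  set δ := ε / (k ^ 3 + 1) with hδ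
  have δ0 : 0 < δ := by positivity
  refine Le.of2 (s2.log3 hM ((k + 1) ^ 3 * (2 * (1 / δ) + 3))) (hM.sm (k ^ 3))
    (h.mono fun n ⟨h1, h2⟩ => ?_)
  have L1 := hL.1 n
  have L2 : L n ≤ (Fintype.card ι).factorial * L n ^ (Fintype.card ι + 1) :=
    (le_self_pow₀ L1 (Nat.succ_ne_zero _)).trans (le_mul_of_one_le_left (by positivity) f1)
  have hi := fun ω (hω : ω ∈ (P n).S) => inv_bd (A := (Matrix.of fun i m => v n i ω m).transpose) L1
    (fun i m => (norm_le_pi_norm _ i).trans ((h2 ω hω).1 m).1)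
    (by rw [Matrix.det_transpose]; exact (h2 ω hω).2)
  have a1 := mk_fin (P := P n) (x := x n) (s := s n) (θ := θ n) (M := M n) (τ := ⌊δ * M n⌋₊ + 1)
    (B := fun ω => ((Matrix.of fun i m => v n i ω m).transpose)⁻¹) (L1.trans L2) (Nat.succ_pos _)
    (fun i => (h1 i).1) (fun i => (h1 i).2) (fun ω hω => (hi ω hω).2)
    (fun ω hω i => ((h2 ω hω).1 i).1.trans L2)
    (fun ω hω i => funext fun m => by
      have := congrFun (congrFun (hi ω hω).1 m) i
      rw [Matrix.one_apply] at this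
      rw [Pi.single_apply, ← this]
      rfl)
    (fun ω hω i => ((h2 ω hω).1 i).2.1.trans L2)
    fun ω hω i => ((h2 ω hω).1 i).2.2.trans (div_le_div_of_nonneg_right L2 (by positivity))
  have M0 : (0 : ℝ) ≤ M n := Nat.cast_nonneg _
  have a2 : ((⌊δ * M n⌋₊ + 1 : ℕ) : ℝ) ≤ δ * M n + 1 := by
    push_cast
    linarith [Nat.floor_le (mul_nonneg δ0.le M0)]
  have a3 : ((M n / (⌊δ * M n⌋₊ + 1) : ℕ) : ℝ) ≤ 1 / δ := by
    refine Nat.cast_div_le.trans ?_
    rw [div_le_div_iff₀ (by positivity) δ0]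
    push_cast
    linarith [Nat.lt_floor_add_one (δ * M n)]
  have a4 : k ^ 3 * δ ≤ ε := by
    rw [hδ, mul_div_assoc', div_le_iff₀ (by positivity)]
    linarith
  have a5 := mul_le_mul_of_nonneg_left a2 (pow_nonneg k0 3)
  have a6 := mul_le_mul_of_nonneg_right a4 M0
  have a7 := mul_le_mul_of_nonneg_right (mul_le_mul_of_nonneg_left
    (show 2 * ((M n / (⌊δ * M n⌋₊ + 1) : ℕ) : ℝ) + 3 ≤ 2 * (1 / δ) + 3 by linarith)
    (show 0 ≤ (k + 1) ^ 3 by positivity)) (Real.log_nonneg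
      (show 1 ≤ 2 * ((2 * k + 3) * ((k + 1) * ((Fintype.card ι).factorial *
        L n ^ (Fintype.card ι + 1))) ^ 2) + 3 by linarith [s2.1 n]))
  rw [← hk] at a1
  linarith

/-- **Multilinear Kakeya**: transversal lines `b + s v` through a common point. -/
theorem mk (hM : Big M) (hL : Sub M L)
    (h : ∀ᶠ n in UF, (∀ i, Fn (P n) (b n i) (l n i) ∧ Fn (P n) (v n i) (l n i)) ∧ ∀ ω ∈ (P n).S,
      ∀ i, ‖v n i ω‖ ≤ L n ∧ |s n i ω| ≤ L n ∧
        ‖x n ω - (b n i ω + s n i ω • v n i ω)‖ ≤ L n / 2 ^ M n)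
    (hd : Whp P fun n ω => 1 / L n ≤ |(Matrix.of fun i m => v n i ω m).det|) :
    Le M (fun n => ∑ i, ch (P n) (fun ω => fl1 (M n) (s n i ω)) fun ω => (l n i ω, θ n ω))
      fun n => ch (P n) (fun ω => flv (M n) (x n ω)) (θ n) := by
  set k : ℝ := (Fintype.card ι : ℝ) with hk
  have k0 : 0 ≤ k := Nat.cast_nonneg _
  obtain ⟨E, hE⟩ : ∃ E : ∀ n, Ω n → Prop,
      E = fun n ω => 1 / L n ≤ |(Matrix.of fun i m => v n i ω m).det| := ⟨_, rfl⟩
  rw [← hE] at hd
  have a1 := mk_sure (P := fun n => cE (P n) (E n)) (x := x) (s := s) (θ := θ) hM hL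
    ((h.and hd.pos.ex).mono fun n ⟨⟨h1, h2⟩, h3⟩ => ⟨fun i => ⟨fn_cE (h1 i).1 _, fn_cE (h1 i).2 _⟩,
      fun ω hω => ⟨h2 ω (cE_sub hω), by simpa only [hE] using ((mem_cE h3 ω).1 hω).2⟩⟩)
  have a2 : ∀ i, Le M (fun n => ch (cE (P n) fun ω => ¬E n ω) (fun ω => fl1 (M n) (s n i ω))
      fun ω => (l n i ω, θ n ω)) fun n => ((M n : ℝ) - (0 : ℕ)) * lg := fun i =>
    le_fl1 (j := fun _ => 0) hM (hL.const_mul hM one_le_two) (fun _ => Nat.zero_le _)
      (h.mono fun n hn p hp q hq _ => by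
        linarith [abs_sub (s n i p) (s n i q), (hn.2 p (cE_sub hp) i).2.1,
          (hn.2 q (cE_sub hq) i).2.1, pow_zero (2 : ℝ), div_one (2 * L n)])
  have a3 := Le.sum univ fun i _ => a2 i
  refine Le.eps fun ε hε => ?_
  have p1 : ∀ᶠ n in UF, 0 ≤ pb (P n) (E n) ∧ pb (P n) (E n) ≤ 1 :=
    Eventually.of_forall fun n => ⟨pb_nonneg _ _, pb_le_one _ _⟩
  have p2 : ∀ᶠ n in UF, 0 ≤ 1 - pb (P n) (E n) ∧ 1 - pb (P n) (E n) ≤ 1 :=
    p1.mono fun n hn => ⟨by linarith, by linarith⟩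
  refine Le.of3 (a1.bmul p1) (a3.bmul p2) (hM.sm k)
    (((hd (ε / (k + 1)) (by positivity)).and p2).mono fun n ⟨h1, h2⟩ => ?_)
  have b1 := sum_le_sum fun i (_ : i ∈ univ) => KEA.le (P n) (E n)
    (fun ω => fl1 (M n) (s n i ω)) fun ω => (l n i ω, θ n ω)
  have b2 := KEA.ge (P n) (E n) (fun ω => flv (M n) (x n ω)) (θ n)
  have b3 := mul_nonneg h2.1 (ch_nonneg (P := cE (P n) fun ω => ¬E n ω)
    (fun ω => flv (M n) (x n ω)) (θ n))
  simp only [sum_add_distrib, ← mul_sum, sum_const, card_univ, nsmul_eq_mul, ← hk] at b1 ⊢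
  rw [pb_not, le_div_iff₀ (by positivity)] at h1
  have M0 : (0 : ℝ) ≤ M n := Nat.cast_nonneg _
  have b4 := mul_le_mul_of_nonneg_right h1 M0
  have b5 := mul_le_of_le_one_right k0 lg_lt_one.le
  have b6 := mul_le_of_le_one_right (mul_nonneg h2.1 (mul_nonneg k0 M0)) lg_lt_one.le
  have b7 := mul_nonneg h2.1 M0
  push_cast
  linarith

end Seq

end Pool.Agent.MP_5168f5_an.MX
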