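import Pool.Agent.MP_5168f5_an.MX.FXA
import Pool.Agent.MP_5168f5_an.MX.MK
import Pool.Agent.MP_5168f5_an.H17F.KS

/-! The fixed frame: slabs or three transversal lines. -/

namespace Pool.Agent.MP_5168f5_an.MX

open H19 H17S H17F R4.K31 Filter

namespace FX

attribute [local irreducible] ch mi pb fl1

/-- For every function `m` of `X`, the event `E m` is almost sure. -/
def Av {Ω β C : ℕ → Type} (P : ∀ n, FP (Ω n)) (E : ∀ n, C n → Ω n → Prop) (X : ∀ n, Ω n → β n) :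
    Prop := ∀ m : ∀ n, β n → C n, Whp P fun n ω => E n (m n (X n ω)) ω

theorem Av.snd {Ω Ω' β C : ℕ → Type} {P : ∀ n, FP (Ω n)} {Q : ∀ n, FP (Ω' n)}
    {E : ∀ n, C n → Ω n → Prop} {X : ∀ n, Ω n → β n} {ψ : ∀ n, Ω' n → β n} (h : Av P E X)
    (k : ∀ n, Law (Q n) (ψ n) (P n) (X n)) (m : ∀ n, Ω' n → C n) :
    Whp (fun n => glue (Q n) (P n) (ψ n) (X n)) fun n v => E n (m n v.1) v.2 := by
  choose m' hm using fun n => pb_glue _ _ _ _ (k n) fun a ω => ¬E n (m n a) ω
  exact fun ε hε => (h (fun n s => m n (m' n s)) ε hε).mono fun n a => (hm n).trans a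

variable {o : ℕ → Ob} {k R a b y : ℕ → ℕ} {ν β κ : ℝ} {γ : ℕ → Type}

theorem np0 (hβ : 0 < β) (h : Fz ν β κ o k R) {X : ∀ n, (o n).Ω → γ n}
    (h1 : ∀ n, Fn (o n).P ((o n).S (o n).j) (X n))
    (h2 : Sm R fun n => ch (o n).P (X n) ((o n).S (o n).j)) (hb : Frac b R) {m : ∀ n, γ n → ℝ × ℝ}
    (e : ∀ᶠ n in UF, ∀ ω ∈ (o n).P.S, ‖ev (o n) ω - m n (X n ω)‖ < 1 / 2 ^ b n) : False := by
  have t : ∀ᶠ n in UF, b n ≤ (o n).j ∧ k n ≤ (o n).j - b n ∧ (o n).j - b n ≤ k n + R n :=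
    h.top.mono fun n u => by have := hb.1 n; omega
  have a1 := h.opt.self.box (h.alg.mono fun _ u => u.1) (K := X) (a := fun n => (o n).j - b n)
    (p := fun n => ⟨(o n).j, (o n).f (o n).j, (o n).j + (o n).d, (o n).d + b n,
      (o n).j + ((o n).d + (o n).f (o n).j), (o n).d + (o n).f (o n).j + b n⟩)
    (t.mono fun _ u => ⟨u.2.1, le_rfl, u.2.2⟩) (h.big.sub one_le_two) (by
      filter_upwards [e, h.alg, t] with n u v w
      have := v.1.flo
      exact ⟨kn_ev (h1 n) u, by omega⟩)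
  obtain ⟨-, c, hc, hb⟩ := hb
  refine (a1.add h2).false h.big (mul_pos (mul_pos hβ lg_pos) hc) ?_
  filter_upwards [t, hb] with n u v
  have a2 := ch_tri' (P := (o n).P) (o n).x.l ((o n).S (o n).j) (X n)
  have a3 := mul_le_mul_of_nonneg_left v (mul_pos hβ lg_pos).le
  rw [Ob.top, max_eq_right (by omega), Nat.cast_sub u.1]
  push_cast
  linarith

/-- The directions through a top cell are spread. -/
theorem np (hβ : 0 < β) (h : Fz ν β κ o k R) {X : ∀ n, (o n).Ω → γ n}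
    (h1 : ∀ n, Fn (o n).P ((o n).S (o n).j) (X n))
    (h2 : Sm R fun n => ch (o n).P (X n) ((o n).S (o n).j)) (hb : Frac b R) :
    Av (oP o) (fun n (m : ℝ × ℝ) ω => 1 / 2 ^ b n ≤ ‖ev (o n) ω - m‖) X := fun m => by
  by_contra q
  have e := not_whp q
  exact np0 hβ (h.pull (dnS_cE e)) (X := X) (fun n => fn_cE (h1 n) _) ((dnS_cE e).sm_ch h2) hb
    (m := m) (e.sure.mono fun n u ω hω => not_le.1 (u ω hω).2)

/-- The two cells. -/
noncomputable abbrev cx (o : Ob) (k a : ℕ) (ω : o.Ω) := (o.S a ω, o.S k ω)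

theorem nl0 (p : Par ν β κ) (h : Fz ν β κ o k R) (hy : Frac y R)
    (ha : ∀ᶠ n in UF, a n + y n = (o n).j) {m : ∀ n, _ → (ℝ × ℝ) × ℝ}
    (e : ∀ᶠ n in UF, ∀ ω ∈ (o n).P.S, ‖(m n (cx (o n) (k n) (a n) ω)).1‖ = 1 ∧
      |dot (m n (cx (o n) (k n) (a n) ω)).1 (ev (o n) ω) - (m n (cx (o n) (k n) (a n) ω)).2| < 1 / 2 ^ y n) :
    False := by
  have hβ : 0 < β := by linarith [p.gap, p.k1, p.n0]
  obtain ⟨δ, d0, d1, d2⟩ : ∃ δ : ℝ, 0 < δ ∧ δ ≤ 1 ∧ 2 * δ ≤ β - ν - 1 + κ :=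
    ⟨min 1 ((β - ν - 1 + κ) / 2), lt_min one_pos (by linarith [p.gap, p.k1]), min_le_left _ _,
      by linarith [min_le_right 1 ((β - ν - 1 + κ) / 2)]⟩
  have hb := ((h.big.frac hy).frac_floor d0 d1)
  set b : ℕ → ℕ := fun n => ⌊δ * y n⌋₊ with eb
  have t : In k R a fun n => (o n).j := (h.top.and ha).mono fun n u => by
    have := hy.1 n; beta_reduce; omega
  set K := fun n ω => (cx (o n) (k n) (a n) ω, fl1 (o n).j (dot (m n (cx (o n) (k n) (a n) ω)).1 (ps (o n) (a n) ω)))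
    with eK
  have a1 := h.opt.self a (fun _ => 2) _ K _ _ t.left (h.big.sub one_le_two) (by
    filter_upwards [e, h.alg, ha] with n u v w using slab v.1 (h.cs n) w (Fn.fst _ _) u)
  have a2 : ∀ᶠ n in UF, ch (o n).P (fun ω => ((o n).S (o n).j ω, K n ω)) ((o n).S (o n).j) ≤ 90 := by
    filter_upwards [e, h.mono, ha, t] with n u v w x
    have b1 := slab_ch (h.cs n) w (X := cx (o n) (k n) (a n)) (Fn.fst _ _) u
    have b2 := ch_subadd (P := (o n).P) ((o n).S (a n)) ((o n).S (k n)) ((o n).S (o n).j)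
    have b3 := Ob.ch_S v x.2.1 (Fn.rfl _)
    have b4 := Ob.ch_S v (x.1.trans x.2.1) (Fn.rfl _)
    refine (ch_mono ((Fn.snd _ _).pair (Fn.fst _ _))).trans ((ch_chain _ _ _).trans_le ?_)
    linarith
  have a3 := (np hβ h (X := fun n ω => ((o n).S (o n).j ω, K n ω)) (fun _ => Fn.fst _ _)
    ((h.big.sm 90).mono a2) (hb.trans hy)).snd (fun _ => Law.rfl _) fun n => ev (o n)
  have a4 := le_whp1 (C := 1) (x := fun n v => (o n).x.z v.1) (j := fun n => (o n).j - b n)
    (k := fun n => (o n).j) (X := fun n v => ((o n).x.l v.1, (o n).x.l v.2, K n v.1)) h.big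
    (h.big.sub (C := 4) (by norm_num)) a3 (fun _ => Nat.sub_le _ _) (by
      filter_upwards [ha] with n w v hv v' hv' q
      obtain ⟨b1, b2, b3⟩ := (mem_cp _ _ v).1 hv
      obtain ⟨b4, b5, b6⟩ := (mem_cp _ _ v').1 hv'
      have c1 : (o n).S (a n) v.1 = (o n).S (a n) v'.1 := congrArg (·.2.2.1.1) q
      have c2 : (o n).S (a n) v.1 = (o n).S (a n) v.2 := congrArg (·.2.1.1) b3.symm
      have c3 : (o n).S (a n) v'.1 = (o n).S (a n) v'.2 := congrArg (·.2.1.1) b6.symm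
      refine ⟨?_, fun s _ => two (h.cs n) (congrArg (·.1) b3.symm) (congrArg (·.1) b6.symm) c2 c3 c1
        ((o n).wn_lS _ _ b1 _ b4 (Prod.ext (congrArg (·.1) q) c1)) ((o n).wn_lS _ _ b2 _ b5
          (Prod.ext (congrArg (·.2.1) q) (c2.symm.trans (c1.trans c3)))) s
            (by have := hb.1 n; omega)⟩
      refine (abs_sub_lt_of_fl1_eq ((o n).S_z _ _ b1 _ b4 c1)).le.trans ?_
      rw [← w, pow_add, le_div_iff₀ (by positivity), inv_mul_cancel_left₀ (by positivity), one_mul]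
      exact (two_pow_le_exp _).trans (Real.exp_le_exp.2 (by exact_mod_cast hy.1 n)))
  obtain ⟨-, c, hc, hy⟩ := hy
  refine ((a1.add a4).add ((hgt_lo h.toBs h.toRot t).add (h.big.sm 92))).false h.big
    (mul_pos (mul_pos d0 lg_pos) hc) ?_
  filter_upwards [e, h.alg, ha, t, a2, hy] with n u v w x a2 hy
  have b1 := cor (o n).P (o n).x.l (X := fun ω => ((o n).S (o n).j ω, K n ω)) (K := K n)
    (fun ω => fl1 (o n).j ((o n).x.z ω)) (Fn.snd _ _)
  have b2 : ch (o n).P (fun ω => fl1 (o n).j ((o n).x.z ω)) ((o n).wn (a n)) ≤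
      ch (o n).P (fun ω => fl1 (o n).j ((o n).x.z ω)) fun ω => ((o n).x.l ω, K n ω) := by
    have f : Fn (o n).P (cx (o n) (k n) (a n)) ((o n).wn (a n)) :=
      ((o n).S_wn _).pair (((o n).S_wn _).trans (Ob.wn_mono v.1.mono x.1))
    exact ch_anti (((o n).l_wn _).pair (f.pair fun s hs s' hs' q => by
      simp only [f s hs s' hs' q, (wn_eq (h.cs n) q).1]))
  have b3 := ch_tri' (P := (o n).P) (o n).x.l ((o n).S (o n).j) fun ω => ((o n).S (o n).j ω, K n ω)
  have b4 : ch (o n).P (o n).x.l (fun ω => ((o n).S (o n).j ω, K n ω)) ≤ ch (o n).P (o n).x.l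
    fun ω => (((o n).S (o n).j ω, K n ω), K n ω) := ch_anti ((Fn.rfl _).pair (Fn.snd _ _))
  have b5 := (o n).P.E_mono fun ω hω => sm_val (d := (o n).d) (f := (o n).f (o n).j) p.n0.le
    (u ω hω).1 (v.1.rn ((o n).f (o n).j) hω) x.2.1
  have b6 : ((o n).j - a n : ℝ) = y n := by rw [← w]; push_cast; ring
  have b7 : (b n : ℝ) ≤ δ * y n := Nat.floor_le (by positivity)
  have b8 := mul_le_mul_of_nonneg_left hy (mul_pos d0 lg_pos).le
  have b9 := mul_le_mul_of_nonneg_right d2 (mul_nonneg (Nat.cast_nonneg (y n)) lg_pos.le)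
  have b10 := mul_le_mul_of_nonneg_right b7 lg_pos.le
  have b11 := mul_le_mul p.n1.le lg_lt_one.le lg_pos.le zero_le_one
  rw [FP.E_const, b6] at b5
  rw [Ob.top, Ob.Phi, b6, Nat.cast_sub (by have := hb.1 n; omega)]
  simp only [mi, gr] at b1 ⊢
  linarith

/-- The directions through a cell are not near a line. -/
theorem nl (p : Par ν β κ) (h : Fz ν β κ o k R) (hy : Frac y R)
    (ha : ∀ᶠ n in UF, a n + y n = (o n).j) : Av (oP o) (fun n (m : (ℝ × ℝ) × ℝ) ω =>
      ‖m.1‖ = 1 → 1 / 2 ^ y n ≤ |dot m.1 (ev (o n) ω) - m.2|)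
        fun n => cx (o n) (k n) (a n) := fun m => by
  by_contra q
  have e := not_whp q
  exact nl0 p (h.pull (dnS_cE e)) hy ha (m := m) (e.sure.mono fun n u ω hω =>
    (Classical.not_imp.1 (u ω hω).2).imp_right not_le.1)

section Three

variable {Ω X : Type} (P : FP Ω) (G : Ω → X)

/-- Three copies. -/
noncomputable abbrev t3 : FP ((Ω × Ω) × Ω) := glue (glue P P G G) P (fun v => G v.1) G

/-- The copies. -/
def pj : Fin 3 → (Ω × Ω) × Ω → Ω := ![fun v => v.1.1, fun v => v.1.2, fun v => v.2]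

theorem law3 (i : Fin 3) : Law (t3 P G) (pj i) P id := by
  fin_cases i
  · exact ((tg.fst _ _ _ _).comp Prod.fst).trans (tg.fst P P G G)
  · exact ((tg.fst _ _ _ _).comp Prod.snd).trans (tg.snd P P G G (Law.rfl _))
  · exact tg.snd _ _ _ _ ((tg.fst P P G G).comp G)

variable {P G} in
theorem mem3 {v : (Ω × Ω) × Ω} (h : v ∈ (t3 P G).S) (i : Fin 3) : G v.1.1 = G (pj i v) := by
  obtain ⟨a1, -, a2⟩ := (tg.mem _ _ _ _ v ((tg.fst P P G G).comp G)).1 h
  fin_cases i
  · rfl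
  · exact ((mem_cp _ _ _).1 a1).2.2.symm
  · exact a2.symm

variable (o : Ob) (k a : ℕ) (ω : o.Ω)

/-- The parameter on the rescaled line. -/
noncomputable def ss : ℝ := 2 ^ k * (rn a (o.x.z ω) - rn k (o.x.z ω))

/-- Its base point. -/
noncomputable def bb : Fin 3 → ℝ := ![0, 2 ^ k * (ps o k ω).1, 2 ^ k * (ps o k ω).2]

/-- Its direction. -/
noncomputable def vv : Fin 3 → ℝ := ![1, (ev o ω - fe o ω).1, (ev o ω - fe o ω).2]

/-- The area spanned by three directions. -/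
noncomputable def ar (v : (o.Ω × o.Ω) × o.Ω) : ℝ :=
  dot (pp (ev o v.1.2 - ev o v.1.1)) (ev o v.2 - ev o v.1.1)

variable {o k a} {i : ℕ}

theorem near (c : Cs o) {v w : o.Ω} (e : o.S (k + i) v = o.S (k + i) w) :
    ‖bb o k v + ss o k (k + i) v • vv o v - (bb o k w + ss o k (k + i) w • vv o w)‖ ≤ 1 / 2 ^ i := by
  obtain ⟨a1, -, a2, a3, -⟩ := cell c e
  have a4 : rn k (o.x.z v) = rn k (o.x.z w) := by
    rw [rn, fl1_eq_of_le (Nat.le_add_right k i) (congrArg (·.2.1.1) e :), rn]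
  rw [ps_eq o k _ v, ps_eq o k _ w, norm_prod_le_iff] at a2
  have a5 := pw_le (t := k) (a := 0) (E := k) (L := 1 / 2 ^ i)
    (a2.1.trans_eq (by rw [pow_add]; field_simp)) (by omega)
  have a6 := pw_le (t := k) (a := 0) (E := k) (L := 1 / 2 ^ i)
    (a2.2.trans_eq (by rw [pow_add]; field_simp)) (by omega)
  refine (pi_norm_le_iff_of_nonneg (by positivity)).2 fun m => ?_
  simp only [Prod.fst_sub, Prod.snd_sub, Prod.fst_add, Prod.snd_add, Prod.smul_fst, Prod.smul_snd,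
    smul_eq_mul, pow_zero, mul_one, ← a1, ← a4] at a5 a6
  fin_cases m <;> simp only [bb, vv, ss, ← a1, ← a3, ← a4, Real.norm_eq_abs, Pi.sub_apply,
    Pi.add_apply, Pi.smul_apply, smul_eq_mul, Prod.fst_sub, Prod.snd_sub]
  · simp
  · refine le_of_eq_of_le (congrArg _ ?_) a5; simp; ring
  · refine le_of_eq_of_le (congrArg _ ?_) a6; simp; ring

theorem fl1_ss : fl1 (k + i) (o.x.z ω) = fl1 i (ss o k (k + i) ω) + 2 ^ i * fl1 k (o.x.z ω) := by
  have : 2 ^ i * ss o k (k + i) ω = ((fl1 (k + i) (o.x.z ω) - 2 ^ i * fl1 k (o.x.z ω) : ℤ) : ℝ) := by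
    simp only [ss, rn, pow_add]; push_cast; field_simp
  unfold fl1 at this ⊢
  rw [this, Int.floor_intCast]; ring

theorem det3 (c : Cs o) {v : (o.Ω × o.Ω) × o.Ω} (h : v ∈ (t3 o.P (cx o k a)).S) :
    (Matrix.of fun i m => vv o (pj i v) m).det = ar o v := by
  have a1 := (cell c (congrArg Prod.fst (mem3 h 1))).2.2.2.1
  have a2 := (cell c (congrArg Prod.fst (mem3 h 2))).2.2.2.1
  simp only [pj, Matrix.cons_val] at a1 a2
  simp only [Matrix.det_fin_three, Matrix.of_apply, vv, pj, Matrix.cons_val, ← a1, ← a2, ar, dot,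
    pp, Prod.fst_sub, Prod.snd_sub]
  ring

theorem three (hm : Monotone o.f) (c : Cs o) :
    3 * ch o.P (fun ω => fl1 (k + i) (o.x.z ω)) (o.wn k) ≤
      ∑ m, ch (t3 o.P (cx o k (k + i))) (fun v => fl1 i (ss o k (k + i) (pj m v)))
        (fun v => (o.wn k (pj m v), o.S k v.1.1)) ∧
    ch (t3 o.P (cx o k (k + i))) (fun v => flv i (bb o k v.1.1 + ss o k (k + i) v.1.1 • vv o v.1.1))
      (fun v => o.S k v.1.1) ≤ o.J k (k + i) + 52 +
        ch o.P (o.x.zg (k + i) (o.f (k + i))) (o.wn k) := by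
  constructor
  · refine le_of_eq_of_le (by simp) (Finset.sum_le_sum fun m _ =>
      (?_ : ch o.P (fun ω => fl1 (k + i) (o.x.z ω)) (o.wn k) ≤ _))
    refine (ch_mono (F' := fun ω => fl1 i (ss o k (k + i) ω)) fun v _ w _ e => ?_).trans
      (((law3 o.P (cx o k (k + i)) m).ch_id _ _).ge.trans (ch_anti ((Fn.rfl _).pair
        fun v hv w hw e => ?_)))
    · simp only [fl1_ss]
      exact congrArg₂ (fun s t => s + 2 ^ i * t) (congrArg Prod.fst e) (congrArg (·.2.2.1) e)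
    · exact (congrArg Prod.snd (mem3 hv m)).trans ((o.S_wn k _ ((law3 _ _ m).mem hv) _
        ((law3 _ _ m).mem hw) e).trans (congrArg Prod.snd (mem3 hw m)).symm)
  · refine ((law3 o.P (cx o k (k + i)) 0).ch_id (fun ω => flv i (bb o k ω + ss o k (k + i) ω •
      vv o ω)) (o.S k)).trans_le ((ch_tri _ (o.S (k + i)) _).trans ?_)
    have a1 := ch_near (P := o.P) (G := cx o k (k + i)) zero_le_one fun v _ w _ e =>
      near c (congrArg Prod.fst e)
    have a2 := Real.log_le_sub_one_of_pos (show (0 : ℝ) < 2 * 1 + 3 by norm_num)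
    have a3 := Ob.le_J hm (Nat.le_add_right k i)
    have a4 : ch o.P (o.S (k + i)) (fun ω => (o.x.l ω, o.S k ω)) ≤
        ch o.P (o.x.zg (k + i) (o.f (k + i))) (o.wn k) :=
      (ch_mono ((o.S_wn _).trans (((Fn.fst _ _).right _).pair (Fn.fst _ _)))).trans
        (ch_anti (o.wn_lS k))
    rw [mi_symm, mi] at a3
    simp only [Fintype.card_fin, Nat.cast_ofNat] at a1
    linarith

end Three

theorem whp3 (h : Av (oP o) (fun n (m : (ℝ × ℝ) × ℝ) ω =>
      ‖m.1‖ = 1 → 1 / 2 ^ y n ≤ |dot m.1 (ev (o n) ω) - m.2|) fun n => cx (o n) (k n) (a n)) :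
    Whp (fun n => t3 (o n).P (cx (o n) (k n) (a n))) fun n v =>
      1 / 2 ^ (2 * y n) ≤ |ar (o n) v| := by
  refine (((dn_fst _ _ _ _).whp (h.snd (fun _ => Law.rfl _) fun n ω =>
    ((1, 0), (ev (o n) ω).1))).and (h.snd (fun n => (tg.fst _ _ _ _).comp _) fun n v =>
      (‖ev (o n) v.2 - ev (o n) v.1‖⁻¹ • pp (ev (o n) v.2 - ev (o n) v.1),
        dot (‖ev (o n) v.2 - ev (o n) v.1‖⁻¹ • pp (ev (o n) v.2 - ev (o n) v.1))
          (ev (o n) v.1)))).mono (Eventually.of_forall fun n v _ u => ?_)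
  have a1 : 1 / 2 ^ y n ≤ ‖ev (o n) v.1.2 - ev (o n) v.1.1‖ :=
    (u.1 (by simp)).trans (le_of_eq_of_le (by simp [dot]) (norm_fst_le _))
  have a0 := lt_of_lt_of_le (by positivity) a1
  have a2 := u.2 (by rw [norm_smul, pp_norm, norm_inv, norm_norm, inv_mul_cancel₀ a0.ne'])
  rw [← dot_sub, show dot (_ • _) _ = ‖ev (o n) v.1.2 - ev (o n) v.1.1‖⁻¹ * ar (o n) v by
    simp only [ar, dot, Prod.smul_fst, Prod.smul_snd, smul_eq_mul]; ring, abs_mul, abs_inv,
    abs_norm, le_inv_mul_iff₀ a0] at a2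
  refine le_trans (le_of_eq ?_) ((mul_le_mul_of_nonneg_right a1 (by positivity)).trans a2)
  rw [two_mul, pow_add]; field_simp

theorem fin (p : Par ν β κ) (h : Fz ν β κ o k R) : False := by
  have k0 : 0 < κ := by linarith [p.n0, p.b2, p.gap]
  have c0 : ∀ m : ℕ, (0 : ℝ) < 1 / (m + 1) := fun m => by positivity
  obtain ⟨m, m1, m2⟩ := KSA.spill _ fun m => whp3 (nl (y := fun n => R n / (m + 1))
    (a := fun n => k n + (R n - R n / (m + 1))) p h (h.big.frac_div m.succ_pos)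
    (h.top.mono fun n u => by have := Nat.div_le_self (R n) (m + 1); omega)) _ (c0 m)
  set y : ℕ → ℕ := fun n => R n / (m n + 1) with ey
  have m3 : ∀ ε : ℝ, 0 < ε → ∀ᶠ n in UF, 1 / (m n + 1 : ℝ) ≤ ε := fun ε hε => by
    filter_upwards [m1.ev (1 / ε)] with n u
    rw [div_le_iff₀ hε] at u
    rw [div_le_iff₀ (by positivity)]
    linarith
  have y0 : ∀ n, y n ≤ R n := fun n => Nat.div_le_self _ _
  have y1 : Sm R fun n => y n := fun ε hε => (m3 ε hε).mono fun n u => by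
    refine Nat.cast_div_le.trans ?_
    push_cast
    rw [zero_add, ← mul_one_div, mul_comm]
    exact mul_le_mul_of_nonneg_right u (Nat.cast_nonneg _)
  have f : Frac (fun n => R n - y n) R := ⟨fun _ => Nat.sub_le _ _, 1 / 2, one_half_pos,
    (y1 _ one_half_pos).mono fun n u => by rw [Nat.cast_sub (y0 n)]; linarith⟩
  have hL : Sub R fun n => 2 ^ (2 * y n) := (Sub.exp (y1.smul zero_le_two) fun n => by
    positivity).mono (fun n => one_le_pow₀ one_le_two) (Eventually.of_forall fun n =>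
      (two_pow_le_exp _).trans_eq (by push_cast; rfl))
  have a1 := mk (ι := Fin 3) (P := fun n => t3 (o n).P (cx (o n) (k n) (k n + (R n - y n))))
    (x := fun n v => bb (o n) (k n) v.1.1 + ss (o n) (k n) (k n + (R n - y n)) v.1.1 •
      vv (o n) v.1.1) (b := fun n i v => bb (o n) (k n) (pj i v))
    (v := fun n i v => vv (o n) (pj i v))
    (s := fun n i v => ss (o n) (k n) (k n + (R n - y n)) (pj i v))
    (l := fun n i v => (o n).wn (k n) (pj i v)) (θ := fun n v => (o n).S (k n) v.1.1)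
    (h.big.frac f) (hL.frac f) (Eventually.of_forall fun n => ⟨fun i => ⟨fun _ _ _ _ e => by
      simp only [bb, (wn_eq (h.cs n) e).1], fun _ _ _ _ e => by
        simp only [vv, fe, (wn_eq (h.cs n) e).2]⟩, fun v hv i => ⟨le_trans ?_ (hL.1 n),
          le_trans ?_ (hL.1 n), (near (h.cs n) (congrArg Prod.fst (mem3 hv i))).trans
            (div_le_div_of_nonneg_right (hL.1 n) (by positivity))⟩⟩)
    (Whp.mono (E := fun n v => 1 / 2 ^ (2 * y n) ≤ |ar (o n) v|) (fun ε hε => by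
      filter_upwards [m2, m3 ε hε] with n u w using (u _ le_rfl).trans w)
      (Eventually.of_forall fun n v hv u => by rwa [det3 (h.cs n) hv]))
  · have t : In k R k fun n => k n + (R n - y n) := Eventually.of_forall fun n => by
      beta_reduce; omega
    refine (((a1.up f.1).add ((hgt_lo h.toBs h.toRot t).smul (zero_le_three))).add
      (((hgt_up h.toBs h.toRot t).add (h.toXT.loss t.left)).add ((h.big.sm 92).add
        (y1.smul (mul_pos (mul_pos two_pos k0) lg_pos).le)))).false h.big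
          (mul_pos p.n0 lg_pos) ?_
    filter_upwards [h.mono, h.top] with n u w
    obtain ⟨b1, b2⟩ := three (k := k n) (i := R n - y n) u (h.cs n)
    have b3 := (o n).J_add (k n) (k n + (R n - y n)) (o n).j
    have b4 := Ob.J_ge u (show k n + (R n - y n) ≤ (o n).j by omega)
    have b5 := mul_le_mul_of_nonneg_right p.gap.le (mul_nonneg (Nat.cast_nonneg (R n)) lg_pos.le)
    have b6 : ((o n).j - k n : ℝ) = R n := by rw [← w]; push_cast; ring
    rw [Ob.F, h.cs n (k n), b6]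
    push_cast [Nat.cast_sub (y0 n)]
    linarith
  · refine (pi_norm_le_iff_of_nonneg zero_le_one).2 fun j => ?_
    have := norm_prod_le_iff.1 (ev_fe (o n) (pj i v))
    fin_cases j
    · simp [vv]
    · exact this.1
    · exact this.2
  · have := rn_sub (k n + (R n - y n)) (k n) ((o n).x.z (pj i v))
    rw [min_eq_right (Nat.le_add_right _ _)] at this
    simpa [ss] using pw_le (t := k n) (a := 0) this (by omega)

end FX

theorem rowFX : SFX := fun _ _ _ _ _ _ p h f =>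
  (FX.freeze p.n1 h f).elim fun _ u => u.elim fun _ u => u.elim fun _ u => FX.fin p u

end Pool.Agent.MP_5168f5_an.MX
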