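import Pool.Agent.MP_5168f5_an.MX.QApi

/-! The fixed frame: coordinates, the slab label, freezing the frame. -/

namespace Pool.Agent.MP_5168f5_an.MX

open H19 H17S H17F R4.K31 Filter

namespace FX

/-- The scalar product. -/
def dot (u v : ℝ × ℝ) : ℝ := u.1 * v.1 + u.2 * v.2

theorem dot_sub (u v w : ℝ × ℝ) : dot u (v - w) = dot u v - dot u w := by
  simp only [dot, Prod.fst_sub, Prod.snd_sub]; ring

theorem dot_le {u v : ℝ × ℝ} {c : ℝ} (h : ‖u‖ = 1) (e : ‖v‖ ≤ c) : |dot u v| ≤ 2 * c := by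
  have a1 : |u.1 * v.1| ≤ 1 * c := (abs_mul _ _).trans_le (mul_le_mul ((norm_fst_le u).trans h.le)
    ((norm_fst_le v).trans e) (abs_nonneg _) zero_le_one)
  have a2 : |u.2 * v.2| ≤ 1 * c := (abs_mul _ _).trans_le (mul_le_mul ((norm_snd_le u).trans h.le)
    ((norm_snd_le v).trans e) (abs_nonneg _) zero_le_one)
  exact (abs_add_le _ _).trans (by linarith)

/-- The perpendicular vector. -/
def pp (u : ℝ × ℝ) : ℝ × ℝ := (-u.2, u.1)

theorem pp_norm (u : ℝ × ℝ) : ‖pp u‖ = ‖u‖ := by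
  simp only [pp, Prod.norm_def, norm_neg]; exact max_comm _ _

/-- Normalised coordinates of a vector in the frame `g`. -/
noncomputable def co (d f : ℕ) (g s t : ℝ) : ℝ × ℝ := (2 ^ d * s, 2 ^ (d + f) * (t - g * s))

/-- The matrix of a slab with normal `u`. -/
noncomputable def sm (j a d f : ℕ) (g : ℝ) (u : ℝ × ℝ) : Mt :=
  ((2 ^ j * dot u (co d f g 1 0), 2 ^ j * dot u (co d f g 0 1)),
    2 ^ a * dot (pp u) (co d f g 1 0), 2 ^ a * dot (pp u) (co d f g 0 1))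

variable {j a d f : ℕ} {g ν : ℝ} {u : ℝ × ℝ}

theorem sm_ap (s t : ℝ) : (sm j a d f g u).ap s t =
    (2 ^ j * dot u (co d f g s t), 2 ^ a * dot (pp u) (co d f g s t)) := by
  simp only [sm, Mt.ap, dot, co]; congr 1 <;> ring

theorem sm_dt (h : ‖u‖ = 1) : 2 ^ (j + a + d + (d + f)) ≤ (sm j a d f g u).dt := by
  have a1 : 1 ≤ u.1 ^ 2 + u.2 ^ 2 := by
    rw [Prod.norm_def, Real.norm_eq_abs, Real.norm_eq_abs] at h
    rcases max_choice |u.1| |u.2| with e | e <;> rw [e] at h <;>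
      nlinarith [sq_abs u.1, sq_abs u.2, sq_nonneg u.1, sq_nonneg u.2]
  refine (le_mul_of_one_le_right (by positivity) a1).trans (le_of_eq ?_)
  simp only [sm, Mt.dt, dot, co, pp]; ring

theorem sm_le (h : ‖u‖ = 1) (hg : |g| ≤ 1) (e : a ≤ j) :
    ‖sm j a d f g u‖ ≤ 2 * 2 ^ (j + d + f) := by
  have c : ∀ s t : ℝ, |s| ≤ 1 → |t - g * s| ≤ 1 → ‖co d f g s t‖ ≤ 2 ^ (d + f) := fun s t a b => by
    simp only [co, norm_prod_le_iff, Real.norm_eq_abs, abs_mul, abs_pow, abs_two]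
    exact ⟨(mul_le_of_le_one_right (by positivity) a).trans
      (pow_le_pow_right₀ one_le_two (by omega)), mul_le_of_le_one_right (by positivity) b⟩
  have k : ∀ (i : ℕ) (v w : ℝ × ℝ), i ≤ j → ‖v‖ = 1 → ‖w‖ ≤ 2 ^ (d + f) →
      |2 ^ i * dot v w| ≤ 2 * 2 ^ (j + d + f) := fun i v w a b c => by
    rw [abs_mul, abs_pow, abs_two]
    exact (mul_le_mul (pow_le_pow_right₀ one_le_two a) (dot_le b c) (abs_nonneg _)
      (by positivity)).trans (le_of_eq (by ring))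
  have c1 := c 1 0 (by simp) (by simpa using hg)
  have c2 := c 0 1 (by simp) (by simp)
  have h' := (pp_norm u).trans h
  simp only [sm, norm_prod_le_iff, Real.norm_eq_abs]
  exact ⟨⟨k _ _ _ le_rfl h c1, k _ _ _ le_rfl h c2⟩, k _ _ _ e h' c1, k _ _ _ e h' c2⟩

theorem sm_val (hν : 0 ≤ ν) (h : ‖u‖ = 1) (hg : |g| ≤ 1) (e : a ≤ j) :
    (2 * (j + d) + (1 - ν) * f - (1 + ν) * (j - a) - 2 * ν) * lg ≤ (sm j a d f g u).val ν := by
  have a1 := sm_dt (j := j) (a := a) (d := d) (f := f) (g := g) h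
  have a2 : 0 < ‖sm j a d f g u‖ := norm_pos_iff.2 fun e => by
    rw [e] at a1
    simp only [Mt.dt, Prod.fst_zero, Prod.snd_zero, mul_zero, sub_zero] at a1
    exact absurd a1 (not_le.2 (by positivity))
  have b1 := Real.log_le_log a2 (sm_le h hg e)
  have b2 := Real.log_le_log (by positivity) (a1.trans (le_abs_self _))
  rw [← pow_succ', log_two_pow] at b1
  rw [log_two_pow] at b2
  rw [Mt.val]
  push_cast at b1 b2
  nlinarith

variable (o : Ob)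

/-- The rounded frame. -/
noncomputable def gr (ω : o.Ω) : ℝ := rn (o.f o.j) (o.x.g ω)

/-- The direction. -/
noncomputable def ev (ω : o.Ω) : ℝ × ℝ := co o.d (o.f o.j) (gr o ω) (o.x.e1 ω) (o.x.e2 ω)

/-- The position at the height of level `a`. -/
noncomputable def ps (a : ℕ) (ω : o.Ω) : ℝ × ℝ := co o.d (o.f o.j) (gr o ω)
  (o.x.a1 ω + rn a (o.x.z ω) * o.x.e1 ω) (o.x.a2 ω + rn a (o.x.z ω) * o.x.e2 ω)

/-- The rounded direction. -/
noncomputable def fe (ω : o.Ω) : ℝ × ℝ := (⌊(ev o ω).1⌋, ⌊(ev o ω).2⌋)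

/-- The frame is the same at all levels. -/
def Cs : Prop := ∀ a, o.f a = o.f o.j

theorem ps_eq (a b : ℕ) (ω : o.Ω) :
    ps o b ω = ps o a ω + (rn b (o.x.z ω) - rn a (o.x.z ω)) • ev o ω := by
  simp only [ps, ev, co, Prod.smul_mk, Prod.mk_add_mk, smul_eq_mul]; congr 1 <;> ring

theorem ev_fe (ω : o.Ω) : ‖ev o ω - fe o ω‖ ≤ 1 := by
  have k : ∀ x : ℝ, |x - ⌊x⌋| ≤ 1 := fun x =>
    abs_le.2 ⟨by linarith [Int.floor_le x], by linarith [Int.lt_floor_add_one x]⟩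
  exact norm_prod_le_iff.2 ⟨k _, k _⟩

variable {o}

theorem cell (c : Cs o) {v w : o.Ω} (e : o.S a v = o.S a w) :
    rn a (o.x.z v) = rn a (o.x.z w) ∧ gr o v = gr o w ∧ ‖ps o a v - ps o a w‖ ≤ 1 / 2 ^ a ∧
      fe o v = fe o w ∧ ‖ev o v - ev o w‖ ≤ 1 := by
  simp only [Ob.S, Ob.pm, lab, Pl.Bx, Pl.zg, c a, Prod.mk.injEq] at e
  obtain ⟨-, ⟨e1, e2⟩, e3, e4, e5, e6⟩ := e
  rw [add_comm, ← fl1_pow, ← fl1_pow] at e3 e5
  refine ⟨by rw [rn, e1, rn], by rw [gr, rn, e2, gr, rn], norm_prod_le_iff.2 ⟨?_, ?_⟩,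
    Prod.ext (congrArg Int.cast e4) (congrArg Int.cast e6), norm_prod_le_iff.2 ⟨?_, ?_⟩⟩
  · rw [one_div]; exact (abs_sub_lt_of_fl1_eq e3).le
  · rw [one_div]; exact (abs_sub_lt_of_fl1_eq e5).le
  · exact (Int.abs_sub_lt_one_of_floor_eq_floor e4).le
  · exact (Int.abs_sub_lt_one_of_floor_eq_floor e6).le

theorem wn_eq (c : Cs o) {v w : o.Ω} (e : o.wn a v = o.wn a w) :
    ps o a v = ps o a w ∧ ev o v = ev o w := by
  simp only [Ob.wn, Pl.lz, Pl.l, Pl.zg, c a, Prod.mk.injEq] at e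
  obtain ⟨⟨e1, e2, e3, e4, -⟩, e5, e6⟩ := e
  simp only [ps, ev, gr, rn, e1, e2, e3, e4, e5, e6, and_self]

theorem co_sub (s t s' t' : ℝ) : co d f g (s - s') (t - t') = co d f g s t - co d f g s' t' := by
  simp only [co, Prod.mk_sub_mk]; congr 1 <;> ring

/-- The slab label. -/
theorem slab (ho : o.Alg) (c : Cs o) {y : ℕ} (e : a + y = o.j) {γ : Type} {X : o.Ω → γ}
    (hX : Fn o.P (o.S a) X) {m : γ → (ℝ × ℝ) × ℝ} (hE : ∀ ω ∈ o.P.S, ‖(m (X ω)).1‖ = 1 ∧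
      |dot (m (X ω)).1 (ev o ω) - (m (X ω)).2| < 1 / 2 ^ y) :
    o.Lab a 2 (fun ω => (X ω, fl1 o.j (dot (m (X ω)).1 (ps o a ω))))
      (fun ω => sm o.j a o.d (o.f o.j) (gr o ω) (m (X ω)).1) fun ω => rn a (o.x.z ω) := by
  have k := fun v hv w hw (q : X v = X w) => cell c (hX v hv w hw q)
  refine ⟨((bx_θ (p := o.pm a)).trans hX).left _, ((o.S_z a).trans hX).left _,
    fun v hv w hw q => ?_, fun v hv w hw q => (k v hv w hw (congrArg Prod.fst q)).1,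
    fun ω hω => ⟨((by positivity : (0 : ℝ) < _).trans_le (sm_dt (hE ω hω).1)).ne',
      (sm_le (hE ω hω).1 (ho.rn _ hω) (by omega)).trans (mul_le_mul_of_nonneg_left
        (pow_le_pow_right₀ one_le_two ho.flo) zero_le_two), ?_⟩, fun v hv w hw q => ?_⟩
  · have q1 : X v = X w := congrArg Prod.fst q
    simp only [q1, (k v hv w hw q1).2.1]
  · rw [abs_le]
    constructor <;> linarith [rn_le a (o.x.z ω), lt_rn a (o.x.z ω), mul_one_div (2 : ℝ) (2 ^ a),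
      show (0 : ℝ) < 1 / 2 ^ a by positivity]
  · obtain ⟨q1, q2⟩ := Prod.mk.inj q
    obtain ⟨k1, k2, k3, -, k5⟩ := k v hv w hw q1
    have e1 : co o.d (o.f o.j) (gr o v) (o.x.a1 v - o.x.a1 w + rn a (o.x.z v) * (o.x.e1 v - o.x.e1 w))
        (o.x.a2 v - o.x.a2 w + rn a (o.x.z v) * (o.x.e2 v - o.x.e2 w)) = ps o a v - ps o a w := by
      rw [ps, ps, ← k1, ← k2, ← co_sub]; congr 1 <;> ring
    have e2 : co o.d (o.f o.j) (gr o v) (o.x.e1 v - o.x.e1 w) (o.x.e2 v - o.x.e2 w) =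
        ev o v - ev o w := by rw [ev, ev, ← k2, co_sub]
    have h1 := hE v hv
    have h2 := (hE w hw).2
    rw [← q1] at q2 h2
    have h3 := (pp_norm _).trans h1.1
    simp only [sm_ap, e1, e2, norm_prod_le_iff, Real.norm_eq_abs]
    refine ⟨⟨?_, ?_⟩, ?_, ?_⟩
    · have := pw_le (a := 0) (t := o.j) (L := 1) (E := o.j) (x := dot _ (ps o a v) - dot _ (ps o a w))
        (by rw [one_div]; exact (abs_sub_lt_of_fl1_eq q2).le) (by omega)
      rw [dot_sub]; linarith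
    · have := pw_le (a := 0) (t := a) (L := 2) (E := a)
        ((dot_le h3 k3).trans_eq (mul_one_div _ _)) (by omega)
      linarith
    · refine pw_le (E := y) ?_ e.ge
      rw [dot_sub, ← mul_one_div]
      linarith [abs_sub_le (dot (m (X v)).1 (ev o v)) (m (X v)).2 (dot (m (X v)).1 (ev o w)),
        abs_sub_comm (m (X v)).2 (dot (m (X v)).1 (ev o w)), h1.2]
    · exact pw_le (E := 0) ((dot_le h3 k5).trans_eq (by norm_num)) le_rfl

theorem dot_ps (u : ℝ × ℝ) (a b : ℕ) (ω : o.Ω) : dot u (ps o a ω) =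
    dot u (ps o b ω) + (rn a (o.x.z ω) - rn b (o.x.z ω)) * dot u (ev o ω) := by
  rw [ps_eq o b a]
  simp only [dot, Prod.fst_add, Prod.snd_add, Prod.smul_fst, Prod.smul_snd, smul_eq_mul]; ring

/-- The top cell knows the slab. -/
theorem slab_ch (c : Cs o) {y : ℕ} (e : a + y = o.j) {γ : Type} {X : o.Ω → γ}
    (hX : Fn o.P (o.S a) X) {m : γ → (ℝ × ℝ) × ℝ} (hE : ∀ ω ∈ o.P.S, ‖(m (X ω)).1‖ = 1 ∧
      |dot (m (X ω)).1 (ev o ω) - (m (X ω)).2| < 1 / 2 ^ y) :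
    ch o.P (fun ω => fl1 o.j (dot (m (X ω)).1 (ps o a ω))) (fun ω => (X ω, o.S o.j ω)) ≤ 10 := by
  refine (ch_near1 (L := 4) (by norm_num) fun v hv w hw q => ?_).trans
    ((Real.log_le_sub_one_of_pos (by norm_num)).trans (by norm_num))
  obtain ⟨q1, q2⟩ := Prod.mk.inj q
  obtain ⟨k1, -⟩ := cell c (hX v hv w hw q1)
  obtain ⟨k2, -, k3, -⟩ := cell c q2
  have h1 := hE v hv
  have h2 := (hE w hw).2
  rw [← q1] at h2 ⊢
  have h3 := dot_le h1.1 k3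
  have h4 : |dot (m (X v)).1 (ev o v) - dot (m (X v)).1 (ev o w)| ≤ 2 * (1 / 2 ^ y) := by
    linarith [abs_sub_le (dot (m (X v)).1 (ev o v)) (m (X v)).2 (dot (m (X v)).1 (ev o w)),
      abs_sub_comm (m (X v)).2 (dot (m (X v)).1 (ev o w)), h1.2]
  have h5 := rn_sub a o.j (o.x.z v)
  rw [min_eq_left (by omega)] at h5
  have h6 := mul_le_mul h5 h4 (abs_nonneg _) (by positivity)
  rw [dot_sub] at h3
  rw [← abs_mul, show (1 : ℝ) / 2 ^ a * (2 * (1 / 2 ^ y)) = 2 * (1 / 2 ^ o.j) by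
    rw [← e, pow_add]; field_simp] at h6
  rw [dot_ps _ a o.j v, dot_ps _ a o.j w, ← k1, ← k2, ← mul_one_div]
  refine le_of_eq_of_le (congrArg _ ?_) ((abs_add_le _ _).trans (by linarith :
    |dot (m (X v)).1 (ps o o.j v) - dot (m (X v)).1 (ps o o.j w)| + |(rn a (o.x.z v) -
      rn o.j (o.x.z v)) * (dot (m (X v)).1 (ev o v) - dot (m (X v)).1 (ev o w))| ≤ _))
  ring

/-- Two transversal lines locate the height. -/
theorem two (c : Cs o) {v w v' w' : o.Ω} {i b : ℕ} (h1 : o.S o.j v = o.S o.j w)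
    (h2 : o.S o.j v' = o.S o.j w') (h3 : o.S a v = o.S a w) (h4 : o.S a v' = o.S a w')
    (h5 : o.S a v = o.S a v') (e1 : o.wn a v = o.wn a v') (e2 : o.wn a w = o.wn a w')
    (s : 1 / 2 ^ b ≤ ‖ev o w - ev o v‖) (e : i + b = o.j) : |o.x.z v - o.x.z v'| ≤ 4 / 2 ^ i := by
  obtain ⟨a1, -, a2, -⟩ := cell c h1
  obtain ⟨a3, -, a4, -⟩ := cell c h2
  rw [ps_eq o a _ v, ps_eq o a _ w, ← a1, ← (cell c h3).1] at a2
  rw [ps_eq o a _ v', ps_eq o a _ w', ← a3, ← (cell c h4).1, ← (cell c h5).1, ← (wn_eq c e1).1,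
    ← (wn_eq c e1).2, ← (wn_eq c e2).1, ← (wn_eq c e2).2] at a4
  have a5 := (norm_sub_le _ _).trans (add_le_add a4 a2)
  rw [show ∀ (p q x y : ℝ × ℝ) (t t' r : ℝ), p + (t' - r) • x - (q + (t' - r) • y) -
    (p + (t - r) • x - (q + (t - r) • y)) = (t - t') • (y - x) from fun _ _ _ _ _ _ _ => by
      module, norm_smul, Real.norm_eq_abs] at a5
  have a6 : |rn o.j (o.x.z v) - rn o.j (o.x.z v')| ≤ 2 * (1 / 2 ^ i) :=
    le_of_mul_le_mul_right ((mul_le_mul_of_nonneg_left s (abs_nonneg _)).trans (a5.trans_eq (by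
      rw [← e, pow_add]; field_simp; norm_num))) (by positivity)
  have a7 := dv_anti zero_le_one le_rfl (show i ≤ o.j by omega)
  rw [abs_le] at a6 ⊢
  constructor <;> linarith [rn_le o.j (o.x.z v), lt_rn o.j (o.x.z v), rn_le o.j (o.x.z v'),
    lt_rn o.j (o.x.z v'), mul_one_div (4 : ℝ) (2 ^ i), a6.1, a6.2]

/-- A variable that knows the direction more precisely. -/
theorem kn_ev {γ : Type} {X : o.Ω → γ} (hX : Fn o.P (o.S o.j) X) {m : γ → ℝ × ℝ} {b : ℕ}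
    (hE : ∀ ω ∈ o.P.S, ‖ev o ω - m (X ω)‖ < 1 / 2 ^ b) : Kn o.P o.x X
      ⟨o.j, o.f o.j, o.j + o.d, o.d + b, o.j + (o.d + o.f o.j), o.d + o.f o.j + b⟩ 2 := by
  have k : ∀ v ∈ o.P.S, ∀ w ∈ o.P.S, X v = X w → ‖ev o v - ev o w‖ ≤ 2 / 2 ^ b :=
    fun v hv w hw q => by
      have := hE w hw
      rw [← q] at this
      linarith [norm_sub_le_norm_sub_add_norm_sub (ev o v) (m (X v)) (ev o w), hE v hv,
        norm_sub_rev (m (X v)) (ev o w), mul_one_div (2 : ℝ) (2 ^ b)]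
  have s : ∀ (i : ℕ) (p q : ℝ), |2 ^ i * p - 2 ^ i * q| ≤ 2 / 2 ^ b → |p - q| ≤ 2 / 2 ^ (i + b) :=
    fun i p q h => by
      rw [← mul_sub, abs_mul, abs_pow, abs_two, ← le_div_iff₀' (by positivity), div_div] at h
      rwa [pow_add, mul_comm]
  exact (((Kn.of_fn (p := o.pm o.j) hX).big one_le_two).setE fun v hv w hw q =>
    s _ _ _ ((norm_fst_le _).trans (k v hv w hw q))).setc fun v hv w hw q =>
      s _ _ _ ((norm_snd_le _).trans (k v hv w hw q))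

theorem fl1_rn (j : ℕ) (x : ℝ) : fl1 j (rn j x) = fl1 j x := by
  rw [rn, fl1, mul_div_cancel₀ _ (by positivity), Int.floor_intCast]

theorem rn_rn (j : ℕ) (x : ℝ) : rn j (rn j x) = rn j x := by rw [rn, fl1_rn, rn]

/-- The frame frozen at precision `φ`. -/
@[reducible] noncomputable def fz (o : Ob) (φ : ℕ) : Ob :=
  { o with x := { o.x with g := fun ω => rn φ (o.x.g ω) }, f := fun _ => φ }

theorem fz_top {φ : ℕ} (h : φ ≤ o.f o.j) (ν : ℝ) :
    o.top ν ≤ (fz o φ).top ν + 40 + (1 - ν) * (o.f o.j - φ) * lg := by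
  have e : (fz o φ).S o.j = o.x.Bx (lab o.j φ o.d (o.d + φ)) := funext fun ω => by
    simp only [Ob.S, Ob.pm, lab, Pl.Bx, Pl.zg, Pl.nm, Pl.tl, Pl.y1, fl1_rn, rn_rn]
  have a1 : ch o.P (o.x.Bx (lab o.j φ o.d (o.d + φ))) (o.S o.j) ≤ 40 :=
    ch_bx (p := o.pm o.j) (Fn.rfl _) ((fn_zg le_rfl h).trans (o.S_zg _)) (by
      simp only [Pm.Rd, Ob.pm, lab]; omega)
  have a2 := ch_tri' (P := o.P) o.x.l (o.S o.j) (o.x.Bx (lab o.j φ o.d (o.d + φ)))
  simp only [Ob.top, e]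
  change _ ≤ ch o.P o.x.l _ + _ + _ + _
  linarith

attribute [local irreducible] ch mi pb fl1

/-- An extremal system with a constant frame. -/
structure Fz (ν β κ : ℝ) (o : ℕ → Ob) (k R : ℕ → ℕ) : Prop extends XT ν β κ o k R, Rot o k R where
  cs : ∀ n, Cs (o n)

variable {o : ℕ → Ob} {k R : ℕ → ℕ} {β κ : ℝ}

theorem Fz.pull (h : Fz ν β κ o k R) {W : ℕ → Type} {Q : ∀ n, FP (W n)} {ρ : ∀ n, W n → (o n).Ω}
    (d : DnS Q ρ (oP o)) : Fz ν β κ (fun n => (o n).pull (Q n) (ρ n)) k R :=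
  ⟨h.toXT.pull d, h.toRot.pull d, h.cs⟩

theorem freeze (hν : ν < 1) (h : XR ν β κ o k R) (f : Fixd o R) :
    ∃ o k R, Fz ν β κ o k R := by
  obtain ⟨y, hy, f⟩ := f
  have t : ∀ᶠ n in UF, (o n).j - y n + y n = (o n).j ∧ k n ≤ (o n).j - y n :=
    h.top.mono fun n u => by have := hy.1 n; omega
  have w : Wi k R (fun n => (o n).j - y n) y :=
    ⟨hy, (h.top.and t).mono fun n u => ⟨u.2.2, Nat.le_add_right _ _, (u.2.1.trans u.1.symm).le⟩⟩
  refine ⟨fun n => fz (o n) ((o n).f ((o n).j - y n)), fun n => (o n).j - y n, y,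
    ⟨⟨h.big.frac hy, ?_, fun W Q ρ d => (h.hgt W Q ρ d).win w⟩, t.mono fun _ u => u.1,
      h.lgM.frac hy, fun W Q ρ d a L γ K A τ e hL hK => ?_⟩,
    ⟨fun a e => ?_, fun a b _ hb e => ?_⟩, fun _ _ => rfl⟩
  · filter_upwards [h.alg, t] with n u v
    refine ⟨⟨fun ω hω => ?_, monotone_const, ?_⟩, v.1.le⟩
    · obtain ⟨a1, a2, a3, a4, a5, a6, -⟩ := u.1.box ω hω
      exact ⟨a1, a2, a3, a4, a5, a6, u.1.rn _ hω, rn_rn _ _⟩
    · exact le_trans (Nat.add_le_add_left (u.1.mono (Nat.sub_le _ _)) _) u.1.flo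
  · refine Le.frac (Le.of3 (h.opt W Q ρ d a L γ K A τ (w.in e) (hL.up hy.1)
      (hK.mono fun _ u => ⟨u.fθ, u.fz, u.fA, u.fτ, u.bd, u.pr⟩)) (h.big.sm 40)
      (f.smul (mul_nonneg (sub_pos.2 hν).le lg_pos.le)) ?_) hy
    filter_upwards [(h.toBs.pull d).alg] with n u
    have := fz_top (u.1.mono (Nat.sub_le _ (y n))) ν
    change ((o n).pull (Q n) (ρ n)).Phi ν _ _ + _ -
      (fz ((o n).pull (Q n) (ρ n)) ((o n).f ((o n).j - y n))).top ν ≤ _
    linarith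
  · refine Le.frac (Sm.mono (h.det _ w.sub.left) (e.mono fun n u => ?_)) hy
    simp only [fl1_rn]
    exact ch_anti (Ob.w_mono u.1)
  · obtain ⟨n, u, v⟩ := (e.and (((h.big.frac hy).frac hb).ev 1)).exists
    have : 1 ≤ b n := by exact_mod_cast v
    simp only at u; omega

end FX

end Pool.Agent.MP_5168f5_an.MX
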