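import Pool.Agent.MP_5168f5_an.MX.FalK
import Pool.Agent.MP_5168f5_an.H39F.Kit
import Pool.Agent.MP_5168f5_an.H17F.Api

/-! Entropy of `a + c b` given `c` for almost independent variables. -/

namespace Pool.Agent.MP_5168f5_an.MX

open H19 H17S H17F
open H39F (pv pv_eq pv_pos hh_eq E_swap)

variable {Ω α β γ ι κ : Type}

theorem tilt (P : FP Ω) (d : Ω → α) (w : Ω → β) (h : α → β → ℝ) (h0 : ∀ x y, 0 ≤ h x y) :
    P.E (fun ω => pv P d (d ω) * pv P w (w ω) * h (d ω) (w ω) /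
      pv P (fun ω => (d ω, w ω)) (d ω, w ω)) ≤ P.E fun a => P.E fun b => h (d a) (w b) := by
  classical
  have e : P.E (fun ω => pv P d (d ω) * pv P w (w ω) * h (d ω) (w ω) /
      pv P (fun ω => (d ω, w ω)) (d ω, w ω)) = P.E fun ω => P.E fun a => P.E fun b =>
        h (d a) (w b) * if (d ω, w ω) = (d a, w b) then
          1 / P.pr (Setoid.ker fun ω => (d ω, w ω)) ω else 0 := by
    refine P.E_congr fun ω _ => ?_
    have e1 : ∀ u : ℝ, pv P d (d ω) * pv P w (w ω) * u = P.E fun a => P.E fun b =>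
        u * ((if d a = d ω then 1 else 0) * if w b = w ω then 1 else 0) := by
      intro u
      simp only [FP.E_mul]
      have : (P.E fun a => (if d a = d ω then (1 : ℝ) else 0) *
          P.E fun b => if w b = w ω then 1 else 0) = P.E fun a =>
            (P.E fun b => if w b = w ω then (1 : ℝ) else 0) * if d a = d ω then 1 else 0 :=
        P.E_congr fun a _ => mul_comm _ _
      rw [this, FP.E_mul]
      unfold pv pb
      ring
    rw [pv_eq P (fun ω => (d ω, w ω)) ω, mul_div_assoc, e1]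
    refine P.E_congr fun a _ => P.E_congr fun b _ => ?_
    by_cases ha : d a = d ω
    · by_cases hb : w b = w ω
      · simp [ha, hb, div_eq_mul_inv]
      · simp [hb, Ne.symm hb]
    · simp [ha, Ne.symm ha]
  rw [e, E_swap]
  refine P.E_mono fun a _ => ?_
  rw [E_swap]
  refine P.E_mono fun b _ => ?_
  rw [P.E_mul]
  refine mul_le_of_le_one_right (h0 _ _) ?_
  refine le_trans (le_of_eq ?_) (P.class_sum (Setoid.ker fun ω => (d ω, w ω))
    (fun ω => (d ω, w ω) = (d a, w b)) fun x _ y _ h1 h2 => h1.trans h2.symm)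
  exact P.E_congr fun ω _ => by by_cases h : (d ω, w ω) = (d a, w b) <;> simp [h]

theorem pv_nonneg (P : FP Ω) (X : Ω → α) (x : α) : 0 ≤ pv P X x := pb_nonneg _ _

/-- The variational bound for three variables. -/
theorem gibbs3 (P : FP Ω) (a : Ω → α) (b : Ω → β) (c : Ω → γ) (X : α → β → γ → ℝ) {Z : ℝ}
    (hZ : 0 < Z) (h0 : ∀ x y z, 0 ≤ X x y z) (h1 : ∀ ω ∈ P.S, 0 < X (a ω) (b ω) (c ω))
    (h2 : P.E (fun i => P.E fun j => P.E fun k => X (a i) (b j) (c k)) ≤ Z) :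
    P.E (fun ω => Real.log (X (a ω) (b ω) (c ω))) ≤
      (hh P a - ch P a fun ω => (b ω, c ω)) + (hh P b - ch P b c) + Real.log Z := by
  have key := P.gibbs (Setoid.ker fun ω => (a ω, b ω, c ω))
    (fun ω => pv P a (a ω) * pv P b (b ω) * pv P c (c ω) * X (a ω) (b ω) (c ω) / Z)
    (fun ω hω => div_pos (mul_pos (mul_pos (mul_pos (pv_pos P a hω) (pv_pos P b hω))
      (pv_pos P c hω)) (h1 ω hω)) hZ) (by
      have t1 := tilt P a (fun ω => (b ω, c ω)) (fun x y => pv P b y.1 * pv P c y.2 *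
        (X x y.1 y.2 / Z) / pv P (fun ω => (b ω, c ω)) y) fun x y => by
          have := pv_nonneg P b y.1
          have := pv_nonneg P c y.2
          have := pv_nonneg P (fun ω => (b ω, c ω)) y
          have := h0 x y.1 y.2
          positivity
      have t2 := P.E_mono fun i (_ : i ∈ P.S) =>
        tilt P b c (fun y z => X (a i) y z / Z) fun y z => div_nonneg (h0 _ _ _) hZ.le
      have t3 : P.E (fun i => P.E fun j => P.E fun k => X (a i) (b j) (c k) / Z) ≤ 1 := by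
        simp only [div_eq_inv_mul, FP.E_mul]
        exact (inv_mul_le_one₀ hZ).2 h2
      refine le_trans (le_of_eq (P.E_congr fun ω hω => ?_)) (t1.trans (t2.trans t3))
      have := (pv_pos P (fun ω => (b ω, c ω)) hω).ne'
      rw [← pv_eq P (fun ω => (a ω, b ω, c ω)) ω]
      field_simp)
  have e2 : P.E (fun ω => -Real.log
      (pv P a (a ω) * pv P b (b ω) * pv P c (c ω) * X (a ω) (b ω) (c ω) / Z)) =
      hh P a + hh P b + hh P c - P.E (fun ω => Real.log (X (a ω) (b ω) (c ω))) + Real.log Z := by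
    rw [hh_eq, hh_eq, hh_eq, ← P.E_add, ← P.E_add, ← P.E_sub, ← P.E_const (Real.log Z), ← P.E_add]
    refine P.E_congr fun ω hω => ?_
    have a1 := pv_pos P a hω
    have a2 := pv_pos P b hω
    have a3 := pv_pos P c hω
    have a4 := h1 ω hω
    rw [Real.log_div (by positivity) hZ.ne', Real.log_mul (by positivity) a4.ne',
      Real.log_mul (by positivity) a3.ne', Real.log_mul a1.ne' a2.ne']
    ring
  rw [e2] at key
  unfold ch hh at *
  linarith

open Classical in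
theorem inv_pv (P : FP Ω) (X : Ω → α) (T : Finset α) :
    P.E (fun ω => if X ω ∈ T then 1 / pv P X (X ω) else 0) ≤ T.card := by
  have h1 : P.E (fun ω => if X ω ∈ T then 1 / pv P X (X ω) else 0) =
      P.E fun ω => ∑ t ∈ T, if X ω = t then 1 / P.pr (Setoid.ker X) ω else 0 :=
    P.E_congr fun ω hω => by rw [Finset.sum_ite_eq, pv_eq]
  rw [h1, P.E_sum]
  have h2 : ∀ t ∈ T, (P.E fun ω => if X ω = t then 1 / P.pr (Setoid.ker X) ω else 0) ≤ 1 := by
    intro t _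
    refine le_trans (le_of_eq ?_) (P.class_sum (Setoid.ker X) (fun ω => X ω = t)
      fun x _ y _ h1 h2 => h1.trans h2.symm)
    exact P.E_congr fun ω _ => by by_cases h : X ω = t <;> simp [h]
  simpa using Finset.sum_le_card_nsmul _ _ _ h2

open Classical in
/-- Reciprocal masses of the integers near `n`. -/
theorem inv_near (P : FP Ω) (a : Ω → ℤ) (n : ℤ) {r : ℝ} (hr : 0 ≤ r) :
    P.E (fun ω => if |(a ω : ℝ) - n| ≤ r then 1 / pv P a (a ω) else 0) ≤ 2 * r + 1 := by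
  refine le_trans (P.E_mono fun ω _ => ?_)
    ((inv_pv P a (Finset.Icc (n - ⌊r⌋₊) (n + ⌊r⌋₊))).trans ?_)
  · by_cases h : |(a ω : ℝ) - n| ≤ r
    · rw [if_pos h, if_pos]
      have h1 : (|a ω - n| : ℤ) ≤ ⌊r⌋ := Int.le_floor.2 (by exact_mod_cast h)
      rw [← Int.natCast_floor_eq_floor hr, abs_le] at h1
      exact Finset.mem_Icc.2 ⟨by linarith [h1.1], by linarith [h1.2]⟩
    · rw [if_neg h]
      have := pv_nonneg P a (a ω)
      split_ifs <;> positivity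
  · rw [Int.card_Icc, show n + ⌊r⌋₊ + 1 - (n - ⌊r⌋₊) = ((2 * ⌊r⌋₊ + 1 : ℕ) : ℤ) by push_cast; ring,
      Int.toNat_natCast]
    push_cast
    linarith [Nat.floor_le hr]

theorem rpow_le_add {y θ : ℝ} (hy : 0 ≤ y) (h0 : 0 ≤ θ) (h1 : θ ≤ 1) : y ^ θ ≤ 1 + y := by
  rcases le_total y 1 with h | h
  · linarith [Real.rpow_le_one hy h h0]
  · have := Real.rpow_le_rpow_of_exponent_le h h1
    rw [Real.rpow_one] at this
    linarith

theorem rpow_pair {A B s θ : ℝ} (hA : 0 ≤ A) (hB : 0 ≤ B) (hs : 0 < s) (h0 : 0 ≤ θ)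
    (h1 : 2 * θ ≤ 1) : A ^ θ * B ^ θ ≤ s ^ (2 * θ) * (1 + (A + B) / (2 * s)) := by
  have e1 : A ^ θ * B ^ θ ≤ (((A + B) / 2) ^ (2 : ℝ)) ^ θ := by
    rw [← Real.mul_rpow hA hB]
    refine Real.rpow_le_rpow (by positivity) ?_ h0
    rw [Real.rpow_two]
    nlinarith [sq_nonneg (A - B)]
  rw [← Real.rpow_mul (by positivity),
    show (A + B) / 2 = s * ((A + B) / (2 * s)) by field_simp,
    Real.mul_rpow hs.le (by positivity)] at e1
  exact e1.trans (mul_le_mul_of_nonneg_left (rpow_le_add (by positivity) (by positivity) h1)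
    (by positivity))

theorem E2_prod (s : Finset ι) (t : Finset κ) (μ : ι → ℝ) (ν : κ → ℝ) (f : ι → ι → ℝ)
    (g : κ → κ → ℝ) : E2 (s ×ˢ t) (fun i => μ i.1 * ν i.2) (fun i k => f i.1 k.1 * g i.2 k.2) =
      E2 s μ f * E2 t ν g := by
  simp only [E2, Finset.sum_product]
  rw [Finset.sum_mul_sum]
  refine Finset.sum_congr rfl fun i _ => Finset.sum_congr rfl fun j _ => ?_
  rw [Finset.sum_mul_sum]
  exact Finset.sum_congr rfl fun _ _ => Finset.sum_congr rfl fun _ _ => by ring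

theorem E2_eq (P : FP Ω) (w : Ω → ℝ) (f : Ω → Ω → ℝ) :
    E2 P.S (fun i => P.p i * w i) f = P.E fun i => P.E fun k => w i * w k * f i k := by
  simp only [E2, FP.E, Finset.mul_sum]
  exact Finset.sum_congr rfl fun _ _ => Finset.sum_congr rfl fun _ _ => by ring

open Classical in
/-- Near pairs for the tilted law of an integer variable. -/
theorem near_tilt (P : FP Ω) (a : Ω → ℤ) {u θ r s : ℝ} (hu : 0 < u) (h0 : 0 ≤ θ) (h1 : 2 * θ ≤ 1)
    (hr : 0 ≤ r) (hs : (2 * r + 1) * u ≤ s) :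
    E2 P.S (fun i => P.p i * (u / pv P a (a i)) ^ θ)
      (fun i k => if |(a i : ℝ) - a k| ≤ r then 1 else 0) ≤ 2 * s ^ (2 * θ) := by
  have hs0 : 0 < s := lt_of_lt_of_le (by positivity) hs
  rw [E2_eq]
  have k1 : ∀ i ∈ P.S, ∀ k ∈ P.S, (u / pv P a (a i)) ^ θ * (u / pv P a (a k)) ^ θ *
      (if |(a i : ℝ) - a k| ≤ r then 1 else 0) ≤ s ^ (2 * θ) * (1 + u / (2 * s) *
        ((if |(a i : ℝ) - a k| ≤ r then 1 / pv P a (a i) else 0) +
          if |(a k : ℝ) - a i| ≤ r then 1 / pv P a (a k) else 0)) := fun i hi k hk => by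
    have p1 := pv_pos P a hi
    have p2 := pv_pos P a hk
    rw [abs_sub_comm (a k : ℝ)]
    split_ifs
    · rw [mul_one]
      refine (rpow_pair (by positivity) (by positivity) hs0 h0 h1).trans (le_of_eq ?_)
      congr 2; field_simp
    · rw [mul_zero]; positivity
  refine (P.E_mono fun i hi => P.E_mono (k1 i hi)).trans ?_
  simp only [FP.E_mul, FP.E_add, FP.E_const]
  have k2 := P.E_mono fun i (_ : i ∈ P.S) => inv_near P a (a i) hr
  rw [P.E_const] at k2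
  have k3 := k2
  rw [E_swap] at k3
  have k4 : u / (2 * s) * (2 * (2 * r + 1)) ≤ 1 := by
    rw [div_mul_eq_mul_div, div_le_one (by positivity)]; linarith
  have k5 := mul_le_mul_of_nonneg_left (add_le_add k3 k2) (show 0 ≤ u / (2 * s) by positivity)
  rw [mul_comm 2 (s ^ (2 * θ))]
  exact mul_le_mul_of_nonneg_left (by linarith) (by positivity)

theorem coll [DecidableEq α] (s : Finset ι) (μ : ι → ℝ) (f : ι → α) (q : α → ℝ) {u : ℝ} (hu : 0 < u)
    (h0 : ∀ x, 0 ≤ q x) (h1 : ∀ T : Finset α, ∑ x ∈ T, q x ≤ 1) :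
    ∑ i ∈ s, μ i * √(q (f i) / u) ≤
      1 / 2 + 1 / (2 * u) * E2 s μ fun i k => if f i = f k then 1 else 0 := by
  have e : ∀ g : α → ℝ, ∑ i ∈ s, μ i * g (f i) =
      ∑ x ∈ s.image f, (∑ i ∈ s.filter (f · = x), μ i) * g x := fun g => by
    rw [← Finset.sum_fiberwise_of_maps_to fun i hi => Finset.mem_image_of_mem f hi]
    refine Finset.sum_congr rfl fun x _ => ?_
    rw [Finset.sum_mul]
    exact Finset.sum_congr rfl fun i hi => by rw [(Finset.mem_filter.1 hi).2]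
  have e2 : E2 s μ (fun i k => if f i = f k then 1 else 0) =
      ∑ x ∈ s.image f, (∑ i ∈ s.filter (f · = x), μ i) * ∑ i ∈ s.filter (f · = x), μ i := by
    rw [← e fun x => ∑ i ∈ s.filter (f · = x), μ i]
    refine Finset.sum_congr rfl fun i _ => ?_
    rw [Finset.sum_filter, Finset.mul_sum]
    refine Finset.sum_congr rfl fun k _ => ?_
    by_cases h : f i = f k
    · simp [h]
    · simp [h, Ne.symm h]
  rw [e fun x => √(q x / u), e2, Finset.mul_sum]
  have k : ∀ x ∈ s.image f, (∑ i ∈ s.filter (f · = x), μ i) * √(q x / u) ≤ 1 / 2 * q x +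
      1 / (2 * u) * ((∑ i ∈ s.filter (f · = x), μ i) * ∑ i ∈ s.filter (f · = x), μ i) := by
    intro x _
    set m := ∑ i ∈ s.filter (f · = x), μ i
    have a1 := Real.sq_sqrt (div_nonneg (h0 x) hu.le)
    set y := √(q x / u)
    have a2 : q x = u * y ^ 2 := by rw [a1]; field_simp
    have a3 : 1 / 2 * (u * y ^ 2) + 1 / (2 * u) * (m * m) - m * y = (u * y - m) ^ 2 / (2 * u) := by
      field_simp; ring
    have a4 : 0 ≤ (u * y - m) ^ 2 / (2 * u) := by positivity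
    rw [a2]; linarith
  refine (Finset.sum_le_sum k).trans ?_
  rw [Finset.sum_add_distrib, ← Finset.mul_sum]
  linarith [h1 (s.image f)]

theorem pv_fib (P : FP Ω) (F : Ω → α) (c : Ω → β) (k : β) (T : Finset α) :
    ∑ x ∈ T, pv P (fun ω => (F ω, c ω)) (x, k) / pv P c k ≤ 1 := by
  classical
  rw [← Finset.sum_div]
  refine div_le_one_of_le₀ ?_ (pv_nonneg _ _ _)
  unfold pv pb
  rw [← P.E_sum]
  refine P.E_mono fun ω _ => ?_
  by_cases h : c ω = k
  · simp only [h, Prod.mk.injEq, and_true, if_true]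
    rw [Finset.sum_congr rfl fun x _ => show _ = if F ω = x then (1 : ℝ) else 0 by congr,
      Finset.sum_ite_eq]
    split_ifs <;> norm_num
  · simp [h]

/-- The integer part of `n + k m / 2 ^ R`. -/
noncomputable def pj (R : ℕ) (n m k : ℤ) : ℤ := ⌊(n : ℝ) + k * m / 2 ^ R⌋

open Classical in
/-- The bound for the product measure. -/
theorem prod_bd (P : FP Ω) (a b c : Ω → ℤ) (gb gc : ℤ → Prop) (q : ℤ → ℤ → ℝ) {R : ℕ}
    {L K η x z : ℝ} (hL : 1 ≤ L) (hK : 1 ≤ K) (h0 : 0 ≤ η) (h1 : η ≤ 1) (hx : 0 ≤ x) (hz : 0 ≤ z)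
    (hz1 : z ≤ 1) (hxz : 4 * (1 / 2 : ℝ) ^ (1 - η) * (x * z) ≤ 1)
    (q0 : ∀ f k, 0 ≤ q f k) (q1 : ∀ k (T : Finset ℤ), ∑ f ∈ T, q f k ≤ 1)
    (ha : ∀ ω ∈ P.S, ∀ ω' ∈ P.S, |(a ω : ℝ) - a ω'| ≤ L * 2 ^ R)
    (hb : ∀ ω ∈ P.S, ∀ ω' ∈ P.S, |(b ω : ℝ) - b ω'| ≤ L * 2 ^ R)
    (hc : ∀ ω ∈ P.S, |(c ω : ℝ)| ≤ L * 2 ^ R)
    (hB : ∀ j ≤ R, ∀ v : ℝ, pb P (fun ω => gb (b ω) ∧ |b ω / 2 ^ R - v| ≤ L / 2 ^ j) ≤ K * x ^ j)
    (hC : ∀ j ≤ R, ∀ v : ℝ, pb P (fun ω => gc (c ω) ∧ |c ω / 2 ^ R - v| ≤ 1 / 2 ^ j) ≤ K * z ^ j) :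
    P.E (fun i => P.E fun j => P.E fun k => (1 / 2 ^ R / pv P a (a i)) ^ ((1 - η) / 2) *
      if gb (b j) ∧ gc (c k) then √(q (pj R (a i) (b j) (c k)) (c k) / (1 / 2 ^ R)) else 1) ≤
      2 ^ 17 * L ^ 4 * (R + 1) ^ 3 * K ^ 2 := by
  set u : ℝ := 1 / 2 ^ R with hu
  set θ : ℝ := (1 - η) / 2 with hθ
  have p2 : (0 : ℝ) < 2 ^ R := by positivity
  have u0 : 0 < u := by positivity
  have u1 : u ≤ 1 := (div_le_one p2).2 (one_le_pow₀ one_le_two)
  have uR : 2 ^ R * u = 1 := mul_one_div_cancel p2.ne'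
  have θ0 : 0 ≤ θ := by rw [hθ]; linarith
  have θ1 : 2 * θ ≤ 1 := by rw [hθ]; linarith
  have θ2 : 2 * θ = 1 - η := by rw [hθ]; ring
  set w : Ω → ℝ := fun i => (u / pv P a (a i)) ^ θ with hw
  have w0 : ∀ i, 0 ≤ w i := fun i =>
    Real.rpow_nonneg (div_nonneg u0.le (pv_nonneg _ _ _)) _
  set β : Ω → ℝ := fun j => if gb (b j) then 1 else 0 with hβ
  set γ : Ω → ℝ := fun k => if gc (c k) then 1 else 0 with hγ
  have β0 : ∀ j, 0 ≤ β j ∧ β j ≤ 1 := fun j => by simp only [hβ]; split_ifs <;> norm_num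
  have γ0 : ∀ j, 0 ≤ γ j ∧ γ j ≤ 1 := fun j => by simp only [hγ]; split_ifs <;> norm_num
  have Ew : P.E w ≤ 4 * L := by
    obtain ⟨i0, hi0, -⟩ := H39F.ex_ge P fun _ => 0
    have k1 := inv_near P a (a i0) (r := L * 2 ^ R) (by positivity)
    have k2 : P.E w ≤ P.E fun i => 1 + u * if |(a i : ℝ) - a i0| ≤ L * 2 ^ R then
        1 / pv P a (a i) else 0 := P.E_mono fun i hi => by
      rw [if_pos (ha i hi i0 hi0), mul_one_div]
      exact rpow_le_add (div_nonneg u0.le (pv_nonneg _ _ _)) θ0 (by linarith)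
    rw [P.E_add, P.E_const, P.E_mul] at k2
    have k3 := mul_le_mul_of_nonneg_left k1 u0.le
    nlinarith
  set μ : Ω × Ω → ℝ := fun i => P.p i.1 * w i.1 * (P.p i.2 * β i.2) with hμ
  have μ0 : ∀ i ∈ P.S ×ˢ P.S, 0 ≤ μ i := fun i hi => by
    have := Finset.mem_product.1 hi
    exact mul_nonneg (mul_nonneg (P.pos _ this.1).le (w0 _))
      (mul_nonneg (P.pos _ this.2).le (β0 _).1)
  have main := Tq_bound (s := P.S ×ˢ P.S) (μ := μ) (x := fun i => a i.1 / 2 ^ R)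
    (y := fun i => b i.2 / 2 ^ R) (t := P.S) (ν := fun k => P.p k * γ k)
    (c := fun k => c k / 2 ^ R) (R := R) (m := fun j => K * z ^ j)
    (W := fun j => 2 * (9 * L ^ 2 / 2 ^ j) ^ (2 * θ) * (K * x ^ j)) (S := 18 * L ^ 2 * K ^ 2)
    hL μ0 (fun i hi k hk => by
      rw [← sub_div, abs_div, abs_of_pos p2, div_le_iff₀ p2]
      exact hb _ (Finset.mem_product.1 hi).2 _ (Finset.mem_product.1 hk).2)
    (fun k hk => mul_nonneg (P.pos k hk).le (γ0 k).1)
    ((P.E_mono fun k _ => (γ0 k).2).trans (P.E_const 1).le)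
    (fun k hk => by rw [abs_div, abs_of_pos p2, div_le_iff₀ p2]; exact hc k hk)
    (fun j hj v => by
      refine le_trans (Finset.sum_le_sum fun k hk => ?_) (hC j hj v)
      rw [mul_assoc]
      refine mul_le_mul_of_nonneg_left ?_ (P.pos k hk).le
      by_cases h : v ∈ Set.Ico ((c k : ℝ) / 2 ^ R) (c k / 2 ^ R + 1 / 2 ^ j)
      · have : |(c k : ℝ) / 2 ^ R - v| ≤ 1 / 2 ^ j := by
          rw [abs_le]; constructor <;> linarith [h.1, h.2, show (0 : ℝ) < 1 / 2 ^ j by positivity]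
        rw [show ind (1 / 2 ^ j) (c k / 2 ^ R) v = 1 from Set.indicator_of_mem h _, mul_one]
        simp only [hγ, this, and_true, le_refl]
      · rw [show ind (1 / 2 ^ j) (c k / 2 ^ R) v = 0 from Set.indicator_of_notMem h _, mul_zero]
        dsimp only
        split_ifs <;> norm_num)
    (fun j hj => by
      have pj : (0 : ℝ) < 2 ^ j := by positivity
      have e1 := E2_prod P.S P.S (fun i => P.p i * w i) (fun i => P.p i * β i)
        (fun i k => if |(a i : ℝ) - a k| ≤ 4 * L ^ 2 / 2 ^ j * 2 ^ R then 1 else 0)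
        fun i k => if |(b k : ℝ) / 2 ^ R - b i / 2 ^ R| ≤ L / 2 ^ j then 1 else 0
      have e2 := near_tilt P a (r := 4 * L ^ 2 / 2 ^ j * 2 ^ R) (s := 9 * L ^ 2 / 2 ^ j) u0 θ0 θ1
        (by positivity) (by
          have a1 : u ≤ 1 / 2 ^ j := one_div_le_one_div_of_le pj (pow_le_pow_right₀ one_le_two hj)
          have a2 : 1 / 2 ^ j ≤ L ^ 2 / 2 ^ j :=
            div_le_div_of_nonneg_right (one_le_pow₀ hL) pj.le
          have a3 : (2 * (4 * L ^ 2 / 2 ^ j * 2 ^ R) + 1) * u =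
              8 * (L ^ 2 / 2 ^ j) * (2 ^ R * u) + u := by ring
          rw [a3, uR, mul_div_assoc]
          linarith)
      have e3 : E2 P.S (fun i => P.p i * β i) (fun i k =>
          if |(b k : ℝ) / 2 ^ R - b i / 2 ^ R| ≤ L / 2 ^ j then 1 else 0) ≤ K * x ^ j := by
        rw [E2_eq]
        refine (P.E_mono fun i _ => (P.E_mono fun k _ => ?_).trans
          (hB j hj (b i / 2 ^ R))).trans (P.E_const _).le
        simp only [hβ]
        split_ifs <;> simp_all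
      refine le_trans (E2_mono μ0 fun i _ k _ => ?_) (e1.le.trans (mul_le_mul e2 e3 ?_ ?_))
      · unfold nr
        by_cases h : |(b i.2 : ℝ) / 2 ^ R - b k.2 / 2 ^ R| ≤ L / 2 ^ j ∧
            |(a i.1 : ℝ) / 2 ^ R - a k.1 / 2 ^ R| ≤ 4 * L ^ 2 / 2 ^ j
        · have h3 := h.2
          rw [← sub_div (a i.1 : ℝ), abs_div, abs_of_pos p2, div_le_iff₀ p2] at h3
          rw [if_pos h, if_pos h3, if_pos (by rw [abs_sub_comm]; exact h.1), mul_one]
        · rw [if_neg h]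
          split_ifs <;> norm_num
      · rw [E2_eq]
        exact P.E_nonneg fun i _ => P.E_nonneg fun k _ =>
          mul_nonneg (mul_nonneg (β0 i).1 (β0 k).1) (by split_ifs <;> norm_num)
      · positivity)
    (fun i j hij _ => by
      have a1 : z ^ j ≤ z ^ i := pow_le_pow_of_le_one hz hz1 hij
      have a2 : (9 * L ^ 2 / 2 ^ i) ^ (2 * θ) ≤ 9 * L ^ 2 * ((1 / 2 : ℝ) ^ (1 - η)) ^ i := by
        rw [div_eq_mul_one_div, Real.mul_rpow (by positivity) (by positivity), ← θ2,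
          ← one_div_pow, Real.rpow_pow_comm (by norm_num)]
        refine mul_le_mul_of_nonneg_right ?_ (by positivity)
        have := Real.rpow_le_rpow_of_exponent_le (x := 9 * L ^ 2) (by nlinarith) θ1
        rwa [Real.rpow_one] at this
      have a3 : (4 * (1 / 2 : ℝ) ^ (1 - η) * (x * z)) ^ i ≤ 1 := pow_le_one₀ (by positivity) hxz
      rw [mul_pow, mul_pow, mul_pow] at a3
      calc K * z ^ j * 4 ^ i * (2 * (9 * L ^ 2 / 2 ^ i) ^ (2 * θ) * (K * x ^ i))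
          ≤ K * z ^ i * 4 ^ i * (2 * (9 * L ^ 2 * ((1 / 2 : ℝ) ^ (1 - η)) ^ i) * (K * x ^ i)) := by
            gcongr
        _ = 18 * L ^ 2 * K ^ 2 * (4 ^ i * ((1 / 2 : ℝ) ^ (1 - η)) ^ i * (x ^ i * z ^ i)) := by ring
        _ ≤ 18 * L ^ 2 * K ^ 2 := mul_le_of_le_one_right (by positivity) a3)
  have sμ : ∑ i ∈ P.S ×ˢ P.S, μ i ≤ 4 * L := by
    rw [Finset.sum_product' P.S P.S fun i k => P.p i * w i * (P.p k * β k), ← Finset.sum_mul_sum]
    have b1 : P.E β ≤ 1 := (P.E_mono fun k _ => (β0 k).2).trans (P.E_const 1).le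
    have b2 : 0 ≤ P.E w := P.E_nonneg fun i _ => w0 i
    change P.E w * P.E β ≤ _
    nlinarith
  have one : ∀ k : ℤ, ∑ i ∈ P.S ×ˢ P.S, μ i * √(q (pj R (a i.1) (b i.2) k) k / u) ≤ 1 / 2 +
      2 * 4 ^ R * Tq (P.S ×ˢ P.S) μ (fun i => a i.1 / 2 ^ R) (fun i => b i.2 / 2 ^ R) u
        (k / 2 ^ R) := fun k => by
    refine (coll _ μ (fun i => pj R (a i.1) (b i.2) k) (fun f => q f k) u0 (fun f => q0 f k)
      (q1 k)).trans (add_le_add le_rfl ?_)
    have c1 := Tq_pd (s := P.S ×ˢ P.S) (μ := μ) (x := fun i => a i.1 / 2 ^ R)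
      (y := fun i => b i.2 / 2 ^ R) u0.le (k / 2 ^ R)
    have c2 : u * E2 (P.S ×ˢ P.S) μ (fun i l => if pj R (a i.1) (b i.2) k = pj R (a l.1) (b l.2) k
        then 1 else 0) ≤ Tq (P.S ×ˢ P.S) μ (fun i => a i.1 / 2 ^ R) (fun i => b i.2 / 2 ^ R)
          (2 * u) (k / 2 ^ R) := by
      rw [← E2_mul]
      refine E2_mono μ0 fun i _ l _ => ?_
      split_ifs with h
      · have d1 := Int.abs_sub_lt_one_of_floor_eq_floor h
        refine le_trans ?_ (le_max_left _ _)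
        rw [show (a i.1 : ℝ) / 2 ^ R + k / 2 ^ R * (b i.2 / 2 ^ R) -
          (a l.1 / 2 ^ R + k / 2 ^ R * (b l.2 / 2 ^ R)) = u * (a i.1 + k * b i.2 / 2 ^ R -
            (a l.1 + k * b l.2 / 2 ^ R)) by rw [hu]; ring, abs_mul, abs_of_pos u0]
        nlinarith
      · rw [mul_zero]; exact tri_nonneg _ _
    have c3 : (4 : ℝ) ^ R * (u * u) = 1 := by
      rw [show (4 : ℝ) = 2 * 2 by norm_num, mul_pow, mul_mul_mul_comm, uR, mul_one]
    have c4 := mul_le_mul_of_nonneg_left (c2.trans c1) (show (0 : ℝ) ≤ 4 ^ R / 2 by positivity)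
    have c5 : 1 / (2 * u) = 4 ^ R / 2 * u := by
      rw [div_eq_iff (by positivity)]; linarith
    rw [c5]
    linarith
  have s1 : P.E (fun i => P.E fun j => P.E fun k => w i *
      if gb (b j) ∧ gc (c k) then √(q (pj R (a i) (b j) (c k)) (c k) / u) else 1) ≤
      P.E fun i => P.E fun j => P.E fun k => w i +
        γ k * (w i * β j * √(q (pj R (a i) (b j) (c k)) (c k) / u)) := by
    refine P.E_mono fun i _ => P.E_mono fun j _ => P.E_mono fun k _ => ?_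
    have := w0 i
    have := Real.sqrt_nonneg (q (pj R (a i) (b j) (c k)) (c k) / u)
    by_cases h : gb (b j) ∧ gc (c k)
    · simp only [hβ, hγ, h.1, h.2, and_self, if_true]; linarith
    · rw [if_neg h]
      have := (β0 j).1
      have := (γ0 k).1
      rw [mul_one, le_add_iff_nonneg_right]
      positivity
  simp only [FP.E_add, FP.E_const] at s1
  have s2 : P.E (fun i => P.E fun j => P.E fun k =>
      γ k * (w i * β j * √(q (pj R (a i) (b j) (c k)) (c k) / u))) = P.E fun k =>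
        γ k * ∑ i ∈ P.S ×ˢ P.S, μ i * √(q (pj R (a i.1) (b i.2) (c k)) (c k) / u) := by
    rw [P.E_congr fun i _ => E_swap P P _, E_swap]
    refine P.E_congr fun k _ => ?_
    simp only [FP.E_mul]
    congr 1
    rw [Finset.sum_product]
    refine Finset.sum_congr rfl fun i _ => ?_
    simp only [FP.E, Finset.mul_sum]
    exact Finset.sum_congr rfl fun j _ => by simp only [hμ]; ring
  have s3 := P.E_mono fun k (_ : k ∈ P.S) => (mul_le_mul_of_nonneg_left (one (c k)) (γ0 k).1).trans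
    (show _ ≤ 1 / 2 + 2 * 4 ^ R * (γ k * Tq (P.S ×ˢ P.S) μ (fun i => a i.1 / 2 ^ R)
      (fun i => b i.2 / 2 ^ R) u (c k / 2 ^ R)) by nlinarith [(γ0 k).2])
  rw [P.E_add, P.E_const, P.E_mul] at s3
  have s4 : P.E (fun k => γ k * Tq (P.S ×ˢ P.S) μ (fun i => a i.1 / 2 ^ R)
      (fun i => b i.2 / 2 ^ R) u (c k / 2 ^ R)) = ∑ k ∈ P.S, P.p k * γ k *
        Tq (P.S ×ˢ P.S) μ (fun i => a i.1 / 2 ^ R) (fun i => b i.2 / 2 ^ R) u (c k / 2 ^ R) :=
    Finset.sum_congr rfl fun k _ => (mul_assoc _ _ _).symm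
  have s5 : (∑ i ∈ P.S ×ˢ P.S, μ i) ^ 2 ≤ (4 * L) ^ 2 :=
    pow_le_pow_left₀ (Finset.sum_nonneg μ0) sμ 2
  have R1 : (1 : ℝ) ≤ (R + 1) ^ 3 := one_le_pow₀ (by linarith [Nat.cast_nonneg (α := ℝ) R])
  have K1 : 1 ≤ K ^ 2 := one_le_pow₀ hK
  have L1 : L ≤ L ^ 4 := le_self_pow₀ hL (by norm_num)
  have L2 : L ^ 2 ≤ L ^ 4 := pow_le_pow_right₀ hL (by norm_num)
  have L3 : L ^ 4 ≤ L ^ 4 * (R + 1) ^ 3 * K ^ 2 := by
    rw [mul_assoc]
    exact le_mul_of_one_le_right (by positivity) (one_le_mul_of_one_le_of_one_le R1 K1)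
  refine s1.trans ?_
  rw [s2]
  rw [s4] at s3
  nlinarith

open Classical in
/-- The finite inequality: the deficiency of `a + c b` given `c` is at most `1 - η` times the
deficiency of `a`. -/
theorem fal0 (P : FP Ω) (a b c : Ω → ℤ) (gb gc : ℤ → Prop) {R : ℕ}
    {L K η x z : ℝ} (hL : 1 ≤ L) (hK : 1 ≤ K) (h0 : 0 ≤ η) (h1 : η ≤ 1) (hx : 0 ≤ x) (hz : 0 ≤ z)
    (hz1 : z ≤ 1) (hxz : 4 * (1 / 2 : ℝ) ^ (1 - η) * (x * z) ≤ 1)
    (ha : ∀ ω ∈ P.S, ∀ ω' ∈ P.S, |(a ω : ℝ) - a ω'| ≤ L * 2 ^ R)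
    (hb : ∀ ω ∈ P.S, ∀ ω' ∈ P.S, |(b ω : ℝ) - b ω'| ≤ L * 2 ^ R)
    (hc : ∀ ω ∈ P.S, |(c ω : ℝ)| ≤ L * 2 ^ R)
    (hB : ∀ j ≤ R, ∀ v : ℝ, pb P (fun ω => gb (b ω) ∧ |b ω / 2 ^ R - v| ≤ L / 2 ^ j) ≤ K * x ^ j)
    (hC : ∀ j ≤ R, ∀ v : ℝ, pb P (fun ω => gc (c ω) ∧ |c ω / 2 ^ R - v| ≤ 1 / 2 ^ j) ≤ K * z ^ j) :
    R * lg - ch P (fun ω => pj R (a ω) (b ω) (c ω)) c ≤ (1 - η) * (R * lg - hh P a) +
      2 * (hh P a - ch P a fun ω => (b ω, c ω)) + 2 * (hh P b - ch P b c) +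
      pb P (fun ω => ¬(gb (b ω) ∧ gc (c ω))) * (R * lg) +
      2 * Real.log (2 ^ 17 * L ^ 4 * (R + 1) ^ 3 * K ^ 2) := by
  set F : Ω → ℤ := fun ω => pj R (a ω) (b ω) (c ω) with hF
  set q : ℤ → ℤ → ℝ := fun f k => pv P (fun ω => (F ω, c ω)) (f, k) / pv P c k with hq
  have q0 : ∀ f k, 0 ≤ q f k := fun f k => div_nonneg (pv_nonneg _ _ _) (pv_nonneg _ _ _)
  have q1 : ∀ k (T : Finset ℤ), ∑ f ∈ T, q f k ≤ 1 := fun k T => pv_fib P F c k T
  have q2 : ∀ ω ∈ P.S, 0 < q (F ω) (c ω) := fun ω hω =>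
    div_pos (pv_pos P (fun ω => (F ω, c ω)) hω) (pv_pos P c hω)
  have p2 : (0 : ℝ) < 1 / 2 ^ R := by positivity
  have lu : Real.log (1 / 2 ^ R) = -(R * lg) := by rw [one_div, Real.log_inv, log_two_pow]
  have key := gibbs3 P a b c (fun n m k => (1 / 2 ^ R / pv P a n) ^ ((1 - η) / 2) *
      if gb m ∧ gc k then √(q (pj R n m k) k / (1 / 2 ^ R)) else 1)
    (Z := 2 ^ 17 * L ^ 4 * (R + 1) ^ 3 * K ^ 2) (by positivity)
    (fun n m k => mul_nonneg (Real.rpow_nonneg (div_nonneg p2.le (pv_nonneg _ _ _)) _)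
      (by split_ifs <;> positivity))
    (fun ω hω => mul_pos (Real.rpow_pos_of_pos (div_pos p2 (pv_pos P a hω)) _) (by
      split_ifs
      · exact Real.sqrt_pos.2 (div_pos (q2 ω hω) p2)
      · exact one_pos))
    (prod_bd P a b c gb gc q hL hK h0 h1 hx hz hz1 hxz q0 q1 ha hb hc hB hC)
  have low : P.E (fun ω => (1 - η) / 2 * (-Real.log (pv P a (a ω)) - R * lg) +
      1 / 2 * (R * lg - (-Real.log (pv P (fun ω => (F ω, c ω)) (F ω, c ω)) -
        -Real.log (pv P c (c ω)))) -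
      R * lg / 2 * @ite ℝ (¬(gb (b ω) ∧ gc (c ω))) (propDecidable _) 1 0) ≤
      P.E fun ω => Real.log ((1 / 2 ^ R / pv P a (a ω)) ^ ((1 - η) / 2) *
        if gb (b ω) ∧ gc (c ω) then √(q (F ω) (c ω) / (1 / 2 ^ R)) else 1) := by
    refine P.E_mono fun ω hω => ?_
    have a1 := pv_pos P a hω
    have a2 := q2 ω hω
    have a3 : Real.log (q (F ω) (c ω)) = Real.log (pv P (fun ω => (F ω, c ω)) (F ω, c ω)) -
        Real.log (pv P c (c ω)) :=
      Real.log_div (pv_pos P (fun ω => (F ω, c ω)) hω).ne' (pv_pos P c hω).ne'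
    have a4 : Real.log (q (F ω) (c ω)) ≤ 0 := Real.log_nonpos a2.le (by
      simpa using q1 (c ω) {F ω})
    have a5 := Real.rpow_pos_of_pos (div_pos p2 a1) ((1 - η) / 2)
    have a6 := Real.log_rpow (div_pos p2 a1) ((1 - η) / 2)
    rw [Real.log_div p2.ne' a1.ne', lu] at a6
    by_cases h : gb (b ω) ∧ gc (c ω)
    · rw [if_pos h, if_neg (not_not.2 h), Real.log_mul a5.ne'
        (Real.sqrt_pos.2 (div_pos a2 p2)).ne', a6, Real.log_sqrt (div_pos a2 p2).le,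
        Real.log_div a2.ne' p2.ne', lu, a3]
      linarith
    · rw [if_neg h, if_pos h, mul_one, mul_one, a6]
      linarith
  simp only [FP.E_sub, FP.E_add, FP.E_mul, FP.E_const, ← hh_eq] at low
  have e3 := low.trans key
  have ar : ∀ A B C I J Z p : ℝ, (1 - η) / 2 * (A - R * lg) + 1 / 2 * (R * lg - (B - C)) -
      R * lg / 2 * p ≤ I + J + Z → R * lg - (B - C) ≤
        (1 - η) * (R * lg - A) + 2 * I + 2 * J + p * (R * lg) + 2 * Z := by
    intros; linarith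
  exact ar _ _ _ _ _ _ _ e3

end Pool.Agent.MP_5168f5_an.MX
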