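import Mathlib

/-! A projection estimate in `L²` for weighted point sets in the plane. -/

namespace Pool.Agent.MP_5168f5_an.MX

open MeasureTheory Set

/-- The triangle function. -/
noncomputable def tri (ρ t : ℝ) : ℝ := max (ρ - |t|) 0

theorem tri_nonneg (ρ t : ℝ) : 0 ≤ tri ρ t := le_max_right _ _

theorem tri_le {ρ : ℝ} (h : 0 ≤ ρ) (t : ℝ) : tri ρ t ≤ ρ :=
  max_le (by linarith [abs_nonneg t]) h

theorem tri_zero {ρ t : ℝ} (h : ρ ≤ |t|) : tri ρ t = 0 := max_eq_right (by linarith)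

theorem tri_cont (ρ : ℝ) : Continuous (tri ρ) := by
  unfold tri; fun_prop

theorem tri_shift {ρ τ s : ℝ} (hρ : 0 < ρ) (h0 : 0 ≤ τ) (h1 : τ ≤ 1 / 2) (hs : |s| ≤ τ * ρ)
    (t : ℝ) : tri ρ (t + s) ≤ tri ρ t + 2 * τ * tri (2 * ρ) t := by
  have a1 : |t| ≤ |t + s| + |s| := by
    have := abs_sub (t + s) s
    rwa [add_sub_cancel_right] at this
  have a2 := tri_nonneg ρ t
  have a3 := tri_nonneg (2 * ρ) t
  have a4 : ρ - |t| ≤ tri ρ t := le_max_left _ _
  have a5 : 2 * ρ - |t| ≤ tri (2 * ρ) t := le_max_left _ _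
  refine max_le ?_ (by positivity)
  by_cases h : ρ + τ * ρ ≤ |t|
  · have : 0 ≤ 2 * τ * tri (2 * ρ) t := by positivity
    linarith
  · have : ρ / 2 ≤ tri (2 * ρ) t := by nlinarith
    nlinarith

/-- The indicator of `[s, s + ρ)`. -/
noncomputable def ind (ρ s u : ℝ) : ℝ := (Ico s (s + ρ)).indicator 1 u

theorem ind_mul (ρ s s' : ℝ) : (fun u => ind ρ s u * ind ρ s' u) =
    (Ico (max s s') (min (s + ρ) (s' + ρ))).indicator fun _ => (1 : ℝ) := by
  funext u
  rw [← Ico_inter_Ico]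
  simp only [ind, indicator, mem_inter_iff, Pi.one_apply]
  by_cases h1 : u ∈ Ico s (s + ρ) <;> by_cases h2 : u ∈ Ico s' (s' + ρ) <;> simp [h1, h2]

theorem ind_int (ρ s s' : ℝ) : Integrable fun u => ind ρ s u * ind ρ s' u := by
  rw [ind_mul]
  exact (integrable_indicator_iff measurableSet_Ico).2 (integrableOn_const (by simp))

theorem ind_tri (ρ s s' : ℝ) : ∫ u, ind ρ s u * ind ρ s' u = tri ρ (s - s') := by
  rw [ind_mul, integral_indicator_const _ measurableSet_Ico, Real.volume_real_Ico, smul_eq_mul,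
    mul_one, tri]
  congr 1
  rcases le_total s s' with h | h
  · rw [max_eq_right h, min_eq_left (by linarith), abs_of_nonpos (by linarith)]; ring
  · rw [max_eq_left h, min_eq_right (by linarith), abs_of_nonneg (by linarith)]; ring

theorem ind_two {ρ : ℝ} (h : 0 ≤ ρ) (s u : ℝ) : ind (2 * ρ) s u = ind ρ s u + ind ρ (s + ρ) u := by
  have e : Ico s (s + 2 * ρ) = Ico s (s + ρ) ∪ Ico (s + ρ) (s + ρ + ρ) := by
    rw [Ico_union_Ico_eq_Ico (by linarith) (by linarith)]; congr 1; ring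
  unfold ind
  rw [e, indicator_union_of_disjoint (Ico_disjoint_Ico_same)]

variable {ι κ : Type}

/-- Weighted sum over pairs. -/
noncomputable def E2 (s : Finset ι) (μ : ι → ℝ) (f : ι → ι → ℝ) : ℝ :=
  ∑ i ∈ s, ∑ k ∈ s, μ i * μ k * f i k

theorem E2_mono {s : Finset ι} {μ : ι → ℝ} (hμ : ∀ i ∈ s, 0 ≤ μ i) {f g : ι → ι → ℝ}
    (h : ∀ i ∈ s, ∀ k ∈ s, f i k ≤ g i k) : E2 s μ f ≤ E2 s μ g :=
  Finset.sum_le_sum fun i hi => Finset.sum_le_sum fun k hk =>
    mul_le_mul_of_nonneg_left (h i hi k hk) (mul_nonneg (hμ i hi) (hμ k hk))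

theorem E2_add (s : Finset ι) (μ : ι → ℝ) (f g : ι → ι → ℝ) :
    E2 s μ (fun i k => f i k + g i k) = E2 s μ f + E2 s μ g := by
  simp only [E2, mul_add, Finset.sum_add_distrib]

theorem E2_mul (s : Finset ι) (μ : ι → ℝ) (a : ℝ) (f : ι → ι → ℝ) :
    E2 s μ (fun i k => a * f i k) = a * E2 s μ f := by
  simp only [E2, Finset.mul_sum]
  exact Finset.sum_congr rfl fun _ _ => Finset.sum_congr rfl fun _ _ => by ring

theorem E2_sum (s : Finset ι) (μ : ι → ℝ) (t : Finset κ) (f : κ → ι → ι → ℝ) :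
    E2 s μ (fun i k => ∑ j ∈ t, f j i k) = ∑ j ∈ t, E2 s μ (f j) := by
  simp only [E2, Finset.mul_sum]
  rw [Finset.sum_comm (s := t)]
  exact Finset.sum_congr rfl fun _ _ => Finset.sum_comm

theorem E2_int (s : Finset ι) (μ : ι → ℝ) (f : ι → ι → ℝ → ℝ)
    (h : ∀ i k, Integrable (f i k)) :
    (Integrable fun u => E2 s μ fun i k => f i k u) ∧
      ∫ u, E2 s μ (fun i k => f i k u) = E2 s μ fun i k => ∫ u, f i k u := by
  have k1 : ∀ i, Integrable fun u => ∑ k ∈ s, μ i * μ k * f i k u := fun i =>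
    integrable_finsetSum _ fun k _ => (h i k).const_mul _
  refine ⟨integrable_finsetSum _ fun i _ => k1 i, ?_⟩
  unfold E2
  rw [integral_finsetSum _ fun i _ => k1 i]
  refine Finset.sum_congr rfl fun i _ => ?_
  rw [integral_finsetSum _ fun k _ => (h i k).const_mul _]
  exact Finset.sum_congr rfl fun k _ => integral_const_mul _ _

theorem E2_sq (s : Finset ι) (μ f : ι → ℝ) :
    E2 s μ (fun i k => f i * f k) = (∑ i ∈ s, μ i * f i) ^ 2 := by
  rw [sq, Finset.sum_mul_sum]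
  exact Finset.sum_congr rfl fun _ _ => Finset.sum_congr rfl fun _ _ => by ring

/-- The collision sum decreases by at most a factor four when the scale is halved. -/
theorem tri_pd (s : Finset ι) (μ p : ι → ℝ) {ρ : ℝ} (h : 0 ≤ ρ) :
    E2 s μ (fun i k => tri (2 * ρ) (p i - p k)) ≤ 4 * E2 s μ fun i k => tri ρ (p i - p k) := by
  have a := E2_int s μ (fun i k u => ind (2 * ρ) (p i) u * ind (2 * ρ) (p k) u)
    fun i k => ind_int _ _ _
  have b := E2_int s μ (fun i k u => ind ρ (p i) u * ind ρ (p k) u) fun i k => ind_int _ _ _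
  have c := E2_int s μ (fun i k u => ind ρ (p i + ρ) u * ind ρ (p k + ρ) u)
    fun i k => ind_int _ _ _
  simp only [ind_tri, add_sub_add_right_eq_sub] at a b c
  have d := integral_mono a.1 ((b.1.const_mul 2).add (c.1.const_mul 2)) fun u => by
    simp only [Pi.add_apply, E2_sq]
    simp only [ind_two h, mul_add, Finset.sum_add_distrib]
    nlinarith [sq_nonneg (∑ i ∈ s, μ i * ind ρ (p i) u - ∑ i ∈ s, μ i * ind ρ (p i + ρ) u)]
  rw [a.2] at d
  have e := integral_add (b.1.const_mul 2) (c.1.const_mul 2)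
  rw [integral_const_mul, integral_const_mul, b.2, c.2] at e
  have := d.trans (le_of_eq e)
  linarith

/-- The cutoff: one on `[-L-1, L+1]`, zero outside `[-L-2, L+2]`. -/
noncomputable def cut (L c : ℝ) : ℝ := max (min 1 (L + 2 - |c|)) 0

theorem cut_nonneg (L c : ℝ) : 0 ≤ cut L c := le_max_right _ _

theorem cut_le (L c : ℝ) : cut L c ≤ 1 := max_le (min_le_left _ _) zero_le_one

theorem cut_one {L c : ℝ} (h : |c| ≤ L + 1) : cut L c = 1 := by
  unfold cut
  rw [min_eq_left (by linarith), max_eq_left zero_le_one]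

theorem cut_zero {L c : ℝ} (h : L + 2 ≤ |c|) : cut L c = 0 :=
  max_eq_right ((min_le_right _ _).trans (by linarith))

theorem cut_lip (L c c' : ℝ) : |cut L c - cut L c'| ≤ |c - c'| := by
  refine (abs_max_sub_max_le_abs _ _ _).trans ?_
  refine (abs_min_sub_min_le_max _ _ _ _).trans (max_le (by simp) ?_)
  rw [show L + 2 - |c| - (L + 2 - |c'|) = |c'| - |c| by ring, abs_sub_comm c]
  exact abs_abs_sub_abs_le _ _

theorem cut_cont (L : ℝ) : Continuous (cut L) := by
  unfold cut; fun_prop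

/-- The difference of two triangle functions with the same integral. -/
noncomputable def wav (ρ t : ℝ) : ℝ := 4 * tri ρ t - tri (2 * ρ) t

theorem wav_cont (ρ : ℝ) : Continuous (wav ρ) :=
  ((tri_cont ρ).const_mul 4).sub (tri_cont _)

theorem wav_abs {ρ : ℝ} (h : 0 ≤ ρ) (t : ℝ) : |wav ρ t| ≤ 4 * ρ := by
  have := tri_le h t
  have := tri_le (ρ := 2 * ρ) (by linarith) t
  have := tri_nonneg ρ t
  have := tri_nonneg (2 * ρ) t
  unfold wav
  rw [abs_le]; constructor <;> linarith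

theorem wav_zero {ρ t : ℝ} (h0 : 0 ≤ ρ) (h : 2 * ρ ≤ |t|) : wav ρ t = 0 := by
  unfold wav
  rw [tri_zero h, tri_zero (by linarith)]; ring

theorem bd_int {f : ℝ → ℝ} (hf : Continuous f) {a b C : ℝ} (hab : a ≤ b)
    (h0 : ∀ u, u ∉ Icc a b → f u = 0) (h1 : ∀ u ∈ Icc a b, |f u| ≤ C) :
    Integrable f ∧ ∫ u, f u ≤ (b - a) * C := by
  have i1 : Integrable ((Icc a b).indicator fun _ : ℝ => C) :=
    (integrable_indicator_iff measurableSet_Icc).2 (integrableOn_const (by simp))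
  have b1 : ∀ u, |f u| ≤ (Icc a b).indicator (fun _ : ℝ => C) u := fun u => by
    by_cases hu : u ∈ Icc a b
    · rw [indicator_of_mem hu]; exact h1 u hu
    · rw [indicator_of_notMem hu, h0 u hu, abs_zero]
  have i2 : Integrable f := i1.mono' hf.aestronglyMeasurable (Filter.Eventually.of_forall b1)
  refine ⟨i2, (integral_mono i2 i1 fun u => (le_abs_self _).trans (b1 u)).trans ?_⟩
  rw [integral_indicator_const _ measurableSet_Icc, Real.volume_real_Icc_of_le hab, smul_eq_mul]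

theorem tri_int {ρ : ℝ} (h : 0 ≤ ρ) : Integrable (tri ρ) :=
  (bd_int (tri_cont ρ) (a := -ρ) (b := ρ) (C := ρ) (by linarith) (fun u hu => tri_zero (by
    by_contra hn
    exact hu (abs_le.1 (not_le.1 hn).le))) fun u _ => by
      rw [abs_of_nonneg (tri_nonneg _ _)]; exact tri_le h u).1

theorem wav_mean {ρ : ℝ} (h : 0 ≤ ρ) : ∫ t, wav ρ t = 0 := by
  have e : tri (2 * ρ) = fun t => 2 * tri ρ (2⁻¹ * t) := by
    funext t
    unfold tri
    rw [abs_mul, abs_of_pos (show (0 : ℝ) < 2⁻¹ by norm_num),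
      mul_max_of_nonneg _ _ zero_le_two]
    congr 1 <;> ring
  unfold wav
  rw [integral_sub ((tri_int h).const_mul 4) (tri_int (by linarith)), e, integral_const_mul,
    integral_const_mul, Measure.integral_comp_mul_left]
  norm_num
  ring

theorem cw_int {ρ L : ℝ} (h : 0 ≤ ρ) (hL : 0 ≤ L) (x y : ℝ) :
    Integrable (fun c => cut L c * wav ρ (x + c * y)) ∧
      ∫ c, cut L c * wav ρ (x + c * y) ≤ (2 * L + 4) * (4 * ρ) := by
  have := bd_int (f := fun c => cut L c * wav ρ (x + c * y)) (a := -(L + 2)) (b := L + 2)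
    (C := 4 * ρ) ((cut_cont L).mul ((wav_cont ρ).comp (by fun_prop))) (by linarith)
    (fun u hu => by
      rw [cut_zero, zero_mul]
      by_contra hn
      exact hu (abs_le.1 (not_le.1 hn).le)) fun u _ => by
      rw [abs_mul, abs_of_nonneg (cut_nonneg _ _)]
      have := wav_abs h (x + u * y)
      have := cut_le L u
      nlinarith [abs_nonneg (wav ρ (x + u * y)), cut_nonneg L u]
  exact ⟨this.1, this.2.trans (le_of_eq (by ring))⟩

theorem cw_far {ρ L x y : ℝ} (h : 0 ≤ ρ) (hx : 2 * ρ + (L + 2) * |y| ≤ |x|) :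
    ∫ c, cut L c * wav ρ (x + c * y) = 0 := by
  have : (fun c => cut L c * wav ρ (x + c * y)) = fun _ => 0 := by
    funext c
    by_cases hc : L + 2 ≤ |c|
    · rw [cut_zero hc, zero_mul]
    · rw [wav_zero h, mul_zero]
      have a1 : |x| ≤ |x + c * y| + |c * y| := by
        have := abs_sub (x + c * y) (c * y)
        rwa [add_sub_cancel_right] at this
      rw [abs_mul] at a1
      nlinarith [abs_nonneg y]
  rw [this, integral_zero]

theorem cw_osc {ρ L x y : ℝ} (h : 0 ≤ ρ) (hy : y ≠ 0) :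
    ∫ c, cut L c * wav ρ (x + c * y) ≤ 32 * ρ ^ 3 / y ^ 2 := by
  have hy0 : 0 < |y| := abs_pos.2 hy
  set c0 := -x / y with hc0
  set w := 2 * ρ / |y| with hw
  have hw0 : 0 ≤ w := by positivity
  have e0 : ∀ c, x + c * y = y * (c - c0) := fun c => by rw [hc0]; field_simp; ring
  have z : ∀ u, u ∉ Icc (c0 - w) (c0 + w) → wav ρ (x + u * y) = 0 := fun u hu => by
    refine wav_zero h ?_
    rw [e0, abs_mul, mul_comm |y|, ← div_le_iff₀ hy0]
    by_contra hn
    have := abs_le.1 (not_le.1 hn).le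
    exact hu ⟨by linarith [this.1], by linarith [this.2]⟩
  have ct : Continuous fun c => wav ρ (x + c * y) := (wav_cont ρ).comp (by fun_prop)
  have i1 := bd_int (f := fun c => (cut L c - cut L c0) * wav ρ (x + c * y)) (a := c0 - w)
    (b := c0 + w) (C := w * (4 * ρ)) (((cut_cont L).sub continuous_const).mul ct) (by linarith)
    (fun u hu => by rw [z u hu, mul_zero]) fun u hu => by
      rw [abs_mul]
      refine mul_le_mul ((cut_lip L u c0).trans ?_) (wav_abs h _) (abs_nonneg _) hw0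
      rw [abs_le]; constructor <;> linarith [hu.1, hu.2]
  have i2 := bd_int ct (a := c0 - w) (b := c0 + w) (C := 4 * ρ) (by linarith) z
    fun u _ => wav_abs h _
  have m : ∫ c, wav ρ (x + c * y) = 0 := by
    simp only [e0]
    rw [integral_sub_right_eq_self (fun c => wav ρ (y * c)) c0, Measure.integral_comp_mul_left,
      wav_mean h, smul_zero]
  have e := integral_add i1.1 (i2.1.const_mul (cut L c0))
  rw [integral_const_mul, m, mul_zero, add_zero] at e
  have e' : (fun c => cut L c * wav ρ (x + c * y)) = fun c =>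
      (cut L c - cut L c0) * wav ρ (x + c * y) + cut L c0 * wav ρ (x + c * y) := by
    funext c; ring
  rw [e', e]
  refine i1.2.trans (le_of_eq ?_)
  rw [hw, ← sq_abs y]; field_simp; ring

theorem ex_top (p : ℕ → Prop) (h0 : p 0) (j : ℕ) : ∃ i ≤ j, p i ∧ (i = j ∨ ¬p (i + 1)) := by
  induction j with
  | zero => exact ⟨0, le_rfl, h0, Or.inl rfl⟩
  | succ j ih =>
    obtain ⟨i, h1, h2, h3⟩ := ih
    rcases h3 with rfl | h3
    · by_cases h : p (i + 1)
      · exact ⟨i + 1, le_rfl, h, Or.inl rfl⟩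
      · exact ⟨i, by omega, h2, Or.inr h⟩
    · exact ⟨i, by omega, h2, Or.inr h3⟩

open Classical in
/-- The pair `(x, y)` is small at the scale `i`. -/
noncomputable def nr (L : ℝ) (i : ℕ) (x y : ℝ) : ℝ :=
  if |y| ≤ L / 2 ^ i ∧ |x| ≤ 4 * L ^ 2 / 2 ^ i then 1 else 0

theorem nr_nonneg (L : ℝ) (i : ℕ) (x y : ℝ) : 0 ≤ nr L i x y := by
  unfold nr; split_ifs <;> norm_num

theorem cw_bd {L x y : ℝ} (hL : 1 ≤ L) (hy : |y| ≤ L) (j : ℕ) :
    ∫ c, cut L c * wav (1 / 2 ^ (j + 1)) (x + c * y) ≤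
      ∑ i ∈ Finset.range (j + 1), 16 * L / 8 ^ j * 4 ^ i * nr L i x y := by
  have hρ : (0 : ℝ) ≤ 1 / 2 ^ (j + 1) := by positivity
  have nn : ∀ i ∈ Finset.range (j + 1), 0 ≤ 16 * L / 8 ^ j * 4 ^ i * nr L i x y := fun i _ => by
    have := nr_nonneg L i x y
    positivity
  by_cases hx : 2 * (1 / 2 ^ (j + 1)) + (L + 2) * |y| ≤ |x|
  · rw [cw_far hρ hx]; exact Finset.sum_nonneg nn
  obtain ⟨i, h1, h2, h3⟩ := ex_top (fun i => |y| ≤ L / 2 ^ i) (by simpa using hy) j
  refine le_trans ?_ (Finset.single_le_sum nn (Finset.mem_range.2 (Nat.lt_succ_of_le h1)))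
  have p1 : (0 : ℝ) < 2 ^ i := by positivity
  have p2 : (2 : ℝ) ^ i ≤ 2 ^ j := pow_le_pow_right₀ one_le_two h1
  have e1 : nr L i x y = 1 := by
    refine if_pos ⟨h2, (not_le.1 hx).le.trans ?_⟩
    have a1 : 2 * (1 / 2 ^ (j + 1)) ≤ (1 : ℝ) / 2 ^ i := by
      rw [pow_succ, show 2 * (1 / ((2 : ℝ) ^ j * 2)) = 1 / 2 ^ j by field_simp]
      exact one_div_le_one_div_of_le p1 p2
    have a2 : (L + 2) * |y| ≤ (L + 2) * (L / 2 ^ i) := mul_le_mul_of_nonneg_left h2 (by linarith)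
    have a3 : 1 / 2 ^ i + (L + 2) * (L / 2 ^ i) ≤ 4 * L ^ 2 / 2 ^ i := by
      rw [← mul_div_assoc, ← add_div]
      exact div_le_div_of_nonneg_right (by nlinarith) p1.le
    linarith
  rw [e1, mul_one]
  have e8 : (8 : ℝ) ^ j = 2 ^ j * 2 ^ j * 2 ^ j := by rw [← mul_pow, ← mul_pow]; norm_num
  have e4 : (4 : ℝ) ^ i = 2 ^ i * 2 ^ i := by rw [← mul_pow]; norm_num
  have pj : (0 : ℝ) < 2 ^ j := by positivity
  rcases h3 with rfl | h3
  · refine (cw_int hρ (by linarith) x y).2.trans ?_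
    rw [e8, e4, pow_succ]
    field_simp
    linarith
  · have a1 : L / 2 ^ (i + 1) < |y| := not_le.1 h3
    have a2 : 0 < |y| := lt_trans (by positivity) a1
    refine (cw_osc hρ (abs_pos.1 a2)).trans ?_
    rw [pow_succ, div_lt_iff₀ (by positivity)] at a1
    have a3 : 1 ≤ (|y| * (2 ^ i * 2)) ^ 2 := one_le_pow₀ (by linarith)
    rw [e8, e4, pow_succ 2 j, ← sq_abs y]
    field_simp
    nlinarith

theorem ind_nonneg (ρ s u : ℝ) : 0 ≤ ind ρ s u := indicator_nonneg (fun _ _ => zero_le_one) u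

theorem ind_le {ρ ρ' : ℝ} (h : ρ ≤ ρ') (s u : ℝ) : ind ρ s u * ind ρ s u ≤ ind ρ' s u := by
  unfold ind
  by_cases hu : u ∈ Ico s (s + ρ)
  · rw [indicator_of_mem hu, indicator_of_mem (show u ∈ Ico s (s + ρ') from
      ⟨hu.1, by linarith [hu.2]⟩)]
    simp
  · rw [indicator_of_notMem hu, zero_mul]; exact ind_nonneg _ _ _

section Rec

variable (s : Finset ι) (μ x y : ι → ℝ)

/-- Collision sum of the projection with slope `c`. -/
noncomputable def Tq (ρ c : ℝ) : ℝ :=
  E2 s μ fun i k => tri ρ (x i + c * y i - (x k + c * y k))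

variable {s μ x y} {L : ℝ}

theorem Tq_pd {ρ : ℝ} (h : 0 ≤ ρ) (c : ℝ) : Tq s μ x y (2 * ρ) c ≤ 4 * Tq s μ x y ρ c :=
  tri_pd s μ (fun i => x i + c * y i) h

theorem Tq_shift (hμ : ∀ i ∈ s, 0 ≤ μ i) (hy : ∀ i ∈ s, ∀ k ∈ s, |y i - y k| ≤ L)
    {ρ τ c v : ℝ} (hρ : 0 < ρ) (h0 : 0 ≤ τ) (h1 : τ ≤ 1 / 2) (hv : |v - c| * L ≤ τ * ρ) :
    Tq s μ x y ρ v ≤ (1 + 8 * τ) * Tq s μ x y ρ c := by
  have a := Tq_pd (s := s) (μ := μ) (x := x) (y := y) hρ.le c
  have b : Tq s μ x y ρ v ≤ Tq s μ x y ρ c + 2 * τ * Tq s μ x y (2 * ρ) c := by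
    unfold Tq
    rw [← E2_mul, ← E2_add]
    refine E2_mono hμ fun i hi k hk => ?_
    rw [show x i + v * y i - (x k + v * y k) =
      x i + c * y i - (x k + c * y k) + (v - c) * (y i - y k) by ring]
    refine tri_shift hρ h0 h1 ?_ _
    rw [abs_mul]
    exact (mul_le_mul_of_nonneg_left (hy i hi k hk) (abs_nonneg _)).trans hv
  nlinarith

theorem Tq_wav (ρ c : ℝ) : 4 * Tq s μ x y ρ c - Tq s μ x y (2 * ρ) c =
    E2 s μ fun i k => wav ρ (x i - x k + c * (y i - y k)) := by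
  unfold Tq
  rw [sub_eq_iff_eq_add, ← E2_mul, ← E2_add]
  congr 1
  funext i k
  rw [show x i + c * y i - (x k + c * y k) = x i - x k + c * (y i - y k) by ring, wav]
  ring

theorem Tq_step (hL : 1 ≤ L) (hμ : ∀ i ∈ s, 0 ≤ μ i) (hy : ∀ i ∈ s, ∀ k ∈ s, |y i - y k| ≤ L)
    {t : Finset κ} {ν c : κ → ℝ} (hν : ∀ k ∈ t, 0 ≤ ν k) (hc : ∀ k ∈ t, |c k| ≤ L)
    {ρ τ m I : ℝ} (hρ : 0 < ρ) (hρ1 : ρ ≤ 1) (h0 : 0 < τ) (h1 : τ ≤ 1 / 8)
    (hm : ∀ v, ∑ k ∈ t, ν k * ind (2 * ρ) (c k) v ≤ m)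
    (hI : E2 s μ (fun i k => ∫ v, cut L v * wav ρ (x i - x k + v * (y i - y k))) ≤ I) :
    ∑ k ∈ t, ν k * (4 * Tq s μ x y ρ (c k)) ≤
      (1 + 8 * τ) ^ 2 * ∑ k ∈ t, ν k * Tq s μ x y (2 * ρ) (c k) + 2 * m * L / (τ * ρ) * I := by
  set h := τ * ρ / L with hh
  have hh0 : 0 < h := by positivity
  have hhL : h * L = τ * ρ := div_mul_cancel₀ _ (by positivity)
  have hh1 : h ≤ ρ := by nlinarith
  have hm0 : 0 ≤ m :=
    le_trans (Finset.sum_nonneg fun k hk => mul_nonneg (hν k hk) (ind_nonneg _ _ _)) (hm 0)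
  set D : κ → ℝ := fun k =>
    4 * Tq s μ x y ρ (c k) - (1 + 8 * τ) ^ 2 * Tq s μ x y (2 * ρ) (c k) with hD
  have a := E2_int s μ (fun i k v => cut L v * wav ρ (x i - x k + v * (y i - y k)))
    fun i k => (cw_int hρ.le (by linarith) _ _).1
  have i1 : ∀ k ∈ t, Integrable fun v => ν k * D k * (ind h (c k) v * ind h (c k) v) :=
    fun k _ => (ind_int _ _ _).const_mul _
  have b := integral_mono (integrable_finsetSum t i1) (a.1.const_mul (2 * m)) fun v => by
    simp only [E2_mul, ← Tq_wav]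
    set V := 4 * Tq s μ x y ρ v - Tq s μ x y (2 * ρ) v with hV
    have V0 : 0 ≤ V := sub_nonneg.2 (Tq_pd hρ.le v)
    have c0 := cut_nonneg L v
    calc ∑ k ∈ t, ν k * D k * (ind h (c k) v * ind h (c k) v)
        ≤ ∑ k ∈ t, ν k * ind (2 * ρ) (c k) v * (2 * (cut L v * V)) := by
          refine Finset.sum_le_sum fun k hk => ?_
          have n0 := hν k hk
          have n1 := ind_nonneg (2 * ρ) (c k) v
          by_cases hv : v ∈ Ico (c k) (c k + h)
          · have d1 : |v - c k| ≤ h := by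
              rw [abs_le]; constructor <;> linarith [hv.1, hv.2]
            have d2 : |v - c k| * L ≤ τ * ρ := by nlinarith
            have s1 := Tq_shift (x := x) hμ hy hρ h0.le (by linarith) (v := c k) (c := v)
              (by rwa [abs_sub_comm])
            have s2 := Tq_shift (x := x) hμ hy (ρ := 2 * ρ) (by linarith) h0.le (by linarith)
              (v := v) (c := c k) (by nlinarith)
            have s3 : D k ≤ 2 * V := by
              have : (1 + 8 * τ) * Tq s μ x y (2 * ρ) v ≤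
                  (1 + 8 * τ) * ((1 + 8 * τ) * Tq s μ x y (2 * ρ) (c k)) :=
                mul_le_mul_of_nonneg_left s2 (by positivity)
              have : (1 + 8 * τ) * V ≤ 2 * V := mul_le_mul_of_nonneg_right (by linarith) V0
              simp only [hD]
              nlinarith
            have s4 : cut L v = 1 := cut_one (by
              have := abs_add_le (v - c k) (c k)
              rw [sub_add_cancel] at this
              linarith [hc k hk])
            have s5 := ind_le (ρ := h) (ρ' := 2 * ρ) (by linarith) (c k) v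
            have s6 := mul_nonneg (ind_nonneg h (c k) v) (ind_nonneg h (c k) v)
            rw [s4, one_mul, mul_assoc, mul_assoc (ν k), mul_comm (ind (2 * ρ) (c k) v)]
            refine mul_le_mul_of_nonneg_left ?_ n0
            exact (mul_le_mul_of_nonneg_right s3 s6).trans
              (mul_le_mul_of_nonneg_left s5 (by positivity))
          · rw [show ind h (c k) v = 0 from indicator_of_notMem hv _, mul_zero, mul_zero]
            positivity
      _ ≤ 2 * m * (cut L v * V) := by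
          rw [← Finset.sum_mul]
          have := mul_le_mul_of_nonneg_right (hm v) (show 0 ≤ 2 * (cut L v * V) by positivity)
          linarith
  rw [integral_finsetSum t i1, integral_const_mul, a.2] at b
  simp only [integral_const_mul, ind_tri, sub_self] at b
  have e : tri h 0 = h := by unfold tri; rw [abs_zero, sub_zero, max_eq_left hh0.le]
  rw [e, ← Finset.sum_mul] at b
  have b2 : ∑ k ∈ t, ν k * D k ≤ 2 * m * L / (τ * ρ) * I := by
    rw [← hhL, show 2 * m * L / (h * L) * I = 2 * m * I / h by field_simp, le_div_iff₀ hh0]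
    exact b.trans (mul_le_mul_of_nonneg_left hI (by positivity))
  have e2 : ∑ k ∈ t, ν k * D k = ∑ k ∈ t, ν k * (4 * Tq s μ x y ρ (c k)) -
      (1 + 8 * τ) ^ 2 * ∑ k ∈ t, ν k * Tq s μ x y (2 * ρ) (c k) := by
    rw [Finset.mul_sum, ← Finset.sum_sub_distrib]
    exact Finset.sum_congr rfl fun k _ => by simp only [hD]; ring
  linarith

/-- The averaged collision sum at the scale `2^{-R}`. -/
theorem Tq_bound (hL : 1 ≤ L) (hμ : ∀ i ∈ s, 0 ≤ μ i) (hy : ∀ i ∈ s, ∀ k ∈ s, |y i - y k| ≤ L)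
    {t : Finset κ} {ν c : κ → ℝ} (hν : ∀ k ∈ t, 0 ≤ ν k) (hν1 : ∑ k ∈ t, ν k ≤ 1)
    (hc : ∀ k ∈ t, |c k| ≤ L) {R : ℕ} {m W : ℕ → ℝ} {S : ℝ}
    (hm : ∀ j ≤ R, ∀ v, ∑ k ∈ t, ν k * ind (1 / 2 ^ j) (c k) v ≤ m j)
    (hW : ∀ j ≤ R, E2 s μ (fun i k => nr L j (x i - x k) (y i - y k)) ≤ W j)
    (hS : ∀ i j, i ≤ j → j ≤ R → m j * 4 ^ i * W i ≤ S) :
    4 ^ R * ∑ k ∈ t, ν k * Tq s μ x y (1 / 2 ^ R) (c k) ≤
      3 * ((∑ i ∈ s, μ i) ^ 2 + 1024 * L ^ 2 * (R + 1) ^ 3 * S) := by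
  set τ : ℝ := 1 / (16 * (R + 1)) with hτ
  have R0 : (0 : ℝ) ≤ R := Nat.cast_nonneg R
  have τ0 : 0 < τ := by positivity
  have τ1 : τ ≤ 1 / 8 := one_div_le_one_div_of_le (by norm_num) (by linarith)
  have m0 : ∀ j ≤ R, 0 ≤ m j := fun j hj =>
    le_trans (Finset.sum_nonneg fun k hk => mul_nonneg (hν k hk) (ind_nonneg _ _ _)) (hm j hj 0)
  have W0 : ∀ j ≤ R, 0 ≤ W j := fun j hj => le_trans (Finset.sum_nonneg fun i hi =>
    Finset.sum_nonneg fun k hk => mul_nonneg (mul_nonneg (hμ i hi) (hμ k hk))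
      (nr_nonneg _ _ _ _)) (hW j hj)
  have S0 : 0 ≤ S := le_trans (by have := m0 0 R.zero_le; have := W0 0 R.zero_le; positivity)
    (hS 0 0 le_rfl R.zero_le)
  set M := (∑ i ∈ s, μ i) ^ 2 with hM
  set B := 1024 * L ^ 2 * (R + 1) ^ 2 * S with hB
  have B0 : 0 ≤ B := by positivity
  have M0 : 0 ≤ M := sq_nonneg _
  have a1 : 1 ≤ (1 + 8 * τ) ^ 2 := one_le_pow₀ (by linarith)
  have key : ∀ j ≤ R, 4 ^ j * ∑ k ∈ t, ν k * Tq s μ x y (1 / 2 ^ j) (c k) ≤
      ((1 + 8 * τ) ^ 2) ^ j * (M + j * B) := by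
    intro j
    induction j with
    | zero =>
      intro _
      have : ∀ k ∈ t, ν k * Tq s μ x y (1 / 2 ^ 0) (c k) ≤ ν k * M := fun k hk => by
        refine mul_le_mul_of_nonneg_left ?_ (hν k hk)
        have e := E2_sq s μ fun _ => 1
        simp only [mul_one] at e
        rw [hM, ← e]
        exact E2_mono hμ fun i _ k _ => (tri_le (by norm_num) _).trans (by norm_num)
      have h2 := Finset.sum_le_sum this
      rw [← Finset.sum_mul] at h2
      simp only [pow_zero, one_mul, Nat.cast_zero, zero_mul, add_zero] at h2 ⊢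
      nlinarith
    | succ j ih =>
      intro hj
      have hj' : j ≤ R := by omega
      have e2 : 2 * (1 / (2 : ℝ) ^ (j + 1)) = 1 / 2 ^ j := by rw [pow_succ]; field_simp
      have st := Tq_step (x := x) hL hμ hy hν hc (ρ := 1 / 2 ^ (j + 1)) (τ := τ) (m := m j)
        (I := ∑ i ∈ Finset.range (j + 1), 16 * L / 8 ^ j * 4 ^ i * W i) (by positivity)
        ((div_le_one (by positivity)).2 (one_le_pow₀ one_le_two)) τ0 τ1
        (by rw [e2]; exact hm j hj') (by
          refine (E2_mono hμ fun i hi k hk => cw_bd hL (hy i hi k hk) j).trans ?_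
          rw [E2_sum]
          refine Finset.sum_le_sum fun i hi => ?_
          rw [E2_mul]
          exact mul_le_mul_of_nonneg_left (hW i (by have := Finset.mem_range.1 hi; omega))
            (by positivity))
      rw [e2] at st
      have e3 : 4 ^ j * (2 * m j * L / (τ * (1 / 2 ^ (j + 1))) *
          ∑ i ∈ Finset.range (j + 1), 16 * L / 8 ^ j * 4 ^ i * W i) ≤ B := by
        have e8 : (8 : ℝ) ^ j = 4 ^ j * 2 ^ j := by rw [← mul_pow]; norm_num
        have : ∀ i ∈ Finset.range (j + 1), 4 ^ j * (2 * m j * L / (τ * (1 / 2 ^ (j + 1))) *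
            (16 * L / 8 ^ j * 4 ^ i * W i)) ≤ 1024 * L ^ 2 * (R + 1) * S := fun i hi => by
          have h3 := hS i j (by have := Finset.mem_range.1 hi; omega) hj'
          have : 4 ^ j * (2 * m j * L / (τ * (1 / 2 ^ (j + 1))) *
              (16 * L / 8 ^ j * 4 ^ i * W i)) = 1024 * L ^ 2 * (R + 1) * (m j * 4 ^ i * W i) := by
            rw [hτ, e8, pow_succ]; field_simp; ring
          rw [this]
          exact mul_le_mul_of_nonneg_left h3 (by positivity)
        have h4 := Finset.sum_le_card_nsmul _ _ _ this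
        rw [← Finset.mul_sum, ← Finset.mul_sum, Finset.card_range, nsmul_eq_mul] at h4
        refine h4.trans ?_
        have h5 : ((j + 1 : ℕ) : ℝ) ≤ R + 1 := by exact_mod_cast Nat.succ_le_succ hj'
        have := mul_le_mul_of_nonneg_right h5 (show 0 ≤ 1024 * L ^ 2 * (R + 1) * S by positivity)
        rw [hB]; linarith
      have e4 : 4 ^ (j + 1) * ∑ k ∈ t, ν k * Tq s μ x y (1 / 2 ^ (j + 1)) (c k) =
          4 ^ j * ∑ k ∈ t, ν k * (4 * Tq s μ x y (1 / 2 ^ (j + 1)) (c k)) := by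
        rw [pow_succ (4 : ℝ), mul_assoc, Finset.mul_sum _ _ (4 : ℝ)]
        congr 1
        exact Finset.sum_congr rfl fun k _ => by ring
      have e5 := mul_le_mul_of_nonneg_left st (show (0 : ℝ) ≤ 4 ^ j by positivity)
      have e6 := mul_le_mul_of_nonneg_left (ih hj') (show 0 ≤ (1 + 8 * τ) ^ 2 by positivity)
      have e7 : B ≤ ((1 + 8 * τ) ^ 2) ^ (j + 1) * B := le_mul_of_one_le_left B0 (one_le_pow₀ a1)
      rw [e4]
      rw [pow_succ ((1 + 8 * τ) ^ 2)] at e7 ⊢
      push_cast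
      nlinarith
  refine (key R le_rfl).trans ?_
  have b1 : ((1 + 8 * τ) ^ 2) ^ R ≤ 3 := by
    have h1 : 1 + 8 * τ ≤ Real.exp (8 * τ) := by linarith [Real.add_one_le_exp (8 * τ)]
    have h2 : ((1 + 8 * τ) ^ 2) ^ R ≤ (Real.exp (8 * τ) ^ 2) ^ R :=
      pow_le_pow_left₀ (by positivity) (pow_le_pow_left₀ (by positivity) h1 2) R
    rw [← Real.exp_nat_mul, ← Real.exp_nat_mul] at h2
    refine h2.trans ((Real.exp_le_exp.2 (show _ ≤ (1 : ℝ) from ?_)).trans ?_)
    · rw [hτ]; push_cast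
      rw [show (R : ℝ) * (2 * (8 * (1 / (16 * (R + 1))))) = R / (R + 1) by field_simp; ring,
        div_le_one (by positivity)]
      linarith
    · linarith [Real.exp_one_lt_d9]
  have b2 : R * B ≤ 1024 * L ^ 2 * (R + 1) ^ 3 * S := by
    have := mul_le_mul_of_nonneg_right (show (R : ℝ) ≤ R + 1 by linarith) B0
    rw [hB] at this ⊢; linarith
  exact mul_le_mul b1 (by linarith) (by positivity) (by norm_num)

end Rec

end Pool.Agent.MP_5168f5_an.MX
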