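import Pool.Agent.MP_5168f5_an.MX.FalE
import Pool.Agent.MP_5168f5_an.H17F.Sq2
import Pool.Agent.MP_5168f5_an.H17F.KE
import Pool.Agent.MP_5168f5_an.H17F.KS

/-! Entropy of `A + C B` for sequences: the Falconer range and fixed multipliers. -/

namespace Pool.Agent.MP_5168f5_an.MX

open H19 H17S H17F Filter
open H39F (pv)

section Fin

variable {Ω T α β : Type}

/-- Conditional probability, given `Θ`, of the value of `X` at `ω`. -/
noncomputable def cm (P : FP Ω) (Θ : Ω → T) (X : Ω → α) (ω : Ω) : ℝ :=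
  pb (cv P Θ (Θ ω)) fun v => X v = X ω

theorem mem_cv {P : FP Ω} {Θ : Ω → T} {ω : Ω} (hω : ω ∈ P.S) (v : Ω) :
    v ∈ (cv P Θ (Θ ω)).S ↔ v ∈ P.S ∧ Θ v = Θ ω :=
  mem_cE (E := fun v => Θ v = Θ ω) ⟨ω, hω, rfl⟩ v

theorem cm_mono {P : FP Ω} {Θ : Ω → T} {X : Ω → α} {Y : Ω → β} {ω : Ω} (hω : ω ∈ P.S)
    (h : Fn P Y fun v => (X v, Θ v)) : cm P Θ X ω ≤ cm P Θ Y ω :=
  pb_mono fun v hv e => h v ((mem_cv hω v).1 hv).1 ω hω (Prod.ext e ((mem_cv hω v).1 hv).2)

theorem cm_congr {P : FP Ω} {Θ : Ω → T} {X : Ω → α} {a b : Ω} (h1 : Θ a = Θ b) (h2 : X a = X b) :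
    cm P Θ X a = cm P Θ X b := by
  simp only [cm, h1, h2]

/-- All dyadic cells of `X ω` have small conditional probability. -/
def Gd (P : FP Ω) (Θ : Ω → T) (X : Ω → ℝ) (R : ℕ) (K x : ℝ) (ω : Ω) : Prop :=
  ∀ j ≤ R, cm P Θ (fun v => fl1 j (X v)) ω ≤ K * x ^ j

theorem ball_bd {P : FP Ω} {Θ : Ω → T} {X : Ω → ℝ} {R : ℕ} {K x L : ℝ} (hK : 0 ≤ K) (hx : 0 ≤ x)
    (hL : 0 ≤ L) {ω : Ω} (hω : ω ∈ P.S) {j : ℕ} (hj : j ≤ R) (y : ℝ) :
    pb (cv P Θ (Θ ω)) (fun v => (∃ v₀ ∈ (cv P Θ (Θ ω)).S, fl1 R (X v₀) = fl1 R (X v) ∧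
      Gd P Θ X R K x v₀) ∧ |(fl1 R (X v) : ℝ) / 2 ^ R - y| ≤ L / 2 ^ j) ≤
      (2 * L + 5) * K * x ^ j := by
  have c := H39F.count (cv P Θ (Θ ω)) (fun v => fl1 j (X v)) (fun v =>
    (∃ v₀ ∈ (cv P Θ (Θ ω)).S, fl1 R (X v₀) = fl1 R (X v) ∧ Gd P Θ X R K x v₀) ∧
      |(fl1 R (X v) : ℝ) / 2 ^ R - y| ≤ L / 2 ^ j)
    (Finset.Icc (fl1 j y - ⌈L + 1⌉₊) (fl1 j y + ⌈L + 1⌉₊)) (m := K * x ^ j) (by positivity) (by
      rintro v - ⟨⟨v₀, h0, h1, h2⟩, h3⟩
      refine ⟨fl1_mem_Icc ?_, ?_⟩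
      · have p2 : (0 : ℝ) < 2 ^ R := by positivity
        have pj : (0 : ℝ) < 2 ^ j := by positivity
        have a1 : |X v - (fl1 R (X v) : ℝ) / 2 ^ R| ≤ 1 / 2 ^ j := by
          rw [show X v - (fl1 R (X v) : ℝ) / 2 ^ R = -((fl1 R (X v) - 2 ^ R * X v) / 2 ^ R) by
            field_simp; ring, abs_neg, abs_div, abs_of_pos p2]
          exact div_le_div₀ zero_le_one (abs_fl1_sub _ _) pj (pow_le_pow_right₀ one_le_two hj)
        have a2 := abs_sub_le (X v) ((fl1 R (X v) : ℝ) / 2 ^ R) y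
        have a3 : (L + 1) / 2 ^ j ≤ ⌈L + 1⌉₊ * ((2 : ℝ) ^ j)⁻¹ :=
          mul_le_mul_of_nonneg_right (Nat.le_ceil _) (by positivity)
        rw [add_div] at a3
        linarith
      · have := h2 j hj
        simp only [cm] at this
        rw [((mem_cv hω v₀).1 h0).2, fl1_eq_of_le hj h1] at this
        exact this)
  refine c.trans ?_
  rw [mul_assoc]
  refine mul_le_mul_of_nonneg_right ?_ (by positivity)
  rw [Int.card_Icc, show fl1 j y + ⌈L + 1⌉₊ + 1 - (fl1 j y - ⌈L + 1⌉₊) =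
    ((2 * ⌈L + 1⌉₊ + 1 : ℕ) : ℤ) by push_cast; ring, Int.toNat_natCast]
  push_cast
  linarith [Nat.ceil_lt_add_one (show 0 ≤ L + 1 by linarith)]

theorem fl1_diff {R : ℕ} {x y L : ℝ} (hL : 1 ≤ L) (h : |x - y| ≤ 2 * L) :
    |(fl1 R x : ℝ) - fl1 R y| ≤ 4 * L * 2 ^ R := by
  have p1 : (1 : ℝ) ≤ 2 ^ R := one_le_pow₀ one_le_two
  have a1 := abs_le.1 (abs_fl1_sub R x)
  have a2 := abs_le.1 (abs_fl1_sub R y)
  have a3 := abs_le.1 h
  have a4 : 1 ≤ L * 2 ^ R := one_le_mul_of_one_le_of_one_le hL p1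
  rw [abs_le]; constructor <;> nlinarith

theorem pj_near {R : ℕ} {A B C A' L : ℝ} (hL : 1 ≤ L) (hB : |B| ≤ L) (hC : |C| ≤ L)
    (h : |A' - (A + C * B)| ≤ L / 2 ^ R) :
    |(fl1 R A : ℝ) + fl1 R C * fl1 R B / 2 ^ R - fl1 R A'| ≤ 6 * L := by
  have p1 : (1 : ℝ) ≤ 2 ^ R := one_le_pow₀ one_le_two
  have p2 : (0 : ℝ) < 2 ^ R := by positivity
  have a1 := abs_fl1_sub R A
  have a2 := abs_fl1_sub R B
  have a3 := abs_fl1_sub R C
  have a4 := abs_fl1_sub R A'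
  set e1 := (fl1 R A : ℝ) - 2 ^ R * A with he1
  set e2 := (fl1 R B : ℝ) - 2 ^ R * B with he2
  set e3 := (fl1 R C : ℝ) - 2 ^ R * C with he3
  set e4 := (fl1 R A' : ℝ) - 2 ^ R * A' with he4
  have e : (fl1 R A : ℝ) + fl1 R C * fl1 R B / 2 ^ R - fl1 R A' =
      e1 - e4 + (e3 * B + e2 * C + e3 * e2 / 2 ^ R) - (A' - (A + C * B)) * 2 ^ R := by
    rw [he1, he2, he3, he4]; field_simp; ring
  have b1 : |e3 * B| ≤ L := by
    rw [abs_mul]; nlinarith [abs_nonneg e3, abs_nonneg B]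
  have b2 : |e2 * C| ≤ L := by
    rw [abs_mul]; nlinarith [abs_nonneg e2, abs_nonneg C]
  have b3 : |e3 * e2 / 2 ^ R| ≤ 1 := by
    rw [abs_div, abs_mul, abs_of_pos p2, div_le_one p2]
    nlinarith [abs_nonneg e3, abs_nonneg e2]
  have b4 : |(A' - (A + C * B)) * 2 ^ R| ≤ L := by
    rw [abs_mul, abs_of_pos p2, ← le_div_iff₀ p2]; exact h
  rw [abs_le] at *
  rw [e]
  constructor <;> linarith [a1.1, a1.2, a4.1, a4.2, b1.1, b1.2, b2.1, b2.2, b3.1, b3.2, b4.1, b4.2]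

theorem ch_pj {P : FP Ω} {A B C A' : Ω → ℝ} {G : Ω → β} {R : ℕ} {L : ℝ} (hL : 1 ≤ L)
    (h : ∀ ω ∈ P.S, |B ω| ≤ L ∧ |C ω| ≤ L ∧ |A' ω - (A ω + C ω * B ω)| ≤ L / 2 ^ R)
    (hG : Fn P (fun ω => fl1 R (A' ω)) G) :
    ch P (fun ω => pj R (fl1 R (A ω)) (fl1 R (B ω)) (fl1 R (C ω))) G ≤ Real.log (27 * L) := by
  have k := ch_near1 (P := P) (G := G) (j := 0) (L := 12 * L)
    (x := fun ω => (fl1 R (A ω) : ℝ) + fl1 R (C ω) * fl1 R (B ω) / 2 ^ R) (by linarith)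
    fun a ha b hb e => by
      have a1 := abs_le.1 (pj_near hL (h a ha).1 (h a ha).2.1 (h a ha).2.2)
      have a2 := abs_le.1 (pj_near hL (h b hb).1 (h b hb).2.1 (h b hb).2.2)
      have a3 : fl1 R (A' a) = fl1 R (A' b) := hG a ha b hb e
      rw [a3] at a1
      rw [pow_zero, div_one, abs_le]
      constructor <;> linarith [a1.1, a1.2, a2.1, a2.2]
  refine le_trans (le_of_eq ?_) (k.trans (Real.log_le_log (by linarith) (by linarith)))
  simp only [fl1, pow_zero, one_mul, pj]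

theorem ch_pj' {P : FP Ω} {A B C A' : Ω → ℝ} {G : Ω → β} {R : ℕ} {L : ℝ} (hL : 1 ≤ L)
    (h : ∀ ω ∈ P.S, |B ω| ≤ L ∧ |C ω| ≤ L ∧ |A' ω - (A ω + C ω * B ω)| ≤ L / 2 ^ R)
    (hG : Fn P (fun ω => (fl1 R (A ω), fl1 R (B ω), fl1 R (C ω))) G) :
    ch P (fun ω => fl1 R (A' ω)) G ≤ Real.log (27 * L) := by
  have k := ch_near1 (P := P) (G := G) (j := 0) (L := 12 * L)
    (x := fun ω => (fl1 R (A' ω) : ℝ)) (by linarith)
    fun a ha b hb e => by
      have a1 := abs_le.1 (pj_near hL (h a ha).1 (h a ha).2.1 (h a ha).2.2)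
      have a2 := abs_le.1 (pj_near hL (h b hb).1 (h b hb).2.1 (h b hb).2.2)
      have a3 := hG a ha b hb e
      simp only [Prod.mk.injEq] at a3
      rw [a3.1, a3.2.1, a3.2.2] at a1
      rw [pow_zero, div_one, abs_le]
      constructor <;> linarith [a1.1, a1.2, a2.1, a2.2]
  refine le_trans (le_of_eq ?_) (k.trans (Real.log_le_log (by linarith) (by linarith)))
  simp only [fl1, pow_zero, one_mul, Int.floor_intCast]

/-- The finite inequality with a context. -/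
theorem fal1 (P : FP Ω) (Θ : Ω → T) (A B C A' : Ω → ℝ) {R : ℕ} {L K η x z : ℝ} (hL : 1 ≤ L)
    (hK : 1 ≤ K) (h0 : 0 ≤ η) (h1 : η ≤ 1) (hx : 0 ≤ x) (hz : 0 ≤ z) (hz1 : z ≤ 1)
    (hxz : 4 * (1 / 2 : ℝ) ^ (1 - η) * (x * z) ≤ 1)
    (ha : ∀ ω ∈ P.S, ∀ ω' ∈ P.S, Θ ω = Θ ω' → |A ω - A ω'| ≤ L)
    (h : ∀ ω ∈ P.S, |B ω| ≤ L ∧ |C ω| ≤ L ∧ |A' ω - (A ω + C ω * B ω)| ≤ L / 2 ^ R) :
    R * lg - ch P (fun ω => fl1 R (A' ω)) (fun ω => (fl1 R (C ω), Θ ω)) ≤
      (1 - η) * (R * lg - ch P (fun ω => fl1 R (A ω)) Θ) +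
      2 * mi P (fun ω => fl1 R (A ω)) (fun ω => (fl1 R (B ω), fl1 R (C ω))) Θ +
      2 * mi P (fun ω => fl1 R (B ω)) (fun ω => fl1 R (C ω)) Θ +
      pb P (fun ω => ¬(Gd P Θ B R K x ω ∧ Gd P Θ C R K z ω)) * (R * lg) +
      2 * Real.log (2 ^ 17 * (4 * L) ^ 4 * (R + 1) ^ 3 * (13 * L * K) ^ 2) + Real.log (27 * L) := by
  classical
  have t1 := ch_tri (P := P) (fun ω => pj R (fl1 R (A ω)) (fl1 R (B ω)) (fl1 R (C ω)))
    (fun ω => fl1 R (A' ω)) fun ω => (fl1 R (C ω), Θ ω)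
  have t2 := ch_pj (A := A) (G := fun ω => (fl1 R (A' ω), fl1 R (C ω), Θ ω)) hL h (Fn.fst _ _)
  have key : P.E (fun ω => R * lg - ch (cv P Θ (Θ ω))
      (fun v => pj R (fl1 R (A v)) (fl1 R (B v)) (fl1 R (C v))) fun v => fl1 R (C v)) ≤
      P.E fun ω => (1 - η) * (R * lg - hh (cv P Θ (Θ ω)) fun v => fl1 R (A v)) +
      2 * (hh (cv P Θ (Θ ω)) (fun v => fl1 R (A v)) - ch (cv P Θ (Θ ω)) (fun v => fl1 R (A v))
        fun v => (fl1 R (B v), fl1 R (C v))) +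
      2 * (hh (cv P Θ (Θ ω)) (fun v => fl1 R (B v)) - ch (cv P Θ (Θ ω)) (fun v => fl1 R (B v))
        fun v => fl1 R (C v)) +
      R * lg * pb (cv P Θ (Θ ω)) (fun v => ¬(Gd P Θ B R K x v ∧ Gd P Θ C R K z v)) +
      2 * Real.log (2 ^ 17 * (4 * L) ^ 4 * (R + 1) ^ 3 * (13 * L * K) ^ 2) := by
    refine P.E_mono fun ω hω => ?_
    have m := fun v hv => (mem_cv (Θ := Θ) hω v).1 hv
    have f := fal0 (cv P Θ (Θ ω)) (fun v => fl1 R (A v)) (fun v => fl1 R (B v))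
      (fun v => fl1 R (C v))
      (fun n => ∃ v₀ ∈ (cv P Θ (Θ ω)).S, fl1 R (B v₀) = n ∧ Gd P Θ B R K x v₀)
      (fun n => ∃ v₀ ∈ (cv P Θ (Θ ω)).S, fl1 R (C v₀) = n ∧ Gd P Θ C R K z v₀)
      (R := R) (L := 4 * L) (K := 13 * L * K) (by linarith) (by nlinarith) h0 h1 hx hz hz1 hxz
      (fun a h2 b h3 => fl1_diff hL ((ha a (m a h2).1 b (m b h3).1
        ((m a h2).2.trans (m b h3).2.symm)).trans (by linarith)))
      (fun a h2 b h3 => fl1_diff hL ((abs_sub _ _).trans (by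
        linarith [(h a (m a h2).1).1, (h b (m b h3).1).1])))
      (fun a h2 => by
        have := fl1_diff (R := R) (x := C a) (y := 0) hL (by
          rw [sub_zero]; linarith [(h a (m a h2).1).2.1])
        simpa [fl1] using this)
      (fun j hj y => (ball_bd (by linarith) hx (by linarith) hω hj y).trans
        (mul_le_mul_of_nonneg_right (by nlinarith) (by positivity)))
      fun j hj y => (ball_bd (by linarith) hz zero_le_one hω hj y).trans
        (mul_le_mul_of_nonneg_right (by nlinarith) (by positivity))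
    refine f.trans (add_le_add (add_le_add le_rfl ?_) le_rfl)
    rw [mul_comm]
    refine mul_le_mul_of_nonneg_left (pb_mono fun v hv hn hg => hn ?_)
      (mul_nonneg (Nat.cast_nonneg _) lg_pos.le)
    exact ⟨⟨v, hv, rfl, hg.1⟩, v, hv, rfl, hg.2⟩
  have e0 : P.E (fun ω => pb (cv P Θ (Θ ω)) fun v => ¬(Gd P Θ B R K x v ∧ Gd P Θ C R K z v)) =
      pb P fun v => ¬(Gd P Θ B R K x v ∧ Gd P Θ C R K z v) :=
    (KEA.exp P Θ fun _ v => @ite ℝ (¬(Gd P Θ B R K x v ∧ Gd P Θ C R K z v))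
      (Classical.propDecidable _) 1 0).symm
  simp only [FP.E_sub, FP.E_add, FP.E_mul, FP.E_const, e0] at key
  rw [← KEA.ent P Θ (fun _ v => pj R (fl1 R (A v)) (fl1 R (B v)) (fl1 R (C v)))
      fun _ v => fl1 R (C v), ← KEA.ent1 P Θ fun _ v => fl1 R (A v),
    ← KEA.ent1 P Θ fun _ v => fl1 R (B v),
    ← KEA.ent P Θ (fun _ v => fl1 R (A v)) fun _ v => (fl1 R (B v), fl1 R (C v)),
    ← KEA.ent P Θ (fun _ v => fl1 R (B v)) fun _ v => fl1 R (C v)] at key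
  unfold mi
  linarith

end Fin

section Fin2

variable {Ω T α β : Type}

open Classical in
/-- Given `Θ`, few values have large conditional probability. -/
theorem heavy (P : FP Ω) (Θ : Ω → T) (X : Ω → α) {m : ℝ} (hm : 0 < m) {a : Ω} (ha : a ∈ P.S) :
    ∃ W : Finset α, (W.card : ℝ) ≤ 1 / m ∧
      ∀ b ∈ P.S, Θ b = Θ a → m < cm P Θ X b → X b ∈ W := by
  refine ⟨((cv P Θ (Θ a)).S.image X).filter fun x => m < pv (cv P Θ (Θ a)) X x, ?_,
    fun b hb e h => Finset.mem_filter.2 ⟨Finset.mem_image_of_mem _ ((mem_cv ha b).2 ⟨hb, e⟩), ?_⟩⟩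
  · rw [le_div_iff₀ hm, ← nsmul_eq_mul]
    refine (Finset.card_nsmul_le_sum _ (pv (cv P Θ (Θ a)) X) m
      fun x hx => (Finset.mem_filter.1 hx).2.le).trans ?_
    unfold pv pb
    rw [← FP.E_sum]
    refine (FP.E_mono _ fun ω _ => ?_).trans (FP.E_const _ 1).le
    rw [Finset.sum_ite_eq]
    split_ifs <;> norm_num
  · simp only [cm, e] at h
    exact h

theorem ch_eq_cm (P : FP Ω) (Θ : Ω → T) (X : Ω → α) :
    ch P X Θ = P.E fun ω => -Real.log (cm P Θ X ω) := by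
  rw [KEA.ent1 P Θ fun _ => X]
  refine Eq.trans ?_ (KEA.exp P Θ fun s ω => -Real.log (pv (cv P Θ s) X (X ω))).symm
  exact P.E_congr fun ω _ => H39F.hh_eq _ _

theorem cm_pos {P : FP Ω} (Θ : Ω → T) (X : Ω → α) {ω : Ω} (hω : ω ∈ P.S) : 0 < cm P Θ X ω :=
  pb_pos _ ⟨ω, (mem_cv hω ω).2 ⟨hω, rfl⟩, rfl⟩

theorem cm_le_one (P : FP Ω) (Θ : Ω → T) (X : Ω → α) (ω : Ω) : cm P Θ X ω ≤ 1 := pb_le_one _ _

theorem cm_eq {P : FP Ω} (Θ : Ω → T) (X : Ω → α) (ω : Ω) :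
    pb P (fun v => Θ v = Θ ω) * cm P Θ X ω = pb P fun v => Θ v = Θ ω ∧ X v = X ω := pb_cE _ _ _

end Fin2

section Seq

variable {Ω T T' : ℕ → Type} {P : ∀ n, FP (Ω n)} {Θ : ∀ n, Ω n → T n} {R : ℕ → ℕ} {L : ℕ → ℝ}

/-- Given `Θ`, the dyadic cell of `X` of side `2^{-j}` has probability at most `2^{-β j + o(R)}`
with high probability, for all `j ≤ R`. -/
def Fro (P : ∀ n, FP (Ω n)) (Θ : ∀ n, Ω n → T n) (X : ∀ n, Ω n → ℝ) (R : ℕ → ℕ) (β : ℝ) : Prop :=
  ∀ j : ℕ → ℕ, (∀ n, j n ≤ R n) → ∀ ε : ℝ, 0 < ε → Whp P fun n ω =>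
    cm (P n) (Θ n) (fun v => fl1 (j n) (X n v)) ω ≤ Real.exp (ε * R n - β * j n * lg)

variable {X A B C A' : ∀ n, Ω n → ℝ} {β γ η : ℝ}

theorem Fro.mono (h : Fro P Θ X R β) {β' : ℝ} (e : β' ≤ β) : Fro P Θ X R β' := fun j hj ε hε =>
  (h j hj ε hε).mono (Eventually.of_forall fun n ω _ k => k.trans (Real.exp_le_exp.2 (by
    have := mul_le_mul_of_nonneg_right e (mul_nonneg (Nat.cast_nonneg (j n)) lg_pos.le)
    linarith)))

theorem fro_zero : Fro P Θ X R 0 := fun j _ ε hε => Whp.of_ev (Eventually.of_forall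
  fun n ω _ => (cm_le_one _ _ _ _).trans (Real.one_le_exp (by simp; positivity)))

/-- All scales at once. -/
theorem Fro.all (h : Fro P Θ X R β) (hR : Big R) (hβ : 0 ≤ β) {ε : ℝ} (hε : 0 < ε) :
    Whp P fun n ω => Gd (P n) (Θ n) (X n) (R n) (Real.exp (ε * R n)) (Real.exp (-(β * lg))) ω := by
  obtain ⟨G, hG⟩ := exists_nat_gt (4 * β / ε)
  have hG1 : (0 : ℝ) < G := lt_of_le_of_lt (by positivity) hG
  have hG0 : 0 < G := by exact_mod_cast hG1
  rw [div_lt_iff₀ hε] at hG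
  have w := Whp.all (J := Fin (G + 1)) fun i =>
    h (fun n => min ((R n / G + 1) * i) (R n)) (fun n => min_le_right _ _) (ε / 2) (half_pos hε)
  refine w.mono ?_
  filter_upwards [hR.sm β (ε / 4) (by positivity)] with n hn ω hω k j hj
  have d0 : 0 < R n / G + 1 := Nat.succ_pos _
  have i1 : j / (R n / G + 1) < G + 1 := by
    refine Nat.lt_succ_of_le (Nat.div_le_of_le_mul (hj.trans ?_))
    rw [mul_comm]; exact (Nat.lt_mul_div_succ _ hG0).le
  have i2 : (R n / G + 1) * (j / (R n / G + 1)) ≤ j := Nat.mul_div_le _ _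
  have i3 : j < (R n / G + 1) * (j / (R n / G + 1)) + (R n / G + 1) := by
    have := Nat.div_add_mod j (R n / G + 1)
    have := Nat.mod_lt j d0
    omega
  have k1 := k ⟨_, i1⟩
  simp only [min_eq_left (i2.trans hj)] at k1
  refine (cm_mono hω fun a _ b _ e => fl1_eq_of_le i2 (congrArg Prod.fst e)).trans (k1.trans ?_)
  rw [← Real.exp_nat_mul, ← Real.exp_add]
  refine Real.exp_le_exp.2 ?_
  set j' := (R n / G + 1) * (j / (R n / G + 1))
  have i4 : (j : ℝ) ≤ j' + (R n / G + 1) := by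
    have : ((R n / G : ℕ) : ℝ) ≤ R n / G := Nat.cast_div_le
    have i5 : (j : ℝ) ≤ j' + ((R n / G : ℕ) + 1) := by exact_mod_cast i3.le
    linarith
  have i6 : β * (R n / G) ≤ ε / 4 * R n := by
    rw [← mul_div_assoc, div_le_iff₀ hG1]
    nlinarith [Nat.cast_nonneg (α := ℝ) (R n)]
  have i7 : β * (R n / G + 1) * lg ≤ β * (R n / G + 1) :=
    mul_le_of_le_one_right (by positivity) lg_lt_one.le
  have i8 := mul_le_mul_of_nonneg_left i4 (mul_nonneg hβ lg_pos.le)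
  simp only [zero_add] at hn
  nlinarith

/-- Entropy bounds on all events of positive probability give the pointwise bound. -/
theorem Fro.of_rob (hR : Big R) (h : ∀ j : ℕ → ℕ, (∀ n, j n ≤ R n) → ∀ E, Pos P E →
    Le R (fun n => β * j n * lg) fun n =>
      ch (cE (P n) (E n)) (fun v => fl1 (j n) (X n v)) (Θ n)) : Fro P Θ X R β := by
  intro j hj ε hε
  by_contra hn
  have hp := not_whp hn
  refine (h j hj _ hp).false hR hε ?_
  filter_upwards [hp.ex] with n hx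
  have k := ch_det (P := cE (P n) fun ω => ¬cm (P n) (Θ n) (fun v => fl1 (j n) (X n v)) ω ≤
      Real.exp (ε * R n - β * j n * lg)) (F := fun v => fl1 (j n) (X n v)) (G := Θ n)
    (B := 1 / Real.exp (ε * R n - β * j n * lg)) fun a ha =>
      (heavy (P n) (Θ n) (fun v => fl1 (j n) (X n v)) (Real.exp_pos _) (cE_sub ha)).imp
        fun W hW => ⟨hW.1, fun b hb e =>
          hW.2 b (cE_sub hb) e (not_le.1 ((mem_cE hx b).1 hb).2)⟩
  rw [one_div, Real.log_inv, Real.log_exp] at k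
  linarith

/-- The pointwise bound gives the entropy bound. -/
theorem Fro.ent (h : Fro P Θ X R β) (hβ : 0 ≤ β) {j : ℕ → ℕ} (hj : ∀ n, j n ≤ R n) :
    Le R (fun n => β * j n * lg) fun n => ch (P n) (fun v => fl1 (j n) (X n v)) (Θ n) := by
  classical
  intro ε hε
  filter_upwards [h j hj (ε / 2) (half_pos hε) (ε / 2 / (β + 1)) (by positivity)] with n hn
  rw [ch_eq_cm]
  have j1 : (j n : ℝ) ≤ R n := by exact_mod_cast hj n
  have j0 : (0 : ℝ) ≤ j n := Nat.cast_nonneg _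
  have b0 : 0 ≤ β * j n * lg := mul_nonneg (by positivity) lg_pos.le
  have b1 : β * j n * lg ≤ (β + 1) * R n :=
    (mul_le_of_le_one_right (by positivity) lg_lt_one.le).trans (by nlinarith)
  have k := (P n).E_mono (F := fun ω => β * j n * lg - ε / 2 * R n - β * j n * lg *
      @ite ℝ (¬cm (P n) (Θ n) (fun v => fl1 (j n) (X n v)) ω ≤
        Real.exp (ε / 2 * R n - β * j n * lg)) (Classical.propDecidable _) 1 0)
    (G := fun ω => -Real.log (cm (P n) (Θ n) (fun v => fl1 (j n) (X n v)) ω)) fun ω hω => by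
      have c0 := cm_pos (Θ n) (fun v => fl1 (j n) (X n v)) hω
      split_ifs with c
      · have := (Real.log_le_iff_le_exp c0).2 c
        linarith
      · have := Real.log_nonpos c0.le (cm_le_one _ _ _ _)
        have : 0 ≤ ε / 2 * R n := by positivity
        linarith
  rw [FP.E_sub, FP.E_const, FP.E_mul] at k
  have k2 := mul_le_mul b1 hn (pb_nonneg _ _) (by positivity)
  have k3 : (β + 1) * R n * (ε / 2 / (β + 1)) = ε / 2 * R n := by field_simp
  have k4 := sub_le_sub_left k2 (β * j n * lg - ε / 2 * R n)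
  have k5 := k4.trans k
  linarith

/-- Pointwise bounds on the joint and marginal informations give the pointwise bound. -/
theorem Fro.of_pt (h : ∀ j : ℕ → ℕ, (∀ n, j n ≤ R n) → ∀ ε : ℝ, 0 < ε → Whp P fun n ω =>
    Real.log (pb (P n) fun v => Θ n v = Θ n ω ∧ fl1 (j n) (X n v) = fl1 (j n) (X n ω)) -
      Real.log (pb (P n) fun v => Θ n v = Θ n ω) ≤ ε * R n - β * j n * lg) : Fro P Θ X R β := by
  intro j hj ε hε
  refine (h j hj ε hε).mono (Eventually.of_forall fun n ω hω k => ?_)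
  have c0 := cm_pos (Θ n) (fun v => fl1 (j n) (X n v)) hω
  have c1 : 0 < pb (P n) fun v => Θ n v = Θ n ω := pb_pos _ ⟨ω, hω, rfl⟩
  rw [← cm_eq (Θ n) (fun v => fl1 (j n) (X n v)), Real.log_mul c1.ne' c0.ne'] at k
  exact (Real.log_le_iff_le_exp c0).1 (by linarith)

/-- A variable of full entropy has the pointwise bound with exponent one. -/
theorem Fro.of_full (hR : Big R) (hL : Sub R L)
    (hb : ∀ᶠ n in UF, ∀ a ∈ (P n).S, ∀ b ∈ (P n).S, Θ n a = Θ n b → |X n a - X n b| ≤ L n)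
    (h : Le R (fun n => R n * lg) fun n => ch (P n) (fun v => fl1 (R n) (X n v)) (Θ n)) :
    Fro P Θ X R 1 := by
  intro j hj ε hε
  have h1 : Le R (fun n => ch (P n) (fun v => fl1 (R n) (X n v))
      fun v => (fl1 (j n) (X n v), Θ n v)) fun n => (R n - j n : ℝ) * lg :=
    le_fl1 hR (hR.sub le_rfl) hj (Eventually.of_forall fun n a _ b _ e => by
      rw [one_div]; exact (abs_sub_lt_of_fl1_eq (congrArg Prod.fst e)).le)
  have h2 : Le R (fun n => Real.log (2 ^ j n)) fun n =>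
      ch (P n) (fun v => fl1 (j n) (X n v)) (Θ n) :=
    Le.of2 h h1 (Eventually.of_forall fun n => by
      have := ch_tri (P := P n) (fun v => fl1 (R n) (X n v)) (fun v => fl1 (j n) (X n v)) (Θ n)
      rw [log_two_pow]; linarith)
  have k := KSA.spw P (fun n ω => Real.exp (ε * R n - 1 * j n * lg) <
      cm (P n) (Θ n) (fun v => fl1 (j n) (X n v)) ω) (fun n v => fl1 (j n) (X n v)) Θ R rowKE
    (fun n => 2 ^ j n) (fun n => 5 * L n) ε hR (hL.const_mul hR (by norm_num)) hε h2 (by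
      filter_upwards [hb] with n hn
      have p1 : (1 : ℝ) ≤ 2 ^ j n := one_le_pow₀ one_le_two
      have l1 := hL.1 n
      have l2 : 1 ≤ L n * 2 ^ j n := one_le_mul_of_one_le_of_one_le l1 p1
      refine ⟨by positivity, fun a ha => (det_near1 (P := P n) (x := X n) (G := Θ n) (j := j n)
        (L := L n * 2 ^ j n) (by positivity) (fun a ha b hb e => by
          rw [mul_div_cancel_right₀ _ (by positivity)]; exact hn a ha b hb e) a ha).imp
            fun W hW => ⟨hW.1.trans (by linarith), hW.2⟩, fun a ha =>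
        (heavy (P n) (Θ n) (fun v => fl1 (j n) (X n v)) (Real.exp_pos _) ha).imp
          fun W hW => ⟨hW.1.trans ?_, hW.2⟩⟩
      rw [one_div, ← Real.exp_neg, two_pow_eq, mul_assoc (5 * L n), ← Real.exp_add]
      refine le_trans (Real.exp_le_exp.2 (by linarith))
        (le_mul_of_one_le_left (Real.exp_pos _).le (by linarith)))
  exact k.mono (Eventually.of_forall fun n ω _ => not_lt.1)

/-- FAL.  In the range `β + γ ≥ 1 + η` the deficiency of `A + C B` given `C` is at most `1 - η`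
times the deficiency of `A`. -/
theorem fal (hR : Big R) (hL : Sub R L) (h0 : 0 ≤ η) (h1 : η ≤ 1) (hβ : 0 ≤ β) (hγ : 0 ≤ γ)
    (hη : 1 + η ≤ β + γ) (hB : Fro P Θ B R β) (hC : Fro P Θ C R γ)
    (hb : ∀ᶠ n in UF, (∀ ω ∈ (P n).S, ∀ ω' ∈ (P n).S, Θ n ω = Θ n ω' → |A n ω - A n ω'| ≤ L n) ∧
      ∀ ω ∈ (P n).S, |B n ω| ≤ L n ∧ |C n ω| ≤ L n ∧
        |A' n ω - (A n ω + C n ω * B n ω)| ≤ L n / 2 ^ R n)
    (i1 : Sm R fun n => mi (P n) (fun ω => fl1 (R n) (A n ω))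
      (fun ω => (fl1 (R n) (B n ω), fl1 (R n) (C n ω))) (Θ n))
    (i2 : Sm R fun n => mi (P n) (fun ω => fl1 (R n) (B n ω)) (fun ω => fl1 (R n) (C n ω)) (Θ n)) :
    Le R (fun n => R n * lg - ch (P n) (fun ω => fl1 (R n) (A' n ω))
        fun ω => (fl1 (R n) (C n ω), Θ n ω))
      fun n => (1 - η) * (R n * lg - ch (P n) (fun ω => fl1 (R n) (A n ω)) (Θ n)) := by
  intro ε hε
  have hxz : 4 * (1 / 2 : ℝ) ^ (1 - η) * (Real.exp (-(β * lg)) * Real.exp (-(γ * lg))) ≤ 1 := by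
    have e4 : (4 : ℝ) = Real.exp ((2 : ℕ) * lg) := by rw [← two_pow_eq]; norm_num
    rw [Real.rpow_def_of_pos (by norm_num), one_div, Real.log_inv, e4, ← Real.exp_add,
      ← Real.exp_add, ← Real.exp_add, Real.exp_le_one_iff]
    have := mul_le_mul_of_nonneg_right hη lg_pos.le
    unfold lg at *
    push_cast
    linarith
  have s1 : Sub R fun n => 2 ^ 17 * (4 * L n) ^ 4 * (R n + 1) ^ 3 * (13 * L n) ^ 2 :=
    ((((hL.const_mul hR (by norm_num)).pow 4).const_mul hR (by norm_num)).mul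
      ((Sub.nat hR).pow 3)).mul ((hL.const_mul hR (by norm_num)).pow 2)
  filter_upwards [hb, ((hB.all hR hβ (ε := ε / 16) (by positivity)).and
    (hC.all hR hγ (ε := ε / 16) (by positivity))) (ε / 4) (by positivity),
    ((((i1.add i2).add s1.log).smul zero_le_two).add
      (hL.const_mul hR (C := 27) (by norm_num)).log) (ε / 2) (half_pos hε)] with n k1 k2 k3
  have f := fal1 (P n) (Θ n) (A n) (B n) (C n) (A' n) (R := R n) (K := Real.exp (ε / 16 * R n))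
    (hL.1 n) (Real.one_le_exp (by positivity)) h0 h1 (Real.exp_pos _).le (Real.exp_pos _).le
    (Real.exp_le_one_iff.2 (neg_nonpos.2 (mul_nonneg hγ lg_pos.le))) hxz k1.1 k1.2
  have l0 := hL.pos n
  rw [mul_pow (13 * L n), ← mul_assoc _ ((13 * L n) ^ 2), Real.log_mul (by positivity)
    (by positivity), Real.log_pow, Real.log_exp] at f
  have k4 := mul_le_mul k2 (mul_le_of_le_one_right (Nat.cast_nonneg (R n)) lg_lt_one.le)
    (mul_nonneg (Nat.cast_nonneg _) lg_pos.le) (by positivity)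
  push_cast at f
  linarith

/-- FAL with side information `K` that determines the multiplier. -/
theorem fal_side {K : ∀ n, Ω n → T' n} (hR : Big R) (hL : Sub R L) (h0 : 0 ≤ η) (h1 : η ≤ 1)
    (hβ : 0 ≤ β) (hγ : 0 ≤ γ) (hη : 1 + η ≤ β + γ) (hB : Fro P Θ B R β) (hC : Fro P Θ C R γ)
    (hb : ∀ᶠ n in UF, (∀ ω ∈ (P n).S, ∀ ω' ∈ (P n).S, Θ n ω = Θ n ω' → |A n ω - A n ω'| ≤ L n) ∧
      ∀ ω ∈ (P n).S, |B n ω| ≤ L n ∧ |C n ω| ≤ L n ∧
        |A' n ω - (A n ω + C n ω * B n ω)| ≤ L n / 2 ^ R n)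
    (hK : Sm R fun n => ch (P n) (fun ω => fl1 (R n) (C n ω)) fun ω => (K n ω, Θ n ω))
    (i1 : Sm R fun n => mi (P n) (fun ω => fl1 (R n) (A n ω)) (fun ω => fl1 (R n) (B n ω)) (Θ n))
    (i2 : Sm R fun n => mi (P n) (fun ω => (fl1 (R n) (A n ω), fl1 (R n) (B n ω))) (K n) (Θ n)) :
    Le R (fun n => R n * lg - ch (P n) (fun ω => fl1 (R n) (A' n ω)) fun ω => (K n ω, Θ n ω))
      fun n => (1 - η) * (R n * lg - ch (P n) (fun ω => fl1 (R n) (A n ω)) (Θ n)) := by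
  have i3 : Sm R fun n => mi (P n) (fun ω => (fl1 (R n) (A n ω), fl1 (R n) (B n ω)))
      (fun ω => (fl1 (R n) (C n ω), K n ω)) (Θ n) :=
    (i2.add hK).mono (Eventually.of_forall fun n => (mi_near _ _ (K n) _).trans
      (add_le_add le_rfl (ch_mono fun a _ b _ e => by
        simp only [Prod.mk.injEq] at e ⊢; tauto)))
  have f := fal hR hL h0 h1 hβ hγ hη hB hC hb
    ((i1.add i3).mono (Eventually.of_forall fun n => by
      rw [mi_chain]
      exact add_le_add le_rfl ((mi_mono ((Fn.fst _ (K n)).left _)).trans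
        (mi_left (Fn.snd _ _) (((Fn.snd _ _).left _).pair (Fn.snd _ _)) ((Fn.fst _ _).left _)))))
    (i3.mono (Eventually.of_forall fun n =>
      (mi_mono ((Fn.fst _ (K n)).left _)).trans (mi_mono' ((Fn.snd _ _).left _))))
  refine Le.of3 f i3 (hL.const_mul hR (C := 27) (by norm_num)).log (hb.mono fun n hn => ?_)
  have t1 := ch_le_mi (P := P n) (F := fun ω => fl1 (R n) (A' n ω)) (G := K n)
    (K := fun ω => (fl1 (R n) (C n ω), Θ n ω)) (K' := fun ω => (K n ω, Θ n ω))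
    ((Fn.fst _ _).pair ((Fn.snd _ _).right _))
  have t2 := mi_near (P := P n) (K n) (fun ω => fl1 (R n) (A' n ω))
    (fun ω => (fl1 (R n) (A n ω), fl1 (R n) (B n ω))) fun ω => (fl1 (R n) (C n ω), Θ n ω)
  have t3 := ch_pj' (R := R n) (G := fun ω => ((fl1 (R n) (A n ω), fl1 (R n) (B n ω)),
    fl1 (R n) (C n ω), Θ n ω)) (hL.1 n) hn.2 fun a _ b _ e => by
      simp only [Prod.mk.injEq] at e ⊢; tauto
  have t4 := mi_chain (P := P n) (fun ω => (fl1 (R n) (A n ω), fl1 (R n) (B n ω)))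
    (fun ω => fl1 (R n) (C n ω)) (K n) (Θ n)
  have t5 := mi_nonneg (P := P n) (fun ω => (fl1 (R n) (A n ω), fl1 (R n) (B n ω)))
    (fun ω => fl1 (R n) (C n ω)) (Θ n)
  rw [mi_symm] at t2
  rw [mi_symm (K n)] at t2
  linarith

/-- If moreover the entropy does not increase then `A` is full. -/
theorem fal_full {K : ∀ n, Ω n → T' n} (hR : Big R) (hL : Sub R L) (hβ : 0 ≤ β) (hγ : 0 ≤ γ)
    (hη : 1 < β + γ) (hB : Fro P Θ B R β) (hC : Fro P Θ C R γ)
    (hb : ∀ᶠ n in UF, (∀ ω ∈ (P n).S, ∀ ω' ∈ (P n).S, Θ n ω = Θ n ω' → |A n ω - A n ω'| ≤ L n) ∧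
      ∀ ω ∈ (P n).S, |B n ω| ≤ L n ∧ |C n ω| ≤ L n ∧
        |A' n ω - (A n ω + C n ω * B n ω)| ≤ L n / 2 ^ R n)
    (hK : Sm R fun n => ch (P n) (fun ω => fl1 (R n) (C n ω)) fun ω => (K n ω, Θ n ω))
    (i1 : Sm R fun n => mi (P n) (fun ω => fl1 (R n) (A n ω)) (fun ω => fl1 (R n) (B n ω)) (Θ n))
    (i2 : Sm R fun n => mi (P n) (fun ω => (fl1 (R n) (A n ω), fl1 (R n) (B n ω))) (K n) (Θ n))
    (h : Le R (fun n => ch (P n) (fun ω => fl1 (R n) (A' n ω)) fun ω => (K n ω, Θ n ω))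
      fun n => ch (P n) (fun ω => fl1 (R n) (A n ω)) (Θ n)) :
    Le R (fun n => R n * lg) fun n => ch (P n) (fun ω => fl1 (R n) (A n ω)) (Θ n) := by
  have e0 : 0 < min (β + γ - 1) 1 := lt_min (by linarith) one_pos
  have f := fal_side hR hL e0.le (min_le_right _ _) hβ hγ
    (by linarith [min_le_left (β + γ - 1) 1]) hB hC hb hK i1 i2
  exact Le.of_mul e0 (Eventually.of_forall fun _ => le_rfl)
    (Le.of2 f h (Eventually.of_forall fun n => by linarith))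

/-- DEN.  If `|B| ≥ 2^{-s}` then `A + C B` has at least the entropy of `C` at resolution
`R - s`.  The side information `K` determines `A` and `B`. -/
theorem den {K : ∀ n, Ω n → T' n} {s : ℕ → ℕ} (hR : Big R) (hL : Sub R L) (hs : ∀ n, s n ≤ R n)
    (hb : ∀ᶠ n in UF, ∀ ω ∈ (P n).S, |B n ω| ≤ L n ∧ |C n ω| ≤ L n ∧
      |A' n ω - (A n ω + C n ω * B n ω)| ≤ L n / 2 ^ R n)
    (hp : Whp P fun n ω => 1 ≤ L n * 2 ^ s n * |B n ω|)
    (hK : ∀ᶠ n in UF, Fn (P n) (fun ω => (fl1 (R n) (A n ω), fl1 (R n) (B n ω))) (K n)) :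
    Le R (fun n => ch (P n) (fun ω => fl1 (R n - s n) (C n ω)) (K n))
      fun n => ch (P n) (fun ω => fl1 (R n) (A' n ω)) (K n) := by
  have k := KSA.fano P (fun n ω => 1 ≤ L n * 2 ^ s n * |B n ω|)
    (fun n ω => fl1 (R n - s n) (C n ω)) (fun n ω => (fl1 (R n) (A' n ω), K n ω)) R rowKE
    (fun n => 13 * L n ^ 2) 2 hR ((hL.pow 2).const_mul hR (by norm_num)) hp (by
      filter_upwards [hb, hK, (hL.const_mul hR (C := 7) (by norm_num)).2 1 one_pos] with n h1 h2 h3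
      have l1 := hL.1 n
      have p1 : (1 : ℝ) ≤ 2 ^ (R n - s n) := one_le_pow₀ one_le_two
      have p2 : (2 : ℝ) ^ R n = 2 ^ (R n - s n) * 2 ^ s n := by
        rw [← pow_add, Nat.sub_add_cancel (hs n)]
      have bd : 2 * (2 * L n * 2 ^ (R n - s n)) + 3 ≤ Real.exp (2 * R n) := by
        have a1 : (2 : ℝ) ^ (R n - s n) ≤ Real.exp (R n) :=
          (pow_le_pow_right₀ one_le_two (Nat.sub_le _ _)).trans (two_pow_le_exp _)
        have a2 := mul_le_mul h3 a1 (by positivity) (Real.exp_pos _).le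
        rw [← Real.exp_add] at a2
        have a3 : 1 ≤ L n * 2 ^ (R n - s n) := one_le_mul_of_one_le_of_one_le l1 p1
        rw [two_mul (R n : ℝ)]
        rw [one_mul] at a2
        linarith
      refine ⟨fun a ha => (det_near1 (P := P n) (x := C n) (j := R n - s n)
        (G := fun ω => (fl1 (R n) (A' n ω), K n ω)) (L := 2 * L n * 2 ^ (R n - s n))
        (by positivity) (fun a ha b hb _ => by
          rw [mul_div_cancel_right₀ _ (by positivity)]
          linarith [abs_sub (C n a) (C n b), (h1 a ha).2.1, (h1 b hb).2.1]) a ha).imp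
            fun W hW => ⟨hW.1.trans bd, hW.2⟩, fun a ha => ?_⟩
      · by_cases hx : ∃ b ∈ (P n).S, (fl1 (R n) (A' n b), K n b) = (fl1 (R n) (A' n a), K n a) ∧
            1 ≤ L n * 2 ^ s n * |B n b|
        swap
        · exact ⟨∅, by simp; positivity, fun b hb e h => absurd ⟨b, hb, e, h⟩ hx⟩
        obtain ⟨b₀, hb₀, e₀, g₀⟩ := hx
        obtain ⟨W, w1, w2⟩ := cells_near (ι := Unit) (R n - s n) (fun _ => C n b₀)
          (L := 5 * L n ^ 2) (by positivity)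
        refine ⟨W.image fun u => u (), ?_, fun b hb e _ =>
          Finset.mem_image.2 ⟨_, w2 (fun _ => C n b) ?_, rfl⟩⟩
        · have : ((W.image fun u => u ()).card : ℝ) ≤ W.card := by
            exact_mod_cast Finset.card_image_le
          simp only [Fintype.card_unit, pow_one] at w1
          nlinarith
        have e1 := e.trans e₀.symm
        have e2 := h2 b hb b₀ hb₀ (congrArg Prod.snd e1)
        have d1 := abs_le.1 (abs_sub_lt_of_fl1_eq (congrArg Prod.fst e1)).le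
        have d2 := abs_le.1 (abs_sub_lt_of_fl1_eq (congrArg Prod.fst e2)).le
        have d3 := (abs_sub_lt_of_fl1_eq (congrArg Prod.snd e2)).le
        have d4 := abs_le.1 (h1 b hb).2.2
        have d5 := abs_le.1 (h1 b₀ hb₀).2.2
        have d6 : |C n b * (B n b - B n b₀)| ≤ L n / 2 ^ R n := by
          rw [abs_mul, div_eq_mul_inv]
          exact mul_le_mul (h1 b hb).2.1 d3 (abs_nonneg _) (by positivity)
        have d7 : ((2 : ℝ) ^ R n)⁻¹ ≤ L n / 2 ^ R n := by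
          rw [div_eq_mul_inv]; exact le_mul_of_one_le_left (by positivity) l1
        have d8 : |(C n b - C n b₀) * B n b₀| ≤ 5 * (L n / 2 ^ R n) := by
          rw [abs_le] at d6 ⊢
          constructor <;> nlinarith [d1.1, d1.2, d2.1, d2.2, d4.1, d4.2, d5.1, d5.2, d6.1, d6.2]
        refine (pi_norm_le_iff_of_nonneg (by positivity)).2 fun _ => ?_
        change |C n b - C n b₀| ≤ _
        rw [abs_mul] at d8
        have d9 := mul_le_mul_of_nonneg_left g₀ (abs_nonneg (C n b - C n b₀))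
        have d10 := mul_le_mul_of_nonneg_left d8 (show 0 ≤ L n * 2 ^ s n by positivity)
        have d11 : L n * 2 ^ s n * (5 * (L n / 2 ^ R n)) = 5 * L n ^ 2 / 2 ^ (R n - s n) := by
          rw [p2]; field_simp
        nlinarith)
  refine Le.of_sub k (Eventually.of_forall fun n => ?_)
  have := ch_tri (P := P n) (fun ω => fl1 (R n - s n) (C n ω)) (fun ω => fl1 (R n) (A' n ω)) (K n)
  linarith

/-- DEN with a rate: the entropy of `A + C B` given `Θ` is at least `γ (R - s)`. -/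
theorem den_rate {s : ℕ → ℕ} (hR : Big R) (hL : Sub R L) (hs : ∀ n, s n ≤ R n)
    (hb : ∀ᶠ n in UF, ∀ ω ∈ (P n).S, |B n ω| ≤ L n ∧ |C n ω| ≤ L n ∧
      |A' n ω - (A n ω + C n ω * B n ω)| ≤ L n / 2 ^ R n)
    (hp : Whp P fun n ω => 1 ≤ L n * 2 ^ s n * |B n ω|)
    (hC : Le R (fun n => γ * (R n - s n : ℕ) * lg)
      fun n => ch (P n) (fun ω => fl1 (R n - s n) (C n ω)) (Θ n))
    (i : Sm R fun n => mi (P n) (fun ω => fl1 (R n) (C n ω))
      (fun ω => (fl1 (R n) (A n ω), fl1 (R n) (B n ω))) (Θ n)) :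
    Le R (fun n => γ * (R n - s n : ℕ) * lg)
      fun n => ch (P n) (fun ω => fl1 (R n) (A' n ω)) (Θ n) := by
  have d := den (K := fun n ω => ((fl1 (R n) (A n ω), fl1 (R n) (B n ω)), Θ n ω)) hR hL hs hb hp
    (Eventually.of_forall fun n => Fn.fst _ _)
  refine Le.of3 hC d i (Eventually.of_forall fun n => ?_)
  have t1 : mi (P n) (fun ω => fl1 (R n - s n) (C n ω))
      (fun ω => (fl1 (R n) (A n ω), fl1 (R n) (B n ω))) (Θ n) ≤ _ :=
    mi_mono' (F' := fun ω => fl1 (R n) (C n ω)) fun a _ b _ e =>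
      fl1_eq_of_le (Nat.sub_le _ _) (congrArg Prod.fst e)
  have t2 := ch_anti (P := P n) (F := fun ω => fl1 (R n) (A' n ω))
    (Fn.snd (fun ω => (fl1 (R n) (A n ω), fl1 (R n) (B n ω))) (Θ n))
  unfold mi at t1 ⊢
  linarith

end Seq

end Pool.Agent.MP_5168f5_an.MX
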