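import Pool.Agent.MP_5168f5_an.MX.FinB

/-! Speed one: the degenerate case. -/

namespace Pool.Agent.MP_5168f5_an.MX

open H19 H17S H17F R4.K31 Filter

namespace FinC

section One

variable {Ω T β : Type} {P : FP Ω} {x : Pl Ω T} {k c γ : Ω → ℝ} {G : Ω → β} {D q A y s m j : ℕ}
  {L K : ℝ}

/-- The coefficients and the cap are known from `G`. -/
structure Kw (P : FP Ω) (x : Pl Ω T) (k c γ : Ω → ℝ) (G : Ω → β) (D q : ℕ) (L : ℝ) : Prop where
  one : 1 ≤ L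
  fk : Fn P k G
  fc : Fn P c G
  fγ : Fn P γ G
  fe : Fn P (fun ω => fl1 D (x.e1 ω)) G
  bd : ∀ ω ∈ P.S, (0 ≤ x.z ω ∧ x.z ω < 1) ∧ (0 ≤ x.g ω ∧ x.g ω < 1) ∧ |k ω| ≤ L ∧
    |x.e2 ω - k ω * x.a1 ω - c ω| ≤ 1 / 2 ^ q ∧ |x.g ω + k ω * x.z ω - γ ω| ≤ 1 / 2 ^ q

theorem Kw.ctx {β' : Type} {G' : Ω → β'} (h : Kw P x k c γ G D q L) (e : Fn P G G') :
    Kw P x k c γ G' D q L :=
  ⟨h.one, h.fk.trans e, h.fc.trans e, h.fγ.trans e, h.fe.trans e, h.bd⟩

theorem fn2 {u v : Ω → ℝ} (h : Fn P u G) (h' : Fn P v G) (φ : ℝ → ℝ → ℝ) :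
    Fn P (fun ω => φ (u ω) (v ω)) G := fun a ha b hb e => by
  simp only [h a ha b hb e, h' a ha b hb e]

theorem rn_abs (j : ℕ) {u : ℝ} (h : 0 ≤ u ∧ u < 1) : |rn j u| ≤ 1 :=
  abs_le.2 ⟨by linarith [rn_mem j h], (rn_mem j h).2.le⟩

theorem Kw.me (h : Kw P x k c γ G D q L) {r : Ω → ℝ} (hr : Fn P r G) (b : ∀ ω ∈ P.S, |r ω| ≤ 1)
    (e : A ≤ D) : Cls P G (fun ω => r ω * x.e1 ω) A 1 :=
  ((Cls.of_fn h.fe).mul (k := 0) hr (by simpa using b)).mono (by omega) zero_le_one le_rfl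

theorem Kw.y1 (h : Kw P x k c γ G D q L) (hz : Fn P (fun ω => fl1 y (x.z ω)) G) (e : A ≤ D)
    (a : Cls P G x.a1 A K) : Cls P G (x.y1 y) A (K + 1) :=
  a.add (h.me (fn_rn hz) (fun ω hω => rn_abs _ (h.bd ω hω).1) e)

theorem Kw.a1 (h : Kw P x k c γ G D q L) (hz : Fn P (fun ω => fl1 y (x.z ω)) G) (e : A ≤ D)
    (a : Cls P G (x.y1 y) A K) : Cls P G x.a1 A (K + 1) :=
  (a.sub (h.me (fn_rn hz) (fun ω hω => rn_abs _ (h.bd ω hω).1) e)).congr fun ω _ => by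
    simp only [Pl.y1]; ring

theorem Kw.tl (h : Kw P x k c γ G D q L) (hg : Fn P (fun ω => fl1 y (x.g ω)) G) (e : A ≤ D)
    (e' : A ≤ q) (a : Cls P G x.a1 A 1) : Cls P G (x.tl y) A (L * 1 + 0 + 2 * 1 + 1) :=
  (((((a.mulL (k := 0) h.fk fun ω hω => by simpa using (h.bd ω hω).2.2.1).mono (by omega)
    (by linarith [h.one]) le_rfl).add (Cls.fn h.fc A)).add ((Cls.small fun ω hω =>
      (h.bd ω hω).2.2.2.1).mono e' (by norm_num) le_rfl)).sub
    (h.me (fn_rn hg) (fun ω hω => rn_abs _ (h.bd ω hω).2.1) e)).congr fun ω _ => by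
      simp only [Pl.tl]; ring

theorem Kw.g (h : Kw P x k c γ G D q L) (hz : Fn P (fun ω => fl1 q (x.z ω)) G) :
    Cls P G x.g q (0 + 2 * (L + 1)) :=
  ((Cls.fn (fn2 h.fγ (fn2 h.fk (fn_rn hz) (· * ·)) (· - ·)) q).add (Cls.small (X := fun ω =>
    x.g ω - (γ ω - k ω * rn q (x.z ω))) fun ω hω => by
      obtain ⟨-, -, b1, -, b2⟩ := h.bd ω hω
      have := mul_le_mul b1 (near_rn q (x.z ω)) (abs_nonneg _) (by linarith [h.one])
      rw [← abs_mul] at this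
      rw [add_div, div_eq_mul_one_div L, abs_le]
      constructor <;> linarith [abs_le.1 this, abs_le.1 b2])).congr fun ω _ => by ring

/-- The position on the model line against the normal position. -/
theorem Kw.pi (h : Kw P x k c γ G D q L) (hs : Fn P (fun ω => fl1 s (x.z ω)) G)
    (hy : Fn P (x.zg y y) G) (a : Cls P G x.a1 A K) (hK : 0 ≤ K) (e1 : m ≤ s) (e2 : m ≤ y)
    (e3 : m ≤ q) (e4 : j ≤ m + A) (e5 : j ≤ q) (e6 : j ≤ D) :
    Cls P G (fun ω => x.a2 ω - γ ω * x.a1 ω + 2 * k ω * rn s (x.z ω) * x.a1 ω - x.nm y y ω) j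
      (4 * L * K + 2 * 1 + 0 + 1) := by
  have fz := fn_rn ((Fn.comp Prod.fst _).trans hy)
  have fg := fn_rn ((Fn.comp Prod.snd _).trans hy)
  have l1 := h.one
  refine (((((a.mulL (k := m) (L := 4 * L) (r := fun ω => k ω * (2 * rn s (x.z ω) - rn y (x.z ω)) +
    (rn y (x.g ω) - γ ω)) (fn2 (fn2 h.fk (fn2 (fn_rn hs) fz fun u v => 2 * u - v) (· * ·))
      (fn2 fg h.fγ (· - ·)) (· + ·)) fun ω hω => ?_).mono e4 (by positivity) le_rfl).sub
    ((Cls.small (K := 1) (X := fun ω => rn y (x.z ω) * (x.e2 ω - k ω * x.a1 ω - c ω))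
      fun ω hω => ?_).mono e5 (by norm_num) le_rfl)).sub (Cls.fn (fn2 fz h.fc (· * ·)) j)).add
    (h.me (fn2 fg fz (· * ·)) (fun ω hω => ?_) e6)).congr fun ω _ => ?_
  · obtain ⟨-, -, b1, -, b2⟩ := h.bd ω hω
    have p : ∀ {u : ℝ} {i : ℕ}, |u| ≤ 1 / 2 ^ i → m ≤ i → |u| ≤ 1 / 2 ^ m := fun v w =>
      v.trans (dv_anti zero_le_one le_rfl w)
    have a1 := mul_le_mul b1 (p (near_rn s (x.z ω)) e1) (abs_nonneg _) (by linarith)
    have a2 := mul_le_mul b1 (p (rn_sub s y (x.z ω)) (le_min e1 e2)) (abs_nonneg _) (by linarith)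
    rw [← abs_mul] at a1 a2
    have a3 : 1 / 2 ^ m ≤ L * (1 / 2 ^ m) := le_mul_of_one_le_left (by positivity) l1
    rw [div_eq_mul_one_div (4 * L), abs_le]
    constructor <;> linarith [abs_le.1 a1, abs_le.1 a2, abs_le.1 (p b2 e3),
      abs_le.1 (p (near_rn y (x.g ω)) e2)]
  · rw [abs_mul]
    exact (mul_le_of_le_one_left (abs_nonneg _) (rn_abs _ (h.bd ω hω).1)).trans (h.bd ω hω).2.2.2.1
  · rw [abs_mul]
    exact mul_le_one₀ (rn_abs _ (h.bd ω hω).2.1) (abs_nonneg _) (rn_abs _ (h.bd ω hω).1)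
  · simp only [Pl.nm, Pl.y1]; ring

theorem ch_move {p p' r : Pm} {u : ℕ} (h : Kn P x G p 1) (e1 : p'.i ≤ p.i) (e2 : p'.f ≤ p.f + u)
    (e3 : p'.i = r.i) (e4 : p'.f = r.f) (e5 : r.Rd p) (e6 : p'.t ≤ r.t + u) (e7 : p'.E ≤ r.E + u)
    (e8 : p'.D ≤ r.D + u) (e9 : p'.c ≤ r.c + u) : ch P (x.Bx p') G ≤ 5 * lg * u + 44 := by
  have a1 := (Cls.of_fn ((Fn.comp Prod.snd _).trans h.zg)).ch zero_le_one e2
  have a2 := ((h.ctx (Fn.snd (fun ω => fl1 p'.f (x.g ω)) G)).move (q := r) (fun a ha b hb e =>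
    Prod.ext (fl1_eq_of_le (e3 ▸ e1) (congrArg Prod.fst (h.zg a ha b hb (congrArg Prod.snd e))))
      (e4 ▸ congrArg Prod.fst e)) e5).ch' e3 e4 e6 e7 e8 e9
  linarith [ch_tri (P := P) (x.Bx p') (fun ω => fl1 p'.f (x.g ω)) G]

end One

/-- The cell of level `a` with the exact speed, and the cap. -/
def tb (D a : ℕ) : Pm := ⟨a, a, a, D, a + a, a⟩

attribute [local irreducible] ch mi pb fl1

variable {κ ι : ℝ} {o : ℕ → Ob} {R D a b : ℕ → ℕ}

theorem gap (N : Nrm o) (h : Tan κ 1 ι o (fun _ => 0) R D) (e : ∀ n, a n ≤ R n) : Sm R fun n =>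
    5 * lg * ((o n).f (a n) - a n + (a n - (o n).f (a n)) : ℕ) + 44 := by
  obtain ⟨h1, h2⟩ := h.lin (fun _ => 0) a (.of_forall fun n => by simp [e n])
  have k : Sm R fun n => (((o n).f (a n) - a n + (a n - (o n).f (a n)) : ℕ) : ℝ) := fun ε hε => by
    filter_upwards [h1 ε hε, h2 ε hε] with n u v
    simp only [N.f, Nat.cast_zero, sub_zero, one_mul] at u v
    rcases le_total (a n) ((o n).f (a n)) with w | w
    · rw [Nat.sub_eq_zero_of_le w, add_zero, Nat.cast_sub w]; linarith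
    · rw [Nat.sub_eq_zero_of_le w, zero_add (a n - _), Nat.cast_sub w]; linarith
  exact (k.smul (by have := lg_pos; positivity)).add (h.big.sm 44)

theorem nT (N : Nrm o) (h : Tan κ 1 ι o (fun _ => 0) R D) (e : ∀ n, a n ≤ R n) :
    Nd (oP o) R (fun n => (o n).x.Bx (tb (D n) (a n))) fun n ω =>
      ((o n).S (a n) ω, (o n).ep (D n) ω) :=
  (gap N h e).mono (.of_forall fun n => ch_move
    (r := ⟨a n, a n, a n, D n, a n + min (a n) ((o n).f (a n)), min (a n) ((o n).f (a n))⟩)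
    ((Kn.of_fn (p := (o n).pm (a n)) (Fn.fst _ _)).setE (Cls.of_fn (Fn.snd _ _))) le_rfl
    (by simp only [tb, Ob.pm, lab]; omega) rfl rfl
    (by simp only [Pm.Rd, Ob.pm, lab, N.d]; omega) (by simp [tb]) (by simp [tb])
    (by simp only [tb]; omega) (by simp only [tb]; omega))

theorem nS (N : Nrm o) (h : Tan κ 1 ι o (fun _ => 0) R D) (e : ∀ n, a n ≤ R n) :
    Nd (oP o) R (fun n ω => ((o n).S (a n) ω, (o n).ep (D n) ω))
      fun n => (o n).x.Bx (tb (D n) (a n)) :=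
  Nd.pair ((gap N h e).mono (.of_forall fun n => ch_move (p' := (o n).pm (a n))
    (r := ⟨a n, (o n).f (a n), a n, 0, a n + min (a n) ((o n).f (a n)), min (a n) ((o n).f (a n))⟩)
    (Kn.of_fn (p := tb (D n) (a n)) (Fn.rfl _)) le_rfl
    (by simp only [tb, Ob.pm, lab]; omega) rfl rfl (by simp only [Pm.Rd, tb]; omega)
    (by simp [Ob.pm, lab, N.d]) (by simp [Ob.pm, lab, N.d])
    (by simp only [Ob.pm, lab, N.d]; omega) (by simp only [Ob.pm, lab, N.d]; omega)))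
    (.fn fun n => by rw [FinB.ep_eq N]; exact bx_E (p := tb (D n) (a n)))

theorem lat (N : Nrm o) (h : Tan κ 1 ι o (fun _ => 0) R D) (e : ∀ n, a n ≤ b n)
    (e' : ∀ n, b n ≤ R n) : Le R (fun n => (b n - a n : ℝ) * lg) fun n =>
      ch (o n).P (fun ω => fl1 (b n) ((o n).x.y1 (a n) ω)) ((o n).x.Bx (tb (D n) (a n))) :=
  (h.lat a b (.of_forall fun n => by simp [e n, e' n])).trans (Nd.le (.fn fun n => by
    rw [N.d]; exact Fn.fst _ _) (nT N h fun n => (e n).trans (e' n)))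

theorem up (N : Nrm o) (h : Tan κ 1 ι o (fun _ => 0) R D) (e : ∀ n, a n ≤ b n)
    (e' : ∀ n, b n ≤ R n) : Le R (fun n => ch (o n).P
      (fun ω => fl1 (b n + b n) ((o n).x.nm (b n) (b n) ω)) fun ω =>
        (((o n).x.zg (b n) (b n) ω, fl1 (b n) ((o n).x.y1 (b n) ω)),
          (o n).x.Bx (tb (D n) (a n)) ω)) fun n => (ι - 1) * (b n - a n) * lg := by
  have ea : ∀ n, a n ≤ R n := fun n => (e n).trans (e' n)
  have n1 := Nd.le ((nT N h e').anti (G' := fun n ω => ((o n).S (b n) ω,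
    (o n).x.Bx (tb (D n) (a n)) ω)) fun n => (Fn.fst _ _).pair (by
      rw [FinB.ep_eq N]; exact (bx_E (p := tb (D n) (a n))).right _)) (nS N h ea)
  have n2 := Nd.le (F := fun n => (o n).S (b n))
    (G := fun n ω => ((o n).x.l ω, (o n).S (a n) ω, (o n).ep (D n) ω))
    (((nS N h e').mono fun _ => Fn.fst _ _).anti fun _ => Fn.fst _ _)
    ((Nd.fn fun n => Fn.fst _ _).pair ((nT N h ea).anti fun _ => Fn.snd _ _))
  refine (h.up.self a b (.of_forall fun n => by simp [e n, e' n])).of5 n1 n2 (lat N h e e')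
    (h.big.sm 46) ((h.mono.and (h.cap 1)).mono fun n ⟨m, c⟩ => ?_)
  have a1 := Ob.le_J m (e n)
  have a2 : mi (o n).P ((o n).S (b n)) (o n).x.l (fun ω => ((o n).S (a n) ω, (o n).ep (D n) ω)) ≤
      mi (o n).P ((o n).S (b n)) (o n).x.l ((o n).S (a n)) :=
    mi_cond (Fn.fst _ _) ((Fn.snd _ _).pair (((o n).ep_l _).left _))
  have a3 : mi (o n).P (o n).x.l (fun ω => (((o n).x.zg (b n) (b n) ω,
      fl1 (b n) ((o n).x.y1 (b n) ω)), fl1 (b n + b n) ((o n).x.nm (b n) (b n) ω)))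
      ((o n).x.Bx (tb (D n) (a n))) ≤ mi (o n).P (o n).x.l ((o n).x.Bx (tb (D n) (b n)))
        ((o n).x.Bx (tb (D n) (a n))) :=
    mi_mono ((((bx_zg (p := tb (D n) (b n))).pair (bx_t (p := tb (D n) (b n)))).pair
      (bx_D (p := tb (D n) (b n)))).left _)
  have a4 := mi_near (P := (o n).P) (o n).x.l (fun ω => fl1 (b n) ((o n).x.y1 (a n) ω))
    (fun ω => ((o n).x.zg (b n) (b n) ω, fl1 (b n) ((o n).x.y1 (b n) ω)))
    ((o n).x.Bx (tb (D n) (a n)))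
  have a5 : ch (o n).P (fun ω => fl1 (b n) ((o n).x.y1 (a n) ω))
      (fun ω => ((o n).x.l ω, (o n).x.Bx (tb (D n) (a n)) ω)) = 0 :=
    ch_zero ((bx_t (p := ⟨a n, a n, b n, 0, 0, 0⟩)).trans ((bx_lz le_rfl le_rfl).trans
      ((Fn.fst _ _).pair ((bx_zg (p := tb (D n) (a n))).right _))))
  have a6 : ch (o n).P (fun ω => fl1 (b n + b n) ((o n).x.nm (b n) (b n) ω))
      (fun ω => ((o n).x.l ω, ((o n).x.zg (b n) (b n) ω, fl1 (b n) ((o n).x.y1 (b n) ω)),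
        (o n).x.Bx (tb (D n) (a n)) ω)) = 0 :=
    ch_zero ((bx_D (p := tb (D n) (b n))).trans ((bx_lz le_rfl le_rfl).trans
      fun _ _ _ _ e => congrArg (fun u => (u.1, u.2.1.1)) e))
  have a7 := ((((Cls.of_fn (P := (o n).P) (j := b n) (X := (o n).x.y1 (b n)) (G := fun ω =>
    (((o n).x.zg (b n) (b n) ω, fl1 (b n) ((o n).x.y1 (b n) ω)), (o n).x.Bx (tb (D n) (a n)) ω))
    fun _ _ _ _ e => congrArg (·.1.2) e).add (((Cls.of_fn ((bx_E (p := tb (D n) (a n))).right _)).mul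
      (r := fun ω => rn (a n) ((o n).x.z ω) - rn (b n) ((o n).x.z ω))
      (fn2 (fn_rn fun _ _ _ _ e => congrArg (·.2.2.1.1) e) (fn_rn fun _ _ _ _ e =>
        congrArg (·.1.1.1) e) (· - ·)) fun _ _ => rn_sub _ _ _).mono (j := b n)
          (by have := e' n; simp only [tb]; omega) zero_le_one le_rfl)).congr
            (X' := (o n).x.y1 (a n)) fun ω _ => by simp only [Pl.y1]; ring).ch (k := b n) (u := 0)
              (by norm_num) le_rfl)
  rw [mi_chain, mi_symm (o n).x.l (fun ω => fl1 (b n + b n) _),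
    mi_symm (o n).x.l ((o n).x.Bx _)] at a3
  rw [mi_symm (o n).x.l (fun ω => fl1 (b n) _)] at a4
  rw [mi_symm (o n).x.l] at a1
  generalize mi (o n).P (o n).x.l _ _ = t at a3 a4
  generalize mi (o n).P ((o n).S (b n)) (o n).x.l ((o n).S (a n)) = t' at a1 a2
  unfold mi at a2 a3 a4
  push_cast at a7
  linarith

theorem ndc {Ω β : ℕ → Type} {P : ∀ n, FP (Ω n)} {G : ∀ n, Ω n → β n} {y : ∀ n, Ω n → ℝ}
    {L : ℕ → ℝ} (hM : Big R) (hL : Sub R L)
    (h : ∀ᶠ n in UF, ∃ K, K ≤ 20 * L n ∧ Cls (P n) (G n) (y n) (a n) K) :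
    Nd P R (fun n ω => fl1 (a n) (y n ω)) G :=
  Nd.cls hM (hL.const_mul hM (by norm_num : (1 : ℝ) ≤ 20)) (h.mono fun n ⟨_, u, v⟩ =>
    v.mono le_rfl (by linarith [hL.pos n]) u)

section Main

variable {X : ℕ → Type} {Ξ : ∀ n, (o n).Ω → X n} {k c γ : ∀ n, (o n).Ω → ℝ} {q u : ℕ → ℕ}
  {L : ℕ → ℝ} {i : ℕ}

/-- The context on the model line. -/
noncomputable abbrev pC (o : ℕ → Ob) (Ξ : ∀ n, (o n).Ω → X n) (k γ : ∀ n, (o n).Ω → ℝ) (n : ℕ) :=
  pB (Ξ n) (fun ω => (o n).x.a2 ω - γ n ω * (o n).x.a1 ω) (o n).x.a1 (fun ω => 2 * k n ω) (o n).x.z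

theorem lat' (N : Nrm o) (h : Tan κ 1 ι o (fun _ => 0) R D) (hL : Sub R L) (i1 : 1 ≤ i)
    (e : ∀ n, (i + 1) * u n ≤ q n ∧ q n ≤ R n)
    (nx : Nd (oP o) R Ξ fun n ω => ((o n).x.θ ω, fl1 (D n) ((o n).x.e1 ω)))
    (kw : ∀ᶠ n in UF, Kw (o n).P (o n).x (k n) (c n) (γ n) (Ξ n) (D n) (q n) (L n)) :
    Le R (fun n => u n * lg) fun n => ch (o n).P (fun ω => fl1 ((i + 1) * u n) ((o n).x.a1 ω))
      (pC o Ξ k γ n (u n) (i * u n) ((i + 1) * u n)) := by
  have e1 : ∀ n, (i + 1) * u n = i * u n + u n ∧ u n ≤ i * u n := fun n =>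
    ⟨by ring, Nat.le_mul_of_pos_left _ i1⟩
  have n0 := nx.anti (G' := fun n => (o n).x.Bx (tb (D n) (i * u n))) fun n =>
    bx_θ.pair (bx_E (p := tb (D n) (i * u n)))
  refine Le.trans ((lat N h (a := fun n => i * u n) (b := fun n => (i + 1) * u n)
    (fun n => by have := e1 n; omega) fun n => (e n).1.trans (e n).2).congr
      (.of_forall fun n => by push_cast; ring) (.of_forall fun _ => rfl)) (Nd.le
      (Nd.cut (n0.anti fun _ => Fn.snd _ _) (ndc h.big hL ((kw.and (h.cap 1)).mono fun n ⟨w, d⟩ =>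
        ⟨_, by linarith [w.one], (w.ctx (Fn.fst _ _)).y1 (fun _ _ _ _ e =>
          congrArg (·.2.2.2.1.1) e) (by have := e n; omega)
          (Cls.of_fn fun _ _ _ _ e => congrArg (·.2.1) e)⟩)))
      (Nd.cut n0 ((Nd.fn fun _ => Fn.fst _ _).pair ((Nd.fn fun n _ _ _ _ e =>
        fl1_eq_of_le (e1 n).2 (congrArg (·.2.2.1.1) e)).pair (Nd.pair
          (ndc h.big hL ?_) (ndc h.big hL ?_)))))) <;>
  filter_upwards [kw, h.cap 1] with n w d <;>
  have a1 := (w.ctx (Fn.fst _ ((o n).x.Bx (tb (D n) (i * u n))))).a1 (y := i * u n) (A := i * u n)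
    (fun _ _ _ _ e => congrArg (·.2.2.1.1) e) (by have := e n; have := e1 n; omega)
    (Cls.of_fn fun _ _ _ _ e => congrArg (·.2.2.2.1) e)
  · exact ⟨_, by linarith [w.one], a1⟩
  · have := e n
    have := e1 n
    exact ⟨_, by linarith [w.one], (((w.ctx (Fn.fst _ _)).pi (s := u n) (y := i * u n) (m := u n)
      (fun _ _ _ _ e => fl1_eq_of_le (e1 n).2 (congrArg (·.2.2.1.1) e))
      ((bx_zg (p := tb (D n) (i * u n))).right _) a1 (by norm_num) le_rfl (by omega) (by omega)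
      (by omega) (by omega) (by omega)).add ((Cls.of_fn ((bx_D (p := tb (D n) (i * u n))).right
        _)).mono (by simp only [tb]; omega) zero_le_one le_rfl)).congr
          fun _ _ => (sub_add_cancel _ _).symm⟩

theorem up' (N : Nrm o) (h : Tan κ 1 ι o (fun _ => 0) R D) (hL : Sub R L) (i1 : 1 ≤ i)
    (e : ∀ n, (i + 1) * (2 * u n) ≤ q n ∧ q n ≤ R n)
    (kθ : ∀ n, Fn (o n).P (o n).x.θ (Ξ n))
    (kw : ∀ᶠ n in UF, Kw (o n).P (o n).x (k n) (c n) (γ n) (Ξ n) (D n) (q n) (L n)) :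
    Le R (fun n => ch (o n).P (fun ω => fl1 ((i + 1) * (2 * u n)) ((o n).x.a2 ω -
      γ n ω * (o n).x.a1 ω + 2 * k n ω * rn (q n) ((o n).x.z ω) * (o n).x.a1 ω))
      (pC o Ξ k γ n (q n) (i * (2 * u n)) (i * (2 * u n))))
      fun n => (ι - 1) / 2 * (2 * u n : ℕ) * lg := by
  have e1 : ∀ n, (i + 1) * (2 * u n) = i * u n + i * u n + u n + u n ∧
      i * (2 * u n) = i * u n + i * u n ∧ (i + 1) * u n = i * u n + u n ∧ u n ≤ i * u n := fun n =>
    ⟨by ring, by ring, by ring, Nat.le_mul_of_pos_left _ i1⟩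
  have ng : Nd (oP o) R (fun n ω => fl1 ((i + 1) * u n) ((o n).x.g ω))
      fun n => pC o Ξ k γ n (q n) (i * (2 * u n)) (i * (2 * u n)) :=
    ndc h.big hL (kw.mono fun n w => ⟨_, by linarith [w.one], ((w.ctx fun _ _ _ _ e =>
      congrArg (·.1) e).g fun _ _ _ _ e => congrArg (·.2.1) e).mono
        (by have := e n; have := e1 n; omega) (by linarith [w.one]) le_rfl⟩)
  have z : ∀ n, ∀ y ≤ (i + 1) * u n, Fn (o n).P ((o n).x.zg y y) fun ω =>
      (fl1 ((i + 1) * u n) ((o n).x.g ω),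
        pC o Ξ k γ n (q n) (i * (2 * u n)) (i * (2 * u n)) ω) := fun n y hy _ _ _ _ v =>
    Prod.ext (fl1_eq_of_le (by have := e n; have := e1 n; omega) (congrArg (·.2.2.1) v))
      (fl1_eq_of_le hy (congrArg (·.1) v))
  refine Le.trans (Nd.le (Nd.cut (ng.anti fun _ => Fn.snd _ _) (ndc h.big hL ?_)) (Nd.cut ng
    (((Nd.fn fun n => z n _ le_rfl).pair (ndc h.big hL ?_)).pair
      ((Nd.fn fun n => (kθ n).trans fun _ _ _ _ e => congrArg (·.2.1) e).pair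
        ((Nd.fn fun n => z n _ (by have := e1 n; simp only [tb]; omega)).pair
          ((ndc h.big hL ?_).pair ((Nd.of_fn (kw.mono fun n w => w.fe.trans fun _ _ _ _ e =>
            congrArg (·.2.1) e)).pair ((ndc h.big hL ?_).pair (ndc h.big hL ?_)))))))))
    ((up N h (a := fun n => i * u n) (b := fun n => (i + 1) * u n) (fun n => by have := e1 n; omega)
      fun n => by have := e n; have := e1 n; omega).congr (.of_forall fun _ => rfl)
        (.of_forall fun n => by push_cast; ring)) <;>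
  filter_upwards [kw, h.cap 1] with n w d <;> have := e n <;> have := e1 n
  · exact ⟨_, by linarith [w.one], (((w.ctx fun _ _ _ _ e => congrArg (·.2.2.1) e).pi (s := q n)
      (y := (i + 1) * u n) (m := (i + 1) * u n) (fun _ _ _ _ e => congrArg (·.2.2.2.1) e)
      ((z n _ le_rfl).trans fun _ _ _ _ e => congrArg (fun v => (v.1, v.2.2)) e)
      (Cls.of_fn fun _ _ _ _ e => congrArg (·.2.2.2.2.1) e) zero_le_one (by omega) le_rfl (by omega)
      (by omega) (by omega) (by omega)).add ((Cls.of_fn fun _ _ _ _ e => congrArg (·.2.1) e).mono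
        (by omega) zero_le_one le_rfl)).congr fun _ _ => (sub_add_cancel _ _).symm⟩
  all_goals
    have w' := w.ctx (G' := fun ω => (fl1 ((i + 1) * u n) ((o n).x.g ω),
      pC o Ξ k γ n (q n) (i * (2 * u n)) (i * (2 * u n)) ω)) fun _ _ _ _ e => congrArg (·.2.1) e
    have a1 : Cls (o n).P (fun ω => (fl1 ((i + 1) * u n) ((o n).x.g ω),
      pC o Ξ k γ n (q n) (i * (2 * u n)) (i * (2 * u n)) ω)) (o n).x.a1 (i * (2 * u n)) 1 :=
      Cls.of_fn fun _ _ _ _ e => congrArg (·.2.2.2.1) e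
  · exact ⟨_, by linarith [w.one], w'.y1 ((Fn.comp Prod.fst _).trans (z n _ le_rfl)) (by omega)
      (a1.mono (by omega) zero_le_one le_rfl)⟩
  · exact ⟨_, by linarith [w.one], w'.y1 ((Fn.comp Prod.fst _).trans (z n (i * u n) (by omega)))
      (show i * u n ≤ _ by omega) (a1.mono (show i * u n ≤ _ by omega) zero_le_one le_rfl)⟩
  · exact ⟨_, by linarith [w.one], (((Cls.of_fn fun _ _ _ _ e => congrArg (·.2.2.2.2) e).mono
      (j := i * u n + i * u n) (by omega) zero_le_one le_rfl).sub (w'.pi (s := q n) (y := i * u n)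
        (m := i * u n) (fun _ _ _ _ e => congrArg (·.2.2.1) e) (z n _ (by omega)) a1 zero_le_one
        (by omega) le_rfl (by omega) (by omega) (by omega) (by omega))).congr
          fun _ _ => (sub_sub_cancel _ _).symm⟩
  · exact ⟨_, by linarith [w.one], w'.tl ((Fn.comp Prod.snd _).trans (z n (i * u n) (by omega)))
      (show i * u n ≤ _ by omega) (show i * u n ≤ _ by omega)
      (a1.mono (show i * u n ≤ _ by omega) zero_le_one le_rfl)⟩

end Main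

theorem main {q : ℕ → ℕ} {L : ℕ → ℝ} {Λ : ℕ → Type} {la : ∀ n, (o n).Ω → Λ n}
    {ko c0 : ∀ n, Λ n → ℝ} (N : Nrm o) (h : Tan κ 1 ι o (fun _ => 0) R D) (k0 : 0 < κ)
    (r : FinB.Rel o R D q L la ko c0) (J : ℕ) :
    J * (1 - (ι - 1) / 2) ≤ (J + 1) * (1 - κ) ∨ 1 + 2 * 1 ≤ ι := by
  refine (le_total (1 + 2 * 1) ι).symm.imp_left fun i3 => ?_
  have fc : Frac (fun n => q n / 2) R := ((h.big.frac r.fr).frac_div two_pos).trans r.fr
  have fh := ((h.big.frac fc).frac_div (K := 2 * (J + 1)) (by omega)).trans fc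
  have e : ∀ n, (J + 1) * (2 * (q n / 2 / (2 * (J + 1)))) ≤ q n / 2 := fun n =>
    le_trans (le_of_eq (by ring)) (Nat.mul_div_le (q n / 2) (2 * (J + 1)))
  have e' : ∀ i ≤ J, ∀ n, (i + 1) * (2 * (q n / 2 / (2 * (J + 1)))) ≤ q n / 2 ∧ q n / 2 ≤ R n :=
    fun i hi n => ⟨(Nat.mul_le_mul_right _ (by omega)).trans (e n), fc.1 n⟩
  have fw : Frac (fun n => 2 * (q n / 2 / (2 * (J + 1)))) R :=
    ⟨fun n => le_trans (by simpa using (e' 0 (by omega) n).1) (fc.1 n), fh.2.imp fun c u =>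
      ⟨u.1, u.2.mono fun n v => v.trans (Nat.cast_le.2 (Nat.le_mul_of_pos_left _ two_pos))⟩⟩
  obtain ⟨γ, hγ⟩ : ∃ γ : ∀ n, (o n).Ω → ℝ,
      γ = fun n ω => (o n).x.g ω + ko n (la n ω) * (o n).x.z ω := ⟨_, rfl⟩
  have nx : Nd (oP o) R (fun n ω => (((o n).x.θ ω, fl1 (D n) ((o n).x.e1 ω)), la n ω,
      fl1 (q n / 2) (γ n ω))) fun n ω => ((o n).x.θ ω, fl1 (D n) ((o n).x.e1 ω)) :=
    (Nd.fn fun _ => Fn.rfl _).pair (r.nd.pair (hγ ▸ FinB.frame N h k0 r))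
  have kw : ∀ᶠ n in UF, Kw (o n).P (o n).x (fun ω => ko n (la n ω)) (fun ω => c0 n (la n ω))
      (fun ω => rn (q n / 2) (γ n ω)) (fun ω => (((o n).x.θ ω, fl1 (D n) ((o n).x.e1 ω)), la n ω,
        fl1 (q n / 2) (γ n ω))) (D n) (q n / 2) (L n) := r.su.mono fun n u =>
    ⟨r.sub.1 n, fun _ _ _ _ e => congrArg (fun v => ko n v.2.1) e,
      fun _ _ _ _ e => congrArg (fun v => c0 n v.2.1) e,
      fn_rn fun _ _ _ _ e => congrArg (·.2.2) e, fun _ _ _ _ e => congrArg (·.1.2) e,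
      fun ω hω => ⟨(N.box n ω).2.2.2.2.1, (N.box n ω).2.2.2.2.2, (u.2 ω hω).2.1,
        (u.2 ω hω).2.2.trans (dv_anti zero_le_one le_rfl (Nat.div_le_self _ _)),
        by rw [hγ]; exact near_rn _ _⟩⟩
  have nl := (nx.anti (G' := fun n => (o n).x.l) fun n _ _ _ _ e => congrArg
    (fun u : ℝ × ℝ × ℝ × ℝ × (o n).T => (u.2.2.2.2, fl1 (D n) u.2.2.1)) e).pair
    (.fn fun _ => Fn.rfl _)
  obtain ⟨L1, s1, w1⟩ := sep_sub (M := R) fun c a b =>
    ((((FinB.spr_z h k0 (h.big.frac_floor a b) (dn_rfl _) (X := fun _ _ => ())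
      (Le.of_le fun n => by
        unfold mi; exact sub_nonpos.2 (ch_anti fun _ _ _ _ e => Prod.ext rfl e))).ctx
      (nl.anti fun _ => Fn.snd _ _)).na h.big (h.big.sub le_rfl)).copy fun n => (o n).x.z).mono
      (F := fun n v => Real.exp (-(c * R n)) ≤ |(o n).x.z v.1 - (o n).x.z v.2|)
      (.of_forall fun n v _ u => (FinB.exp_le a _).trans (u.trans (abs_sub_comm _ _).le))
  have s2 := (r.sub.mul s1).const_mul h.big one_le_two
  have k := pl_fin (ka := κ) h.big s2 fw J ((kw.and r.su).mono fun n ⟨w, u⟩ =>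
    ⟨by simpa using (e' 0 (by omega) n).1, (Fn.fst _ _).pair (Fn.pair
      (fn2 (fun _ _ _ _ e => congrArg (·.2.2.1) e) (fn2 (w.fγ.left _) (fun _ _ _ _ e =>
        congrArg (·.2.1) e) (· * ·)) (· - ·)) fun _ _ _ _ e => congrArg (·.2.1) e),
      (Fn.comp (2 * ·) _).trans w.fk, fun ω hω => by
        obtain ⟨b1, b2, -⟩ := u.2 ω hω
        have l1 := r.sub.1 n
        have l2 := s1.1 n
        refine ⟨?_, ?_, ?_, (N.box n ω).2.2.2.2.1⟩
        · rw [abs_of_nonneg (N.box n ω).1.1]; nlinarith [(N.box n ω).1.2]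
        · rw [abs_mul, abs_two]; nlinarith
        · rw [abs_mul, abs_two, div_le_iff₀ (by positivity)]
          nlinarith [mul_le_mul b1 l2 zero_le_one (by positivity)]⟩)
    (w1.mono (.of_forall fun n v _ u => le_trans (one_div_le_one_div_of_le (s1.pos n)
      (by nlinarith [r.sub.1 n, s1.1 n])) u))
    (fun i i1 i2 => lat' N h r.sub i1 (e' i i2) nx kw)
    (fun i i1 i2 => up' N h r.sub i1 (e' i i2) (fun _ _ _ _ _ e => congrArg (·.1.1) e) kw)
    ((h.hgt.self (fun _ => 0) (fun n => q n / 2) (.of_forall fun n => by simpa using fc.1 n)).1.of2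
      nl (.of_forall fun n => by
        have := (ch_anti (Fn.fst (o n).x.l fun ω => fl1 0 ((o n).x.z ω))).trans (ch_tri'
          (P := (o n).P) (fun ω => fl1 (q n / 2) ((o n).x.z ω)) (o n).x.l fun ω =>
            ((((o n).x.θ ω, fl1 (D n) ((o n).x.e1 ω)), la n ω, fl1 (q n / 2) (γ n ω)), (o n).x.l ω))
        have e : (o n).hz 0 (q n / 2) = ch (o n).P (fun ω => fl1 (q n / 2) ((o n).x.z ω)) fun ω =>
          ((o n).x.l ω, fl1 0 ((o n).x.z ω)) := rfl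
        simp only [Nat.cast_zero, sub_zero]
        linarith))
  have hb := h.big.frac fc
  refine le_of_mul_le_mul_right (Le.num hb (((k.frac fc).smul (c := J + 1) (by positivity)).of2
    (hb.sm (J * (1 - (ι - 1) / 2) * lg * (2 * (J + 1)))) (.of_forall fun n => ?_))) lg_pos
  have a1 : ((q n / 2 : ℕ) : ℝ) ≤ (2 * (J + 1) : ℕ) * ((q n / 2 / (2 * (J + 1)) : ℕ) + 1) := by
    exact_mod_cast (Nat.lt_mul_div_succ (q n / 2) (show 0 < 2 * (J + 1) by omega)).le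
  have a2 := mul_le_mul_of_nonneg_left a1 (show 0 ≤ J * (1 - (ι - 1) / 2) * lg from
    mul_nonneg (mul_nonneg (Nat.cast_nonneg J) (by linarith)) lg_pos.le)
  push_cast at a2 ⊢
  linarith

theorem rel {q : ℕ → ℕ} {L : ℕ → ℝ} {Λ W : ℕ → Type} {la : ∀ n, (o n).Ω → Λ n}
    {ko c0 : ∀ n, Λ n → ℝ} {Q : ∀ n, FP (W n)} {ρ : ∀ n, W n → (o n).Ω} (d : DnS Q ρ (oP o))
    (s : Sub R L) (f : Frac q R)
    (nd : Nd (oP o) R la fun n ω => ((o n).x.θ ω, fl1 (D n) ((o n).x.e1 ω)))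
    (su : ∀ᶠ n in UF, q n ≤ (o n).f (R n) ∧ ∀ v ∈ (Q n).S, 1 ≤ L n * |ko n (la n (ρ n v))| ∧
      |ko n (la n (ρ n v))| ≤ L n ∧ |(o n).x.e2 (ρ n v) - ko n (la n (ρ n v)) * (o n).x.a1 (ρ n v) -
        c0 n (la n (ρ n v))| ≤ 1 / 2 ^ q n) :
    FinB.Rel (fun n => (o n).pull (Q n) (ρ n)) R D q L (fun n v => la n (ρ n v)) ko c0 :=
  ⟨s, f, nd.dn d, su⟩

end FinC

theorem rowFin : SFin := by
  intro κ ι c o k R D k0 k1 c0 h0 hc
  have h := h0.zm
  have N := nrm_zm o k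
  have hc' := hc.zm
  generalize (fun n => (o n).zm (k n)) = o' at h N hc'
  obtain ⟨Λ, la, ko, cc, L, s, nd, w⟩ := hc'
  have c1 : 0 < min c (1 / 2) := lt_min c0 one_half_pos
  have d := dnS_cE w.pos
  have r := FinC.rel (ko := ko) (c0 := cc) d s
    (h.big.frac_floor c1 ((min_le_right _ _).trans (by norm_num))) nd (by
      filter_upwards [w.pos.sure, (h.lin _ _ (in_all _ _)).2 _ one_half_pos] with n u v
      refine ⟨?_, fun ω hω => ⟨(u ω hω).2.1, (u ω hω).2.2.1, (u ω hω).2.2.2.trans (le_trans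
        (Real.exp_le_exp.2 (neg_le_neg (mul_le_mul_of_nonneg_right (min_le_left _ _)
          (Nat.cast_nonneg _)))) (FinB.exp_le c1 _))⟩⟩
      simp only [zero_add, N.f, Nat.cast_zero, sub_zero, one_mul] at v
      exact Nat.floor_le_of_le (le_trans (mul_le_mul_of_nonneg_right (min_le_right _ _)
        (Nat.cast_nonneg _)) (by linarith)))
  by_contra q
  rw [not_le] at q
  obtain ⟨J, hJ⟩ := exists_nat_gt ((1 - κ) / (κ - (ι - 1) / 2))
  rw [div_lt_iff₀ (by linarith)] at hJ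
  rcases FinC.main (N.pull _ _) (h.pull d) k0 r J with e | e <;> nlinarith

end Pool.Agent.MP_5168f5_an.MX
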