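import Pool.Agent.MP_5168f5_an.MX.R0

/-! Speed one: the frame is an affine function of the height. -/

namespace Pool.Agent.MP_5168f5_an.MX

open H19 H17S H17F R4.K31 Filter

namespace FinB

/-- The affine relation at every sample. -/
structure Rel (o : ℕ → Ob) (R D q : ℕ → ℕ) (L : ℕ → ℝ) {Λ : ℕ → Type} (la : ∀ n, (o n).Ω → Λ n)
    (ko c0 : ∀ n, Λ n → ℝ) : Prop where
  sub : Sub R L
  fr : Frac q R
  nd : Nd (oP o) R la fun n ω => ((o n).x.θ ω, fl1 (D n) ((o n).x.e1 ω))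
  su : ∀ᶠ n in UF, q n ≤ (o n).f (R n) ∧ ∀ ω ∈ (o n).P.S, 1 ≤ L n * |ko n (la n ω)| ∧
    |ko n (la n ω)| ≤ L n ∧
    |(o n).x.e2 ω - ko n (la n ω) * (o n).x.a1 ω - c0 n (la n ω)| ≤ 1 / 2 ^ q n

theorem abs01 {x y : ℝ} (h : 0 ≤ x ∧ x < 1) (h' : 0 ≤ y ∧ y < 1) : |x - y| ≤ 1 :=
  abs_le.2 ⟨by linarith, by linarith⟩

/-- Two lines in one cell. -/
theorem two {o : Ob} (hd : o.d = 0) {R D q : ℕ} {L k k' c c' : ℝ} {a b : o.Ω}
    (e : o.S R a = o.S R b) (h1 : q ≤ R) (h2 : q ≤ o.f R) (h3 : q ≤ D) (hL : 1 ≤ L)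
    (hz : 0 ≤ o.x.z a ∧ o.x.z a < 1) (hg : 0 ≤ o.x.g a ∧ o.x.g a < 1)
    (he : |o.x.e1 b - o.x.e1 a| ≤ 1) (hk : |k'| ≤ L)
    (u : |o.x.e2 a - k * o.x.a1 a - c| ≤ 1 / 2 ^ q)
    (u' : |o.x.e2 b - k' * o.x.a1 b - c'| ≤ 1 / 2 ^ q) :
    |(o.x.g a + k' * o.x.z a) * (rn D (o.x.e1 b) - rn D (o.x.e1 a)) -
      ((k' - k) * o.x.a1 a + c' - c)| ≤ 10 * L / 2 ^ q := by
  have p : ∀ {x : ℝ} {j : ℕ}, |x| ≤ 1 / 2 ^ j → q ≤ j → |x| ≤ 1 / 2 ^ q := fun v w =>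
    v.trans (dv_anti zero_le_one le_rfl w)
  have m : ∀ {x y A : ℝ}, |x| ≤ A → |y| ≤ 1 / 2 ^ q → |x * y| ≤ A * (1 / 2 ^ q) := fun v w => by
    rw [abs_mul]; exact mul_le_mul v w (abs_nonneg _) ((abs_nonneg _).trans v)
  simp only [Ob.S, Pl.Bx, Ob.pm, lab, Pl.zg, Prod.mk.injEq, hd, add_zero, zero_add] at e
  obtain ⟨-, ⟨e1, e2⟩, e3, -, -, e4⟩ := e
  have a1 := p (by rw [one_div]; exact (abs_sub_lt_of_fl1_eq e3).le) h1
  have a2 := p (by rw [one_div]; exact (abs_sub_lt_of_fl1_eq e4).le) h2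
  simp only [Pl.y1, Pl.tl, show rn R (o.x.z b) = rn R (o.x.z a) by simp only [rn, e1],
    show rn (o.f R) (o.x.g b) = rn (o.f R) (o.x.g a) by simp only [rn, e2]] at a1 a2
  have a3 := m hk a1
  have a4 := m he (p (near_rn (o.f R) (o.x.g a)) h2)
  have a5 := m (show |k' * (o.x.e1 b - o.x.e1 a)| ≤ L * 1 by
    rw [abs_mul]; exact mul_le_mul hk he (abs_nonneg _) (by linarith)) (p (near_rn R (o.x.z a)) h1)
  have a6 : |o.x.g a + k' * o.x.z a| ≤ 2 * L := (abs_add_le _ _).trans (by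
    rw [abs_mul, abs_of_nonneg hz.1, abs_of_nonneg hg.1]; nlinarith [abs_nonneg k'])
  have a7 := m a6 (p (near_rn D (o.x.e1 a)) h3)
  have a8 := m a6 (p (near_rn D (o.x.e1 b)) h3)
  have a9 : 1 / 2 ^ q ≤ L * (1 / 2 ^ q) := le_mul_of_one_le_left (by positivity) hL
  rw [show 10 * L / 2 ^ q = 10 * (L * (1 / 2 ^ q)) by ring]
  rw [abs_le] at *
  constructor <;> linarith [a2.1, a2.2, a3.1, a3.2, a4.1, a4.2, a5.1, a5.2, a7.1, a7.2, a8.1, a8.2,
    u.1, u.2, u'.1, u'.2]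

theorem quot {x y z L ε : ℝ} (h : |x * y - z| ≤ ε) (hL : 0 < L) (hy : 1 / L ≤ |y|) :
    |x - z / y| ≤ L * ε := by
  have y0 : 0 < |y| := (one_div_pos.2 hL).trans_le hy
  rw [show x - z / y = (x * y - z) / y by field_simp [abs_pos.1 y0], abs_div, div_le_iff₀ y0]
  rw [div_le_iff₀ hL] at hy
  nlinarith [(abs_nonneg _).trans h]

attribute [local irreducible] ch mi pb fl1

variable {κ ι : ℝ} {o : ℕ → Ob} {R D q : ℕ → ℕ} {L : ℕ → ℝ} {Λ : ℕ → Type}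
  {la : ∀ n, (o n).Ω → Λ n} {ko c0 : ∀ n, Λ n → ℝ}

/-- The cap and the coefficients. -/
noncomputable abbrev Y (D : ℕ → ℕ) (la : ∀ n, (o n).Ω → Λ n) (n : ℕ) (ω : (o n).Ω) : ℤ × Λ n :=
  (fl1 (D n) ((o n).x.e1 ω), la n ω)

/-- Two lines in one cell. -/
noncomputable abbrev Pr (o : ℕ → Ob) (R : ℕ → ℕ) (n : ℕ) : FP ((o n).Ω × (o n).Ω) :=
  glue (o n).P (o n).P ((o n).S (R n)) ((o n).S (R n))

/-- Three lines in one cell. -/
noncomputable abbrev Tr (o : ℕ → Ob) (R : ℕ → ℕ) (n : ℕ) : FP ((o n).Ω × (o n).Ω × (o n).Ω) :=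
  glue (o n).P (Pr o R n) ((o n).S (R n)) fun v => (o n).S (R n) v.1

theorem lawT (o : ℕ → Ob) (R : ℕ → ℕ) (n : ℕ) :
    Law (o n).P ((o n).S (R n)) (Pr o R n) fun v => (o n).S (R n) v.1 :=
  ((tg.fst _ _ _ _).comp _).symm

theorem ep_eq (N : Nrm o) (n a : ℕ) : (o n).ep a = fun ω => fl1 a ((o n).x.e1 ω) := by
  funext ω; rw [Ob.ep, N.d, zero_add]

theorem inf1 (N : Nrm o) (h : Tan κ 1 ι o (fun _ => 0) R D) (r : Rel o R D q L la ko c0) :
    Sm R fun n => mi (o n).P (Y D la n) ((o n).S (R n)) (o n).x.θ := by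
  refine (h.ind (fun _ => 0) R (.of_forall fun n => by simp)).of2 r.nd (.of_forall fun n => ?_)
  have a1 := mi_chain (P := (o n).P) ((o n).S (R n)) (fun ω => fl1 (D n) ((o n).x.e1 ω)) (la n)
    (o n).x.θ
  have a2 : mi (o n).P (fun ω => fl1 (D n) ((o n).x.e1 ω)) ((o n).S (R n)) (o n).x.θ ≤
      mi (o n).P (fun ω => fl1 (D n) ((o n).x.e1 ω)) ((o n).S (R n)) ((o n).S 0) :=
    mi_cond (N.S0 n _) (bx_θ.right _)
  have a3 := (mi_le (P := (o n).P) (la n) ((o n).S (R n)) fun ω =>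
    (fl1 (D n) ((o n).x.e1 ω), (o n).x.θ ω)).trans (ch_anti ((Fn.snd _ _).pair (Fn.fst _ _)))
  rw [mi_symm (la n)] at a3
  rw [mi_symm _ ((o n).S (R n))] at a2
  rw [ep_eq N, mi_symm (Y D la n)]
  linarith

theorem inf2 (n : ℕ) {γ : Type} {K : (o n).Ω × (o n).Ω → γ} {α : Type} (F : (o n).Ω → α)
    (k : (o n).Ω → γ) (e : K = fun v => k v.1) (h : Fn (o n).P (o n).x.θ k) :
    mi (Pr o R n) (fun v => F v.1) (fun v => Y D la n v.2) K ≤
      mi (o n).P (Y D la n) ((o n).S (R n)) (o n).x.θ := by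
  subst e
  refine le_trans ?_ (mi_glue _ _ _ _ (Law.rfl _) (fun ω => (F ω, k ω)) (Y D la n) (o n).x.θ)
  have f : ∀ v ∈ (Pr o R n).S, (o n).x.θ v.2 = (o n).x.θ v.1 := fun v hv =>
    congrArg (·.1) ((mem_cp _ _ v).1 hv).2.2
  rw [mi_symm (fun v : _ × _ => F v.1), mi_symm (fun v : _ × _ => (F v.1, k v.1))]
  unfold mi
  exact sub_le_sub (ch_anti fun p hp q hq e => by
    rw [f p hp, f q hq]; exact h _ ((mem_cp _ _ p).1 hp).1 _ ((mem_cp _ _ q).1 hq).1 e)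
    (ch_anti (Fn.fst _ _))

theorem spr_z (h : Tan κ 1 ι o (fun _ => 0) R D) (k0 : 0 < κ) {b : ℕ → ℕ} (fb : Frac b R)
    {W β : ℕ → Type} {Q : ∀ n, FP (W n)} {ρ : ∀ n, W n → (o n).Ω} (d : DnS Q ρ (oP o))
    {X : ∀ n, W n → β n} (i : Sm R fun n => mi (Q n)
      (fun v => fl1 (b n) ((o n).x.z (ρ n v))) (X n) fun v => (o n).x.l (ρ n v)) :
    Spr Q (fun n v => fl1 (b n) ((o n).x.z (ρ n v))) (fun n v => (X n v, (o n).x.l (ρ n v))) R := by
  obtain ⟨f1, c, c0, f2⟩ := fb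
  refine spr_of_low h.big (c := κ * c * lg) (by have := lg_pos; positivity) fun W' Q' σ d' => ?_
  refine (h.hgt _ _ _ (d'.trans d) (fun _ => 0) b (.of_forall fun n => by simp [f1 n])).1.of2
    (d'.sm_mi h.big i) (f2.mono fun n u => ?_)
  have a1 : ((o n).pull (Q' n) fun v => ρ n (σ n v)).hz 0 (b n) ≤ ch (Q' n)
      (fun v => fl1 (b n) ((o n).x.z (ρ n (σ n v)))) fun v => (o n).x.l (ρ n (σ n v)) :=
    ch_anti (Fn.fst _ _)
  have a2 := mul_le_mul_of_nonneg_left u (mul_pos k0 lg_pos).le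
  unfold mi
  push_cast
  linarith

theorem na_e (h : Tan κ 1 ι o (fun _ => 0) R D) (N : Nrm o) {b : ℕ → ℕ} (fb : Frac b R) :
    NA (oP o) (fun n => (o n).x.e1) (fun n => 1 / 2 ^ b n) fun n => (o n).S (R n) :=
  ((h.ne b fb).det (h.alg.mono fun n u => (Ob.kn_S u.1.mono (by simpa using u.2)
    (Fn.rfl _)).det)).mono (.of_forall fun n => by rw [N.d, zero_add])
    (.of_forall fun _ => Fn.fst _ _)

theorem exp_le {c : ℝ} (hc : 0 < c) (M : ℕ) : Real.exp (-(c * M)) ≤ 1 / 2 ^ ⌊c * M⌋₊ := by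
  rw [Real.exp_neg, one_div]
  exact inv_anti₀ (by positivity) ((two_pow_le_exp _).trans
    (Real.exp_le_exp.2 (Nat.floor_le (by positivity))))

theorem sep_e (h : Tan κ 1 ι o (fun _ => 0) R D) (N : Nrm o) {W : ℕ → Type} {Q : ∀ n, FP (W n)}
    {φ : ∀ n, W n → (o n).T × (ℤ × ℤ) × ℤ × ℤ × ℤ × ℤ}
    (l : ∀ n, Law (o n).P ((o n).S (R n)) (Q n) (φ n)) (y : ∀ n, W n → ℝ) :
    ∃ L, Sub R L ∧ Whp (fun n => glue (o n).P (Q n) ((o n).S (R n)) (φ n)) fun n v =>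
      1 / L n ≤ |y n v.2 - rn (D n) ((o n).x.e1 v.1)| := by
  obtain ⟨L, hL, w⟩ := sep_sub (M := R) (y := fun n v => (o n).x.e1 v.1 - y n v.2) fun c a b =>
    ((na_e h N (h.big.frac_floor a b)).fst (.of_forall l) y).mono
      (.of_forall fun n _ _ u => (exp_le a _).trans u)
  have hL2 := hL.const_mul h.big one_le_two
  refine ⟨_, hL2, w.mono ?_⟩
  filter_upwards [h.cap 1, sub_le_pow hL2 Frac.rfl] with n u1 u2 v _ u
  have a1 := (near_rn (D n) ((o n).x.e1 v.1)).trans ((dv_anti zero_le_one le_rfl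
    (show R n ≤ D n by omega)).trans (one_div_le_one_div_of_le (hL2.pos n) u2))
  have a2 := abs_sub_le ((o n).x.e1 v.1) (rn (D n) ((o n).x.e1 v.1)) (y n v.2)
  rw [abs_sub_comm (y n v.2)]
  have : 1 / L n = 1 / (2 * L n) + 1 / (2 * L n) := by have := hL.pos n; field_simp; ring
  linarith

theorem inf3 (N : Nrm o) (h : Tan κ 1 ι o (fun _ => 0) R D) (r : Rel o R D q L la ko c0)
    (b : ℕ → ℕ) : Sm R fun n => mi (Tr o R n) (fun v => fl1 (b n) ((o n).x.z v.1))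
      (fun v => (Y D la n v.2.1, Y D la n v.2.2)) fun v => (o n).x.l v.1 := by
  refine ((inf1 N h r).add (inf1 N h r)).of_sub (.of_forall fun n => ?_)
  have f : ∀ v ∈ (Tr o R n).S, (o n).x.θ v.2.1 = (o n).x.θ v.1 := fun v hv =>
    congrArg (·.1) ((tg.mem _ _ _ _ v (lawT o R n)).1 hv).2.2
  have a1 := mi_glue _ _ _ _ (lawT o R n) (fun ω => (fl1 (b n) ((o n).x.z ω), (o n).x.l ω))
    (fun v => (Y D la n v.1, Y D la n v.2)) fun v => (o n).x.θ v.1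
  have a2 := mi_chain (P := Pr o R n) (fun v => (o n).S (R n) v.1) (fun v => Y D la n v.1)
    (fun v => Y D la n v.2) fun v => (o n).x.θ v.1
  have a3 := inf2 (D := D) (la := la) (R := R) n ((o n).S (R n))
    (fun ω => (Y D la n ω, (o n).x.θ ω)) rfl (Fn.snd _ _)
  have a4 := (tg.fst (o n).P (o n).P ((o n).S (R n)) ((o n).S (R n))).mi_id ((o n).S (R n))
    (Y D la n) (o n).x.θ
  have a5 : mi (Tr o R n) (fun v => fl1 (b n) ((o n).x.z v.1))
      (fun v => (Y D la n v.2.1, Y D la n v.2.2)) (fun v => (o n).x.l v.1) ≤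
      mi (Tr o R n) (fun v => (fl1 (b n) ((o n).x.z v.1), (o n).x.l v.1))
        (fun v => (Y D la n v.2.1, Y D la n v.2.2)) fun v => (o n).x.θ v.2.1 := by
    rw [mi_symm (fun v : _ × _ => fl1 (b n) ((o n).x.z v.1)),
      mi_symm (fun v : _ × _ => (fl1 (b n) ((o n).x.z v.1), (o n).x.l v.1))]
    unfold mi
    exact sub_le_sub (ch_anti fun p hp q hq e => by
      rw [f p hp, f q hq]; exact congrArg (·.2.2.2.2) e) (ch_anti (Fn.fst _ _))
  rw [mi_symm (fun v : _ × _ => (Y D la n v.1, Y D la n v.2))] at a1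
  rw [mi_symm ((o n).S (R n))] at a4
  linarith

/-- The coefficients of two lines in one cell agree. -/
theorem same (N : Nrm o) (h : Tan κ 1 ι o (fun _ => 0) R D) (k0 : 0 < κ)
    (r : Rel o R D q L la ko c0) : ∃ L', Sub R L' ∧ Whp (Pr o R) fun n v =>
      |ko n (la n v.1) - ko n (la n v.2)| ≤ L' n / 2 ^ (q n / 2) := by
  obtain ⟨L1, s1, w1⟩ := sep_e h N (lawT o R) fun n v => rn (D n) ((o n).x.e1 v.1)
  obtain ⟨L2, s2, w2⟩ := sep_e h N (lawT o R) fun n v => rn (D n) ((o n).x.e1 v.2)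
  have fb : Frac (fun n => q n / 2) R := ((h.big.frac r.fr).frac_div two_pos).trans r.fr
  have dT : DnS (Tr o R) (fun _ => Prod.fst) (oP o) := dn_fst _ _ _ _
  have nd : Nd (Tr o R) R (fun n v => (la n v.1, (Y D la n v.2.1, Y D la n v.2.2), (o n).x.l v.1))
      fun n v => ((Y D la n v.2.1, Y D la n v.2.2), (o n).x.l v.1) :=
    Nd.pair (G := fun n v => ((Y D la n v.2.1, Y D la n v.2.2), (o n).x.l v.1))
      ((r.nd.dn dT).anti fun n a _ b _ e => congrArg (fun u : ℝ × ℝ × ℝ × ℝ × (o n).T =>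
        (u.2.2.2.2, fl1 (D n) u.2.2.1)) (show (o n).x.l a.1 = (o n).x.l b.1 from (Prod.mk.inj e).2))
      (.fn fun _ => Fn.rfl _)
  have sp := (spr_z h k0 fb dT (inf3 N h r _)).ctx nd
  have w3 := sp.na h.big (h.big.sub le_rfl) fun n u =>
    (((ko n u.2.1.1.2 - ko n u.1) * u.2.2.1 + c0 n u.2.1.1.2 - c0 n u.1) /
        (u.2.1.1.1 / 2 ^ D n - rn (D n) u.2.2.2.2.1) -
      ((ko n u.2.1.2.2 - ko n u.1) * u.2.2.1 + c0 n u.2.1.2.2 - c0 n u.1) /
        (u.2.1.2.1 / 2 ^ D n - rn (D n) u.2.2.2.2.1)) / (ko n u.2.1.1.2 - ko n u.2.1.2.2)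
  refine ⟨_, (s1.add s2 h.big).mul (r.sub.const_mul h.big (by norm_num : (1 : ℝ) ≤ 10)),
    fun ε hε => ((w1.and (w2.and w3)).mono (F := fun n v => |ko n (la n v.2.1) - ko n (la n v.2.2)|
      ≤ (L1 n + L2 n) * (10 * L n) / 2 ^ (q n / 2)) ?_ ε hε).mono fun n u =>
        ((tg.snd _ _ _ _ (lawT o R n)).pb_eq fun v => ¬|ko n (la n v.1) - ko n (la n v.2)| ≤
          (L1 n + L2 n) * (10 * L n) / 2 ^ (q n / 2)).symm.trans_le u⟩
  filter_upwards [r.su, h.cap 1] with n ⟨u1, u2⟩ u3 v hv ⟨v1, v2, v3⟩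
  obtain ⟨m1, m2, m3⟩ := (tg.mem _ _ _ _ v (lawT o R n)).1 hv
  obtain ⟨m4, m5, m6⟩ := (mem_cp _ _ _).1 m2
  have q1 := r.fr.1 n
  have t : ∀ b ∈ (o n).P.S, (o n).S (R n) v.1 = (o n).S (R n) b → _ := fun b hb e =>
    two (N.d n) e q1 u1 (show q n ≤ D n by omega) (r.sub.1 n) (N.box n _).2.2.2.2.1
      (N.box n _).2.2.2.2.2 (abs01 (N.box n _).2.2.1 (N.box n _).2.2.1) (u2 b hb).2.1
      (u2 _ m1).2.2 (u2 b hb).2.2
  have t1 := quot (t _ m4 m3.symm) (s1.pos n) v1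
  have t2 := quot (t _ m5 (m3.symm.trans m6.symm)) (s2.pos n) v2
  by_cases e : ko n (la n v.2.1) - ko n (la n v.2.2) = 0
  · rw [e, abs_zero]; have := s1.pos n; have := s2.pos n; have := r.sub.pos n; positivity
  have t3 := mul_le_mul_of_nonneg_left v3 (abs_nonneg (ko n (la n v.2.1) - ko n (la n v.2.2)))
  rw [← abs_mul, mul_sub _ ((o n).x.z _), mul_div_cancel₀ _ e] at t3
  have t4 : |ko n (la n v.2.1) - ko n (la n v.2.2)| * (1 / 2 ^ (q n / 2)) ≤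
      (L1 n + L2 n) * (10 * L n / 2 ^ q n) := by
    refine t3.trans ?_
    simp only [rn, Pl.l] at t1 t2 ⊢
    rw [abs_le] at *
    constructor <;> linarith [t1.1, t1.2, t2.1, t2.2]
  rw [mul_one_div, div_le_iff₀ (by positivity), mul_assoc] at t4
  rw [mul_div_assoc]
  refine t4.trans (mul_le_mul_of_nonneg_left ?_ (by linarith [s1.pos n, s2.pos n]))
  rw [div_mul_eq_mul_div, div_le_div_iff₀ (by positivity) (by positivity), mul_assoc, ← pow_add]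
  exact mul_le_mul_of_nonneg_left (pow_le_pow_right₀ one_le_two (by omega))
    (by linarith [r.sub.pos n])

/-- The frame is read off the height. -/
theorem frame (N : Nrm o) (h : Tan κ 1 ι o (fun _ => 0) R D) (k0 : 0 < κ)
    (r : Rel o R D q L la ko c0) : Nd (oP o) R
      (fun n ω => fl1 (q n / 2) ((o n).x.g ω + ko n (la n ω) * (o n).x.z ω)) fun n ω =>
        ((o n).x.θ ω, fl1 (D n) ((o n).x.e1 ω)) := by
  obtain ⟨L1, s1, w1⟩ := sep_e h N (fun n => Law.rfl _) fun n v => rn (D n) ((o n).x.e1 v)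
  obtain ⟨L2, s2, w2⟩ := same N h k0 r
  have s3 := ((s1.mul (s2.add (r.sub.const_mul h.big (by norm_num : (1 : ℝ) ≤ 10)) h.big)).add s2
    h.big).const_mul h.big one_le_two
  have a : Nd (Pr o R) R
      (fun n v => fl1 (q n / 2) ((o n).x.g v.1 + ko n (la n v.1) * (o n).x.z v.1)) fun n v =>
        (Y D la n v.2, Y D la n v.1, (o n).x.θ v.1) := by
    refine Nd.whp (C := 1) h.big s3 (w1.and w2) ?_
    filter_upwards [r.su, h.cap 1, (w1.and w2).pos.sure] with n ⟨u1, u2⟩ u3 u4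
    have q1 := r.fr.1 n
    have l1 := s1.1 n
    have l2 := s2.1 n
    have l3 := r.sub.1 n
    refine ⟨by rw [one_mul]; exact_mod_cast (Nat.div_le_self _ _).trans q1, fun v hv => ?_,
      (((Cls.small (K := L1 n * (L2 n + 10 * L n) + L2 n) (X := fun v : _ × _ =>
        (o n).x.g v.1 + ko n (la n v.1) * (o n).x.z v.1 - (c0 n (la n v.2) - c0 n (la n v.1)) /
          (rn (D n) ((o n).x.e1 v.2) - rn (D n) ((o n).x.e1 v.1))) fun v hv => ?_).add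
        (Cls.fn (fun _ _ _ _ e => congrArg (fun u : (ℤ × Λ n) × (ℤ × Λ n) × (o n).T =>
          (c0 n u.1.2 - c0 n u.2.1.2) / ((u.1.1 : ℝ) / 2 ^ D n - u.2.1.1 / 2 ^ D n)) e) _)).congr
            fun v _ => (sub_add_cancel _ _).symm).mono le_rfl (by positivity) (by linarith)⟩
    · obtain ⟨-, -, -, -, b1, b2⟩ := N.box n v.1
      have b3 := (u2 _ ((mem_cp _ _ v).1 hv).1).2.1
      refine (abs_add_le _ _).trans ?_
      rw [abs_mul, abs_of_nonneg b1.1, abs_of_nonneg b2.1]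
      nlinarith [abs_nonneg (ko n (la n v.1))]
    · obtain ⟨m0, v1, v2⟩ := u4 v hv
      obtain ⟨m1, m2, m3⟩ := (mem_cp _ _ v).1 m0
      obtain ⟨b1, -, b3, -, b5, b6⟩ := N.box n v.1
      have t := (two (N.d n) m3.symm q1 u1 (show q n ≤ D n by omega) l3 b5 b6
        (abs01 (N.box n _).2.2.1 b3) (u2 _ m2).2.1 (u2 _ m1).2.2 (u2 _ m2).2.2).trans
        (dv_anti (by positivity) le_rfl (Nat.div_le_self _ 2))
      have m : ∀ {y : ℝ}, 0 ≤ y ∧ y < 1 →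
          |(ko n (la n v.1) - ko n (la n v.2)) * y| ≤ L2 n / 2 ^ (q n / 2) := fun b => by
        rw [abs_mul, abs_of_nonneg b.1]
        exact (mul_le_of_le_one_right (abs_nonneg _) b.2.le).trans v2
      have t1 := quot (x := (o n).x.g v.1 + ko n (la n v.2) * (o n).x.z v.1)
        (z := c0 n (la n v.2) - c0 n (la n v.1)) (ε := (L2 n + 10 * L n) / 2 ^ (q n / 2)) (by
          have := abs_le.1 (m b1)
          rw [add_div, abs_le]
          constructor <;> linarith [(abs_le.1 t).1, (abs_le.1 t).2, this.1, this.2]) (s1.pos n) v1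
      have := abs_le.1 (m b5)
      rw [add_div, mul_div_assoc, abs_le]
      constructor <;> linarith [(abs_le.1 t1).1, (abs_le.1 t1).2, this.1, this.2]
  refine Nd.cut r.nd (Le.of2 a (inf1 N h r) (.of_forall fun n => ?_))
  have a1 := inf2 (D := D) (la := la) (R := R) n
    (fun ω => fl1 (q n / 2) ((o n).x.g ω + ko n (la n ω) * (o n).x.z ω))
    (fun ω => (Y D la n ω, (o n).x.θ ω)) rfl (Fn.snd _ _)
  have a2 := (tg.fst (o n).P (o n).P ((o n).S (R n)) ((o n).S (R n))).ch_id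
    (fun ω => fl1 (q n / 2) ((o n).x.g ω + ko n (la n ω) * (o n).x.z ω)) fun ω =>
      (Y D la n ω, (o n).x.θ ω)
  have a3 : ch (o n).P (fun ω => fl1 (q n / 2) ((o n).x.g ω + ko n (la n ω) * (o n).x.z ω))
      (fun ω => (la n ω, (o n).x.θ ω, fl1 (D n) ((o n).x.e1 ω))) ≤ ch (o n).P _ fun ω =>
        (Y D la n ω, (o n).x.θ ω) :=
    ch_anti fun _ _ _ _ e => congrArg (fun u => ((u.2.2, u.1), u.2.1)) e
  unfold mi at a1 ⊢
  linarith

end FinB

end Pool.Agent.MP_5168f5_an.MX
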