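import Pool.Agent.MP_5168f5_an.H17F.Sq2
import Pool.Agent.MP_5168f5_an.H17F.KE
import Pool.Agent.MP_5168f5_an.H39F.Kit

/-! Labels of small entropy that make finitely many variables pointwise flat. -/

namespace Pool.Agent.MP_5168f5_an.MX

open H19 H17S H17F Finset

variable {Ω α β γ : Type} {P : FP Ω}

/-- Pointwise information. -/
noncomputable def iv (P : FP Ω) (F : Ω → α) (ω : Ω) : ℝ := -Real.log (pb P fun v => F v = F ω)

/-- All values of `F` have probability `exp (-h ± δ)`. -/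
def Flat (P : FP Ω) (F : Ω → α) (δ : ℝ) : Prop := ∀ ω ∈ P.S, |iv P F ω - hh P F| ≤ δ

theorem hh_iv (P : FP Ω) (F : Ω → α) : hh P F = P.E (iv P F) := H39F.hh_eq P F

theorem pb_val_pos (F : Ω → α) {ω : Ω} (h : ω ∈ P.S) : 0 < pb P fun v => F v = F ω :=
  pb_pos P ⟨ω, h, rfl⟩

theorem exp_iv (F : Ω → α) {ω : Ω} (h : ω ∈ P.S) :
    Real.exp (-iv P F ω) = pb P fun v => F v = F ω := by
  rw [iv, neg_neg, Real.exp_log (pb_val_pos F h)]

theorem iv_nonneg (F : Ω → α) (ω : Ω) : 0 ≤ iv P F ω :=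
  neg_nonneg.2 (Real.log_nonpos (pb_nonneg _ _) (pb_le_one _ _))

theorem iv_mono {F : Ω → α} {G : Ω → β} (h : Fn P F G) {ω : Ω} (hω : ω ∈ P.S) :
    iv P F ω ≤ iv P G ω :=
  neg_le_neg (Real.log_le_log (pb_val_pos G hω) (pb_mono fun v hv e => h v hv ω hω e))

theorem iv_congr {F : Ω → α} {a b : Ω} (h : F a = F b) : iv P F a = iv P F b := by
  simp only [iv, h]

theorem flat_of_bd {F : Ω → α} {a δ : ℝ} (h : ∀ ω ∈ P.S, a ≤ iv P F ω ∧ iv P F ω ≤ a + δ) :
    Flat P F δ := by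
  intro ω hω
  have h1 := P.E_mono (F := fun _ => a) fun v hv => (h v hv).1
  have h2 := P.E_mono (G := fun _ => a + δ) fun v hv => (h v hv).2
  rw [FP.E_const, ← hh_iv] at h1 h2
  exact abs_le.2 ⟨by linarith [(h ω hω).1], by linarith [(h ω hω).2]⟩

theorem Flat.mono {F : Ω → α} {δ δ' : ℝ} (h : Flat P F δ) (e : δ ≤ δ') : Flat P F δ' :=
  fun ω hω => (h ω hω).trans e

/-- A variable between two flat variables of almost the same entropy is flat. -/
theorem Flat.between {F : Ω → α} {G : Ω → β} {K : Ω → γ} {δ τ : ℝ} (hF : Flat P F δ)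
    (hK : Flat P K δ) (h1 : Fn P F G) (h2 : Fn P G K) (e : hh P K ≤ hh P F + τ) :
    Flat P G (δ + τ) := by
  intro ω hω
  have a1 := abs_le.1 (hF ω hω)
  have a2 := abs_le.1 (hK ω hω)
  exact abs_le.2 ⟨by linarith [iv_mono h1 hω, hh_mono h2], by linarith [iv_mono h2 hω, hh_mono h1]⟩

theorem Flat.congr {F : Ω → α} {G : Ω → β} {δ : ℝ} (hF : Flat P F δ) (h1 : Fn P F G)
    (h2 : Fn P G F) : Flat P G δ := by
  simpa using hF.between hF h1 h2 (le_add_of_nonneg_right le_rfl)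

/-- A flat variable keeps its entropy on every event that is not too small. -/
theorem Flat.cE {F : Ω → α} {δ : ℝ} (hF : Flat P F δ) {E : Ω → Prop} (hE : ∃ ω ∈ P.S, E ω) :
    hh P F - δ + Real.log (pb P E) ≤ hh (cE P E) F := by
  rw [hh_iv (H17F.cE P E), ← (H17F.cE P E).E_const (hh P F - δ + Real.log (pb P E))]
  refine FP.E_mono _ fun ω hω => ?_
  have h0 := pb_pos P hE
  have h1 := pb_val_pos F hω
  have h2 : pb P E * pb (H17F.cE P E) (fun v => F v = F ω) ≤ pb P fun v => F v = F ω := by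
    rw [pb_cE]
    exact pb_mono fun _ _ h => h.2
  have h3 := Real.log_le_log (mul_pos h0 h1) h2
  rw [Real.log_mul h0.ne' h1.ne'] at h3
  have h4 := (abs_le.1 (hF ω (cE_sub hω))).1
  unfold iv at h4 ⊢
  linarith

theorem sum_pb (F : Ω → α) (G : α → Ω → Prop) (T : Finset α) :
    ∑ c ∈ T, pb P (fun v => F v = c ∧ G c v) = pb P fun v => F v ∈ T ∧ G (F v) v := by
  classical
  unfold pb
  rw [← FP.E_sum]
  refine P.E_congr fun v _ => ?_
  by_cases h : F v ∈ T
  · rw [sum_eq_single (F v) (fun c _ hc => by simp [hc.symm]) fun h' => absurd h h']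
    simp [h]
  · rw [if_neg fun e => h e.1]
    exact sum_eq_zero fun c hc => if_neg fun e : F v = c ∧ _ => h (e.1 ▸ hc)

theorem sum_pb_le (F : Ω → α) (T : Finset α) : ∑ c ∈ T, pb P (fun v => F v = c) ≤ 1 := by
  have := sum_pb (P := P) F (fun _ _ => True) T
  simp only [and_true] at this
  exact this.trans_le (pb_le_one _ _)

/-- The entropy of a natural number is logarithmic in its mean. -/
theorem hh_nat (ι : Ω → ℕ) {B : ℝ} (hB : P.E (fun ω => (ι ω : ℝ)) ≤ B) :
    hh P ι ≤ 2 * Real.log (B + 2) := by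
  classical
  have B0 : 0 ≤ B := (P.E_nonneg fun ω _ => Nat.cast_nonneg _).trans hB
  have tel : ∀ K : ℕ, ∑ n ∈ range K, 1 / (((n : ℝ) + 1) * (n + 2)) = 1 - 1 / (K + 1) := by
    intro K
    induction K with
    | zero => simp
    | succ K ih => rw [sum_range_succ, ih]; push_cast; field_simp; ring
  have h1 := P.gibbs (Setoid.ker ι) (fun ω => 1 / (((ι ω : ℝ) + 1) * (ι ω + 2)))
    (fun ω _ => by positivity) (by
      have e : P.E (fun ω => 1 / (((ι ω : ℝ) + 1) * (ι ω + 2)) / P.pr (Setoid.ker ι) ω)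
          = ∑ n ∈ range (P.S.sup ι + 1), 1 / (((n : ℝ) + 1) * (n + 2)) *
            P.E fun ω => if ι ω = n then 1 / P.pr (Setoid.ker ι) ω else 0 := by
        simp only [← FP.E_mul]
        rw [← FP.E_sum]
        refine P.E_congr fun ω hω => ?_
        rw [sum_eq_single (ι ω) (fun n _ hn => by rw [if_neg hn.symm, mul_zero])
          fun h => absurd (mem_range.2 (Nat.lt_succ_of_le (le_sup hω))) h, if_pos rfl]
        ring
      rw [e]
      refine le_trans (sum_le_sum fun n _ => mul_le_of_le_one_right (by positivity) ?_) ?_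
      · have := P.class_sum (Setoid.ker ι) (fun ω => ι ω = n) fun a _ b _ ha hb => ha.trans hb.symm
        exact le_trans (le_of_eq (P.E_congr fun ω _ => by congr)) this
      · rw [tel]
        exact sub_le_self _ (by positivity))
  have h2 : P.E (fun ω => -Real.log (1 / (((ι ω : ℝ) + 1) * (ι ω + 2)))) ≤
      P.E fun ω => 2 / (B + 2) * ι ω + (2 * Real.log (B + 2) + 4 / (B + 2) - 2) := by
    refine P.E_mono fun ω _ => ?_
    have n0 : (0 : ℝ) ≤ ι ω := Nat.cast_nonneg _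
    have a1 := Real.log_le_sub_one_of_pos (show 0 < ((ι ω : ℝ) + 2) / (B + 2) by positivity)
    have a2 := Real.log_le_log (show 0 < (ι ω : ℝ) + 1 by positivity)
      (show (ι ω : ℝ) + 1 ≤ ι ω + 2 by linarith)
    rw [Real.log_div (by positivity) (by positivity)] at a1
    rw [one_div, Real.log_inv, neg_neg, Real.log_mul (by positivity) (by positivity)]
    have a3 : 2 * (((ι ω : ℝ) + 2) / (B + 2)) = 2 / (B + 2) * ι ω + 4 / (B + 2) := by ring
    linarith
  rw [FP.E_add, FP.E_mul, FP.E_const] at h2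
  have h3 := mul_le_mul_of_nonneg_left hB (show 0 ≤ 2 / (B + 2) by positivity)
  have h4 : 2 / (B + 2) * B + 4 / (B + 2) = 2 := by field_simp; ring
  unfold hh
  linarith

/-- Remove thin blocks until none is left. -/
theorem prune {ι : Type} (B : ι → Ω → Prop) (θ : ι → ℝ) (hθ : ∀ i, 0 ≤ θ i) (I : Finset ι) :
    ∀ A : Ω → Prop, ∃ E : Ω → Prop, (∀ ω, E ω → A ω) ∧ pb P A ≤ pb P E + ∑ i ∈ I, θ i ∧
      ∀ i ∈ I, ∀ ω, E ω → B i ω → θ i ≤ pb P fun v => E v ∧ B i v := by
  classical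
  induction I using Finset.strongInduction with
  | H I ih =>
    intro A
    by_cases h : ∀ i ∈ I, θ i ≤ pb P fun v => A v ∧ B i v
    · exact ⟨A, fun _ h => h, le_add_of_nonneg_right (sum_nonneg fun i _ => hθ i),
        fun i hi _ _ _ => h i hi⟩
    push Not at h
    obtain ⟨i, hi, h⟩ := h
    obtain ⟨E, e1, e2, e3⟩ := ih _ (erase_ssubset hi) fun v => A v ∧ ¬B i v
    refine ⟨E, fun ω hω => (e1 ω hω).1, ?_, fun i' hi' ω h1 h2 => ?_⟩
    · rw [pb_split P A (B i), ← add_sum_erase _ _ hi]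
      linarith
    · exact e3 i' (mem_erase.2 ⟨fun e => (e1 ω h1).2 (e ▸ h2), hi'⟩) ω h1 h2

variable {J : Type} [Fintype J] {σ : J → Type}

theorem flat_cls (F : ∀ j, Ω → σ j) (A : Ω → Prop) (a : J → ℝ) {t : ℝ} (ht : 0 ≤ t)
    (h0 : ∀ j, 0 < a j) (h : ∀ j, ∀ ω ∈ P.S, A ω → a j ≤ pb P fun v => F j v = F j ω) :
    ∃ E : Ω → Prop, (∀ ω, E ω → A ω) ∧ pb P A ≤ pb P E + Fintype.card J * t ∧
      ∀ j, ∀ ω ∈ P.S, E ω → t * a j ≤ pb P fun v => E v ∧ F j v = F j ω := by
  classical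
  obtain ⟨E, e1, e2, e3⟩ := prune (P := P) (fun (i : Σ j, σ j) v => F i.1 v = i.2)
    (fun i => t * a i.1) (fun i => mul_nonneg ht (h0 _).le)
    (univ.sigma fun j => (P.S.filter A).image (F j)) A
  refine ⟨E, e1, e2.trans (add_le_add le_rfl ?_), fun j ω hω hE => e3 ⟨j, F j ω⟩
    (mem_sigma.2 ⟨mem_univ _, mem_image_of_mem _ (mem_filter.2 ⟨hω, e1 ω hE⟩)⟩) ω hE rfl⟩
  rw [sum_sigma, ← card_univ, ← nsmul_eq_mul, ← sum_const]
  refine sum_le_sum fun j _ => ?_
  rw [← mul_sum]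
  refine mul_le_of_le_one_right ht (le_trans (sum_le_sum fun c hc => ?_)
    (sum_pb_le (P := P) (F j) _))
  obtain ⟨ω, hω, rfl⟩ := mem_image.1 hc
  exact h j ω (mem_filter.1 hω).1 (mem_filter.1 hω).2

/-- **Flattening.** -/
theorem flat_label (P : FP Ω) (F : ∀ j, Ω → σ j) {B η D : ℝ} (hB : ∀ j, hh P (F j) ≤ B)
    (hη : 0 < η) (hη' : η ≤ 1 / 2) (hD : 0 < D)
    (hk : Fintype.card J * (2 * Real.log (B + 2)) ≤ η * D) :
    ∃ Λ : Ω → Option (J → ℕ), hh P Λ ≤ η * D + lg ∧ pb P (fun ω => Λ ω = none) ≤ 2 * η ∧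
      ∀ ω ∈ P.S, Λ ω ≠ none → iv P Λ ω ≤ D + lg ∧
        ∀ j, Flat (cv P Λ (Λ ω)) (F j) (D + 1 + Real.log ((Fintype.card J + 1) / η)) := by
  classical
  set k : ℝ := (Fintype.card J : ℝ) with hkd
  have k0 : 0 ≤ k := Nat.cast_nonneg _
  let l : Ω → J → ℕ := fun ω j => ⌊iv P (F j) ω⌋₊
  have l1 : hh P l ≤ η * D := by
    have h1 := ch_pi_le (P := P) univ (fun j ω => l ω j) 0 fun _ => ()
    simp only [mem_univ, if_true, ch_unit] at h1
    refine h1.trans (le_trans ?_ hk)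
    rw [hkd, ← card_univ, ← nsmul_eq_mul, ← sum_const]
    refine sum_le_sum fun j _ => hh_nat _ (le_trans ?_ (hB j))
    rw [hh_iv]
    exact P.E_mono fun ω _ => Nat.floor_le (iv_nonneg _ _)
  have lo : ∀ (s : J → ℕ) j, ∀ ω ∈ P.S, l ω = s →
      Real.exp (-(s j + 1 : ℝ)) ≤ pb P fun v => F j v = F j ω := by
    rintro _ j ω hω rfl
    rw [← exp_iv _ hω]
    exact Real.exp_le_exp.2 (neg_le_neg (Nat.lt_floor_add_one _).le)
  choose E e1 e2 e3 using fun s : J → ℕ => flat_cls (P := P) F (fun v => l v = s)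
    (fun j => Real.exp (-(s j + 1 : ℝ))) (t := η / (k + 1) * pb P fun v => l v = s)
    (mul_nonneg (by positivity) (pb_nonneg _ _)) (fun j => Real.exp_pos _) (lo s)
  have e4 : ∀ s, pb P (fun v => l v = s) ≤ pb P (E s) + η * pb P fun v => l v = s := by
    intro s
    refine (e2 s).trans (add_le_add le_rfl ?_)
    rw [← hkd, ← mul_assoc]
    refine mul_le_mul_of_nonneg_right ?_ (pb_nonneg _ _)
    rw [mul_div_assoc', div_le_iff₀ (by positivity)]
    linarith
  refine ⟨fun ω => if iv P l ω ≤ D ∧ E (l ω) ω then some (l ω) else none, ?_, ?_, ?_⟩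
  · have h1 := ch_det (P := P) (G := l) (B := 2)
      (F := fun ω => if iv P l ω ≤ D ∧ E (l ω) ω then some (l ω) else none)
      fun a _ => ⟨{none, some (l a)}, by exact_mod_cast card_le_two, fun b _ e => by
        beta_reduce
        split_ifs <;> simp [e]⟩
    have h2 := hh_mono (P := P)
      (Fn.fst (fun ω => if iv P l ω ≤ D ∧ E (l ω) ω then some (l ω) else none) l)
    unfold ch at h1
    unfold lg
    linarith
  · have h1 : pb P (fun ω => D < iv P l ω) ≤ η := by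
      refine le_of_mul_le_mul_left (le_trans ?_ (l1.trans (mul_comm _ _).le)) hD
      rw [hh_iv, pb, ← FP.E_mul]
      refine P.E_mono fun ω _ => ?_
      split_ifs with h
      · linarith
      · linarith [iv_nonneg (P := P) l ω]
    have h2 : pb P (fun ω => ¬E (l ω) ω) ≤ η := by
      have a1 := sum_pb (P := P) l (fun s v => ¬E s v) (P.S.image l)
      rw [pb_congr (F := fun ω => ¬E (l ω) ω) fun ω hω =>
        and_iff_right (mem_image_of_mem l hω)] at a1
      rw [← a1]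
      refine le_trans (sum_le_sum (g := fun s => η * pb P fun v => l v = s) fun s _ => ?_) ?_
      · have a2 := pb_split P (fun v => l v = s) (E s)
        have a3 : pb P (E s) ≤ pb P fun v => l v = s ∧ E s v := pb_mono fun v _ h => ⟨e1 s v h, h⟩
        linarith [e4 s]
      · rw [← mul_sum]
        exact mul_le_of_le_one_right hη.le (sum_pb_le _ _)
    refine le_trans (pb_mono fun ω _ h => ?_)
      ((pb_or P (fun ω => D < iv P l ω) fun ω => ¬E (l ω) ω).trans (by linarith))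
    by_contra h'
    push Not at h'
    simp [h'.1, h'.2] at h
  · intro ω hω hn
    have h1 : iv P l ω ≤ D ∧ E (l ω) ω := by
      by_contra h
      exact hn (if_neg h)
    have h2 : ∀ v ∈ P.S, (if iv P l v ≤ D ∧ E (l v) v then some (l v) else none) =
        (if iv P l ω ≤ D ∧ E (l ω) ω then some (l ω) else none) ↔ E (l ω) v := by
      intro v _
      rw [if_pos h1]
      refine ⟨fun h => ?_, fun h => ?_⟩
      · split_ifs at h with h3
        exact Option.some.inj h ▸ h3.2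
      · have h3 := e1 _ v h
        rw [if_pos ⟨(iv_congr h3).trans_le h1.1, h3 ▸ h⟩, h3]
    have p0 := pb_val_pos (P := P) l hω
    have q0 : 0 < pb P (E (l ω)) := pb_pos P ⟨ω, hω, h1.2⟩
    have h3 : -D ≤ Real.log (pb P fun v => l v = l ω) := neg_le.1 h1.1
    refine ⟨?_, fun j => ?_⟩
    · have a1 : pb P (fun v => l v = l ω) ≤ 2 * pb P (E (l ω)) := by nlinarith [e4 (l ω)]
      have a2 := Real.log_le_log p0 a1
      rw [Real.log_mul two_ne_zero q0.ne'] at a2
      rw [iv, pb_congr h2, lg]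
      linarith
    · unfold cv
      rw [cE_congr h2]
      refine flat_of_bd (a := l ω j + Real.log (pb P (E (l ω)))) fun v hv => ?_
      obtain ⟨v1, v2⟩ := (mem_cE ⟨ω, hω, h1.2⟩ v).1 hv
      have a1 := congrArg Real.log (pb_cE P (E (l ω)) fun u => F j u = F j v)
      rw [Real.log_mul q0.ne' (pb_val_pos _ hv).ne'] at a1
      have a2 := Real.log_le_log (by positivity) (e3 (l ω) j v v1 v2)
      rw [Real.log_mul (by positivity) (by positivity), Real.log_mul (by positivity) p0.ne',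
        Real.log_exp, ← inv_div, Real.log_inv] at a2
      have a3 := Real.log_le_log (pb_pos P ⟨v, v1, v2, rfl⟩)
        (pb_mono (P := P) (E := fun u => E (l ω) u ∧ F j u = F j v) fun _ _ h => h.2)
      have a4 : (l ω j : ℝ) ≤ iv P (F j) v := by
        rw [← e1 _ v v2]
        exact Nat.floor_le (iv_nonneg _ _)
      unfold iv at a4 ⊢
      constructor <;> linarith

/-- Passing to the classes of a label costs at most its entropy. -/
theorem ch_le_cv (F : Ω → α) (G : Ω → β) (Λ : Ω → γ) :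
    ch P F G ≤ P.E (fun ω => ch (cv P Λ (Λ ω)) F G) + hh P Λ := by
  rw [← KEA.ent P Λ (fun _ => F) fun _ => G]
  have h1 := ch_drop (P := P) F Λ G
  have h2 : ch P F (fun ω => (Λ ω, G ω)) ≤ ch P F fun ω => (G ω, Λ ω) :=
    ch_anti ((Fn.snd _ _).pair (Fn.fst _ _))
  linarith [ch_le_hh (P := P) Λ G]

/-- A good point that is at least as good as the average. -/
theorem pick (g : Ω → ℝ) (A : Ω → Prop) {C p : ℝ} (hC : ∀ ω ∈ P.S, |g ω| ≤ C)
    (hp : pb P A ≤ p) (h1 : p < 1) : ∃ ω ∈ P.S, ¬A ω ∧ P.E g ≤ g ω + 2 * C * p := by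
  classical
  obtain ⟨a, a1, a2⟩ := ex_of_pb (P := P) (E := fun ω => ¬A ω) (by rw [pb_not]; linarith)
  obtain ⟨ω, h2, h3⟩ := exists_max_image (P.S.filter fun ω => ¬A ω) g ⟨a, mem_filter.2 ⟨a1, a2⟩⟩
  obtain ⟨h4, h5⟩ := mem_filter.1 h2
  have C0 : 0 ≤ C := (abs_nonneg _).trans (hC a a1)
  refine ⟨ω, h4, h5, le_trans ?_ (add_le_add le_rfl
    (mul_le_mul_of_nonneg_left hp (by positivity)))⟩
  rw [pb, ← FP.E_mul, ← P.E_const (g ω), ← FP.E_add]
  refine P.E_mono fun v hv => ?_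
  split_ifs with h
  · linarith [(abs_le.1 (hC v hv)).2, (abs_le.1 (hC ω h4)).1]
  · simpa using h3 v (mem_filter.2 ⟨hv, h⟩)

end Pool.Agent.MP_5168f5_an.MX
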