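import Pool.Agent.MP_5168f5_an.MX.PO
import Pool.Agent.MP_5168f5_an.MX.RPA

/-! Rotation of the frame gives information on the line. -/

namespace Pool.Agent.MP_5168f5_an.MX

open H19 H17S H17F Filter R4.K31

namespace L6A

section Fin

variable {Ω T α β γ δ ζ : Type} {P : FP Ω} {x y : Pl Ω T}

/-- The lateral line, `J` digits beyond the cell of level `b`. -/
noncomputable def ln (x : Pl Ω T) (b d J : ℕ) (ω : Ω) : ℤ × ℤ :=
  (fl1 (b + J + d) (x.y1 b ω), fl1 (d + J) (x.e1 ω))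

theorem ln_ch {G : Ω → β} {b d J u : ℕ} {K : ℝ} (hK : 0 ≤ K) {t E : ℕ} (h1 : Cls P G (x.y1 b) t K)
    (h2 : Cls P G x.e1 E K) (e1 : b + J + d ≤ t + u) (e2 : d + J ≤ E + u) :
    ch P (ln x b d J) G ≤ 2 * u * lg + (4 * K + 4) :=
  (ch_subadd _ _ _).trans ((add_le_add (h1.ch hK e1) (h2.ch hK e2)).trans_eq (by ring))

/-- Two labels on one line with different frames determine the lateral line. -/
theorem two {a b f k d J : ℕ} {ε : ℝ} (hl : ∀ ω ∈ P.S, y.l ω = x.l ω)
    (bz : ∀ ω ∈ P.S, |rn b (y.z ω) - rn b (x.z ω)| ≤ 1 / 2 ^ a)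
    (hE : pb P (fun ω => ¬1 / 2 ^ k ≤ |rn f (x.g ω) - rn f (y.g ω)|) ≤ ε) (e1 : a ≤ b)
    (e2 : k + b + J ≤ a + f) :
    ch P (ln x b d J) (fun ω => (x.Bx (lab b f d (d + f)) ω, y.Bx (lab b f d (d + f)) ω)) ≤
      17 + ε * (2 * J * lg + 8) := by
  have kx := Kn.of_fn (Fn.fst (P := P) (x.Bx (lab b f d (d + f))) (y.Bx (lab b f d (d + f))))
  have ky := Kn.of_fn (Fn.snd (P := P) (x.Bx (lab b f d (d + f))) (y.Bx (lab b f d (d + f))))
  have s : ∀ ω ∈ P.S, y.a1 ω = x.a1 ω ∧ y.a2 ω = x.a2 ω ∧ y.e1 ω = x.e1 ω ∧ y.e2 ω = x.e2 ω ∧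
      y.θ ω = x.θ ω := fun ω hω => by simpa only [Pl.l, Prod.mk.injEq] using hl ω hω
  have fz := RP.fsub (RP.fnz ky.zg) (RP.fnz kx.zg)
  have fg := RP.fsub (RP.fng kx.zg) (RP.fng ky.zg)
  have c1 := (((ky.c.sub kx.c).congr (X' := fun ω => (rn f (x.g ω) - rn f (y.g ω)) * x.e1 ω)
    fun ω hω => by simp only [Pl.tl, lab, s ω hω]; ring).mono (j := k + (d + J)) (K' := 3)
      (by simp only [lab]; omega) (by norm_num) (by norm_num))
  have c2 := ((((ky.D.sub kx.D).mono (j := a + (d + f)) (by simp only [lab]; omega) (by norm_num)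
    le_rfl).sub (ky.c.mul fz bz)).congr
      (X' := fun ω => (rn f (x.g ω) - rn f (y.g ω)) * x.y1 b ω) fun ω hω => by
        simp only [Pl.tl, Pl.nm, Pl.y1, lab, s ω hω]; ring).mono (j := k + (b + J + d)) (K' := 3)
          (by omega) (by norm_num) (by norm_num)
  refine (ch_ev (A := 16) (B := 2 * J * lg + 8) (by norm_num) (by have := lg_pos; positivity) hE
    (fun hx => ?_) ?_).trans (by linarith [lg_lt_one])
  · have h := fun ω hω => ((mem_cE hx ω).1 hω).2
    have := ln_ch (u := 0) (by norm_num) (Cls.div (c2.cE _) (fn_cE fg _) h)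
      (Cls.div (c1.cE _) (fn_cE fg _) h) le_rfl le_rfl
    norm_num at this ⊢
    exact this
  · exact (ln_ch (u := J) zero_le_one (kx.t.cE _) (kx.E.cE _) (by simp only [lab]; omega)
      (by simp only [lab]; omega)).trans_eq (by ring)

theorem mj2 (P : FP Ω) (l : Ω → α) (S : Ω → β) {W : Ω → γ} {φ : Ω → δ} (L : Ω → ζ)
    (h1 : Fn P φ fun ω => (l ω, W ω)) (h2 : Fn P W φ) :
    ch P L S ≤ ch P l W - ch P l S + 2 * ch P W S +
      ch (glue P P φ φ) (fun v => L v.1) fun v => (S v.1, S v.2) := by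
  have a1 := cor P S L h2
  have a2 : mi P S φ W ≤ mi P S l W := mi_mono h1
  have a3 := ch_drop (P := P) L W S
  have a4 := ch_drop (P := P) l W S
  have a5 : ch P L (fun ω => (W ω, S ω)) ≤ ch P L fun ω => (S ω, W ω) :=
    ch_anti ((Fn.snd _ _).pair (Fn.fst _ _))
  have a6 : ch P l (fun ω => (W ω, S ω)) ≤ ch P l fun ω => (S ω, W ω) :=
    ch_anti ((Fn.snd _ _).pair (Fn.fst _ _))
  have a7 : ch (glue P P φ φ) (fun v => L v.1) (fun v => (S v.1, S v.2, W v.1)) ≤ _ :=
    ch_anti (G := fun v => (S v.1, S v.2)) ((Fn.fst _ _).pair ((Fn.fst _ _).right _))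
  rw [mi_symm S l] at a2
  unfold mi at a1 a2
  linarith

theorem sep {k f : ℕ} (e : k + 1 ≤ f) {a b : ℝ} (h : 1 / 2 ^ k ≤ |b - a|) :
    1 / 2 ^ (k + 1) ≤ |rn f a - rn f b| := by
  have a1 := dv_anti zero_le_one le_rfl e
  have a2 : (1 : ℝ) / 2 ^ k = 2 * (1 / 2 ^ (k + 1)) := by rw [pow_succ]; field_simp
  have a3 : |b - a + (rn f a - rn f b)| ≤ 1 / 2 ^ f := by
    rw [abs_le]; constructor <;> linarith [rn_le f a, rn_le f b, lt_rn f a, lt_rn f b]
  have a4 := abs_sub (b - a + (rn f a - rn f b)) (rn f a - rn f b)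
  rw [add_sub_cancel_right] at a4
  linarith

/-- The lateral line beyond the top label. -/
theorem low {b j f F d m : ℕ} (e : b ≤ j) (e' : f ≤ F) :
    mi P (fun ω => (fl1 j (x.z ω), fl1 (j + d) (x.y1 j ω)))
      (fun ω => (fl1 (j + d) (x.y1 b ω), fl1 (d + (j - b)) (x.e1 ω))) (x.Bx (lab b f d (d + f))) +
      (ch P x.l (x.Bx (lab j F d (d + F))) - ch P x.l (x.Bx (lab j F (d + m) (d + F))))
      ≤ ch P (ln x b d (j - b + m)) (x.Bx (lab b f d (d + f))) + 80 := by
  have a1 : mi P (fun ω => (fl1 j (x.z ω), fl1 (j + d) (x.y1 j ω)))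
      (fun ω => (fl1 (j + d) (x.y1 b ω), fl1 (d + (j - b)) (x.e1 ω))) (x.Bx (lab b f d (d + f))) ≤
      mi P (x.Bx (lab j F d (d + F))) (ln x b d (j - b + m)) (x.Bx (lab b f d (d + f))) :=
    (mi_mono' ((((Fn.fst _ _).trans (bx_zg (p := lab j F d (d + F)))).pair bx_t).left _)).trans
      (mi_mono (Fn.left (fun _ _ _ _ q => Prod.ext (fl1_eq_of_le (by omega) (congrArg Prod.fst q))
        (fl1_eq_of_le (by omega) (congrArg Prod.snd q))) _))
  have a2 := RP.drop (P := P) (G := x.Bx (lab j F d (d + F))) (l := x.l)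
    (A := x.Bx (lab j F (d + m) (d + F)))
    ((bx_lz le_rfl le_rfl).trans ((Fn.fst _ _).pair ((bx_zg (p := lab j F d (d + F))).right _)))
  have a3 : ch P x.l (fun ω => (x.Bx (lab j F (d + m) (d + F)) ω, x.Bx (lab j F d (d + F)) ω)) ≤ _ :=
    ch_anti (Fn.fst _ _)
  have a4 := ch_drop (P := P) (x.Bx (lab j F (d + m) (d + F))) (x.Bx (lab b f d (d + f)))
    (x.Bx (lab j F d (d + F)))
  have a5 := ch_tri (P := P) (x.Bx (lab j F (d + m) (d + F))) (ln x b d (j - b + m))
    fun ω => (x.Bx (lab b f d (d + f)) ω, x.Bx (lab j F d (d + F)) ω)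
  have a6 : ch P (ln x b d (j - b + m))
      (fun ω => (x.Bx (lab b f d (d + f)) ω, x.Bx (lab j F d (d + F)) ω)) ≤ ch P _
      fun ω => (x.Bx (lab j F d (d + F)) ω, x.Bx (lab b f d (d + f)) ω) :=
    ch_anti ((Fn.snd _ _).pair (Fn.fst _ _))
  have h := Fn.snd (P := P) (ln x b d (j - b + m))
    fun ω => (x.Bx (lab b f d (d + f)) ω, x.Bx (lab j F d (d + F)) ω)
  have k1 := Kn.of_fn ((Fn.fst _ _).trans h)
  have k2 := Kn.of_fn ((Fn.snd _ _).trans h)
  have k3 := ((k1.sett (t := b + (j - b + m) + d) (k1.cls fun _ _ _ _ q => congrArg (·.1.1) q)).setE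
    (E := d + (j - b + m)) (k1.cls fun _ _ _ _ q => congrArg (·.1.2) q)).move
    (q := ⟨j, F, j + (d + m), d + m, 0, 0⟩) k2.zg (by simp only [Pm.Rd, lab]; omega)
  have a7 : ch P (x.Bx (lab j F (d + m) (d + F))) _ ≤ _ :=
    (((k2.big (by norm_num)).sett k3.t).setE k3.E).ch
  have a8 := ch_bx (P := P) (x := x) (p := lab j F d (d + F)) (q := lab b f d (d + f)) (Fn.rfl _)
    ((fn_zg e e').trans bx_zg) (by simp only [Pm.Rd, lab]; omega)
  rw [mi_symm (x.Bx (lab j F d (d + F)))] at a1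
  unfold mi at a1 ⊢
  linarith

end Fin

theorem rdS {o : Ob} (h : o.Alg) {a b : ℕ} (e : a ≤ b) : ch o.P (o.S a) (o.S b) ≤ 40 :=
  ch_bx (Fn.rfl _) ((fn_zg e (h.mono e)).trans bx_zg) (by
    have := h.mono e
    simp only [Pm.Rd, Ob.pm, lab]; omega)

/-- Information from rotation. -/
theorem up {o : Ob} (h : o.Alg) {a b k J : ℕ} {ε : ℝ} (e1 : a ≤ b)
    (e2 : k + 1 + b + J ≤ a + o.f b) (hE : pb (glue o.P o.P (o.wn a) (o.wn a))
      (fun v => ¬1 / 2 ^ k ≤ |o.x.g v.2 - o.x.g v.1|) ≤ ε) :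
    ch o.P (ln o.x b o.d J) (o.S b) ≤ o.J a b + 97 + ε * (2 * J * lg + 8) := by
  have a1 := mj2 o.P o.x.l (o.S b) (W := o.S a) (φ := o.wn a) (ln o.x b o.d J)
    ((Fn.fst _ _).pair (bx_zg.right _)) (bx_lz le_rfl le_rfl)
  have a2 := two (P := glue o.P o.P (o.wn a) (o.wn a)) (x := o.x.map Prod.fst)
    (y := o.x.map Prod.snd) (a := a) (b := b) (f := o.f b) (k := k + 1) (d := o.d) (J := J) (ε := ε)
    (fun v hv => (congrArg (·.1) ((mem_cp _ _ v).1 hv).2.2 :))
    (fun v hv => RP.rn_cell e1 (congrArg (·.2.1) ((mem_cp _ _ v).1 hv).2.2))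
    ((pb_mono fun v _ q => mt (sep (by omega)) q).trans hE) e1 e2
  have a3 := rdS h e1
  exact a1.trans ((add_le_add le_rfl a2).trans (by rw [Ob.J]; linarith))

variable {ν β κ : ℝ} {o : ℕ → Ob} {k R : ℕ → ℕ}

theorem all_self {φ : (ℕ → Ob) → Prop} (h : All o φ) : φ o := h _ _ _ (dn_rfl _)

theorem opt_top (h : XR ν β κ o k R) (hν : 0 ≤ ν) {m : ℕ → ℕ}
    (hm : ∀ᶠ n in UF, m n ≤ (o n).f (o n).j) :
    Le R (fun n => m n * lg) fun n => ch (o n).P (o n).x.l ((o n).S (o n).j) - ch (o n).P (o n).x.l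
      ((o n).x.Bx (lab (o n).j ((o n).f (o n).j) ((o n).d + m n) ((o n).d + (o n).f (o n).j))) := by
  refine Le.of2 (all_self h.opt (fun n => (o n).j) (fun _ => 2) _ (fun n => (o n).x.Bx
    (lab (o n).j ((o n).f (o n).j) ((o n).d + m n) ((o n).d + (o n).f (o n).j))) _ _
    (h.top.mono fun n a => by simp only; omega) (h.big.sub one_le_two)
    (((POA.alg h).and hm).mono fun n a => POA.lab_bx a.1.1 (by have := a.1.1.flo; omega)
      (by have := a.1.1.flo; omega))) (h.big.sm (2 * ν * lg)) ?_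
  filter_upwards [POA.alg h, hm] with n a b
  have b3 := ((o n).P.E_const _).ge.trans ((o n).P.E_mono fun ω hω =>
    POA.mt_val (t := (o n).j + ((o n).d + m n)) (D := (o n).j + ((o n).d + (o n).f (o n).j))
      (N := (o n).j + ((o n).d + (o n).f (o n).j)) hν
      (POA.rn_abs ((o n).f (o n).j) (a.1.box ω hω).2.2.2.2.2.2.1) (by omega) le_rfl)
  have b4 : 0 ≤ ν * m n * lg := by have := lg_pos; positivity
  rw [Ob.Phi, Ob.top]
  simp only [Nat.cast_add] at b3
  linarith

/-- The lateral line has at least one unit of entropy per digit. -/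
theorem jf (h : XR ν β κ o k R) (hν : 0 ≤ ν) (hp : Plx k R o) {b J : ℕ → ℕ} (hb : In k R b b)
    (hJ : ∀ᶠ n in UF, J n ≤ (o n).f (o n).j) : Le R (fun n => J n * lg) fun n =>
      ch (o n).P (ln (o n).x (b n) (o n).d (J n)) ((o n).S (b n)) := by
  rcases ev_em fun n => b n + J n ≤ (o n).j with e | e
  · refine (hp b (fun n => b n + J n) (by
      filter_upwards [hb, e, h.top] with n a1 a2 a3
      omega)).of_sub (Eventually.of_forall fun n => ?_)
    have := (mi_symm (P := (o n).P) (fun ω => (fl1 (b n + J n) ((o n).x.z ω),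
      fl1 (b n + J n + (o n).d) ((o n).x.y1 (b n + J n) ω))) (ln (o n).x (b n) (o n).d (J n))
      ((o n).S (b n))).trans_le (mi_le _ _ _)
    simp only [Nat.add_sub_cancel_left, Nat.cast_add, add_sub_cancel_left]
    exact sub_le_sub_left this _
  · refine Le.of3 (hp b (fun n => (o n).j) (by
      filter_upwards [hb, h.top] with n a1 a3
      omega)) (opt_top h hν (m := fun n => b n + J n - (o n).j) (by
        filter_upwards [hb, h.top, hJ] with n a1 a3 a4
        omega)) (h.big.sm 80) ?_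
    filter_upwards [hb, POA.alg h, e] with n a1 a2 a3
    have b1 : b n ≤ (o n).j := by omega
    have := low (P := (o n).P) (x := (o n).x) (d := (o n).d) (m := b n + J n - (o n).j) b1
      (a2.1.mono b1)
    rw [show (o n).j - b n + (b n + J n - (o n).j) = J n by omega] at this
    rw [Nat.cast_sub (by omega), Nat.cast_add]
    change _ + (ch _ _ ((o n).S (o n).j) - _) ≤ ch _ _ ((o n).S (b n)) + _ at this
    change _ ≤ _ - mi _ _ (fun ω => (_, fl1 ((o n).d + ((o n).j - b n)) ((o n).x.e1 ω)))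
      ((o n).x.Bx (lab (b n) ((o n).f (b n)) (o n).d ((o n).d + (o n).f (b n)))) + _ + _
    linarith

end L6A

open L6A in
theorem rowL6 : SL6 := by
  intro ν β κ o k R p h hp a b hab
  have n0 := p.n0
  have l0 := lg_pos
  have ha : In k R a a := hab.mono fun n u => by omega
  have hb : In k R b b := hab.mono fun n u => by omega
  refine Le.eps fun ε hε => ?_
  obtain ⟨t, t1, t2⟩ : ∃ t : ℕ → ℕ, Frac t R ∧ ∀ n, (t n : ℝ) ≤ ε * R n :=
    ⟨_, h.big.frac_floor (c := min ε 1) (by positivity) (min_le_right _ _), fun n =>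
      (Nat.floor_le (by positivity)).trans
        (mul_le_mul_of_nonneg_right (min_le_left ε 1) (Nat.cast_nonneg (R n)))⟩
  have t3 : ∀ n, (t n : ℝ) * lg ≤ ε * R n := fun n =>
    (mul_le_of_le_one_right (Nat.cast_nonneg _) lg_lt_one.le).trans (t2 n)
  rcases ev_em fun n => (o n).f (a n) + t n + 1 + b n ≤ a n + (o n).f (b n) with e | e
  · have e1 : ∀ᶠ n in UF, (o n).f (b n) ≤ (o n).f (o n).j := by
      filter_upwards [hb, POA.alg h] with n a1 a2 using a2.1.mono (by omega)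
    have w := (h.nd a t ha t1 (by
      filter_upwards [e, e1, hab] with n a1 a2 a3
      omega)).copy fun n => (o n).x.g
    have a1 := jf h n0.le hp (J := fun n => a n + (o n).f (b n) - ((o n).f (a n) + t n + 1 + b n))
      hb (by
        filter_upwards [e1, hab] with n a2 a3
        omega)
    refine Le.of2 (f₂ := fun n => ch (o n).P (ln (o n).x (b n) (o n).d
      (a n + (o n).f (b n) - ((o n).f (a n) + t n + 1 + b n))) ((o n).S (b n)) + 1)
      (g₂ := fun n => (o n).J (a n) (b n)) a1 (fun δ hδ => ?_) ?_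
    · filter_upwards [w (min (δ * ν / 16) 1) (by positivity), e, e1, hab, POA.alg h, h.rb a ha 1 one_pos,
        h.big.ev (106 / (δ / 2))] with n c1 c2 c3 c4 c5 c6 c7
      have d1 := up c5.1 (J := a n + (o n).f (b n) - ((o n).f (a n) + t n + 1 + b n)) c4.2.1
        (by omega) c1
      generalize hJ : a n + (o n).f (b n) - ((o n).f (a n) + t n + 1 + b n) = J at d1 ⊢
      have d2 : (J : ℝ) + (o n).f (a n) ≤ (o n).f (o n).j := by exact_mod_cast (by omega)
      have d3 : ((o n).j : ℝ) ≤ a n + R n := by exact_mod_cast (by omega)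
      have d4 : ν * J ≤ 4 * R n := by nlinarith
      have d5 := mul_le_mul_of_nonneg_right (min_le_left (δ * ν / 16) 1)
        (show 0 ≤ 2 * J * lg by positivity)
      have d6 : δ * (ν * J) * lg ≤ δ * (4 * R n) * 1 := by gcongr; exact lg_lt_one.le
      rw [div_le_iff₀ (by positivity)] at c7
      linarith [min_le_right (δ * ν / 16) 1]
    · filter_upwards [e] with n c2
      rw [Nat.cast_sub c2]
      push_cast
      linarith [t3 n, lg_lt_one]
  · refine (h.big.sm 41).of_sub ?_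
    filter_upwards [e, hab, POA.alg h] with n c2 c4 c5
    have d1 := ch_tri' (P := (o n).P) (o n).x.l ((o n).S (b n)) ((o n).S (a n))
    have d2 : ((o n).f (b n) : ℝ) - (o n).f (a n) - (b n - a n) ≤ t n + 1 := by
      have : (a n : ℝ) + (o n).f (b n) ≤ (o n).f (a n) + t n + 1 + b n := by
        exact_mod_cast (not_le.1 c2).le
      linarith
    have d3 := mul_le_mul_of_nonneg_right d2 l0.le
    rw [Ob.J]
    linarith [rdS c5.1 c4.2.1, t3 n, lg_lt_one]

end Pool.Agent.MP_5168f5_an.MX
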