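import Pool.Agent.MP_5168f5_an.H17F.Sq2
import Pool.Agent.MP_5168f5_an.H17F.KE

/-! The Loomis-Whitney inequality for entropies in skew coordinates. -/

namespace Pool.Agent.MP_5168f5_an.MX

open H19 H17S H17F Filter

section Fin

variable {Ω α β γ ι : Type} {P : FP Ω}

/-- The coordinates in `I`. -/
def msk [DecidableEq ι] (I : Finset ι) (u : ι → ℤ) : ι → ℤ := fun j => if j ∈ I then u j else 0

theorem msk_eq [DecidableEq ι] {I : Finset ι} {u u' : ι → ℤ} :
    msk I u = msk I u' ↔ ∀ j ∈ I, u j = u' j :=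
  ⟨fun h j hj => by simpa [msk, hj] using congrFun h j,
    fun h => funext fun j => by by_cases hj : j ∈ I <;> simp [msk, hj, h j]⟩

/-- The sum of the entropies of one coordinate given the others is at most the entropy. -/
theorem han [Fintype ι] [DecidableEq ι] (f : Ω → ι → ℤ) (G : Ω → β) :
    ∑ i, ch P (fun ω => f ω i) (fun ω => (msk {i}ᶜ (f ω), G ω)) ≤ ch P f G := by
  have key : ∀ I : Finset ι, ∑ i ∈ I, ch P (fun ω => f ω i) (fun ω => (msk {i}ᶜ (f ω), G ω)) ≤
      ch P (fun ω => msk I (f ω)) fun ω => (msk Iᶜ (f ω), G ω) := by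
    intro I
    induction I using Finset.induction_on with
    | empty => simpa using ch_nonneg _ _
    | insert i I hi ih =>
      rw [Finset.sum_insert hi]
      have c := ch_chain (P := P) (fun ω => f ω i) (fun ω => msk I (f ω))
        fun ω => (msk (insert i I)ᶜ (f ω), G ω)
      have a1 : ch P (fun ω => (f ω i, msk I (f ω))) (fun ω => (msk (insert i I)ᶜ (f ω), G ω)) ≤
          ch P (fun ω => msk (insert i I) (f ω)) fun ω => (msk (insert i I)ᶜ (f ω), G ω) :=
        ch_mono fun a _ b _ e => by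
          simp only [Prod.mk.injEq, msk_eq] at e ⊢
          exact ⟨e.1 i (by simp), fun j hj => e.1 j (by simp [hj])⟩
      have a2 : ch P (fun ω => f ω i) (fun ω => (msk {i}ᶜ (f ω), G ω)) ≤
          ch P (fun ω => f ω i) fun ω => (msk (insert i I)ᶜ (f ω), G ω) :=
        ch_anti fun a _ b _ e => by
          simp only [Prod.mk.injEq, msk_eq] at e ⊢
          exact ⟨fun j hj => e.1 j (by simp at hj ⊢; exact hj.1), e.2⟩
      have a3 : ch P (fun ω => msk I (f ω)) (fun ω => (msk Iᶜ (f ω), G ω)) ≤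
          ch P (fun ω => msk I (f ω)) fun ω => (f ω i, msk (insert i I)ᶜ (f ω), G ω) :=
        ch_anti fun a _ b _ e => by
          simp only [Prod.mk.injEq, msk_eq] at e ⊢
          exact ⟨e.1 i (by simpa using hi), fun j hj => e.1 j (by simp at hj ⊢; exact hj.2), e.2⟩
      linarith
  refine (key Finset.univ).trans (ch_le (fun a _ b _ e => ?_) (Fn.snd _ _))
  simp only [Prod.mk.injEq] at e ⊢
  rw [e.1]

theorem inv_bd [Fintype ι] [DecidableEq ι] {A : Matrix ι ι ℝ} {L : ℝ} (hL : 1 ≤ L)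
    (h : ∀ i j, |A i j| ≤ L) (hd : 1 ≤ L * |A.det|) (i j : ι) :
    |A⁻¹ i j| ≤ (Fintype.card ι).factorial * L ^ (Fintype.card ι + 1) := by
  have d0 : 0 < |A.det| := by
    by_contra hn
    have : |A.det| = 0 := le_antisymm (not_lt.1 hn) (abs_nonneg _)
    rw [this] at hd; linarith
  have a1 : |A.adjugate i j| ≤ (Fintype.card ι).factorial * L ^ Fintype.card ι := by
    rw [Matrix.adjugate_apply]
    have := Matrix.det_le (A := A.updateRow j (Pi.single i 1)) (abv := AbsoluteValue.abs) (x := L)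
      fun a b => by
        rw [Matrix.updateRow_apply]
        split_ifs
        · rw [Pi.single_apply]; split_ifs <;> simp <;> linarith
        · exact h a b
    simpa using this
  rw [Matrix.inv_def, Ring.inverse_eq_inv', Matrix.smul_apply, smul_eq_mul, abs_mul, abs_inv,
    pow_succ, ← mul_assoc, mul_comm]
  exact mul_le_mul a1 (by rw [inv_le_iff_one_le_mul₀ d0]; exact hd) (by positivity)
    (by positivity)

theorem norm_vecMul [Fintype ι] {A : Matrix ι ι ℝ} {B t : ℝ} (hB : 0 ≤ B) (h : ∀ i j, |A i j| ≤ B)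
    {x : ι → ℝ} (hx : ‖x‖ ≤ t) : ‖Matrix.vecMul x A‖ ≤ Fintype.card ι * B * t := by
  rw [← Matrix.mulVec_transpose]
  exact (norm_mulVec_le hB (fun i j => h j i) x).trans
    (mul_le_mul_of_nonneg_left hx (by positivity))

open Classical in
/-- The finite inequality. -/
theorem lw0 [Fintype ι] (x : Ω → ι → ℝ) (v : Ω → Matrix ι ι ℝ) (G : Ω → β) (l : ι → Ω → γ)
    {R : ℕ} {L B : ℝ} (hL : 1 ≤ L) (hB : (Fintype.card ι).factorial * L ^ (Fintype.card ι + 1) ≤ B)
    (hv : ∀ ω ∈ P.S, (∀ i j, |v ω i j| ≤ L) ∧ 1 ≤ L * |(v ω).det|)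
    (hG : ∀ a ∈ P.S, ∀ b ∈ P.S, G a = G b → ∀ i, ‖v a i - v b i‖ ≤ L / 2 ^ R)
    (hl : ∀ i, ∀ a ∈ P.S, ∀ b ∈ P.S, l i a = l i b → G a = G b →
      ∃ t : ℝ, |t| ≤ L ∧ ‖x a - x b - t • v a i‖ ≤ L / 2 ^ R) :
    ∑ i, ch P (fun ω => flv R (x ω)) (fun ω => (l i ω, G ω)) ≤ ch P (fun ω => flv R (x ω)) G +
      (2 * Fintype.card ι + 1) * (Fintype.card ι *
        Real.log (2 * (Fintype.card ι * B * (2 * L ^ 2)) + 3)) := by
  set k : ℝ := ((Fintype.card ι : ℕ) : ℝ) with hk
  have k0 : 0 ≤ k := Nat.cast_nonneg _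
  have LB : L ≤ B := le_trans (le_trans (le_self_pow₀ hL (by omega))
    (le_mul_of_one_le_left (by positivity) (by
      exact_mod_cast Nat.factorial_pos (Fintype.card ι)))) hB
  have B0 : 0 ≤ B := by linarith
  have p2 : (0 : ℝ) < 2 ^ R := by positivity
  have L2 : 1 ≤ L ^ 2 := one_le_pow₀ hL
  have ex : ∀ g : β, ∃ A : Matrix ι ι ℝ, ∀ a ∈ P.S, G a = g → ∃ b ∈ P.S, G b = g ∧ A = v b := by
    intro g
    by_cases h : ∃ b ∈ P.S, G b = g
    · obtain ⟨b, h1, h2⟩ := h
      exact ⟨v b, fun _ _ _ => ⟨b, h1, h2, rfl⟩⟩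
    · exact ⟨0, fun a h1 h2 => absurd ⟨a, h1, h2⟩ h⟩
  choose A hA using ex
  have A1 : ∀ a ∈ P.S, (∀ i j, |A (G a) i j| ≤ B) ∧ (∀ i j, |(A (G a))⁻¹ i j| ≤ B) ∧
      IsUnit (A (G a)).det ∧ ∀ i, ‖v a i - A (G a) i‖ ≤ L / 2 ^ R := fun a ha => by
    obtain ⟨b, h1, h2, h3⟩ := hA _ a ha rfl
    rw [h3]
    refine ⟨fun i j => ((hv b h1).1 i j).trans LB,
      fun i j => (inv_bd hL (hv b h1).1 (hv b h1).2 i j).trans hB, ?_, hG a ha b h1 h2.symm⟩
    refine isUnit_iff_ne_zero.2 fun e => ?_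
    have := (hv b h1).2
    rw [e, abs_zero] at this; linarith
  set c : Ω → ι → ℝ := fun ω => Matrix.vecMul (x ω) (A (G ω))⁻¹ with hc
  set D := k * B * (2 * L ^ 2) with hD
  have D0 : 0 ≤ D := by positivity
  have u1 : k * B * ((2 : ℝ) ^ R)⁻¹ ≤ D / 2 ^ R := by
    rw [div_eq_mul_inv]
    exact mul_le_mul_of_nonneg_right (le_mul_of_one_le_right (by positivity) (by linarith))
      (by positivity)
  have s1 : ch P (fun ω => flv R (c ω)) (fun ω => (flv R (x ω), G ω)) ≤ k * Real.log (2 * D + 3) :=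
    ch_near D0 fun a ha b _ e => by
      simp only [Prod.mk.injEq] at e
      simp only [hc, ← e.2, ← Matrix.sub_vecMul]
      exact (norm_vecMul B0 (A1 a ha).2.1 (norm_sub_lt_of_flv_eq e.1).le).trans u1
  have s2 : ch P (fun ω => flv R (x ω)) (fun ω => (flv R (c ω), G ω)) ≤ k * Real.log (2 * D + 3) :=
    ch_near D0 fun a ha b _ e => by
      simp only [Prod.mk.injEq] at e
      have : x a - x b = Matrix.vecMul (c a - c b) (A (G a)) := by
        simp only [hc, ← e.2, ← Matrix.sub_vecMul, Matrix.vecMul_vecMul,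
          Matrix.nonsing_inv_mul _ (A1 a ha).2.2.1, Matrix.vecMul_one]
      rw [this]
      exact (norm_vecMul B0 (A1 a ha).1 (norm_sub_lt_of_flv_eq e.1).le).trans u1
  have s3 : ∀ i, ch P (fun ω => msk {i}ᶜ (flv R (c ω))) (fun ω => (l i ω, G ω)) ≤
      k * Real.log (2 * D + 3) := fun i => by
    have n := ch_near (P := P) (j := R) (x := fun ω j => if j = i then 0 else c ω j)
      (G := fun ω => (l i ω, G ω)) D0 fun a ha b hb e => by
        simp only [Prod.mk.injEq] at e
        obtain ⟨t, t1, t2⟩ := hl i a ha b hb e.1 e.2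
        have t3 : ‖x a - x b - t • A (G a) i‖ ≤ 2 * L ^ 2 / 2 ^ R := by
          have : x a - x b - t • A (G a) i = x a - x b - t • v a i + t • (v a i - A (G a) i) := by
            rw [smul_sub]; abel
          rw [this]
          refine (norm_add_le _ _).trans ?_
          rw [norm_smul, Real.norm_eq_abs]
          have t4 := mul_le_mul t1 ((A1 a ha).2.2.2 i) (norm_nonneg _) (by linarith)
          have t5 : L / 2 ^ R ≤ L * (L / 2 ^ R) := le_mul_of_one_le_left (by positivity) hL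
          have t6 : L * (L / 2 ^ R) = L ^ 2 / 2 ^ R := by ring
          rw [mul_div_assoc]
          linarith
        have t7 := norm_vecMul B0 (A1 a ha).2.1 t3
        rw [← mul_div_assoc] at t7
        refine (pi_norm_le_iff_of_nonneg (by positivity)).2 fun j => ?_
        by_cases hj : j = i
        · simp only [Pi.sub_apply, hj, if_true, sub_self, norm_zero]; positivity
        refine le_trans (le_of_eq ?_) ((norm_le_pi_norm _ j).trans t7)
        have t8 : Matrix.vecMul (A (G a) i) (A (G a))⁻¹ j = 0 := by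
          have := congrFun (congrFun (Matrix.mul_nonsing_inv _ (A1 a ha).2.2.1) i) j
          rw [Matrix.one_apply_ne (Ne.symm hj)] at this
          exact this
        simp only [Pi.sub_apply, hj, if_false, hc, ← e.2, Matrix.sub_vecMul, Matrix.smul_vecMul,
          Pi.smul_apply, t8, smul_zero, sub_zero]
    refine le_trans (ch_mono fun a _ b _ e => msk_eq.2 fun j hj => ?_) n
    have := congrFun (congrArg Prod.fst e) j
    simpa [flv, show j ≠ i by simpa using hj] using this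
  have s4 : ∀ i, ch P (fun ω => flv R (x ω)) (fun ω => (l i ω, G ω)) ≤
      ch P (fun ω => flv R (c ω) i) (fun ω => (msk {i}ᶜ (flv R (c ω)), G ω)) +
        2 * (k * Real.log (2 * D + 3)) := fun i => by
    have a1 := ch_tri (P := P) (fun ω => flv R (x ω)) (fun ω => msk {i}ᶜ (flv R (c ω)))
      fun ω => (l i ω, G ω)
    have a2 := ch_tri (P := P) (fun ω => flv R (x ω)) (fun ω => flv R (c ω) i)
      fun ω => (msk {i}ᶜ (flv R (c ω)), l i ω, G ω)
    have a3 : ch P (fun ω => flv R (c ω) i) (fun ω => (msk {i}ᶜ (flv R (c ω)), l i ω, G ω)) ≤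
        ch P (fun ω => flv R (c ω) i) fun ω => (msk {i}ᶜ (flv R (c ω)), G ω) :=
      ch_anti ((Fn.fst _ _).pair ((Fn.snd _ _).right _))
    have a4 : ch P (fun ω => flv R (x ω))
        (fun ω => (flv R (c ω) i, msk {i}ᶜ (flv R (c ω)), l i ω, G ω)) ≤
        ch P (fun ω => flv R (x ω)) fun ω => (flv R (c ω), G ω) :=
      ch_anti fun a _ b _ e => by
        simp only [Prod.mk.injEq, msk_eq] at e ⊢
        refine ⟨funext fun j => ?_, e.2.2.2⟩
        by_cases hj : j = i
        · rw [hj]; exact e.1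
        · exact e.2.1 j (by simpa using hj)
    linarith [s3 i]
  have s5 := Finset.sum_le_sum fun i (_ : i ∈ Finset.univ) => s4 i
  rw [Finset.sum_add_distrib, Finset.sum_const, Finset.card_univ, nsmul_eq_mul] at s5
  have s6 := han (P := P) (fun ω => flv R (c ω)) G
  have s7 := ch_tri (P := P) (fun ω => flv R (c ω)) (fun ω => flv R (x ω)) G
  linarith

end Fin

section Seq

variable {Ω T T' : ℕ → Type} {P : ∀ n, FP (Ω n)} {G : ∀ n, Ω n → T n} {R : ℕ → ℕ} {L : ℕ → ℝ}

/-- LW.  The rows of `v` are independent directions known from `G`, and the fibres of the label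
`l i` lie in thin tubes with direction `v i`. -/
theorem lw {ι : Type} [Fintype ι] [DecidableEq ι] {x : ∀ n, Ω n → ι → ℝ}
    {v : ∀ n, Ω n → Matrix ι ι ℝ} {l : ι → ∀ n, Ω n → T' n} (hR : Big R) (hL : Sub R L)
    (hb : ∀ᶠ n in UF, (∀ ω ∈ (P n).S, ∀ i j, |v n ω i j| ≤ L n) ∧
      (∀ a ∈ (P n).S, ∀ b ∈ (P n).S, G n a = G n b →
        ‖x n a - x n b‖ ≤ L n ∧ ∀ i, ‖v n a i - v n b i‖ ≤ L n / 2 ^ R n) ∧
      ∀ i, ∀ a ∈ (P n).S, ∀ b ∈ (P n).S, l i n a = l i n b → G n a = G n b →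
        ∃ t : ℝ, |t| ≤ L n ∧ ‖x n a - x n b - t • v n a i‖ ≤ L n / 2 ^ R n)
    (hd : Whp P fun n ω => 1 ≤ L n * |(v n ω).det|) :
    Le R (fun n => ∑ i, ch (P n) (fun ω => flv (R n) (x n ω)) fun ω => (l i n ω, G n ω))
      fun n => ch (P n) (fun ω => flv (R n) (x n ω)) (G n) := by
  intro ε hε
  set k : ℝ := ((Fintype.card ι : ℕ) : ℝ) with hk
  have k0 : 0 ≤ k := Nat.cast_nonneg _
  have f1 : (1 : ℝ) ≤ (Fintype.card ι).factorial := by exact_mod_cast Nat.factorial_pos _
  have s0 : Sub R fun n => (k + 1) * ((Fintype.card ι).factorial * L n ^ (Fintype.card ι + 1)) *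
      (2 * L n ^ 2) :=
    (((hL.pow _).const_mul hR f1).const_mul hR (by linarith)).mul
      ((hL.pow 2).const_mul hR one_le_two)
  have s1 := ((s0.const_mul hR (C := 5) (by norm_num)).log.smul k0).smul
    (c := 2 * k + 1) (by positivity)
  filter_upwards [hb, hd (ε / 2 / (2 * k * k + 1)) (by positivity), hd.pos.ex,
    (s1.add ((hR.sm lg).smul k0)) (ε / 2) (half_pos hε),
    (hL.const_mul hR (C := 5) (by norm_num)).2 1 one_pos] with n h1 h2 h3 h4 h5
  set E : Ω n → Prop := fun ω => 1 ≤ L n * |(v n ω).det| with hE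
  have l1 := hL.1 n
  have f := lw0 (P := cE (P n) E) (x n) (v n) (G n) (fun i => l i n) (R := R n) l1 le_rfl
    (fun ω hω => ⟨h1.1 ω (cE_sub hω), by convert ((mem_cE h3 ω).1 hω).2⟩)
    (fun a ha b hb e => (h1.2.1 a (cE_sub ha) b (cE_sub hb) e).2)
    fun i a ha b hb => h1.2.2 i a (cE_sub ha) b (cE_sub hb)
  have g := rowKE.ge (P n) E (fun ω => flv (R n) (x n ω)) (G n)
  have p0 := pb_nonneg (P n) E
  have p1 := pb_le_one (P n) E
  have bd : ∀ i, ch (cE (P n) fun ω => ¬E ω) (fun ω => flv (R n) (x n ω))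
      (fun ω => (l i n ω, G n ω)) ≤ k * (2 * R n) := fun i => by
    refine (ch_near (L := L n * 2 ^ R n) (by positivity) fun a ha b hb e => ?_).trans
      (mul_le_mul_of_nonneg_left ?_ k0)
    · rw [mul_div_cancel_right₀ _ (by positivity)]
      exact (h1.2.1 a (cE_sub ha) b (cE_sub hb) (congrArg Prod.snd e)).1
    · rw [Real.log_le_iff_le_exp (by positivity), two_mul (R n : ℝ), Real.exp_add]
      have a2 := mul_le_mul h5 (two_pow_le_exp (R n)) (by positivity) (Real.exp_pos _).le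
      have a3 : 1 ≤ L n * 2 ^ R n := one_le_mul_of_one_le_of_one_le l1 (one_le_pow₀ one_le_two)
      rw [one_mul] at a2
      linarith
  have t := Finset.sum_le_sum fun i (_ : i ∈ Finset.univ) =>
    (rowKE.le (P n) E (fun ω => flv (R n) (x n ω)) fun ω => (l i n ω, G n ω)).trans
      (add_le_add le_rfl (mul_le_mul_of_nonneg_left (bd i) (sub_nonneg.2 p1)))
  rw [Finset.sum_add_distrib, Finset.sum_add_distrib, Finset.sum_const, Finset.sum_const,
    Finset.card_univ, nsmul_eq_mul, nsmul_eq_mul, ← Finset.mul_sum] at t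
  set Λ := (2 * k + 1) * (k * Real.log (2 * (k * ((Fintype.card ι).factorial *
    L n ^ (Fintype.card ι + 1)) * (2 * L n ^ 2)) + 3)) with hΛ
  have q0 := s0.1 n
  have q1 : k * ((Fintype.card ι).factorial * L n ^ (Fintype.card ι + 1)) * (2 * L n ^ 2) ≤
      (k + 1) * ((Fintype.card ι).factorial * L n ^ (Fintype.card ι + 1)) * (2 * L n ^ 2) := by
    gcongr; linarith
  have q2 : 0 ≤ k * ((Fintype.card ι).factorial * L n ^ (Fintype.card ι + 1)) * (2 * L n ^ 2) := by
    positivity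
  have Λ0 : 0 ≤ Λ := mul_nonneg (by positivity) (mul_nonneg k0 (Real.log_nonneg (by linarith)))
  have Λ1 : Λ ≤ (2 * k + 1) * (k * Real.log (5 * ((k + 1) * ((Fintype.card ι).factorial *
      L n ^ (Fintype.card ι + 1)) * (2 * L n ^ 2)))) :=
    mul_le_mul_of_nonneg_left (mul_le_mul_of_nonneg_left
      (Real.log_le_log (by linarith) (by linarith)) k0) (by positivity)
  have m1 := mul_le_mul_of_nonneg_left f p0
  have m2 := mul_le_mul_of_nonneg_right p1 Λ0
  have m3 := mul_nonneg (sub_nonneg.2 p1)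
    (ch_nonneg (P := cE (P n) fun ω => ¬E ω) (fun ω => flv (R n) (x n ω)) (G n))
  rw [pb_not, le_div_iff₀ (by positivity)] at h2
  have m4 := mul_le_mul_of_nonneg_right h2 (Nat.cast_nonneg (α := ℝ) (R n))
  have m5 := mul_nonneg (sub_nonneg.2 p1) (Nat.cast_nonneg (α := ℝ) (R n))
  simp only [zero_add] at h4
  nlinarith

end Seq

end Pool.Agent.MP_5168f5_an.MX
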