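import Pool.Agent.MP_5168f5_an.MX.LevDefs

/-! On the line, sets without dense segments have a covering rate. -/

namespace Pool.Agent.MP_5168f5_an.MX.Lev

open H19 H17S H17F Filter

namespace LevCA

/-- Sums of `p` points of `U` minus sums of `r` points of `U`. -/
def Sp (U : Set (V 1)) (p r : ℕ) : Set ℝ :=
  {y | ∃ (a : Fin p → V 1) (b : Fin r → V 1), (∀ i, a i ∈ U) ∧ (∀ i, b i ∈ U) ∧
    y = ∑ i, a i 0 - ∑ i, b i 0}

theorem app_mem {U : Set (V 1)} {p r : ℕ} {a : Fin p → V 1} {b : Fin r → V 1}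
    (ha : ∀ i, a i ∈ U) (hb : ∀ i, b i ∈ U) (i : Fin (p + r)) : Fin.append a b i ∈ U := by
  refine Fin.addCases (fun i => ?_) (fun i => ?_) i
  · simpa using ha i
  · simpa using hb i

/-- The levels generated by `U`. -/
def lv (U : Set (V 1)) : AB.Lv where
  S := fun q => {y | ∃ p r, p + r = q ∧ y ∈ Sp U p r}
  neg := by
    rintro q y ⟨p, r, h, a, b, ha, hb, rfl⟩
    exact ⟨r, p, by omega, b, a, hb, ha, by ring⟩
  add := by
    rintro q q' y z ⟨p, r, h, a, b, ha, hb, rfl⟩ ⟨p', r', h', a', b', ha', hb', rfl⟩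
    refine ⟨p + p', r + r', by omega, Fin.append a a', Fin.append b b', app_mem ha ha',
      app_mem hb hb', ?_⟩
    simp only [Fin.sum_univ_add, Fin.append_left, Fin.append_right]
    ring

theorem diff {U : Set (V 1)} {p r : ℕ} {y y' : ℝ} (h : y ∈ Sp U p r) (h' : y' ∈ Sp U p r) :
    H95F.Nr U (p + r) 0 (fun _ => y - y') := by
  obtain ⟨a, b, ha, hb, rfl⟩ := h
  obtain ⟨a', b', ha', hb', rfl⟩ := h'
  refine ⟨Fin.append a b', Fin.append a' b, fun i => ⟨app_mem ha hb' i, app_mem ha' hb i⟩, ?_⟩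
  rw [norm_le_zero_iff]
  funext x
  obtain rfl : x = 0 := Subsingleton.elim _ _
  simp only [Pi.sub_apply, Finset.sum_apply, Fin.sum_univ_add, Fin.append_left, Fin.append_right,
    Finset.sum_sub_distrib, Pi.zero_apply, Pi.add_apply]
  ring

theorem dn_bd (i : ℕ) (a : ℝ) :
    (AB.dn i a : ℝ) * 2 ^ i ≤ a ∧ a < (AB.dn i a : ℝ) * 2 ^ i + 2 ^ i := by
  have h : (0 : ℝ) < 2 ^ i := by positivity
  have h1 := Int.floor_le (a / 2 ^ i)
  have h2 := Int.lt_floor_add_one (a / 2 ^ i)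
  rw [le_div_iff₀ h] at h1
  rw [div_lt_iff₀ h] at h2
  exact ⟨h1, by unfold AB.dn; linarith⟩

theorem pow_eq (m : ℕ) : (2 : ℝ) ^ m = Real.exp (m * lg) := by
  rw [Real.exp_nat_mul, lg, Real.exp_log (by norm_num)]

/-- The long segment built from the cells of one piece. -/
theorem seg {U : Set (V 1)} {A : Set ℝ} {q i m s : ℕ} {k e : ℝ}
    (hA : ∀ y ∈ A, ∀ y' ∈ A, H95F.Nr U q 0 (fun _ => y - y'))
    (hL : H95F.Line U (2 ^ (i + m + s)) q (Real.exp k) e) (hc : Real.exp k ≤ 2 ^ m / 2)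
    (n0 : ℤ) (C : Finset ℤ)
    (hC : ∀ c ∈ C, (n0 ≤ c ∧ c < n0 + 2 ^ m) ∧ ∃ a ∈ A, AB.dn i a = c) :
    (C.card : ℝ) ≤ 2 ^ m * (2 ^ m / 2 : ℝ) ^ (-e) := by
  have hD : (0 : ℤ) < 2 ^ (i + s) := by positivity
  have hinj : Set.InjOn (fun x : ℤ × ℤ => (x.1 - n0) * 2 ^ (i + s) + x.2)
      (C ×ˢ Finset.Ico (0 : ℤ) (2 ^ (i + s)) : Finset (ℤ × ℤ)) := by
    rintro ⟨c, u⟩ h1 ⟨c', u'⟩ h2 h
    simp only [Finset.coe_product, Set.mem_prod, Finset.mem_coe, Finset.mem_Ico] at h1 h2 h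
    have hcc : c = c' := by
      by_contra hne
      rcases lt_or_gt_of_ne hne with hlt | hlt
      · have : c + 1 ≤ c' := hlt
        nlinarith [h1.2.1, h1.2.2, h2.2.1, h2.2.2]
      · have : c' + 1 ≤ c := hlt
        nlinarith [h1.2.1, h1.2.2, h2.2.1, h2.2.2]
    subst hcc
    have : u = u' := by linarith
    rw [this]
  have hnv : ‖(fun _ => 2 ^ (i + m) : V 1)‖ = 2 ^ (i + m) := by
    rw [pi_norm_const, Real.norm_eq_abs, abs_of_pos (by positivity)]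
  have key := hL q le_rfl (fun _ => 2 ^ (i + m)) (2 ^ (i + 1)) (2 ^ m / 2)
    ((C ×ˢ Finset.Ico (0 : ℤ) (2 ^ (i + s))).image
      fun x : ℤ × ℤ => (x.1 - n0) * 2 ^ (i + s) + x.2) (one_le_pow₀ (by norm_num)) hc
    (by rw [hnv]; exact le_of_eq (by ring))
    (by rw [hnv]; push_cast; exact pow_le_pow_right₀ (by norm_num) (by omega)) ?_ ?_
  · rw [Finset.card_image_of_injOn hinj, Finset.card_product, Int.card_Ico] at key
    have e1 : ((2 : ℤ) ^ (i + s) - 0).toNat = 2 ^ (i + s) := by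
      rw [sub_zero]; exact_mod_cast Int.toNat_natCast (2 ^ (i + s))
    rw [e1] at key
    push_cast at key
    have hp : (0 : ℝ) < 2 ^ (i + s) := by positivity
    refine le_of_mul_le_mul_right (key.trans (le_of_eq ?_)) hp
    ring
  · intro t ht
    obtain ⟨⟨c, u⟩, h1, rfl⟩ := Finset.mem_image.1 ht
    simp only [Finset.mem_product, Finset.mem_Ico] at h1
    obtain ⟨⟨h2, h3⟩, -⟩ := hC c h1.1
    have h4 : c - n0 + 1 ≤ 2 ^ m := by omega
    have e2 : ((2 ^ (i + m + s) : ℕ) : ℤ) = 2 ^ m * 2 ^ (i + s) := by push_cast; ring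
    rw [Finset.mem_Ico, e2]
    constructor
    · nlinarith [h1.2.1]
    · nlinarith [h1.2.2]
  · intro t ht t' ht'
    obtain ⟨⟨c, u⟩, h1, rfl⟩ := Finset.mem_image.1 ht
    obtain ⟨⟨c', u'⟩, h1', rfl⟩ := Finset.mem_image.1 ht'
    simp only [Finset.mem_product, Finset.mem_Ico] at h1 h1'
    obtain ⟨-, a, ha, rfl⟩ := hC c h1.1
    obtain ⟨-, a', ha', rfl⟩ := hC c' h1'.1
    refine (hA a ha a' ha').near ?_
    rw [add_zero, pi_norm_le_iff_of_nonneg (by positivity)]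
    intro x
    simp only [Pi.sub_apply, Pi.smul_apply, smul_eq_mul, Real.norm_eq_abs]
    push_cast
    have hp : (0 : ℝ) < 2 ^ (i + s) := by positivity
    have hi : (0 : ℝ) < 2 ^ i := by positivity
    have hu0 : (0 : ℝ) ≤ u := by exact_mod_cast h1.2.1
    have hu1 : (u : ℝ) < 2 ^ (i + s) := by exact_mod_cast h1.2.2
    have hu0' : (0 : ℝ) ≤ u' := by exact_mod_cast h1'.2.1
    have hu1' : (u' : ℝ) < 2 ^ (i + s) := by exact_mod_cast h1'.2.2
    have e3 : (((AB.dn i a : ℝ) - n0) * 2 ^ (i + s) + u -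
        (((AB.dn i a' : ℝ) - n0) * 2 ^ (i + s) + u')) / 2 ^ (i + m + s) * 2 ^ (i + m) =
        (AB.dn i a : ℝ) * 2 ^ i - (AB.dn i a' : ℝ) * 2 ^ i + (u - u') / 2 ^ (i + s) * 2 ^ i := by
      field_simp
      ring
    have h5 : ((u : ℝ) - u') / 2 ^ (i + s) ≤ 1 := by rw [div_le_one hp]; linarith
    have h6 : -1 ≤ ((u : ℝ) - u') / 2 ^ (i + s) := by rw [le_div_iff₀ hp]; linarith
    have h7 := mul_le_mul_of_nonneg_right h5 hi.le
    have h8 := mul_le_mul_of_nonneg_right h6 hi.le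
    obtain ⟨h9, h10⟩ := dn_bd i a
    obtain ⟨h11, h12⟩ := dn_bd i a'
    rw [e3, abs_le, pow_succ]
    constructor <;> linarith

theorem piece {U : Set (V 1)} {A : Set ℝ} {q i m s : ℕ} {k e : ℝ} (hk : 0 ≤ k) (he1 : e ≤ 1)
    (hA : ∀ y ∈ A, ∀ y' ∈ A, H95F.Nr U q 0 (fun _ => y - y'))
    (hL : H95F.Line U (2 ^ (i + m + s)) q (Real.exp k) e) (n0 : ℤ) :
    ∃ C : Finset ℤ, (C.card : ℝ) ≤ 2 * Real.exp ((1 - e) * m * lg + k) ∧
      ∀ a ∈ A, n0 ≤ AB.dn i a → AB.dn i a < n0 + 2 ^ m → AB.dn i a ∈ C := by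
  classical
  refine ⟨(Finset.Ico n0 (n0 + 2 ^ m)).filter fun c => ∃ a ∈ A, AB.dn i a = c, ?_,
    fun a ha h1 h2 => Finset.mem_filter.2 ⟨Finset.mem_Ico.2 ⟨h1, h2⟩, a, ha, rfl⟩⟩
  have hlg : 0 < lg := Real.log_pos (by norm_num)
  have h2 : (2 : ℝ) = Real.exp lg := by simpa using pow_eq 1
  by_cases hc : Real.exp k ≤ 2 ^ m / 2
  · refine (seg hA hL hc n0 _ fun c hc => ⟨Finset.mem_Ico.1 (Finset.mem_filter.1 hc).1,
      (Finset.mem_filter.1 hc).2⟩).trans ?_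
    have e1 : (2 ^ m / 2 : ℝ) = Real.exp (m * lg - lg) := by
      rw [Real.exp_sub, ← pow_eq, ← h2]
    rw [e1, ← Real.exp_mul, pow_eq]
    nth_rewrite 1 [h2]
    rw [← Real.exp_add, ← Real.exp_add, Real.exp_le_exp]
    nlinarith
  · have h3 : (((Finset.Ico n0 (n0 + 2 ^ m)).filter fun c => ∃ a ∈ A, AB.dn i a = c).card : ℝ) ≤
        2 ^ m := by
      have h4 := Finset.card_filter_le (Finset.Ico n0 (n0 + 2 ^ m))
        fun c => ∃ a ∈ A, AB.dn i a = c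
      have e1 : (n0 + 2 ^ m - n0).toNat = 2 ^ m := by
        rw [add_sub_cancel_left]; exact_mod_cast Int.toNat_natCast (2 ^ m)
      rw [Int.card_Ico, e1] at h4
      exact_mod_cast h4
    have h5 : Real.exp k ≤ Real.exp ((1 - e) * m * lg + k) := by
      rw [Real.exp_le_exp]
      have : 0 ≤ (1 - e) * m * lg := by
        have := sub_nonneg.2 he1
        positivity
      linarith
    linarith [not_le.1 hc]

end LevCA

open LevCA in
theorem linC : LinC := by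
  classical
  intro U
  refine ⟨lv U, fun u hu => ⟨1, 0, rfl, fun _ => u, Fin.elim0, fun _ => hu, fun i => i.elim0,
    by simp⟩, ?_⟩
  intro R q k e hk _ he1 hL i j hij hjR y
  obtain ⟨m, rfl⟩ := Nat.exists_eq_add_of_le hij
  obtain ⟨s, rfl⟩ := Nat.exists_eq_add_of_le hjR
  have hp : ∀ x : Fin (q + 1) × Fin 3, ∃ C : Finset ℤ,
      (C.card : ℝ) ≤ 2 * Real.exp ((1 - e) * m * lg + k) ∧ ∀ a ∈ Sp U x.1 (q - x.1),
        AB.dn i y + ((x.2 : ℕ) - 1 : ℤ) * 2 ^ m ≤ AB.dn i a →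
        AB.dn i a < AB.dn i y + ((x.2 : ℕ) - 1 : ℤ) * 2 ^ m + 2 ^ m → AB.dn i a ∈ C := by
    intro x
    refine piece hk he1 (fun a ha a' ha' => ?_) hL _
    have h := diff ha ha'
    have hx := x.1.2
    rwa [show (x.1 : ℕ) + (q - x.1) = q by omega] at h
  choose C hC1 hC2 using hp
  refine ⟨Finset.univ.biUnion C, ?_, ?_⟩
  · have h1 : ((Finset.univ.biUnion C).card : ℝ) ≤ ∑ x, ((C x).card : ℝ) := by
      exact_mod_cast Finset.card_biUnion_le
    have h2 : ∑ x, ((C x).card : ℝ) ≤ (q + 1) * 3 * (2 * Real.exp ((1 - e) * m * lg + k)) := by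
      simpa using Finset.sum_le_card_nsmul Finset.univ _ _ fun x _ => hC1 x
    have h3 : (q : ℝ) + 1 ≤ Real.exp q := Real.add_one_le_exp _
    have h4 : (5 : ℝ) + 1 ≤ Real.exp 5 := Real.add_one_le_exp _
    have e1 : Real.exp ((1 - e) * (((i + m : ℕ) : ℝ) - i) * lg + (k + q + 5)) =
        Real.exp q * Real.exp 5 * Real.exp ((1 - e) * m * lg + k) := by
      rw [← Real.exp_add, ← Real.exp_add]; congr 1; push_cast; ring
    rw [e1]
    have h5 : ((q : ℝ) + 1) * (5 + 1) ≤ Real.exp q * Real.exp 5 :=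
      mul_le_mul h3 h4 (by norm_num) (Real.exp_pos _).le
    have h6 := mul_le_mul_of_nonneg_right h5 (Real.exp_pos ((1 - e) * m * lg + k)).le
    linarith
  · rintro a ⟨p, r, hpr, ha⟩ hay
    have hi : (0 : ℝ) < 2 ^ i := by positivity
    obtain ⟨h1, h2⟩ := dn_bd i a
    obtain ⟨h3, h4⟩ := dn_bd i y
    rw [abs_le, pow_add] at hay
    have h5 : AB.dn i y - 2 ^ m < AB.dn i a + 1 := by
      have : ((AB.dn i y : ℝ) - 2 ^ m) * 2 ^ i < (AB.dn i a + 1) * 2 ^ i := by nlinarith [hay.1]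
      exact_mod_cast lt_of_mul_lt_mul_right this hi.le
    have h6 : AB.dn i a < AB.dn i y + 2 ^ m + 1 := by
      have : (AB.dn i a : ℝ) * 2 ^ i < (AB.dn i y + 2 ^ m + 1) * 2 ^ i := by nlinarith [hay.2]
      exact_mod_cast lt_of_mul_lt_mul_right this hi.le
    have h7 : (0 : ℤ) < 2 ^ m := by positivity
    have ha' : a ∈ Sp U ((⟨p, by omega⟩ : Fin (q + 1)) : ℕ) (q - (⟨p, by omega⟩ : Fin (q + 1))) := by
      have : q - p = r := by omega
      simpa only [this] using ha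
    rw [Finset.mem_biUnion]
    by_cases c1 : AB.dn i a < AB.dn i y
    · exact ⟨(⟨p, by omega⟩, 0), Finset.mem_univ _, hC2 _ a ha' (by simp; omega) (by simp; omega)⟩
    by_cases c2 : AB.dn i a < AB.dn i y + 2 ^ m
    · exact ⟨(⟨p, by omega⟩, 1), Finset.mem_univ _, hC2 _ a ha' (by simp; omega) (by simp; omega)⟩
    · exact ⟨(⟨p, by omega⟩, 2), Finset.mem_univ _, hC2 _ a ha' (by simp; omega) (by simp; omega)⟩

end Pool.Agent.MP_5168f5_an.MX.Lev
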