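import Pool.Agent.MP_5168f5_an.R4.NCx3
import Pool.Agent.MP_5168f5_an.MX.ABW
import Pool.Agent.MP_5168f5_an.MX.FroK

/-! Levels attached to a noise that does not increase the entropy: statements. -/

namespace Pool.Agent.MP_5168f5_an.MX.Lev

open H19 H17S H17F Filter

/-- With high probability the levels of `U` contain no dense part of a long segment. -/
def Lin {N : ℕ} {Ω W : ℕ → Type} (P : ∀ n, FP (Ω n)) (v : ∀ n, Ω n → W n)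
    (U : ∀ n, W n → Finset (Z N)) (R : ℕ → ℕ) (ε₀ : ℝ) : Prop :=
  ∀ (q : ℕ) (e κ : ℝ), 0 ≤ e → e < ε₀ → 0 < κ → Whp P fun n ω =>
    H95F.Line (cz '' (U n (v n ω) : Set (Z N))) (2 ^ R n) q (Real.exp (κ * R n)) e

/-- Two variables with the same law. -/
def LinW : Prop := ∀ (N : ℕ) (ε₀ C : ℝ) (Ω₀ Ω T : ℕ → Type) (P₀ : ∀ n, FP (Ω₀ n))
  (Θ₀ : ∀ n, Ω₀ n → T n) (A₀ : ∀ n, Ω₀ n → Z N) (P : ∀ n, FP (Ω n)) (Θ : ∀ n, Ω n → T n)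
  (A A' : ∀ n, Ω n → Z N) (R : ℕ → ℕ), ε₀ ≤ 1 → Big R → NGA P₀ Θ₀ A₀ R ε₀ →
  (∀ n, Law (P n) (fun ω => (Θ n ω, A n ω)) (P₀ n) (fun ω => (Θ₀ n ω, A₀ n ω)) ∧
    Law (P n) (fun ω => (Θ n ω, A' n ω)) (P₀ n) fun ω => (Θ₀ n ω, A₀ n ω)) →
  (∀ᶠ n in UF, ch (P₀ n) (A₀ n) (Θ₀ n) ≤ C * R n) →
  Sm R (fun n => mi (P n) (A n) (fun ω => A' n ω - A n ω) (Θ n)) →
  ∃ U : ∀ n, T n × Z N → Finset (Z N),
    Whp P (fun n ω => A n ω - A' n ω ∈ U n (Θ n ω, A n ω)) ∧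
      Lin P (fun n ω => (Θ n ω, A n ω)) U R ε₀

/-- Two variables on one space, the second with no more entropy than the first. -/
def LinS : Prop := ∀ (N : ℕ) (ε₀ C : ℝ) (Ω T : ℕ → Type) (P : ∀ n, FP (Ω n))
  (Θ : ∀ n, Ω n → T n) (A A' : ∀ n, Ω n → Z N) (R : ℕ → ℕ), ε₀ ≤ 1 → Big R → NGA P Θ A R ε₀ →
  (∀ᶠ n in UF, Det (P n) (A n) (Θ n) (Real.exp (C * R n)) ∧
    Det (P n) (A' n) (Θ n) (Real.exp (C * R n))) →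
  Le R (fun n => ch (P n) (A' n) (Θ n)) (fun n => ch (P n) (A n) (Θ n)) →
  Sm R (fun n => mi (P n) (A n) (fun ω => A' n ω - A n ω) (Θ n)) →
  ∃ U : ∀ n, T n × Z N → Finset (Z N),
    Whp P (fun n ω => A n ω - A' n ω ∈ U n (Θ n ω, A n ω)) ∧
      Lin P (fun n ω => (Θ n ω, A n ω)) U R ε₀

/-- On the line, sets without dense segments have a covering rate. -/
def LinC : Prop := ∀ U : Set (V 1), ∃ L : AB.Lv, (∀ u ∈ U, u 0 ∈ L.S 1) ∧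
  ∀ (R q : ℕ) (k e : ℝ), 0 ≤ k → 0 ≤ e → e ≤ 1 → H95F.Line U (2 ^ R) q (Real.exp k) e →
    AB.Cov (L.S q) (1 - e) R (k + q + 5)

/-- The noise step when the two scalar parts have rates larger than the rate `x` of `u`. -/
def NCF : Prop := ∀ x α β : ℝ, 0 ≤ x → x < 1 → x < α → x < β → ∃ c : ℝ, 0 < c ∧
  ∀ (Ω T D W : ℕ → Type) (P : ∀ n, FP (Ω n)) (Θ : ∀ n, Ω n → T n)
  (u u' g p ζ r : ∀ n, Ω n → ℝ) (d : ∀ n, Ω n → D n) (w : ∀ n, Ω n → W n) (R : ℕ → ℕ)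
  (L : ℕ → ℝ), Big R → Sub R L → R4.NCx.NGR P Θ (fun n ω (_ : Fin 1) => u n ω) R (1 - x) →
  (∀ᶠ n in UF, Fn (P n) (fun ω => (ζ n ω, g n ω)) (fun ω => (d n ω, Θ n ω)) ∧
    Fn (P n) (fun ω => (r n ω, p n ω)) (fun ω => (w n ω, Θ n ω)) ∧
    (∀ ω ∈ (P n).S, |ζ n ω| ≤ L n ∧ |r n ω| ≤ L n) ∧
    ∀ a ∈ (P n).S, ∀ b ∈ (P n).S, Θ n a = Θ n b →
      |u n a - u n b| ≤ L n ∧ |u' n a - u' n b| ≤ L n) →
  Whp P (fun n ω => |g n ω| ≤ L n ∧ |p n ω| ≤ L n ∧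
    |u n ω - u' n ω - (ζ n ω * p n ω + r n ω * g n ω)| ≤ L n / 2 ^ R n) →
  Le R (fun n => ch (P n) (fun ω => fl1 (R n) (u' n ω)) (Θ n))
    (fun n => ch (P n) (fun ω => fl1 (R n) (u n ω)) (Θ n)) →
  Sm R (fun n => mi (P n) (fun ω => fl1 (R n) (u n ω)) (fun ω => (d n ω, w n ω)) (Θ n)) →
  Sm R (fun n => mi (P n) (d n) (w n) (Θ n)) → Fro P Θ ζ R α → Fro P Θ r R β →
  Whp P fun n ω => |u n ω - u' n ω| ≤ Real.exp (-(c * R n))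

end Pool.Agent.MP_5168f5_an.MX.Lev
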