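import Pool.Agent.MP_5168f5_an.MX.LevDefs

/-! Levels attached to a noise: a random reflection replaces the equality of laws. -/

namespace Pool.Agent.MP_5168f5_an.MX.Lev

open H19 H17S H17F Filter R4.NCx

namespace LevSA

/-- An event of the space with a coin, read on the side `true`. -/
theorem side {Ω : ℕ → Type} {P : ∀ n, FP (Ω n)} {E : ∀ n, Ω n × Bool → Prop}
    (h : Whp (fun n => prod (P n) coin) E) : Whp P fun n ω => E n (ω, true) := fun ε hε => by
  filter_upwards [h (ε / 2) (half_pos hε)] with n a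
  rw [pb, E_coin] at a
  have b : 0 ≤ pb (P n) fun ω => ¬E n (ω, false) := pb_nonneg _ _
  unfold pb at b ⊢
  linarith

end LevSA

open LevSA in
theorem linS : LinW → LinS := by
  intro H N ε₀ C Ω T P Θ A A' R h1 hR hN hb i0 i1
  let X : Bool → ∀ n, Ω n → Z N := fun t n ω => bif t then A n ω else A' n ω
  have j0 : Sm R fun n => mi (P n) (A' n) (fun ω => A' n ω - A n ω) (Θ n) := by
    refine Le.of2 i0 i1 (Eventually.of_forall fun n => ?_)
    have a1 : ch (P n) (A n) (fun ω => (A' n ω - A n ω, Θ n ω)) ≤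
        ch (P n) (A' n) fun ω => (A' n ω - A n ω, Θ n ω) := ch_mono fun a _ b _ e => by
      simp only [Prod.mk.injEq] at e
      have := e.2.1
      rw [e.1] at this
      exact sub_right_injective this
    unfold mi
    linarith
  have j2 : ∀ t, Sm R fun n => mi (P n) (X t n) (fun ω => X (!t) n ω - X t n ω) (Θ n) := by
    rintro (_ | _)
    · exact j0.mono (Eventually.of_forall fun n => mi_mono fun a _ b _ e =>
        neg_injective (by simpa [X] using (Prod.mk.inj e).1))
    · exact i1
  have hD : ∀ᶠ n in UF, Det (prod (P n) coin) (fun v => X v.2 n v.1) (fun v => Θ n v.1)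
      (Real.exp ((C + 1) * R n)) := by
    filter_upwards [hb, hR.ev 1] with n k1 k2
    refine det_mono _ (det_mix _ (X := fun t => X t n) (B := Real.exp (C * R n))
      (Bool.rec k1.2 k1.1)) ?_
    rw [add_mul, Real.exp_add, mul_comm]
    exact mul_le_mul_of_nonneg_left (by linarith [Real.add_one_le_exp (1 * (R n : ℝ))])
      (Real.exp_pos _).le
  have hN' : ∀ t, NGA P Θ (X t) R ε₀ := Bool.rec (nga_shift hR hN j0) hN
  obtain ⟨U, u1, u2⟩ := H N ε₀ (C + 1) _ _ T _ _ _ (fun n => prod (P n) coin) (fun n v => Θ n v.1)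
    (fun n v => X v.2 n v.1) (fun n v => X (!v.2) n v.1) R h1 hR (nga_mix hR h1 hN' hD)
    (fun n => ⟨Law.rfl _, fun F => by rw [E_coin, E_coin, add_comm]; rfl⟩)
    (hD.mono fun n k => (ch_det k).trans (Real.log_exp _).le)
    (Le.of3 ((j2 true).smul one_half_pos.le) ((j2 false).smul one_half_pos.le) (hR.sm lg)
      (Eventually.of_forall fun n => by
        linarith [mi_coin (P n) (fun t => X t n) (fun t ω => X (!t) n ω - X t n ω) fun _ => Θ n]))
  exact ⟨U, side u1, fun q e κ a b c => side (u2 q e κ a b c)⟩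

end Pool.Agent.MP_5168f5_an.MX.Lev
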