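import Pool.Agent.MP_5168f5_an.MX.LevDefs

/-! Levels of a noise between two variables with the same law. -/

namespace Pool.Agent.MP_5168f5_an.MX.Lev

open H19 H17S H17F Filter

namespace LevWA

open H29N (Bad Tr bad_bound arith noise line_win pb_union)

variable {N : ℕ}

theorem no_bad (hK : KE) {Ω₀ T Ω' : ℕ → Type} {P₀ : ∀ n, FP (Ω₀ n)} {Θ : ∀ n, Ω₀ n → T n}
    {A : ∀ n, Ω₀ n → Z N} {R : ℕ → ℕ} {e γ κ p₁ a : ℝ} {η : ℕ → ℝ} {q G : ℕ}
    {U : ∀ n, T n × Z N → Finset (Z N)} {Q : ∀ n, FP (Ω' n)} {ρ : ∀ n, Ω' n → Ω₀ n}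
    {ω : ∀ n, Ω' n → Z N} (hR : Big R) (hN : NGA P₀ Θ A R (e + γ)) (he : 0 < γ) (he' : γ ≤ 1)
    (hκ : 0 < κ) (hp : 0 < p₁) (hG0 : 0 < G) (hG : 12 ≤ γ * κ * G)
    (hq : 4 * q * a ≤ p₁ * γ * κ / 4) (hη : Sm R η) (hl : ∀ n, H17F.Law (Q n) (ρ n) (P₀ n) id)
    (h : ∀ᶠ n in UF, H17F.Law (Q n) (fun x => (Θ n (ρ n x), ω n x)) (P₀ n) (fun x => (Θ n x, A n x)) ∧
      ch (Q n) (ω n) (fun x => Θ n (ρ n x)) ≤ ch (Q n) (ω n) (ρ n) + η n ∧
      Tr (P₀ n) (Θ n) (A n) (U n) (Q n) (ρ n) (ω n) (a * R n) (η n))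
    (β lam : ℕ → ℕ) (hb : ∀ n, β n ≤ lam n ∧ lam n ≤ R n) (i : Fin N) :
    ∀ᶠ n in UF, pb (P₀ n) (fun x =>
      Bad (U n (Θ n x, A n x)) q (R n) (β n) (lam n) (R n / G + 1) i e (κ * R n)) ≤ p₁ := by
  classical
  by_contra hc
  rw [not_ev] at hc
  have hb' : ∀ n, ∃ b : T n × Z N → V N, (∀ v, b v i = 1 ∧ ‖b v‖ ≤ 1) ∧
      ((H17F.Law (Q n) (fun x => (Θ n (ρ n x), ω n x)) (P₀ n) (fun x => (Θ n x, A n x)) ∧
        Tr (P₀ n) (Θ n) (A n) (U n) (Q n) (ρ n) (ω n) (a * R n) (η n)) →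
      pb (Q n) (fun x => Bad (U n (Θ n (ρ n x), ω n x)) q (R n) (β n) (lam n) (R n / G + 1) i e
          (κ * R n)) * ((1 - e) * (lam n - β n) * lg - (2 * (R n / G + 1 : ℕ) + 1) * lg) ≤
      pb (Q n) (fun x => Bad (U n (Θ n (ρ n x), ω n x)) q (R n) (β n) (lam n) (R n / G + 1) i e
          (κ * R n)) *
        ch (cE (Q n) fun x => Bad (U n (Θ n (ρ n x), ω n x)) q (R n) (β n) (lam n)
          (R n / G + 1) i e (κ * R n)) (fun x => co (R n) (lam n) (A n (ρ n x)))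
          (fun x => (cq (R n) (lam n) i (b (Θ n (ρ n x), ω n x)) (A n (ρ n x)),
            co (R n) (β n) (A n (ρ n x)), ω n x, Θ n (ρ n x))) +
        4 * q * (a * R n) + η n + 10 * (N * 5)) := by
    intro n
    by_cases hn : H17F.Law (Q n) (fun x => (Θ n (ρ n x), ω n x)) (P₀ n) (fun x => (Θ n x, A n x)) ∧
        Tr (P₀ n) (Θ n) (A n) (U n) (Q n) (ρ n) (ω n) (a * R n) (η n)
    · obtain ⟨b, h1, h2⟩ := bad_bound hK hn.2 hn.1 q (R n) (β n) (lam n) (R n / G + 1) i e (κ * R n)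
      exact ⟨b, h1, fun _ => h2⟩
    · exact ⟨fun _ => Pi.single i 1, fun _ => ⟨by simp, by simp [Pi.norm_single]⟩,
        fun h => absurd h hn⟩
  choose b hb1 hb2 using hb'
  have hpos : ∀ᶠ n in UF, p₁ ≤ pb (Q n) fun x => Bad (U n (Θ n (ρ n x), ω n x)) q (R n) (β n)
      (lam n) (R n / G + 1) i e (κ * R n) := by
    filter_upwards [hc, h] with n h1 h2
    exact (not_le.1 h1).le.trans (le_of_eq (h2.1 fun v =>
      if Bad (U n v) q (R n) (β n) (lam n) (R n / G + 1) i e (κ * R n) then 1 else 0).symm)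
  have k := hN Ω' (fun _ => Z N) Q ρ ω β lam i (fun n x => b n (Θ n (ρ n x), ω n x))
    (fun n x => Bad (U n (Θ n (ρ n x), ω n x)) q (R n) (β n) (lam n) (R n / G + 1) i e (κ * R n))
    hl hb (hη.mono (h.mono fun n hn => by
      have : ch (Q n) (ω n) (ρ n) ≤ ch (Q n) (ω n) fun v => (ρ n v, Θ n (ρ n v)) :=
        ch_anti ((Fn.rfl _).pair (Fn.comp _ _))
      unfold mi
      linarith [hn.2.1]))
    (Eventually.of_forall fun n => ⟨fun x _ y _ e' => by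
        simp only [Prod.mk.injEq] at e' ⊢
        rw [e'.1, e'.2], fun x _ y _ e' => by
        simp only [Prod.mk.injEq] at e' ⊢
        rw [e'.1, e'.2], fun x _ => hb1 n _⟩) ⟨p₁, hp, hpos⟩
  have hG0' : (0 : ℝ) < G := by exact_mod_cast hG0
  obtain ⟨n, k1, k2, k3, k4, k5, k6⟩ := ((k (γ * κ / 4) (by positivity)).and (hpos.and (h.and
    ((hη (p₁ * γ * κ / 16) (by positivity)).and ((hR.ev (8 / (γ * κ))).and
      (hR.sm (4 * p₁ + 50 * N + 1) (p₁ * γ * κ / 8) (by positivity))))))).exists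
  obtain ⟨x, -, hx⟩ := ex_of_pb (hp.trans_le k2)
  have k7 := hb2 n ⟨k3.1, k3.2.2⟩
  rw [div_le_iff₀ (by positivity)] at k5
  refine arith (D := (lam n - β n) * lg) (m := (R n / G + 1 : ℕ)) (R := R n) (N := N) hp k2 he he'
    hκ (Nat.cast_nonneg _) (Nat.cast_nonneg _) ?_ hG0' hG hx.1 (le_of_le_of_eq (add_le_add k1
      (le_refl ((e - γ) * ((lam n - β n) * lg)))) (by ring)) hq
    (by simpa using k4) (by linarith) (by linarith) (by linarith)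
  push_cast
  exact add_le_add Nat.cast_div_le le_rfl

theorem fixed {Ω₀ Ω T : ℕ → Type} {P₀ : ∀ n, FP (Ω₀ n)} {Θ₀ : ∀ n, Ω₀ n → T n}
    {A₀ : ∀ n, Ω₀ n → Z N} {P : ∀ n, FP (Ω n)} {Θ : ∀ n, Ω n → T n} {A A' : ∀ n, Ω n → Z N}
    {R : ℕ → ℕ} {e γ C : ℝ} (hR : Big R) (hN : NGA P₀ Θ₀ A₀ R (e + γ))
    (hlaw : ∀ n, Law (P n) (fun ω => (Θ n ω, A n ω)) (P₀ n) (fun ω => (Θ₀ n ω, A₀ n ω)) ∧
      Law (P n) (fun ω => (Θ n ω, A' n ω)) (P₀ n) fun ω => (Θ₀ n ω, A₀ n ω))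
    (hb : ∀ᶠ n in UF, ch (P₀ n) (A₀ n) (Θ₀ n) ≤ C * R n)
    (i1 : Sm R fun n => mi (P n) (A n) (fun ω => A' n ω - A n ω) (Θ n)) (q : ℕ) (h0 : 0 < γ)
    (h1 : γ ≤ 1) (he : e ≤ 1) : ∃ U : ∀ n, T n × Z N → Finset (Z N), ∀ᶠ n in UF,
      pb (P n) (fun ω => ¬A n ω - A' n ω ∈ U n (Θ n ω, A n ω)) ≤ γ ∧ (0 ≤ e → pb (P n) (fun ω =>
        ¬H95F.Line (cz '' (U n (Θ n ω, A n ω) : Set (Z N))) (2 ^ R n) q (Real.exp (γ * R n)) e) ≤
          γ) := by
  classical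
  obtain ⟨G, hG⟩ := exists_nat_gt (12 / (γ * γ))
  have hG0 : 0 < G := by
    exact_mod_cast lt_trans (show (0 : ℝ) < 12 / (γ * γ) by positivity) hG
  rw [div_lt_iff₀ (by positivity)] at hG
  set k : ℝ := ((Fintype.card (Fin N × Fin (G + 1) × Fin (G + 1)) : ℕ) : ℝ) with hk
  have hk0 : 0 ≤ k := Nat.cast_nonneg _
  set p₁ := γ / (k + 1) with hp₁
  have hp : 0 < p₁ := by positivity
  set a := p₁ * γ * γ / 16 / (q + 1) with ha
  have ha0 : 0 < a := by positivity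
  set t := a * γ / 4 with ht
  have ht0 : 0 < t := by positivity
  obtain ⟨J, hJ⟩ := exists_nat_gt (C / t)
  rw [div_lt_iff₀ ht0] at hJ
  set η : ℕ → ℝ := fun n => mi (P n) (A n) (fun ω => A' n ω - A n ω) (Θ n) with hη
  have ex : ∀ n, ∃ (U : T n × Z N → Finset (Z N)) (Ω' : Type) (Q : FP Ω') (ρ : Ω' → Ω₀ n)
      (ω : Ω' → Z N), Law Q ρ (P₀ n) id ∧
      (ch (P₀ n) (A₀ n) (Θ₀ n) < J * (t * R n) ∧ 0 < a * R n →
        (Law Q (fun x => (Θ₀ n (ρ x), ω x)) (P₀ n) (fun x => (Θ₀ n x, A₀ n x)) ∧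
        ch Q ω (fun x => Θ₀ n (ρ x)) ≤ ch Q ω ρ + 2 ^ J * η n ∧
        Tr (P₀ n) (Θ₀ n) (A₀ n) U Q ρ ω (a * R n) (2 ^ J * η n)) ∧
        (P n).E (fun x => if A n x - A' n x ∈ U (Θ n x, A n x) then 0 else 1) ≤
          (2 * (t * R n) + 3 * (2 ^ J * η n) + η n) / (a * R n)) := by
    intro n
    by_cases hn : ch (P₀ n) (A₀ n) (Θ₀ n) < J * (t * R n) ∧ 0 < a * R n
    · obtain ⟨U, Ω', Q, ρ, ω, -, k1, k2, k3, k4, k5⟩ := noise (P₀ n) (Θ₀ n) (A₀ n) (P n) (Θ n)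
        (A n) (A' n) (hlaw n).1 (hlaw n).2 (η := η n) (by
          have s1 := ch_symm (P := P n) (A n) (fun ω => A' n ω - A n ω) (Θ n)
          have s2 : ch (P n) (fun ω => A' n ω - A n ω) (fun ω => (A n ω, Θ n ω)) ≤
              ch (P n) (fun ω => A' n ω - A n ω) fun ω => (Θ n ω, A n ω) :=
            ch_anti ((Fn.snd _ _).pair (Fn.fst _ _))
          simp only [hη, mi]
          linarith) hn.1 hn.2
      exact ⟨U, Ω', Q, ρ, ω, k1, fun _ => ⟨⟨k2, k3, k5⟩, k4⟩⟩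
    · exact ⟨fun _ => ∅, _, P₀ n, id, fun _ => 0, fun _ => rfl, fun h => absurd h hn⟩
  choose U Ω' Q ρ ω hl hx using ex
  have good : ∀ᶠ n in UF, ch (P₀ n) (A₀ n) (Θ₀ n) < J * (t * R n) ∧ 0 < a * R n := by
    filter_upwards [hb, hR.ev 1] with n k1 k2
    exact ⟨by nlinarith, by positivity⟩
  have hq : 4 * q * a ≤ p₁ * γ * γ / 4 := by
    have : a * (q + 1) = p₁ * γ * γ / 16 := div_mul_cancel₀ _ (by positivity)
    linarith
  have bad := eventually_all.2 fun j : Fin N × Fin (G + 1) × Fin (G + 1) =>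
    no_bad rowKE (U := U) (q := q) hR hN h0 h1 h0 hp hG0 (by linarith) hq
      (i1.smul (c := 2 ^ J) (by positivity)) hl (good.mono fun n h => (hx n h).1)
      (fun n => min ((R n / G + 1) * j.2.1) (min ((R n / G + 1) * j.2.2) (R n)))
      (fun n => min ((R n / G + 1) * j.2.2) (R n))
      (fun n => ⟨min_le_right _ _, min_le_right _ _⟩) j.1
  refine ⟨U, ?_⟩
  filter_upwards [bad, good, ((i1.smul (c := 3 * 2 ^ J) (by positivity)).add i1) (2 * t)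
    (by positivity)] with n b1 b2 b9
  refine ⟨le_trans (le_of_eq ?_) ((hx n b2).2.trans ?_), fun he0 => ?_⟩
  · refine congrArg (P n).E (funext fun x => ?_)
    by_cases c : A n x - A' n x ∈ U n (Θ n x, A n x) <;> simp [c]
  · rw [div_le_iff₀ b2.2]
    have : γ * (a * R n) = 4 * t * R n := by rw [ht]; ring
    simp only [zero_add] at b9
    linarith
  · refine le_trans (pb_union (P n) (fun j : Fin N × Fin (G + 1) × Fin (G + 1) => fun x =>
      Bad (U n (Θ n x, A n x)) q (R n)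
        (min ((R n / G + 1) * j.2.1) (min ((R n / G + 1) * j.2.2) (R n)))
        (min ((R n / G + 1) * j.2.2) (R n)) (R n / G + 1) j.1 e (γ * R n)) (p := p₁)
      (fun x h => line_win (Nat.succ_pos _) ?_ he0 he (by positivity) h)
      fun j => le_trans (le_of_eq ?_) (b1 j)) ?_
    · rw [mul_comm]; exact (Nat.lt_mul_div_succ _ hG0).le
    · exact (hlaw n).1.pb_eq fun v => Bad (U n v) q (R n)
        (min ((R n / G + 1) * j.2.1) (min ((R n / G + 1) * j.2.2) (R n)))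
        (min ((R n / G + 1) * j.2.2) (R n)) (R n / G + 1) j.1 e (γ * R n)
    · have : p₁ * (k + 1) = γ := div_mul_cancel₀ _ (by positivity)
      rw [← hk]
      linarith

end LevWA

open LevWA

theorem linW : LinW := by
  intro N ε₀ C Ω₀ Ω T P₀ Θ₀ A₀ P Θ A A' R h1 hR hN hlaw hb i1
  have g0 : ∀ k : ℕ, (0 : ℝ) < 1 / (k + 1) := fun k => by positivity
  choose U hU using fun k : ℕ => fixed (e := ε₀ - 1 / (k + 1)) (γ := 1 / (k + 1)) hR
    (by rwa [sub_add_cancel]) hlaw hb i1 k (g0 k)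
    ((div_le_one (by positivity)).2 (by simp)) (by linarith [g0 k])
  obtain ⟨k, hk, h⟩ := KSA.spill _ hU
  have sm : ∀ {ε : ℝ}, 0 < ε → ∀ᶠ n in UF, 1 / ((k n : ℝ) + 1) ≤ ε := fun hε =>
    (hk.ev _).mono fun n a => (one_div_le (by positivity) hε).2 (le_add_of_le_of_nonneg a zero_le_one)
  refine ⟨fun n => U (k n) n, fun ε hε => ?_, fun q e κ e0 e1 hκ ε hε => ?_⟩
  · filter_upwards [h, sm hε] with n a b using (a _ le_rfl).1.trans b
  · filter_upwards [h, sm hε, sm hκ, sm (sub_pos.2 e1),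
      hk.ev q] with n a b1 b2 b3 b4
    refine (pb_mono fun ω _ c c' => c ?_).trans (((a _ le_rfl).2 (by linarith)).trans b1)
    refine fun q' hq v μ L S c1 c2 c3 c4 c5 c6 => (c'.mono (by exact_mod_cast b4)
      (Real.exp_le_exp.2 (mul_le_mul_of_nonneg_right b2 (Nat.cast_nonneg _)))
      q' hq v μ L S c1 c2 c3 c4 c5 c6).trans (mul_le_mul_of_nonneg_left
        (Real.rpow_le_rpow_of_exponent_le ((Real.one_le_exp (by positivity)).trans c2)
          (by linarith)) (Nat.cast_nonneg _))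

end Pool.Agent.MP_5168f5_an.MX.Lev
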