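import Pool.Agent.MP_5168f5_an.MX.RedDisc
import Pool.Agent.MP_5168f5_an.H42.Max

/-! From the discretised theorem to the maximal estimate. -/

namespace Pool.Agent.MP_5168f5_an.MX

open H19 H17S Finset

variable {N : ℕ}

/-- The class of a line: integer parts of the slope and of the rescaled starting point. -/
noncomputable def cls (M : ℕ) (g : Line N) : Z N × Z N :=
  (fun j => ⌊g.2 j⌋, fun j => ⌊g.1 j / 2 ^ M⌋)

/-- The line moved to the unit box. -/
noncomputable def nrm (M : ℕ) (g : Line N) : V N × V N :=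
  (fun j => Int.fract (g.1 j / 2 ^ M), fun j => Int.fract (g.2 j))

/-- The cell moved along with the class `k`. -/
def shf (M : ℕ) (k : Z N × Z N) (z : Pt N) : Z N := fun j => z.1 j - z.2 * k.1 j - 2 ^ M * k.2 j

theorem nrm_pt (M t : ℕ) (g : Line N) (j : Fin N) :
    (2 : ℝ) ^ M * ((nrm M g).1 + (((2 : ℝ) ^ M)⁻¹ * t) • (nrm M g).2) j
      = 2 ^ M * Int.fract (g.1 j / 2 ^ M) + t * Int.fract (g.2 j) := by
  simp only [nrm, Pi.add_apply, Pi.smul_apply, smul_eq_mul]
  field_simp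

theorem fl_nrm (M t : ℕ) (g : Line N) :
    fl M ((nrm M g).1 + (((2 : ℝ) ^ M)⁻¹ * t) • (nrm M g).2) = shf M (cls M g) (cell g t, t) := by
  funext j
  rw [fl, nrm_pt]
  have e : (2 : ℝ) ^ M * Int.fract (g.1 j / 2 ^ M) + t * Int.fract (g.2 j)
      = g.1 j + t * g.2 j - ((t * ⌊g.2 j⌋ + 2 ^ M * ⌊g.1 j / 2 ^ M⌋ : ℤ) : ℝ) := by
    simp only [Int.fract]
    push_cast
    field_simp
    ring
  rw [e, Int.floor_sub_intCast]
  simp only [shf, cls, cell]
  ring

theorem shf_box {M t : ℕ} (ht : t < 2 ^ M) (g : Line N) (j : Fin N) :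
    0 ≤ shf M (cls M g) (cell g t, t) j ∧ shf M (cls M g) (cell g t, t) j < 2 * 2 ^ M := by
  rw [← fl_nrm, fl, nrm_pt, Int.floor_nonneg, Int.floor_lt]
  have h1 : (t : ℝ) ≤ 2 ^ M := by exact_mod_cast ht.le
  have h2 := Int.fract_nonneg (g.1 j / 2 ^ M)
  have h3 := Int.fract_lt_one (g.1 j / 2 ^ M)
  have h4 := Int.fract_nonneg (g.2 j)
  have h5 := mul_le_mul h1 (Int.fract_lt_one (g.2 j)).le h4 (by positivity)
  have h6 := mul_lt_mul_of_pos_left h3 (show (0 : ℝ) < 2 ^ M by positivity)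
  refine ⟨by positivity, ?_⟩
  push_cast
  linarith

theorem cls_count (M : ℕ) (K : Finset (Z N × Z N)) (hK : ∀ k ∈ K, ∀ j, -1 ≤ k.1 j ∧ k.1 j ≤ 1)
    (z : Pt N) :
    (K.filter fun k => ∀ j, 0 ≤ shf M k z j ∧ shf M k z j < 2 * 2 ^ M).card ≤ 6 ^ N := by
  refine (card_le_card_of_injOn (t := (Fintype.piFinset fun _ : Fin N => Icc (-1 : ℤ) 1) ×ˢ
    Fintype.piFinset fun _ : Fin N => Icc (0 : ℤ) 1) (fun k => (k.1, fun j => shf M k z j / 2 ^ M))
    (fun k hk => ?_) fun k _ k' _ e => ?_).trans (le_of_eq ?_)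
  · obtain ⟨h1, h2⟩ := mem_filter.1 hk
    refine mem_coe.2 (mem_product.2 ⟨Fintype.mem_piFinset.2 fun j => mem_Icc.2 (hK k h1 j),
      Fintype.mem_piFinset.2 fun j => mem_Icc.2 ⟨Int.ediv_nonneg (h2 j).1 (by positivity), ?_⟩⟩)
    exact Int.lt_add_one_iff.1 (Int.ediv_lt_of_lt_mul (by positivity) (h2 j).2)
  · have e1 : k.1 = k'.1 := (Prod.ext_iff.1 e).1
    refine Prod.ext e1 (funext fun j => ?_)
    have e2 : shf M k z j / 2 ^ M = shf M k' z j / 2 ^ M := congrFun (Prod.ext_iff.1 e).2 j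
    have h : ∀ u b : ℤ, (u - 2 ^ M * b) / 2 ^ M = u / 2 ^ M - b := fun u b => by
      rw [sub_eq_add_neg, ← mul_neg, Int.add_mul_ediv_left _ _ (by positivity), sub_eq_add_neg]
    simp only [shf, h, e1] at e2
    linarith
  · rw [card_product, Fintype.card_piFinset, Fintype.card_piFinset]
    simp [← mul_pow]

theorem gk_of_disc (h : DiscK N) : H42.GK N 1 (N + 1) := by
  classical
  intro ε hε
  obtain ⟨M₀, h⟩ := h ε hε
  refine ⟨6 ^ N * ((2 : ℝ) ^ (M₀ + 1)) ^ (N + ε), by positivity, fun Q l G E hl hG hs => ?_⟩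
  rcases G.eq_empty_or_nonempty with rfl | ⟨g0, hg0⟩
  · simp only [card_empty, Nat.cast_zero]
    positivity
  have hQ : 0 < Q := by
    have : shade E (range Q) g0 ⊆ range Q := filter_subset _ _
    exact hl.trans_le ((hs g0 hg0).trans (by simpa using card_le_card this))
  have Q0 : (0 : ℝ) < Q := by exact_mod_cast hQ
  have l0 : (0 : ℝ) < l := by exact_mod_cast hl
  set M := M₀ + (Nat.log 2 Q + 1) with hM
  have M1 : Q ≤ 2 ^ M := (Nat.lt_pow_succ_log_self one_lt_two Q).le.trans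
    (Nat.pow_le_pow_right two_pos (by omega))
  have M2 : (2 : ℝ) ^ M ≤ 2 ^ (M₀ + 1) * Q := by
    have : 2 ^ M ≤ 2 ^ (M₀ + 1) * Q := by
      rw [show M = M₀ + 1 + Nat.log 2 Q by omega, pow_add]
      exact Nat.mul_le_mul_left _ (Nat.pow_log_le_self 2 hQ.ne')
    exact_mod_cast this
  let F : Z N × Z N → Finset (Pt N) := fun k =>
    E.filter fun z => ∀ j, 0 ≤ shf M k z j ∧ shf M k z j < 2 * 2 ^ M
  have h1 : ∀ k, ((G.filter fun g => cls M g = k).card : ℝ) * (l : ℝ) ^ (N + 1)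
      ≤ (2 : ℝ) ^ ((N + ε) * M) * (F k).card := by
    intro k
    have inj : Set.InjOn (fun g : Line N => fl M (nrm M g).2)
        ((G.filter fun g => cls M g = k : Finset (Line N)) : Set (Line N)) := by
      intro g hg g' hg' e
      obtain ⟨a1, a2⟩ := mem_filter.1 hg
      obtain ⟨b1, b2⟩ := mem_filter.1 hg'
      by_contra hne
      obtain ⟨j, hj⟩ := hG.2 g a1 g' b1 hne
      have e1 : ⌊g.2 j⌋ = ⌊g'.2 j⌋ := congrFun (congrArg Prod.fst (a2.trans b2.symm)) j
      have e2 := Int.abs_sub_lt_one_of_floor_eq_floor (congrFun e j)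
      have e3 : (2 : ℝ) ^ M * (nrm M g).2 j - 2 ^ M * (nrm M g').2 j
          = 2 ^ M * (g.2 j - g'.2 j) := by
        simp only [nrm, Int.fract, e1]
        ring
      rw [e3, abs_mul, abs_of_pos (by positivity)] at e2
      have e4 : (Q : ℝ) ≤ 2 ^ M := by exact_mod_cast M1
      linarith [mul_le_mul_of_nonneg_right e4 (abs_nonneg (g.2 j - g'.2 j))]
    have h2 := h M (by omega) l ((G.filter fun g => cls M g = k).image (nrm M))
      (fun g => (range (2 ^ M)).filter fun t => (fl M (g.1 + (((2 : ℝ) ^ M)⁻¹ * t) • g.2), t) ∈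
        (F k).image fun z => (shf M k z, z.2)) ((F k).image fun z => (shf M k z, z.2)) hl
      (fun g hg => by
        obtain ⟨g, -, rfl⟩ := mem_image.1 hg
        exact ⟨fun j => ⟨Int.fract_nonneg _, Int.fract_lt_one _⟩,
          fun j => ⟨Int.fract_nonneg _, Int.fract_lt_one _⟩⟩)
      (fun g hg g' hg' e => by
        obtain ⟨u, hu, rfl⟩ := mem_image.1 hg
        obtain ⟨u', hu', rfl⟩ := mem_image.1 hg'
        rw [inj hu hu' e])
      (fun u hu => by
        obtain ⟨g, hg, rfl⟩ := mem_image.1 hu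
        obtain ⟨a1, rfl⟩ := mem_filter.1 hg
        refine ⟨filter_subset _ _, (hs g a1).trans (card_le_card fun t ht => ?_)⟩
        obtain ⟨t1, t2⟩ := mem_filter.1 ht
        have t3 : t < 2 ^ M := (mem_range.1 t1).trans_le M1
        refine mem_filter.2 ⟨mem_range.2 t3, mem_image.2 ⟨(cell g t, t),
          mem_filter.2 ⟨t2, shf_box t3 g⟩, ?_⟩⟩
        rw [fl_nrm])
      fun g _ t ht => (mem_filter.1 ht).2
    rw [card_image_of_injOn fun g hg g' hg' e => inj hg hg' (by simp only [e])] at h2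
    exact h2.trans (mul_le_mul_of_nonneg_left (by exact_mod_cast card_image_le) (by positivity))
  have h2 : ∑ k ∈ G.image (cls M), (F k).card ≤ 6 ^ N * E.card := by
    simp only [F, card_filter]
    rw [sum_comm, mul_comm (6 ^ N), ← smul_eq_mul E.card, ← sum_const]
    refine sum_le_sum fun z _ => ?_
    rw [← card_filter]
    refine cls_count M _ (fun k hk j => ?_) z
    obtain ⟨g, hg, rfl⟩ := mem_image.1 hk
    have := abs_le.1 (hG.1 g hg j)
    exact ⟨Int.le_floor.2 (by push_cast; exact this.1),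
      Int.floor_le_iff.2 (by push_cast; linarith [this.2])⟩
  have h3 : (G.card : ℝ) * (l : ℝ) ^ (N + 1) ≤ (2 : ℝ) ^ ((N + ε) * M) * (6 ^ N * E.card) := by
    rw [card_eq_sum_card_image (cls M) G, Nat.cast_sum, sum_mul]
    refine (sum_le_sum fun k _ => h1 k).trans ?_
    rw [← mul_sum]
    exact mul_le_mul_of_nonneg_left (by exact_mod_cast h2) (by positivity)
  have h4 : (2 : ℝ) ^ ((N + ε) * M) ≤ ((2 : ℝ) ^ (M₀ + 1)) ^ (N + ε) * (Q ^ ε * Q ^ N) := by
    rw [mul_comm (N + ε), Real.rpow_mul (by norm_num), Real.rpow_natCast, ← Real.rpow_natCast Q N,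
      ← Real.rpow_add Q0, add_comm ε, ← Real.mul_rpow (by positivity) Q0.le]
    exact Real.rpow_le_rpow (by positivity) M2 (by positivity)
  rw [Real.rpow_one, ← Nat.cast_succ, Real.rpow_natCast, le_div_iff₀ (by positivity)]
  refine h3.trans ((mul_le_mul_of_nonneg_right h4 (by positivity)).trans (le_of_eq ?_))
  ring

open MeasureTheory H20 in
/-- The entropy statement implies the maximal conjecture in dimension `N + 1`. -/
theorem max_of_mu (h : MuK N) (ε : ℝ) (hε : 0 < ε) :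
    ∃ C : ℝ, ∀ f : EuclideanSpace ℝ (Fin (N + 1)) → ℝ, AEMeasurable f volume →
      ∀ δ : ℝ, 0 < δ → δ < 1 →
      ∃ G : Metric.sphere (0 : EuclideanSpace ℝ (Fin (N + 1))) 1 → ENNReal, Measurable G ∧
        (∀ e, kakeyaMax δ f e ≤ G e) ∧
        eLpNorm G (N + 1 : ℕ) volume.toSphere ≤
          ENNReal.ofReal (C * δ ^ (-ε)) * eLpNorm f (N + 1 : ℕ) volume := by
  have h0 : (0 : ℝ) ≤ N := Nat.cast_nonneg N
  have h1 := H42.max_of_gk (m := N) (b := 1) (p := N + 1) le_rfl (by linarith) le_rfl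
    (by rw [mul_one]; exact gk_of_disc (discK h)) hε
  rwa [mul_one, div_self (by linarith), sub_self, zero_add, ← Nat.cast_succ,
    ENNReal.ofReal_natCast] at h1

end Pool.Agent.MP_5168f5_an.MX
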