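import Pool.Agent.MP_5168f5_an.H20.Defs
import Pool.Agent.MP_5168f5_an.MX.RedGK

/-! The Kakeya maximal function is lower semicontinuous, hence measurable. -/

namespace Pool.Agent.MP_5168f5_an.MX

open MeasureTheory Set Filter Topology H20
open scoped ENNReal

namespace MeasA

variable {n : ℕ} {δ : ℝ} (e a : EuclideanSpace ℝ (Fin n))

/-- The open tube. -/
def ot (δ : ℝ) : Set (EuclideanSpace ℝ (Fin n)) :=
  {y | |inner ℝ (y - a) e| < 1 / 2 ∧ ‖(y - a) - (inner ℝ (y - a) e) • e‖ < δ}

theorem ot_open : IsOpen (ot e a δ) := by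
  unfold ot
  exact (isOpen_lt (by fun_prop) continuous_const).and (isOpen_lt (by fun_prop) continuous_const)

theorem tube_closed : IsClosed (tube e a δ) := by
  unfold tube
  exact (isClosed_le (by fun_prop) continuous_const).and
    (isClosed_le (by fun_prop) continuous_const)

theorem ot_sub : ot e a δ ⊆ tube e a δ := fun _ h => ⟨h.1.le, h.2.le⟩

theorem ot_convex : Convex ℝ (ot e a δ) := by
  intro x hx y hy s t hs ht h
  have e1 : s • x + t • y - a = s • (x - a) + t • (y - a) := by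
    rw [smul_sub, smul_sub, sub_add_sub_comm, ← add_smul, h, one_smul]
  have e2 : inner ℝ (s • x + t • y - a) e = s • inner ℝ (x - a) e + t • inner ℝ (y - a) e := by
    rw [e1, inner_add_left, real_inner_smul_left, real_inner_smul_left]; rfl
  refine ⟨?_, ?_⟩
  · rw [e2]
    simpa using convex_ball (0 : ℝ) (1 / 2) (by simpa using hx.1) (by simpa using hy.1) hs ht h
  · rw [e2, e1, show s • (x - a) + t • (y - a) - (s • inner ℝ (x - a) e + t • inner ℝ (y - a) e) • e
      = s • ((x - a) - (inner ℝ (x - a) e) • e) + t • ((y - a) - (inner ℝ (y - a) e) • e) by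
        simp only [smul_eq_mul]; module]
    exact mem_ball_zero_iff.1 (convex_ball _ δ (mem_ball_zero_iff.2 hx.2)
      (mem_ball_zero_iff.2 hy.2) hs ht h)

theorem tube_sub (hδ : 0 < δ) : tube e a δ ⊆ closure (ot e a δ) := fun y hy => by
  have c : Continuous fun s : ℝ => a + s • (y - a) := by fun_prop
  refine mem_closure_of_tendsto (b := 𝓝[<] (1 : ℝ))
    ((c.tendsto' 1 y (by simp)).mono_left nhdsWithin_le_nhds) ?_
  filter_upwards [Ioo_mem_nhdsLT one_pos] with s hs
  refine ⟨?_, ?_⟩ <;> rw [add_sub_cancel_left, real_inner_smul_left]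
  · rw [abs_mul, abs_of_pos hs.1]
    nlinarith [hy.1, hs.1, hs.2]
  · rw [mul_smul, ← smul_sub, norm_smul, Real.norm_of_nonneg hs.1.le]
    nlinarith [hy.2, hs.1, hs.2]

theorem tube_ae (hδ : 0 < δ) : tube e a δ =ᵐ[volume] ot e a δ :=
  ae_eq_set.2 ⟨measure_mono_null (fun _ h => by
    rw [(ot_open e a).frontier_eq]; exact ⟨tube_sub e a hδ h.1, h.2⟩)
    ((ot_convex (δ := δ) e a).addHaar_frontier volume),
    by rw [sdiff_eq_empty.2 (ot_sub e a), measure_empty]⟩

theorem vol_ne (hδ : 0 < δ) : volume (tube e a δ) ≠ 0 :=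
  (((ot_open e a).measure_pos volume ⟨a, by simp [ot, hδ]⟩).trans_le (measure_mono (ot_sub e a))).ne'

theorem vol_eq {e e' : EuclideanSpace ℝ (Fin n)} (h : ‖e‖ = ‖e'‖) :
    volume (tube e a δ) = volume (tube e' a δ) := by
  have r := Submodule.reflection_sub h
  set R := Submodule.reflection (ℝ ∙ (e - e'))ᗮ
  have m := (measurePreserving_add_left volume a).comp
    (R.measurePreserving.comp (measurePreserving_sub_right volume a))
  rw [← m.measure_preimage (tube_closed e' a).measurableSet.nullMeasurableSet]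
  congr 1
  ext y
  simp only [tube, mem_preimage, Function.comp, mem_ofPred_eq, add_sub_cancel_left, ← r,
    R.inner_map_map, ← map_smul, ← map_sub, R.norm_map]

theorem lsc_ot (ν : Measure (EuclideanSpace ℝ (Fin n))) :
    LowerSemicontinuous fun e : Metric.sphere (0 : EuclideanSpace ℝ (Fin n)) 1 => ν (ot e a δ) := by
  refine lowerSemicontinuous_iff_le_liminf.2 fun e => ?_
  simp only [← lintegral_indicator_one (ot_open _ a).measurableSet]
  refine le_trans (lintegral_mono fun y => ?_) (lintegral_liminf_le fun _ =>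
    measurable_one.indicator (ot_open _ a).measurableSet)
  by_cases h : y ∈ ot e a δ
  · have o : IsOpen {e : Metric.sphere (0 : EuclideanSpace ℝ (Fin n)) 1 | y ∈ ot e a δ} := by
      simp only [ot, mem_ofPred_eq]
      exact (isOpen_lt (by fun_prop) continuous_const).and
        (isOpen_lt (by fun_prop) continuous_const)
    refine le_liminf_of_le (by isBoundedDefault) ?_
    filter_upwards [o.mem_nhds h] with e' h'
    rw [indicator_of_mem h, indicator_of_mem h']
  · rw [indicator_of_notMem h]; exact zero_le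

end MeasA

open MeasA

theorem lsc_kakeyaMax {n : ℕ} {δ : ℝ} (hδ : 0 < δ) (f : EuclideanSpace ℝ (Fin n) → ℝ) :
    LowerSemicontinuous (kakeyaMax δ f) := fun e₀ => by
  have e : kakeyaMax δ f = fun e : Metric.sphere (0 : EuclideanSpace ℝ (Fin n)) 1 =>
      ⨆ a, volume.withDensity (fun y => ‖f y‖ₑ) (ot e a δ) /
      volume (tube (e₀ : EuclideanSpace ℝ (Fin n)) a δ) := funext fun e => iSup_congr fun a => by
    rw [withDensity_apply _ (ot_open _ a).measurableSet, setLIntegral_congr (tube_ae _ a hδ),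
      vol_eq a ((norm_eq_of_mem_sphere e).trans (norm_eq_of_mem_sphere e₀).symm)]
  rw [e]
  exact lowerSemicontinuous_iSup (fun a => (ENNReal.continuous_div_const _
    (vol_ne _ a hδ)).comp_lowerSemicontinuous (lsc_ot a _) fun _ _ h =>
      ENNReal.div_le_div_right h _) e₀

theorem measurable_kakeyaMax {n : ℕ} {δ : ℝ} (hδ : 0 < δ) (f : EuclideanSpace ℝ (Fin n) → ℝ) :
    Measurable (kakeyaMax δ f) := (lsc_kakeyaMax hδ f).measurable

theorem q1_of_mu (h : ∀ N, MuK N) : ∀ n : ℕ, 3 ≤ n → ∀ ε : ℝ, 0 < ε → ∃ C : ℝ,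
    ∀ f : EuclideanSpace ℝ (Fin n) → ℝ, MemLp f n volume → ∀ δ : ℝ, 0 < δ → δ < 1 →
      Measurable (kakeyaMax δ f) ∧ eLpNorm (kakeyaMax δ f) n volume.toSphere ≤
        ENNReal.ofReal (C * δ ^ (-ε)) * eLpNorm f n volume := by
  intro n hn ε hε
  obtain ⟨N, rfl⟩ : ∃ N, n = N + 1 := ⟨n - 1, by omega⟩
  obtain ⟨C, k⟩ := max_of_mu (h N) ε hε
  refine ⟨C, fun f hf δ h0 h1 => ⟨measurable_kakeyaMax h0 f, ?_⟩⟩
  obtain ⟨G, -, g1, g2⟩ := k f hf.1.aemeasurable δ h0 h1
  exact (eLpNorm_mono_enorm g1).trans g2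

end Pool.Agent.MP_5168f5_an.MX
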