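import Pool.Agent.MP_5168f5_an.MX.LevW
import Pool.Agent.MP_5168f5_an.MX.LevS
import Pool.Agent.MP_5168f5_an.MX.LevC
import Pool.Agent.MP_5168f5_an.MX.CoreC

/-! The noise step when the scalar parts have rates larger than the rate of the variable. -/

namespace Pool.Agent.MP_5168f5_an.MX

open H19 H17S H17F Filter

variable {Ω Ω' T : ℕ → Type} {P : ∀ n, FP (Ω n)} {Q : ∀ n, FP (Ω' n)} {Θ : ∀ n, Ω n → T n}
  {R : ℕ → ℕ} {L : ℕ → ℝ} {X u u' : ∀ n, Ω n → ℝ} {x β : ℝ}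

theorem cm_law {Ω Ω' T α : Type} {P : FP Ω} {Q : FP Ω'} {f : Ω' → Ω} (l : Law Q f P id)
    (Θ : Ω → T) (F : Ω → α) {v : Ω'} (hv : v ∈ Q.S) :
    cm Q (fun a => Θ (f a)) (fun a => F (f a)) v = cm P Θ F (f v) := by
  have p : 0 < pb P fun a => Θ a = Θ (f v) := pb_pos _ ⟨_, l.mem hv, rfl⟩
  have h := cm_eq (P := Q) (fun a => Θ (f a)) (fun a => F (f a)) v
  rw [l.pb_eq fun a => Θ a = Θ (f v), l.pb_eq fun a => Θ a = Θ (f v) ∧ F a = F (f v)] at h
  exact mul_left_cancel₀ p.ne' (h.trans (cm_eq Θ F (f v)).symm)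

/-- The pointwise bound on an extension of the space. -/
theorem Fro.law (h : Fro P Θ X R β) {f : ∀ n, Ω' n → Ω n} (l : ∀ n, Law (Q n) (f n) (P n) id) :
    Fro Q (fun n v => Θ n (f n v)) (fun n v => X n (f n v)) R β := fun j hj ε hε =>
  (AB.ABGrpA.whp_law (h j hj ε hε) l).mono (.of_forall fun n _ hv k =>
    (cm_law (l n) (Θ n) (fun a => fl1 (j n) (X n a)) hv).trans_le k)

theorem dn_fl1 {j m : ℕ} (h : j ≤ m) (y : ℝ) : AB.dn (m - j) (fl1 m y) = fl1 j y := by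
  have h1 := AB.dn_add 0 (m - j) (fl1 m y)
  have h2 := AB.dn_add 0 (m - j) (2 ^ m * y)
  rw [AB.dn_zero, zero_add] at h1
  rw [h1, show fl1 m y = AB.dn 0 (2 ^ m * y) by simp [AB.dn, fl1], ← h2, zero_add]
  unfold AB.dn fl1
  rw [pow_sub₀ _ two_ne_zero h]
  congr 1
  field_simp

theorem Fro.rob (h : Fro P Θ X R β) (hR : Big R) (hβ : 0 ≤ β) (Y : ∀ n, Ω n → ℤ) :
    AL.Rob P Θ (fun n ω => (fl1 (R n) (X n ω), Y n ω)) R β := fun _ _ _ _ _ l hE fj =>
  (((h.law l).cE hR hE).ent hβ fj.1).trans (Le.of_le fun n => ch_mono fun a _ b _ e => by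
    have := (Prod.mk.inj (Prod.mk.inj e).1).1
    rwa [dn_fl1 (fj.1 n), dn_fl1 (fj.1 n)] at this)

namespace Lev

open R4.NCx

theorem cov_rate {A : Set ℝ} {η e : ℝ} {M : ℕ} (h : AB.Cov A (x + η) M e) (hη : 0 ≤ η) :
    AB.Cov A x M (e + η * M) := fun i j a b y => (h i j a b y).imp fun _ k =>
  ⟨k.1.trans (Real.exp_le_exp.2 (by
    have a1 : (j : ℝ) ≤ M := by exact_mod_cast b
    have a2 : (0 : ℝ) ≤ j - i := sub_nonneg.2 (by exact_mod_cast a)
    have a3 := mul_le_of_le_one_right a2 lg_lt_one.le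
    have a4 : (j - i) * lg ≤ M := by linarith [Nat.cast_nonneg (α := ℝ) i]
    linarith [mul_le_mul_of_nonneg_left a4 hη])), k.2⟩

theorem mi_one {W T : Type} (Q : FP W) (R : ℕ) (s t : W → ℝ) (G : W → T) :
    mi Q (fun v => fl R fun _ : Fin 1 => s v)
      (fun v => (fl R fun _ : Fin 1 => t v) - fl R fun _ : Fin 1 => s v) G ≤
      mi Q (fun v => fl1 R (s v)) (fun v => fl1 R (t v) - fl1 R (s v)) G :=
  (mi_mono (G' := fun v => fl1 R (t v) - fl1 R (s v)) fun _ _ _ _ e =>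
    funext fun _ => (Prod.mk.inj e).1).trans
    (mi_mono' fun _ _ _ _ e => funext fun _ => (Prod.mk.inj e).1)

theorem fl1_sub (m : ℕ) (y z : ℝ) : |((fl1 m y - fl1 m z : ℤ) : ℝ) - 2 ^ m * (y - z)| ≤ 2 := by
  have a1 := abs_le.1 (abs_fl1_sub m y)
  have a2 := abs_le.1 (abs_fl1_sub m z)
  push_cast
  rw [abs_le]; constructor <;> linarith [a1.1, a1.2, a2.1, a2.2]

/-- The difference of the two variables lies in a family of levels with the rate of the first. -/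
theorem levR (h0 : 0 ≤ x) (h1 : x < 1) (hR : Big R) (hL : Sub R L)
    (hN : NGR P Θ (fun n ω (_ : Fin 1) => u n ω) R (1 - x))
    (hb : ∀ᶠ n in UF, ∀ a ∈ (P n).S, ∀ b ∈ (P n).S, Θ n a = Θ n b →
      |u n a - u n b| ≤ L n ∧ |u' n a - u' n b| ≤ L n)
    (i0 : Le R (fun n => ch (P n) (fun ω => fl1 (R n) (u' n ω)) (Θ n))
      fun n => ch (P n) (fun ω => fl1 (R n) (u n ω)) (Θ n))
    (i1 : Sm R fun n => mi (P n) (fun ω => fl1 (R n) (u n ω))
      (fun ω => fl1 (R n) (u' n ω) - fl1 (R n) (u n ω)) (Θ n)) :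
    ∃ K : ∀ n, ℤ × T n → AB.Lv, Whp P (fun n ω => AB.Nr
      ((K n (fl1 (R n) (u n ω), Θ n ω)).S 1) 2 (2 ^ R n * (u n ω - u' n ω))) ∧
      AB.Cvq x R P (fun n ω => (fl1 (R n) (u n ω), Θ n ω)) K := by
  obtain ⟨U, k1, k2⟩ := linS linW 1 (1 - x) (3 * (1 : ℕ)) Ω T P Θ (fun n ω => fl (R n) fun _ => u n ω)
    (fun n ω => fl (R n) fun _ => u' n ω) R (by linarith) hR (hN.nga hR) (by
      filter_upwards [hb, hL.2 1 one_pos, hR.ev 2] with n k1 k2 k3
      exact ⟨det_fl (hL.1 n) k2 k3 fun a ha b hb e => (norm_one _).trans_le (k1 a ha b hb e).1,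
        det_fl (hL.1 n) k2 k3 fun a ha b hb e => (norm_one _).trans_le (k1 a ha b hb e).2⟩)
    (by simpa only [ch_fl_one] using i0) (i1.mono (.of_forall fun n => mi_one _ _ _ _ _))
  choose K c1 c2 using linC
  refine ⟨fun n t => K (cz '' (U n (t.2, fun _ => t.1) : Set (Z 1))),
    k1.mono (.of_forall fun n ω _ a => ⟨_, c1 _ _ ⟨_, a, rfl⟩, ?_⟩), fun q ε hε => ?_⟩
  · exact (abs_sub_comm _ _).trans_le (fl1_sub _ _ _)
  · obtain ⟨η, e0, e1, e2⟩ : ∃ η : ℝ, 0 < η ∧ η ≤ 1 - x ∧ η ≤ ε / 2 :=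
      ⟨min (1 - x) (ε / 2), lt_min (by linarith) (half_pos hε), min_le_left _ _, min_le_right _ _⟩
    refine (k2 q (1 - (x + η)) (ε / 4) (by linarith) (by linarith) (by positivity)).mono
      ((hR.sm (q + 5) (ε / 4) (by positivity)).mono fun n a ω _ k => ?_)
    have k3 := c2 _ _ _ _ _ (by positivity) (by linarith) (by linarith) k
    rw [sub_sub_cancel] at k3
    exact AB.ABDiagA.cov_mono (cov_rate k3 e0.le)
      (by linarith [mul_le_mul_of_nonneg_right e2 (Nat.cast_nonneg (α := ℝ) (R n))])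

theorem ncF : NCF := by
  classical
  intro x α β h0 h1 hα hβ
  obtain ⟨c₁, hc₁, H⟩ := AL.core h0 h1 (lt_min hα hβ)
  have hlg := lg_pos
  have hc : 0 < min c₁ (lg / 2) / 2 := half_pos (lt_min hc₁ (half_pos hlg))
  refine ⟨_, hc, ?_⟩
  intro Ω T D W P Θ u u' g p ζ r d w R L hR hL hN hb hw i0 i1 i2 f1 f2
  have z0 : Sm R fun n => ch (P n) (fun ω => fl1 (R n) (u' n ω) - fl1 (R n) (u n ω))
      fun ω => ((d n ω, w n ω), Θ n ω) := by
    refine AB.ks.fano P _ _ _ R (fun n => 2 * (3 * L n) + 3) 3 hR (((hL.const_mul hR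
      (by norm_num)).const_mul hR one_le_two).add (hR.sub (by norm_num)) hR) hw ?_
    filter_upwards [hb, hL.2 1 one_pos, hR.ev 14] with n k k1 k2
    have a1 := hL.1 n
    have a2 : (1 : ℝ) ≤ 2 ^ R n := one_le_pow₀ one_le_two
    refine ⟨det_mono _ (AB.det_int (L := 6 * (L n * 2 ^ R n)) (by positivity) fun a ha b hb e => ?_)
      ?_, fun a ha => ?_⟩
    · obtain ⟨b1, b2⟩ := k.2.2.2 a ha b hb (Prod.mk.inj e).2
      have b3 := abs_le.1 (fl1_sub (R n) (u' n a) (u n a))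
      have b4 := abs_le.1 (fl1_sub (R n) (u' n b) (u n b))
      rw [abs_le] at b1 b2 ⊢
      constructor <;> nlinarith [b1.1, b1.2, b2.1, b2.2, b3.1, b3.2, b4.1, b4.2]
    · have b1 : L n * 2 ^ R n ≤ Real.exp (1 * R n) * Real.exp (R n) :=
        mul_le_mul k1 (two_pow_le_exp _) (by positivity) (Real.exp_pos _).le
      have b2 := mul_le_mul (show 15 ≤ Real.exp (R n) by linarith [Real.add_one_le_exp (R n : ℝ)])
        b1 (by positivity) (Real.exp_pos _).le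
      rw [← Real.exp_add, ← Real.exp_add, show (R n : ℝ) + (1 * R n + R n) = 3 * R n by ring] at b2
      linarith [one_le_mul_of_one_le_of_one_le a1 a2]
    · obtain ⟨S, s1, s2⟩ := AB.ABCovA.near (-(2 ^ R n * (ζ n a * p n a + r n a * g n a)))
        (L := 3 * L n) (by positivity)
      refine ⟨S, s1, fun b hb e c => (Int.floor_intCast (R := ℝ)
        (fl1 (R n) (u' n b) - fl1 (R n) (u n b))) ▸ s2 _ ?_⟩
      simp only [Prod.mk.injEq] at e
      have e1 := Prod.mk.inj (k.1 b hb a ha (Prod.ext e.1.1 e.2))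
      have e2 := Prod.mk.inj (k.2.1 b hb a ha (Prod.ext e.1.2 e.2))
      have b1 := abs_le.1 (fl1_sub (R n) (u' n b) (u n b))
      have b2 := c.2.2
      rw [le_div_iff₀ (by positivity), ← abs_of_pos (zero_lt_one.trans_le a2), ← abs_mul,
        e1.1, e1.2, e2.1, e2.2, abs_le] at b2
      rw [abs_le]; constructor <;> linarith [b1.1, b1.2, b2.1, b2.2]
  obtain ⟨K, k1, k2⟩ := levR h0 h1 hR hL hN (hb.mono fun _ a => a.2.2.2) i0
    ((i1.add z0).mono (.of_forall fun n => mi_near _ _ _ _))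
  let f : ℕ → ℝ × ℝ → ℤ × ℤ := fun n y =>
    (fl1 (R n) y.1, fl1 (R n) (if |y.2| ≤ L n then y.2 else 0))
  have f3 : ∀ n (y : ℝ × ℝ), |y.1| ≤ L n → AL.Bx (12 * L n * 2 ^ R n) (f n y) := fun n y a => by
    have a1 := hL.1 n
    have a2 : 4 * L n * 2 ^ R n ≤ 12 * L n * 2 ^ R n :=
      mul_le_mul_of_nonneg_right (by linarith) (by positivity)
    exact ⟨(AB.abs_fl1_le a1 a).trans a2, (AB.abs_fl1_le a1 (by
      split_ifs with k
      · exact k
      · rw [abs_zero]; linarith)).trans a2⟩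
  have nr : Whp P fun n ω => |AL.bl (f n (ζ n ω, g n ω)) (f n (r n ω, p n ω)) / 2 ^ R n -
      2 ^ R n * (u n ω - u' n ω)| ≤ 7 * L n := hw.mono (hb.mono fun n a ω hω k => by
    have a1 := abs_le.1 (AB.fl1_mul (m := R n) (hL.1 n) (a.2.2.1 ω hω).1 k.2.1)
    have a2 := abs_le.1 (AB.fl1_mul (m := R n) (hL.1 n) k.1 (a.2.2.1 ω hω).2)
    have a3 := k.2.2
    have a4 : (0 : ℝ) < 2 ^ R n := by positivity
    rw [le_div_iff₀ a4, ← abs_of_pos a4, ← abs_mul, abs_le] at a3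
    simp only [f, AL.bl, if_pos k.1, if_pos k.2.1, add_div]
    rw [abs_le]; constructor <;> linarith [a1.1, a1.2, a2.1, a2.2, a3.1, a3.2])
  have g0 : 0 ≤ min α β := h0.trans (lt_min hα hβ).le
  have fr : ∀ {y : ∀ n, Ω n → ℝ}, Fro P Θ y R (min α β) →
      (∀ᶠ n in UF, Fn (P n) (y n) fun ω => ((d n ω, w n ω), Θ n ω)) →
      Fro P (fun n ω => (fl1 (R n) (u n ω), Θ n ω)) y R (min α β) := fun a b =>
    a.info hR (i1.mono (b.mono fun n k => (mi_symm _ _ _).trans_le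
      (mi_mono ((Fn.comp (fl1 (R n)) _).trans k))))
  have k := H (P := P) (d := fun n ω => f n (ζ n ω, g n ω)) (w := fun n ω => f n (r n ω, p n ω))
    ⟨hR, hL.const_mul hR (C := 12) (by norm_num), hb.mono fun n a ω hω =>
      ⟨f3 n _ (a.2.2.1 ω hω).1, f3 n _ (a.2.2.1 ω hω).2⟩, (k1.and nr).mono (.of_forall
        fun n ω _ a => AB.ABW.Nr.mono (a.1.near a.2) (by linarith [hL.1 n])), ?_, k2⟩
    ((fr (f1.mono (min_le_left _ _)) (hb.mono fun n k a ha b hb e => ?_)).rob hR g0 _)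
    ((fr (f2.mono (min_le_right _ _)) (hb.mono fun n k a ha b hb e => ?_)).rob hR g0 _)
  · refine (k.and nr).mono (((hL.const_mul hR (C := 7) (by norm_num)).2 _ hc).and
      (hR.sm 1 _ hc) |>.mono fun n a ω _ b => ?_)
    have a1 : (0 : ℝ) < 2 ^ R n := by positivity
    have a2 := abs_sub_abs_le_abs_sub (2 ^ R n * (u n ω - u' n ω))
      (AL.bl (f n (ζ n ω, g n ω)) (f n (r n ω, p n ω)) / 2 ^ R n)
    rw [abs_sub_comm, abs_mul, abs_div, abs_of_pos a1] at a2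
    exact le_of_mul_le_mul_left (H29N.small (c₁ := c₁) (by linarith [min_le_left c₁ (lg / 2)])
      (by linarith [min_le_right c₁ (lg / 2)]) (by simpa using a.2) a.1 (by linarith [b.2]) b.1) a1
  · refine (i2.add i1).mono (hb.mono fun n a => le_trans ((mi_mono (G' := w n) fun s hs t ht e =>
      ?_).trans (mi_mono' fun s hs t ht e => ?_)) ((AL.mi_side (P n) (d n) (w n) _ (Θ n)).trans
        (add_le_add le_rfl (mi_symm _ _ _).le))) <;> simp only [Prod.mk.injEq] at e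
    · exact congrArg (f n) (a.2.1 s hs t ht (Prod.ext e.1 e.2.2))
    · exact congrArg (f n) (a.1 s hs t ht (Prod.ext e.1 e.2.2))
  · simp only [Prod.mk.injEq] at e
    exact (Prod.mk.inj (k.1 a ha b hb (Prod.ext e.1.1 e.2))).1
  · simp only [Prod.mk.injEq] at e
    exact (Prod.mk.inj (k.2.1 a ha b hb (Prod.ext e.1.2 e.2))).1

end Lev

end Pool.Agent.MP_5168f5_an.MX
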