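import Pool.Agent.MP_5168f5_an.MX.OffDefs
import Pool.Agent.MP_5168f5_an.MX.NCF

/-! Speed one: the noise step and the common information of two copies. -/

namespace Pool.Agent.MP_5168f5_an.MX.OffA

open H19 H17S H17F R4.K31 Filter

section Fin

variable {Ω α β γ δ ε : Type}

theorem mi2 (P : FP Ω) {σ : Ω → β} {Θ : Ω → γ} (k : Fn P Θ σ) (F : Ω → α) (V : Ω → δ) :
    mi (glue P P σ σ) (fun v => F v.1) (fun v => V v.2) (fun v => Θ v.1) ≤ mi P V σ Θ := by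
  have f : ∀ v ∈ (glue P P σ σ).S, Θ v.1 = Θ v.2 := fun v hv => by
    obtain ⟨a, b, c⟩ := (mem_cp P σ v).1 hv
    exact k _ a _ b c.symm
  refine le_trans (le_of_eq ?_) (mi_glue P P σ σ (Law.rfl _) F V Θ)
  unfold mi
  rw [ch_ext (fun _ _ => rfl) f, ch_ext (G := fun v : Ω × Ω => (V v.2, Θ v.1))
    (G' := fun v => (V v.2, Θ v.2)) (fun _ _ => rfl) fun v hv => by rw [f v hv]]

theorem mi_two (P : FP Ω) {σ : Ω → β} {Θ : Ω → γ} (k : Fn P Θ σ) (F : Ω → α) (G : Ω → ε)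
    (V : Ω → δ) : mi (glue P P σ σ) (fun v => F v.1) (fun v => (G v.1, V v.2)) (fun v => Θ v.1) ≤
      mi P F G Θ + mi P V σ Θ := by
  rw [mi_chain, (tg.fst P P σ σ).mi_id]
  exact add_le_add le_rfl ((mi_left (Fn.snd _ _) (fun _ _ _ _ e => Prod.ext
    (congrArg (·.1.2) e) (congrArg (·.2) e)) fun _ _ _ _ e => congrArg (·.1.1) e).trans
      (mi2 P k (fun ω => (F ω, G ω)) V))

theorem fl1_rn_sub (R : ℕ) (a b : ℝ) : fl1 R (rn R a - rn R b) = fl1 R a - fl1 R b := by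
  rw [fl1, rn, rn, ← sub_div, mul_div_cancel₀ _ (by positivity), ← Int.cast_sub, Int.floor_intCast]

end Fin

variable {Ω T Δ : ℕ → Type} {P : ∀ n, FP (Ω n)} {Θ : ∀ n, Ω n → T n} {d : ∀ n, Ω n → Δ n}
  {A B U p ζ γ : ∀ n, Ω n → ℝ} {R : ℕ → ℕ} {L : ℕ → ℝ} {u α : ℝ}

theorem small_exp {j : ℕ → ℕ} (hL : Sub R L) (hj : Frac j R) :
    ∃ c : ℝ, 0 < c ∧ ∀ᶠ n in UF, L n / 2 ^ j n ≤ Real.exp (-(c * R n)) := by
  obtain ⟨-, c, hc, e⟩ := hj
  refine ⟨c / 4, by positivity, ?_⟩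
  filter_upwards [hL.2 (c / 4) (by positivity), e] with n a b
  rw [div_le_iff₀ (by positivity)]
  refine a.trans (le_trans ?_ (mul_le_mul_of_nonneg_left (exp_le_two_pow _) (by positivity)))
  rw [← Real.exp_add]
  exact Real.exp_le_exp.2 (by linarith)

/-- The normalised hypotheses. -/
structure Hy (P : ∀ n, FP (Ω n)) (Θ : ∀ n, Ω n → T n) (d : ∀ n, Ω n → Δ n)
    (A B U p ζ γ : ∀ n, Ω n → ℝ) (R : ℕ → ℕ) (L : ℕ → ℝ) (u α : ℝ) : Prop where
  big : Big R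
  sub : Sub R L
  ng : R4.NCx.NG1 P Θ A R (1 - u)
  alg : ∀ᶠ n in UF, Fn (P n) (fun ω => (ζ n ω, γ n ω)) (fun ω => (d n ω, Θ n ω)) ∧
    (∀ ω ∈ (P n).S, |ζ n ω| ≤ L n ∧ |γ n ω| ≤ L n ∧ (0 ≤ U n ω ∧ U n ω < 1) ∧
      0 ≤ p n ω ∧ p n ω < 1) ∧ Cls (P n) (Θ n) (A n) 0 1 ∧
    Cls (P n) (fun ω => (d n ω, Θ n ω))
      (fun ω => A n ω - B n ω + ζ n ω * p n ω - γ n ω * U n ω) (R n) (L n)
  i1 : Sm R fun n => mi (P n) (fun ω => fl1 (R n) (A n ω))
    (fun ω => (fl1 (R n) (U n ω), fl1 (R n) (p n ω))) (Θ n)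
  i2 : Sm R fun n => mi (P n) (d n)
    (fun ω => (fl1 (R n) (A n ω), fl1 (R n) (U n ω), fl1 (R n) (p n ω))) (Θ n)
  i3 : Sm R fun n => mi (P n) (fun ω => (fl1 (R n) (U n ω), fl1 (R n) (p n ω)))
    (fun ω => (d n ω, fl1 (R n) (B n ω))) (Θ n)
  fro : Fro P Θ ζ R α
  ful : Le R (fun n => R n * lg) fun n => ch (P n) (fun ω => fl1 (R n) (U n ω)) (Θ n)

/-- The shared variable of the two copies. -/
noncomputable def sg (Θ : ∀ n, Ω n → T n) (d : ∀ n, Ω n → Δ n) (B : ∀ n, Ω n → ℝ) (R : ℕ → ℕ)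
    (n : ℕ) (ω : Ω n) : T n × Δ n × ℤ := (Θ n ω, d n ω, fl1 (R n) (B n ω))

/-- The two copies. -/
noncomputable abbrev cp (P : ∀ n, FP (Ω n)) (Θ : ∀ n, Ω n → T n) (d : ∀ n, Ω n → Δ n)
    (B : ∀ n, Ω n → ℝ) (R : ℕ → ℕ) (n : ℕ) : FP (Ω n × Ω n) :=
  glue (P n) (P n) (sg Θ d B R n) (sg Θ d B R n)

theorem Hy.i4 (h : Hy P Θ d A B U p ζ γ R L u α) : Sm R fun n => mi (P n)
    (fun ω => (fl1 (R n) (U n ω), fl1 (R n) (p n ω))) (sg Θ d B R n) (Θ n) :=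
  h.i3.mono (.of_forall fun _ => mi_mono fun _ _ _ _ e =>
    Prod.ext (congrArg (·.2) e) (congrArg (·.1) e))

theorem Hy.mem (h : Hy P Θ d A B U p ζ γ R L u α) : ∀ᶠ n in UF, ∀ v ∈ (cp P Θ d B R n).S,
    v.1 ∈ (P n).S ∧ v.2 ∈ (P n).S ∧ Θ n v.2 = Θ n v.1 ∧ ζ n v.2 = ζ n v.1 ∧ γ n v.2 = γ n v.1 ∧
      |A n v.1 - A n v.2 - (ζ n v.1 * (p n v.2 - p n v.1) + (U n v.1 - U n v.2) * γ n v.1)| ≤
        2 * L n / 2 ^ R n := h.alg.mono fun n k v hv => by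
  obtain ⟨a, b, c⟩ := (mem_cp _ _ v).1 hv
  simp only [sg, Prod.mk.injEq] at c
  have e := Prod.mk.inj (k.1 _ b _ a (Prod.ext c.2.1 c.1))
  have e1 := abs_le.1 (k.2.2.2 _ b _ a (Prod.ext c.2.1 c.1))
  have e2 := abs_le.1 ((Cls.of_fn (P := P n) (Fn.rfl _) _ b _ a c.2.2).trans
    (dv_anti (h.sub.pos n).le (h.sub.1 n) le_rfl))
  refine ⟨a, b, c.1, e.1, e.2, ?_⟩
  simp only [e.1, e.2] at e1
  rw [mul_div_assoc, abs_le]
  constructor <;> linarith [e1.1, e1.2, e2.1, e2.2]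

theorem Hy.fr (h : Hy P Θ d A B U p ζ γ R L u α) : Fro (cp P Θ d B R) (fun n v => Θ n v.1)
    (fun n v => rn (R n) (U n v.1) - rn (R n) (U n v.2)) R 1 := by
  refine Fro.of_full h.big (h.big.sub one_le_two) ?_ (h.ful.of2 h.i4 (h.mem.mono fun n m => ?_))
  · filter_upwards [h.alg, h.mem] with n k m a ha b hb _
    have t := fun ω hω => rn_mem (R n) (k.2.1 ω hω).2.2.1
    rw [abs_le]
    constructor <;> linarith [t _ (m a ha).1, t _ (m a ha).2.1, t _ (m b hb).1, t _ (m b hb).2.1]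
  have a1 := mi2 (P n) (σ := sg Θ d B R n) (Fn.fst _ _) (fun ω => fl1 (R n) (U n ω))
    fun ω => (fl1 (R n) (U n ω), fl1 (R n) (p n ω))
  have a2 := (tg.fst (P n) (P n) (sg Θ d B R n) (sg Θ d B R n)).ch_id
    (fun ω => fl1 (R n) (U n ω)) (Θ n)
  have a3 : ch (cp P Θ d B R n) (fun v => fl1 (R n) (U n v.1)) (fun v =>
      ((fl1 (R n) (U n v.2), fl1 (R n) (p n v.2)), Θ n v.1)) ≤ ch (cp P Θ d B R n)
      (fun v => fl1 (R n) (rn (R n) (U n v.1) - rn (R n) (U n v.2))) fun v => Θ n v.1 :=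
    ch_le (fun _ _ _ _ e => by
      simp only [fl1_rn_sub, Prod.mk.injEq] at e
      linarith [e.1, e.2.1.1]) (Fn.snd _ _)
  unfold mi at a1 ⊢
  linarith

/-- The noise vanishes. -/
theorem Hy.nc (h : Hy P Θ d A B U p ζ γ R L u α) (h0 : 0 ≤ u) (h1 : u < 1) (h2 : u < α) :
    ∃ c : ℝ, 0 < c ∧ Whp (cp P Θ d B R) fun n v => |A n v.1 - A n v.2| ≤ Real.exp (-(c * R n)) := by
  obtain ⟨c, hc, H⟩ := Lev.ncF u α 1 h0 h1 h2 h1
  have l : ∀ n, Law (cp P Θ d B R n) Prod.fst (P n) id := fun n => tg.fst _ _ _ _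
  refine ⟨c, hc, H _ _ _ _ (cp P Θ d B R) (fun n v => Θ n v.1) (fun n v => A n v.1)
    (fun n v => A n v.2) (fun n v => γ n v.1) (fun n v => rn (R n) (p n v.2) - rn (R n) (p n v.1))
    (fun n v => ζ n v.1) (fun n v => rn (R n) (U n v.1) - rn (R n) (U n v.2)) (fun n v => d n v.1)
    (fun n v => ((fl1 (R n) (U n v.1), fl1 (R n) (p n v.1)), fl1 (R n) (U n v.2),
      fl1 (R n) (p n v.2))) R (fun n => 6 * L n) h.big (h.sub.const_mul h.big (by norm_num))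
    (h.ng.pull l).ngr ?_ (.of_ev ?_) (Le.of_ev (h.mem.mono fun n m => le_of_eq ?_))
    (Le.of3 h.i1 h.i2 h.i4 (.of_forall fun n => ?_)) (Le.of2 h.i2 h.i4 (.of_forall fun n => ?_))
    (h.fro.law l) h.fr⟩
  · filter_upwards [h.alg, h.mem] with n k m
    have l1 := h.sub.1 n
    have t := fun ω hω => rn_mem (R n) (k.2.1 ω hω).2.2.1
    refine ⟨(l n).fn k.1, fun _ _ _ _ e => ?_, fun v hv => ⟨by linarith [(k.2.1 _ (m v hv).1).1],
      abs_le.2 ⟨by linarith [t _ (m v hv).1, t _ (m v hv).2.1],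
        by linarith [t _ (m v hv).1, t _ (m v hv).2.1]⟩⟩, fun a ha b hb e => ⟨?_, ?_⟩⟩
    · simp only [Prod.mk.injEq] at e
      simp only [rn, e.1.1.1, e.1.1.2, e.1.2.1, e.1.2.2]
    · exact (k.2.2.1 _ (m a ha).1 _ (m b hb).1 e).trans (by norm_num; linarith)
    · exact (k.2.2.1 _ (m a ha).2.1 _ (m b hb).2.1 ((m a ha).2.2.1.trans
        (e.trans (m b hb).2.2.1.symm))).trans (by norm_num; linarith)
  · filter_upwards [h.alg, h.mem] with n k m v hv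
    have l1 := h.sub.1 n
    obtain ⟨m1, m2, -, -, -, m3⟩ := m v hv
    have t := fun ω hω => rn_mem (R n) (k.2.1 ω hω).2.2.2
    refine ⟨by linarith [(k.2.1 _ m1).2.1], abs_le.2 ⟨by linarith [t _ m1, t _ m2],
      by linarith [t _ m1, t _ m2]⟩, ?_⟩
    have s : ∀ a b z : ℝ, |z| ≤ L n → |z * (a - b) - z * (rn (R n) a - rn (R n) b)| ≤
        2 * L n / 2 ^ R n := fun a b z hz => by
      have s1 := abs_le.1 (near_rn (R n) a)
      have s2 := abs_le.1 (near_rn (R n) b)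
      rw [← mul_sub, abs_mul, show 2 * L n / 2 ^ R n = L n * (2 * (1 / 2 ^ R n)) by ring]
      exact mul_le_mul hz (abs_le.2 ⟨by linarith, by linarith⟩) (abs_nonneg _) (by linarith)
    have s1 := abs_le.1 (s (p n v.2) (p n v.1) _ (k.2.1 _ m1).1)
    have s2 := abs_le.1 (s (U n v.1) (U n v.2) _ (k.2.1 _ m1).2.1)
    have s3 := abs_le.1 m3
    rw [show 6 * L n / 2 ^ R n = 3 * (2 * L n / 2 ^ R n) by ring, abs_le]
    constructor <;> linarith [s1.1, s1.2, s2.1, s2.2, s3.1, s3.2]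
  · rw [(l n).ch_id (fun ω => fl1 (R n) (A n ω)), ← (tg.snd _ _ _ _ (Law.rfl
      (P := P n) (sg Θ d B R n))).ch_id (fun ω => fl1 (R n) (A n ω))]
    exact ch_ext (fun _ _ => rfl) fun v hv => (m v hv).2.2.1.symm
  · have a1 := mi_two (P n) (σ := sg Θ d B R n) (Fn.fst _ _) (fun ω => fl1 (R n) (A n ω))
      (fun ω => ((fl1 (R n) (U n ω), fl1 (R n) (p n ω)), d n ω))
      fun ω => (fl1 (R n) (U n ω), fl1 (R n) (p n ω))
    rw [mi_chain (P := P n), mi_symm _ (d n)] at a1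
    have a2 : mi (P n) (d n) (fun ω => fl1 (R n) (A n ω)) (fun ω =>
        ((fl1 (R n) (U n ω), fl1 (R n) (p n ω)), Θ n ω)) ≤ mi (P n) (d n)
        (fun ω => (fl1 (R n) (A n ω), fl1 (R n) (U n ω), fl1 (R n) (p n ω))) (Θ n) :=
      mi_right (Fn.snd _ _) (fun _ _ _ _ e => Prod.ext (congrArg (·.1.2) e) (congrArg (·.2) e))
        fun _ _ _ _ e => congrArg (·.1.1) e
    simp only [sub_zero]
    refine le_trans (mi_mono fun _ _ _ _ e => ?_) (a1.trans (by linarith))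
    simp only [Prod.mk.injEq] at e ⊢; tauto
  · have a1 := mi_two (P n) (σ := sg Θ d B R n) (Fn.fst _ _) (d n)
      (fun ω => (fl1 (R n) (U n ω), fl1 (R n) (p n ω)))
      fun ω => (fl1 (R n) (U n ω), fl1 (R n) (p n ω))
    simp only [sub_zero]
    exact a1.trans (add_le_add (mi_mono fun _ _ _ _ e => congrArg (·.1.2) e) le_rfl)

/-- A centre for each value of the shared variable. -/
theorem centre {β : ℕ → Type} {σ : ∀ n, Ω n → β n} {y : ∀ n, Ω n → ℝ} {η : ℕ → ℝ}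
    (h : Whp (fun n => glue (P n) (P n) (σ n) (σ n)) fun n v => |y n v.2 - y n v.1| ≤ η n) :
    ∃ m : ∀ n, β n → ℝ, Whp P fun n ω => |y n ω - m n (σ n ω)| ≤ η n := by
  choose m hm using fun n => pb_glue (P n) (P n) (σ n) (σ n) (Law.rfl _)
    fun a ω => |y n ω - y n a| ≤ η n
  refine ⟨fun n s => y n (m n s), fun ε hε => (h ε hε).mono fun n u => ?_⟩
  rw [pb_not] at u ⊢
  linarith [hm n]

/-- The affine relation with coefficients that are functions of the shared variable. -/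
theorem Hy.aff (h : Hy P Θ d A B U p ζ γ R L u α) (h0 : 0 ≤ u) (h1 : u < 1) (h2 : u < α)
    (hγ : Whp P fun n ω => 1 ≤ L n * |γ n ω|) : ∃ (j : ℕ → ℕ) (K : ℕ → ℝ) (κ c₀ : ∀ n, Ω n → ℝ),
      Frac j R ∧ Sub R K ∧ (∀ᶠ n in UF, Fn (P n) (fun ω => (κ n ω, c₀ n ω)) (sg Θ d B R n) ∧
        ∀ ω, |κ n ω| ≤ K n ∧ |c₀ n ω| ≤ K n) ∧ Whp P fun n ω => 1 ≤ K n * |κ n ω| ∧
          |p n ω - κ n ω * U n ω - c₀ n ω| ≤ K n / 2 ^ j n := by
  classical
  obtain ⟨c, hc, w⟩ := h.nc h0 h1 h2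
  have fj := h.big.frac_floor (lt_min hc one_pos) (min_le_right _ _)
  set j : ℕ → ℕ := fun n => ⌊min c 1 * R n⌋₊ with hj
  obtain ⟨K, hK, z⟩ := h.fro.unit h.big (h0.trans_lt h2) (y := fun _ _ => 0) fun _ _ _ _ _ _ => rfl
  set κ : ∀ n, Ω n → ℝ := fun n ω =>
    if 1 ≤ K n * |ζ n ω| ∧ |γ n ω| ≤ L n then γ n ω / ζ n ω else 0 with hκ
  have b : ∀ n ω, |κ n ω| ≤ L n * K n := fun n ω => by
    have := mul_pos (h.sub.pos n) (hK.pos n)
    simp only [hκ]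
    split_ifs with e
    · have z0 : 0 < |ζ n ω| := (mul_pos_iff_of_pos_left (hK.pos n)).1 (one_pos.trans_le e.1)
      rw [abs_div, div_le_iff₀ z0]
      nlinarith [e.1, e.2, h.sub.pos n]
    · simpa using this.le
  have e : ∀ᶠ n in UF, ∀ ω ∈ (P n).S, 1 ≤ K n * |ζ n ω - 0| → γ n ω = κ n ω * ζ n ω :=
    h.alg.mono fun n k ω hω e => by
      rw [sub_zero] at e
      have z0 : 0 < |ζ n ω| := (mul_pos_iff_of_pos_left (hK.pos n)).1 (one_pos.trans_le e)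
      simp only [hκ, if_pos (And.intro e (k.2.1 ω hω).2.1), div_mul_cancel₀ _ (abs_pos.1 z0)]
  obtain ⟨m, hm⟩ := centre (P := P) (σ := sg Θ d B R) (y := fun n ω => p n ω - κ n ω * U n ω)
    (η := fun n => 3 * (L n * K n) / 2 ^ j n) ((w.and ((dn_fst P P _ _).whp z)).mono (by
      filter_upwards [h.mem, e] with n k e v hv ⟨a1, a2⟩
      obtain ⟨m1, -, -, m2, m3, m4⟩ := k v hv
      have a3 : Real.exp (-(c * R n)) ≤ L n / 2 ^ j n := by
        rw [Real.exp_neg, ← one_div]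
        exact div_le_div₀ (h.sub.pos n).le (h.sub.1 n) (by positivity) ((two_pow_le_exp _).trans
          (Real.exp_le_exp.2 ((Nat.floor_le (by positivity)).trans
            (by gcongr; exact min_le_left _ _))))
      have a4 := abs_le.1 (m4.trans (dv_anti (by linarith [h.sub.1 n]) le_rfl (fj.1 n)))
      have a5 := abs_le.1 (a1.trans a3)
      have a6 : |ζ n v.1 * (p n v.2 - κ n v.1 * U n v.2 - (p n v.1 - κ n v.1 * U n v.1))| ≤
          3 * (L n / 2 ^ j n) := by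
        rw [e _ m1 a2, mul_div_assoc] at a4
        rw [abs_le]; constructor <;> linarith [a4.1, a4.2, a5.1, a5.2]
      have a7 : κ n v.2 = κ n v.1 := by simp only [hκ, m2, m3]
      rw [abs_mul] at a6
      rw [sub_zero] at a2
      rw [a7, show 3 * (L n * K n) / 2 ^ j n = K n * (3 * (L n / 2 ^ j n)) by ring]
      nlinarith [mul_le_mul_of_nonneg_left a6 (hK.pos n).le,
        abs_nonneg (p n v.2 - κ n v.1 * U n v.2 - (p n v.1 - κ n v.1 * U n v.1))]))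
  have q : ∀ n, 1 ≤ L n * K n := fun n => one_le_mul_of_one_le_of_one_le (h.sub.1 n) (hK.1 n)
  refine ⟨j, fun n => 5 * (L n * K n) * L n, κ, fun n ω =>
    if |m n (sg Θ d B R n ω)| ≤ 5 * (L n * K n) then m n (sg Θ d B R n ω) else 0, fj,
    ((h.sub.mul hK).const_mul h.big (by norm_num)).mul h.sub, h.alg.mono fun n k =>
      ⟨fun a ha a' ha' s => ?_, fun ω => ⟨(b n ω).trans (by nlinarith [q n, h.sub.1 n]), ?_⟩⟩,
    ((hm.and z).and hγ).mono ?_⟩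
  · have := Prod.mk.inj (k.1 a ha a' ha' (Prod.ext (congrArg (·.2.1) s) (congrArg (·.1) s)))
    simp only [hκ, this.1, this.2, s]
  · simp only
    split_ifs with e
    · nlinarith [q n, h.sub.1 n]
    · rw [abs_zero]; nlinarith [q n, h.sub.1 n]
  filter_upwards [h.alg, e] with n k e ω hω ⟨⟨a1, a2⟩, a3⟩
  obtain ⟨b1, -, b2, b3⟩ := k.2.1 ω hω
  have l1 := h.sub.1 n
  have a4 : 3 * (L n * K n) / 2 ^ j n ≤ 3 * (L n * K n) :=
    div_le_self (by linarith [q n]) (one_le_pow₀ one_le_two)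
  have a5 : |κ n ω * U n ω| ≤ L n * K n := by
    rw [abs_mul, abs_of_nonneg b2.1]; nlinarith [b n ω, abs_nonneg (κ n ω)]
  have a6 : |m n (sg Θ d B R n ω)| ≤ 5 * (L n * K n) := by
    have := abs_le.1 (a1.trans a4)
    have := abs_le.1 a5
    rw [abs_le]; constructor <;> linarith [q n]
  rw [if_pos a6]
  refine ⟨?_, a1.trans (dv_anti (by nlinarith [q n]) (by nlinarith [q n]) le_rfl)⟩
  rw [e ω hω a2, abs_mul] at a3
  have a7 := mul_le_mul_of_nonneg_left b1 (mul_nonneg (h.sub.pos n).le (abs_nonneg (κ n ω)))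
  have a8 := mul_le_mul_of_nonneg_left (hK.1 n) (mul_nonneg (mul_nonneg (h.sub.pos n).le
    (h.sub.pos n).le) (abs_nonneg (κ n ω)))
  nlinarith [mul_nonneg (mul_nonneg (h.sub.pos n).le (h.sub.pos n).le) (abs_nonneg (κ n ω))]

/-- The coefficients are common information of independent variables. -/
theorem Hy.com (h : Hy P Θ d A B U p ζ γ R L u α) {j : ℕ → ℕ} {K : ℕ → ℝ} {κ c₀ : ∀ n, Ω n → ℝ}
    (fj : Frac j R) (hK : Sub R K)
    (hf : ∀ᶠ n in UF, Fn (P n) (fun ω => (κ n ω, c₀ n ω)) (sg Θ d B R n) ∧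
      ∀ ω, |κ n ω| ≤ K n ∧ |c₀ n ω| ≤ K n)
    (w : Whp P fun n ω => |p n ω - κ n ω * U n ω - c₀ n ω| ≤ K n / 2 ^ j n) :
    Nd P R (fun n ω => (fl1 (j n) (κ n ω), fl1 (j n) (c₀ n ω))) Θ := by
  have jR : ∀ n, (j n : ℝ) ≤ 1 * R n := fun n => by rw [one_mul]; exact_mod_cast fj.1 n
  obtain ⟨K', hK', z⟩ := h.fr.unit h.big one_pos (y := fun _ _ => 0) fun _ _ _ _ _ _ => rfl
  have s : ∀ᶠ n in UF, ∀ ω, |p n ω - κ n ω * U n ω - c₀ n ω| ≤ K n / 2 ^ j n →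
      |rn (R n) (p n ω) - κ n ω * rn (R n) (U n ω) - c₀ n ω| ≤ 3 * K n / 2 ^ j n :=
    hf.mono fun n k ω e => by
      have a1 := abs_le.1 ((near_rn (R n) (p n ω)).trans
        (dv_anti (hK.pos n).le (hK.1 n) (fj.1 n)))
      have a2 : |κ n ω * (U n ω - rn (R n) (U n ω))| ≤ K n / 2 ^ j n := by
        rw [abs_mul, div_eq_mul_one_div]
        exact mul_le_mul (k.2 ω).1 ((near_rn _ _).trans (dv_anti zero_le_one le_rfl (fj.1 n)))
          (abs_nonneg _) (hK.pos n).le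
      have a3 := abs_le.1 a2
      have a4 := abs_le.1 e
      rw [mul_div_assoc, abs_le]; constructor <;> linarith [a1.1, a1.2, a3.1, a3.2, a4.1, a4.2]
  have n1 : Nd (cp P Θ d B R) R (fun n v => fl1 (j n) (κ n v.1)) fun n v =>
      ((fl1 (R n) (U n v.1), fl1 (R n) (p n v.1)), fl1 (R n) (U n v.2), fl1 (R n) (p n v.2)) := by
    have wE := (z.and ((dn_fst P P _ _).whp w)).and ((dn_snd P (sg Θ d B R)).whp w)
    refine Nd.whp (C := 1) h.big (hK'.mul (hK.const_mul h.big (C := 12) (by norm_num))) wE ?_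
    filter_upwards [hf, s, wE.pos.sure] with n k s t
    refine ⟨jR n, fun v _ => (k.2 _).1.trans (by nlinarith [hK.1 n, hK'.1 n]), Cls.divL
      (r := fun v => rn (R n) (U n v.1) - rn (R n) (U n v.2)) (((Cls.small (K := 6 * K n)
        (X := fun v => (rn (R n) (U n v.1) - rn (R n) (U n v.2)) * κ n v.1 -
          (rn (R n) (p n v.1) - rn (R n) (p n v.2))) fun v hv => ?_).add (Cls.fn
        (X := fun v => rn (R n) (p n v.1) - rn (R n) (p n v.2)) (fun _ _ _ _ e => ?_) _)).congr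
          (fun v _ => by ring) |>.mono le_rfl (by linarith [hK.1 n]) (by linarith))
      (fun _ _ _ _ e => ?_) (hK'.pos n) fun v hv => ?_⟩
    · obtain ⟨m1, m2, m3⟩ := (mem_cp _ _ v).1 (t v hv).1
      have e := Prod.mk.inj (k.1 _ m2 _ m1 m3)
      have a1 := abs_le.1 (s _ (t v hv).2.1.2)
      have a2 := abs_le.1 (s _ (t v hv).2.2)
      rw [e.1, e.2] at a2
      rw [show 6 * K n / 2 ^ j n = 2 * (3 * K n / 2 ^ j n) by ring, abs_le]
      constructor <;> linarith [a1.1, a1.2, a2.1, a2.2]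
    · simp only [Prod.mk.injEq] at e
      simp only [rn, e.1.2, e.2.2]
    · simp only [Prod.mk.injEq] at e
      simp only [rn, e.1.1, e.2.1]
    · have := (t v hv).2.1.1
      rwa [sub_zero, ← div_le_iff₀' (hK'.pos n)] at this
  have n2 : Nd P R (fun n ω => fl1 (j n) (c₀ n ω)) fun n ω =>
      (fl1 (j n) (κ n ω), fl1 (R n) (U n ω), fl1 (R n) (p n ω)) := by
    refine Nd.whp (C := 1) h.big (hK.const_mul h.big (C := 8) (by norm_num)) w ?_
    filter_upwards [hf, s, w.pos.sure, h.alg] with n k s t g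
    refine ⟨jR n, fun v _ => (k.2 _).2.trans (by linarith [hK.1 n]), ((Cls.small (K := 4 * K n)
      (X := fun ω => c₀ n ω - (rn (R n) (p n ω) - rn (j n) (κ n ω) * rn (R n) (U n ω)))
        fun ω hω => ?_).add (Cls.fn (X := fun ω => rn (R n) (p n ω) -
          rn (j n) (κ n ω) * rn (R n) (U n ω)) (fun _ _ _ _ e => ?_) _)).congr
          (fun v _ => by ring) |>.mono le_rfl (by linarith [hK.1 n]) (by linarith)⟩
    · have a1 := abs_le.1 (s _ (t ω hω).2)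
      have a2 := rn_mem (R n) (g.2.1 ω (t ω hω).1).2.2.1
      have a3 := abs_le.1 ((near_rn (j n) (κ n ω)).trans (dv_anti (hK.pos n).le (hK.1 n) le_rfl))
      rw [mul_div_assoc] at a1
      rw [mul_div_assoc, abs_le]
      constructor <;> nlinarith [a1.1, a1.2, a3.1, a3.2, a2.1, a2.2]
    · simp only [Prod.mk.injEq] at e
      simp only [rn, e.1, e.2.1, e.2.2]
  have n3 := n1.pair ((n2.dn (dn_fst P P (sg Θ d B R) (sg Θ d B R))).trans
    (n1.pair (Nd.fn fun n => Fn.fst _ _)))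
  refine Le.of3 n3 h.i4 h.i4 (hf.mono fun n k => ?_)
  have a1 := mi_two (P n) (σ := sg Θ d B R n) (Fn.fst _ _)
    (fun ω => (fl1 (j n) (κ n ω), fl1 (j n) (c₀ n ω)))
    (fun ω => (fl1 (R n) (U n ω), fl1 (R n) (p n ω)))
    fun ω => (fl1 (R n) (U n ω), fl1 (R n) (p n ω))
  have a2 : mi (P n) (fun ω => (fl1 (j n) (κ n ω), fl1 (j n) (c₀ n ω)))
      (fun ω => (fl1 (R n) (U n ω), fl1 (R n) (p n ω))) (Θ n) ≤ _ :=
    (mi_mono' (F' := sg Θ d B R n) fun a ha b hb e => by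
      have := Prod.mk.inj (k.1 a ha b hb (congrArg (·.1) e))
      simp only [this.1, this.2]).trans_eq (mi_symm _ _ _)
  have a3 := (tg.fst (P n) (P n) (sg Θ d B R n) (sg Θ d B R n)).ch_id
    (fun ω => (fl1 (j n) (κ n ω), fl1 (j n) (c₀ n ω))) (Θ n)
  have a4 := ch_le_mi (P := cp P Θ d B R n)
    (F := fun v => (fl1 (j n) (κ n v.1), fl1 (j n) (c₀ n v.1))) (K := fun v => Θ n v.1)
    (K' := fun v => ((fl1 (R n) (U n v.1), fl1 (R n) (p n v.1)), fl1 (R n) (U n v.2),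
      fl1 (R n) (p n v.2))) (Fn.fst _ _)
  linarith

/-- The rounded coefficients. -/
theorem Hy.core (h : Hy P Θ d A B U p ζ γ R L u α) (h0 : 0 ≤ u) (h1 : u < 1) (h2 : u < α)
    (hγ : Whp P fun n ω => 1 ≤ L n * |γ n ω|) : ∃ (c : ℝ) (j : ℕ → ℕ) (K : ℕ → ℝ)
      (κ c₀ : ∀ n, Ω n → ℝ), 0 < c ∧ Sub R K ∧
      Nd P R (fun n ω => (fl1 (j n) (κ n ω), fl1 (j n) (c₀ n ω))) Θ ∧ Whp P fun n ω =>
        1 ≤ K n * |rn (j n) (κ n ω)| ∧ |rn (j n) (κ n ω)| ≤ K n ∧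
        |p n ω - rn (j n) (κ n ω) * U n ω - rn (j n) (c₀ n ω)| ≤ Real.exp (-(c * R n)) := by
  obtain ⟨j, K, κ, c₀, fj, hK, hf, w⟩ := h.aff h0 h1 h2 hγ
  obtain ⟨c, hc, e⟩ := small_exp (hK.const_mul h.big (C := 3) (by norm_num)) fj
  have h2K := hK.const_mul h.big one_le_two
  refine ⟨c, j, _, κ, c₀, hc, h2K, h.com fj hK hf (w.mono (.of_forall fun _ _ _ a => a.2)),
    w.mono ?_⟩
  filter_upwards [hf, e, h.alg, sub_le_pow h2K fj] with n k e g t ω hω ⟨a1, a2⟩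
  have k1 := hK.1 n
  have b1 := near_rn (j n) (κ n ω)
  have b2 := abs_le.1 ((near_rn (j n) (c₀ n ω)).trans (dv_anti (hK.pos n).le k1 le_rfl))
  have b3 : 2 * K n * (1 / 2 ^ j n) ≤ 1 := by rwa [mul_one_div, div_le_one (by positivity)]
  have b4 := abs_sub_abs_le_abs_sub (κ n ω) (rn (j n) (κ n ω))
  have b5 := abs_sub_abs_le_abs_sub (rn (j n) (κ n ω)) (κ n ω)
  have b6 := abs_le.1 (b1.trans (dv_anti (hK.pos n).le k1 le_rfl))
  have b7 := (g.2.1 ω hω).2.2.1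
  have b8 := abs_le.1 a2
  have b9 : (0 : ℝ) < 1 / 2 ^ j n := by positivity
  rw [abs_sub_comm] at b5
  refine ⟨by nlinarith, by nlinarith [(k.2 ω).1], le_trans ?_ e⟩
  rw [mul_div_assoc, abs_le]
  constructor <;> nlinarith [b2.1, b2.2, b6.1, b6.2, b7.1, b7.2, b8.1, b8.2]

end Pool.Agent.MP_5168f5_an.MX.OffA
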