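import Pool.Agent.MP_5168f5_an.MX.OffA

/-! Speed one: a member of the class with minimal normal entropy satisfies the relation. -/

namespace Pool.Agent.MP_5168f5_an.MX.OffB

open H19 H17S H17F R4.K31 Filter

theorem fl_sc (j k : ℕ) (s : ℝ) : fl1 k (2 ^ j * s) = fl1 (j + k) s := by
  rw [fl1, fl1, pow_add, ← mul_assoc, mul_comm ((2 : ℝ) ^ k)]

theorem fr_eq (a : ℕ) (s : ℝ) : Int.fract (2 ^ a * s) = 2 ^ a * s - fl1 a s := rfl

theorem fl_fr (a R : ℕ) (s : ℝ) :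
    fl1 R (Int.fract (2 ^ a * s)) = fl1 (a + R) s - 2 ^ R * fl1 a s := by
  rw [← fl_sc, fr_eq, fl1, fl1.eq_1 R, mul_sub, ← Int.floor_sub_intCast]
  push_cast
  rfl

variable {u α : ℝ} {x : ℕ → Of}

theorem fnV (x : Of) : Fn x.P (fun ω => (fl1 x.R (Int.fract (2 ^ x.u * x.U ω)),
    fl1 x.R (Int.fract (2 ^ x.c * x.p ω)))) fun ω => (x.V x.R ω, x.Th ω) := fun _ _ _ _ e => by
  simp only [Of.V, Of.Th, Prod.mk.injEq, add_zero] at e
  simp only [fl_fr, e]

theorem fnN (x : Of) (P : FP x.Ω) {i j : ℕ} (e : i ≤ j) : Fn P (x.N i) (x.N j) :=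
  fn_fl1 _ (Nat.add_le_add_left e _)

theorem fnW (x : Of) (P : FP x.Ω) {i j : ℕ} (e : i ≤ j) : Fn P (x.V i) (x.V j) :=
  fun _ _ _ _ h => Prod.ext (fl1_eq_of_le (Nat.add_le_add_left e _) (congrArg Prod.fst h))
    (fl1_eq_of_le (Nat.add_le_add_left e _) (congrArg Prod.snd h))

theorem fnT (x : Of) (P : FP x.Ω) (i j : ℕ) : Fn P x.Th fun ω => (x.N i ω, x.V j ω, x.θ ω) :=
  (((Fn.snd _ _).right _).pair (((fnN x P i.zero_le).left _).pair
    (((fnW x P j.zero_le).left _).right _)))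

theorem core (h0 : 0 ≤ u) (h1 : u < 1) (h2 : u < α) (h : Off α x)
    (ng : R4.NCx.NG1 (fP x) (fun n => (x n).Th) (fun n ω => 2 ^ (x n).a * (x n).A ω) (fR x)
      (1 - u)) : ∃ c : ℝ, 0 < c ∧ Rel c x := by
  obtain ⟨L, hL, a, w⟩ := h.alg
  have n1 : ∀ n, 0 ≤ (x n).i1 := fun n => mi_nonneg _ _ _
  have n2 : ∀ n, 0 ≤ (x n).i2 := fun n => mi_nonneg _ _ _
  have n3 : ∀ n, 0 ≤ (x n).i3 := fun n => mi_nonneg _ _ _
  have H : OffA.Hy (fP x) (fun n => (x n).Th) (fun n => (x n).d)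
      (fun n ω => 2 ^ (x n).a * (x n).A ω) (fun n ω => 2 ^ (x n).a * (x n).B ω)
      (fun n ω => Int.fract (2 ^ (x n).u * (x n).U ω))
      (fun n ω => Int.fract (2 ^ (x n).c * (x n).p ω)) (fun n => (x n).ζ) (fun n => (x n).γ)
      (fR x) L u α := by
    refine ⟨h.big, hL, ng, a.mono fun n k => ?_, h.inf.mono (.of_forall fun n => ?_),
      h.inf.mono (.of_forall fun n => ?_), h.inf.mono (.of_forall fun n => ?_),
      Fro.of_rob h.big fun j hj E hE => (h.fro _ _ _ (dnS_cE hE) j hj).trans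
        (Le.of_le fun n => ch_anti (fnT _ _ _ _)),
      (h.ful (fun _ => 0) (fR x) fun n => ⟨Nat.zero_le _, le_rfl⟩).of_sub (.of_forall fun n => ?_)⟩
    · have f : Fn (x n).P (fun ω => ((x n).d ω, (x n).θ ω)) fun ω => ((x n).d ω, (x n).Th ω) :=
        fun _ _ _ _ e => Prod.ext (congrArg (·.1) e) (congrArg (·.2.1) e)
      refine ⟨k.fn.trans f, fun ω hω => ⟨(k.bd ω hω).1, (k.bd ω hω).2,
        ⟨Int.fract_nonneg _, Int.fract_lt_one _⟩, Int.fract_nonneg _, Int.fract_lt_one _⟩,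
        Cls.of_fn fun _ _ _ _ e => by simp only [fl_sc]; exact congrArg (·.2.1) e,
        (((k.rel.ctx f).add (Cls.fn (X := fun ω => (x n).γ ω * fl1 (x n).u ((x n).U ω) -
          (x n).ζ ω * fl1 (x n).c ((x n).p ω)) (fun v hv v' hv' e => ?_) _)).congr
            fun ω _ => by simp only [fr_eq]; ring).mono le_rfl (hL.pos n).le (by simp)⟩
      have := Prod.mk.inj (k.fn v hv v' hv' (f v hv v' hv' e))
      simp only [Of.V, Of.Th, Prod.mk.injEq, add_zero] at e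
      simp only [this, e]
    · simp only [fl_sc]
      exact (mi_mono (fnV _)).trans (show (x n).i1 ≤ _ by linarith [n2 n, n3 n])
    · simp only [fl_sc]
      refine (mi_mono (G' := fun ω => ((x n).N (x n).R ω, (x n).V (x n).R ω))
        (((Fn.fst _ _).left _).pair ((fnV _).trans (((Fn.snd _ _).left _).pair
          (Fn.snd _ _))))).trans (show (x n).i2 ≤ _ by linarith [n1 n, n3 n])
    · simp only [fl_sc]
      exact (mi_mono' (fnV _)).trans (show (x n).i3 ≤ _ by linarith [n1 n, n2 n])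
    · have : ch (x n).P (fun ω => fl1 ((x n).u + (x n).R) ((x n).U ω))
          (fun ω => ((x n).N (x n).R ω, (x n).V 0 ω, (x n).θ ω)) ≤
          ch (x n).P (fun ω => fl1 (x n).R (Int.fract (2 ^ (x n).u * (x n).U ω))) (x n).Th :=
        ch_le (fun _ _ _ _ e => by
          simp only [Of.V, Prod.mk.injEq, add_zero, fl_fr] at e
          have := e.1
          rw [e.2.2.1.1] at this
          linarith) (fnT _ _ _ _)
      simp only [Nat.cast_zero, sub_zero]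
      linarith
  obtain ⟨c, j, K, κ, c₀, hc, hK, m, v⟩ := H.core h0 h1 h2 w
  refine ⟨c, hc, fun _ => (ℤ × ℤ) × ℤ × ℤ,
    fun n ω => ((fl1 (j n) (κ n ω), fl1 (j n) (c₀ n ω)), (x n).V 0 ω), fun n l => l.1.1 / 2 ^ j n,
    fun n l => l.1.2 / 2 ^ j n + l.2.2 - l.1.1 / 2 ^ j n * l.2.1, K, hK,
    m.pair (Nd.fn fun n _ _ _ _ e => congrArg (·.2.2) e),
    v.mono (.of_forall fun n ω _ b => ⟨b.1, b.2.1, le_of_eq_of_le ?_ b.2.2⟩)⟩
  simp only [fr_eq, rn, Of.V, add_zero]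
  congr 1; ring

theorem hA_le (x : Of) : x.hA ≤ x.R * lg :=
  (ch_fl1_refine (P := x.P) (x := x.A) (G := x.Th)
    (j := fun _ => x.a) (i := fun _ => x.R) (fun _ _ _ _ _ => rfl) (fun _ _ _ _ _ => rfl)
    fun _ _ _ _ e => congrArg (·.2.1) e).trans_eq (FP.E_const _ _)

theorem hA_nonneg (x : Of) : 0 ≤ x.hA := ch_nonneg _ _

/-- A member with minimal normal entropy. -/
theorem exmin {Y : Type 1} (f : Y → Of) {T : (ℕ → Y) → Prop} (hT : R4.CF (S := fun _ => Y) T)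
    (big : ∀ y, T y → Big fun n => (f (y n)).R) (h0 : ∃ y, T y) : ∃ (u : ℝ) (y : ℕ → Y), T y ∧
      Le (fun n => (f (y n)).R) (fun n => (f (y n)).hA) (fun n => u * (f (y n)).R * lg) ∧
      ∀ y, T y → Le (fun n => (f (y n)).R) (fun n => u * (f (y n)).R * lg)
        fun n => (f (y n)).hA := by
  obtain ⟨p, hp⟩ := hT
  obtain ⟨s, ⟨y, a, b⟩, c⟩ := R4.K31.sup p (fun _ y => -((f y).hA / (f y).R)) 1
    (h0.imp fun x => (hp x).1) fun y hy => ((big y ((hp y).2 hy)).ev 1).mono fun n k => by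
      rw [abs_neg, abs_of_nonneg (div_nonneg (hA_nonneg _) (by positivity)),
        div_le_one (by linarith)]
      exact (hA_le _).trans (mul_le_of_le_one_right (by positivity) lg_lt_one.le)
  have e : ∀ r : ℝ, -s / lg * r * lg = -s * r := fun r => by field_simp [lg_pos.ne']
  refine ⟨-s / lg, y, (hp y).2 a, fun ε hε => ?_, fun z hz ε hε => ?_⟩
  · filter_upwards [b ε hε, (big y ((hp y).2 a)).ev 1] with n k r
    have : (f (y n)).hA / (f (y n)).R ≤ -s + ε := by linarith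
    rw [div_le_iff₀ (by linarith)] at this
    rw [e]; linarith
  · filter_upwards [c z ((hp z).1 hz) ε hε, (big z hz).ev 1] with n k r
    have : -s - ε ≤ (f (z n)).hA / (f (z n)).R := by linarith
    rw [le_div_iff₀ (by linarith)] at this
    rw [e]; linarith

theorem zm_le (x : Of) {W : Type} (Q : FP W) (ρ : W → x.Ω) {i j : ℕ} (e : i ≤ j) :
    (x.zm Q ρ i (j - i)).hA ≤ ch Q (fun v => x.N j (ρ v)) fun v => (x.N i (ρ v), x.Th (ρ v)) := by
  refine ch_le (fun _ _ _ _ q => ?_) fun _ _ _ _ q => ?_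
  · have := congrArg Prod.fst q
    simp only [Of.N] at this ⊢
    rwa [add_assoc, Nat.add_sub_cancel' e]
  · simp only [Of.Th, Of.N, Of.V, Prod.mk.injEq, add_zero] at q ⊢
    exact ⟨q.2.1, q.1, fl1_eq_of_le (Nat.le_add_right _ _) q.2.1,
      fl1_eq_of_le (Nat.le_add_right _ _) q.2.2.1, fl1_eq_of_le (Nat.le_add_right _ _) q.2.2.2⟩

theorem three (x : Of) {i j : ℕ} (e : i ≤ j) (e' : j ≤ x.R) :
    ch x.P (x.N i) (fun ω => (x.N 0 ω, x.Th ω)) + ch x.P (x.N j) (fun ω => (x.N i ω, x.Th ω)) +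
      ch x.P (x.N x.R) (fun ω => (x.N j ω, x.Th ω)) ≤ x.hA := by
  have a1 := ch_chain (P := x.P) (x.N i) (x.N j) x.Th
  have a2 := ch_chain (P := x.P) (x.N j) (x.N x.R) x.Th
  have a3 : ch x.P (fun ω => (x.N i ω, x.N j ω)) x.Th ≤ ch x.P (x.N j) x.Th :=
    ch_mono (((fnN _ _ e).pair (Fn.rfl _)).left _)
  have a4 : ch x.P (fun ω => (x.N j ω, x.N x.R ω)) x.Th ≤ x.hA :=
    ch_mono (((fnN _ _ e').pair (Fn.rfl _)).left _)
  have a5 : ch x.P (x.N i) (fun ω => (x.N 0 ω, x.Th ω)) ≤ ch x.P (x.N i) x.Th :=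
    ch_anti (Fn.snd _ _)
  linarith

/-- The rate of a minimiser in all windows, on all events. -/
theorem ng1 (h0 : 0 ≤ u) (up : Le (fR x) (fun n => (x n).hA) fun n => u * (x n).R * lg)
    (lo : ∀ (W : ℕ → Type) (Q : ∀ n, FP (W n)) (ρ : ∀ n, W n → (x n).Ω) (s j : ℕ → ℕ),
      DnS Q ρ (fP x) → (∀ n, s n + j n ≤ fR x n) → Frac j (fR x) →
      Le j (fun n => u * j n * lg) fun n => ((x n).zm (Q n) (ρ n) (s n) (j n)).hA) :
    R4.NCx.NG1 (fP x) (fun n => (x n).Th) (fun n ω => 2 ^ (x n).a * (x n).A ω) (fR x) (1 - u) := by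
  have l1 : ∀ (W : ℕ → Type) (Q : ∀ n, FP (W n)) (ρ : ∀ n, W n → (x n).Ω) (i j : ℕ → ℕ),
      DnS Q ρ (fP x) → (∀ n, i n ≤ j n ∧ j n ≤ fR x n) →
      Le (fR x) (fun n => u * (j n - i n) * lg) fun n => ch (Q n) (fun v => (x n).N (j n) (ρ n v))
        fun v => ((x n).N (i n) (ρ n v), (x n).Th (ρ n v)) := fun W Q ρ i j d e => by
    have c : ∀ n, ((j n - i n : ℕ) : ℝ) = j n - i n := fun n => Nat.cast_sub (e n).1
    refine Le.win (i := fun n => j n - i n) (fun n => (Nat.sub_le _ _).trans (e n).2) (u * lg)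
      (fun f => ((lo W Q ρ i _ d (fun n => by have := e n; omega) f).up f.1).of_sub
        (.of_forall fun n => ?_)) (Le.of_le fun n => ?_)
    · rw [← c]
      exact sub_le_sub_left (zm_le (x n) (Q n) (ρ n) (e n).1) _
    · rw [c]
      linarith [ch_nonneg (P := Q n) (fun v => (x n).N (j n) (ρ n v))
        fun v => ((x n).N (i n) (ρ n v), (x n).Th (ρ n v))]
  intro W Q ρ i j E l e hE
  obtain ⟨κ, hκ, b⟩ := hE
  have l2 : Le (fR x) (fun n => ch (x n).P ((x n).N (j n)) fun ω =>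
      ((x n).N (i n) ω, (x n).Th ω)) fun n => u * (j n - i n) * lg :=
    Le.of3 up (l1 _ _ _ (fun _ => 0) i (dn_rfl _) fun n =>
      ⟨Nat.zero_le _, (e n).1.trans (e n).2⟩) (l1 _ _ _ j (fR x) (dn_rfl _) fun n =>
        ⟨(e n).2, le_rfl⟩) (.of_forall fun n => by
          have := three (x n) (e n).1 (e n).2
          simp only [id, Nat.cast_zero]
          linarith)
  have l3 : Le (fR x) (fun n => ch (cE (Q n) (E n)) (fun v => (x n).N (j n) (ρ n v)) fun v =>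
      ((x n).N (i n) (ρ n v), (x n).Th (ρ n v))) fun n => u * (j n - i n) * lg := by
    refine KSA.event (fR x) (fun n => pb (Q n) (E n)) _ _ (fun n => ch (cE (Q n) fun v => ¬E n v)
      (fun v => (x n).N (j n) (ρ n v)) fun v => ((x n).N (i n) (ρ n v), (x n).Th (ρ n v))) _ u κ
      hκ (b.mono fun n k => ⟨k, pb_le_one _ _, ch_nonneg _ _, ?_, (rowKE.ge _ _ _ _).trans_eq
        ((l n).ch_id _ fun ω => ((x n).N (i n) ω, (x n).Th ω))⟩) l2 fun ⟨κ', a, b⟩ =>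
      l1 _ _ _ i j (dn_ev (dn_law l) ⟨κ', a, b.mono fun n k => by rwa [pb_not]⟩) e
    have a1 : (i n : ℝ) ≤ j n := by exact_mod_cast (e n).1
    have a2 : (j n : ℝ) ≤ fR x n := by exact_mod_cast (e n).2
    have a3 : (0 : ℝ) ≤ i n := Nat.cast_nonneg _
    rw [abs_of_nonneg (mul_nonneg (mul_nonneg h0 (by linarith)) lg_pos.le)]
    exact (mul_le_of_le_one_right (mul_nonneg h0 (by linarith)) lg_lt_one.le).trans
      (mul_le_mul_of_nonneg_left (by linarith) h0)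
  simpa only [fl_sc, sub_sub_cancel, Of.N] using l3

/-- From a member with small normal entropy to a member with the relation. -/
theorem off_min (cl : SOClo) (ca : SOCar) {κ ι u₀ : ℝ} (k1 : κ ≤ 1) (hu : u₀ < κ) {y : ℕ → Oc}
    (h1 : Car κ ι y) (h2 : Off κ fun n => (y n).of)
    (h3 : Le (fun n => (y n).R) (fun n => (y n).of.hA) fun n => u₀ * (y n).R * lg) :
    ∃ (c : ℝ) (y : ℕ → Oc), 0 < c ∧ Car κ ι y ∧ Rel c fun n => (y n).of := by
  obtain ⟨u, z, ⟨a1, a2⟩, a3, a4⟩ := exmin Oc.of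
    (T := fun y => Car κ ι y ∧ Off κ fun n => (y n).of)
    ((ca κ ι).1.and ((((cl κ).1.comp fun _ => Oc.of).and (R4.cf_le (fun _ (y : Oc) => y.R)
      (fun _ y => y.of.i1 + y.of.i2 + y.of.i3) fun _ _ => 0)).congr fun y =>
        ⟨fun h => ⟨h.1, h.2⟩, fun h => ⟨h.1, h.2⟩⟩)) (fun y h => h.2.big) ⟨y, h1, h2⟩
  have u0 : 0 ≤ u := le_of_mul_le_mul_right (Le.num a2.big (a3.of_sub (.of_forall fun n => by
    linarith [hA_nonneg (z n).of]))) lg_pos
  have u1 : u ≤ u₀ := le_of_mul_le_mul_right (Le.num h2.big (((a4 y ⟨h1, h2⟩).trans h3).of_sub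
    (.of_forall fun n => by linarith))) lg_pos
  obtain ⟨c, hc, r⟩ := core u0 (by linarith) (by linarith) a2 (ng1 u0 a3 fun W Q ρ s j d e f =>
    a4 _ ⟨(ca κ ι).2 z a1 W Q ρ s j d e f, (cl κ).2 _ a2 W Q ρ s j d e f⟩)
  exact ⟨c, z, hc, a1, r⟩

end Pool.Agent.MP_5168f5_an.MX.OffB
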