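import Pool.Agent.MP_5168f5_an.MX.QApi
import Pool.Agent.MP_5168f5_an.MX.Dg

/-! The classes of windows are closed under diagonal limits. -/

namespace Pool.Agent.MP_5168f5_an.MX

open H19 H17S H17F R4.K31 Filter

namespace Dg

variable {X : Type 1} (o : X → Ob) (k R D : X → ℕ) {κ r ι : ℝ}

/-- For all windows. -/
theorem inn {F : (ℕ → X) → (ℕ → ℕ) → (ℕ → ℕ) → Prop} (h : Dg fun z : ℕ → Σ _ : X, ℕ × ℕ =>
      F (fun n => (z n).1) (fun n => (z n).2.1) fun n => (z n).2.2) :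
    Dg fun x => ∀ a b, In (fun n => k (x n)) (fun n => R (x n)) a b → F x a b :=
  (pi (Y := fun _ => ℕ × ℕ) (F := fun x y => In (fun n => k (x n)) (fun n => R (x n))
    (fun n => (y n).1) (fun n => (y n).2) → F x (fun n => (y n).1) fun n => (y n).2)
    (imp (nev fun _ _ => rfl) h)).congr fun _ =>
      ⟨fun u _ => u _ _, fun u i j => u fun n => (i n, j n)⟩

/-- For all levels. -/
theorem in1 {F : (ℕ → X) → (ℕ → ℕ) → Prop}
    (h : Dg fun z : ℕ → Σ _ : X, ℕ => F (fun n => (z n).1) fun n => (z n).2) :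
    Dg fun x => ∀ a, In (fun n => k (x n)) (fun n => R (x n)) a a → F x a :=
  pi (Y := fun _ => ℕ) (F := fun x a => In (fun n => k (x n)) (fun n => R (x n)) a a → F x a)
    (imp (nev fun _ _ => rfl) h)

/-- On all refinements. -/
theorem al {φ : (ℕ → ℕ) → (ℕ → ℕ) → (ℕ → Ob) → Prop}
    (h : ∀ (Y : Type 1) (o : Y → Ob) (k R : Y → ℕ), Dg fun x : ℕ → Y =>
      φ (fun n => k (x n)) (fun n => R (x n)) fun n => o (x n)) :
    Dg fun x : ℕ → X => All (fun n => o (x n)) (φ (fun n => k (x n)) fun n => R (x n)) :=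
  dn (W := fun a => (o a).Ω) (p := fun a => (o a).P)
    (F := fun x _ Q ρ => φ (fun n => k (x n)) (fun n => R (x n))
      fun n => (o (x n)).pull (Q n) (ρ n))
    (h (Σ a, Rf (o a).Ω) (fun z => (o z.1).pull z.2.Q z.2.ρ) (fun z => k z.1) fun z => R z.1)

theorem hgt : Dg fun x : ℕ → X => Hgt κ (fun n => k (x n)) (fun n => R (x n)) fun n => o (x n) :=
  inn k R ((le fun _ _ => rfl).and (le fun _ _ => rfl))

theorem up : Dg fun x : ℕ → X => Up ι (fun n => k (x n)) (fun n => R (x n)) fun n => o (x n) :=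
  inn k R (le fun _ _ => rfl)

theorem spd : Dg fun x : ℕ → X => Spd r (fun n => k (x n)) (fun n => R (x n)) fun n => o (x n) :=
  inn k R ((le fun _ _ => rfl).and (le fun _ _ => rfl))

theorem plx : Dg fun x : ℕ → X => Plx (fun n => k (x n)) (fun n => R (x n)) fun n => o (x n) :=
  inn k R (le fun _ _ => rfl)

theorem l6 : Dg fun x : ℕ → X => L6 (fun n => k (x n)) (fun n => R (x n)) fun n => o (x n) :=
  inn k R (le fun _ _ => rfl)

theorem bs : Dg fun x : ℕ → X => Bs κ (fun n => o (x n)) (fun n => k (x n)) fun n => R (x n) :=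
  ((big fun _ _ => rfl).and ((ev fun _ _ => rfl).and (al o k R fun _ o k R => hgt o k R))).congr
    fun _ => ⟨fun h => ⟨h.big, h.alg, h.hgt⟩, fun h => ⟨h.1, h.2.1, h.2.2⟩⟩

theorem rot : Dg fun x : ℕ → X => Rot (fun n => o (x n)) (fun n => k (x n)) fun n => R (x n) :=
  ((in1 k R (sm fun _ _ => rfl)).and (in1 k R (F := fun x a => ∀ b, Frac b (fun n => R (x n)) →
    (∀ᶠ n in UF, (o (x n)).f (a n) + b n ≤ (o (x n)).f (o (x n)).j) →
    NA (oP fun n => o (x n)) (fun n => (o (x n)).x.g) (fun n => 1 / 2 ^ ((o (x n)).f (a n) + b n))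
      fun n => (o (x n)).wn (a n)) (frac (fun _ _ => rfl) (imp (nev fun _ _ => rfl)
        (na (X := Σ _ : Σ _ : X, ℕ, ℕ) (p := fun z => (o z.1.1).P) (y := fun z => (o z.1.1).x.g)
          (r := fun z => 1 / 2 ^ ((o z.1.1).f z.1.2 + z.2))
          (K := fun z => (o z.1.1).wn z.1.2)))))).congr fun _ =>
    ⟨fun h => ⟨h.det, fun a e b => h.nd a b e⟩, fun h => ⟨h.1, fun a b e => h.2 a e b⟩⟩

theorem dp : Dg fun x : ℕ → X => Dp κ (fun n => o (x n)) (fun n => k (x n)) fun n => R (x n) :=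
  ((bs o k R).and ((rot o k R).and ((ev fun _ _ => rfl).and (frac (M := fun x n => R (x n))
    (F := fun x b => NA (oP fun n => o (x n)) (fun n => (o (x n)).x.e1)
      (fun n => 1 / 2 ^ ((o (x n)).d + b n)) fun n => (o (x n)).S (o (x n)).j) (fun _ _ => rfl)
    (na (X := Σ _ : X, ℕ) (p := fun z => (o z.1).P) (y := fun z => (o z.1).x.e1)
      (r := fun z => 1 / 2 ^ ((o z.1).d + z.2)) (K := fun z => (o z.1).S (o z.1).j)))))).congr
    fun _ => ⟨fun h => ⟨h.toBs, h.toRot, h.deep, h.ne⟩, fun h => ⟨h.1, h.2.1, h.2.2.1, h.2.2.2⟩⟩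

theorem gen : Dg fun x : ℕ → X => Gen κ (fun n => o (x n)) (fun n => k (x n)) fun n => R (x n) :=
  ((dp o k R).and ((al o k R fun _ => plx).and (al o k R fun _ => l6))).congr fun _ =>
    ⟨fun h => ⟨h.toDp, h.plx, h.l6⟩, fun h => ⟨h.1, h.2.1, h.2.2⟩⟩

theorem lin : Dg fun x : ℕ → X =>
    Lin κ r ι (fun n => o (x n)) (fun n => k (x n)) fun n => R (x n) :=
  ((gen o k R).and ((spd o k R).and (al o k R fun _ o k R => up o k R))).congr fun _ =>
    ⟨fun h => ⟨h.toGen, h.lin, h.up⟩, fun h => ⟨h.1, h.2.1, h.2.2⟩⟩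

theorem tan : Dg fun x : ℕ → X =>
    Tan κ r ι (fun n => o (x n)) (fun n => k (x n)) (fun n => R (x n)) fun n => D (x n) :=
  ((dp o k R).and ((spd o k R).and ((al o k R fun _ o k R => up o k R).and
    ((all fun _ : ℕ => ev fun _ _ => rfl).and ((inn k R (sm fun _ _ => rfl)).and
      (inn k R (le fun _ _ => rfl))))))).congr fun _ =>
    ⟨fun h => ⟨h.toDp, h.lin, h.up, h.cap, h.ind, h.lat⟩,
      fun h => ⟨h.1, h.2.1, h.2.2.1, h.2.2.2.1, h.2.2.2.2.1, h.2.2.2.2.2⟩⟩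

end Dg

end Pool.Agent.MP_5168f5_an.MX
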