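import Pool.Agent.MP_5168f5_an.MX.OffDefs
import Pool.Agent.MP_5168f5_an.MX.QDg

/-! Speed one, the sum-product step: the carriers. -/

namespace Pool.Agent.MP_5168f5_an.MX

open H19 H17S H17F R4.K31 Filter

attribute [local irreducible] ch mi pb fl1

theorem rowOCar : SOCar := fun κ ι => by
  refine ⟨Dg.cf (((Dg.tan Oc.o Oc.k Oc.R Oc.D).and ((Dg.ev fun _ _ => rfl).and
    ((Dg.le fun _ _ => rfl).and (Dg.le fun _ _ => rfl)))).congr fun _ =>
      ⟨fun h => ⟨h.tan, h.ar, h.c1, h.c2⟩, fun h => ⟨h.1, h.2.1, h.2.2.1, h.2.2.2⟩⟩),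
    fun y h W Q ρ s j d hs hj => ?_⟩
  have sp := h.tan.lin (fun n => (y n).k) (fun n => (y n).k + s n)
    (Eventually.of_forall fun n => ⟨le_rfl, Nat.le_add_right _ _,
      Nat.add_le_add_left (le_of_add_le_left (hs n)) _⟩)
  refine ⟨(h.tan.pull d).win ⟨hj, Eventually.of_forall fun n =>
    ⟨Nat.le_add_right _ _, Nat.le_add_right _ _, by have := hs n; dsimp only; omega⟩⟩, ?_,
    Le.frac (h.c1.of2 sp.2 (Eventually.of_forall fun n => ?_)) hj,
    Le.frac (h.c2.of2 sp.1 (Eventually.of_forall fun n => ?_)) hj⟩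
  · filter_upwards [h.ar, h.tan.mono] with n u m
    have := hs n
    have m1 := m (Nat.le_add_right (y n).k (s n))
    have m2 := m (show (y n).k + s n + j n ≤ (y n).k + (y n).R by omega)
    simp only [Oc.Ar] at u ⊢
    omega
  · push_cast; linarith
  · push_cast; linarith

theorem rowOLoc : SOLoc := fun κ ι o k R D j Z a s b h ha hs hb => by
  have e : ∀ n, b * j n + j n ≤ R n := fun n =>
    (Nat.succ_mul b (j n) ▸ Nat.mul_le_mul_right (j n) hb).trans (h.le n)
  have sp := h.tan.lin k (fun n => k n + b * j n)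
    (Eventually.of_forall fun n => ⟨le_rfl, Nat.le_add_right _ _,
      Nat.add_le_add_left (le_of_add_le_left (e n)) _⟩)
  refine ⟨(h.tan.pull (dn_fst _ _ _ _)).win ⟨h.fr, Eventually.of_forall fun n =>
    ⟨Nat.le_add_right _ _, Nat.le_add_right _ _, by have := e n; dsimp only; omega⟩⟩, ?_,
    Le.frac (sp.2.of_sub (Eventually.of_forall fun n => ?_)) h.fr,
    Le.frac (sp.1.of_sub (Eventually.of_forall fun n => ?_)) h.fr⟩
  · filter_upwards [sp.2.frac h.fr 1 one_pos, (h.tan.lin _ _ (in_all k R)).1 1 one_pos,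
      h.tan.cap 3, h.tan.mono] with n u v w m
    have := e n
    have m1 := m (show k n + b * j n + j n ≤ k n + R n by omega)
    have m2 : s * j n + j n ≤ b * j n := Nat.succ_mul s (j n) ▸ Nat.mul_le_mul_right (j n) hs
    have m3 : a * j n ≤ s * j n := Nat.mul_le_mul_right (j n) (by omega)
    have u' : (o n).f (k n) + b * j n ≤ (o n).f (k n + b * j n) + j n := by
      have : ((o n).f (k n) : ℝ) + b * j n ≤ (o n).f (k n + b * j n) + j n := by
        push_cast at u; linarith
      exact_mod_cast this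
    have v' : (o n).f (k n + R n) ≤ (o n).f (k n) + 2 * R n := by
      have : ((o n).f (k n + R n) : ℝ) ≤ (o n).f (k n) + 2 * R n := by
        push_cast at v; linarith
      exact_mod_cast this
    simp only [Oc.Ar, add_mul, true_and]
    omega
  · push_cast; linarith
  · push_cast; linarith

end Pool.Agent.MP_5168f5_an.MX
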