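import Pool.Agent.MP_5168f5_an.MX.OffDefs

/-! Speed one, the sum-product step: the class is closed under refinements and windows. -/

namespace Pool.Agent.MP_5168f5_an.MX

open H19 H17S H17F R4.K31 Filter Finset

namespace OffCloA

section Info

variable {Ω α β γ γ' T : Type} {P : FP Ω} {n : ℕ → Ω → α} {v : ℕ → Ω → β} (θ : Ω → T) {s t R : ℕ}
  (hn : ∀ i k, i ≤ k → Fn P (n i) (n k)) (hv : ∀ i k, i ≤ k → Fn P (v i) (v k)) (h1 : s ≤ t)
  (h2 : t ≤ R)

include hn hv h1 h2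

theorem m2 (d : Ω → γ) : mi P d (fun ω => (n t ω, v t ω)) (fun ω => (θ ω, n s ω, v s ω)) ≤
    mi P d (fun ω => (n R ω, v R ω)) fun ω => (θ ω, n 0 ω, v 0 ω) := by
  refine mi_right ?_ ?_ ?_ <;> intro a ha b hb e <;> simp only [Prod.mk.injEq] at e ⊢
  · exact ⟨e.1, hn 0 s s.zero_le a ha b hb e.2.1, hv 0 s s.zero_le a ha b hb e.2.2⟩
  · exact ⟨e.2.1, hn s R (h1.trans h2) a ha b hb e.1.1, hv s R (h1.trans h2) a ha b hb e.1.2⟩
  · exact ⟨hn t R h2 a ha b hb e.1.1, hv t R h2 a ha b hb e.1.2⟩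

theorem m1 : mi P (n t) (v t) (fun ω => (θ ω, n s ω, v s ω)) ≤
    mi P (n R) (v R) fun ω => (θ ω, n 0 ω, v 0 ω) := by
  refine (mi_right (G := v R) (K := fun ω => (θ ω, n s ω, v 0 ω)) ?_ ?_ ?_).trans
    (mi_left ?_ ?_ ?_) <;> intro a ha b hb e <;> simp only [Prod.mk.injEq] at e ⊢
  · exact ⟨e.1, e.2.1, hv 0 s s.zero_le a ha b hb e.2.2⟩
  · exact ⟨e.2.1, e.2.2.1, hv s R (h1.trans h2) a ha b hb e.1⟩
  · exact hv t R h2 a ha b hb e.1
  · exact ⟨e.1, hn 0 s s.zero_le a ha b hb e.2.1, e.2.2⟩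
  · exact ⟨e.2.1, hn s R (h1.trans h2) a ha b hb e.1, e.2.2.2⟩
  · exact hn t R h2 a ha b hb e.1

theorem m3 {G : Ω → γ} {G' : Ω → γ'} (hG : Fn P G G') :
    mi P (v t) G (fun ω => (θ ω, n s ω, v s ω)) ≤ mi P (v R) G' (fun ω => (θ ω, n 0 ω, v 0 ω)) +
      ch P (n s) fun ω => (G ω, θ ω, n 0 ω, v s ω) := by
  have a1 : mi P (v t) G (fun ω => (θ ω, n 0 ω, v s ω)) ≤
      mi P (v R) G' fun ω => (θ ω, n 0 ω, v 0 ω) := by
    refine (mi_mono (hG.left _)).trans (mi_left ?_ ?_ ?_) <;> intro a ha b hb e <;>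
      simp only [Prod.mk.injEq] at e ⊢
    · exact ⟨e.1, e.2.1, hv 0 s s.zero_le a ha b hb e.2.2⟩
    · exact ⟨e.2.1, e.2.2.1, hv s R (h1.trans h2) a ha b hb e.1⟩
    · exact hv t R h2 a ha b hb e.1
  have a2 : ch P (v t) (fun ω => (θ ω, n s ω, v s ω)) ≤
      ch P (v t) fun ω => (θ ω, n 0 ω, v s ω) := ch_anti fun a ha b hb e => by
    simp only [Prod.mk.injEq] at e ⊢
    exact ⟨e.1, hn 0 s s.zero_le a ha b hb e.2.1, e.2.2⟩
  have a3 := ch_tri' (P := P) (v t) (fun ω => (G ω, θ ω, n 0 ω, v s ω))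
    fun ω => (G ω, θ ω, n s ω, v s ω)
  have a4 : ch P (fun ω => (G ω, θ ω, n s ω, v s ω)) (fun ω => (G ω, θ ω, n 0 ω, v s ω)) ≤
      ch P (n s) fun ω => (G ω, θ ω, n 0 ω, v s ω) := ch_mono fun a _ b _ e => by
    simp only [Prod.mk.injEq] at e ⊢
    tauto
  unfold mi at a1 ⊢
  linarith

end Info

theorem det {Ω β : Type} {P : FP Ω} {X : Ω → ℝ} {G : Ω → β} {j : ℕ} (i : ℕ)
    (h : Fn P (fun ω => fl1 j (X ω)) G) : Det P (fun ω => fl1 (j + i) (X ω)) G (2 ^ i) :=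
  fun a ha => ⟨Finset.Ico (2 ^ i * fl1 j (X a)) (2 ^ i * fl1 j (X a) + 2 ^ i), by
    rw [Int.card_Ico, add_sub_cancel_left,
      show ((2 : ℤ) ^ i) = ((2 ^ i : ℕ) : ℤ) by push_cast; rfl, Int.toNat_natCast]
    push_cast; exact le_rfl, fun b hb e => fl1_mem_Ico (h b hb a ha e)⟩

theorem sh (j k : ℕ) (z : ℝ) : fl1 k (2 ^ j * z) = fl1 (j + k) z := by
  rw [fl1, fl1, pow_add, ← mul_assoc, mul_comm ((2 : ℝ) ^ k)]

variable (x : Of) {W : Type} (Q : FP W) (ρ : W → x.Ω)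

theorem zN (s j i : ℕ) : (x.zm Q ρ s j).N i = fun w => x.N (s + i) (ρ w) :=
  funext fun _ => by simp only [Of.N, add_assoc]

theorem zV (s j i : ℕ) : (x.zm Q ρ s j).V i = fun w => x.V (s + i) (ρ w) :=
  funext fun _ => by simp only [Of.V, add_assoc]

theorem fN (i k : ℕ) (h : i ≤ k) : Fn Q (fun w => x.N i (ρ w)) fun w => x.N k (ρ w) :=
  fun _ _ _ _ e => fl1_eq_of_le (Nat.add_le_add_left h _) e

theorem fV (i k : ℕ) (h : i ≤ k) : Fn Q (fun w => x.V i (ρ w)) fun w => x.V k (ρ w) :=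
  fun _ _ _ _ e => Prod.ext (fl1_eq_of_le (Nat.add_le_add_left h _) (congrArg Prod.fst e))
    (fl1_eq_of_le (Nat.add_le_add_left h _) (congrArg Prod.snd e))

theorem ctx {i i' k k' : ℕ} (h : i ≤ i') (h' : k ≤ k') :
    Fn Q (fun w => (x.N i (ρ w), x.V k (ρ w), x.θ (ρ w)))
      fun w => (x.N i' (ρ w), x.V k' (ρ w), x.θ (ρ w)) :=
  ((fN x Q ρ _ _ h).left _).pair ((((fV x Q ρ _ _ h').left _).pair (Fn.snd _ _)).right _)

variable {x Q ρ} {C L : ℝ}

theorem alg (d : Dn C Q ρ x.P) (h : x.Alg L) (l : 0 ≤ L) {s j : ℕ} (e : s + j ≤ x.R) :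
    (x.zm Q ρ s j).Alg L := by
  refine ⟨d.fn h.fn, fun w hw => h.bd _ (d.mem hw), fun a ha b hb q => ?_⟩
  have a1 := (h.rel _ (d.mem ha) _ (d.mem hb) q).trans (dv_anti l le_rfl e)
  have a2 := mul_le_mul_of_nonneg_left a1 (show (0 : ℝ) ≤ 2 ^ s by positivity)
  rw [← abs_of_pos (show (0 : ℝ) < 2 ^ s by positivity), ← abs_mul,
    abs_of_pos (show (0 : ℝ) < 2 ^ s by positivity)] at a2
  refine (le_of_eq (congrArg _ ?_)).trans (a2.trans (le_of_eq ?_))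
  · simp only [pow_add]; ring
  · rw [pow_add]; field_simp

/-- The normal digits at the first point are almost known from those at the second point. -/
theorem cls (h : x.Alg L) (l : 0 ≤ L) {s t : ℕ} (h1 : s ≤ t) (h2 : t ≤ x.R) :
    Cls x.P (fun ω => ((x.d ω, fl1 (x.a + t) (x.B ω)), x.θ ω, x.N 0 ω, x.V s ω))
      (fun ω => 2 ^ x.a * x.A ω) s (3 * L + 1) := by
  obtain ⟨G, hG⟩ : ∃ G, G = fun ω => ((x.d ω, fl1 (x.a + t) (x.B ω)), x.θ ω, x.N 0 ω, x.V s ω) :=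
    ⟨_, rfl⟩
  have f1 : Fn x.P (fun ω => (x.d ω, x.θ ω)) G := hG ▸ fun a _ b _ e => by
    simp only [Prod.mk.injEq] at e ⊢
    tauto
  have c1 := (h.rel.ctx f1).mono (h1.trans h2) l le_rfl
  have c2 : Cls x.P G (fun ω => 2 ^ x.a * x.B ω) s 1 := .of_fn (hG ▸ fun a _ b _ e => by
    simp only [Prod.mk.injEq, sh] at e ⊢
    exact fl1_eq_of_le (Nat.add_le_add_left h1 _) e.1.2)
  have c3 : Cls x.P G (fun ω => 2 ^ x.c * x.p ω) s 1 := .of_fn (hG ▸ fun a _ b _ e => by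
    simp only [Of.V, Prod.mk.injEq, sh] at e ⊢
    exact e.2.2.2.2)
  have c4 : Cls x.P G (fun ω => 2 ^ x.u * x.U ω) s 1 := .of_fn (hG ▸ fun a _ b _ e => by
    simp only [Of.V, Prod.mk.injEq, sh] at e ⊢
    exact e.2.2.2.1)
  have c5 := c3.mulL (k := 0) (L := L) (((Fn.fst _ _).trans h.fn).trans f1) fun ω hω => by
    simpa using (h.bd ω hω).1
  have c6 := c4.mulL (k := 0) (L := L) (((Fn.snd _ _).trans h.fn).trans f1) fun ω hω => by
    simpa using (h.bd ω hω).2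
  rw [zero_add] at c5 c6
  rw [← hG]
  exact ((((c1.add c2).sub c5).add c6).congr fun ω _ => by ring).mono le_rfl (by positivity)
    (by linarith)

end OffCloA

open OffCloA in
theorem rowOClo : SOClo := by
  refine fun α => ⟨Dg.cf ((Dg.and (.big fun _ _ => rfl) (.and (.sub (fun _ _ => rfl)
    (.and (.ev fun _ _ => rfl) (.whp fun _ _ => rfl))) (.and
      (.dn (.lev (fun _ _ => rfl) (.le fun _ _ => rfl)))
      (.win (fun _ _ => rfl) (.le fun _ _ => rfl))))).congr fun x =>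
        ⟨fun h => ⟨h.1, h.2, h.3, h.4⟩, fun h => ⟨h.1, h.2.1, h.2.2.1, h.2.2.2⟩⟩),
    fun x h W Q ρ s j d e fr => ?_⟩
  have hM := h.big
  obtain ⟨L, l1, l2, l3⟩ := h.alg
  refine ⟨⟨hM.frac fr, ⟨L, l1.frac fr, ?_, d.whp l3⟩, fun W' Q' ρ' d' i hi => ?_,
    fun i i' hi => ?_⟩, ?_⟩
  · obtain ⟨C, -, d⟩ := d
    exact (d.and l2).mono fun n u => alg u.1 u.2 (l1.pos n).le (e n)
  · refine ((h.fro W' Q' _ (d'.trans d) i fun n => (hi n).trans (fr.1 n)).trans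
      (.of_le fun n => ?_)).frac fr
    rw [zN, zV]
    exact ch_anti (ctx (x n) (Q' n) (fun w => ρ n (ρ' n w)) (e n) (e n))
  · have k : ∀ n, Real.log (2 ^ (i' n - i n)) = (i' n - i n) * lg := fun n => by
      rw [log_two_pow, Nat.cast_sub (hi n).1]
    have a1 := d.full hM (F := fun n ω => fl1 ((x n).u + (s n + i' n)) ((x n).U ω))
      (G := fun n ω => ((x n).N (x n).R ω, (x n).V (s n + i n) ω, (x n).θ ω))
      (N := fun n => 2 ^ (i' n - i n)) (Eventually.of_forall fun n => by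
        have := det (P := (x n).P) (X := (x n).U) (j := (x n).u + (s n + i n)) (i' n - i n)
          (G := fun ω => ((x n).N (x n).R ω, (x n).V (s n + i n) ω, (x n).θ ω))
          fun a _ b _ e => congrArg (fun z : ℤ × (ℤ × ℤ) × (x n).T => z.2.1.1) e
        rwa [add_assoc, add_assoc, Nat.add_sub_cancel' (hi n).1] at this)
      ((Le.of_le fun n => by rw [k]; push_cast; ring_nf; rfl).trans
        (h.ful (fun n => s n + i n) (fun n => s n + i' n) fun n =>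
          ⟨Nat.add_le_add_left (hi n).1 _, (Nat.add_le_add_left (hi n).2 _).trans (e n)⟩))
    refine ((Le.of_le fun n => (k n).ge).trans (a1.trans (.of_le fun n => ?_))).frac fr
    rw [zN, zV, ← add_assoc]
    exact ch_anti (ctx (x n) (Q n) (ρ n) (e n) le_rfl)
  · have p1 : ∀ n, 0 ≤ (x n).i1 := fun n => mi_nonneg _ _ _
    have p2 : ∀ n, 0 ≤ (x n).i2 := fun n => mi_nonneg _ _ _
    have p3 : ∀ n, 0 ≤ (x n).i3 := fun n => mi_nonneg _ _ _
    have a1 := d.sm_mi hM (h.inf.mono (f := fun n => (x n).i1)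
      (Eventually.of_forall fun n => by linarith [p2 n, p3 n]))
    have a2 := d.sm_mi hM (h.inf.mono (f := fun n => (x n).i2)
      (Eventually.of_forall fun n => by linarith [p1 n, p3 n]))
    have a3 := d.sm_mi hM (h.inf.mono (f := fun n => (x n).i3)
      (Eventually.of_forall fun n => by linarith [p1 n, p2 n]))
    have a4 := d.sm_ch (Sm.near1 hM ((l1.const_mul hM (C := 3) (by norm_num)).add
      (hM.sub le_rfl) hM) (l2.mono fun n u => cls u (l1.pos n).le (Nat.le_add_right _ _) (e n)))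
    refine ((((a1.add a2).add a3).add a4).mono (Eventually.of_forall fun n => ?_)).frac fr
    have b1 := m1 (fun w => (x n).θ (ρ n w)) (fN (x n) (Q n) (ρ n)) (fV (x n) (Q n) (ρ n))
      (Nat.le_add_right _ _) (e n)
    have b2 := m2 (fun w => (x n).θ (ρ n w)) (fN (x n) (Q n) (ρ n)) (fV (x n) (Q n) (ρ n))
      (Nat.le_add_right _ _) (e n) fun w => (x n).d (ρ n w)
    have b3 := m3 (fun w => (x n).θ (ρ n w)) (fN (x n) (Q n) (ρ n)) (fV (x n) (Q n) (ρ n))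
      (Nat.le_add_right _ _) (e n)
      (G := fun w => ((x n).d (ρ n w), fl1 ((x n).a + (s n + j n)) ((x n).B (ρ n w))))
      (G' := fun w => ((x n).d (ρ n w), fl1 ((x n).a + (x n).R) ((x n).B (ρ n w))))
      ((Fn.fst _ _).pair fun _ _ _ _ u =>
        fl1_eq_of_le (Nat.add_le_add_left (e n) _) (congrArg Prod.snd u))
    simp only [Of.i1, Of.i2, Of.i3, zN, zV, sh, add_assoc]
    refine (add_le_add b1 (add_le_add b2 b3)).trans (le_of_eq ?_)
    rfl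

end Pool.Agent.MP_5168f5_an.MX
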