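import Pool.Agent.MP_5168f5_an.MX.QSpec

/-! Closure properties of the classes, nested cells, labels of box shape. -/

namespace Pool.Agent.MP_5168f5_an.MX

open H19 H17S H17F R4.K31 Filter

/-! ### One system -/

namespace Ob

variable {o : Ob} {a b c : ℕ} {γ : Type}

theorem S_wn (o : Ob) (a : ℕ) : Fn o.P (o.S a) (o.wn a) := bx_lz le_rfl le_rfl

theorem S_zg (o : Ob) (a : ℕ) : Fn o.P (o.x.zg a (o.f a)) (o.S a) := bx_zg (p := o.pm a)

theorem S_z (o : Ob) (a : ℕ) : Fn o.P (fun ω => fl1 a (o.x.z ω)) (o.S a) :=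
  (Fn.comp Prod.fst _).trans (o.S_zg a)

theorem S_y (o : Ob) (a : ℕ) : Fn o.P (fun ω => fl1 (a + o.d) (o.x.y1 a ω)) (o.S a) :=
  bx_t (p := o.pm a)

theorem S_e (o : Ob) (a : ℕ) : Fn o.P (fun ω => fl1 o.d (o.x.e1 ω)) (o.S a) := bx_E (p := o.pm a)

theorem l_wn (o : Ob) (a : ℕ) : Fn o.P o.x.l (o.wn a) := Fn.comp Prod.fst _

theorem w_wn (o : Ob) (a : ℕ) : Fn o.P (o.w a) (o.wn a) :=
  Fn.comp (fun u => (u.1, u.2.1)) (o.wn a)

theorem ep_l (o : Ob) (a : ℕ) : Fn o.P (o.ep a) o.x.l :=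
  Fn.comp (fun u => fl1 (o.d + a) u.2.2.1) o.x.l

theorem ep_mono (h : a ≤ b) : Fn o.P (o.ep a) (o.ep b) := fn_fl1 _ (by omega)

theorem wn_lS (o : Ob) (a : ℕ) : Fn o.P (o.wn a) fun ω => (o.x.l ω, o.S a ω) :=
  (Fn.fst _ _).pair ((o.S_zg a).right _)

theorem lS_wn (o : Ob) (a : ℕ) : Fn o.P (fun ω => (o.x.l ω, o.S a ω)) (o.wn a) :=
  (o.l_wn a).pair (o.S_wn a)

theorem wn_mono (hm : Monotone o.f) (h : a ≤ b) : Fn o.P (o.wn a) (o.wn b) := fn_lz h (hm h)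

theorem w_mono (h : a ≤ b) : Fn o.P (o.w a) (o.w b) := fun _ _ _ _ e =>
  Prod.ext (congrArg (·.1) e :) (fl1_eq_of_le h (congrArg Prod.snd e))

theorem pm_rd (hm : Monotone o.f) (h : a ≤ b) : (o.pm a).Rd (o.pm b) := by
  have := hm h
  simp only [Pm.Rd, pm, lab]; omega

/-- A finer cell knows the coarser one. -/
theorem kn_S (hm : Monotone o.f) (h : a ≤ b) {K : o.Ω → γ} (k : Fn o.P (o.S b) K) :
    Kn o.P o.x K (o.pm a) 4 := by
  simpa using (Kn.of_fn (p := o.pm b) k).move (q := o.pm a)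
    ((fn_zg h (hm h)).trans ((o.S_zg b).trans k)) (pm_rd hm h)

theorem ch_S (hm : Monotone o.f) (h : a ≤ b) {K : o.Ω → γ} (k : Fn o.P (o.S b) K) :
    ch o.P (o.S a) K ≤ 40 := by
  have := (kn_S hm h k).ch
  norm_num at this; exact this

theorem J_add (o : Ob) (a b c : ℕ) : o.J a b + o.J b c = o.J a c := by simp only [J]; ring

theorem F_add (o : Ob) (ν : ℝ) (a b c : ℕ) : o.F ν a b + o.F ν b c = o.F ν a c := by
  simp only [F, J]; ring

theorem J_le (o : Ob) (a b : ℕ) : o.J a b ≤ mi o.P o.x.l (o.S b) (o.S a) :=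
  sub_le_sub_left (ch_anti (Fn.fst _ _)) _

theorem le_J (hm : Monotone o.f) (h : a ≤ b) : mi o.P o.x.l (o.S b) (o.S a) ≤ o.J a b + 40 := by
  have h1 := ch_S hm h (Fn.rfl (o.S b))
  have h2 := ch_drop (P := o.P) o.x.l (o.S a) (o.S b)
  have h3 : ch o.P o.x.l (fun ω => (o.S a ω, o.S b ω)) ≤ ch o.P o.x.l fun ω => (o.S b ω, o.S a ω) :=
    ch_anti ((Fn.snd _ _).pair (Fn.fst _ _))
  simp only [J, mi]; linarith

theorem J_ge (hm : Monotone o.f) (h : a ≤ b) : -40 ≤ o.J a b := by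
  linarith [le_J hm h, mi_nonneg (P := o.P) o.x.l (o.S b) (o.S a)]

theorem Alg.pull (h : o.Alg) {W : Type} {Q : FP W} {ρ : W → o.Ω} (e : ∀ v ∈ Q.S, ρ v ∈ o.P.S) :
    (o.pull Q ρ).Alg := ⟨fun v hv => h.box _ (e v hv), h.mono, h.flo⟩

theorem Alg.rn (h : o.Alg) (p : ℕ) {ω : o.Ω} (hω : ω ∈ o.P.S) : |rn p (o.x.g ω)| ≤ 1 := by
  obtain ⟨h1, h2⟩ := abs_le.1 (h.box ω hω).2.2.2.2.2.2.1
  refine abs_le.2 ⟨?_, (rn_le _ _).trans h2⟩
  rw [MX.rn, le_div_iff₀ (by positivity)]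
  have : (-(2 ^ p : ℤ)) ≤ fl1 p (o.x.g ω) := Int.le_floor.2 (by
    push_cast; nlinarith [show (0 : ℝ) < 2 ^ p by positivity])
  have h3 : ((-(2 ^ p : ℤ) : ℤ) : ℝ) ≤ fl1 p (o.x.g ω) := by exact_mod_cast this
  push_cast at h3; linarith

end Ob

/-- The matrix of a box with frame `g`. -/
noncomputable def bm (t D : ℕ) (g : ℝ) : Mt := ((2 ^ t, 0), (-(2 ^ D * g), 2 ^ D))

theorem bm_dt (t D : ℕ) (g : ℝ) : (bm t D g).dt = 2 ^ (t + D) := by
  simp [bm, Mt.dt, pow_add]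

theorem bm_norm (t D : ℕ) {g : ℝ} (h : |g| ≤ 1) : ‖bm t D g‖ = 2 ^ max t D := by
  have h1 : (0 : ℝ) < 2 ^ t := by positivity
  have h2 : (0 : ℝ) < 2 ^ D := by positivity
  simp only [bm, Prod.norm_mk, Real.norm_eq_abs, abs_zero, abs_neg, abs_mul, abs_of_pos h1,
    abs_of_pos h2]
  rw [max_eq_left h1.le, max_eq_right (mul_le_of_le_one_right h2.le h)]
  exact ((pow_right_mono₀ (one_le_two (α := ℝ))).map_max).symm

theorem bm_val (ν : ℝ) (t D : ℕ) {g : ℝ} (h : |g| ≤ 1) :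
    (bm t D g).val ν = ((1 + ν) * (t + D) - 2 * ν * (max t D : ℕ)) * lg := by
  rw [Mt.val, bm_dt, bm_norm t D h, abs_of_pos (by positivity), log_two_pow, log_two_pow]
  push_cast; ring

theorem bm_ap (t D : ℕ) (g u v : ℝ) : (bm t D g).ap u v = (2 ^ t * u, 2 ^ D * (v - g * u)) := by
  simp only [bm, Mt.ap]; congr 1 <;> ring

theorem pw_le {x L : ℝ} {t E a : ℕ} (h : |x| ≤ L / 2 ^ E) (e : t ≤ a + E) :
    |2 ^ t * x| ≤ L * 2 ^ a := by
  rw [abs_mul, abs_of_pos (by positivity : (0 : ℝ) < 2 ^ t)]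
  calc (2 : ℝ) ^ t * |x| ≤ 2 ^ (a + E) * (L / 2 ^ E) :=
        mul_le_mul (pow_le_pow_right₀ one_le_two e) h (abs_nonneg _) (by positivity)
    _ = L * 2 ^ a := by rw [pow_add]; field_simp

/-- A variable that knows a box is a label. -/
theorem Kn.lab {o : Ob} (ho : o.Alg) {γ : Type} {K : o.Ω → γ} {p : Pm} {L : ℝ} {a : ℕ}
    (h : Kn o.P o.x K p L) (ha : a ≤ p.i) (ht : p.t ≤ a + p.E) (hD : p.D ≤ a + p.c)
    (hM : p.t ≤ o.M ∧ p.D ≤ o.M) :
    o.Lab a L K (fun ω => bm p.t p.D (rn p.f (o.x.g ω))) fun ω => rn p.i (o.x.z ω) := by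
  have h0 : 0 ≤ L := zero_le_one.trans h.one
  have fz : Fn o.P (fun ω => fl1 p.i (o.x.z ω)) K := (Fn.comp Prod.fst _).trans h.zg
  have fg : Fn o.P (fun ω => rn p.f (o.x.g ω)) K := fn_rn ((Fn.comp Prod.snd _).trans h.zg)
  refine ⟨h.θ, (fn_fl1 _ ha).trans fz, (Fn.comp (bm p.t p.D) _).trans fg, fn_rn fz,
    fun ω hω => ⟨by rw [bm_dt]; positivity, ?_, ?_⟩, fun u hu v hv e => ?_⟩
  · rw [bm_norm _ _ (ho.rn _ hω)]
    exact (pow_le_pow_right₀ one_le_two (max_le hM.1 hM.2)).trans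
      (le_mul_of_one_le_left (by positivity) h.one)
  · refine le_trans ?_ (dv_anti h0 h.one ha)
    rw [abs_le]; constructor <;> linarith [rn_le p.i (o.x.z ω), lt_rn p.i (o.x.z ω),
      show (0 : ℝ) < 1 / 2 ^ p.i by positivity]
  · have e1 : rn p.i (o.x.z u) = rn p.i (o.x.z v) := fn_rn fz u hu v hv e
    have e2 : rn p.f (o.x.g u) = rn p.f (o.x.g v) := fg u hu v hv e
    have a1 := pw_le (a := 0) (t := p.t) (h.t u hu v hv e) (by omega)
    have a2 := pw_le (a := 0) (t := p.D) (h.D u hu v hv e) (by omega)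
    have a3 := pw_le (h.E u hu v hv e) ht
    have a4 := pw_le (h.c u hu v hv e) hD
    simp only [Pl.y1, Pl.nm, Pl.tl, ← e1, ← e2, pow_zero, mul_one] at a1 a2 a4
    simp only [bm_ap, Prod.norm_mk, Real.norm_eq_abs, max_le_iff]
    refine ⟨⟨?_, ?_⟩, a3, ?_⟩
    · refine le_of_eq_of_le (congrArg _ ?_) a1; ring
    · refine le_of_eq_of_le (congrArg _ ?_) a2; ring
    · refine le_of_eq_of_le (congrArg _ ?_) a4; ring

theorem phi_bm {o : Ob} (ho : o.Alg) (ν : ℝ) {γ : Type} (K : o.Ω → γ) (t D f : ℕ) :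
    o.Phi ν K (fun ω => bm t D (rn f (o.x.g ω))) =
      ch o.P o.x.l K + ((1 + ν) * (t + D) - 2 * ν * (max t D : ℕ)) * lg := by
  rw [Ob.Phi, o.P.E_congr fun ω hω => bm_val ν t D (ho.rn f hω), FP.E_const]

theorem fl1_pow (a j : ℕ) (z : ℝ) : fl1 j (2 ^ a * z) = fl1 (a + j) z := by
  simp only [fl1, pow_add]; congr 1; ring

/-! ### Sequences -/

attribute [local irreducible] ch mi pb fl1

variable {o : ℕ → Ob} {k R k' R' a b D : ℕ → ℕ} {W : ℕ → Type} {Q : ∀ n, FP (W n)}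
  {ρ : ∀ n, W n → (o n).Ω} {φ ψ : (ℕ → Ob) → Prop} {ν β κ r ι : ℝ}

theorem All.self (h : All o φ) : φ o := h _ (oP o) (fun _ => id) (dn_rfl _)

theorem All.pull (h : All o φ) (d : DnS Q ρ (oP o)) : All (fun n => (o n).pull (Q n) (ρ n)) φ :=
  fun W' Q' ρ' d' => h W' Q' (fun n v => ρ n (ρ' n v)) (d'.trans d)

theorem All.mono (h : All o φ) (e : ∀ o, φ o → ψ o) : All o ψ := fun W Q ρ d => e _ (h W Q ρ d)

/-- On an event. -/
theorem All.ev (h : All o φ) {E : ∀ n, (o n).Ω → Prop} (e : Pos (oP o) E) :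
    φ fun n => (o n).pull (cE (o n).P (E n)) id := h _ _ _ (dnS_cE e)

theorem In.left (h : In k R a b) : In k R a a := h.mono fun _ u => ⟨u.1, le_rfl, u.2.1.trans u.2.2⟩

theorem In.right (h : In k R a b) : In k R b b := h.mono fun _ u => ⟨u.1.trans u.2.1, le_rfl, u.2.2⟩

theorem in_all (k R : ℕ → ℕ) : In k R k fun n => k n + R n :=
  Eventually.of_forall fun _ => ⟨le_rfl, Nat.le_add_right _ _, le_rfl⟩

/-- `[k', k' + R']` is a window of `[k, k + R]` of comparable length. -/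
structure Wi (k R k' R' : ℕ → ℕ) : Prop where
  frac : Frac R' R
  sub : In k R k' fun n => k' n + R' n

theorem Wi.in (w : Wi k R k' R') (h : In k' R' a b) : In k R a b :=
  (w.sub.and h).mono fun _ u => ⟨u.1.1.trans u.2.1, u.2.2.1, u.2.2.2.trans u.1.2.2⟩

theorem Hgt.win (h : Hgt κ k R o) (w : Wi k R k' R') : Hgt κ k' R' o := fun a b e =>
  ⟨(h a b (w.in e)).1.frac w.frac, (h a b (w.in e)).2.frac w.frac⟩

theorem Up.win (h : Up ι k R o) (w : Wi k R k' R') : Up ι k' R' o := fun a b e =>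
  (h a b (w.in e)).frac w.frac

theorem Spd.win (h : Spd r k R o) (w : Wi k R k' R') : Spd r k' R' o := fun a b e =>
  ⟨(h a b (w.in e)).1.frac w.frac, (h a b (w.in e)).2.frac w.frac⟩

theorem Plx.win (h : Plx k R o) (w : Wi k R k' R') : Plx k' R' o := fun a b e =>
  (h a b (w.in e)).frac w.frac

theorem L6.win (h : L6 k R o) (w : Wi k R k' R') : L6 k' R' o := fun a b e =>
  (h a b (w.in e)).frac w.frac

theorem Bs.mono (h : Bs κ o k R) : ∀ᶠ n in UF, Monotone (o n).f := h.alg.mono fun _ u => u.1.mono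

theorem Bs.pull (h : Bs κ o k R) (d : DnS Q ρ (oP o)) :
    Bs κ (fun n => (o n).pull (Q n) (ρ n)) k R :=
  ⟨h.big, (h.alg.and (DnS_mem d)).mono fun _ u => ⟨u.1.1.pull u.2, u.1.2⟩, h.hgt.pull d⟩

theorem Bs.win (h : Bs κ o k R) (w : Wi k R k' R') : Bs κ o k' R' :=
  ⟨h.big.frac w.frac, (h.alg.and w.sub).mono fun _ u => ⟨u.1.1, u.2.2.2.trans u.1.2⟩,
    h.hgt.mono fun _ u => u.win w⟩

theorem Rot.pull (h : Rot o k R) (d : DnS Q ρ (oP o)) :
    Rot (fun n => (o n).pull (Q n) (ρ n)) k R :=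
  ⟨fun a e => d.sm_ch (h.det a e), fun a b e f g => (h.nd a b e f g).dn d⟩

theorem Rot.win (h : Rot o k R) (w : Wi k R k' R') : Rot o k' R' :=
  ⟨fun a e => Le.frac (h.det a (w.in e)) w.frac,
    fun a b e f g => h.nd a b (w.in e) (f.trans w.frac) g⟩

theorem XT.pull (h : XT ν β κ o k R) (d : DnS Q ρ (oP o)) :
    XT ν β κ (fun n => (o n).pull (Q n) (ρ n)) k R :=
  ⟨h.toBs.pull d, h.top, h.lgM, h.opt.pull d⟩

theorem XR.pull (h : XR ν β κ o k R) (d : DnS Q ρ (oP o)) :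
    XR ν β κ (fun n => (o n).pull (Q n) (ρ n)) k R := ⟨h.toXT.pull d, h.toRot.pull d, h.rb⟩

theorem rowPull : SPull := fun _ _ _ _ _ _ h _ _ _ d => h.pull d

theorem Dp.pull (h : Dp κ o k R) (d : DnS Q ρ (oP o)) :
    Dp κ (fun n => (o n).pull (Q n) (ρ n)) k R :=
  ⟨h.toBs.pull d, h.toRot.pull d, h.deep, fun b e => (h.ne b e).dn d⟩

theorem Dp.win (h : Dp κ o k R) (w : Wi k R k' R') : Dp κ o k' R' :=
  ⟨h.toBs.win w, h.toRot.win w, by
    filter_upwards [h.deep, h.mono, w.sub] with n u v y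
    exact (add_le_add (v y.2.2) (w.frac.1 n)).trans u, fun b e => h.ne b (e.trans w.frac)⟩

theorem Dp.nd' (h : Dp κ o k R) (e : In k R a a) (f : Frac b R) : NA (oP o) (fun n => (o n).x.g)
    (fun n => 1 / 2 ^ ((o n).f (a n) + b n)) fun n => (o n).wn (a n) :=
  h.nd a b e f (by
    filter_upwards [h.deep, h.mono, e] with n u v y
    exact (add_le_add (v y.2.2) (f.1 n)).trans u)

theorem Gen.pull (h : Gen κ o k R) (d : DnS Q ρ (oP o)) :
    Gen κ (fun n => (o n).pull (Q n) (ρ n)) k R := ⟨h.toDp.pull d, h.plx.pull d, h.l6.pull d⟩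

theorem Gen.win (h : Gen κ o k R) (w : Wi k R k' R') : Gen κ o k' R' :=
  ⟨h.toDp.win w, h.plx.mono fun _ u => u.win w, h.l6.mono fun _ u => u.win w⟩

theorem Lin.win (h : Lin κ r ι o k R) (w : Wi k R k' R') : Lin κ r ι o k' R' :=
  ⟨h.toGen.win w, h.lin.win w, h.up.mono fun _ u => u.win w⟩

theorem det_ref {Ω β : Type} {P : FP Ω} {x : Ω → ℝ} {G : Ω → β} {j i : ℕ}
    (h : Fn P (fun ω => fl1 j (x ω)) G) : Det P (fun ω => fl1 (j + i) (x ω)) G (2 ^ i) :=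
  fun a ha => ⟨Finset.Ico (2 ^ i * fl1 j (x a)) (2 ^ i * fl1 j (x a) + 2 ^ i), by
    rw [Int.card_Ico, add_sub_cancel_left,
      show ((2 : ℤ) ^ i) = ((2 ^ i : ℕ) : ℤ) by push_cast; rfl, Int.toNat_natCast]
    push_cast; exact le_rfl, fun b hb e => fl1_mem_Ico (h b hb a ha e)⟩

theorem Tan.pull (h : Tan κ r ι o k R D) (d : DnS Q ρ (oP o)) :
    Tan κ r ι (fun n => (o n).pull (Q n) (ρ n)) k R D := by
  refine ⟨h.toDp.pull d, h.lin, h.up.pull d, h.cap, fun a b e => d.sm_mi h.big (h.ind a b e),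
    fun a b e => ?_⟩
  have e1 : ∀ᶠ n in UF, Real.log (2 ^ (b n - a n)) = (b n - a n : ℝ) * lg :=
    e.mono fun n u => by rw [log_two_pow, Nat.cast_sub u.2.1]
  refine (d.full h.big (N := fun n => 2 ^ (b n - a n)) (e.mono fun n u => ?_)
    ((h.lat a b e).congr e1 (Eventually.of_forall fun _ => rfl))).congr
      (e1.mono fun _ u => u.symm) (Eventually.of_forall fun _ => rfl)
  have := det_ref (i := b n - a n) (((o n).S_y (a n)).left ((o n).ep (D n)))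
  rwa [show a n + (o n).d + (b n - a n) = b n + (o n).d by have := u.2.1; omega] at this

theorem Tan.win (h : Tan κ r ι o k R D) (w : Wi k R k' R') : Tan κ r ι o k' R' D :=
  ⟨h.toDp.win w, h.lin.win w, h.up.mono fun _ u => u.win w,
    fun C => (h.cap C).mono fun n u => (Nat.mul_le_mul_left C (w.frac.1 n)).trans u,
    fun a b e => Le.frac (h.ind a b (w.in e)) w.frac, fun a b e => (h.lat a b (w.in e)).frac w.frac⟩

/-- The height rate given the line, the window and the frame. -/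
theorem hgt_lo (h : Bs κ o k R) (h' : Rot o k R) (e : In k R a b) :
    Le R (fun n => κ * (b n - a n) * lg) fun n =>
      ch (o n).P (fun ω => fl1 (b n) ((o n).x.z ω)) ((o n).wn (a n)) :=
  (h.hgt.self a b e).1.of2 (h'.det a e.left) (Eventually.of_forall fun n => by
    have h1 := ch_drop (P := (o n).P) (fun ω => fl1 (b n) ((o n).x.z ω))
      (fun ω => fl1 ((o n).f (a n)) ((o n).x.g ω)) ((o n).w (a n))
    have h2 : ch (o n).P (fun ω => fl1 (b n) ((o n).x.z ω)) (fun ω =>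
        (fl1 ((o n).f (a n)) ((o n).x.g ω), (o n).w (a n) ω)) ≤
        ch (o n).P (fun ω => fl1 (b n) ((o n).x.z ω)) ((o n).wn (a n)) :=
      ch_anti fun _ _ _ _ e => by
        simp only [Ob.w, Ob.wn, Pl.lz, Pl.zg, Prod.mk.injEq] at e ⊢; tauto
    simp only [Ob.hz]; linarith)

theorem hgt_up (h : Bs κ o k R) (h' : Rot o k R) (e : In k R a b) :
    Le R (fun n => ch (o n).P ((o n).x.zg (b n) ((o n).f (b n))) ((o n).wn (a n)))
      fun n => κ * (b n - a n) * lg :=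
  (h.hgt.self a b e).2.of2 (h'.det b e.right) (Eventually.of_forall fun n => by
    have h1 := ch_chain (P := (o n).P) (fun ω => fl1 (b n) ((o n).x.z ω))
      (fun ω => fl1 ((o n).f (b n)) ((o n).x.g ω)) ((o n).w (a n))
    have h2 : ch (o n).P ((o n).x.zg (b n) ((o n).f (b n))) ((o n).wn (a n)) ≤ ch (o n).P (fun ω =>
        (fl1 (b n) ((o n).x.z ω), fl1 ((o n).f (b n)) ((o n).x.g ω))) ((o n).w (a n)) :=
      ch_anti ((o n).w_wn _)
    have h3 : ch (o n).P (fun ω => fl1 ((o n).f (b n)) ((o n).x.g ω))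
        (fun ω => (fl1 (b n) ((o n).x.z ω), (o n).w (a n) ω)) ≤
        ch (o n).P (fun ω => fl1 ((o n).f (b n)) ((o n).x.g ω)) ((o n).w (b n)) :=
      ch_anti fun _ _ _ _ e => by simp only [Ob.w, Prod.mk.injEq] at e ⊢; tauto
    simp only [Ob.hz]; linarith)

/-- The pointwise form. -/
theorem fro_z (h : Bs κ o k R) (h' : Rot o k R) (w : Wi k R k' R') :
    Fro (oP o) (fun n => (o n).wn (k' n)) (fun n ω => 2 ^ k' n * (o n).x.z ω) R' κ := by
  refine Fro.of_rob (h.big.frac w.frac) fun j hj E hE => ?_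
  have := hgt_lo ((h.win w).pull (dnS_cE hE)) ((h'.win w).pull (dnS_cE hE))
    (a := k') (b := fun n => k' n + j n)
    (Eventually.of_forall fun n => ⟨le_rfl, Nat.le_add_right _ _, Nat.add_le_add_left (hj n) _⟩)
  refine this.congr (Eventually.of_forall fun n => by push_cast; ring)
    (Eventually.of_forall fun n => ?_)
  simp only [fl1_pow]; rfl

/-- Optimality against a variable that knows a box. -/
theorem Opt.box (h : Opt ν β k R o) (ho : ∀ᶠ n in UF, (o n).Alg) {γ : ℕ → Type}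
    {K : ∀ n, (o n).Ω → γ n} {p : ℕ → Pm} {L : ℕ → ℝ} (e : In k R a a) (hL : Sub R L)
    (hK : ∀ᶠ n in UF, Kn (o n).P (o n).x (K n) (p n) (L n) ∧ a n ≤ (p n).i ∧
      (p n).t ≤ a n + (p n).E ∧ (p n).D ≤ a n + (p n).c ∧ (p n).t ≤ (o n).M ∧ (p n).D ≤ (o n).M) :
    Le R (fun n => ch (o n).P (o n).x.l (K n) + ((1 + ν) * ((p n).t + (p n).D) -
      2 * ν * (max (p n).t (p n).D : ℕ)) * lg + β * ((o n).j - a n) * lg) fun n => (o n).top ν :=
  (h a L γ K _ _ e hL ((hK.and ho).mono fun _ u => u.1.1.lab u.2 u.1.2.1 u.1.2.2.1 u.1.2.2.2.1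
    u.1.2.2.2.2)).congr (ho.mono fun n u => by rw [phi_bm u]) (Eventually.of_forall fun _ => rfl)

/-- The loss of a cell. -/
theorem XT.loss (h : XT ν β κ o k R) (e : In k R a a) :
    Le R (fun n => β * ((o n).j - a n) * lg) fun n => (o n).F ν (a n) (o n).j := by
  refine (h.opt.self.box (h.alg.mono fun _ u => u.1) (K := fun n => (o n).S (a n))
    (p := fun n => (o n).pm (a n)) e (h.big.sub le_rfl) ?_).of_sub
      (Eventually.of_forall fun n => ?_)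
  · filter_upwards [h.alg, e] with n u v
    have h1 := u.1.mono (v.2.2.trans u.2)
    have h2 := u.1.flo
    refine ⟨Kn.of_fn (Fn.rfl _), le_rfl, le_rfl, le_rfl, ?_, ?_⟩ <;>
      simp only [Ob.pm, lab] <;> omega
  · simp only [Ob.F, Ob.J, Ob.top, Ob.pm, lab]
    rw [max_eq_right (by omega)]
    push_cast; linarith

end Pool.Agent.MP_5168f5_an.MX
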