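import Pool.Agent.MP_5168f5_an.MX.OffDefs
import Pool.Agent.MP_5168f5_an.MX.NCF
import Pool.Agent.MP_5168f5_an.MX.QApi

/-! Speed one: the noise step gives an affine relation between tilt and lateral position. -/

namespace Pool.Agent.MP_5168f5_an.MX

namespace OCR

open H19 H17S H17F R4.K31 Filter

attribute [local irreducible] ch mi pb fl1

section Fin

variable (x : Of)

/-- The second point, the normal digits there, and the context. -/
noncomputable def X (ω : x.Ω) : (x.Δ × ℤ) × x.T × ℤ × ℤ × ℤ :=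
  ((x.d ω, fl1 (x.a + x.R) (x.B ω)), x.Th ω)

/-- Two lines through the second point. -/
noncomputable def Q : FP (x.Ω × x.Ω) := glue x.P x.P (X x) (X x)

/-- Lateral and tilt digits of both lines. -/
noncomputable def w (v : x.Ω × x.Ω) : (ℤ × ℤ) × ℤ × ℤ := (x.V x.R v.1, x.V x.R v.2)

/-- The scaled lateral difference. -/
noncomputable def r (v : x.Ω × x.Ω) : ℝ := (((w x v).1.1 - (w x v).2.1 : ℤ) : ℝ) / 2 ^ x.R

/-- The scaled tilt difference. -/
noncomputable def q (v : x.Ω × x.Ω) : ℝ := (((w x v).2.2 - (w x v).1.2 : ℤ) : ℝ) / 2 ^ x.R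

open Classical in
/-- The slope. -/
noncomputable def kp (l : ℝ) (ω : x.Ω) : ℝ := if 1 ≤ l * |x.ζ ω| then x.γ ω / x.ζ ω else 0

/-- The intercept for the slope `k`. -/
def Y (k : ℝ) (ω : x.Ω) : ℝ := 2 ^ x.c * x.p ω - k * (2 ^ x.u * x.U ω)

/-- The good event. -/
def E (l l' K : ℝ) (j : ℕ) (v : x.Ω × x.Ω) : Prop :=
  1 ≤ l * |x.ζ v.1| ∧ 1 ≤ l' * |r x v| ∧ |x.ζ v.1 * q x v + r x v * x.γ v.1| ≤ K / 2 ^ j

theorem l1 : Law (Q x) Prod.fst x.P id := tg.fst _ _ _ _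

theorem l2 : Law (Q x) Prod.snd x.P id := tg.snd _ _ _ _ (Law.rfl _)

variable {x} {v a b : x.Ω × x.Ω} {L l l' K k B : ℝ} {j : ℕ}

theorem mem (h : v ∈ (Q x).S) : v.1 ∈ x.P.S ∧ v.2 ∈ x.P.S ∧ (x.d v.2 = x.d v.1 ∧
    fl1 (x.a + x.R) (x.B v.2) = fl1 (x.a + x.R) (x.B v.1)) ∧ x.Th v.2 = x.Th v.1 := by
  simpa only [X, Prod.mk.injEq] using (mem_cp _ _ v).1 h

theorem mi_two {W α β γ δ : Type} (P : FP W) (F : W → α) (G : W → β) (G' : W → γ) (T : W → δ) :
    mi P F (fun v => (G v, G' v)) T ≤ mi P F G T + mi P (fun v => (F v, G v)) G' T :=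
  (mi_chain F G G' T).trans_le (add_le_add le_rfl (mi_left (Fn.snd _ _)
    (((Fn.snd F G).left T).pair (Fn.snd _ _)) ((Fn.fst F G).left T)))

theorem mi_two' {W α β γ δ : Type} (P : FP W) (F : W → α) (G : W → β) (G' : W → γ) (T : W → δ) :
    mi P F (fun v => (G v, G' v)) T ≤ mi P F G T + mi P G' (fun v => (F v, G v)) T :=
  (mi_two P F G G' T).trans_eq (by rw [mi_symm G'])

theorem mi2 {α : Type} (F : x.Ω → α) :
    mi (Q x) (fun v => F v.1) (fun v => x.V x.R v.2) (fun v => x.Th v.1) ≤ x.i3 := by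
  have f : ∀ v ∈ (Q x).S, x.Th v.1 = x.Th v.2 := fun v hv => (mem hv).2.2.2.symm
  have e1 : mi (Q x) (fun v => F v.1) (fun v => x.V x.R v.2) (fun v => x.Th v.2) ≤
      mi x.P (x.V x.R) (X x) x.Th := mi_glue _ _ _ _ (Law.rfl (X x)) F (x.V x.R) x.Th
  have e2 : mi x.P (x.V x.R) (X x) x.Th ≤ x.i3 := mi_mono (Fn.rfl _)
  have e3 := ch_ext (F := fun v : x.Ω × x.Ω => F v.1) (fun _ _ => rfl) f
  have e4 := ch_ext (P := Q x) (F := fun v => F v.1) (G := fun v => (x.V x.R v.2, x.Th v.1))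
    (G' := fun v => (x.V x.R v.2, x.Th v.2)) (fun _ _ => rfl) fun v hv => by rw [f v hv]
  unfold mi at e1 e2 ⊢
  linarith

theorem miD : mi (Q x) (fun v => x.d v.1) (w x) (fun v => x.Th v.1) ≤ x.i2 + x.i3 :=
  (mi_two (Q x) (fun v => x.d v.1) (fun v => x.V x.R v.1) (fun v => x.V x.R v.2) _).trans
    (add_le_add (((l1 x).mi_id x.d (x.V x.R) x.Th).trans_le (mi_mono ((Fn.snd _ _).left _)))
      (mi2 fun ω => (x.d ω, x.V x.R ω)))

theorem miN : mi (Q x) (fun v => x.N x.R v.1) (fun v => (x.d v.1, w x v)) (fun v => x.Th v.1) ≤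
    x.i1 + x.i2 + x.i3 := by
  have e1 : mi (Q x) (fun v => x.N x.R v.1) (fun v => (x.d v.1, w x v)) (fun v => x.Th v.1) ≤
      mi (Q x) (fun v => x.N x.R v.1) (fun v => ((x.V x.R v.1, x.d v.1), x.V x.R v.2))
        fun v => x.Th v.1 := mi_mono fun a _ b _ e => by
    simp only [w, Prod.mk.injEq] at e ⊢
    tauto
  exact e1.trans ((mi_two _ _ _ _ _).trans (add_le_add (((l1 x).mi_id (x.N x.R)
    (fun ω => (x.V x.R ω, x.d ω)) x.Th).trans_le (mi_two' _ _ _ _ _))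
    (mi2 fun ω => (x.N x.R ω, x.V x.R ω, x.d ω))))

theorem chR : ch x.P (fun ω => fl1 (x.u + x.R) (x.U ω)) x.Th - x.i3 ≤
    ch (Q x) (fun v => fl1 x.R (r x v)) fun v => x.Th v.1 := by
  have e1 : ch (Q x) (fun v => (x.V x.R v.2).1) (fun v => x.Th v.1) =
      ch x.P (fun ω => fl1 (x.u + x.R) (x.U ω)) x.Th :=
    (ch_ext (G' := fun v => x.Th v.2) (fun _ _ => rfl) fun v hv => (mem hv).2.2.2.symm).trans
      ((l2 x).ch_id (fun ω => (x.V x.R ω).1) x.Th)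
  have e2 : mi (Q x) (fun v => (x.V x.R v.2).1) (fun v => x.V x.R v.1) (fun v => x.Th v.1) ≤ x.i3 :=
    ((mi_symm _ _ _).trans_le (mi_mono (G' := fun v => x.V x.R v.2) fun _ _ _ _ e =>
      congrArg (·.1.1) e)).trans (mi2 (x.V x.R))
  have e3 : ∀ v, fl1 x.R (r x v) = (x.V x.R v.1).1 - (x.V x.R v.2).1 := fun v => by
    rw [fl1, r, mul_div_cancel₀ _ (by positivity), Int.floor_intCast]; rfl
  have e4 : ch (Q x) (fun v => (x.V x.R v.2).1) (fun v => (x.V x.R v.1, x.Th v.1)) ≤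
      ch (Q x) (fun v => fl1 x.R (r x v)) fun v => x.Th v.1 :=
    ch_le (fun a _ b _ e => by
      simp only [Prod.mk.injEq, e3] at e
      have := e.1
      rw [e.2.1] at this
      simpa using this) (Fn.snd _ _)
  unfold mi at e2
  linarith

theorem dth {s t : x.Ω} (h : (x.d s, x.Th s) = (x.d t, x.Th t)) : (x.d s, x.θ s) = (x.d t, x.θ t) :=
  congrArg (fun y => (y.1, y.2.1)) h

theorem win {a i : ℕ} {y z : ℝ} (h : fl1 (a + i) y = fl1 (a + i) z) :
    |2 ^ a * (y - z)| ≤ 1 / 2 ^ i := by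
  rw [← fl1_pow, ← fl1_pow] at h
  rw [mul_sub, one_div]; exact (abs_sub_lt_of_fl1_eq h).le

theorem sc (u R : ℕ) (y z : ℝ) :
    |((fl1 (u + R) y - fl1 (u + R) z : ℤ) : ℝ) / 2 ^ R - 2 ^ u * (y - z)| ≤ 2 / 2 ^ R := by
  have e : ((fl1 (u + R) y - fl1 (u + R) z : ℤ) : ℝ) / 2 ^ R - 2 ^ u * (y - z) =
      (((fl1 (u + R) y - fl1 (u + R) z : ℤ) : ℝ) - 2 ^ (u + R) * (y - z)) / 2 ^ R := by
    rw [pow_add]; field_simp
  rw [e, abs_div, abs_of_pos (show (0 : ℝ) < 2 ^ R by positivity)]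
  exact div_le_div_of_nonneg_right (Lev.fl1_sub _ _ _) (by positivity)

theorem th {s t : x.Ω} (h : x.Th s = x.Th t) : x.θ s = x.θ t ∧ x.V 0 s = x.V 0 t ∧
    |2 ^ x.a * x.A s - 2 ^ x.a * x.A t| ≤ 1 := by
  simp only [Of.Th, Prod.mk.injEq] at h
  exact ⟨h.1, h.2.2, by simpa only [mul_sub, pow_zero, div_one] using win h.2.1⟩

theorem bd (h : v ∈ (Q x).S) : |r x v| ≤ 3 ∧ |q x v| ≤ 3 := by
  have e := Prod.mk.inj (th (mem h).2.2.2).2.1
  have a1 := abs_le.1 (win e.1)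
  have a2 := abs_le.1 (win e.2)
  have a3 := abs_le.1 (sc x.u x.R (x.U v.1) (x.U v.2))
  have a4 := abs_le.1 (sc x.c x.R (x.p v.2) (x.p v.1))
  have a5 : (2 : ℝ) / 2 ^ x.R ≤ 2 := div_le_self zero_le_two (one_le_pow₀ one_le_two)
  simp only [pow_zero, div_one] at a1 a2
  simp only [r, q, w, Of.V, abs_le]
  refine ⟨⟨?_, ?_⟩, ?_, ?_⟩ <;> linarith [a1.1, a1.2, a2.1, a2.2, a3.1, a3.2, a4.1, a4.2]

theorem mul_bd {s t S T : ℝ} (h : |s| ≤ S) (h' : |t| ≤ T) : -(S * T) ≤ s * t ∧ s * t ≤ S * T :=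
  abs_le.1 ((abs_mul _ _).trans_le (mul_le_mul h h' (abs_nonneg _) ((abs_nonneg _).trans h)))

theorem rel (h : x.Alg L) (hL : 1 ≤ L) (hv : v ∈ (Q x).S) :
    |2 ^ x.a * x.A v.1 - 2 ^ x.a * x.A v.2 - (x.ζ v.1 * q x v + r x v * x.γ v.1)| ≤
      6 * L / 2 ^ x.R := by
  obtain ⟨m1, m2, ⟨m3, m4⟩, m5⟩ := mem hv
  have e : (x.d v.2, x.θ v.2) = (x.d v.1, x.θ v.1) := Prod.ext m3 (th m5).1
  have e1 := Prod.mk.inj (h.fn _ m2 _ m1 e)
  have a1 := abs_le.1 (h.rel _ m2 _ m1 e)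
  have a2 := abs_le.1 (win m4)
  have a3 := mul_bd (h.bd _ m1).2 (sc x.u x.R (x.U v.1) (x.U v.2))
  have a4 := mul_bd (h.bd _ m1).1 (sc x.c x.R (x.p v.2) (x.p v.1))
  have a5 : 1 / 2 ^ x.R ≤ L / 2 ^ x.R := div_le_div_of_nonneg_right hL (by positivity)
  simp only [e1.1, e1.2] at a1
  have a6 : L * (2 / 2 ^ x.R) = 2 * (L / 2 ^ x.R) := by ring
  simp only [r, q, w, Of.V, abs_le, mul_div_assoc (6 : ℝ)]
  constructor <;> linarith [a1.1, a1.2, a2.1, a2.2, a3.1, a3.2, a4.1, a4.2]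

theorem ne0 (h : 1 ≤ l * |k|) : 0 < |k| := abs_pos.2 fun z => by rw [z] at h; norm_num at h

theorem kp_bd (h : x.Alg L) (hl : 0 ≤ l) {ω : x.Ω} (hω : ω ∈ x.P.S) : |kp x l ω| ≤ l * L := by
  obtain ⟨a1, a2⟩ := h.bd ω hω
  have a0 := (abs_nonneg _).trans a1
  unfold kp
  split_ifs with e
  · have : 0 < |x.ζ ω| := ne0 e
    rw [abs_div, div_le_iff₀ this]
    nlinarith
  · rw [abs_zero]; positivity

theorem kp_fn (h : x.Alg L) : Fn x.P (kp x l) fun ω => (x.d ω, x.θ ω) := fun s hs t ht e => by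
  have e1 := Prod.mk.inj (h.fn s hs t ht e)
  simp only [kp, e1.1, e1.2]

theorem E.kp (h : E x l l' K j v) (hl : 0 ≤ l) : |q x v + r x v * kp x l v.1| ≤ l * K / 2 ^ j := by
  obtain ⟨a1, -, a3⟩ := h
  have a0 : 0 < |x.ζ v.1| := ne0 a1
  have e : x.ζ v.1 * q x v + r x v * x.γ v.1 = x.ζ v.1 * (q x v + r x v * OCR.kp x l v.1) := by
    rw [OCR.kp, if_pos a1]; field_simp [abs_pos.1 a0]
  rw [e, abs_mul] at a3
  rw [mul_div_assoc]
  nlinarith [abs_nonneg (q x v + r x v * OCR.kp x l v.1), mul_le_mul_of_nonneg_left a3 hl]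

theorem E.two (h : E x l l' K j a) (h' : E x l l' K j b) (hl : 0 ≤ l) (hl' : 0 ≤ l')
    (e : w x a = w x b) : |OCR.kp x l a.1 - OCR.kp x l b.1| ≤ l' * (2 * (l * K)) / 2 ^ j := by
  have a1 := abs_le.1 (h.kp hl)
  have a2 := abs_le.1 (h'.kp hl)
  have e1 : r x b = r x a := by simp only [r, e]
  have e2 : q x b = q x a := by simp only [q, e]
  rw [e1, e2] at a2
  have a3 : |r x a * (OCR.kp x l a.1 - OCR.kp x l b.1)| ≤ 2 * (l * K / 2 ^ j) := by
    rw [abs_le]; constructor <;> linarith [a1.1, a1.2, a2.1, a2.2]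
  rw [abs_mul] at a3
  have a4 := mul_le_mul_of_nonneg_left a3 hl'
  have a5 := mul_le_mul_of_nonneg_right h.2.1 (abs_nonneg (OCR.kp x l a.1 - OCR.kp x l b.1))
  have a6 : l' * (2 * (l * K)) / 2 ^ j = l' * (2 * (l * K / 2 ^ j)) := by ring
  linarith

theorem Y_win {s t : x.Ω} {i : ℕ} (e : x.V i s = x.V i t) (hk : |k| ≤ B) :
    |Y x k s - Y x k t| ≤ (1 + B) / 2 ^ i := by
  have a1 := abs_le.1 (win (Prod.mk.inj e).2)
  have a2 := mul_bd hk (win (Prod.mk.inj e).1)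
  have a3 : (1 + B) / 2 ^ i = 1 / 2 ^ i + B * (1 / 2 ^ i) := by ring
  rw [Y, Y, abs_le]; constructor <;> linarith [a1.1, a1.2, a2.1, a2.2]

theorem E.Y (h : E x l l' K j v) (hl : 0 ≤ l) (hv : v ∈ (Q x).S) (hj : j ≤ x.R) (hk : |k| ≤ B)
    (hk' : |OCR.kp x l v.1 - k| ≤ 1 / 2 ^ j) :
    |Y x k v.1 - Y x k v.2| ≤ (l * K + 5 + 2 * B) / 2 ^ j := by
  have a1 := abs_le.1 (h.kp hl)
  have a0 := dv_anti zero_le_two le_rfl hj
  have a2 := mul_bd (bd hv).1 hk'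
  have a3 := mul_bd hk ((sc x.u x.R (x.U v.1) (x.U v.2)).trans a0)
  have a4 := abs_le.1 ((sc x.c x.R (x.p v.2) (x.p v.1)).trans a0)
  have a5 : (l * K + 5 + 2 * B) / 2 ^ j =
    l * K / 2 ^ j + 3 * (1 / 2 ^ j) + 2 / 2 ^ j + B * (2 / 2 ^ j) := by ring
  simp only [r, q, w, Of.V] at a1 a2
  rw [OCR.Y, OCR.Y, abs_le]
  constructor <;> linarith [a1.1, a1.2, a2.1, a2.2, a3.1, a3.2, a4.1, a4.2]

theorem crude {R : ℕ} (h : B ≤ Real.exp (1 * R)) (hj : j ≤ R) : B ≤ Real.exp (2 * R) / 2 ^ j := by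
  have a : (j : ℝ) ≤ R := by exact_mod_cast hj
  rw [le_div_iff₀ (by positivity), show 2 * (R : ℝ) = 1 * R + R by ring, Real.exp_add]
  exact mul_le_mul h ((two_pow_le_exp _).trans (Real.exp_le_exp.2 a)) (by positivity)
    (Real.exp_pos _).le

theorem rn_bd (h : |k| ≤ B) : |rn j k| ≤ B + 1 := by
  have a1 := abs_le.1 (near_rn j k)
  have a2 := abs_le.1 h
  have a3 : (1 : ℝ) / 2 ^ j ≤ 1 := div_le_self zero_le_one (one_le_pow₀ one_le_two)
  rw [abs_le]; constructor <;> linarith [a1.1, a1.2, a2.1, a2.2]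

theorem rn_eq {s t : ℝ} (h : fl1 j s = fl1 j t) : rn j s = rn j t := by rw [rn, rn, h]

theorem nd1 (h : x.Alg L) : ch x.P (fun ω => fl1 j (kp x l ω)) x.Th ≤ x.i2 + x.i3 +
    ch (Q x) (fun v => fl1 j (kp x l v.1)) fun v => (w x v, x.Th v.1) := by
  have e1 := (l1 x).ch_id (fun ω => fl1 j (kp x l ω)) x.Th
  have e2 : mi (Q x) (fun v => fl1 j (kp x l v.1)) (w x) (fun v => x.Th v.1) ≤ _ :=
    (mi_mono' (F' := fun v => x.d v.1) fun a ha b hb e => congrArg (fl1 j) (kp_fn h _ (mem ha).1 _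
      (mem hb).1 (dth e))).trans miD
  unfold mi at e2
  linarith

theorem nd2 {α β : Type} (F : x.Ω → α) (G : x.Ω → β) : ch x.P F (fun ω => (G ω, x.Th ω)) ≤ x.i3 +
    ch (Q x) (fun v => F v.1) fun v => (x.V x.R v.2, G v.1, x.Th v.1) := by
  have e1 := (l1 x).ch_id F fun ω => (G ω, x.Th ω)
  have e2 : mi (Q x) (fun v => F v.1) (fun v => x.V x.R v.2) (fun v => (G v.1, x.Th v.1)) ≤ _ :=
    (mi_left (F := fun v : x.Ω × x.Ω => (F v.1, G v.1)) (Fn.snd _ _)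
      (((Fn.snd _ _).left _).pair (Fn.snd _ _)) ((Fn.fst _ _).left _)).trans
      (mi2 fun ω => (F ω, G ω))
  unfold mi at e2
  linarith

end Fin

variable {α : ℝ} {x : ℕ → Of}

theorem froZ (h : Of0 α x) : Fro (fP x) (fun n => (x n).Th) (fun n => (x n).ζ) (fR x) α :=
  Fro.of_rob h.big fun j hj _ hE => (h.fro _ _ _ (dnS_cE hE) j hj).trans (Le.of_le fun n =>
    ch_anti fun a _ b _ e => by
      simp only [Of.Th, Of.N, Of.V, Prod.mk.injEq, id] at e ⊢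
      exact ⟨e.2.2, fl1_eq_of_le (by omega) e.1, fl1_eq_of_le (by omega) e.2.1.1,
        fl1_eq_of_le (by omega) e.2.1.2⟩)

theorem inf (h : Off α x) : Sm (fR x) (fun n => (x n).i2 + (x n).i3) ∧ Sm (fR x) fun n => (x n).i3 :=
  ⟨h.inf.mono (.of_forall fun n => by linarith [show 0 ≤ (x n).i1 from mi_nonneg _ _ _]),
    h.inf.mono (.of_forall fun n => by
      linarith [show 0 ≤ (x n).i1 from mi_nonneg _ _ _, show 0 ≤ (x n).i2 from mi_nonneg _ _ _])⟩

theorem froR (h : Off α x) :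
    Fro (fun n => Q (x n)) (fun n v => (x n).Th v.1) (fun n => r (x n)) (fR x) 1 := by
  refine Fro.of_full (L := fun _ => 6) h.big (h.big.sub (by norm_num))
    (.of_forall fun n a ha b hb _ => (abs_sub _ _).trans (by linarith [(bd ha).1, (bd hb).1])) ?_
  refine (h.ful (fun _ => 0) (fR x) fun n => ⟨Nat.zero_le _, le_rfl⟩).of2 (inf h).2
    (.of_forall fun n => ?_)
  have e : ch (x n).P (fun ω => fl1 ((x n).u + (x n).R) ((x n).U ω))
      (fun ω => ((x n).N (x n).R ω, (x n).V 0 ω, (x n).θ ω)) ≤ _ :=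
    ch_anti (G := (x n).Th) fun a _ b _ e => by
      simp only [Of.Th, Of.N, Prod.mk.injEq] at e ⊢
      exact ⟨e.2.2, fl1_eq_of_le (by omega) e.1, e.2.1⟩
  have := chR (x := x n)
  simp only [fR, Nat.cast_zero, sub_zero]
  linarith

end OCR

open OCR H19 H17S H17F R4.K31 Filter

theorem rowOCore9 : SOCore := by
  intro u α h0 h1 hα
  obtain ⟨c, hc, H⟩ := Lev.ncF u α 1 h0 h1 hα h1
  obtain ⟨e, e0, e1, e2⟩ : ∃ e : ℝ, 0 < e ∧ e ≤ 1 ∧ e ≤ c :=
    ⟨min 1 c, lt_min one_pos hc, min_le_left _ _, min_le_right _ _⟩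
  refine ⟨e / 4, by positivity, fun x hx hN => ?_⟩
  obtain ⟨L, hL, al, hγ⟩ := hx.alg
  have hR := hx.big
  have fz := froZ hx.toOf0
  have wl := fun {E : ∀ n, (x n).Ω → Prop} (h : Whp (fP x) E) =>
    AB.ABGrpA.whp_law h fun n => l1 (x n)
  have k := H _ _ _ _ (fun n => Q (x n)) (fun n v => (x n).Th v.1)
    (fun n v => 2 ^ (x n).a * (x n).A v.1) (fun n v => 2 ^ (x n).a * (x n).A v.2)
    (fun n v => (x n).γ v.1) (fun n => q (x n)) (fun n v => (x n).ζ v.1) (fun n => r (x n))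
    (fun n v => (x n).d v.1) (fun n => w (x n)) (fR x) (fun n => 6 * L n) hR
    (hL.const_mul hR (by norm_num)) (hN.pull fun n => l1 (x n)).ngr
    (al.mono fun n a => ⟨fun s hs t ht e => a.fn _ (mem hs).1 _ (mem ht).1 (dth e),
      fun s _ t _ e => by simp only [r, q, show w (x n) s = w (x n) t from congrArg Prod.fst e],
      fun s hs => ⟨by linarith [(a.bd _ (mem hs).1).1, hL.1 n], by linarith [(bd hs).1, hL.1 n]⟩,
      fun s hs t ht e => ⟨by linarith [(th e).2.2, hL.1 n], by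
        linarith [(th ((mem hs).2.2.2.trans (e.trans (mem ht).2.2.2.symm))).2.2, hL.1 n]⟩⟩)
    (Whp.of_ev (al.mono fun n a v hv => ⟨by linarith [(a.bd _ (mem hv).1).2, hL.1 n],
      by linarith [(bd hv).2, hL.1 n], rel a (hL.1 n) hv⟩))
    (Le.of_le fun n => le_of_eq (((ch_ext (G' := fun v => (x n).Th v.2) (fun _ _ => rfl)
      fun v hv => (mem hv).2.2.2.symm).trans ((l2 (x n)).ch_id
        (fun ω => fl1 (x n).R (2 ^ (x n).a * (x n).A ω)) (x n).Th)).trans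
      ((l1 (x n)).ch_id (fun ω => fl1 (x n).R (2 ^ (x n).a * (x n).A ω)) (x n).Th).symm))
    (hx.inf.mono (.of_forall fun n => by simp only [fl1_pow]; exact miN))
    ((inf hx).1.mono (.of_forall fun n => miD)) (fz.law fun n => l1 (x n)) (froR hx)
  obtain ⟨l, hl, uz⟩ := fz.unit hR (h0.trans_lt hα) (y := fun _ _ => 0) fun _ _ _ _ _ _ => rfl
  obtain ⟨l', hl', ur⟩ := (froR hx).unit hR one_pos (y := fun _ _ => 0) fun _ _ _ _ _ _ => rfl
  simp only [sub_zero] at uz ur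
  have fj := hR.frac_floor e0 e1
  obtain ⟨j, hj⟩ : ∃ j : ℕ → ℕ, j = fun n => ⌊e * fR x n⌋₊ := ⟨_, rfl⟩
  rw [← hj] at fj
  have hK := (hR.sub le_rfl).add (hL.const_mul hR (C := 6) (by norm_num)) hR
  have hE : Whp (fun n => Q (x n)) fun n => E (x n) (l n) (l' n) (1 + 6 * L n) (j n) :=
    (((wl uz).and ur).and k).mono (al.mono fun n a v hv b => ⟨b.1.1, b.1.2, by
      have a1 := abs_le.1 ((rel a (hL.1 n) hv).trans (dv_anti (by linarith [hL.1 n]) le_rfl (fj.1 n)))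
      have a2 : Real.exp (-(c * fR x n)) ≤ 1 / 2 ^ j n := by
        rw [Real.exp_neg, one_div]
        refine inv_anti₀ (by positivity) ((two_pow_le_exp _).trans (Real.exp_le_exp.2 ?_))
        rw [hj]
        exact (Nat.floor_le (by positivity)).trans
          (mul_le_mul_of_nonneg_right e2 (Nat.cast_nonneg _))
      have a3 := abs_le.1 (b.2.trans a2)
      rw [add_div, abs_le]
      constructor <;> linarith [a1.1, a1.2, a3.1, a3.2]⟩)
  have hB := (hl.mul hL).add (hR.sub le_rfl) hR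
  have n1 : Nd (fP x) (fR x) (fun n ω => fl1 (j n) (kp (x n) (l n) ω)) fun n => (x n).Th := by
    refine ((inf hx).1.add (sm_whp1 (C := 2) hR (hl'.mul ((hl.mul hK).const_mul hR one_le_two)) hE
      ?_)).mono (al.mono fun n a => nd1 a)
    filter_upwards [al, ((hl.mul hL).const_mul hR one_le_two).2 1 one_pos] with n a b s hs t ht e
    exact ⟨((abs_sub _ _).trans (by
      linarith [kp_bd a (hl.pos n).le (mem hs).1, kp_bd a (hl.pos n).le (mem ht).1])).trans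
      (crude b (fj.1 n)),
      fun p p' => p.two p' (hl.pos n).le (hl'.pos n).le (congrArg Prod.fst e)⟩
  have n2 : Nd (fP x) (fR x) (fun n ω => fl1 (j n) (Y (x n) (rn (j n) (kp (x n) (l n) ω)) ω))
      fun n ω => (fl1 (j n) (kp (x n) (l n) ω), (x n).Th ω) := by
    refine ((inf hx).2.add (sm_whp1 (C := 2) hR (((((hl.mul hK).add
      (hR.sub (C := 5) (by norm_num)) hR).add (hB.const_mul hR one_le_two) hR).const_mul hR
        one_le_two).add ((hR.sub le_rfl).add hB hR) hR) hE ?_)).mono (.of_forall fun n => nd2 _ _)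
    filter_upwards [al, ((hR.sub le_rfl).add hB hR).2 1 one_pos] with n a b s hs t ht e
    simp only [Prod.mk.injEq] at e
    have b1 := rn_bd (j := j n) (kp_bd a (hl.pos n).le (mem hs).1)
    rw [← rn_eq e.2.1]
    refine ⟨((Y_win (th e.2.2).2.1 b1).trans_eq (by rw [pow_zero, div_one])).trans
      (crude b (fj.1 n)), fun p p' => ?_⟩
    have b2 := abs_le.1 (p.Y (hl.pos n).le hs (fj.1 n) b1 (near_rn _ _))
    have b3 := abs_le.1 (p'.Y (hl.pos n).le ht (fj.1 n) b1 (rn_eq e.2.1 ▸ near_rn _ _))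
    have b4 := abs_le.1 ((Y_win e.1 b1).trans
      (dv_anti (by linarith [hB.1 n]) le_rfl (fj.1 n)))
    rw [add_div, mul_div_assoc, abs_le]
    constructor <;> linarith [b2.1, b2.2, b3.1, b3.2, b4.1, b4.2]
  have hM := ((hL.mul hL).mul hl).const_mul hR one_le_two
  refine ⟨fun _ => ℤ × ℤ, fun n ω => (fl1 (j n) (kp (x n) (l n) ω),
    fl1 (j n) (Y (x n) (rn (j n) (kp (x n) (l n) ω)) ω)), fun n s => s.1 / 2 ^ j n,
    fun n s => s.2 / 2 ^ j n, _, hM, n1.pair (n1.cut n2), (uz.and hγ).mono ?_⟩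
  filter_upwards [al, sub_le_pow hM fj, hR.ev (2 / e)] with n a b d ω hω g
  have b1 := kp_bd a (hl.pos n).le hω
  have c1 := hL.1 n
  have c2 := hl.1 n
  have c3 := one_le_mul_of_one_le_of_one_le c2 c1
  have c4 := mul_le_mul_of_nonneg_right c1 (zero_le_one.trans c3)
  refine ⟨?_, (rn_bd b1).trans (by linarith), (near_rn _ _).trans ?_⟩
  · have d1 : |(x n).γ ω| ≤ L n * |kp (x n) (l n) ω| := by
      rw [kp, if_pos g.1, abs_div, ← mul_div_assoc, le_div_iff₀ (ne0 g.1), mul_comm]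
      exact mul_le_mul_of_nonneg_right (a.bd ω hω).1 (abs_nonneg _)
    have d2 := (abs_sub_abs_le_abs_sub _ _).trans (near_rn (j n) (kp (x n) (l n) ω))
    have d3 : 2 * (L n * L n * l n) * (1 / 2 ^ j n) ≤ 1 := by
      rw [mul_one_div, div_le_one (by positivity)]; exact b
    have d4 := mul_le_mul_of_nonneg_left d2 (hM.pos n).le
    have d5 := g.2.trans (mul_le_mul_of_nonneg_left d1 (zero_le_one.trans c1))
    have d6 := mul_le_mul_of_nonneg_right c2 (zero_le_one.trans d5)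
    change 1 ≤ _ * |rn (j n) (kp (x n) (l n) ω)|
    linarith
  · rw [Real.exp_neg, one_div]
    refine inv_anti₀ (Real.exp_pos _) (le_trans (Real.exp_le_exp.2 ?_) (exp_le_two_pow _))
    rw [div_le_iff₀ e0] at d
    have := Nat.lt_floor_add_one (e * fR x n)
    simp only [hj]
    linarith

end Pool.Agent.MP_5168f5_an.MX
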