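import Pool.Agent.MP_5168f5_an.MX.OffDefs

/-! Speed one, the sum-product step: the relation in the coordinates of the window. -/

namespace Pool.Agent.MP_5168f5_an.MX

open H19 H17S H17F R4.K31 Filter

namespace OffComA

theorem th {y : Oc} (h : y.Ar) (hm : Monotone y.o.f) {τ : ℕ} (hτ : y.c ≤ y.o.d + y.o.f y.k + τ) :
    ch y.o.P y.of.Th (fun ω => (y.o.S y.k ω, y.o.ep y.D ω)) ≤ 4 * τ * lg + 40 := by
  obtain ⟨a1, a2, a3, a4, a5, a6, a7⟩ := h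
  have a8 := hm (Nat.le_add_right y.k y.R)
  have k0 : Kn y.o.P y.o.x (fun ω => (y.o.S y.k ω, y.o.ep y.D ω)) (y.o.pm y.k) 1 :=
    .of_fn (Fn.fst _ _)
  have k1 := k0.setE (E := y.o.d + y.D) (.of_fn (Fn.snd _ _))
  have k2 := k1.move (q := ⟨y.i, y.f, y.u, y.o.d + y.D, y.a - τ, y.c - τ⟩)
    ((fn_zg a1 a2).trans k0.zg) (by simp only [Pm.Rd, Ob.pm, lab]; omega)
  have k3 := k2.ch' (q := ⟨y.i, y.f, y.u, y.o.d + y.D, y.a, y.c⟩) (u := τ) rfl rfl
    (by simp) (by simp) (by simp only; omega) (by simp only; omega)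
  refine (ch_mono (Fn.left (fun a _ b _ e => ?_) _)).trans (k3.trans (by norm_num))
  simp only [Pl.Bx, Of.Th, Of.N, Of.V, Ob.ep, Prod.mk.injEq, add_zero] at e ⊢
  tauto

theorem pw {x y : ℝ} {t a b R : ℕ} (h : |x| ≤ 1 / 2 ^ a) (h' : |y| ≤ 1 / 2 ^ b)
    (e : t + R ≤ a + b) : |2 ^ t * (x * y)| ≤ 1 / 2 ^ R := by
  rw [abs_mul, abs_mul, abs_of_pos (by positivity : (0 : ℝ) < 2 ^ t)]
  refine (mul_le_mul_of_nonneg_left (mul_le_mul h h' (abs_nonneg _) (by positivity))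
    (by positivity)).trans ?_
  rw [div_mul_div_comm, one_mul, ← pow_add, mul_one_div, div_le_div_iff₀ (by positivity)
    (by positivity), one_mul, ← pow_add]
  exact pow_le_pow_right₀ one_le_two e

theorem rn_ab (j : ℕ) (x : ℝ) : |x - rn j x| ≤ 1 / 2 ^ j := by
  rw [abs_of_nonneg (sub_nonneg.2 (rn_le j x))]; linarith [lt_rn j x]

theorem muB {a c τ : ℕ} (h : a ≤ c + τ) (h' : c ≤ a + τ) :
    (2 : ℝ) ^ a / 2 ^ c ≤ 2 ^ τ ∧ 1 ≤ 2 ^ τ * ((2 : ℝ) ^ a / 2 ^ c) := by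
  rw [div_le_iff₀ (by positivity), ← mul_div_assoc, one_le_div (by positivity), ← pow_add,
    ← pow_add]
  exact ⟨pow_le_pow_right₀ one_le_two (by omega), pow_le_pow_right₀ one_le_two (by omega)⟩

theorem fin {μ T L κ E X Y ε δ : ℝ} (h0 : 0 < μ) (h1 : μ ≤ T) (hT : 1 ≤ T) (hL : 1 ≤ L)
    (hκ : |κ| ≤ L) (hE : |E| ≤ ε * ε) (hX : |X| ≤ δ) (hY : |Y| ≤ δ) (hδ : δ ≤ ε * ε)
    (e : 0 < ε) (h : 3 * (L * T) * ε ≤ 1) : |μ * E - X - μ * κ * Y| ≤ ε := by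
  have p : 0 < ε * ε := mul_pos e e
  have q : 1 ≤ L * T := one_le_mul_of_one_le_of_one_le hL hT
  have a1 : |μ * E| ≤ L * T * (ε * ε) := by
    rw [abs_mul, abs_of_pos h0]
    exact mul_le_mul (by nlinarith) hE (abs_nonneg _) (by linarith)
  have a2 : |μ * κ * Y| ≤ L * T * (ε * ε) := by
    rw [abs_mul, abs_mul, abs_of_pos h0, mul_comm L]
    exact mul_le_mul (mul_le_mul h1 hκ (abs_nonneg _) (by linarith)) (hY.trans hδ) (abs_nonneg _)
      (by nlinarith)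
  have a3 : |X| ≤ L * T * (ε * ε) := (hX.trans hδ).trans (le_mul_of_one_le_left p.le q)
  have a4 := abs_sub (μ * E - X) (μ * κ * Y)
  have a5 := abs_sub (μ * E) X
  nlinarith

end OffComA

open OffComA in
theorem rowOCom : SOCom := by
  rintro κ ι c y hc h ⟨Λ, la, ko, c0, L, hL, hN, hW⟩
  have hR : Big fun n => (y n).R := h.tan.big
  let τ : ℕ → ℕ := fun n => (((y n).c : ℤ) - ((y n).o.d + (y n).o.f (y n).k : ℕ)).natAbs
  have hτ : Sm (fun n => (y n).R) fun n => τ n := fun ε hε => by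
    filter_upwards [h.c1 ε hε, h.c2 ε hε] with n u v
    simp only [τ, Nat.cast_natAbs]
    push_cast
    exact abs_le.2 ⟨by linarith, by linarith⟩
  have hT : Sub (fun n => (y n).R) fun n => 2 ^ τ n := (Sub.exp hτ fun _ => Nat.cast_nonneg _).mono
    (fun _ => one_le_pow₀ one_le_two) (.of_forall fun _ => two_pow_le_exp _)
  have hc' : 0 < min c (1 / 2) / 2 := by positivity
  let μ : ℕ → ℝ := fun n => 2 ^ ((y n).o.d + (y n).o.f (y n).k) / 2 ^ (y n).c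
  refine ⟨_, hc', fun n => Λ n × (ℤ × ℤ) × (ℤ × ℤ) × ℤ, fun n ω => (la n ω,
    (y n).o.x.zg (y n).k ((y n).o.f (y n).k) ω, (y n).o.x.zg (y n).i (y n).f ω,
    (y n).o.ep (y n).D ω), fun n l => μ n * ko n l.1, fun n l => μ n * c0 n l.1 -
      (2 ^ ((y n).o.d + (y n).o.f (y n).k) * (l.2.1.2 / 2 ^ (y n).o.f (y n).k -
        l.2.2.1.2 / 2 ^ (y n).f) + μ n * ko n l.1 * 2 ^ (y n).u * (l.2.1.1 / 2 ^ (y n).k -
        l.2.2.1.1 / 2 ^ (y n).i)) * (l.2.2.2 / 2 ^ ((y n).o.d + (y n).D)),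
    _, hL.mul hT, ?_, hW.mono ?_⟩
  · refine Nd.pair (Nd.trans hN (Sm.mono ((hτ.smul (c := 4 * lg) (by linarith [lg_pos])).add
      (hR.sm 40)) ?_)) (Nd.of_fn (h.ar.mono fun n a => ?_))
    · filter_upwards [h.ar, h.tan.alg] with n a b
      exact (th a b.1.mono (τ := τ n) (by simp only [τ]; omega)).trans (le_of_eq (by ring))
    · have k := (bx_zg (P := (y n).o.P) (x := (y n).o.x) (p := (y n).o.pm (y n).k)).left
        ((y n).o.ep (y n).D)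
      exact k.pair (((fn_zg a.1 a.2.1).trans k).pair (Fn.snd _ _))
  filter_upwards [h.ar, h.tan.alg, ((hL.mul hT).const_mul hR (by norm_num : (1 : ℝ) ≤ 3)).2 _ hc']
    with n ⟨a1, a2, a3, a4, a5, a6, a7⟩ b v ω _ ⟨w1, w2, w3⟩
  have a8 := b.1.mono (Nat.le_add_right (y n).k (y n).R)
  obtain ⟨m1, m2⟩ : μ n ≤ 2 ^ τ n ∧ 1 ≤ 2 ^ τ n * μ n := muB (by simp only [τ]; omega)
    (by simp only [τ]; omega)
  have m0 : 0 < μ n := by positivity
  have m3 : μ n * 2 ^ (y n).c = 2 ^ ((y n).o.d + (y n).o.f (y n).k) :=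
    div_mul_cancel₀ _ (by positivity)
  have r0 : (0 : ℝ) ≤ (y n).R := Nat.cast_nonneg _
  have x1 : ∀ t, min c (1 / 2) ≤ t → Real.exp (-(t * (y n).R)) ≤
      Real.exp (-(min c (1 / 2) / 2 * (y n).R)) * Real.exp (-(min c (1 / 2) / 2 * (y n).R)) :=
    fun t e => by rw [← Real.exp_add]; exact Real.exp_le_exp.2 (by nlinarith)
  refine ⟨?_, ?_, le_of_eq_of_le (congrArg _ ?_) (fin m0 m1 (hT.1 n) (hL.1 n) w2
    (w3.trans (x1 c (min_le_left _ _)))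
    (pw (t := (y n).o.d + (y n).o.f (y n).k) (R := (y n).R) (rn_sub ((y n).o.f (y n).k) (y n).f
      ((y n).o.x.g ω)) (rn_ab ((y n).o.d + (y n).D) ((y n).o.x.e1 ω)) (by omega))
    (pw (t := (y n).u) (R := (y n).R) (rn_sub (y n).k (y n).i ((y n).o.x.z ω))
      (rn_ab ((y n).o.d + (y n).D) ((y n).o.x.e1 ω)) (by omega))
    (le_trans ?_ (x1 _ (min_le_right _ _))) (Real.exp_pos _) ?_)⟩
  · rw [abs_mul, abs_of_pos m0]
    nlinarith [mul_nonneg (hL.pos n).le (abs_nonneg (ko n (la n ω)))]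
  · rw [abs_mul, abs_of_pos m0, mul_comm (L n)]
    exact mul_le_mul m1 w2 (abs_nonneg _) (by positivity)
  · simp only [Pl.tl, Pl.y1, Pl.zg, Ob.ep, rn, ← a3]
    linear_combination (-((y n).o.x.e2 ω - fl1 (y n).f ((y n).o.x.g ω) / 2 ^ (y n).f *
      (y n).o.x.e1 ω)) * m3
  · rw [Real.exp_neg, one_div]
    exact inv_anti₀ (Real.exp_pos _) ((le_of_eq (congrArg _ (by ring))).trans (exp_le_two_pow _))
  · rw [Real.exp_neg, ← div_eq_mul_inv, div_le_one (Real.exp_pos _)]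
    exact v

end Pool.Agent.MP_5168f5_an.MX
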