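import Pool.Agent.MP_5168f5_an.MX.QSpec
import Pool.Agent.MP_5168f5_an.MX.FinA
import Pool.Agent.MP_5168f5_an.MX.Dg
import Pool.Agent.MP_5168f5_an.R4.Api

/-! Speed one, the sum-product step: definitions and rows. -/

namespace Pool.Agent.MP_5168f5_an.MX

open H19 H17S H17F R4.K31 Filter Finset

theorem Dg.cf {X : Type 1} {T : (ℕ → X) → Prop} (h : Dg T) : R4.CF (S := fun _ => X) T :=
  h.elim fun A a => ⟨fun k _ => A k, a⟩

/-- Normal positions `A`, `B` of a line at two points, lateral position `U`, tilt `p`, the second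
point `d` and the scaled differences `ζ`, `γ` of heights and slopes; `a`, `u`, `c` are the known
depths of `A`, `U`, `p` and `R` is the unit. -/
structure Of : Type 1 where
  Ω : Type
  T : Type
  Δ : Type
  P : FP Ω
  θ : Ω → T
  d : Ω → Δ
  A : Ω → ℝ
  B : Ω → ℝ
  U : Ω → ℝ
  p : Ω → ℝ
  ζ : Ω → ℝ
  γ : Ω → ℝ
  a : ℕ
  u : ℕ
  c : ℕ
  R : ℕ

namespace Of

variable (x : Of)

/-- Normal digits. -/
noncomputable def N (i : ℕ) (ω : x.Ω) : ℤ := fl1 (x.a + i) (x.A ω)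

/-- Lateral and tilt digits. -/
noncomputable def V (i : ℕ) (ω : x.Ω) : ℤ × ℤ := (fl1 (x.u + i) (x.U ω), fl1 (x.c + i) (x.p ω))

/-- The context. -/
noncomputable def Th (ω : x.Ω) : x.T × ℤ × ℤ × ℤ := (x.θ ω, x.N 0 ω, x.V 0 ω)

/-- Refine and pass to the window `[s, s + j]`. -/
@[reducible] def zm {W : Type} (Q : FP W) (ρ : W → x.Ω) (s j : ℕ) : Of :=
  { Ω := W, T := x.T, Δ := x.Δ, P := Q, θ := fun v => x.θ (ρ v), d := fun v => x.d (ρ v),
    A := fun v => x.A (ρ v), B := fun v => x.B (ρ v), U := fun v => x.U (ρ v),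
    p := fun v => x.p (ρ v), ζ := fun v => x.ζ (ρ v), γ := fun v => x.γ (ρ v),
    a := x.a + s, u := x.u + s, c := x.c + s, R := j }

/-- Entropy of the normal digits. -/
noncomputable def hA : ℝ := ch x.P (x.N x.R) x.Th

/-- Normal digits against lateral and tilt digits. -/
noncomputable def i1 : ℝ := mi x.P (x.N x.R) (x.V x.R) x.Th

/-- The second point against the digits of the line. -/
noncomputable def i2 : ℝ := mi x.P x.d (fun ω => (x.N x.R ω, x.V x.R ω)) x.Th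

/-- Lateral and tilt digits against the second point and the normal digits there. -/
noncomputable def i3 : ℝ :=
  mi x.P (x.V x.R) (fun ω => (x.d ω, fl1 (x.a + x.R) (x.B ω))) x.Th

/-- Exact conditions. -/
structure Alg (L : ℝ) : Prop where
  fn : Fn x.P (fun ω => (x.ζ ω, x.γ ω)) fun ω => (x.d ω, x.θ ω)
  bd : ∀ ω ∈ x.P.S, |x.ζ ω| ≤ L ∧ |x.γ ω| ≤ L
  rel : Cls x.P (fun ω => (x.d ω, x.θ ω)) (fun ω => 2 ^ x.a * (x.A ω - x.B ω) +
    x.ζ ω * (2 ^ x.c * x.p ω) - x.γ ω * (2 ^ x.u * x.U ω)) x.R L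

end Of

/-- The units. -/
abbrev fR (x : ℕ → Of) : ℕ → ℕ := fun n => (x n).R

/-- The laws. -/
abbrev fP (x : ℕ → Of) : ∀ n, FP (x n).Ω := fun n => (x n).P

/-- The conditions that hold at every location. -/
structure Of0 (α : ℝ) (x : ℕ → Of) : Prop where
  big : Big (fR x)
  alg : ∃ L, Sub (fR x) L ∧ (∀ᶠ n in UF, (x n).Alg (L n)) ∧
    Whp (fP x) fun n ω => 1 ≤ L n * |(x n).γ ω|
  fro : ∀ (W : ℕ → Type) (Q : ∀ n, FP (W n)) (ρ : ∀ n, W n → (x n).Ω), DnS Q ρ (fP x) →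
    ∀ j : ℕ → ℕ, (∀ n, j n ≤ fR x n) → Le (fR x) (fun n => α * j n * lg) fun n =>
      ch (Q n) (fun v => fl1 (j n) ((x n).ζ (ρ n v))) fun v =>
        ((x n).N (x n).R (ρ n v), (x n).V (x n).R (ρ n v), (x n).θ (ρ n v))
  ful : ∀ i j : ℕ → ℕ, (∀ n, i n ≤ j n ∧ j n ≤ fR x n) →
    Le (fR x) (fun n => (j n - i n) * lg) fun n =>
      ch (x n).P (fun ω => fl1 ((x n).u + j n) ((x n).U ω)) fun ω =>
        ((x n).N (x n).R ω, (x n).V (i n) ω, (x n).θ ω)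

/-- The class. -/
structure Off (α : ℝ) (x : ℕ → Of) : Prop extends Of0 α x where
  inf : Sm (fR x) fun n => (x n).i1 + (x n).i2 + (x n).i3

/-- The tilt is an affine function of the lateral position. -/
def Rel (c : ℝ) (x : ℕ → Of) : Prop :=
  ∃ (Λ : ℕ → Type) (la : ∀ n, (x n).Ω → Λ n) (ko c0 : ∀ n, Λ n → ℝ) (L : ℕ → ℝ),
    Sub (fR x) L ∧ Nd (fP x) (fR x) la (fun n => (x n).Th) ∧
    Whp (fP x) fun n ω => 1 ≤ L n * |ko n (la n ω)| ∧ |ko n (la n ω)| ≤ L n ∧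
      |2 ^ (x n).c * (x n).p ω - ko n (la n ω) * (2 ^ (x n).u * (x n).U ω) - c0 n (la n ω)| ≤
        Real.exp (-(c * (x n).R))

/-- A window `[k, k + R]` of a system with a base height `i`, a base frame `f` and a second
point. -/
structure Oc : Type 1 where
  o : Ob
  k : ℕ
  R : ℕ
  D : ℕ
  i : ℕ
  f : ℕ
  a : ℕ
  u : ℕ
  c : ℕ
  Δ : Type
  d : o.Ω → Δ
  B : o.Ω → ℝ
  ζ : o.Ω → ℝ
  γ : o.Ω → ℝ

namespace Oc

variable (y : Oc)

/-- The abstract data. -/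
@[reducible] noncomputable def of : Of :=
  { Ω := y.o.Ω, T := y.o.T × (ℤ × ℤ) × ℤ, Δ := y.Δ, P := y.o.P,
    θ := fun ω => (y.o.x.θ ω, y.o.x.zg y.i y.f ω, y.o.ep y.D ω), d := y.d,
    A := y.o.x.nm y.i y.f, B := y.B, U := y.o.x.y1 y.i, p := y.o.x.tl y.f, ζ := y.ζ, γ := y.γ,
    a := y.a, u := y.u, c := y.c, R := y.R }

/-- Refine and pass to the window `[k + s, k + s + j]`. -/
@[reducible] def zm {W : Type} (Q : FP W) (ρ : W → y.o.Ω) (s j : ℕ) : Oc :=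
  { o := y.o.pull Q ρ, k := y.k + s, R := j, D := y.D, i := y.i, f := y.f, a := y.a + s,
    u := y.u + s, c := y.c + s, Δ := y.Δ, d := fun v => y.d (ρ v), B := fun v => y.B (ρ v),
    ζ := fun v => y.ζ (ρ v), γ := fun v => y.γ (ρ v) }

theorem of_zm {W : Type} (Q : FP W) (ρ : W → y.o.Ω) (s j : ℕ) :
    (y.zm Q ρ s j).of = y.of.zm Q ρ s j := rfl

/-- The exact relations between the depths. -/
def Ar : Prop := y.i ≤ y.k ∧ y.f ≤ y.o.f y.k ∧ y.u = y.k + y.o.d ∧ y.a ≤ y.i + y.c ∧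
  y.a ≤ y.f + y.u ∧ y.k + 2 * y.R ≤ y.i + y.D ∧ y.o.f (y.k + y.R) + y.R ≤ y.f + y.D

end Oc

/-- A tangent window of speed one that carries the data. -/
structure Car (κ ι : ℝ) (y : ℕ → Oc) : Prop where
  tan : Tan κ 1 ι (fun n => (y n).o) (fun n => (y n).k) (fun n => (y n).R) fun n => (y n).D
  ar : ∀ᶠ n in UF, (y n).Ar
  c1 : Le (fun n => (y n).R) (fun n => (y n).c) fun n => (y n).o.d + (y n).o.f (y n).k
  c2 : Le (fun n => (y n).R) (fun n => (y n).o.d + (y n).o.f (y n).k) fun n => (y n).c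

/-- The location with mesh `j`: the heights split at `k + a j`, they are read to `k + s j`, and
the window starts at `k + b j`. -/
@[reducible] noncomputable def Ob.loc (o : Ob) (k j D a s b : ℕ) : Oc :=
  { o := o.pull (glue o.P o.P (o.wn (k + a * j)) (o.wn (k + a * j))) Prod.fst, k := k + b * j,
    R := j, D := D, i := k + s * j, f := o.f k + s * j, a := k + o.d + o.f k + (a + b) * j,
    u := k + b * j + o.d, c := o.d + o.f k + b * j, Δ := ℤ × ℤ,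
    d := fun v => o.x.zg (k + s * j) (o.f k + s * j) v.2,
    B := fun v => o.x.nm (k + s * j) (o.f k + s * j) v.2,
    ζ := fun v => 2 ^ (k + a * j) * (rn (k + s * j) (o.x.z v.2) - rn (k + s * j) (o.x.z v.1)),
    γ := fun v => 2 ^ (o.f k + a * j) *
      (rn (o.f k + s * j) (o.x.g v.2) - rn (o.f k + s * j) (o.x.g v.1)) }

/-- The abstract data at a location. -/
noncomputable abbrev lc (o : ℕ → Ob) (k j D : ℕ → ℕ) (a s b : ℕ) (n : ℕ) : Of :=
  ((o n).loc (k n) (j n) (D n) a s b).of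

/-- A tangent system of speed one with a mesh of `Z` steps. -/
structure Msh (κ ι : ℝ) (o : ℕ → Ob) (k R D j : ℕ → ℕ) (Z : ℕ) : Prop where
  tan : Tan κ 1 ι o k R D
  fr : Frac j R
  le : ∀ n, Z * j n ≤ R n

/-- The noise step. -/
def SOCore : Prop := ∀ u α : ℝ, 0 ≤ u → u < 1 → u < α → ∃ c : ℝ, 0 < c ∧ ∀ x : ℕ → Of,
  Off α x → R4.NCx.NG1 (fP x) (fun n => (x n).Th) (fun n ω => 2 ^ (x n).a * (x n).A ω) (fR x)
    (1 - u) → Rel c x

/-- The class is closed under refinements, windows and diagonals. -/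
def SOClo : Prop := ∀ α : ℝ, R4.CF (Of0 α) ∧ ∀ x, Off α x → ∀ (W : ℕ → Type) (Q : ∀ n, FP (W n))
  (ρ : ∀ n, W n → (x n).Ω) (s j : ℕ → ℕ), DnS Q ρ (fP x) → (∀ n, s n + j n ≤ fR x n) →
  Frac j (fR x) → Off α fun n => (x n).zm (Q n) (ρ n) (s n) (j n)

/-- The carriers are closed under refinements, windows and diagonals. -/
def SOCar : Prop := ∀ κ ι : ℝ, R4.CF (Car κ ι) ∧ ∀ y, Car κ ι y → ∀ (W : ℕ → Type)
  (Q : ∀ n, FP (W n)) (ρ : ∀ n, W n → (y n).o.Ω) (s j : ℕ → ℕ), DnS Q ρ (fun n => (y n).o.P) →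
  (∀ n, s n + j n ≤ (y n).R) → Frac j (fun n => (y n).R) →
  Car κ ι fun n => (y n).zm (Q n) (ρ n) (s n) (j n)

/-- The relation in the coordinates of the window. -/
def SOCom : Prop := ∀ (κ ι c : ℝ) (y : ℕ → Oc), 0 < c → Car κ ι y → Rel c (fun n => (y n).of) →
  ∃ c' : ℝ, 0 < c' ∧ Com c' (fun n => (y n).o) (fun n => (y n).k) (fun n => (y n).R)
    fun n => (y n).D

/-- Every location is a carrier. -/
def SOLoc : Prop := ∀ (κ ι : ℝ) (o : ℕ → Ob) (k R D j : ℕ → ℕ) (Z a s b : ℕ),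
  Msh κ ι o k R D j Z → a + 2 ≤ s → s < b → b < Z →
  Car κ ι fun n => (o n).loc (k n) (j n) (D n) a s b

/-- The conditions that hold at every location. -/
def SOLo0 : Prop := ∀ (κ ι : ℝ) (o : ℕ → Ob) (k R D j : ℕ → ℕ) (Z a s b : ℕ), 0 ≤ κ →
  Msh κ ι o k R D j Z → a + 2 ≤ s → s < b → b < Z → Of0 κ (lc o k j D a s b)

/-- Telescoping sums and the symmetry of the two points. -/
def SOInf : Prop := ∀ (κ ι : ℝ) (o : ℕ → Ob) (k R D j : ℕ → ℕ) (Z : ℕ), Msh κ ι o k R D j Z →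
  (∀ a s b m : ℕ, m ≤ a → Le R (fun n => ∑ t ∈ range m, (lc o k j D (a - t) s (b + t) n).i1)
    fun n => j n * lg) ∧
  (∀ a s b m : ℕ, a + 2 ≤ s → s < Z →
    Le R (fun n => ∑ t ∈ range m, (lc o k j D a s (b + t) n).i2) fun n => 2 * (s - a) * j n * lg) ∧
  ∀ a s b : ℕ, a + 2 ≤ s → s < b → b < Z → Le R (fun n => (lc o k j D a s b n).i3) fun n =>
    (lc o k j D a s b n).i1 + 2 * (lc o k j D a s b n).i2

/-- The path. -/
def SOPath : Prop := ∀ (κ ι : ℝ) (o : ℕ → Ob) (k R D j : ℕ → ℕ) (Z a s b m : ℕ),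
  Msh κ ι o k R D j Z → a + 2 ≤ s → s < b → b + m < Z →
  Le R (fun n => m * j n * lg + ∑ t ∈ range m, ((lc o k j D (a + t) (s + t) (b + t) n).hA +
    (lc o k j D (a + t) (s + t) (b + t + 1) n).hA)) fun n => ι * (b + m) * j n * lg

end Pool.Agent.MP_5168f5_an.MX
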