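import Pool.Agent.MP_5168f5_an.MX.OffDefs
import Pool.Agent.MP_5168f5_an.MX.QApi
import Pool.Agent.MP_5168f5_an.MX.RPA

/-! Speed one: telescoping sums of informations and the symmetry of the two points. -/

namespace Pool.Agent.MP_5168f5_an.MX

open H19 H17S H17F R4.K31 Filter Finset

namespace OffInfA

/-- The exchange of the two points. -/
theorem sym {Ω α β γ δ : Type} {Q : FP Ω} {σ : Ω → Ω} (h : Law Q σ Q id) (N : Ω → α) (V : Ω → β)
    (T : Ω → γ) (d : Ω → δ) : mi Q V (fun v => (d v, N (σ v))) T ≤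
      mi Q N V T + 2 * mi Q d (fun v => (N v, V v)) T +
        ch Q (fun v => (d (σ v), T (σ v))) (fun v => (d v, T v)) +
        ch Q (fun v => (V v, d v, T v)) fun v => (V (σ v), d (σ v), T (σ v)) := by
  have h1 := mi_chain (P := Q) V d (fun v => N (σ v)) T
  have h2 : mi Q d V T ≤ mi Q d (fun v => (N v, V v)) T := mi_mono ((Fn.snd N V).left T)
  have h3 := mi_symm (P := Q) V (fun v => N (σ v)) fun v => (d v, T v)
  have h4 := ch_tri' (P := Q) (fun v => N (σ v)) (fun v => (d v, T v))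
    fun v => (d (σ v), T (σ v))
  have h5 := ch_tri' (P := Q) (fun v => N (σ v)) (fun v => (V (σ v), d (σ v), T (σ v)))
    fun v => (V v, d v, T v)
  have h6 := h.mi_id N V fun v => (d v, T v)
  have h7 := mi_chain (P := Q) V d N T
  have h8 := mi_chain (P := Q) V N d T
  have h9 := mi_chain (P := Q) d N V T
  have k1 : mi Q V (fun v => (d v, N v)) T ≤ mi Q V (fun v => (N v, d v)) T :=
    mi_mono (((Fn.snd N d).pair (Fn.fst N d)).left T)
  have k2 := mi_symm (P := Q) V d T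
  have k3 := mi_symm (P := Q) V N T
  have k4 := mi_symm (P := Q) V d fun v => (N v, T v)
  have k5 := mi_symm (P := Q) V N fun v => (d v, T v)
  have k6 := mi_nonneg (P := Q) d N T
  have k7 := mi_nonneg (P := Q) d V T
  have e1 : mi Q (fun v => N (σ v)) V (fun v => (d v, T v)) =
      ch Q (fun v => N (σ v)) (fun v => (d v, T v)) -
        ch Q (fun v => N (σ v)) fun v => (V v, d v, T v) := rfl
  have e2 : mi Q (fun v => N (σ v)) (fun v => V (σ v)) (fun v => (d (σ v), T (σ v))) =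
      ch Q (fun v => N (σ v)) (fun v => (d (σ v), T (σ v))) -
        ch Q (fun v => N (σ v)) fun v => (V (σ v), d (σ v), T (σ v)) := rfl
  linarith

variable (o : Ob)

/-- The context as a function of one point. -/
noncomputable def cx (i f D A u c : ℕ) (ω : o.Ω) : (o.T × (ℤ × ℤ) × ℤ) × ℤ × ℤ × ℤ :=
  ((o.x.θ ω, o.x.zg i f ω, o.ep D ω), fl1 A (o.x.nm i f ω), fl1 u (o.x.y1 i ω),
    fl1 c (o.x.tl f ω))

/-- Two points of one line in one window. -/
noncomputable abbrev gl (i : ℕ) : FP (o.Ω × o.Ω) := glue o.P o.P (o.wn i) (o.wn i)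

variable {o}

theorem cx_le {i f D A u c A' u' c' : ℕ} {a b : o.Ω}
    (e : cx o i f D A' u' c' a = cx o i f D A' u' c' b) (h1 : A ≤ A') (h2 : u ≤ u') (h3 : c ≤ c') :
    cx o i f D A u c a = cx o i f D A u c b := by
  simp only [cx, Prod.mk.injEq] at e ⊢
  exact ⟨e.1, fl1_eq_of_le h1 e.2.1, fl1_eq_of_le h2 e.2.2.1, fl1_eq_of_le h3 e.2.2.2⟩

theorem gl_mem {i f : ℕ} (h : f ≤ o.f i) {v : o.Ω × o.Ω} (hv : v ∈ (gl o i).S) :
    o.x.l v.2 = o.x.l v.1 ∧ fl1 i (o.x.z v.2) = fl1 i (o.x.z v.1) ∧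
      fl1 f (o.x.g v.2) = fl1 f (o.x.g v.1) :=
  have e := ((mem_cp _ _ v).1 hv).2.2
  ⟨congrArg (·.1) e, congrArg (·.2.1) e, fl1_eq_of_le h (congrArg (·.2.2) e)⟩

/-- The context at one point is almost known from the context at the other. -/
theorem mv {W β : Type} {Q : FP W} {π π' : W → o.Ω} {G : W → β} {i₁ f₁ i f D A u c τ : ℕ}
    (h : ∀ v ∈ Q.S, o.x.l (π' v) = o.x.l (π v) ∧ fl1 i₁ (o.x.z (π' v)) = fl1 i₁ (o.x.z (π v)) ∧
      fl1 f₁ (o.x.g (π' v)) = fl1 f₁ (o.x.g (π v))) (hi : i₁ ≤ i) (hf : f₁ ≤ f)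
    (h1 : Fn Q (fun v => cx o i f D A u c (π v)) G) (h2 : Fn Q (fun v => o.x.zg i f (π' v)) G)
    (e : u ≤ i₁ + (o.d + D) ∧ c ≤ f₁ + (o.d + D) ∧ A ≤ i₁ + c ∧ A ≤ f₁ + u + τ ∧
      A ≤ f₁ + i₁ + (o.d + D)) : ch Q (fun v => cx o i f D A u c (π' v)) G ≤ 4 * τ * lg + 40 := by
  have k1 : Kn Q (o.x.map π) G ⟨i, f, u, o.d + D, A, c⟩ 1 := .of_fn fun a ha b hb q => by
    have := h1 a ha b hb q
    simp only [cx, Prod.mk.injEq] at this
    exact Prod.ext this.1.1 (Prod.ext this.1.2.1 (Prod.ext this.2.2.1 (Prod.ext this.1.2.2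
      (Prod.ext this.2.1 this.2.2.2))))
  have k2 := (RP.move2 (y := o.x.map π') (q := ⟨i, f, u, o.d + D, A - τ, c⟩) k1
    (fun v hv => (h v hv).1) h2 (fun v hv => RP.rn_cell hi (h v hv).2.1)
    (fun v hv => RP.rn_cell hf (h v hv).2.2.symm) (by simp only; omega)).ch'
    (q := ⟨i, f, u, o.d + D, A, c⟩) (u := τ) rfl rfl (Nat.le_add_right _ _)
    (Nat.le_add_right _ _) (by simp only; omega) (Nat.le_add_right _ _)
  refine (ch_mono (Fn.left (fun a _ b _ q => ?_) G)).trans (k2.trans_eq (by norm_num))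
  simp only [Pl.Bx, Prod.mk.injEq] at q
  exact Prod.ext (Prod.ext q.1 (Prod.ext q.2.1 q.2.2.2.1))
    (Prod.ext q.2.2.2.2.1 (Prod.ext q.2.2.1 q.2.2.2.2.2))

variable (o) (k j D a s b : ℕ)

theorem one {m : ℕ} (h : m ≤ a) :
    ∑ t ∈ range m, (o.loc k j D (a - t) s (b + t)).of.i1 ≤ j * lg + 4 := by
  obtain ⟨c, hc⟩ : ∃ c, c = cx o (k + s * j) (o.f k + s * j) D := ⟨_, rfl⟩
  have e : ∀ t ∈ range m, (o.loc k j D (a - t) s (b + t)).of.i1 =
      mi o.P (fun ω => (c 0 (k + (b + t) * j + o.d + j) (o.d + o.f k + (b + t) * j + j) ω).2.2)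
        (fun ω => (c (k + o.d + o.f k + (a + b) * j + j) 0 0 ω).2.1)
        (c (k + o.d + o.f k + (a + b) * j) (k + (b + t) * j + o.d) (o.d + o.f k + (b + t) * j)) :=
    fun t ht => by
      have : a + b = a - t + (b + t) := by have := mem_range.1 ht; omega
      rw [mi_symm, this, hc]
      refine Eq.trans ?_ ((tg.fst o.P o.P (o.wn (k + (a - t) * j))
        (o.wn (k + (a - t) * j))).mi_id _ _ _)
      rfl
  rw [sum_congr rfl e]
  refine (RP.tele _ _ _ m fun t _ x _ y _ q => ?_).trans ?_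
  · rw [hc] at q ⊢
    rw [← add_assoc, add_one_mul] at q
    exact Prod.ext (congrArg (·.2.2) (cx_le q (Nat.zero_le _) (by omega) (by omega)))
      (cx_le q le_rfl (by omega) (by omega))
  · rw [hc]
    refine ((Cls.of_fn (X := o.x.nm (k + s * j) (o.f k + s * j))
      (j := k + o.d + o.f k + (a + b) * j) fun x _ y _ q => congrArg (·.2.1) q).ch zero_le_one
      le_rfl).trans_eq (by norm_num)

variable {a s b} {f τ : ℕ}

theorem two (m : ℕ) (h : a ≤ s) (h1 : f ≤ o.f (k + a * j)) (h2 : f ≤ o.f k + s * j)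
    (h3 : o.f k + a * j ≤ f + τ) :
    ∑ t ∈ range m, (o.loc k j D a s (b + t)).of.i2 ≤ (2 * (s - a) * j + τ) * lg + 8 := by
  obtain ⟨c, hc⟩ : ∃ c, c = cx o (k + s * j) (o.f k + s * j) D := ⟨_, rfl⟩
  have e : ∀ t ∈ range m, (o.loc k j D a s (b + t)).of.i2 =
      mi (gl o (k + a * j)) (fun v => (c (k + o.d + o.f k + (a + (b + t)) * j + j)
          (k + (b + t) * j + o.d + j) (o.d + o.f k + (b + t) * j + j) v.1).2)
        (fun v => o.x.zg (k + s * j) (o.f k + s * j) v.2)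
        fun v => c (k + o.d + o.f k + (a + (b + t)) * j) (k + (b + t) * j + o.d)
          (o.d + o.f k + (b + t) * j) v.1 := fun t _ => by
    rw [mi_symm, hc]
    rfl
  rw [sum_congr rfl e]
  obtain ⟨w, rfl⟩ := Nat.exists_eq_add_of_le h
  refine (RP.tele _ _ _ m fun t _ x _ y _ q => ?_).trans ?_
  · rw [hc] at q ⊢
    rw [← add_assoc b, ← add_assoc a, add_one_mul, add_one_mul] at q
    exact Prod.ext (congrArg (·.2) (cx_le q (by omega) (by omega) (by omega)))
      (cx_le q (by omega) (by omega) (by omega))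
  · rw [hc]
    refine (RP.ch_zg (x := o.x.map Prod.snd) (i₀ := k + a * j) (f₀ := f) (u := w * j)
      (v := w * j + τ) (.of_fn fun x hx y hy q => ?_) (.of_fn fun x hx y hy q => ?_) ?_ ?_).trans_eq
      (by push_cast; ring)
    · exact (gl_mem h1 hx).2.1.trans ((fl1_eq_of_le (by rw [add_mul]; omega)
        (congrArg (·.1.2.1.1) q)).trans (gl_mem h1 hy).2.1.symm)
    · exact (gl_mem h1 hx).2.2.trans ((fl1_eq_of_le h2 (congrArg (·.1.2.1.2) q)).trans
        (gl_mem h1 hy).2.2.symm)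
    · rw [add_mul]; omega
    · rw [add_mul]; omega

theorem three (h : a ≤ s) (h0 : o.f k ≤ f) (h1 : f ≤ o.f (k + a * j)) (h2 : f ≤ o.f k + s * j)
    (h3 : o.f k + a * j ≤ f + τ) (h4 : b * j + j ≤ D) :
    (o.loc k j D a s b).of.i3 ≤ (o.loc k j D a s b).of.i1 + 2 * (o.loc k j D a s b).of.i2 +
      (8 * lg * τ + 80) := by
  have k0 : k + a * j ≤ k + s * j := Nat.add_le_add_left (Nat.mul_le_mul_right _ h) _
  have k1 := sym (tg.swap o.P o.P (o.wn (k + a * j)) _ (Law.rfl _)).symm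
    ((o.loc k j D a s b).of.N j) ((o.loc k j D a s b).of.V j) (o.loc k j D a s b).of.Th
    (o.loc k j D a s b).of.d
  have k2 := mv (Q := gl o (k + a * j)) (π := Prod.fst) (π' := Prod.snd) (D := D) (τ := τ)
    (A := k + o.d + o.f k + (a + b) * j) (u := k + b * j + o.d) (c := o.d + o.f k + b * j)
    (G := fun v => ((o.loc k j D a s b).of.d v, (o.loc k j D a s b).of.Th v))
    (fun v hv => gl_mem h1 hv) k0 h2 (Fn.snd _ _) (Fn.fst _ _) (by rw [add_mul]; omega)
  have k3 := mv (Q := gl o (k + a * j)) (π := Prod.snd) (π' := Prod.fst) (D := D) (τ := τ)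
    (A := k + o.d + o.f k + (a + b) * j) (u := k + b * j + o.d + j)
    (c := o.d + o.f k + b * j + j)
    (G := fun v => ((o.loc k j D a s b).of.V j v.swap, (o.loc k j D a s b).of.d v.swap,
      (o.loc k j D a s b).of.Th v.swap))
    (fun v hv => ⟨(gl_mem h1 hv).1.symm, (gl_mem h1 hv).2.1.symm, (gl_mem h1 hv).2.2.symm⟩) k0 h2
    (fun _ _ _ _ q => Prod.ext (congrArg (·.2.2.1) q)
      (Prod.ext (congrArg (·.2.2.2.1) q) (congrArg (·.1) q)))
    (fun _ _ _ _ q => congrArg (·.2.1) q) (by rw [add_mul]; omega)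
  have k4 := (ch_mono (F := fun v => ((o.loc k j D a s b).of.d v.swap,
    (o.loc k j D a s b).of.Th v.swap)) fun _ _ _ _ q =>
      Prod.ext (congrArg (·.2.2.1.2.1) q) (congrArg (·.1) q)).trans k2
  have k5 := (ch_mono (F := fun v => ((o.loc k j D a s b).of.V j v, (o.loc k j D a s b).of.d v,
    (o.loc k j D a s b).of.Th v)) fun _ _ _ _ q =>
      Prod.ext (congrArg (·.1.2.2) q) (Prod.ext (congrArg (·.2.2.2.1.2.1) q)
        (cx_le (congrArg (·.1) q) le_rfl (Nat.le_add_right _ _) (Nat.le_add_right _ _)))).trans k3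
  refine k1.trans ?_
  refine (add_le_add (add_le_add le_rfl k4) k5).trans (le_of_eq ?_)
  unfold Of.i1 Of.i2
  ring

end OffInfA

open OffInfA in
theorem rowOInf : SOInf := by
  intro κ ι o k R D j Z h
  have big := h.tan.big
  have sm : ∀ a, a < Z → Sm R fun n =>
      (((o n).f (k n) + a * j n - (o n).f (k n + a * j n) : ℕ) : ℝ) := fun a ha ε hε => by
    filter_upwards [(h.tan.lin k (fun n => k n + a * j n) (Eventually.of_forall fun n =>
      ⟨le_rfl, Nat.le_add_right _ _, Nat.add_le_add_left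
        ((Nat.mul_le_mul_right _ ha.le).trans (h.le n)) _⟩)).2 ε hε] with n u
    rcases le_total ((o n).f (k n) + a * j n) ((o n).f (k n + a * j n)) with e | e
    · rw [Nat.sub_eq_zero_of_le e, Nat.cast_zero]
      positivity
    · rw [Nat.cast_sub e]
      push_cast at u ⊢
      linarith
  refine ⟨fun a s b m hm => ?_, fun a s b m h1 h2 => ?_, fun a s b h1 h2 h3 => ?_⟩
  · exact Le.of_sub (big.sm 4) (Eventually.of_forall fun n => by
      linarith [one (o n) (k n) (j n) (D n) a s b hm])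
  · refine Le.of_sub (((sm a (by omega)).smul lg_pos.le).add (big.sm 8))
      (Eventually.of_forall fun n => ?_)
    have := Nat.mul_le_mul_right (j n) (show a ≤ s by omega)
    linarith [two (o n) (k n) (j n) (D n) (b := b) m (show a ≤ s by omega) (min_le_left _ _)
      (min_le_right _ _) (τ := (o n).f (k n) + a * j n - (o n).f (k n + a * j n)) (by omega)]
  · refine Le.of_sub (((sm a (by omega)).smul (c := 8 * lg) (by linarith [lg_pos])).add
      (big.sm 80)) ?_
    filter_upwards [h.tan.mono, h.tan.cap 1] with n u v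
    have k1 := Nat.mul_le_mul_right (j n) (show a ≤ s by omega)
    have k2 := u (Nat.le_add_right (k n) (a * j n))
    have k3 := (Nat.mul_le_mul_right (j n) (show b + 1 ≤ Z by omega)).trans (h.le n)
    rw [add_one_mul] at k3
    linarith [three (o n) (k n) (j n) (D n) (b := b) (show a ≤ s by omega) (by omega)
      (min_le_left _ _) (min_le_right _ _)
      (τ := (o n).f (k n) + a * j n - (o n).f (k n + a * j n)) (by omega) (by omega)]

end Pool.Agent.MP_5168f5_an.MX
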