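import Pool.Agent.MP_5168f5_an.MX.OffDefs
import Pool.Agent.MP_5168f5_an.MX.QApi
import Pool.Agent.MP_5168f5_an.MX.RPA

/-! Speed one, the sum-product step: the conditions that hold at every location. -/

namespace Pool.Agent.MP_5168f5_an.MX

open H19 H17S H17F R4.K31 Filter Finset

namespace OffLo0A

theorem spd {o : ℕ → Ob} {k R m : ℕ → ℕ} (h : Spd 1 k R o) (hm : ∀ n, m n ≤ R n) :
    ∃ τ : ℕ → ℕ, Sm R (fun n => τ n) ∧ ∀ n, (o n).f (k n + m n) ≤ (o n).f (k n) + m n + τ n ∧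
      (o n).f (k n) + m n ≤ (o n).f (k n + m n) + τ n := by
  obtain ⟨h1, h2⟩ := h k (fun n => k n + m n) (.of_forall fun n =>
    ⟨le_rfl, Nat.le_add_right _ _, Nat.add_le_add_left (hm n) _⟩)
  refine ⟨fun n => ((o n).f (k n + m n) - ((o n).f (k n) + m n)) +
    ((o n).f (k n) + m n - (o n).f (k n + m n)), fun ε hε => ?_, fun n => by dsimp only; omega⟩
  filter_upwards [h1 ε hε, h2 ε hε] with n a b
  rcases le_total ((o n).f (k n + m n)) ((o n).f (k n) + m n) with e | e <;>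
    rw [Nat.sub_eq_zero_of_le e, Nat.cast_add, Nat.cast_sub e] <;> push_cast at a b ⊢ <;> linarith

theorem sub2 {R τ : ℕ → ℕ} (h : Sm R fun n => τ n) : Sub R fun n => (2 : ℝ) ^ τ n :=
  ⟨fun _ => one_le_pow₀ one_le_two, fun ε hε => (h ε hε).mono fun n a =>
    (two_pow_le_exp _).trans (Real.exp_le_exp.2 (by linarith))⟩

theorem sh {x : ℝ} {m j E : ℕ} (h : |x| ≤ 1 / 2 ^ E) (e : m + j ≤ E) :
    |2 ^ m * x| ≤ 1 / 2 ^ j := by
  rw [abs_mul, abs_of_pos (by positivity : (0 : ℝ) < 2 ^ m)]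
  refine (mul_le_mul_of_nonneg_left (h.trans (dv_anti zero_le_one le_rfl e))
    (by positivity)).trans_eq ?_
  rw [pow_add]; field_simp

theorem sep {g g' : ℝ} {F F₀ p w τ : ℕ} (h : 1 / 2 ^ (F₀ + w) ≤ |g' - g|) (e1 : F₀ + w + 1 ≤ p)
    (e2 : F₀ ≤ F + τ) : 1 / 2 ^ (τ + w + 1) ≤ |2 ^ F * (rn p g' - rn p g)| := by
  have a1 := rn_le p g
  have a2 := rn_le p g'
  have a3 := lt_rn p g
  have a4 := lt_rn p g'
  have a5 : (1 : ℝ) / 2 ^ p ≤ 1 / 2 ^ (F₀ + w + 1) := dv_anti zero_le_one le_rfl e1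
  have a6 : (1 : ℝ) / 2 ^ (F₀ + w) = 2 * (1 / 2 ^ (F₀ + w + 1)) := by rw [pow_succ]; field_simp
  have a7 := le_abs_self (rn p g' - rn p g)
  have a8 := neg_abs_le (rn p g' - rn p g)
  have a9 : 1 / 2 ^ (F + (τ + w + 1)) ≤ |rn p g' - rn p g| :=
    (dv_anti zero_le_one le_rfl (by omega : F₀ + w + 1 ≤ F + (τ + w + 1))).trans
      (by rcases le_abs.1 h with h | h <;> linarith)
  rw [abs_mul, abs_of_pos (by positivity : (0 : ℝ) < 2 ^ F)]
  refine le_trans (le_of_eq ?_) (mul_le_mul_of_nonneg_left a9 (by positivity))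
  rw [pow_add _ F]; field_simp

variable (o : Ob) {k j D a s b τ i j' : ℕ}

theorem alg1 {L : ℝ} (h1 : a * j ≤ s * j) (h2 : a * j ≤ b * j) (h3 : b * j + j ≤ D)
    (t1 : o.f (k + a * j) ≤ o.f k + s * j) (t2 : o.f k + a * j ≤ o.f (k + a * j) + τ)
    (hL : 2 ^ τ ≤ L) : (o.loc k j D a s b).of.Alg L := by
  have fn : Fn (o.loc k j D a s b).of.P
      (fun ω => ((o.loc k j D a s b).of.ζ ω, (o.loc k j D a s b).of.γ ω))
      fun ω => ((o.loc k j D a s b).of.d ω, (o.loc k j D a s b).of.θ ω) := fun v _ w _ e => by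
    simp only [Pl.map, Pl.zg, Prod.mk.injEq] at e
    obtain ⟨⟨e1, e2⟩, -, ⟨e3, e4⟩, -⟩ := e
    simp only [rn, e1, e2, e3, e4]
  have bd : ∀ v ∈ (o.loc k j D a s b).of.P.S,
      |(o.loc k j D a s b).of.ζ v| ≤ 1 ∧ |(o.loc k j D a s b).of.γ v| ≤ 2 ^ τ := fun v hv => by
    have e := ((mem_cp _ _ v).1 hv).2.2
    exact ⟨by
      simpa using pw_le (a := 0) (t := k + a * j)
        (RP.rn_cell (i := k + s * j) (by omega) (congrArg (·.2.1) e)) (by omega), by
      simpa using pw_le (a := τ) (t := o.f k + a * j) (RP.rn_cell t1 (congrArg (·.2.2) e))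
        (by omega)⟩
  obtain ⟨m, hm⟩ := Nat.exists_eq_add_of_le h2
  have id : ∀ v ∈ (o.loc k j D a s b).of.P.S, 2 ^ (o.loc k j D a s b).of.a *
      ((o.loc k j D a s b).of.A v - (o.loc k j D a s b).of.B v) + (o.loc k j D a s b).of.ζ v *
      (2 ^ (o.loc k j D a s b).of.c * (o.loc k j D a s b).of.p v) - (o.loc k j D a s b).of.γ v *
      (2 ^ (o.loc k j D a s b).of.u * (o.loc k j D a s b).of.U v) = (o.loc k j D a s b).of.ζ v *
      (o.loc k j D a s b).of.γ v * (2 ^ (o.d + m) * o.x.e1 v.1) := fun v hv => by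
    have e := congrArg Prod.fst ((mem_cp _ _ v).1 hv).2.2
    simp only [Ob.wn, Pl.lz, Pl.l, Prod.mk.injEq] at e
    obtain ⟨e1, e2, e3, e4, -⟩ := e
    simp only [Pl.map, Pl.nm, Pl.y1, Pl.tl, e1, e2, e3, e4, add_mul, hm, pow_add]
    ring
  have one : (1 : ℝ) ≤ 2 ^ τ := one_le_pow₀ one_le_two
  refine ⟨fn, fun v hv => ⟨(bd v hv).1.trans (one.trans hL), (bd v hv).2.trans hL⟩,
    fun v hv w hw e => ?_⟩
  obtain ⟨e1, e2⟩ := Prod.mk.inj (fn v hv w hw e)
  have e3 := sh (m := o.d + m) (j := j) (E := o.d + D) (RP.nr (congrArg (·.2.2.2) e))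
    (by omega)
  simp only
  rw [id v hv, id w hw, ← e1, ← e2, ← mul_sub, ← mul_sub, abs_mul, abs_mul, div_eq_mul_one_div]
  refine mul_le_mul (le_trans ?_ hL) e3 (abs_nonneg _) (by linarith)
  exact (mul_le_mul (bd v hv).1 (bd v hv).2 (abs_nonneg _) zero_le_one).trans_eq (one_mul _)

/-- The context at a location. -/
noncomputable def cx (k j D a s b i : ℕ) (ω : o.Ω) :=
  (fl1 (k + o.d + o.f k + (a + b) * j + j) (o.x.nm (k + s * j) (o.f k + s * j) ω),
    (fl1 (k + b * j + o.d + i) (o.x.y1 (k + s * j) ω),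
      fl1 (o.d + o.f k + b * j + i) (o.x.tl (o.f k + s * j) ω)),
    (o.x.θ ω, o.x.zg (k + s * j) (o.f k + s * j) ω, o.ep D ω))

theorem fro1 {W β : Type} (Q : FP W) (ρ : W → o.Ω × o.Ω) (K : o.Ω → β)
    (hm : ∀ v ∈ Q.S, o.wn (k + a * j) (ρ v).2 = o.wn (k + a * j) (ρ v).1)
    (h : a * j + j' ≤ s * j) :
    ch Q (fun v => fl1 (k + a * j + j') (o.x.z (ρ v).2)) (fun v => o.wn (k + a * j) (ρ v).2) ≤
      ch Q (fun v => fl1 j' ((o.loc k j D a s b).of.ζ (ρ v))) (fun v => K (ρ v).1) +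
      mi Q (fun v => fl1 (k + a * j + j') (o.x.z (ρ v).2)) (fun v => (ρ v).1)
        (fun v => o.wn (k + a * j) (ρ v).1) + 8 := by
  have a1 : ch Q (fun v => fl1 (k + a * j + j') (o.x.z (ρ v).2)) (fun v => o.wn (k + a * j) (ρ v).2)
      ≤ ch Q (fun v => fl1 (k + a * j + j') (o.x.z (ρ v).2)) fun v => o.wn (k + a * j) (ρ v).1 :=
    ch_anti fun u hu v hv e => (hm u hu).symm.trans (e.trans (hm v hv))
  have a3 := ch_tri (P := Q) (fun v => fl1 (k + a * j + j') (o.x.z (ρ v).2))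
    (fun v => fl1 j' ((o.loc k j D a s b).of.ζ (ρ v))) fun v => ((ρ v).1, o.wn (k + a * j) (ρ v).1)
  have a4 : ch Q (fun v => fl1 j' ((o.loc k j D a s b).of.ζ (ρ v)))
      (fun v => ((ρ v).1, o.wn (k + a * j) (ρ v).1)) ≤
      ch Q (fun v => fl1 j' ((o.loc k j D a s b).of.ζ (ρ v))) fun v => K (ρ v).1 :=
    ch_anti fun _ _ _ _ e => congrArg (fun t => K t.1) e
  have a5 := Cls.ch (P := Q) (G := fun v => (fl1 j' ((o.loc k j D a s b).of.ζ (ρ v)), (ρ v).1,
      o.wn (k + a * j) (ρ v).1)) (X := fun v => o.x.z (ρ v).2) (j := k + a * j + j') (K := 3)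
    (k := k + a * j + j') (u := 0) (fun u _ v _ e => by
      have e1 := RP.nr (congrArg Prod.fst e)
      have e2 : (ρ u).1 = (ρ v).1 := congrArg (·.2.1) e
      simp only [e2] at e1
      rw [← mul_sub, sub_sub_sub_cancel_right, abs_mul,
        abs_of_pos (by positivity : (0 : ℝ) < 2 ^ (k + a * j)), ← le_div_iff₀' (by positivity),
        div_div, ← pow_add, add_comm j', abs_le] at e1
      have e3 := abs_le.1 (near_rn (k + s * j) (o.x.z (ρ u).2))
      have e4 := abs_le.1 (near_rn (k + s * j) (o.x.z (ρ v).2))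
      have e5 : (1 : ℝ) / 2 ^ (k + s * j) ≤ 1 / 2 ^ (k + a * j + j') :=
        dv_anti zero_le_one le_rfl (by omega)
      rw [abs_le, div_eq_mul_one_div]
      dsimp only
      constructor <;> linarith [e1.1, e1.2, e3.1, e3.2, e4.1, e4.2]) (by norm_num) le_rfl
  unfold mi
  push_cast at a5
  linarith

theorem ful1 (h1 : a * j + 2 * j ≤ s * j) (h2 : s * j + j ≤ b * j) (h3 : b * j + j ≤ D)
    (hi : i ≤ j' ∧ j' ≤ j) (ht : τ ≤ j) (t2 : o.f k + (b * j + i) ≤ o.f (k + (b * j + i)) + τ) :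
    ch o.P (fun ω => fl1 (k + (b * j + j') + o.d) (o.x.y1 (k + (b * j + i)) ω))
        (fun ω => (o.S (k + (b * j + i)) ω, o.ep D ω)) ≤
      ch o.P (fun ω => fl1 (k + b * j + o.d + j') (o.x.y1 (k + s * j) ω)) (cx o k j D a s b i) +
        (4 * τ * lg + 46) := by
  have kn := (Kn.of_fn (P := o.P) (p := o.pm (k + (b * j + i)))
    (Fn.fst (o.S (k + (b * j + i))) (o.ep D))).setE (E := o.d + D) (.of_fn (Fn.snd _ _))
  have hz := (fn_zg (i := k + s * j) (f := o.f k + s * j) (by simp only [Ob.pm, lab]; omega)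
    (by simp only [Ob.pm, lab]; omega)).trans kn.zg
  have a1 := (kn.move (q := ⟨k + s * j, o.f k + s * j, k + b * j + o.d + i, o.d + D,
    k + o.d + o.f k + (a + b) * j + j - τ, o.d + o.f k + b * j + i - τ⟩) hz
    (by simp only [Pm.Rd, Ob.pm, lab, add_mul]; omega)).ch' (u := τ)
    (q := ⟨k + s * j, o.f k + s * j, k + b * j + o.d + i, o.d + D,
      k + o.d + o.f k + (a + b) * j + j, o.d + o.f k + b * j + i⟩) rfl rfl (by simp only; omega)
    (by simp only; omega) (by simp only; omega) (by simp only; omega)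
  have a2 := (ch_mono (F := cx o k j D a s b i) (Fn.left (fun u _ v _ e => by
    simp only [Pl.Bx, cx, Ob.ep, Prod.mk.injEq] at e ⊢; tauto) _)).trans a1
  have a3 := Cls.ch (P := o.P) (G := fun ω => (fl1 (k + b * j + o.d + j') (o.x.y1 (k + s * j) ω),
      o.S (k + (b * j + i)) ω, o.ep D ω)) (X := o.x.y1 (k + (b * j + i)))
    (k := k + (b * j + j') + o.d) (u := 0) (((Cls.of_fn (Fn.fst _ _)).add
      (((kn.E.ctx (Fn.snd _ _)).mul (k := k + s * j)
        ((RP.fsub (RP.fnz kn.zg) (RP.fnz hz)).right _) fun ω _ => (rn_sub _ _ _).trans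
          (dv_anti zero_le_one le_rfl (by simp only [Ob.pm, lab]; omega))).mono
        (by simp only; omega) zero_le_one le_rfl)).congr fun ω _ => by
      simp only [Pl.y1, Ob.pm, lab]; ring) (by norm_num) (by omega)
  have a4 := ch_tri (P := o.P)
    (fun ω => fl1 (k + (b * j + j') + o.d) (o.x.y1 (k + (b * j + i)) ω))
    (fun ω => fl1 (k + b * j + o.d + j') (o.x.y1 (k + s * j) ω))
    fun ω => (o.S (k + (b * j + i)) ω, o.ep D ω)
  have a5 := ch_tri' (P := o.P) (fun ω => fl1 (k + b * j + o.d + j') (o.x.y1 (k + s * j) ω))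
    (fun ω => (o.S (k + (b * j + i)) ω, o.ep D ω)) (cx o k j D a s b i)
  push_cast at a3
  linarith

end OffLo0A

attribute [local irreducible] ch mi pb fl1

open OffLo0A in
theorem rowOLo0 : SOLo0 := by
  intro κ ι o k R D j Z a s b _ ⟨tan, fr, le⟩ as sb bz
  have ar : ∀ n, a * j n + 2 * j n ≤ s * j n ∧ s * j n + j n ≤ b * j n ∧ b * j n + j n ≤ R n :=
    fun n => ⟨by nlinarith, by nlinarith, by nlinarith [le n]⟩
  have cap := (tan.cap 1).mono fun n u => (ar n).2.2.trans ((one_mul _).ge.trans u)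
  have big := tan.big.frac fr
  refine ⟨big, ?_, fun W Q ρ dn j' hj => ?_, fun i j' hj => ?_⟩
  · obtain ⟨τ, hτ, t⟩ := spd (m := fun n => a * j n) tan.lin fun n => by have := ar n; omega
    replace hτ : Sm j fun n => τ n := Le.frac hτ fr
    obtain ⟨L, hL, w⟩ := sep_sub (P := fP (lc o k j D a s b)) (M := j)
      (y := fun n => (lc o k j D a s b n).γ) fun c c0 c1 => by
        refine ((tan.toDp.nd' (a := fun n => k n + a * j n) (.of_forall fun n => by
          have := ar n; dsimp only; omega)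
          ((big.frac_floor (half_pos c0) (by linarith)).trans fr)).copy
          fun n => (o n).x.g).mono ?_
        filter_upwards [hτ (c / 4) (by positivity), big.ev (4 / c)] with n u v ω _ e
        have e1 : ((τ n + ⌊c / 2 * j n⌋₊ + 1 : ℕ) : ℝ) ≤ c * j n := by
          have := Nat.floor_le (show 0 ≤ c / 2 * j n by positivity)
          rw [div_le_iff₀ c0] at v
          push_cast; linarith
        have e2 : τ n + ⌊c / 2 * j n⌋₊ + 1 ≤ j n := by
          exact_mod_cast e1.trans (mul_le_of_le_one_left (Nat.cast_nonneg _) c1)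
        refine le_trans ?_ (sep (τ := τ n) e (by have := ar n; have := t n; omega)
          (by have := t n; omega))
        rw [Real.exp_neg, one_div]
        exact inv_anti₀ (by positivity) ((two_pow_le_exp _).trans (Real.exp_le_exp.2 e1))
    refine ⟨fun n => L n * 2 ^ τ n, hL.mul (sub2 hτ), ?_, w.mono (.of_forall fun n ω _ e => ?_)⟩
    · filter_upwards [cap, hτ 1 one_pos] with n u v
      have : τ n ≤ j n := by exact_mod_cast (by linarith : (τ n : ℝ) ≤ j n)
      have := ar n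
      have := t n
      exact alg1 (o n) (by omega) (by omega) u (by omega) (t n).2
        (le_mul_of_one_le_left (by positivity) (hL.1 n))
    · rw [div_le_iff₀' (hL.pos n)] at e
      exact e.trans (mul_le_mul_of_nonneg_right
        (le_mul_of_one_le_right (hL.pos n).le ((sub2 hτ).1 n)) (abs_nonneg _))
  · have d2 := dn.trans (dn_snd (oP o) fun n => (o n).wn (k n + a * j n))
    have h1 := (hgt_lo (tan.toBs.pull d2) (tan.toRot.pull d2) (a := fun n => k n + a * j n)
      (b := fun n => k n + a * j n + j' n) (.of_forall fun n => by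
        have := ar n; have : j' n ≤ j n := hj n; dsimp only; omega)).frac fr
    have h2 := dn.sm_mi big (F := fun n v => fl1 (k n + a * j n + j' n) ((o n).x.z v.2))
      (G := fun n v => v.1) (K := fun n v => (o n).wn (k n + a * j n) v.1)
      (Le.of_le fun n => (mi_cp (o n).P (o n).P ((o n).wn (k n + a * j n)) _ (Law.rfl _)
        (fun ω => fl1 (k n + a * j n + j' n) ((o n).x.z ω)) id (Fn.rfl _)).le)
    refine h1.of3 h2 (big.sm 8) ((DnS_mem dn).mono fun n u => ?_)
    have h3 := fro1 (o n) (D := D n) (s := s) (b := b) (j' := j' n) (Q n) (ρ n)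
      (cx (o n) (k n) (j n) (D n) a s b (j n)) (fun v hv => ((mem_cp _ _ _).1 (u v hv)).2.2)
      (by have := ar n; have : j' n ≤ j n := hj n; omega)
    have aux : ∀ x y z c u v l : ℝ, x ≤ y + z + 8 →
        c * v * l - y ≤ c * (u + v - u) * l - x + (z - 0) + (8 - 0) := by intros; linarith
    rw [Nat.cast_add (k n + a * j n)]
    exact aux _ _ _ _ _ _ _ h3
  · have hj' : ∀ n, i n ≤ j' n ∧ j' n ≤ j n := hj
    obtain ⟨τ, hτ, t⟩ := spd (m := fun n => b * j n + i n) tan.lin fun n => by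
      have := ar n; have := hj' n; omega
    replace hτ : Sm j fun n => τ n := Le.frac hτ fr
    have h1 := (tan.lat (fun n => k n + (b * j n + i n)) (fun n => k n + (b * j n + j' n))
      (.of_forall fun n => by have := ar n; have := hj' n; dsimp only; omega)).frac fr
    refine h1.of3 (hτ.smul (show 0 ≤ 4 * lg by linarith [lg_pos])) (big.sm 46) ?_
    filter_upwards [cap, hτ 1 one_pos] with n u v
    have h2 := ful1 (o n) (ar n).1 (ar n).2.1 u (hj' n)
      (by exact_mod_cast (by linarith : (τ n : ℝ) ≤ j n)) (t n).2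
    rw [← (tg.fst (o n).P (o n).P ((o n).wn (k n + a * j n)) ((o n).wn (k n + a * j n))).ch_id
      _ (cx (o n) (k n) (j n) (D n) a s b (i n))] at h2
    have aux : ∀ x y t l u w p q : ℝ, x ≤ y + (4 * t * l + 46) → (q - p) * l - y ≤
        (u + (w + q) - (u + (w + p))) * l - x + (4 * l * t - 0) + (46 - 0) := by
      intros; linarith
    rw [Nat.cast_add (k n), Nat.cast_add (k n), Nat.cast_add _ (j' n), Nat.cast_add _ (i n)]
    exact aux _ _ _ _ _ _ _ _ h2

end Pool.Agent.MP_5168f5_an.MX
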