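import Pool.Agent.MP_5168f5_an.MX.OffDefs
import Pool.Agent.MP_5168f5_an.MX.QApi
import Pool.Agent.MP_5168f5_an.MX.RPA

/-! Speed one, the sum-product step: the path of boxes. -/

namespace Pool.Agent.MP_5168f5_an.MX

open H19 H17S H17F R4.K31 Filter Finset

namespace OffPath

variable (o : Ob) (k j D : ℕ)

/-- The depths of a box of the path. -/
def tb (s b c : ℕ) : Pm :=
  ⟨k + s * j, o.f k + s * j, k + b * j + o.d, o.d + D, k + o.d + o.f k + c * j,
    o.d + o.f k + b * j⟩

/-- The entropy of the line given the box. -/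
noncomputable def H (s b c : ℕ) : ℝ := ch o.P o.x.l (o.x.Bx (tb o k j D s b c))

/-- The cell and the lateral direction. -/
noncomputable def Sp (m : ℕ) (ω : o.Ω) := (o.S m ω, o.ep D ω)

theorem hA_le (a s b : ℕ) :
    (o.loc k j D a s b).of.hA + H o k j D s b (a + b + 1) ≤ H o k j D s b (a + b) := by
  have h := RP.stepD (P := o.P) (x := o.x) (i := k + s * j) (f := o.f k + s * j)
    (t := k + b * j + o.d) (E := o.d + D) (c := o.d + o.f k + b * j)
    (Nat.le_add_right (k + o.d + o.f k + (a + b) * j) j)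
  rw [← (R4.kg.fst o.P o.P (o.wn (k + a * j)) (o.wn (k + a * j))).ch_id] at h
  rw [H, tb, add_one_mul, ← add_assoc]
  refine le_trans (add_le_add (ch_anti fun u _ v _ e => ?_) le_rfl) h
  simp only [Of.Th, Of.V, Prod.mk.injEq] at e
  exact Prod.ext e.1.1 (Prod.ext e.1.2.1 (Prod.ext e.2.2.1 (Prod.ext e.1.2.2
    (Prod.ext e.2.1 e.2.2.2))))

variable {o k j D} {s b c u : ℕ}

theorem kn (m : ℕ) : Kn o.P o.x (Sp o D m) ⟨m, o.f m, m + o.d, o.d + D, m + (o.d + o.f m),
    o.d + o.f m⟩ 1 :=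
  (Kn.of_fn (p := o.pm m) (Fn.fst _ (o.ep D))).setE (.of_fn (Fn.snd _ _))

theorem nd (h : s < b) (hc : c < s + b) (hD : b * j ≤ D) (hu : u ≤ j)
    (hf : o.f k + b * j ≤ o.f (k + b * j) + u) :
    ch o.P (o.x.Bx (tb o k j D s b c)) (Sp o D (k + b * j)) ≤ 4 * u * lg + 40 := by
  have h1 : s * j + j ≤ b * j := add_one_mul s j ▸ Nat.mul_le_mul_right j h
  have h2 : c * j + j ≤ s * j + b * j := by
    rw [← add_one_mul, ← add_mul]; exact Nat.mul_le_mul_right j hc
  have := ((kn (o := o) (D := D) (k + b * j)).move (q := ⟨k + s * j, o.f k + s * j, k + b * j + o.d,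
    o.d + D, k + o.d + o.f k + c * j, o.d + o.f k + b * j - u⟩)
    ((fn_zg (by simp only; omega) (by simp only; omega)).trans (kn (k + b * j)).zg)
    (by simp only [Pm.Rd]; omega)).ch' (q := tb o k j D s b c) (u := u) rfl rfl
    (Nat.le_add_right _ _) (Nat.le_add_right _ _) (Nat.le_add_right _ _) le_tsub_add
  linarith

theorem gain (h : s < b) (hc : c < s + b) (hD : b * j + j ≤ D) (hu : u ≤ j)
    (hf : o.f k + b * j ≤ o.f (k + b * j) + u) :
    ch o.P (fun ω => fl1 (k + b * j + j + o.d) (o.x.y1 (k + b * j) ω)) (Sp o D (k + b * j)) +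
      H o k j D s (b + 1) c ≤ H o k j D s b c + (4 * u * lg + 46) := by
  have h1 : s * j ≤ b * j := Nat.mul_le_mul_right j h.le
  set A : o.Ω → ℤ := fun ω => fl1 (k + b * j + j + o.d) (o.x.y1 (k + s * j) ω)
  have a1 := RP.stept (P := o.P) (x := o.x) (i := k + s * j) (f := o.f k + s * j)
    (t := k + b * j + o.d) (t' := k + b * j + j + o.d) (E := o.d + D)
    (D := k + o.d + o.f k + c * j) (c := o.d + o.f k + b * j) (by omega)
  have a2 : H o k j D s (b + 1) c ≤ _ := ch_anti (bx_mono (q := ⟨k + s * j, o.f k + s * j,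
    k + b * j + j + o.d, o.d + D, k + o.d + o.f k + c * j, o.d + o.f k + b * j⟩) rfl rfl
    (by simp only [tb, add_one_mul]; omega) le_rfl le_rfl (by simp only [tb, add_one_mul]; omega))
  have a3 := nd (D := D) h hc (by omega) hu hf
  have a4 := ch_tri' (P := o.P) A (Sp o D (k + b * j)) (o.x.Bx (tb o k j D s b c))
  have a5 := ch_tri (P := o.P) (fun ω => fl1 (k + b * j + j + o.d) (o.x.y1 (k + b * j) ω)) A
    (Sp o D (k + b * j))
  have K := (kn (o := o) (D := D) (k + b * j)).ctx (Fn.snd A _)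
  have a6 := (((Cls.of_fn (Fn.fst A _)).add ((K.E.mul (RP.fsub (RP.fnz K.zg)
    (RP.fnz ((fn_zg (i := k + s * j) (by simp only; omega) le_rfl).trans K.zg)))
    fun ω _ => rn_sub _ _ _).mono (by simp only; omega) zero_le_one le_rfl)).congr
    (X' := o.x.y1 (k + b * j)) fun ω _ => by simp only [Pl.y1]; ring).ch (u := 0)
    (k := k + b * j + j + o.d) (by norm_num) le_rfl
  simp only [H, tb, Nat.cast_zero] at *
  linarith

theorem lev (hc : c ≤ s + b) (hD : b * j ≤ D) :
    H o k j D (s + 1) b c ≤ H o k j D s b c + 40 := by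
  have h2 : c * j ≤ s * j + b * j := add_mul s b j ▸ Nat.mul_le_mul_right j hc
  refine RP.stepR _ ?_ ?_ ?_ <;> simp only [Pm.Rd, tb, add_one_mul] <;> omega

theorem ends (hm : Monotone o.f) (h : s < b) (hc : c < s + b) (hD : b * j ≤ D) (hu : u ≤ j)
    (hf : o.f k + b * j ≤ o.f (k + b * j) + u) (s' b' c' : ℕ) :
    H o k j D s' b' c' ≤ H o k j D s b c + o.J k (k + b * j) + (4 * u * lg + 120) := by
  have a1 := nd h hc hD hu hf
  have a2 := ch_tri' (P := o.P) o.x.l (Sp o D (k + b * j)) (o.x.Bx (tb o k j D s b c))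
  have a3 := RP.stepR (P := o.P) (x := o.x) (p := tb o k j D s' b' c')
    (q := ⟨k, o.f k, k + o.d, o.d + D, k + (o.d + o.f k), o.d + o.f k⟩) o.x.l
    (Nat.le_add_right _ _) (Nat.le_add_right _ _) (by simp only [Pm.Rd, tb]; omega)
  have a4 : ch o.P o.x.l (o.x.Bx ⟨k, o.f k, k + o.d, o.d + D, k + (o.d + o.f k), o.d + o.f k⟩) ≤
      ch o.P o.x.l fun ω => (o.ep D ω, o.S k ω) :=
    ch_anti (bx_E.pair (bx_mono rfl rfl le_rfl (Nat.le_add_right _ _) le_rfl le_rfl))
  have a5 : ch o.P o.x.l (fun ω => (o.ep D ω, o.S (k + b * j) ω)) ≤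
      ch o.P o.x.l (Sp o D (k + b * j)) := ch_anti ((Fn.snd _ _).pair (Fn.fst _ _))
  have a6 := fun m => RP.drop (G := o.S m) ((o.ep_l D).left _)
  have a7 := ch_tri' (P := o.P) (o.ep D) (o.S (k + b * j)) (o.S k)
  have a8 := Ob.ch_S hm (Nat.le_add_right k (b * j)) (Fn.rfl _)
  simp only [H, Ob.J]
  linarith [a6 k, a6 (k + b * j)]

end OffPath

open OffPath

attribute [local irreducible] ch mi pb fl1

theorem rowOPath : SOPath := by
  intro κ ι o k R D j Z a s b m h has hsb hZ
  have T := h.tan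
  have le : ∀ {c}, c ≤ Z → ∀ n, c * j n ≤ R n := fun e n =>
    (Nat.mul_le_mul_right _ e).trans (h.le n)
  have sl : ∀ c ≤ Z, ∃ u : ℕ → ℕ, Sm R (fun n => 4 * u n * lg) ∧ ∀ᶠ n in UF, u n ≤ j n ∧
      (o n).f (k n) + c * j n ≤ (o n).f (k n + c * j n) + u n ∧ c * j n ≤ D n := fun c hc => by
    have e := (T.lin k (fun n => k n + c * j n) (.of_forall fun n =>
      ⟨le_rfl, Nat.le_add_right _ _, Nat.add_le_add_left (le hc n) _⟩)).2
    have e1 : Sm R fun n => (((o n).f (k n) + c * j n - (o n).f (k n + c * j n) : ℕ) : ℝ) :=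
      fun ε hε => (e ε hε).mono fun n w => by
        rcases le_total ((o n).f (k n) + c * j n) ((o n).f (k n + c * j n)) with v | v
        · simp only [Nat.sub_eq_zero_of_le v, Nat.cast_zero, zero_add]; positivity
        · simp only [Nat.cast_sub v]; push_cast at w ⊢; linarith
    refine ⟨_, (e1.smul (c := 4 * lg) (by linarith [lg_pos])).mono
      (.of_forall fun n => le_of_eq (by ring)), ?_⟩
    filter_upwards [Le.frac e1 h.fr 1 one_pos, T.cap 1] with n w v
    rw [zero_add, one_mul, Nat.cast_le] at w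
    exact ⟨w, le_add_tsub, by linarith [le hc n]⟩
  have key : ∀ m, b + m < Z → Le R (fun n => m * j n * lg + ∑ t ∈ range m,
      ((lc o k j D (a + t) (s + t) (b + t) n).hA + (lc o k j D (a + t) (s + t) (b + t + 1) n).hA) +
      H (o n) (k n) (j n) (D n) (s + m) (b + m) (a + m + (b + m)))
      fun n => H (o n) (k n) (j n) (D n) s b (a + b) := fun m => by
    induction m with
    | zero => exact fun _ => Le.of_le fun n => by simp
    | succ m ih =>
      intro hm
      obtain ⟨u, u1, u2⟩ := sl (b + m) (by omega)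
      obtain ⟨_, -, u3⟩ := sl (b + m + 1) (by omega)
      refine (ih (by omega)).of4 (T.lat (fun n => k n + (b + m) * j n)
        (fun n => k n + (b + m) * j n + j n) (.of_forall fun n => ⟨Nat.le_add_right _ _,
          Nat.le_add_right _ _, by linarith [le (c := b + m + 1) (by omega) n]⟩)) u1
        (T.big.sm 86) ?_
      filter_upwards [u2, u3] with n v w
      have a1 := hA_le (o n) (k n) (j n) (D n) (a + m) (s + m) (b + m)
      have a2 := gain (D := D n) (s := s + m) (c := a + m + (b + m) + 1) (by omega) (by omega)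
        (by linarith [w.2.2]) v.1 v.2.1
      have a3 := hA_le (o n) (k n) (j n) (D n) (a + m) (s + m) (b + m + 1)
      have a4 := lev (o := o n) (k := k n) (s := s + m) (c := a + m + (b + m + 1) + 1) (by omega)
        w.2.2
      rw [sum_range_succ, show a + (m + 1) + (b + (m + 1)) = a + m + (b + m + 1) + 1 by omega]
      unfold Sp at a2
      simp only [lc, ← add_assoc] at a1 a2 a3 a4 ⊢
      push_cast
      linarith
  obtain ⟨u, u1, u2⟩ := sl (b + m) hZ.le
  refine (key m hZ).of4 (T.up.self k (fun n => k n + (b + m) * j n) (.of_forall fun n =>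
    ⟨le_rfl, Nat.le_add_right _ _, Nat.add_le_add_left (le hZ.le n) _⟩)) u1 (T.big.sm 120) ?_
  filter_upwards [u2, T.mono] with n v w
  have := ends w (s := s + m) (c := a + m + (b + m)) (by omega) (by omega) v.2.2 v.1 v.2.1 s b
    (a + b)
  push_cast
  linarith

end Pool.Agent.MP_5168f5_an.MX
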