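import Pool.Agent.MP_5168f5_an.MX.OffCar
import Pool.Agent.MP_5168f5_an.MX.OffClo
import Pool.Agent.MP_5168f5_an.MX.OffCom
import Pool.Agent.MP_5168f5_an.MX.OffLo0
import Pool.Agent.MP_5168f5_an.MX.OffInf
import Pool.Agent.MP_5168f5_an.MX.OffPath

/-! Speed one: choice of a location, diagonal limit, minimal normal entropy. -/

namespace Pool.Agent.MP_5168f5_an.MX

open H19 H17S H17F R4.K31 Filter Finset

attribute [local irreducible] ch mi pb fl1

namespace OG

variable {κ ι : ℝ} {o : ℕ → Ob} {k R D j : ℕ → ℕ} {Z : ℕ}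

/-- The total information at a location. -/
noncomputable def inf (x : Of) : ℝ := x.i1 + x.i2 + x.i3

theorem inf_nonneg (x : Of) : 0 ≤ inf x :=
  add_nonneg (add_nonneg (mi_nonneg _ _ _) (mi_nonneg _ _ _)) (mi_nonneg _ _ _)

theorem hA_nonneg (x : Of) : 0 ≤ x.hA := ch_nonneg _ _

theorem le_sum3 {M : ℕ → ℕ} (A B : ℕ) {F : ℕ → ℕ → ℕ → ℝ} {g : ℕ → ℝ}
    (h : ∀ a < A, ∀ b < B, Le M (F a b) g) :
    Le M (fun n => ∑ a ∈ range A, ∑ b ∈ range B, F a b n) fun n => A * B * g n :=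
  (Le.sum (range A) (G := fun _ n => ∑ _b ∈ range B, g n) fun a ha => Le.sum (range B)
    fun b hb => h a (mem_range.1 ha) b (mem_range.1 hb)).trans (Le.of_le fun n => by
      simp only [sum_const, card_range, nsmul_eq_mul]; exact le_of_eq (by ring))

/-- The sum of the informations over the family with shift `e`. -/
theorem sum_inf (h : Msh κ ι o k R D j Z) {m K W e : ℕ} (hZ : m + 2 * K + 3 + W + e ≤ Z) :
    Le R (fun n => ∑ y ∈ range m, ∑ t ∈ range K, ∑ r ∈ range W,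
      inf (lc o k j D (K + y - t) (K + y + 2) (K + y + 3 + e + r + t) n))
      fun n => (2 * (m * W) + 3 * (m * K * (2 * (K + 2)))) * (j n * lg) := by
  obtain ⟨h1, h2, h3⟩ := rowOInf κ ι o k R D j Z h
  have a1 := le_sum3 (M := R) m W fun y _ r _ =>
    h1 (K + y) (K + y + 2) (K + y + 3 + e + r) K (Nat.le_add_right _ _)
  have a2 := le_sum3 (M := R) m K (g := fun n => 2 * (K + 2) * (j n * lg)) fun y hy t ht =>
    (h2 (K + y - t) (K + y + 2) (K + y + 3 + e + t) W (by omega) (by omega)).trans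
      (Le.of_le fun n => by
        rw [Nat.cast_sub (by omega), mul_assoc]
        refine mul_le_mul_of_nonneg_right ?_ (mul_nonneg (Nat.cast_nonneg _) lg_pos.le)
        have : (t : ℝ) ≤ K := by exact_mod_cast ht.le
        push_cast; linarith)
  have a3 := Le.sum (M := R) (range m) fun y hy => Le.sum (range K) fun t ht =>
    Le.sum (range W) fun r hr => h3 (K + y - t) (K + y + 2) (K + y + 3 + e + r + t) (by omega)
      (by omega) (by simp only [mem_range] at hy ht hr; omega)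
  refine Le.of3 (a1.smul zero_le_two) (a2.smul zero_le_three) a3
    (Eventually.of_forall fun n => le_of_eq ?_)
  have e1 : ∑ y ∈ range m, ∑ r ∈ range W, ∑ t ∈ range K,
      (lc o k j D (K + y - t) (K + y + 2) (K + y + 3 + e + r + t) n).i1 = _ :=
    sum_congr rfl fun _ _ => sum_comm
  have e2 : ∀ y t r, K + y + 3 + e + t + r = K + y + 3 + e + r + t := fun _ _ _ => by ring
  simp only [e1, e2, inf, sum_add_distrib, ← mul_sum]
  ring

/-- The sum of the normal entropies over the family. -/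
theorem sum_hA (h : Msh κ ι o k R D j Z) (hι : ι ≤ 3) {m K W : ℕ}
    (hZ : m + 2 * K + 3 + W ≤ Z) :
    Le R (fun n => ∑ y ∈ range m, ∑ t ∈ range K, ∑ r ∈ range W,
      ((lc o k j D (K + y - t) (K + y + 2) (K + y + 3 + 0 + r + t) n).hA +
        (lc o k j D (K + y - t) (K + y + 2) (K + y + 3 + 1 + r + t) n).hA))
      fun n => K * W * (((ι - 1) * m + 3 * (2 * K + 3 + W)) * (j n * lg)) := by
  refine (le_sum3 (M := R) K W (F := fun t r n => ∑ y ∈ range m,
    ((lc o k j D (K - t + y) (K + 2 + y) (K + 3 + r + t + y) n).hA +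
      (lc o k j D (K - t + y) (K + 2 + y) (K + 3 + r + t + y + 1) n).hA)) fun t ht r hr =>
    (rowOPath κ ι o k R D j Z (K - t) (K + 2) (K + 3 + r + t) m h (by omega) (by omega)
      (by omega)).of_sub (Eventually.of_forall fun n => ?_)).congr
    (Eventually.of_forall fun n => ?_) (Eventually.of_forall fun _ => rfl)
  · have a1 : (t : ℝ) ≤ K := by exact_mod_cast ht.le
    have a2 : (r : ℝ) ≤ W := by exact_mod_cast hr.le
    have a3 := mul_nonneg (Nat.cast_nonneg (α := ℝ) (j n)) lg_pos.le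
    have a4 : ι * (K + 3 + r + t) ≤ 3 * (2 * K + 3 + W) :=
      (mul_le_mul_of_nonneg_right hι (by positivity)).trans (by linarith)
    push_cast
    nlinarith [mul_le_mul_of_nonneg_right a4 a3]
  · rw [sum_comm]
    refine sum_congr rfl fun t ht => ?_
    rw [sum_comm]
    refine sum_congr rfl fun r _ => sum_congr rfl fun y _ => ?_
    have := mem_range.1 ht
    rw [show K + y - t = K - t + y by omega, show K + y + 2 = K + 2 + y by ring,
      show K + y + 3 + 0 + r + t = K + 3 + r + t + y by ring,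
      show K + y + 3 + 1 + r + t = K + 3 + r + t + y + 1 by ring]

theorem pick3 {m K W : ℕ} (hm : 0 < m) (hK : 0 < K) (hW : 0 < W) {G : ℕ → ℕ → ℕ → ℕ → ℝ}
    {g : ℕ → ℝ} (h : ∀ᶠ n in UF, ∑ y ∈ range m, ∑ t ∈ range K, ∑ r ∈ range W, G y t r n ≤
      m * K * W * g n) : ∃ y < m, ∃ t < K, ∃ r < W, ∀ᶠ n in UF, G y t r n ≤ g n := by
  obtain ⟨p, hp⟩ := ev_ex (J := Fin m × Fin K × Fin W)
    (p := fun p n => G p.1 p.2.1 p.2.2 n ≤ g n) (h.mono fun n u => by
      by_contra c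
      push Not at c
      refine absurd u (not_le.2 (lt_of_le_of_lt (le_of_eq ?_) (sum_lt_sum_of_nonempty
        (f := fun _ => ∑ _t ∈ range K, ∑ _r ∈ range W, g n) (nonempty_range_iff.2 hm.ne')
        fun y hy => sum_lt_sum_of_nonempty (nonempty_range_iff.2 hK.ne') fun t ht =>
          sum_lt_sum_of_nonempty (nonempty_range_iff.2 hW.ne') fun r hr =>
            c (⟨y, mem_range.1 hy⟩, ⟨t, mem_range.1 ht⟩, ⟨r, mem_range.1 hr⟩))))
      simp only [sum_const, card_range, nsmul_eq_mul]; ring)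
  exact ⟨_, p.1.2, _, p.2.1.2, _, p.2.2.2, hp⟩

/-- A good location. -/
theorem select (h : Tan κ 1 ι o k R D) (h0 : 0 ≤ κ) (hι : ι ≤ 3) {N : ℕ} (hN : 1 ≤ N) :
    ∃ y : ℕ → Oc, (Car κ ι y ∧ Of0 κ fun n => (y n).of) ∧ ∀ᶠ n in UF,
      (y n).of.hA ≤ (ι - 1) / 2 * (y n).R * lg + 50 / N * (y n).R ∧
        inf (y n).of ≤ 0 + 50 / N * (y n).R := by
  set K := N ^ 2 with hK
  set W := N ^ 4 with hW
  set m := N * (2 * K + 3 + W) with hm
  set Z := m + 2 * K + 3 + W + 1 with hZ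
  have M : Msh κ ι o k R D (fun n => R n / Z) Z :=
    ⟨h, h.big.frac_div (by omega), fun n => Nat.mul_div_le _ _⟩
  set j : ℕ → ℕ := fun n => R n / Z with hj
  have n0 : (1 : ℝ) ≤ N := by exact_mod_cast hN
  have a := (((sum_hA M hι (m := m) (K := K) (W := W) (by omega)).add
    (((sum_inf M (m := m) (K := K) (W := W) (e := 0) (by omega)).add
      (sum_inf M (m := m) (K := K) (W := W) (e := 1) (by omega))).smul
        (Nat.cast_nonneg N))).frac M.fr) (1 / N) (by positivity)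
  obtain ⟨y, hy, t, ht, r, hr, e⟩ := pick3 (m := m) (K := K) (W := W) (by positivity)
    (by positivity) (by positivity) (G := fun y t r n =>
      ((lc o k j D (K + y - t) (K + y + 2) (K + y + 3 + 0 + r + t) n).hA +
        (lc o k j D (K + y - t) (K + y + 2) (K + y + 3 + 1 + r + t) n).hA) +
      N * (inf (lc o k j D (K + y - t) (K + y + 2) (K + y + 3 + 0 + r + t) n) +
        inf (lc o k j D (K + y - t) (K + y + 2) (K + y + 3 + 1 + r + t) n)))
    (g := fun n => (ι - 1) * (j n * lg) + 44 / N * j n) (a.mono fun n u => by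
      simp only [sum_add_distrib, ← mul_sum] at u ⊢
      refine u.trans ?_
      have j0 := Nat.cast_nonneg (α := ℝ) (j n)
      have l1 : j n * lg ≤ j n := mul_le_of_le_one_right j0 lg_lt_one.le
      have mr : (m : ℝ) = N * (2 * K + 3 + W) := by rw [hm]; push_cast; ring
      have Kr : (K : ℝ) = N ^ 2 := by rw [hK]; push_cast; ring
      have Wr : (W : ℝ) = N ^ 4 := by rw [hW]; push_cast; ring
      have m1 : (1 : ℝ) ≤ m * K * W := by
        exact_mod_cast (show 1 ≤ m * K * W from Nat.succ_le_of_lt (by positivity))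
      have b1 : (K : ℝ) * W * (3 * (2 * K + 3 + W)) = m * K * W * (3 / N) := by
        rw [mr]; field_simp
      have b2 : (N : ℝ) * (2 * (2 * (m * W))) = m * K * W * (4 / N) := by
        rw [Kr]; field_simp; ring
      have b3 : (N : ℝ) * (2 * (3 * (m * K * (2 * (K + 2))))) ≤ m * K * W * (36 / N) := by
        have : (N : ℝ) * (12 * (K + 2)) ≤ W * (36 / N) := by
          rw [Kr, Wr, show (N : ℝ) ^ 4 * (36 / N) = N * (36 * N ^ 2) by field_simp]
          exact mul_le_mul_of_nonneg_left (by nlinarith) (by positivity)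
        nlinarith [mul_le_mul_of_nonneg_left this (show (0 : ℝ) ≤ m * K by positivity)]
      have b4 : (K * W * (3 * (2 * K + 3 + W)) + N * (2 * (2 * (m * W))) +
          N * (2 * (3 * (m * K * (2 * (K + 2)))))) * (j n * lg) ≤ m * K * W * (43 / N) * j n :=
        mul_le_mul (by rw [b1, b2]; linarith [show (43 : ℝ) / N = 3 / N + 4 / N + 36 / N by ring,
          show (m : ℝ) * K * W * (43 / N) = m * K * W * (3 / N) + m * K * W * (4 / N) +
            m * K * W * (36 / N) by ring]) l1 (mul_nonneg j0 lg_pos.le) (by positivity)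
      have b5 : 1 / (N : ℝ) * j n ≤ m * K * W * (1 / N * j n) :=
        le_mul_of_one_le_left (by positivity) m1
      have b6 : (m : ℝ) * K * W * ((ι - 1) * (j n * lg) + 44 / N * j n) =
          m * K * W * ((ι - 1) * (j n * lg)) + m * K * W * (43 / N) * j n +
            m * K * W * (1 / N * j n) := by ring
      rw [b6]
      linarith)
  have key : ∀ b, K + y + 2 < b → b < Z → (∀ᶠ n in UF,
      2 * (lc o k j D (K + y - t) (K + y + 2) b n).hA ≤ (ι - 1) * (j n * lg) + 44 / N * j n ∧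
      N * inf (lc o k j D (K + y - t) (K + y + 2) b n) ≤ (ι - 1) * (j n * lg) + 44 / N * j n) →
      ∃ y : ℕ → Oc, (Car κ ι y ∧ Of0 κ fun n => (y n).of) ∧ ∀ᶠ n in UF,
        (y n).of.hA ≤ (ι - 1) / 2 * (y n).R * lg + 50 / N * (y n).R ∧
          inf (y n).of ≤ 0 + 50 / N * (y n).R := fun b b1 b2 e =>
    ⟨_, ⟨rowOLoc κ ι o k R D j Z (K + y - t) _ b M (by omega) b1 b2,
      rowOLo0 κ ι o k R D j Z (K + y - t) _ b h0 M (by omega) b1 b2⟩, e.mono fun n u => by
      have j0 := Nat.cast_nonneg (α := ℝ) (j n)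
      have l1 : j n * lg ≤ j n := mul_le_of_le_one_right j0 lg_lt_one.le
      have l2 := mul_nonneg j0 lg_pos.le
      have l3 : 44 / (N : ℝ) * j n ≤ 44 * j n :=
        mul_le_mul_of_nonneg_right (div_le_self (by norm_num) n0) j0
      have l4 : 0 ≤ 1 / (N : ℝ) * j n := by positivity
      change _ ≤ (ι - 1) / 2 * j n * lg + 50 / N * j n ∧ _ ≤ 0 + 50 / (N : ℝ) * j n
      refine ⟨by linarith [u.1, show 44 / (N : ℝ) * j n = 44 * (1 / N * j n) by ring,
        show 50 / (N : ℝ) * j n = 50 * (1 / N * j n) by ring], ?_⟩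
      rw [zero_add, div_mul_eq_mul_div, le_div_iff₀' (by positivity)]
      nlinarith [u.2]⟩
  rcases ev_em fun n => (lc o k j D (K + y - t) (K + y + 2) (K + y + 3 + 0 + r + t) n).hA ≤
    (lc o k j D (K + y - t) (K + y + 2) (K + y + 3 + 1 + r + t) n).hA with c | c
  · refine key (K + y + 3 + 0 + r + t) (by omega) (by omega) ((e.and c).mono fun n u => ?_)
    have := fun b => mul_nonneg (Nat.cast_nonneg (α := ℝ) N)
      (inf_nonneg (lc o k j D (K + y - t) (K + y + 2) b n))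
    have := fun b => hA_nonneg (lc o k j D (K + y - t) (K + y + 2) b n)
    constructor <;> grind
  · refine key (K + y + 3 + 1 + r + t) (by omega) (by omega) ((e.and c).mono fun n u => ?_)
    have := fun b => mul_nonneg (Nat.cast_nonneg (α := ℝ) N)
      (inf_nonneg (lc o k j D (K + y - t) (K + y + 2) b n))
    have := fun b => hA_nonneg (lc o k j D (K + y - t) (K + y + 2) b n)
    constructor <;> grind

/-- The class of the carriers. -/
def Kl (κ ι : ℝ) (y : ℕ → Oc) : Prop := Car κ ι y ∧ Off κ fun n => (y n).of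

theorem cf0 : R4.CF (S := fun _ => Oc) fun y => Car κ ι y ∧ Of0 κ fun n => (y n).of :=
  (rowOCar κ ι).1.and ((rowOClo κ).1.comp fun _ (y : Oc) => y.of)

theorem cfK : R4.CF (S := fun _ => Oc) (Kl κ ι) :=
  (cf0.and (R4.cf_sm (fun _ y => y.R) fun _ y => inf y.of)).congr fun _ =>
    ⟨fun h => ⟨⟨h.1, h.2.toOf0⟩, h.2.inf⟩, fun h => ⟨h.1.1, h.1.2, h.2⟩⟩

theorem start (h : Tan κ 1 ι o k R D) (h0 : 0 ≤ κ) (hι : ι ≤ 3) : ∃ y, Kl κ ι y ∧
    Le (fun n => (y n).R) (fun n => (y n).of.hA) fun n => (ι - 1) / 2 * (y n).R * lg := by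
  choose y h1 h2 using fun i : ℕ => select h h0 hι (N := 50 * (i + 1)) (by omega)
  obtain ⟨c, -, e⟩ := R4.cf_diag (S := fun _ => Oc) (K := fun i y =>
    (Car κ ι y ∧ Of0 κ fun n => (y n).of) ∧ ∀ᶠ n in UF,
      (y n).of.hA ≤ (ι - 1) / 2 * (y n).R * lg + 1 / (i + 1 : ℝ) * (y n).R ∧
        inf (y n).of ≤ 0 + 1 / (i + 1 : ℝ) * (y n).R)
    (fun i => cf0.and (R4.cf_ev fun _ (y : Oc) =>
      y.of.hA ≤ (ι - 1) / 2 * y.R * lg + 1 / (i + 1 : ℝ) * y.R ∧
        inf y.of ≤ 0 + 1 / (i + 1 : ℝ) * y.R)) y fun m i hi => ⟨h1 m, (h2 m).mono fun n u => by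
      have a : 50 / ((50 * (m + 1) : ℕ) : ℝ) * (y m n).R ≤ 1 / (i + 1 : ℝ) * (y m n).R := by
        refine mul_le_mul_of_nonneg_right (le_trans (le_of_eq ?_)
          (Nat.one_div_le_one_div hi)) (Nat.cast_nonneg _)
        push_cast; field_simp
      exact ⟨u.1.trans (add_le_add le_rfl a), u.2.trans (add_le_add le_rfl a)⟩⟩
  have le : ∀ {M : ℕ → ℕ} {f g : ℕ → ℝ},
      (∀ i : ℕ, ∀ᶠ n in UF, f n ≤ g n + 1 / (i + 1 : ℝ) * M n) → Le M f g := fun h ε hε => by
    obtain ⟨m, hm⟩ := exists_nat_one_div_lt hε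
    exact (h m).mono fun n a => a.trans (add_le_add le_rfl
      (mul_le_mul_of_nonneg_right hm.le (Nat.cast_nonneg _)))
  exact ⟨_, ⟨(e 0).1.1, (e 0).1.2, le fun i => (e i).2.mono fun _ u => u.2⟩,
    le fun i => (e i).2.mono fun _ u => u.1⟩

theorem hA_le (x : Of) : x.hA ≤ x.R * lg := by
  have := ch_det (det_ref (P := x.P) (x := x.A) (G := x.Th) (j := x.a) (i := x.R)
    fun _ _ _ _ e => congrArg (·.2.1) e)
  rwa [log_two_pow] at this

theorem mini (h : ∃ y, Kl κ ι y) : ∃ (u : ℝ) (y : ℕ → Oc), Kl κ ι y ∧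
    Le (fun n => (y n).R) (fun n => (y n).of.hA) (fun n => u * (y n).R * lg) ∧ ∀ w, Kl κ ι w →
      Le (fun n => (w n).R) (fun n => u * (w n).R * lg) fun n => (w n).of.hA := by
  obtain ⟨p, hp⟩ := cfK (κ := κ) (ι := ι)
  obtain ⟨s, ⟨y, a, b⟩, c⟩ := sup (X := fun _ => Oc) p (fun _ y => -y.of.hA / y.R) 1
    (h.imp fun y => (hp y).1) fun y _ => Eventually.of_forall fun n => by
      rw [abs_div, abs_neg, abs_of_nonneg (hA_nonneg _), Nat.abs_cast]
      exact div_le_one_of_le₀ ((hA_le _).trans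
        (mul_le_of_le_one_right (Nat.cast_nonneg _) lg_lt_one.le)) (Nat.cast_nonneg _)
  have e : ∀ w, Kl κ ι w → ∀ᶠ n in UF, s * (w n).R / (w n).R = s := fun w u =>
    (u.1.tan.big.ev 1).mono fun n v => mul_div_cancel_right₀ _ (by linarith)
  have q : ∀ r : ℝ, -s / lg * r * lg = -(s * r) := fun r => by have := lg_pos; field_simp
  have a' := (hp y).2 a
  refine ⟨-s / lg, y, a', ((le1_div a'.1.tan.big).1
    ((Le1.of_ev ((e y a').mono fun _ u => u.le)).trans b)).of_sub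
      (Eventually.of_forall fun n => by rw [q]; linarith), fun w u => ((le1_div u.1.tan.big).1
    ((c w ((hp w).1 u)).trans (Le1.of_ev ((e w u).mono fun _ v => v.ge)))).of_sub
      (Eventually.of_forall fun n => by rw [q]; linarith)⟩

theorem Kl.zm {y : ℕ → Oc} (h : Kl κ ι y) {W : ℕ → Type} {Q : ∀ n, FP (W n)}
    {ρ : ∀ n, W n → (y n).o.Ω} {s j : ℕ → ℕ} (d : DnS Q ρ fun n => (y n).o.P)
    (e : ∀ n, s n + j n ≤ (y n).R) (f : Frac j fun n => (y n).R) :
    Kl κ ι fun n => (y n).zm (Q n) (ρ n) (s n) (j n) :=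
  ⟨(rowOCar κ ι).2 y h.1 W Q ρ s j d e f, (rowOClo κ).2 _ h.2 W Q ρ s j d e f⟩

/-- Normal digits in a window on a refinement. -/
noncomputable def wn (x : Of) {W : Type} (Q : FP W) (ρ : W → x.Ω) (a b : ℕ) : ℝ :=
  ch Q (fun v => x.N b (ρ v)) fun v => (x.N a (ρ v), x.Th (ρ v))

theorem wn_add (x : Of) {W : Type} (Q : FP W) (ρ : W → x.Ω) {a b c : ℕ} (h : a ≤ b)
    (h' : b ≤ c) : wn x Q ρ a c = wn x Q ρ a b + wn x Q ρ b c := by
  have f : ∀ {a b : ℕ}, a ≤ b → Fn Q (fun v => x.N a (ρ v)) fun v => x.N b (ρ v) := fun h =>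
    fn_fl1 (fun v => x.A (ρ v)) (Nat.add_le_add_left h _)
  have e := ch_chain (P := Q) (fun v => x.N b (ρ v)) (fun v => x.N c (ρ v))
    fun v => (x.N a (ρ v), x.Th (ρ v))
  rw [ch_congr (F' := fun v => x.N c (ρ v)) (((f h').left _).pair (Fn.fst _ _))
    ((Fn.snd _ _).left _) (Fn.rfl _) (Fn.rfl _)] at e
  refine e.trans (congrArg _ (le_antisymm ?_ ?_))
  · exact ch_anti ((Fn.fst _ _).pair ((Fn.snd _ _).right _))
  · exact ch_anti ((Fn.fst _ _).pair (((f h).left _).pair (Fn.snd _ _)))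

theorem zm_le (x : Of) {W : Type} (Q : FP W) (ρ : W → x.Ω) {a b : ℕ} (h : a ≤ b) :
    (x.zm Q ρ a (b - a)).hA ≤ wn x Q ρ a b := by
  refine ch_le (fun u _ v _ e => ?_) fun u _ v _ e => ?_
  · have := congrArg Prod.fst e
    simp only [Of.N] at this ⊢
    rwa [add_assoc, Nat.add_sub_cancel' h]
  · simp only [Of.Th, Of.N, Of.V, Prod.mk.injEq, add_zero] at e ⊢
    exact ⟨e.2.1, e.1, fl1_eq_of_le (Nat.le_add_right _ _) e.2.1,
      fl1_eq_of_le (Nat.le_add_right _ _) e.2.2.1, fl1_eq_of_le (Nat.le_add_right _ _) e.2.2.2⟩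

theorem ng1 {u : ℝ} {y : ℕ → Oc} (h : Kl κ ι y)
    (up : Le (fun n => (y n).R) (fun n => (y n).of.hA) fun n => u * (y n).R * lg)
    (lo : ∀ w, Kl κ ι w →
      Le (fun n => (w n).R) (fun n => u * (w n).R * lg) fun n => (w n).of.hA) :
    R4.NCx.NG1 (fP fun n => (y n).of) (fun n => (y n).of.Th)
      (fun n ω => 2 ^ (y n).of.a * (y n).of.A ω) (fR fun n => (y n).of) (1 - u) := by
  intro W Q ρ a b E l w hE
  have low : ∀ (E : ∀ n, W n → Prop), Pos Q E → ∀ a b : ℕ → ℕ, (∀ n, a n ≤ b n ∧ b n ≤ (y n).R) →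
      Le (fun n => (y n).R) (fun n => u * (b n - a n) * lg)
        fun n => wn (y n).of (cE (Q n) (E n)) (ρ n) (a n) (b n) := fun E hE a b w => by
    have e : ∀ n, b n - a n ≤ (y n).R := fun n => (Nat.sub_le _ _).trans (w n).2
    refine Le.win e (|u| * lg) (fun f => ((lo _ (h.zm (dn_ev (dn_law l) hE) (s := a)
      (fun n => by have := w n; omega) f)).up e).of_sub (Eventually.of_forall fun n => ?_))
      (Le.of_le fun n => ?_)
    · have := zm_le (y n).of (cE (Q n) (E n)) (ρ n) (w n).1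
      rw [Nat.cast_sub (w n).1]
      exact sub_le_sub_left this _
    · rw [← Nat.cast_sub (w n).1]
      have a1 : 0 ≤ wn (y n).of (cE (Q n) (E n)) (ρ n) (a n) (b n) := ch_nonneg _ _
      nlinarith [mul_le_mul_of_nonneg_right (le_abs_self u)
        (mul_nonneg (Nat.cast_nonneg (α := ℝ) (b n - a n)) lg_pos.le)]
  have tot : Le (fun n => (y n).R) (fun n => wn (y n).of (cE (Q n) (E n)) (ρ n) 0 (y n).R)
      fun n => u * (y n).R * lg := by
    obtain ⟨c, c0, c1⟩ := hE
    refine KSA.event _ (fun n => pb (Q n) (E n)) _ _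
      (fun n => wn (y n).of (cE (Q n) fun v => ¬E n v) (ρ n) 0 (y n).R) _ (|u| * lg) c c0
      (c1.mono fun n v => ⟨v, pb_le_one _ _, ch_nonneg _ _, ?_, ?_⟩) up fun v => ?_
    · rw [abs_mul, abs_mul, Nat.abs_cast, abs_of_pos lg_pos]; exact le_of_eq (by ring)
    · refine (rowKE.ge (Q n) (E n) _ _).trans ((ch_anti (Fn.snd _ _)).trans_eq ?_)
      exact (l n).ch_id ((y n).of.N (y n).R) (y n).of.Th
    · simpa using low (fun n v => ¬E n v) (by simpa only [Pos, pb_not] using v) (fun _ => 0) _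
        fun n => ⟨Nat.zero_le _, le_rfl⟩
  refine Le.of3 tot (low E hE (fun _ => 0) a fun n => ⟨Nat.zero_le _, (w n).1.trans (w n).2⟩)
    (low E hE b _ fun n => ⟨(w n).2, le_rfl⟩) (Eventually.of_forall fun n => le_of_eq ?_)
  rw [wn_add _ _ _ (Nat.zero_le (a n)) ((w n).1.trans (w n).2), wn_add _ _ _ (w n).1 (w n).2]
  simp only [fl1_pow]
  change wn (y n).of (cE (Q n) (E n)) (ρ n) (a n) (b n) - _ = _
  push_cast; ring

end OG

theorem offGlue (core : SOCore) : SOff := by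
  intro κ ι o k R D h0 h1 hι h
  obtain ⟨y, a, b⟩ := OG.start h h0.le (by linarith)
  obtain ⟨u, w, c, d, e⟩ := OG.mini ⟨y, a⟩
  have u1 : u * lg ≤ (ι - 1) / 2 * lg := Le.num a.1.tan.big (((e y a).trans b).of_sub
    (Eventually.of_forall fun n => le_of_eq (by ring)))
  have u0 : 0 ≤ u * lg := Le.num c.1.tan.big (d.of_sub (Eventually.of_forall fun n => by
    linarith [OG.hA_nonneg (w n).of]))
  have u2 := le_of_mul_le_mul_right u1 lg_pos
  obtain ⟨s, s0, s1⟩ := core u κ (nonneg_of_mul_nonneg_left u0 lg_pos) (by linarith) (by linarith)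
  obtain ⟨t, t0, t1⟩ := rowOCom κ ι s w s0 c.1 (s1 _ c.2 (OG.ng1 c d e))
  exact ⟨t, _, _, _, _, t0, c.1.tan, t1⟩

end Pool.Agent.MP_5168f5_an.MX
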