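import Pool.Agent.MP_5168f5_an.MX.OffB
import Pool.Agent.MP_5168f5_an.MX.OffCar
import Pool.Agent.MP_5168f5_an.MX.OffClo
import Pool.Agent.MP_5168f5_an.MX.OffCom
import Pool.Agent.MP_5168f5_an.MX.OffLo0
import Pool.Agent.MP_5168f5_an.MX.OffInf
import Pool.Agent.MP_5168f5_an.MX.OffPath

/-! Speed one: choice of the location and the sum-product step. -/

namespace Pool.Agent.MP_5168f5_an.MX

open H19 H17S H17F R4.K31 Filter Finset

namespace OffM

theorem sum3 (N K W : ℕ) (h g₁ g₂ : ℕ → ℕ → ℕ → ℝ) (l : ℝ) :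
    ∑ t ∈ range N, ∑ i ∈ range K, ∑ e ∈ range W, (h t i e + l * (2 * g₁ t i e + 3 * g₂ t i e) +
      (h t i (e + 1) + l * (2 * g₁ t i (e + 1) + 3 * g₂ t i (e + 1)))) =
    ∑ i ∈ range K, ∑ e ∈ range W, ∑ t ∈ range N, (h t i e + h t i (e + 1)) +
      2 * l * ∑ t ∈ range N, ∑ e ∈ range W,
        (∑ i ∈ range K, g₁ t i e + ∑ i ∈ range K, g₁ t i (e + 1)) +
      3 * l * ∑ t ∈ range N, ∑ i ∈ range K,
        (∑ e ∈ range W, g₂ t i (e + 0) + ∑ e ∈ range W, g₂ t i (e + 1)) := by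
  have e1 : ∑ i ∈ range K, ∑ e ∈ range W, ∑ t ∈ range N, (h t i e + h t i (e + 1)) =
      ∑ t ∈ range N, ∑ i ∈ range K, ∑ e ∈ range W, (h t i e + h t i (e + 1)) := by
    rw [sum_comm (s := range N)]
    exact sum_congr rfl fun _ _ => sum_comm
  rw [e1, mul_sum, mul_sum, ← sum_add_distrib, ← sum_add_distrib]
  refine sum_congr rfl fun t _ => ?_
  simp only [← sum_add_distrib]
  rw [sum_comm (s := range W), mul_sum, mul_sum, ← sum_add_distrib, ← sum_add_distrib]
  refine sum_congr rfl fun i _ => ?_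
  rw [mul_sum, mul_sum, ← sum_add_distrib, ← sum_add_distrib]
  exact sum_congr rfl fun e _ => by rw [add_zero]; ring

/-- A location below the average. -/
theorem sel {j : ℕ → ℕ} (hj : Big j) (N K W : ℕ) (h g₁ g₂ : ℕ → ℕ → ℕ → ℕ → ℝ) {l A B u : ℝ}
    (hl : 0 ≤ l) (hP : ∀ i < K, ∀ e < W, Le j (fun n => ∑ t ∈ range N,
      (h t i e n + h t i (e + 1) n)) fun n => A * j n * lg)
    (h1 : ∀ t < N, ∀ e ≤ W, Le j (fun n => ∑ i ∈ range K, g₁ t i e n) fun n => j n * lg)
    (h2 : ∀ t < N, ∀ i < K, ∀ c ≤ 1,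
      Le j (fun n => ∑ e ∈ range W, g₂ t i (e + c) n) fun n => B * j n * lg)
    (gap : K * W * A + l * (4 * N * W + 6 * N * K * B) < 2 * N * K * W * u) :
    ∃ t < N, ∃ i < K, ∃ e ≤ W, Le j (fun n => h t i e n + l * (2 * g₁ t i e n + 3 * g₂ t i e n))
      fun n => u * j n * lg := by
  by_contra c
  push Not at c
  have a0 := fun t a i b e d => (Le.total j _ _).resolve_left (c t a i b e d)
  have a1 := Le.sum (range N) fun t a => Le.sum (range K) fun i b => Le.sum (range W) fun e d =>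
    (a0 t (mem_range.1 a) i (mem_range.1 b) e (mem_range.1 d).le).add
      (a0 t (mem_range.1 a) i (mem_range.1 b) (e + 1) (mem_range.1 d))
  have a2 := Le.sum (range K) fun i b => Le.sum (range W) fun e d =>
    hP i (mem_range.1 b) e (mem_range.1 d)
  have a3 := (Le.sum (range N) fun t a => Le.sum (range W) fun e d =>
    (h1 t (mem_range.1 a) e (mem_range.1 d).le).add
      (h1 t (mem_range.1 a) (e + 1) (mem_range.1 d))).smul (c := 2 * l) (by positivity)
  have a4 := (Le.sum (range N) fun t a => Le.sum (range K) fun i b =>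
    (h2 t (mem_range.1 a) i (mem_range.1 b) 0 zero_le_one).add
      (h2 t (mem_range.1 a) i (mem_range.1 b) 1 le_rfl)).smul (c := 3 * l) (by positivity)
  refine absurd (le_of_mul_le_mul_right (Le.num hj (Le.of4 a1 a2 a3 a4
    (.of_forall fun n => le_of_eq ?_))) lg_pos) (not_le.2 gap)
  rw [sum3 N K W (fun t i e => h t i e n) (fun t i e => g₁ t i e n) fun t i e => g₂ t i e n]
  simp only [sum_const, card_range, nsmul_eq_mul]
  ring

theorem nums {ι u l : ℝ} (hl : 0 ≤ l) (hu : ι - 1 < 2 * u) : ∃ N K W : ℕ,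
    (K : ℝ) * W * ((ι - 1) * N + |ι| * (2 * K + 3 + W)) +
      l * (4 * N * W + 6 * N * K * (2 * (K + 1))) < 2 * N * K * W * u := by
  obtain ⟨η, h0, he⟩ : ∃ η : ℝ, 0 < η ∧ 2 * u = ι - 1 + 3 * η := ⟨(2 * u - (ι - 1)) / 3,
    by linarith, by ring⟩
  obtain ⟨K, hK⟩ := exists_nat_gt (4 * l / η)
  obtain ⟨W, hW⟩ := exists_nat_gt (12 * l * (K + 1) / η)
  obtain ⟨N, hN⟩ := exists_nat_gt (|ι| * (2 * K + 3 + W) / η)
  have k0 : (0 : ℝ) < K := lt_of_le_of_lt (by positivity) hK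
  have w0 : (0 : ℝ) < W := lt_of_le_of_lt (by positivity) hW
  have n0 : (0 : ℝ) < N := lt_of_le_of_lt (by positivity) hN
  rw [div_lt_iff₀ h0] at hK hW hN
  refine ⟨N, K, W, ?_⟩
  have a1 := mul_lt_mul_of_pos_left hK (mul_pos n0 w0)
  have a2 := mul_lt_mul_of_pos_left hW (mul_pos n0 k0)
  have a3 := mul_lt_mul_of_pos_left hN (mul_pos k0 w0)
  rw [show (2 : ℝ) * N * K * W * u = N * K * W * (2 * u) by ring, he]
  linarith

variable {κ ι u : ℝ} {o : ℕ → Ob} {k R D : ℕ → ℕ}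

/-- A location with small informations and small normal entropy. -/
theorem loc (k0 : 0 ≤ κ) (u1 : u ≤ 1) (hu : ι - 1 < 2 * u) (h : Tan κ 1 ι o k R D) {ε : ℝ}
    (hε : 0 < ε) : ∃ y : ℕ → Oc, (Car κ ι y ∧ Of0 κ (fun n => (y n).of) ∧
      Le (fun n => (y n).R) (fun n => (y n).of.hA) fun n => u * (y n).R * lg) ∧
      Le (fun n => (y n).R) (fun n => (y n).of.i1 + (y n).of.i2 + (y n).of.i3)
        fun n => ε * (y n).R := by
  obtain ⟨N, K, W, gap⟩ := nums (l := ε⁻¹) (by positivity) hu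
  set Z := 2 * K + 4 + W + N with hZ
  have fj := h.big.frac_div (K := Z) (by omega)
  set j : ℕ → ℕ := fun n => R n / Z with hj
  have m : Msh κ ι o k R D j Z := ⟨h, fj, fun n => Nat.mul_div_le _ _⟩
  obtain ⟨i1, i2, i3⟩ := rowOInf κ ι o k R D j Z m
  refine (sel (h.big.frac fj) N K W
    (fun t i e n => (lc o k j D (K + t - i) (K + 2 + t) (K + 3 + t + i + e) n).hA)
    (fun t i e n => (lc o k j D (K + t - i) (K + 2 + t) (K + 3 + t + i + e) n).i1)
    (fun t i e n => (lc o k j D (K + t - i) (K + 2 + t) (K + 3 + t + i + e) n).i2)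
    (by positivity) (fun i hi e he => ?_) (fun t _ e _ => ?_) (fun t ht i hi c _ => ?_) gap).elim
    fun t ⟨ht, i, hi, e, he, s⟩ => ?_
  rotate_left 3
  · have b1 : K + t - i + 2 ≤ K + 2 + t := by omega
    have b2 : K + 2 + t < K + 3 + t + i + e := by omega
    have b3 : K + 3 + t + i + e < Z := by omega
    have n1 : ∀ x : Of, 0 ≤ x.i1 := fun x => mi_nonneg _ _ _
    have n2 : ∀ x : Of, 0 ≤ x.i2 := fun x => mi_nonneg _ _ _
    refine ⟨_, ⟨rowOLoc κ ι o k R D j Z _ _ _ m b1 b2 b3, rowOLo0 κ ι o k R D j Z _ _ _ k0 m b1 b2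
      b3, s.of_sub (.of_forall fun n => sub_le_sub_right (le_add_of_nonneg_right
        (mul_nonneg (by positivity) (add_nonneg (mul_nonneg zero_le_two (n1 _))
          (mul_nonneg zero_le_three (n2 _))))) _)⟩,
      Le.of2 (s.smul hε.le) ((i3 _ _ _ b1 b2 b3).frac fj) (.of_forall fun n => ?_)⟩
    have c1 := mul_nonneg hε.le
      (OffB.hA_nonneg (lc o k j D (K + t - i) (K + 2 + t) (K + 3 + t + i + e) n))
    have c2 : u * j n * lg ≤ j n := by
      nlinarith [lg_pos, lg_lt_one, mul_nonneg (Nat.cast_nonneg (α := ℝ) (j n)) lg_pos.le,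
        Nat.cast_nonneg (α := ℝ) (j n)]
    have c3 := mul_le_mul_of_nonneg_left c2 hε.le
    rw [mul_add ε, mul_inv_cancel_left₀ hε.ne']
    linarith
  · refine ((rowOPath κ ι o k R D j Z (K - i) (K + 2) (K + 3 + i + e) N m (by omega) (by omega)
      (by omega)).frac fj).of_sub (.of_forall fun n => ?_)
    have c1 : ∑ t ∈ range N, ((lc o k j D (K + t - i) (K + 2 + t) (K + 3 + t + i + e) n).hA +
        (lc o k j D (K + t - i) (K + 2 + t) (K + 3 + t + i + (e + 1)) n).hA) =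
        ∑ t ∈ range N, ((lc o k j D (K - i + t) (K + 2 + t) (K + 3 + i + e + t) n).hA +
          (lc o k j D (K - i + t) (K + 2 + t) (K + 3 + i + e + t + 1) n).hA) :=
      sum_congr rfl fun t _ => by
        rw [show K + t - i = K - i + t by omega,
          show K + 3 + t + i + e = K + 3 + i + e + t by omega,
          show K + 3 + t + i + (e + 1) = K + 3 + i + e + t + 1 by omega]
    have c2 : ((K + 3 + i + e : ℕ) : ℝ) ≤ 2 * K + 3 + W := by
      exact_mod_cast (show K + 3 + i + e ≤ 2 * K + 3 + W by omega)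
    have c3 := mul_le_mul_of_nonneg_right (mul_le_mul (le_abs_self ι) c2 (Nat.cast_nonneg _)
      (abs_nonneg _)) (mul_nonneg (Nat.cast_nonneg (α := ℝ) (j n)) lg_pos.le)
    rw [c1]
    linarith
  · refine ((i1 (K + t) (K + 2 + t) (K + 3 + t + e) K (by omega)).frac fj).of_sub
      (.of_forall fun n => sub_le_sub_right (le_of_eq (sum_congr rfl fun i _ => ?_)) _)
    rw [show K + 3 + t + i + e = K + 3 + t + e + i by omega]
  · refine ((i2 (K + t - i) (K + 2 + t) (K + 3 + t + i + c) W (by omega) (by omega)).frac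
      fj).of_sub (.of_forall fun n => sub_le_sub (le_of_eq (sum_congr rfl fun e _ => ?_)) ?_)
    · rw [show K + 3 + t + i + (e + c) = K + 3 + t + i + c + e by omega]
    · have c1 : ((K + 2 + t : ℕ) : ℝ) ≤ (K + t - i : ℕ) + (K + 1) := by
        exact_mod_cast (show K + 2 + t ≤ K + t - i + (K + 1) by omega)
      have := lg_pos
      gcongr
      linarith

end OffM

theorem rowOff : SOff := by
  intro κ ι o k R D k0 k1 hι h
  obtain ⟨u, u1, u2⟩ : ∃ u : ℝ, u < κ ∧ ι - 1 < 2 * u := ⟨(κ + (ι - 1) / 2) / 2, by linarith,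
    by linarith⟩
  choose y h1 h2 using fun m : ℕ => OffM.loc k0.le (by linarith) u2 h
    (ε := 1 / (m + 1 : ℝ)) (by positivity)
  obtain ⟨m, -, a⟩ := R4.cf_diag (S := fun _ => Oc) (K := fun i y => (Car κ ι y ∧
      Of0 κ (fun n => (y n).of) ∧ Le (fun n => (y n).R) (fun n => (y n).of.hA)
        fun n => u * (y n).R * lg) ∧ Le (fun n => (y n).R)
      (fun n => (y n).of.i1 + (y n).of.i2 + (y n).of.i3) fun n => 1 / (i + 1 : ℝ) * (y n).R)
    (fun i => ((rowOCar κ ι).1.and (((rowOClo κ).1.comp fun _ => Oc.of).and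
      (R4.cf_le (fun _ (y : Oc) => y.R) (fun _ y => y.of.hA) fun _ y => u * y.R * lg))).and
      (R4.cf_le (fun _ (y : Oc) => y.R) (fun _ y => y.of.i1 + y.of.i2 + y.of.i3)
        fun _ y => 1 / (i + 1 : ℝ) * y.R)) y fun m i e =>
      ⟨h1 m, (h2 m).trans (Le.of_le fun n => by gcongr)⟩
  obtain ⟨c, z, hc, b1, b2⟩ := OffB.off_min rowOClo rowOCar k1 u1 (a 0).1.1
    ⟨(a 0).1.2.1, Le.eps fun ε hε => (DiagA.small hε).exists.elim fun i e =>
      (a i).2.trans (Le.of_le fun n => by rw [zero_add]; gcongr)⟩ (a 0).1.2.2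
  obtain ⟨c', hc', b3⟩ := rowOCom κ ι c z hc b1 b2
  exact ⟨c', _, _, _, _, hc', b1.tan, b3⟩

end Pool.Agent.MP_5168f5_an.MX
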