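import Pool.Agent.MP_5168f5_an.MX.PSpec

/-! The case of few lateral directions: three abstract entropy facts. -/

namespace Pool.Agent.MP_5168f5_an.MX

open H19 H17S H17F Filter

namespace PAbsA

variable {Ω α β T : Type} {P : FP Ω}

theorem fn_snd {X : Ω → α} {N : Ω → β} (h : Fn P N X) :
    Fn (glue P P X X) (fun v => N v.2) fun v => N v.1 := fun a ha b hb e => by
  have h1 := ((rowKG rowKE).mem P P X X a (Law.rfl X)).1 ha
  have h2 := ((rowKG rowKE).mem P P X X b (Law.rfl X)).1 hb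
  exact (h _ h1.2.1 _ h1.1 h1.2.2).trans (e.trans (h _ h2.2.1 _ h2.1 h2.2.2).symm)

theorem hh_lz (x : Pl Ω T) (p : Pm) : hh P (fun ω => (x.l ω, x.Bx p ω)) = hh P (x.lz p.i p.f) :=
  hh_congr ((Fn.fst x.l (x.zg p.i p.f)).pair (bx_lz le_rfl le_rfl))
    ((Fn.fst _ _).pair (bx_zg.right _))

end PAbsA

open PAbsA

theorem rowCor0 : SCor0 := fun P N U X hU hX => by
  have kg := rowKG rowKE
  have l1 := kg.fst P P X X
  have l2 := kg.snd P P X X (Law.rfl X)
  have a1 := ch_subadd (P := glue P P X X) (fun v => U v.1) (fun v => U v.2) fun v => N v.1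
  have a2 := ch_anti (F := fun v => U v.2) (fn_snd hX)
  have a3 := ch_chain (P := glue P P X X) (fun v => U v.1) (fun v => U v.2)
    fun v => (X v.1, N v.1)
  have a4 := kg.mk1 P P X X U (fun ω => (U ω, X ω, N ω)) (Law.rfl X) ((Fn.fst X N).right U)
  have a5 := ch_symm (P := glue P P X X) (fun v => X v.1) (fun v => (U v.1, U v.2)) fun v => N v.1
  have a6 := ch_anti (P := glue P P X X) (F := fun v => X v.1)
    (Fn.fst (fun v => (U v.1, U v.2)) fun v => N v.1)
  have a7 := ch_symm (P := P) U X N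
  have a8 := ch_anti (P := P) (F := U) (Fn.fst X N)
  have a9 := ch_anti (F := X) ((Fn.rfl U).pair hU)
  have b1 := l1.ch_id U N
  have b2 := l2.ch_id U N
  have b3 := l1.ch_id X N
  have b4 := l1.ch_id U fun ω => (X ω, N ω)
  linarith

theorem rowMJ : SMJ := fun P S Y W h => by
  have kg := rowKG rowKE
  have a1 := ch_symm (P := glue P P Y Y) (fun v => S v.2) (fun v => Y v.1) fun v => (S v.1, W v.1)
  have a2 := kg.mk1 P P Y Y S (fun ω => (Y ω, S ω, W ω)) (Law.rfl Y) (Fn.fst _ _)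
  have a3 := (kg.fst P P Y Y).ch_id Y fun ω => (S ω, W ω)
  have a4 := (kg.snd P P Y Y (Law.rfl Y)).ch_id S W
  have a5 := ch_anti (F := fun v => S v.2) ((fn_snd h).right fun v => S v.1)
  have a6 := ch_anti (P := glue P P Y Y) (F := fun v => Y v.1) (G := fun v => (S v.1, S v.2))
    (G' := fun v => (S v.2, S v.1, W v.1)) (((Fn.fst _ _).right _).pair (Fn.fst _ _))
  linarith

theorem rowLs : SLs := fun P x s m D => by
  have a1 : _ = hh P (x.lz (s.c0 + s.R) (s.f0 + s.X)) := hh_lz x s.S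
  have a2 : _ = hh P (x.lz s.c0 s.f0) := hh_lz x (s.Z m D)
  have a3 : hh P (fun ω => (x.Bx (s.Z m D) ω, x.Bx s.S ω)) =
      hh P fun ω => (x.Bx s.S ω, x.Bx (s.Z m D) ω) :=
    hh_congr ((Fn.snd _ _).pair (Fn.fst _ _)) ((Fn.snd _ _).pair (Fn.fst _ _))
  have a4 : hh P (fun ω => (x.zg (s.c0 + s.R) (s.f0 + s.X) ω, x.lz s.c0 s.f0 ω)) =
      hh P (x.lz (s.c0 + s.R) (s.f0 + s.X)) :=
    hh_congr ((Fn.snd x.l _).pair (fn_lz (Nat.le_add_right _ _) (Nat.le_add_right _ _)))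
      (((Fn.fst x.l (x.zg s.c0 s.f0)).right _).pair (Fn.fst _ _))
  unfold ch
  linarith

end Pool.Agent.MP_5168f5_an.MX
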