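import Pool.Agent.MP_5168f5_an.MX.PSpec

/-! Two upper labels on one tube determine the tube. -/

namespace Pool.Agent.MP_5168f5_an.MX

open H19 H17S H17F Filter Finset

namespace PCntA

variable {Ω T β : Type} {P : FP Ω} {G : Ω → β} {X r r' : Ω → ℝ} {j k : ℕ} {K : ℝ}

theorem am {a b K : ℝ} {i j : ℕ} (ha : |a| ≤ 1 / 2 ^ i) (hb : |b| ≤ K / 2 ^ j) :
    |a * b| ≤ K / 2 ^ (i + j) := by
  rw [abs_mul, pow_add, ← one_mul K, ← div_mul_div_comm]
  exact mul_le_mul ha hb (abs_nonneg _) (by positivity)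

theorem fe {a b : ℝ} {j : ℕ} (h : fl1 j a = fl1 j b) : |b - a| ≤ 1 / 2 ^ j := by
  rw [one_div]; exact (abs_sub_lt_of_fl1_eq h.symm).le

theorem fn_sub (h : Fn P r G) (h' : Fn P r' G) : Fn P (fun ω => r ω - r' ω) G :=
  fun a ha b hb e => congrArg₂ (· - ·) (h a ha b hb e) (h' a ha b hb e)

theorem div2 (h : Cls P G (fun ω => r ω * X ω) (k + j) K) (hr : Fn P r G)
    (hk : ∀ ω ∈ P.S, 1 / 2 ^ k ≤ 2 * |r ω|) : Cls P G X j (K + K) :=
  Cls.div (r := fun ω => 2 * r ω) ((h.add h).congr fun ω _ => by ring)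
    ((Fn.comp (2 * ·) r).trans hr) fun ω hω => by rw [abs_mul, abs_two]; exact hk ω hω

theorem sep {a b : ℝ} {j F : ℕ} (e : j < F) (h : 1 / 2 ^ j < |a - b|) :
    1 / 2 ^ j ≤ 2 * |rn F a - rn F b| := by
  have a1 := rn_le F a
  have a2 := rn_le F b
  have a3 := lt_rn F a
  have a4 := lt_rn F b
  have a5 : (1 : ℝ) / 2 ^ F ≤ 1 / 2 ^ (j + 1) := dv_anti zero_le_one le_rfl e
  have a6 : (1 : ℝ) / 2 ^ j = 2 * (1 / 2 ^ (j + 1)) := by rw [pow_succ]; field_simp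
  have a7 := le_abs_self (rn F a - rn F b)
  have a8 := neg_abs_le (rn F a - rn F b)
  rcases lt_abs.1 h with h | h <;> linarith

theorem rn0 {i j : ℕ} (e : i ≤ j) (a : ℝ) : |rn j a - rn i a| ≤ 1 / 2 ^ i := by
  simpa only [min_eq_right e] using rn_sub j i a

variable {x y : Pl Ω T} {s : St} {u m Q D : ℕ}

theorem fz (h : Kn P x G s.S 1) {i : ℕ} (e : i ≤ s.c0 + s.R) :
    Fn P (fun ω => rn i (x.z ω)) G :=
  fn_rn ((fn_fl1 x.z e).trans fun a ha b hb q => congrArg Prod.fst (h.zg a ha b hb q))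

theorem fg (h : Kn P x G s.S 1) : Fn P (fun ω => rn (s.f0 + s.X) (x.g ω)) G :=
  fn_rn fun a ha b hb q => congrArg Prod.snd (h.zg a ha b hb q)

/-- Two labels with different slopes locate the line laterally. -/
theorem lat (hu : u < s.X) (hm : m + u ≤ Q) (hQ : Q ≤ D) (hR : Q ≤ s.R + s.X)
    (hY : ∀ ω ∈ P.S, x.Bx (s.Z D D) ω = y.Bx (s.Z D D) ω)
    (hE : ∀ ω ∈ P.S, 1 / 2 ^ (s.f0 + u) < |x.g ω - y.g ω|)
    (kx : Kn P x G s.S 1) (ky : Kn P y G s.S 1)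
    (tx : Cls P G (x.tl (s.f0 + s.X)) (s.s1 + s.f0 + Q) 1)
    (ty : Cls P G (y.tl (s.f0 + s.X)) (s.s1 + s.f0 + Q) 1) : Kn P x G (s.C m Q) 48 := by
  have ex : ∀ ω ∈ P.S, rn s.c0 (x.z ω) = rn s.c0 (y.z ω) ∧ rn s.f0 (x.g ω) = rn s.f0 (y.g ω) ∧
      |y.y1 s.c0 ω - x.y1 s.c0 ω| ≤ 1 / 2 ^ (s.c0 + (s.s1 + D)) ∧
      |y.e1 ω - x.e1 ω| ≤ 1 / 2 ^ (s.s1 + D) ∧
      |y.nm s.c0 s.f0 ω - x.nm s.c0 s.f0 ω| ≤ 1 / 2 ^ (s.c0 + (s.s1 + s.f0 + D)) ∧
      |y.tl s.f0 ω - x.tl s.f0 ω| ≤ 1 / 2 ^ (s.s1 + s.f0 + D) := fun ω hω => by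
    have := hY ω hω
    simp only [Pl.Bx, Pl.zg, St.Z, lab, Prod.mk.injEq] at this
    obtain ⟨-, ⟨e1, e2⟩, e3, e4, e5, e6⟩ := this
    exact ⟨by rw [rn, rn, e1], by rw [rn, rn, e2], fe e3, fe e4, fe e5, fe e6⟩
  have fa := fn_sub (fg kx) (fg ky)
  have ba := fun ω hω => sep (F := s.f0 + s.X) (by omega) (hE ω hω)
  have c01 : s.c0 ≤ s.c0 + s.R := Nat.le_add_right _ _
  have f01 : s.f0 ≤ s.f0 + s.X := Nat.le_add_right _ _
  have ze : ∀ {V : Ω → ℝ} {j : ℕ} {K : ℝ}, Cls P G V j K → Cls P G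
      (fun ω => (rn (s.c0 + s.R) (y.z ω) - rn (s.c0 + s.R) (x.z ω)) * V ω) (s.c0 + j) (K + K) :=
    fun h => ((h.mul (fn_sub (fz ky le_rfl) (fz ky c01)) fun ω _ => rn0 c01 _).sub
      (h.mul (fn_sub (fz kx le_rfl) (fz kx c01)) fun ω _ => rn0 c01 _)).congr fun ω hω => by
        rw [(ex ω hω).1]; ring
  have b1 : Cls P G (fun ω => (y.tl s.f0 ω - x.tl s.f0 ω) -
      (rn (s.f0 + s.X) (y.g ω) - rn s.f0 (y.g ω)) * (y.e1 ω - x.e1 ω)) (s.s1 + s.f0 + D)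
        (2 * 2) := Cls.small fun ω hω => by
    obtain ⟨-, -, -, e4, -, e6⟩ := ex ω hω
    have a1 := am (rn0 f01 (y.g ω)) e4
    rw [show s.f0 + (s.s1 + D) = s.s1 + s.f0 + D by ring] at a1
    refine (abs_sub _ _).trans ((add_le_add e6 a1).trans_eq (by ring))
  have hE1 : Cls P G x.e1 (s.s1 + m) (6 + 6) := by
    refine div2 (k := s.f0 + u) ?_ fa ba
    refine (((ty.sub tx).sub (b1.mono (by omega) (by norm_num) le_rfl)).mono (by omega)
      (by norm_num) (by norm_num)).congr fun ω hω => ?_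
    simp only [Pl.tl, (ex ω hω).2.1]; ring
  have b2 : Cls P G (fun ω => (y.nm s.c0 s.f0 ω - x.nm s.c0 s.f0 ω) +
      (rn (s.c0 + s.R) (y.z ω) - rn s.c0 (y.z ω)) * (y.tl s.f0 ω - x.tl s.f0 ω) -
      (rn (s.f0 + s.X) (y.g ω) - rn s.f0 (y.g ω)) * ((y.y1 s.c0 ω - x.y1 s.c0 ω) +
        (rn (s.c0 + s.R) (y.z ω) - rn s.c0 (y.z ω)) * (y.e1 ω - x.e1 ω)))
      (s.c0 + (s.s1 + s.f0 + D)) (2 * 4) := Cls.small fun ω hω => by
    obtain ⟨-, -, e3, e4, e5, e6⟩ := ex ω hω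
    have a1 := am (rn0 c01 (y.z ω)) e6
    have a2 := am (rn0 c01 (y.z ω)) e4
    have a3 := am (K := 2) (j := s.c0 + (s.s1 + D)) (rn0 f01 (y.g ω))
      ((abs_add_le _ _).trans ((add_le_add e3 a2).trans_eq (by ring)))
    rw [show s.f0 + (s.c0 + (s.s1 + D)) = s.c0 + (s.s1 + s.f0 + D) by ring] at a3
    refine (abs_sub _ _).trans
      ((add_le_add ((abs_add_le _ _).trans (add_le_add e5 a1)) a3).trans_eq (by ring))
  have nx : Cls P G (x.nm (s.c0 + s.R) (s.f0 + s.X)) (s.c0 + (s.s1 + s.f0 + Q)) 1 :=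
    kx.D.mono (by simp only [St.S, lab]; omega) zero_le_one le_rfl
  have ny : Cls P G (y.nm (s.c0 + s.R) (s.f0 + s.X)) (s.c0 + (s.s1 + s.f0 + Q)) 1 :=
    ky.D.mono (by simp only [St.S, lab]; omega) zero_le_one le_rfl
  have hw : Cls P G (fun ω => x.a1 ω + rn (s.c0 + s.R) (y.z ω) * x.e1 ω) (s.c0 + (s.s1 + m))
      (12 + 12) := by
    refine div2 (k := s.f0 + u) ?_ fa ba
    refine ((((ny.sub nx).sub (ze tx)).sub (b2.mono (by omega) (by norm_num) le_rfl)).mono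
      (by omega) (by norm_num) (by norm_num)).congr fun ω hω => ?_
    simp only [Pl.tl, Pl.nm, Pl.y1, (ex ω hω).2.1, (ex ω hω).1]; ring
  refine ⟨by norm_num, kx.θ, kx.zg, ?_, hE1.mono le_rfl (by norm_num) (by norm_num),
    kx.D.mono le_rfl (by norm_num) (by norm_num), tx.mono le_rfl (by norm_num) (by norm_num)⟩
  refine ((hw.sub (ze hE1)).mono (by simp only [St.C]; omega) (by norm_num) (by norm_num)).congr
    fun ω _ => ?_
  simp only [Pl.y1, St.C]; ring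

theorem one {q : Pm} {δ A B : ℝ} (hu : u < s.X) (hm : m + u ≤ Q) (hQ : Q ≤ D)
    (hR : Q ≤ s.R + s.X) (hY : ∀ ω ∈ P.S, x.Bx (s.Z D D) ω = y.Bx (s.Z D D) ω)
    (hE : pb P (fun ω => |x.g ω - y.g ω| ≤ 1 / 2 ^ (s.f0 + u)) ≤ δ)
    (kx : Fn P (x.Bx s.S) G) (ky : Fn P (y.Bx s.S) G)
    (tx : Fn P (fun ω => fl1 (s.s1 + s.f0 + Q) (x.tl (s.f0 + s.X) ω)) G)
    (ty : Fn P (fun ω => fl1 (s.s1 + s.f0 + Q) (y.tl (s.f0 + s.X) ω)) G) (hA : 0 ≤ A) (hB : 0 ≤ B)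
    (h1 : ∀ P' : FP Ω, Kn P' x G (s.C m Q) 48 → ch P' (x.Bx q) G ≤ A)
    (h2 : ∀ P' : FP Ω, Kn P' x G s.S 1 → ch P' (x.Bx q) G ≤ B) :
    ch P (x.Bx q) G ≤ lg + A + δ * B :=
  ch_ev (E := fun ω => 1 / 2 ^ (s.f0 + u) < |x.g ω - y.g ω|) hA hB
    ((pb_mono fun _ _ h => not_lt.1 h).trans hE)
    (fun h => h1 _ (lat hu hm hQ hR (fun ω hω => hY ω (cE_sub hω))
      (fun ω hω => ((mem_cE h ω).1 hω).2) ((Kn.of_fn kx).cE _) ((Kn.of_fn ky).cE _)
      ((Cls.of_fn tx).cE _) ((Cls.of_fn ty).cE _)))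
    (h2 _ ((Kn.of_fn kx).cE _))

/-- The two labels and the two tilts. -/
noncomputable def ctx (x y : Pl Ω T) (s : St) (Q : ℕ) (ω : Ω) :=
  ((x.Bx s.S ω, y.Bx s.S ω), fl1 (s.s1 + s.f0 + Q) (x.tl (s.f0 + s.X) ω),
    fl1 (s.s1 + s.f0 + Q) (y.tl (s.f0 + s.X) ω))

theorem c1 : Fn P (x.Bx s.S) (ctx x y s Q) := fun _ _ _ _ e => congrArg (·.1.1) e
theorem c2 : Fn P (y.Bx s.S) (ctx x y s Q) := fun _ _ _ _ e => congrArg (·.1.2) e
theorem c3 : Fn P (fun ω => fl1 (s.s1 + s.f0 + Q) (x.tl (s.f0 + s.X) ω)) (ctx x y s Q) :=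
  fun _ _ _ _ e => congrArg (·.2.1) e
theorem c4 : Fn P (fun ω => fl1 (s.s1 + s.f0 + Q) (y.tl (s.f0 + s.X) ω)) (ctx x y s Q) :=
  fun _ _ _ _ e => congrArg (·.2.2) e

theorem mid {ε : ℝ} (e1 : ε ≤ 1) (hu : u < s.X) (hm : m + u ≤ Q) (hQ : Q ≤ D)
    (hR : Q ≤ s.R + s.X) (hY : ∀ ω ∈ P.S, x.Bx (s.Z D D) ω = y.Bx (s.Z D D) ω)
    (hE : pb P (fun ω => |x.g ω - y.g ω| ≤ 1 / 2 ^ (s.f0 + u)) ≤ 4 * ε)
    (kx : Fn P (x.Bx s.S) G) (ky : Fn P (y.Bx s.S) G)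
    (tx : Fn P (fun ω => fl1 (s.s1 + s.f0 + Q) (x.tl (s.f0 + s.X) ω)) G)
    (ty : Fn P (fun ω => fl1 (s.s1 + s.f0 + Q) (y.tl (s.f0 + s.X) ω)) G) :
    ch P (x.Bx (s.C m Q)) G ≤ 4000 + 16 * ε * (s.X + s.R) * lg := by
  have l0 := lg_pos
  have := one (q := s.C m Q) hu hm hQ hR hY hE kx ky tx ty (by norm_num) (by positivity)
    (fun _ h => h.ch) fun _ h => h.ch' (u := s.X + s.R) rfl rfl
      (by simp only [St.S, St.C, lab]; omega) (by simp only [St.S, St.C, lab]; omega)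
      (by simp only [St.S, St.C, lab]; omega) (by simp only [St.S, St.C, lab]; omega)
  push_cast at this
  nlinarith [lg_lt_one]

theorem last {ε : ℝ} (e1 : ε ≤ 1) (hu : u < s.X) (hm : m + u = D)
    (hR : D ≤ s.R + s.X) (hY : ∀ ω ∈ P.S, x.Bx (s.Z D D) ω = y.Bx (s.Z D D) ω)
    (hE : pb P (fun ω => |x.g ω - y.g ω| ≤ 1 / 2 ^ (s.f0 + u)) ≤ 4 * ε) (hQ : D ≤ Q) :
    ch P (x.Bx (s.Z D D)) (ctx x y s Q) ≤ 4 * u * lg + (4000 + 16 * ε * (s.X + s.R) * lg) := by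
  have l0 := lg_pos
  have := one (q := s.Z D D) (G := ctx x y s Q) hu hm.le le_rfl hR hY hE c1 c2
    ((fn_fl1 _ (by omega)).trans c3) ((fn_fl1 _ (by omega)).trans c4) (by positivity)
    (by positivity)
    (fun _ h => (h.move (q := s.Z m m)
      ((fn_zg (Nat.le_add_right _ _) (Nat.le_add_right _ _)).trans h.zg)
      (by simp only [Pm.Rd, St.Z, St.C, lab]; omega)).ch' (u := u) rfl rfl
      (by simp only [St.Z, lab]; omega) (by simp only [St.Z, lab]; omega)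
      (by simp only [St.Z, lab]; omega) (by simp only [St.Z, lab]; omega))
    fun _ h => (h.move (q := s.Z 0 0)
      ((fn_zg (Nat.le_add_right _ _) (Nat.le_add_right _ _)).trans h.zg)
      (by simp only [Pm.Rd, St.Z, St.S, lab]; omega)).ch' (u := s.X + s.R) rfl rfl
      (by simp only [St.Z, lab]; omega) (by simp only [St.Z, lab]; omega)
      (by simp only [St.Z, lab]; omega) (by simp only [St.Z, lab]; omega)
  push_cast at this
  nlinarith [lg_lt_one]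

end PCntA

open PCntA in
theorem rowCnt : SFar → SCnt := by
  intro far Ω T P x s u k ε hu hX hR hk e0 e1 hp
  obtain ⟨D, hD⟩ : ∃ D, D = s.X + k * u - u := ⟨_, rfl⟩
  rw [← hD]
  have kg := rowKG rowKE
  have l1 := kg.fst P P (x.Bx (s.Z D D)) (x.Bx (s.Z D D))
  have l2 := kg.snd P P (x.Bx (s.Z D D)) (x.Bx (s.Z D D)) (Law.rfl _)
  have mem := fun v => (kg.mem P P (x.Bx (s.Z D D)) (x.Bx (s.Z D D)) v (Law.rfl _)).1
  have hE := far P (x.Bx (s.Z D D)) (x.lz s.c0 s.f0) x.g (s.f0 + u) ε e0 (bx_lz le_rfl le_rfl) hp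
  generalize glue P P (x.Bx (s.Z D D)) (x.Bx (s.Z D D)) = Q at l1 l2 mem hE ⊢
  have hE' : pb Q (fun v => |x.g v.2 - x.g v.1| ≤ 1 / 2 ^ (s.f0 + u)) ≤ 4 * ε :=
    (pb_mono fun _ _ h => by rwa [abs_sub_comm]).trans hE
  have key : ∀ j ≤ k, ch Q (ctx (x.map Prod.fst) (x.map Prod.snd) s (s.X + j * u))
      (fun v => (x.Bx s.S v.1, x.Bx s.S v.2)) ≤
      2 * ∑ i ∈ range j, dd P x s u i + 2 * j * (4000 + 16 * ε * (s.X + s.R) * lg) := by
    intro j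
    induction j with
    | zero =>
      intro _
      rw [ch_zero]
      · simp
      · refine (Fn.rfl _).pair (Fn.pair ?_ ?_)
        · exact (fn_fl1 _ (by simp [St.S, lab, add_assoc])).trans
            ((bx_c (x := x.map Prod.fst) (p := s.S)).left _)
        · exact (fn_fl1 _ (by simp [St.S, lab, add_assoc])).trans
            ((bx_c (x := x.map Prod.snd) (p := s.S)).right _)
    | succ j ih =>
      intro hj
      have hju : j * u + u ≤ k * u := by nlinarith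
      have a0 := ih (by omega)
      have a1 := mid (P := Q) (x := x.map Prod.fst) (y := x.map Prod.snd) (D := D)
        (m := s.X + j * u - u) (Q := s.X + j * u) e1 (by omega) (by omega) (by omega) (by omega)
        (fun v hv => (mem v hv).2.2.symm) hE c1 c2 c3 c4
      have a2 := mid (P := Q) (x := x.map Prod.snd) (y := x.map Prod.fst) (D := D)
        (m := s.X + j * u - u) (Q := s.X + j * u) e1 (by omega) (by omega) (by omega) (by omega)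
        (fun v hv => (mem v hv).2.2) hE' c2 c1 c4 c3
      have d1 : ch Q (fun v => fl1 (s.s1 + s.f0 + (s.X + (j + 1) * u))
          ((x.map Prod.fst).tl (s.f0 + s.X) v))
          ((x.map Prod.fst).Bx (s.C (s.X + j * u - u) (s.X + j * u))) = dd P x s u j :=
        l1.ch_id (fun ω => fl1 (s.s1 + s.f0 + (s.X + (j + 1) * u)) (x.tl (s.f0 + s.X) ω))
          (x.Bx (s.C (s.X + j * u - u) (s.X + j * u)))
      have d2 : ch Q (fun v => fl1 (s.s1 + s.f0 + (s.X + (j + 1) * u))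
          ((x.map Prod.snd).tl (s.f0 + s.X) v))
          ((x.map Prod.snd).Bx (s.C (s.X + j * u - u) (s.X + j * u))) = dd P x s u j :=
        l2.ch_id (fun ω => fl1 (s.s1 + s.f0 + (s.X + (j + 1) * u)) (x.tl (s.f0 + s.X) ω))
          (x.Bx (s.C (s.X + j * u - u) (s.X + j * u)))
      have a3 : ch Q (ctx (x.map Prod.fst) (x.map Prod.snd) s (s.X + (j + 1) * u))
          (ctx (x.map Prod.fst) (x.map Prod.snd) s (s.X + j * u)) ≤ _ :=
        (ch_mono (((c1.pair c2).right _).pair (Fn.fst _ _))).trans ((ch_subadd _ _ _).trans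
          (add_le_add ((ch_tri' _ _ _).trans (add_le_add d1.le a1))
            ((ch_tri' _ _ _).trans (add_le_add d2.le a2))))
      have a4 := (ch_tri' _ _ _).trans (add_le_add a3 a0)
      rw [sum_range_succ]
      push_cast
      linarith
  have a1 := last (P := Q) (x := x.map Prod.fst) (y := x.map Prod.snd) (D := D) (m := D - u)
    (Q := s.X + k * u) e1 (by omega) (by omega) (by omega)
    (fun v hv => (mem v hv).2.2.symm) hE (by omega)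
  have a2 := (ch_tri' _ _ _).trans (add_le_add a1 (key k le_rfl))
  refine le_trans a2 (le_of_eq ?_)
  ring

end Pool.Agent.MP_5168f5_an.MX
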