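import Pool.Agent.MP_5168f5_an.MX.PSpec

/-! The case of few lateral directions: the planar estimate in one cell. -/

namespace Pool.Agent.MP_5168f5_an.MX

open H19 H17S H17F Filter

namespace PCorA

theorem key {sa sb ra rb α β γ : ℝ} (h1 : |sa * ra - sb * rb| ≤ 4 * (α * β))
    (h2 : |ra - rb| ≤ 2 * β) (h3 : |sb| ≤ α) (h4 : γ ≤ |ra|) :
    |sa - sb| * γ ≤ 6 * (α * β) := by
  have a1 : |sb * (ra - rb)| ≤ α * (2 * β) := by
    rw [abs_mul]; exact mul_le_mul h3 h2 (abs_nonneg _) ((abs_nonneg _).trans h3)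
  have a2 : |(sa - sb) * ra| ≤ |sa * ra - sb * rb| + |sb * (ra - rb)| := by
    rw [show (sa - sb) * ra = (sa * ra - sb * rb) - sb * (ra - rb) by ring]; exact abs_sub _ _
  rw [abs_mul] at a2
  have a3 := mul_le_mul_of_nonneg_left h4 (abs_nonneg (sa - sb))
  linarith

theorem nm_eq {Ω T : Type} (x : Pl Ω T) (i j f : ℕ) (ω : Ω) :
    x.nm j f ω = x.nm i f ω + (rn j (x.z ω) - rn i (x.z ω)) * x.tl f ω := by
  simp only [Pl.nm, Pl.y1, Pl.tl]; ring

theorem near {j : ℕ} {a b : ℝ} (h : fl1 j a = fl1 j b) : |a - b| ≤ 1 / 2 ^ j := by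
  rw [one_div]; exact (abs_sub_lt_of_fl1_eq h).le

theorem rn_congr {j : ℕ} {a b : ℝ} (h : fl1 j a = fl1 j b) : rn j a = rn j b := by
  rw [rn, rn, h]

variable {Ω T : Type} (x : Pl Ω T) {w u i f d : ℕ}

/-- Two lines through one point, with different tilts, determine the height. -/
theorem geo {a a' b b' : Ω} (ea : x.Bx (xb w i f (i + d)) a = x.Bx (xb w i f (i + d)) a')
    (eb : x.Bx (xb w i f (i + d)) b = x.Bx (xb w i f (i + d)) b')
    (e : x.Bx (nb w i f (i + d + w)) a = x.Bx (nb w i f (i + d + w)) b)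
    (e' : x.Bx (nb w i f (i + d + w)) a' = x.Bx (nb w i f (i + d + w)) b')
    (h : 1 / 2 ^ (d + u) ≤ |x.tl f a - x.tl f a'|) :
    |x.z a - x.z b| ≤ (6 * 2 ^ u + 1) / 2 ^ (i + w) := by
  simp only [Pl.Bx, Pl.zg, xb, nb, Prod.mk.injEq, show i + d + w - i = d + w by omega] at ea eb e e'
  have za := rn_congr ea.2.1.1
  have zb := rn_congr eb.2.1.1
  have za' := rn_congr (fl1_eq_of_le (Nat.le_add_right i w) ea.2.1.1)
  have zb' := rn_congr (fl1_eq_of_le (Nat.le_add_right i w) eb.2.1.1)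
  have zc := rn_congr e.2.1.1
  have n1 := abs_le.1 (near ea.2.2.2.2.1)
  have n2 := abs_le.1 (near eb.2.2.2.2.1)
  have n3 := abs_le.1 (near e.2.2.2.2.1)
  have n4 := abs_le.1 (near e'.2.2.2.2.1)
  have t1 := abs_le.1 (near e.2.2.2.2.2)
  have t2 := abs_le.1 (near e'.2.2.2.2.2)
  rw [nm_eq x i (i + w) f a, nm_eq x i (i + w) f a', ← za, ← za'] at n1
  rw [nm_eq x i (i + w) f b, nm_eq x i (i + w) f b', ← zb, ← zb'] at n2
  have q : (1 : ℝ) / 2 ^ (i + d + w) = 1 / 2 ^ i * (1 / 2 ^ (d + w)) := by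
    rw [add_assoc, pow_add]; field_simp
  rw [q] at n1 n2 n3 n4
  have s := rn_sub (i + w) i (x.z b)
  rw [min_eq_right (Nat.le_add_right i w)] at s
  have k := key (sa := rn (i + w) (x.z a) - rn i (x.z a)) (rb := x.tl f b - x.tl f b')
    (β := 1 / 2 ^ (d + w))
    (abs_le.2 ⟨by linarith [n1.1, n2.2, n3.2, n4.1], by linarith [n1.2, n2.1, n3.1, n4.2]⟩)
    (abs_le.2 ⟨by linarith [t1.1, t2.2], by linarith [t1.2, t2.1]⟩) s h
  rw [zc, sub_sub_sub_cancel_right, ← le_div_iff₀ (by positivity),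
    show 6 * ((1 : ℝ) / 2 ^ i * (1 / 2 ^ (d + w))) / (1 / 2 ^ (d + u)) = 6 * 2 ^ u / 2 ^ (i + w) by
      simp only [pow_add]; field_simp] at k
  have k' := abs_le.1 k
  rw [add_div, abs_le]
  constructor <;> linarith [k'.1, k'.2, rn_le (i + w) (x.z a), rn_le (i + w) (x.z b),
    lt_rn (i + w) (x.z a), lt_rn (i + w) (x.z b)]

end PCorA

open PCorA in
theorem rowCor : SFar → SCor0 → SCor := by
  intro far cor Ω T β P x Y w u i f D ε hD e0 e1 hY hp
  obtain ⟨d, rfl⟩ := Nat.exists_eq_add_of_le hD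
  rw [Nat.add_sub_cancel_left] at hp
  have kg := rowKG rowKE
  obtain ⟨X, hX⟩ : ∃ X, X = xx x Y w i f (i + d) := ⟨_, rfl⟩
  obtain ⟨N, hN⟩ : ∃ N, N = fun ω => (Y ω, x.Bx (nb w i f (i + d)) ω) := ⟨_, rfl⟩
  obtain ⟨U, hU⟩ : ∃ U, U = fun ω => (Y ω, x.Bx (nb w i f (i + d + w)) ω) := ⟨_, rfl⟩
  obtain ⟨Z, hZ⟩ : ∃ Z, Z = fun ω => fl1 (i + w) (x.z ω) := ⟨_, rfl⟩
  have YN : Fn P Y N := hN ▸ Fn.fst _ _
  have BN : Fn P (x.Bx (nb w i f (i + d))) N := hN ▸ Fn.snd _ _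
  have YU : Fn P Y U := hU ▸ Fn.fst _ _
  have BU : Fn P (x.Bx (nb w i f (i + d + w))) U := hU ▸ Fn.snd _ _
  have NB : Fn P (x.Bx (nb w i f (i + d))) U :=
    Fn.trans (bx_mono (p := nb w i f (i + d + w)) rfl rfl (by simp only [nb]; omega)
      (by simp only [nb]; omega) (by simp only [nb]; omega) (by simp only [nb]; omega)) BU
  have NU : Fn P N U := hN ▸ YU.pair NB
  have BX : Fn P (x.Bx (xb w i f (i + d))) X := hX ▸ fun _ _ _ _ e => congrArg (·.2.2) e
  have NX : Fn P N X := by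
    rw [hN, hX]; exact fun _ _ _ _ e => Prod.ext (congrArg (·.1) e :) (congrArg (·.2.1) e :)
  have XB : Fn P X fun ω => (x.Bx (xb w i f (i + d)) ω, N ω) := by
    rw [hX]; exact (YN.right _).pair ((BN.right _).pair (Fn.fst _ _))
  have ZX : Fn P Z X := hZ ▸ fun a ha b hb e => congrArg Prod.fst ((bx_zg.trans BX) a ha b hb e)
  have Ul : Fn P U (x.lz i f) := hU ▸ hY.pair (bx_lz le_rfl le_rfl)
  have zg : Fn P (x.zg (i + w) f) fun ω => (Z ω, N ω) := fun a ha b hb e =>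
    Prod.ext (by have := congrArg Prod.fst e; rwa [hZ] at this)
      (congrArg Prod.snd ((bx_zg.trans BN) a ha b hb (congrArg Prod.snd e)) :)
  have a1 := cor P N U X NU NX
  have a2 : ch P Z U ≤ ch P X U := ch_mono (ZX.left _)
  have a3 : ch P Z (x.lz i f) ≤ ch P Z U := ch_anti Ul
  have a4 : ii P x Y w i f (i + d) = ch P Z N - ch P Z U := by
    rw [ii, mi, ← hZ, ← hN]
    congr 1
    refine ch_congr (Fn.fst _ _) (Fn.fst _ _) (BU.pair (YU.pair NB)) ?_
    rw [hU]; exact ((Fn.fst _ _).right _).pair (Fn.fst _ _)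
  have a5 : ch P X N ≤ ch P Z N + bb P x Y w i f (i + d) + 40 := by
    obtain ⟨A, hA⟩ : ∃ A, A = fun ω => fl1 (i + d + w) (x.nm (i + w) f ω) := ⟨_, rfl⟩
    have b1 := ch_tri (P := P) X Z N
    have b2 := ch_tri (P := P) X A fun ω => (Z ω, N ω)
    have b3 : ch P A (fun ω => (Z ω, N ω)) ≤ bb P x Y w i f (i + d) := by
      rw [bb, ← hA]
      exact ch_anti ((YN.right _).pair ((BN.right _).pair (hZ ▸ Fn.fst _ _)))
    have k1 := (Kn.of_fn ((BN.right Z).right A)).move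
      (q := ⟨i + w, f, i + d + w - f, i + d + w - f - i, 0, i + d - i⟩) (zg.right A)
      (by simp only [Pm.Rd, nb]; omega)
    have k2 := (k1.setD (D := i + d + w) (k1.cls (hA ▸ Fn.fst _ _))).ch
    have b4 : ch P X (fun ω => (A ω, Z ω, N ω)) ≤
        ch P (x.Bx (xb w i f (i + d))) fun ω => (A ω, Z ω, N ω) :=
      ch_mono (XB.trans ((Fn.fst _ _).pair ((((Fn.rfl N).right Z).right A).right _)))
    have b5 : ch P (x.Bx (xb w i f (i + d))) (fun ω => (A ω, Z ω, N ω)) ≤ 8 * (4 * 1) + 8 := k2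
    linarith
  have law := kg.fst P P X X
  have mem : ∀ v ∈ (glue P P X X).S, v.1 ∈ P.S ∧ v.2 ∈ P.S ∧ X v.2 = X v.1 := fun v hv =>
    (kg.mem _ _ _ _ v (Law.rfl _)).1 hv
  have a6 : ch (glue P P X X) (fun v => X v.1) (fun v => (Z v.1, U v.1, U v.2)) ≤ 40 := by
    have b1 : ch (glue P P X X) (fun v => X v.1) (fun v => (Z v.1, U v.1, U v.2)) ≤
        ch (glue P P X X) (fun v => X v.1) fun v => (Z v.1, U v.1) :=
      ch_anti ((Fn.fst _ _).pair ((Fn.fst _ _).right _))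
    have b2 := law.ch_id X fun ω => (Z ω, U ω)
    have b3 : ch P X (fun ω => (Z ω, U ω)) ≤ ch P (x.Bx (xb w i f (i + d))) fun ω => (Z ω, U ω) :=
      ch_mono (XB.trans ((Fn.fst _ _).pair ((NU.right Z).right _)))
    have b4 := ch_bx (q := xb w i f (i + d)) (BU.right Z)
      (zg.trans ((Fn.fst _ _).pair (NU.right Z))) (by simp only [Pm.Rd, nb, xb]; omega)
    linarith
  have a7 : ch (glue P P X X) (fun v => Z v.1) (fun v => (U v.1, U v.2)) ≤
      lg + (u * lg + 5) + 4 * ε * (w * lg + (2 * 1 + 2)) := by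
    refine ch_ev (E := fun v => 1 / 2 ^ (d + u) < |x.tl f v.1 - x.tl f v.2|)
      (by have := lg_pos; positivity) (by have := lg_pos; positivity) ?_ (fun hE => ?_) ?_
    · simp only [not_lt]
      exact far P X X (x.tl f) (d + u) ε e0 (Fn.rfl _) (hX ▸ hp)
    · rw [hZ]
      refine (ch_near1 (x := fun v : Ω × Ω => x.z v.1) (L := 6 * 2 ^ u + 1) (by positivity)
        fun a ha b hb e => ?_).trans ?_
      · obtain ⟨ha, ka⟩ := (mem_cE hE a).1 ha
        obtain ⟨p1, p2, p3⟩ := mem a ha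
        obtain ⟨q1, q2, q3⟩ := mem b (cE_sub hb)
        exact geo x (BX _ p1 _ p2 p3.symm) (BX _ q1 _ q2 q3.symm)
          (BU _ p1 _ q1 (congrArg Prod.fst e)) (BU _ p2 _ q2 (congrArg Prod.snd e)) ka.le
      · have h1 : (1 : ℝ) ≤ 2 ^ u := one_le_pow₀ one_le_two
        have c1 : Real.log (2 * (6 * 2 ^ u + 1) + 3) ≤ Real.log (2 ^ u * 17) :=
          Real.log_le_log (by positivity) (by linarith)
        rw [Real.log_mul (by positivity) (by norm_num), log_two_pow] at c1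
        linarith [log_le_five (x := 17) (by norm_num) (by norm_num)]
    · rw [hZ]
      refine Cls.ch (X := fun v : Ω × Ω => x.z v.1) (j := i) (Cls.of_fn fun a ha b hb e => ?_)
        zero_le_one le_rfl
      exact congrArg Prod.fst ((bx_zg.trans BU) _ (mem a (cE_sub ha)).1 _ (mem b (cE_sub hb)).1
        (congrArg Prod.fst e))
  have a8 := ch_tri (P := glue P P X X) (fun v => X v.1) (fun v => Z v.1) fun v => (U v.1, U v.2)
  rw [← hZ]
  linarith [lg_lt_one]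

end Pool.Agent.MP_5168f5_an.MX
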