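import Pool.Agent.MP_5168f5_an.MX.PSpec

/-! The case of few lateral directions: the numerical choices. -/

namespace Pool.Agent.MP_5168f5_an.MX

open H19 H17S H17F Filter Finset

namespace PDefA

theorem num {m u l R Y N N' J κ Λ ε : ℝ} (m10 : 10 ≤ m) (u0 : 0 < u) (l0 : 0 < l)
    (lo : m ^ 4 * u ≤ R) (big : 4000 ≤ Λ) (sml : m ^ 9 * Λ ≤ u * l) (e0 : 0 ≤ ε) (e1 : ε * m ≤ 1)
    (k0 : 0 ≤ κ) (k1 : κ ≤ 1) (j1 : J ≤ m ^ 4) (n0 : 0 ≤ N') (n1 : N' ≤ N)
    (n2 : N - 10 * m ^ 2 ≤ N') (n3 : N ≤ 3 * m ^ 3) (n4 : N * (m * u) ≤ 2 * R)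
    (n5 : Y - m * u ≤ N * (m * u)) :
    κ * Y * l - 30 / m * R * l ≤ N' * (κ * (m * u) * l - Λ - (u * l + 4 * ε * (m * u) * l + 1000)) -
      J * (m * u) * l / m ^ 2 - m * u * l - 1000 * J * N := by
  have m0 : 0 < m := by linarith
  have a0 : 0 < u * l := by positivity
  obtain ⟨U, hU⟩ : ∃ U, U = R * l / m := ⟨_, rfl⟩
  have hR : R * l = m * U := by rw [hU]; field_simp
  have p1 : 1 ≤ m := by linarith
  have p2 : ∀ i k : ℕ, i ≤ k → m ^ i ≤ m ^ k := fun i k h => pow_le_pow_right₀ p1 h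
  have U1 : m ^ 3 * (u * l) ≤ U := by
    refine le_of_mul_le_mul_left ?_ m0
    rw [← hR]
    nlinarith
  have U2 : m * (u * l) ≤ m ^ 3 * (u * l) := by
    have := p2 1 3 (by norm_num)
    rw [pow_one] at this
    gcongr
  have U3 : u * l ≤ m * (u * l) := le_mul_of_one_le_left a0.le p1
  have t1 : κ * Y * l - 11 * U ≤ N' * (κ * (m * u) * l) := by
    have h1 : Y - m * u - 10 * m ^ 2 * (m * u) ≤ N' * (m * u) := by
      have := mul_le_mul_of_nonneg_right n2 (show 0 ≤ m * u by positivity)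
      linarith
    have h2 := mul_le_mul_of_nonneg_left h1 (mul_nonneg k0 l0.le)
    have h3 : κ * (m * (u * l) + 10 * (m ^ 3 * (u * l))) ≤ m * (u * l) + 10 * (m ^ 3 * (u * l)) :=
      mul_le_of_le_one_left (by positivity) k1
    nlinarith
  have t2 : N * (u * l) ≤ 2 * U := by
    refine le_of_mul_le_mul_left ?_ m0
    have := mul_le_mul_of_nonneg_right n4 l0.le
    nlinarith
  have t3 : N * (4 * ε * (m * u) * l) ≤ 8 * U := by
    have h1 := mul_le_mul_of_nonneg_left t2 (show 0 ≤ ε * m by positivity)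
    have h2 : ε * m * (2 * U) ≤ 2 * U := mul_le_of_le_one_left (by linarith) e1
    nlinarith
  have t4 : N * (Λ + 1000) ≤ U := by
    have h1 : N * (Λ + 1000) ≤ 3 * m ^ 3 * (2 * Λ) :=
      mul_le_mul n3 (by linarith) (by linarith) (by positivity)
    have h2 : m * m ^ 3 ≤ m ^ 9 := by rw [← pow_succ']; exact p2 4 9 (by norm_num)
    have h3 : 6 * m ^ 3 ≤ m * m ^ 3 := by gcongr; linarith
    have h4 : 6 * m ^ 3 * Λ ≤ m ^ 9 * Λ := by gcongr; linarith
    linarith
  have t5 : J * (m * u) * l / m ^ 2 ≤ U := by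
    rw [div_le_iff₀ (by positivity)]
    have h1 := mul_le_mul_of_nonneg_right j1 (show 0 ≤ m * (u * l) by positivity)
    have h2 := mul_le_mul_of_nonneg_right U1 (show 0 ≤ m ^ 2 by positivity)
    nlinarith
  have t6 : 1000 * J * N ≤ U := by
    have h1 : J * N ≤ m ^ 4 * (3 * m ^ 3) := mul_le_mul j1 n3 (n0.trans n1) (by positivity)
    have h2 : m ^ 9 * 4000 ≤ m ^ 9 * Λ := by gcongr
    have h3 := p2 7 9 (by norm_num)
    have h4 : 0 ≤ m ^ 7 := by positivity
    nlinarith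
  have t7 : N' * (Λ + 1000 + u * l + 4 * ε * (m * u) * l) ≤
      N * (Λ + 1000 + u * l + 4 * ε * (m * u) * l) :=
    mul_le_mul_of_nonneg_right n1 (by positivity)
  have t8 : 30 / m * R * l = 30 * U := by rw [hU]; ring
  rw [t8]
  nlinarith

end PDefA

open PDefA in
theorem rowDef : SNG → SDef := by
  intro ng Ω T P x s m u κ Λ ε φ m0 D0 h hm hD hX H
  have m10 := h.m10
  have m1 : (10 : ℝ) ≤ m := by exact_mod_cast m10
  have u0 : 0 < u := Nat.pos_of_ne_zero fun e => by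
    have h1 := h.sml
    have h2 : (0 : ℝ) < m ^ 9 * Λ := mul_pos (by positivity) (by linarith [h.big])
    rw [e, Nat.cast_zero, zero_mul] at h1
    linarith
  have w0 : 0 < m * u := by positivity
  have w1 : u ≤ m * u := Nat.le_mul_of_pos_left _ (by omega)
  have w2 : m * u ≤ s.R :=
    (Nat.mul_le_mul_right _ (Nat.le_self_pow (by norm_num) m)).trans h.lo
  obtain ⟨J, hJ⟩ : ∃ J, J = (s.R - m * u) / u := ⟨_, rfl⟩
  obtain ⟨N, hN⟩ : ∃ N, N = (s.R + s.X - D0) / (m * u) := ⟨_, rfl⟩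
  have J1 : J * u + m * u ≤ s.R := by
    have := Nat.div_mul_le_self (s.R - m * u) u
    rw [← hJ] at this
    omega
  have J2 : ∀ j ≤ J, j * u + m * u ≤ s.R := fun j hj =>
    (Nat.add_le_add_right (Nat.mul_le_mul_right _ hj) _).trans J1
  have J3 : J + 1 ≤ m ^ 4 := by
    have h1 := J1.trans h.hi
    rw [← add_mul] at h1
    have := Nat.le_of_mul_le_mul_right h1 u0
    omega
  have N1 : D0 + N * (m * u) ≤ s.R + s.X := by
    have := Nat.div_mul_le_self (s.R + s.X - D0) (m * u)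
    rw [← hN] at this
    omega
  have N2 : s.R + s.X ≤ D0 + N * (m * u) + m * u := by
    have := Nat.lt_div_mul_add (a := s.R + s.X - D0) w0
    rw [← hN] at this
    omega
  have N3 : ∀ d < N, D0 + d * (m * u) + m * u ≤ s.R + s.X := fun d hd => by
    have := Nat.mul_le_mul_right (m * u) (Nat.succ_le_of_lt hd)
    rw [Nat.succ_mul] at this
    omega
  have N4 : N ≤ 3 * m ^ 3 := by
    have h1 : N * m * u ≤ 2 * (m ^ 4 + 1) * u := by
      have := h.hi
      rw [mul_assoc, mul_assoc]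
      omega
    have h2 := Nat.le_of_mul_le_mul_right h1 u0
    have h3 : 2 ≤ m ^ 4 := le_trans (by omega) (Nat.le_self_pow (by norm_num) m)
    refine Nat.le_of_mul_le_mul_right (c := m) ?_ (by omega)
    rw [show 3 * m ^ 3 * m = 3 * m ^ 4 by ring]
    omega
  have a0 : 0 < u * lg := mul_pos (by exact_mod_cast u0) lg_pos
  have J4 : (J : ℝ) + 1 ≤ m ^ 4 := by exact_mod_cast J3
  have k := ng P x (x.Bx (s.Z m0 D0)) (m * u) u s.c0 J (s.c0 + s.R) (s.f0 + s.X) s.s1
    (s.s1 + s.f0 + s.X) (s.c0 + s.s1 + s.f0 + D0) N (10 * m ^ 2) (m ^ 2) (fun j => s.f0 + φ j)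
    (κ * (m * u) * lg - Λ) (u * lg / m ^ 2) ε (fun a b e => Nat.add_le_add_left (h.mono e) _)
    (Nat.add_le_add_left (h.top J J1) _) (by omega) (by omega)
    (bx_lz le_rfl (Nat.le_add_right _ _)) (by positivity) (by positivity) h.e0
    (by nlinarith [h.e0, h.e1]) (fun j hj => h.shd j (J2 j hj)) (fun j hj d hd => by
      have : 3 * m ^ 3 ≤ m ^ 4 := by
        rw [pow_succ' m 3]
        exact Nat.mul_le_mul_right _ (by omega)
      exact h.brd m0 D0 hm j (by omega) d (by omega)) fun d h1 h2 => by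
      have h3 := H d h1 (N3 d h2)
      rw [← hJ, filter_congr (q := fun j => s.c0 + j * u ≤ s.c0 + s.s1 + s.f0 + D0 + d * (m * u))
        fun j _ => by omega] at h3
      refine lt_of_le_of_lt ?_ h3
      have h4 : ((J : ℝ) + 1) * (u * lg / m ^ 2) ≤ m ^ 2 * (u * lg) := by
        rw [← mul_div_assoc, div_le_iff₀ (by positivity)]
        nlinarith
      have h5 : (0 : ℝ) ≤ m ^ 2 * (u * lg) := by positivity
      push_cast
      linarith
  simp only [h.zero, add_zero] at k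
  refine le_trans ?_ k
  have := num (Y := s.R + s.X - D0) (N := N) (N' := (N - 10 * m ^ 2 : ℕ)) m1
    (by exact_mod_cast u0 : (0 : ℝ) < u) lg_pos (by exact_mod_cast h.lo : _ ≤ (s.R : ℝ)) h.big h.sml
    h.e0 h.e1 h.k0 h.k1 J4 (Nat.cast_nonneg _) (by exact_mod_cast Nat.sub_le _ _)
    (by
      have : N ≤ N - 10 * m ^ 2 + 10 * m ^ 2 := by omega
      rw [sub_le_iff_le_add]
      exact_mod_cast this)
    (by exact_mod_cast N4) (by exact_mod_cast (by omega : N * (m * u) ≤ 2 * s.R)) (by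
      have : ((s.R + s.X : ℕ) : ℝ) ≤ (D0 + N * (m * u) + m * u : ℕ) := by exact_mod_cast N2
      push_cast at this
      linarith)
  simpa only [Nat.cast_mul, Nat.cast_pow] using this

end Pool.Agent.MP_5168f5_an.MX
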