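import Pool.Agent.MP_5168f5_an.MX.PSpec

/-! Two copies are far apart if there is no popular cell. -/

namespace Pool.Agent.MP_5168f5_an.MX

open H19 H17S H17F Filter

namespace PFarA

theorem cm_cv {Ω α β γ : Type} {P : FP Ω} {φ : Ω → β} {Θ : Ω → γ} (F : Ω → α) (h : Fn P φ Θ)
    {x ω : Ω} (hx : x ∈ P.S) (hω : ω ∈ (cv P φ (φ x)).S) :
    cm (cv P φ (φ x)) Θ F ω = cm P Θ F ω := by
  obtain ⟨h1, h2⟩ := (mem_cv hx ω).1 hω
  unfold cm cv
  rw [cE_cE (E' := fun v => Θ v = Θ ω) ⟨ω, h1, h2, rfl⟩,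
    cE_congr (E' := fun v => Θ v = Θ ω) fun v hv =>
      ⟨fun k => k.2, fun k => ⟨(h v hv ω h1 k).trans h2, k⟩⟩]

end PFarA

theorem rowFar : SFar := by
  intro Ω β γ P φ Θ X j ε hε h k
  have h1 : pb (glue P P φ φ) (fun v => |X v.2 - X v.1| ≤ (2 ^ j)⁻¹ ∧
      cm P Θ (fun v => fl1 j (X v)) v.2 ≤ ε) ≤ 3 * ε := by
    unfold pb
    rw [KGA.E_glue]
    refine (P.E_mono fun x hx => ?_).trans (P.E_const _).le
    refine le_trans (pb_mono (P := cv P φ (φ x)) fun ω hω a => ?_)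
      (near_le (cv P φ (φ x)) Θ X (fun _ => X x) (fun _ _ _ _ _ => rfl) j hε)
    rwa [PFarA.cm_cv _ h hx hω]
  have h2 := (((rowKG rowKE).snd P P φ φ (Law.rfl _)).pb_eq
    fun ω => ε < cm P Θ (fun v => fl1 j (X v)) ω).trans_le k
  refine ((pb_mono fun v _ a => ?_).trans (pb_or _ _ _)).trans
    ((add_le_add h1 h2).trans (by linarith))
  rw [abs_sub_comm, one_div] at a
  exact (le_or_gt _ ε).imp (And.intro a) id

end Pool.Agent.MP_5168f5_an.MX
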