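import Pool.Agent.MP_5168f5_an.MX.PSpec

/-! Pointwise uniformity excludes popular values. -/

namespace Pool.Agent.MP_5168f5_an.MX

open H19 H17S H17F Filter Finset

namespace PFlatA

theorem cm_le {Ω α β : Type} {P : FP Ω} {F : Ω → α} {X : Ω → β} {δ τ ε : ℝ} (hε : 0 < ε)
    (h1 : Flat P X δ) (h2 : Flat P (fun ω => (F ω, X ω)) δ) (e : 2 * δ - Real.log ε ≤ τ)
    (h : τ ≤ ch P F X) {ω : Ω} (hω : ω ∈ P.S) : cm P X F ω ≤ ε := by
  have a1 := pb_cE P (fun v => X v = X ω) fun v => F v = F ω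
  rw [← exp_iv X hω, pb_congr (P := P) (F := fun v => (F v, X v) = (F ω, X ω)) fun v _ => by
    rw [Prod.mk.injEq, and_comm], ← exp_iv (fun ω => (F ω, X ω)) hω] at a1
  refine le_of_mul_le_mul_left (a1.le.trans ?_) (Real.exp_pos _)
  rw [← Real.exp_log hε, ← Real.exp_add, Real.exp_le_exp]
  unfold ch at h
  linarith [(abs_le.1 (h1 ω hω)).2, (abs_le.1 (h2 ω hω)).1]

end PFlatA

theorem rowFlat : SFlat := by
  intro Ω T P x B δ τ ε hε hF e p q r c hp hq hr hc h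
  refine (pb_zero fun ω hω => not_lt.2 (PFlatA.cm_le hε (hF p q r hp hq hr) ?_ e h hω)).trans_le
    hε.le
  refine (hF p ⟨q.i, q.f, q.t, q.E, q.D, max c q.c⟩ r hp
    ⟨hq.1, hq.2.1, hq.2.2.1, hq.2.2.2.1, hq.2.2.2.2.1, max_le hc hq.2.2.2.2.2⟩ hr).congr
    (fun a _ b _ k => ?_) fun a _ b _ k => ?_
  · simp only [Prod.mk.injEq] at k ⊢
    refine ⟨k.2.1, ?_, k.2.2.2⟩
    have k1 := k.2.2.1
    simp only [Pl.Bx, Prod.mk.injEq] at k1 ⊢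
    refine ⟨k1.1, k1.2.1, k1.2.2.1, k1.2.2.2.1, k1.2.2.2.2.1, ?_⟩
    rcases max_choice c q.c with m | m <;> rw [m]
    exacts [k.1, k1.2.2.2.2.2]
  · simp only [Prod.mk.injEq] at k ⊢
    refine ⟨?_, k.1, ?_, k.2.2⟩ <;> have k1 := k.2.1 <;> simp only [Pl.Bx, Prod.mk.injEq] at k1 ⊢
    · exact fl1_eq_of_le (le_max_left _ _) k1.2.2.2.2.2
    · exact ⟨k1.1, k1.2.1, k1.2.2.1, k1.2.2.2.1, k1.2.2.2.2.1,
        fl1_eq_of_le (le_max_right _ _) k1.2.2.2.2.2⟩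

end Pool.Agent.MP_5168f5_an.MX
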