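import Pool.Agent.MP_5168f5_an.MX.PLFin

/-! Points and lines in the plane: the sum over all windows. -/

namespace Pool.Agent.MP_5168f5_an.MX.PLA

open H19 H17S H17F Filter

theorem kg : KG := rowKG rowKE

section Fin

variable {Ω T Λ : Type} (P : FP Ω) (K : Ω → T) (l : Ω → Λ) (A B C : Ω → ℝ)

/-- The line and the cell of the abscissa. -/
noncomputable def ph (x : ℕ) (ω : Ω) : ℤ × Λ × T := (fl1 x (C ω), l ω, K ω)

/-- Two points on one line. -/
noncomputable def QQ (x : ℕ) : FP (Ω × Ω) := glue P P (ph K l C x) (ph K l C x)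

/-- The context of the first point. -/
noncomputable def Cq (x a j : ℕ) : Ω × Ω → ℤ × T × ℤ × ℤ × ℤ :=
  Cx (fun v => K v.1) (fun v => A v.1) (fun v => B v.1) (fun v => C v.1) x a j

/-- The digits of the second abscissa. -/
noncomputable def gq (x a j : ℕ) : ℝ :=
  ch (QQ P K l C x) (fun v => fl1 (x + j) (C v.2)) (Cq K A B C x a j)

variable {P K l A B C} {x a j M : ℕ} {L : ℝ}

theorem mem_QQ {v : Ω × Ω} (h : v ∈ (QQ P K l C x).S) :
    v.1 ∈ P.S ∧ v.2 ∈ P.S ∧ fl1 x (C v.2) = fl1 x (C v.1) ∧ l v.2 = l v.1 ∧ K v.2 = K v.1 := by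
  simpa only [ph, Prod.mk.injEq] using (kg.mem P P _ _ v (Law.rfl _)).1 h

theorem gq_anti : Antitone fun a => gq P K l A B C x a j := fun _ _ h =>
  ch_anti ((Fn.fst _ _).pair ((Th_anti h).right _))

theorem gq_le : gq P K l A B C x a j ≤ j * lg := ch_rf j fun u hu v hv e => by
  simp only [Cq, Cx, Th, Prod.mk.injEq] at e
  exact (mem_QQ hu).2.2.1.trans (e.2.2.1.trans (mem_QQ hv).2.2.1.symm)

theorem loc2 {η R y z : ℝ} (hR : 1 ≤ R) (h0 : 0 ≤ η) (h1 : η ≤ 1) (hy : 0 ≤ y)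
    (hz : 0 ≤ z) (hz1 : z ≤ 1) (hyz : 4 * (1 / 2 : ℝ) ^ (1 - η) * (y * z) ≤ 1) (hL : 1 ≤ L)
    (hm : x + j + a ≤ M) (hC : ∀ ω ∈ P.S, |C ω| ≤ L)
    (hf : Fn P (fun ω => (A ω, B ω)) fun ω => (l ω, K ω)) :
    η * (j * lg) ≤ η * (ch P (fun ω => (fl1 M (A ω), fl1 M (B ω))) (Th K A B C x a) -
      ch P (fun ω => (fl1 M (A ω), fl1 M (B ω))) (Th K A B C (x + j) a)) +
      2 * (ch P (fun ω => fl1 (a + j) (B ω)) (Th K A B C x a) -
        ch P (fun ω => fl1 (a + j) (B ω)) (Th K A B C (x + j) a)) +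
      2 * (gq P K l A B C x a j - gq P K l A B C x (a + j) j) +
      (pb (QQ P K l C x) (fun v => ¬(Gd (QQ P K l C x) (Cq K A B C x a j)
        (bl (fun v => B v.1) a) j R y v ∧ Gd (QQ P K l C x) (Cq K A B C x a j)
          (cl (fun v => C v.1) (fun v => C v.2) x j) j R z v)) * (j * lg) + 4 * Real.log R +
      (2 * Real.log (2 ^ 17 * (4 * 2) ^ 4 * (13 * 2) ^ 2 * (M + 1) ^ 3) + Real.log (27 * 2) +
      5 * Real.log (2 * 2 + 3) + Real.log (2 * (5 * L) + 3))) := by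
  have l1 : Law (QQ P K l C x) Prod.fst P id := kg.fst _ _ _ _
  have l2 : Law (QQ P K l C x) Prod.snd P id := kg.snd _ _ _ _ (Law.rfl _)
  have v1 : vv (fun v => K v.1) (fun v => A v.1) (fun v => B v.1) (fun v => C v.1)
      (QQ P K l C x) x a j = vv K A B C P x a j :=
    l1.ch_id (fun ω => fl1 (x + j + a) (dd A B C (x + j) ω)) (Cx K A B C x a j)
  have e : ∀ v ∈ (QQ P K l C x).S, A v.1 = A v.2 ∧ B v.1 = B v.2 ∧ K v.1 = K v.2 := fun v hv => by
    obtain ⟨a1, a2, -, a3, a4⟩ := mem_QQ hv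
    have := hf _ a1 _ a2 (Prod.ext a3.symm a4.symm)
    exact ⟨congrArg Prod.fst this, congrArg Prod.snd this, a4.symm⟩
  have v2 : vv (fun v => K v.1) (fun v => A v.1) (fun v => B v.1) (fun v => C v.2)
      (QQ P K l C x) x a j = vv K A B C P x a j :=
    (ch_ext (fun v hv => by simp only [dd, e v hv]) fun v hv => by
      simp only [Cx, Th, dd, e v hv]).trans
      (l2.ch_id (fun ω => fl1 (x + j + a) (dd A B C (x + j) ω)) (Cx K A B C x a j))
  have f := loc (P := QQ P K l C x) (K := fun v => K v.1) (A := fun v => A v.1)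
    (B := fun v => B v.1) (C := fun v => C v.1) (C' := fun v => C v.2) (a := a) (j := j) hR h0 h1
    hy hz hz1 hyz (fun v hv => (mem_QQ hv).2.2.1) (v2.trans v1.symm).le
  have k : ∀ x', ch (QQ P K l C x) (fun v => fl1 (a + j) (B v.1)) (Th (fun v => K v.1)
      (fun v => A v.1) (fun v => B v.1) (fun v => C v.1) x' a) = _ := fun x' =>
    l1.ch_id (fun ω => fl1 (a + j) (B ω)) (Th K A B C x' a)
  have u := mul_le_mul_of_nonneg_left (stepU (K := K) (A := A) (B := B) hL hm hC) h0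
  have c := mul_le_of_le_one_left (add_nonneg (Real.log_nonneg (x := 2 * 2 + 3) (by norm_num))
    (Real.log_nonneg (x := 2 * (5 * L) + 3) (by linarith))) h1
  have r : Real.log (2 ^ 17 * (4 * 2) ^ 4 * (j + 1) ^ 3 * (13 * 2 * R) ^ 2) ≤
      Real.log (2 ^ 17 * (4 * 2) ^ 4 * (13 * 2) ^ 2 * (M + 1) ^ 3) + 2 * Real.log R := by
    have : (j : ℝ) ≤ M := by exact_mod_cast (by omega : j ≤ M)
    refine (Real.log_le_log (y := 2 ^ 17 * (4 * 2) ^ 4 * (13 * 2) ^ 2 * (M + 1) ^ 3 * R ^ 2)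
      (by positivity) (le_of_eq_of_le (b := 2 ^ 17 * (4 * 2) ^ 4 * (13 * 2) ^ 2 * (j + 1) ^ 3 *
        R ^ 2) (by ring) (by gcongr))).trans_eq ?_
    rw [Real.log_mul (by positivity) (by positivity), Real.log_pow R, Nat.cast_ofNat]
  rw [v1, k, k] at f
  unfold gq Cq
  linarith

theorem ends {A' : Ω → ℝ} (hL : 1 ≤ L) (hm : x + a ≤ M)
    (h : ∀ ω ∈ P.S, |B ω| ≤ L ∧ |A' ω - (A ω + C ω * B ω)| ≤ L / 2 ^ M) :
    ch P (fun ω => (fl1 M (A ω), fl1 M (B ω))) (Th K A B C 0 a) -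
      ch P (fun ω => (fl1 M (A ω), fl1 M (B ω))) (Th K A B C x a) ≤
      mi P (fun ω => (fl1 M (C ω), fl1 M (A' ω))) (fun ω => (fl1 M (A ω), fl1 M (B ω))) K +
        a * lg + 2 * Real.log (2 * (5 * L) + 3) := by
  have h1 : ch P (fun ω => (fl1 M (A ω), fl1 M (B ω))) (Th K A B C 0 a) ≤ _ :=
    ch_anti (Fn.fst K _)
  have h2 := ch_tri' (P := P) (fun ω => (fl1 M (A ω), fl1 M (B ω)))
    (fun ω => ((fl1 M (C ω), fl1 M (A' ω)), K ω)) (Th K A B C x a)
  have h3 := ch_tri (P := P) (Th K A B C x a) (fun ω => fl1 a (B ω))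
    fun ω => ((fl1 M (C ω), fl1 M (A' ω)), K ω)
  have h4 := ch_point (K := K) hL hm h (G := fun ω => (fl1 a (B ω), (fl1 M (C ω), fl1 M (A' ω)),
    K ω)) fun u _ v _ e => by simp only [Prod.mk.injEq] at e ⊢; tauto
  have h5 := ch_tri (P := P) (fun ω => fl1 (0 + a) (B ω)) (fun ω => fl1 0 (B ω))
    fun ω => ((fl1 M (C ω), fl1 M (A' ω)), K ω)
  have h6 := ch_rf (P := P) a (Fn.fst (fun ω => fl1 0 (B ω))
    fun ω => ((fl1 M (C ω), fl1 M (A' ω)), K ω))
  have h7 := ch_near1 (P := P) (x := B) (G := fun ω => ((fl1 M (C ω), fl1 M (A' ω)), K ω)) (j := 0)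
    (L := 5 * L) (by linarith) fun u hu v hv _ => (abs_sub _ _).trans (by
      rw [pow_zero, div_one]; linarith [(h u hu).1, (h v hv).1])
  rw [zero_add] at h5 h6
  rw [mi_symm]
  unfold mi
  linarith

end Fin

variable {Ω T Λ Γ : ℕ → Type} {P : ∀ n, FP (Ω n)} {K : ∀ n, Ω n → T n} {l : ∀ n, Ω n → Λ n}
  {p : ∀ n, Ω n → Γ n} {A B C A' : ∀ n, Ω n → ℝ} {M x a j s : ℕ → ℕ} {L f : ℕ → ℝ} {κ γ η : ℝ}

theorem pbB (hM : Big M) (hL : Sub M L) (hm : ∀ n, x n + j n + a n ≤ M n)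
    (hb : ∀ᶠ n in UF, ∀ ω ∈ (P n).S,
      |B n ω| ≤ L n ∧ |A' n ω - (A n ω + C n ω * B n ω)| ≤ L n / 2 ^ M n)
    (hp : Sm M fun n => ch (P n) (fun ω => (K n ω, fl1 (M n) (C n ω), fl1 (M n) (A' n ω))) (p n))
    (h : PB P (fun n ω => (fl1 (a n) (B n ω), p n ω)) (fun n ω => fl1 (a n + s n) (B n ω)) M f) :
    PB (fun n => QQ (P n) (K n) (l n) (C n) (x n))
      (fun n => Cq (K n) (A n) (B n) (C n) (x n) (a n) (j n))
      (fun n v => fl1 (s n) (bl (fun v => B n v.1) (a n) v)) M f := by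
  refine ((h.ctx (Θ' := fun n => Cx (K n) (A n) (B n) (C n) (x n) (a n) (j n)) hM ?_).fine
    (F' := fun n ω => fl1 (s n) (bl (B n) (a n) ω)) hM (Le.of_le fun n => (ch_zero
      fun u _ v _ e => ?_).le)).law fun n => kg.fst _ _ _ _
  · refine (hp.add ((hL.const_mul hM (C := 5) (by norm_num)).log3 hM 1)).mono
      (hb.mono fun n k => ?_)
    rw [one_mul]
    refine (ch_tri _ (fun ω => (K n ω, fl1 (M n) (C n ω), fl1 (M n) (A' n ω))) _).trans
      (add_le_add (ch_anti (Fn.snd _ _)) ((ch_mono (F' := Th (K n) (A n) (B n) (C n) (x n) (a n))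
        fun u _ v _ e => ?_).trans (ch_point (hL.1 n) (by have := hm n; omega) k
          fun u _ v _ e => ?_)))
    · simp only [Cx, Prod.mk.injEq] at e ⊢
      exact ⟨fl1_eq_of_le (by have := hm n; omega) e.2.1.2.1, e.1⟩
    · simp only [Prod.mk.injEq] at e ⊢
      tauto
  · simp only [Cx, Th, fl_bl, Prod.mk.injEq] at e
    have := e.1
    rw [e.2.2.2.2.1] at this
    linarith

theorem pbC (hM : Big M) (hs : ∀ n, s n ≤ j n)
    (h : PB P (fun n => ph (K n) (l n) (C n) (x n)) (fun n ω => fl1 (x n + s n) (C n ω)) M f) :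
    PB (fun n => QQ (P n) (K n) (l n) (C n) (x n))
      (fun n => Cq (K n) (A n) (B n) (C n) (x n) (a n) (j n))
      (fun n v => fl1 (s n) (cl (fun v => C n v.1) (fun v => C n v.2) (x n) (j n) v)) M f := by
  have l2 : ∀ n, Law (QQ (P n) (K n) (l n) (C n) (x n)) Prod.snd (P n) id := fun n =>
    kg.snd _ _ _ _ (Law.rfl _)
  refine (((h.law l2).info (Θ' := fun _ => Prod.fst) hM (Le.of_le fun n => ?_)).coarse hM
    (Eventually.of_forall fun n => (Fn.comp (Cx (K n) (A n) (B n) (C n) (x n) (a n) (j n))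
      Prod.fst).left _)).fine hM ((hM.sm _).mono (Eventually.of_forall fun n =>
        ch_near1 zero_le_two fun u _ v _ e => ?_))
  · have e1 := (l2 n).ch_id (fun ω => fl1 (x n + s n) (C n ω)) (ph (K n) (l n) (C n) (x n))
    have e2 := kg.mkv (P n) (P n) _ _ (fun ω => fl1 (x n + s n) (C n ω))
      (ph (K n) (l n) (C n) (x n)) id (Law.rfl (ph (K n) (l n) (C n) (x n)))
      fun _ _ _ _ e => congrArg _ e
    exact sub_nonpos.2 (e1.trans_le ((ch_anti ((Fn.rfl _).pair (Fn.rfl _))).trans_eq e2.symm))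
  · simp only [Cx, Prod.mk.injEq] at e
    have e1 := abs_sub_lt_of_fl1_eq e.1
    rw [cl, cl, e.2.1, ← sub_div, abs_div, abs_of_pos (show (0 : ℝ) < 2 ^ j n by positivity),
      div_lt_iff₀ (by positivity)] at e1
    push_cast at e1
    have e2 := cut (x n + j n) (C n u.2)
    have e3 := cut (x n + j n) (C n v.2)
    have e4 := inv_le (Nat.add_le_add_left (hs n) (x n))
    have e5 : |(fl1 (x n + j n) (C n u.2) : ℝ) / 2 ^ (x n + j n) -
        fl1 (x n + j n) (C n v.2) / 2 ^ (x n + j n)| ≤ (2 ^ (x n + s n))⁻¹ := by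
      rw [← sub_div, abs_div, abs_of_pos (show (0 : ℝ) < 2 ^ (x n + j n) by positivity),
        div_le_iff₀ (by positivity)]
      exact (congrArg abs (by ring)).trans_le (e1.le.trans_eq (by field_simp; ring))
    rw [two_div]
    exact abs_le.2 ⟨by linarith [(abs_le.1 e5).1], by linarith [(abs_le.1 e5).2]⟩

theorem core (hM : Big M) (hL : Sub M L) (hκ : 0 ≤ κ) (hγ : 0 ≤ γ) (h0 : 0 ≤ η) (h1 : η ≤ 1)
    (hη : 1 + η ≤ γ + κ) (hb : ∀ᶠ n in UF, Fn (P n) (fun ω => (A n ω, B n ω))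
      (fun ω => (l n ω, K n ω)) ∧ ∀ ω ∈ (P n).S, |B n ω| ≤ L n ∧ |C n ω| ≤ L n ∧
        |A' n ω - (A n ω + C n ω * B n ω)| ≤ L n / 2 ^ M n)
    (hp : Sm M fun n => ch (P n) (fun ω => (K n ω, fl1 (M n) (C n ω), fl1 (M n) (A' n ω))) (p n))
    (hC : ∀ x s : ℕ → ℕ, (∀ n, x n + s n ≤ M n) → PB P (fun n => ph (K n) (l n) (C n) (x n))
      (fun n ω => fl1 (x n + s n) (C n ω)) M fun n => κ * s n * lg)
    {u : ℕ → ℕ} {N X I : ℕ} {S : Finset ℕ} (hS : ∀ i ∈ S, i ≤ I) (hu : ∀ n, (X * N + I) * u n ≤ M n)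
    (hB : ∀ i ∈ S, ∀ t ≤ N, PB P (fun n ω => (fl1 (i * u n) (B n ω), p n ω))
      (fun n ω => fl1 (i * u n + t * u n) (B n ω)) M fun n => γ * (t * u n) * lg) :
    Le M (fun n => S.card * (X * (η * (N * u n * lg)))) fun n => S.card * (η *
      (mi (P n) (fun ω => (fl1 (M n) (C n ω), fl1 (M n) (A' n ω)))
        (fun ω => (fl1 (M n) (A n ω), fl1 (M n) (B n ω))) (K n) + I * u n * lg) +
      2 * (N * u n * lg) + X * (4 * ((γ + κ) * u n * lg))) + 2 * (X * (N * (N * u n * lg))) := by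
  have hyz : 4 * (1 / 2 : ℝ) ^ (1 - η) * (Real.exp (-(γ * lg)) * Real.exp (-(κ * lg))) ≤ 1 := by
    have e4 : (4 : ℝ) = Real.exp ((2 : ℕ) * lg) := by rw [← two_pow_eq]; norm_num
    rw [Real.rpow_def_of_pos (by norm_num), one_div, Real.log_inv, e4, ← Real.exp_add,
      ← Real.exp_add, ← Real.exp_add, Real.exp_le_one_iff]
    have := mul_le_mul_of_nonneg_right hη lg_pos.le
    unfold lg at *
    push_cast
    linarith
  have hm : ∀ k < X, ∀ i ∈ S, ∀ n, k * (N * u n) + N * u n + i * u n ≤ M n := fun k hk i hi n =>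
    le_trans (by nlinarith [Nat.mul_le_mul_right (N * u n) (Nat.succ_le_of_lt hk),
      Nat.mul_le_mul_right (u n) (hS i hi)]) (hu n)
  have c1 := (hL.const_mul hM (C := 5) (by norm_num)).log3 hM 1
  have c2 := (((((Sub.nat hM).pow 3).const_mul hM (C := 2 ^ 17 * (4 * 2) ^ 4 * (13 * 2) ^ 2)
    (by norm_num)).log.smul zero_le_two).add (hM.sm (Real.log (27 * 2) +
      5 * Real.log (2 * 2 + 3)))).add c1
  intro ε hε
  obtain ⟨δ, hδ, e⟩ : ∃ δ : ℝ, 0 < δ ∧ S.card * (2 + 6 * X) * δ ≤ ε :=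
    ⟨ε / (S.card * (2 + 6 * X) + 1), by positivity, by
      rw [← mul_div_assoc, div_le_iff₀ (by positivity)]; linarith⟩
  have w := fun (k : ℕ) (hk : k ∈ Finset.range X) (i : ℕ) (hi : i ∈ S) =>
    ((gd_grid (N := N) (β' := γ + κ) hγ (by linarith) hδ fun t ht => pbB (l := l) hM hL
      (hm k (Finset.mem_range.1 hk) i hi) (hb.mono fun _ b ω hω => ⟨(b.2 ω hω).1, (b.2 ω hω).2.2⟩)
      hp (hB i hi t ht)).and
    (gd_grid (N := N) (β' := γ + κ) hκ (by linarith) hδ fun t ht => pbC (A := A) (B := B)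
      (a := fun n => i * u n) (x := fun n => k * (N * u n)) (j := fun n => N * u n) hM
      (fun n => Nat.mul_le_mul_right (u n) ht) (by
        simpa only [Nat.cast_mul] using hC (fun n => k * (N * u n)) (fun n => t * u n) fun n => by
          have := hm k (Finset.mem_range.1 hk) i hi n
          have := Nat.mul_le_mul_right (u n) ht
          omega))) δ hδ
  filter_upwards [hb, c1 δ hδ, c2 δ hδ, (Finset.range X).eventually_all.2 fun k hk =>
    S.eventually_all.2 (w k hk)] with n b d1 d2 g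
  have l0 := lg_pos
  have t := tele (X := X) (N := N) (S := S) (y := η * ((N * u n : ℕ) * lg))
    (U := fun k i => ch (P n) (fun ω => (fl1 (M n) (A n ω), fl1 (M n) (B n ω)))
      (Th (K n) (A n) (B n) (C n) (k * (N * u n)) (i * u n)))
    (k := fun k i => ch (P n) (fun ω => fl1 (i * u n + N * u n) (B n ω))
      (Th (K n) (A n) (B n) (C n) (k * (N * u n)) (i * u n)))
    (g := fun k i => gq (P n) (K n) (l n) (A n) (B n) (C n) (k * (N * u n)) (i * u n)
      (N * u n)) (e := 4 * ((γ + κ) * u n * lg) + 6 * (δ * M n)) (G := (N * u n : ℕ) * lg)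
    (W := mi (P n) (fun ω => (fl1 (M n) (C n ω), fl1 (M n) (A' n ω)))
      (fun ω => (fl1 (M n) (A n ω), fl1 (M n) (B n ω))) (K n) + I * u n * lg + 2 * (δ * M n)) h0
    (fun k hk i hi => by
      have m := hm k hk i hi n
      have f := loc2 (K := K n) (R := Real.exp (δ * M n + (γ + κ) * u n * lg))
        (Real.one_le_exp (by positivity)) h0 h1 (Real.exp_pos _).le (Real.exp_pos _).le
        (Real.exp_le_one_iff.2 (neg_nonpos.2 (by positivity))) hyz (hL.1 n) m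
        (fun ω hω => (b.2 ω hω).2.1) b.1
      have m1 : ((N * u n : ℕ) : ℝ) ≤ M n := by exact_mod_cast (by omega : N * u n ≤ M n)
      have m2 := mul_le_mul (g k (Finset.mem_range.2 hk) i hi)
        ((mul_le_of_le_one_right (by positivity) lg_lt_one.le).trans m1) (by positivity) hδ.le
      rw [Real.log_exp] at f
      simp only [add_mul k, add_mul i, one_mul]
      linarith)
    (fun i hi => by
      have f := ends (K := K n) (x := X * (N * u n)) (a := i * u n) (hL.1 n)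
        (le_trans (by nlinarith [Nat.mul_le_mul_right (u n) (hS i hi)]) (hu n))
        fun ω hω => ⟨(b.2 ω hω).1, (b.2 ω hω).2.2⟩
      have m : ((i * u n : ℕ) : ℝ) ≤ I * u n := by
        exact_mod_cast Nat.mul_le_mul_right (u n) (hS i hi)
      simp only [zero_mul]
      linarith [mul_le_mul_of_nonneg_right m l0.le])
    (fun i _ => (sub_le_self _ (ch_nonneg _ _)).trans
      (ch_rf _ fun _ _ _ _ e => congrArg (·.2.2.1) e))
    fun k => ⟨fun _ _ h => gq_anti (Nat.mul_le_mul_right _ h), fun _ => ⟨ch_nonneg _ _, gq_le⟩⟩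
  have m3 := mul_le_mul_of_nonneg_right e (Nat.cast_nonneg (α := ℝ) (M n))
  have m4 := mul_le_of_le_one_left (show 0 ≤ S.card * (δ * M n) by positivity) h1
  push_cast at t
  linarith

end Pool.Agent.MP_5168f5_an.MX.PLA
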