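import Pool.Agent.MP_5168f5_an.MX.PB
import Pool.Agent.MP_5168f5_an.H17F.KG

/-! Points and lines in the plane: one window. -/

namespace Pool.Agent.MP_5168f5_an.MX.PLA

open H19 H17S H17F

/-! ### Two counting lemmas -/

theorem sum_anti {g : ℕ → ℝ} {G : ℝ} (h : Antitone g) (h0 : ∀ i, 0 ≤ g i ∧ g i ≤ G)
    (S : Finset ℕ) (N : ℕ) : ∑ i ∈ S, (g i - g (i + N)) ≤ N * G := by
  induction N with
  | zero => simp
  | succ N ih =>
    obtain ⟨I, hI⟩ := S.exists_nat_subset_range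
    have h1 := Finset.sum_le_sum_of_subset_of_nonneg (f := fun i => g (i + N) - g (i + 1 + N)) hI
      fun i _ _ => sub_nonneg.2 (h (by omega))
    rw [Finset.sum_range_sub' fun i => g (i + N)] at h1
    have h2 : ∑ i ∈ S, (g i - g (i + (N + 1))) =
        ∑ i ∈ S, (g i - g (i + N)) + ∑ i ∈ S, (g (i + N) - g (i + 1 + N)) := by
      rw [← Finset.sum_add_distrib]
      exact Finset.sum_congr rfl fun i _ => by rw [show i + (N + 1) = i + 1 + N by ring]; ring
    push_cast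
    linarith [(h0 (0 + N)).2, (h0 (I + N)).1]

theorem tele {X N : ℕ} {S : Finset ℕ} {U k g : ℕ → ℕ → ℝ} {η y e W G : ℝ} (hη : 0 ≤ η)
    (h : ∀ x < X, ∀ i ∈ S, y ≤ η * (U x i - U (x + 1) i) + 2 * (k x i - k (x + 1) i) +
      2 * (g x i - g x (i + N)) + e) (hU : ∀ i ∈ S, U 0 i - U X i ≤ W)
    (hk : ∀ i ∈ S, k 0 i - k X i ≤ G) (hg : ∀ x, Antitone (g x) ∧ ∀ i, 0 ≤ g x i ∧ g x i ≤ G) :
    S.card * (X * y) ≤ S.card * (η * W + 2 * G + X * e) + 2 * (X * (N * G)) := by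
  have h1 : ∀ i ∈ S, X * y ≤ η * W + 2 * G + X * e +
      2 * ∑ x ∈ Finset.range X, (g x i - g x (i + N)) := fun i hi => by
    have := Finset.sum_le_sum fun x (hx : x ∈ Finset.range X) => h x (Finset.mem_range.1 hx) i hi
    simp only [Finset.sum_add_distrib, ← Finset.mul_sum, Finset.sum_const, Finset.card_range,
      nsmul_eq_mul, Finset.sum_range_sub' fun x => U x i, Finset.sum_range_sub' fun x => k x i]
      at this
    linarith [mul_le_mul_of_nonneg_left (hU i hi) hη, hk i hi]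
  have h2 := Finset.sum_le_sum h1
  have h3 := Finset.sum_le_sum fun x (_ : x ∈ Finset.range X) => sum_anti (hg x).1 (hg x).2 S N
  rw [Finset.sum_add_distrib, ← Finset.mul_sum, ← Finset.mul_sum, Finset.sum_comm] at h2
  simp only [Finset.sum_const, Finset.card_range, nsmul_eq_mul] at h2 h3
  linarith

open Classical in
/-- Rising sun. -/
theorem sun {g : ℕ → ℝ} {Δ y : ℝ} {N I : ℕ} (h0 : 0 ≤ Δ) (h : ∀ i < I, g (i + 1) ≤ g i + Δ)
    (lo : ∀ k, I ≤ k → k ≤ I + N → y ≤ g k) (i : ℕ) (hi : i ≤ I + N) :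
    y ≤ g i + Δ * ((Finset.Ico i I).filter fun i => ∀ s ≤ N, g i ≤ g (i + s)).card := by
  induction hm : I - i using Nat.strong_induction_on generalizing i with
  | _ m ih =>
  rcases le_or_gt I i with k | k
  · exact (lo i k hi).trans (le_add_of_nonneg_right (by positivity))
  by_cases e : ∀ s ≤ N, g i ≤ g (i + s)
  · have := ih _ (by omega) (i + 1) (by omega) rfl
    rw [← Finset.insert_Ico_add_one_left_eq_Ico k, Finset.filter_insert, if_pos e,
      Finset.card_insert_of_notMem (by simp)]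
    push_cast
    linarith [h i k]
  · push Not at e
    obtain ⟨s, e1, e2⟩ := e
    have e3 : s ≠ 0 := fun z => by simp [z] at e2
    refine (ih _ (by omega) (i + s) (by omega) rfl).trans (add_le_add e2.le
      (mul_le_mul_of_nonneg_left (Nat.cast_le.2 (Finset.card_le_card
        (Finset.filter_subset_filter _ (Finset.Ico_subset_Ico_left (by omega))))) h0))

/-! ### Cells -/

variable {Ω T α β : Type} {P : FP Ω} (K : Ω → T) (A B C : Ω → ℝ)

/-- The height of the line over the left end of the cell of the abscissa. -/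
noncomputable def dd (x : ℕ) (ω : Ω) : ℝ := A ω + fl1 x (C ω) / 2 ^ x * B ω

/-- The tube of length `2^{-x}` and aperture `2^{-a}`. -/
noncomputable def Th (x a : ℕ) (ω : Ω) : T × ℤ × ℤ × ℤ :=
  (K ω, fl1 x (C ω), fl1 a (B ω), fl1 (x + a) (dd A B C x ω))

/-- The context of a window. -/
noncomputable def Cx (x a j : ℕ) (ω : Ω) : ℤ × T × ℤ × ℤ × ℤ :=
  (fl1 (x + j) (C ω), Th K A B C x a ω)

/-- The entropy of the digits of the height. -/
noncomputable def vv (P : FP Ω) (x a j : ℕ) : ℝ :=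
  ch P (fun ω => fl1 (x + j + a) (dd A B C (x + j) ω)) (Cx K A B C x a j)

variable {K A B C} {x x' a j m M : ℕ} {u v : Ω} {L : ℝ} {G : Ω → β}

theorem cut (x : ℕ) (c : ℝ) : 0 ≤ c - fl1 x c / 2 ^ x ∧ c - fl1 x c / 2 ^ x ≤ (2 ^ x)⁻¹ := by
  rw [div_eq_inv_mul]
  constructor <;> linarith [fl1_le x c, lt_fl1 x c]

theorem inv_le (h : x ≤ x') : ((2 : ℝ) ^ x')⁻¹ ≤ (2 ^ x)⁻¹ :=
  inv_anti₀ (by positivity) (pow_le_pow_right₀ one_le_two h)

theorem shift (h : x ≤ x') (hC : fl1 x' (C u) = fl1 x' (C v)) (hB : fl1 a (B u) = fl1 a (B v)) :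
    |dd A B C x' u - dd A B C x' v - (dd A B C x u - dd A B C x v)| ≤ (2 ^ (x + a))⁻¹ := by
  have e : dd A B C x' u - dd A B C x' v - (dd A B C x u - dd A B C x v) =
      (fl1 x' (C v) / 2 ^ x' - fl1 x (C v) / 2 ^ x) * (B u - B v) := by
    simp only [dd, hC, fl1_eq_of_le h hC]; ring
  rw [e, abs_mul, pow_add, mul_inv]
  refine mul_le_mul (abs_le.2 ⟨?_, ?_⟩) (abs_sub_lt_of_fl1_eq hB).le (abs_nonneg _) (by positivity)
  · linarith [(cut x (C v)).1, (cut x' (C v)).2, inv_le h]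
  · linarith [(cut x (C v)).2, (cut x' (C v)).1]

theorem two_div (m : ℕ) : (2 : ℝ) / 2 ^ m = (2 ^ m)⁻¹ + (2 ^ m)⁻¹ := by ring

theorem ch_Th (h : x ≤ x') : ch P (Th K A B C x a) (Th K A B C x' a) ≤ Real.log (2 * 2 + 3) := by
  refine (ch_mono (F' := fun ω => fl1 (x + a) (dd A B C x ω)) fun u _ v _ e => ?_).trans
    (ch_near1 zero_le_two fun u _ v _ e => ?_)
  · simp only [Th, Prod.mk.injEq] at e ⊢
    exact ⟨e.2.1, fl1_eq_of_le h e.2.2.1, e.2.2.2.1, e.1⟩
  · simp only [Th, Prod.mk.injEq] at e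
    have e1 := abs_le.1 (shift (A := A) h e.2.1 e.2.2.1)
    have e2 := abs_lt.1 (abs_sub_lt_of_fl1_eq e.2.2.2)
    have e3 := inv_le (Nat.add_le_add_right h a)
    rw [two_div]
    exact abs_le.2 ⟨by linarith, by linarith⟩

theorem osc (e : Cx K A B C x a j u = Cx K A B C x a j v) :
    |dd A B C (x + j) u - dd A B C (x + j) v| ≤ 2 / 2 ^ (x + a) := by
  simp only [Cx, Th, Prod.mk.injEq] at e
  have e1 := abs_le.1 (shift (A := A) (Nat.le_add_right x j) e.1 e.2.2.2.1)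
  have e2 := abs_lt.1 (abs_sub_lt_of_fl1_eq e.2.2.2.2)
  rw [two_div]
  exact abs_le.2 ⟨by linarith, by linarith⟩

theorem Th_anti {a' : ℕ} (h : a ≤ a') : Fn P (Th K A B C x a) (Th K A B C x a') := by
  intro u _ v _ e
  simp only [Th, Prod.mk.injEq] at e ⊢
  exact ⟨e.1, e.2.1, fl1_eq_of_le h e.2.2.1, fl1_eq_of_le (by omega) e.2.2.2⟩

theorem step (F : Ω → α) : ch P F (Th K A B C (x + j) a) ≤ ch P F (fun ω =>
    (fl1 (x + j + a) (dd A B C (x + j) ω), Cx K A B C x a j ω)) + Real.log (2 * 2 + 3) := by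
  refine (ch_drop F (Th K A B C x a) _).trans (add_le_add (ch_anti fun u _ v _ e => ?_)
    (ch_Th (Nat.le_add_right x j)))
  simp only [Cx, Th, Prod.mk.injEq] at e ⊢
  tauto

/-- The height is known from the line and the abscissa. -/
theorem ch_line (hL : 1 ≤ L) (hm : m ≤ M) (hC : ∀ ω ∈ P.S, |C ω| ≤ L)
    (hG : Fn P (fun ω => (fl1 M (A ω), fl1 M (B ω), fl1 x (C ω))) G) :
    ch P (fun ω => fl1 m (dd A B C x ω)) G ≤ Real.log (2 * (5 * L) + 3) := by
  refine ch_near1 (by linarith) fun u _ v hv e => ?_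
  have e0 := hG u ‹_› v hv e
  simp only [Prod.mk.injEq] at e0
  have e1 : dd A B C x u - dd A B C x v = A u - A v + fl1 x (C v) / 2 ^ x * (B u - B v) := by
    simp only [dd, e0.2.2]; ring
  have e2 : |(fl1 x (C v) : ℝ) / 2 ^ x| ≤ 2 * L := by
    have := inv_le (Nat.zero_le x)
    rw [pow_zero, inv_one] at this
    exact abs_le.2 ⟨by linarith [(cut x (C v)).2, (abs_le.1 (hC v hv)).1],
      by linarith [(cut x (C v)).1, (abs_le.1 (hC v hv)).2]⟩
  have e3 := mul_le_mul e2 (abs_sub_lt_of_fl1_eq e0.2.1).le (abs_nonneg _) (by linarith)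
  have e4 := inv_le hm
  have e5 : (0 : ℝ) < (2 ^ M)⁻¹ := by positivity
  rw [e1, div_eq_mul_inv (5 * L)]
  refine (abs_add_le _ _).trans ?_
  rw [abs_mul]
  nlinarith [abs_sub_lt_of_fl1_eq e0.1]

/-- The tube is known from the point and the slope. -/
theorem ch_point {A' : Ω → ℝ} (hL : 1 ≤ L) (hm : x + a ≤ M)
    (h : ∀ ω ∈ P.S, |B ω| ≤ L ∧ |A' ω - (A ω + C ω * B ω)| ≤ L / 2 ^ M)
    (hG : Fn P (fun ω => (K ω, fl1 M (C ω), fl1 M (A' ω), fl1 a (B ω))) G) :
    ch P (Th K A B C x a) G ≤ Real.log (2 * (5 * L) + 3) := by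
  refine (ch_mono (F' := fun ω => fl1 (x + a) (dd A B C x ω)) fun u hu v hv e => ?_).trans
    (ch_near1 (by linarith) fun u hu v hv e => ?_)
  · have e0 := hG u hu v hv (congrArg Prod.snd e)
    simp only [Th, Prod.mk.injEq] at e e0 ⊢
    exact ⟨e0.1, fl1_eq_of_le (by omega) e0.2.1, e0.2.2.2, e.1⟩
  have e0 := hG u hu v hv e
  simp only [Prod.mk.injEq] at e0
  have e1 : dd A B C x u - dd A B C x v = A' u - A' v - (A' u - (A u + C u * B u)) +
      (A' v - (A v + C v * B v)) - (C u - C v) * B u -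
      (C v - fl1 x (C v) / 2 ^ x) * (B u - B v) := by
    simp only [dd, fl1_eq_of_le (show x ≤ M by omega) e0.2.1]; ring
  have e2 := abs_le.1 ((abs_mul _ _).trans_le (mul_le_mul (abs_sub_lt_of_fl1_eq e0.2.1).le
    (h u hu).1 (abs_nonneg _) (by positivity)))
  have e3 := abs_le.1 ((abs_mul _ _).trans_le (mul_le_mul
    ((abs_of_nonneg (cut x (C v)).1).trans_le (cut x (C v)).2)
    (abs_sub_lt_of_fl1_eq e0.2.2.2).le (abs_nonneg _) (by positivity)))
  have e4 := abs_lt.1 (abs_sub_lt_of_fl1_eq e0.2.2.1)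
  have e5 := abs_le.1 (h u hu).2
  have e6 := abs_le.1 (h v hv).2
  have e7 := inv_le hm
  have e8 := mul_le_mul_of_nonneg_left e7 (zero_le_one.trans hL)
  have e9 := le_mul_of_one_le_left (show (0 : ℝ) ≤ (2 ^ (x + a))⁻¹ by positivity) hL
  rw [← mul_inv, ← pow_add] at e3
  rw [div_eq_mul_inv] at e5 e6 ⊢
  rw [e1]
  exact abs_le.2 ⟨by linarith, by linarith⟩

theorem stepU (hL : 1 ≤ L) (hm : x + j + a ≤ M) (hC : ∀ ω ∈ P.S, |C ω| ≤ L) :
    vv K A B C P x a j ≤ ch P (fun ω => (fl1 M (A ω), fl1 M (B ω))) (Th K A B C x a) -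
      ch P (fun ω => (fl1 M (A ω), fl1 M (B ω))) (Th K A B C (x + j) a) +
      (Real.log (2 * 2 + 3) + Real.log (2 * (5 * L) + 3)) := by
  have h1 := step (P := P) (K := K) (A := A) (B := B) (C := C) (x := x) (j := j) (a := a)
    fun ω => (fl1 M (A ω), fl1 M (B ω))
  have h2 := ch_symm (P := P) (fun ω => (fl1 M (A ω), fl1 M (B ω)))
    (fun ω => fl1 (x + j + a) (dd A B C (x + j) ω)) (Cx K A B C x a j)
  have h3 := ch_line (A := A) (B := B) (x := x + j) hL hm hC (G := fun ω =>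
    ((fl1 M (A ω), fl1 M (B ω)), Cx K A B C x a j ω)) fun u _ v _ e => by
      simp only [Cx, Prod.mk.injEq] at e ⊢; tauto
  have h4 : ch P (fun ω => (fl1 M (A ω), fl1 M (B ω))) (Cx K A B C x a j) ≤ _ :=
    ch_anti (Fn.snd _ (Th K A B C x a))
  unfold vv
  linarith

/-- The slope inside its cell. -/
noncomputable def bl (B : Ω → ℝ) (a : ℕ) (ω : Ω) : ℝ := Int.fract (2 ^ a * B ω)

/-- The difference of two abscissae in the same cell. -/
noncomputable def cl (C C' : Ω → ℝ) (x j : ℕ) (ω : Ω) : ℝ :=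
  ((fl1 (x + j) (C' ω) - fl1 (x + j) (C ω) : ℤ) : ℝ) / 2 ^ j

theorem fl_bl (s : ℕ) (ω : Ω) : fl1 s (bl B a ω) = fl1 (a + s) (B ω) - 2 ^ s * fl1 a (B ω) := by
  unfold bl fl1 Int.fract
  rw [← Int.floor_sub_intCast]
  congr 1
  push_cast
  ring

theorem loc {C' : Ω → ℝ} {η R y z : ℝ} (hR : 1 ≤ R) (h0 : 0 ≤ η) (h1 : η ≤ 1) (hy : 0 ≤ y)
    (hz : 0 ≤ z) (hz1 : z ≤ 1) (hyz : 4 * (1 / 2 : ℝ) ^ (1 - η) * (y * z) ≤ 1)
    (hC : ∀ ω ∈ P.S, fl1 x (C' ω) = fl1 x (C ω)) (hv : vv K A B C' P x a j ≤ vv K A B C P x a j) :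
    η * (j * lg) ≤ η * vv K A B C P x a j +
      2 * (ch P (fun ω => fl1 (a + j) (B ω)) (Th K A B C x a) -
        ch P (fun ω => fl1 (a + j) (B ω)) (Th K A B C (x + j) a)) +
      2 * (ch P (fun ω => fl1 (x + j) (C' ω)) (Cx K A B C x a j) -
        ch P (fun ω => fl1 (x + j) (C' ω)) (Cx K A B C x (a + j) j)) +
      pb P (fun ω => ¬(Gd P (Cx K A B C x a j) (bl B a) j R y ω ∧
        Gd P (Cx K A B C x a j) (cl C C' x j) j R z ω)) * (j * lg) +
      2 * Real.log (2 ^ 17 * (4 * 2) ^ 4 * (j + 1) ^ 3 * (13 * 2 * R) ^ 2) + Real.log (27 * 2) +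
      4 * Real.log (2 * 2 + 3) := by
  have f := fal1 P (Cx K A B C x a j) (fun ω => 2 ^ (x + a) * dd A B C (x + j) ω) (bl B a)
    (cl C C' x j) (fun ω => 2 ^ (x + a) * dd A B C (x + j) ω + cl C C' x j ω * bl B a ω) (R := j)
    one_le_two hR h0 h1 hy hz hz1 hyz (fun u _ v _ e => by
      rw [← mul_sub, abs_mul, abs_of_pos (by positivity), ← le_div_iff₀' (by positivity)]
      exact osc e) fun ω hω => by
    refine ⟨(Int.abs_fract.trans_le (Int.fract_lt_one _).le).trans one_le_two, ?_, by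
      rw [sub_self, abs_zero]; positivity⟩
    have e1 := Finset.mem_Ico.1 (fl1_mem_Ico (i := j) (hC ω hω))
    have e2 := Finset.mem_Ico.1 (fl1_mem_Ico (i := j) (rfl : fl1 x (C ω) = _))
    rw [cl, abs_div, abs_of_pos (show (0 : ℝ) < 2 ^ j by positivity), div_le_iff₀ (by positivity)]
    have e3 : (0 : ℤ) < 2 ^ j := by positivity
    exact_mod_cast (abs_le.2 ⟨by linarith, by linarith⟩ :
      |fl1 (x + j) (C' ω) - fl1 (x + j) (C ω)| ≤ 2 * 2 ^ j)
  have eA : ∀ ω, fl1 j (2 ^ (x + a) * dd A B C (x + j) ω) = fl1 (x + j + a) (dd A B C (x + j) ω) :=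
    fun ω => by unfold fl1; congr 1; ring
  have eC : ∀ ω, fl1 j (cl C C' x j ω) = fl1 (x + j) (C' ω) - fl1 (x + j) (C ω) := fun ω => by
    rw [cl, fl1, mul_div_cancel₀ _ (by positivity), Int.floor_intCast]
  have eD : ∀ ω, fl1 j (2 ^ (x + a) * dd A B C (x + j) ω + cl C C' x j ω * bl B a ω) =
      fl1 (x + j + a) (dd A B C' (x + j) ω) -
        (fl1 (x + j) (C' ω) - fl1 (x + j) (C ω)) * fl1 a (B ω) := fun ω => by
    rw [fl1, fl1.eq_1 (x + j + a), ← Int.floor_sub_intCast]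
    congr 1
    simp only [dd, cl, bl, Int.fract, ← fl1.eq_1 a]
    push_cast
    field_simp
    ring
  simp only [eA, eC, eD, fl_bl] at f
  have g1 : ch P (fun ω => fl1 (x + j + a) (dd A B C' (x + j) ω) -
      (fl1 (x + j) (C' ω) - fl1 (x + j) (C ω)) * fl1 a (B ω))
      (fun ω => (fl1 (x + j) (C' ω) - fl1 (x + j) (C ω), Cx K A B C x a j ω)) ≤
      vv K A B C' P x a j := ch_le (fun u _ v _ e => by
        simp only [Cx, Th, Prod.mk.injEq] at e
        simp only [e.1, e.2.1, e.2.2.2.2.2.1]) fun u hu v hv e => by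
      simp only [Cx, Th, dd, Prod.mk.injEq, hC u hu, hC v hv] at e ⊢
      exact ⟨by linarith [e.1, e.2.1], e.2.2⟩
  have g2 := mi_chain (P := P) (fun ω => fl1 (x + j + a) (dd A B C (x + j) ω))
    (fun ω => fl1 (a + j) (B ω) - 2 ^ j * fl1 a (B ω))
    (fun ω => fl1 (x + j) (C' ω) - fl1 (x + j) (C ω)) (Cx K A B C x a j)
  have g3 := mi_chain (P := P) (fun ω => fl1 (x + j) (C' ω) - fl1 (x + j) (C ω))
    (fun ω => fl1 (a + j) (B ω) - 2 ^ j * fl1 a (B ω))
    (fun ω => fl1 (x + j + a) (dd A B C (x + j) ω)) (Cx K A B C x a j)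
  rw [mi_symm _ fun ω => fl1 (a + j) (B ω) - 2 ^ j * fl1 a (B ω),
    mi_symm _ fun ω => fl1 (x + j + a) (dd A B C (x + j) ω)] at g3
  have g4 : mi P (fun ω => fl1 (x + j + a) (dd A B C (x + j) ω))
      (fun ω => fl1 (a + j) (B ω) - 2 ^ j * fl1 a (B ω)) (Cx K A B C x a j) ≤
      mi P (fun ω => fl1 (a + j) (B ω)) (fun ω => fl1 (x + j + a) (dd A B C (x + j) ω))
        (Cx K A B C x a j) := (mi_mono fun u _ v _ e => by
      simp only [Cx, Th, Prod.mk.injEq] at e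
      simp only [e.1, e.2.2.2.2.1]).trans_eq (mi_symm _ _ _)
  have g5 : mi P (fun ω => fl1 (x + j) (C' ω) - fl1 (x + j) (C ω)) (fun ω =>
      (fl1 (a + j) (B ω) - 2 ^ j * fl1 a (B ω), fl1 (x + j + a) (dd A B C (x + j) ω)))
      (Cx K A B C x a j) ≤ mi P (fun ω => fl1 (x + j) (C' ω)) (fun ω =>
        (fl1 (x + j + a) (dd A B C (x + j) ω), Cx K A B C x (a + j) j ω)) (Cx K A B C x a j) :=
    (mi_mono' fun u _ v _ e => by
      simp only [Cx, Prod.mk.injEq] at e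
      simp only [e.1, e.2.1]).trans (mi_mono fun u _ v _ e => by
      simp only [Cx, Th, Prod.mk.injEq] at e
      simp only [e.1.1, e.1.2.2.2.2.1, e.2.2.2.2.1])
  have g6 := step (P := P) (K := K) (A := A) (B := B) (C := C) (x := x) (j := j) (a := a)
    fun ω => fl1 (a + j) (B ω)
  have g7 : ch P (fun ω => fl1 (a + j) (B ω)) (Cx K A B C x a j) ≤ _ :=
    ch_anti (Fn.snd _ (Th K A B C x a))
  have g8 := ch_drop (P := P) (fun ω => fl1 (x + j) (C' ω))
    (fun ω => fl1 (x + j + a) (dd A B C (x + j) ω)) (Cx K A B C x (a + j) j)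
  have g9 : ch P (fun ω => fl1 (x + j + a) (dd A B C (x + j) ω)) (Cx K A B C x (a + j) j) ≤ _ :=
    ch_near1 zero_le_two fun u _ v _ e => (osc e).trans_eq (by congr 2; ring)
  have g0 : ch P (fun ω => fl1 (x + j) (C' ω)) (fun ω =>
      (fl1 (x + j + a) (dd A B C (x + j) ω), Cx K A B C x (a + j) j ω)) ≤
      ch P (fun ω => fl1 (x + j) (C' ω)) fun ω => ((fl1 (x + j + a) (dd A B C (x + j) ω),
        Cx K A B C x (a + j) j ω), Cx K A B C x a j ω) :=
    ch_anti ((Fn.rfl _).pair (Fn.right (((Fn.fst _ _)).pair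
      ((Th_anti (Nat.le_add_right a j)).right _)) _))
  unfold mi at g4 g5
  unfold mi vv at *
  linarith

end Pool.Agent.MP_5168f5_an.MX.PLA
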