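import Pool.Agent.MP_5168f5_an.MX.PLCore

/-! Points and lines in the plane share one unit of information. -/

namespace Pool.Agent.MP_5168f5_an.MX

open H19 H17S H17F Filter

namespace PLA

theorem det_prop {Ω T : Type} (P : FP Ω) (E : Ω → Prop) (Θ : Ω → T) : Det P E Θ 2 := by
  classical
  refine fun a _ => ⟨{True, False}, ?_, fun b _ _ => ?_⟩
  · exact_mod_cast Finset.card_le_two
  · by_cases h : E b <;> simp [h]

theorem cm_nest {Ω T α β : Type} {P : FP Ω} (Θ : Ω → T) {F : Ω → α} {G : Ω → β} (h : Fn P G F)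
    {ω : Ω} (hω : ω ∈ P.S) : Real.log (cm P (fun v => (G v, Θ v)) F ω) =
      Real.log (cm P Θ F ω) - Real.log (cm P Θ G ω) := by
  have e : cm P Θ (fun v => (F v, G v)) ω = cm P Θ F ω := le_antisymm
    (cm_mono hω ((Fn.fst _ _).left _)) (cm_mono hω ((Fn.fst _ _).pair (h.left _)))
  rw [← e, ← cm_chain Θ F G hω, Real.log_mul (cm_pos _ _ hω).ne' (cm_pos _ _ hω).ne']
  ring

variable {Ω T α : ℕ → Type} {P : ∀ n, FP (Ω n)} {Θ : ∀ n, Ω n → T n} {F : ∀ n, Ω n → α n}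
  {M : ℕ → ℕ} {L f : ℕ → ℝ}

theorem pb_ev (hM : Big M) {E : ∀ n, Ω n → Prop} (hE : Pos P E) (h : ∀ n, ∀ ω ∈ (P n).S,
    E n ω → Real.log (cm (P n) (Θ n) (F n) ω) ≤ -f n) : PB (fun n => cE (P n) (E n)) Θ F M f := by
  intro ε hε
  refine ((whp_low (F := E) (Θ := Θ) hM (B := fun _ => 2) (Eventually.of_forall fun n =>
    ⟨two_pos, det_prop _ _ _⟩) (half_pos hε)).cE hE).mono ?_
  filter_upwards [hE.sure, hM.sm (Real.log 2) _ (half_pos hε)] with n s m ω hω k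
  obtain ⟨a, b⟩ := s ω hω
  have c1 := cm_pos (Θ n) (E n) a
  have c2 := cm_pos (fun v => (E n v, Θ n v)) (F n) a
  have c := Real.log_le_log (mul_pos c1 c2) ((cm_chain (Θ n) (F n) (E n) a).trans_le
    (cm_mono a ((Fn.fst _ _).left _)))
  rw [Real.log_mul c1.ne' c2.ne'] at c
  rw [cm_cE _ _ a b]
  exact (Real.log_le_iff_le_exp c2).1 (by linarith [h n ω a b])

/-- Many levels from which the slope has rate `γ`. -/
theorem sel {B : ∀ n, Ω n → ℝ} {u : ℕ → ℕ} {γ δ : ℝ} {Z : ℕ} (N I : ℕ) (hM : Big M)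
    (hL : Sub M L) (hγ : 0 ≤ γ) (hδ : 0 ≤ δ) (hZ : 0 < Z) (hu : ∀ n, Z * u n ≤ M n)
    (hb : ∀ᶠ n in UF, ∀ ω ∈ (P n).S, |B n ω| ≤ L n)
    (h : ¬Le M (fun n => ch (P n) (fun ω => fl1 (I * u n) (B n ω)) (Θ n))
      fun n => γ * (I * u n) * lg + δ * M n) :
    ∃ (E : ∀ n, Ω n → Prop) (S : Finset ℕ), Pos P E ∧ (∀ i ∈ S, i ≤ I) ∧
      δ * Z ≤ γ * N + 2 + 2 * S.card ∧ ∀ i ∈ S, ∀ t ≤ N, PB (fun n => cE (P n) (E n))
        (fun n ω => (fl1 (i * u n) (B n ω), Θ n ω)) (fun n ω => fl1 (i * u n + t * u n) (B n ω)) M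
        fun n => γ * (t * u n) * lg := by
  classical
  have l0 := lg_pos
  have z0 : (0 : ℝ) < Z := by exact_mod_cast hZ
  have hu' : ∀ n, u n * lg ≤ 1 / Z * M n := fun n => by
    have : (Z : ℝ) * u n ≤ M n := by exact_mod_cast hu n
    rw [one_div, le_inv_mul_iff₀ z0]
    exact (mul_le_mul_of_nonneg_left (mul_le_of_le_one_right (by positivity) lg_lt_one.le)
      z0.le).trans this
  have d : ∀ᶠ n in UF, ∀ j, Det (P n) (fun ω => fl1 j (B n ω)) (Θ n) (2 * (2 * L n * 2 ^ j) + 3) :=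
    hb.mono fun n k j => det_near1 (by have := hL.pos n; positivity) fun a ha b hb _ =>
      (abs_sub _ _).trans (by
        rw [mul_div_cancel_right₀ _ (by positivity)]; linarith [k a ha, k b hb])
  set g : ∀ n, Ω n → ℕ → ℝ := fun n ω i =>
    -Real.log (cm (P n) (Θ n) (fun v => fl1 (i * u n) (B n v)) ω) - γ * (i * u n) * lg with hg
  have p1 := pos_light (C := I + 2) hM (by
    filter_upwards [d, (hL.const_mul hM (C := 7) (by norm_num)).2 1 one_pos] with n a b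
    refine ⟨by positivity, fun ω hω => (a _ ω hω).imp fun _ k => ⟨k.1.trans ?_, k.2⟩⟩
    have e1 : (2 : ℝ) ^ (I * u n) ≤ Real.exp (I * M n) := (two_pow_le_exp _).trans
      (Real.exp_le_exp.2 (by exact_mod_cast (Nat.mul_le_mul_left I
        ((Nat.le_mul_of_pos_left _ hZ).trans (hu n)))))
    have e2 : (1 : ℝ) ≤ L n * 2 ^ (I * u n) :=
      one_le_mul_of_one_le_of_one_le (hL.1 n) (one_le_pow₀ one_le_two)
    refine le_trans (b := 7 * L n * 2 ^ (I * u n)) (by linarith) ((mul_le_mul b e1 (by positivity)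
      (Real.exp_pos _).le).trans ?_)
    rw [← Real.exp_add, Real.exp_le_exp]
    linarith [Nat.cast_nonneg (α := ℝ) (M n)]) h
  have p2 := whp_low hM (ε := 1 / Z) (d.mono fun n k =>
    ⟨by have := hL.pos n; positivity, k 0⟩) (by positivity)
  have p3 := Whp.all (J := Fin I) fun i => whp_low (P := P) (B := fun n => 2 ^ u n)
    (Θ := fun n ω => (fl1 (i * u n) (B n ω), Θ n ω)) (ε := 1 / Z) hM
    (Eventually.of_forall fun n => ⟨by positivity, det_rf (u n) (Fn.fst _ _)⟩) (by positivity)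
  obtain ⟨S, hS⟩ := KSA.pig P _ (J := (Finset.Ico 0 I).powerset) (fun n ω =>
    ⟨(Finset.Ico 0 I).filter fun i => ∀ s ≤ N, g n ω i ≤ g n ω (i + s),
      Finset.mem_powerset.2 (Finset.filter_subset _ _)⟩) (p1.and (p2.and p3))
  refine ⟨_, S, hS, fun i hi => (Finset.mem_Ico.1 (Finset.mem_powerset.1 S.2 hi)).2.le, ?_,
    fun i hi t ht => pb_ev hM hS fun n ω hω k => ?_⟩
  · obtain ⟨n, ⟨ω, hω, ⟨a, b, c⟩, e⟩, m, m1⟩ := (hS.ex.and ((((hL.const_mul hM one_le_two).log3 hM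
      1) (1 / Z) (by positivity)).and (hM.ev 1))).exists
    have k := sun (g := g n ω) (Δ := 2 * (1 / Z * M n)) (y := δ * M n - γ * N * (1 / Z * M n))
      (N := N) (I := I) (by positivity) (fun i hi => by
        have := c ⟨i, hi⟩
        rw [cm_nest (Θ n) (fun _ _ _ _ e => fl1_eq_of_le (Nat.le_add_right _ _) e) hω,
          log_two_pow] at this
        simp only [hg, add_mul i, one_mul]
        push_cast
        nlinarith [hu' n, mul_nonneg hγ (mul_nonneg (Nat.cast_nonneg (α := ℝ) (u n)) l0.le)])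
      (fun k k1 k2 => by
        have e1 := Real.log_le_log (cm_pos (Θ n) (fun v => fl1 (k * u n) (B n v)) hω)
          (cm_mono (Y := fun v => fl1 (I * u n) (B n v)) hω fun _ _ _ _ e =>
            fl1_eq_of_le (Nat.mul_le_mul_right _ k1) (congrArg Prod.fst e))
        have e2 : (k : ℝ) ≤ I + N := by exact_mod_cast k2
        have e3 := mul_le_mul_of_nonneg_left e2
          (mul_nonneg hγ (mul_nonneg (Nat.cast_nonneg (α := ℝ) (u n)) l0.le))
        have e4 := mul_le_mul_of_nonneg_left (hu' n) (mul_nonneg hγ (Nat.cast_nonneg N))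
        simp only [hg]
        linarith) 0 (Nat.zero_le _)
    rw [show Finset.filter _ _ = S.1 from congrArg Subtype.val e] at k
    simp only [hg, zero_mul, Nat.cast_zero, mul_zero, sub_zero, pow_zero, mul_one] at k b
    refine le_of_mul_le_mul_right (a := 1 / Z * (M n : ℝ)) ?_
      (mul_pos (one_div_pos.2 z0) (one_pos.trans_le m1))
    have e5 : δ * Z * (1 / Z * M n) = δ * M n := by field_simp
    linarith
  · have := (Finset.mem_filter.1 ((congrArg Subtype.val k.2).ge hi)).2 t ht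
    rw [cm_nest (Θ n) (fun _ _ _ _ e => fl1_eq_of_le (Nat.le_add_right _ _) e) hω]
    simp only [hg, add_mul i] at this
    push_cast at this
    linarith

theorem pl0 {Λ Γ : ℕ → Type} {K : ∀ n, Ω n → T n} {l : ∀ n, Ω n → Λ n} {p : ∀ n, Ω n → Γ n}
    {A B C A' : ∀ n, Ω n → ℝ} {a : ℕ → ℕ} {κ γ ε : ℝ} (hM : Big M) (hL : Sub M L) (hκ : 0 ≤ κ)
    (hγ : 0 ≤ γ) (h1 : 1 < κ + γ) (hb : ∀ᶠ n in UF, Fn (P n) (fun ω => (A n ω, B n ω))
      (fun ω => (l n ω, K n ω)) ∧ ∀ ω ∈ (P n).S, |B n ω| ≤ L n ∧ |C n ω| ≤ L n ∧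
        |A' n ω - (A n ω + C n ω * B n ω)| ≤ L n / 2 ^ M n)
    (hp : Sm M fun n => ch (P n) (fun ω => (K n ω, fl1 (M n) (C n ω), fl1 (M n) (A' n ω))) (p n))
    (hC : ∀ x s : ℕ → ℕ, (∀ n, x n + s n ≤ M n) → PB P (fun n => ph (K n) (l n) (C n) (x n))
      (fun n ω => fl1 (x n + s n) (C n ω)) M fun n => κ * s n * lg) (hε : 0 < ε) (e1 : ε ≤ 1)
    (hR : ∀ E, Pos P E → Le M (fun n => mi (cE (P n) (E n))
      (fun ω => (fl1 (M n) (C n ω), fl1 (M n) (A' n ω)))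
      (fun ω => (fl1 (M n) (A n ω), fl1 (M n) (B n ω))) (K n))
      fun n => M n * lg - ε * M n + ε / 2 * M n) (ha : ∀ᶠ n in UF, (a n : ℝ) ≤ ε / 16 * M n)
    (hh : ¬Le M (fun n => ch (P n) (fun ω => fl1 (a n) (B n ω)) (p n)) fun n => γ * a n * lg) :
    False := by
  have l0 := lg_pos
  have l1 := lg_lt_one
  obtain ⟨δ, hδ, hh⟩ := not_Le hh
  obtain ⟨η, η0, η1, η2⟩ : ∃ η : ℝ, 0 < η ∧ η ≤ 1 ∧ 1 + η ≤ γ + κ :=
    ⟨min 1 (γ + κ - 1), lt_min one_pos (by linarith), min_le_left _ _,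
      by linarith [min_le_right 1 (γ + κ - 1)]⟩
  obtain ⟨N, hN⟩ := exists_nat_gt (8 * (4 * (γ + κ) + 2) / (η * ε))
  obtain ⟨Z, hZ⟩ := exists_nat_gt (48 * N / (η * ε) + 2 * (γ * N + 2 + 2 * N ^ 2) / δ)
  have n0 : (0 : ℝ) < N := lt_trans (by positivity) hN
  have z0 : (0 : ℝ) < Z := lt_trans (by positivity) hZ
  have z1 : 48 * N ≤ Z * (η * ε) := (div_le_iff₀ (by positivity)).1
    ((le_add_of_nonneg_right (by positivity)).trans hZ.le)
  have z2 : 2 * (γ * N + 2 + 2 * N ^ 2) ≤ Z * δ := (div_le_iff₀ hδ).1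
    ((le_add_of_nonneg_left (by positivity)).trans hZ.le)
  rw [div_lt_iff₀ (by positivity)] at hN
  have hu : ∀ n, Z * (M n / Z) ≤ M n := fun n => Nat.mul_div_le _ _
  have hu' : ∀ n, (Z : ℝ) * (M n / Z : ℕ) ≤ M n := fun n => by exact_mod_cast hu n
  have hv : ∀ n, (M n : ℝ) ≤ Z * (M n / Z : ℕ) + Z := fun n => by
    exact_mod_cast (Nat.lt_mul_div_succ (M n) (by exact_mod_cast z0 : 0 < Z)).le
  obtain ⟨⟨I, hI⟩, hI'⟩ := ev_ex (J := Fin (Z + 1)) (p := fun I n => a n / (M n / Z) = I ∧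
      0 < M n / Z) (by
    filter_upwards [ha, hM.ev (2 * Z)] with n b m
    have u1 : (1 : ℝ) ≤ (M n / Z : ℕ) := le_of_mul_le_mul_left (by linarith [hv n]) z0
    refine ⟨⟨a n / (M n / Z), Nat.lt_succ_of_le (Nat.div_le_of_le_mul ?_)⟩, rfl,
      by exact_mod_cast u1⟩
    exact_mod_cast (by nlinarith [hv n] : (a n : ℝ) ≤ (M n / Z : ℕ) * Z))
  have i1 : ∀ᶠ n in UF, I * (M n / Z) ≤ a n ∧ a n ≤ I * (M n / Z) + M n / Z :=
    hI'.mono fun n k => by
      rw [show I = a n / (M n / Z) from k.1.symm]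
      exact ⟨Nat.div_mul_le_self _ _, (Nat.lt_div_mul_add k.2).le⟩
  obtain ⟨E', S, hE', hS, hc, hG⟩ := sel (P := P) (Θ := p) (δ := δ / 2) N I
    hM hL hγ (by positivity) (by exact_mod_cast z0) hu
    (hb.mono fun n k ω hω => (k.2 ω hω).1) fun k => k.false hM (c := δ / 4)
      (by positivity) (by
    filter_upwards [hh, i1] with n b c
    have c1 := ch_tri (P := P n) (fun ω => fl1 (I * (M n / Z) + M n / Z) (B n ω))
      (fun ω => fl1 (I * (M n / Z)) (B n ω)) (p n)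
    have c2 := ch_rf (P := P n) (M n / Z)
      (Fn.fst (fun ω => fl1 (I * (M n / Z)) (B n ω)) (p n))
    have c3 : ch (P n) (fun ω => fl1 (a n) (B n ω)) (p n) ≤
        ch (P n) (fun ω => fl1 (I * (M n / Z) + M n / Z) (B n ω)) (p n) :=
      ch_mono fun _ _ _ _ e => fl1_eq_of_le c.2 (congrArg Prod.fst e)
    have c4 : (I : ℝ) * (M n / Z : ℕ) ≤ a n := by exact_mod_cast c.1
    have c5 := mul_le_mul_of_nonneg_left c4 (mul_nonneg hγ l0.le)
    have c6 : ((M n / Z : ℕ) : ℝ) * lg ≤ δ / 4 * M n :=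
      (mul_le_of_le_one_right (by positivity) l1.le).trans (by
        nlinarith [hu' n, Nat.cast_nonneg (α := ℝ) (M n / Z), mul_nonneg hγ n0.le])
    linarith)
  have s1 : (N : ℝ) ^ 2 ≤ S.card := by linarith
  have s0 : (0 : ℝ) < S.card := lt_of_lt_of_le (by positivity) s1
  have x1 : (Z - I) / N * N + I ≤ Z := by
    have := Nat.div_mul_le_self (Z - I) N
    omega
  have x2 : Z ≤ (Z - I) / N * N + N + I := by
    have := Nat.lt_div_mul_add (a := Z - I) (show 0 < N by exact_mod_cast n0)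
    omega
  generalize (Z - I) / N = X at x1 x2
  have k1 := (R4.K31.dnS_cE hE').sm_ch hp
  simp only [id] at k1
  have k := core (P := fun n => cE (P n) (E' n)) (K := K) (l := l) (A := A) (A' := A')
    (B := B) (C := C) (p := p) (u := fun n => M n / Z) (X := X) hM hL hκ hγ η0.le η1 η2
    (hb.mono fun n k => ⟨fn_cE k.1 _, fun ω hω => k.2 ω (cE_sub hω)⟩) k1
    (fun x s h => (hC x s h).cE hM hE')
    hS (fun n => (Nat.mul_le_mul_right _ x1).trans (hu n)) hG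
  refine (k.add ((hR _ hE').smul (mul_pos s0 η0).le)).false hM
    (c := S.card * (η * ε / 8)) (by positivity) ?_
  filter_upwards [ha, i1, hM.ev (16 * Z / ε)] with n b c m
  rw [div_le_iff₀ hε] at m
  obtain ⟨y, hy⟩ : ∃ y : ℝ, y = (M n / Z : ℕ) * lg := ⟨_, rfl⟩
  have y0 : 0 ≤ y := hy ▸ by positivity
  have y1 : Z * y ≤ M n := by nlinarith [hu' n, Nat.cast_nonneg (α := ℝ) (M n / Z)]
  have y2 : M n * lg ≤ Z * y + Z := by nlinarith [hv n]
  have y3 : I * y ≤ ε / 16 * M n := by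
    have c4 : (I : ℝ) * (M n / Z : ℕ) ≤ a n := by exact_mod_cast c.1
    nlinarith [mul_nonneg (Nat.cast_nonneg (α := ℝ) I) (Nat.cast_nonneg (α := ℝ) (M n / Z))]
  have x3 : (X : ℝ) * N + I ≤ Z := by exact_mod_cast x1
  have x4 : (Z : ℝ) ≤ X * N + N + I := by exact_mod_cast x2
  have y4 := mul_le_mul_of_nonneg_right x4 y0
  have y5 : N * (X * y) ≤ M n := by
    nlinarith [mul_le_mul_of_nonneg_right x3 y0, mul_nonneg (Nat.cast_nonneg (α := ℝ) I) y0]
  have y6 : (4 * (γ + κ) + 2) * (X * y) ≤ η * ε / 8 * M n := by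
    nlinarith [mul_le_mul_of_nonneg_right hN.le (show 0 ≤ X * y by positivity),
      mul_le_mul_of_nonneg_left y5 (mul_pos η0 hε).le]
  have y7 : 3 * (N * y) ≤ η * ε / 16 * M n := by
    nlinarith [mul_le_mul_of_nonneg_right z1 y0, mul_le_mul_of_nonneg_left y1 (mul_pos η0 hε).le]
  have y8 := mul_le_of_le_one_left (show 0 ≤ N * y by positivity) η1
  have y9 : η * (M n * lg - ε / 2 * M n + I * y) + 2 * (N * y) + (4 * (γ + κ) + 2) * (X * y) +
      η * ε / 8 * M n ≤ η * (X * (N * y)) := by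
    nlinarith [mul_le_mul_of_nonneg_left y2 η0.le, mul_le_mul_of_nonneg_left y3 η0.le,
      mul_le_mul_of_nonneg_left y4 η0.le, mul_le_mul_of_nonneg_left m η0.le]
  have y10 := mul_le_mul_of_nonneg_left y9 s0.le
  have y11 := mul_le_mul_of_nonneg_right s1 (show 0 ≤ X * y by positivity)
  simp only [mul_assoc _ _ lg, ← hy]
  linarith

end PLA

open PLA

theorem pl : PL := by
  intro Ω T Λ Γ P K l p A B C A' M L κ γ hM hL hκ hγ h1 hb hp hC hB
  by_contra hn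
  obtain ⟨ε, hε, hW⟩ := not_Le hn
  have e1 : ε ≤ 1 := by
    obtain ⟨n, a, b⟩ := (hW.and (hM.ev 1)).exists
    have := mi_nonneg (P := P n) (fun ω => (fl1 (M n) (C n ω), fl1 (M n) (A' n ω)))
      (fun ω => (fl1 (M n) (A n ω), fl1 (M n) (B n ω))) (K n)
    nlinarith [lg_lt_one]
  obtain ⟨E, hE, hR⟩ := rob P _ _ K M (fun n => M n * lg - ε * M n) lg (ε / 2) hM (half_pos hε)
    (Eventually.of_forall fun n => by nlinarith [Nat.cast_nonneg (α := ℝ) (M n)])
    (Le.of_ev (hW.mono fun n a => (lt_sub_iff_add_lt.2 a).le))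
  obtain ⟨E', hE', a, ha, hh⟩ := hB E hE (ε / 16) (by positivity)
  have k1 := (R4.K31.dnS_cE hE').sm_ch ((R4.K31.dnS_cE hE).sm_ch hp)
  simp only [id] at k1
  refine pl0 (P := fun n => cE (cE (P n) (E n)) (E' n)) (l := l) (A := A) hM hL hκ hγ h1
    (hb.mono fun n k => ⟨fn_cE (fn_cE k.1 _) _, fun ω hω => k.2 ω (cE_sub (cE_sub hω))⟩) k1
    (fun x s h => ((PB.of_rob (P := P) hM fun E hE => ?_).cE hM hE).cE hM hE') hε e1
    (fun E₁ h₁ => ?_) ha hh
  · have := hC E hE x (fun n => x n + s n) fun n => ⟨Nat.le_add_right _ _, h n⟩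
    simp only [Nat.cast_add, add_sub_cancel_left] at this
    exact this
  · simpa only [id] using hR _ _ _ ((R4.K31.dnS_cE h₁).trans (R4.K31.dnS_cE hE'))

end Pool.Agent.MP_5168f5_an.MX
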