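import Pool.Agent.MP_5168f5_an.MX.FroK
import Pool.Agent.MP_5168f5_an.R4.K31Dn

/-! Points and lines in the plane: statements. -/

namespace Pool.Agent.MP_5168f5_an.MX

open H19 H17S H17F Filter

/-- On a suitable event a bound on the information holds on all refinements. -/
def ROB : Prop := ∀ {Ω α β γ : ℕ → Type} (P : ∀ n, FP (Ω n)) (X : ∀ n, Ω n → α n)
  (Y : ∀ n, Ω n → β n) (K : ∀ n, Ω n → γ n) (M : ℕ → ℕ) (a : ℕ → ℝ) (C ε : ℝ), Big M → 0 < ε →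
  (∀ᶠ n in UF, a n ≤ C * M n) → Le M (fun n => mi (P n) (X n) (Y n) (K n)) a →
  ∃ E, Pos P E ∧ ∀ (W : ℕ → Type) (Q : ∀ n, FP (W n)) (ρ : ∀ n, W n → Ω n),
    R4.K31.DnS Q ρ (fun n => cE (P n) (E n)) → Le M (fun n => mi (Q n) (fun v => X n (ρ n v))
      (fun v => Y n (ρ n v)) fun v => K n (ρ n v)) fun n => a n + ε * M n

/-- The same for entropy. -/
def ROBh : Prop := ∀ {Ω α γ : ℕ → Type} (P : ∀ n, FP (Ω n)) (X : ∀ n, Ω n → α n)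
  (K : ∀ n, Ω n → γ n) (M : ℕ → ℕ) (a : ℕ → ℝ) (C ε : ℝ), Big M → 0 < ε →
  (∀ᶠ n in UF, a n ≤ C * M n) → Le M (fun n => ch (P n) (X n) (K n)) a →
  ∃ E, Pos P E ∧ ∀ (W : ℕ → Type) (Q : ∀ n, FP (W n)) (ρ : ∀ n, W n → Ω n),
    R4.K31.DnS Q ρ (fun n => cE (P n) (E n)) →
      Le M (fun n => ch (Q n) (fun v => X n (ρ n v)) fun v => K n (ρ n v)) fun n => a n + ε * M n

/-- The line `y = A + x B` and the point `(C, A')` on it.  Given the line the abscissa has rate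
`κ` on all events; given the point the slope has rate more than `γ` in some small caps.  If
`κ + γ > 1` the point and the line share one unit of information. -/
def PL : Prop := ∀ {Ω T Λ Γ : ℕ → Type} (P : ∀ n, FP (Ω n)) (K : ∀ n, Ω n → T n)
  (l : ∀ n, Ω n → Λ n) (p : ∀ n, Ω n → Γ n) (A B C A' : ∀ n, Ω n → ℝ) (M : ℕ → ℕ) (L : ℕ → ℝ)
  (κ γ : ℝ), Big M → Sub M L → 0 ≤ κ → 0 ≤ γ → 1 < κ + γ →
  (∀ᶠ n in UF, Fn (P n) (fun ω => (A n ω, B n ω)) (fun ω => (l n ω, K n ω)) ∧ ∀ ω ∈ (P n).S,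
    |B n ω| ≤ L n ∧ |C n ω| ≤ L n ∧ |A' n ω - (A n ω + C n ω * B n ω)| ≤ L n / 2 ^ M n) →
  Sm M (fun n => ch (P n) (fun ω => (K n ω, fl1 (M n) (C n ω), fl1 (M n) (A' n ω))) (p n)) →
  (∀ E, Pos P E → ∀ j j' : ℕ → ℕ, (∀ n, j n ≤ j' n ∧ j' n ≤ M n) →
    Le M (fun n => κ * (j' n - j n) * lg) fun n => ch (cE (P n) (E n))
      (fun ω => fl1 (j' n) (C n ω)) fun ω => (fl1 (j n) (C n ω), l n ω, K n ω)) →
  (∀ E, Pos P E → ∀ w : ℝ, 0 < w → ∃ E', Pos (fun n => cE (P n) (E n)) E' ∧ ∃ a : ℕ → ℕ,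
    (∀ᶠ n in UF, (a n : ℝ) ≤ w * M n) ∧ ¬Le M (fun n => ch (cE (cE (P n) (E n)) (E' n))
      (fun ω => fl1 (a n) (B n ω)) (p n)) fun n => γ * a n * lg) →
  Le M (fun n => M n * lg) fun n => mi (P n) (fun ω => (fl1 (M n) (C n ω), fl1 (M n) (A' n ω)))
    (fun ω => (fl1 (M n) (A n ω), fl1 (M n) (B n ω))) (K n)

end Pool.Agent.MP_5168f5_an.MX
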