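import Pool.Agent.MP_5168f5_an.MX.PSpec
import Pool.Agent.MP_5168f5_an.MX.TL

/-! On a suitable event, digits of large entropy have no popular value. -/

namespace Pool.Agent.MP_5168f5_an.MX

open H19 H17S H17F Filter R4.K31

section Fin

variable {Ω T α : Type} {P : FP Ω} {E : Ω → Prop} {Θ : Ω → T} {F : Ω → α}

theorem ch_heavy (h0 : ∃ ω ∈ P.S, E ω) {t : ℝ}
    (h : ∀ ω ∈ P.S, E ω → Real.exp (-t) < cm P Θ F ω) : ch (cE P E) F Θ ≤ t := by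
  have : ch (cE P E) F Θ ≤ Real.log (1 / Real.exp (-t)) := ch_det fun a ha => by
    obtain ⟨W, w1, w2⟩ := heavy P Θ F (Real.exp_pos (-t)) (cE_sub ha)
    exact ⟨W, w1, fun b hb e => w2 b (cE_sub hb) e (h b (cE_sub hb) ((mem_cE h0 b).1 hb).2)⟩
  rwa [one_div, ← Real.exp_neg, neg_neg, Real.log_exp] at this

theorem pb_rare (P : FP Ω) (Θ : Ω → T) (E : Ω → Prop) {m : ℝ} (hm : 0 ≤ m) :
    pb P (fun ω => E ω ∧ cm P Θ E ω ≤ m) ≤ m := by
  refine (pb_cv P Θ _).trans_le ((P.E_mono fun a ha => ?_).trans (P.E_const _).le)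
  refine (H39F.count (cv P Θ (Θ a)) E _ {True} hm fun v hv k => ?_).trans (by simp)
  obtain ⟨h1, h2⟩ := (mem_cv ha v).1 hv
  exact ⟨by simp [k.1], by rw [← h2]; exact k.2⟩

theorem pb_light {η ε κ : ℝ} (hε : 0 < ε) (hη : 0 ≤ η) (hκ : 0 < κ) (hE : κ ≤ pb P E)
    (h : ∀ ω ∈ P.S, E ω → cm P Θ F ω ≤ η) :
    pb (cE P E) (fun ω => ε < cm (cE P E) Θ F ω) ≤ η / ε / κ := by
  have h0 := ex_of_pb (hκ.trans_le hE)
  have h1 : pb (cE P E) (fun ω => ε < cm (cE P E) Θ F ω) ≤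
      pb (cE P E) fun ω => cm P Θ E ω ≤ η / ε := pb_mono fun ω hω k => by
    obtain ⟨a, b⟩ := (mem_cE h0 ω).1 hω
    rw [cm_cE _ _ a b] at k
    have c := (cm_chain Θ F E a).trans_le
      ((cm_mono a fun _ _ _ _ e => congrArg (·.1.1) e).trans (h ω a b))
    rw [le_div_iff₀ hε]
    nlinarith [cm_pos Θ E a]
  have h2 := (pb_cE P E _).trans_le (pb_rare P Θ E (div_nonneg hη hε.le))
  rw [le_div_iff₀ hκ]
  nlinarith [pb_nonneg (cE P E) fun ω => ε < cm (cE P E) Θ F ω]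

theorem cm_glue (P : FP Ω) (Θ : Ω → T) (F : Ω → α) {ε : ℝ} (hε : 0 < ε) :
    ε * pb P (fun ω => ¬cm P Θ F ω ≤ ε) ≤ pb (glue P P Θ Θ) fun v => F v.2 = F v.1 := by
  have e1 : pb (glue P P Θ Θ) (fun v => F v.2 = F v.1) = P.E fun a => cm P Θ F a := E_bind _ _ _
  rw [e1]
  unfold pb
  rw [← FP.E_mul]
  refine FP.E_mono _ fun ω hω => ?_
  split_ifs with k
  · rw [mul_one]; exact (not_le.1 k).le
  · rw [mul_zero]; exact (cm_pos Θ F hω).le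

end Fin

variable {Ω α β : ℕ → Type} {P : ∀ n, FP (Ω n)}

/-- Finitely many digits at once. -/
theorem levP (P : ∀ n, FP (Ω n)) {J : Type} [Finite J] (F : J → ∀ n, Ω n → α n)
    (G : J → ∀ n, Ω n → β n) {t : ℕ → ℝ} (ht : ∀ C, ∀ᶠ n in UF, C ≤ t n) :
    ∃ E, Pos P E ∧ ∀ ε : ℝ, 0 < ε → ∀ᶠ n in UF, ∀ j,
      t n ≤ ch (cE (P n) (E n)) (F j n) (G j n) →
        pb (cE (P n) (E n)) (fun ω => ε < cm (cE (P n) (E n)) (G j n) (F j n) ω) ≤ ε := by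
  obtain ⟨ι, κ, hκ, hE⟩ := KSA.pig (P := P) (E := fun _ _ => True) (J := J → Prop)
    (fun n ω j => cm (P n) (G j n) (F j n) ω ≤ Real.exp (-(t n / 2)))
    (Pos.of_ev (Eventually.of_forall fun _ _ _ => trivial))
  refine ⟨_, ⟨κ, hκ, hE⟩, fun ε hε => ?_⟩
  filter_upwards [hE, ht 1, ht (-2 * Real.log (ε * κ * ε))] with n a b c j k
  by_cases e : ι j
  · refine (pb_light hε (Real.exp_pos (-(t n / 2))).le hκ a fun ω _ u => ?_).trans ?_
    · rw [← u.2] at e; exact e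
    · rw [div_div, div_le_iff₀ (by positivity)]
      exact (Real.le_log_iff_exp_le (by positivity)).1 (by rw [mul_comm ε (ε * κ)]; linarith)
  · have := ch_heavy (Θ := G j n) (F := F j n) (t := t n / 2) (ex_of_pb (hκ.trans_le a))
      fun ω _ u => by rw [← u.2] at e; exact not_le.1 e
    linarith

/-- A variable that is not approximable has no popular cell. -/
theorem NA.cm {g : ∀ n, Ω n → ℝ} {j : ℕ → ℕ} {X : ∀ n, Ω n → β n}
    (h : NA P g (fun n => 1 / 2 ^ j n) X) {ε : ℝ} (hε : 0 < ε) :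
    Whp P fun n ω => cm (P n) (X n) (fun v => fl1 (j n) (g n v)) ω ≤ ε := fun δ hδ =>
  (h.copy g (ε * δ) (by positivity)).mono fun n u => le_of_mul_le_mul_left
    ((cm_glue _ _ _ hε).trans ((pb_mono fun v _ e =>
      not_le.2 ((abs_sub_lt_of_fl1_eq e).trans_eq (one_div _).symm)).trans u)) hε

variable {T : ℕ → Type}

/-- The digits on the mesh. -/
theorem brf (P : ∀ n, FP (Ω n)) (x : ∀ n, Pl (Ω n) (T n)) (s : ℕ → St) {m : ℕ} (hm : 0 < m)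
    (φ : ℕ → ℕ → ℕ) (hR : Big fun n => (s n).R) : ∃ E, Pos P E ∧ ∀ ε : ℝ, 0 < ε → ∀ᶠ n in UF,
      BrF (cE (P n) (E n)) (x n) (s n) m ((s n).R / m ^ 4) (φ n) ε := by
  let u n := (s n).R / m ^ 4
  let D (k : Fin (2 * m ^ 4 + 1)) (o : Bool) (n : ℕ) : ℕ :=
    if o then min (s n).X (s n).R + k * (m * u n) else (s n).X + k * u n - u n
  obtain ⟨E, hE, h⟩ := levP P
    (J := Fin (2 * m ^ 4 + 1) × Bool × Fin (2 * m ^ 4 + 1) × Fin (2 * m ^ 4 + 1))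
    (fun i n ω => fl1 ((s n).c0 + (s n).s1 + (s n).f0 + D i.1 i.2.1 n + i.2.2.2 * (m * u n) -
      ((s n).c0 + i.2.2.1 * u n) + u n) ((x n).tl ((s n).f0 + φ n i.2.2.1) ω))
    (fun i n => xx (x n) ((x n).Bx ((s n).Z
      (if i.2.1 then max (s n).R (D i.1 i.2.1 n) else D i.1 i.2.1 n) (D i.1 i.2.1 n))) (m * u n)
      ((s n).c0 + i.2.2.1 * u n) ((s n).f0 + φ n i.2.2.1)
      ((s n).c0 + (s n).s1 + (s n).f0 + D i.1 i.2.1 n + i.2.2.2 * (m * u n)))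
    (t := fun n => u n * lg / m ^ 2) fun C => by
      filter_upwards [(hR.frac (hR.frac_div (pow_pos hm 4))).ev (C * m ^ 2 / lg)] with n a
      rw [div_le_iff₀ lg_pos] at a
      exact (le_div_iff₀ (by positivity)).2 a
  refine ⟨E, hE, fun ε hε => (h ε hε).mono ?_⟩
  rintro n a m0 D0 ⟨k, hk, ⟨rfl, rfl⟩ | ⟨rfl, rfl⟩⟩ j hj d hd
  · exact a (⟨k, by omega⟩, true, ⟨j, by omega⟩, ⟨d, by omega⟩)
  · exact a (⟨k, by omega⟩, false, ⟨j, by omega⟩, ⟨d, by omega⟩)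

end Pool.Agent.MP_5168f5_an.MX
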