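import Pool.Agent.MP_5168f5_an.MX.PSpec

/-! Either many tilt digits are determined or the normal digits have the rate of the height. -/

namespace Pool.Agent.MP_5168f5_an.MX

open H19 H17S H17F Filter Finset

namespace PNGA

variable {Ω T β : Type} {P : FP Ω}

theorem ref {X : Ω → ℝ} {G : Ω → β} {j : ℕ} (i : ℕ) (h : Fn P (fun ω => fl1 j (X ω)) G) :
    ch P (fun ω => fl1 (j + i) (X ω)) G ≤ i * lg :=
  (ch_fl1_refine (j := fun _ => j) (i := fun _ => i) (fun _ _ _ _ _ => rfl)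
    (fun _ _ _ _ _ => rfl) h).trans (P.E_const _).le

variable (P) (x : Pl Ω T) (Y : Ω → β)

theorem be_le (w u i f D : ℕ) : be P x Y w u i f D ≤ u * lg :=
  ref u (((bx_c (p := nb w i f D)).left _).right _)

theorem ii_sum (w i f D0 n : ℕ) : ∑ d ∈ range n, ii P x Y w i f (D0 + d * w) ≤ w * lg := by
  let H : ℕ → ℝ := fun d => ch P (fun ω => fl1 (i + w) (x.z ω)) fun ω =>
    (Y ω, x.Bx (nb w i f (D0 + d * w)) ω)
  have h1 : ∀ d ∈ range n, ii P x Y w i f (D0 + d * w) ≤ H d - H (d + 1) := fun d _ => by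
    refine sub_le_sub_left (ch_anti ?_) _
    rw [show D0 + (d + 1) * w = D0 + d * w + w by ring]
    refine (Fn.snd _ _).pair ((Fn.fst _ _).pair (Fn.right (bx_mono ?_ ?_ ?_ ?_ ?_ ?_) _)) <;>
      simp only [nb] <;> omega
  refine (sum_le_sum h1).trans ?_
  rw [sum_range_sub']
  refine (sub_le_self _ (ch_nonneg _ _)).trans (ref w (Fn.right ?_ _))
  exact fun a ha b hb e => congrArg Prod.fst (bx_zg (p := nb w i f (D0 + 0 * w)) a ha b hb e)

theorem pck {A S : Finset ℕ} {b c : ℕ → ℝ} {W : ℕ} {v τ : ℝ} (hA : A ⊆ S) (hv : 0 ≤ v)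
    (hτ : 0 ≤ τ) (hb : ∀ j, b j ≤ v) (hc : ∀ j, 0 ≤ c j)
    (h : W * v + S.card * τ < ∑ j ∈ A, b j) : ∃ j ∈ A, τ ≤ b j ∧ W * c j ≤ ∑ j ∈ S, c j := by
  have h1 := sum_le_card_nsmul (A.filter fun j => τ ≤ b j) b v fun j _ => hb j
  have h2 := sum_le_card_nsmul (A.filter fun j => ¬τ ≤ b j) b τ fun j hj =>
    (not_le.1 (mem_filter.1 hj).2).le
  have h3 : ((A.filter fun j => ¬τ ≤ b j).card : ℝ) ≤ S.card := by
    exact_mod_cast card_le_card ((filter_subset _ _).trans hA)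
  have h4 := mul_le_mul_of_nonneg_right h3 hτ
  rw [← sum_filter_add_sum_filter_not A fun j => τ ≤ b j] at h
  rw [nsmul_eq_mul] at h1 h2
  have h5 : (W : ℝ) < (A.filter fun j => τ ≤ b j).card :=
    lt_of_mul_lt_mul_right (by linarith) hv
  obtain ⟨j, hj, hm⟩ := exists_min_image (A.filter fun j => τ ≤ b j) c
    (card_pos.1 (by exact_mod_cast (Nat.cast_nonneg W).trans_lt h5))
  refine ⟨j, (mem_filter.1 hj).1, (mem_filter.1 hj).2, ?_⟩
  have h6 := card_nsmul_le_sum _ c _ hm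
  rw [nsmul_eq_mul] at h6
  exact (mul_le_mul_of_nonneg_right h5.le (hc j)).trans (h6.trans
    (sum_le_sum_of_subset_of_nonneg ((filter_subset _ _).trans hA) fun j _ _ => hc j))

end PNGA

open PNGA in
theorem rowNG : SNG1 → SCor → SNG := by
  intro h1 h2 Ω T β P x Y w u c0 J c1 F E c D0 nD d1 W φ κ τ ε hφ hF hc hD hY hW hτ e0 e1 hκ hp hb
  have W0 : (0 : ℝ) < W := by exact_mod_cast hW
  have key : ∀ d, ∃ j ≤ J, d1 ≤ d → d < nD → κ - (u * lg + 4 * ε * w * lg + 1000) -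
      (∑ j ∈ range (J + 1), ii P x Y w (c0 + j * u) (φ j) (D0 + d * w)) / W ≤
      bb P x Y w (c0 + j * u) (φ j) (D0 + d * w) := fun d => by
    by_cases hd : d1 ≤ d ∧ d < nD
    · obtain ⟨j, hj, k1, k2⟩ := pck (S := range (J + 1)) (W := W) (v := u * lg)
        (b := fun j => be P x Y w u (c0 + j * u) (φ j) (D0 + d * w))
        (c := fun j => ii P x Y w (c0 + j * u) (φ j) (D0 + d * w)) (filter_subset _ _)
        (mul_nonneg (Nat.cast_nonneg _) lg_pos.le) hτ (fun j => be_le P x Y _ _ _ _ _)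
        (fun j => mi_nonneg _ _ _) (by
          have := hb d hd.1 hd.2
          rwa [card_range, ← mul_assoc, Nat.cast_add_one])
      rw [mem_filter, mem_range, Nat.lt_succ_iff] at hj
      refine ⟨j, hj.1, fun _ _ => ?_⟩
      have k3 := h2 P x Y w u (c0 + j * u) (φ j) (D0 + d * w) ε hj.2 e0 e1
        (hY.trans (fn_lz (Nat.le_add_right _ _) (hφ (Nat.zero_le _)))) (hp j hj.1 d hd.2 k1)
      rw [← le_div_iff₀' W0] at k2
      linarith [hκ j hj.1]
    · exact ⟨0, Nat.zero_le _, fun a b => absurd ⟨a, b⟩ hd⟩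
  choose jd hj hk using key
  have k1 := h1 P x Y w u c0 J c1 F E c D0 nD φ jd hφ hF hc hj hD hY
  have sub : Ico d1 nD ⊆ range nD := fun d hd => mem_range.2 (mem_Ico.1 hd).2
  have k2 := (sum_le_sum fun d hd => hk d (mem_Ico.1 hd).1 (mem_Ico.1 hd).2).trans
    (sum_le_sum_of_subset_of_nonneg sub fun d _ _ => ch_nonneg _ _)
  rw [sum_sub_distrib, sum_const, Nat.card_Ico, nsmul_eq_mul, ← sum_div] at k2
  have k3 : ∑ d ∈ Ico d1 nD, ∑ j ∈ range (J + 1), ii P x Y w (c0 + j * u) (φ j) (D0 + d * w)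
      ≤ (J + 1) * w * lg := by
    refine (sum_le_sum_of_subset_of_nonneg sub fun d _ _ =>
      sum_nonneg fun j _ => mi_nonneg _ _ _).trans ?_
    rw [sum_comm]
    refine (sum_le_card_nsmul _ _ _ fun j _ => ii_sum P x Y w _ _ D0 nD).trans (le_of_eq ?_)
    rw [card_range, nsmul_eq_mul, Nat.cast_add_one, mul_assoc]
  have k4 := div_le_div_of_nonneg_right k3 W0.le
  linarith

end Pool.Agent.MP_5168f5_an.MX
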