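import Pool.Agent.MP_5168f5_an.MX.PSpec

/-! The normal digits may be counted at any level. -/

namespace Pool.Agent.MP_5168f5_an.MX

open H19 H17S H17F Filter Finset

namespace PNG1A

variable {Ω T α β γ : Type} {P : FP Ω}

theorem ch_sub {F : Ω → α} {F' : Ω → β} (h : Fn P F F') (G : Ω → γ) :
    ch P F' (fun ω => (F ω, G ω)) = ch P F' G - ch P F G := by
  have a := ch_chain (P := P) F F' G
  have b : ch P (fun ω => (F ω, F' ω)) G = ch P F' G :=
    ch_congr ((h.pair (Fn.rfl _)).left _) ((Fn.snd F F').left _) (Fn.rfl _) (Fn.rfl _)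
  linarith

/-- The leak of the height and slope into the line. -/
noncomputable def lk (P : FP Ω) (x : Pl Ω T) (Y : Ω → β) (w i f a g D : ℕ) : ℝ :=
  ch P (x.zg a g) fun ω => (x.zg (i + w) f ω, Y ω, x.Bx (nb w i f D) ω)

theorem lk_anti (x : Pl Ω T) (Y : Ω → β) (w i f a g D : ℕ) :
    lk P x Y w i f a g (D + w) ≤ lk P x Y w i f a g D :=
  ch_anti ((Fn.fst _ _).pair ((((Fn.fst _ _).right _)).pair
    (((bx_mono (p := nb w i f (D + w)) (q := nb w i f D) rfl rfl (by simp only [nb]; omega)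
      (by simp only [nb]; omega) (by simp only [nb]; omega)
      (by simp only [nb]; omega)).right _).right _)))

/-- One step of the change of level. -/
theorem step (x : Pl Ω T) (Y : Ω → β) {w i f a g D : ℕ} (ha : i + w ≤ a) (hg : f ≤ g)
    {N : Ω → α} {C : Ω → γ} (hC : Fn P C fun ω => (N ω, x.zg a g ω, Y ω))
    (hN : ∀ {δ : Type} (G : Ω → δ), Fn P (x.Bx (nb w i f D)) G → Fn P (x.zg a g) G →
      ch P N G ≤ 40) :
    bb P x Y w i f D ≤ ch P (fun ω => fl1 (D + w) (x.nm a g ω)) C +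
      (lk P x Y w i f a g D - lk P x Y w i f a g (D + w)) + 120 := by
  have hm := bx_mono (P := P) (x := x) (p := nb w i f (D + w)) (q := nb w i f D) rfl rfl
    (by simp only [nb]; omega) (by simp only [nb]; omega) (by simp only [nb]; omega)
    (by simp only [nb]; omega)
  obtain ⟨G, hG⟩ : ∃ G, G = fun ω => (x.zg (i + w) f ω, Y ω, x.Bx (nb w i f D) ω) := ⟨_, rfl⟩
  have g1 : Fn P (x.zg (i + w) f) G := hG ▸ Fn.fst _ _
  have g2 : Fn P Y G := hG ▸ (Fn.fst _ _).right _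
  have g3 : Fn P (x.Bx (nb w i f D)) G := hG ▸ (Fn.snd _ _).right _
  obtain ⟨A, hA⟩ : ∃ A, A = fun ω => fl1 (D + w) (x.nm (i + w) f ω) := ⟨_, rfl⟩
  obtain ⟨A', hA'⟩ : ∃ A, A = fun ω => fl1 (D + w) (x.nm a g ω) := ⟨_, rfl⟩
  have a0 : bb P x Y w i f D ≤ ch P A G := by
    rw [hA, hG]
    refine ch_anti (Fn.pair (Fn.pair ((Fn.snd _ _).right _) ?_) ((Fn.fst _ _).pair
      ((Fn.fst _ _).right _)))
    exact (((Fn.comp Prod.snd (x.zg i f)).trans (bx_zg (p := nb w i f D))).left _).right _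
  have a1 := ch_symm (P := P) A (x.zg a g) G
  have a2 : lk P x Y w i f a g (D + w) ≤ ch P (x.zg a g) (fun ω => (A ω, G ω)) + 40 := by
    have b1 := ch_symm (P := P) A (x.zg a g)
      fun ω => (x.zg (i + w) f ω, Y ω, x.Bx (nb w i f (D + w)) ω)
    have b2 := ch_nonneg (P := P) A fun ω =>
      (x.zg a g ω, x.zg (i + w) f ω, Y ω, x.Bx (nb w i f (D + w)) ω)
    have b3 : ch P A (fun ω => (x.zg (i + w) f ω, Y ω, x.Bx (nb w i f (D + w)) ω)) ≤ 40 :=
      hA ▸ (ch_mono ((bx_D (p := xb w i f D)).left _)).trans (ch_bx (p := nb w i f (D + w))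
        (q := xb w i f D) ((Fn.snd _ _).right _) (Fn.fst _ _) (by simp only [Pm.Rd, nb, xb]; omega))
    have b4 : ch P (x.zg a g) (fun ω => (A ω, x.zg (i + w) f ω, Y ω, x.Bx (nb w i f (D + w)) ω)) ≤
        ch P (x.zg a g) fun ω => (A ω, G ω) := by
      rw [hG]
      exact ch_anti ((Fn.fst _ _).pair (Fn.right ((Fn.fst _ _).pair (((Fn.fst _ _).right _).pair
        ((hm.right _).right _))) _))
    unfold lk
    linarith
  have a3 := ch_tri (P := P) A A' fun ω => (x.zg a g ω, G ω)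
  have a4 : ch P A (fun ω => (A' ω, x.zg a g ω, G ω)) ≤ 40 := by
    have k1 := (Kn.of_fn (x := x) (G := fun ω => (A' ω, x.zg a g ω, G ω))
      ((g3.right _).right _)).move (q := ⟨a, g, D + w - f, D + w - f - i, 0, D - i⟩)
      ((Fn.fst _ _).right _) (by simp only [Pm.Rd, nb]; omega)
    have k2 := (k1.setD (D := D + w) (k1.cls (hA' ▸ Fn.fst _ _))).move (q := xb w i f D)
      ((g1.right _).right _) (by simp only [Pm.Rd, xb]; omega)
    have k3 := k2.D.ch (k := D + w) (u := 0) (by norm_num) le_rfl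
    rw [hA]
    refine k3.trans ?_
    norm_num
  have a5 := ch_tri (P := P) A' N fun ω => (x.zg a g ω, G ω)
  have a6 := hN (fun ω => (x.zg a g ω, G ω)) (g3.right _) (Fn.fst _ _)
  have a7 : ch P A' (fun ω => (N ω, x.zg a g ω, G ω)) ≤ ch P A' C := ch_anti (hC.trans
    ((Fn.fst _ _).pair (((Fn.fst _ _).right _).pair ((g2.right _).right _))))
  have a8 : lk P x Y w i f a g D = ch P (x.zg a g) G := hG ▸ rfl
  rw [← hA']
  linarith

/-- The leaks telescope in the depth. -/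
theorem lk_sum (x : Pl Ω T) (Y : Ω → β) {w i f a g c0 f0 : ℕ} (D0 nD : ℕ) (ha : i + w ≤ a)
    (hg : f ≤ g) (hi : c0 ≤ i) (hf : f0 ≤ f) (hY : Fn P Y (x.lz c0 f0)) :
    ∑ d ∈ range nD, (lk P x Y w i f a g (D0 + d * w) - lk P x Y w i f a g (D0 + d * w + w)) ≤
      (ch P (x.zg a g) Y - ch P (x.zg a g) (x.lz c0 f0)) -
        (ch P (x.zg (i + w) f) Y - ch P (x.zg (i + w) f) (x.lz c0 f0)) := by
  have e := sum_range_sub' (fun d => lk P x Y w i f a g (D0 + d * w)) nD
  simp only [Nat.add_mul, one_mul, ← add_assoc] at e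
  rw [e]
  have a1 := ch_sub (P := P) (fn_zg (x := x) ha hg) Y
  have a2 := ch_sub (P := P) (fn_zg (x := x) ha hg) (x.lz c0 f0)
  have a3 : lk P x Y w i f a g (D0 + 0 * w) ≤ ch P (x.zg a g) fun ω => (x.zg (i + w) f ω, Y ω) :=
    ch_anti ((Fn.fst _ _).pair ((Fn.fst _ _).right _))
  have a4 : ch P (x.zg a g) (fun ω => (x.zg (i + w) f ω, x.lz c0 f0 ω)) ≤
      lk P x Y w i f a g (D0 + nD * w) := ch_anti ((Fn.fst _ _).pair ((hY.right _).pair
        ((bx_lz (i := i + w) (f := f) (Nat.le_add_right _ _) le_rfl).trans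
          ((((Fn.comp Prod.fst (x.lz c0 f0)).right _)).pair (Fn.fst _ _)))))
  linarith

theorem climb (b L : ℕ → ℝ) (J : ℕ) (h : ∀ j < J, b j ≤ b (j + 1) + L j) (h0 : ∀ j < J, 0 ≤ L j)
    {j : ℕ} (hj : j ≤ J) : b j ≤ b J + ∑ k ∈ range J, L k := by
  induction J with
  | zero => obtain rfl := Nat.le_zero.1 hj; simp
  | succ J ih =>
    rw [sum_range_succ]
    have a1 := h J (Nat.lt_succ_self _)
    have a2 := h0 J (Nat.lt_succ_self _)
    rcases Nat.lt_or_ge j (J + 1) with u | u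
    · have := ih (fun k hk => h k (hk.trans (Nat.lt_succ_self _)))
        (fun k hk => h0 k (hk.trans (Nat.lt_succ_self _))) (Nat.le_of_lt_succ u)
      linarith
    · obtain rfl := le_antisymm hj u
      have := sum_nonneg (s := range J) (f := L) fun k hk =>
        h0 k ((mem_range.1 hk).trans (Nat.lt_succ_self _))
      linarith

end PNG1A

open PNG1A in
theorem rowNG1 : SNG1 := by
  intro Ω T β P x Y w u c0 J c1 F E c D0 nD φ jd hφ hF hc hj hD hY
  have hi : ∀ j, c0 + j * u + w ≤ c0 + (j + 1) * u + w := fun j => by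
    rw [Nat.add_mul]; omega
  obtain ⟨L, hL⟩ : ∃ L : ℕ → ℕ → ℝ, L = fun j D =>
    lk P x Y w (c0 + j * u) (φ j) (c0 + (j + 1) * u + w) (φ (j + 1)) D := ⟨_, rfl⟩
  obtain ⟨L', hL'⟩ : ∃ L : ℕ → ℝ, L = fun D => lk P x Y w (c0 + J * u) (φ J) c1 F D := ⟨_, rfl⟩
  obtain ⟨W, hW⟩ : ∃ W : ℕ → Ω → ℤ, W = fun D ω => fl1 D (x.nm c1 F ω) := ⟨_, rfl⟩
  obtain ⟨m, hm⟩ : ∃ m : ℕ → ℝ, m = fun j => ch P (x.zg (c0 + j * u + w) (φ j)) Y -
    ch P (x.zg (c0 + j * u + w) (φ j)) (x.lz c0 (φ 0)) := ⟨_, rfl⟩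
  have a1 : ∀ d ∈ range nD, bb P x Y w (c0 + jd d * u) (φ (jd d)) (D0 + d * w) ≤
      (ch P (W (D0 + (d + 1) * w)) (fun ω => (x.zg c1 F ω, Y ω)) -
        ch P (W (D0 + d * w)) fun ω => (x.zg c1 F ω, Y ω)) +
      (L' (D0 + d * w) - L' (D0 + d * w + w)) +
      ∑ j ∈ range J, (L j (D0 + d * w) - L j (D0 + d * w + w)) + 120 * (J + 1) := fun d _ => by
    have b1 := climb (fun j => bb P x Y w (c0 + j * u) (φ j) (D0 + d * w))
      (fun j => L j (D0 + d * w) - L j (D0 + d * w + w) + 120) J (fun j _ => by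
        have := step (P := P) x Y (D := D0 + d * w) (hi j) (hφ (Nat.le_succ j))
          (N := x.Bx (nb w (c0 + (j + 1) * u) (φ (j + 1)) (D0 + d * w)))
          (C := fun ω => (Y ω, x.Bx (nb w (c0 + (j + 1) * u) (φ (j + 1)) (D0 + d * w)) ω,
            fl1 (c0 + (j + 1) * u + w) (x.z ω)))
          (((Fn.snd _ _).right _).pair ((Fn.fst _ _).pair
            (((Fn.comp Prod.fst (x.zg _ (φ (j + 1)))).left _).right _)))
          fun G g1 g2 => ch_bx g1 ((fn_zg (Nat.le_add_right _ _) le_rfl).trans g2) (by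
            have := hi j
            have := hφ (Nat.le_succ j)
            simp only [Pm.Rd, nb, Nat.succ_eq_add_one] at *; omega)
        rw [hL]
        exact this.trans (le_of_eq (add_assoc _ _ _)))
      (fun j _ => by
        have := lk_anti (P := P) x Y w (c0 + j * u) (φ j) (c0 + (j + 1) * u + w) (φ (j + 1))
          (D0 + d * w)
        simp only [hL]; linarith) (hj d)
    have b2 := step (P := P) x Y (D := D0 + d * w) hc hF (N := W (D0 + d * w)) (Fn.rfl _)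
      fun G g1 g2 => by
        have := ((Kn.of_fn g1).move (q := ⟨c1, F, 0, 0, D0 + d * w, 0⟩) g2
          (by simp only [Pm.Rd, nb]; omega)).D.ch (k := D0 + d * w) (u := 0) (by norm_num) le_rfl
        rw [hW]
        refine this.trans ?_
        norm_num
    have b3 := ch_sub (P := P) (F := W (D0 + d * w)) (F' := W (D0 + (d + 1) * w))
      (hW ▸ fn_fl1 _ (by rw [Nat.add_mul]; omega)) fun ω => (x.zg c1 F ω, Y ω)
    rw [show D0 + (d + 1) * w = D0 + d * w + w by ring] at b3 ⊢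
    rw [sum_add_distrib, sum_const, card_range, nsmul_eq_mul] at b1
    simp only [hW, hL'] at b2 b3 ⊢
    linarith
  refine (sum_le_sum a1).trans ?_
  rw [sum_add_distrib, sum_add_distrib, sum_add_distrib, sum_comm, sum_const, card_range,
    nsmul_eq_mul, sum_range_sub fun d => ch P (W (D0 + d * w)) fun ω => (x.zg c1 F ω, Y ω)]
  have a2 : ∑ j ∈ range J, ∑ d ∈ range nD, (L j (D0 + d * w) - L j (D0 + d * w + w)) ≤
      m J - m 0 := by
    rw [← sum_range_sub m, hL, hm]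
    exact sum_le_sum fun j _ => lk_sum x Y D0 nD (hi j) (hφ (Nat.le_succ j))
      (Nat.le_add_right _ _) (hφ (Nat.zero_le _)) hY
  have a3 := lk_sum (P := P) x Y D0 nD hc hF (Nat.le_add_right _ _) (hφ (Nat.zero_le J)) hY
  have a4 : 0 ≤ m 0 := by
    rw [hm]; exact sub_nonneg.2 (ch_anti hY)
  have a5 := ch_nonneg (P := P) (W (D0 + 0 * w)) fun ω => (x.zg c1 F ω, Y ω)
  have a6 := ch_chain (P := P) (x.zg c1 F) (W (D0 + nD * w)) Y
  have a7 : ch P (fun ω => (x.zg c1 F ω, W (D0 + nD * w) ω)) Y ≤ ch P (x.Bx (lab c1 F E c)) Y :=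
    ch_mono (Fn.left ((bx_zg (p := lab c1 F E c)).pair (hW ▸ (fn_fl1 _ hD).trans
      (bx_D (p := lab c1 F E c)))) _)
  have a8 : (0 : ℝ) ≤ w * lg := mul_nonneg (Nat.cast_nonneg _) lg_pos.le
  have a9 : (0 : ℝ) ≤ (J + 1) * nD := by positivity
  simp only [hL', hm] at *
  linarith

end Pool.Agent.MP_5168f5_an.MX
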