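import Pool.Agent.MP_5168f5_an.MX.PSpec

/-! The case of few lateral directions and slow rotation: from one scale to sequences. -/

namespace Pool.Agent.MP_5168f5_an.MX

open H19 H17S H17F Filter Finset

namespace PP1A

theorem unif {A : Type} {h p : ℕ → A → Prop} (h0 : ∀ n, ∃ a, h n a)
    (H : ∀ a : ℕ → A, (∀ n, h n (a n)) → ∀ᶠ n in UF, p n (a n)) :
    ∀ᶠ n in UF, ∀ a, h n a → p n a := by
  have e : ∀ n, ∃ a, h n a ∧ (p n a → ∀ a, h n a → p n a) := fun n => by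
    by_cases c : ∀ a, h n a → p n a
    · exact (h0 n).imp fun a u => ⟨u, fun _ => c⟩
    · push Not at c
      obtain ⟨a, u, v⟩ := c
      exact ⟨a, u, fun w => absurd w v⟩
  choose a ha using e
  exact (H a fun n => (ha n).1).mono fun n w => (ha n).2 w

variable {Ω T : Type} {P : FP Ω} {x : Pl Ω T}

theorem drop (x : Pl Ω T) {c i : ℕ} (hc : c ≤ i) (k f : ℕ) :
    ch P (fun ω => fl1 k (x.z ω)) (fun ω => (x.l ω, fl1 i (x.z ω))) ≤
      ch P (fun ω => fl1 k (x.z ω)) (x.lz i f) +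
        ch P (fun ω => fl1 f (x.g ω)) fun ω => (x.l ω, fl1 c (x.z ω)) := by
  have h1 := ch_drop (P := P) (fun ω => fl1 k (x.z ω)) (fun ω => fl1 f (x.g ω))
    fun ω => (x.l ω, fl1 i (x.z ω))
  have h2 : ch P (fun ω => fl1 k (x.z ω)) (fun ω => (fl1 f (x.g ω), x.l ω, fl1 i (x.z ω))) ≤
      ch P (fun ω => fl1 k (x.z ω)) (x.lz i f) :=
    ch_anti fun a _ b _ q => by
      simp only [Prod.mk.injEq] at q
      simp only [Pl.lz, Pl.zg, q]
  have h3 : ch P (fun ω => fl1 f (x.g ω)) (fun ω => (x.l ω, fl1 i (x.z ω))) ≤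
      ch P (fun ω => fl1 f (x.g ω)) fun ω => (x.l ω, fl1 c (x.z ω)) :=
    ch_anti ((Fn.fst _ _).pair ((fn_fl1 x.z hc).right _))
  linarith

theorem hi_of {m R : ℕ} (hm : 0 < m) (h : m ^ 4 * m ^ 4 ≤ R) : R ≤ (m ^ 4 + 1) * (R / m ^ 4) := by
  have h0 : 0 < m ^ 4 := by positivity
  have h1 : m ^ 4 ≤ R / m ^ 4 := (Nat.le_div_iff_mul_le h0).2 h
  have h2 := Nat.div_add_mod R (m ^ 4)
  have h3 := Nat.mod_lt R h0
  rw [add_mul, one_mul]
  omega

end PP1A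

open PP1A in
theorem rowP1 : SP1f → SP1 := by
  intro H σ hσ
  obtain ⟨m, hm⟩ := exists_nat_ge (max 10 (40 / σ))
  have m10 : (10 : ℝ) ≤ m := (le_max_left _ _).trans hm
  refine ⟨m, by exact_mod_cast m10, ?_⟩
  intro Ω T P x s κ r b hs hB hr hr1 hb1 hb2 hX hrot hE
  have m0 : (0 : ℝ) < m := by linarith
  have mσ : 40 / (m : ℝ) ≤ σ := by
    have := (le_max_right _ _).trans hm
    rw [div_le_iff₀ hσ] at this
    rw [div_le_iff₀ m0]; linarith
  have hl := lg_pos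
  obtain ⟨δ, hδ⟩ : ∃ δ : ℝ, δ = lg / ((m : ℝ) ^ 9 * (m ^ 4 + 1)) := ⟨_, rfl⟩
  have δ0 : 0 < δ := by rw [hδ]; positivity
  have u1 := unif (h := fun n (a : ℕ × ℕ) => (s n).c0 ≤ a.1 ∧ a.1 ≤ a.2 ∧ a.2 ≤ (s n).c0 + (s n).R)
    (p := fun n a => κ * (a.2 - a.1 : ℝ) * lg ≤ ch (P n) (fun ω => fl1 a.2 ((x n).z ω))
      (fun ω => ((x n).l ω, fl1 a.1 ((x n).z ω))) + δ / 2 * (s n).R)
    (fun n => ⟨((s n).c0, (s n).c0), le_rfl, le_rfl, Nat.le_add_right _ _⟩)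
    fun a ha => hs.shd (fun n => (a n).1) (fun n => (a n).2) ha (δ / 2) (by positivity)
  have u2 := unif (h := fun n (a : ℕ) => a ≤ 3 * (s n).R)
    (p := fun n a => ch (P n) (fun ω => fl1 ((s n).s1 + a) ((x n).e1 ω)) ((x n).Bx (s n).S) ≤
      r * a * lg + δ * (s n).R)
    (fun n => ⟨0, Nat.zero_le _⟩) fun a ha => hE a ha δ δ0
  refine Eventually.choice (r := fun n D => min (s n).X (s n).R ≤ D ∧ D ≤ (s n).R + (s n).X ∧
    ls (P n) (x n) (s n) (max (s n).R D) D ≤ (r * (1 + b) + σ) * (s n).R * lg) ?_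
  filter_upwards [u1, u2, hX, hrot (δ / 2) (by positivity), hs.big.ev (4000 / δ),
    hs.big.ev ((m ^ 4 * m ^ 4 : ℕ) : ℝ), hB (1 / m) (by positivity)]
    with n a1 a2 a3 a4 a5 a6 a7
  have hi := hi_of (m := m) (by exact_mod_cast m0) (Nat.cast_le.1 a6)
  obtain ⟨u, hu⟩ : ∃ u, u = (s n).R / m ^ 4 := ⟨_, rfl⟩
  rw [← hu] at hi a7
  have hi' : ((s n).R : ℝ) / ((m : ℝ) ^ 4 + 1) ≤ u := by
    rw [div_le_iff₀' (by positivity)]; exact_mod_cast hi
  have F : Fn1 (P n) (x n) (s n) m u κ (δ * (s n).R) (1 / m) fun _ => 0 := by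
    refine ⟨by exact_mod_cast m10, hu ▸ Nat.mul_div_le _ _, hi, ?_, ?_, by positivity,
      by rw [one_div_mul_cancel m0.ne'], hs.k0, hs.k1, monotone_const, rfl,
      fun _ _ => Nat.zero_le _, fun j hj => ?_, a7⟩
    · rwa [div_le_iff₀' δ0] at a5
    · refine le_trans (le_of_eq ?_) (mul_le_mul_of_nonneg_right hi' hl.le)
      rw [hδ]; field_simp
    · have k1 := a1 ((s n).c0 + j * u, (s n).c0 + j * u + m * u)
        ⟨Nat.le_add_right _ _, Nat.le_add_right _ _, by omega⟩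
      have k2 := drop (P := P n) (x n) (c := (s n).c0) (i := (s n).c0 + j * u)
        (Nat.le_add_right _ _) ((s n).c0 + j * u + m * u) ((s n).f0 + 0)
      simp only [Nat.cast_add, Nat.cast_mul, add_sub_cancel_left] at k1
      linarith
  obtain ⟨D, d1, d2, d3⟩ := H (P n) (x n) (s n) m u κ _ _ r b F hr hr1 hb1 hb2 a3 a2
  refine ⟨D, d1, d2, d3.trans ?_⟩
  gcongr

end Pool.Agent.MP_5168f5_an.MX
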