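import Pool.Agent.MP_5168f5_an.MX.PSpec

/-! Slow rotation at one scale. -/

namespace Pool.Agent.MP_5168f5_an.MX

open H19 H17S H17F Finset

namespace PP1fA

variable {Ω T β γ δ : Type} {P : FP Ω} {x : Pl Ω T} {s : St}

/-- The upper label with a deeper lateral line and tilt depth `c`. -/
def qq (s : St) (m c : ℕ) : Pm :=
  ⟨s.c0 + s.R, s.f0 + s.X, s.c0 + s.s1 + m, s.s1 + m, s.c0 + s.R + (s.s1 + s.f0 + s.X), c⟩

/-- The entropy of the lateral direction. -/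
noncomputable def mu (P : FP Ω) (x : Pl Ω T) (s : St) (a : ℕ) : ℝ :=
  ch P (fun ω => fl1 (s.s1 + a) (x.e1 ω)) (x.Bx s.S)

/-- The entropy of the lower label, normalised. -/
noncomputable def CC (P : FP Ω) (x : Pl Ω T) (s : St) (D : ℕ) : ℝ :=
  ch P (x.Bx (s.Z (max s.R D) D)) (x.Bx s.S) - (max s.R D : ℕ) * lg - mu P x s (max s.R D)

theorem mu_sub {a b : ℕ} (h : a ≤ b) : ch P (fun ω => fl1 (s.s1 + b) (x.e1 ω))
    (fun ω => (fl1 (s.s1 + a) (x.e1 ω), x.Bx s.S ω)) ≤ mu P x s b - mu P x s a := by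
  have h1 := ch_chain (P := P) (fun ω => fl1 (s.s1 + a) (x.e1 ω))
    (fun ω => fl1 (s.s1 + b) (x.e1 ω)) (x.Bx s.S)
  have h2 : ch P (fun ω => (fl1 (s.s1 + a) (x.e1 ω), fl1 (s.s1 + b) (x.e1 ω))) (x.Bx s.S) ≤
      mu P x s b := ch_mono (((fn_fl1 _ (by omega)).left _).pair (Fn.fst _ _))
  rw [mu, mu] at *
  linarith

theorem mu_le {a b w : ℕ} (h : b ≤ a + w) : mu P x s b ≤ mu P x s a + w * lg + 4 := by
  have h1 := ch_tri (P := P) (fun ω => fl1 (s.s1 + b) (x.e1 ω))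
    (fun ω => fl1 (s.s1 + a) (x.e1 ω)) (x.Bx s.S)
  have h2 := (Cls.of_fn (Fn.fst (P := P) (fun ω => fl1 (s.s1 + a) (x.e1 ω)) (x.Bx s.S))).ch
    (k := s.s1 + b) (u := w) zero_le_one (by omega)
  rw [mu, mu]
  linarith

theorem chain (F : Ω → γ) (G : Ω → δ) (K : ℕ → Ω → β) (n : ℕ) :
    ch P F G ≤ ch P F (K 0) + ∑ j ∈ range n, ch P (K j) (K (j + 1)) + ch P (K n) G := by
  induction n with
  | zero => simpa using ch_tri' F G (K 0)
  | succ n ih =>
    rw [sum_range_succ]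
    linarith [ch_tri' (P := P) (K n) G (K (n + 1))]

theorem drop (F : Ω → γ) {Y : Ω → β} {G : Ω → δ} (h : Fn P Y G) :
    ch P (fun ω => (Y ω, F ω)) G ≤ ch P F G := ch_mono ((h.right _).pair (Fn.fst _ _))

theorem start : CC P x s (min s.X s.R) ≤ 40 - s.R * lg := by
  have h1 := ch_tri (P := P) (x.Bx (s.Z s.R (min s.X s.R))) (fun ω => fl1 (s.s1 + s.R) (x.e1 ω))
    (x.Bx s.S)
  have k := Kn.of_fn (Fn.snd (P := P) (fun ω => fl1 (s.s1 + s.R) (x.e1 ω)) (x.Bx s.S))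
  have h3 := ((k.setE (k.cls (Fn.fst _ _))).move (q := s.Z s.R (min s.X s.R))
    ((fn_zg (Nat.le_add_right _ _) (Nat.le_add_right _ _)).trans k.zg)
    (by simp only [Pm.Rd, lab, St.S, St.Z]; omega)).ch
  rw [CC, max_eq_left (min_le_right _ _), mu]
  linarith

theorem top {m0 e a c u : ℕ} {A : ℝ} (hc : c ≤ s.s1 + s.f0 + s.X + u)
    (h : ch P (fun ω => fl1 (s.s1 + (m0 + e)) (x.e1 ω))
      (fun ω => (fl1 (s.s1 + m0) (x.e1 ω), x.Bx s.S ω)) ≤ A) :
    ch P (x.Bx (qq s (m0 + e) c)) (fun ω => (x.Bx (s.Z m0 a) ω, x.Bx s.S ω))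
      ≤ e * lg + A + u * lg + 14 := by
  have k := Kn.of_fn (Fn.snd (P := P) (x.Bx (s.Z m0 a)) (x.Bx s.S))
  have k' := (Kn.of_fn (Fn.fst (P := P) (x.Bx (s.Z m0 a)) (x.Bx s.S))).move
    (q := ⟨s.c0 + s.R, s.f0 + s.X, s.c0 + s.s1 + m0, 0, 0, 0⟩) k.zg
    (by simp only [Pm.Rd, lab, St.Z]; omega)
  have a1 := ch_zero k.θ
  have a2 := ch_zero k.zg
  have a3 := k'.t.ch (k := s.c0 + s.s1 + (m0 + e)) (u := e) (by norm_num) (add_assoc _ _ _).ge
  have a4 := (ch_anti (F := fun ω => fl1 (s.s1 + (m0 + e)) (x.e1 ω))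
    (((bx_E (p := s.Z m0 a)).left _).pair (Fn.snd _ _))).trans h
  have a5 := ch_zero ((bx_D (P := P) (x := x) (p := s.S)).right (x.Bx (s.Z m0 a)))
  have a6 := k.c.ch (k := c) (u := u) zero_le_one hc
  have : ch P (x.Bx (qq s (m0 + e) c)) (fun ω => (x.Bx (s.Z m0 a) ω, x.Bx s.S ω)) ≤ _ :=
    (ch_subadd _ _ _).trans (add_le_add a1.le ((ch_subadd _ _ _).trans
      (add_le_add a2.le ((ch_subadd _ _ _).trans (add_le_add a3 ((ch_subadd _ _ _).trans
        (add_le_add a4 ((ch_subadd _ _ _).trans (add_le_add a5.le a6)))))))))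
  linarith

theorem step (Y : Ω → β) {w u i c D m' : ℕ} (h1 : i + w ≤ s.R) (h2 : c + i = s.s1 + s.f0 + D)
    (h3 : D + w ≤ s.R + s.X) (h4 : D + w ≤ m') (h5 : u ≤ i) :
    ch P (fun ω => (Y ω, x.Bx (qq s m' (c + u)) ω)) (fun ω => (Y ω, x.Bx (qq s m' c) ω)) ≤
      be P x Y w u (s.c0 + i) s.f0 (s.c0 + s.s1 + s.f0 + D) + 216 := by
  have f := Fn.snd (P := P) Y (x.Bx (qq s m' c))
  have z : ∀ j, j ≤ s.c0 + s.R → Fn P (x.zg j s.f0) (x.Bx (qq s m' c)) := fun j hj =>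
    (fn_zg hj (Nat.le_add_right _ _)).trans (bx_zg (p := qq s m' c))
  have a1 := ch_bx (q := nb w (s.c0 + i) s.f0 (s.c0 + s.s1 + s.f0 + D)) f
    ((z (s.c0 + i) (by omega)).trans f) (by simp only [Pm.Rd, nb, qq]; omega)
  have a2 := ch_bx (q := xb w (s.c0 + i) s.f0 (s.c0 + s.s1 + s.f0 + D)) f
    ((z (s.c0 + i + w) (by omega)).trans f) (by simp only [Pm.Rd, xb, qq]; omega)
  have a3 : ch P (xx x Y w (s.c0 + i) s.f0 (s.c0 + s.s1 + s.f0 + D))
      (fun ω => (Y ω, x.Bx (qq s m' c) ω)) ≤ _ :=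
    (drop _ (Fn.fst _ _)).trans ((ch_subadd _ _ _).trans (add_le_add a1 a2))
  have a4 := ch_tri' (P := P) (fun ω => fl1 (c + u) (x.tl s.f0 ω))
    (fun ω => (Y ω, x.Bx (qq s m' c) ω)) (xx x Y w (s.c0 + i) s.f0 (s.c0 + s.s1 + s.f0 + D))
  have a5 := ch_tri (P := P) (x.Bx (qq s m' (c + u))) (fun ω => fl1 (c + u) (x.tl s.f0 ω))
    fun ω => (Y ω, x.Bx (qq s m' c) ω)
  have f' := f.right fun ω => fl1 (c + u) (x.tl s.f0 ω)
  have k := Kn.of_fn f'
  have k1 := k.move (q := ⟨s.c0 + s.R, s.f0, 0, s.s1 + m', 0, 0⟩) ((z _ le_rfl).trans f')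
    (by simp only [Pm.Rd, qq]; omega)
  have k2 := (k1.setc (k1.cls (Fn.fst _ _))).move (q := ⟨s.c0 + s.R, s.f0 + s.X, 0, 0, 0, c + u⟩)
    k.zg (by simp only [Pm.Rd]; omega)
  have a6 : ch P (x.Bx (qq s m' (c + u))) _ ≤ _ := ((k.big (by norm_num)).setc k2.c).ch
  have e : s.c0 + s.s1 + s.f0 + D - (s.c0 + i) = c := by omega
  refine (drop _ (Fn.fst _ _)).trans ?_
  rw [be, e]
  linarith

theorem key {w u a d : ℕ} (u0 : 0 < u) (h1 : w ≤ s.R) (h2 : a + d * w + w ≤ s.R + s.X) :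
    CC P x s (a + d * w) - CC P x s a ≤ ∑ j ∈ (range ((s.R - w) / u + 1)).filter
      (fun j => j * u ≤ s.s1 + s.f0 + (a + d * w)), be P x (x.Bx (s.Z (max s.R a) a)) w u
        (s.c0 + j * u) s.f0 (s.c0 + s.s1 + s.f0 + a + d * w) + 2 * w * lg
          + u * lg + 216 * ((s.R - w) / u : ℕ) + 58 := by
  generalize hv : d * w = v at *
  obtain ⟨e, he⟩ := Nat.exists_eq_add_of_le (show max s.R a ≤ max s.R (a + v + w) by omega)
  obtain ⟨e1, he1⟩ := Nat.exists_eq_add_of_le (show max s.R a ≤ max s.R (a + v) by omega)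
  obtain ⟨n, n1, n2, n3⟩ : ∃ n, n ≤ (s.R - w) / u ∧ n * u ≤ s.s1 + s.f0 + (a + v) ∧
      s.s1 + s.f0 + (a + v) - n * u ≤ s.s1 + s.f0 + s.X + u := by
    have b1 := Nat.lt_div_mul_add (a := s.R - w) u0
    have b2 := Nat.lt_div_mul_add (a := s.s1 + s.f0 + (a + v)) u0
    rcases le_total ((s.R - w) / u) ((s.s1 + s.f0 + (a + v)) / u) with q | q
    · exact ⟨_, le_rfl, (Nat.le_div_iff_mul_le u0).1 q, by omega⟩
    · exact ⟨_, q, Nat.div_mul_le_self _ _, by omega⟩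
  have n4 := (Nat.le_div_iff_mul_le u0).1 n1
  have a1 := chain (P := P) (x.Bx (s.Z (max s.R (a + v)) (a + v)))
    (fun ω => (x.Bx (s.Z (max s.R a) a) ω, x.Bx s.S ω))
    (fun j ω => (x.Bx (s.Z (max s.R a) a) ω,
      x.Bx (qq s (max s.R a + e) (s.s1 + s.f0 + (a + v) - j * u)) ω)) n
  have f := Fn.snd (P := P) (x.Bx (s.Z (max s.R a) a))
    (x.Bx (qq s (max s.R a + e) (s.s1 + s.f0 + (a + v) - 0 * u)))
  have a2 := ch_bx (q := s.Z (max s.R (a + v)) (a + v)) f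
    (((fn_zg (Nat.le_add_right _ _) (Nat.le_add_right _ _)).trans (bx_zg (p := qq s _ _))).trans f)
    (by simp only [Pm.Rd, lab, St.Z, qq]; omega)
  have a3 := (drop _ (Fn.fst _ _)).trans (top (m0 := max s.R a) (e := e) (a := a) n3
    (mu_sub (P := P) (x := x) (Nat.le_add_right _ _)))
  have a4 := sum_le_sum (s := range n) fun j hj => by
    have b1 : (j + 1) * u ≤ n * u := Nat.mul_le_mul_right u (mem_range.1 hj)
    have b2 : (j + 1) * u = j * u + u := Nat.succ_mul j u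
    have := step (P := P) (x := x) (s := s) (x.Bx (s.Z (max s.R a) a)) (w := w) (u := u)
      (i := (j + 1) * u) (c := s.s1 + s.f0 + (a + v) - (j + 1) * u) (D := a + v)
      (m' := max s.R a + e) (by omega) (by omega) h2 (by omega) (by omega)
    rw [show s.s1 + s.f0 + (a + v) - (j + 1) * u + u = s.s1 + s.f0 + (a + v) - j * u by omega,
      ← add_assoc (s.c0 + s.s1 + s.f0)] at this
    exact this
  rw [sum_add_distrib, sum_const, card_range, nsmul_eq_mul] at a4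
  have a5 := (sum_range_succ' (fun j => be P x (x.Bx (s.Z (max s.R a) a)) w u (s.c0 + j * u) s.f0
    (s.c0 + s.s1 + s.f0 + a + v)) n).ge.trans (sum_le_sum_of_subset_of_nonneg
      (t := (range ((s.R - w) / u + 1)).filter fun j => j * u ≤ s.s1 + s.f0 + (a + v))
      (fun j hj => by
        have := Nat.lt_succ_iff.1 (mem_range.1 hj)
        exact mem_filter.2 ⟨mem_range.2 (by omega), (Nat.mul_le_mul_right u this).trans n2⟩)
      fun _ _ _ => ch_nonneg _ _)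
  have a6 : 0 ≤ be P x (x.Bx (s.Z (max s.R a) a)) w u (s.c0 + 0 * u) s.f0
    (s.c0 + s.s1 + s.f0 + a + v) := ch_nonneg _ _
  have a7 := ch_tri (P := P) (x.Bx (s.Z (max s.R (a + v)) (a + v))) (x.Bx (s.Z (max s.R a) a))
    (x.Bx s.S)
  have c1 : (e : ℝ) * lg ≤ (e1 + w) * lg :=
    mul_le_mul_of_nonneg_right (by exact_mod_cast (by omega : e ≤ e1 + w)) lg_pos.le
  have c2 := mu_le (P := P) (x := x) (s := s) (a := max s.R (a + v)) (b := max s.R a + e) (w := w)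
    (by omega)
  have c3 : (n : ℝ) ≤ ((s.R - w) / u : ℕ) := by exact_mod_cast n1
  have c4 : ((max s.R (a + v) : ℕ) : ℝ) = (max s.R a : ℕ) + e1 := by rw [he1, Nat.cast_add]
  rw [CC, CC, c4]
  linarith

end PP1fA

open PP1fA in
theorem rowP1f : SLs → SDef → SP1f := by
  intro hL hD Ω T P x s m u κ Λ ε r b h r1 r2 b1 b2 hX hE
  have l0 := lg_pos
  have m1 : (10 : ℝ) ≤ m := by exact_mod_cast h.m10
  have r0 : 0 ≤ r := by linarith [h.k1]
  have R0 : (0 : ℝ) ≤ s.R := Nat.cast_nonneg _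
  have X2 : s.X ≤ 2 * s.R := by exact_mod_cast (show (s.X : ℝ) ≤ 2 * s.R by nlinarith)
  have big := h.big
  have p4 : (1 : ℝ) ≤ m ^ 4 := one_le_pow₀ (by linarith)
  have p5 : (2 : ℝ) ≤ m ^ 5 := (by linarith : (2 : ℝ) ≤ m).trans (le_self_pow₀ (by linarith) (by simp))
  have sm : 2 * (m ^ 4 * Λ) ≤ u * lg := le_trans (by
    have : 0 ≤ (m : ℝ) ^ 4 * Λ := by positivity
    nlinarith) h.sml
  have uL : Λ ≤ m ^ 4 * Λ := le_mul_of_one_le_left (by linarith) p4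
  have u0 : 0 < u := Nat.pos_of_ne_zero fun e => by
    rw [e, Nat.cast_zero, zero_mul] at sm
    linarith
  have w1 : m * u ≤ s.R :=
    (Nat.mul_le_mul_right u (Nat.le_self_pow (by norm_num) m)).trans h.lo
  have w0 : 0 < m * u := Nat.mul_pos (by have := h.m10; omega) u0
  obtain ⟨k, hk, hm⟩ := exists_min_image (range ((s.R + s.X - min s.X s.R) / (m * u) + 1))
    (fun k => CC P x s (min s.X s.R + k * (m * u)) - 1 / m * (k * (m * u)) * lg) ⟨0, by simp⟩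
  have k1 := (Nat.le_div_iff_mul_le w0).1 (Nat.lt_succ_iff.1 (mem_range.1 hk))
  have k2 : k ≤ 2 * m ^ 4 := by
    have a1 := h.hi
    have a2 : k * m * u ≤ 2 * (m ^ 4 + 1) * u := by
      rw [mul_assoc, mul_assoc]; omega
    have a3 := (Nat.mul_le_mul_left k h.m10).trans (Nat.le_of_mul_le_mul_right a2 u0)
    have a4 : 1 ≤ m ^ 4 := by exact_mod_cast p4
    omega
  have d1 := hD P x s m u κ Λ ε _ (max s.R (min s.X s.R + k * (m * u)))
    (min s.X s.R + k * (m * u)) h ⟨k, k2, Or.inl ⟨rfl, rfl⟩⟩ (by omega) (by omega) fun d d1 d2 => by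
      have a1 := key (P := P) (x := x) u0 w1 d2
      have a2 := hm (k + d) (mem_range.2 (Nat.lt_succ_iff.2 ((Nat.le_div_iff_mul_le w0).2 (by
        rw [add_mul]; omega))))
      rw [add_mul k, ← add_assoc] at a2
      have a3 : (((s.R - m * u) / u : ℕ) : ℝ) ≤ m ^ 4 + 1 := by
        exact_mod_cast (Nat.div_le_div_right (Nat.sub_le _ _)).trans
          (Nat.div_le_of_le_mul (mul_comm u _ ▸ h.hi))
      have a4 : (1 / m : ℝ) * (d * (m * u)) * lg = d * (u * lg) := by field_simp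
      have a5 : (10 * m ^ 2 : ℝ) * (u * lg) ≤ d * (u * lg) :=
        mul_le_mul_of_nonneg_right (by exact_mod_cast d1) (by positivity)
      have a7 : 10 * (m * (u * lg)) ≤ m * (m * (u * lg)) := by gcongr
      have a8 : 10 * (u * lg) ≤ m * (u * lg) := by gcongr
      have a9 : 4000 * (m : ℝ) ^ 4 ≤ m ^ 4 * Λ := by nlinarith
      simp only [add_zero]
      simp only [Nat.cast_add, Nat.cast_mul] at a1 a2
      linarith
  have d2 := hm 0 (by simp)
  have d3 := start (P := P) (x := x) (s := s)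
  have d4 := hE (max s.R (min s.X s.R + k * (m * u))) (by omega)
  refine ⟨min s.X s.R + k * (m * u), Nat.le_add_right _ _, by omega, ?_⟩
  rw [ls, hL]
  rw [zero_mul, add_zero] at d2
  rw [CC, mu] at d2
  have e1 : (k * (m * u) : ℝ) ≤ 2 * s.R := by
    exact_mod_cast (by omega : k * (m * u) ≤ 2 * s.R)
  have e2 : ((min s.X s.R + k * (m * u) : ℕ) : ℝ) ≤ s.R + s.X := by
    exact_mod_cast (by omega : min s.X s.R + k * (m * u) ≤ s.R + s.X)
  have e3 : ((max s.R (min s.X s.R + k * (m * u)) : ℕ) : ℝ) + s.X ≤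
      (min s.X s.R + k * (m * u) : ℕ) + b * s.R := by
    rcases le_total s.X s.R with q | q
    · have : ((max s.R (min s.X s.R + k * (m * u)) : ℕ) : ℝ) + s.X ≤
          (min s.X s.R + k * (m * u) : ℕ) + s.R := by exact_mod_cast (by omega)
      nlinarith
    · rw [max_eq_right (by omega)]; linarith
  generalize ((max s.R (min s.X s.R + k * (m * u)) : ℕ) : ℝ) = t at *
  generalize ((min s.X s.R + k * (m * u) : ℕ) : ℝ) = D at *
  generalize (k * (m * u) : ℝ) = v at *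
  have i0 : (0 : ℝ) < 1 / m := by positivity
  have g1 := mul_le_mul_of_nonneg_right (mul_le_mul_of_nonneg_right r1 (sub_nonneg.2 e2)) l0.le
  have g2 := mul_le_mul_of_nonneg_right (mul_le_mul_of_nonneg_left e3 r0) l0.le
  have g3 := mul_le_mul_of_nonneg_right (mul_le_mul_of_nonneg_left e1 i0.le) l0.le
  have g4 : u * lg ≤ 1 / m * s.R * lg := by
    refine mul_le_mul_of_nonneg_right ?_ l0.le
    rw [one_div, le_inv_mul_iff₀ (by linarith)]
    exact_mod_cast w1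
  have g5 : 0 ≤ 1 / m * s.R * lg := by positivity
  simp only [Nat.cast_zero, zero_mul, mul_zero, sub_zero] at d2
  rw [div_eq_mul_one_div 30] at d1
  rw [div_eq_mul_one_div 40]
  linarith

end Pool.Agent.MP_5168f5_an.MX
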