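import Pool.Agent.MP_5168f5_an.MX.PSpec

/-! Few lateral directions, fast rotation, one scale. -/

namespace Pool.Agent.MP_5168f5_an.MX

open H19 H17S H17F Filter Finset

namespace PP2fA

variable {Ω T : Type} (P : FP Ω) (x : Pl Ω T) (s : St)

theorem step {u w Q a φ D DD : ℕ} (hQ : D + u ≤ Q) (hD : D ≤ s.R + s.X) (ha : a + w ≤ s.R)
    (hφ : a + w + 2 * u ≤ φ) (hφ' : φ ≤ s.X) (hDD : DD = s.c0 + s.s1 + s.f0 + (Q + a))
    (h : Q + a + w ≤ s.R + s.X) :
    ch P (fun ω => fl1 (s.s1 + s.f0 + (Q + u)) (x.tl (s.f0 + s.X) ω)) (x.Bx (s.C (Q - u) Q)) ≤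
      be P x (x.Bx (s.Z D D)) w u (s.c0 + a) (s.f0 + φ) DD + 130 := by
  have z : ∀ i f, i ≤ s.c0 + s.R → f ≤ s.f0 + s.X → Fn P (x.zg i f) (x.Bx (s.C (Q - u) Q)) :=
    fun i f hi hf => (fn_zg hi hf).trans (bx_zg (p := s.C (Q - u) Q))
  have a1 : ch P (x.Bx (s.Z D D)) (x.Bx (s.C (Q - u) Q)) ≤ 40 :=
    ch_bx (Fn.rfl _) (z _ _ (Nat.le_add_right _ _) (Nat.le_add_right _ _))
      (by simp only [Pm.Rd, lab, St.Z, St.C]; omega)
  have a2 : ch P (x.Bx (nb w (s.c0 + a) (s.f0 + φ) DD)) (x.Bx (s.C (Q - u) Q)) ≤ 40 :=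
    ch_bx (Fn.rfl _) (z (s.c0 + a) (s.f0 + φ) (by omega) (by omega))
      (by simp only [Pm.Rd, nb, St.C]; omega)
  have a3 : ch P (x.Bx (xb w (s.c0 + a) (s.f0 + φ) DD)) (x.Bx (s.C (Q - u) Q)) ≤ 40 :=
    ch_bx (Fn.rfl _) (z (s.c0 + a + w) (s.f0 + φ) (by omega) (by omega))
      (by simp only [Pm.Rd, xb, St.C]; omega)
  have a4 : ch P (xx x (x.Bx (s.Z D D)) w (s.c0 + a) (s.f0 + φ) DD) (x.Bx (s.C (Q - u) Q)) ≤ _ :=
    (ch_subadd _ _ _).trans (add_le_add a1 ((ch_subadd _ _ _).trans (add_le_add a2 a3)))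
  have e : DD - (s.c0 + a) + u = s.s1 + s.f0 + (Q + u) := by omega
  have a5 := ch_tri' (P := P) (fun ω => fl1 (s.s1 + s.f0 + (Q + u)) (x.tl (s.f0 + φ) ω))
    (x.Bx (s.C (Q - u) Q)) (xx x (x.Bx (s.Z D D)) w (s.c0 + a) (s.f0 + φ) DD)
  have a6 := ch_tri (P := P) (fun ω => fl1 (s.s1 + s.f0 + (Q + u)) (x.tl (s.f0 + s.X) ω))
    (fun ω => fl1 (s.s1 + s.f0 + (Q + u)) (x.tl (s.f0 + φ) ω)) (x.Bx (s.C (Q - u) Q))
  have g : ∀ f, f ≤ s.f0 + s.X → Fn P (fun ω => rn f (x.g ω)) (x.Bx (s.C (Q - u) Q)) :=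
    fun f hf => fn_rn fun a ha b hb e => congrArg Prod.snd (z 0 f (Nat.zero_le _) hf a ha b hb e)
  have c1 : Cls P (fun ω => (fl1 (s.s1 + s.f0 + (Q + u)) (x.tl (s.f0 + φ) ω),
      x.Bx (s.C (Q - u) Q) ω)) (x.tl (s.f0 + s.X)) (s.s1 + s.f0 + (Q + u)) (1 + 1) :=
    ((Cls.of_fn (Fn.fst _ _)).add ((((Cls.of_fn (bx_E (p := s.C (Q - u) Q))).mul
      (r := fun ω => rn (s.f0 + φ) (x.g ω) - rn (s.f0 + s.X) (x.g ω))
      (fun a ha b hb e => by
        have e1 := g (s.f0 + φ) (by omega) a ha b hb e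
        have e2 := g _ le_rfl a ha b hb e
        simp only at e1 e2 ⊢
        rw [e1, e2]) fun ω _ => rn_sub _ _ _).mono (by simp only [St.C]; omega) zero_le_one
        le_rfl).ctx (Fn.snd _ _))).congr fun ω _ => by simp only [Pl.tl]; ring
  have a7 := c1.ch (k := s.s1 + s.f0 + (Q + u)) (u := 0) (by norm_num) le_rfl
  rw [be, e]
  push_cast at a7
  linarith

theorem lat (h : s.R ≤ s.X) : ch P (x.Bx (s.Z s.R s.R)) (x.Bx s.S) ≤
    ch P (fun ω => fl1 (s.s1 + s.R) (x.e1 ω)) (x.Bx s.S) + 40 := by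
  have k := Kn.of_fn (P := P) (Fn.snd (fun ω => fl1 (s.s1 + s.R) (x.e1 ω)) (x.Bx s.S))
  have a1 := ((k.setE (k.cls (Fn.fst _ _))).move (q := s.Z s.R s.R)
    ((fn_zg (Nat.le_add_right _ _) (Nat.le_add_right _ _)).trans k.zg)
    (by simp only [Pm.Rd, lab, St.Z, St.S]; omega)).ch
  have a2 := ch_tri (P := P) (x.Bx (s.Z s.R s.R)) (fun ω => fl1 (s.s1 + s.R) (x.e1 ω)) (x.Bx s.S)
  linarith

theorem many {m u j0 k d : ℕ} {φ : ℕ → ℕ} (hu : 0 < u) (hm : 1 ≤ m) (hX : u ≤ s.X)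
    (hj : 1 ≤ j0) (hd : j0 ≤ d * m) (top : ∀ j, j * u + m * u ≤ s.R → φ j ≤ s.X)
    (hφ : ∀ j, j0 ≤ j → j * u + m * u + 2 * u ≤ φ j)
    (h : s.X + k * u - u + d * (m * u) + m * u ≤ s.R + s.X) :
    (k + (d * m - j0)) * u ≤ s.R ∧ ∑ i ∈ range (d * m - j0), (dd P x s u (k + i) - 130) ≤
      ∑ j ∈ (range ((s.R - m * u) / u + 1)).filter
        (fun j => j * u ≤ s.s1 + s.f0 + (s.X + k * u - u + d * (m * u))),
        be P x (x.Bx (s.Z (s.X + k * u - u) (s.X + k * u - u))) (m * u) u (s.c0 + j * u)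
          (s.f0 + φ j) (s.c0 + s.s1 + s.f0 + (s.X + k * u - u) + d * (m * u)) := by
  have mu : u ≤ m * u := Nat.le_mul_of_pos_left _ hm
  have id : ∀ i < d * m - j0, (d * m - 1 - i) * u + i * u + u = d * (m * u) := fun i hi => by
    rw [← add_mul, ← Nat.succ_mul, ← mul_assoc]
    congr 1; omega
  constructor
  · have h1 : (d * m - j0) * u + j0 * u = d * (m * u) := by
      rw [← add_mul, ← mul_assoc, Nat.sub_add_cancel hd]
    rw [add_mul]; omega
  refine le_trans ?_ (sum_le_sum_of_subset_of_nonneg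
    (s := (range (d * m - j0)).image fun i => d * m - 1 - i) (fun j hj => ?_)
    fun j _ _ => ch_nonneg _ _)
  · rw [sum_image fun a ha b hb e => by
      simp only [coe_range, Set.mem_Iio] at ha hb e; omega]
    refine sum_le_sum fun i hi => ?_
    have h1 := id i (mem_range.1 hi)
    have h2 := mem_range.1 hi
    have h3 : (d * m - 1 - i) * u + m * u ≤ s.R := by omega
    have h4 := step P x s (u := u) (w := m * u) (Q := s.X + (k + i) * u)
      (a := (d * m - 1 - i) * u) (φ := φ (d * m - 1 - i)) (D := s.X + k * u - u)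
      (DD := s.c0 + s.s1 + s.f0 + (s.X + k * u - u) + d * (m * u)) (by rw [add_mul]; omega)
      (by omega) h3 (hφ _ (by omega)) (top _ h3) (by rw [add_mul]; omega) (by rw [add_mul]; omega)
    rw [dd, show s.X + (k + i + 1) * u = s.X + (k + i) * u + u by ring]
    linarith
  · obtain ⟨i, hi, rfl⟩ := mem_image.1 hj
    have h1 := id i (mem_range.1 hi)
    exact mem_filter.2 ⟨mem_range.2 (Nat.lt_succ_of_le ((Nat.le_div_iff_mul_le hu).2 (by omega))),
      by omega⟩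

end PP2fA

open PP2fA in
theorem rowP2f : SLs → SMJ → SDef → SCnt → SP2f := by
  intro hL hM hD hC Ω T P x s m u j0 κ Λ ε r b φ h hr j1 j2 hφ hX hb hε hp he
  have hlg := lg_pos
  have m10 : (10 : ℝ) ≤ m := by exact_mod_cast h.m10
  have m1 : (1 : ℝ) ≤ m := by linarith
  have m0 : (0 : ℝ) < m := by linarith
  have L0 := h.big
  have p4 : (m : ℝ) ^ 4 * 3 ≤ m ^ 9 := by
    have : (m : ℝ) ^ 1 ≤ m ^ 5 := pow_le_pow_right₀ m1 (by norm_num)
    rw [show (m : ℝ) ^ 9 = m ^ 4 * m ^ 5 by ring]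
    exact mul_le_mul_of_nonneg_left (by linarith) (by positivity)
  have p1 : (m : ℝ) ^ 1 ≤ m ^ 4 := pow_le_pow_right₀ m1 (by norm_num)
  rw [pow_one] at p1
  have L1 : (m : ℝ) ^ 4 * 3 * Λ ≤ u * lg :=
    (mul_le_mul_of_nonneg_right p4 (by linarith)).trans h.sml
  have L2 : m * Λ ≤ u * lg := by nlinarith
  have L3 : Λ ≤ u * lg := by nlinarith
  have hu : 0 < u := Nat.pos_of_ne_zero fun e => by rw [e] at L3; simp at L3; linarith
  have n4 : 10 ≤ m ^ 4 := h.m10.trans (Nat.le_self_pow (by norm_num) m)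
  have uR : u < s.R := by nlinarith [h.lo]
  have lo : (m : ℝ) ^ 4 * u ≤ s.R := by exact_mod_cast h.lo
  set A : ℝ := s.R * lg / m with hA
  have uA : u * lg ≤ A := by
    rw [hA, le_div_iff₀ m0]
    nlinarith [mul_le_mul_of_nonneg_right p1 (Nat.cast_nonneg (α := ℝ) u)]
  obtain ⟨k, hk, kmin⟩ := exists_min_image (range (s.R / u + 1))
    (fun k => ∑ j ∈ range k, dd P x s u j - k * (u * lg / m)) ⟨0, by simp⟩
  have k1 : k ≤ s.R / u := Nat.lt_succ_iff.1 (mem_range.1 hk)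
  have k2 : k * u ≤ s.R := (Nat.le_div_iff_mul_le hu).1 k1
  have k3 : ∑ j ∈ range k, dd P x s u j ≤ A := by
    have h1 := kmin 0 (by simp)
    have h2 : (k : ℝ) * u ≤ s.R := by exact_mod_cast k2
    have h3 : k * (u * lg / m) ≤ A := by
      rw [hA, ← mul_div_assoc, ← mul_assoc]
      exact div_le_div_of_nonneg_right (mul_le_mul_of_nonneg_right h2 hlg.le) m0.le
    simp only [range_zero, sum_empty, Nat.cast_zero, zero_mul, sub_zero] at h1
    linarith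
  have k5 : k ≤ m ^ 4 + 1 := Nat.le_of_mul_le_mul_right (k2.trans h.hi) hu
  have k4 : (2 * k + 1 : ℝ) ≤ m ^ 4 * 3 := by
    have h2 : 2 * k + 1 ≤ m ^ 4 * 3 := by omega
    exact_mod_cast h2
  have d1 := hD P x s m u κ Λ ε φ (s.X + k * u - u) (s.X + k * u - u) h
    ⟨k, by omega, Or.inr ⟨rfl, rfl⟩⟩ (by omega) (by omega) fun d hd hd' => by
      have h0 : m ^ 2 * 10 ≤ m ^ 2 * m := Nat.mul_le_mul_left _ h.m10
      have h1 : 10 * m ^ 2 * m ≤ d * m := Nat.mul_le_mul_right _ hd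
      have h2 : j0 + 9 * (m ^ 2 * m) ≤ d * m := by rw [mul_assoc] at h1; omega
      obtain ⟨b1, b2⟩ := many P x s (k := k) (d := d) hu (by linarith [h.m10]) (by omega) j1
        (by omega) h.top hφ hd'
      refine lt_of_lt_of_le ?_ b2
      have h3 := kmin (k + (d * m - j0))
        (mem_range.2 (Nat.lt_succ_of_le ((Nat.le_div_iff_mul_le hu).2 b1)))
      have h4 : (9 * (m ^ 2 * m) : ℝ) ≤ (d * m - j0 : ℕ) := by
        exact_mod_cast (by omega : 9 * (m ^ 2 * m) ≤ d * m - j0)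
      generalize d * m - j0 = N at *
      simp only [sum_range_add, Nat.cast_add] at h3
      rw [sum_sub_distrib, sum_const, card_range, nsmul_eq_mul]
      have h5 : Λ ≤ u * lg / m := by rw [le_div_iff₀ m0]; linarith
      have h6 : (u : ℝ) * lg = m * (u * lg / m) := by field_simp
      have h7 : (3 : ℝ) * m ^ 2 * u * lg = 3 * (m ^ 2 * m) * (u * lg / m) := by field_simp
      rw [h7]
      generalize u * lg / m = v at *
      have h8 : (0 : ℝ) < m ^ 2 * m := by positivity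
      nlinarith
  have c1 := hC P x s u k ε hu hX uR k2 h.e0 (by nlinarith [h.e1, h.e0]) hp
  refine ⟨s.X + k * u - u, by omega, by omega, by omega, ?_⟩
  have hD1 : s.R ≤ s.X + k * u - u := by omega
  have hD2 : (s.X : ℝ) ≤ (s.X + k * u - u : ℕ) + u := by exact_mod_cast (by omega : s.X ≤ _ + u)
  have hD3 : ((s.X + k * u - u : ℕ) : ℝ) ≤ s.R + s.X := by
    exact_mod_cast (by omega : s.X + k * u - u ≤ s.R + s.X)
  generalize s.X + k * u - u = D at *
  have f1 : Fn P (x.Bx (s.Z s.R s.R)) (x.Bx (s.Z D D)) := bx_mono rfl rfl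
    (by simp only [lab, St.Z]; omega) (by simp only [lab, St.Z]; omega)
    (by simp only [lab, St.Z]; omega) (by simp only [lab, St.Z]; omega)
  have e1 := hM P (x.Bx s.S) _ _ f1
  have e2 := ch_tri (P := P) (x.Bx (s.Z D D)) (x.Bx (s.Z s.R s.R)) (x.Bx s.S)
  have e3 : ch P (x.Bx (s.Z D D)) (fun ω => (x.Bx (s.Z s.R s.R) ω, x.Bx s.S ω)) ≤
      ch P (x.Bx (s.Z D D)) fun ω => (x.Bx s.S ω, x.Bx (s.Z s.R s.R) ω) :=
    ch_anti ((Fn.snd _ _).pair (Fn.fst _ _))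
  have e4 := lat P x s (by omega)
  have e5 : (1 - κ) * (s.R + s.X - D : ℝ) * lg ≤ r * s.R * lg + u * lg := by
    have h1 : (1 - κ) * (s.R + s.X - D : ℝ) ≤ (1 - κ) * (s.R + u) :=
      mul_le_mul_of_nonneg_left (by linarith) (by linarith [h.k1])
    have h2 := mul_le_mul_of_nonneg_right hr (Nat.cast_nonneg (α := ℝ) s.R)
    have h3 := mul_nonneg h.k0 (Nat.cast_nonneg (α := ℝ) u)
    rw [← add_mul]
    exact mul_le_mul_of_nonneg_right (by linarith) hlg.le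
  have e6 : (2 * k + 1 : ℝ) * (4000 + 16 * ε * (s.X + s.R) * lg) ≤ u * lg + A := by
    have h0 := h.e0
    refine (mul_le_mul_of_nonneg_right k4 (by positivity)).trans ?_
    have h1 : (m : ℝ) ^ 4 * 3 * 4000 ≤ m ^ 4 * 3 * Λ := mul_le_mul_of_nonneg_left L0 (by positivity)
    have h2 : (m : ℝ) ^ 4 * 3 * (16 * ε * (s.X + s.R) * lg) ≤ A := by
      rw [hA, le_div_iff₀ m0]
      have h3 : ε * (48 * m ^ 5) * (s.X + s.R) ≤ ε * (48 * m ^ 5) * ((b + 1) * s.R) :=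
        mul_le_mul_of_nonneg_left (by linarith) (by positivity)
      have h4 := mul_le_mul_of_nonneg_right hε (Nat.cast_nonneg (α := ℝ) s.R)
      have h5 : ε * (48 * m ^ 5) * (s.X + s.R) ≤ s.R := by linarith
      have h6 := mul_le_mul_of_nonneg_right h5 hlg.le
      linarith
    linarith
  have e7 : (30 : ℝ) / m * s.R * lg = 30 * A := by rw [hA]; ring
  have e8 : (4 * r + 100 / m) * s.R * lg = 4 * (r * s.R * lg) + 100 * A := by rw [hA]; ring
  rw [ls, ls, hL, hL, e8]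
  rw [e7] at d1
  linarith

end Pool.Agent.MP_5168f5_an.MX
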