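import Pool.Agent.MP_5168f5_an.MX.PLev
import Pool.Agent.MP_5168f5_an.MX.PFar
import Pool.Agent.MP_5168f5_an.MX.PAbs
import Pool.Agent.MP_5168f5_an.MX.PCor
import Pool.Agent.MP_5168f5_an.MX.PNG1
import Pool.Agent.MP_5168f5_an.MX.PNG
import Pool.Agent.MP_5168f5_an.MX.PDef
import Pool.Agent.MP_5168f5_an.MX.PCnt
import Pool.Agent.MP_5168f5_an.MX.PP1f
import Pool.Agent.MP_5168f5_an.MX.PP2f
import Pool.Agent.MP_5168f5_an.MX.PP1
import Pool.Agent.MP_5168f5_an.MX.PP2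

/-! The case of few lateral directions. -/

namespace Pool.Agent.MP_5168f5_an.MX

open H19 H17S H17F Filter R4.K31

theorem sDef : SDef := rowDef (rowNG rowNG1 (rowCor rowFar rowCor0))

theorem sP1 : SP1 := rowP1 (rowP1f rowLs sDef)

theorem sP2 : SP2 := rowP2 (rowP2f rowLs rowMJ sDef (rowCnt rowFar))

variable {Ω T : ℕ → Type} {P : ∀ n, FP (Ω n)} {x : ∀ n, Pl (Ω n) (T n)} {s : ℕ → St}
  {κ r b σ η : ℝ}

theorem RotP.ev {i φ : ℕ → ℕ} (h : RotP P x s i φ) {E : ∀ n, Ω n → Prop} (hE : Pos P E) :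
    RotP (fun n => cE (P n) (E n)) x s i φ := by
  unfold RotP at h ⊢
  have := (dnS_cE hE).sm_ch h
  simpa only [id] using this

/-- Slow rotation: on some event some lower label has small loss. -/
theorem po1 (hσ : 0 < σ) (h : ∀ E, Pos P E → Stp (fun n => cE (P n) (E n)) x s κ)
    (r1 : 1 - κ ≤ r) (r2 : r ≤ 1) (b1 : 1 ≤ b) (b2 : b ≤ 2)
    (hX : ∀ᶠ n in UF, ((s n).X : ℝ) ≤ b * (s n).R)
    (hr : RotP P x s (fun n => (s n).c0) fun _ => 0)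
    (he : ∀ E, Pos P E → ∀ a : ℕ → ℕ, (∀ n, a n ≤ 3 * (s n).R) →
      Le (fun n => (s n).R) (fun n => ch (cE (P n) (E n))
        (fun ω => fl1 ((s n).s1 + a n) ((x n).e1 ω)) ((x n).Bx (s n).S)) fun n => r * a n * lg) :
    ∃ E, Pos P E ∧ ∃ D : ℕ → ℕ, ∀ᶠ n in UF, min (s n).X (s n).R ≤ D n ∧ D n ≤ (s n).R + (s n).X ∧
      ls (cE (P n) (E n)) (x n) (s n) (max (s n).R (D n)) (D n) ≤
        (r * (1 + b) + σ) * (s n).R * lg := by
  obtain ⟨m, m10, k⟩ := sP1 σ hσ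
  obtain ⟨E, hE, hb⟩ := brf P x s (m := m) (by omega) (fun _ _ => 0)
    (h _ (Pos.of_ev (E := fun _ _ => True) (Eventually.of_forall fun _ _ _ => trivial))).big
  exact ⟨E, hE, k _ x s κ r b (h E hE) hb r1 r2 b1 b2 hX (hr.ev hE) (he E hE)⟩

/-- Fast rotation: on some event two lower labels have small total loss. -/
theorem po2 (hη : 0 < η) (hσ : 0 < σ) (h : ∀ E, Pos P E → Stp (fun n => cE (P n) (E n)) x s κ)
    (r1 : 1 - κ ≤ r)
    (hX : ∀ᶠ n in UF, (1 + η) * (s n).R ≤ (s n).X ∧ ((s n).X : ℝ) ≤ b * (s n).R)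
    (hr : ∀ i φ : ℕ → ℕ, (∀ n, (s n).c0 ≤ i n ∧ i n ≤ (s n).c0 + (s n).R ∧
      (φ n : ℝ) ≤ (1 + η) * (i n - (s n).c0 : ℝ)) → RotP P x s i φ)
    (hn : ∀ j : ℕ → ℕ, Frac j (fun n => (s n).R) →
      NA P (fun n => (x n).g) (fun n => 1 / 2 ^ ((s n).f0 + j n)) fun n =>
        (x n).lz (s n).c0 (s n).f0)
    (he : ∀ E, Pos P E → Le (fun n => (s n).R) (fun n => ch (cE (P n) (E n))
      (fun ω => fl1 ((s n).s1 + (s n).R) ((x n).e1 ω)) ((x n).Bx (s n).S))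
        fun n => r * (s n).R * lg) :
    ∃ E, Pos P E ∧ ∃ D : ℕ → ℕ, ∀ᶠ n in UF, (s n).R ≤ D n ∧ D n ≤ (s n).R + (s n).X ∧
      ((s n).X : ℝ) ≤ D n + σ * (s n).R ∧
      ls (cE (P n) (E n)) (x n) (s n) (s n).R (s n).R +
        ls (cE (P n) (E n)) (x n) (s n) (D n) (D n) ≤ (4 * r + σ) * (s n).R * lg := by
  obtain ⟨m, m10, k⟩ := sP2 η σ hη hσ
  obtain ⟨E, hE, hb⟩ := brf P x s (m := m) (by omega)
    (fun n j => ⌊(1 + η) * (j * ((s n).R / m ^ 4) : ℕ)⌋₊)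
    (h _ (Pos.of_ev (E := fun _ _ => True) (Eventually.of_forall fun _ _ _ => trivial))).big
  exact ⟨E, hE, k _ x s κ r b (h E hE) hb r1 hX (fun i φ a => (hr i φ a).ev hE)
    (fun j hj ε hε => ((hn j hj).dn (dnS_cE hE)).cm hε) (he E hE)⟩

end Pool.Agent.MP_5168f5_an.MX
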