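import Pool.Agent.MP_5168f5_an.H17F.Sq2

/-! The interface between the entropy theorem and the maximal estimate. -/

namespace Pool.Agent.MP_5168f5_an.MX

open H19 H17S H17F Filter

/-- A sequence of direction separated families of lines with arbitrary shadings. -/
structure DSK {N : ℕ} (x : ℕ → Cfg N) (M : ℕ → ℕ) : Prop where
  big : Big M
  box : ∀ n, (x n).Box
  triv : ∀ n, Fn (x n).P (x n).θ fun _ => ()
  sep : ∀ n, Fn (x n).P (x n).ln fun ω => fl (M n) ((x n).e ω)
  grid : ∀ n, Fn (x n).P (x n).z fun ω => fl1 (M n) ((x n).z ω)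

/-- The multiplicity: entropy of the direction given the point, at resolution `2^{-M}`. -/
noncomputable def mu {N : ℕ} (c : Cfg N) (M : ℕ) : ℝ :=
  ch c.P (fun ω => fl M (c.e ω)) fun ω => (fl M (c.pt ω), fl1 M (c.z ω), c.θ ω)

/-- The deficiency of the shading at resolution `2^{-M}`. -/
noncomputable def df {N : ℕ} (c : Cfg N) (M : ℕ) : ℝ :=
  M * lg - ch c.P (fun ω => fl1 M (c.z ω)) c.ln

/-- The entropy form of the maximal estimate in dimension `N + 1`. -/
def MuK (N : ℕ) : Prop := ∀ (x : ℕ → Cfg N) (M : ℕ → ℕ), DSK x M →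
  Le M (fun n => mu (x n) (M n)) fun n => N * df (x n) (M n)

end Pool.Agent.MP_5168f5_an.MX
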