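import Pool.Agent.MP_5168f5_an.MX.QDefs
import Pool.Agent.MP_5168f5_an.MX.RedDefs

/-! The maximal estimate in three dimensions: the blocks. -/

namespace Pool.Agent.MP_5168f5_an.MX

open H19 H17S H17F R4.K31 Filter

/-- An extremal counterexample. -/
def SX0 : Prop := ¬MuK 2 → ∃ (ν β κ : ℝ) (o : ℕ → Ob) (k R : ℕ → ℕ), Par ν β κ ∧ XT ν β κ o k R

/-- Minimal rotation. -/
def SX1 : Prop := ∀ (ν β κ : ℝ) (o : ℕ → Ob) (k R : ℕ → ℕ), Par ν β κ → XT ν β κ o k R →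
  ∃ (o' : ℕ → Ob) (k' R' : ℕ → ℕ), XR ν β κ o' k' R'

/-- Fixed frame. -/
def SFX : Prop := ∀ (ν β κ : ℝ) (o : ℕ → Ob) (k R : ℕ → ℕ), Par ν β κ → XR ν β κ o k R →
  ¬Fixd o R

/-- Few lateral directions. -/
def SPO : Prop := ∀ (ν β κ : ℝ) (o : ℕ → Ob) (k R : ℕ → ℕ), Par ν β κ → XR ν β κ o k R →
  ¬Fixd o R → ∃ γ : ℝ, 1 < κ + γ ∧ ¬Poor γ o R

/-- The planar lemma in the cells. -/
def SPlx : Prop := ∀ (ν β κ γ : ℝ) (o : ℕ → Ob) (k R : ℕ → ℕ), Par ν β κ → XR ν β κ o k R →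
  1 < κ + γ → ¬Poor γ o R → Plx k R o

/-- Jumps of the frame. -/
def SL6 : Prop := ∀ (ν β κ : ℝ) (o : ℕ → Ob) (k R : ℕ → ℕ), Par ν β κ → XR ν β κ o k R →
  Plx k R o → L6 k R o

/-- A window with almost the full loss. -/
def SSt : Prop := ∀ (ν β κ γ : ℝ) (o : ℕ → Ob) (k R : ℕ → ℕ), Par ν β κ → XR ν β κ o k R →
  ¬Fixd o R → 0 ≤ γ → ¬Poor γ o R → All o (Plx k R) → All o (L6 k R) → ∀ ε : ℝ, 0 < ε →
  ∃ k' R' : ℕ → ℕ, Gen κ o k' R' ∧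
    Le R' (fun n => (β - ε) * R' n * lg) fun n => (o n).F ν (k' n) (k' n + R' n)

/-- Maximal loss, minimal rotation. -/
def SLin : Prop := ∀ ν β κ : ℝ, Par ν β κ → (∀ ε : ℝ, 0 < ε →
    ∃ (o : ℕ → Ob) (k R : ℕ → ℕ), Gen κ o k R ∧
      Le R (fun n => (β - ε) * R n * lg) fun n => (o n).F ν (k n) (k n + R n)) →
  ∃ (r ι : ℝ) (o : ℕ → Ob) (k R : ℕ → ℕ), 0 ≤ r ∧ Lin κ r ι o k R ∧ β ≤ 2 + (1 - ν) * r - ι

/-- A generic short window. -/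
def STan : Prop := ∀ (κ r ι : ℝ) (o : ℕ → Ob) (k R : ℕ → ℕ), Lin κ r ι o k R →
  ∃ (o' : ℕ → Ob) (k' R' D : ℕ → ℕ), Tan κ r ι o' k' R' D

/-- Speed zero. -/
def SR0 : Prop := ∀ (κ ι : ℝ) (o : ℕ → Ob) (k R D : ℕ → ℕ), 0 < κ → κ ≤ 1 → Tan κ 0 ι o k R D →
  2 * κ ≤ ι

/-- Speed different from zero and one. -/
def SRP : Prop := ∀ (κ r ι : ℝ) (o : ℕ → Ob) (k R D : ℕ → ℕ), 0 < κ → κ ≤ 1 → 0 < r → r ≠ 1 →
  Tan κ r ι o k R D → r + 2 * κ ≤ ι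

/-- Speed one: the sum-product step. -/
def SOff : Prop := ∀ (κ ι : ℝ) (o : ℕ → Ob) (k R D : ℕ → ℕ), 0 < κ → κ ≤ 1 → ι < 1 + 2 * κ →
  Tan κ 1 ι o k R D →
  ∃ (c : ℝ) (o' : ℕ → Ob) (k' R' D' : ℕ → ℕ), 0 < c ∧ Tan κ 1 ι o' k' R' D' ∧ Com c o' k' R' D'

/-- Speed one: the degenerate case. -/
def SFin : Prop := ∀ (κ ι c : ℝ) (o : ℕ → Ob) (k R D : ℕ → ℕ), 0 < κ → κ ≤ 1 → 0 < c →
  Tan κ 1 ι o k R D → Com c o k R D → 1 + 2 * κ ≤ ι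

/-- Refinements of an extremal system. -/
def SPull : Prop := ∀ (ν β κ : ℝ) (o : ℕ → Ob) (k R : ℕ → ℕ), XR ν β κ o k R →
  All o fun o' => XR ν β κ o' k R

theorem Poor.of_pull {γ : ℝ} {o : ℕ → Ob} {R : ℕ → ℕ} {W : ℕ → Type} {Q : ∀ n, FP (W n)}
    {ρ : ∀ n, W n → (o n).Ω} (h : DnS Q ρ (oP o))
    (k : Poor γ (fun n => (o n).pull (Q n) (ρ n)) R) : Poor γ o R := by
  obtain ⟨W', Q', ρ', w, a, b, c⟩ := k
  exact ⟨W', Q', fun n v => ρ n (ρ' n v), w, a.trans h, b, c⟩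

theorem glueQ (x0 : SX0) (x1 : SX1) (fx : SFX) (po : SPO) (pl : SPlx) (l6 : SL6) (st : SSt)
    (li : SLin) (ta : STan) (r0 : SR0) (rp : SRP) (off : SOff) (fi : SFin) (pu : SPull) :
    MuK 2 := by
  by_contra h
  obtain ⟨ν, β, κ, o, k, R, p, h1⟩ := x0 h
  obtain ⟨o, k, R, h2⟩ := x1 ν β κ o k R p h1
  have h3 := fx ν β κ o k R p h2
  obtain ⟨γ, h4, h5⟩ := po ν β κ o k R p h2 h3
  have h6 : All o (Plx k R) := fun W Q ρ d =>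
    pl ν β κ γ _ k R p (pu ν β κ o k R h2 W Q ρ d) h4 fun e => h5 (e.of_pull d)
  have h7 : All o (L6 k R) := fun W Q ρ d =>
    l6 ν β κ _ k R p (pu ν β κ o k R h2 W Q ρ d) (h6 W Q ρ d)
  obtain ⟨r, ι, o, k, R, a1, a2, a3⟩ := li ν β κ p fun ε hε =>
    ⟨o, st ν β κ γ o k R p h2 h3 (by linarith [p.k1]) h5 h6 h7 ε hε⟩
  obtain ⟨o, k, R, D, a4⟩ := ta κ r ι o k R a2
  have k0 : 0 < κ := by linarith [p.n0, p.b2, p.gap]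
  have key : r + 2 * κ ≤ ι := by
    rcases a1.eq_or_lt with e | e
    · subst e; simpa using r0 κ ι o k R D k0 p.k1 a4
    · by_cases e1 : r = 1
      · subst e1
        by_contra q
        obtain ⟨c, o', k', R', D', b1, b2, b3⟩ := off κ ι o k R D k0 p.k1 (not_le.1 q) a4
        exact q (fi κ ι c o' k' R' D' k0 p.k1 b1 b2 b3)
      · exact rp κ r ι o k R D k0 p.k1 e e1 a4
  nlinarith [p.gap, p.n0, mul_nonneg p.n0.le a1]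

end Pool.Agent.MP_5168f5_an.MX
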