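import Pool.Agent.MP_5168f5_an.MX.PMain
import Pool.Agent.MP_5168f5_an.MX.QSpec

/-! An extremal system does not have few lateral directions. -/

namespace Pool.Agent.MP_5168f5_an.MX

open H19 H17S H17F Filter R4.K31

namespace POA

/-- The matrix of a box. -/
noncomputable def mt (t D : ℕ) (G : ℝ) : Mt := ((2 ^ t, 0), -G * 2 ^ D, 2 ^ D)

theorem mt_dt (t D : ℕ) (G : ℝ) : (mt t D G).dt = 2 ^ (t + D) := by simp [mt, Mt.dt, pow_add]

theorem mt_le {t D N : ℕ} {G : ℝ} (hG : |G| ≤ 2) (ht : t ≤ N) (hD : D ≤ N) :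
    ‖mt t D G‖ ≤ 2 * 2 ^ N := by
  have a : (2 : ℝ) ^ t ≤ 2 ^ N := pow_le_pow_right₀ one_le_two ht
  have b : (2 : ℝ) ^ D ≤ 2 ^ N := pow_le_pow_right₀ one_le_two hD
  have c : (0 : ℝ) < 2 ^ D := by positivity
  simp only [mt, norm_prod_le_iff, Real.norm_eq_abs, abs_mul, abs_neg, abs_zero, abs_pow, abs_two]
  exact ⟨⟨by linarith, by linarith⟩, mul_le_mul hG b c.le zero_le_two, by linarith⟩

theorem mt_val {t D N : ℕ} {G ν : ℝ} (hν : 0 ≤ ν) (hG : |G| ≤ 2) (ht : t ≤ N) (hD : D ≤ N) :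
    ((1 + ν) * (t + D) - 2 * ν * (N + 1)) * lg ≤ (mt t D G).val ν := by
  have a : 0 < ‖mt t D G‖ := norm_pos_iff.2 fun e => by
    simpa [mt] using congrArg (·.1.1) e
  have b := Real.log_le_log a (mt_le hG ht hD)
  rw [← pow_succ', log_two_pow] at b
  rw [Mt.val, mt_dt, abs_of_pos (by positivity), log_two_pow]
  push_cast at b ⊢
  nlinarith

theorem rn_abs (j : ℕ) {x : ℝ} (h : |x| ≤ 1) : |rn j x| ≤ 2 := by
  have a := rn_le j x
  have b := lt_rn j x
  have c := dv_anti zero_le_one le_rfl (Nat.zero_le j)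
  rw [abs_le] at h ⊢
  norm_num at b c
  constructor <;> linarith [h.1, h.2]

theorem cls_abs {Ω β : Type} {P : FP Ω} {G : Ω → β} {X : Ω → ℝ} {i j : ℕ}
    (h : Fn P (fun ω => fl1 j (X ω)) G) {a b : Ω} (ha : a ∈ P.S) (hb : b ∈ P.S) (e : G a = G b) :
    |2 ^ (i + j) * (X a - X b)| ≤ 2 * 2 ^ i := by
  have := Cls.of_fn h a ha b hb e
  rw [le_div_iff₀ (by positivity)] at this
  rw [abs_mul, abs_of_pos (by positivity), pow_add, mul_assoc, mul_comm 2]
  exact mul_le_mul_of_nonneg_left (by linarith) (by positivity)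

theorem lab_bx {o : Ob} (h : o.Alg) {i f E c : ℕ} (hE : i + E ≤ o.M) (hc : i + c ≤ o.M) :
    o.Lab i 2 (o.x.Bx (lab i f E c)) (fun ω => mt (i + E) (i + c) (rn f (o.x.g ω)))
      fun ω => rn i (o.x.z ω) := by
  have fz : Fn o.P (fun ω => fl1 i (o.x.z ω)) (o.x.Bx (lab i f E c)) := (Fn.fst _ _).trans bx_zg
  have fg : Fn o.P (fun ω => fl1 f (o.x.g ω)) (o.x.Bx (lab i f E c)) := (Fn.snd _ _).trans bx_zg
  refine ⟨bx_θ, fz, (Fn.comp (mt _ _) _).trans (fn_rn fg), fn_rn fz, fun ω hω => ⟨?_,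
    mt_le (rn_abs _ (h.box ω hω).2.2.2.2.2.2.1) hE hc, ?_⟩, fun a ha b hb e => ?_⟩
  · rw [mt_dt]; positivity
  · have := dv_anti zero_le_two one_le_two (le_refl i)
    rw [abs_le]; constructor <;> linarith [rn_le i (o.x.z ω), lt_rn i (o.x.z ω)]
  · have a1 := cls_abs (i := 0) bx_t ha hb e
    have a2 := cls_abs (i := 0) bx_D ha hb e
    have a3 := cls_abs (i := i) bx_E ha hb e
    have a4 := cls_abs (i := i) bx_c ha hb e
    have e1 : rn i (o.x.z b) = rn i (o.x.z a) := (fn_rn fz a ha b hb e).symm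
    have e2 : rn f (o.x.g b) = rn f (o.x.g a) := (fn_rn fg a ha b hb e).symm
    simp only [lab, Pl.y1, Pl.nm, Pl.tl, e1, e2, zero_add, pow_zero, mul_one] at a1 a2 a3 a4
    simp only [Mt.ap, mt, norm_prod_le_iff, Real.norm_eq_abs]
    refine ⟨⟨?_, ?_⟩, ?_, ?_⟩
    · convert a1 using 2; ring
    · convert a2 using 2; ring
    · convert a3 using 2; ring
    · convert a4 using 2; ring

/-- The step of length `u` below the top level. -/
def stp (o : Ob) (u : ℕ) : St := ⟨o.j - u, u, o.d, o.f (o.j - u), o.f o.j - o.f (o.j - u)⟩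

theorem stp_S {o : Ob} (h : o.Alg) {u : ℕ} (hu : u ≤ o.j) : (stp o u).S = o.pm o.j := by
  have := h.mono (Nat.sub_le o.j u)
  simp only [St.S, stp, Ob.pm, add_assoc, Nat.sub_add_cancel hu, Nat.add_sub_cancel' this]

theorem alg_pull {o : Ob} (h : o.Alg) {W : Type} {Q : FP W} {ρ : W → o.Ω}
    (k : ∀ v ∈ Q.S, ρ v ∈ o.P.S) : (o.pull Q ρ).Alg := ⟨fun v hv => h.box _ (k v hv), h.mono, h.flo⟩

variable {ν β κ : ℝ} {o : ℕ → Ob} {k R u : ℕ → ℕ}

theorem opt_ls (h : Opt ν β k R o) (hν : 0 ≤ ν) (hR : Big R)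
    (alg : ∀ᶠ n in UF, (o n).Alg ∧ k n + R n = (o n).j) (hu : ∀ n, u n ≤ R n) {m D : ℕ → ℕ}
    (hm : ∀ᶠ n in UF, D n ≤ m n ∧ m n ≤ u n + (stp (o n) (u n)).X) :
    Le R (fun n => β * u n * lg) fun n =>
      ls (o n).P (o n).x (stp (o n) (u n)) (m n) (D n) + ν * (m n - D n) * lg := by
  refine Le.of2 (h (fun n => (o n).j - u n) (fun _ => 2) _
    (fun n => (o n).x.Bx ((stp (o n) (u n)).Z (m n) (D n))) _ _ ?_ (hR.sub one_le_two)
    (?_ : ∀ᶠ n in UF, (o n).Lab _ _ _ (fun ω => mt ((o n).j - u n + ((o n).d + m n))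
      ((o n).j - u n + ((o n).d + (o n).f ((o n).j - u n) + D n))
        (rn ((o n).f ((o n).j - u n)) ((o n).x.g ω))) fun ω => rn ((o n).j - u n) ((o n).x.z ω)))
    (hR.sm (2 * ν * lg)) ?_
  · filter_upwards [alg] with n a
    have := hu n
    omega
  · filter_upwards [alg, hm] with n a b
    have := hu n
    have := a.1.flo
    have := a.1.mono (Nat.sub_le (o n).j (u n))
    simp only [stp] at b
    exact lab_bx (E := (o n).d + m n) (c := (o n).d + (o n).f ((o n).j - u n) + D n) a.1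
      (by omega) (by omega)
  · filter_upwards [alg, hm] with n a b
    have b1 : u n ≤ (o n).j := by have := hu n; omega
    have b2 := a.1.mono (Nat.sub_le (o n).j (u n))
    have b3 := ((o n).P.E_const _).ge.trans ((o n).P.E_mono fun ω hω =>
      mt_val (t := (o n).j - u n + ((o n).d + m n))
        (D := (o n).j - u n + ((o n).d + (o n).f ((o n).j - u n) + D n))
        (N := (o n).j - u n + ((o n).d + (o n).f ((o n).j - u n) + m n)) hν
        (rn_abs ((o n).f ((o n).j - u n)) (a.1.box ω hω).2.2.2.2.2.2.1) (by omega) (by omega))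
    have b4 : ν * (o n).f ((o n).j - u n) * lg ≤ ν * (o n).f (o n).j * lg :=
      mul_le_mul_of_nonneg_right (mul_le_mul_of_nonneg_left (Nat.cast_le.2 b2) hν) lg_pos.le
    rw [ls, stp_S a.1 b1, Ob.Phi, Ob.top, Ob.S]
    simp only [stp, Nat.cast_add, Nat.cast_sub b1, Nat.cast_sub b2] at b3 ⊢
    linarith

variable {W : ℕ → Type} {Q : ∀ n, FP (W n)} {ρ : ∀ n, W n → (o n).Ω}

theorem alg (h : XR ν β κ o k R) : ∀ᶠ n in UF, (o n).Alg ∧ k n + R n = (o n).j :=
  (h.alg.and h.top).mono fun _ a => ⟨a.1.1, a.2⟩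

theorem hstp (h : XR ν β κ o k R) (k0 : 0 ≤ κ) (k1 : κ ≤ 1) (hd : DnS Q ρ (oP o)) (hu : Frac u R)
    (E : ∀ n, W n → Prop) (hE : Pos Q E) : Stp (fun n => cE (Q n) (E n))
      (fun n => (o n).x.map (ρ n)) (fun n => stp (o n) (u n)) κ :=
  ⟨h.big.frac hu, k0, k1, fun i i' hi => ((h.hgt W _ ρ ((dnS_cE hE).trans hd) i i' (by
    filter_upwards [h.top] with n a
    have := hi n
    have := hu.1 n
    simp only [stp] at *
    omega)).1).frac hu⟩

theorem hrot (h : XR ν β κ o k R) (hd : DnS Q ρ (oP o)) (hu : Frac u R) {i φ : ℕ → ℕ}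
    (hi : ∀ᶠ n in UF, (o n).j - u n ≤ i n ∧ i n ≤ (o n).j ∧
      (o n).f ((o n).j - u n) + φ n ≤ (o n).f (i n)) :
    RotP Q (fun n => (o n).x.map (ρ n)) (fun n => stp (o n) (u n)) i φ := by
  refine Le.frac (Sm.mono (hd.sm_ch (h.det i ?_)) (hi.mono fun n a => ?_)) hu
  · filter_upwards [h.top, hi] with n a b
    have := hu.1 n
    omega
  · exact ch_mono ((fn_fl1 (fun v => (o n).x.g (ρ n v)) a.2.2).left _)

theorem hfew {γ w : ℝ} (h : XR ν β κ o k R) (hu : Frac u R)
    (hf : Few γ w R fun n => (o n).pull (Q n) (ρ n)) {a : ℕ → ℕ}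
    (ha : ∀ n, (a n : ℝ) ≤ w * R n) : Le u (fun n => ch (Q n)
      (fun ω => fl1 ((o n).d + a n) (((o n).x.map (ρ n)).e1 ω))
      (((o n).x.map (ρ n)).Bx (stp (o n) (u n)).S)) fun n => γ * a n * lg := by
  refine ((hf a (Eventually.of_forall ha)).frac hu).congr ?_ (Eventually.of_forall fun _ => rfl)
  filter_upwards [alg h] with n b
  rw [stp_S b.1 (by have := hu.1 n; omega)]
  rfl

theorem hls (h : XR ν β κ o k R) (hν : 0 ≤ ν) (hd : DnS Q ρ (oP o)) (hu : Frac u R)
    {m D : ℕ → ℕ} (hm : ∀ᶠ n in UF, D n ≤ m n ∧ m n ≤ u n + (stp (o n) (u n)).X) :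
    Le u (fun n => β * u n * lg) fun n =>
      ls (Q n) ((o n).x.map (ρ n)) (stp (o n) (u n)) (m n) (D n) + ν * (m n - D n) * lg :=
  (opt_ls (h.opt W Q ρ hd) hν h.big
    (((alg h).and (DnS_mem hd)).mono fun _ a => ⟨alg_pull a.1.1 a.2, a.1.2⟩) hu.1 hm).frac hu

theorem hrb (h : XR ν β κ o k R) (hu : ∀ n, u n ≤ R n) :
    Le R (fun n => ν * (stp (o n) (u n)).X) fun n => 3 * u n := by
  refine (h.rb (fun n => (o n).j - u n) ?_).congr ?_ ?_ <;> filter_upwards [alg h] with n a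
  · have := hu n
    omega
  · rw [stp, Nat.cast_sub (a.1.mono (Nat.sub_le _ _))]
  · rw [Nat.cast_sub (by have := hu n; omega)]; ring

theorem num {a b : ℝ} (hu : Big u) (h : Le u (fun n => a * u n * lg) fun n => b * u n * lg) :
    a ≤ b := le_of_mul_le_mul_right (Le.num hu (h.congr (Eventually.of_forall fun _ => by ring)
      (Eventually.of_forall fun _ => by ring))) lg_pos

end POA

open POA in
theorem rowPO : SPO := by
  intro ν β κ o k R p h _
  obtain ⟨η, hη⟩ : ∃ η, η = (β - 2 * (1 - κ) - ν) / 10 := ⟨_, rfl⟩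
  obtain ⟨n0, n1, k1, b2, gap⟩ := p
  have η0 : 0 < η := by linarith
  refine ⟨1 - κ + η, by linarith, ?_⟩
  rintro ⟨W, Q, ρ, w, hd, hw, hf⟩
  obtain ⟨v, f0, f1⟩ : ∃ v : ℕ → ℕ, Frac v R ∧ ∀ n, 3 * (v n : ℝ) ≤ w * R n :=
    ⟨_, h.big.frac_floor (c := min (w / 3) 1) (by positivity) (min_le_right _ _), fun n => by
      have := (Nat.floor_le (by positivity)).trans
        (mul_le_mul_of_nonneg_right (min_le_left (w / 3) 1) (Nat.cast_nonneg (R n)))
      linarith⟩
  choose u u1 u2 using fun n => (Finset.range (v n + 1)).exists_max_image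
    (fun a => ((stp (o n) a).X : ℝ) - (1 + η) * a) ⟨0, by simp⟩
  have u3 : ∀ n, u n ≤ v n := fun n => Nat.lt_succ_iff.1 (Finset.mem_range.1 (u1 n))
  have u4 : ∀ n, u n ≤ R n := fun n => (u3 n).trans (f0.1 n)
  have rb := hrb h u4
  have k0 : 0 ≤ κ := by linarith
  rcases frac_or u4 with hu | hu
  · have x1 : ∀ n, (1 + η) * u n ≤ (stp (o n) (u n)).X := fun n => by
      have := u2 n 0 (by simp)
      simp only [Nat.cast_zero, mul_zero] at this
      linarith [Nat.cast_nonneg (α := ℝ) (stp (o n) 0).X]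
    obtain ⟨E, hE, D, hD⟩ := po2 (P := Q) (x := fun n => (o n).x.map (ρ n))
      (s := fun n => stp (o n) (u n)) (r := 1 - κ + η) (b := 4 / ν) η0 η0 (hstp h k0 k1 hd hu)
      (by linarith) ((rb.frac hu 1 one_pos).mono fun n a => ⟨x1 n, by
        rw [div_mul_eq_mul_div, le_div_iff₀ n0]; simp only [stp] at a ⊢; linarith⟩)
      (fun i φ hi => hrot h hd hu (by
        filter_upwards [alg h] with n a
        obtain ⟨i1, i2, i3⟩ := hi n
        have b1 : u n ≤ (o n).j := by have := u4 n; omega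
        simp only [stp] at i1 i2 i3
        have b2 : i n ≤ (o n).j := by omega
        have b3 := u2 n ((o n).j - i n) (Finset.mem_range.2 (by have := u3 n; omega))
        simp only [stp, Nat.sub_sub_self b2, Nat.cast_sub (a.1.mono b2), Nat.cast_sub b2,
          Nat.cast_sub (a.1.mono (Nat.sub_le _ _)), Nat.cast_sub b1] at b3 i3
        exact ⟨i1, b2, by exact_mod_cast (show ((o n).f ((o n).j - u n) : ℝ) + φ n ≤ (o n).f (i n) by
          linarith)⟩))
      (fun j hj => (h.nd (fun n => (o n).j - u n) j (h.top.mono fun n a => by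
        have := u4 n; simp only; omega) (hj.trans hu) (by
          filter_upwards [alg h] with n a
          have b1 := a.1.mono (Nat.sub_le (o n).j (u n))
          have b2 : u n ≤ (stp (o n) (u n)).X := by
            exact_mod_cast (show (u n : ℝ) ≤ (stp (o n) (u n)).X by
              nlinarith [x1 n, Nat.cast_nonneg (α := ℝ) (u n)])
          have b3 : j n ≤ u n := hj.1 n
          simp only [stp] at b2
          omega)).dn hd)
      fun E hE => hfew h hu (hf E hE) fun n => by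
        have : (u n : ℝ) ≤ v n := Nat.cast_le.2 (u3 n)
        simp only [stp]
        linarith [f1 n, Nat.cast_nonneg (α := ℝ) (v n)]
    have a1 := hls h n0.le ((dnS_cE hE).trans hd) hu (m := u) (D := u)
      (Eventually.of_forall fun n => ⟨le_rfl, Nat.le_add_right _ _⟩)
    have a2 := hls h n0.le ((dnS_cE hE).trans hd) hu (m := D) (D := D)
      (hD.mono fun n a => ⟨le_rfl, a.2.1⟩)
    have := num (a := 2 * β) (b := 4 * (1 - κ + η) + η) (h.big.frac hu)
      (a1.of2 a2 (hD.mono fun n a => by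
        have := a.2.2.2
        simp only [stp, id] at this ⊢
        linarith))
    linarith
  · obtain ⟨E, hE, D, hD⟩ := po1 (P := Q) (x := fun n => (o n).x.map (ρ n))
      (s := fun n => stp (o n) (v n)) (r := 1 - κ + η) (b := 1 + 2 * η) η0 (hstp h k0 k1 hd f0)
      (by linarith) (by linarith) (by linarith) (by linarith) (by
        filter_upwards [(rb.trans (hu.smul zero_le_three)).frac f0 (ν * η) (by positivity)] with n a
        have b1 := u2 n (v n) (by simp)
        have b2 : ((stp (o n) (u n)).X : ℝ) ≤ η * v n := le_of_mul_le_mul_left (by linarith) n0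
        have b3 : 0 ≤ (1 + η) * u n := by positivity
        change _ ≤ _ * (v n : ℝ)
        linarith)
      (hrot h hd f0 (Eventually.of_forall fun n => ⟨le_rfl, Nat.sub_le _ _, le_rfl⟩))
      fun E hE a ha => hfew h f0 (hf E hE) fun n =>
        le_trans (by exact_mod_cast ha n) (f1 n)
    have a1 := hls h n0.le ((dnS_cE hE).trans hd) f0 (m := fun n => max (v n) (D n)) (D := D)
      (hD.mono fun n a => ⟨le_max_right _ _, max_le (Nat.le_add_right _ _) a.2.1⟩)
    have := num (b := (1 - κ + η) * (1 + (1 + 2 * η)) + η + ν) (h.big.frac f0)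
      (a1.trans (Le.of_ev (hD.mono fun n a => by
        have b1 := a.2.2
        have b2 : ((max (v n) (D n) : ℕ) : ℝ) ≤ v n + D n := by
          exact_mod_cast max_le (Nat.le_add_right _ _) (Nat.le_add_left _ _)
        have b3 := mul_le_mul_of_nonneg_right (mul_le_mul_of_nonneg_left b2 n0.le) lg_pos.le
        simp only [stp, id] at b1 ⊢
        linarith)))
    nlinarith

end Pool.Agent.MP_5168f5_an.MX
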