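import Pool.Agent.MP_5168f5_an.MX.PSpec

/-! Fast rotation: from one scale to sequences. -/

namespace Pool.Agent.MP_5168f5_an.MX

open H19 H17S H17F Filter Finset

namespace PP2A

theorem unif {A C : ℕ → ℕ → Prop} (h0 : ∀ n, C n 0)
    (h : ∀ j : ℕ → ℕ, (∀ n, C n (j n)) → ∀ᶠ n in UF, A n (j n)) :
    ∀ᶠ n in UF, ∀ j, C n j → A n j := by
  classical
  refine (h (fun n => if k : ∃ j, C n j ∧ ¬A n j then k.choose else 0) fun n => ?_).mono
    fun n a j c => ?_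
  · split_ifs with k
    exacts [k.choose_spec.1, h0 n]
  · by_contra e
    have k : ∃ j, C n j ∧ ¬A n j := ⟨j, c, e⟩
    rw [dif_pos k] at a
    exact k.choose_spec.2 a

theorem drop {Ω T α : Type} (P : FP Ω) (x : Pl Ω T) (F : Ω → α) (i f : ℕ) :
    ch P F (fun ω => (x.l ω, fl1 i (x.z ω))) ≤ ch P F (x.lz i f) +
      ch P (fun ω => fl1 f (x.g ω)) fun ω => (x.l ω, fl1 i (x.z ω)) :=
  (ch_drop F (fun ω => fl1 f (x.g ω)) _).trans (add_le_add (ch_anti fun a _ b _ e => by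
    simp only [Pl.lz, Pl.zg, Prod.mk.injEq] at e ⊢
    exact ⟨e.2.1, e.2.2, e.1⟩) le_rfl)

end PP2A

open PP2A in
theorem rowP2 : SP2f → SP2 := by
  intro hf η σ hη hσ
  obtain ⟨m, hm⟩ := exists_nat_ge (10 + 100 / σ + 2 / η)
  have a1 : 0 < 100 / σ := by positivity
  have a2 : 0 < 2 / η := by positivity
  have m1 : (10 : ℝ) ≤ m := by linarith
  have m0 : (0 : ℝ) < m := by linarith
  have m2 : 100 ≤ σ * m := by
    have : 100 / σ ≤ m := by linarith
    rwa [div_le_iff₀ hσ, mul_comm] at this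
  have m3 : 2 ≤ η * m := by
    have : 2 / η ≤ m := by linarith
    rwa [div_le_iff₀ hη, mul_comm] at this
  have m10 : 10 ≤ m := by exact_mod_cast m1
  refine ⟨m, m10, ?_⟩
  intro Ω T P x s κ r b h hb hr hX hrot hg he
  have m4 : m ≤ m ^ 4 := Nat.le_self_pow (by norm_num) m
  have l0 := lg_pos
  obtain ⟨u, hu⟩ : ∃ u : ℕ → ℕ, u = fun n => (s n).R / m ^ 4 := ⟨_, rfl⟩
  have lo : ∀ n, m ^ 4 * u n ≤ (s n).R := fun n => by rw [hu]; exact Nat.mul_div_le _ _
  have lo' : ∀ n, m * u n ≤ (s n).R := fun n => (Nat.mul_le_mul_right _ m4).trans (lo n)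
  have fr : Frac u fun n => (s n).R := by rw [hu]; exact h.big.frac_div (by positivity)
  have hi : ∀ᶠ n in UF, (s n).R ≤ (m ^ 4 + 1) * u n := ((h.big.frac fr).ev (m ^ 4 : ℕ)).mono
    fun n a => by
      have a' : m ^ 4 ≤ u n := by exact_mod_cast a
      have := Nat.lt_mul_div_succ (s n).R (show 0 < m ^ 4 by positivity)
      rw [show (s n).R / m ^ 4 = u n by rw [hu]] at this
      nlinarith
  obtain ⟨ε, hε⟩ : ∃ ε : ℝ, ε = 1 / (48 * m ^ 5 * (|b| + 1)) := ⟨_, rfl⟩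
  have e0 : 0 < ε := by rw [hε]; positivity
  have e1 : ∀ t : ℝ, t ≤ 48 * m ^ 5 * (|b| + 1) → ε * t ≤ 1 := fun t a => by
    rw [hε, one_div_mul_eq_div, div_le_one (by positivity)]; exact a
  obtain ⟨δ, hδ⟩ : ∃ δ : ℝ, δ = lg / (m ^ 9 * (m ^ 4 + 1)) := ⟨_, rfl⟩
  have d0 : 0 < δ := by rw [hδ]; positivity
  have fl : ∀ j v : ℕ, ((⌊(1 + η) * (j * v : ℕ)⌋₊ : ℕ) : ℝ) ≤ (1 + η) * (j * v : ℕ) := fun j v =>
    Nat.floor_le (by positivity)
  have shd := unif (C := fun n j => j * u n + m * u n ≤ (s n).R) (A := fun n j =>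
      κ * (m * u n) * lg - δ * (s n).R ≤ ch (P n)
        (fun ω => fl1 ((s n).c0 + j * u n + m * u n) ((x n).z ω))
        ((x n).lz ((s n).c0 + j * u n) ((s n).f0 + ⌊(1 + η) * (j * u n : ℕ)⌋₊)))
    (fun n => by simpa using lo' n) fun j c => by
      filter_upwards [h.shd (fun n => (s n).c0 + j n * u n) (fun n => (s n).c0 + j n * u n + m * u n)
        (fun n => by have := c n; omega) _ (half_pos d0),
        hrot (fun n => (s n).c0 + j n * u n) (fun n => ⌊(1 + η) * (j n * u n : ℕ)⌋₊)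
          (fun n => ⟨by omega, by have := c n; omega, (fl _ _).trans (le_of_eq (by
            push_cast; ring))⟩) _ (half_pos d0)] with n c1 c2
      have := drop (P n) (x n) (fun ω => fl1 ((s n).c0 + j n * u n + m * u n) ((x n).z ω))
        ((s n).c0 + j n * u n) ((s n).f0 + ⌊(1 + η) * (j n * u n : ℕ)⌋₊)
      push_cast at c1
      linarith
  refine Eventually.choice (l := (UF : Filter ℕ)) (r := fun n D => (s n).R ≤ D ∧
    D ≤ (s n).R + (s n).X ∧ ((s n).X : ℝ) ≤ D + σ * (s n).R ∧ ls (P n) (x n) (s n) (s n).R (s n).R +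
      ls (P n) (x n) (s n) D D ≤ (4 * r + σ) * (s n).R * lg) ?_
  filter_upwards [hi, shd, hX, h.big.ev (4000 / δ), hb ε e0,
    hg u fr ε e0 ε e0, he δ d0] with n c1 c2 c3 c4 c5 c6 c7
  have r1 : ((s n).R : ℝ) ≤ (m ^ 4 + 1) * u n := by exact_mod_cast c1
  have r2 : (m : ℝ) * u n ≤ (s n).R := by exact_mod_cast lo' n
  have u0 : (0 : ℝ) ≤ u n := Nat.cast_nonneg _
  have r0 : (0 : ℝ) ≤ (s n).R := Nat.cast_nonneg _
  rw [div_le_iff₀ d0] at c4
  refine (hf (P n) (x n) (s n) m (u n) (m ^ 2) κ (δ * (s n).R) ε r b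
    (fun j => ⌊(1 + η) * (j * u n : ℕ)⌋₊)
    ⟨m10, lo n, c1, by linarith, ?_, e0.le, e1 _ ?_, h.k0, h.k1, fun i j a => Nat.floor_mono
      (mul_le_mul_of_nonneg_left (by exact_mod_cast Nat.mul_le_mul_right _ a) (by linarith)),
      by simp, fun j a => Nat.floor_le_of_le (le_trans (mul_le_mul_of_nonneg_left
        (by exact_mod_cast (by omega : j * u n ≤ (s n).R)) (by linarith)) c3.1), c2,
      by rw [hu]; exact c5⟩ hr
    (Nat.one_le_pow _ _ (by omega)) le_rfl (fun j a => Nat.le_floor ?_) ?_ c3.2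
    (e1 _ (mul_le_mul_of_nonneg_left (by linarith [le_abs_self b]) (by positivity)))
    (by simpa only [not_le] using c6) c7).imp fun D ⟨q1, q2, q3, q4⟩ => ?_
  · rw [hδ, show (m : ℝ) ^ 9 * (lg / (m ^ 9 * (m ^ 4 + 1)) * (s n).R) =
      (s n).R * lg / (m ^ 4 + 1) by field_simp, div_le_iff₀ (by positivity)]
    nlinarith
  · have : (m : ℝ) ≤ m ^ 5 := le_self_pow₀ (by linarith) (by norm_num)
    nlinarith [abs_nonneg b, mul_nonneg (pow_pos m0 5).le (abs_nonneg b)]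
  · have j1 : (m : ℝ) ^ 2 ≤ j := by exact_mod_cast a
    have j2 : 2 * (m : ℝ) ≤ η * j := by nlinarith
    push_cast
    nlinarith [mul_le_mul_of_nonneg_right j2 u0, mul_le_mul_of_nonneg_right m1 u0]
  · have : ((s n).R : ℝ) + u n ≤ (s n).X := by nlinarith [c3.1]
    exact_mod_cast this
  · have q5 : ((s n).X : ℝ) ≤ D + u n := by exact_mod_cast q3
    refine ⟨q1, q2, by nlinarith, q4.trans (mul_le_mul_of_nonneg_right
      (mul_le_mul_of_nonneg_right ?_ r0) l0.le)⟩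
    rw [add_le_add_iff_left, div_le_iff₀ m0]
    exact m2

end Pool.Agent.MP_5168f5_an.MX
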