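import Pool.Agent.MP_5168f5_an.MX.PDefs
import Pool.Agent.MP_5168f5_an.MX.Flat

/-! The case of few lateral directions: statements. -/

namespace Pool.Agent.MP_5168f5_an.MX

open H19 H17S H17F Filter Finset

/-- A step from level `c0 + R` to level `c0`. The upper label has lateral direction depth `s1`
and eccentricity `f0 + X`; the slope is known to depth `f0` at level `c0`. -/
structure St where
  c0 : ℕ
  R : ℕ
  s1 : ℕ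
  f0 : ℕ
  X : ℕ

/-- The upper label. -/
def St.S (s : St) : Pm := lab (s.c0 + s.R) (s.f0 + s.X) s.s1 (s.s1 + s.f0 + s.X)

/-- The lower label of relative depths `m` (lateral) and `D` (normal). -/
def St.Z (s : St) (m D : ℕ) : Pm := lab s.c0 s.f0 (s.s1 + m) (s.s1 + s.f0 + D)

/-- The upper label with tilt known to relative depth `Q` and lateral line to relative depth `m`. -/
def St.C (s : St) (m Q : ℕ) : Pm :=
  ⟨s.c0 + s.R, s.f0 + s.X, s.c0 + s.s1 + m, s.s1 + m, s.c0 + s.R + (s.s1 + s.f0 + s.X),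
    s.s1 + s.f0 + Q⟩

/-- A bound for all depths. -/
def St.B (s : St) : ℕ := s.c0 + s.s1 + s.f0 + s.X + 3 * s.R

/-- All depths are at most `B`. -/
def Pm.Le (p : Pm) (B : ℕ) : Prop := p.i ≤ B ∧ p.f ≤ B ∧ p.t ≤ B ∧ p.E ≤ B ∧ p.D ≤ B ∧ p.c ≤ B

section Fin

variable {Ω T β : Type} (P : FP Ω) (x : Pl Ω T)

/-- The loss of the lower label against the upper label. -/
noncomputable def ls (s : St) (m D : ℕ) : ℝ :=
  ch P x.l (x.Bx s.S) - ch P x.l (x.Bx (s.Z m D)) + (2 * s.R + s.X - m - D : ℝ) * lg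

/-- Entropy of the normal digit. -/
noncomputable def bb (Y : Ω → β) (w i f D : ℕ) : ℝ :=
  ch P (fun ω => fl1 (D + w) (x.nm (i + w) f ω)) fun ω =>
    (Y ω, x.Bx (nb w i f D) ω, fl1 (i + w) (x.z ω))

/-- Information of the height digit on the line digit. -/
noncomputable def ii (Y : Ω → β) (w i f D : ℕ) : ℝ :=
  mi P (fun ω => fl1 (i + w) (x.z ω)) (x.Bx (nb w i f (D + w))) fun ω =>
    (Y ω, x.Bx (nb w i f D) ω)

/-- The point with its context. -/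
noncomputable def xx (Y : Ω → β) (w i f D : ℕ) (ω : Ω) :=
  (Y ω, x.Bx (nb w i f D) ω, x.Bx (xb w i f D) ω)

/-- Entropy of the tilt digit given the point. -/
noncomputable def be (Y : Ω → β) (w u i f D : ℕ) : ℝ :=
  ch P (fun ω => fl1 (D - i + u) (x.tl f ω)) (xx x Y w i f D)

/-- The lower labels that are used. -/
def St.Ok (s : St) (m u m0 D0 : ℕ) : Prop := ∃ k ≤ 2 * m ^ 4,
  (D0 = min s.X s.R + k * (m * u) ∧ m0 = max s.R D0) ∨ (D0 = s.X + k * u - u ∧ m0 = D0)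

/-- A tilt digit of entropy at least `τ` has no popular value. -/
def Brd (B : ℕ) (τ ε : ℝ) : Prop := ∀ p q r : Pm, ∀ c : ℕ, p.Le B → q.Le B → r.Le B → c ≤ B →
  τ ≤ ch P (fun ω => fl1 c (x.tl q.f ω)) (fun ω => (x.Bx p ω, x.Bx q ω, x.Bx r ω)) →
  pb P (fun ω => ε < cm P (fun ω => (x.Bx p ω, x.Bx q ω, x.Bx r ω))
    (fun ω => fl1 c (x.tl q.f ω)) ω) ≤ ε

/-- On the mesh, a tilt digit of large entropy has no popular value. -/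
def BrF (s : St) (m u : ℕ) (φ : ℕ → ℕ) (ε : ℝ) : Prop := ∀ m0 D0, s.Ok m u m0 D0 →
  ∀ j ≤ 2 * m ^ 4, ∀ d ≤ 2 * m ^ 4, u * lg / m ^ 2 ≤ be P x (x.Bx (s.Z m0 D0)) (m * u) u
    (s.c0 + j * u) (s.f0 + φ j) (s.c0 + s.s1 + s.f0 + D0 + d * (m * u)) →
  pb P (fun ω => ε < cm P (xx x (x.Bx (s.Z m0 D0)) (m * u) (s.c0 + j * u) (s.f0 + φ j)
    (s.c0 + s.s1 + s.f0 + D0 + d * (m * u))) (fun ω => fl1
      (s.c0 + s.s1 + s.f0 + D0 + d * (m * u) - (s.c0 + j * u) + u) (x.tl (s.f0 + φ j) ω)) ω) ≤ ε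

/-- Entropy of the next tilt digit of the upper label. -/
noncomputable def dd (s : St) (u k : ℕ) : ℝ :=
  ch P (fun ω => fl1 (s.s1 + s.f0 + (s.X + (k + 1) * u)) (x.tl (s.f0 + s.X) ω))
    (x.Bx (s.C (s.X + k * u - u) (s.X + k * u)))

/-- The common hypotheses at one scale: mesh `u`, look-ahead `m u`, error `Λ`, relative slope
depth `φ j` at level `c0 + j u`. -/
structure Fn1 (s : St) (m u : ℕ) (κ Λ ε : ℝ) (φ : ℕ → ℕ) : Prop where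
  m10 : 10 ≤ m
  lo : m ^ 4 * u ≤ s.R
  hi : s.R ≤ (m ^ 4 + 1) * u
  big : 4000 ≤ Λ
  sml : m ^ 9 * Λ ≤ u * lg
  e0 : 0 ≤ ε
  e1 : ε * m ≤ 1
  k0 : 0 ≤ κ
  k1 : κ ≤ 1
  mono : Monotone φ
  zero : φ 0 = 0
  top : ∀ j, j * u + m * u ≤ s.R → φ j ≤ s.X
  shd : ∀ j, j * u + m * u ≤ s.R → κ * (m * u) * lg - Λ ≤
    ch P (fun ω => fl1 (s.c0 + j * u + m * u) (x.z ω)) (x.lz (s.c0 + j * u) (s.f0 + φ j))
  brd : BrF P x s m u φ ε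

end Fin

/-- Two copies are far apart if there is no popular cell. -/
def SFar : Prop := ∀ {Ω β γ : Type} (P : FP Ω) (φ : Ω → β) (Θ : Ω → γ) (X : Ω → ℝ) (j : ℕ)
  (ε : ℝ), 0 ≤ ε → Fn P φ Θ → pb P (fun ω => ε < cm P Θ (fun v => fl1 j (X v)) ω) ≤ ε →
  pb (glue P P φ φ) (fun v => |X v.1 - X v.2| ≤ 1 / 2 ^ j) ≤ 4 * ε

/-- Two lines determine a point: abstract form. -/
def SCor0 : Prop := ∀ {Ω α β γ : Type} (P : FP Ω) (N : Ω → α) (U : Ω → β) (X : Ω → γ),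
  Fn P N U → Fn P N X →
  2 * ch P X U - ch (glue P P X X) (fun v => X v.1) (fun v => (U v.1, U v.2)) ≤ ch P X N

/-- Two points determine a line: abstract form. -/
def SMJ : Prop := ∀ {Ω α β γ : Type} (P : FP Ω) (S : Ω → α) (Y : Ω → β) (W : Ω → γ), Fn P W Y →
  ch P S Y + ch P Y (fun ω => (S ω, W ω)) -
    ch (glue P P Y Y) (fun v => Y v.1) (fun v => (S v.1, S v.2)) ≤ ch P S W

/-- The loss in terms of the two labels. -/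
def SLs : Prop := ∀ {Ω T : Type} (P : FP Ω) (x : Pl Ω T) (s : St) (m D : ℕ),
  ch P x.l (x.Bx s.S) - ch P x.l (x.Bx (s.Z m D)) = ch P (x.Bx (s.Z m D)) (x.Bx s.S) -
    ch P (x.Bx s.S) (x.Bx (s.Z m D)) + ch P (x.zg (s.c0 + s.R) (s.f0 + s.X)) (x.lz s.c0 s.f0)

/-- The planar estimate in one cell. -/
def SCor : Prop := ∀ {Ω T β : Type} (P : FP Ω) (x : Pl Ω T) (Y : Ω → β) (w u i f D : ℕ) (ε : ℝ),
  i ≤ D → 0 ≤ ε → ε ≤ 1 → Fn P Y (x.lz i f) →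
  pb P (fun ω => ε < cm P (xx x Y w i f D) (fun ω => fl1 (D - i + u) (x.tl f ω)) ω) ≤ ε →
  ch P (fun ω => fl1 (i + w) (x.z ω)) (x.lz i f) - ii P x Y w i f D -
    (u * lg + 4 * ε * w * lg + 1000) ≤ bb P x Y w i f D

/-- The normal digits may be counted at any level; the leaks are paid by the height. -/
def SNG1 : Prop := ∀ {Ω T β : Type} (P : FP Ω) (x : Pl Ω T) (Y : Ω → β)
  (w u c0 J c1 F E c D0 nD : ℕ) (φ jd : ℕ → ℕ), Monotone φ → φ J ≤ F → c0 + J * u + w ≤ c1 →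
  (∀ d, jd d ≤ J) → D0 + nD * w ≤ c1 + c → Fn P Y (x.lz c0 (φ 0)) →
  ∑ d ∈ range nD, bb P x Y w (c0 + jd d * u) (φ (jd d)) (D0 + d * w) ≤
    ch P (x.Bx (lab c1 F E c)) Y - ch P (x.zg c1 F) (x.lz c0 (φ 0)) + w * lg +
      1000 * (J + 1) * nD

/-- Either many tilt digits are determined or the normal digits have the rate of the height. -/
def SNG : Prop := ∀ {Ω T β : Type} (P : FP Ω) (x : Pl Ω T) (Y : Ω → β)
  (w u c0 J c1 F E c D0 nD d1 W : ℕ) (φ : ℕ → ℕ) (κ τ ε : ℝ), Monotone φ → φ J ≤ F →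
  c0 + J * u + w ≤ c1 → D0 + nD * w ≤ c1 + c → Fn P Y (x.lz c0 (φ 0)) → 0 < W → 0 ≤ τ →
  0 ≤ ε → ε ≤ 1 →
  (∀ j ≤ J, κ ≤ ch P (fun ω => fl1 (c0 + j * u + w) (x.z ω)) (x.lz (c0 + j * u) (φ j))) →
  (∀ j ≤ J, ∀ d < nD, τ ≤ be P x Y w u (c0 + j * u) (φ j) (D0 + d * w) →
    pb P (fun ω => ε < cm P (xx x Y w (c0 + j * u) (φ j) (D0 + d * w))
      (fun ω => fl1 (D0 + d * w - (c0 + j * u) + u) (x.tl (φ j) ω)) ω) ≤ ε) →
  (∀ d, d1 ≤ d → d < nD → W * u * lg + (J + 1) * τ <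
    ∑ j ∈ (range (J + 1)).filter (fun j => c0 + j * u ≤ D0 + d * w),
      be P x Y w u (c0 + j * u) (φ j) (D0 + d * w)) →
  ((nD - d1 : ℕ) : ℝ) * (κ - (u * lg + 4 * ε * w * lg + 1000)) - (J + 1) * w * lg / W - w * lg -
    1000 * (J + 1) * nD ≤ ch P (x.Bx (lab c1 F E c)) Y - ch P (x.zg c1 F) (x.lz c0 (φ 0))

/-- The same with the numerical choices: if from relative depth `D0 + 10 m² w` on the tilt digits
are not determined, the deficiency is at most `(1 - κ) (R + X - D0)`. -/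
def SDef : Prop := ∀ {Ω T : Type} (P : FP Ω) (x : Pl Ω T) (s : St) (m u : ℕ) (κ Λ ε : ℝ)
  (φ : ℕ → ℕ) (m0 D0 : ℕ), Fn1 P x s m u κ Λ ε φ → s.Ok m u m0 D0 → D0 ≤ s.R + s.X →
  s.R + s.X ≤ D0 + 2 * s.R →
  (∀ d, 10 * m ^ 2 ≤ d → D0 + d * (m * u) + m * u ≤ s.R + s.X → 3 * m ^ 2 * u * lg <
    ∑ j ∈ (range ((s.R - m * u) / u + 1)).filter (fun j => j * u ≤ s.s1 + s.f0 + (D0 + d * (m * u))),
      be P x (x.Bx (s.Z m0 D0)) (m * u) u (s.c0 + j * u) (s.f0 + φ j)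
        (s.c0 + s.s1 + s.f0 + D0 + d * (m * u))) →
  κ * (s.R + s.X - D0 : ℝ) * lg - 30 / m * s.R * lg ≤ ch P (x.Bx s.S) (x.Bx (s.Z m0 D0)) -
    ch P (x.zg (s.c0 + s.R) (s.f0 + s.X)) (x.lz s.c0 s.f0)

/-- Two upper labels on one tube determine the tube. -/
def SCnt : Prop := ∀ {Ω T : Type} (P : FP Ω) (x : Pl Ω T) (s : St) (u k : ℕ) (ε : ℝ),
  0 < u → s.R + u ≤ s.X → u < s.R → k * u ≤ s.R → 0 ≤ ε → ε ≤ 1 →
  pb P (fun ω => ε < cm P (x.lz s.c0 s.f0) (fun ω => fl1 (s.f0 + u) (x.g ω)) ω) ≤ ε →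
  ch (glue P P (x.Bx (s.Z (s.X + k * u - u) (s.X + k * u - u)))
      (x.Bx (s.Z (s.X + k * u - u) (s.X + k * u - u))))
    (fun v => x.Bx (s.Z (s.X + k * u - u) (s.X + k * u - u)) v.1)
    (fun v => (x.Bx s.S v.1, x.Bx s.S v.2)) ≤
    2 * ∑ j ∈ range k, dd P x s u j + 4 * u * lg + (2 * k + 1) * (4000 + 16 * ε * (s.X + s.R) * lg)

/-- Slow rotation, one scale. -/
def SP1f : Prop := ∀ {Ω T : Type} (P : FP Ω) (x : Pl Ω T) (s : St) (m u : ℕ) (κ Λ ε r b : ℝ),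
  Fn1 P x s m u κ Λ ε (fun _ => 0) → 1 - κ ≤ r → r ≤ 1 → 1 ≤ b → b ≤ 2 → (s.X : ℝ) ≤ b * s.R →
  (∀ a, a ≤ 3 * s.R → ch P (fun ω => fl1 (s.s1 + a) (x.e1 ω)) (x.Bx s.S) ≤ r * a * lg + Λ) →
  ∃ D, min s.X s.R ≤ D ∧ D ≤ s.R + s.X ∧
    ls P x s (max s.R D) D ≤ (r * (1 + b) + 40 / m) * s.R * lg

/-- Fast rotation, one scale. -/
def SP2f : Prop := ∀ {Ω T : Type} (P : FP Ω) (x : Pl Ω T) (s : St) (m u j0 : ℕ) (κ Λ ε r b : ℝ)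
  (φ : ℕ → ℕ), Fn1 P x s m u κ Λ ε φ → 1 - κ ≤ r → 1 ≤ j0 → j0 ≤ m ^ 2 →
  (∀ j, j0 ≤ j → j * u + m * u + 2 * u ≤ φ j) → s.R + u ≤ s.X → (s.X : ℝ) ≤ b * s.R →
  ε * (48 * m ^ 5 * (b + 1)) ≤ 1 →
  pb P (fun ω => ε < cm P (x.lz s.c0 s.f0) (fun ω => fl1 (s.f0 + u) (x.g ω)) ω) ≤ ε →
  ch P (fun ω => fl1 (s.s1 + s.R) (x.e1 ω)) (x.Bx s.S) ≤ r * s.R * lg + Λ →
  ∃ D, s.R ≤ D ∧ D ≤ s.R + s.X ∧ s.X ≤ D + u ∧
    ls P x s s.R s.R + ls P x s D D ≤ (4 * r + 100 / m) * s.R * lg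

/-- Pointwise uniformity excludes popular values. -/
def SFlat : Prop := ∀ {Ω T : Type} (P : FP Ω) (x : Pl Ω T) (B : ℕ) (δ τ ε : ℝ), 0 < ε →
  (∀ p q r : Pm, p.Le B → q.Le B → r.Le B →
    Flat P (fun ω => (x.Bx p ω, x.Bx q ω, x.Bx r ω)) δ) →
  2 * δ - Real.log ε ≤ τ → Brd P x B τ ε

section Seq

variable {Ω T : ℕ → Type} (P : ∀ n, FP (Ω n)) (x : ∀ n, Pl (Ω n) (T n)) (s : ℕ → St)

/-- A sequence of steps: the heights have rate at least `κ`. -/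
structure Stp (κ : ℝ) : Prop where
  big : Big fun n => (s n).R
  k0 : 0 ≤ κ
  k1 : κ ≤ 1
  shd : ∀ i i' : ℕ → ℕ, (∀ n, (s n).c0 ≤ i n ∧ i n ≤ i' n ∧ i' n ≤ (s n).c0 + (s n).R) →
    Le (fun n => (s n).R) (fun n => κ * (i' n - i n : ℝ) * lg) fun n =>
      ch (P n) (fun ω => fl1 (i' n) ((x n).z ω)) fun ω => ((x n).l ω, fl1 (i n) ((x n).z ω))

/-- The slope at relative depth `φ` is a function of the line and the height at depth `i`. -/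
def RotP (i φ : ℕ → ℕ) : Prop := Sm (fun n => (s n).R) fun n =>
  ch (P n) (fun ω => fl1 ((s n).f0 + φ n) ((x n).g ω)) fun ω =>
    ((x n).l ω, fl1 (i n) ((x n).z ω))

end Seq

/-- Few lateral directions, slow rotation. -/
def SP1 : Prop := ∀ σ : ℝ, 0 < σ → ∃ m : ℕ, 10 ≤ m ∧ ∀ {Ω T : ℕ → Type} (P : ∀ n, FP (Ω n))
  (x : ∀ n, Pl (Ω n) (T n)) (s : ℕ → St) (κ r b : ℝ), Stp P x s κ →
  (∀ ε : ℝ, 0 < ε → ∀ᶠ n in UF, BrF (P n) (x n) (s n) m ((s n).R / m ^ 4) (fun _ => 0) ε) →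
  1 - κ ≤ r → r ≤ 1 → 1 ≤ b → b ≤ 2 →
  (∀ᶠ n in UF, ((s n).X : ℝ) ≤ b * (s n).R) → RotP P x s (fun n => (s n).c0) (fun _ => 0) →
  (∀ a : ℕ → ℕ, (∀ n, a n ≤ 3 * (s n).R) →
    Le (fun n => (s n).R) (fun n => ch (P n) (fun ω => fl1 ((s n).s1 + a n) ((x n).e1 ω))
      ((x n).Bx (s n).S)) fun n => r * a n * lg) →
  ∃ D : ℕ → ℕ, ∀ᶠ n in UF, min (s n).X (s n).R ≤ D n ∧ D n ≤ (s n).R + (s n).X ∧
    ls (P n) (x n) (s n) (max (s n).R (D n)) (D n) ≤ (r * (1 + b) + σ) * (s n).R * lg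

/-- Few lateral directions, fast rotation. -/
def SP2 : Prop := ∀ η σ : ℝ, 0 < η → 0 < σ → ∃ m : ℕ, 10 ≤ m ∧ ∀ {Ω T : ℕ → Type}
  (P : ∀ n, FP (Ω n)) (x : ∀ n, Pl (Ω n) (T n)) (s : ℕ → St) (κ r b : ℝ), Stp P x s κ →
  (∀ ε : ℝ, 0 < ε → ∀ᶠ n in UF, BrF (P n) (x n) (s n) m ((s n).R / m ^ 4)
    (fun j => ⌊(1 + η) * (j * ((s n).R / m ^ 4) : ℕ)⌋₊) ε) → 1 - κ ≤ r →
  (∀ᶠ n in UF, (1 + η) * (s n).R ≤ (s n).X ∧ ((s n).X : ℝ) ≤ b * (s n).R) →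
  (∀ i φ : ℕ → ℕ, (∀ n, (s n).c0 ≤ i n ∧ i n ≤ (s n).c0 + (s n).R ∧
    (φ n : ℝ) ≤ (1 + η) * (i n - (s n).c0 : ℝ)) → RotP P x s i φ) →
  (∀ j : ℕ → ℕ, Frac j (fun n => (s n).R) → ∀ ε : ℝ, 0 < ε → Whp P fun n ω =>
    cm (P n) ((x n).lz (s n).c0 (s n).f0) (fun v => fl1 ((s n).f0 + j n) ((x n).g v)) ω ≤ ε) →
  Le (fun n => (s n).R) (fun n => ch (P n) (fun ω => fl1 ((s n).s1 + (s n).R) ((x n).e1 ω))
    ((x n).Bx (s n).S)) (fun n => r * (s n).R * lg) →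
  ∃ D : ℕ → ℕ, ∀ᶠ n in UF, (s n).R ≤ D n ∧ D n ≤ (s n).R + (s n).X ∧
    ((s n).X : ℝ) ≤ D n + σ * (s n).R ∧
    ls (P n) (x n) (s n) (s n).R (s n).R + ls (P n) (x n) (s n) (D n) (D n) ≤
      (4 * r + σ) * (s n).R * lg

end Pool.Agent.MP_5168f5_an.MX
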