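import Pool.Agent.MP_5168f5_an.MX.PDefs
import Pool.Agent.MP_5168f5_an.MX.TL

/-! The maximal estimate in three dimensions: systems, labels, extremal classes.
All exponents are absolute; there is no rescaling. -/

namespace Pool.Agent.MP_5168f5_an.MX

open H19 H17S H17F R4.K31 Filter

/-- A matrix with rows `A.1` and `A.2`; the norm is the largest entry. -/
abbrev Mt : Type := (ℝ × ℝ) × ℝ × ℝ

/-- The matrix applied to `(u, v)`. -/
def Mt.ap (A : Mt) (u v : ℝ) : ℝ × ℝ := (A.1.1 * u + A.1.2 * v, A.2.1 * u + A.2.2 * v)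

/-- The determinant. -/
def Mt.dt (A : Mt) : ℝ := A.1.1 * A.2.2 - A.1.2 * A.2.1

/-- Minus the logarithm of the area, minus `ν` times the eccentricity. -/
noncomputable def Mt.val (ν : ℝ) (A : Mt) : ℝ :=
  (1 + ν) * Real.log |A.dt| - 2 * ν * Real.log ‖A‖

/-- Lines with a height and a frame; `M` is the floor, `j` the top level, `d` the precision of the
lateral direction and `f k` the precision of the frame at level `k`. -/
structure Ob : Type 1 where
  Ω : Type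
  T : Type
  P : FP Ω
  x : Pl Ω T
  M : ℕ
  j : ℕ
  d : ℕ
  f : ℕ → ℕ

namespace Ob

variable (o : Ob)

/-- The same data on another space. -/
@[reducible] def pull {W : Type} (Q : FP W) (ρ : W → o.Ω) : Ob :=
  { Ω := W, T := o.T, P := Q, x := o.x.map ρ, M := o.M, j := o.j, d := o.d, f := o.f }

/-- The depths of the cell of level `k`. -/
def pm (k : ℕ) : Pm := lab k (o.f k) o.d (o.d + o.f k)

/-- The cell of level `k`.  The top label is `S j`. -/
noncomputable def S (k : ℕ) : o.Ω → o.T × (ℤ × ℤ) × ℤ × ℤ × ℤ × ℤ := o.x.Bx (o.pm k)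

/-- The line and the height window of level `k`. -/
noncomputable def w (k : ℕ) (ω : o.Ω) : (ℝ × ℝ × ℝ × ℝ × o.T) × ℤ := (o.x.l ω, fl1 k (o.x.z ω))

/-- The line, the height window and the frame of level `k`. -/
noncomputable def wn (k : ℕ) : o.Ω → (ℝ × ℝ × ℝ × ℝ × o.T) × ℤ × ℤ := o.x.lz k (o.f k)

/-- The lateral direction, `a` digits beyond the cells. -/
noncomputable def ep (a : ℕ) (ω : o.Ω) : ℤ := fl1 (o.d + a) (o.x.e1 ω)

/-- Entropy of the height digits between the levels `k` and `k'` given the line. -/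
noncomputable def hz (k k' : ℕ) : ℝ := ch o.P (fun ω => fl1 k' (o.x.z ω)) (o.w k)

/-- Information on the line gained between the levels `k` and `k'`. -/
noncomputable def J (k k' : ℕ) : ℝ := ch o.P o.x.l (o.S k) - ch o.P o.x.l (o.S k')

/-- The loss of the cell of level `k` against the cell of level `k'`. -/
noncomputable def F (ν : ℝ) (k k' : ℕ) : ℝ :=
  (2 * (k' - k) + (1 - ν) * (o.f k' - o.f k)) * lg - o.J k k'

/-- The potential of a label. -/
noncomputable def Phi (ν : ℝ) {γ : Type} (K : o.Ω → γ) (A : o.Ω → Mt) : ℝ :=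
  ch o.P o.x.l K + o.P.E fun ω => (A ω).val ν

/-- The potential of the top label. -/
noncomputable def top (ν : ℝ) : ℝ :=
  ch o.P o.x.l (o.S o.j) + (2 * (o.j + o.d) + (1 - ν) * o.f o.j) * lg

/-- Exact bounds. -/
structure Alg : Prop where
  box : ∀ ω ∈ o.P.S, |o.x.a1 ω| ≤ 1 ∧ |o.x.a2 ω| ≤ 1 ∧ |o.x.e1 ω| ≤ 1 ∧ |o.x.e2 ω| ≤ 1 ∧
    0 ≤ o.x.z ω ∧ o.x.z ω < 1 ∧ |o.x.g ω| ≤ 1 ∧ rn (o.f o.j) (o.x.g ω) = o.x.g ω
  mono : Monotone o.f
  flo : o.j + o.d + o.f o.j ≤ o.M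

/-- `K` is a label of level `k` with body `A⁻¹` (unit ball), anchor `τ` and slack `L`. -/
structure Lab (k : ℕ) (L : ℝ) {γ : Type} (K : o.Ω → γ) (A : o.Ω → Mt) (τ : o.Ω → ℝ) : Prop where
  fθ : Fn o.P o.x.θ K
  fz : Fn o.P (fun ω => fl1 k (o.x.z ω)) K
  fA : Fn o.P A K
  fτ : Fn o.P τ K
  bd : ∀ ω ∈ o.P.S, (A ω).dt ≠ 0 ∧ ‖A ω‖ ≤ L * 2 ^ o.M ∧ |τ ω - o.x.z ω| ≤ L / 2 ^ k
  pr : ∀ a ∈ o.P.S, ∀ b ∈ o.P.S, K a = K b →
    ‖(A a).ap (o.x.a1 a - o.x.a1 b + τ a * (o.x.e1 a - o.x.e1 b))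
      (o.x.a2 a - o.x.a2 b + τ a * (o.x.e2 a - o.x.e2 b))‖ ≤ L ∧
    ‖(A a).ap (o.x.e1 a - o.x.e1 b) (o.x.e2 a - o.x.e2 b)‖ ≤ L * 2 ^ k

end Ob

section Seq

variable (o : ℕ → Ob) (R : ℕ → ℕ)

/-- The laws. -/
abbrev oP : ∀ n, FP (o n).Ω := fun n => (o n).P

/-- `φ` holds on all events of all extensions. -/
def All (φ : (ℕ → Ob) → Prop) : Prop :=
  ∀ (W : ℕ → Type) (Q : ∀ n, FP (W n)) (ρ : ∀ n, W n → (o n).Ω), DnS Q ρ (oP o) →
    φ fun n => (o n).pull (Q n) (ρ n)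

/-- `k ≤ a ≤ b ≤ k + R`. -/
def In (k R a b : ℕ → ℕ) : Prop := ∀ᶠ n in UF, k n ≤ a n ∧ a n ≤ b n ∧ b n ≤ k n + R n

/-- The heights have rate `κ` in all windows of `[k, k + R]`. -/
def Hgt (κ : ℝ) (k R : ℕ → ℕ) (o : ℕ → Ob) : Prop := ∀ a b : ℕ → ℕ, In k R a b →
  Le R (fun n => κ * (b n - a n) * lg) (fun n => (o n).hz (a n) (b n)) ∧
    Le R (fun n => (o n).hz (a n) (b n)) fun n => κ * (b n - a n) * lg

/-- Every label of level `a` loses at least `β (j - a)` against the top label. -/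
def Opt (ν β : ℝ) (k R : ℕ → ℕ) (o : ℕ → Ob) : Prop := ∀ (a : ℕ → ℕ) (L : ℕ → ℝ) (γ : ℕ → Type)
  (K : ∀ n, (o n).Ω → γ n) (A : ∀ n, (o n).Ω → Mt) (τ : ∀ n, (o n).Ω → ℝ), In k R a a → Sub R L →
  (∀ᶠ n in UF, (o n).Lab (a n) (L n) (K n) (A n) (τ n)) →
  Le R (fun n => (o n).Phi ν (K n) (A n) + β * ((o n).j - a n) * lg) fun n => (o n).top ν

/-- A window `[k, k + R]` below the top level, with exact height rate. -/
structure Bs (κ : ℝ) (o : ℕ → Ob) (k R : ℕ → ℕ) : Prop where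
  big : Big R
  alg : ∀ᶠ n in UF, (o n).Alg ∧ k n + R n ≤ (o n).j
  hgt : All o (Hgt κ k R)

/-- The frame of level `a` is almost a function of the line and the height window, and no more
digits are known. -/
structure Rot (o : ℕ → Ob) (k R : ℕ → ℕ) : Prop where
  det : ∀ a : ℕ → ℕ, In k R a a → Sm R fun n =>
    ch (o n).P (fun ω => fl1 ((o n).f (a n)) ((o n).x.g ω)) ((o n).w (a n))
  nd : ∀ a b : ℕ → ℕ, In k R a a → Frac b R →
    (∀ᶠ n in UF, (o n).f (a n) + b n ≤ (o n).f (o n).j) →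
    NA (oP o) (fun n => (o n).x.g) (fun n => 1 / 2 ^ ((o n).f (a n) + b n)) fun n => (o n).wn (a n)

/-- An extremal system. -/
structure XT (ν β κ : ℝ) (o : ℕ → Ob) (k R : ℕ → ℕ) : Prop extends Bs κ o k R where
  top : ∀ᶠ n in UF, k n + R n = (o n).j
  lgM : Sub R fun n => ((o n).M : ℝ) + 1
  opt : All o (Opt ν β k R)

/-- An extremal system with minimal rotation. -/
structure XR (ν β κ : ℝ) (o : ℕ → Ob) (k R : ℕ → ℕ) : Prop extends XT ν β κ o k R, Rot o k R where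
  rb : ∀ a : ℕ → ℕ, In k R a a →
    Le R (fun n => ν * ((o n).f (o n).j - (o n).f (a n))) fun n => 3 * ((o n).j - a n)

/-- The frame does not move near the top. -/
def Fixd (o : ℕ → Ob) (R : ℕ → ℕ) : Prop := ∃ y : ℕ → ℕ, Frac y R ∧
  Sm R fun n => ((o n).f (o n).j : ℝ) - (o n).f ((o n).j - y n)

/-- Few lateral directions in small caps. -/
def Few (γ w : ℝ) (R : ℕ → ℕ) (o : ℕ → Ob) : Prop := ∀ a : ℕ → ℕ,
  (∀ᶠ n in UF, (a n : ℝ) ≤ w * R n) →
  Le R (fun n => ch (o n).P ((o n).ep (a n)) ((o n).S (o n).j)) fun n => γ * a n * lg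

/-- On some event, few lateral directions on all smaller events. -/
def Poor (γ : ℝ) (o : ℕ → Ob) (R : ℕ → ℕ) : Prop :=
  ∃ (W : ℕ → Type) (Q : ∀ n, FP (W n)) (ρ : ∀ n, W n → (o n).Ω) (w : ℝ), DnS Q ρ (oP o) ∧ 0 < w ∧
    ∀ E, Pos Q E → Few γ w R fun n => (o n).pull (cE (Q n) (E n)) (ρ n)

/-- At most `ι` units of information on the line per level. -/
def Up (ι : ℝ) (k R : ℕ → ℕ) (o : ℕ → Ob) : Prop := ∀ a b : ℕ → ℕ, In k R a b →
  Le R (fun n => (o n).J (a n) (b n)) fun n => ι * (b n - a n) * lg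

/-- The frame rotates with constant speed `r`. -/
def Spd (r : ℝ) (k R : ℕ → ℕ) (o : ℕ → Ob) : Prop := ∀ a b : ℕ → ℕ, In k R a b →
  Le R (fun n => ((o n).f (b n) : ℝ) - (o n).f (a n)) (fun n => r * (b n - a n)) ∧
    Le R (fun n => r * (b n - a n)) fun n => ((o n).f (b n) : ℝ) - (o n).f (a n)

/-- The lateral point and the lateral line share one unit of information per level. -/
def Plx (k R : ℕ → ℕ) (o : ℕ → Ob) : Prop := ∀ a b : ℕ → ℕ, In k R a b →
  Le R (fun n => (b n - a n) * lg) fun n => mi (o n).P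
    (fun ω => (fl1 (b n) ((o n).x.z ω), fl1 (b n + (o n).d) ((o n).x.y1 (b n) ω)))
    (fun ω => (fl1 (b n + (o n).d) ((o n).x.y1 (a n) ω), (o n).ep (b n - a n) ω)) ((o n).S (a n))

/-- Rotation gives information on the line. -/
def L6 (k R : ℕ → ℕ) (o : ℕ → Ob) : Prop := ∀ a b : ℕ → ℕ, In k R a b →
  Le R (fun n => (((o n).f (b n) : ℝ) - (o n).f (a n) - (b n - a n)) * lg)
    fun n => (o n).J (a n) (b n)

/-- A window with a deep top label and spread lateral directions. -/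
structure Dp (κ : ℝ) (o : ℕ → Ob) (k R : ℕ → ℕ) : Prop extends Bs κ o k R, Rot o k R where
  deep : ∀ᶠ n in UF, (o n).f (k n + R n) + R n ≤ (o n).f (o n).j
  ne : ∀ b : ℕ → ℕ, Frac b R → NA (oP o) (fun n => (o n).x.e1)
    (fun n => 1 / 2 ^ ((o n).d + b n)) fun n => (o n).S (o n).j

/-- The class in which the loss per level is maximised. -/
structure Gen (κ : ℝ) (o : ℕ → Ob) (k R : ℕ → ℕ) : Prop extends Dp κ o k R where
  plx : All o (Plx k R)
  l6 : All o (L6 k R)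

/-- An extremal member. -/
structure Lin (κ r ι : ℝ) (o : ℕ → Ob) (k R : ℕ → ℕ) : Prop extends Gen κ o k R where
  lin : Spd r k R o
  up : All o (Up ι k R)

/-- A tangent window; the lateral direction to the depth `D ≫ R` is independent of the cells. -/
structure Tan (κ r ι : ℝ) (o : ℕ → Ob) (k R D : ℕ → ℕ) : Prop extends Dp κ o k R where
  lin : Spd r k R o
  up : All o (Up ι k R)
  cap : ∀ C : ℕ, ∀ᶠ n in UF, C * R n ≤ D n
  ind : ∀ a b : ℕ → ℕ, In k R a b → Sm R fun n =>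
    mi (o n).P ((o n).ep (D n)) ((o n).S (b n)) ((o n).S (a n))
  lat : ∀ a b : ℕ → ℕ, In k R a b → Le R (fun n => (b n - a n) * lg) fun n =>
    ch (o n).P (fun ω => fl1 (b n + (o n).d) ((o n).x.y1 (a n) ω)) fun ω =>
      ((o n).S (a n) ω, (o n).ep (D n) ω)

/-- The tilt is an affine function of the lateral position, to relative depth `c`, with
coefficients of negligible entropy. -/
def Com (c : ℝ) (o : ℕ → Ob) (k R D : ℕ → ℕ) : Prop :=
  ∃ (Λ : ℕ → Type) (la : ∀ n, (o n).Ω → Λ n) (ko c0 : ∀ n, Λ n → ℝ) (L : ℕ → ℝ),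
    Sub R L ∧ Sm R (fun n => ch (o n).P (la n) fun ω => ((o n).S (k n) ω, (o n).ep (D n) ω)) ∧
    Whp (oP o) fun n ω => 1 ≤ L n * |ko n (la n ω)| ∧ |ko n (la n ω)| ≤ L n ∧
      |2 ^ ((o n).d + (o n).f (k n)) * (o n).x.tl ((o n).f (k n)) ω -
        ko n (la n ω) * (2 ^ (k n + (o n).d) * (o n).x.y1 (k n) ω) - c0 n (la n ω)| ≤
          Real.exp (-(c * R n))

/-- The range of the parameters. -/
structure Par (ν β κ : ℝ) : Prop where
  n0 : 0 < ν
  n1 : ν < 1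
  k1 : κ ≤ 1
  b2 : β ≤ 2
  gap : 2 * (1 - κ) + ν < β

end Seq

end Pool.Agent.MP_5168f5_an.MX
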