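import Pool.Agent.MP_5168f5_an.MX.QDg

/-! The extremal classes are closed under diagonal limits. -/

namespace Pool.Agent.MP_5168f5_an.MX

open H19 H17S H17F R4.K31 Filter

theorem Mt.ap_smul (c : ℝ) (A : Mt) (u v : ℝ) : Mt.ap (c • A) u v = c • A.ap u v := by
  simp only [Mt.ap, Prod.smul_fst, Prod.smul_snd, Prod.smul_mk, smul_eq_mul, Prod.mk.injEq]
  constructor <;> ring

theorem Mt.dt_smul (c : ℝ) (A : Mt) : Mt.dt (c • A) = c ^ 2 * A.dt := by
  simp only [Mt.dt, Prod.smul_fst, Prod.smul_snd, smul_eq_mul]; ring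

theorem Mt.val_smul (ν : ℝ) {c : ℝ} (hc : 0 < c) {A : Mt} (h : A.dt ≠ 0) :
    Mt.val ν (c • A) = A.val ν + 2 * Real.log c := by
  have h0 : ‖A‖ ≠ 0 := fun e => h (by rw [norm_eq_zero.1 e]; simp [Mt.dt])
  rw [Mt.val, Mt.val, Mt.dt_smul, norm_smul, abs_mul, Real.norm_eq_abs, abs_of_pos hc,
    abs_of_pos (by positivity), Real.log_mul (by positivity) (abs_ne_zero.2 h),
    Real.log_mul hc.ne' h0, Real.log_pow]
  push_cast; ring

/-- The slack of a label can be moved into the matrix. -/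
theorem Ob.Lab.one {o : Ob} {k : ℕ} {L : ℝ} {γ : Type} {K : o.Ω → γ} {A : o.Ω → Mt}
    {τ : o.Ω → ℝ} (h : o.Lab k L K A τ) (hL : 1 ≤ L) :
    o.Lab k 1 K (fun ω => (3 * L ^ 2)⁻¹ • A ω) fun ω => rn k (o.x.z ω) := by
  have c0 : (0 : ℝ) < 3 * L ^ 2 := by positivity
  have sc : ∀ {E : Type} [SeminormedAddCommGroup E] [NormedSpace ℝ E] {x : E} {b : ℝ},
      ‖x‖ ≤ 3 * L ^ 2 * b → ‖(3 * L ^ 2)⁻¹ • x‖ ≤ b := fun e => by
    rw [norm_smul, Real.norm_eq_abs, abs_of_pos (inv_pos.2 c0), inv_mul_le_iff₀ c0]; exact e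
  have tz : ∀ a, |rn k (o.x.z a) - o.x.z a| ≤ 1 / 2 ^ k := fun a => by
    rw [abs_le]; constructor <;> linarith [rn_le k (o.x.z a), lt_rn k (o.x.z a),
      show (0 : ℝ) < 1 / 2 ^ k by positivity]
  have l0 : L ≤ 3 * L ^ 2 := by nlinarith
  refine ⟨h.fθ, h.fz, (Fn.comp _ A).trans h.fA, fn_rn h.fz, fun a ha => ⟨?_, sc ?_, tz a⟩,
    fun a ha b hb e => ?_⟩
  · rw [Mt.dt_smul]; exact mul_ne_zero (by positivity) (h.bd a ha).1
  · rw [one_mul]
    exact (h.bd a ha).2.1.trans (mul_le_mul_of_nonneg_right l0 (by positivity))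
  · obtain ⟨c1, c2⟩ := h.pr a ha b hb e
    rw [Mt.ap_smul, Mt.ap_smul, one_mul]
    refine ⟨sc ?_, sc (c2.trans (mul_le_mul_of_nonneg_right l0 (by positivity)))⟩
    have c3 : |rn k (o.x.z a) - τ a| ≤ (1 + L) / 2 ^ k := by
      have := abs_sub_le (rn k (o.x.z a)) (o.x.z a) (τ a)
      rw [abs_sub_comm (o.x.z a)] at this
      rw [add_div]; linarith [tz a, (h.bd a ha).2.2]
    have c4 := (norm_add_le _ _).trans (add_le_add c1
      ((norm_smul_le (rn k (o.x.z a) - τ a) _).trans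
        (mul_le_mul c3 c2 (norm_nonneg _) (by positivity))))
    rw [show (1 + L) / 2 ^ k * (L * 2 ^ k) = (1 + L) * L by field_simp] at c4
    refine le_trans (le_of_eq (congrArg _ ?_)) (c4.trans (by nlinarith))
    simp only [Mt.ap, Prod.smul_mk, Prod.mk_add_mk, smul_eq_mul, Prod.mk.injEq]
    constructor <;> ring

/-- The data of a label. -/
structure Ld (W : Type) : Type 1 where
  a : ℕ
  γ : Type
  K : W → γ
  A : W → Mt
  τ : W → ℝ

attribute [local irreducible] ch mi pb fl1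

theorem opt_iff {ν β : ℝ} {k R : ℕ → ℕ} {o : ℕ → Ob} (hR : Big R) : Opt ν β k R o ↔
    ∀ y : ∀ n, Ld (o n).Ω, In k R (fun n => (y n).a) (fun n => (y n).a) →
      (∀ᶠ n in UF, (o n).Lab (y n).a 1 (y n).K (y n).A (y n).τ) →
      Le R (fun n => (o n).Phi ν (y n).K (y n).A + β * ((o n).j - (y n).a) * lg)
        fun n => (o n).top ν := by
  refine ⟨fun h y e u => h _ _ _ _ _ _ e (hR.sub le_rfl) u, fun h a L γ K A τ e hL u => ?_⟩
  refine Le.of2 (h (fun n => ⟨a n, γ n, K n, _, _⟩) e (u.mono fun n v => v.one (hL.1 n)))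
    ((((hL.pow 2).const_mul hR (C := 3) (by norm_num)).log).smul zero_le_two)
    (u.mono fun n v => le_of_eq ?_)
  have := hL.pos n
  simp only [Ob.Phi]
  rw [(o n).P.E_congr fun ω hω => Mt.val_smul ν (c := (3 * L n ^ 2)⁻¹) (by positivity)
    (v.bd ω hω).1, FP.E_add, FP.E_const, Real.log_inv]
  ring

namespace Dg

variable {X : Type 1} (o : X → Ob) (k R : X → ℕ) {ν β κ : ℝ}

/-- Optimality against labels without slack. -/
def Op1 (ν β : ℝ) (k R : ℕ → ℕ) (o : ℕ → Ob) : Prop :=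
  ∀ y : ∀ n, Ld (o n).Ω, In k R (fun n => (y n).a) (fun n => (y n).a) →
    (∀ᶠ n in UF, (o n).Lab (y n).a 1 (y n).K (y n).A (y n).τ) →
    Le R (fun n => (o n).Phi ν (y n).K (y n).A + β * ((o n).j - (y n).a) * lg)
      fun n => (o n).top ν

theorem op1 :
    Dg fun x : ℕ → X => Op1 ν β (fun n => k (x n)) (fun n => R (x n)) fun n => o (x n) :=
  @pi X (fun a => Ld (o a).Ω) _ (fun _ => ⟨⟨0, Unit, fun _ => (), fun _ => 0, fun _ => 0⟩⟩)
    (imp (nev fun _ _ => rfl) (imp (nev fun _ _ => rfl) (le fun _ _ => rfl)))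

theorem subs {L : X → ℝ} : Dg fun x : ℕ → X => ∀ ε : ℝ, 0 < ε →
    ∀ᶠ n in UF, L (x n) ≤ Real.exp (ε * R (x n)) :=
  eps (fun _ _ => ev fun _ _ => rfl) fun _ _ _ _ e u => u.mono fun n a => a.trans (by gcongr)

theorem xt :
    Dg fun x : ℕ → X => XT ν β κ (fun n => o (x n)) (fun n => k (x n)) fun n => R (x n) :=
  ((bs o k R).and ((ev fun _ _ => rfl).and ((subs R (L := fun a => ((o a).M : ℝ) + 1)).and
    (al o k R fun _ o k R => op1 o k R)))).congr fun _ =>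
    ⟨fun h => ⟨h.toBs, h.top, h.lgM.2, h.opt.mono fun _ => (opt_iff h.big).1⟩, fun h =>
      ⟨h.1, h.2.1, ⟨fun _ => le_add_of_nonneg_left (Nat.cast_nonneg _), h.2.2.1⟩,
        h.2.2.2.mono fun _ => (opt_iff h.1.big).2⟩⟩

theorem xr :
    Dg fun x : ℕ → X => XR ν β κ (fun n => o (x n)) (fun n => k (x n)) fun n => R (x n) :=
  ((xt o k R).and ((rot o k R).and (in1 k R (le fun _ _ => rfl)))).congr fun _ =>
    ⟨fun h => ⟨h.toXT, h.toRot, h.rb⟩, fun h => ⟨h.1, h.2.1, h.2.2⟩⟩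

end Dg

end Pool.Agent.MP_5168f5_an.MX
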