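import Pool.Agent.MP_5168f5_an.MX.QApi
import Pool.Agent.MP_5168f5_an.MX.QDg
import Pool.Agent.MP_5168f5_an.R4.Api

/-! Maximal loss and minimal rotation. -/

namespace Pool.Agent.MP_5168f5_an.MX

open H19 H17S H17F R4.K31 Filter

namespace QLin

attribute [local irreducible] ch mi pb

theorem cf_max {S : ℕ → Type 1} {K : (∀ n, S n) → Prop} (h : R4.CF K) (m : ∀ n, S n → ℕ)
    (f : ∀ n, S n → ℝ) (C c : ℝ) (hb : ∀ x, K x → Big (fun n => m n (x n)) ∧
      Le (fun n => m n (x n)) (fun n => f n (x n)) fun n => C * m n (x n))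
    (h0 : ∃ x, K x ∧ Le (fun n => m n (x n)) (fun n => c * m n (x n)) fun n => f n (x n)) :
    ∃ s : ℝ, (∃ x, K x ∧ Le (fun n => m n (x n)) (fun n => s * m n (x n)) fun n => f n (x n)) ∧
      ∀ x, K x → Le (fun n => m n (x n)) (fun n => f n (x n)) fun n => s * m n (x n) := by
  let A : Set ℝ := {r | ∃ x, K x ∧
    Le (fun n => m n (x n)) (fun n => r * m n (x n)) fun n => f n (x n)}
  have bd : BddAbove A := ⟨C, fun r ⟨x, a, b⟩ => (b.trans (hb x a).2).num (hb x a).1⟩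
  refine ⟨sSup A, ?_, fun x hx => Le.eps fun ε hε => ?_⟩
  · have e : ∀ k : ℕ, ∃ r ∈ A, sSup A - 1 / (k + 1 : ℝ) < r := fun k =>
      exists_lt_of_lt_csSup ⟨c, h0⟩ (by linarith [Nat.one_div_pos_of_nat (α := ℝ) (n := k)])
    choose r hr e using e
    choose y h1 h2 using hr
    obtain ⟨k, -, e⟩ := R4.cf_diag (fun i : ℕ => h.and (R4.cf_le m
      (fun n x => (sSup A - 1 / (i + 1 : ℝ)) * m n x) f)) y fun k i hi =>
        ⟨h1 k, (Le.of_le fun n => mul_le_mul_of_nonneg_right (by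
          linarith [e k, Nat.one_div_le_one_div (α := ℝ) hi]) (Nat.cast_nonneg _)).trans (h2 k)⟩
    refine ⟨_, (e 0).1, Le.eps fun ε hε => ?_⟩
    obtain ⟨i, hi⟩ := exists_nat_one_div_lt hε
    exact (e i).2.of_sub (Eventually.of_forall fun n => by
      linarith [mul_le_mul_of_nonneg_right hi.le (Nat.cast_nonneg (α := ℝ) (m n (y (k n) n)))])
  · refine ((Le.total _ (fun n => f n (x n)) fun n => (sSup A + ε) * m n (x n)).resolve_right
      fun e => ?_).of_sub (Eventually.of_forall fun n => by linarith)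
    linarith [le_csSup bd (show sSup A + ε ∈ A from ⟨x, hx, e⟩)]

/-- `Φ` has rate at most `s` in all windows. -/
def Rt (Φ : Ob → ℕ → ℕ → ℝ) (s : ℝ) (o : ℕ → Ob) (k R : ℕ → ℕ) : Prop :=
  ∀ a b, In k R a b → Le R (fun n => Φ (o n) (a n) (b n)) fun n => s * (b n - a n)

/-- `Φ` has total rate at least `s`. -/
def Lo (Φ : Ob → ℕ → ℕ → ℝ) (s : ℝ) (o : ℕ → Ob) (k R : ℕ → ℕ) : Prop :=
  Le R (fun n => s * R n) fun n => Φ (o n) (k n) (k n + R n)

variable {Φ : Ob → ℕ → ℕ → ℝ} {s : ℝ} {o : ℕ → Ob} {k R a b : ℕ → ℕ}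

theorem ext (K : (ℕ → Ob) → (ℕ → ℕ) → (ℕ → ℕ) → Prop) (Φ : Ob → ℕ → ℕ → ℝ) (C c : ℝ)
    (cf : R4.CF fun y : ∀ _ : ℕ, Ob × ℕ × ℕ =>
      K (fun n => (y n).1) (fun n => (y n).2.1) fun n => (y n).2.2)
    (hw : ∀ o k R k' R', K o k R → Wi k R k' R' → K o k' R')
    (hb : ∀ o k R, K o k R → Big R ∧ Rt Φ C o k R) (h0 : ∃ o k R, K o k R ∧ Lo Φ c o k R) :
    ∃ s : ℝ, (∃ o k R, K o k R ∧ Lo Φ s o k R) ∧ ∀ o k R, K o k R → Rt Φ s o k R := by
  obtain ⟨s, ⟨y, h1⟩, h2⟩ := cf_max cf (fun _ y => y.2.2) (fun _ y => Φ y.1 y.2.1 (y.2.1 + y.2.2))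
    C c (fun y hy => ⟨(hb _ _ _ hy).1, ((hb _ _ _ hy).2 _ _ (in_all _ _)).of_sub
      (Eventually.of_forall fun n => by push_cast; linarith)⟩)
    (h0.elim fun o ⟨k, R, h⟩ => ⟨fun n => (o n, k n, R n), h⟩)
  refine ⟨s, ⟨_, _, _, h1⟩, fun o k R h a b e => ?_⟩
  have e1 : ∀ᶠ n in UF, a n + min (b n - a n) (R n) = b n := e.mono fun n u => by omega
  have e2 : ∀ᶠ n in UF, ((min (b n - a n) (R n) : ℕ) : ℝ) = b n - a n := e1.mono fun n u => by
    rw [eq_sub_iff_add_eq']; exact_mod_cast u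
  refine Le.win (i := fun n => min (b n - a n) (R n)) (fun n => min_le_right _ _) (C - s)
    (fun f => ?_) (((hb o k R h).2 a b e).of_sub (e2.mono fun n u => by rw [u]; linarith))
  exact ((h2 (fun n => (o n, a n, min (b n - a n) (R n))) (hw o k R _ _ h
    ⟨f, (e.and e1).mono fun n u => by simp only [u.2]; exact u.1⟩)).up f.1).congr
      (e1.mono fun n u => by simp only [u]) (e2.mono fun n u => by simp only [u])

theorem rev (add : ∀ o a b c, Φ o a b + Φ o b c = Φ o a c) (h : Rt Φ s o k R) (h' : Lo Φ s o k R)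
    (e : In k R a b) : Le R (fun n => s * (b n - a n)) fun n => Φ (o n) (a n) (b n) :=
  Le.of3 h' (h k a (e.mono fun _ u => ⟨le_rfl, u.1, u.2.1.trans u.2.2⟩))
    (h b (fun n => k n + R n) (e.mono fun _ u => ⟨u.1.trans u.2.1, u.2.2, le_rfl⟩))
    (Eventually.of_forall fun n => by
      push_cast
      linarith [add (o n) (k n) (a n) (b n), add (o n) (k n) (b n) (k n + R n)])

theorem Lo.win (add : ∀ o a b c, Φ o a b + Φ o b c = Φ o a c) (h : Rt Φ s o k R)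
    (h' : Lo Φ s o k R) {k' R' : ℕ → ℕ} (w : Wi k R k' R') : Lo Φ s o k' R' :=
  ((rev add h h' w.sub).frac w.frac).of_sub (Eventually.of_forall fun n => by push_cast; linarith)

theorem mix (o : Ob) (ν : ℝ) (a b : ℕ) {W : Type} {Q : FP W} {ρ : W → o.Ω} {T : FP (o.Ω × Bool)}
    {p : ℝ} (h1 : Law T Prod.fst o.P id) (h2 : pb T (fun v => v.2 = true) = p)
    (h3 : Law (cE T fun v => v.2 = true) Prod.fst Q ρ) :
    o.F ν a b ≤ p * (o.pull Q ρ).F ν a b +
      (1 - p) * (o.pull (cE T fun v => ¬v.2 = true) Prod.fst).F ν a b + lg := by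
  have h4 := rowKE.ge T (fun v => v.2 = true) (fun v => o.x.l v.1) fun v => o.S a v.1
  have h5 := rowKE.le T (fun v => v.2 = true) (fun v => o.x.l v.1) fun v => o.S b v.1
  rw [h1.ch_id, h3.ch_eq o.x.l, h2] at h4 h5
  have e : ∀ {W : Type} (Q : FP W) (ρ : W → o.Ω), (o.pull Q ρ).F ν a b =
      (2 * (b - a) + (1 - ν) * (o.f b - o.f a)) * lg -
        (ch Q (fun v => o.x.l (ρ v)) (fun v => o.S a (ρ v)) -
          ch Q (fun v => o.x.l (ρ v)) fun v => o.S b (ρ v)) := fun _ _ => rfl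
  rw [e, e, Ob.F, Ob.J]
  linarith

theorem pull {ν κ : ℝ} (hs : ∀ o k R, Gen κ o k R → Rt (fun o => o.F ν) s o k R)
    (h : Gen κ o k R) (h' : Lo (fun o => o.F ν) s o k R) {W : ℕ → Type} {Q : ∀ n, FP (W n)}
    {ρ : ∀ n, W n → (o n).Ω} (d : DnS Q ρ (oP o)) (e : In k R a b) :
    Le R (fun n => s * (b n - a n)) fun n => ((o n).pull (Q n) (ρ n)).F ν (a n) (b n) := by
  obtain ⟨C, c1, d⟩ := d
  have : ∀ n, ∃ T : FP ((o n).Ω × Bool), Law T Prod.fst (o n).P id ∧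
      (Dn C (Q n) (ρ n) (o n).P → pb T (fun v => v.2 = true) = (2 * C)⁻¹ ∧
        Law (cE T fun v => v.2 = true) Prod.fst (Q n) (ρ n)) := fun n => by
    by_cases k : Dn C (Q n) (ρ n) (o n).P
    · exact (k.mono (by linarith : C ≤ 2 * C)).split.imp fun T u => ⟨u.1, fun _ => u.2⟩
    · exact (R4.K31.dn_rfl (o n).P).split.imp fun T u => ⟨u.1, fun e => absurd e k⟩
  choose T h1 h2 using this
  have p0 : 0 < (2 * C)⁻¹ := by positivity
  have p1 : (2 * C)⁻¹ ≤ 2⁻¹ := inv_anti₀ two_pos (by linarith)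
  have d' : DnS (fun n => cE (T n) fun v => ¬v.2 = true) (fun _ => Prod.fst) (oP o) :=
    dn_ev (dn_law h1) ⟨2⁻¹, by positivity, d.mono fun n u => by rw [pb_not, (h2 n u).1]; linarith⟩
  refine Le.of_mul p0 (Eventually.of_forall fun _ => le_rfl) (Le.of3
    (rev (fun o => o.F_add ν) (hs o k R h) h' e)
    ((hs _ k R (h.pull d') a b e).smul (c := 1 - (2 * C)⁻¹) (by linarith)) (h.big.sm lg)
    (d.mono fun n u => ?_))
  linarith [mix (o n) ν (a n) (b n) (h1 n) (h2 n u).1 (h2 n u).2]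

theorem of_cf (cf : ∀ κ, R4.CF fun y : ∀ _ : ℕ, Ob × ℕ × ℕ =>
    Gen κ (fun n => (y n).1) (fun n => (y n).2.1) fun n => (y n).2.2) : SLin := by
  intro ν β κ p h
  have l0 := lg_pos
  have n0 := p.n0
  have P0 : ∀ {o : ℕ → Ob} {k R a b : ℕ → ℕ}, Gen κ o k R → In k R a b →
      ∀ᶠ n in UF, ((o n).f (a n) : ℝ) ≤ (o n).f (b n) := fun g e =>
    (g.mono.and e).mono fun n u => Nat.cast_le.2 (u.1 u.2.2.1)
  obtain ⟨s, ⟨o, k, R, g, g'⟩, hs⟩ := ext (Gen κ) (fun o => o.F ν) (3 * lg) ((β - 1) * lg) (cf κ)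
    (fun _ _ _ _ _ => Gen.win) (fun o k R g => ⟨g.big, fun a b e =>
      (g.l6.self a b e).of_sub ((P0 g e).mono fun n u => by
        simp only [Ob.F]
        nlinarith [mul_nonneg (mul_pos n0 l0).le (sub_nonneg.2 u)])⟩)
    (by
      obtain ⟨o, k, R, a, b⟩ := h 1 one_pos
      exact ⟨o, k, R, a, b.of_sub (Eventually.of_forall fun n => by linarith)⟩)
  have hβ : β * lg ≤ s := le_of_forall_pos_le_add fun ε hε => by
    obtain ⟨o, k, R, a, b⟩ := h (ε / lg) (by positivity)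
    have := ((b.trans (hs o k R a _ _ (in_all k R))).of_sub (f := fun n => (β * lg - ε) * R n)
      (g := fun n => s * R n) (Eventually.of_forall fun n => by
        push_cast; field_simp; linarith)).num a.big
    linarith
  obtain ⟨t, ⟨o, k, R, ⟨g, g'⟩, g''⟩, ht⟩ := ext (fun o k R => Gen κ o k R ∧
      Lo (fun o => o.F ν) s o k R) (fun o a b => (o.f a : ℝ) - o.f b) 0 ((s - 3 * lg) / (ν * lg))
    ((cf κ).and (R4.cf_le (fun _ (y : Ob × ℕ × ℕ) => y.2.2) (fun _ y => s * y.2.2)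
      fun _ y => y.1.F ν y.2.1 (y.2.1 + y.2.2)))
    (fun o k R _ _ g w => ⟨g.1.win w, Lo.win (fun o => o.F_add ν) (hs o k R g.1) g.2 w⟩)
    (fun o k R g => ⟨g.1.big, fun a b e => Le.of_ev ((P0 g.1 e).mono fun n u => by linarith)⟩)
    ⟨o, k, R, ⟨g, g'⟩, Le.of_mul (p := fun _ => ν * lg) (mul_pos n0 l0)
      (Eventually.of_forall fun _ => le_rfl) (Le.of2 g' (g.l6.self _ _ (in_all k R))
        (Eventually.of_forall fun n => by
          simp only [Ob.F]
          rw [← mul_assoc, mul_div_cancel₀ _ (mul_pos n0 l0).ne']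
          push_cast; linarith))⟩
  have t0 : t ≤ 0 := (Le.trans g'' (Le.of_ev ((P0 g (in_all k R)).mono fun n u => by
    linarith))).num (b := 0) g.big
  have sp : Spd (-t) k R o := fun a b e =>
    ⟨(rev (fun o a b c => by ring) (ht o k R ⟨g, g'⟩) g'' e).of_sub
      (Eventually.of_forall fun n => by linarith),
      (ht o k R ⟨g, g'⟩ a b e).of_sub (Eventually.of_forall fun n => by linarith)⟩
  refine ⟨-t, 2 + (1 - ν) * -t - s / lg, o, k, R, by linarith, ⟨g, sp, fun W Q ρ d a b e =>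
    Le.of2 (pull hs g g' d e) ((sp a b e).1.smul (mul_pos (sub_pos.2 p.n1) l0).le)
      (Eventually.of_forall fun n => ?_)⟩, by linarith [(le_div_iff₀ l0).2 hβ]⟩
  have : s / lg * (b n - a n) * lg = s * (b n - a n) := by field_simp
  simp only [Ob.F]
  linarith

end QLin

theorem rowSLin : SLin :=
  QLin.of_cf fun κ => (Dg.gen (κ := κ) (fun y : Ob × ℕ × ℕ => y.1) (fun y => y.2.1)
    fun y => y.2.2).elim fun A a => ⟨fun k _ => A k, a⟩

end Pool.Agent.MP_5168f5_an.MX
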