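import Pool.Agent.MP_5168f5_an.MX.PLMain
import Pool.Agent.MP_5168f5_an.MX.QApi

/-! The planar lemma in the cells. -/

namespace Pool.Agent.MP_5168f5_an.MX

open H19 H17S H17F R4.K31 Filter

namespace PlxA

open PLA

variable (o : Ob) (a : ℕ)

/-- The lateral position at the left end of the window. -/
noncomputable def xA (ω : o.Ω) : ℝ := 2 ^ (a + o.d) * o.x.y1 a ω

/-- The lateral position at the height of the point. -/
noncomputable def xP (ω : o.Ω) : ℝ := xA o a ω + bl o.x.z a ω * bl o.x.e1 o.d ω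

variable {o a} {m b : ℕ} {β : Type} {G : o.Ω → β}

theorem bl_eq {Ω : Type} (X : Ω → ℝ) (j : ℕ) (ω : Ω) : bl X j ω = 2 ^ j * (X ω - rn j (X ω)) := by
  simp only [bl, rn, fl1, Int.fract]; field_simp

theorem bl_le {Ω : Type} (X : Ω → ℝ) (j : ℕ) (ω : Ω) : |bl X j ω| ≤ 1 :=
  Int.abs_fract.trans_le (Int.fract_lt_one _).le

theorem ch_xP (hb : a + m ≤ b) (hG : Fn o.P (fun ω => (fl1 b (o.x.z ω), fl1 o.d (o.x.e1 ω),
    fl1 (b + o.d) (o.x.y1 b ω))) G) :
    ch o.P (fun ω => fl1 m (xP o a ω)) G ≤ Real.log (2 * 2 + 3) := by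
  refine ch_near1 zero_le_two fun u hu v hv e => ?_
  have e0 := hG u hu v hv e
  simp only [Prod.mk.injEq] at e0
  have e1 : xP o a u - xP o a v = 2 ^ (a + o.d) * (o.x.y1 b u - o.x.y1 b v +
      ((o.x.z u - rn b (o.x.z u)) * (o.x.e1 u - rn o.d (o.x.e1 u)) -
        (o.x.z v - rn b (o.x.z v)) * (o.x.e1 v - rn o.d (o.x.e1 v)))) := by
    simp only [xP, xA, bl_eq, Pl.y1, rn, e0.1, e0.2.1,
      fl1_eq_of_le (show a ≤ b by omega) e0.1]
    ring
  have e2 : ∀ w, 0 ≤ (o.x.z w - rn b (o.x.z w)) * (o.x.e1 w - rn o.d (o.x.e1 w)) ∧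
      (o.x.z w - rn b (o.x.z w)) * (o.x.e1 w - rn o.d (o.x.e1 w)) ≤ (2 ^ (b + o.d))⁻¹ := fun w =>
    ⟨mul_nonneg (PLA.cut _ _).1 (PLA.cut _ _).1, (mul_le_mul (PLA.cut _ _).2 (PLA.cut _ _).2
      (PLA.cut _ _).1 (by positivity)).trans_eq (by rw [pow_add, mul_inv])⟩
  have e3 := abs_lt.1 (abs_sub_lt_of_fl1_eq e0.2.2)
  have e4 := inv_le (show a + o.d + m ≤ b + o.d by omega)
  rw [e1, abs_mul, abs_of_pos (by positivity), ← le_div_iff₀' (by positivity), div_div,
    ← pow_add, add_comm m, two_div]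
  exact abs_le.2 ⟨by linarith [e2 u, e2 v], by linarith [e2 u, e2 v]⟩

theorem side (hm : Monotone o.f) (hb : a + m ≤ o.j) : ch o.P (fun ω => (o.S a ω,
    fl1 m (bl o.x.z a ω), fl1 m (xP o a ω))) (o.S o.j) ≤ 40 + Real.log (2 * 2 + 3) := by
  refine (ch_subadd _ _ _).trans (add_le_add (Ob.ch_S hm (by omega) (Fn.rfl _))
    ((ch_mono (F' := fun ω => fl1 m (xP o a ω)) fun u hu v hv e => ?_).trans
      (ch_xP hb ((o.S_z _).pair ((o.S_e _).pair (o.S_y _))))))
  have e1 := o.S_z _ u hu v hv (congrArg Prod.snd e)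
  simp only [fl_bl, Prod.mk.injEq, fl1_eq_of_le hb e1, fl1_eq_of_le (show a ≤ o.j by omega) e1,
    true_and]
  exact congrArg Prod.fst e

theorem hgt {j j' : ℕ} : ch o.P (fun ω => fl1 (a + j') (o.x.z ω)) (o.w (a + j)) ≤
    ch o.P (fun ω => fl1 j' (bl o.x.z a ω)) (fun ω => (fl1 j (bl o.x.z a ω), o.x.l ω, o.S a ω)) +
      ch o.P (fun ω => fl1 (o.f a) (o.x.g ω)) (o.w a) := by
  refine (ch_drop _ (fun ω => fl1 (o.f a) (o.x.g ω)) _).trans (add_le_add (ch_le ?_ ?_)
    (ch_anti (Ob.w_mono (Nat.le_add_right _ _))))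
  · intro u _ v _ e
    simp only [fl_bl, Ob.w, Prod.mk.injEq] at e
    have := e.1
    rw [fl1_eq_of_le (Nat.le_add_right a j) e.2.2.2] at this
    linarith
  · intro u hu v hv e
    simp only [Ob.w, Prod.mk.injEq] at e
    have e1 := fl1_eq_of_le (Nat.le_add_right a j) e.2.2
    simp only [fl_bl, e.2.2, e1, e.2.1, Prod.mk.injEq, true_and]
    exact o.S_wn a u hu v hv (Prod.ext e.2.1 (Prod.ext e1 e.1))

theorem out : mi o.P (fun ω => (fl1 m (bl o.x.z a ω), fl1 m (xP o a ω)))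
    (fun ω => (fl1 m (xA o a ω), fl1 m (bl o.x.e1 o.d ω))) (o.S a) ≤ mi o.P
    (fun ω => (fl1 (a + m) (o.x.z ω), fl1 (a + m + o.d) (o.x.y1 (a + m) ω)))
    (fun ω => (fl1 (a + m + o.d) (o.x.y1 a ω), o.ep m ω)) (o.S a) + Real.log (2 * 2 + 3) := by
  refine (mi_mono (G' := fun ω => (fl1 (a + m + o.d) (o.x.y1 a ω), o.ep m ω))
    fun u _ v _ e => ?_).trans ((mi_symm _ _ _).trans_le ((mi_near _ _ _ _).trans (add_le_add
      (mi_symm _ _ _).le ((ch_mono (F' := fun ω => fl1 m (xP o a ω)) fun u _ v _ e => ?_).trans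
        (ch_xP le_rfl (((Fn.fst _ _).left _).pair (((o.S_e a).right _).pair
          ((Fn.snd _ _).left _))))))))
  · simp only [Ob.ep, Prod.mk.injEq] at e
    simp only [xA, fl1_pow, fl_bl, e.1.2, fl1_eq_of_le (Nat.le_add_right _ m) e.1.2,
      add_right_comm a o.d, e.1.1]
  · simp only [Prod.mk.injEq] at e
    simp only [fl_bl, e.1, e.2.1.1, fl1_eq_of_le (Nat.le_add_right _ m) e.2.1.1]

theorem ep_le (j : ℕ) : ch o.P (o.ep j) (o.S o.j) ≤
    ch o.P (fun ω => fl1 j (bl o.x.e1 o.d ω)) (o.S o.j) := ch_mono fun u hu v hv e => by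
  have e1 : fl1 j (bl o.x.e1 o.d u) = fl1 j (bl o.x.e1 o.d v) := congrArg Prod.fst e
  have e2 : fl1 o.d (o.x.e1 u) = fl1 o.d (o.x.e1 v) := o.S_e _ u hu v hv (congrArg Prod.snd e)
  rw [fl_bl, fl_bl, e2] at e1
  exact sub_left_injective e1

end PlxA

open PlxA PLA

theorem rowPlx : SPlx := by
  intro ν β κ γ o k R p h h1 hP a b e
  obtain ⟨m, hm, hb⟩ : ∃ m : ℕ → ℕ, (∀ n, m n ≤ R n) ∧ ∀ᶠ n in UF, b n = a n + m n :=
    ⟨fun n => min (b n - a n) (R n), fun n => min_le_right _ _, e.mono fun n u => by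
      beta_reduce
      omega⟩
  refine Le.congr (f₁ := fun n => m n * lg) (g₁ := fun n => mi (o n).P
    (fun ω => (fl1 (a n + m n) ((o n).x.z ω),
      fl1 (a n + m n + (o n).d) ((o n).x.y1 (a n + m n) ω)))
    (fun ω => (fl1 (a n + m n + (o n).d) ((o n).x.y1 (a n) ω), (o n).ep (m n) ω)) ((o n).S (a n)))
    (Le.win hm lg (fun hf => ?_) (Le.of_le fun n => by
      rw [mul_comm]; exact le_add_of_nonneg_left (mi_nonneg _ _ _)))
    (hb.mono fun n u => by rw [u]; push_cast; ring)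
    (hb.mono fun n u => by rw [u, Nat.add_sub_cancel_left])
  have hM := h.big.frac hf
  refine (((pl (oP o) (fun n => (o n).S (a n)) (fun n => (o n).x.l) (fun n => (o n).S (o n).j)
    (fun n => xA (o n) (a n)) (fun n => bl (o n).x.e1 (o n).d) (fun n => bl (o n).x.z (a n))
    (fun n => xP (o n) (a n)) m (fun _ => 1) κ γ hM (hM.sub le_rfl)
    (by linarith [p.n0, p.b2, p.gap]) (by linarith [p.k1]) h1
    (Eventually.of_forall fun n => ⟨fun u hu v hv e => ?_, fun ω _ => ⟨bl_le _ _ _, bl_le _ _ _, by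
      rw [xP, sub_self, abs_zero]; positivity⟩⟩) ((hM.sm (40 + Real.log (2 * 2 + 3))).mono ?_)
    (fun E hE j j' hj => ?_) fun E hE w hw => ?_).add (hM.sm (Real.log (2 * 2 + 3)))).of_sub
      (Eventually.of_forall fun n => by
        linarith [out (o := o n) (a := a n) (m := m n)])).up hm
  · have e1 := (o n).S_z _ u hu v hv (congrArg Prod.snd e)
    have e2 : (o n).x.l u = (o n).x.l v := congrArg Prod.fst e
    simp only [Pl.l, Prod.mk.injEq] at e2
    simp only [xA, bl, Pl.y1, rn, e2.1, e2.2.2.1, e1]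
  · filter_upwards [h.alg, e, hb] with n u v w using side u.1.mono (by omega)
  · have i : In k R (fun n => a n + j n) fun n => a n + j' n := by
      filter_upwards [e, hb] with n v w
      have := hj n
      omega
    exact (((Le.of_le fun n => le_of_eq (by push_cast; ring)).trans (h.hgt.ev hE _ _ i).1).trans
      ((Le.of_le fun n => hgt (o := (o n).pull (cE (o n).P (E n)) id)).trans ((Le.rfl.add
        ((h.toRot.pull (dnS_cE hE)).det a e.left)).trans
          (Le.of_le fun n => (add_zero _).le)))).frac hf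
  · obtain ⟨-, c, hc, f⟩ := id hf
    by_contra q
    refine hP ⟨_, _, _, w * c, dnS_cE hE, by positivity, fun E' hE' j hj => ?_⟩
    by_contra q'
    refine q ⟨E', hE', j, ?_, fun t => q' ((Le.of_le fun n =>
      ep_le (o := (o n).pull (cE (cE (o n).P (E n)) (E' n)) id) (j n)).trans (t.up hm))⟩
    filter_upwards [hj, f] with n u v
    nlinarith

end Pool.Agent.MP_5168f5_an.MX
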