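import Pool.Agent.MP_5168f5_an.MX.QApi

/-! A window below the top level with almost the full loss. -/

namespace Pool.Agent.MP_5168f5_an.MX

open H19 H17S H17F Filter R4.K31 Finset

namespace StA

theorem F_sum (o : Ob) (ν : ℝ) (k r N : ℕ) :
    ∑ i ∈ range N, o.F ν (k + i * r) (k + i * r + r) = o.F ν k (k + N * r) := by
  induction N with
  | zero => simp [Ob.F, Ob.J]
  | succ N ih => rw [sum_range_succ, ih, Ob.F_add, Nat.succ_mul, add_assoc]

attribute [local irreducible] ch mi pb fl1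

variable {γ : ℝ} {o : ℕ → Ob} {R b : ℕ → ℕ}

theorem ne (hR : Big R) (h0 : 0 ≤ γ) (h : ¬Poor γ o R) (hb : Frac b R) :
    NA (oP o) (fun n => (o n).x.e1) (fun n => 1 / 2 ^ ((o n).d + b n)) fun n => (o n).S (o n).j := by
  by_contra q
  obtain ⟨m, e⟩ := not_na q
  obtain ⟨-, c, hc, hb⟩ := hb
  refine h ⟨_, _, _, c, dnS_cE e, hc, fun E _ a ha => (hR.sm 6).of_sub ?_⟩
  filter_upwards [e.sure, ha, hb] with n u v w
  have a1 : a n ≤ b n := by exact_mod_cast v.trans w
  have a2 : Cls (cE (cE (o n).P fun ω => |(o n).x.e1 ω - m n ((o n).S (o n).j ω)| <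
      1 / 2 ^ ((o n).d + b n)) (E n)) ((o n).S (o n).j) (o n).x.e1 ((o n).d + b n) 2 :=
    fun s hs t ht e => by
      have b1 := abs_lt.1 (u s (cE_sub hs)).2
      have b2 := abs_lt.1 (u t (cE_sub ht)).2
      rw [e] at b1
      rw [← one_add_one_eq_two, add_div, abs_le]
      constructor <;> linarith [b1.1, b1.2, b2.1, b2.2]
  have a3 := a2.ch (k := (o n).d + a n) (u := 0) zero_le_two (by omega)
  have a4 : 0 ≤ γ * a n * lg := by have := lg_pos; positivity
  exact (sub_le_sub (a3.trans_eq (by norm_num)) a4).trans_eq rfl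

end StA

open StA in
theorem rowSt : SSt := by
  intro ν β κ γ o k R p h hf h0 hp px l6 ε hε
  have l0 := lg_pos
  have b0 : 0 ≤ β := by linarith [p.n0, p.k1, p.gap]
  obtain ⟨y, y1, y2⟩ : ∃ y : ℕ → ℕ, Frac y R ∧ ∀ n, (y n : ℝ) ≤ min (ε / 6) (1 / 2) * R n :=
    ⟨_, h.big.frac_floor (by positivity) ((min_le_right _ _).trans (by norm_num)), fun n =>
      Nat.floor_le (by positivity)⟩
  have y3 : ∀ n, (y n : ℝ) ≤ ε / 6 * R n := fun n =>
    (y2 n).trans (mul_le_mul_of_nonneg_right (min_le_left _ _) (Nat.cast_nonneg _))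
  have y4 : ∀ n, (y n : ℝ) ≤ 1 / 2 * R n := fun n =>
    (y2 n).trans (mul_le_mul_of_nonneg_right (min_le_right _ _) (Nat.cast_nonneg _))
  obtain ⟨δ, hδ, d1⟩ := not_Le fun e => hf ⟨y, y1, e⟩
  obtain ⟨N, hN⟩ := exists_nat_gt (1 / δ)
  have N1 : (0 : ℝ) < N := lt_trans (by positivity) hN
  have N0 : 0 < N := by exact_mod_cast N1
  rw [div_lt_iff₀ hδ] at hN
  have f1 : Frac (fun n => R n - y n) R := ⟨fun n => Nat.sub_le _ _, 1 / 2, one_half_pos,
    Eventually.of_forall fun n => by rw [Nat.cast_sub (y1.1 n)]; linarith [y4 n]⟩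
  obtain ⟨r, r1, r2⟩ : ∃ r : ℕ → ℕ, Frac r R ∧ ∀ n, N * r n + y n ≤ R n ∧ R n ≤ N * r n + y n + N :=
    ⟨_, ((h.big.frac f1).frac_div N0).trans f1, fun n => by
      have := Nat.div_add_mod (R n - y n) N
      have := Nat.mod_lt (R n - y n) N0
      have := y1.1 n
      omega⟩
  choose i i1 i2 using fun n => (range N).exists_max_image
    (fun i => (o n).F ν (k n + i * r n) (k n + i * r n + r n)) ⟨0, mem_range.2 N0⟩
  have i3 : ∀ n, i n * r n + r n ≤ N * r n := fun n =>
    (Nat.succ_mul _ _).ge.trans (Nat.mul_le_mul_right _ (mem_range.1 (i1 n)))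
  have w : Wi k R (fun n => k n + i n * r n) r := ⟨r1, Eventually.of_forall fun n => by
    have := i3 n
    have := r2 n
    simp only
    omega⟩
  refine ⟨_, r, ⟨⟨h.toBs.win w, h.toRot.win w, ?_, fun b hb => ne h.big h0 hp (hb.trans r1)⟩,
    px.mono fun _ u => u.win w, l6.mono fun _ u => u.win w⟩, Le.frac ?_ r1⟩
  · filter_upwards [d1, h.top, h.mono] with n a1 a2 a3
    have a4 : (o n).f (k n + i n * r n + r n) ≤ (o n).f ((o n).j - y n) := a3 (by
      have := i3 n
      have := r2 n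
      omega)
    have a5 : (N : ℝ) * r n ≤ R n := by exact_mod_cast (by have := r2 n; omega)
    have a6 : (r n : ℝ) ≤ δ * R n := by nlinarith [Nat.cast_nonneg (α := ℝ) (r n)]
    have a7 : ((o n).f ((o n).j - y n) : ℝ) + r n ≤ (o n).f (o n).j := by linarith
    exact (Nat.add_le_add_right a4 _).trans (by exact_mod_cast a7)
  · refine Le.of_mul (p := fun _ => N) N1 (Eventually.of_forall fun _ => le_rfl) (Le.of3
      (h.loss (in_all k R).left) (l6.self (fun n => k n + N * r n) (fun n => (o n).j)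
        (h.top.mono fun n a => by have := r2 n; simp only; omega)) (h.big.sm ((ε + 3) * N * lg)) ?_)
    filter_upwards [h.top, h.mono] with n a2 a3
    have a4 := (F_sum (o n) ν (k n) (r n) N).ge.trans (sum_le_card_nsmul _ _ _ (i2 n))
    rw [card_range, nsmul_eq_mul] at a4
    have a5 := (o n).F_add ν (k n) (k n + N * r n) (o n).j
    have a6 : ((o n).f (k n + N * r n) : ℝ) ≤ (o n).f (o n).j :=
      Nat.cast_le.2 (a3 (by have := r2 n; omega))
    have a7 : (N : ℝ) * r n + y n ≤ R n := by exact_mod_cast (r2 n).1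
    have a8 : (R n : ℝ) ≤ N * r n + y n + N := by exact_mod_cast (r2 n).2
    have a9 : ((o n).j : ℝ) = k n + R n := by exact_mod_cast a2.symm
    have c1 := mul_le_mul_of_nonneg_right (mul_le_mul_of_nonneg_left a6 p.n0.le) l0.le
    have c2 : β * (N * r n) * lg ≤ β * R n * lg := by
      gcongr; linarith [Nat.cast_nonneg (α := ℝ) (y n)]
    have c3 : (3 * (R n - N * r n) - (ε + 3) * N) * lg ≤ ε * (N * r n) * lg :=
      mul_le_mul_of_nonneg_right (by nlinarith [y3 n, y4 n]) l0.le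
    rw [Ob.F.eq_1 _ _ (k n + N * r n), a9] at a5
    rw [a9]
    push_cast at a5 ⊢
    linarith

end Pool.Agent.MP_5168f5_an.MX
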