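import Pool.Agent.MP_5168f5_an.MX.QApi
import Pool.Agent.MP_5168f5_an.R4.Api

/-! The maximal estimate in three dimensions: a generic short window. -/

namespace Pool.Agent.MP_5168f5_an.MX

open H19 H17S H17F R4.K31 Filter

namespace QTan

attribute [local irreducible] ch pb fl1

theorem pig (h : ℕ → ℝ) {N : ℕ} (hN : 0 < N) (h0 : 0 ≤ h N) :
    ∃ i < N, N * (h i - h (i + 1)) ≤ h 0 := by
  by_contra c
  push Not at c
  have := Finset.sum_lt_sum_of_nonempty (f := fun _ => h 0) (Finset.nonempty_range_iff.2 hN.ne')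
    fun i hi => c i (Finset.mem_range.1 hi)
  rw [← Finset.mul_sum, Finset.sum_range_sub', Finset.sum_const, Finset.card_range,
    nsmul_eq_mul] at this
  nlinarith [Nat.cast_nonneg (α := ℝ) N]

/-- The information between two levels of a window is at most the drop over the window. -/
theorem mi_drop {o : Ob} (hm : Monotone o.f) {γ : Type} (F : o.Ω → γ) {c a b e : ℕ} (h1 : c ≤ a)
    (h2 : a ≤ b) (h3 : b ≤ e) :
    mi o.P F (o.S b) (o.S a) ≤ ch o.P F (o.S c) - ch o.P F (o.S e) + 120 := by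
  have a1 := ch_drop (P := o.P) F (o.S c) (o.S a)
  have a2 : ch o.P F (fun ω => (o.S c ω, o.S a ω)) ≤ ch o.P F (o.S c) := ch_anti (Fn.fst _ _)
  have a3 := Ob.ch_S hm h1 (Fn.rfl (o.S a))
  have a4 := ch_drop (P := o.P) F (fun ω => (o.S b ω, o.S a ω)) (o.S e)
  have a5 : ch o.P F (fun ω => ((o.S b ω, o.S a ω), o.S e ω)) ≤
      ch o.P F fun ω => (o.S b ω, o.S a ω) := ch_anti (Fn.fst _ _)
  have a6 := ch_subadd (P := o.P) (o.S b) (o.S a) (o.S e)
  have a7 := Ob.ch_S hm h3 (Fn.rfl (o.S e))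
  have a8 := Ob.ch_S hm (h2.trans h3) (Fn.rfl (o.S e))
  unfold mi
  linarith

/-- The lateral direction to the depth `D` is almost independent of the cells of the window. -/
def Ind (o : Ob) (k R D m : ℕ) : Prop := m * R ≤ D ∧ ∀ a b, k ≤ a → a ≤ b → b ≤ k + R →
  m * (mi o.P (o.ep D) (o.S b) (o.S a) - 124) ≤ R

theorem Ind.mono {o : Ob} {k R D m m' : ℕ} (h : Ind o k R D m) (e : m' ≤ m) : Ind o k R D m' :=
  ⟨(Nat.mul_le_mul_right R e).trans h.1, fun a b h1 h2 h3 => by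
    have a1 := h.2 a b h1 h2 h3
    have a2 : (m' : ℝ) ≤ m := by exact_mod_cast e
    rcases le_total 0 (mi o.P (o.ep D) (o.S b) (o.S a) - 124) with q | q
    · exact (mul_le_mul_of_nonneg_right a2 q).trans a1
    · exact (mul_nonpos_of_nonneg_of_nonpos (Nat.cast_nonneg _) q).trans (Nat.cast_nonneg _)⟩

theorem ex_ind (o : Ob) (k R : ℕ) {m : ℕ} (h0 : 0 < m) :
    ∃ i < m * m, Monotone o.f → Ind o (k + i * R) R (m * R) m := by
  obtain ⟨i, h1, h2⟩ := pig (fun i => ch o.P (o.ep (m * R)) (o.S (k + i * R))) (N := m * m)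
    (by positivity) (ch_nonneg _ _)
  refine ⟨i, h1, fun hm => ⟨le_rfl, fun a b e1 e2 e3 => ?_⟩⟩
  have a1 := mi_drop hm (o.ep (m * R)) (e := k + (i + 1) * R) e1 e2 (by rw [add_mul]; omega)
  have a2 : ch o.P (o.ep (m * R)) (o.S (k + 0 * R)) ≤ (m * R : ℕ) * lg + (2 * 1 + 2) :=
    (Cls.of_fn (o.S_e _)).ch zero_le_one le_rfl
  have m1 : (1 : ℝ) ≤ m := by exact_mod_cast h0
  have a3 : (m : ℝ) * R * lg ≤ m * R := mul_le_of_le_one_right (by positivity) lg_lt_one.le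
  push_cast at h2 a2
  refine le_of_mul_le_mul_left ?_ (show (0 : ℝ) < m by linarith)
  have a4 := mul_le_mul_of_nonneg_left a1 (show (0 : ℝ) ≤ m * m by positivity)
  nlinarith

section CF

variable {S : ℕ → Type 1}

/-- An inequality in all windows. -/
theorem cf_win (k R : ∀ n, S n → ℕ) (f g : ∀ n, S n → ℕ → ℕ → ℝ) : R4.CF fun x : ∀ n, S n =>
    ∀ a b : ℕ → ℕ, In (fun n => k n (x n)) (fun n => R n (x n)) a b →
      Le (fun n => R n (x n)) (fun n => f n (x n) (a n) (b n)) fun n => g n (x n) (a n) (b n) :=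
  (R4.cf_eps (p := fun ε n x => ∀ t : ℕ × ℕ, k n x ≤ t.1 ∧ t.1 ≤ t.2 ∧ t.2 ≤ k n x + R n x →
      f n x t.1 t.2 ≤ g n x t.1 t.2 + ε * R n x) fun _ _ _ _ _ a b c d => (b c d).trans
        (add_le_add le_rfl (mul_le_mul_of_nonneg_right a (Nat.cast_nonneg _)))).congr fun _ =>
    ⟨fun h ε hε => R4.unif (A := fun _ => ℕ × ℕ) fun t ht =>
      h (fun n => (t n).1) (fun n => (t n).2) ht ε hε,
      fun h a b e ε hε => ((h ε hε).and e).mono fun n u => u.1 (a n, b n) u.2⟩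

/-- An inequality in all windows of all refinements. -/
theorem cf_ref (o : ∀ n, S n → Ob) (k R : ∀ n, S n → ℕ) (f g : Ob → ℕ → ℕ → ℝ) :
    R4.CF fun x : ∀ n, S n => All (fun n => o n (x n)) fun o' =>
      ∀ a b : ℕ → ℕ, In (fun n => k n (x n)) (fun n => R n (x n)) a b →
        Le (fun n => R n (x n)) (fun n => f (o' n) (a n) (b n)) fun n => g (o' n) (a n) (b n) := by
  refine (R4.cf_all (J := ℕ) fun C => R4.cf_eps (p := fun ε n x =>
    ∀ t : Σ W : Type, FP W × (W → (o n x).Ω) × ℕ × ℕ,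
      R4.K31.Dn (C + 1) t.2.1 t.2.2.1 (o n x).P ∧ k n x ≤ t.2.2.2.1 ∧ t.2.2.2.1 ≤ t.2.2.2.2 ∧
        t.2.2.2.2 ≤ k n x + R n x →
      f ((o n x).pull t.2.1 t.2.2.1) t.2.2.2.1 t.2.2.2.2 ≤
        g ((o n x).pull t.2.1 t.2.2.1) t.2.2.2.1 t.2.2.2.2 + ε * R n x)
      fun _ _ _ _ _ a b c d => (b c d).trans
        (add_le_add le_rfl (mul_le_mul_of_nonneg_right a (Nat.cast_nonneg _)))).congr fun x =>
    ⟨fun h C ε hε => ?_, fun h W Q ρ ⟨C, _, d⟩ a b e ε hε => ?_⟩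
  · have : ∀ n, Nonempty (Σ W : Type, FP W × (W → (o n (x n)).Ω) × ℕ × ℕ) := fun n =>
      ⟨⟨_, (o n (x n)).P, id, 0, 0⟩⟩
    exact R4.unif fun t ht => h (fun n => (t n).1) (fun n => (t n).2.1) (fun n => (t n).2.2.1)
      ⟨C + 1, by linarith [Nat.cast_nonneg (α := ℝ) C], ht.mono fun _ u => u.1⟩
      (fun n => (t n).2.2.2.1) (fun n => (t n).2.2.2.2) (ht.mono fun _ u => u.2) ε hε
  · filter_upwards [h ⌈C⌉₊ ε hε, d, e] with n u v w
    exact u ⟨W n, Q n, ρ n, a n, b n⟩ ⟨v.mono (by linarith [Nat.le_ceil C]), w⟩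

/-- No atoms at depths that are a fixed fraction of `R`. -/
theorem cf_na {Ω β : ∀ n, S n → Type} (P : ∀ n x, FP (Ω n x)) (R : ∀ n, S n → ℕ)
    (h : ∀ n, S n → ℕ → ℕ → Prop) (z : ∀ n x, Ω n x → ℝ) (r : ∀ n, S n → ℕ → ℕ → ℝ)
    (X : ∀ n x, ℕ → Ω n x → β n x) : R4.CF fun x : ∀ n, S n => ∀ a b : ℕ → ℕ,
      Frac b (fun n => R n (x n)) → (∀ᶠ n in UF, h n (x n) (a n) (b n)) →
        NA (fun n => P n (x n)) (fun n => z n (x n)) (fun n => r n (x n) (a n) (b n))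
          fun n => X n (x n) (a n) := by
  refine (R4.cf_all (J := ℕ) fun C => R4.cf_eps (p := fun ε n x =>
    ∀ t : ℕ × {b // b ≤ R n x} × (β n x → ℝ),
      1 / (C + 1 : ℝ) * R n x ≤ (t.2.1 : ℕ) ∧ h n x t.1 t.2.1 →
      pb (P n x) (fun ω => ¬r n x t.1 t.2.1 ≤ |z n x ω - t.2.2 (X n x t.1 ω)|) ≤ ε)
      fun _ _ _ _ _ a b c d => (b c d).trans a).congr fun x =>
    ⟨fun H C ε hε => ?_, fun H a b ⟨f, c, hc, d⟩ e m ε hε => ?_⟩
  · have : ∀ n, Nonempty (ℕ × {b // b ≤ R n (x n)} × (β n (x n) → ℝ)) := fun n =>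
      ⟨0, ⟨0, Nat.zero_le _⟩, fun _ => 0⟩
    exact R4.unif fun t ht => H (fun n => (t n).1) (fun n => (t n).2.1)
      ⟨fun n => (t n).2.1.2, _, by positivity, ht.mono fun _ u => u.1⟩ (ht.mono fun _ u => u.2)
      (fun n => (t n).2.2) ε hε
  · obtain ⟨C, hC⟩ := exists_nat_one_div_lt hc
    filter_upwards [H C ε hε, d, e] with n u v w
    exact u (a n, ⟨b n, f n⟩, m n)
      ⟨(mul_le_mul_of_nonneg_right hC.le (Nat.cast_nonneg _)).trans v, w⟩

end CF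

theorem cf_gen (κ : ℝ) : R4.CF fun y : ℕ → Ob × ℕ × ℕ =>
    Gen κ (fun n => (y n).1) (fun n => (y n).2.1) fun n => (y n).2.2 := by
  let S : ℕ → Type 1 := fun _ => Ob × ℕ × ℕ
  have rf := cf_ref (S := S) (fun _ y => y.1) (fun _ y => y.2.1) fun _ y => y.2.2
  have c1 := R4.cf_big (S := S) fun _ y => y.2.2
  have c2 := R4.cf_ev (S := S) fun _ y => y.1.Alg ∧ y.2.1 + y.2.2 ≤ y.1.j
  have c3 := rf (fun _ a b => κ * (b - a) * lg) fun o a b => o.hz a b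
  have c4 := rf (fun o a b => o.hz a b) fun _ a b => κ * (b - a) * lg
  have c5 := cf_win (S := S) (fun _ y => y.2.1) (fun _ y => y.2.2)
    (fun _ y a _ => ch y.1.P (fun ω => fl1 (y.1.f a) (y.1.x.g ω)) (y.1.w a)) fun _ _ _ _ => 0
  have c6 := cf_na (S := S) (fun _ y => y.1.P) (fun _ y => y.2.2)
    (fun _ y a b => (y.2.1 ≤ a ∧ a ≤ a ∧ a ≤ y.2.1 + y.2.2) ∧ y.1.f a + b ≤ y.1.f y.1.j)
    (fun _ y => y.1.x.g) (fun _ y a b => 1 / 2 ^ (y.1.f a + b)) fun _ y a => y.1.wn a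
  have c7 := R4.cf_ev (S := S) fun _ y => y.1.f (y.2.1 + y.2.2) + y.2.2 ≤ y.1.f y.1.j
  have c8 := cf_na (S := S) (fun _ y => y.1.P) (fun _ y => y.2.2) (fun _ _ _ _ => True)
    (fun _ y => y.1.x.e1) (fun _ y _ b => 1 / 2 ^ (y.1.d + b)) fun _ y _ => y.1.S y.1.j
  have c9 := rf (fun _ a b => (b - a) * lg) fun o a b => mi o.P
    (fun ω => (fl1 b (o.x.z ω), fl1 (b + o.d) (o.x.y1 b ω)))
    (fun ω => (fl1 (b + o.d) (o.x.y1 a ω), o.ep (b - a) ω)) (o.S a)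
  have c10 := rf (fun o a b => ((o.f b : ℝ) - o.f a - (b - a)) * lg) fun o a b => o.J a b
  refine (c1.and (c2.and (c3.and (c4.and (c5.and (c6.and (c7.and (c8.and
    (c9.and c10))))))))).congr fun _ => ⟨fun h => ⟨h.big, h.alg,
      fun W Q ρ d a b e => (h.hgt W Q ρ d a b e).1, fun W Q ρ d a b e => (h.hgt W Q ρ d a b e).2,
      fun a _ e => h.det a e.left,
      fun a b e f => h.nd a b (f.mono fun _ u => u.1) e (f.mono fun _ u => u.2), h.deep,
      fun _ b e _ => h.ne b e, h.plx, h.l6⟩, ?_⟩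
  rintro ⟨h1, h2, h3, h4, h5, h6, h7, h8, h9, h10⟩
  exact ⟨⟨⟨h1, h2, fun W Q ρ d a b e => ⟨h3 W Q ρ d a b e, h4 W Q ρ d a b e⟩⟩,
    ⟨fun a e => h5 a a e, fun a b e f g => h6 a b f (e.and g)⟩, h7,
    fun b e => h8 b b e (Eventually.of_forall fun _ => trivial)⟩, h9, h10⟩

variable {κ r ι : ℝ} {o : ℕ → Ob} {k R D : ℕ → ℕ}

theorem cf_lin (κ r ι : ℝ) : R4.CF fun y : ℕ → Ob × ℕ × ℕ =>
    Lin κ r ι (fun n => (y n).1) (fun n => (y n).2.1) fun n => (y n).2.2 :=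
  ((cf_gen κ).and (((cf_win (S := fun _ => Ob × ℕ × ℕ) (fun _ y => y.2.1) (fun _ y => y.2.2)
      (fun _ y a b => (y.1.f b : ℝ) - y.1.f a) fun _ _ a b => r * (b - a)).and
    (cf_win (S := fun _ => Ob × ℕ × ℕ) (fun _ y => y.2.1) (fun _ y => y.2.2)
      (fun _ _ a b => r * (b - a)) fun _ y a b => (y.1.f b : ℝ) - y.1.f a)).and
    (cf_ref (S := fun _ => Ob × ℕ × ℕ) (fun _ y => y.1) (fun _ y => y.2.1) (fun _ y => y.2.2)
      (fun o a b => o.J a b) fun _ a b => ι * (b - a) * lg))).congr fun _ =>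
    ⟨fun h => ⟨h.toGen, ⟨fun a b e => (h.lin a b e).1, fun a b e => (h.lin a b e).2⟩, h.up⟩,
      fun h => ⟨h.1, fun a b e => ⟨h.2.1.1 a b e, h.2.1.2 a b e⟩, h.2.2⟩⟩

/-- A window for each precision. -/
theorem step (h : Lin κ r ι o k R) {m : ℕ} (h0 : 0 < m) : ∃ k' R' : ℕ → ℕ, Lin κ r ι o k' R' ∧
    ∀ᶠ n in UF, Ind (o n) (k' n) (R' n) (m * R' n) m := by
  choose i h1 h2 using fun n => ex_ind (o n) (k n) (R n / (m * m)) h0
  refine ⟨fun n => k n + i n * (R n / (m * m)), fun n => R n / (m * m), h.win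
    ⟨h.big.frac_div (by positivity), Eventually.of_forall fun n =>
      ⟨Nat.le_add_right _ _, Nat.le_add_right _ _, ?_⟩⟩, h.mono.mono h2⟩
  have a1 := Nat.mul_le_mul_right (R n / (m * m)) (Nat.succ_le_of_lt (h1 n))
  have a2 := Nat.mul_div_le (R n) (m * m)
  rw [Nat.succ_mul] at a1
  simp only
  omega

/-- The limit is a tangent window. -/
theorem fin (h : Lin κ r ι o k R) (e : ∀ m, ∀ᶠ n in UF, Ind (o n) (k n) (R n) (D n) m) :
    Tan κ r ι o k R D := by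
  have hi : ∀ a b : ℕ → ℕ, In k R a b → Sm R fun n =>
      mi (o n).P ((o n).ep (D n)) ((o n).S (b n)) ((o n).S (a n)) := fun a b w => by
    refine Le.of2 (f₁ := fun n => mi (o n).P ((o n).ep (D n)) ((o n).S (b n)) ((o n).S (a n)) - 124)
      (g₁ := fun _ => 0) (fun ε hε => ?_) (h.big.sm 124) (Eventually.of_forall fun n => by linarith)
    obtain ⟨m, hm⟩ := exists_nat_one_div_lt hε
    filter_upwards [e (m + 1), w] with n u v
    have a1 := u.2 _ _ v.1 v.2.1 v.2.2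
    rw [div_lt_iff₀ (by positivity)] at hm
    push_cast at a1
    refine le_of_mul_le_mul_left (a1.trans ?_) (show (0 : ℝ) < m + 1 by positivity)
    nlinarith [Nat.cast_nonneg (α := ℝ) (R n)]
  refine ⟨h.toDp, h.lin, h.up, fun C => (e C).mono fun _ u => u.1, hi, fun a b w => ?_⟩
  refine (h.plx.self a b w).of2 (hi a b w) ?_
  filter_upwards [e 1, w] with n u v
  have a0 : b n - a n ≤ D n := by have := u.1; omega
  have a1 := mi_chain (P := (o n).P) ((o n).S (b n)) ((o n).ep (D n))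
    (fun ω => fl1 (b n + (o n).d) ((o n).x.y1 (a n) ω)) ((o n).S (a n))
  have a2 := mi_le (P := (o n).P) (fun ω => fl1 (b n + (o n).d) ((o n).x.y1 (a n) ω))
    ((o n).S (b n)) fun ω => ((o n).ep (D n) ω, (o n).S (a n) ω)
  have a3 : ch (o n).P (fun ω => fl1 (b n + (o n).d) ((o n).x.y1 (a n) ω))
      (fun ω => ((o n).ep (D n) ω, (o n).S (a n) ω)) ≤
      ch (o n).P (fun ω => fl1 (b n + (o n).d) ((o n).x.y1 (a n) ω))
        fun ω => ((o n).S (a n) ω, (o n).ep (D n) ω) := ch_anti ((Fn.snd _ _).pair (Fn.fst _ _))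
  have a4 : mi (o n).P
      (fun ω => (fl1 (b n) ((o n).x.z ω), fl1 (b n + (o n).d) ((o n).x.y1 (b n) ω)))
      (fun ω => (fl1 (b n + (o n).d) ((o n).x.y1 (a n) ω), (o n).ep (b n - a n) ω))
      ((o n).S (a n)) ≤ mi (o n).P ((o n).S (b n)) (fun ω => ((o n).ep (D n) ω,
        fl1 (b n + (o n).d) ((o n).x.y1 (a n) ω))) ((o n).S (a n)) :=
    (mi_mono' ((((o n).S_z _).pair ((o n).S_y _)).left _)).trans
      (mi_mono (((Fn.snd _ _).pair ((Ob.ep_mono a0).trans (Fn.fst _ _))).left _))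
  rw [mi_symm] at a2
  rw [mi_symm ((o n).S (b n)) ((o n).ep (D n))] at a1
  change _ - mi (o n).P
      (fun ω => (fl1 (b n) ((o n).x.z ω), fl1 (b n + (o n).d) ((o n).x.y1 (b n) ω)))
      (fun ω => (fl1 (b n + (o n).d) ((o n).x.y1 (a n) ω), (o n).ep (b n - a n) ω))
      ((o n).S (a n)) + _ ≥ _
  linarith

end QTan

open QTan in
theorem rowSTan : STan := by
  intro κ r ι o k R h
  choose k' R' h1 h2 using fun j => step h (Nat.succ_pos j)
  obtain ⟨j, -, h3⟩ := R4.cf_diag (S := fun _ => (Ob × ℕ × ℕ) × ℕ)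
    (K := fun i y => Lin κ r ι (fun n => (y n).1.1) (fun n => (y n).1.2.1) (fun n => (y n).1.2.2) ∧
      ∀ᶠ n in UF, Ind (y n).1.1 (y n).1.2.1 (y n).1.2.2 (y n).2 i)
    (fun i => ((cf_lin κ r ι).comp fun _ (y : (Ob × ℕ × ℕ) × ℕ) => y.1).and
      (R4.cf_ev fun _ (y : (Ob × ℕ × ℕ) × ℕ) => Ind y.1.1 y.1.2.1 y.1.2.2 y.2 i))
    (fun j n => ((o n, k' j n, R' j n), (j + 1) * R' j n))
    fun j i hi => ⟨h1 j, (h2 j).mono fun _ u => u.mono (Nat.le_succ_of_le hi)⟩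
  exact ⟨_, _, _, _, fin (h3 0).1 fun m => (h3 m).2⟩

end Pool.Agent.MP_5168f5_an.MX
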