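import Pool.Agent.MP_5168f5_an.MX.Zm
import Pool.Agent.MP_5168f5_an.MX.MK

/-! Speed zero: three transversal lines through a point. -/

namespace Pool.Agent.MP_5168f5_an.MX

open H19 H17S H17F R4.K31 Filter

theorem fl1_rn' (j : ℕ) (x : ℝ) : fl1 j (rn j x) = fl1 j x := by
  rw [rn, fl1, mul_div_cancel₀ _ (by positivity), Int.floor_intCast]

theorem Nrm.S0 {o : ℕ → Ob} (h : Nrm o) (n : ℕ) (P : FP (o n).Ω) : Fn P ((o n).S 0) (o n).x.θ :=
  fun a _ b _ e => by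
  have k : ∀ ω, (o n).S 0 ω = ((o n).x.θ ω, (0, 0), 0, 0, 0, 0) := fun ω => by
    obtain ⟨b1, b2, b3, b4, b5, b6⟩ := h.box n ω
    simp only [Ob.S, Pl.Bx, Ob.pm, lab, Pl.zg, Pl.nm, Pl.y1, Pl.tl, h.d, h.f, add_zero, rn_zero b5,
      rn_zero b6, zero_mul, sub_zero, fl1_zero_of_box b1.1 b1.2, fl1_zero_of_box b2.1 b2.2,
      fl1_zero_of_box b3.1 b3.2, fl1_zero_of_box b4.1 b4.2, fl1_zero_of_box b5.1 b5.2,
      fl1_zero_of_box b6.1 b6.2]
  rw [k, k, e]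

theorem law_cmp {W W' Ω α : Type} {R : FP W'} {Q : FP W} {P : FP Ω} {g : W' → W} {f : W → α}
    {f' : Ω → α} (h : Law R g Q id) (h' : Law Q f P f') : Law R (fun v => f (g v)) P f' :=
  fun F => (h fun x => F (f x)).trans (h' F)

namespace R0A

theorem det_ge {e p e' p' e'' p'' g g' : ℝ} {b F R : ℕ} (h1 : 1 / 2 ^ b ≤ |e' - e|)
    (h2 : 1 / 2 ^ b ≤ |e'' - e|) (h3 : 1 / 2 ^ (F + b) ≤ |g' - g|) (u1 : |e' - e| ≤ 1)
    (u2 : |e'' - e| ≤ 1) (v1 : |p' - g * e' - (p - g * e)| ≤ 1 / 2 ^ R)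
    (v2 : |p'' - g' * e'' - (p - g' * e)| ≤ 1 / 2 ^ R) (hR : 3 * b + F + 2 ≤ R) :
    1 / 2 ^ (3 * b + F + 1) ≤
      |(Matrix.of fun i m : Fin 3 => ![![1, e, p], ![1, e', p'], ![1, e'', p'']] i m).det| := by
  have a1 : (Matrix.of fun i m : Fin 3 => ![![1, e, p], ![1, e', p'], ![1, e'', p'']] i m).det =
      (e' - e) * (e'' - e) * (g' - g) + ((e' - e) * (p'' - g' * e'' - (p - g' * e)) -
        (e'' - e) * (p' - g * e' - (p - g * e))) := by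
    simp [Matrix.det_fin_three]; ring
  have a2 := mul_le_mul (mul_le_mul h1 h2 (by positivity) (abs_nonneg _)) h3 (by positivity)
    (by positivity)
  have a3 := mul_le_mul u1 v2 (abs_nonneg _) zero_le_one
  have a4 := mul_le_mul u2 v1 (abs_nonneg _) zero_le_one
  rw [← abs_mul] at a2 a3 a4
  rw [← abs_mul] at a2
  have a5 := dv_anti zero_le_one le_rfl hR
  have a6 : (1 : ℝ) / 2 ^ b * (1 / 2 ^ b) * (1 / 2 ^ (F + b)) = 4 * (1 / 2 ^ (3 * b + F + 2)) := by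
    field_simp; ring
  have a7 : (1 : ℝ) / 2 ^ (3 * b + F + 1) = 2 * (1 / 2 ^ (3 * b + F + 2)) := by field_simp; ring
  have a8 := abs_sub_abs_le_abs_add ((e' - e) * (e'' - e) * (g' - g))
    ((e' - e) * (p'' - g' * e'' - (p - g' * e)) - (e'' - e) * (p' - g * e' - (p - g * e)))
  have a9 := abs_sub ((e' - e) * (p'' - g' * e'' - (p - g' * e)))
    ((e'' - e) * (p' - g * e' - (p - g * e)))
  rw [a1]; linarith

variable (o : Ob) (R : ℕ)

/-- Two heights on a line. -/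
noncomputable abbrev A : FP (o.Ω × o.Ω) := glue o.P o.P (o.wn R) (o.wn R)

/-- A second line through the first top cell. -/
noncomputable abbrev B : FP ((o.Ω × o.Ω) × o.Ω) :=
  glue (A o R) o.P (fun v => o.S o.j v.1) (o.S o.j)

/-- A third line through the second top cell. -/
noncomputable abbrev T : FP (((o.Ω × o.Ω) × o.Ω) × o.Ω) :=
  glue (B o R) o.P (fun v => o.S o.j v.1.2) (o.S o.j)

theorem lA : Law (A o R) (fun v => o.S o.j v.1) o.P (o.S o.j) := (tg.fst _ _ _ _).comp _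

theorem lB : Law (B o R) (fun v => o.S o.j v.1.2) o.P (o.S o.j) :=
  law_cmp (f := fun v : o.Ω × o.Ω => o.S o.j v.2) (tg.fst _ _ _ _)
    ((tg.snd _ _ _ _ (Law.rfl _)).comp (o.S o.j))

/-- The three lines. -/
def π (i : Fin 3) (v : ((o.Ω × o.Ω) × o.Ω) × o.Ω) : o.Ω := ![v.1.1.1, v.1.2, v.2] i

theorem law_π (i : Fin 3) : Law (T o R) (π o i) o.P id := by
  fin_cases i
  · exact law_cmp (f := fun v : (o.Ω × o.Ω) × o.Ω => v.1.1) (tg.fst _ _ _ _)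
      (law_cmp (f := Prod.fst) (tg.fst _ _ _ _) (tg.fst _ _ _ _))
  · exact law_cmp (f := Prod.snd) (tg.fst _ _ _ _) (tg.snd _ _ _ _ (lA o R))
  · exact tg.snd _ _ _ _ (lB o R)

variable {o R}

theorem memT {v : ((o.Ω × o.Ω) × o.Ω) × o.Ω} (h : v ∈ (T o R).S) :
    (v.1.1.1 ∈ o.P.S ∧ v.1.1.2 ∈ o.P.S ∧ o.wn R v.1.1.2 = o.wn R v.1.1.1) ∧
      (v.1.2 ∈ o.P.S ∧ o.S o.j v.1.2 = o.S o.j v.1.1.1) ∧
      v.2 ∈ o.P.S ∧ o.S o.j v.2 = o.S o.j v.1.1.2 := by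
  obtain ⟨a, b⟩ := (tg.mem _ _ _ _ v (lB o R)).1 h
  obtain ⟨c, d⟩ := (tg.mem _ _ _ _ v.1 (lA o R)).1 a
  exact ⟨(mem_cp _ _ _).1 c, d, b⟩

theorem kn0 {a b : ℕ} (hd : o.d = 0) (h : a ≤ b) : Kn o.P o.x (o.S b) (lab a 0 0 0) (4 * 1) :=
  (Kn.of_fn (p := o.pm b) (Fn.rfl _)).move ((fn_zg h (Nat.zero_le _)).trans (o.S_zg b)) (by
    simp only [Pm.Rd, Ob.pm, lab, hd]; omega)

theorem tilt (h : o.Alg) (hd : o.d = 0) (hR : R ≤ o.f o.j) {a b : o.Ω} (ha : a ∈ o.P.S)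
    (hb : b ∈ o.P.S) (e : o.S o.j b = o.S o.j a) :
    |o.x.e2 b - o.x.g a * o.x.e1 b - (o.x.e2 a - o.x.g a * o.x.e1 a)| ≤ 1 / 2 ^ R := by
  have a1 := Cls.of_fn (bx_c (P := o.P) (x := o.x) (p := o.pm o.j)) b hb a ha e
  have a2 : rn (o.f o.j) (o.x.g b) = rn (o.f o.j) (o.x.g a) :=
    fn_rn ((Fn.comp Prod.snd _).trans (o.S_zg o.j)) b hb a ha e
  simp only [Pl.tl, Ob.pm, lab, hd, zero_add, a2, (h.box a ha).2.2.2.2.2.2.2] at a1
  exact a1.trans (dv_anti zero_le_one le_rfl hR)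

theorem near (hd : o.d = 0) (hR : R ≤ o.j) {v : ((o.Ω × o.Ω) × o.Ω) × o.Ω} (h : v ∈ (T o R).S)
    (i : Fin 3) : o.x.θ (π o i v) = o.x.θ v.1.1.1 ∧
      fl1 R (o.x.z (π o i v)) = fl1 R (o.x.z v.1.1.1) ∧
      |o.x.y1 R v.1.1.1 - o.x.y1 R (π o i v)| ≤ 4 / 2 ^ R ∧
      |o.x.nm R 0 v.1.1.1 - o.x.nm R 0 (π o i v)| ≤ 4 / 2 ^ R := by
  obtain ⟨⟨m1, m2, m3⟩, ⟨m4, m5⟩, m6, m7⟩ := memT h
  have k := kn0 hd hR
  have c : ∀ a ∈ o.P.S, ∀ b ∈ o.P.S, o.S o.j a = o.S o.j b → o.x.θ b = o.x.θ a ∧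
      fl1 R (o.x.z b) = fl1 R (o.x.z a) ∧ |o.x.y1 R a - o.x.y1 R b| ≤ 4 / 2 ^ R ∧
      |o.x.nm R 0 a - o.x.nm R 0 b| ≤ 4 / 2 ^ R := fun a ha b hb e =>
    ⟨(k.θ a ha b hb e).symm, (congrArg Prod.fst (k.zg a ha b hb e)).symm,
      by simpa [lab] using k.t a ha b hb e, by simpa [lab] using k.D a ha b hb e⟩
  fin_cases i
  · exact c _ m1 _ m1 rfl
  · exact c _ m1 _ m4 m5.symm
  · have := c _ m2 _ m6 m7.symm
    simp only [Ob.wn, Pl.lz, Pl.l, Pl.zg, Prod.mk.injEq] at m3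
    obtain ⟨⟨e1, e2, e3, e4, e5⟩, e6, e7⟩ := m3
    simp only [Pl.nm, Pl.y1, rn, e1, e2, e3, e4, e5, e6, fl1_eq_of_le (Nat.zero_le _) e7] at this
    exact this

/-- The directions. -/
def dir (o : Ob) (ω : o.Ω) : Fin 3 → ℝ := ![1, o.x.e1 ω, o.x.e2 ω]

attribute [local irreducible] ch mi pb fl1

theorem sep {κ ι : ℝ} {o : ℕ → Ob} {R D : ℕ → ℕ} (N : Nrm o) (h : Tan κ 0 ι o (fun _ => 0) R D) :
    ∃ L, Sub R L ∧ Whp (fun n => T (o n) (R n)) fun n v =>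
      1 / L n ≤ |(Matrix.of fun i m => dir (o n) (π (o n) i v) m).det| := by
  refine sep_sub fun c c0 c1 => ?_
  have fr := h.big.frac_floor (c := c / 4) (by positivity) (by linarith)
  have w1 := (dn_law fun n => tg.fst (B (o n) (R n)) (o n).P (fun v => (o n).S (o n).j v.1.2)
    ((o n).S (o n).j)).whp
    ((h.ne _ fr).snd (.of_forall fun n => lA (o n) (R n)) fun n v => (o n).x.e1 v.1)
  have w2 := (h.ne _ fr).snd (.of_forall fun n => lB (o n) (R n)) fun n v => (o n).x.e1 v.1.1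
  have w3 := (dn_law fun n => law_cmp (tg.fst (B (o n) (R n)) (o n).P
    (fun v => (o n).S (o n).j v.1.2) ((o n).S (o n).j)) (tg.fst _ _ _ _)).whp
    ((h.toDp.nd' (a := R) (.of_forall fun n => by simp) fr).copy fun n => (o n).x.g)
  refine (w1.and (w2.and w3)).mono ?_
  filter_upwards [h.alg, h.deep, (h.lin _ _ (in_all _ _)).1 (c / 8) (by positivity),
    h.big.ev (16 / c)] with n a1 a2 a3 a4 v hv ⟨u1, u2, u3⟩
  obtain ⟨⟨m1, m2, m3⟩, ⟨m4, m5⟩, m6, m7⟩ := memT hv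
  simp only [zero_add, N.d, N.f, Nat.cast_zero, zero_mul, sub_zero] at a1 a2 a3 u1 u2
  rw [div_le_iff₀ c0] at a4
  have r0 : (0 : ℝ) ≤ R n := Nat.cast_nonneg _
  have b1 : ((3 * ⌊c / 4 * R n⌋₊ + (o n).f (R n) + 2 : ℕ) : ℝ) ≤ c * R n := by
    push_cast; linarith [Nat.floor_le (show 0 ≤ c / 4 * R n by positivity)]
  have b2 : 3 * ⌊c / 4 * R n⌋₊ + (o n).f (R n) + 2 ≤ R n := by
    exact_mod_cast b1.trans (mul_le_of_le_one_left r0 c1)
  have b3 : ∀ x y, |(o n).x.e1 x - (o n).x.e1 y| ≤ 1 := fun x y => by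
    rw [abs_le]; constructor <;> linarith [(N.box n x).2.2.1, (N.box n y).2.2.1]
  have t2 := tilt a1.1 (N.d n) (R := R n) (by omega) m2 m6 m7
  simp only [Ob.wn, Pl.lz, Pl.l, Prod.mk.injEq] at m3
  rw [m3.1.2.2.1, m3.1.2.2.2.1] at t2
  refine le_trans ?_ ((det_ge u1 u2 u3 (b3 _ _) (b3 _ _)
    (tilt a1.1 (N.d n) (by omega) m1 m4 m5) t2 b2).trans (le_of_eq ?_))
  · rw [Real.exp_neg, one_div]
    refine inv_anti₀ (by positivity) ((two_pow_le_exp _).trans (Real.exp_le_exp.2 ?_))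
    push_cast at b1 ⊢; linarith
  · congr 3; funext i; fin_cases i <;> rfl

theorem main {κ ι : ℝ} {o : ℕ → Ob} {R D : ℕ → ℕ} (N : Nrm o) (h : Tan κ 0 ι o (fun _ => 0) R D) :
    2 * κ ≤ ι := by
  obtain ⟨L, hL, w⟩ := sep N h
  have hL4 := hL.const_mul h.big (by norm_num : (1 : ℝ) ≤ 4)
  have k := mk (P := fun n => T (o n) (R n)) (θ := fun n v => (o n).x.θ v.1.1.1)
    (x := fun n v => ![rn (R n) ((o n).x.z v.1.1.1), (o n).x.y1 (R n) v.1.1.1,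
      (o n).x.nm (R n) 0 v.1.1.1])
    (b := fun n i v => ![0, (o n).x.a1 (π (o n) i v), (o n).x.a2 (π (o n) i v)])
    (v := fun n i v => dir (o n) (π (o n) i v))
    (s := fun n i v => rn (R n) ((o n).x.z (π (o n) i v)))
    (l := fun n i v => (o n).x.l (π (o n) i v)) h.big hL4
    (h.alg.mono fun n u => ⟨fun i => ⟨fun _ _ _ _ e =>
      congrArg (fun y : ℝ × ℝ × ℝ × ℝ × _ => ![0, y.1, y.2.1]) e, fun _ _ _ _ e =>
      congrArg (fun y : ℝ × ℝ × ℝ × ℝ × _ => ![1, y.2.2.1, y.2.2.2.1]) e⟩, fun v hv i => by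
        obtain ⟨-, e1, e2, e3⟩ := near (N.d n) (by simpa using u.2) hv i
        obtain ⟨-, -, b3, b4, b5, b6⟩ := N.box n (π (o n) i v)
        have l1 := hL.1 n
        have l2 : (4 : ℝ) / 2 ^ R n ≤ 4 * L n / 2 ^ R n :=
          div_le_div_of_nonneg_right (by linarith) (by positivity)
        refine ⟨(pi_norm_le_iff_of_nonneg (by positivity)).2 fun m => ?_, ?_,
          (pi_norm_le_iff_of_nonneg (by positivity)).2 fun m => ?_⟩
        · fin_cases m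
          · simpa [dir] using (by linarith : 1 ≤ 4 * L n)
          · simpa [dir, abs_of_nonneg b3.1] using (by linarith : _ ≤ 4 * L n)
          · simpa [dir, abs_of_nonneg b4.1] using (by linarith : _ ≤ 4 * L n)
        · rw [abs_le]; constructor <;> linarith [rn_mem (R n) b5]
        · fin_cases m
          · simp [dir, rn, e1]; positivity
          · simpa [dir, Pl.y1] using e2.trans l2
          · simpa [dir, Pl.nm, rn_zero b6] using e3.trans l2⟩)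
    (w.mono (.of_forall fun n v _ u => le_trans
      (one_div_le_one_div_of_le (hL.pos n) (by linarith [hL.pos n])) u))
  have i0 := in_all (fun _ => 0) R
  have k1 := (h.hgt.self _ _ i0).1
  refine le_of_mul_le_mul_right (Le.num (a := 2 * κ * lg) (b := ι * lg) h.big
    (k.of5 (k1.smul (c := 3) (by norm_num)) (h.up.self _ _ i0) (hgt_up h.toBs h.toRot i0)
      (h.big.sm 80) (h.alg.mono fun n u => ?_))) lg_pos
  simp only [zero_add, Nat.cast_zero, sub_zero] at u ⊢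
  have a1 : ∀ i, (o n).hz 0 (R n) ≤ ch (T (o n) (R n))
      (fun v => fl1 (R n) (rn (R n) ((o n).x.z (π (o n) i v)))) fun v =>
        ((o n).x.l (π (o n) i v), (o n).x.θ v.1.1.1) := fun i => by
    simp only [fl1_rn']
    refine le_trans ((law_π (o n) (R n) i).ch_id _ _).ge (ch_anti fun p hp q hq e => ?_)
    have e1 : (o n).x.l (π (o n) i p) = (o n).x.l (π (o n) i q) := congrArg Prod.fst e
    refine Prod.ext e1 ?_
    rw [← (near (N.d n) u.2 hp i).1, ← (near (N.d n) u.2 hq i).1]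
    exact congrArg (·.2.2.2.2) e1
  have a2 := (law_π (o n) (R n) 0).ch_id (fun ω => flv (R n)
    ![rn (R n) ((o n).x.z ω), (o n).x.y1 (R n) ω, (o n).x.nm (R n) 0 ω]) (o n).x.θ
  have a3 : ch (o n).P (fun ω => flv (R n)
      ![rn (R n) ((o n).x.z ω), (o n).x.y1 (R n) ω, (o n).x.nm (R n) 0 ω]) (o n).x.θ ≤
      ch (o n).P ((o n).x.Bx (lab (R n) 0 0 0)) ((o n).S 0) :=
    ch_le (fun p _ q _ e => funext fun m => by
      fin_cases m
      · exact (fl1_rn' _ _).trans ((congrArg (·.1.2.1.1) e).trans (fl1_rn' _ _).symm)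
      · exact congrArg (·.1.2.2.1) e
      · exact congrArg (·.1.2.2.2.2.1) e) (N.S0 n _)
  have a4 := ch_tri (P := (o n).P) ((o n).x.Bx (lab (R n) 0 0 0)) ((o n).S (R n)) ((o n).S 0)
  have a5 := ((kn0 (N.d n) (le_refl (R n))).ctx (Fn.fst ((o n).S (R n)) ((o n).S 0))).ch
  have a6 := Ob.le_J u.1.mono (Nat.zero_le (R n))
  have a7 : ch (o n).P ((o n).S (R n)) (fun ω => ((o n).x.l ω, (o n).S 0 ω)) ≤
      ch (o n).P ((o n).x.zg (R n) ((o n).f (R n))) ((o n).wn 0) :=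
    ch_le (((o n).S_wn _).trans ((((Fn.fst _ _).right _)).pair (Fn.fst _ _))) ((o n).wn_lS 0)
  rw [mi_symm] at a6
  unfold mi at a6
  rw [Fin.sum_univ_three]
  linarith [a1 0, a1 1, a1 2, show ch (T (o n) (R n)) (fun v => flv (R n)
    ![rn (R n) ((o n).x.z v.1.1.1), (o n).x.y1 (R n) v.1.1.1, (o n).x.nm (R n) 0 v.1.1.1])
    (fun v => (o n).x.θ v.1.1.1) = _ from a2]

end R0A

theorem rowR0 : SR0 := fun _ _ o k _ _ _ _ h => R0A.main (nrm_zm o k) h.zm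

end Pool.Agent.MP_5168f5_an.MX
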