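import Pool.Agent.MP_5168f5_an.MX.RPD

/-! Paths of boxes on a grid: spread tilts, and the bound for speeds other than zero and one. -/

namespace Pool.Agent.MP_5168f5_an.MX

open H19 H17S H17F R4.K31 Filter Finset

namespace RP

/-- Change of frame for the tilt. -/
theorem tl_mv {o : Ob} {D a B c : ℕ} (hm : Monotone o.f) (h : a ≤ B) (e : c ≤ o.f a + (o.d + D)) :
    ch o.P (fun ω => fl1 c (o.x.tl (o.f B) ω))
      (fun ω => (fl1 c (o.x.tl (o.f a) ω), se o D B ω)) ≤ 6 := by
  have m := hm h
  have z : Fn o.P (o.x.zg B (o.f B)) fun ω => (fl1 c (o.x.tl (o.f a) ω), se o D B ω) :=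
    (o.S_zg B).trans ((Fn.fst _ _).right _)
  have a4 : Cls o.P (fun ω => (fl1 c (o.x.tl (o.f a) ω), se o D B ω)) (o.x.tl (o.f B)) c
      (1 + 1) := by
    refine ((Cls.of_fn (Fn.fst _ _)).add (((Cls.of_fn (j := o.d + D) (X := o.x.e1)
      ((Fn.snd _ _).right _)).mul (fsub (fng ((fn_zg h m).trans z)) (fng z)) (k := o.f a)
        fun ω _ => ?_).mono e zero_le_one le_rfl)).congr fun ω _ => ?_
    · have := rn_sub (o.f a) (o.f B) (o.x.g ω)
      rwa [min_eq_left m] at this
    · simp only [Pl.tl]; ring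
  have a5 := a4.ch (by norm_num) (u := 0) (k := c) le_rfl
  norm_num at a5
  exact a5

theorem tc_mv {o : Ob} {D a B c : ℕ} (hm : Monotone o.f) (h : a ≤ B) (e : c ≤ o.f a + (o.d + D)) :
    tc o D B c ≤ tc o D a c + 46 := by
  have a1 := tl_mv hm h e
  have a2 := ch_tri (P := o.P) (fun ω => fl1 c (o.x.tl (o.f B) ω))
    (fun ω => fl1 c (o.x.tl (o.f a) ω)) (se o D B)
  have a3 := ch_tri' (P := o.P) (fun ω => fl1 c (o.x.tl (o.f a) ω)) (se o D B) (se o D a)
  have a4 : ch o.P (se o D a) (se o D B) ≤ _ := ch_subadd (o.S a) (o.ep D) (se o D B)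
  have a5 := Ob.ch_S hm h (K := se o D B) (Fn.fst _ _)
  have a6 := ch_zero (P := o.P) (F := o.ep D) (G := se o D B) (Fn.snd _ _)
  unfold tc
  linarith

/-- The data shared with the copy are read off the cell. -/
theorem ch_cx {o : Ob} {D i₀ i B D₁ : ℕ} (hm : Monotone o.f) (e : i₀ ≤ i ∧ i ≤ B ∧ B ≤ i₀ + D ∧
    i₀ + (o.d + o.f B) ≤ D₁ ∧ D₁ ≤ i + (o.d + o.f B) ∧ D₁ ≤ o.f i₀ + (B + o.d)) :
    ch o.P (cx o.x (kb o D i₀ B (i₀ + (o.d + o.f B)) (o.d + o.f B)) i (o.f i) D₁) (se o D B) ≤
      80 := by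
  have m1 := hm e.1
  have m2 := hm e.2.1
  have a1 := rd (o := o) (D := D) (q := kb o D i₀ B (i₀ + (o.d + o.f B)) (o.d + o.f B)) (B := B)
    (c := o.d + o.f B) (e.1.trans e.2.1) (m1.trans m2) (by simp only [Pm.Rd, kb]; omega)
  have a2 := rd (o := o) (D := D) (q := ⟨i, o.f i, 0, 0, D₁, 0⟩) (B := B)
    (c := o.d + o.f B) e.2.1 m2 (by simp only [Pm.Rd, kb]; omega)
  have a3 : ch o.P (fun ω => (o.x.zg i (o.f i) ω, fl1 D₁ (o.x.nm i (o.f i) ω))) (se o D B) ≤
      ch o.P (o.x.Bx ⟨i, o.f i, 0, 0, D₁, 0⟩) (se o D B) :=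
    ch_mono ((Fn.pair (bx_zg (p := ⟨i, o.f i, 0, 0, D₁, 0⟩))
      (bx_D (p := ⟨i, o.f i, 0, 0, D₁, 0⟩))).left _)
  rw [tc0] at a1 a2
  exact (ch_subadd _ _ _).trans (by linarith)

variable {κ r ι : ℝ} {o : ℕ → Ob} {k R D : ℕ → ℕ}

/-- The tilt is never known deeper than the cell knows it. -/
def Sp (o : ℕ → Ob) (k R D : ℕ → ℕ) : Prop := ∀ b τ : ℕ → ℕ, Wi k R b τ →
  Spr (oP o) (fun n ω => fl1 ((o n).d + (o n).f (b n) + τ n) ((o n).x.tl ((o n).f (b n)) ω))
    (fun n => se (o n) (D n) (b n)) R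

theorem corS (H : Tan κ r ι o k R D) (h0 : 0 ≤ κ) (h1 : κ ≤ 1) (hr : 0 < r) (hr1 : r < 1)
    (hs : Sp o k R D) : 1 + κ * (1 + r) ≤ ι := by
  refine num2 h0 h1 hr fun T J hT hJ => ?_
  have t0 : (0 : ℝ) < T := by exact_mod_cast hT
  have j0 : J ≤ T := by exact_mod_cast (by nlinarith : (J : ℝ) ≤ T)
  obtain ⟨a, ha, ha'⟩ := ex_nat (sub_pos.2 hr1) (T + r * T) (T + T)
  obtain ⟨μ, hμ, hμ'⟩ := ex_nat hr (T + r * T) (T + T)
  refine num1 (z := |ι|) (a := a) (μ := μ) (C := 4 * T) fun K K' _ hK => ?_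
  obtain ⟨N, hN⟩ : ∃ N, T * K + T + (a + μ * K') < N := ⟨_, Nat.lt_succ_self _⟩
  have n0 : 0 < N := by omega
  have F : ∀ p b, a ≤ b → p + T + b < N → ∀ᶠ n in UF, Monotone (o n).f ∧
      (p + T + b) * (R n / N) ≤ D n ∧
      (o n).f (lv k R N (p + T + b) n) ≤ (o n).f (lv k R N (p + b) n) + T * (R n / N) ∧
      (o n).f (lv k R N (p + T + b) n) + T * (R n / N) ≤
        (o n).f (lv k R N p n) + b * (R n / N) ∧
      (o n).f (lv k R N (p + b) n) + (J + 1) * (R n / N) ≤ (o n).f (lv k R N (p + T + b) n) :=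
    fun p b hb hp => by
    have b0 : (a : ℝ) ≤ b := by exact_mod_cast hb
    filter_upwards [H.mono, H.cap 1, f_hi H n0 (p := p + b) (q := p + T + b) (j := 0) (j' := T)
      (by omega) hp.le (by push_cast; nlinarith), f_hi H n0 (p := p) (q := p + T + b) (j := T)
      (j' := b) (by omega) hp.le (by push_cast; nlinarith), f_lo H n0 (p := p + b)
      (q := p + T + b) (j := J + 1) (j' := 0) (by omega) hp.le (by push_cast; linarith)]
      with n u1 u2 u3 u4 u5
    have c1 := lv_le (R := R) hp.le n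
    exact ⟨u1, by omega, by omega, u4, by omega⟩
  have key := skel H (T := T) (A := T + T) (a := a) (μ := μ) (γ := κ * (T + J)) (C := 4 * T)
    (fun p q n => lv k R N p n + ((o n).d + (o n).f (lv k R N q n)))
    (fun q n => (o n).d + (o n).f (lv k R N q n)) hN (fun p b hb hp => ?_) (fun b _ => ?_)
    (fun q hq => Le.of_le fun n => (tc0 _).le) fun p hp => ?_
  · exact key
  · filter_upwards [F p b hb hp] with n ⟨u1, u2, u3, u4, u5⟩
    have c2 := u1 (Nat.add_le_add_left
      (Nat.mul_le_mul_right (R n / N) (show p ≤ p + (T + T) by omega)) (k n))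
    have c4 := Nat.mul_le_mul_right (R n / N) (ha.trans hb)
    simp only [Ok, lv, add_mul] at *
    omega
  · filter_upwards [H.mono] with n u
    have := u (Nat.le_add_right (k n) (b * (R n / N)))
    simp only [lv, zero_mul, add_zero]
    omega
  have mm : ∀ s < K', μ * s + μ ≤ μ * K' := fun s h => Nat.mul_le_mul_left _ h
  have m0 := mm 0 hK
  have fr := H.big.frac_div n0
  have na := fun s (hs' : s ∈ range K') => (((hs (lv k R N (p + (a + μ * s))) _ ⟨fr,
    (in_lv (N := N) (p := p + (a + μ * s)) (q := p + (a + μ * s) + 1) (by omega)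
      (by have := mm s (mem_range.1 hs'); omega)).mono fun n u => by
        simpa only [lv, add_mul, one_mul, add_assoc] using u⟩).mono
    (F' := fun n ω => fl1 ((o n).d + (o n).f (lv k R N (p + (a + μ * s)) n) + R n / N)
      ((o n).x.tl ((o n).f (lv k R N p n)) ω))
    (X' := fun n => cx (o n).x (kb (o n) (D n) (lv k R N p n) (lv k R N (p + (a + μ * s)) n)
      (lv k R N p n + ((o n).d + (o n).f (lv k R N (p + (a + μ * s)) n)))
      ((o n).d + (o n).f (lv k R N (p + (a + μ * s)) n))) (lv k R N (p + (T + T)) n)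
      ((o n).f (lv k R N (p + (T + T)) n)) (lv k R N (p + T) n +
        ((o n).d + (o n).f (lv k R N (p + T + (a + μ * s)) n))))
    ((H.big.sm 6).mono ((F p (a + μ * s) (by omega)
      (by have := mm s (mem_range.1 hs'); omega)).mono fun n u => tl_mv u.1
        (by simp only [lv, add_mul]; omega) (by simp only [lv, add_mul] at *; omega)))
    ((H.big.sm 80).mono ((F p (a + μ * s) (by omega)
      (by have := mm s (mem_range.1 hs'); omega)).mono fun n u => ch_cx u.1 (by
        have := Nat.mul_le_mul_right (R n / N) (show T + T ≤ a + μ * s by omega)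
        simp only [lv, add_mul] at *; omega)))).na H.big (H.big.sub le_rfl)).copy
      fun n => (o n).x.tl ((o n).f (lv k R N p n))
  have a1 := (hgt_lo H.toBs H.toRot (in_lv (N := N) (p := p) (q := p + (T + J)) (by omega)
    (by omega))).smul (Nat.cast_nonneg K')
  have a3 : Le R (fun n => K' * ch (o n).P (fun ω => fl1 (lv k R N (p + (T + J)) n) ((o n).x.z ω))
      ((o n).wn (lv k R N p n))) fun n => ∑ s ∈ range K', gs o k R D N T (T + T)
        (fun p q n => lv k R N p n + ((o n).d + (o n).f (lv k R N q n)))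
        (fun q n => (o n).d + (o n).f (lv k R N q n)) p (a + μ * s) n +
          4 * T * (R n / N : ℕ) * lg := by
    refine le_eps H.big (67 * K' + 8) fun ε hε => ?_
    filter_upwards [(eventually_all_finset (range K')).2 fun s hs => na s hs ε hε,
      (eventually_all_finset (range K')).2 fun s hs =>
      F p (a + μ * s) (by omega) (by have := mm s (mem_range.1 hs); omega),
      (eventually_all_finset (range K')).2 fun s hs => f_lo H n0 (p := p + T + (a + μ * s))
        (q := p + (a + μ * (s + 1))) (j := T) (j' := 0) (by rw [Nat.mul_succ]; omega)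
        (by have := mm s (mem_range.1 hs); rw [Nat.mul_succ]; omega) (by push_cast; linarith),
      f_hi H n0 (p := p) (q := p + (T + T)) (j := 0) (j' := T + T) (by omega)
        (by omega) (by push_cast; nlinarith), H.big.ev 4, H.mono] with n u1 u2 u3 u4 u6 u7
    have w2 := Nat.mul_le_mul_right (R n / N) j0
    have c1 := u7 (Nat.add_le_add_left
      (Nat.mul_le_mul_right (R n / N) (show p ≤ p + (T + T) by omega)) (k n))
    have c2 := corF (P := (o n).P) (x := (o n).x) (i := lv k R N (p + (T + T)) n)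
      (f := (o n).f (lv k R N (p + (T + T)) n)) (E := (o n).d + D n) (j := (T + J) * (R n / N))
      (u := (T + T) * (R n / N)) (v := (T + T) * (R n / N)) (K := K')
      (fun s => lv k R N (p + (a + μ * s)) n + (o n).d)
      (fun s => lv k R N (p + T) n + ((o n).d + (o n).f (lv k R N (p + T + (a + μ * s)) n)))
      (fun s => (o n).d + (o n).f (lv k R N (p + (a + μ * s)) n))
      (fun s hs => u1 s (mem_range.2 hs))
      (by simp only [lv, add_mul] at *; omega) fun s hs => by
        obtain ⟨-, v2, v3, v4, v5⟩ := u2 s (mem_range.2 hs)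
        have v6 := u3 s (mem_range.2 hs)
        clear u1 u2 u3
        simp only [lv, Nat.mul_succ, add_mul] at *
        omega
    have c5 : (((T + J) * (R n / N) : ℕ) : ℝ) ≤ R n := by
      exact_mod_cast lv_le (R := R) (show T + J ≤ N by omega) n
    have c6 : (K' : ℝ) * (ε * (((T + J) * (R n / N) : ℕ) * lg + 4)) ≤
        ε * ((67 * K' + 8) * R n) := by
      have := mul_le_mul c5 lg_lt_one.le lg_pos.le (Nat.cast_nonneg _)
      have := mul_le_mul_of_nonneg_left (by linarith :
        (((T + J) * (R n / N) : ℕ) : ℝ) * lg + 4 ≤ 67 * R n) (by positivity : 0 ≤ K' * ε)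
      nlinarith
    have e : lv k R N (p + (T + J)) n = lv k R N p n + (T + J) * (R n / N) := by
      simp only [lv, add_mul]; omega
    unfold gs gn kb Ob.wn
    rw [e]
    push_cast at c2 c6
    linarith
  refine Le.of2 a1 a3 (Eventually.of_forall fun n => le_of_eq ?_)
  rw [lv_sub]
  push_cast
  ring

end RP

open RP in
theorem rowRP : SRP := fun κ r ι o k R D h0 h1 hr hn H => by
  rcases hn.lt_or_gt with e | e
  · by_cases hs : Sp o k R D
    · nlinarith [corS H h0.le h1 hr e hs]
    · simp only [Sp, not_forall] at hs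
      obtain ⟨b, τ, w, hs⟩ := hs
      obtain ⟨W, Q, ρ, d, hs⟩ := not_spr hs
      have fr : Frac (fun n => τ n / 3) τ := (H.big.frac w.frac).frac_div (by norm_num)
      have w' : Wi k R b fun n => τ n / 3 := ⟨fr.trans w.frac,
        w.sub.mono fun n u => by simp only at u ⊢; omega⟩
      have H' := (H.pull d).win w'
      have c0 : ∀ᶠ n in UF, τ n ≤ D n := (H.cap 1).mono fun n u => by have := w.frac.1 n; omega
      suffices 2 + r ≤ ι by linarith
      refine rotS H' hr one_lt_two (fun n _ => (o n).d + (o n).f (b n) + τ n)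
        (c0.mono fun n u => ⟨monotone_const, Nat.le_add_right _ _, by simp only; omega⟩)
        (fun a ha => ?_) fun a a' ha => ?_
      · refine Le.of2 (Le.frac hs w'.frac) (H'.big.sm 46) ?_
        filter_upwards [ha, H'.mono, c0] with n u v y
        have := tc_mv (o := (o n).pull (Q n) (ρ n)) (D := D n)
          (c := (o n).d + (o n).f (b n) + τ n) v u.1 (by simp only; omega)
        simp only [sub_zero]
        exact this
      · refine (H'.lin b a (ha.mono fun n u => ⟨le_rfl, u.1, u.2.1.trans u.2.2⟩)).1.of_sub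
          (ha.mono fun n u => ?_)
        have a1 : (b n : ℝ) ≤ a n := by exact_mod_cast u.1
        have a2 : (3 : ℝ) * a' n ≤ 3 * b n + τ n := by
          exact_mod_cast (by simp only at u; omega : 3 * a' n ≤ 3 * b n + τ n)
        have a3 : (a n : ℝ) ≤ a' n := by exact_mod_cast u.2.1
        push_cast
        nlinarith
  · suffices 2 + r ≤ ι by linarith
    refine rotS H hr e (fun n B => (o n).d + (o n).f B) ?_
      (fun a _ => Le.of_le fun n => (tc0 _).le) fun a b h => (H.lin a b h).2.of_sub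
        (Eventually.of_forall fun n => by push_cast; linarith)
    obtain ⟨C, hC⟩ := exists_nat_gt r
    filter_upwards [H.mono, H.cap C, (H.lin _ _ (in_all k R)).1 _ (sub_pos.2 hC)] with n u v y
    refine ⟨fun _ _ h => Nat.add_le_add_left (u h) _, le_rfl, ?_⟩
    have : (o n).f (k n + R n) ≤ (o n).f (k n) + C * R n := by
      push_cast at y
      exact_mod_cast (by linarith : ((o n).f (k n + R n) : ℝ) ≤ (o n).f (k n) + C * R n)
    omega

end Pool.Agent.MP_5168f5_an.MX
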