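import Pool.Agent.MP_5168f5_an.MX.Ang
import Pool.Agent.MP_5168f5_an.MX.QDgX

/-! Minimal rotation: on a grid of levels the known depth of the frame is made maximal. -/

namespace Pool.Agent.MP_5168f5_an.MX

open H19 H17S H17F R4.K31 Filter

namespace X1R

attribute [local irreducible] ch mi pb fl1

variable {ν β κ : ℝ} {o : ℕ → Ob} {k R : ℕ → ℕ}

/-- Change the precisions of the frames. -/
@[reducible] def setf (o : Ob) (f : ℕ → ℕ) : Ob := { o with f := f }

theorem xt_setf (h : XT ν β κ o k R) {f : ℕ → ℕ → ℕ} (hm : ∀ᶠ n in UF, Monotone (f n))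
    (e : ∀ n, f n (o n).j = (o n).f (o n).j) : XT ν β κ (fun n => setf (o n) (f n)) k R :=
  ⟨⟨h.big, (h.alg.and hm).mono fun n u => ⟨⟨fun ω hω => by
      simpa only [e n] using u.1.1.box ω hω, u.2, by simpa only [e n] using u.1.1.flo⟩, u.1.2⟩,
    fun W Q ρ d => h.hgt W Q ρ d⟩, h.top, h.lgM, fun W Q ρ d a L γ K A τ h1 h2 h3 =>
    (h.opt W Q ρ d a L γ K A τ h1 h2 (h3.mono fun _ u =>
      ⟨u.fθ, u.fz, u.fA, u.fτ, u.bd, u.pr⟩)).congr (Eventually.of_forall fun _ => rfl)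
      (Eventually.of_forall fun n => by simp only [Ob.top, Ob.S, Ob.pm, e n])⟩

/-- Finitely many hereditary properties are made optimal one after the other. -/
theorem min_prof (Dt : ℕ → ℕ → (ℕ → Ob) → Prop) (her : ∀ i v o, Dt i v o → All o (Dt i v))
    (h0 : ∀ i, ∃ v, Dt i v o) (m : ℕ) : ∃ (W : ℕ → Type) (Q : ∀ n, FP (W n))
    (ρ : ∀ n, W n → (o n).Ω) (v : ℕ → ℕ), DnS Q ρ (oP o) ∧ ∀ i < m,
      Dt i (v i) (fun n => (o n).pull (Q n) (ρ n)) ∧
      All (fun n => (o n).pull (Q n) (ρ n)) fun o' => ∀ u, Dt i u o' → v i ≤ u := by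
  classical
  induction m with
  | zero => exact ⟨_, oP o, fun _ => id, fun _ => 0, dn_rfl _, fun _ h => absurd h (by omega)⟩
  | succ m ih =>
    obtain ⟨W, Q, ρ, v, d, h⟩ := ih
    have ex : ∃ u, ∃ (W' : ℕ → Type) (Q' : ∀ n, FP (W' n)) (ρ' : ∀ n, W' n → W n), DnS Q' ρ' Q ∧
        Dt m u fun n => (o n).pull (Q' n) fun w => ρ n (ρ' n w) :=
      (h0 m).imp fun u a => ⟨W, Q, fun _ => id, dn_rfl _, her _ _ _ a W Q ρ d⟩
    obtain ⟨W', Q', ρ', d', h'⟩ := Nat.find_spec ex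
    refine ⟨W', Q', fun n w => ρ n (ρ' n w), fun i => if i = m then Nat.find ex else v i,
      d'.trans d, fun i hi => ?_⟩
    by_cases c : i = m
    · subst c
      simp only [if_true]
      exact ⟨h', fun W'' Q'' ρ'' d'' u a => Nat.find_min' ex ⟨W'', Q'', _, d''.trans d', a⟩⟩
    · simp only [if_neg c]
      exact ⟨her _ _ _ (h i (by omega)).1 W' Q' ρ' d', (h i (by omega)).2.pull d'⟩

/-- The frame is known to the depth `ψ` at the level `a`. -/
def Dt (R a ψ : ℕ → ℕ) (o : ℕ → Ob) : Prop :=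
  Sm R fun n => ch (o n).P (fun ω => fl1 (ψ n) ((o n).x.g ω)) ((o n).w (a n))

theorem spr_ang (p : Par ν β κ) (h : XT ν β κ o k R) {a ψ : ℕ → ℕ} (ha : In k R a a)
    (e : ∀ n, ψ n ≤ (o n).f (o n).j) (s : All o fun o' => ¬Dt R a ψ o') :
    Le R (fun n => ν * ((o n).f (o n).j - ψ n)) fun n => 2 * ((o n).j - a n) :=
  ang p.n0.le (by linarith [p.gap, p.k1, p.n0]) h ha (Eventually.of_forall e)
    (Spr.na (P := oP o) (q := ψ) s h.big (h.big.sub le_rfl))

/-- The approximate conditions at all levels. -/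
def Ap (ν ε : ℝ) (o : Ob) (k R : ℕ) : Prop := ∀ a, k ≤ a → a ≤ k + R →
  ch o.P (fun ω => fl1 (o.f a) (o.x.g ω)) (o.w a) ≤ ε * R ∧
  ν * (o.f o.j - o.f a) ≤ 3 * (o.j - a) + ε * R ∧ ∀ b : ℕ, ε * R ≤ b → o.f a + b ≤ o.f o.j →
    ∀ μ : _ → ℝ, pb o.P (fun ω => ¬1 / 2 ^ (o.f a + b) ≤ |o.x.g ω - μ (o.wn a ω)|) ≤ ε

theorem fin (h : XT ν β κ o k R) (e : ∀ n : ℕ, Ap ν (1 / (n + 1)) (o n) (k n) (R n)) :
    XR ν β κ o k R := by
  refine ⟨h, ⟨fun a ha ε hε => ?_, fun a b ha hb hf => na_iff.2 fun ε hε => ?_⟩,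
    fun a ha ε hε => ?_⟩
  · filter_upwards [ha, DiagA.small hε] with n u v
    exact ((e n _ u.1 u.2.2).1).trans (by rw [zero_add]; gcongr)
  · obtain ⟨-, c, hc, hb⟩ := hb
    filter_upwards [ha, DiagA.small hε, DiagA.small hc, hb, hf] with n u v w y z μ
    exact ((e n _ u.1 u.2.2).2.2 _ (le_trans (by gcongr) y) z μ).trans v
  · filter_upwards [ha, DiagA.small hε] with n u v
    exact ((e n _ u.1 u.2.2).2.1).trans (by gcongr)

theorem ch_w (o : Ob) {α : Type} (F : o.Ω → α) {a b u : ℕ} (h : b ≤ a + u) :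
    ch o.P F (o.w a) ≤ ch o.P F (o.w b) + (u * lg + 4) := by
  have a1 := ch_tri' (P := o.P) F (o.w a) (o.w b)
  have a2 : ch o.P (o.w b) (o.w a) ≤ _ := ch_subadd o.x.l (fun ω => fl1 b (o.x.z ω)) (o.w a)
  have a3 := ch_zero (P := o.P) (F := o.x.l) (G := o.w a) (Fn.fst _ _)
  have a4 := (Cls.of_fn (P := o.P) (G := o.w a) (X := o.x.z) (j := a) (Fn.snd _ _)).ch
    zero_le_one h
  linarith

theorem ch_g (o : Ob) {α : Type} (G : o.Ω → α) {a b u : ℕ} (h : b ≤ a + u) :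
    ch o.P (fun ω => fl1 b (o.x.g ω)) G ≤ ch o.P (fun ω => fl1 a (o.x.g ω)) G + (u * lg + 4) := by
  have a1 := ch_tri (P := o.P) (fun ω => fl1 b (o.x.g ω)) (fun ω => fl1 a (o.x.g ω)) G
  have a4 := (Cls.of_fn (P := o.P) (G := fun ω => (fl1 a (o.x.g ω), G ω)) (X := o.x.g) (j := a)
    (Fn.fst _ _)).ch zero_le_one h
  linarith

/-- A first refinement. -/
theorem start (p : Par ν β κ) (h : XT ν β κ o k R) {c : ℕ → ℕ} (hc : ∀ n, 3 * (R n : ℝ) ≤ ν * c n) :
    ¬All o fun o' => ¬Dt R k (fun n => (o n).f (o n).j - c n) o' := fun s => by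
  rcases ev_em fun n => c n ≤ (o n).f (o n).j with e | e
  · refine (spr_ang p h (in_all k R).left (fun _ => Nat.sub_le _ _) s).false h.big one_pos ?_
    filter_upwards [e, h.top] with n u v
    rw [Nat.cast_sub u, ← v]
    push_cast
    linarith [hc n]
  · refine s.self (Sm.near1 h.big (h.big.sub one_le_two) ?_)
    filter_upwards [e, h.alg] with n u v a ha b hb _
    rw [Nat.sub_eq_zero_of_le (not_le.1 u).le, pow_zero, div_one]
    linarith [abs_sub ((o n).x.g a) ((o n).x.g b), (v.1.box a ha).2.2.2.2.2.2.1,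
      (v.1.box b hb).2.2.2.2.2.2.1]

theorem stage (p : Par ν β κ) (h : XT ν β κ o k R) {ε : ℝ} (hε : 0 < ε) :
    ∃ o' : ℕ → Ob, XT ν β κ o' k R ∧ ∀ᶠ n in UF, Ap ν ε (o' n) (k n) (R n) := by
  have n0 := p.n0
  obtain ⟨m, hm⟩ := exists_nat_gt (4 / (ε * ν))
  have m0 : (0 : ℝ) < m := lt_of_le_of_lt (by positivity) hm
  have m1 : 0 < m := by exact_mod_cast m0
  obtain ⟨C, hC⟩ := exists_nat_gt (3 * m / ν)
  rw [div_lt_iff₀ (by positivity)] at hm hC
  obtain ⟨τ, hτ⟩ : ∃ τ : ℕ → ℕ, ∀ n, τ n = R n / m + 1 := ⟨_, fun _ => rfl⟩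
  have t1 : ∀ n, R n < m * τ n := fun n => by rw [hτ]; exact Nat.lt_mul_div_succ _ m1
  have t2 : ∀ n, (m : ℝ) * τ n ≤ R n + m := fun n => by
    have := Nat.mul_div_le (R n) m
    exact_mod_cast (by rw [hτ, mul_add]; omega : m * τ n ≤ R n + m)
  obtain ⟨A, hA⟩ : ∃ A : ℕ → ℕ → ℕ, ∀ i n, A i n = max (k n) (k n + R n - i * τ n) :=
    ⟨_, fun _ _ => rfl⟩
  have inA : ∀ i, In k R (A i) (A i) := fun i => Eventually.of_forall fun n => by rw [hA]; omega
  have s0 := start p h (c := fun n => C * τ n) fun n => by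
    have : (R n : ℝ) ≤ m * τ n := by exact_mod_cast (t1 n).le
    push_cast
    nlinarith [Nat.cast_nonneg (α := ℝ) (τ n)]
  simp only [All, not_forall, not_not] at s0
  obtain ⟨W₀, Q₀, ρ₀, d₀, s0⟩ := s0
  have dm : ∀ {a b ψ : ℕ → ℕ} {o' : ℕ → Ob}, (∀ n, a n ≤ b n) → Dt R a ψ o' → Dt R b ψ o' :=
    fun e u => Sm.mono u (Eventually.of_forall fun n => ch_anti (Ob.w_mono (e n)))
  obtain ⟨W, Q, ρ, v, d, hv⟩ := min_prof (o := fun n => (o n).pull (Q₀ n) (ρ₀ n))
    (fun i v => Dt R (A i) fun n => (o n).f (o n).j - v * τ n)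
    (fun _ _ _ u _ _ _ d => d.sm_ch u) (fun i => ⟨C, dm (fun n => by rw [hA]; omega) s0⟩) m
  have h' := (h.pull d₀).pull d
  have vm : ∀ i i', i ≤ i' → i' < m → v i ≤ v i' := fun i i' e e' =>
    (hv i (by omega)).2.self _ (dm (fun n => by
      have := Nat.mul_le_mul_right (τ n) e
      rw [hA, hA]; omega) (hv i' e').1)
  have sp : ∀ i < m, ∀ u, v i = u + 1 → All (fun n => ((o n).pull (Q₀ n) (ρ₀ n)).pull (Q n) (ρ n))
      fun o' => ¬Dt R (A i) (fun n => (o n).f (o n).j - u * τ n) o' :=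
    fun i hi u e => (hv i hi).2.mono fun _ a b => by have := a u b; omega
  have g1 : ∀ i < m, Le R (fun n => ν * ((o n).f (o n).j - ((o n).f (o n).j - v i * τ n : ℕ)))
      fun n => 2 * ((o n).j - A i n) + τ n := fun i hi => by
    rcases hu : v i with _ | u
    · refine Le.of_ev ((h.top.and (inA i)).mono fun n e => ?_)
      have : (A i n : ℝ) ≤ (o n).j := by exact_mod_cast e.2.2.2.trans e.1.le
      simp only [zero_mul, Nat.sub_zero, sub_self, mul_zero]
      linarith [Nat.cast_nonneg (α := ℝ) (τ n)]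
    · refine (spr_ang p h' (inA i) (fun _ => Nat.sub_le _ _) (sp i hi u hu)).of_sub
        (Eventually.of_forall fun n => ?_)
      have : (((o n).f (o n).j - u * τ n : ℕ) : ℝ) ≤
          ((o n).f (o n).j - (u + 1) * τ n : ℕ) + τ n := by
        exact_mod_cast (by rw [add_mul]; omega :
          (o n).f (o n).j - u * τ n ≤ (o n).f (o n).j - (u + 1) * τ n + τ n)
      nlinarith [p.n1, Nat.cast_nonneg (α := ℝ) (τ n)]
  have g2 : ∀ i < m, ∀ᶠ n in UF, v i ≠ 0 → ∀ μ : _ → ℝ, pb (Q n) (fun w =>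
      ¬1 / 2 ^ ((o n).f (o n).j - v i * τ n + τ n) ≤ |(o n).x.g (ρ₀ n (ρ n w)) -
        μ ((o n).x.lz (A i n) ((o n).f (o n).j - v i * τ n) (ρ₀ n (ρ n w)))|) ≤ ε := fun i hi => by
    rcases hu : v i with _ | u
    · exact Eventually.of_forall fun _ e => absurd rfl e
    · have a1 : Spr Q (fun n w => fl1 ((o n).f (o n).j - u * τ n) ((o n).x.g (ρ₀ n (ρ n w))))
          (fun n w => (o n).w (A i n) (ρ₀ n (ρ n w))) R := sp i hi u hu
      have a2 := ((a1.ctx (X' := fun n w => (o n).x.lz (A i n) ((o n).f (o n).j - (u + 1) * τ n)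
        (ρ₀ n (ρ n w))) (Sm.mono (hu ▸ (hv i hi).1) (Eventually.of_forall fun n =>
          ch_mono fun _ _ _ _ e => by
            simp only [Ob.w, Pl.lz, Pl.zg, Pl.l, Pl.map, Prod.mk.injEq] at e ⊢; tauto))).na h.big
        (h.big.sub le_rfl)).mono
        (r' := fun n => 1 / 2 ^ ((o n).f (o n).j - (u + 1) * τ n + τ n))
        (Eventually.of_forall fun n => dv_anti zero_le_one le_rfl (by rw [add_mul]; omega))
        (Eventually.of_forall fun _ => Fn.rfl _)
      exact (na_iff.1 a2 ε hε).mono fun _ e _ => e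
  obtain ⟨I, hI⟩ : ∃ I : ℕ → ℕ → ℕ, ∀ n a, I n a = (k n + R n - max a (k n)) / τ n :=
    ⟨_, fun _ _ => rfl⟩
  have t0 : ∀ n, 0 < τ n := fun n => by rw [hτ]; exact Nat.succ_pos _
  have i1 : ∀ n a, I n a < m := fun n a => by
    rw [hI, Nat.div_lt_iff_lt_mul (t0 n)]
    have := t1 n
    omega
  refine ⟨_, xt_setf h' (f := fun n a => if a < (o n).j then (o n).f (o n).j - v (I n a) * τ n
    else (o n).f (o n).j) (Eventually.of_forall fun n a b e => ?_) fun n => if_neg (lt_irrefl _), ?_⟩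
  · have := Nat.mul_le_mul_right (τ n) (vm (I n b) (I n a)
      (by rw [hI, hI]; exact Nat.div_le_div_right (by omega)) (i1 n a))
    simp only
    split_ifs <;> omega
  have en : 0 < ε * ν := by positivity
  filter_upwards [h.top, h.big.ev (16 / ε + m),
    (eventually_all_finset (Finset.range m)).2 fun i hi =>
      ((hv i (Finset.mem_range.1 hi)).1 (ε / 8) (by positivity)).and
        ((g1 i (Finset.mem_range.1 hi) (ε * ν / 8) (by positivity)).and
          (g2 i (Finset.mem_range.1 hi)))] with n u1 u2 u3 a a1 a2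
  obtain ⟨v1, v2, v3⟩ := u3 (I n a) (Finset.mem_range.2 (i1 n a))
  have e1 := Nat.div_mul_le_self (k n + R n - max a (k n)) (τ n)
  have e2 := Nat.lt_div_mul_add (a := k n + R n - max a (k n)) (t0 n)
  rw [← hI] at e1 e2
  have e3 : a ≤ A (I n a) n ∧ A (I n a) n ≤ a + τ n ∧ A (I n a) n ≤ (o n).j := by rw [hA]; omega
  have r0 : (0 : ℝ) ≤ R n := Nat.cast_nonneg _
  have r1 : 16 ≤ ε * R n := by
    have : 16 / ε ≤ R n := by linarith
    rw [div_le_iff₀ hε] at this; linarith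
  have r2 : (τ n : ℝ) ≤ ε * ν / 2 * R n := by
    have : (m : ℝ) ≤ R n := by have : 0 < 16 / ε := by positivity
                               linarith
    exact le_of_mul_le_mul_left (by nlinarith [t2 n]) m0
  have r3 : ε * ν * R n ≤ ε * R n := by nlinarith [mul_nonneg hε.le r0, p.n1]
  have r4 : (a : ℝ) ≤ A (I n a) n := by exact_mod_cast e3.1
  have r5 : (A (I n a) n : ℝ) ≤ (o n).j := by exact_mod_cast e3.2.2
  have r6 := mul_le_mul r2 lg_lt_one.le lg_pos.le (by positivity)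
  simp only [if_neg (lt_irrefl _), zero_add] at v1 ⊢
  by_cases c : a < (o n).j
  · simp only [Ob.wn, if_pos c]
    refine ⟨?_, by linarith, fun b hb hf μ => ?_⟩
    · have := ch_w (((o n).pull (Q₀ n) (ρ₀ n)).pull (Q n) (ρ n)) (fun w =>
        fl1 ((o n).f (o n).j - v (I n a) * τ n) ((o n).x.g (ρ₀ n (ρ n w)))) e3.2.1
      exact this.trans ((add_le_add v1 le_rfl).trans (by linarith))
    · have tb : τ n ≤ b := by exact_mod_cast (by linarith : (τ n : ℝ) ≤ b)
      have t3 := t0 n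
      obtain ⟨μ', hμ⟩ := fn_ex ((Fn.comp μ _).trans (fn_lz (P := Q n)
        (x := ((o n).x.map (ρ₀ n)).map (ρ n)) e3.1 (le_refl ((o n).f (o n).j - v (I n a) * τ n))))
      refine (pb_mono fun w hw q y => q ?_).trans
        (v3 (fun e => by rw [e] at hf; omega) μ')
      rw [hμ w hw]
      exact (dv_anti zero_le_one le_rfl (by omega)).trans y
  · have ea : A (I n a) n = a := by omega
    have ej : (a : ℝ) = (o n).j := by exact_mod_cast (by omega : a = (o n).j)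
    simp only [if_neg c]
    refine ⟨?_, by nlinarith, fun b hb hf μ => ?_⟩
    · have := ch_g (((o n).pull (Q₀ n) (ρ₀ n)).pull (Q n) (ρ n))
        ((((o n).pull (Q₀ n) (ρ₀ n)).pull (Q n) (ρ n)).w a) (b := (o n).f (o n).j)
        (a := (o n).f (o n).j - v (I n a) * τ n)
        (u := (o n).f (o n).j - ((o n).f (o n).j - v (I n a) * τ n)) (by omega)
      rw [Nat.cast_sub (Nat.sub_le _ _)] at this
      rw [ea] at v1 v2
      have c1 : ((o n).f (o n).j : ℝ) - ((o n).f (o n).j - v (I n a) * τ n : ℕ) ≤ 5 / 8 * ε * R n :=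
        le_of_mul_le_mul_left (by linarith) n0
      have c2 := mul_le_mul c1 lg_lt_one.le lg_pos.le (by positivity)
      exact this.trans ((add_le_add v1 le_rfl).trans (by linarith))
    · have : (b : ℝ) ≤ 0 := by exact_mod_cast (by omega : b ≤ 0)
      linarith

end X1R

open X1R in
theorem rowX1 : SX1 := fun ν β κ o k R p h => by
  obtain ⟨y, h1, h2⟩ := (Dg.xt (X := Ob × ℕ × ℕ) (·.1) (·.2.1) (·.2.2) (ν := ν) (β := β)
    (κ := κ)).diag (B := fun m y => Ap ν (1 / (m + 1)) y.1 y.2.1 y.2.2) fun m =>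
    (stage p h (ε := 1 / (m + 1)) (by positivity)).elim fun o' u =>
      ⟨fun n => (o' n, k n, R n), u⟩
  exact ⟨_, _, _, fin h1 h2⟩

end Pool.Agent.MP_5168f5_an.MX
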