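import Pool.Agent.MP_5168f5_an.MX.X0E
import Pool.Agent.MP_5168f5_an.MX.X1R
import Pool.Agent.MP_5168f5_an.MX.FX
import Pool.Agent.MP_5168f5_an.MX.PO
import Pool.Agent.MP_5168f5_an.MX.QPlx
import Pool.Agent.MP_5168f5_an.MX.L6
import Pool.Agent.MP_5168f5_an.MX.QSt
import Pool.Agent.MP_5168f5_an.MX.QLin
import Pool.Agent.MP_5168f5_an.MX.QTan
import Pool.Agent.MP_5168f5_an.MX.R0
import Pool.Agent.MP_5168f5_an.MX.RP
import Pool.Agent.MP_5168f5_an.MX.OffB
import Pool.Agent.MP_5168f5_an.MX.OffGlue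
import Pool.Agent.MP_5168f5_an.MX.Fin

/-! The entropy form of the maximal estimate in three dimensions. -/

namespace Pool.Agent.MP_5168f5_an.MX

open H19 H17S H17F R4.K31 Filter

theorem rowOff : SOff := by
  intro κ ι o k R D h0 h1 hι h
  obtain ⟨y, a, b⟩ := OG.start h h0.le (by linarith)
  obtain ⟨u, w, c, d, e⟩ := OG.mini ⟨y, a⟩
  have u1 : u * lg ≤ (ι - 1) / 2 * lg := Le.num a.1.tan.big (((e y a).trans b).of_sub
    (Eventually.of_forall fun n => le_of_eq (by ring)))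
  have u0 : 0 ≤ u * lg := Le.num c.1.tan.big (d.of_sub (Eventually.of_forall fun n => by
    linarith [OG.hA_nonneg (w n).of]))
  have u2 := le_of_mul_le_mul_right u1 lg_pos
  obtain ⟨s, s0, s1⟩ := OffB.core (nonneg_of_mul_nonneg_left u0 lg_pos) (by linarith)
    (by linarith) c.2 (OG.ng1 c d e)
  obtain ⟨t, t0, t1⟩ := rowOCom κ ι s w s0 c.1 s1
  exact ⟨t, _, _, _, _, t0, c.1.tan, t1⟩

theorem muK2 : MuK 2 :=
  glueQ rowX0 rowX1 rowFX rowPO rowPlx rowL6 rowSt rowSLin rowSTan rowR0 rowRP rowOff rowFin rowPull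

end Pool.Agent.MP_5168f5_an.MX
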