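import Pool.Agent.MP_5168f5_an.MX.QDefs
import Pool.Agent.MP_5168f5_an.MX.RPA

/-! Paths of boxes: the total gain along a path, and the gains of the normal digits. -/

namespace Pool.Agent.MP_5168f5_an.MX.RP

open H19 H17S H17F Filter Finset

section Path

variable (o : Ob) (D : ℕ)

/-- The cell with the deep lateral direction. -/
noncomputable def se (a : ℕ) (ω : o.Ω) := (o.S a ω, o.ep D ω)

/-- The entropy of the tilt to depth `c` given the cell. -/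
noncomputable def tc (a c : ℕ) : ℝ := ch o.P (fun ω => fl1 c (o.x.tl (o.f a) ω)) (se o D a)

/-- The entropy of the lateral digits between the levels `a` and `b`. -/
noncomputable def lt (a b : ℕ) : ℝ := ch o.P (fun ω => fl1 (b + o.d) (o.x.y1 a ω)) (se o D a)

/-- The boxes of a path. -/
def kb (i B Dd c : ℕ) : Pm := ⟨i, o.f i, B + o.d, o.d + D, Dd, c⟩

/-- The entropy of the normal digits between the depths `D₀` and `D₁`. -/
noncomputable def gn (i B D₀ D₁ c : ℕ) : ℝ :=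
  ch o.P (fun ω => fl1 D₁ (o.x.nm i (o.f i) ω)) (o.x.Bx (kb o D i B D₀ c))

/-- A legal step. -/
def Ok (i B B' i' D₀ D₁ c c' : ℕ) : Prop :=
  i ≤ B ∧ B ≤ B' ∧ B' ≤ i + D ∧ i ≤ i' ∧ D₀ ≤ D₁ ∧ D₁ ≤ i + c ∧ D₁ ≤ o.f i + (B + o.d) ∧ c ≤ c' ∧
    c ≤ o.f i + (o.d + D)

variable {o D}

theorem rd {q : Pm} {B c : ℕ} (hi : q.i ≤ B) (hf : q.f ≤ o.f B)
    (e : q.Rd (kb o D B B (B + (o.d + o.f B)) c)) :
    ch o.P (o.x.Bx q) (se o D B) ≤ tc o D B c + 40 := by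
  have a1 := ch_tri (P := o.P) (o.x.Bx q) (fun ω => fl1 c (o.x.tl (o.f B) ω)) (se o D B)
  have a2 := ch_bx (P := o.P) (x := o.x) (p := kb o D B B (B + (o.d + o.f B)) c) (q := q)
    (G := fun ω => (fl1 c (o.x.tl (o.f B) ω), se o D B ω)) (fun a _ b _ e => by
      simp only [se, Ob.S, Ob.ep, Ob.pm, lab, kb, Pl.Bx, Prod.mk.injEq] at e ⊢
      tauto) ((fn_zg hi hf).trans ((bx_zg (p := o.pm B)).trans ((Fn.fst _ _).right _))) e
  unfold tc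
  linarith

theorem tc0 (B : ℕ) : tc o D B (o.d + o.f B) = 0 :=
  ch_zero ((bx_c (p := o.pm B)).trans (Fn.fst _ _))

theorem lat1 {i B b Dd c : ℕ} (hm : Monotone o.f) (e : i ≤ B ∧ B ≤ i + D ∧ b ≤ i + D ∧
    Dd ≤ i + c ∧ Dd ≤ o.f i + (B + o.d) ∧ c ≤ o.f i + (o.d + D)) :
    lt o D B b ≤ ch o.P (fun ω => fl1 (b + o.d) (o.x.y1 i ω)) (o.x.Bx (kb o D i B Dd c)) +
      tc o D B c + 46 := by
  have m := hm e.1
  have a1 := rd (o := o) (D := D) (q := kb o D i B Dd c) (B := B) (c := c) e.1 m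
    (by simp only [Pm.Rd, kb]; omega)
  have a2 := ch_tri' (P := o.P) (fun ω => fl1 (b + o.d) (o.x.y1 i ω)) (se o D B)
    (o.x.Bx (kb o D i B Dd c))
  have a3 := ch_tri (P := o.P) (fun ω => fl1 (b + o.d) (o.x.y1 B ω))
    (fun ω => fl1 (b + o.d) (o.x.y1 i ω)) (se o D B)
  have z : Fn o.P (o.x.zg B (o.f B)) fun ω => (fl1 (b + o.d) (o.x.y1 i ω), se o D B ω) :=
    (bx_zg (p := o.pm B)).trans ((Fn.fst _ _).right _)
  have a4 : Cls o.P (fun ω => (fl1 (b + o.d) (o.x.y1 i ω), se o D B ω)) (o.x.y1 B) (b + o.d)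
      (1 + 1) := by
    refine ((Cls.of_fn (Fn.fst _ _)).add (((Cls.of_fn (j := o.d + D) (X := o.x.e1)
      ((Fn.snd _ _).right _)).mul (fsub (fnz z) (fnz ((fn_zg e.1 m).trans z))) (k := i)
        fun ω _ => ?_).mono (by omega) zero_le_one le_rfl)).congr fun ω _ => ?_
    · have := rn_sub B i (o.x.z ω)
      rwa [min_eq_right e.1] at this
    · simp only [Pl.y1]; ring
  have a5 := a4.ch (by norm_num) (u := 0) (k := b + o.d) le_rfl
  unfold lt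
  norm_num at a5
  linarith

theorem step1 {i B B' i' D₀ D₁ c c' : ℕ} (hm : Monotone o.f) (e : Ok o D i B B' i' D₀ D₁ c c') :
    gn o D i B D₀ D₁ c + lt o D B B' + ch o.P o.x.l (o.x.Bx (kb o D i' B' D₁ c')) ≤
      ch o.P o.x.l (o.x.Bx (kb o D i B D₀ c)) + tc o D B c + 86 := by
  obtain ⟨e1, e2, e3, e4, e5, e6, e7, e8, e9⟩ := e
  have m := hm e4
  have a1 := stepD (P := o.P) (x := o.x) (i := i) (f := o.f i) (t := B + o.d) (E := o.d + D)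
    (c := c) e5
  have a2 := stept (P := o.P) (x := o.x) (i := i) (f := o.f i) (t := B + o.d) (t' := B' + o.d)
    (E := o.d + D) (D := D₁) (c := c) (by omega)
  have a3 := stepR (P := o.P) (x := o.x) (p := kb o D i' B' D₁ c') (q := kb o D i B' D₁ c) o.x.l
    e4 m (by simp only [Pm.Rd, kb]; omega)
  have a4 := lat1 (o := o) (D := D) (i := i) (B := B) (b := B') (Dd := D₁) (c := c) hm (by omega)
  unfold gn
  simp only [kb] at a3 a4 ⊢
  linarith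

theorem jse {a B : ℕ} (hm : Monotone o.f) (h : a ≤ B) :
    ch o.P o.x.l (se o D a) - ch o.P o.x.l (se o D B) ≤ o.J a B + 40 := by
  have m := hm h
  have u : ∀ a, ch o.P (o.ep D) (o.S a) + ch o.P o.x.l (se o D a) = ch o.P o.x.l (o.S a) :=
    fun a => by
      rw [← drop (P := o.P) (G := o.S a) (l := o.x.l) (A := o.ep D)
        fun _ _ _ _ e => congrArg (fl1 (o.d + D)) (congrArg (·.1.2.2.1) e :)]
      exact congrArg _ (le_antisymm (ch_anti ((Fn.snd _ _).pair (Fn.fst _ _)))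
        (ch_anti ((Fn.snd _ _).pair (Fn.fst _ _))))
  have a1 := stepR (P := o.P) (x := o.x) (p := o.pm B) (q := o.pm a) (o.ep D) h m
    (by simp only [Pm.Rd, Ob.pm, lab]; omega)
  have a2 := u a
  have a3 := u B
  unfold Ob.J
  unfold Ob.S at a2 a3 ⊢
  linarith

/-- The gains along a path add up to at most the information between the end points. -/
theorem path (hm : Monotone o.f) (i B Dd c : ℕ → ℕ) (a K : ℕ)
    (e : ∀ m ≤ K, Ok o D (i m) (B m) (B (m + 1)) (i (m + 1)) (Dd m) (Dd (m + 1)) (c m) (c (m + 1)))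
    (e0 : a ≤ i 0 ∧ o.d + o.f a ≤ c 0 ∧ a + (o.d + o.f a) ≤ Dd 0) (hB : a ≤ B K) :
    ∑ m ∈ range K, (gn o D (i m) (B m) (Dd m) (Dd (m + 1)) (c m) + lt o D (B m) (B (m + 1))) ≤
      o.J a (B K) + ∑ m ∈ range (K + 1), tc o D (B m) (c m) + (86 * K + 120) := by
  have a1 : ∀ M ≤ K, ∑ m ∈ range M, (gn o D (i m) (B m) (Dd m) (Dd (m + 1)) (c m) +
      lt o D (B m) (B (m + 1))) + ch o.P o.x.l (o.x.Bx (kb o D (i M) (B M) (Dd M) (c M))) ≤
      ch o.P o.x.l (o.x.Bx (kb o D (i 0) (B 0) (Dd 0) (c 0))) +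
        ∑ m ∈ range M, tc o D (B m) (c m) + 86 * M := fun M => by
    induction M with
    | zero => simp
    | succ M ih =>
      intro h
      have := ih (by omega)
      have := step1 hm (e M (by omega))
      rw [sum_range_succ, sum_range_succ]
      push_cast
      linarith
  have a2 := a1 K le_rfl
  obtain ⟨e1, e2, e3, e4, e5, e6, e7, e8, e9⟩ := e K le_rfl
  obtain ⟨f1, -⟩ := e 0 K.zero_le
  have m1 := hm e1
  have m2 := hm e0.1
  have a3 := rd (o := o) (D := D) (q := kb o D (i K) (B K) (Dd K) (c K)) (B := B K) (c := c K) e1 m1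
    (by simp only [Pm.Rd, kb]; omega)
  have a4 := ch_tri' (P := o.P) o.x.l (se o D (B K)) (o.x.Bx (kb o D (i K) (B K) (Dd K) (c K)))
  have a5 := stepR (P := o.P) (x := o.x) (p := kb o D (i 0) (B 0) (Dd 0) (c 0))
    (q := kb o D a a (a + (o.d + o.f a)) (o.d + o.f a)) o.x.l e0.1 m2
    (by simp only [Pm.Rd, kb]; omega)
  have a6 : ch o.P o.x.l (o.x.Bx (kb o D a a (a + (o.d + o.f a)) (o.d + o.f a))) ≤
      ch o.P o.x.l (se o D a) := ch_anti (Fn.pair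
    (bx_mono rfl rfl le_rfl (Nat.le_add_right _ _) le_rfl le_rfl) bx_E)
  have a7 := jse (o := o) (D := D) hm hB
  rw [sum_range_succ]
  linarith

end Path

variable {Ω T : Type} {P : FP Ω} {x : Pl Ω T}

/-- Rotating frames: the normal digits of a chain of boxes show the lateral digits. -/
theorem rotF {i f E i₀ f₀ τ j u v K : ℕ} {ε : ℝ} (t D₀ D₁ c : ℕ → ℕ)
    (hE : pb (glue P P (x.lz i₀ f₀) (x.lz i₀ f₀))
      (fun w => ¬1 / 2 ^ (f₀ + τ) ≤ |x.g w.2 - x.g w.1|) ≤ ε)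
    (h : i₀ ≤ i ∧ i ≤ i₀ + u ∧ f₀ + τ + 1 ≤ f ∧ f ≤ f₀ + v)
    (e : ∀ s < K, D₀ s ≤ D₁ s ∧ D₀ s ≤ f₀ + t s ∧ D₁ s ≤ i₀ + c s ∧ D₁ s ≤ f₀ + i₀ + E ∧
      t s ≤ i₀ + E ∧ c s ≤ f₀ + E ∧ f₀ + (τ + 1) + (t s + j) ≤ D₁ s ∧ t s + j ≤ t (s + 1) ∧
        D₁ s ≤ D₁ (s + 1) ∧ c s ≤ c (s + 1)) :
    ∑ s ∈ range K, ch P (fun ω => fl1 (t s + j) (x.y1 i ω)) (x.Bx ⟨i, f, t s, E, D₁ s, c s⟩) ≤
      ∑ s ∈ range K, ch P (fun ω => fl1 (D₁ s) (x.nm i f ω)) (x.Bx ⟨i, f, t s, E, D₀ s, c s⟩) +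
        ((u + v) * lg + 8) + K * (ε * (j * lg + 4) + 51) := by
  set Q := glue P P (x.lz i₀ f₀) (x.lz i₀ f₀) with hQ
  have mem : ∀ w ∈ Q.S, x.l w.2 = x.l w.1 ∧ fl1 i₀ (x.z w.2) = fl1 i₀ (x.z w.1) ∧
      fl1 f₀ (x.g w.2) = fl1 f₀ (x.g w.1) := fun w hw => by
    simpa only [Pl.lz, Pl.zg, Prod.mk.injEq] using ((mem_cp P _ w).1 hw).2.2
  have hE' : pb Q (fun w => ¬1 / 2 ^ (f₀ + (τ + 1)) ≤ |rn f (x.g w.1) - rn f (x.g w.2)|) ≤ ε := by
    refine (pb_mono fun w _ a b => a ?_).trans hE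
    have a1 := dv_anti zero_le_one le_rfl h.2.2.1
    have a2 : (1 : ℝ) / 2 ^ (f₀ + τ) = 2 * (1 / 2 ^ (f₀ + τ + 1)) := by rw [pow_succ]; field_simp
    rw [← add_assoc, le_abs]
    rw [le_abs] at b
    refine b.symm.imp (fun b => ?_) fun b => ?_ <;>
      linarith [rn_le f (x.g w.1), rn_le f (x.g w.2), lt_rn f (x.g w.1), lt_rn f (x.g w.2)]
  have a1 : ∀ s ∈ range K,
      ch P (fun ω => fl1 (t s + j) (x.y1 i ω)) (x.Bx ⟨i, f, t s, E, D₁ s, c s⟩) ≤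
      mi Q (fun w => fl1 (t s + j) (x.y1 i w.1)) (fun w => x.zg i f w.2)
        (fun w => x.Bx ⟨i, f, t s, E, D₁ s, c s⟩ w.1) +
      ch P (fun ω => fl1 (D₁ s) (x.nm i f ω)) (x.Bx ⟨i, f, t s, E, D₀ s, c s⟩) +
        (ε * (j * lg + 4) + 51) := fun s hs => by
    have k := e s (mem_range.1 hs)
    have b1 := rot (P := Q) (x := x.map Prod.fst) (y := x.map Prod.snd) (i := i) (f := f)
      (t := t s) (E := E) (D₀ := D₀ s) (D₁ := D₁ s) (c := c s) (i₀ := i₀) (f₀ := f₀) (τ := τ + 1)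
      (t₁ := t s + j) (u := j) (fun w hw => (mem w hw).1)
      (fun w hw => rn_cell h.1 (mem w hw).2.1) (fun w hw => rn_cell (by omega) (mem w hw).2.2.symm)
      hE' (by omega)
    have b2 := (tg.fst P P (x.lz i₀ f₀) (x.lz i₀ f₀)).ch_id (fun ω => fl1 (t s + j) (x.y1 i ω))
      (x.Bx ⟨i, f, t s, E, D₁ s, c s⟩)
    have b3 := (tg.snd P P (x.lz i₀ f₀) (x.lz i₀ f₀) (Law.rfl _)).ch_id
      (fun ω => fl1 (D₁ s) (x.nm i f ω)) (x.Bx ⟨i, f, t s, E, D₀ s, c s⟩)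
    rw [← b2, ← b3, ← add_assoc]
    exact b1
  have a2 := tele (P := Q) (fun s w => fl1 (t s + j) (x.y1 i w.1)) (fun w => x.zg i f w.2)
    (fun s w => x.Bx ⟨i, f, t s, E, D₁ s, c s⟩ w.1) K fun s hs => by
      have k := e s hs
      exact Fn.pair ((fn_fl1 _ k.2.2.2.2.2.2.2.1).trans
        (bx_t (x := x.map Prod.fst) (p := ⟨i, f, t (s + 1), E, D₁ (s + 1), c (s + 1)⟩)))
        (bx_mono (x := x.map Prod.fst) (p := ⟨i, f, t (s + 1), E, D₁ (s + 1), c (s + 1)⟩)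
          (q := ⟨i, f, t s, E, D₁ s, c s⟩) rfl rfl (by simp only; omega) le_rfl
          k.2.2.2.2.2.2.2.2.1 k.2.2.2.2.2.2.2.2.2)
  have a3 := ch_zg (P := Q) (x := x.map Prod.snd) (i := i) (f := f) (i₀ := i₀) (f₀ := f₀)
    (G := fun w => x.Bx ⟨i, f, t 0, E, D₁ 0, c 0⟩ w.1)
    (.of_fn fun a ha b hb q => (mem a ha).2.1.trans
      ((fl1_eq_of_le h.1 (congrArg (·.2.1.1) q)).trans (mem b hb).2.1.symm))
    (.of_fn fun a ha b hb q => (mem a ha).2.2.trans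
      ((fl1_eq_of_le (show f₀ ≤ f by omega) (congrArg (·.2.1.2) q)).trans (mem b hb).2.2.symm)) h.2.1 h.2.2.2
  have a4 := sum_le_sum a1
  rw [sum_add_distrib, sum_add_distrib, sum_const, card_range, nsmul_eq_mul] at a4
  exact a4.trans (add_le_add (by linarith [a2.trans a3]) le_rfl)

/-- Spread tilts: the normal digits of a chain of boxes have the entropy of the height. -/
theorem corF {i f E i₀ f₀ τ j u v K : ℕ} {ε : ℝ} (t D₁ c : ℕ → ℕ)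
    (hE : ∀ s < K, pb (glue P P (cx x ⟨i₀, f₀, t s, E, i₀ + c s, c s⟩ i f (D₁ s))
      (cx x ⟨i₀, f₀, t s, E, i₀ + c s, c s⟩ i f (D₁ s)))
      (fun w => ¬1 / 2 ^ (c s + τ) ≤ |x.tl f₀ w.2 - x.tl f₀ w.1|) ≤ ε)
    (h : i₀ + j ≤ i ∧ i ≤ i₀ + u ∧ f₀ ≤ f ∧ f ≤ f₀ + v)
    (e : ∀ s < K, D₁ s ≤ f₀ + t s ∧ D₁ s ≤ f₀ + i₀ + E ∧ t s ≤ i₀ + E ∧ c s ≤ f₀ + E ∧
      c s + τ + (i₀ + j) ≤ D₁ s ∧ t s ≤ t (s + 1) ∧ D₁ s ≤ i₀ + c (s + 1)) :
    K * ch P (fun ω => fl1 (i₀ + j) (x.z ω)) (x.lz i₀ f₀) ≤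
      ∑ s ∈ range K, ch P (fun ω => fl1 (D₁ s) (x.nm i f ω))
        (x.Bx ⟨i, f, t s, E, i₀ + c s, c s⟩) + ((u + v) * lg + 8) + K * (ε * (j * lg + 4) + 67) := by
  have a1 : ∀ s ∈ range K, ch P (fun ω => fl1 (i₀ + j) (x.z ω)) (x.lz i₀ f₀) ≤
      mi P (x.Bx ⟨i₀, f₀, t s, E, D₁ s, c (s + 1)⟩) (x.zg i f)
        (x.Bx ⟨i₀, f₀, t s, E, i₀ + c s, c s⟩) +
      ch P (fun ω => fl1 (D₁ s) (x.nm i f ω)) (x.Bx ⟨i, f, t s, E, i₀ + c s, c s⟩) +
        (ε * (j * lg + 4) + 67) := fun s hs => by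
    have k := e s (mem_range.1 hs)
    rw [← add_assoc]
    exact cor1 (by omega) h.2.2.1 (hE s (mem_range.1 hs)) (by omega)
  have a2 := tele (P := P) (fun s => x.Bx ⟨i₀, f₀, t s, E, D₁ s, c (s + 1)⟩) (x.zg i f)
    (fun s => x.Bx ⟨i₀, f₀, t s, E, i₀ + c s, c s⟩) K fun s hs => by
      have k := e s hs
      exact Fn.pair (bx_mono rfl rfl k.2.2.2.2.2.1 le_rfl k.2.2.2.2.2.2 le_rfl)
        (bx_mono rfl rfl k.2.2.2.2.2.1 le_rfl (by simp only; omega) (by simp only; omega))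
  have a3 := ch_zg (P := P) (x := x) (i := i) (f := f) (i₀ := i₀) (f₀ := f₀)
    (G := x.Bx ⟨i₀, f₀, t 0, E, i₀ + c 0, c 0⟩) (.of_fn fun _ _ _ _ q => congrArg (·.2.1.1) q)
    (.of_fn fun _ _ _ _ q => congrArg (·.2.1.2) q) h.2.1 h.2.2.2
  have a4 := sum_le_sum a1
  rw [sum_add_distrib, sum_add_distrib, sum_const, sum_const, card_range, nsmul_eq_mul,
    nsmul_eq_mul] at a4
  exact a4.trans (add_le_add (by linarith [a2.trans a3]) le_rfl)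

end Pool.Agent.MP_5168f5_an.MX.RP
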