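import Pool.Agent.MP_5168f5_an.MX.RPB

/-! Paths of boxes on a grid: the counting. -/

namespace Pool.Agent.MP_5168f5_an.MX.RP

open H19 H17S H17F R4.K31 Filter Finset

/-- The levels of the grid. -/
def lv (k R : ℕ → ℕ) (N p n : ℕ) : ℕ := k n + p * (R n / N)

theorem num1 {x y z a μ C : ℝ} (h : ∀ K K' : ℕ, 0 < K → 0 < K' →
    K * (K' * x) ≤ K' * (K * y + z * (a + K' * μ)) + K * C) : x ≤ y := by
  refine le_of_forall_pos_le_add fun ε hε => ?_
  obtain ⟨K', h1⟩ := exists_nat_gt (2 * |C| / ε)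
  obtain ⟨K, h2⟩ := exists_nat_gt (2 * |z * (a + K' * μ)| / ε)
  have p1 : (0 : ℝ) < K' := lt_of_le_of_lt (by positivity) h1
  have p2 : (0 : ℝ) < K := lt_of_le_of_lt (by positivity) h2
  have := h K K' (by exact_mod_cast p2) (by exact_mod_cast p1)
  rw [div_lt_iff₀ hε] at h1 h2
  have a1 := mul_le_mul_of_nonneg_left ((le_abs_self C).trans (by linarith : |C| ≤ K' * ε / 2)) p2.le
  have a2 := mul_le_mul_of_nonneg_left ((le_abs_self _).trans
    (by linarith : |z * (a + K' * μ)| ≤ K * ε / 2)) p1.le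
  exact le_of_mul_le_mul_left (by nlinarith) (mul_pos p2 p1)

theorem num2 {κ r ι : ℝ} (h0 : 0 ≤ κ) (h1 : κ ≤ 1) (hr : 0 < r) (h : ∀ T J : ℕ, 0 < T →
    (J : ℝ) + 2 < r * T → κ * (T + J) + T ≤ ι * T) : 1 + κ * (1 + r) ≤ ι := by
  refine le_of_forall_pos_le_add fun ε hε => ?_
  obtain ⟨T, a1⟩ := exists_nat_gt (3 / ε + 3 / r)
  have p1 : 3 / ε < (T : ℝ) := lt_of_le_of_lt (le_add_of_nonneg_right (by positivity)) a1
  have p2 : 3 / r < (T : ℝ) := lt_of_le_of_lt (le_add_of_nonneg_left (by positivity)) a1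
  have p0 : (0 : ℝ) < T := lt_of_le_of_lt (by positivity) p1
  rw [div_lt_iff₀ hε] at p1
  rw [div_lt_iff₀ hr] at p2
  have b1 := Nat.le_ceil (r * T - 3)
  have b2 := Nat.ceil_lt_add_one (show 0 ≤ r * T - 3 by linarith)
  have := h T ⌈r * T - 3⌉₊ (by exact_mod_cast p0) (by linarith)
  exact le_of_mul_le_mul_right (by nlinarith) p0

variable {κ r ι : ℝ} {o : ℕ → Ob} {k R D : ℕ → ℕ} {N p q : ℕ}

theorem lv_le (h : q ≤ N) (n : ℕ) : q * (R n / N) ≤ R n :=
  (Nat.mul_le_mul_right _ h).trans (Nat.mul_div_le _ _)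

theorem in_lv (h : p ≤ q) (h' : q ≤ N) : In k R (lv k R N p) (lv k R N q) :=
  Eventually.of_forall fun n => ⟨Nat.le_add_right _ _,
    Nat.add_le_add_left (Nat.mul_le_mul_right _ h) _, Nat.add_le_add_left (lv_le h' n) _⟩

theorem lv_sub (n : ℕ) : (lv k R N q n : ℝ) - lv k R N p n = (q - p) * (R n / N : ℕ) := by
  unfold lv; push_cast; ring

/-- A strict inequality between the rates gives an exact inequality. -/
theorem ev_le (hR : Big R) (hN : 0 < N) {F G : ℕ → ℝ} (h : Le R F G) {a : ℝ} (ha : 0 < a) :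
    ∀ᶠ n in UF, F n ≤ G n + a * (R n / N : ℕ) := h.frac (hR.frac_div hN) a ha

theorem f_lo (H : Tan κ r ι o k R D) (hN : 0 < N) (h : p ≤ q) (h' : q ≤ N) {j j' : ℕ}
    (e : (j : ℝ) < r * (q - p) + j') : ∀ᶠ n in UF,
    (o n).f (lv k R N p n) + j * (R n / N) ≤ (o n).f (lv k R N q n) + j' * (R n / N) := by
  filter_upwards [ev_le H.big hN (H.lin _ _ (in_lv h h')).2 (sub_pos.2 e)] with n a
  rw [lv_sub] at a
  exact_mod_cast (by linarith : ((o n).f (lv k R N p n) : ℝ) + j * (R n / N : ℕ) ≤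
    (o n).f (lv k R N q n) + j' * (R n / N : ℕ))

theorem f_hi (H : Tan κ r ι o k R D) (hN : 0 < N) (h : p ≤ q) (h' : q ≤ N) {j j' : ℕ}
    (e : r * (q - p) + j < j') : ∀ᶠ n in UF,
    (o n).f (lv k R N q n) + j * (R n / N) ≤ (o n).f (lv k R N p n) + j' * (R n / N) := by
  filter_upwards [ev_le H.big hN (H.lin _ _ (in_lv h h')).1 (sub_pos.2 e)] with n a
  rw [lv_sub] at a
  exact_mod_cast (by linarith : ((o n).f (lv k R N q n) : ℝ) + j * (R n / N : ℕ) ≤
    (o n).f (lv k R N p n) + j' * (R n / N : ℕ))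

theorem le_eps (hR : Big R) {F G : ℕ → ℝ} (C : ℝ) (h : ∀ ε : ℝ, 0 < ε → ∀ᶠ n in UF,
    F n ≤ G n + ε * (C * R n) + C) : Le R F G := fun ε hε => by
  filter_upwards [h (ε / 2 / (|C| + 1)) (by positivity), hR.sm C _ (half_pos hε)] with n a b
  have c1 : ε / 2 / (|C| + 1) * C ≤ ε / 2 := by
    rw [div_mul_eq_mul_div, div_le_iff₀ (by positivity)]
    nlinarith [le_abs_self C]
  nlinarith [mul_le_mul_of_nonneg_right c1 (Nat.cast_nonneg (α := ℝ) (R n))]

/-- The gain of the step at height `p` and offset `b`. -/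
noncomputable def gs (o : ℕ → Ob) (k R D : ℕ → ℕ) (N T A : ℕ) (Dd : ℕ → ℕ → ℕ → ℕ)
    (c : ℕ → ℕ → ℕ) (p b n : ℕ) : ℝ :=
  gn (o n) (D n) (lv k R N (p + A) n) (lv k R N (p + b) n) (Dd p (p + b) n)
    (Dd (p + T) (p + T + b) n) (c (p + b) n)

/-- The counting: many paths with many steps. -/
theorem skel (H : Tan κ r ι o k R D) {T A a μ K K' : ℕ} {γ C : ℝ} (Dd : ℕ → ℕ → ℕ → ℕ)
    (c : ℕ → ℕ → ℕ) (hN : T * K + T + (a + μ * K') < N)
    (ok : ∀ p b, a ≤ b → p + T + b < N → ∀ᶠ n in UF, Ok (o n) (D n) (lv k R N (p + A) n)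
      (lv k R N (p + b) n) (lv k R N (p + T + b) n) (lv k R N (p + T + A) n) (Dd p (p + b) n)
        (Dd (p + T) (p + T + b) n) (c (p + b) n) (c (p + T + b) n))
    (e0 : ∀ b, b < N → ∀ᶠ n in UF, (o n).d + (o n).f (k n) ≤ c b n ∧
      k n + ((o n).d + (o n).f (k n)) ≤ Dd 0 b n)
    (ht : ∀ q < N, Sm R fun n => tc (o n) (D n) (lv k R N q n) (c q n))
    (hg : ∀ p, p + T + (a + μ * K') < N → Le R (fun n => K' * γ * (R n / N : ℕ) * lg) fun n =>
      ∑ s ∈ range K', gs o k R D N T A Dd c p (a + μ * s) n + C * (R n / N : ℕ) * lg) :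
    K * (K' * (γ + T)) ≤ K' * (K * (ι * T) + |ι| * (a + K' * μ)) + K * C := by
  have n0 : 0 < N := by omega
  have mm : ∀ {m K T : ℕ}, m ≤ K → T * m ≤ T * K := fun h => Nat.mul_le_mul_left _ h
  have a1 : ∀ s ∈ range K', Le R (fun n => ∑ m ∈ range K,
      (gs o k R D N T A Dd c (T * m) (a + μ * s) n + T * (R n / N : ℕ) * lg))
      fun n => (K * (ι * T) + |ι| * (a + K' * μ)) * (R n / N : ℕ) * lg := fun s hs => by
    have s1 := mm (T := μ) (mem_range.1 hs).le
    have b1 := Le.sum (range K) fun m hm => H.lat _ _ (in_lv (k := k) (R := R) (N := N)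
      (p := T * m + (a + μ * s)) (q := T * m + T + (a + μ * s)) (by omega)
      (by have := mm (T := T) (mem_range.1 hm).le; omega))
    have b2 := Sm.sum (range (K + 1)) fun m hm => ht (T * m + (a + μ * s))
      (by have := mm (T := T) (Nat.lt_succ_iff.1 (mem_range.1 hm)); omega)
    have b3 : Up ι k R o := H.up _ _ _ (dn_rfl _)
    refine Le.of4 b1 b2 (b3 _ _ (in_lv (k := k) (R := R) (N := N) (p := 0)
      (q := T * K + (a + μ * s)) (by omega) (by omega))) (H.big.sm (86 * K + 120)) ?_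
    filter_upwards [H.alg, e0 (a + μ * s) (by omega), (eventually_all_finset (range (K + 1))).2
      fun m hm => ok (T * m) (a + μ * s) (by omega)
        (by have := mm (T := T) (Nat.lt_succ_iff.1 (mem_range.1 hm)); omega)] with n u1 u2 u3
    have c1 := path (o := o n) (D := D n) u1.1.mono (fun m => lv k R N (T * m + A) n)
      (fun m => lv k R N (T * m + (a + μ * s)) n) (fun m => Dd (T * m) (T * m + (a + μ * s)) n)
      (fun m => c (T * m + (a + μ * s)) n) (lv k R N 0 n) K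
      (fun m hm => u3 m (mem_range.2 (by omega))) (by simpa [lv] using u2) (by simp [lv])
    have c2 : ι * ((T * K + (a + μ * s) : ℕ) - (0 : ℕ)) ≤ K * (ι * T) + |ι| * (a + K' * μ) := by
      have : ((μ * s : ℕ) : ℝ) ≤ (μ * K' : ℕ) := by exact_mod_cast s1
      push_cast at this ⊢
      nlinarith [le_abs_self ι, abs_nonneg ι, mul_le_mul_of_nonneg_right (le_abs_self ι)
        (by positivity : (0 : ℝ) ≤ a + μ * s)]
    have c3 := mul_le_mul_of_nonneg_right c2 (by have := lg_pos; positivity :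
      (0 : ℝ) ≤ (R n / N : ℕ) * lg)
    simp only [lv_sub, sum_add_distrib, Nat.mul_succ] at c1 ⊢
    have c4 : ∀ m : ℕ, (((T * m + T + (a + μ * s) : ℕ) : ℝ) - (T * m + (a + μ * s) : ℕ)) = T :=
      fun m => by push_cast; ring
    simp only [c4]
    unfold gs
    unfold lt se at c1
    linarith
  have a2 := Le.sum (range K) fun m hm => hg (T * m)
    (by have := mm (T := T) (mem_range.1 hm).le; omega)
  have a3 : Le R (fun n => (K * (K' * (γ + T)) * lg) * (R n / N : ℕ)) fun n =>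
      ((K' * (K * (ι * T) + |ι| * (a + K' * μ)) + K * C) * lg) * (R n / N : ℕ) := by
    refine Le.of2 (Le.sum _ a1) a2 (Eventually.of_forall fun n => le_of_eq ?_)
    simp only [sum_add_distrib, sum_const, card_range, nsmul_eq_mul]
    rw [sum_comm]
    ring
  exact le_of_mul_le_mul_right
    ((a3.frac (H.big.frac_div n0)).num (H.big.frac (H.big.frac_div n0))) lg_pos

end Pool.Agent.MP_5168f5_an.MX.RP
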