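import Pool.Agent.MP_5168f5_an.MX.RPC
import Pool.Agent.MP_5168f5_an.MX.QApi

/-! Paths of boxes on a grid: deep tilts. -/

namespace Pool.Agent.MP_5168f5_an.MX.RP

open H19 H17S H17F R4.K31 Filter Finset

variable {κ r ι : ℝ} {o : ℕ → Ob} {k R D : ℕ → ℕ}

theorem ex_nat {r : ℝ} (hr : 0 < r) (x : ℝ) (m : ℕ) : ∃ A : ℕ, m ≤ A ∧ x < r * A := by
  obtain ⟨A, h⟩ := exists_nat_gt (x / r)
  rw [div_lt_iff₀ hr] at h
  refine ⟨A + m, by omega, ?_⟩
  push_cast
  nlinarith [mul_nonneg hr.le (Nat.cast_nonneg (α := ℝ) m)]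

/-- If the tilt is known deeper than the lateral position, each step gains `2 + r`. -/
theorem rotS (H : Tan κ r ι o k R D) (hr : 0 < r) {r' : ℝ} (h1 : 1 < r') (c : ℕ → ℕ → ℕ)
    (hm : ∀ᶠ n in UF, Monotone (c n) ∧ (o n).d + (o n).f (k n) ≤ c n (k n) ∧
      c n (k n + R n) ≤ (o n).f (k n) + ((o n).d + D n))
    (ht : ∀ a : ℕ → ℕ, In k R a a → Sm R fun n => tc (o n) (D n) (a n) (c n (a n)))
    (hc : ∀ a b : ℕ → ℕ, In k R a b →
      Le R (fun n => r' * (b n - a n) + ((o n).d + (o n).f (a n))) fun n => c n (b n)) :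
    2 + r ≤ ι := by
  refine le_trans (by linarith) (num2 zero_le_one le_rfl hr fun T J hT hJ => ?_)
  obtain ⟨A, hA, hA'⟩ := ex_nat hr (T + r * T) T
  obtain ⟨a, ha, ha'⟩ := ex_nat (sub_pos.2 h1) (T + r' * T) A
  obtain ⟨V, hV⟩ := exists_nat_gt (r * A)
  obtain ⟨μ, hμ⟩ : ∃ μ, μ = T + J := ⟨_, rfl⟩
  have hμ' : (μ : ℝ) = T + J := by exact_mod_cast hμ
  refine num1 (z := |ι|) (a := a) (μ := μ) (C := A + V) fun K K' _ hK => ?_
  obtain ⟨N, hN⟩ : ∃ N, T * K + T + (a + μ * K') < N := ⟨_, Nat.lt_succ_self _⟩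
  have n0 : 0 < N := by omega
  have F : ∀ p b, a ≤ b → p + T + b < N → ∀ᶠ n in UF, Monotone (o n).f ∧ Monotone (c n) ∧
      (p + T + b) * (R n / N) ≤ D n ∧
      (o n).f (lv k R N (p + T) n) + T * (R n / N) ≤ (o n).f (lv k R N (p + A) n) ∧
      (o n).f (lv k R N (p + T) n) + (o n).d + (b + T) * (R n / N) ≤ c n (lv k R N (p + b) n) ∧
      c n (lv k R N (p + b) n) ≤ (o n).f (lv k R N p n) + ((o n).d + D n) := fun p b hb hp => by
    have b0 : (a : ℝ) ≤ b := by exact_mod_cast hb
    filter_upwards [H.alg, hm, H.cap 1, f_lo H n0 (p := p + T) (q := p + A) (j := T) (j' := 0)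
      (by omega) (by omega) (by push_cast; linarith), ev_le H.big n0
      (hc _ _ (in_lv (N := N) (p := p + T) (q := p + b) (by omega) (by omega)))
      (a := r' * (b - T) - (b + T)) (by nlinarith)] with n u1 u2 u3 u4 u5
    have c1 := lv_le (R := R) hp.le n
    have c2 := lv_le (R := R) (show p + b ≤ N by omega) n
    have c3 := u2.1 (Nat.add_le_add_left c2 (k n))
    have c4 := u1.1.mono (Nat.le_add_right (k n) (p * (R n / N)))
    refine ⟨u1.1.mono, u2.1, by omega, by omega, ?_, by unfold lv; omega⟩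
    rw [lv_sub] at u5
    push_cast at u5
    exact_mod_cast (by linarith : ((o n).f (lv k R N (p + T) n) : ℝ) + (o n).d +
      (b + T) * (R n / N : ℕ) ≤ c n (lv k R N (p + b) n))
  have key := skel H (T := T) (A := A) (a := a) (μ := μ) (γ := 1 * (T + J)) (C := A + V)
    (fun p q n => (o n).f (lv k R N p n) + (lv k R N q n + (o n).d))
    (fun q n => c n (lv k R N q n)) hN (fun p b hb hp => ?_) (fun b _ => ?_)
    (fun q hq => ht _ (in_lv le_rfl hq.le)) fun p hp => ?_
  · exact key
  · filter_upwards [F p b hb hp] with n ⟨u1, u2, u3, u4, u5, u6⟩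
    have m : ∀ {p q}, p ≤ q → lv k R N p n ≤ lv k R N q n :=
      fun h => Nat.add_le_add_left (Nat.mul_le_mul_right _ h) _
    have c1 := u1 (m (show p ≤ p + T by omega))
    have c2 := u1 (m (show p ≤ p + A by omega))
    have c3 := u2 (m (show p + b ≤ p + T + b by omega))
    have c4 := Nat.mul_le_mul_right (R n / N) (ha.trans hb)
    simp only [Ok, lv, add_mul] at *
    omega
  · filter_upwards [hm] with n u
    have := u.1 (Nat.le_add_right (k n) (b * (R n / N)))
    simp only [lv, zero_mul, add_zero]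
    omega
  have mm : ∀ s < K', μ * s + μ ≤ μ * K' := fun s h => Nat.mul_le_mul_left _ h
  have m0 := mm 0 hK
  have fr := H.big.frac_div n0
  have nd := (H.nd' (in_lv (N := N) (p := p) le_rfl (by omega)) fr).copy fun n => (o n).x.g
  have a1 := Le.sum (range K') fun s hs => H.lat _ _ (in_lv (k := k) (R := R) (N := N)
    (p := p + (a + μ * s)) (q := p + (a + μ * s) + μ) (by omega)
    (by have := mm s (mem_range.1 hs); omega))
  have a2 := Sm.sum (range K') fun s hs => ht _ (in_lv (k := k) (R := R) (N := N)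
    (p := p + (a + μ * s)) le_rfl (by have := mm s (mem_range.1 hs); omega))
  have a3 : Le R (fun n => ∑ s ∈ range K', lt (o n) (D n) (lv k R N (p + (a + μ * s)) n)
      (lv k R N (p + (a + μ * s) + μ) n)) fun n =>
      ∑ s ∈ range K', gs o k R D N T A
        (fun p q n => (o n).f (lv k R N p n) + (lv k R N q n + (o n).d))
        (fun q n => c n (lv k R N q n)) p (a + μ * s) n + (A + V) * (R n / N : ℕ) * lg +
      ∑ s ∈ range K', tc (o n) (D n) (lv k R N (p + (a + μ * s)) n)
        (c n (lv k R N (p + (a + μ * s)) n)) := by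
    refine le_eps H.big (97 * K' + 8) fun ε hε => ?_
    filter_upwards [nd ε hε, (eventually_all_finset (range K')).2 fun s hs =>
      F p (a + μ * s) (by omega) (by have := mm s (mem_range.1 hs); omega),
      f_lo H n0 (p := p) (q := p + T) (j := J + 2) (j' := 0) (by omega) (by omega)
        (by push_cast; linarith), f_hi H n0 (p := p) (q := p + A) (j := 0) (j' := V) (by omega)
        (by omega) (by push_cast; linarith), (H.big.frac fr).ev 1, H.big.ev 4, H.cap 1]
      with n u1 u2 u3 u4 u5 u6 u7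
    have w1 : 1 ≤ R n / N := by exact_mod_cast u5
    have w2 : μ * (R n / N) = T * (R n / N) + J * (R n / N) := by rw [hμ, add_mul]
    have m : ∀ {p q}, p ≤ q → lv k R N p n ≤ lv k R N q n :=
      fun h => Nat.add_le_add_left (Nat.mul_le_mul_right _ h) _
    obtain ⟨v1, v2, -, v4, -⟩ := u2 0 (mem_range.2 hK)
    have c1 := v1 (m (show p ≤ p + T by omega))
    have c2 := rotF (P := (o n).P) (x := (o n).x) (i := lv k R N (p + A) n)
      (f := (o n).f (lv k R N (p + A) n)) (E := (o n).d + D n) (j := μ * (R n / N))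
      (u := A * (R n / N)) (v := V * (R n / N)) (K := K')
      (fun s => lv k R N (p + (a + μ * s)) n + (o n).d)
      (fun s => (o n).f (lv k R N p n) + (lv k R N (p + (a + μ * s)) n + (o n).d))
      (fun s => (o n).f (lv k R N (p + T) n) + (lv k R N (p + T + (a + μ * s)) n + (o n).d))
      (fun s => c n (lv k R N (p + (a + μ * s)) n)) u1
      (by simp only [lv, add_mul] at *; omega) fun s hs => by
        obtain ⟨-, -, v3, -, v5, v6⟩ := u2 s (mem_range.2 hs)
        have := v2 (m (show p + (a + μ * s) ≤ p + (a + μ * (s + 1)) by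
          rw [Nat.mul_succ]; omega))
        simp only [lv, Nat.mul_succ, add_mul] at *
        omega
    have e : ∀ s, lv k R N (p + (a + μ * s) + μ) n + (o n).d =
        lv k R N (p + (a + μ * s)) n + (o n).d + μ * (R n / N) := fun s => by
      simp only [lv, add_mul]; omega
    have c4 := sum_le_sum fun s (hs : s ∈ range K') => lat1 (o := o n) (D := D n)
      (i := lv k R N (p + A) n) (B := lv k R N (p + (a + μ * s)) n)
      (b := lv k R N (p + (a + μ * s) + μ) n)
      (Dd := (o n).f (lv k R N (p + T) n) + (lv k R N (p + T + (a + μ * s)) n + (o n).d))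
      (c := c n (lv k R N (p + (a + μ * s)) n)) v1 (by
        obtain ⟨-, -, v3, -, v5, v6⟩ := u2 s hs
        have := Nat.mul_le_mul_right (R n / N) (show A ≤ a + μ * s by omega)
        have := v1 (m (show p ≤ p + A by omega))
        have := lv_le (R := R) (show p + (a + μ * s) + μ ≤ N by
          have := mm s (mem_range.1 hs); omega) n
        simp only [lv, add_mul] at *
        omega)
    have c5 : ((μ * (R n / N) : ℕ) : ℝ) ≤ R n := by
      exact_mod_cast lv_le (R := R) (show μ ≤ N by omega) n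
    have c6 : (K' : ℝ) * (ε * ((μ * (R n / N) : ℕ) * lg + 4)) ≤ ε * ((97 * K' + 8) * R n) := by
      have := mul_le_mul c5 lg_lt_one.le lg_pos.le (Nat.cast_nonneg _)
      have := mul_le_mul_of_nonneg_left (by linarith :
        ((μ * (R n / N) : ℕ) : ℝ) * lg + 4 ≤ 97 * R n) (by positivity : 0 ≤ K' * ε)
      nlinarith
    simp only [sum_add_distrib, sum_const, card_range, nsmul_eq_mul, kb, e] at c4
    unfold gs gn kb
    push_cast at c2 c6
    linarith
  refine Le.of3 a1 a2 a3 (Eventually.of_forall fun n => le_of_eq ?_)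
  unfold lt se
  simp only [lv_sub]
  have c4 : ∀ s : ℕ, (((p + (a + μ * s) + μ : ℕ) : ℝ) - (p + (a + μ * s) : ℕ)) =
      T + J := fun m => by push_cast; linarith
  simp only [c4, sum_const, card_range, nsmul_eq_mul]
  ring

end Pool.Agent.MP_5168f5_an.MX.RP
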