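import Pool.Agent.MP_5168f5_an.MX.RedDefs
import Pool.Agent.MP_5168f5_an.MX.Flat
import Pool.Agent.MP_5168f5_an.H17F.KS

/-! One may assume that the shading, the tubes and the points are uniform at all scales. -/

namespace Pool.Agent.MP_5168f5_an.MX

open H19 H17S H17F Filter

variable {N : ℕ}

/-- Pointwise uniformity at all scales up to `M`. -/
structure Unf (c : Cfg N) (M : ℕ) (δ : ℝ) : Prop where
  shd : ∀ k ≤ M, Flat c.P (fun ω => (c.ln ω, fl1 k (c.z ω))) δ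
  seg : ∀ i ≤ M, ∀ j ≤ M, ∀ k ≤ M,
    Flat c.P (fun ω => (fl i (c.a ω), fl j (c.e ω), fl1 k (c.z ω))) δ
  pts : ∀ i ≤ M, ∀ j ≤ M, ∀ k ≤ M, ∀ m ≤ M,
    Flat c.P (fun ω => (fl i (c.a ω), fl j (c.e ω), fl1 k (c.z ω), fl m (c.pt ω))) δ

/-- A uniform direction separated sequence. -/
structure DSU (x : ℕ → Cfg N) (M : ℕ → ℕ) : Prop extends DSK x M where
  unf : ∃ δ : ℕ → ℝ, Sm M δ ∧ ∀ᶠ n in UF, Unf (x n) (M n) (δ n)

/-- The entropy form of the maximal estimate for uniform sequences. -/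
def MuU (N : ℕ) : Prop := ∀ (x : ℕ → Cfg N) (M : ℕ → ℕ), DSU x M →
  Le M (fun n => mu (x n) (M n)) fun n => N * df (x n) (M n)

/-- Condition on an event. -/
noncomputable def rs (c : Cfg N) (E : c.Ω → Prop) : Cfg N := { c with P := cE c.P E }

/-- Everything at given resolutions. -/
noncomputable def Wv (c : Cfg N) (b : Bool) (i j k m : ℕ) (ω : c.Ω) : Z N × Z N × ℤ × Z N :=
  (fl i (c.a ω), fl j (c.e ω), fl1 k (c.z ω), if b then fl m (c.pt ω) else 0)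

theorem Wv_mono (c : Cfg N) (b : Bool) {i j k m i' j' k' m' : ℕ} (hi : i ≤ i') (hj : j ≤ j')
    (hk : k ≤ k') (hm : m ≤ m') : Fn c.P (Wv c b i j k m) (Wv c b i' j' k' m') := by
  intro u _ v _ e
  simp only [Wv, Prod.mk.injEq] at e ⊢
  refine ⟨fl_eq_of_le hi e.1, fl_eq_of_le hj e.2.1, fl1_eq_of_le hk e.2.2.1, ?_⟩
  cases b
  · rfl
  · exact fl_eq_of_le hm e.2.2.2

theorem ch_fl1_ref {Ω β : Type} {P : FP Ω} {x : Ω → ℝ} {G : Ω → β} {j i : ℕ}
    (h : Fn P (fun ω => fl1 j (x ω)) G) : ch P (fun ω => fl1 (j + i) (x ω)) G ≤ i * lg := by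
  have := ch_fl1_refine (P := P) (x := x) (G := G) (j := fun _ => j) (i := fun _ => i)
    (fun _ _ _ _ _ => rfl) (fun _ _ _ _ _ => rfl) h
  rwa [FP.E_const] at this

theorem Wv_ref (c : Cfg N) (b : Bool) (i j k m T : ℕ) :
    hh c.P (Wv c b (i + T) (j + T) (k + T) (m + T))
      ≤ hh c.P (Wv c b i j k m) + (3 * N + 1) * T * lg := by
  have h0 := hh_mono (P := c.P)
    (Fn.fst (Wv c b (i + T) (j + T) (k + T) (m + T)) (Wv c b i j k m))
  have h1 := ch_fl_refine (P := c.P) (x := c.a) (G := Wv c b i j k m) (j := i) (i := T)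
    fun _ _ _ _ e => congrArg (·.1) e
  have h2 := ch_fl_refine (P := c.P) (x := c.e) (G := Wv c b i j k m) (j := j) (i := T)
    fun _ _ _ _ e => congrArg (·.2.1) e
  have h3 := ch_fl1_ref (P := c.P) (x := c.z) (G := Wv c b i j k m) (j := k) (i := T)
    fun _ _ _ _ e => congrArg (·.2.2.1) e
  have h4 : ch c.P (fun ω => if b then fl (m + T) (c.pt ω) else 0) (Wv c b i j k m)
      ≤ N * T * lg := by
    cases b
    · exact (ch_zero fun _ _ _ _ _ => rfl).trans_le (by have := lg_pos; positivity)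
    · exact ch_fl_refine fun _ _ _ _ e => congrArg (·.2.2.2) e
  have h5 : ch c.P (Wv c b (i + T) (j + T) (k + T) (m + T)) (Wv c b i j k m) ≤ _ :=
    (ch_subadd _ _ _).trans (add_le_add h1 ((ch_subadd _ _ _).trans
      (add_le_add h2 ((ch_subadd _ _ _).trans (add_le_add h3 h4)))))
  unfold ch at h5
  linarith

/-- The exact conditions on one configuration. -/
structure DS1 (c : Cfg N) (M : ℕ) : Prop where
  box : c.Box
  triv : Fn c.P c.θ fun _ => ()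
  sep : Fn c.P c.ln fun ω => fl M (c.e ω)
  grid : Fn c.P c.z fun ω => fl1 M (c.z ω)

theorem DSK.ds1 {x : ℕ → Cfg N} {M : ℕ → ℕ} (h : DSK x M) (n : ℕ) : DS1 (x n) (M n) :=
  ⟨h.box n, h.triv n, h.sep n, h.grid n⟩

theorem DS1.rs {c : Cfg N} {M : ℕ} (h : DS1 c M) (E : c.Ω → Prop) : DS1 (rs c E) M :=
  ⟨fun ω hω => h.box ω (cE_sub hω), fn_cE h.triv E, fn_cE h.sep E, fn_cE h.grid E⟩

theorem DS1.hh_le {c : Cfg N} {M : ℕ} (h : DS1 c M) {α : Type} {F : c.Ω → α}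
    (hF : Fn c.P F fun ω => (c.ln ω, c.z ω)) : hh c.P F ≤ (N + 1) * M := by
  have h1 := ch_fl_refine (P := c.P) (x := c.e) (G := fun _ => ()) (j := 0) (i := M)
    fun u hu v hv _ => funext fun t => (fl1_zero_of_box ((h.box u hu).2.1 t).1
      ((h.box u hu).2.1 t).2).trans (fl1_zero_of_box ((h.box v hv).2.1 t).1
      ((h.box v hv).2.1 t).2).symm
  have h2 := ch_fl1_ref (P := c.P) (x := c.z) (G := fun _ => ()) (j := 0) (i := M)
    fun u hu v hv _ => (fl1_zero_of_box (h.box u hu).2.2.1 (h.box u hu).2.2.2).trans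
      (fl1_zero_of_box (h.box v hv).2.2.1 (h.box v hv).2.2.2).symm
  have h3 := (ch_subadd _ _ _).trans (add_le_add h1 h2)
  rw [ch_unit, zero_add] at h3
  have h4 := hh_mono (hF.trans ((h.sep.left _).pair (h.grid.right _)))
  have h5 := mul_le_of_le_one_right (show (0 : ℝ) ≤ (N + 1) * M by positivity) lg_lt_one.le
  linarith

theorem fn_Wv (c : Cfg N) (b : Bool) (i j k m : ℕ) :
    Fn c.P (Wv c b i j k m) fun ω => (c.ln ω, c.z ω) := by
  intro u _ v _ e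
  simp only [Cfg.ln, Prod.mk.injEq] at e
  simp only [Wv, Cfg.pt, e.1.1, e.1.2.1, e.2]

theorem unf_of {c : Cfg N} {M : ℕ} {δ : ℝ} (h : DS1 c M)
    (hW : ∀ b, ∀ i ≤ M, ∀ j ≤ M, ∀ k ≤ M, ∀ m ≤ M, Flat c.P (Wv c b i j k m) δ) : Unf c M δ := by
  refine ⟨fun k hk => (hW false 0 M.zero_le M le_rfl k hk 0 M.zero_le).congr ?_ ?_,
    fun i hi j hj k hk => (hW false i hi j hj k hk 0 M.zero_le).congr ?_ ?_,
    fun i hi j hj k hk m hm => hW true i hi j hj k hk m hm⟩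
  · intro u _ v _ e
    simp only [Cfg.ln, Prod.mk.injEq] at e
    simp [Wv, e.1.1, e.1.2.1, e.2]
  · exact fun u hu v hv e => Prod.ext (h.sep u hu v hv (congrArg (·.2.1) e)) (congrArg (·.2.2.1) e)
  · intro u _ v _ e
    simp only [Prod.mk.injEq] at e
    simp [Wv, e.1, e.2.1, e.2.2]
  · intro u _ v _ e
    simp only [Wv, Prod.mk.injEq] at e ⊢
    exact ⟨e.1, e.2.1, e.2.2.1⟩

theorem unf_one {c : Cfg N} {M L : ℕ} (h : DS1 c M) (hM : 0 < M) {ε : ℝ} (hε : 0 < ε)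
    (hε' : ε ≤ 1 / 4) (hL : 1 ≤ ε * L)
    (hk : 2 * (L + 1 : ℝ) ^ 4 * (2 * Real.log ((N + 1) * M + 2)) ≤ ε * (ε * M)) :
    ∃ E : c.Ω → Prop, Unf (rs c E) M
        (ε * M + 1 + Real.log ((2 * (L + 1 : ℝ) ^ 4 + 1) / ε) + (3 * N + 1) * (ε * M + 1)) ∧
      mu c M - N * df c M ≤ mu (rs c E) M - N * df (rs c E) M
        + (N + 1) * (ε * (ε * M) + 1) + 4 * (N + 1) ^ 2 * (ε * M) := by
  have L0 : 0 < L := Nat.pos_of_ne_zero fun e => by norm_num [e] at hL
  have M0 : (0 : ℝ) < M := by exact_mod_cast hM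
  have N0 : (0 : ℝ) ≤ N := Nat.cast_nonneg N
  set T := M / L + 1 with hT
  have T0 : 0 < T := Nat.succ_pos _
  have T1 : (T : ℝ) ≤ ε * M + 1 := by
    have a1 : ((M / L : ℕ) : ℝ) * L ≤ M := by exact_mod_cast Nat.div_mul_le_self M L
    have a2 := mul_le_mul_of_nonneg_left hL (Nat.cast_nonneg (α := ℝ) (M / L))
    have a3 := mul_le_mul_of_nonneg_left a1 hε.le
    rw [hT]
    push_cast
    linarith
  have T2 : ∀ i ≤ M, i / T < L := fun i hi => (Nat.div_lt_iff_lt_mul T0).2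
    (hi.trans_lt (Nat.lt_mul_div_succ M L0))
  have hc : (Fintype.card (Bool × Fin (L + 1) × Fin (L + 1) × Fin (L + 1) × Fin (L + 1)) : ℝ)
      = 2 * (L + 1 : ℝ) ^ 4 := by
    simp only [Fintype.card_prod, Fintype.card_bool, Fintype.card_fin]
    push_cast
    ring
  obtain ⟨Λ, l1, l2, l3⟩ := flat_label c.P
    (fun (s : Bool × Fin (L + 1) × Fin (L + 1) × Fin (L + 1) × Fin (L + 1)) =>
      Wv c s.1 (s.2.1 * T) (s.2.2.1 * T) (s.2.2.2.1 * T) (s.2.2.2.2 * T))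
    (fun s => h.hh_le (fn_Wv c _ _ _ _ _)) hε (by linarith) (mul_pos hε M0) (hc ▸ hk)
  obtain ⟨ω, w1, w2, w3⟩ := pick (P := c.P) (fun ω => mu (rs c fun v => Λ v = Λ ω) M +
      N * ch (cv c.P Λ (Λ ω)) (fun v => fl1 M (c.z v)) c.ln) (fun ω => Λ ω = none)
    (C := (N + 1) * ((N + 1) * M)) (fun ω _ => by
      have a := h.rs fun v => Λ v = Λ ω
      have a1 : mu (rs c fun v => Λ v = Λ ω) M ≤ (N + 1) * M :=
        (ch_le_hh _ _).trans (a.hh_le fun u _ v _ e => congrArg (fun t => fl M t.1.2.1) e)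
      have a2 : ch (cv c.P Λ (Λ ω)) (fun v => fl1 M (c.z v)) c.ln ≤ (N + 1) * M :=
        (ch_le_hh _ _).trans (a.hh_le fun u _ v _ e => congrArg (fun t => fl1 M t.2) e)
      have a3 : 0 ≤ mu (rs c fun v => Λ v = Λ ω) M := ch_nonneg _ _
      rw [abs_of_nonneg (add_nonneg a3 (mul_nonneg N0 (ch_nonneg _ _)))]
      linarith [mul_le_mul_of_nonneg_left a2 N0]) l2 (by linarith)
  refine ⟨fun v => Λ v = Λ ω, unf_of (h.rs _) fun b i hi j hj k hk m hm => ?_, ?_⟩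
  · have a := (l3 ω w1 w2).2
    rw [hc] at a
    have lo : ∀ i, i / T * T ≤ i := fun i => Nat.div_mul_le_self i T
    have up : ∀ i, i ≤ (i / T + 1) * T := fun i => by
      rw [mul_comm]; exact (Nat.lt_mul_div_succ i T0).le
    refine (Flat.between
      (a (b, ⟨i / T, by linarith [T2 i hi]⟩, ⟨j / T, by linarith [T2 j hj]⟩,
        ⟨k / T, by linarith [T2 k hk]⟩, ⟨m / T, by linarith [T2 m hm]⟩))
      (a (b, ⟨i / T + 1, by linarith [T2 i hi]⟩, ⟨j / T + 1, by linarith [T2 j hj]⟩,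
        ⟨k / T + 1, by linarith [T2 k hk]⟩, ⟨m / T + 1, by linarith [T2 m hm]⟩))
      (Wv_mono (rs c _) b (lo i) (lo j) (lo k) (lo m))
      (Wv_mono (rs c _) b (up i) (up j) (up k) (up m)) (τ := (3 * N + 1) * T * lg) ?_).mono ?_
    · simp only [← Nat.succ_eq_add_one, Nat.succ_mul]
      exact Wv_ref (rs c _) b _ _ _ _ T
    · have a1 := mul_le_of_le_one_right (show (0 : ℝ) ≤ (3 * N + 1) * T by positivity) lg_lt_one.le
      have a2 := mul_le_mul_of_nonneg_left T1 (show (0 : ℝ) ≤ 3 * N + 1 by positivity)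
      linarith
  · have a1 : mu c M ≤ c.P.E (fun ω => mu (rs c fun v => Λ v = Λ ω) M) + hh c.P Λ :=
      ch_le_cv _ _ Λ
    have a2 := mul_le_mul_of_nonneg_left (ch_le_cv (P := c.P) (fun v => fl1 M (c.z v)) c.ln Λ) N0
    have a3 := mul_le_mul_of_nonneg_left (l1.trans (add_le_add le_rfl lg_lt_one.le))
      (show (0 : ℝ) ≤ N + 1 by positivity)
    rw [FP.E_add, FP.E_mul] at w3
    have a4 : df (rs c fun v => Λ v = Λ ω) M
        = M * lg - ch (cv c.P Λ (Λ ω)) (fun v => fl1 M (c.z v)) c.ln := rfl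
    rw [a4, df]
    linarith

/-- It suffices to treat uniform sequences. -/
theorem muK_of_muU (h : MuU N) : MuK N := by
  intro x M hx
  have N0 : (0 : ℝ) ≤ N := Nat.cast_nonneg N
  obtain ⟨r, r1, r2⟩ := KSA.spill (fun r n => ∃ E : (x n).Ω → Prop,
      Unf (rs (x n) E) (M n) (1 / (r + 1 : ℝ) * M n) ∧ mu (x n) (M n) - N * df (x n) (M n) ≤
        mu (rs (x n) E) (M n) - N * df (rs (x n) E) (M n) + 1 / (r + 1 : ℝ) * M n) fun r => by
    obtain ⟨ε, e0, e1⟩ : ∃ ε : ℝ, 0 < ε ∧ 8 * (N + 1) ^ 2 * ε = 1 / (r + 1 : ℝ) / 2 :=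
      ⟨1 / (r + 1 : ℝ) / 2 / (8 * (N + 1) ^ 2), by positivity, by field_simp⟩
    have r0 : 1 / (r + 1 : ℝ) ≤ 1 := div_le_self one_pos.le (by simp)
    have n1 : (N + 1 : ℝ) * ε ≤ (N + 1) ^ 2 * ε := by gcongr; nlinarith
    have n2 : ε ≤ (N + 1) * ε := by nlinarith
    obtain ⟨L, hL⟩ := exists_nat_ge (1 / ε)
    have s1 := (((Sub.nat hx.big).const_mul hx.big (C := N + 2) (by linarith)).log.smul
      (c := 2 * (L + 1 : ℝ) ^ 4 * 2) (by positivity)) (ε * ε) (by positivity)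
    have s2 := hx.big.sm (3 * N + 2 + |Real.log ((2 * (L + 1 : ℝ) ^ 4 + 1) / ε)|)
      (1 / (r + 1 : ℝ) / 2) (by positivity)
    filter_upwards [s1, s2, hx.big.ev 1] with n a1 a2 a3
    have M0 : (0 : ℝ) ≤ M n := Nat.cast_nonneg _
    have a4 := Real.log_le_log (show (0 : ℝ) < (N + 1) * M n + 2 by positivity)
      (show (N + 1 : ℝ) * M n + 2 ≤ (N + 2) * (M n + 1) by linarith)
    have a5 := mul_le_mul_of_nonneg_left a4 (show 0 ≤ 2 * (L + 1 : ℝ) ^ 4 * 2 by positivity)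
    obtain ⟨E, b1, b2⟩ := unf_one (hx.ds1 n) (L := L) (by exact_mod_cast one_pos.trans_le a3) e0
      (by linarith) (by rwa [div_le_iff₀' e0] at hL) (by linarith)
    have a6 := le_abs_self (Real.log ((2 * (L + 1 : ℝ) ^ 4 + 1) / ε))
    have a7 := abs_nonneg (Real.log ((2 * (L + 1 : ℝ) ^ 4 + 1) / ε))
    have c1 := mul_le_mul_of_nonneg_right n1 M0
    have c2 := mul_le_mul_of_nonneg_right n2 M0
    have c3 := congrArg (· * (M n : ℝ)) e1
    have c4 : (N + 1) * (ε * (ε * M n)) ≤ (N + 1) * (1 * (ε * M n)) := by gcongr; linarith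
    have c5 := mul_nonneg e0.le M0
    have up : ∀ {u v : ℝ}, u ≤ v → Unf (rs (x n) E) (M n) u → Unf (rs (x n) E) (M n) v :=
      fun e a => ⟨fun k hk => (a.shd k hk).mono e, fun i hi j hj k hk =>
        (a.seg i hi j hj k hk).mono e, fun i hi j hj k hk m hm =>
        (a.pts i hi j hj k hk m hm).mono e⟩
    beta_reduce at c3
    exact ⟨E, up (by linarith) b1, by linarith⟩
  choose! E e1 e2 using fun n (hn : ∀ j ≤ r n, ∃ E : (x n).Ω → Prop,
      Unf (rs (x n) E) (M n) (1 / (j + 1 : ℝ) * M n) ∧ mu (x n) (M n) - N * df (x n) (M n) ≤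
        mu (rs (x n) E) (M n) - N * df (rs (x n) E) (M n) + 1 / (j + 1 : ℝ) * M n) =>
    hn (r n) le_rfl
  have sm : Sm M fun n => 1 / (r n + 1 : ℝ) * M n := fun ε hε => by
    filter_upwards [r1.ev (1 / ε)] with n hn
    rw [zero_add]
    refine mul_le_mul_of_nonneg_right ?_ (Nat.cast_nonneg _)
    rw [div_le_iff₀ hε] at hn
    rw [div_le_iff₀ (by positivity)]
    linarith
  have d := fun n => (hx.ds1 n).rs (E n)
  exact Le.of2 (h (fun n => rs (x n) (E n)) M ⟨⟨hx.big, fun n => (d n).box, fun n => (d n).triv,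
    fun n => (d n).sep, fun n => (d n).grid⟩, _, sm, r2.mono e1⟩) sm
    (r2.mono fun n hn => by linarith [e2 n hn])

end Pool.Agent.MP_5168f5_an.MX
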