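import Pool.Agent.MP_5168f5_an.MX.PLSpec

/-! Bounds on the information that hold on all refinements of an event. -/

namespace Pool.Agent.MP_5168f5_an.MX

open H19 H17S H17F Filter R4

section Fin

variable {Ω W α β : Type} {P : FP Ω} {Q : FP W} {f : W → Ω}

theorem hh_cross (h : ∀ v ∈ Q.S, f v ∈ P.S) (G : Ω → β) :
    hh Q (fun v => G (f v)) ≤ Q.E fun v => -Real.log (pb P fun x => G x = G (f v)) := by
  classical
  refine Q.gibbs _ _ (fun v hv => pb_pos P ⟨f v, h v hv, rfl⟩) ?_
  have e : Q.E (fun v => (pb P fun x => G x = G (f v)) / Q.pr (Setoid.ker fun v => G (f v)) v) =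
      P.E fun x => Q.E fun v =>
        if G x = G (f v) then 1 / Q.pr (Setoid.ker fun v => G (f v)) v else 0 := by
    simp only [pb, FP.E, Finset.mul_sum, Finset.sum_div]
    rw [Finset.sum_comm]
    exact Finset.sum_congr rfl fun x _ => Finset.sum_congr rfl fun v _ => by
      split_ifs <;> ring
  rw [e]
  refine (P.E_mono fun x _ => ?_).trans_eq (P.E_const 1)
  convert Q.class_sum (Setoid.ker fun v => G (f v)) (fun v => G x = G (f v))
    fun _ _ _ _ a b => a.symm.trans b

/-- Entropy is at most the cross entropy. -/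
theorem ch_cross (h : ∀ v ∈ Q.S, f v ∈ P.S) (F : Ω → α) (G : Ω → β) :
    ch Q (fun v => F (f v)) (fun v => G (f v)) ≤ Q.E fun v => -Real.log (cm P G F (f v)) := by
  rw [KEA.ent1 Q (fun v => G (f v)) fun _ v => F (f v)]
  refine le_of_le_of_eq (Q.E_mono fun v hv => hh_cross (P := cv P G (G (f v))) (fun w hw => ?_) F)
    (KEA.exp Q (fun v => G (f v)) fun s v => -Real.log (pb (cv P G s) fun x => F x = F (f v))).symm
  obtain ⟨a, b⟩ := (mem_cv (Θ := fun v => G (f v)) hv w).1 hw
  exact (mem_cv (h v hv) _).2 ⟨h w a, b⟩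

/-- On a refinement the cross entropy is almost the entropy. -/
theorem cross_ch {c : ℝ} (h : K31.Dn c Q f P) (F : Ω → α) (G : Ω → β) :
    Q.E (fun v => -Real.log (cm P G F (f v))) ≤
      ch Q (fun v => F (f v)) (fun v => G (f v)) + Real.log c := by
  have c0 : 0 < c := one_pos.trans_le h.one_le
  have h1 := hh_cross (fun v hv => h.mem hv) G
  have h2 : Q.E (fun v => -Real.log (cm P G F (f v))) ≤ Q.E fun v =>
      -Real.log (H39F.pv Q (fun v => (F (f v), G (f v))) (F (f v), G (f v))) + Real.log c -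
        -Real.log (pb P fun x => G x = G (f v)) := Q.E_mono fun v hv => by
    have a := cm_pos G F (h.mem hv)
    have b : 0 < pb P fun x => G x = G (f v) := pb_pos P ⟨_, h.mem hv, rfl⟩
    have d := h.pb_le fun x => (F x, G x) = (F (f v), G (f v))
    rw [pb_congr (P := P) (F := fun x => G x = G (f v) ∧ F x = F (f v))
      fun _ _ => by simp [and_comm], ← cm_eq] at d
    have e := Real.log_le_log (pb_pos Q ⟨v, hv, by rfl⟩) d
    rw [Real.log_mul c0.ne' (by positivity), Real.log_mul b.ne' a.ne'] at e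
    unfold H39F.pv
    linarith
  rw [FP.E_sub, FP.E_add, FP.E_const, ← H39F.hh_eq] at h2
  unfold ch
  linarith

theorem mi_self (F : Ω → α) (G : Ω → β) : mi P F F G = ch P F G := by
  unfold mi; rw [ch_zero (Fn.fst F G), sub_zero]

end Fin

/-- A nonnegative variable is often not much larger than its mean. -/
theorem pos_mean {Ω : ℕ → Type} {P : ∀ n, FP (Ω n)} {M : ℕ → ℕ} {a : ℕ → ℝ} {C ε : ℝ}
    (e : ∀ n, Ω n → ℝ) (hM : Big M) (hε : 0 < ε) (ha : ∀ᶠ n in UF, a n ≤ C * M n)
    (h0 : ∀ n, ∀ ω ∈ (P n).S, 0 ≤ e n ω) (h : Le M (fun n => (P n).E (e n)) a) :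
    Pos P fun n ω => e n ω ≤ a n + ε * M n := by
  refine ⟨ε / 2 / (|C| + ε), by positivity, ?_⟩
  filter_upwards [ha, h _ (half_pos hε), hM.ev 1] with n u v w
  have h1 : (a n + ε * M n) * pb (P n) (fun ω => ¬e n ω ≤ a n + ε * M n) ≤ (P n).E (e n) := by
    unfold pb
    rw [← FP.E_mul]
    refine FP.E_mono _ fun ω hω => ?_
    split_ifs with k
    · rw [mul_one]; exact (not_le.1 k).le
    · rw [mul_zero]; exact h0 n ω hω
  have h2 := (P n).E_nonneg (h0 n)
  have h3 := pb_nonneg (P n) fun ω => e n ω ≤ a n + ε * M n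
  have h4 := mul_le_mul_of_nonneg_right (u.trans (mul_le_mul_of_nonneg_right (le_abs_self C)
    (Nat.cast_nonneg _))) h3
  rw [pb_not] at h1
  rw [div_le_iff₀ (by positivity)]
  exact le_of_mul_le_mul_left (a := (M n : ℝ)) (by linarith) (by linarith)

theorem rob : ROB := by
  intro Ω α β γ P X Y K M a C ε hM hε ha h
  have hE := pos_mean (P := P) (fun n ω => cm (P n) (K n) (X n) ω /
      cm (P n) (fun v => (Y n v, K n v)) (X n) ω + (-Real.log (cm (P n) (K n) (X n) ω) -
      -Real.log (cm (P n) (fun v => (Y n v, K n v)) (X n) ω))) hM hε ha (fun n ω hω => by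
      have a := cm_pos (K n) (X n) hω
      have b := cm_pos (fun v => (Y n v, K n v)) (X n) hω
      have := Real.log_le_sub_one_of_pos (div_pos a b)
      rw [Real.log_div a.ne' b.ne'] at this
      linarith)
    (h.of2 (hM.sm 1) (Eventually.of_forall fun n => by
      rw [FP.E_add, FP.E_sub, ← ch_eq_cm, ← ch_eq_cm]
      have := cm_ratio (P n) (K n) (X n) (Y n)
      unfold mi
      linarith))
  refine ⟨_, hE, fun W Q ρ hQ => ?_⟩
  obtain ⟨c, -, hc⟩ := hQ.trans (K31.dnS_cE hE)
  obtain ⟨c', -, hc'⟩ := hQ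
  refine (hM.sm (Real.log c)).of_sub ?_
  filter_upwards [hc, hc', hE.sure] with n u u' s
  have h1 := ch_cross (fun v hv => u.mem hv) (X n) (K n)
  have h2 := cross_ch u (X n) fun v => (Y n v, K n v)
  have h3 := ((Q n).E_mono (F := fun v => -Real.log (cm (P n) (K n) (X n) (ρ n v)) -
      -Real.log (cm (P n) (fun v => (Y n v, K n v)) (X n) (ρ n v))) fun v hv => by
    obtain ⟨b, d⟩ := s _ (u'.mem hv)
    linarith [div_pos (cm_pos (K n) (X n) b) (cm_pos (fun v => (Y n v, K n v)) (X n) b)]).trans_eq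
      ((Q n).E_const (a n + ε * M n))
  rw [FP.E_sub] at h3
  simp only [id] at h1 h2
  unfold mi
  linarith

theorem robh : ROBh := by
  intro Ω α γ P X K M a C ε hM hε ha h
  simpa only [mi_self] using rob P X X K M a C ε hM hε ha (by simpa only [mi_self] using h)

end Pool.Agent.MP_5168f5_an.MX
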