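import Pool.Agent.MP_5168f5_an.MX.Flat
import Pool.Agent.MP_5168f5_an.MX.TL

/-! The supremum of a potential over all labels on all extensions. -/

namespace Pool.Agent.MP_5168f5_an.MX

open H19 H17S H17F Filter

variable {Ω Ω' α β γ A A' : Type}

/-- A point of `P` followed by a point of `k x`, in a space that depends on `x`. -/
noncomputable def dbind (P : FP Ω) {W : Ω → Type} (k : ∀ x, FP (W x)) : FP (Σ x, W x) where
  S := P.S.sigma fun x => (k x).S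
  p := fun v => P.p v.1 * (k v.1).p v.2
  pos := fun v hv => by
    obtain ⟨a, b⟩ := Finset.mem_sigma.1 hv
    exact mul_pos (P.pos _ a) ((k v.1).pos _ b)
  sum_one := by
    rw [Finset.sum_sigma, ← P.sum_one]
    refine Finset.sum_congr rfl fun ω _ => ?_
    simp only
    rw [← Finset.mul_sum, FP.sum_one, mul_one]

section Dep

variable (P : FP Ω) {W : Ω → Type} (k : ∀ x, FP (W x))

theorem mem_dbind (v : Σ x, W x) : v ∈ (dbind P k).S ↔ v.1 ∈ P.S ∧ v.2 ∈ (k v.1).S :=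
  Finset.mem_sigma

theorem E_dbind (F : (Σ x, W x) → ℝ) :
    (dbind P k).E F = P.E fun x => (k x).E fun y => F ⟨x, y⟩ := by
  simp only [FP.E, dbind]
  rw [Finset.sum_sigma]
  refine Finset.sum_congr rfl fun ω _ => ?_
  rw [Finset.mul_sum]
  exact Finset.sum_congr rfl fun _ _ => by ring

theorem law_dbind {x : Ω} (hx : x ∈ P.S) :
    Law (k x) (Sigma.mk x) (cv (dbind P k) Sigma.fst x) id := by
  classical
  have e : ∀ F : (Σ x, W x) → ℝ, (dbind P k).E (fun v => if v.1 = x then F v else 0) =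
      P.p x * (k x).E fun y => F ⟨x, y⟩ := fun F => by
    rw [E_dbind, FP.E, Finset.sum_eq_single x (fun b _ u => by simp [u, FP.E_const])
      fun u => absurd hx u]
    simp
  intro F
  have e1 := E_cE (dbind P k) (fun v => v.1 = x) F
  have e2 : pb (dbind P k) (fun v => v.1 = x) = P.p x := by
    have := e fun _ => 1
    rw [FP.E_const, mul_one] at this
    rw [← this]; unfold pb; congr
  refine mul_left_cancel₀ (P.pos x hx).ne' ?_
  rw [← e F, ← e2]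
  refine Eq.trans ?_ e1.symm
  congr

theorem ch_dbind {B : Ω → Type} (F : ∀ x, W x → α) (G : ∀ x, W x → B x) :
    ch (dbind P k) (fun v => F v.1 v.2) (fun v => (⟨v.1, G v.1 v.2⟩ : Σ x, B x)) =
      P.E fun x => ch (k x) (F x) (G x) := by
  have h := KEA.ent (dbind P k) Sigma.fst (fun _ v => F v.1 v.2)
    fun _ v => (⟨v.1, G v.1 v.2⟩ : Σ x, B x)
  rw [E_dbind] at h
  refine Eq.trans (le_antisymm (ch_anti ((Fn.rfl _).pair fun _ _ _ _ e => congrArg Sigma.fst e))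
    (ch_anti (Fn.fst _ _))) (h.trans (P.E_congr fun x hx => ?_))
  simp only [FP.E_const]
  rw [← (law_dbind P k hx).ch_id]
  exact le_antisymm (ch_anti fun _ _ _ _ e => sigma_mk_injective e)
    (ch_anti fun _ _ _ _ e => congrArg (Sigma.mk x) e)

end Dep

/-- A variable `l`, shapes with a weight `w`, and the pairs that fit a shape. -/
structure Pot (A : Type) where
  L : Type
  S : Type
  l : A → L
  w : S → ℝ
  ok : S → A → A → Prop
  C : ℝ
  bd : ∀ s x y, ok s x y → w s ≤ C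
  rf : ∀ x, ∃ s, ok s x x

namespace Pot

variable (π : Pot A) {W W' κ : Type}

/-- `K` is a label with shape `σ`. -/
structure Lb (Q : FP W) (ρ : W → A) (K : W → κ) (σ : W → π.S) : Prop where
  fn : Fn Q σ K
  ok : ∀ a ∈ Q.S, ∀ b ∈ Q.S, K a = K b → π.ok (σ a) (ρ a) (ρ b)

/-- The potential of a label. -/
noncomputable def Φ (Q : FP W) (ρ : W → A) (K : W → κ) (σ : W → π.S) : ℝ :=
  ch Q (fun v => π.l (ρ v)) K + Q.E fun v => π.w (σ v)

/-- The values of the potential. -/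
def Val (P : FP Ω) (φ : Ω → A) : Set ℝ :=
  {r | ∃ (W κ : Type) (Q : FP W) (ρ : W → A) (K : W → κ) (σ : W → π.S),
    Law Q ρ P φ ∧ π.Lb Q ρ K σ ∧ r = π.Φ Q ρ K σ}

/-- The largest potential. -/
noncomputable def Del (P : FP Ω) (φ : Ω → A) : ℝ := sSup (π.Val P φ)

variable {π} {P : FP Ω} {φ : Ω → A} {Q : FP W} {ρ ρ' : W → A} {K : W → κ} {σ : W → π.S}
  {T : FP W'} {p : W' → W}

theorem Lb.pull (h : π.Lb Q ρ K σ) (m : ∀ v ∈ T.S, p v ∈ Q.S) :
    π.Lb T (fun v => ρ (p v)) (fun v => K (p v)) fun v => σ (p v) :=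
  ⟨fun _ a _ b => h.fn _ (m _ a) _ (m _ b), fun _ a _ b => h.ok _ (m _ a) _ (m _ b)⟩

theorem Lb.cE (h : π.Lb Q ρ K σ) (E : W → Prop) : π.Lb (cE Q E) ρ K σ :=
  h.pull (p := id) fun _ => cE_sub

theorem Lb.ext (h : π.Lb Q ρ K σ) (e : ∀ v ∈ Q.S, ρ' v = ρ v) : π.Lb Q ρ' K σ :=
  ⟨h.fn, fun a ha b hb u => by rw [e a ha, e b hb]; exact h.ok a ha b hb u⟩

theorem Φ_law (h : Law T p Q id) :
    π.Φ T (fun v => ρ (p v)) (fun v => K (p v)) (fun v => σ (p v)) = π.Φ Q ρ K σ := by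
  unfold Φ
  rw [h.ch_id (fun v => π.l (ρ v)) K, h fun v => π.w (σ v)]
  rfl

theorem Φ_ext (e : ∀ v ∈ Q.S, ρ' v = ρ v) : π.Φ Q ρ' K σ = π.Φ Q ρ K σ := by
  unfold Φ
  rw [ch_ext (fun v hv => congrArg π.l (e v hv)) fun _ _ => rfl]

theorem val_ne (π : Pot A) (P : FP Ω) (φ : Ω → A) : (π.Val P φ).Nonempty := by
  choose s hs using π.rf
  exact ⟨_, Ω, A, P, φ, φ, fun ω => s (φ ω), Law.rfl _,
    ⟨Fn.comp s φ, fun a _ b _ e => e ▸ hs (φ a)⟩, rfl⟩

theorem val_bd (π : Pot A) (P : FP Ω) (φ : Ω → A) : BddAbove (π.Val P φ) := by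
  refine ⟨hh P (fun ω => π.l (φ ω)) + π.C, ?_⟩
  rintro _ ⟨W, κ, Q, ρ, K, σ, a, b, rfl⟩
  refine add_le_add ((ch_le_hh _ _).trans (hh_law _ _ (a.comp π.l)).le) ?_
  exact (Q.E_mono fun v hv => π.bd _ _ _ (b.ok v hv v hv rfl)).trans (Q.E_const _).le

theorem le_Del (a : Law Q ρ P φ) (b : π.Lb Q ρ K σ) : π.Φ Q ρ K σ ≤ π.Del P φ :=
  le_csSup (π.val_bd P φ) ⟨W, κ, Q, ρ, K, σ, a, b, rfl⟩

theorem Del_law {P' : FP Ω'} {φ' : Ω' → A} (h : Law P φ P' φ') : π.Del P φ = π.Del P' φ' := by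
  unfold Del
  congr 1
  ext r
  exact ⟨fun ⟨W, κ, Q, ρ, K, σ, a, b⟩ => ⟨W, κ, Q, ρ, K, σ, a.trans h, b⟩,
    fun ⟨W, κ, Q, ρ, K, σ, a, b⟩ => ⟨W, κ, Q, ρ, K, σ, a.trans h.symm, b⟩⟩

/-- Every value is taken on an extension of the space. -/
theorem val_ext {r : ℝ} (h : r ∈ π.Val P φ) : ∃ (W κ : Type) (T : FP W) (p : W → Ω) (K : W → κ)
    (σ : W → π.S), Law T p P id ∧ π.Lb T (fun v => φ (p v)) K σ ∧
      r = π.Φ T (fun v => φ (p v)) K σ := by
  obtain ⟨W, κ, Q, ρ, K, σ, a, b, rfl⟩ := h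
  have m := fun v hv => (tg.mem Q P ρ φ v a).1 hv
  refine ⟨_, κ, glue Q P ρ φ, Prod.snd, fun v => K v.1, fun v => σ v.1, tg.snd _ _ _ _ a,
    (b.pull fun v hv => (m v hv).1).ext fun v hv => (m v hv).2.2, ?_⟩
  rw [← Φ_law (tg.fst Q P ρ φ)]
  exact (Φ_ext fun v hv => (m v hv).2.2).symm

theorem Del_le {B : ℝ} (h : ∀ (W κ : Type) (T : FP W) (p : W → Ω) (K : W → κ) (σ : W → π.S),
    Law T p P id → π.Lb T (fun v => φ (p v)) K σ → π.Φ T (fun v => φ (p v)) K σ ≤ B) :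
    π.Del P φ ≤ B := csSup_le (π.val_ne P φ) fun r hr => by
  obtain ⟨W, κ, T, p, K, σ, a, b, rfl⟩ := val_ext hr
  exact h W κ T p K σ a b

/-- An almost optimal label. -/
theorem near (π : Pot A) (P : FP Ω) (φ : Ω → A) : ∃ (W κ : Type) (T : FP W) (p : W → Ω)
    (K : W → κ) (σ : W → π.S), Law T p P id ∧ π.Lb T (fun v => φ (p v)) K σ ∧
      π.Del P φ ≤ π.Φ T (fun v => φ (p v)) K σ + 1 := by
  by_contra h
  push Not at h
  have := Del_le (B := π.Del P φ - 1) fun W κ T p K σ a b => by linarith [h W κ T p K σ a b]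
  linarith

theorem Φ_cv (I : W → β) :
    π.Φ Q ρ K σ ≤ Q.E (fun v => π.Φ (cv Q I (I v)) ρ K σ) + hh Q I := by
  unfold Φ
  rw [FP.E_add, ← KEA.exp Q I fun _ v => π.w (σ v)]
  linarith [ch_le_cv (P := Q) (fun v => π.l (ρ v)) K I]

theorem part_le (I : Ω → β) :
    π.Del P φ ≤ P.E (fun ω => π.Del (cv P I (I ω)) φ) + hh P I := by
  refine Del_le fun W κ T p K σ a b => (Φ_cv fun v => I (p v)).trans (add_le_add ?_ ?_)
  · refine le_trans (T.E_mono fun v _ => ?_) (a fun ω => π.Del (cv P I (I ω)) φ).le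
    exact le_Del ((KEA.law T P p id (fun ω => I ω = I (p v)) a).comp φ) (b.cE _)
  · exact (hh_law _ _ (a.comp I)).le

theorem part_ge (I : Ω → β) : P.E (fun ω => π.Del (cv P I (I ω)) φ) ≤ π.Del P φ + 1 := by
  choose W κ T p K σ a b c using fun s => π.near (cv P I s) φ
  have h := le_Del (π := π) (P := P) (φ := φ) (Q := dbind P fun ω => T (I ω))
    (ρ := fun v => φ (p _ v.2)) (K := fun v => (⟨v.1, K _ v.2⟩ : Σ ω, κ (I ω)))
    (σ := fun v => σ _ v.2) (fun F => by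
      rw [E_dbind, KEA.exp P I fun _ ω => F (φ ω)]
      exact P.E_congr fun ω _ => a (I ω) fun ω => F (φ ω)) ⟨?_, ?_⟩
  · unfold Φ at h c
    rw [ch_dbind P (fun ω => T (I ω)) (fun ω v => π.l (φ (p (I ω) v))) fun ω v => K (I ω) v,
      E_dbind, ← FP.E_add] at h
    refine (P.E_mono fun ω _ => c (I ω)).trans ?_
    rw [FP.E_add, FP.E_const]
    exact add_le_add h le_rfl
  · rintro ⟨x, u⟩ hu ⟨y, v⟩ hv e
    obtain rfl : x = y := congrArg Sigma.fst e
    exact (b _).fn u ((mem_dbind _ _ _).1 hu).2 v ((mem_dbind _ _ _).1 hv).2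
      (sigma_mk_injective (β := fun ω => κ (I ω)) e)
  · rintro ⟨x, u⟩ hu ⟨y, v⟩ hv e
    obtain rfl : x = y := congrArg Sigma.fst e
    exact (b _).ok u ((mem_dbind _ _ _).1 hu).2 v ((mem_dbind _ _ _).1 hv).2
      (sigma_mk_injective (β := fun ω => κ (I ω)) e)

theorem Del_map {π' : Pot A'} (u : A → A') (hl : ∀ x y, π'.l (u x) = π'.l (u y) → π.l x = π.l y)
    (h : ∀ s, ∃ s', π.w s ≤ π'.w s' ∧ ∀ x y, π.ok s x y → π'.ok s' (u x) (u y)) :
    π.Del P φ ≤ π'.Del P fun ω => u (φ ω) := by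
  choose v h1 h2 using h
  refine Del_le fun W κ T p K σ a b => le_trans ?_ (le_Del (π := π') (Q := T)
    (ρ := fun x => u (φ (p x))) (K := K) (σ := fun x => v (σ x)) (a.comp fun ω => u (φ ω))
    ⟨(Fn.comp v σ).trans b.fn, fun x hx y hy e => h2 _ _ _ (b.ok x hx y hy e)⟩)
  exact add_le_add (ch_mono fun _ _ _ _ e => hl _ _ (congrArg Prod.fst e))
    (T.E_mono fun x _ => h1 _)

end Pot

theorem E_ev (P : FP Ω) (E : Ω → Prop) (g : FP Ω → ℝ) : P.E (fun ω => g (cv P E (E ω))) =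
    pb P E * g (cE P E) + (1 - pb P E) * g (cE P fun ω => ¬E ω) := by
  have h1 : cv P E True = cE P E := by unfold cv; simp only [eq_iff_iff, iff_true]
  have h2 : cv P E False = cE P fun ω => ¬E ω := by unfold cv; simp only [eq_iff_iff, iff_false]
  rw [KEA.E_prop P E fun s => g (cv P E s), h1, h2]

theorem hh_ev (P : FP Ω) (E : Ω → Prop) : hh P E ≤ lg := by
  rw [← ch_unit]
  exact ch_det fun _ _ => ⟨Finset.univ, by simp, fun _ _ _ => Finset.mem_univ _⟩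

end Pool.Agent.MP_5168f5_an.MX
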