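import Pool.Agent.MP_5168f5_an.MX.X0A
import Pool.Agent.MP_5168f5_an.MX.PDefs

/-! The potential of labels of lines in three dimensions. -/

namespace Pool.Agent.MP_5168f5_an.MX

open H19 H17S H17F Filter

/-- A line `(a₁, a₂, e₁, e₂, θ)` and a height. -/
abbrev Sp (T : Type) : Type := (ℝ × ℝ × ℝ × ℝ × T) × ℝ

/-- Orientation, lateral and normal depth, slope and anchor. -/
structure Sh where
  o : Bool
  s : ℕ
  n : ℕ
  g : ℝ
  τ : ℝ

variable {Ω W W' κ T β : Type}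

/-- Exchange of the two coordinates. -/
def sw : Bool → Sp T → Sp T
  | false, p => p
  | true, p => ((p.1.2.1, p.1.1, p.1.2.2.2.1, p.1.2.2.1, p.1.2.2.2.2), p.2)

/-- The two lines fit the shape at level `k`. -/
structure Fit (M k : ℕ) (σ : Sh) (p q : Sp T) : Prop where
  sn : σ.s ≤ σ.n
  nM : σ.n ≤ M - k
  g1 : |σ.g| ≤ 1
  θ : p.1.2.2.2.2 = q.1.2.2.2.2
  z : fl1 k p.2 = fl1 k q.2
  τ : |σ.τ - p.2| ≤ 1 / 2 ^ k
  e1 : |p.1.2.2.1 - q.1.2.2.1| ≤ 8 / 2 ^ σ.s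
  e2 : |p.1.2.2.2.1 - σ.g * p.1.2.2.1 - (q.1.2.2.2.1 - σ.g * q.1.2.2.1)| ≤ 8 / 2 ^ σ.n
  y1 : |p.1.1 + σ.τ * p.1.2.2.1 - (q.1.1 + σ.τ * q.1.2.2.1)| ≤ 8 / 2 ^ (k + σ.s)
  y2 : |p.1.2.1 + σ.τ * p.1.2.2.2.1 - σ.g * (p.1.1 + σ.τ * p.1.2.2.1) -
    (q.1.2.1 + σ.τ * q.1.2.2.2.1 - σ.g * (q.1.1 + σ.τ * q.1.2.2.1))| ≤ 8 / 2 ^ (k + σ.n)

theorem sw_z (b : Bool) (p : Sp T) : (sw b p).2 = p.2 := by cases b <;> rfl

theorem sw_sw (b : Bool) (p : Sp T) : sw (!b) (sw true p) = sw b p := by cases b <;> rfl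

/-- The potential at level `k` with floor `M`. -/
noncomputable def pot (ν : ℝ) (T : Type) (M k : ℕ) : Pot (Sp T) where
  L := ℝ × ℝ × ℝ × ℝ × T
  S := Sh
  l := Prod.fst
  w := fun σ => ((1 + ν) * σ.s + (1 - ν) * σ.n) * lg
  ok := fun σ p q => Fit M k σ (sw σ.o p) (sw σ.o q)
  C := (|1 + ν| * M + |1 - ν| * M) * lg
  bd := fun σ p q h => by
    have a1 : (σ.n : ℝ) ≤ M := by exact_mod_cast h.nM.trans (Nat.sub_le _ _)
    have a2 : (σ.s : ℝ) ≤ σ.n := by exact_mod_cast h.sn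
    exact mul_le_mul_of_nonneg_right (add_le_add
      (mul_le_mul (le_abs_self _) (a2.trans a1) (by positivity) (abs_nonneg _))
      (mul_le_mul (le_abs_self _) a1 (by positivity) (abs_nonneg _))) lg_pos.le
  rf := fun p => ⟨⟨false, 0, 0, 0, p.2⟩, le_rfl, Nat.zero_le _, by simp, rfl, rfl,
    by simp [sw], by simp, by simp, by simp; positivity, by simp; positivity⟩

/-- The largest potential at level `k`. -/
noncomputable def De (ν : ℝ) (P : FP Ω) (φ : Ω → Sp T) (M k : ℕ) : ℝ := (pot ν T M k).Del P φ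

variable {ν : ℝ} {P : FP Ω} {φ : Ω → Sp T} {M k k' : ℕ}

theorem Fit.anti {σ : Sh} {p q : Sp T} (h : Fit M k σ p q) (e : k' ≤ k) : Fit M k' σ p q :=
  ⟨h.sn, h.nM.trans (by omega), h.g1, h.θ, fl1_eq_of_le e h.z,
    h.τ.trans (dv_anti zero_le_one le_rfl e), h.e1, h.e2,
    h.y1.trans (dv_anti (by norm_num) le_rfl (by omega)),
    h.y2.trans (dv_anti (by norm_num) le_rfl (by omega))⟩

theorem De_anti (e : k' ≤ k) : De ν P φ M k ≤ De ν P φ M k' :=
  Pot.Del_map (π := pot ν T M k) (π' := pot ν T M k') id (fun _ _ h => h)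
    fun s => ⟨s, le_rfl, fun _ _ h => Fit.anti h e⟩

theorem De_sw_le : De ν P φ M k ≤ De ν P (fun ω => sw true (φ ω)) M k :=
  Pot.Del_map (π := pot ν T M k) (π' := pot ν T M k) (sw true)
    (fun x y h => by
      have h' : (sw true x).1 = (sw true y).1 := h
      simp only [sw, Prod.mk.injEq] at h'
      exact Prod.ext h'.2.1 (Prod.ext h'.1 (Prod.ext h'.2.2.2.1 (Prod.ext h'.2.2.1 h'.2.2.2.2))))
    fun s => ⟨⟨!s.o, s.s, s.n, s.g, s.τ⟩, le_rfl, fun x y h => by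
      have h' : Fit M k s (sw s.o x) (sw s.o y) := h
      rw [← sw_sw, ← sw_sw s.o y] at h'
      exact ⟨h'.sn, h'.nM, h'.g1, h'.θ, h'.z, h'.τ, h'.e1, h'.e2, h'.y1, h'.y2⟩⟩

theorem De_sw (b : Bool) : De ν P (fun ω => sw b (φ ω)) M k = De ν P φ M k := by
  cases b
  · rfl
  · exact le_antisymm (De_sw_le (φ := fun ω => sw true (φ ω))) De_sw_le

/-- A real variable known to depth `u`, read to depth `m`. -/
theorem ch_rand {x : Ω → ℝ} {G : Ω → β} {u m : Ω → ℕ} (hu : Fn P u G) (hm : Fn P m G)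
    (hM : ∀ a ∈ P.S, u a ≤ m a)
    (h : ∀ a ∈ P.S, ∀ b ∈ P.S, G a = G b → |x a - x b| ≤ 9 / 2 ^ u a) :
    ch P (fun ω => fl1 (m ω) (x ω)) G ≤ 5 + P.E fun ω => (m ω - u ω : ℝ) * lg := by
  refine (ch_tri _ (fun ω => fl1 (u ω) (x ω)) G).trans (add_le_add
    (ch_fl1_near (n := 9) (by norm_num) hu fun a ha b hb e => ?_) ?_)
  · rw [← div_eq_mul_inv]; exact_mod_cast h a ha b hb e
  · have := ch_fl1_refine (P := P) (x := x) (G := fun ω => (fl1 (u ω) (x ω), G ω)) (j := u)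
      (i := fun ω => m ω - u ω) (hu.right _) (Fn.right (fun a ha b hb e => by
        simp only [hu a ha b hb e, hm a ha b hb e]) _) (Fn.fst _ _)
    rw [ch_ext (fun ω hω => by rw [Nat.add_sub_cancel' (hM ω hω)]) fun _ _ => rfl] at this
    exact this.trans (P.E_congr fun ω hω => by rw [Nat.cast_sub (hM ω hω)]).le

/-- The line is determined by its direction at depth `M`. -/
def Sep (P : FP Ω) (φ : Ω → Sp T) (M : ℕ) : Prop :=
  Fn P (fun ω => (φ ω).1) fun ω => (fl1 M (φ ω).1.2.2.1, fl1 M (φ ω).1.2.2.2.1)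

theorem De_le (hν : 0 ≤ ν) (h : Sep P φ M) : De ν P φ M k ≤ 2 * M * lg + 10 := by
  refine Pot.Del_le fun W κ Q p K σ a b => ?_
  set u : W → ℝ := fun v => (sw (σ v).o (φ (p v))).1.2.2.1 with hu
  set w : W → ℝ := fun v => (sw (σ v).o (φ (p v))).1.2.2.2.1 with hw
  have f : ∀ x ∈ Q.S, ∀ y ∈ Q.S, K x = K y →
      Fit M k (σ x) (sw (σ x).o (φ (p x))) (sw (σ y).o (φ (p y))) := fun x hx y hy e => by
    rw [← b.fn x hx y hy e]; exact b.ok x hx y hy e
  have m : ∀ x ∈ Q.S, (σ x).n ≤ M := fun x hx => (f x hx x hx rfl).nM.trans (Nat.sub_le _ _)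
  have c1 := ch_rand (P := Q) (x := u) (G := K) (u := fun v => (σ v).s) (m := fun _ => M)
    ((Fn.comp Sh.s σ).trans b.fn) (fun _ _ _ _ _ => rfl)
    (fun x hx => (f x hx x hx rfl).sn.trans (m x hx))
    fun x hx y hy e => (f x hx y hy e).e1.trans (dv_anti (by norm_num) (by norm_num) le_rfl)
  have c2 := ch_rand (P := Q) (x := w) (G := fun v => (fl1 M (u v), K v)) (u := fun v => (σ v).n)
    (m := fun _ => M) (((Fn.comp Sh.n σ).trans b.fn).right _) (fun _ _ _ _ _ => rfl) m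
    fun x hx y hy e => by
      have a1 := f x hx y hy (congrArg Prod.snd e)
      have a2 := (abs_sub_lt_of_fl1_eq (congrArg Prod.fst e)).le
      have a3 := dv_anti zero_le_one le_rfl (m x hx)
      have a4 := mul_le_mul a1.g1 a2 (abs_nonneg _) zero_le_one
      have a5 := abs_add_le (w x - (σ x).g * u x - (w y - (σ x).g * u y)) ((σ x).g * (u x - u y))
      rw [abs_mul, show w x - (σ x).g * u x - (w y - (σ x).g * u y) + (σ x).g * (u x - u y) =
        w x - w y by ring] at a5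
      have a6 : |w x - (σ x).g * u x - (w y - (σ x).g * u y)| ≤ _ := a1.e2
      rw [one_mul, ← one_div] at a4
      rw [show (9 : ℝ) / 2 ^ (σ x).n = 8 / 2 ^ (σ x).n + 1 / 2 ^ (σ x).n by ring]
      linarith
  have c3 : ch Q (fun v => (φ (p v)).1) K ≤ ch Q (fun v => (fl1 M (u v), fl1 M (w v))) K := by
    refine ch_mono fun x hx y hy e => h _ (a.mem hx) _ (a.mem hy) ?_
    have e1 := congrArg Sh.o (b.fn x hx y hy (congrArg Prod.snd e))
    have e2 := congrArg Prod.fst e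
    simp only [hu, hw, ← e1] at e2
    generalize (σ x).o = o at e2
    cases o
    · exact e2
    · exact Prod.ext (congrArg Prod.snd e2) (congrArg Prod.fst e2)
  rw [ch_chain (fun v => fl1 M (u v))] at c3
  have c4 : Q.E (fun v => ((1 + ν) * (σ v).s + (1 - ν) * (σ v).n) * lg) ≤
      Q.E fun v => 2 * M * lg - (M - (σ v).s : ℝ) * lg - (M - (σ v).n : ℝ) * lg :=
    Q.E_mono fun x hx => by
      have a1 : ((σ x).s : ℝ) ≤ (σ x).n := by exact_mod_cast (f x hx x hx rfl).sn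
      nlinarith [mul_nonneg (mul_nonneg hν (sub_nonneg.2 a1)) lg_pos.le]
  rw [FP.E_sub, FP.E_sub, FP.E_const] at c4
  exact (add_le_add c3 c4).trans (by linarith)

/-- An almost optimal label stays almost optimal on a refinement. -/
theorem Pot.gap {A : Type} {π : Pot A} {φ : Ω → A} {K : Ω → κ} {σ : Ω → π.S} {Q : FP W}
    {ρ : W → Ω} {C : ℝ} (d : R4.K31.Dn C Q ρ P) (h : π.Lb P φ K σ) :
    π.Del Q (fun v => φ (ρ v)) - π.Φ Q (fun v => φ (ρ v)) (fun v => K (ρ v)) (fun v => σ (ρ v)) ≤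
      C * (π.Del P φ - π.Φ P φ K σ + (lg + 1)) := by
  obtain ⟨T, h1, h2, h3⟩ := d.split
  have c0 : 0 < C := one_pos.trans_le d.one_le
  have a1 := Pot.Φ_cv (π := π) (Q := T) (ρ := fun v => φ v.1) (K := fun v => K v.1)
    (σ := fun v => σ v.1) fun v => v.2 = true
  have a2 := Pot.part_ge (π := π) (P := T) (φ := fun v => φ v.1) fun v => v.2 = true
  rw [E_ev T _ fun Q => π.Φ Q (fun v => φ v.1) (fun v => K v.1) fun v => σ v.1,
    Pot.Φ_law h1] at a1
  rw [E_ev T _ fun Q => π.Del Q fun v => φ v.1, Pot.Del_law (h1.comp φ),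
    Pot.Del_law (h3.comp φ)] at a2
  have a3 := mul_le_mul_of_nonneg_left (Pot.le_Del (Law.rfl _)
    ((h.pull fun _ => h1.mem).cE fun v => ¬v.2 = true))
    (sub_nonneg.2 (pb_le_one T fun v => v.2 = true))
  have a4 : π.Φ (cE T fun v => v.2 = true) (fun v => φ v.1) (fun v => K v.1) (fun v => σ v.1) =
      π.Φ Q (fun v => φ (ρ v)) (fun v => K (ρ v)) fun v => σ (ρ v) :=
    congrArg₂ _ (h3.ch_eq (fun ω => π.l (φ ω)) K) (h3 fun ω => π.w (σ ω))
  rw [a4] at a1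
  rw [h2] at a1 a2 a3
  rw [← inv_mul_le_iff₀ c0]
  simp only [id] at a2
  linarith [hh_ev T fun v => v.2 = true]

end Pool.Agent.MP_5168f5_an.MX
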