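import Pool.Agent.MP_5168f5_an.MX.X0B
import Pool.Agent.MP_5168f5_an.R4.K31Cls

/-! Extremal systems for the potential: existence, refinements, windows, partitions. -/

namespace Pool.Agent.MP_5168f5_an.MX

open H19 H17S H17F Filter R4.K31

/-- A system with floor `M` and a window `[i, j]` of levels. -/
structure Xs where
  Ω : Type
  T : Type
  P : FP Ω
  φ : Ω → Sp T
  M : ℕ
  i : ℕ
  j : ℕ

/-- All coordinates lie in `[0, 1)`. -/
def Bo {T : Type} (p : Sp T) : Prop := (0 ≤ p.1.1 ∧ p.1.1 < 1) ∧ (0 ≤ p.1.2.1 ∧ p.1.2.1 < 1) ∧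
  (0 ≤ p.1.2.2.1 ∧ p.1.2.2.1 < 1) ∧ (0 ≤ p.1.2.2.2.1 ∧ p.1.2.2.2.1 < 1) ∧ 0 ≤ p.2 ∧ p.2 < 1

namespace Xs

variable (x : Xs) {W W' β : Type}

/-- The length of the window. -/
def R : ℕ := x.j - x.i

/-- Pull back. -/
def pull (Q : FP W) (ρ : W → x.Ω) : Xs := ⟨W, x.T, Q, fun v => x.φ (ρ v), x.M, x.i, x.j⟩

/-- Another window. -/
def win (a b : ℕ) : Xs := ⟨x.Ω, x.T, x.P, x.φ, x.M, a, b⟩

/-- Exchange of coordinates. -/
def swp (o : Bool) : Xs := ⟨x.Ω, x.T, x.P, fun ω => sw o (x.φ ω), x.M, x.i, x.j⟩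

/-- Entropy of the height in a window. -/
noncomputable def ht (a b : ℕ) : ℝ :=
  ch x.P (fun ω => fl1 b (x.φ ω).2) fun ω => ((x.φ ω).1, fl1 a (x.φ ω).2)

/-- The largest potential. -/
noncomputable def de (ν : ℝ) (k : ℕ) : ℝ := De ν x.P x.φ x.M k

/-- The gain over a window. -/
noncomputable def gn (ν : ℝ) (a b : ℕ) : ℝ := x.de ν b - x.de ν a + 2 * x.ht a b

/-- The gain. -/
noncomputable def f (ν : ℝ) : ℝ := x.gn ν x.i x.j

/-- The deficiency. -/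
noncomputable def D : ℝ := x.R * lg - x.ht x.i x.j

/-- The exact conditions. -/
structure Ok : Prop where
  box : ∀ ω ∈ x.P.S, Bo (x.φ ω)
  sep : Sep x.P x.φ x.M
  ij : x.i ≤ x.j
  jM : x.j ≤ x.M

variable {x} {ν : ℝ} {a b c : ℕ}

theorem ht_add (h : a ≤ b) (h' : b ≤ c) : x.ht a c = x.ht a b + x.ht b c := by
  unfold ht
  have e := ch_chain (P := x.P) (fun ω => fl1 b (x.φ ω).2) (fun ω => fl1 c (x.φ ω).2)
    fun ω => ((x.φ ω).1, fl1 a (x.φ ω).2)
  rw [ch_congr (F' := fun ω => fl1 c (x.φ ω).2) (((fn_fl1 _ h').left _).pair (Fn.fst _ _))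
    ((Fn.snd _ _).left _) (Fn.rfl _) (Fn.rfl _)] at e
  rw [e]
  congr 1
  exact le_antisymm (ch_anti (((Fn.fst _ _).right _).pair (Fn.fst _ _)))
    (ch_anti ((Fn.snd _ _).pair ((Fn.fst _ _).pair ((fn_fl1 _ h).right _))))

theorem ht_le (h : a ≤ b) : x.ht a b ≤ (b - a : ℕ) * lg := by
  have := ch_fl1_refine (P := x.P) (x := fun ω => (x.φ ω).2) (j := fun _ => a)
    (G := fun ω => ((x.φ ω).1, fl1 a (x.φ ω).2)) (i := fun _ => b - a) (fun _ _ _ _ _ => rfl)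
    (fun _ _ _ _ _ => rfl) (Fn.snd _ _)
  rwa [FP.E_const, Nat.add_sub_cancel' h] at this

theorem gn_add (h : a ≤ b) (h' : b ≤ c) : x.gn ν a c = x.gn ν a b + x.gn ν b c := by
  unfold gn; rw [ht_add h h']; ring

theorem gn_le (h : a ≤ b) : x.gn ν a b ≤ 2 * (b - a : ℕ) := by
  have a1 : x.de ν b ≤ x.de ν a := De_anti h
  have a2 := ht_le (x := x) h
  have a3 := mul_le_mul_of_nonneg_left lg_lt_one.le (Nat.cast_nonneg (α := ℝ) (b - a))
  unfold gn; linarith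

theorem Ok.pull (h : x.Ok) {Q : FP W} {ρ : W → x.Ω} (m : ∀ v ∈ Q.S, ρ v ∈ x.P.S) :
    (x.pull Q ρ).Ok :=
  ⟨fun v hv => h.box _ (m v hv), fun _ a _ b => h.sep _ (m _ a) _ (m _ b), h.ij, h.jM⟩

theorem Ok.swp (h : x.Ok) (o : Bool) : (x.swp o).Ok := by
  cases o
  · exact h
  refine ⟨fun v hv => ?_, fun u hu v hv e => ?_, h.ij, h.jM⟩
  · obtain ⟨a, b, c, d, e⟩ := h.box v hv
    exact ⟨b, a, d, c, e⟩
  · have := h.sep u hu v hv (Prod.ext (congrArg Prod.snd e) (congrArg Prod.fst e))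
    simp only [Xs.swp, sw, this]

theorem fn_sw (o : Bool) : Fn x.P (fun ω => (x.φ ω).1) (fun ω => (sw o (x.φ ω)).1) ∧
    Fn x.P (fun ω => (sw o (x.φ ω)).1) fun ω => (x.φ ω).1 := by
  cases o
  · exact ⟨Fn.rfl _, Fn.rfl _⟩
  refine ⟨fun u _ v _ e => ?_, fun u _ v _ e => ?_⟩
  · simp only [sw, Prod.mk.injEq] at e
    exact Prod.ext e.2.1 (Prod.ext e.1 (Prod.ext e.2.2.2.1 (Prod.ext e.2.2.1 e.2.2.2.2)))
  · simp only [sw, e]

theorem ht_swp (o : Bool) : (x.swp o).ht a b = x.ht a b := by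
  simp only [ht, Xs.swp, sw_z]
  exact le_antisymm (ch_anti (((fn_sw o).1.left _).pair (Fn.snd _ _)))
    (ch_anti (((fn_sw o).2.left _).pair (Fn.snd _ _)))

theorem de_swp (o : Bool) : (x.swp o).de ν a = x.de ν a := De_sw o

section Law

variable {Q : FP W} {ρ : W → x.Ω} {Q' : FP W'} {ρ' : W' → x.Ω}

theorem ht_law (h : Law Q ρ Q' ρ') : (x.pull Q ρ).ht a b = (x.pull Q' ρ').ht a b :=
  h.ch_eq (fun ω => fl1 b (x.φ ω).2) fun ω => ((x.φ ω).1, fl1 a (x.φ ω).2)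

theorem de_law (h : Law Q ρ Q' ρ') : (x.pull Q ρ).de ν a = (x.pull Q' ρ').de ν a :=
  Pot.Del_law (h.comp x.φ)

theorem f_law (h : Law Q ρ Q' ρ') : (x.pull Q ρ).f ν = (x.pull Q' ρ').f ν := by
  unfold f gn
  exact congrArg₂ _ (congrArg₂ _ (de_law h) (de_law h)) (congrArg _ (ht_law h))

theorem D_law (h : Law Q ρ Q' ρ') : (x.pull Q ρ).D = (x.pull Q' ρ').D :=
  congrArg (x.R * lg - ·) (ht_law h)

end Law

theorem f_part (I : x.Ω → β) :
    x.f ν ≤ x.P.E (fun ω => (x.pull (cv x.P I (I ω)) id).f ν) + (3 * hh x.P I + 1) := by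
  have a1 := Pot.part_le (π := pot ν x.T x.M x.j) (P := x.P) (φ := x.φ) I
  have a2 := Pot.part_ge (π := pot ν x.T x.M x.i) (P := x.P) (φ := x.φ) I
  have a3 := ch_le_cv (P := x.P) (fun ω => fl1 x.j (x.φ ω).2)
    (fun ω => ((x.φ ω).1, fl1 x.i (x.φ ω).2)) I
  unfold f gn
  rw [FP.E_add, FP.E_sub, FP.E_mul]
  exact le_trans (add_le_add (sub_le_sub a1 (sub_le_iff_le_add.2 a2))
    (mul_le_mul_of_nonneg_left a3 zero_le_two))
    (le_of_eq (by simp only [de, De, ht, pull, id]; ring))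

theorem D_part (I : x.Ω → β) :
    x.P.E (fun ω => (x.pull (cv x.P I (I ω)) id).D) ≤ x.D + hh x.P I := by
  have a3 := ch_le_cv (P := x.P) (fun ω => fl1 x.j (x.φ ω).2)
    (fun ω => ((x.φ ω).1, fl1 x.i (x.φ ω).2)) I
  unfold D
  rw [FP.E_sub]
  exact le_trans (sub_le_sub (x.P.E_const (x.R * lg)).le (sub_le_iff_le_add.2 a3))
    (le_of_eq (by simp only [ht]; ring))

theorem D_nonneg (h : x.i ≤ x.j) : 0 ≤ x.D := sub_nonneg.2 (ht_le h)

theorem D_le : x.D ≤ x.R := by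
  have a3 := mul_le_mul_of_nonneg_left lg_lt_one.le (Nat.cast_nonneg (α := ℝ) x.R)
  have : 0 ≤ x.ht x.i x.j := ch_nonneg _ _
  unfold D; linarith

end Xs

/-- The unit of a sequence of systems. -/
abbrev un (x : ℕ → Xs) : ℕ → ℕ := fun n => (x n).R

/-- The members of the class. -/
structure Mb (x : ℕ → Xs) : Prop where
  big : Big (un x)
  lgM : Sm (un x) fun n => Real.log ((x n).M + 2)
  ok : ∀ᶠ n in UF, (x n).Ok

/-- `ψ` is the largest gain and `k` the least deficiency of the systems with that gain. -/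
structure Gl (ν ψ k : ℝ) : Prop where
  pos : 0 ≤ ψ
  up : ∀ y, Mb y → Le (un y) (fun n => (y n).f ν) fun n => ψ * un y n
  low : ∀ y, Mb y → Le (un y) (fun n => ψ * un y n) (fun n => (y n).f ν) →
    Le (un y) (fun n => k * un y n) fun n => (y n).D

/-- Extremal members. -/
structure Xe (ν ψ k : ℝ) (x : ℕ → Xs) : Prop extends Mb x where
  f : Le (un x) (fun n => ψ * un x n) fun n => (x n).f ν
  D : Le (un x) (fun n => (x n).D) fun n => k * un x n

theorem le_iff {M : ℕ → ℕ} {f g : ℕ → ℝ} :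
    Le M f g ↔ ∀ j : ℕ, ∀ᶠ n in UF, f n ≤ g n + 1 / (j + 1 : ℝ) * M n := by
  refine ⟨fun h j => h _ (by positivity), fun h ε hε => ?_⟩
  obtain ⟨m, hm⟩ := exists_nat_one_div_lt hε
  exact (h m).mono fun n a => a.trans (add_le_add le_rfl
    (mul_le_mul_of_nonneg_right hm.le (Nat.cast_nonneg _)))

theorem mb_iff {x : ℕ → Xs} : Mb x ↔ R4.K31.Cls (X := fun _ => Xs) (fun m _ y => y.Ok ∧ m ≤ y.R ∧
    Real.log (y.M + 2) ≤ 0 + 1 / (m + 1 : ℝ) * y.R) x :=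
  ⟨fun h m => h.ok.and ((tendsto_atTop.1 h.big m).and (le_iff.1 h.lgM m)), fun h =>
    ⟨tendsto_atTop.2 fun m => (h m).mono fun _ a => a.2.1,
      le_iff.2 fun m => (h m).mono fun _ a => a.2.2, (h 0).mono fun _ a => a.1⟩⟩

theorem supR (p : ℕ → ℕ → Xs → Prop) (hp : ∀ x, R4.K31.Cls (X := fun _ => Xs) p x → Big (un x))
    (f : Xs → ℝ) (h0 : ∃ x, R4.K31.Cls (X := fun _ => Xs) p x)
    (hb : ∀ x, R4.K31.Cls (X := fun _ => Xs) p x → ∀ᶠ n in UF, |f (x n)| ≤ 2 * un x n) :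
    ∃ s : ℝ, (∃ x, R4.K31.Cls (X := fun _ => Xs) p x ∧
      Le (un x) (fun n => s * un x n) fun n => f (x n)) ∧
      ∀ y, R4.K31.Cls (X := fun _ => Xs) p y →
        Le (un y) (fun n => f (y n)) fun n => s * un y n := by
  obtain ⟨s, ⟨x, a, b⟩, c⟩ := sup (X := fun _ => Xs) p (fun _ y => f y / y.R) 2 h0 fun x hx =>
    (hb x hx).mono fun n u => by
      rw [abs_div, Nat.abs_cast]; exact div_le_of_le_mul₀ (Nat.cast_nonneg _) zero_le_two u
  have e : ∀ x, R4.K31.Cls (X := fun _ => Xs) p x → ∀ᶠ n in UF, s * un x n / un x n = s :=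
    fun x hx => ((hp x hx).ev 1).mono fun n u => mul_div_cancel_right₀ _ (by linarith)
  exact ⟨s, ⟨x, a, (le1_div (hp x a)).1 ((Le1.of_ev ((e x a).mono fun _ u => u.le)).trans b)⟩,
    fun y hy => (le1_div (hp y hy)).1 ((c y hy).trans (Le1.of_ev ((e y hy).mono fun _ u => u.ge)))⟩

variable {ν ψ k ε : ℝ} {x : ℕ → Xs}

theorem ex_xt (h : Mb x) (hε : 0 < ε) (e : Le (un x) (fun n => ε * un x n) fun n => (x n).f ν) :
    ∃ ψ k y, ε ≤ ψ ∧ Gl ν ψ k ∧ Xe ν ψ k y := by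
  obtain ⟨s, ⟨y, y1, y2⟩, c⟩ := supR _ (fun x u => (mb_iff.2 u).big) (fun y => max (y.f ν) 0)
    ⟨x, mb_iff.1 h⟩ fun x u => (mb_iff.2 u).ok.mono fun n v => by
      rw [abs_of_nonneg (le_max_right _ _)]
      exact max_le (Xs.gn_le v.ij) (by positivity)
  have up : ∀ y, Mb y → Le (un y) (fun n => (y n).f ν) fun n => s * un y n := fun y u =>
    (Le.of_le fun _ => le_max_left _ _).trans (c y (mb_iff.1 u))
  have es : ε ≤ s := (e.trans (up x h)).num h.big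
  have y3 : Le (un y) (fun n => s * un y n) fun n => (y n).f ν := by
    rcases ev_em fun n => 0 ≤ (y n).f ν with u | u
    · exact y2.trans (Le.of_ev (u.mono fun n v => max_le le_rfl v))
    · exact (y2.false (mb_iff.2 y1).big (hε.trans_le es) (u.mono fun n v => by
        rw [max_eq_right (not_le.1 v).le, zero_add])).elim
  have q : ∀ x : ℕ → Xs, R4.K31.Cls (X := fun _ => Xs) (fun m _ y => (y.Ok ∧ m ≤ y.R ∧
      Real.log (y.M + 2) ≤ 0 + 1 / (m + 1 : ℝ) * y.R) ∧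
        s * y.R ≤ y.f ν + 1 / (m + 1 : ℝ) * y.R) x ↔
      Mb x ∧ Le (un x) (fun n => s * un x n) fun n => (x n).f ν := fun x => by
    simp only [mb_iff, le_iff, R4.K31.Cls, eventually_and, forall_and]
  obtain ⟨t, ⟨w, w1, w2⟩, d⟩ := supR _ (fun x u => ((q x).1 u).1.big) (fun y => -y.D)
    ⟨y, (q y).2 ⟨mb_iff.2 y1, y3⟩⟩ fun x u => ((q x).1 u).1.ok.mono fun n v => by
      rw [abs_neg, abs_of_nonneg (Xs.D_nonneg v.ij)]
      linarith [Xs.D_le (x := x n), Nat.cast_nonneg (α := ℝ) (x n).R]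
  exact ⟨s, -t, w, es, ⟨hε.le.trans es, up, fun y u v => (d y ((q y).2 ⟨u, v⟩)).of_sub
    (Eventually.of_forall fun n => by linarith)⟩, ((q w).1 w1).1, ((q w).1 w1).2,
    w2.of_sub (Eventually.of_forall fun n => by linarith)⟩

section Dn

variable {W : ℕ → Type} {Q : ∀ n, FP (W n)} {ρ : ∀ n, W n → (x n).Ω}

theorem Mb.pull (h : Mb x) (m : ∀ᶠ n in UF, ∀ v ∈ (Q n).S, ρ n v ∈ (x n).P.S) :
    Mb fun n => (x n).pull (Q n) (ρ n) :=
  ⟨h.big, h.lgM, (h.ok.and m).mono fun _ a => a.1.pull a.2⟩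

theorem Mb.cE (h : Mb x) (E : ∀ n, (x n).Ω → Prop) :
    Mb fun n => (x n).pull (cE (x n).P (E n)) id :=
  h.pull (Eventually.of_forall fun _ _ => cE_sub)

theorem Xe.f_ev (g : Gl ν ψ k) (h : Xe ν ψ k x) {E : ∀ n, (x n).Ω → Prop}
    (e : Pos (fun n => (x n).P) E) :
    Le (un x) (fun n => ψ * un x n) fun n => ((x n).pull (cE (x n).P (E n)) id).f ν := by
  obtain ⟨κ, a, b⟩ := e
  have c : Le (un x) (fun n => ((x n).pull (cE (x n).P fun ω => ¬E n ω) id).f ν)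
    fun n => ψ * un x n := g.up _ (h.toMb.cE fun n ω => ¬E n ω)
  refine Le.of_mul a b (Le.of3 h.f (h.big.sm (3 * lg + 1))
    (c.bmul (p := fun n => 1 - pb (x n).P (E n)) (C := 1) (Eventually.of_forall fun n =>
      ⟨sub_nonneg.2 (pb_le_one _ _), sub_le_self _ (pb_nonneg _ _)⟩))
    (Eventually.of_forall fun n => ?_))
  have a1 := Xs.f_part (ν := ν) (E n)
  rw [E_ev (x n).P (E n) fun Q => ((x n).pull Q id).f ν] at a1
  linarith [hh_ev (x n).P (E n)]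

theorem Xe.ev (g : Gl ν ψ k) (h : Xe ν ψ k x) {E : ∀ n, (x n).Ω → Prop}
    (e : Pos (fun n => (x n).P) E) : Xe ν ψ k fun n => (x n).pull (cE (x n).P (E n)) id := by
  have c : Le (un x) (fun n => ((x n).pull (cE (x n).P (E n)) id).D) fun n => k * un x n := by
    obtain ⟨κ, a, b⟩ := e
    refine KSA.event (un x) (fun n => pb (x n).P (E n)) (fun n => (x n).D + lg) _
      (fun n => ((x n).pull (cE (x n).P fun ω => ¬E n ω) id).D) _ |k| κ a ?_
      (h.D.of2 (h.big.sm lg) (Eventually.of_forall fun n => by linarith)) fun u => ?_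
    · filter_upwards [b, h.ok] with n u v
      refine ⟨u, pb_le_one _ _, Xs.D_nonneg v.ij, by rw [abs_mul, Nat.abs_cast], ?_⟩
      have a1 := Xs.D_part (E n)
      rw [E_ev (x n).P (E n) fun Q => ((x n).pull Q id).D] at a1
      linarith [hh_ev (x n).P (E n)]
    · exact g.low _ (h.toMb.cE fun n ω => ¬E n ω)
        (h.f_ev g (E := fun n ω => ¬E n ω) (by simpa only [Pos, pb_not] using u))
  exact ⟨h.toMb.cE E, h.f_ev g e, c⟩

theorem Xe.law {W' : ℕ → Type} {Q' : ∀ n, FP (W' n)} {ρ' : ∀ n, W' n → (x n).Ω}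
    (h : Xe ν ψ k fun n => (x n).pull (Q' n) (ρ' n)) (m : Mb fun n => (x n).pull (Q n) (ρ n))
    (e : ∀ᶠ n in UF, Law (Q n) (ρ n) (Q' n) (ρ' n)) :
    Xe ν ψ k fun n => (x n).pull (Q n) (ρ n) :=
  ⟨m, h.f.trans (Le.of_ev (e.mono fun _ u => (Xs.f_law u).ge)),
    (Le.of_ev (e.mono fun _ u => (Xs.D_law u).le)).trans h.D⟩

theorem Xe.dn (g : Gl ν ψ k) (h : Xe ν ψ k x) (e : DnS Q ρ fun n => (x n).P) :
    Xe ν ψ k fun n => (x n).pull (Q n) (ρ n) := by
  obtain ⟨T, a, b, c⟩ := DnS_split e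
  have h1 : Xe ν ψ k fun n => (x n).pull (T n) Prod.fst :=
    Xe.law (Q' := fun n => (x n).P) (ρ' := fun _ => id) h
      (h.toMb.pull (Eventually.of_forall fun n _ => (a n).mem)) (Eventually.of_forall a)
  exact Xe.law (Q' := fun n => cE (T n) fun v => v.2 = true) (ρ' := fun _ => Prod.fst)
    (h1.ev g b) (h.toMb.pull (DnS_mem e)) (c.mono fun _ u => u.symm)

end Dn

theorem Xe.swp (h : Xe ν ψ k x) (o : ℕ → Bool) : Xe ν ψ k fun n => (x n).swp (o n) :=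
  ⟨⟨h.big, h.lgM, h.ok.mono fun n a => a.swp _⟩,
    h.f.trans (Le.of_le fun n => by
      simp only [Xs.f, Xs.gn, Xs.ht_swp, Xs.de_swp]; exact le_rfl),
    (Le.of_le fun n => by simp only [Xs.D, Xs.ht_swp]; exact le_rfl).trans h.D⟩

section Win

variable {a b M M' : ℕ → ℕ} {f g : ℕ → ℝ}

theorem Le.upE (h : Le M' f g) (e : ∀ᶠ n in UF, M' n ≤ M n) : Le M f g := fun ε hε => by
  filter_upwards [h ε hε, e] with n a b
  exact a.trans (add_le_add le_rfl (mul_le_mul_of_nonneg_left (by exact_mod_cast b) hε.le))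

theorem Le.winE (C : ℝ) (e : ∀ᶠ n in UF, M' n ≤ M n)
    (h₁ : Frac (fun n => min (M' n) (M n)) M → Le M f g) (h₂ : Le M f fun n => g n + C * M' n) :
    Le M f g :=
  Le.win (fun _ => min_le_right _ _) C h₁
    (h₂.trans (Le.of_ev (e.mono fun n u => by rw [min_eq_left u])))

/-- The window `[a, b]` lies in the window of `x`. -/
def Wx (x : ℕ → Xs) (a b : ℕ → ℕ) : Prop := ∀ᶠ n in UF, (x n).i ≤ a n ∧ a n ≤ b n ∧ b n ≤ (x n).j

theorem Wx.le (w : Wx x a b) : ∀ᶠ n in UF, b n - a n ≤ un x n :=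
  w.mono fun n u => by simp only [un, Xs.R]; omega

theorem Wx.lo (w : Wx x a b) : Wx x (fun n => (x n).i) a :=
  w.mono fun _ u => ⟨le_rfl, u.1, u.2.1.trans u.2.2⟩

theorem Wx.hi (w : Wx x a b) : Wx x b fun n => (x n).j :=
  w.mono fun _ u => ⟨u.1.trans u.2.1, u.2.2, le_rfl⟩

theorem Mb.win (h : Mb x) (w : Wx x a b) (e : Frac (fun n => min (b n - a n) (un x n)) (un x)) :
    Mb fun n => (x n).win (a n) (b n) :=
  ⟨tendsto_atTop_mono (fun _ => min_le_left _ _) (h.big.frac e),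
    (h.lgM.frac e).up fun _ => min_le_left _ _, (h.ok.and w).mono fun n u =>
      ⟨u.1.box, u.1.sep, u.2.2.1, u.2.2.2.trans u.1.jM⟩⟩

theorem Mb.gn_up (g : Gl ν ψ k) (h : Mb x) (w : Wx x a b) :
    Le (un x) (fun n => (x n).gn ν (a n) (b n)) fun n => ψ * (b n - a n : ℕ) := by
  refine Le.winE 2 w.le (fun u => Le.upE (g.up _ (h.win w u)) w.le)
    (Le.of_ev (w.mono fun n u => ?_))
  linarith [Xs.gn_le (x := x n) (ν := ν) u.2.1,
    mul_nonneg g.pos (Nat.cast_nonneg (α := ℝ) (b n - a n))]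

theorem un_cast {n : ℕ} (w : (x n).i ≤ a n ∧ a n ≤ b n ∧ b n ≤ (x n).j) : (un x n : ℝ) =
    (a n - (x n).i : ℕ) + (b n - a n : ℕ) + ((x n).j - b n : ℕ) := by
  exact_mod_cast (show (x n).j - (x n).i = _ by omega)

theorem Xe.gn_low (g : Gl ν ψ k) (h : Xe ν ψ k x) (w : Wx x a b) :
    Le (un x) (fun n => ψ * (b n - a n : ℕ)) fun n => (x n).gn ν (a n) (b n) := by
  refine Le.of3 h.f (h.toMb.gn_up g w.lo) (h.toMb.gn_up g w.hi) (w.mono fun n u => le_of_eq ?_)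
  rw [un_cast u, Xs.f, Xs.gn_add u.1 (u.2.1.trans u.2.2), Xs.gn_add u.2.1 u.2.2]
  ring

theorem Xe.ht_up (g : Gl ν ψ k) (h : Xe ν ψ k x) (w : Wx x a b) :
    Le (un x) (fun n => (x n).ht (a n) (b n)) fun n => (lg - k) * (b n - a n : ℕ) := by
  refine Le.winE k w.le (fun u => (Le.upE (g.low _ (h.toMb.win w u)
    (((h.gn_low g w).frac u).up fun _ => min_le_left _ _)) w.le).of_sub
      (Eventually.of_forall fun n => le_of_eq ?_)) (Le.of_ev (w.mono fun n u => ?_))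
  · simp only [un, Xs.D, Xs.R, Xs.win, Xs.ht]; ring
  · linarith [Xs.ht_le (x := x n) u.2.1]

theorem Xe.ht_low (g : Gl ν ψ k) (h : Xe ν ψ k x) (w : Wx x a b) :
    Le (un x) (fun n => (lg - k) * (b n - a n : ℕ)) fun n => (x n).ht (a n) (b n) := by
  refine Le.of3 h.D (h.ht_up g w.lo) (h.ht_up g w.hi) (w.mono fun n u => le_of_eq ?_)
  rw [Xs.D, show ((x n).R : ℝ) = un x n from rfl, un_cast u,
    Xs.ht_add u.1 (u.2.1.trans u.2.2), Xs.ht_add u.2.1 u.2.2]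
  ring

end Win

/-- A good part of a partition of small entropy. -/
theorem Xe.part (g : Gl ν ψ k) (h : Xe ν ψ k x) {B : ℕ → Type} (I : ∀ n, (x n).Ω → B n)
    (hI : Sm (un x) fun n => hh (x n).P (I n)) (G : ∀ n, (x n).Ω → ℝ) (G0 : ∀ n ω, 0 ≤ G n ω)
    (hG : Sm (un x) fun n => (x n).P.E (G n)) : ∃ ω : ∀ n, (x n).Ω, (∀ n, ω n ∈ (x n).P.S) ∧
      Xe ν ψ k (fun n => (x n).pull (cv (x n).P (I n) (I n (ω n))) id) ∧
        Sm (un x) fun n => G n (ω n) := by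
  classical
  set y : ∀ n, (x n).Ω → Xs := fun n ω => (x n).pull (cv (x n).P (I n) (I n ω)) id with hy
  have ne : ∀ n, (x n).P.S.Nonempty := fun n =>
    Finset.nonempty_of_sum_ne_zero (by rw [(x n).P.sum_one]; norm_num)
  choose m m1 m2 using fun n => (x n).P.S.exists_max_image (fun ω => (y n ω).f ν) (ne n)
  have up := g.up _ (h.toMb.cE fun n ω => I n ω = I n (m n))
  choose w w1 w2 using fun (r n : ℕ) => (x n).P.S.exists_min_image
    (fun ω => G n ω - (y n ω).f ν + 1 / (r + 1 : ℝ) * (y n ω).D) (ne n)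
  have key : ∀ r : ℕ, Le (un x) (fun n => G n (w r n) + ((y n (m n)).f ν - (y n (w r n)).f ν) +
      1 / (r + 1 : ℝ) * (y n (w r n)).D) fun n => 1 / (r + 1 : ℝ) * (k * un x n) := fun r => by
    have r0 : (0 : ℝ) ≤ 1 / (r + 1 : ℝ) := by positivity
    refine Le.of6 hG up h.f (h.D.smul r0) (hI.smul (c := 3 + 1 / (r + 1 : ℝ)) (by positivity))
      (h.big.sm 1) (Eventually.of_forall fun n => ?_)
    have a1 := ((x n).P.E_const _).symm.le.trans ((x n).P.E_mono (w2 r n))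
    rw [FP.E_add, FP.E_sub, FP.E_mul] at a1
    have a2 := Xs.f_part (ν := ν) (I n)
    have a3 := mul_le_mul_of_nonneg_left (Xs.D_part (I n)) r0
    have a4 : un (fun n => (x n).pull (cE (x n).P fun ω => I n ω = I n (m n)) id) n = un x n := rfl
    rw [a4]
    simp only [hy, cv] at a1 a2 a3 ⊢
    linarith
  obtain ⟨r, r1, r2⟩ := KSA.spill _ fun r : ℕ => key r (1 / (r + 1 : ℝ) * (1 / (r + 1 : ℝ)))
    (by positivity)
  have fin : ∀ ε : ℝ, 0 < ε → ∀ᶠ n in UF, G n (w (r n) n) + ((y n (m n)).f ν -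
      (y n (w (r n) n)).f ν) ≤ ε * un x n ∧ (y n (w (r n) n)).D ≤ k * un x n + ε * un x n := by
    intro ε hε
    filter_upwards [r2, small (show 0 < ε / (|k| + 1) by positivity) r1, small hε r1, h.ok]
      with n a b c d
    have a1 := a _ le_rfl
    have a2 : 0 ≤ (y n (w (r n) n)).D := Xs.D_nonneg d.ij
    have a3 := sub_nonneg.2 (m2 n _ (w1 (r n) n))
    have a4 := G0 n (w (r n) n)
    have a5 : 1 / (r n + 1 : ℝ) ≤ 1 := by
      rw [div_le_one (by positivity)]; linarith [Nat.cast_nonneg (α := ℝ) (r n)]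
    have a6 : (0 : ℝ) < 1 / (r n + 1 : ℝ) := by positivity
    have a7 := Nat.cast_nonneg (α := ℝ) (un x n)
    rw [le_div_iff₀ (by positivity)] at b
    generalize 1 / (r n + 1 : ℝ) = t at *
    have a8 : t * (k + t) ≤ ε := by nlinarith [le_abs_self k]
    refine ⟨by nlinarith [mul_le_mul_of_nonneg_right a8 a7, mul_nonneg a6.le a2],
      le_of_mul_le_mul_left ?_ a6⟩
    nlinarith [mul_le_mul_of_nonneg_left (mul_le_mul_of_nonneg_right c a7) a6.le]
  have top : Le (un x) (fun n => ψ * un x n) fun n => (y n (m n)).f ν :=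
    Le.of3 h.f (hI.smul (c := 3) (by norm_num)) (h.big.sm 1) (Eventually.of_forall fun n => by
      have a1 := ((x n).P.E_mono (m2 n)).trans ((x n).P.E_const _).le
      linarith [Xs.f_part (ν := ν) (I n)])
  refine ⟨fun n => w (r n) n, fun n => w1 _ n, ⟨h.toMb.cE _, top.trans fun ε hε => ?_,
    fun ε hε => (fin ε hε).mono fun _ a => a.2⟩, fun ε hε => (fin ε hε).mono fun n a => ?_⟩
  · exact (fin ε hε).mono fun n a => by linarith [a.1, G0 n (w (r n) n)]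
  · linarith [a.1, m2 n _ (w1 (r n) n)]

end Pool.Agent.MP_5168f5_an.MX
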