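import Pool.Agent.MP_5168f5_an.MX.X0B
import Pool.Agent.MP_5168f5_an.MX.QDefs

/-! Labels given by a matrix are dominated by labels with a shape. -/

namespace Pool.Agent.MP_5168f5_an.MX

open H19 H17S H17F Filter

theorem row_bd {p q m : ℝ} (hm : 0 < m) (hq : |q| = m) (hp : |p| ≤ m) :
    |-p / q| ≤ 1 ∧ ∀ u v L : ℝ, |p * u + q * v| ≤ L → |v - -p / q * u| ≤ L / m := by
  have q0 : q ≠ 0 := abs_pos.1 (hq ▸ hm)
  refine ⟨by rwa [abs_div, abs_neg, hq, div_le_one hm], fun u v L h => ?_⟩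
  rw [show v - -p / q * u = (p * u + q * v) / q by field_simp; ring, abs_div, hq]
  exact div_le_div_of_nonneg_right h hm.le

theorem mt_ent (A : Mt) : |A.1.1| ≤ ‖A‖ ∧ |A.1.2| ≤ ‖A‖ ∧ |A.2.1| ≤ ‖A‖ ∧ |A.2.2| ≤ ‖A‖ :=
  ⟨(norm_fst_le A.1).trans (norm_fst_le A), (norm_snd_le A.1).trans (norm_fst_le A),
    (norm_fst_le A.2).trans (norm_snd_le A), (norm_snd_le A.2).trans (norm_snd_le A)⟩

theorem mt_dt (A : Mt) : |A.dt| ≤ 2 * ‖A‖ * ‖A‖ := by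
  obtain ⟨a, b, c, d⟩ := mt_ent A
  have := abs_sub (A.1.1 * A.2.2) (A.1.2 * A.2.1)
  rw [abs_mul, abs_mul] at this
  linarith [mul_le_mul a d (abs_nonneg _) (norm_nonneg _),
    mul_le_mul b c (abs_nonneg _) (norm_nonneg _), show |A.dt| ≤ _ from this]

theorem mt_pos {A : Mt} (h : A.dt ≠ 0) : 0 < ‖A‖ := by
  refine (norm_nonneg A).lt_of_ne fun e => h (abs_nonpos_iff.1 ?_)
  simpa [← e] using mt_dt A

/-- Every parallelogram has an orientation and a slope. -/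
theorem mt_shape (A : Mt) : ∃ (o : Bool) (g : ℝ), A.dt ≠ 0 → |g| ≤ 1 ∧ ∀ u v L : ℝ,
    ‖A.ap u v‖ ≤ L → |cond o v u| ≤ L / (|A.dt| / (2 * ‖A‖)) ∧
      |cond o u v - g * cond o v u| ≤ L / ‖A‖ := by
  by_cases h : A.dt = 0
  · exact ⟨false, 0, fun e => absurd h e⟩
  have m := mt_pos h
  have d0 := abs_pos.2 h
  obtain ⟨a, b, c, d⟩ := mt_ent A
  have r : ∀ u v L : ℝ, ‖A.ap u v‖ ≤ L → |A.1.1 * u + A.1.2 * v| ≤ L ∧
      |A.2.1 * u + A.2.2 * v| ≤ L := fun u v L e =>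
    ⟨(norm_fst_le (A.ap u v)).trans e, (norm_snd_le (A.ap u v)).trans e⟩
  have cr : ∀ u v L : ℝ, ‖A.ap u v‖ ≤ L → |u| ≤ L / (|A.dt| / (2 * ‖A‖)) ∧
      |v| ≤ L / (|A.dt| / (2 * ‖A‖)) := fun u v L e => by
    obtain ⟨r1, r2⟩ := r u v L e
    have a1 := abs_sub (A.2.2 * (A.1.1 * u + A.1.2 * v)) (A.1.2 * (A.2.1 * u + A.2.2 * v))
    have a2 := abs_sub (A.1.1 * (A.2.1 * u + A.2.2 * v)) (A.2.1 * (A.1.1 * u + A.1.2 * v))
    rw [show A.2.2 * (A.1.1 * u + A.1.2 * v) - A.1.2 * (A.2.1 * u + A.2.2 * v) = u * A.dt by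
      unfold Mt.dt; ring, abs_mul, abs_mul, abs_mul] at a1
    rw [show A.1.1 * (A.2.1 * u + A.2.2 * v) - A.2.1 * (A.1.1 * u + A.1.2 * v) = v * A.dt by
      unfold Mt.dt; ring, abs_mul, abs_mul, abs_mul] at a2
    rw [div_div_eq_mul_div, le_div_iff₀ d0, le_div_iff₀ d0]
    constructor <;> linarith [mul_le_mul a r2 (abs_nonneg _) m.le,
      mul_le_mul b r2 (abs_nonneg _) m.le, mul_le_mul c r1 (abs_nonneg _) m.le,
      mul_le_mul d r1 (abs_nonneg _) m.le]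
  have e : ‖A‖ = |A.1.1| ∨ ‖A‖ = |A.1.2| ∨ ‖A‖ = |A.2.1| ∨ ‖A‖ = |A.2.2| := by
    rw [Prod.norm_def, Prod.norm_def, Prod.norm_def]
    rcases max_choice (max ‖A.1.1‖ ‖A.1.2‖) (max ‖A.2.1‖ ‖A.2.2‖) with e | e <;> rw [e]
    · exact (max_choice _ _).imp id Or.inl
    · exact Or.inr (Or.inr (max_choice _ _))
  rcases e with e | e | e | e
  · exact ⟨true, _, fun _ => ⟨(row_bd m e.symm b).1, fun u v L k => ⟨(cr u v L k).2,
      (row_bd m e.symm b).2 v u L (by rw [add_comm]; exact (r u v L k).1)⟩⟩⟩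
  · exact ⟨false, _, fun _ => ⟨(row_bd m e.symm a).1, fun u v L k => ⟨(cr u v L k).1,
      (row_bd m e.symm a).2 u v L (r u v L k).1⟩⟩⟩
  · exact ⟨true, _, fun _ => ⟨(row_bd m e.symm d).1, fun u v L k => ⟨(cr u v L k).2,
      (row_bd m e.symm d).2 v u L (by rw [add_comm]; exact (r u v L k).2)⟩⟩⟩
  · exact ⟨false, _, fun _ => ⟨(row_bd m e.symm c).1, fun u v L k => ⟨(cr u v L k).1,
      (row_bd m e.symm c).2 u v L (r u v L k).2⟩⟩⟩

/-- The integer part of the binary logarithm. -/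
noncomputable def dep (t : ℝ) : ℕ := Nat.log 2 ⌊t⌋₊

theorem dep_mono {s t : ℝ} (h : s ≤ t) : dep s ≤ dep t := Nat.log_mono_right (Nat.floor_mono h)

theorem dep_le {t : ℝ} {M : ℕ} (h : t ≤ 2 ^ M) : dep t ≤ M := by
  refine (dep_mono h).trans_eq ?_
  rw [dep, show (2 : ℝ) ^ M = ((2 ^ M : ℕ) : ℝ) by push_cast; rfl, Nat.floor_natCast,
    Nat.log_pow one_lt_two]

theorem log_le_dep {t : ℝ} (h : 0 < t) : Real.log t ≤ (dep t + 1) * lg := by
  have a1 : ⌊t⌋₊ + 1 ≤ 2 ^ (dep t + 1) := Nat.lt_pow_succ_log_self one_lt_two ⌊t⌋₊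
  have a2 : ((⌊t⌋₊ : ℝ) + 1) ≤ 2 ^ (dep t + 1) := by exact_mod_cast a1
  refine (Real.log_le_log h ((Nat.lt_floor_add_one t).le.trans a2)).trans_eq ?_
  rw [log_two_pow]; push_cast; rfl

theorem dep_bd {t x : ℝ} (k : ℕ) (ht : 0 < t) (h1 : |x| ≤ 2 ^ k / t) (h2 : |x| ≤ 8) :
    |x| ≤ 8 / 2 ^ (dep t - k) := by
  rcases le_or_gt (dep t) k with e | e
  · simpa [Nat.sub_eq_zero_of_le e] using h2
  have a0 : ⌊t⌋₊ ≠ 0 := fun u => by simp [dep, u] at e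
  have a1 : ((2 ^ dep t : ℕ) : ℝ) ≤ ⌊t⌋₊ := by exact_mod_cast Nat.pow_log_le_self 2 a0
  have a2 : (2 : ℝ) ^ k * 2 ^ (dep t - k) ≤ t := by
    rw [← pow_add, Nat.add_sub_cancel' e.le]
    exact_mod_cast a1.trans (Nat.floor_le ht.le)
  refine h1.trans ?_
  rw [div_le_div_iff₀ ht (by positivity)]
  linarith

variable {T γ : Type}

/-- The coordinates of the line are at most one. -/
def B1 (p : Sp T) : Prop := |p.1.1| ≤ 1 ∧ |p.1.2.1| ≤ 1 ∧ |p.1.2.2.1| ≤ 1 ∧ |p.1.2.2.2.1| ≤ 1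

theorem B1.sw {p : Sp T} (h : B1 p) (o : Bool) : B1 (sw o p) := by
  cases o
  exacts [h, ⟨h.2.1, h.1, h.2.2.2, h.2.2.1⟩]

/-- Lateral position. -/
def py (τ : ℝ) (p : Sp T) : ℝ := p.1.1 + τ * p.1.2.2.1

/-- Normal position. -/
def pn (τ g : ℝ) (p : Sp T) : ℝ := p.1.2.1 + τ * p.1.2.2.2.1 - g * py τ p

theorem box_bd {p q : Sp T} (hp : B1 p) (hq : B1 q) {τ g : ℝ} (hτ : |τ| ≤ 1) (hg : |g| ≤ 1) :
    |p.1.2.2.1 - q.1.2.2.1| ≤ 8 ∧
      |p.1.2.2.2.1 - g * p.1.2.2.1 - (q.1.2.2.2.1 - g * q.1.2.2.1)| ≤ 8 ∧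
      |py τ p - py τ q| ≤ 8 ∧ |pn τ g p - pn τ g q| ≤ 8 := by
  have m : ∀ {a b c : ℝ}, |a| ≤ 1 → |b| ≤ c → |a * b| ≤ c := fun h h' => by
    rw [abs_mul]; exact (mul_le_mul h h' (abs_nonneg _) zero_le_one).trans_eq (one_mul _)
  have y : ∀ p : Sp T, B1 p → |py τ p| ≤ 2 := fun p h =>
    (abs_add_le _ _).trans (by linarith [h.1, m hτ h.2.2.1])
  have a1 := abs_le.1 (y p hp)
  have a2 := abs_le.1 (y q hq)
  have a3 := abs_le.1 (m hg (y p hp))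
  have a4 := abs_le.1 (m hg (y q hq))
  have a5 := abs_le.1 (m hg hp.2.2.1)
  have a6 := abs_le.1 (m hg hq.2.2.1)
  have a7 := abs_le.1 (m hτ hp.2.2.2)
  have a8 := abs_le.1 (m hτ hq.2.2.2)
  obtain ⟨-, b1, b2, b3⟩ := hp
  obtain ⟨-, c1, c2, c3⟩ := hq
  rw [abs_le] at b1 b2 b3 c1 c2 c3
  simp only [abs_le, pn]
  refine ⟨⟨?_, ?_⟩, ⟨?_, ?_⟩, ⟨?_, ?_⟩, ?_, ?_⟩ <;> linarith

theorem pair_bd {A : Mt} {o : Bool} {g τ L : ℝ} {k : ℕ} (hd : A.dt ≠ 0) (hL : 0 < L)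
    (hs : |g| ≤ 1 ∧ ∀ u v L : ℝ, ‖A.ap u v‖ ≤ L → |cond o v u| ≤ L / (|A.dt| / (2 * ‖A‖)) ∧
      |cond o u v - g * cond o v u| ≤ L / ‖A‖) {p q : Sp T} (hp : B1 p) (hq : B1 q)
    (hτ : |τ| ≤ 1) (h1 : ‖A.ap (p.1.1 - q.1.1 + τ * (p.1.2.2.1 - q.1.2.2.1))
      (p.1.2.1 - q.1.2.1 + τ * (p.1.2.2.2.1 - q.1.2.2.2.1))‖ ≤ L)
    (h2 : ‖A.ap (p.1.2.2.1 - q.1.2.2.1) (p.1.2.2.2.1 - q.1.2.2.2.1)‖ ≤ L * 2 ^ k) :
    |(sw o p).1.2.2.1 - (sw o q).1.2.2.1| ≤ 8 / 2 ^ (dep (|A.dt| / (2 * ‖A‖) / L) - k) ∧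
      |(sw o p).1.2.2.2.1 - g * (sw o p).1.2.2.1 -
        ((sw o q).1.2.2.2.1 - g * (sw o q).1.2.2.1)| ≤ 8 / 2 ^ (dep (‖A‖ / L) - k) ∧
      |py τ (sw o p) - py τ (sw o q)| ≤ 8 / 2 ^ dep (|A.dt| / (2 * ‖A‖) / L) ∧
      |pn τ g (sw o p) - pn τ g (sw o q)| ≤ 8 / 2 ^ dep (‖A‖ / L) := by
  have m := mt_pos hd
  have d0 := abs_pos.2 hd
  obtain ⟨b1, b2, b3, b4⟩ := box_bd (hp.sw o) (hq.sw o) hτ hs.1
  obtain ⟨c1, c2⟩ := hs.2 _ _ _ h1
  obtain ⟨c3, c4⟩ := hs.2 _ _ _ h2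
  have e : ∀ t : ℝ, L * 2 ^ k / t = 2 ^ k / (t / L) := fun t => by
    rw [div_div_eq_mul_div, mul_comm]
  have e' : ∀ t : ℝ, L / t = 2 ^ 0 / (t / L) := fun t => by
    rw [div_div_eq_mul_div, pow_zero, one_mul]
  rw [e] at c3 c4
  rw [e'] at c1 c2
  refine ⟨dep_bd k (by positivity) (le_trans (le_of_eq ?_) c3) b1,
    dep_bd k (by positivity) (le_trans (le_of_eq ?_) c4) b2,
    dep_bd 0 (by positivity) (le_trans (le_of_eq ?_) c1) b3,
    dep_bd 0 (by positivity) (le_trans (le_of_eq ?_) c2) b4⟩ <;>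
  · congr 1
    cases o <;> simp only [sw, py, pn, cond] <;> ring

theorem ap_add (A : Mt) (u v u' v' c : ℝ) :
    A.ap (u + c * u') (v + c * v') = A.ap u v + c • A.ap u' v' := by
  simp only [Mt.ap, Prod.smul_mk, Prod.mk_add_mk, smul_eq_mul, Prod.mk.injEq]
  constructor <;> ring

/-- The line and the height. -/
def Ob.sp (o : Ob) (ω : o.Ω) : Sp o.T := (o.x.l ω, o.x.z ω)

theorem lab_le {o : Ob} {ν L : ℝ} {k : ℕ} {K : o.Ω → γ} {A : o.Ω → Mt} {τ : o.Ω → ℝ}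
    (h0 : 0 ≤ ν) (h1 : ν ≤ 1) (hL : 1 ≤ L) (ha : o.Alg) (h : o.Lab k L K A τ) :
    o.Phi ν K A ≤ De ν o.P o.sp o.M k + 2 * k * lg + (20 + 4 * Real.log L) := by
  choose or g hs using mt_shape
  set L' := 3 * L ^ 2 with hL'
  have l0 : L ≤ L' := by nlinarith
  have l1 : 0 < L' := by linarith
  set p1 : o.Ω → ℕ := fun ω => dep (|(A ω).dt| / (2 * ‖A ω‖) / L') with e1
  set p2 : o.Ω → ℕ := fun ω => dep (‖A ω‖ / L') with e2
  set t : o.Ω → ℝ := fun ω => rn k (o.x.z ω) with e3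
  set u : o.Ω → ℝ := fun ω => py (t ω) (sw (or (A ω)) (o.sp ω)) with e4
  set w : o.Ω → ℝ := fun ω => pn (t ω) (g (A ω)) (sw (or (A ω)) (o.sp ω)) with e5
  have ft : Fn o.P t K := fn_rn h.fz
  have f1 : Fn o.P p1 K := (Fn.comp (fun A : Mt => dep (|A.dt| / (2 * ‖A‖) / L')) A).trans h.fA
  have f2 : Fn o.P p2 K := (Fn.comp (fun A : Mt => dep (‖A‖ / L')) A).trans h.fA
  have tz : ∀ a, |t a - o.x.z a| ≤ 1 / 2 ^ k := fun a => by
    rw [abs_le]; constructor <;> linarith [rn_le k (o.x.z a), lt_rn k (o.x.z a),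
      show (0 : ℝ) < 1 / 2 ^ k by positivity]
  have le : ∀ a ∈ o.P.S, p1 a ≤ p2 a := fun a u => dep_mono (div_le_div_of_nonneg_right (by
    rw [div_le_iff₀ (by linarith [mt_pos (h.bd a u).1])]; linarith [mt_dt (A a)]) l1.le)
  have b1 : ∀ a ∈ o.P.S, B1 (o.sp a) := fun a u =>
    ⟨(ha.box a u).1, (ha.box a u).2.1, (ha.box a u).2.2.1, (ha.box a u).2.2.2.1⟩
  have pr := fun a (u : a ∈ o.P.S) b (v : b ∈ o.P.S) (e : K a = K b) =>
    pair_bd (k := k) (τ := t a) (h.bd a u).1 l1 (hs _ (h.bd a u).1) (b1 a u) (b1 b v) (by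
      obtain ⟨-, -, -, -, z0, z1, -⟩ := ha.box a u
      have : 0 ≤ t a := div_nonneg (by exact_mod_cast Int.floor_nonneg.2 (by positivity))
        (by positivity)
      rw [abs_of_nonneg this]; linarith [rn_le k (o.x.z a)]) (by
      obtain ⟨c1, c2⟩ := h.pr a u b v e
      have c3 : |t a - τ a| ≤ (1 + L) / 2 ^ k := by
        have := abs_sub_le (t a) (o.x.z a) (τ a)
        rw [abs_sub_comm (o.x.z a)] at this
        rw [add_div]; linarith [tz a, (h.bd a u).2.2]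
      have c4 := (ap_add (A a) _ _ _ _ (t a - τ a)) ▸ (norm_add_le _ _).trans (add_le_add c1
        ((norm_smul_le _ _).trans (mul_le_mul c3 c2 (norm_nonneg _) (by positivity))))
      rw [show (1 + L) / 2 ^ k * (L * 2 ^ k) = (1 + L) * L by field_simp] at c4
      refine le_trans (le_of_eq ?_) (c4.trans (by nlinarith))
      congr 2 <;> simp only [Ob.sp, Pl.l] <;> ring)
      ((h.pr a u b v e).2.trans (mul_le_mul_of_nonneg_right l0 (by positivity)))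
  have c1 := ch_rand (P := o.P) (x := u) (G := K) (u := p1) (m := fun ω => k + (p1 ω - k)) f1
    ((Fn.comp (fun i => k + (i - k)) p1).trans f1) (fun _ _ => by omega) fun a ha b hb e => by
      have := (pr a ha b hb e).2.2.1
      simp only [e4, ← h.fA a ha b hb e, ← ft a ha b hb e]
      exact this.trans (dv_anti (by norm_num) (by norm_num) le_rfl)
  have c2 := ch_rand (P := o.P) (x := w) (G := K) (u := p2) (m := fun ω => k + (p2 ω - k)) f2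
    ((Fn.comp (fun i => k + (i - k)) p2).trans f2) (fun _ _ => by omega) fun a ha b hb e => by
      have := (pr a ha b hb e).2.2.2
      simp only [e5, ← h.fA a ha b hb e, ← ft a ha b hb e]
      exact this.trans (dv_anti (by norm_num) (by norm_num) le_rfl)
  have c3 := Pot.le_Del (π := pot ν o.T o.M k) (ρ := o.sp) (Law.rfl _)
    (K := fun ω => ((fl1 (k + (p1 ω - k)) (u ω), fl1 (k + (p2 ω - k)) (w ω)), K ω))
    (σ := fun ω => (⟨or (A ω), p1 ω - k, p2 ω - k, g (A ω), t ω⟩ : Sh))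
    ⟨Fn.right (fun a ha b hb e => by
      simp only [h.fA a ha b hb e, f1 a ha b hb e, f2 a ha b hb e, ft a ha b hb e]) _,
    fun a qa b qb e => by
      have e' : K a = K b := congrArg Prod.snd e
      obtain ⟨d1, d2, -, -⟩ := pr a qa b qb e'
      have d3 := congrArg (·.1.1) e
      have d4 := congrArg (·.1.2) e
      simp only [e4, e5, ← h.fA a qa b qb e', ← ft a qa b qb e', ← f1 a qa b qb e',
        ← f2 a qa b qb e'] at d3 d4
      refine ⟨Nat.sub_le_sub_right (le a qa) k, Nat.sub_le_sub_right (dep_le ?_) k,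
        (hs _ (h.bd a qa).1).1, ?_, ?_, ?_, d1, d2, (abs_sub_lt_of_fl1_eq d3).le.trans ?_,
        (abs_sub_lt_of_fl1_eq d4).le.trans ?_⟩
      · rw [div_le_iff₀ l1]
        nlinarith [(h.bd a qa).2.1, show (0 : ℝ) < 2 ^ o.M by positivity]
      · have := h.fθ a qa b qb e'
        dsimp only
        cases or (A a) <;> exact this
      · rw [sw_z, sw_z]; exact h.fz a qa b qb e'
      · rw [sw_z]; exact tz a
      · rw [← one_div]; exact dv_anti (by norm_num) (by norm_num) le_rfl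
      · rw [← one_div]; exact dv_anti (by norm_num) (by norm_num) le_rfl⟩
  have c4 := (ch_drop (P := o.P) o.x.l _ K).trans (add_le_add le_rfl
    ((ch_subadd _ _ _).trans (add_le_add c1 c2)))
  have c5 : o.P.E (fun ω => (A ω).val ν) ≤ o.P.E fun ω =>
      ((1 + ν) * (p1 ω - k : ℕ) + (1 - ν) * (p2 ω - k : ℕ)) * lg -
        ((k + (p1 ω - k) : ℕ) - p1 ω : ℝ) * lg - ((k + (p2 ω - k) : ℕ) - p2 ω : ℝ) * lg +
          (2 * k * lg + (10 + 4 * Real.log L)) := o.P.E_mono fun a qa => by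
    have m := mt_pos (h.bd a qa).1
    have d0 := abs_pos.2 (h.bd a qa).1
    have a1 : _ ≤ (p1 a + 1) * lg := log_le_dep (by positivity)
    have a2 : _ ≤ (p2 a + 1) * lg := log_le_dep (by positivity)
    rw [Real.log_div (by positivity) l1.ne', Real.log_div d0.ne' (by positivity),
      Real.log_mul two_ne_zero m.ne'] at a1
    rw [Real.log_div m.ne' l1.ne'] at a2
    have a3 : Real.log L' ≤ 2 + 2 * Real.log L := by
      rw [hL', Real.log_mul (by norm_num) (by positivity), Real.log_pow]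
      have := Real.log_le_sub_one_of_pos (show (0 : ℝ) < 3 by norm_num)
      push_cast; linarith
    have a4 : ((k + (p2 a - k) : ℕ) - p2 a : ℝ) ≤ (k + (p1 a - k) : ℕ) - p1 a := by
      have := le a qa
      rw [sub_le_sub_iff]
      exact_mod_cast (show k + (p2 a - k) + p1 a ≤ k + (p1 a - k) + p2 a by omega)
    have a5 := mul_le_mul_of_nonneg_left a1 (show 0 ≤ 1 + ν by linarith)
    have a6 := mul_le_mul_of_nonneg_left a2 (sub_nonneg.2 h1)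
    have a7 := mul_nonneg (mul_nonneg h0 (sub_nonneg.2 a4)) lg_pos.le
    have a8 : ν * lg ≤ 1 := by nlinarith [lg_lt_one, lg_pos]
    push_cast at a7 ⊢
    have a9 : Real.log 2 = lg := rfl
    unfold Mt.val
    rw [a9] at a5
    nlinarith [lg_lt_one]
  rw [FP.E_add, FP.E_sub, FP.E_sub, FP.E_const] at c5
  refine (add_le_add c4 c5).trans ?_
  unfold De
  unfold Pot.Φ at c3
  simp only [pot, Ob.sp] at c3 ⊢
  linarith

end Pool.Agent.MP_5168f5_an.MX
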