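import Pool.Agent.MP_5168f5_an.MX.X0C
import Pool.Agent.MP_5168f5_an.MX.X0D
import Pool.Agent.MP_5168f5_an.MX.QSpec

/-! An extremal counterexample to the entropy form of the maximal estimate. -/

namespace Pool.Agent.MP_5168f5_an.MX

open H19 H17S H17F Filter R4.K31

/-- The system with a frame and constant depths. -/
noncomputable def Xs.ob (y : Xs) (g : y.Ω → ℝ) (d η : ℕ) : Ob where
  Ω := y.Ω
  T := y.T
  P := y.P
  x := ⟨fun ω => (y.φ ω).1.2.2.2.2, fun ω => (y.φ ω).1.1, fun ω => (y.φ ω).1.2.1,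
    fun ω => (y.φ ω).1.2.2.1, fun ω => (y.φ ω).1.2.2.2.1, fun ω => (y.φ ω).2, fun ω => rn η (g ω)⟩
  M := y.M
  j := y.j
  d := d
  f := fun _ => η

theorem rn_rn (j : ℕ) (x : ℝ) : rn j (rn j x) = rn j x := by
  have : fl1 j (rn j x) = fl1 j x := by
    rw [rn, fl1, mul_div_cancel₀ _ (by positivity), Int.floor_intCast]
  rw [rn, this, rn]

theorem abs_rn {j : ℕ} {x : ℝ} (h : |x| ≤ 1) : |rn j x| ≤ 1 := by
  obtain ⟨a, b⟩ := abs_le.1 h
  refine abs_le.2 ⟨?_, (rn_le j x).trans b⟩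
  rw [rn, le_div_iff₀ (by positivity)]
  have : (-(2 ^ j) : ℤ) ≤ fl1 j x := Int.le_floor.2 (by
    push_cast; nlinarith [show (0 : ℝ) < 2 ^ j by positivity])
  have h2 : ((-(2 ^ j) : ℤ) : ℝ) ≤ fl1 j x := by exact_mod_cast this
  push_cast at h2; linarith

theorem abs_sub_rn (j : ℕ) (x : ℝ) : |x - rn j x| ≤ 1 / 2 ^ j := by
  rw [abs_le]; constructor <;> linarith [rn_le j x, lt_rn j x,
    show (0 : ℝ) < 1 / 2 ^ j by positivity]

/-- A top label of constant shape. -/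
structure Cs (ν : ℝ) (y : Xs) {κ : Type} (K : y.Ω → κ) (σ : y.Ω → Sh) (d η : ℕ) : Prop where
  lb : (pot ν y.T y.M y.j).Lb y.P y.φ K σ
  sh : ∀ v ∈ y.P.S, (σ v).o = false ∧ (σ v).s = d ∧ (σ v).n = d + η

section One

variable {ν : ℝ} {y : Xs} {κ W : Type} {K : y.Ω → κ} {σ : y.Ω → Sh} {d η : ℕ}

theorem Cs.pull (h : Cs ν y K σ d η) {Q : FP W} {ρ : W → y.Ω} (m : ∀ v ∈ Q.S, ρ v ∈ y.P.S) :
    Cs ν (y.pull Q ρ) (fun v => K (ρ v)) (fun v => σ (ρ v)) d η :=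
  ⟨h.lb.pull m, fun v hv => h.sh _ (m v hv)⟩

theorem Cs.fit (h : Cs ν y K σ d η) {a b : y.Ω} (ha : a ∈ y.P.S) (hb : b ∈ y.P.S)
    (e : K a = K b) : Fit y.M y.j (σ a) (y.φ a) (y.φ b) := by
  have : Fit y.M y.j (σ a) (sw (σ a).o (y.φ a)) (sw (σ a).o (y.φ b)) := h.lb.ok a ha b hb e
  rwa [(h.sh a ha).1] at this

theorem Cs.alg (h : Cs ν y K σ d η) (k : y.Ok) : (y.ob (fun v => (σ v).g) d η).Alg := by
  refine ⟨fun v hv => ?_, fun _ _ _ => le_rfl, ?_⟩
  · obtain ⟨a, b, c, d, e⟩ := k.box v hv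
    exact ⟨(abs_of_nonneg a.1).trans_le a.2.le, (abs_of_nonneg b.1).trans_le b.2.le,
      (abs_of_nonneg c.1).trans_le c.2.le, (abs_of_nonneg d.1).trans_le d.2.le, e.1, e.2,
      abs_rn (h.fit hv hv rfl).g1, rn_rn _ _⟩
  · obtain ⟨v, hv⟩ : y.P.S.Nonempty :=
      Finset.nonempty_of_sum_ne_zero (by rw [y.P.sum_one]; norm_num)
    have a1 := (h.fit hv hv rfl).nM
    have a2 := (h.sh v hv).2.2
    have a3 := k.jM
    simp only [Xs.ob]
    omega

theorem Cs.kn (h : Cs ν y K σ d η) : Kn y.P (y.ob (fun v => (σ v).g) d η).x K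
    ((y.ob (fun v => (σ v).g) d η).pm y.j) 48 := by
  have fs : Fn y.P σ K := h.lb.fn
  have fz : Fn y.P (fun v => fl1 y.j (y.φ v).2) K := fun a ha b hb e => (h.fit ha hb e).z
  have c1 : Cls y.P K (fun v => (y.φ v).1.2.2.1) d 8 := fun a ha b hb e => by
    rw [← (h.sh a ha).2.1]; exact (h.fit ha hb e).e1
  have c2 : Cls y.P K (fun v => (y.φ v).1.2.2.2.1 - (σ v).g * (y.φ v).1.2.2.1) (d + η) 8 :=
    fun a ha b hb e => by
      simp only [← (h.sh a ha).2.2, ← fs a ha b hb e]; exact (h.fit ha hb e).e2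
  have c3 : Cls y.P K (fun v => py (σ v).τ (y.φ v)) (y.j + d) 8 := fun a ha b hb e => by
    simp only [← (h.sh a ha).2.1, ← fs a ha b hb e]; exact (h.fit ha hb e).y1
  have c4 : Cls y.P K (fun v => pn (σ v).τ (σ v).g (y.φ v)) (y.j + (d + η)) 8 :=
    fun a ha b hb e => by
      simp only [← (h.sh a ha).2.2, ← fs a ha b hb e]; exact (h.fit ha hb e).y2
  have r1 : Fn y.P (fun v => (rn y.j (y.φ v).2 - (σ v).τ) / 2) K := fun a ha b hb e => by
    have := fn_rn fz a ha b hb e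
    simp only at this ⊢
    rw [this, fs a ha b hb e]
  have r2 : ∀ v ∈ y.P.S, |(rn y.j (y.φ v).2 - (σ v).τ) / 2| ≤ 1 / 2 ^ y.j := fun v hv => by
    have a1 := abs_le.1 (abs_sub_rn y.j (y.φ v).2)
    have a2 := abs_le.1 (h.fit hv hv rfl).τ
    rw [abs_le]; constructor <;> linarith [a1.1, a1.2, a2.1, a2.2]
  have g1 : Fn y.P (fun v => (σ v).g - rn η (σ v).g) K :=
    (Fn.comp (fun s : Sh => s.g - rn η s.g) σ).trans fs
  have g2 : ∀ v ∈ y.P.S, |(σ v).g - rn η (σ v).g| ≤ 1 / 2 ^ η := fun v _ => abs_sub_rn _ _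
  have c5 : Cls y.P K (fun v => py (rn y.j (y.φ v).2) (y.φ v)) (y.j + d) (8 + 8 + 8) :=
    ((c3.add (c1.mul r1 r2)).add (c1.mul r1 r2)).congr fun v _ => by simp only [py]; ring
  refine ⟨by norm_num, fun a ha b hb e => (h.fit ha hb e).θ,
    fz.pair ((Fn.comp (fun s : Sh => fl1 η (rn η s.g)) σ).trans fs),
    c5.mono le_rfl (by norm_num) (by norm_num), c1.mono le_rfl (by norm_num) (by norm_num), ?_, ?_⟩
  · refine ((((c4.add (c2.mul r1 r2)).add (c2.mul r1 r2)).add ((c5.mul g1 g2).mono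
      (j := y.j + (d + η)) (by omega) (by norm_num) le_rfl)).congr fun v _ => ?_).mono le_rfl
        (by norm_num) (by norm_num)
    simp only [Xs.ob, Ob.pm, lab, Pl.nm, Pl.y1, py, pn, rn_rn]; ring
  · refine ((c2.add ((c1.mul g1 g2).mono (j := d + η) (by omega) (by norm_num) le_rfl)).congr
      fun v _ => ?_).mono le_rfl (by norm_num) (by norm_num)
    simp only [Xs.ob, Ob.pm, lab, Pl.tl, rn_rn]; ring

theorem Cs.top (h : Cs ν y K σ d η) : (pot ν y.T y.M y.j).Φ y.P y.φ K σ + 2 * y.j * lg ≤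
    (y.ob (fun v => (σ v).g) d η).top ν + 392 := by
  have a1 := h.kn.ch
  have a2 := ch_tri' (P := y.P) (fun v => (y.φ v).1) K ((y.ob (fun v => (σ v).g) d η).S y.j)
  have a3 : y.P.E (fun v => ((1 + ν) * (σ v).s + (1 - ν) * (σ v).n) * lg) =
      (2 * d + (1 - ν) * η) * lg := (y.P.E_congr fun v hv => by
    rw [(h.sh v hv).2.1, (h.sh v hv).2.2]; push_cast; ring).trans (y.P.E_const _)
  refine (add_le_add (add_le_add (a2.trans (add_le_add le_rfl a1)) a3.le) le_rfl).trans ?_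
  change _ ≤ ch y.P (fun v => (y.φ v).1) ((y.ob (fun v => (σ v).g) d η).S y.j) +
    (2 * (y.j + d) + (1 - ν) * η) * lg + 392
  exact le_of_eq (by ring)

theorem Cs.opt (h : Cs ν y K σ d η) (k : y.Ok) (h0 : 0 ≤ ν) (h1 : ν ≤ 1) {γ : Type} {a : ℕ}
    {L : ℝ} {K' : y.Ω → γ} {A : y.Ω → Mt} {τ : y.Ω → ℝ} (hL : 1 ≤ L)
    (hl : (y.ob (fun v => (σ v).g) d η).Lab a L K' A τ) :
    (y.ob (fun v => (σ v).g) d η).Phi ν K' A - (y.ob (fun v => (σ v).g) d η).top ν ≤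
      y.de ν a - (pot ν y.T y.M y.j).Φ y.P y.φ K σ - 2 * (y.j - a) * lg +
        (412 + 4 * Real.log L) := by
  have b1 : _ ≤ y.de ν a + _ + _ := lab_le h0 h1 hL (h.alg k) hl
  linarith [h.top]

end One

variable {ν ψ k : ℝ} {y : ℕ → Xs}

theorem Xe.xt (g : Gl ν ψ k) (h : Xe ν ψ k y) (h0 : 0 ≤ ν) (h1 : ν ≤ 1) {κ : ℕ → Type}
    {K : ∀ n, (y n).Ω → κ n} {σ : ∀ n, (y n).Ω → Sh} {d η : ℕ → ℕ}
    (c : ∀ n, Cs ν (y n) (K n) (σ n) (d n) (η n)) (gap : Sm (un y) fun n => (y n).de ν (y n).j -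
      (pot ν (y n).T (y n).M (y n).j).Φ (y n).P (y n).φ (K n) (σ n)) :
    XT ν ((ψ + 2 * k) / lg) (1 - k / lg) (fun n => (y n).ob (fun v => (σ n v).g) (d n) (η n))
      (fun n => (y n).i) (un y) := by
  have l0 := lg_pos.ne'
  have tp : ∀ᶠ n in UF, (y n).i + un y n = (y n).j := h.ok.mono fun n u => Nat.add_sub_cancel' u.ij
  refine ⟨⟨h.big, (h.ok.and tp).mono fun n u => ⟨(c n).alg u.1, u.2.le⟩, fun W Q ρ dn a b w => ?_⟩,
    tp, ⟨fun n => le_add_of_nonneg_left (Nat.cast_nonneg _), fun ε hε => ?_⟩,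
    fun W Q ρ dn a L γ K' A τ w hL hl => ?_⟩
  · have h' := h.dn g dn
    have w' : Wx (fun n => (y n).pull (Q n) (ρ n)) a b :=
      (w.and tp).mono fun n u => ⟨u.1.1, u.1.2.1, u.1.2.2.trans u.2.le⟩
    have e : ∀ᶠ n in UF, (1 - k / lg) * (b n - a n) * lg = (lg - k) * (b n - a n : ℕ) :=
      w.mono fun n u => by rw [Nat.cast_sub u.2.1]; field_simp
    exact ⟨(Le.of_ev (e.mono fun _ u => u.le)).trans (h'.ht_low g w'),
      (h'.ht_up g w').trans (Le.of_ev (e.mono fun _ u => u.ge))⟩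
  · refine (h.lgM ε hε).mono fun n u => ?_
    rw [zero_add, Real.log_le_iff_le_exp (by positivity)] at u
    exact le_trans (add_le_add le_rfl one_le_two) u
  · have h' := h.dn g dn
    have w' : Wx (fun n => (y n).pull (Q n) (ρ n)) a fun n => (y n).j :=
      (w.and tp).mono fun n u => ⟨u.1.1, u.1.2.2.trans u.2.le, le_rfl⟩
    have a1 := h'.gn_low g w'
    have a2 := (h'.ht_up g w').smul zero_le_two
    have m := DnS_mem dn
    obtain ⟨C, C1, C2⟩ := dn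
    refine Le.of5 (M := un y) a1 a2 ((gap.add (h.big.sm (lg + 1))).smul (zero_le_one.trans C1))
      (hL.log.smul (c := 4) (by norm_num)) (h.big.sm 412) ?_
    filter_upwards [C2, m, hl, h'.ok, w'] with n u1 u2 u3 u4 u5
    have b1 := ((c n).pull u2).opt u4 h0 h1 (hL.1 n) u3
    have num : ∀ {X T da dj F ht G l s : ℝ}, X - T ≤ da - F - 2 * s * lg + (412 + 4 * l) →
        dj - F ≤ G → X + (ψ + 2 * k) / lg * s * lg - T ≤ ψ * s - (dj - da + 2 * ht) +
          (2 * ht - 2 * ((lg - k) * s)) + (G - 0) + (4 * l - 0) + (412 - 0) := by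
      intro X T da dj F ht G l s b1 b2
      rw [show (ψ + 2 * k) / lg * s * lg = (ψ + 2 * k) * s by field_simp]
      linarith
    rw [Nat.cast_sub u5.2.1]
    exact num b1 (Pot.gap u1 (c n).lb)

/-- An extremal member with an almost optimal top label of constant shape. -/
theorem Xe.cs (g : Gl ν ψ k) (h : Xe ν ψ k y) : ∃ (y : ℕ → Xs) (κ : ℕ → Type)
    (K : ∀ n, (y n).Ω → κ n) (σ : ∀ n, (y n).Ω → Sh) (d η : ℕ → ℕ), Xe ν ψ k y ∧
    (∀ n, Cs ν (y n) (K n) (σ n) (d n) (η n)) ∧ Sm (un y) fun n => (y n).de ν (y n).j -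
      (pot ν (y n).T (y n).M (y n).j).Φ (y n).P (y n).φ (K n) (σ n) := by
  choose W κ T p K σ a b c using fun n => (pot ν (y n).T (y n).M (y n).j).near (y n).P (y n).φ
  have h1 := h.dn g (dn_law a)
  set I : ∀ n, W n → Bool × ℕ × ℕ := fun n v => ((σ n v).o, (σ n v).s, (σ n v).n) with hI
  have f : ∀ n, ∀ v ∈ (T n).S, (σ n v).s ≤ (σ n v).n ∧ (σ n v).n ≤ (y n).M := fun n v hv =>
    ⟨((b n).ok v hv v hv rfl).sn, ((b n).ok v hv v hv rfl).nM.trans (Nat.sub_le _ _)⟩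
  have hh1 : Sm (un y) fun n => hh (T n) (I n) := by
    refine ((h.big.sm lg).add (h.lgM.add h.lgM)).mono (Eventually.of_forall fun n => ?_)
    have e : Real.log ((y n).M + 1) ≤ Real.log ((y n).M + 2) :=
      Real.log_le_log (by positivity) (by linarith)
    rw [← ch_unit]
    exact (ch_subadd _ _ _).trans (add_le_add
      (ch_det fun _ _ => ⟨Finset.univ, by simp, fun _ _ _ => Finset.mem_univ _⟩)
      ((ch_subadd _ _ _).trans (add_le_add
        ((ch_label (fun v hv => (f n v hv).1.trans (f n v hv).2) _).trans e)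
        ((ch_label (fun v hv => (f n v hv).2) _).trans e))))
  obtain ⟨ω, m, h2, h3⟩ := h1.part g I hh1 (fun n v =>
    (pot ν (y n).T (y n).M (y n).j).Del (cv (T n) (I n) (I n v)) (fun u => (y n).φ (p n u)) -
      (pot ν (y n).T (y n).M (y n).j).Φ (cv (T n) (I n) (I n v)) (fun u => (y n).φ (p n u))
        (K n) (σ n)) (fun n v => sub_nonneg.2 (Pot.le_Del (Law.rfl _) ((b n).cE _)))
    ((hh1.add (h.big.sm 2)).mono (Eventually.of_forall fun n => by
      have a1 := Pot.part_ge (π := pot ν (y n).T (y n).M (y n).j) (P := T n)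
        (φ := fun u => (y n).φ (p n u)) (I n)
      have a2 := Pot.Φ_cv (π := pot ν (y n).T (y n).M (y n).j) (Q := T n)
        (ρ := fun u => (y n).φ (p n u)) (K := K n) (σ := σ n) (I n)
      have num : ∀ {E E' D F H : ℝ}, E ≤ D + 1 → F ≤ E' + H → D ≤ F + 1 → E - E' ≤ H + 2 :=
        fun _ _ _ => by linarith
      rw [Pot.Del_law ((a n).comp (y n).φ)] at a1
      exact ((T n).E_sub _ _).trans_le (num a1 a2 (c n))))
  have e : ∀ n, ∀ v ∈ (cv (T n) (I n) (I n (ω n))).S, I n v = I n (ω n) := fun n v hv =>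
    ((mem_cE (P := T n) (E := fun u => I n u = I n (ω n)) ⟨ω n, m n, rfl⟩ v).1 hv).2
  refine ⟨_, κ, K, fun n v => ⟨false, (σ n v).s, (σ n v).n, (σ n v).g, (σ n v).τ⟩,
    fun n => (σ n (ω n)).s, fun n => (σ n (ω n)).n - (σ n (ω n)).s,
    h2.swp fun n => (σ n (ω n)).o, fun n => ⟨⟨?_, fun u hu v hv q => ?_⟩, fun v hv => ?_⟩,
    h3.mono (Eventually.of_forall fun n => sub_le_sub (Xs.de_swp _).le ?_)⟩
  · exact (Fn.comp (fun s : Sh => (⟨false, s.s, s.n, s.g, s.τ⟩ : Sh)) (σ n)).trans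
      ((b n).cE _).fn
  · have a1 : Fit (y n).M (y n).j (σ n u) (sw (σ n u).o _) (sw (σ n u).o _) :=
      ((b n).cE _).ok u hu v hv q
    rw [show (σ n u).o = (σ n (ω n)).o from congrArg Prod.fst (e n u hu)] at a1
    exact ⟨a1.sn, a1.nM, a1.g1, a1.θ, a1.z, a1.τ, a1.e1, a1.e2, a1.y1, a1.y2⟩
  · refine ⟨rfl, congrArg (·.2.1) (e n v hv), (congrArg (·.2.2) (e n v hv)).trans ?_⟩
    exact (Nat.add_sub_cancel' (f n _ (m n)).1).symm
  · exact add_le_add (ch_mono ((Xs.fn_sw (x := ((y n).pull (T n) (p n)).pull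
      (cv (T n) (I n) (I n (ω n))) id) _).1.left _)) le_rfl

/-- A configuration as a system with the full window. -/
def ofCfg (c : Cfg 2) (M : ℕ) : Xs :=
  ⟨c.Ω, c.T, c.P, fun ω => ((c.a ω 0, c.a ω 1, c.e ω 0, c.e ω 1, c.θ ω), c.z ω), M, 0, M⟩

theorem ln_fn (c : Cfg 2) (M : ℕ) : Fn c.P c.ln (fun ω => ((ofCfg c M).φ ω).1) ∧
    Fn c.P (fun ω => ((ofCfg c M).φ ω).1) c.ln := by
  refine ⟨fun a _ b _ e => ?_, fun a _ b _ e => ?_⟩
  · simp only [ofCfg, Prod.mk.injEq] at e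
    exact Prod.ext (funext (Fin.forall_fin_two.2 ⟨e.1, e.2.1⟩))
      (Prod.ext (funext (Fin.forall_fin_two.2 ⟨e.2.2.1, e.2.2.2.1⟩)) e.2.2.2.2)
  · simp only [Cfg.ln, Prod.mk.injEq] at e
    simp only [ofCfg, e.1, e.2.1, e.2.2]

theorem f_ofCfg {c : Cfg 2} {M : ℕ} (h0 : 0 ≤ ν) (b : c.Box) (k : (ofCfg c M).Ok)
    (gr : Fn c.P c.z fun ω => fl1 M (c.z ω)) :
    mu c M - 2 * df c M - 10 ≤ (ofCfg c M).f ν := by
  have a1 : (ofCfg c M).de ν 0 ≤ _ := De_le h0 k.sep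
  have a2 : ch c.P (fun ω => fl1 M (c.z ω)) c.ln ≤ (ofCfg c M).ht 0 M :=
    ch_anti ((ln_fn c M).2.pair fun u hu v hv _ => (fl1_zero_of_box (b u hu).2.2.1
      (b u hu).2.2.2).trans (fl1_zero_of_box (b v hv).2.2.1 (b v hv).2.2.2).symm)
  have fz : Fn c.P c.z fun ω => (fl M (c.pt ω), fl1 M (c.z ω), c.θ ω) :=
    (gr.left _).right _
  have a3 := Pot.le_Del (π := pot ν c.T M M) (P := c.P) (ρ := (ofCfg c M).φ) (Law.rfl _)
    (K := fun ω => (fl M (c.pt ω), fl1 M (c.z ω), c.θ ω))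
    (σ := fun ω => (⟨false, 0, 0, 0, c.z ω⟩ : Sh))
    ⟨(Fn.comp (fun t => (⟨false, 0, 0, 0, t⟩ : Sh)) c.z).trans fz, fun u hu v hv e => by
      have e1 : ∀ i, |c.e u i - c.e v i| ≤ 8 / 2 ^ 0 := fun i => by
        rw [abs_le]; constructor <;> linarith [((b u hu).2.1 i).1, ((b u hu).2.1 i).2,
          ((b v hv).2.1 i).1, ((b v hv).2.1 i).2]
      have e2 : ∀ i, |c.a u i + c.z u * c.e u i - (c.a v i + c.z u * c.e v i)| ≤
          8 / 2 ^ (M + 0) := fun i => by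
        have := (abs_sub_lt_of_fl1_eq (congrFun (congrArg Prod.fst e) i)).le
        rw [← one_div] at this
        nth_rewrite 2 [fz u hu v hv e]
        exact this.trans (dv_anti (by norm_num) (by norm_num) le_rfl)
      exact ⟨le_rfl, Nat.zero_le _, by simp, congrArg (·.2.2) e, congrArg (·.2.1) e,
        by simp [sw, ofCfg], e1 0, by simpa [sw, ofCfg] using e1 1, e2 0,
        by simpa [sw, ofCfg] using e2 1⟩⟩
  have a4 : mu c M ≤ (ofCfg c M).de ν M := by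
    refine le_trans ?_ a3
    simp only [Pot.Φ, pot, Nat.cast_zero, mul_zero, add_zero, zero_mul, FP.E_const]
    exact ch_mono (Fn.left ((Fn.comp (fun l => fl M l.2.1) c.ln).trans (ln_fn c M).1) _)
  change _ ≤ (ofCfg c M).de ν M - (ofCfg c M).de ν 0 + 2 * (ofCfg c M).ht 0 M
  change _ ≤ 2 * (M : ℝ) * lg + 10 at a1
  unfold df
  linarith

theorem rowX0 : SX0 := by
  intro h
  unfold MuK at h
  push Not at h
  obtain ⟨x, M, d, h⟩ := h
  obtain ⟨ε, e0, e⟩ := not_Le h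
  have ok : ∀ n, (ofCfg (x n) (M n)).Ok := fun n =>
    ⟨fun ω u => ⟨(d.box n ω u).1 0, (d.box n ω u).1 1, (d.box n ω u).2.1 0, (d.box n ω u).2.1 1,
      (d.box n ω u).2.2⟩, (ln_fn _ _).2.trans ((d.sep n).trans fun _ _ _ _ e =>
        funext (Fin.forall_fin_two.2 ⟨congrArg Prod.fst e, congrArg Prod.snd e⟩)),
      Nat.zero_le _, le_rfl⟩
  have mb : Mb fun n => ofCfg (x n) (M n) :=
    ⟨d.big, ((Sub.nat d.big).const_mul d.big one_le_two).log.mono (Eventually.of_forall fun n =>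
      Real.log_le_log (by positivity) (by
        simp only [ofCfg]; linarith [Nat.cast_nonneg (α := ℝ) (M n)])), Eventually.of_forall ok⟩
  have n0 : 0 < min ε 1 / 2 := by positivity
  have n1 : min ε 1 / 2 < 1 := by linarith [min_le_right ε 1]
  obtain ⟨ψ, k, y, a, g, b⟩ := ex_xt (ν := min ε 1 / 2) mb e0 ((d.big.sm 10).of_sub
    (e.mono fun n u => by
      have := f_ofCfg n0.le (d.box n) (ok n) (d.grid n)
      change ε * M n - _ ≤ _
      push_cast at u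
      linarith))
  obtain ⟨y, κ, K, σ, d, η, b, c, gap⟩ := b.cs g
  have k0 : 0 ≤ k := Le.num b.big ((Le.of_ev (b.ok.mono fun n u => by
    rw [zero_mul]; exact Xs.D_nonneg u.ij)).trans b.D)
  have k1 : ψ + 2 * k ≤ 2 * lg := Le.num b.big (Le.of2 b.f
    ((g.low y b.toMb b.f).smul zero_le_two) (b.ok.mono fun n u => by
      have : (y n).de _ (y n).j ≤ (y n).de (min ε 1 / 2) (y n).i := De_anti u.ij
      simp only [Xs.f, Xs.gn, Xs.D, un]
      linarith))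
  refine ⟨_, _, _, _, _, _, ⟨n0, n1, sub_le_self _ (div_nonneg k0 lg_pos.le),
    (div_le_iff₀ lg_pos).2 k1, ?_⟩, b.xt g n0.le n1.le c gap⟩
  rw [lt_div_iff₀ lg_pos, sub_sub_cancel, add_mul, mul_assoc, div_mul_cancel₀ _ lg_pos.ne']
  nlinarith [min_le_left ε 1, lg_lt_one]

end Pool.Agent.MP_5168f5_an.MX
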