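import Pool.Agent.MP_5168f5_an.MX.X1Spec
import Pool.Agent.MP_5168f5_an.MX.QDgX
import Pool.Agent.MP_5168f5_an.MX.Ang

/-! Two parts of the block on minimal rotation. -/

namespace Pool.Agent.MP_5168f5_an.MX

theorem rowXDg : XDg := fun _ _ _ =>
  Dg.xt (X := Ob × ℕ × ℕ) Prod.fst (fun y => y.2.1) fun y => y.2.2

theorem rowXAng : XAng := fun _ _ _ _ _ _ _ _ hn hb h ha hp na => ang hn hb h ha hp na

end Pool.Agent.MP_5168f5_an.MX
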