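import Pool.Agent.MP_5168f5_an.MX.X1Spec

/-! A first precision profile, and the rotation bound for a maximal one. -/

namespace Pool.Agent.MP_5168f5_an.MX

open H19 H17S H17F R4.K31 Filter

attribute [local irreducible] ch mi pb fl1

theorem rowXM0 : XM0 := by
  intro an ν β κ o k R p h
  have n0 := p.n0
  obtain ⟨t, t1, t2⟩ : ∃ t : ℕ → ℕ, (∀ n, ν * t n ≤ 3 * R n) ∧ ∀ n, 3 * R n ≤ ν * t n + ν :=
    ⟨fun n => ⌊3 * R n / ν⌋₊, fun n => (le_div_iff₀' n0).1 (Nat.floor_le (by positivity)), fun n => by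
      have := (div_lt_iff₀' n0).1 (Nat.lt_floor_add_one (3 * R n / ν))
      linarith⟩
  obtain ⟨E, hE, c⟩ : ∃ E, Pos (oP o) E ∧ ∀ᶠ n in UF,
      Cls (cE (o n).P (E n)) ((o n).w (k n)) (o n).x.g ((o n).f (o n).j - t n) 2 := by
    rcases ev_em fun n => (o n).f (o n).j ≤ t n with e | e
    · refine ⟨fun _ _ => True, Pos.of_ev (Eventually.of_forall fun _ _ _ => trivial), ?_⟩
      filter_upwards [e, h.alg] with n a b
      rw [Nat.sub_eq_zero_of_le a, ← mul_one (2 : ℝ)]
      exact (Cls.small fun ω hω => by simpa using (b.1.box ω hω).2.2.2.2.2.2.1).cE _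
    · obtain ⟨m, hm⟩ := not_na fun q => (an ν β κ o k R k (fun n => (o n).f (o n).j - t n) n0.le
        (by linarith [p.k1, p.gap]) h (in_all k R).left
        (Eventually.of_forall fun _ => Nat.sub_le _ _) q).false h.big one_half_pos (by
          filter_upwards [e, h.top, h.big.ev 2] with n a b d
          rw [Nat.cast_sub (not_le.1 a).le, ← b, Nat.cast_add]
          linarith [t2 n, p.n1])
      refine ⟨_, hm, hm.sure.mono fun n u s hs v hv e => ?_⟩
      have b1 := abs_lt.1 (u s hs).2
      have b2 := abs_lt.1 (u v hv).2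
      rw [e] at b1
      rw [← one_add_one_eq_two, add_div, abs_le]
      constructor <;> linarith [b1.1, b1.2, b2.1, b2.2]
  refine ⟨_, fun n _ => (o n).f (o n).j - t n, h.pull (dnS_cE hE),
    Eventually.of_forall fun _ => monotone_const, Eventually.of_forall fun n _ =>
      ⟨Nat.sub_le _ _, le_trans (mul_le_mul_of_nonneg_left ?_ n0.le) (t1 n)⟩,
    fun a ha => (h.big.sm 6).mono ?_⟩
  · rw [sub_le_iff_le_add]
    exact_mod_cast (by omega : (o n).f (o n).j ≤ t n + ((o n).f (o n).j - t n))
  · filter_upwards [c, ha] with n u v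
    exact ((u.ctx (fn_cE (Ob.w_mono v.1) _)).ch (u := 0) zero_le_two le_rfl).trans_eq (by norm_num)

theorem rowXRb : XRb := by
  intro an ν β κ o k R φ p h au mn a ha
  have n0 := p.n0
  refine Le.eps fun ε hε => ?_
  obtain ⟨i, i1, i2⟩ : ∃ i : ℕ → ℕ, Frac i R ∧ ∀ n, 3 * (i n : ℝ) ≤ ε * R n :=
    ⟨_, h.big.frac_floor (c := min (ε / 3) 1) (by positivity) (min_le_right _ _), fun n => by
      have := (Nat.floor_le (by positivity)).trans
        (mul_le_mul_of_nonneg_right (min_le_left (ε / 3) 1) (Nat.cast_nonneg (R n)))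
      linarith⟩
  have e0 : ∀ᶠ n in UF, (a n : ℝ) ≤ (o n).j :=
    (ha.and h.top).mono fun n u => by exact_mod_cast u.1.2.2.trans_eq u.2
  have i3 : ∀ n, ν * i n ≤ i n := fun n => mul_le_of_le_one_left (Nat.cast_nonneg _) p.n1.le
  rcases ev_em fun n => k n + i n ≤ a n with e | e
  · rcases ev_em fun n => φ n (a n) + i n ≤ (o n).f (o n).j with e' | e'
    · have e1 : ∀ᶠ n in UF, a n - i n + i n = a n := e.mono fun n u => by omega
      have e2 : In k R (fun n => a n - i n) fun n => a n - i n + i n := by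
        filter_upwards [e, ha] with n u v
        omega
      have e3 : ∀ᶠ n in UF, φ n (a n - i n + i n) + i n ≤ (o n).f (o n).j :=
        (e1.and e').mono fun n u => by rw [u.1]; exact u.2
      refine (an ν β κ o k R _ _ n0.le (by linarith [p.k1, p.gap]) h e2.left e3
        ((mn _ i i1 e2 e3).ctx (Eventually.of_forall fun n =>
          (Fn.fst _ _).pair ((Fn.fst _ _).right _)))).of_sub ?_
      filter_upwards [e, e1, e0] with n u v w
      rw [v, Nat.cast_sub (by omega), Nat.cast_add]
      linarith [i2 n, i3 n]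
    · refine Le.of_ev ?_
      filter_upwards [e', e0] with n u w
      have : ((o n).f (o n).j : ℝ) - φ n (a n) ≤ i n := by
        rw [sub_le_iff_le_add']; exact_mod_cast (not_le.1 u).le
      linarith [mul_le_mul_of_nonneg_left this n0.le, i2 n, i3 n, Nat.cast_nonneg (α := ℝ) (i n)]
  · refine Le.of_ev ?_
    filter_upwards [e, au.le, h.top] with n u v w
    have : (R n : ℝ) + a n ≤ (o n).j + i n := by exact_mod_cast (by omega)
    linarith [(v (a n)).2, i2 n]

end Pool.Agent.MP_5168f5_an.MX
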