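import Pool.Agent.MP_5168f5_an.MX.X1Spec
import Pool.Agent.MP_5168f5_an.MX.QDg

/-! Minimal rotation: a maximal auxiliary profile. -/

namespace Pool.Agent.MP_5168f5_an.MX

open H19 H17S H17F R4.K31 Filter Finset

namespace X1M1A

attribute [local irreducible] ch mi pb fl1

/-- A minimiser of a potential in a class that is closed under diagonal limits. -/
theorem ex_min {X : Type 1} {T : (ℕ → X) → Prop} (h : Dg T) (Ψ : X → ℝ)
    (h0 : ∀ x, T x → ∀ᶠ n in UF, 0 ≤ Ψ (x n)) {x : ℕ → X} (hx : T x) {C : ℝ}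
    (hC : ∀ᶠ n in UF, Ψ (x n) ≤ C) : ∃ y, T y ∧ ∀ (c : ℝ) (z : ℕ → X), 0 < c → T z →
      ¬∀ᶠ n in UF, Ψ (z n) + c ≤ Ψ (y n) := by
  let A : Set ℝ := {s | ∃ x, T x ∧ ∀ᶠ n in UF, Ψ (x n) ≤ s}
  have bd : BddBelow A := ⟨0, fun s ⟨x, a, b⟩ =>
    ((h0 x a).and b).exists.elim fun _ u => u.1.trans u.2⟩
  obtain ⟨y, a, b⟩ := h.diag (B := fun m x => Ψ x ≤ sInf A + 1 / (m + 1 : ℝ)) fun m => by
    obtain ⟨s, ⟨x, u, v⟩, w⟩ := Real.lt_sInf_add_pos (s := A) ⟨C, x, hx, hC⟩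
      (show (0 : ℝ) < 1 / (m + 1 : ℝ) by positivity)
    exact ⟨x, u, v.mono fun _ e => e.trans w.le⟩
  refine ⟨y, a, fun c z hc hz e => ?_⟩
  have : sInf A ≤ sInf A - c / 2 := csInf_le bd ⟨z, hz, by
    filter_upwards [e, DiagA.small (half_pos hc)] with n u v
    linarith [b n]⟩
  linarith

/-- The raised profile. -/
def up (φ : ℕ → ℕ) (a F : ℕ) (c : ℕ) : ℕ := if a ≤ c then max (φ c) F else φ c

theorem le_up (φ : ℕ → ℕ) (a F c : ℕ) : φ c ≤ up φ a F c := by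
  unfold up; split_ifs <;> omega

theorem up_mono {φ : ℕ → ℕ} (h : Monotone φ) (a F : ℕ) : Monotone (up φ a F) := fun c d e => by
  have := h e
  unfold up; split_ifs <;> omega

theorem up_le {φ : ℕ → ℕ} {a F c η : ℕ} (h : φ c ≤ η) (h' : F ≤ η) : up φ a F c ≤ η := by
  unfold up; split_ifs <;> omega

theorem up_or (φ : ℕ → ℕ) (a F c : ℕ) : up φ a F c = φ c ∨ (a ≤ c ∧ up φ a F c = F) := by
  unfold up; split_ifs <;> omega

/-- The potential. -/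
noncomputable def ps (η : ℝ) (k R : ℕ) (φ : ℕ → ℕ) : ℝ :=
  (∑ c ∈ Icc k (k + R), (η - φ c)) / R ^ 2

theorem ps_up {φ : ℕ → ℕ} (h : Monotone φ) {k R a i : ℕ} {c : ℝ} (η : ℝ) (hc : 0 < c)
    (hR : (1 : ℝ) ≤ R) (hi : c * R ≤ i) (h1 : k ≤ a) (h2 : a + i ≤ k + R) :
    ps η k R (up φ a (φ (a + i) + i)) + c ^ 2 ≤ ps η k R φ := by
  have e1 : ∑ d ∈ Ico a (a + i), (i : ℝ) ≤
      ∑ d ∈ Icc k (k + R), ((up φ a (φ (a + i) + i) d : ℝ) - φ d) := by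
    refine (sum_le_sum fun d hd => ?_).trans (sum_le_sum_of_subset_of_nonneg (fun d hd => ?_)
      fun d _ _ => sub_nonneg.2 (Nat.cast_le.2 (le_up _ _ _ _)))
    · obtain ⟨u, v⟩ := mem_Ico.1 hd
      have := h v.le
      have : φ d + i ≤ up φ a (φ (a + i) + i) d := by rw [up, if_pos u]; omega
      have : (φ d : ℝ) + i ≤ up φ a (φ (a + i) + i) d := by exact_mod_cast this
      linarith
    · simp only [mem_Ico, mem_Icc] at hd ⊢; omega
  rw [sum_const, Nat.card_Ico, add_tsub_cancel_left, nsmul_eq_mul, sum_sub_distrib] at e1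
  have r0 : (0 : ℝ) < R ^ 2 := by positivity
  rw [ps, ps, div_add' _ _ _ r0.ne', div_le_div_iff_of_pos_right r0, sum_sub_distrib,
    sum_sub_distrib]
  have : 0 ≤ c * R := by positivity
  nlinarith

theorem ps_le {φ : ℕ → ℕ} {k R : ℕ} {η ν : ℝ} (hν : 0 < ν) (hR : (1 : ℝ) ≤ R)
    (h : ∀ a, ν * (η - φ a) ≤ 3 * R) : ps η k R φ ≤ 6 / ν := by
  have e : ∑ c ∈ Icc k (k + R), (η - φ c) ≤ _ := sum_le_card_nsmul _ _ (3 * R / ν) fun c _ =>
    (le_div_iff₀' hν).2 (h c)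
  rw [Nat.card_Icc, show k + R + 1 - k = R + 1 by omega, nsmul_eq_mul] at e
  rw [ps, div_le_iff₀ (by positivity)]
  refine e.trans ?_
  rw [← mul_div_assoc, div_mul_eq_mul_div, div_le_div_iff_of_pos_right hν]
  push_cast
  nlinarith

theorem dg_aux {X : Type 1} (o : X → Ob) (k R : X → ℕ) (φ : X → ℕ → ℕ) (ν : ℝ) : Dg fun x : ℕ → X =>
    Aux ν (fun n => o (x n)) (fun n => k (x n)) (fun n => R (x n)) fun n => φ (x n) :=
  ((Dg.ev fun _ _ => rfl).and ((Dg.ev fun _ _ => rfl).and (Dg.in1 k R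
    (Dg.sm fun _ _ => rfl)))).congr fun _ =>
      ⟨fun h => ⟨h.mono, h.le, h.det⟩, fun h => ⟨h.1, h.2.1, h.2.2⟩⟩

variable {ν : ℝ} {o : ℕ → Ob} {k R a F : ℕ → ℕ} {φ : ℕ → ℕ → ℕ}

/-- On an event the profile can be raised. -/
theorem raise (hR : Big R) (h : Aux ν o k R φ) (hν : 0 ≤ ν) (ha : In k R a a)
    (hF : ∀ᶠ n in UF, F n ≤ (o n).f (o n).j) (e : ¬NA (oP o) (fun n => (o n).x.g)
      (fun n => 1 / 2 ^ F n) fun n => (o n).x.lz (a n) (φ n (a n))) :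
    ∃ E, Pos (oP o) E ∧ Aux ν (fun n => (o n).pull (cE (o n).P (E n)) id) k R
      fun n => up (φ n) (a n) (F n) := by
  obtain ⟨m, hm⟩ := not_na e
  refine ⟨_, hm, h.mono.mono fun n u => up_mono u _ _, (h.le.and hF).mono fun n u c =>
    ⟨up_le (u.1 c).1 u.2, le_trans (mul_le_mul_of_nonneg_left (sub_le_sub_left
      (Nat.cast_le.2 (le_up _ _ _ _)) _) hν) (u.1 c).2⟩, fun b hb => ?_⟩
  have h1 := Sm.near1 (P := fun n => cE (o n).P fun ω =>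
      |(o n).x.g ω - m n ((o n).x.lz (a n) (φ n (a n)) ω)| < 1 / 2 ^ F n)
    (x := fun n => (o n).x.g) (G := fun n => (o n).x.lz (a n) (φ n (a n))) (j := F) hR
    (hR.sub one_le_two) (hm.sure.mono fun n u v hv w hw c => by
      have a1 := abs_lt.1 (u v hv).2
      have a2 := abs_lt.1 (u w hw).2
      rw [c] at a1
      rw [show (2 : ℝ) / 2 ^ F n = 1 / 2 ^ F n + 1 / 2 ^ F n by ring, abs_le]
      constructor <;> linarith [a1.1, a1.2, a2.1, a2.2])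
  have h2 := (dnS_cE hm).sm_ch (h.det a ha)
  have h3 := (dnS_cE hm).sm_ch (h.det b hb)
  refine ((h1.add h2).add h3).mono (.of_forall fun n => ?_)
  simp only [id]
  generalize cE (o n).P _ = Q
  have p1 := ch_nonneg (P := Q) (fun ω => fl1 (F n) ((o n).x.g ω))
    ((o n).x.lz (a n) (φ n (a n)))
  have p2 := ch_nonneg (P := Q) (fun ω => fl1 (φ n (a n)) ((o n).x.g ω)) ((o n).w (a n))
  have p3 := ch_nonneg (P := Q) (fun ω => fl1 (φ n (b n)) ((o n).x.g ω)) ((o n).w (b n))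
  show ch Q (fun ω => fl1 (up (φ n) (a n) (F n) (b n)) ((o n).x.g ω)) ((o n).w (b n)) ≤
    ch Q (fun ω => fl1 (F n) ((o n).x.g ω)) ((o n).x.lz (a n) (φ n (a n))) +
    ch Q (fun ω => fl1 (φ n (a n)) ((o n).x.g ω)) ((o n).w (a n)) +
    ch Q (fun ω => fl1 (φ n (b n)) ((o n).x.g ω)) ((o n).w (b n))
  rcases up_or (φ n) (a n) (F n) (b n) with u | ⟨u, v⟩
  · rw [u]; linarith
  · rw [v]
    have q1 : ch Q (fun ω => fl1 (F n) ((o n).x.g ω)) ((o n).w (b n)) ≤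
        ch Q (fun ω => fl1 (F n) ((o n).x.g ω)) ((o n).w (a n)) :=
      ch_anti fun _ _ _ _ e =>
        Prod.ext (congrArg (·.1) e :) (fl1_eq_of_le u (congrArg Prod.snd e))
    have q2 := ch_drop (P := Q) (fun ω => fl1 (F n) ((o n).x.g ω))
      (fun ω => fl1 (φ n (a n)) ((o n).x.g ω)) ((o n).w (a n))
    have q3 : ch Q (fun ω => fl1 (F n) ((o n).x.g ω)) (fun ω =>
        (fl1 (φ n (a n)) ((o n).x.g ω), (o n).w (a n) ω)) ≤
        ch Q (fun ω => fl1 (F n) ((o n).x.g ω)) ((o n).x.lz (a n) (φ n (a n))) :=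
      ch_anti fun _ _ _ _ e => by
        simp only [Ob.w, Pl.lz, Pl.zg, Prod.mk.injEq] at e ⊢; tauto
    linarith

end X1M1A

open X1M1A in
theorem rowXM1 : XM1 := by
  intro hd ν β κ o k R φ hν h1 h2
  obtain ⟨y, ⟨a1, a2⟩, hy⟩ := ex_min (X := (Ob × ℕ × ℕ) × (ℕ → ℕ))
    (((hd ν β κ).comp Prod.fst).and (dg_aux (·.1.1) (·.1.2.1) (·.1.2.2) (·.2) ν))
    (fun x => ps (x.1.1.f x.1.1.j) x.1.2.1 x.1.2.2 x.2)
    (fun x u => u.2.le.mono fun n v => div_nonneg (sum_nonneg fun c _ =>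
      sub_nonneg.2 (Nat.cast_le.2 (v c).1)) (sq_nonneg _))
    (x := fun n => ((o n, k n, R n), φ n)) ⟨h1, h2⟩ (C := 6 / ν)
    ((h2.le.and (h1.big.ev 1)).mono fun n v => ps_le hν v.2 fun c => (v.1 c).2)
  refine ⟨_, _, _, _, a1, a2, fun a i ⟨_, c, hc, hi⟩ ha hF => by_contra fun e => ?_⟩
  obtain ⟨E, p, q⟩ := raise a1.big a2 hν.le ha.left hF e
  refine hy (c ^ 2) (fun n => (((y n).1.1.pull (cE (y n).1.1.P (E n)) id, (y n).1.2),
    up (y n).2 (a n) ((y n).2 (a n + i n) + i n))) (by positivity) ⟨a1.pull (dnS_cE p), q⟩ ?_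
  filter_upwards [a2.mono, a1.big.ev 1, hi, ha] with n u v w z
  exact ps_up u _ hc v w z.1 z.2.2

end Pool.Agent.MP_5168f5_an.MX
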