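import Pool.Agent.MP_5168f5_an.MX.X1Spec
import Pool.Agent.MP_5168f5_an.R4.Api

/-! Minimal rotation: the regularised profile. -/

namespace Pool.Agent.MP_5168f5_an.MX

open H19 H17S H17F R4.K31 Filter

namespace X1

/-- Good points of a bounded profile. -/
theorem grid {φ : ℕ → ℕ} {η N u : ℕ} (j i : ℕ) (h : ∀ a, φ a ≤ η ∧ η < φ a + N * (u + 1)) :
    ∃ g : ℕ → ℕ, Monotone g ∧ ∀ a ≤ j, a ≤ g a ∧ g a ≤ j ∧ g a ≤ a + N * i ∧
      (g a < j → g a + i ≤ j ∧ φ (g a + i) ≤ φ (g a) + u) := by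
  classical
  let p : ℕ → Prop := fun c => c < j → c + i ≤ j ∧ φ (c + i) ≤ φ c + u
  have ex : ∀ a, ∃ c, a ≤ c ∧ p c := fun a =>
    ⟨max a j, le_max_left _ _, fun h => absurd h (not_lt.2 (le_max_right _ _))⟩
  have sp := fun a => Nat.find_spec (ex a)
  have hj : ∀ a ≤ j, Nat.find (ex a) ≤ j := fun a ha =>
    Nat.find_min' _ ⟨ha, fun h => absurd h (lt_irrefl _)⟩
  refine ⟨fun a => Nat.find (ex a), fun a b e => Nat.find_min' _ ⟨e.trans (sp b).1, (sp b).2⟩,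
    fun a ha => ⟨(sp a).1, hj a ha, ?_, (sp a).2⟩⟩
  by_contra c
  have c1 : a + N * i < Nat.find (ex a) := not_le.1 c
  have c2 := hj a ha
  have : ∀ t ≤ N, φ a + t * (u + 1) ≤ φ (a + t * i) := fun t ht => by
    induction t with
    | zero => simp
    | succ t ih =>
      have h3 := ih (by omega)
      have h5 := Nat.mul_le_mul_right i ht
      rw [add_mul, one_mul] at h5
      have h4 := Nat.find_min (ex a) (show a + t * i < Nat.find (ex a) by omega)
      rw [add_mul, add_mul, one_mul, one_mul, ← add_assoc, ← add_assoc a]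
      by_contra h6
      exact h4 ⟨by omega, fun _ => ⟨by omega, by omega⟩⟩
  have h1 := this N le_rfl
  have h2 := (h (a + N * i)).1
  have h3 := (h a).2
  omega

theorem prof (φ : ℕ → ℕ) (η N u j i : ℕ) : ∃ f g : ℕ → ℕ, f j = η ∧ (Monotone φ →
    (∀ a, φ a ≤ η ∧ η < φ a + N * (u + 1)) → Monotone f ∧ ∀ a ≤ j, a ≤ g a ∧ g a ≤ j ∧
      g a ≤ a + N * i ∧ φ (g a) ≤ f a ∧ f a + φ j ≤ η + φ (g a) ∧
      (f a < η → f a = φ (g a) ∧ g a + i ≤ j ∧ φ (g a + i) ≤ f a + u)) := by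
  by_cases h : ∀ a, φ a ≤ η ∧ η < φ a + N * (u + 1)
  · obtain ⟨g, h1, h2⟩ := grid j i h
    refine ⟨fun a => if g a < j then φ (g a) else η, g, if_neg (not_lt.2 (h2 j le_rfl).1),
      fun hm _ => ⟨fun a b e => ?_, fun a ha => ?_⟩⟩
    · have a1 := h1 e
      have a2 := hm a1
      have a3 := (h (g a)).1
      dsimp only
      split_ifs <;> omega
    · obtain ⟨a1, a2, a3, a4⟩ := h2 a ha
      have a5 := (h (g a)).1
      have a6 := (h j).1
      refine ⟨a1, a2, a3, ?_⟩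
      dsimp only
      split_ifs with c
      · exact ⟨le_rfl, by omega, fun _ => ⟨rfl, a4 c⟩⟩
      · exact ⟨a5, by rw [le_antisymm a2 (not_lt.1 c)], fun e => absurd e (lt_irrefl _)⟩
  · exact ⟨fun _ => η, id, rfl, fun _ e => absurd e h⟩

theorem ch_ref {Ω β : Type} {P : FP Ω} {x : Ω → ℝ} {G : Ω → β} {a b : ℕ} (e : a ≤ b)
    (h : Fn P (fun ω => fl1 a (x ω)) G) : ch P (fun ω => fl1 b (x ω)) G ≤ (b - a) * lg := by
  obtain ⟨c, rfl⟩ := Nat.exists_eq_add_of_le e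
  have := ch_det (det_ref (i := c) h)
  rw [log_two_pow] at this
  push_cast; linarith

theorem ch_w (o : Ob) {a b c e : ℕ} (h1 : a ≤ b) (h2 : c ≤ e) :
    ch o.P (fun ω => fl1 e (o.x.g ω)) (o.w a) ≤
      ch o.P (fun ω => fl1 c (o.x.g ω)) (o.w b) + (e - c) * lg + (b - a) * lg := by
  have a1 := ch_tri' (P := o.P) (fun ω => fl1 e (o.x.g ω)) (o.w a) (o.w b)
  have a2 := ch_tri (P := o.P) (fun ω => fl1 e (o.x.g ω)) (fun ω => fl1 c (o.x.g ω)) (o.w b)
  have a3 := ch_ref (P := o.P) h2 (Fn.fst (fun ω => fl1 c (o.x.g ω)) (o.w b))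
  have a4 := ch_ref (P := o.P) (x := o.x.z) (G := o.w a) h1 (Fn.comp Prod.snd _)
  have a5 : ch o.P (o.w b) (o.w a) ≤ ch o.P (fun ω => fl1 b (o.x.z ω)) (o.w a) :=
    ch_mono (Fn.comp (fun u => (u.2.1, u.1)) fun ω => (fl1 b (o.x.z ω), o.w a ω))
  linarith

attribute [local irreducible] ch mi pb fl1

/-- The same system with another profile. -/
@[reducible] def setf (o : Ob) (f : ℕ → ℕ) : Ob := { o with f := f }

variable {ν β κ : ℝ} {o : ℕ → Ob} {k R : ℕ → ℕ} {φ f : ℕ → ℕ → ℕ}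

theorem top_setf (o : Ob) {f : ℕ → ℕ} (e : f o.j = o.f o.j) : (setf o f).top ν = o.top ν := by
  simp only [Ob.top, Ob.S, Ob.pm, e]

theorem xt_setf (h : XT ν β κ o k R) (e : ∀ n, f n (o n).j = (o n).f (o n).j)
    (m : ∀ᶠ n in UF, Monotone (f n)) : XT ν β κ (fun n => setf (o n) (f n)) k R := by
  refine ⟨⟨h.big, ?_, fun W Q ρ d => h.hgt W Q ρ d⟩, h.top, h.lgM,
    fun W Q ρ d a L γ K A τ h1 h2 h3 => ?_⟩
  · filter_upwards [h.alg, m] with n u v
    exact ⟨⟨fun ω hω => by simpa only [e] using u.1.box ω hω, v,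
      by simpa only [e] using u.1.flo⟩, u.2⟩
  · exact (h.opt W Q ρ d a L γ K A τ h1 h2
      (h3.mono fun n u => ⟨u.fθ, u.fz, u.fA, u.fτ, u.bd, u.pr⟩)).congr
      (Eventually.of_forall fun _ => rfl) (Eventually.of_forall fun n =>
        top_setf ((o n).pull (Q n) (ρ n)) (e n))

/-- The maximality holds for slowly vanishing steps. -/
theorem mn_unif (h : Mn o k R φ) (hR : Big R) : ∃ q : ℕ → ℕ, Big q ∧ ∀ a i : ℕ → ℕ,
    (∀ n, i n = R n / (q n + 1) ^ 2) → In k R a (fun n => a n + i n) →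
    (∀ᶠ n in UF, φ n (a n + i n) + i n ≤ (o n).f (o n).j) →
    NA (oP o) (fun n => (o n).x.g) (fun n => 1 / 2 ^ (φ n (a n + i n) + i n))
      fun n => (o n).x.lz (a n) (φ n (a n)) := by
  obtain ⟨q, h1, h2⟩ := KSA.spill (fun q n => ∀ a, (k n ≤ a ∧ a ≤ a + R n / (q + 1) ^ 2 ∧
      a + R n / (q + 1) ^ 2 ≤ k n + R n) ∧
      φ n (a + R n / (q + 1) ^ 2) + R n / (q + 1) ^ 2 ≤ (o n).f (o n).j → ∀ m : _ → ℝ,
      pb (o n).P (fun ω => ¬1 / 2 ^ (φ n (a + R n / (q + 1) ^ 2) + R n / (q + 1) ^ 2) ≤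
        |(o n).x.g ω - m ((o n).x.lz a (φ n a) ω)|) ≤ 1 / (q + 1 : ℝ)) fun q =>
    R4.unif (A := fun _ => ℕ) fun a e => na_iff.1 (h a _ (hR.frac_div (K := (q + 1) ^ 2)
      (by positivity)) (e.mono fun _ u => u.1) (e.mono fun _ u => u.2)) _ (by positivity)
  refine ⟨q, h1, fun a i e1 e2 e3 m ε hε => ?_⟩
  filter_upwards [h2, e2, e3, h1.ev (1 / ε)] with n u v w y
  rw [e1] at v w ⊢
  refine (u _ le_rfl (a n) ⟨v, w⟩ (m n)).trans ?_
  rw [div_le_iff₀ hε] at y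
  rw [div_le_iff₀ (by positivity)]
  nlinarith

theorem sm_div {q : ℕ → ℕ} (h : Big q) (C : ℝ) : Sm R fun n => C * (R n / (q n + 1)) :=
  fun ε hε => (h.ev (C / ε)).mono fun n u => by
    rw [div_le_iff₀ hε] at u
    dsimp only
    rw [zero_add, ← mul_div_assoc, div_le_iff₀ (by positivity)]
    nlinarith [Nat.cast_nonneg (α := ℝ) (R n), mul_nonneg hε.le (Nat.cast_nonneg (α := ℝ) (R n))]

end X1

open X1 in
theorem rowXNd : XNd := by
  intro ν β κ o k R φ n0 h ha hm hb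
  obtain ⟨q, hq, hu⟩ := mn_unif hm h.big
  obtain ⟨C, hC⟩ := exists_nat_gt (3 / ν)
  have c0 : (0 : ℝ) < C := lt_trans (by positivity) hC
  rw [div_lt_iff₀ n0] at hC
  choose f g f1 f2 using fun n => prof (φ n) ((o n).f (o n).j) (C * (q n + 1)) (R n / (q n + 1))
    (o n).j (R n / (q n + 1) ^ 2)
  have f3 := (ha.mono.and ha.le).mono fun n u => f2 n u.1 fun a => ⟨(u.2 a).1, by
    have a1 : (R n : ℝ) < (q n + 1 : ℕ) * ((R n / (q n + 1) : ℕ) + 1) := by
      exact_mod_cast Nat.lt_mul_div_succ (R n) (Nat.succ_pos (q n))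
    have a2 := mul_lt_mul_of_pos_left a1 c0
    have a3 : ((o n).f (o n).j : ℝ) - φ n a ≤ C * R n := le_of_mul_le_mul_left
      ((u.2 a).2.trans (by nlinarith [Nat.cast_nonneg (α := ℝ) (R n)])) n0
    have a4 : ((o n).f (o n).j : ℝ) < φ n a + (C * (q n + 1) : ℕ) * ((R n / (q n + 1) : ℕ) + 1) := by
      rw [Nat.cast_mul]; linarith
    exact_mod_cast a4⟩
  have i1 : ∀ n, ((R n / (q n + 1) : ℕ) : ℝ) ≤ R n / (q n + 1) := fun n => by
    simpa using Nat.cast_div_le (α := ℝ) (m := R n) (n := q n + 1)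
  have i2 : ∀ n, (q n + 1 : ℝ) * (R n / (q n + 1) ^ 2 : ℕ) ≤ R n / (q n + 1) := fun n => by
    have := Nat.cast_div_le (α := ℝ) (m := R n) (n := (q n + 1) ^ 2)
    push_cast at this
    refine (mul_le_mul_of_nonneg_left this (by positivity)).trans (le_of_eq ?_)
    field_simp
  have f4 : ∀ a, In k R a a → ∀ᶠ n in UF, _ := fun a e =>
    (f3.and (e.and h.top)).mono fun n u => u.1.2 (a n) (u.2.2 ▸ u.2.1.2.2)
  have g1 : ∀ a, In k R a a → In k R (fun n => g n (a n)) fun n => g n (a n) := fun a e => by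
    filter_upwards [f4 a e, e, h.top] with n u v w
    omega
  have hj : In k R (fun n => (o n).j) fun n => (o n).j := h.top.mono fun n u => by
    dsimp only; omega
  refine ⟨fun n => setf (o n) (f n), xt_setf h f1 (f3.mono fun _ u => u.1),
    ⟨fun a e => ?_, fun a b e1 e2 e3 => ?_⟩, fun a e => ?_⟩
  · refine Le.of3 (ha.det _ (g1 a e)) ((hb _ hj).smul (c := lg / ν) (div_pos lg_pos n0).le)
      (sm_div hq (C * lg)) ?_
    filter_upwards [f4 a e] with n u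
    have a1 := ch_w (o n) u.1 u.2.2.2.1
    have a2 : (g n (a n) : ℝ) ≤ a n + C * (q n + 1) * (R n / (q n + 1) ^ 2 : ℕ) := by
      exact_mod_cast u.2.2.1
    have a3 : (f n (a n) : ℝ) + φ n (o n).j ≤ (o n).f (o n).j + φ n (g n (a n)) := by
      exact_mod_cast u.2.2.2.2.1
    have a4 := mul_le_mul_of_nonneg_left (i2 n) c0.le
    have a5 : lg / ν * (ν * ((o n).f (o n).j - φ n (o n).j)) =
        ((o n).f (o n).j - φ n (o n).j) * lg := by field_simp
    have a6 := mul_le_mul_of_nonneg_right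
      (show (g n (a n) : ℝ) - a n ≤ C * (R n / (q n + 1)) by linarith) lg_pos.le
    have a7 := mul_le_mul_of_nonneg_right (show (f n (a n) : ℝ) - φ n (g n (a n)) ≤
      (o n).f (o n).j - φ n (o n).j by linarith) lg_pos.le
    change ch (o n).P (fun ω => fl1 (f n (a n)) ((o n).x.g ω)) ((o n).w (a n)) - 0 ≤ _
    rw [a5, sub_self, mul_zero, mul_zero]
    linarith
  · obtain ⟨-, c, hc, e4⟩ := id e2
    have e5 : ∀ᶠ n in UF, (a n ≤ g n (a n) ∧ f n (a n) = φ n (g n (a n))) ∧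
        g n (a n) + R n / (q n + 1) ^ 2 ≤ (o n).j ∧
        φ n (g n (a n) + R n / (q n + 1) ^ 2) + R n / (q n + 1) ^ 2 ≤ f n (a n) + b n ∧
        f n (a n) + b n ≤ (o n).f (o n).j := by
      filter_upwards [f4 a e1, e3, e4, (h.big.frac e2).ev 1, sm_div (R := R) hq 2 c hc]
        with n u v w y t
      change f n (a n) + b n ≤ f n (o n).j at v
      rw [f1] at v
      have a1 : 1 ≤ b n := by exact_mod_cast y
      obtain ⟨a2, a3, a4⟩ := u.2.2.2.2.2 (by omega)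
      have a5 : R n / (q n + 1) + R n / (q n + 1) ^ 2 ≤ b n := by
        have : ((R n / (q n + 1) : ℕ) : ℝ) + (R n / (q n + 1) ^ 2 : ℕ) ≤ b n := by
          nlinarith [i1 n, i2 n, mul_nonneg (Nat.cast_nonneg (α := ℝ) (q n))
            (Nat.cast_nonneg (α := ℝ) (R n / (q n + 1) ^ 2))]
        exact_mod_cast this
      exact ⟨⟨u.1, a2⟩, a3, by omega, v⟩
    refine (hu (fun n => g n (a n)) _ (fun _ => rfl) ?_
      (e5.mono fun _ u => u.2.2.1.trans u.2.2.2)).mono (e5.mono fun n u => ?_)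
      (e5.mono fun n u => fn_lz u.1.1 u.1.2.le)
    · filter_upwards [e5, g1 a e1, h.top] with n u v w
      exact ⟨v.1, Nat.le_add_right _ _, w ▸ u.2.1⟩
    · exact one_div_le_one_div_of_le (by positivity) (pow_le_pow_right₀ one_le_two u.2.2.1)
  · refine (hb a e).of_sub ?_
    filter_upwards [f4 a e, ha.mono] with n u v
    have a1 : (φ n (a n) : ℝ) ≤ f n (a n) := by exact_mod_cast (v u.1).trans u.2.2.2.1
    change ν * ((f n (o n).j : ℝ) - f n (a n)) - 3 * (((o n).j : ℝ) - a n) ≤ _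
    rw [f1]
    nlinarith

end Pool.Agent.MP_5168f5_an.MX
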