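import Pool.Agent.MP_5168f5_an.MX.QApi
import Pool.Agent.MP_5168f5_an.MX.Dg

/-! Minimal rotation: an auxiliary precision profile `φ` and the parts of the block `SX1`. -/

namespace Pool.Agent.MP_5168f5_an.MX

open H19 H17S H17F R4.K31 Filter

/-- The frame is known to the depth `φ a` from the line and the height window of level `a`. -/
structure Aux (ν : ℝ) (o : ℕ → Ob) (k R : ℕ → ℕ) (φ : ℕ → ℕ → ℕ) : Prop where
  mono : ∀ᶠ n in UF, Monotone (φ n)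
  le : ∀ᶠ n in UF, ∀ a, φ n a ≤ (o n).f (o n).j ∧ ν * ((o n).f (o n).j - φ n a) ≤ 3 * R n
  det : ∀ a : ℕ → ℕ, In k R a a → Sm R fun n =>
    ch (o n).P (fun ω => fl1 (φ n (a n)) ((o n).x.g ω)) ((o n).w (a n))

/-- The profile cannot be raised. -/
def Mn (o : ℕ → Ob) (k R : ℕ → ℕ) (φ : ℕ → ℕ → ℕ) : Prop := ∀ a i : ℕ → ℕ, Frac i R →
  In k R a (fun n => a n + i n) → (∀ᶠ n in UF, φ n (a n + i n) + i n ≤ (o n).f (o n).j) →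
  NA (oP o) (fun n => (o n).x.g) (fun n => 1 / 2 ^ (φ n (a n + i n) + i n))
    fun n => (o n).x.lz (a n) (φ n (a n))

/-- The profile is close to the top precision near the top level. -/
def Rb (ν : ℝ) (o : ℕ → Ob) (k R : ℕ → ℕ) (φ : ℕ → ℕ → ℕ) : Prop := ∀ a : ℕ → ℕ, In k R a a →
  Le R (fun n => ν * ((o n).f (o n).j - φ n (a n))) fun n => 3 * ((o n).j - a n)

/-- The angle bound. -/
def XAng : Prop := ∀ (ν β κ : ℝ) (o : ℕ → Ob) (k R a ph : ℕ → ℕ), 0 ≤ ν → 0 ≤ β →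
  XT ν β κ o k R → In k R a a → (∀ᶠ n in UF, ph n ≤ (o n).f (o n).j) →
  NA (oP o) (fun n => (o n).x.g) (fun n => 1 / 2 ^ ph n) (fun n => (o n).w (a n)) →
  Le R (fun n => ν * ((o n).f (o n).j - ph n)) fun n => 2 * ((o n).j - a n)

/-- Extremal systems are closed under diagonal limits. -/
def XDg : Prop := ∀ ν β κ : ℝ, Dg fun y : ℕ → Ob × ℕ × ℕ =>
  XT ν β κ (fun n => (y n).1) (fun n => (y n).2.1) fun n => (y n).2.2

/-- A first profile. -/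
def XM0 : Prop := XAng → ∀ (ν β κ : ℝ) (o : ℕ → Ob) (k R : ℕ → ℕ), Par ν β κ → XT ν β κ o k R →
  ∃ (o' : ℕ → Ob) (φ : ℕ → ℕ → ℕ), XT ν β κ o' k R ∧ Aux ν o' k R φ

/-- A maximal profile. -/
def XM1 : Prop := XDg → ∀ (ν β κ : ℝ) (o : ℕ → Ob) (k R : ℕ → ℕ) (φ : ℕ → ℕ → ℕ), 0 < ν →
  XT ν β κ o k R → Aux ν o k R φ → ∃ (o' : ℕ → Ob) (k' R' : ℕ → ℕ) (φ' : ℕ → ℕ → ℕ),
    XT ν β κ o' k' R' ∧ Aux ν o' k' R' φ' ∧ Mn o' k' R' φ'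

/-- The rotation bound for a maximal profile. -/
def XRb : Prop := XAng → ∀ (ν β κ : ℝ) (o : ℕ → Ob) (k R : ℕ → ℕ) (φ : ℕ → ℕ → ℕ), Par ν β κ →
  XT ν β κ o k R → Aux ν o k R φ → Mn o k R φ → Rb ν o k R φ

/-- The regularised profile. -/
def XNd : Prop := ∀ (ν β κ : ℝ) (o : ℕ → Ob) (k R : ℕ → ℕ) (φ : ℕ → ℕ → ℕ), 0 < ν →
  XT ν β κ o k R → Aux ν o k R φ → Mn o k R φ → Rb ν o k R φ → ∃ o' : ℕ → Ob, XR ν β κ o' k R

theorem glueX1 (an : XAng) (dg : XDg) (m0 : XM0) (m1 : XM1) (rb : XRb) (nd : XNd) : SX1 := by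
  intro ν β κ o k R p h
  obtain ⟨o, φ, h1, h2⟩ := m0 an ν β κ o k R p h
  obtain ⟨o, k, R, φ, h3, h4, h5⟩ := m1 dg ν β κ o k R φ p.n0 h1 h2
  exact (nd ν β κ o k R φ p.n0 h3 h4 h5 (rb an ν β κ o k R φ p h3 h4 h5)).imp fun _ u => ⟨k, R, u⟩

end Pool.Agent.MP_5168f5_an.MX
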