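import Pool.Agent.MP_5168f5_an.MX.QApi
import Pool.Agent.MP_5168f5_an.MX.FinA

/-! Rescaling a cell to unit size. -/

namespace Pool.Agent.MP_5168f5_an.MX

open H19 H17S H17F R4.K31 Filter

theorem fl1_fr (j k : ℕ) (s : ℝ) :
    fl1 k (Int.fract (2 ^ j * s)) = fl1 (j + k) s - 2 ^ k * fl1 j s := by
  rw [Int.fract, fl1, fl1, fl1, mul_sub, show (2 : ℝ) ^ k * (⌊2 ^ j * s⌋ : ℤ) =
    ((2 ^ k * ⌊(2 : ℝ) ^ j * s⌋ : ℤ) : ℝ) by push_cast; ring, Int.floor_sub_intCast, pow_add,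
    ← mul_assoc, mul_comm ((2 : ℝ) ^ k)]

theorem rn_add (j k : ℕ) (s : ℝ) :
    rn (j + k) s = rn j s + rn k (Int.fract (2 ^ j * s)) / 2 ^ j := by
  simp only [rn, fl1_fr, pow_add]; push_cast; field_simp; ring

theorem fr_eq (j : ℕ) (s : ℝ) : Int.fract (2 ^ j * s) = 2 ^ j * s - fl1 j s := rfl

theorem eq_of_fr {j : ℕ} {s t : ℝ} (h : Int.fract (2 ^ j * s) = Int.fract (2 ^ j * t))
    (h' : fl1 j s = fl1 j t) : s = t := by
  rw [fr_eq, fr_eq, h', sub_left_inj] at h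
  exact mul_left_cancel₀ (by positivity) h

theorem fl1_fr_iff {j k : ℕ} {s t : ℝ} (h : fl1 j s = fl1 j t) :
    fl1 k (Int.fract (2 ^ j * s)) = fl1 k (Int.fract (2 ^ j * t)) ↔ fl1 (j + k) s = fl1 (j + k) t := by
  rw [fl1_fr, fl1_fr, h, sub_left_inj]

theorem rn_zero {s : ℝ} (h : 0 ≤ s ∧ s < 1) : rn 0 s = 0 := by
  simp [rn, fl1_zero_of_box h.1 h.2]

theorem Cls.scale {Ω β : Type} {P : FP Ω} {G : Ω → β} {X X' u : Ω → ℝ} {s j : ℕ} {K : ℝ}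
    (e : ∀ ω, 2 ^ s * X ω = X' ω + u ω) (hu : Fn P u G) : Cls P G X (s + j) K ↔ Cls P G X' j K := by
  refine forall₂_congr fun a ha => forall₃_congr fun b hb q => ?_
  have h : X' a - X' b = 2 ^ s * (X a - X b) := by linarith [e a, e b, hu a ha b hb q]
  rw [h, abs_mul, abs_of_pos (show (0 : ℝ) < 2 ^ s by positivity), pow_add, mul_comm ((2 : ℝ) ^ s),
    ← div_div, le_div_iff₀ (by positivity), mul_comm]

namespace Ob

variable (o : Ob) (k : ℕ)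

/-- The coordinates inside the cell of level `k`. -/
noncomputable def zx : Pl o.Ω (o.T × (ℤ × ℤ) × ℤ × ℤ × ℤ × ℤ) :=
  ⟨o.S k, fun ω => Int.fract (2 ^ (k + o.d) * o.x.y1 k ω),
    fun ω => Int.fract (2 ^ (k + (o.d + o.f k)) * o.x.nm k (o.f k) ω),
    fun ω => Int.fract (2 ^ o.d * o.x.e1 ω),
    fun ω => Int.fract (2 ^ (o.d + o.f k) * o.x.tl (o.f k) ω),
    fun ω => Int.fract (2 ^ k * o.x.z ω), fun ω => Int.fract (2 ^ o.f k * o.x.g ω)⟩

/-- The system inside the cell of level `k`. -/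
@[reducible] noncomputable def zm : Ob :=
  { Ω := o.Ω, T := _, P := o.P, x := o.zx k, M := o.M, j := o.j - k, d := 0,
    f := fun i => o.f (k + i) - o.f k }

/-- Absolute depths. -/
def sh (p : Pm) : Pm := ⟨k + p.i, o.f k + p.f, k + o.d + p.t, o.d + p.E,
  k + (o.d + o.f k) + p.D, o.d + o.f k + p.c⟩

theorem zx_y1 (i : ℕ) (ω : o.Ω) : 2 ^ (k + o.d) * o.x.y1 (k + i) ω = (o.zx k).y1 i ω +
    (fl1 (k + o.d) (o.x.y1 k ω) + rn i ((o.zx k).z ω) * fl1 o.d (o.x.e1 ω)) := by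
  simp only [zx, Pl.y1, rn_add, fr_eq o.d, fr_eq (k + o.d)]
  simp only [pow_add]; field_simp; ring

theorem zx_tl (i : ℕ) (ω : o.Ω) : 2 ^ (o.d + o.f k) * o.x.tl (o.f k + i) ω = (o.zx k).tl i ω +
    (fl1 (o.d + o.f k) (o.x.tl (o.f k) ω) - rn i ((o.zx k).g ω) * fl1 o.d (o.x.e1 ω)) := by
  simp only [zx, Pl.tl, rn_add, fr_eq o.d, fr_eq (o.d + o.f k)]
  simp only [pow_add]; field_simp; ring

theorem zx_nm (i f : ℕ) (ω : o.Ω) :
    2 ^ (k + (o.d + o.f k)) * o.x.nm (k + i) (o.f k + f) ω = (o.zx k).nm i f ω +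
    (fl1 (k + (o.d + o.f k)) (o.x.nm k (o.f k) ω) +
      rn i ((o.zx k).z ω) * fl1 (o.d + o.f k) (o.x.tl (o.f k) ω) - rn f ((o.zx k).g ω) *
        (fl1 (k + o.d) (o.x.y1 k ω) + rn i ((o.zx k).z ω) * fl1 o.d (o.x.e1 ω))) := by
  simp only [zx, Pl.nm, Pl.tl, Pl.y1, rn_add, fr_eq o.d, fr_eq (o.d + o.f k), fr_eq (k + o.d),
    fr_eq (k + (o.d + o.f k))]
  simp only [pow_add]; field_simp; ring

variable {o k} {β : Type} {P : FP o.Ω} {G : o.Ω → β} {p : Pm} {K : ℝ}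

theorem zg_iff {a b : o.Ω} (h : o.S k a = o.S k b) (i f : ℕ) :
    (o.zx k).zg i f a = (o.zx k).zg i f b ↔
      o.x.zg (k + i) (o.f k + f) a = o.x.zg (k + i) (o.f k + f) b := by
  simp only [Pl.zg, Prod.mk.injEq]
  exact and_congr (fl1_fr_iff (congrArg (·.2.1.1) h)) (fl1_fr_iff (congrArg (·.2.1.2) h))

theorem kn_zm (h : Fn P (o.S k) G) : Kn P o.x G (o.sh k p) K ↔ Kn P (o.zx k) G p K := by
  have z : Fn P (o.x.zg (k + p.i) (o.f k + p.f)) G ↔ Fn P ((o.zx k).zg p.i p.f) G :=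
    forall₂_congr fun a ha => forall₃_congr fun b hb q => (zg_iff (h a ha b hb q) _ _).symm
  have u : Fn P ((o.zx k).zg p.i p.f) G → ∀ φ : o.T × (ℤ × ℤ) × ℤ × ℤ × ℤ × ℤ → ℤ × ℤ → ℝ,
      Fn P (fun ω => φ (o.S k ω) ((o.zx k).zg p.i p.f ω)) G := fun w φ a ha b hb q => by
    simp only [h a ha b hb q, w a ha b hb q]
  have c : Fn P ((o.zx k).zg p.i p.f) G →
      (Cls P G (o.x.y1 (k + p.i)) (k + o.d + p.t) K ↔ Cls P G ((o.zx k).y1 p.i) p.t K) ∧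
      (Cls P G o.x.e1 (o.d + p.E) K ↔ Cls P G (o.zx k).e1 p.E K) ∧
      (Cls P G (o.x.nm (k + p.i) (o.f k + p.f)) (k + (o.d + o.f k) + p.D) K ↔
        Cls P G ((o.zx k).nm p.i p.f) p.D K) ∧
      (Cls P G (o.x.tl (o.f k + p.f)) (o.d + o.f k + p.c) K ↔
        Cls P G ((o.zx k).tl p.f) p.c K) := fun w =>
    ⟨Cls.scale (o.zx_y1 k p.i) (u w fun s v => s.2.2.1 + v.1 / 2 ^ p.i * s.2.2.2.1),
      Cls.scale (fun _ => (sub_add_cancel _ _).symm) (u w fun s _ => s.2.2.2.1),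
      Cls.scale (o.zx_nm k p.i p.f) (u w fun s v => s.2.2.2.2.1 + v.1 / 2 ^ p.i * s.2.2.2.2.2 -
        v.2 / 2 ^ p.f * (s.2.2.1 + v.1 / 2 ^ p.i * s.2.2.2.1)),
      Cls.scale (o.zx_tl k p.f) (u w fun s v => s.2.2.2.2.2 - v.2 / 2 ^ p.f * s.2.2.2.1)⟩
  exact ⟨fun a => have w := c (z.1 a.zg)
    ⟨a.one, h, z.1 a.zg, w.1.1 a.t, w.2.1.1 a.E, w.2.2.1.1 a.D, w.2.2.2.1 a.c⟩,
    fun a => have w := c a.zg
    ⟨a.one, bx_θ.trans h, z.2 a.zg, w.1.2 a.t, w.2.1.2 a.E, w.2.2.1.2 a.D, w.2.2.2.2 a.c⟩⟩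

theorem sh_pm {i : ℕ} (h : o.f k ≤ o.f (k + i)) : o.sh k ((o.zm k).pm i) = o.pm (k + i) := by
  simp only [sh, pm, lab, Pm.mk.injEq, true_and]; omega

theorem fn_zl : Fn P (o.zx k).l (o.wn k) := fun a ha b hb e => by
  have e0 : o.S k a = o.S k b := bx_lz le_rfl le_rfl a ha b hb e
  simp only [wn, Pl.lz, Pl.l, Pl.zg, Prod.mk.injEq] at e
  obtain ⟨⟨e1, e2, e3, e4, -⟩, e6, e7⟩ := e
  simp only [Pl.l, zx, Pl.nm, Pl.y1, Pl.tl, rn, e0, e1, e2, e3, e4, e6, e7]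

theorem fn_lz' : Fn P (o.wn k) (o.zx k).l := fun a _ b _ e => by
  simp only [Pl.l, Prod.mk.injEq] at e
  obtain ⟨e1, e2, e3, e4, e5⟩ := e
  have u1 := eq_of_fr e1 (congrArg (·.2.2.1) e5)
  have u2 := eq_of_fr e2 (congrArg (·.2.2.2.2.1) e5)
  have u3 := eq_of_fr e3 (congrArg (·.2.2.2.1) e5)
  have u4 := eq_of_fr e4 (congrArg (·.2.2.2.2.2) e5)
  have u5 : fl1 k (o.x.z a) = fl1 k (o.x.z b) := congrArg (·.2.1.1) e5
  have u6 : fl1 (o.f k) (o.x.g a) = fl1 (o.f k) (o.x.g b) := congrArg (·.2.1.2) e5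
  have u7 : o.x.θ a = o.x.θ b := congrArg (·.1) e5
  rw [Pl.nm, Pl.nm, u1] at u2
  simp only [Pl.y1, Pl.tl, rn, u3, u5, u6, add_left_inj, sub_left_inj] at u1 u2 u4
  rw [u4, add_left_inj] at u2
  simp only [wn, Pl.lz, Pl.l, Pl.zg, u1, u2, u3, u4, u5, u6, u7]

theorem rd_pm {a b : ℕ} (h : a ≤ b) (m : o.f a ≤ o.f b) : (o.pm a).Rd (o.pm b) := by
  simp only [Pm.Rd, pm, lab]; omega

theorem kn_S' {a b : ℕ} (h : a ≤ b) (m : o.f a ≤ o.f b) : Kn P o.x (o.S b) (o.pm a) (4 * 1) :=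
  (Kn.of_fn (Fn.rfl _)).move ((fn_zg h m).trans bx_zg) (rd_pm h m)

theorem kn_A {i : ℕ} (m : o.f k ≤ o.f (k + i)) :
    Kn P (o.zx k) (fun ω => (o.S k ω, o.S (k + i) ω)) ((o.zm k).pm i) 1 :=
  (kn_zm (Fn.fst _ _)).1 (sh_pm m ▸ Kn.of_fn (Fn.snd _ _))

theorem ch_A {i : ℕ} (m : o.f k ≤ o.f (k + i)) : ch P ((o.zm k).S i) (o.S (k + i)) ≤ 56 := by
  linarith [ch_tri (P := P) ((o.zm k).S i) (o.S k) (o.S (k + i)), (kn_A (P := P) m).ch,
    (kn_S' (P := P) (k.le_add_right i) m).ch,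
    show ch P ((o.zx k).Bx _) _ = ch P ((o.zm k).S i) fun ω => (o.S k ω, o.S (k + i) ω) from rfl,
    show ch P (o.x.Bx _) _ = ch P (o.S k) (o.S (k + i)) from rfl]

theorem ch_B {i : ℕ} (m : o.f k ≤ o.f (k + i)) : ch P (o.S (k + i)) ((o.zm k).S i) ≤ 16 := by
  have := ((kn_zm (P := P) (G := (o.zm k).S i) (bx_θ (x := o.zx k))).2 (Kn.of_fn (Fn.rfl _))).ch
  rw [sh_pm m] at this
  exact this.trans (by norm_num)

theorem fn_w (a : ℕ) : Fn P (o.w (k + a)) ((o.zm k).w a) := fun u hu v hv e =>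
  Prod.ext (congrArg (·.1) (fn_lz' u hu v hv (congrArg (·.1) e :)) :)
    ((fl1_fr_iff (congrArg (·.1.2.2.2.2.2.1.1) e)).1 (congrArg Prod.snd e))

theorem fn_w' (a : ℕ) :
    Fn P ((o.zm k).w a) fun ω => (fl1 (o.f k) (o.x.g ω), o.w (k + a) ω) := fun u hu v hv e =>
  have z := fl1_eq_of_le (k.le_add_right a) (congrArg (·.2.2) e)
  Prod.ext (fn_zl u hu v hv (Prod.ext (congrArg (·.2.1) e) (Prod.ext z (congrArg (·.1) e))))
    ((fl1_fr_iff z).2 (congrArg (·.2.2) e))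

theorem hz_le (a b : ℕ) : (o.zm k).hz a b ≤ o.hz (k + a) (k + b) :=
  ch_le (fun _ _ _ _ e => (fl1_fr_iff (congrArg (·.2.1.2.2.2.2.2.1.1) e)).2 (congrArg Prod.fst e))
    (fn_w (P := o.P) a)

theorem le_hz (a b : ℕ) : o.hz (k + a) (k + b) ≤ (o.zm k).hz a b +
    ch o.P (fun ω => fl1 (o.f k) (o.x.g ω)) (o.w k) :=
  (ch_tri' _ _ ((o.zm k).w a)).trans (add_le_add (ch_mono fun _ _ _ _ e =>
    (fl1_fr_iff (congrArg (·.2.1.2.2.2.2.2.1.1) e)).1 (congrArg Prod.fst e))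
    (ch_le (fn_w' a) fun _ _ _ _ e => Prod.ext (congrArg (·.1) e :)
      (fl1_eq_of_le (k.le_add_right a) (congrArg Prod.snd e))))

theorem J_zm {a b : ℕ} (m : o.f k ≤ o.f (k + a)) (m' : o.f k ≤ o.f (k + b)) :
    (o.zm k).J a b ≤ o.J (k + a) (k + b) + 72 := by
  have a1 : ch o.P (o.zx k).l ((o.zm k).S a) ≤ ch o.P o.x.l ((o.zm k).S a) :=
    ch_mono fun u hu v hv e => fn_zl u hu v hv
      (Prod.ext (congrArg (·.1) e :) (congrArg (·.2.1.2.1) e :))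
  have a2 : ch o.P o.x.l ((o.zm k).S b) ≤ ch o.P (o.zx k).l ((o.zm k).S b) :=
    ch_mono fun u hu v hv e => congrArg Prod.fst (fn_lz' u hu v hv (congrArg Prod.fst e))
  unfold J
  linarith [ch_tri' (P := o.P) o.x.l ((o.zm k).S a) (o.S (k + a)), ch_B (P := o.P) m,
    ch_tri' (P := o.P) o.x.l (o.S (k + b)) ((o.zm k).S b), ch_A (P := o.P) m']

theorem ep_iff {D : ℕ} {u v : o.Ω} (h : fl1 o.d (o.x.e1 u) = fl1 o.d (o.x.e1 v)) :
    (o.zm k).ep D u = (o.zm k).ep D v ↔ o.ep D u = o.ep D v := by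
  simp only [ep, zero_add]; exact fl1_fr_iff h

theorem alg_zm (h : o.Alg) (e : k ≤ o.j) : (o.zm k).Alg := by
  have b : ∀ s : ℝ, |Int.fract s| ≤ 1 := fun s => by
    rw [Int.abs_fract]; exact (Int.fract_lt_one s).le
  refine ⟨fun ω hω => ⟨b _, b _, b _, b _, Int.fract_nonneg _, Int.fract_lt_one _, b _, ?_⟩,
    fun a c q => Nat.sub_le_sub_right (h.mono (by omega)) _, ?_⟩
  · have a1 := rn_add (o.f k) (o.f o.j - o.f k) (o.x.g ω)
    rw [Nat.add_sub_cancel' (h.mono e), (h.box ω hω).2.2.2.2.2.2.2] at a1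
    simp only [Nat.add_sub_cancel' e, zx]
    rw [fr_eq] at a1 ⊢
    rw [← sub_eq_iff_eq_add', eq_div_iff (by positivity)] at a1
    rw [← a1, rn]; field_simp
  · have := h.flo
    simp only [Nat.add_sub_cancel' e]; omega

end Ob

section Seq

variable {κ r ι : ℝ} {o : ℕ → Ob} {k R D a b : ℕ → ℕ}

theorem In.zm (h : In (fun _ => 0) R a b) : In k R (fun n => k n + a n) fun n => k n + b n :=
  h.mono fun n u => by simp only at u ⊢; omega

theorem NA.fr {Ω β β' : ℕ → Type} {P : ∀ n, FP (Ω n)} {x : ∀ n, Ω n → ℝ} {X : ∀ n, Ω n → β n}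
    {X' : ∀ n, Ω n → β' n} {j : ℕ → ℕ} (h : NA P x (fun n => 1 / 2 ^ (j n + b n)) X)
    (e : ∀ᶠ n in UF, Fn (P n) (fun ω => (X' n ω, fl1 (j n) (x n ω))) (X n)) :
    NA P (fun n ω => Int.fract (2 ^ j n * x n ω)) (fun n => 1 / 2 ^ b n) X' := fun m =>
  (h.ev (m := fun n ω => (m n (X' n ω) + fl1 (j n) (x n ω)) / 2 ^ j n) (e.mono fun n u =>
    (Fn.comp (fun v : β' n × ℤ => (m n v.1 + v.2) / 2 ^ j n) _).trans u)).mono
    (.of_forall fun n ω _ v => by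
      have p : (0 : ℝ) < 2 ^ j n := by positivity
      rw [show Int.fract (2 ^ j n * x n ω) - m n (X' n ω) = 2 ^ j n *
        (x n ω - (m n (X' n ω) + fl1 (j n) (x n ω)) / 2 ^ j n) by rw [fr_eq]; field_simp; ring,
        abs_mul, abs_of_pos p, ← div_le_iff₀' p, div_div, ← pow_add, add_comm (b n)]
      exact v)

theorem in_kk : In k R k k := .of_forall fun n => by omega

theorem Tan.zm (h : Tan κ r ι o k R D) : Tan κ r ι (fun n => (o n).zm (k n)) (fun _ => 0) R D := by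
  have m : ∀ᶠ n in UF, ∀ i, (o n).f (k n) ≤ (o n).f (k n + i) :=
    h.alg.mono fun n u i => u.1.mono (by omega)
  have nA : ∀ a : ℕ → ℕ, Nd (oP o) R (fun n => ((o n).zm (k n)).S (a n))
      fun n => (o n).S (k n + a n) := fun a => .bd h.big (m.mono fun n u => Ob.ch_A (u _))
  have nB : ∀ a : ℕ → ℕ, Nd (oP o) R (fun n => (o n).S (k n + a n))
      fun n => ((o n).zm (k n)).S (a n) := fun a => .bd h.big (m.mono fun n u => Ob.ch_B (u _))
  refine ⟨⟨⟨h.big, h.alg.mono fun n u => ⟨Ob.alg_zm u.1 (by omega), by simp only; omega⟩,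
    fun W Q ρ d a b i => ?_⟩, ⟨fun a i => ?_, fun a b i fr e => ?_⟩, ?_, fun b fr => ?_⟩,
    fun a b i => ?_, fun W Q ρ d a b i => ?_, h.cap, fun a b i => ?_, fun a b i => ?_⟩
  · obtain ⟨h1, h2⟩ := h.hgt W Q ρ d _ _ i.zm
    refine ⟨h1.of2 (d.sm_ch (h.det k in_kk)) (.of_forall fun n => ?_),
      h2.of_sub (.of_forall fun n => ?_)⟩
    · have : ((o n).pull (Q n) (ρ n)).hz (k n + a n) (k n + b n) ≤
          (((o n).zm (k n)).pull (Q n) (ρ n)).hz (a n) (b n) + ch (Q n)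
            (fun v => fl1 ((o n).f (k n)) ((o n).x.g (ρ n v))) fun v => (o n).w (k n) (ρ n v) :=
        Ob.le_hz (o := (o n).pull (Q n) (ρ n)) (k := k n) (a n) (b n)
      push_cast; linarith
    · have := Ob.hz_le (o := (o n).pull (Q n) (ρ n)) (k := k n) (a n) (b n)
      push_cast; exact sub_le_sub this (le_of_eq (by ring))
  · refine (h.det _ i.zm).mono (m.mono fun n u => ch_le (fun _ _ _ _ e => ?_)
      (Ob.fn_w (P := (o n).P) _))
    refine (fl1_fr_iff (congrArg (·.2.1.2.2.2.2.2.1.2) e)).2 ?_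
    rw [Nat.add_sub_cancel' (u _)]; exact congrArg Prod.fst e
  · refine NA.fr (j := fun n => (o n).f (k n)) (NA.mono (h.nd _ b i.zm fr
      ((e.and (h.alg.and m)).mono fun n ⟨u, v, w⟩ => ?_)) (m.mono fun n u => ?_)
      (.of_forall fun _ => Fn.rfl _)) (m.mono fun n u p hp q hq e => ?_)
    · have := w (a n)
      have u' : (o n).f (k n + a n) - (o n).f (k n) + b n ≤
        (o n).f (k n + ((o n).j - k n)) - (o n).f (k n) := u
      have := v.1.mono (show k n ≤ (o n).j by omega)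
      rw [Nat.add_sub_cancel' (show k n ≤ (o n).j by omega)] at u'; omega
    · rw [← add_assoc, Nat.add_sub_cancel' (u _)]
    · have e1 := fn_lz (x := (o n).x) (Nat.le_add_right _ _) (u (a n)) p hp q hq e
      exact Prod.ext (Prod.ext (Ob.fn_zl (o := o n) p hp q hq e1) ((Ob.zg_iff (o := o n)
        (bx_lz (x := (o n).x) (p := (o n).pm (k n)) le_rfl le_rfl p hp q hq e1) _ _).2 (by
          rw [Nat.add_sub_cancel' (u _)]; exact congrArg Prod.snd e))) (congrArg (·.2.2) e1)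
  · filter_upwards [h.deep, h.alg, m] with n u v w
    have := w (R n)
    simp only [Nat.add_sub_cancel' (show k n ≤ (o n).j by omega), zero_add]; omega
  · have n1 := ((h.ne b fr).det (h.alg.mono fun n u =>
      (Ob.kn_S' (show k n ≤ (o n).j by omega) (u.1.mono (by omega))).det)).det
        (F := fun n => ((o n).zm (k n)).S ((o n).j - k n)) ((h.alg.and m).mono fun n ⟨u, v⟩ => by
          have := (Ob.kn_A (P := (o n).P) (v ((o n).j - k n))).det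
          rwa [Nat.add_sub_cancel' (show k n ≤ (o n).j by omega)] at this)
    exact (NA.fr n1 (.of_forall fun n p _ q _ e => Prod.ext (congrArg (·.1) e :)
      (congrArg (·.2.1.2.2.2.1) e))).mono (.of_forall fun n => by rw [zero_add])
        (.of_forall fun _ => Fn.rfl _)
  · obtain ⟨h1, h2⟩ := h.lin _ _ i.zm
    refine ⟨h1.of_sub (m.mono fun n u => ?_), h2.of_sub (m.mono fun n u => ?_)⟩ <;>
    · rw [Nat.cast_sub (u _), Nat.cast_sub (u _)]; push_cast; exact le_of_eq (by ring)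
  · refine (h.up W Q ρ d _ _ i.zm).of2 (h.big.sm 72) (m.mono fun n u => ?_)
    have := Ob.J_zm (o := (o n).pull (Q n) (ρ n)) (k := k n) (u (a n)) (u (b n))
    push_cast; exact le_trans (sub_le_sub_right this _) (le_of_eq (by ring))
  · have n1 := Nd.le (P := oP o) (F := fun n => ((o n).zm (k n)).ep (D n))
      (F' := fun n => (o n).ep (D n)) (.fn fun n _ _ _ _ e =>
        (Ob.ep_iff (congrArg (·.2.1.2.2.2.1) e)).2 (congrArg Prod.fst e)) (nB a)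
    have n2 := Nd.le (P := oP o) (F := fun n => (o n).ep (D n))
      (F' := fun n => ((o n).zm (k n)).ep (D n))
      (G := fun n ω => ((o n).S (k n + b n) ω, (o n).S (k n + a n) ω)) (.fn fun n _ _ _ _ e =>
        (Ob.ep_iff (congrArg (·.2.1.2.2.2.1) e)).1 (congrArg Prod.fst e))
      (((nA b).anti fun _ => Fn.fst _ _).pair ((nA a).anti fun _ => Fn.snd _ _))
    exact (h.ind _ _ i.zm).of3 n1 n2 (.of_forall fun n => by unfold mi; linarith)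
  · refine (h.lat _ _ i.zm).of2 (Nd.le (P := oP o)
      (F := fun n ω => fl1 (k n + b n + (o n).d) ((o n).x.y1 (k n + a n) ω))
      (G := fun n ω => ((o n).S (k n + a n) ω, (o n).ep (D n) ω))
      (F' := fun n ω => fl1 (b n + 0) (((o n).zx (k n)).y1 (a n) ω))
      (G' := fun n ω => (((o n).zm (k n)).S (a n) ω, ((o n).zm (k n)).ep (D n) ω))
      (Nd.cut (((nA a).anti fun _ => Fn.fst _ _).anti fun _ => Fn.snd _ _)
        (Nd.cls h.big (h.big.sub le_rfl) (.of_forall fun n => ?_)))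
      (((nA a).anti fun _ => Fn.fst _ _).pair (.fn fun n _ _ _ _ e =>
        (Ob.ep_iff (congrArg (·.1.2.2.2.1) e)).2 (congrArg Prod.snd e))))
      (.of_forall fun n => by push_cast; exact le_of_eq (by ring))
    rw [show k n + b n + (o n).d = k n + (o n).d + (b n + 0) by omega]
    refine (Cls.scale ((o n).zx_y1 (k n) (a n)) fun p _ q _ e => ?_).2
      (Cls.of_fn fun _ _ _ _ e => congrArg (·.2.1) e)
    exact congrArg (fun v : (_ × (ℤ × ℤ) × ℤ × ℤ × ℤ × ℤ) × (ℤ × ℤ) × ℤ × ℤ × ℤ × ℤ =>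
      ((v.1.2.2.1 : ℝ) + v.2.1.1 / 2 ^ a n * v.1.2.2.2.1)) (congrArg Prod.fst e)

/-- Inside the cell all coordinates lie in the unit interval. -/
structure Nrm (o : ℕ → Ob) : Prop where
  d : ∀ n, (o n).d = 0
  f : ∀ n, (o n).f 0 = 0
  box : ∀ n ω, (0 ≤ (o n).x.a1 ω ∧ (o n).x.a1 ω < 1) ∧ (0 ≤ (o n).x.a2 ω ∧ (o n).x.a2 ω < 1) ∧
    (0 ≤ (o n).x.e1 ω ∧ (o n).x.e1 ω < 1) ∧ (0 ≤ (o n).x.e2 ω ∧ (o n).x.e2 ω < 1) ∧
    (0 ≤ (o n).x.z ω ∧ (o n).x.z ω < 1) ∧ 0 ≤ (o n).x.g ω ∧ (o n).x.g ω < 1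

theorem nrm_zm (o : ℕ → Ob) (k : ℕ → ℕ) : Nrm fun n => (o n).zm (k n) :=
  have b : ∀ s : ℝ, 0 ≤ Int.fract s ∧ Int.fract s < 1 := fun s =>
    ⟨Int.fract_nonneg s, Int.fract_lt_one s⟩
  ⟨fun _ => rfl, fun _ => Nat.sub_self _, fun _ _ => ⟨b _, b _, b _, b _, b _, b _⟩⟩

theorem Nrm.pull (h : Nrm o) {W : ℕ → Type} (Q : ∀ n, FP (W n)) (ρ : ∀ n, W n → (o n).Ω) :
    Nrm fun n => (o n).pull (Q n) (ρ n) := ⟨h.d, h.f, fun n v => h.box n (ρ n v)⟩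

/-- The affine relation inside the cell. -/
def Com0 (c : ℝ) (o : ℕ → Ob) (R D : ℕ → ℕ) : Prop :=
  ∃ (Λ : ℕ → Type) (la : ∀ n, (o n).Ω → Λ n) (ko c0 : ∀ n, Λ n → ℝ) (L : ℕ → ℝ),
    Sub R L ∧ Nd (oP o) R la (fun n ω => ((o n).x.θ ω, fl1 (D n) ((o n).x.e1 ω))) ∧
    Whp (oP o) fun n ω => 1 ≤ L n * |ko n (la n ω)| ∧ |ko n (la n ω)| ≤ L n ∧
      |(o n).x.e2 ω - ko n (la n ω) * (o n).x.a1 ω - c0 n (la n ω)| ≤ Real.exp (-(c * R n))

theorem Com.zm {c : ℝ} (h : Com c o k R D) : Com0 c (fun n => (o n).zm (k n)) R D := by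
  obtain ⟨Λ, la, ko, c0, L, h1, h2, h3⟩ := h
  have f : ∀ n, Fn (o n).P (fun ω => ((o n).S (k n) ω, (o n).ep (D n) ω)) fun ω =>
      ((o n).S (k n) ω, fl1 (D n) (Int.fract (2 ^ (o n).d * (o n).x.e1 ω))) := fun n p _ q _ e =>
    Prod.ext (Prod.mk.inj e).1 ((fl1_fr_iff (j := (o n).d) (s := (o n).x.e1 p)
      (t := (o n).x.e1 q) (congrArg (·.2.2.2.1) (Prod.mk.inj e).1)).1 (Prod.mk.inj e).2)
  have h4 := (Nd.anti (P := oP o) h2 f).pair (.fn fun _ => Fn.fst _ _)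
  refine ⟨_, fun n ω => (la n ω, (o n).S (k n) ω), fun n v => ko n v.1,
    fun n v => c0 n v.1 + ko n v.1 * v.2.2.2.1 - v.2.2.2.2.2.2, L, h1, h4,
    h3.mono (.of_forall fun n ω _ u => ⟨u.1, u.2.1, le_trans (le_of_eq (congrArg _ ?_)) u.2.2⟩)⟩
  simp only [Ob.zx, fr_eq, Ob.S, Pl.Bx, Ob.pm, lab]; ring

end Seq

end Pool.Agent.MP_5168f5_an.MX
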